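import Mathlib
import Pool.Agent.H305R2.MertensE
import Pool.Agent.Helper923.PNT

set_option autoImplicit false

/-! # The number of integers up to `y` free of prime factors up to about `√y` -/

open Filter Finset
open scoped Topology

namespace Pool.Agent.R528.RM

/-- integers in `[1, y]` free of prime factors `≤ T` -/
noncomputable def roughs (T y : ℕ) : Finset ℕ := by
  classical
  exact (Finset.Icc 1 y).filter (fun r => ∀ p, p.Prime → p ∣ r → T < p)

lemma mem_roughs {T y r : ℕ} : r ∈ roughs T y ↔ (1 ≤ r ∧ r ≤ y) ∧ ∀ p, p.Prime → p ∣ r → T < p := by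
  classical
  unfold roughs
  simp [Finset.mem_filter]

/-- the combinatorial bound -/
lemma roughs_card (T y : ℕ) (hT : y < T ^ 3) :
    (roughs T y).card ≤ 1 + Nat.primeCounting y +
      ∑ p ∈ (Finset.Ioc T (Nat.sqrt y)).filter Nat.Prime, Nat.primeCounting (y / p) := by
  classical
  have hsub : roughs T y ⊆ ({1} ∪ (Finset.Icc 1 y).filter Nat.Prime) ∪
      ((Finset.Ioc T (Nat.sqrt y)).filter Nat.Prime).biUnion (fun p => ((Finset.Icc 1 (y / p)).filter Nat.Prime).image (fun s => p * s)) := by
    intro r hr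
    rw [mem_roughs] at hr
    obtain ⟨⟨h1, h2⟩, h3⟩ := hr
    rcases Nat.lt_or_ge 1 r with hr1 | hr1
    swap
    · have : r = 1 := by omega
      subst this
      simp
    by_cases hp : r.Prime
    · simp only [Finset.mem_union, Finset.mem_singleton, Finset.mem_filter, Finset.mem_Icc]
      exact Or.inl (Or.inr ⟨⟨h1, h2⟩, hp⟩)
    -- composite
    have hq : r.minFac.Prime := Nat.minFac_prime (by omega)
    have hqT := h3 _ hq (Nat.minFac_dvd r)
    have hsq : r.minFac ^ 2 ≤ r := Nat.minFac_sq_le_self (by omega) hp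
    obtain ⟨s, hs⟩ := Nat.minFac_dvd r
    set q := r.minFac with hqdef
    have hqs : q ≤ s := by
      have : q * q ≤ q * s := by rw [← hs, ← sq]; exact hsq
      exact Nat.le_of_mul_le_mul_left this hq.pos
    have hs1 : 1 < s := lt_of_lt_of_le hq.one_lt hqs
    have hsp : s.Prime := by
      by_contra hns
      have hq' : s.minFac.Prime := Nat.minFac_prime (by omega)
      have h4 : T < s.minFac := h3 _ hq' (dvd_trans (Nat.minFac_dvd s) (Dvd.intro_left q hs.symm))
      have h5 : s.minFac ^ 2 ≤ s := Nat.minFac_sq_le_self (by omega) hns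
      have h6 : T ^ 3 ≤ r := by
        calc T ^ 3 = T * T ^ 2 := by ring
          _ ≤ q * s := Nat.mul_le_mul hqT.le ((Nat.pow_le_pow_left h4.le 2).trans h5)
          _ = r := hs.symm
      omega
    simp only [Finset.mem_union, Finset.mem_biUnion, Finset.mem_filter, Finset.mem_Ioc, Finset.mem_image, Finset.mem_Icc]
    right
    refine ⟨q, ⟨⟨hqT, ?_⟩, hq⟩, s, ⟨⟨hs1.le, ?_⟩, hsp⟩, hs.symm⟩
    · rw [Nat.le_sqrt, ← sq]
      exact hsq.trans h2
    · rw [Nat.le_div_iff_mul_le hq.pos, mul_comm, ← hs]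
      exact h2
  have hpc : ∀ m : ℕ, ((Finset.Icc 1 m).filter Nat.Prime).card = Nat.primeCounting m := by
    intro m
    rw [Nat.primeCounting, Nat.primeCounting', Nat.count_eq_card_filter_range]
    congr 1
    ext p
    simp only [Finset.mem_filter, Finset.mem_Icc, Finset.mem_range]
    constructor
    · rintro ⟨⟨_, h⟩, hp⟩
      exact ⟨by omega, hp⟩
    · rintro ⟨h, hp⟩
      exact ⟨⟨hp.one_lt.le, by omega⟩, hp⟩
  refine (Finset.card_le_card hsub).trans ((Finset.card_union_le _ _).trans (add_le_add ?_ ?_))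
  · refine (Finset.card_union_le _ _).trans ?_
    rw [hpc, Finset.card_singleton]
  · refine Finset.card_biUnion_le.trans (Finset.sum_le_sum fun p _ => ?_)
    refine Finset.card_image_le.trans (le_of_eq (hpc _))

/-- the Mertens product -/
noncomputable def MM (N : ℕ) : ℝ := ∏ p ∈ (Finset.Icc 1 N).filter Nat.Prime, (1 - (p : ℝ)⁻¹)⁻¹

lemma MM_lim : Tendsto (fun N : ℕ => MM N / Real.log N) atTop (𝓝 (Real.exp Real.eulerMascheroniConstant)) :=
  Pool.Agent.H305R2.mertens_three

lemma MM_fac {p : ℕ} (hp : p.Prime) : 0 < 1 - (p : ℝ)⁻¹ ∧ 1 ≤ (1 - (p : ℝ)⁻¹)⁻¹ := by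
  have h2 : (2 : ℝ) ≤ p := by exact_mod_cast hp.two_le
  have h3 : (p : ℝ)⁻¹ ≤ 2⁻¹ := inv_anti₀ (by norm_num) h2
  have h4 : 0 < (p : ℝ)⁻¹ := by positivity
  have h5 : 0 < 1 - (p : ℝ)⁻¹ := by norm_num at h3; linarith
  exact ⟨h5, (one_le_inv₀ h5).2 (by linarith)⟩

lemma MM_pos (N : ℕ) : 0 < MM N := by
  unfold MM
  refine Finset.prod_pos fun p hp => ?_
  have := (MM_fac (Finset.mem_filter.1 hp).2).1
  positivity

/-- sum of reciprocals of primes in an interval -/
lemma sum_inv_le {T Y : ℕ} (h : T ≤ Y) :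
    ∑ p ∈ (Finset.Ioc T Y).filter Nat.Prime, (1 : ℝ) / p ≤ Real.log (MM Y / MM T) := by
  have h1 : MM Y = MM T * ∏ p ∈ (Finset.Ioc T Y).filter Nat.Prime, (1 - (p : ℝ)⁻¹)⁻¹ := by
    unfold MM
    rw [← Finset.prod_union]
    · congr 1
      ext p
      simp only [Finset.mem_filter, Finset.mem_Icc, Finset.mem_union, Finset.mem_Ioc]
      constructor
      · rintro ⟨⟨h1, h2⟩, h3⟩
        rcases Nat.lt_or_ge T p with h4 | h4
        · exact Or.inr ⟨⟨h4, h2⟩, h3⟩
        · exact Or.inl ⟨⟨h1, h4⟩, h3⟩
      · rintro (⟨⟨h1, h2⟩, h3⟩ | ⟨⟨h1, h2⟩, h3⟩)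
        · exact ⟨⟨h1, by omega⟩, h3⟩
        · exact ⟨⟨by omega, h2⟩, h3⟩
    · rw [Finset.disjoint_left]
      intro p hp hq
      simp only [Finset.mem_filter, Finset.mem_Icc, Finset.mem_Ioc] at hp hq
      omega
  rw [h1, mul_div_cancel_left₀ _ (MM_pos T).ne', Real.log_prod (fun p hp => by
    have := (MM_fac (Finset.mem_filter.1 hp).2).1
    positivity)]
  refine Finset.sum_le_sum fun p hp => ?_
  have h2 := (MM_fac (Finset.mem_filter.1 hp).2).1
  rw [Real.log_inv]
  have h3 := Real.log_le_sub_one_of_pos h2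
  rw [one_div]
  linarith

/-- the prime number theorem for natural numbers -/
lemma pnt_nat : Tendsto (fun n : ℕ => (Nat.primeCounting n : ℝ) * Real.log n / n) atTop (𝓝 1) := by
  have h := Pool.Agent.Helper923.PNT.pi_tendsto.comp (tendsto_natCast_atTop_atTop (R := ℝ))
  refine h.congr fun n => ?_
  simp

/-- the number of integers up to `y` without prime factors up to `T = y^(1/2+o(1))` -/
theorem rough_asymp {y T : ℕ → ℕ} (hy : Tendsto y atTop atTop)
    (hT : Tendsto (fun i => Real.log (T i) / Real.log (y i)) atTop (𝓝 (1 / 2))) {δ : ℝ} (hδ : 0 < δ) :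
    ∀ᶠ i in atTop, ((roughs (T i) (y i)).card : ℝ) ≤ (1 + δ) * y i / Real.log (y i) := by
  have hly : Tendsto (fun i => Real.log (y i : ℝ)) atTop atTop :=
    Real.tendsto_log_atTop.comp (tendsto_natCast_atTop_atTop.comp hy)
  have hlT : Tendsto (fun i => Real.log (T i : ℝ)) atTop atTop := by
    have h1 := hT.pos_mul_atTop (by norm_num) hly
    refine h1.congr' ?_
    filter_upwards [hly.eventually_gt_atTop 0] with i hi
    field_simp
  have hTt : Tendsto T atTop atTop := by
    rw [tendsto_atTop]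
    intro b
    filter_upwards [hlT.eventually_gt_atTop (Real.log b), hlT.eventually_gt_atTop 0] with i hi hi2
    by_contra h
    push Not at h
    rcases Nat.eq_zero_or_pos (T i) with h0 | h0
    · rw [h0] at hi2
      simp at hi2
    · have := Real.log_le_log (show (0 : ℝ) < T i by exact_mod_cast h0) (show (T i : ℝ) ≤ b by exact_mod_cast h.le)
      linarith
  -- the square root
  set Y : ℕ → ℕ := fun i => Nat.sqrt (y i) with hY
  have hY1 : ∀ i, 0 < y i → 2 * Real.log (Y i) ≤ Real.log (y i) ∧ Real.log (y i) ≤ 2 * Real.log (Y i) + Real.log 4 := by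
    intro i hi
    have h1 : 0 < Y i := Nat.sqrt_pos.2 hi
    have h2 : Y i * Y i ≤ y i := Nat.sqrt_le (y i)
    have h3 : y i < (Y i + 1) * (Y i + 1) := Nat.lt_succ_sqrt (y i)
    have h1' : (1 : ℝ) ≤ Y i := by exact_mod_cast h1
    have h2' : (Y i : ℝ) * Y i ≤ y i := by exact_mod_cast h2
    have h3' : (y i : ℝ) < (Y i + 1) * (Y i + 1) := by exact_mod_cast h3
    have hyi : (0 : ℝ) < y i := by exact_mod_cast hi
    constructor
    · have := Real.log_le_log (by positivity) h2'
      rw [Real.log_mul (by linarith) (by linarith)] at this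
      linarith
    · have h4 : (y i : ℝ) ≤ 4 * (Y i * Y i) := by nlinarith
      have := Real.log_le_log hyi h4
      rw [Real.log_mul (by norm_num) (by positivity), Real.log_mul (by linarith) (by linarith)] at this
      linarith
  have hlY : Tendsto (fun i => Real.log (Y i : ℝ) / Real.log (y i)) atTop (𝓝 (1 / 2)) := by
    have h1 : Tendsto (fun i => 1 / 2 - Real.log 4 / (2 * Real.log (y i : ℝ))) atTop (𝓝 (1 / 2 - 0)) :=
      tendsto_const_nhds.sub (tendsto_const_nhds.div_atTop (hly.const_mul_atTop (by norm_num)))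
    rw [sub_zero] at h1
    refine tendsto_of_tendsto_of_tendsto_of_le_of_le' h1 tendsto_const_nhds ?_ ?_
    · filter_upwards [hly.eventually_gt_atTop 0, hy.eventually_gt_atTop 0] with i hi hi2
      have := (hY1 i hi2).2
      rw [show 1 / 2 - Real.log 4 / (2 * Real.log (y i : ℝ)) = ((Real.log (y i) - Real.log 4) / 2) / Real.log (y i) by field_simp]
      apply div_le_div_of_nonneg_right _ hi.le
      linarith
    · filter_upwards [hly.eventually_gt_atTop 0, hy.eventually_gt_atTop 0] with i hi hi2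
      have := (hY1 i hi2).1
      rw [div_le_div_iff₀ hi (by norm_num)]
      linarith
  have hYt : Tendsto Y atTop atTop := by
    rw [tendsto_atTop]
    intro b
    filter_upwards [hy.eventually_ge_atTop (b * b)] with i hi
    exact Nat.le_sqrt.2 hi
  -- the ratio of Mertens products
  have hratio : Tendsto (fun i => Real.log (MM (Y i) / MM (T i))) atTop (𝓝 0) := by
    have h1 := MM_lim.comp hYt
    have h2 := MM_lim.comp hTt
    have h3 : Tendsto (fun i => Real.log (Y i : ℝ) / Real.log (T i)) atTop (𝓝 ((1 / 2) / (1 / 2))) := by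
      refine (hlY.div hT (by norm_num)).congr' ?_
      filter_upwards [hly.eventually_gt_atTop 0, hlT.eventually_gt_atTop 0] with i hi hi2
      simp only [Pi.div_apply]
      field_simp
    have h4 := (h1.div h2 (Real.exp_pos _).ne').mul h3
    rw [div_self (Real.exp_pos _).ne', show (1 : ℝ) * (1 / 2 / (1 / 2)) = 1 by norm_num] at h4
    have h5 : Tendsto (fun i => MM (Y i) / MM (T i)) atTop (𝓝 1) := by
      refine h4.congr' ?_
      filter_upwards [hlT.eventually_gt_atTop 0, hYt.eventually_gt_atTop 1] with i hi hi2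
      have h6 : 0 < Real.log (Y i : ℝ) := Real.log_pos (by exact_mod_cast hi2)
      have h7 := MM_pos (Y i)
      have h8 := MM_pos (T i)
      show MM (Y i) / Real.log (Y i) / (MM (T i) / Real.log (T i)) * (Real.log (Y i) / Real.log (T i)) = MM (Y i) / MM (T i)
      field_simp
    have h6 := (Real.continuousAt_log one_ne_zero).tendsto.comp h5
    rwa [Real.log_one] at h6
  -- the estimates
  have e1 : ∀ᶠ i in atTop, y i < T i ^ 3 := by
    filter_upwards [hT.eventually (lt_mem_nhds (show (1 / 3 : ℝ) < 1 / 2 by norm_num)), hly.eventually_gt_atTop 0,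
      hTt.eventually_gt_atTop 0, hy.eventually_gt_atTop 0] with i h1 h2 h3 h4
    rw [lt_div_iff₀ h2] at h1
    have h5 : Real.log (y i) < Real.log ((T i : ℝ) ^ 3) := by
      rw [Real.log_pow]
      push_cast
      linarith
    have h6 := (Real.log_lt_log_iff (by exact_mod_cast h4) (by positivity)).1 h5
    exact_mod_cast h6
  have e2 : ∀ᶠ i in atTop, (1 : ℝ) ≤ δ / 4 * y i / Real.log (y i) := by
    have h1 : Tendsto (fun x : ℝ => x / Real.log x) atTop atTop := by
      have h20 : Tendsto (fun x : ℝ => Real.log x / x) atTop (𝓝[>] 0) := by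
        rw [tendsto_nhdsWithin_iff]
        refine ⟨Real.isLittleO_log_id_atTop.tendsto_div_nhds_zero, ?_⟩
        filter_upwards [eventually_gt_atTop 1] with x hx
        exact div_pos (Real.log_pos hx) (by linarith)
      exact (h20.inv_tendsto_nhdsGT_zero).congr fun x => by simp
    have h2 := (h1.comp (tendsto_natCast_atTop_atTop.comp hy)).const_mul_atTop (show 0 < δ / 4 by positivity)
    filter_upwards [h2.eventually_ge_atTop 1] with i hi
    simp only [Function.comp_apply] at hi
    rw [mul_div_assoc]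
    exact hi
  have e3 : ∀ᶠ i in atTop, (Nat.primeCounting (y i) : ℝ) ≤ (1 + δ / 4) * y i / Real.log (y i) := by
    filter_upwards [(pnt_nat.comp hy).eventually (gt_mem_nhds (show (1 : ℝ) < 1 + δ / 4 by linarith)),
      hly.eventually_gt_atTop 0, hy.eventually_gt_atTop 0] with i h1 h2 h3
    simp only [Function.comp_apply] at h1
    have h4 : (0 : ℝ) < y i := by exact_mod_cast h3
    rw [div_lt_iff₀ h4] at h1
    rw [le_div_iff₀ h2]
    exact h1.le
  obtain ⟨m₀, hm₀⟩ := eventually_atTop.1 (pnt_nat.eventually (gt_mem_nhds (show (1 : ℝ) < 2 by norm_num)))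
  have e4 : ∀ᶠ i in atTop, ∀ p ∈ (Finset.Ioc (T i) (Y i)).filter Nat.Prime,
      (Nat.primeCounting (y i / p) : ℝ) ≤ 8 * y i / Real.log (y i) * (1 / p) := by
    filter_upwards [hYt.eventually_ge_atTop m₀, hYt.eventually_ge_atTop 4, hly.eventually_gt_atTop 0] with i h1 h2 h3 p hp
    simp only [Finset.mem_filter, Finset.mem_Ioc] at hp
    obtain ⟨⟨h4, h5⟩, h6⟩ := hp
    have hp0 : (0 : ℝ) < p := by exact_mod_cast h6.pos
    have h7 : Y i ≤ y i / p := by
      rw [Nat.le_div_iff_mul_le h6.pos]
      exact (Nat.mul_le_mul_left _ h5).trans (Nat.sqrt_le (y i))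
    set m := y i / p with hm
    have h8 := hm₀ m (h1.trans h7)
    have hm4 : (4 : ℝ) ≤ m := by exact_mod_cast h2.trans h7
    rw [div_lt_iff₀ (by linarith)] at h8
    have h9 : Real.log (y i) ≤ 4 * Real.log m := by
      have g1 := (hY1 i (by
        by_contra h
        have : y i = 0 := by omega
        rw [this] at h3
        simp at h3)).2
      have g2 : Real.log (Y i) ≤ Real.log m := Real.log_le_log (by
        have : (4 : ℝ) ≤ Y i := by exact_mod_cast h2
        linarith) (by exact_mod_cast h7)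
      have g3 : Real.log 4 ≤ Real.log m := Real.log_le_log (by norm_num) hm4
      have g4 : 0 < Real.log (m : ℝ) := Real.log_pos (by linarith)
      linarith
    have h10 : (m : ℝ) ≤ y i / p := Nat.cast_div_le
    have g4 : 0 < Real.log (m : ℝ) := Real.log_pos (by linarith)
    have h11 : (Nat.primeCounting m : ℝ) ≤ 2 * m / Real.log m := by
      rw [le_div_iff₀ g4]
      exact h8.le
    calc (Nat.primeCounting m : ℝ) ≤ 2 * m / Real.log m := h11
      _ ≤ 2 * (y i / p) / (Real.log (y i) / 4) := by
          apply div_le_div₀ (by positivity) (by linarith) (by positivity)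
          linarith
      _ = 8 * y i / Real.log (y i) * (1 / p) := by
          field_simp
          ring
  filter_upwards [e1, e2, e3, e4, hratio.eventually (gt_mem_nhds (show (0 : ℝ) < δ / 16 by positivity)),
    hly.eventually_gt_atTop 0] with i h1 h2 h3 h4 h5 h6
  have h7 := roughs_card (T i) (y i) h1
  have h8 : ((roughs (T i) (y i)).card : ℝ) ≤ 1 + Nat.primeCounting (y i) +
      ∑ p ∈ (Finset.Ioc (T i) (Nat.sqrt (y i))).filter Nat.Prime, (Nat.primeCounting (y i / p) : ℝ) := by
    exact_mod_cast h7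
  have h9 : ∑ p ∈ (Finset.Ioc (T i) (Nat.sqrt (y i))).filter Nat.Prime, (Nat.primeCounting (y i / p) : ℝ) ≤
      8 * y i / Real.log (y i) * (δ / 16) := by
    refine (Finset.sum_le_sum h4).trans ?_
    rw [← Finset.mul_sum]
    apply mul_le_mul_of_nonneg_left _ (by positivity)
    rcases le_or_gt (T i) (Y i) with h | h
    · exact (sum_inv_le h).trans h5.le
    · have : Finset.Ioc (T i) (Nat.sqrt (y i)) = ∅ := Finset.Ioc_eq_empty (by
        show ¬ T i < Nat.sqrt (y i)
        have : Nat.sqrt (y i) < T i := h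
        omega)
      rw [this]
      simp only [Finset.filter_empty, Finset.sum_empty]
      positivity
  have h10 : 8 * (y i : ℝ) / Real.log (y i) * (δ / 16) = δ / 2 * (y i / Real.log (y i)) := by ring
  have h11 : (1 + δ) * y i / Real.log (y i) = (1 + δ) * (y i / Real.log (y i)) := by ring
  have h12 : (1 + δ / 4) * y i / Real.log (y i) = (1 + δ / 4) * (y i / Real.log (y i)) := by ring
  have h13 : δ / 4 * y i / Real.log (y i) = δ / 4 * (y i / Real.log (y i)) := by ring
  rw [h11]
  rw [h12] at h3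
  rw [h13] at h2
  rw [h10] at h9
  linarith

end Pool.Agent.R528.RM
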