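import Mathlib

set_option autoImplicit false
set_option linter.unusedSectionVars false

/-! # Adapted random sets: conditional probabilities of runs of absent integers -/

open MeasureTheory Filter Set
open scoped ENNReal

namespace Pool.Agent.R528.RM

variable {Ω : Type} {m0 : MeasurableSpace Ω} (μ : Measure Ω) [IsProbabilityMeasure μ]
  (ℱ : Filtration ℕ m0) (A : ℕ → Set Ω)

/-- the conditional probability of `n + 1 ∈ A` given the information up to `n` -/
noncomputable def dens (n : ℕ) : Ω → ℝ := μ[(A (n + 1)).indicator (fun _ => (1 : ℝ)) | ℱ n]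

variable {μ ℱ A}

lemma dens_meas (n : ℕ) : StronglyMeasurable[ℱ n] (dens μ ℱ A n) := stronglyMeasurable_condExp

lemma setInt_dens (hA : ∀ n, MeasurableSet[ℱ n] (A n)) (n : ℕ) {B : Set Ω}
    (hB : MeasurableSet[ℱ n] B) : ∫ ω in B, dens μ ℱ A n ω ∂μ = μ.real (B ∩ A (n + 1)) := by
  have hA' : MeasurableSet (A (n + 1)) := ℱ.le (n + 1) _ (hA (n + 1))
  unfold dens
  rw [setIntegral_condExp (ℱ.le n) ((integrable_const (1 : ℝ)).indicator hA') hB,
    setIntegral_indicator hA', setIntegral_const, smul_eq_mul, mul_one]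

lemma lower_meas (hA : ∀ n, MeasurableSet[ℱ n] (A n)) (n : ℕ) {B : Set Ω}
    (hB : MeasurableSet[ℱ n] B) {l : ℝ} (hl : ∀ ω ∈ B, l ≤ dens μ ℱ A n ω) :
    l * μ.real B ≤ μ.real (B ∩ A (n + 1)) := by
  have hB' : MeasurableSet B := ℱ.le n _ hB
  rw [← setInt_dens hA n hB]
  have h1 : ∫ ω in B, l ∂μ ≤ ∫ ω in B, dens μ ℱ A n ω ∂μ :=
    setIntegral_mono_on (integrable_const l).integrableOn integrable_condExp.integrableOn hB' hl
  rw [setIntegral_const, smul_eq_mul] at h1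
  linarith

lemma upper_meas (hA : ∀ n, MeasurableSet[ℱ n] (A n)) (n : ℕ) {B : Set Ω}
    (hB : MeasurableSet[ℱ n] B) {u : ℝ} (hu : ∀ ω ∈ B, dens μ ℱ A n ω ≤ u) :
    μ.real (B ∩ A (n + 1)) ≤ u * μ.real B := by
  have hB' : MeasurableSet B := ℱ.le n _ hB
  rw [← setInt_dens hA n hB]
  have h1 : ∫ ω in B, dens μ ℱ A n ω ∂μ ≤ ∫ ω in B, u ∂μ :=
    setIntegral_mono_on integrable_condExp.integrableOn (integrable_const u).integrableOn hB' hu
  rw [setIntegral_const, smul_eq_mul] at h1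
  linarith

/-- the part of `A k` where no violation occurs and the next `j` integers are absent -/
def FF (A V : ℕ → Set Ω) (k : ℕ) : ℕ → Set Ω
  | 0 => A (k + 1) \ V k
  | j + 1 => (FF A V k j \ V (k + 1 + j)) \ A (k + 1 + j + 1)

lemma FF_meas (hA : ∀ n, MeasurableSet[ℱ n] (A n)) {V : ℕ → Set Ω}
    (hV : ∀ n, MeasurableSet[ℱ n] (V n)) (k j : ℕ) : MeasurableSet[ℱ (k + 1 + j)] (FF A V k j) := by
  induction j with
  | zero =>
    exact (hA (k + 1)).diff (ℱ.mono (Nat.le_succ k) _ (hV k))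
  | succ j ih =>
    have h1 := ℱ.mono (Nat.le_succ (k + 1 + j)) _ (ih.diff (hV (k + 1 + j)))
    exact MeasurableSet.diff h1 (hA (k + 1 + j + 1))

/-- upper bound for the probability of a run -/
theorem FF_le (hA : ∀ n, MeasurableSet[ℱ n] (A n)) {V : ℕ → Set Ω}
    (hV : ∀ n, MeasurableSet[ℱ n] (V n)) {l u : ℝ} (hl1 : l ≤ 1) (hu0 : 0 ≤ u) (k J : ℕ)
    (hlu : ∀ n, k ≤ n → n ≤ k + J → ∀ ω, ω ∉ V n → l ≤ dens μ ℱ A n ω ∧ dens μ ℱ A n ω ≤ u) :
    ∀ j ≤ J, μ.real (FF A V k j) ≤ u * (1 - l) ^ j := by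
  intro j
  induction j with
  | zero =>
    intro _
    have h1 := upper_meas (μ := μ) hA k (B := (V k)ᶜ) (hV k).compl (u := u)
      (fun ω hω => (hlu k le_rfl (by omega) ω hω).2)
    have h2 : FF A V k 0 = (V k)ᶜ ∩ A (k + 1) := by
      unfold FF
      rw [sdiff_eq, inter_comm]
    rw [h2, pow_zero, mul_one]
    refine h1.trans ?_
    have h3 : μ.real (V k)ᶜ ≤ 1 := measureReal_le_one
    nlinarith
  | succ j ih =>
    intro hj
    have ih := ih (by omega)
    have hB : MeasurableSet[ℱ (k + 1 + j)] (FF A V k j \ V (k + 1 + j)) :=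
      (FF_meas hA hV k j).diff (hV _)
    have hlow := lower_meas (μ := μ) hA (k + 1 + j) hB (l := l)
      (fun ω hω => (hlu (k + 1 + j) (by omega) (by omega) ω hω.2).1)
    have hA' : MeasurableSet (A (k + 1 + j + 1)) := ℱ.le _ _ (hA _)
    have h1 : μ.real (FF A V k (j + 1)) =
        μ.real (FF A V k j \ V (k + 1 + j)) - μ.real ((FF A V k j \ V (k + 1 + j)) ∩ A (k + 1 + j + 1)) := by
      have := measureReal_inter_add_sdiff (μ := μ) (s := FF A V k j \ V (k + 1 + j)) hA'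
      have h2 : FF A V k (j + 1) = (FF A V k j \ V (k + 1 + j)) \ A (k + 1 + j + 1) := rfl
      rw [h2]
      linarith
    have h3 : μ.real (FF A V k j \ V (k + 1 + j)) ≤ μ.real (FF A V k j) :=
      measureReal_mono sdiff_subset
    have h4 : 0 ≤ μ.real (FF A V k j \ V (k + 1 + j)) := measureReal_nonneg
    rw [h1, pow_succ]
    have h5 : (1 - l) * μ.real (FF A V k j \ V (k + 1 + j)) ≤ (1 - l) * μ.real (FF A V k j) :=
      mul_le_mul_of_nonneg_left h3 (by linarith)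
    have h6 : (1 - l) * μ.real (FF A V k j) ≤ (1 - l) * (u * (1 - l) ^ j) :=
      mul_le_mul_of_nonneg_left ih (by linarith)
    nlinarith

/-- no violation at the indices `t, ..., t + i` -/
def NV (V : ℕ → Set Ω) (t i : ℕ) : Set Ω := {ω | ∀ n, t ≤ n → n ≤ t + i → ω ∉ V n}

lemma NV_meas {V : ℕ → Set Ω} (hV : ∀ n, MeasurableSet[ℱ n] (V n)) (t i : ℕ) :
    MeasurableSet[ℱ (t + i)] (NV V t i) := by
  have h1 : NV V t i = ⋂ n ∈ Finset.Icc t (t + i), (V n)ᶜ := by
    ext ω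
    simp only [NV, mem_ofPred_eq, mem_iInter, Finset.mem_Icc, mem_compl_iff]
    exact ⟨fun h n hn => h n hn.1 hn.2, fun h n h1 h2 => h n ⟨h1, h2⟩⟩
  rw [h1]
  refine Finset.measurableSet_biInter _ fun n hn => ?_
  exact (ℱ.mono (Finset.mem_Icc.1 hn).2 _ (hV n)).compl

/-- runs up to the first violation -/
def GG (A V : ℕ → Set Ω) (B : Set Ω) (t i : ℕ) : ℕ → Set Ω
  | 0 => (B ∩ NV V t i) ∩ A (t + i + 1)
  | j + 1 => GG A V B t i j \ (NV V t (i + 1 + j) ∩ A (t + i + 1 + j + 1))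

lemma GG_meas (hA : ∀ n, MeasurableSet[ℱ n] (A n)) {V : ℕ → Set Ω}
    (hV : ∀ n, MeasurableSet[ℱ n] (V n)) {B : Set Ω} {t : ℕ} (hB : MeasurableSet[ℱ t] B) (i j : ℕ) :
    MeasurableSet[ℱ (t + i + 1 + j)] (GG A V B t i j) := by
  induction j with
  | zero =>
    exact ((ℱ.mono (by omega) _ hB).inter (ℱ.mono (by omega) _ (NV_meas hV t i))).inter (hA _)
  | succ j ih =>
    have h1 := ℱ.mono (Nat.le_succ (t + i + 1 + j)) _ ih
    have h2 : MeasurableSet[ℱ (t + i + 1 + (j + 1))] (NV V t (i + 1 + j)) :=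
      ℱ.mono (by omega) _ (NV_meas hV t (i + 1 + j))
    exact MeasurableSet.diff h1 (h2.inter (hA _))

theorem GG_ge (hA : ∀ n, MeasurableSet[ℱ n] (A n)) {V : ℕ → Set Ω}
    (hV : ∀ n, MeasurableSet[ℱ n] (V n)) {B : Set Ω} {t : ℕ} (hB : MeasurableSet[ℱ t] B)
    {l u : ℝ} (hu0 : 0 ≤ u) (hu1 : u ≤ 1) (i J : ℕ)
    (hlu : ∀ n, t ≤ n → n ≤ t + i + J → ∀ ω, ω ∉ V n → l ≤ dens μ ℱ A n ω ∧ dens μ ℱ A n ω ≤ u) :
    ∀ j ≤ J, l * (1 - u) ^ j * μ.real (B ∩ NV V t i) ≤ μ.real (GG A V B t i j) := by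
  intro j
  induction j with
  | zero =>
    intro _
    have hB' : MeasurableSet[ℱ (t + i)] (B ∩ NV V t i) :=
      (ℱ.mono (by omega) _ hB).inter (NV_meas hV t i)
    have h1 := lower_meas (μ := μ) hA (t + i) hB' (l := l)
      (fun ω hω => (hlu (t + i) (by omega) (by omega) ω (hω.2 _ (by omega) le_rfl)).1)
    simpa [GG] using h1
  | succ j ih =>
    intro hj
    have ih := ih (by omega)
    have hC : MeasurableSet[ℱ (t + i + 1 + j)] (GG A V B t i j ∩ NV V t (i + 1 + j)) :=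
      (GG_meas hA hV hB i j).inter (ℱ.mono (by omega) _ (NV_meas hV t (i + 1 + j)))
    have hup := upper_meas (μ := μ) hA (t + i + 1 + j) hC (u := u)
      (fun ω hω => (hlu (t + i + 1 + j) (by omega) (by omega) ω (hω.2 _ (by omega) (by omega))).2)
    have hA' : MeasurableSet (A (t + i + 1 + j + 1)) := ℱ.le _ _ (hA _)
    have hNV : MeasurableSet (NV V t (i + 1 + j)) := ℱ.le _ _ (NV_meas hV t (i + 1 + j))
    have h1 : μ.real (GG A V B t i (j + 1)) =
        μ.real (GG A V B t i j) - μ.real ((GG A V B t i j ∩ NV V t (i + 1 + j)) ∩ A (t + i + 1 + j + 1)) := by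
      have := measureReal_inter_add_sdiff (μ := μ) (s := GG A V B t i j) (hNV.inter hA')
      have h2 : GG A V B t i (j + 1) = GG A V B t i j \ (NV V t (i + 1 + j) ∩ A (t + i + 1 + j + 1)) := rfl
      rw [h2, inter_assoc]
      linarith
    have h3 : μ.real (GG A V B t i j ∩ NV V t (i + 1 + j)) ≤ μ.real (GG A V B t i j) :=
      measureReal_mono inter_subset_left
    have h4 : 0 ≤ μ.real (GG A V B t i j ∩ NV V t (i + 1 + j)) := measureReal_nonneg
    have h7 : 0 ≤ μ.real (GG A V B t i j) := measureReal_nonneg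
    have h5 : u * μ.real (GG A V B t i j ∩ NV V t (i + 1 + j)) ≤ u * μ.real (GG A V B t i j) :=
      mul_le_mul_of_nonneg_left h3 hu0
    rw [h1, pow_succ]
    have h6 : (1 - u) * (l * (1 - u) ^ j * μ.real (B ∩ NV V t i)) ≤ (1 - u) * μ.real (GG A V B t i j) :=
      mul_le_mul_of_nonneg_left ih (by linarith)
    nlinarith

/-- the event of the block `(t, t + G]`: some `k` of the block is present and the next `G` integers are absent -/
def DD (A : ℕ → Set Ω) (t G : ℕ) : Set Ω :=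
  {ω | ∃ i < G, ω ∈ A (t + i + 1) ∧ ∀ j < G, ω ∉ A (t + i + 1 + j + 1)}

/-- some violation at the indices `t, ..., t + 2 G - 1` -/
def WW (V : ℕ → Set Ω) (t G : ℕ) : Set Ω := {ω | ∃ n, t ≤ n ∧ n < t + 2 * G ∧ ω ∈ V n}

lemma DD_meas (hA : ∀ n, MeasurableSet[ℱ n] (A n)) (t G : ℕ) : MeasurableSet[ℱ (t + 2 * G)] (DD A t G) := by
  have h1 : DD A t G = ⋃ i ∈ Finset.range G, (A (t + i + 1) ∩
      ⋂ j ∈ Finset.range G, (A (t + i + 1 + j + 1))ᶜ) := by
    ext ω
    simp only [DD, mem_ofPred_eq, mem_iUnion, Finset.mem_range, mem_inter_iff, mem_iInter, mem_compl_iff,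
      exists_prop]
  rw [h1]
  refine Finset.measurableSet_biUnion _ fun i hi => ?_
  have hi := Finset.mem_range.1 hi
  refine (ℱ.mono (by omega) _ (hA _)).inter (Finset.measurableSet_biInter _ fun j hj => ?_)
  have hj := Finset.mem_range.1 hj
  exact (ℱ.mono (by omega) _ (hA (t + i + 1 + j + 1))).compl

lemma WW_meas {V : ℕ → Set Ω} (hV : ∀ n, MeasurableSet[ℱ n] (V n)) (t G : ℕ) :
    MeasurableSet[ℱ (t + 2 * G)] (WW V t G) := by
  have h1 : WW V t G = ⋃ n ∈ Finset.Ico t (t + 2 * G), V n := by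
    ext ω
    simp [WW, and_assoc]
  rw [h1]
  refine Finset.measurableSet_biUnion _ fun n hn => ?_
  exact ℱ.mono (Finset.mem_Ico.1 hn).2.le _ (hV n)

lemma GG_anti (A V : ℕ → Set Ω) (B : Set Ω) (t i : ℕ) {j j' : ℕ} (h : j ≤ j') :
    GG A V B t i j' ⊆ GG A V B t i j := by
  induction j', h using Nat.le_induction with
  | base => exact subset_rfl
  | succ n _ ih => exact sdiff_subset.trans ih

lemma GG_sub0 (A V : ℕ → Set Ω) (B : Set Ω) (t i j : ℕ) :
    GG A V B t i j ⊆ (B ∩ NV V t i) ∩ A (t + i + 1) := GG_anti A V B t i (Nat.zero_le j)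

lemma GG_not (A V : ℕ → Set Ω) (B : Set Ω) (t i j G : ℕ) (hj : j < G) {ω : Ω}
    (h : ω ∈ GG A V B t i G) : ¬ (ω ∈ NV V t (i + 1 + j) ∧ ω ∈ A (t + i + 1 + j + 1)) := by
  have h1 : ω ∈ GG A V B t i (j + 1) := GG_anti A V B t i hj h
  exact h1.2

/-- the block lemma -/
theorem block (hA : ∀ n, MeasurableSet[ℱ n] (A n)) {V : ℕ → Set Ω}
    (hV : ∀ n, MeasurableSet[ℱ n] (V n)) {B : Set Ω} {t : ℕ} (hB : MeasurableSet[ℱ t] B)
    {l u : ℝ} (hl0 : 0 ≤ l) (hu0 : 0 ≤ u) (hu1 : u ≤ 1) (G : ℕ)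
    (hlu : ∀ n, t ≤ n → n < t + 2 * G → ∀ ω, ω ∉ V n → l ≤ dens μ ℱ A n ω ∧ dens μ ℱ A n ω ≤ u)
    (hc : G * (l * (1 - u) ^ G) ≤ 1) :
    μ.real (B \ (DD A t G ∪ WW V t G)) ≤ (1 - G * (l * (1 - u) ^ G) / 2) * μ.real B := by
  classical
  have hB' : MeasurableSet B := ℱ.le t _ hB
  have hD' : MeasurableSet (DD A t G) := ℱ.le _ _ (DD_meas hA t G)
  have hW' : MeasurableSet (WW V t G) := ℱ.le _ _ (WW_meas hV t G)
  set c : ℝ := l * (1 - u) ^ G with hcdef
  have hc0 : 0 ≤ c := mul_nonneg hl0 (pow_nonneg (by linarith) _)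
  have hdisj : (Finset.range G : Set ℕ).PairwiseDisjoint (fun i => GG A V B t i G) := by
    intro i hi i' hi' hne
    have key : ∀ a b : ℕ, a < b → b < G → Disjoint (GG A V B t a G) (GG A V B t b G) := by
      intro a b hab hb
      rw [Set.disjoint_left]
      intro ω h1 h2
      have h3 := GG_sub0 A V B t b G h2
      refine GG_not A V B t a (b - a - 1) G (by omega) h1 ⟨?_, ?_⟩
      · have h4 : a + 1 + (b - a - 1) = b := by omega
        rw [h4]
        exact h3.1.2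
      · have h4 : t + a + 1 + (b - a - 1) + 1 = t + b + 1 := by omega
        rw [h4]
        exact h3.2
    have hi := Finset.mem_range.1 (Finset.mem_coe.1 hi)
    have hi' := Finset.mem_range.1 (Finset.mem_coe.1 hi')
    rcases lt_or_gt_of_ne hne with h | h
    · exact key _ _ h hi'
    · exact (key _ _ h hi).symm
  have hsub : (⋃ i ∈ Finset.range G, GG A V B t i G) ⊆ B ∩ (DD A t G ∪ WW V t G) := by
    intro ω hω
    rw [mem_iUnion₂] at hω
    obtain ⟨i, hi, h1⟩ := hω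
    have hi := Finset.mem_range.1 hi
    have h2 := GG_sub0 A V B t i G h1
    refine ⟨h2.1.1, ?_⟩
    by_cases hW : ω ∈ WW V t G
    · exact Or.inr hW
    · left
      refine ⟨i, hi, h2.2, fun j hj hin => ?_⟩
      refine GG_not A V B t i j G hj h1 ⟨?_, hin⟩
      intro n hn1 hn2 hnV
      exact hW ⟨n, hn1, by omega, hnV⟩
  have hsum : μ.real (⋃ i ∈ Finset.range G, GG A V B t i G) = ∑ i ∈ Finset.range G, μ.real (GG A V B t i G) := by
    apply measureReal_biUnion_finset hdisj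
    intro i _
    exact ℱ.le _ _ (GG_meas hA hV hB i G)
  have hlow : ∀ i ∈ Finset.range G, c * μ.real (B \ WW V t G) ≤ μ.real (GG A V B t i G) := by
    intro i hi
    have hi := Finset.mem_range.1 hi
    refine le_trans ?_ (GG_ge (μ := μ) hA hV hB (l := l) hu0 hu1 i G ?_ G le_rfl)
    · apply mul_le_mul_of_nonneg_left _ hc0
      apply measureReal_mono
      · rintro ω ⟨h1, h2⟩
        refine ⟨h1, fun n hn1 hn2 hnV => h2 ⟨n, hn1, by omega, hnV⟩⟩
      · exact measure_ne_top _ _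
    · intro n hn1 hn2
      exact hlu n hn1 (by omega)
  have h1 : G * c * μ.real (B \ WW V t G) ≤ μ.real (B ∩ (DD A t G ∪ WW V t G)) := by
    calc G * c * μ.real (B \ WW V t G) = ∑ i ∈ Finset.range G, c * μ.real (B \ WW V t G) := by
          rw [Finset.sum_const, Finset.card_range, nsmul_eq_mul]; ring
      _ ≤ ∑ i ∈ Finset.range G, μ.real (GG A V B t i G) := Finset.sum_le_sum hlow
      _ = μ.real (⋃ i ∈ Finset.range G, GG A V B t i G) := hsum.symm
      _ ≤ _ := measureReal_mono hsub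
  have h2 : μ.real (B ∩ WW V t G) ≤ μ.real (B ∩ (DD A t G ∪ WW V t G)) :=
    measureReal_mono (inter_subset_inter_right _ subset_union_right)
  have h3 := measureReal_inter_add_sdiff (μ := μ) (s := B) hW'
  have h4 := measureReal_inter_add_sdiff (μ := μ) (s := B) (hD'.union hW')
  have h5 : 0 ≤ μ.real (B ∩ WW V t G) := measureReal_nonneg
  have h6 : 0 ≤ μ.real (B \ WW V t G) := measureReal_nonneg
  have h7 : 0 ≤ (G : ℝ) * c := by positivity
  nlinarith

end Pool.Agent.R528.RM
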