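import Mathlib

set_option autoImplicit false
set_option linter.unusedSectionVars false

/-! # A strong law of large numbers for negatively correlated variables -/

open MeasureTheory Filter Set
open scoped ENNReal Topology

namespace Pool.Agent.R528.RM

variable {Ω : Type} {m0 : MeasurableSpace Ω} {μ : Measure Ω} [IsProbabilityMeasure μ]

/-- second moments of sums of negatively correlated variables -/
theorem second_moment (X : ℕ → Ω → ℝ) (u : ℕ → ℝ) (c : ℕ → ℝ) (hXm : ∀ k, AEStronglyMeasurable (X k) μ)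
    (hXc : ∀ k, ∀ᵐ ω ∂μ, ‖X k ω‖ ≤ c k)
    (hcov : ∀ i j, i < j → ∫ ω, X i ω * X j ω ∂μ ≤ 0) (hvar : ∀ k, ∫ ω, X k ω ^ 2 ∂μ ≤ u k) (n : ℕ) :
    ∫ ω, (∑ k ∈ Finset.range n, X k ω) ^ 2 ∂μ ≤ ∑ k ∈ Finset.range n, u k := by
  have hXi : ∀ k, Integrable (X k) μ := fun k => Integrable.of_bound (hXm k) (c k) (hXc k)
  have hXX : ∀ i j, Integrable (fun ω => X i ω * X j ω) μ := fun i j =>
    (hXi j).bdd_mul (hXm i) (hXc i)
  have hSX : ∀ n j, Integrable (fun ω => (∑ k ∈ Finset.range n, X k ω) * X j ω) μ := by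
    intro n j
    simp_rw [Finset.sum_mul]
    exact integrable_finsetSum _ fun i _ => hXX i j
  have hSS : ∀ n, Integrable (fun ω => (∑ k ∈ Finset.range n, X k ω) ^ 2) μ := by
    intro n
    have e : (fun ω => (∑ k ∈ Finset.range n, X k ω) ^ 2) =
        fun ω => ∑ j ∈ Finset.range n, (∑ k ∈ Finset.range n, X k ω) * X j ω := by
      funext ω
      rw [sq, Finset.mul_sum]
    rw [e]
    exact integrable_finsetSum _ fun j _ => hSX n j
  induction n with
  | zero => simp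
  | succ n ih =>
    have e : ∀ ω, (∑ k ∈ Finset.range (n + 1), X k ω) ^ 2 =
        (∑ k ∈ Finset.range n, X k ω) ^ 2 + (2 * ((∑ k ∈ Finset.range n, X k ω) * X n ω) + X n ω ^ 2) := by
      intro ω
      rw [Finset.sum_range_succ]
      ring
    have hX2 : Integrable (fun ω => X n ω ^ 2) μ := by
      have := hXX n n
      simpa [sq] using this
    have h1 : ∫ ω, (∑ k ∈ Finset.range n, X k ω) * X n ω ∂μ ≤ 0 := by
      simp_rw [Finset.sum_mul]
      rw [integral_finsetSum _ fun i _ => hXX i n]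
      exact Finset.sum_nonpos fun i hi => hcov i n (Finset.mem_range.1 hi)
    have i1 : Integrable (fun ω => 2 * ((∑ k ∈ Finset.range n, X k ω) * X n ω)) μ := (hSX n n).const_mul 2
    have i2 : Integrable (fun ω => 2 * ((∑ k ∈ Finset.range n, X k ω) * X n ω) + X n ω ^ 2) μ := i1.add hX2
    have h2 : ∫ ω, (∑ k ∈ Finset.range (n + 1), X k ω) ^ 2 ∂μ = ∫ ω, (∑ k ∈ Finset.range n, X k ω) ^ 2 ∂μ +
        (2 * ∫ ω, (∑ k ∈ Finset.range n, X k ω) * X n ω ∂μ + ∫ ω, X n ω ^ 2 ∂μ) := by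
      rw [integral_congr_ae (Eventually.of_forall e), integral_add (hSS n) i2, integral_add i1 hX2,
        integral_const_mul]
    rw [h2, Finset.sum_range_succ]
    linarith [hvar n]

/-- the strong law -/
theorem strong_law (N Q : ℕ → Ω → ℝ) (u : ℕ → ℝ) (c : ℕ → ℝ) (hu0 : ∀ k, 0 ≤ u k) (hu1 : ∀ k, u k ≤ 1)
    (hU : Tendsto (fun n => ∑ k ∈ Finset.range n, u k) atTop atTop)
    (hN0 : ∀ k, ∀ᵐ ω ∂μ, 0 ≤ N k ω) (hQ0 : ∀ k, ∀ᵐ ω ∂μ, 0 ≤ Q k ω) (hQ1 : ∀ k, ∀ᵐ ω ∂μ, Q k ω ≤ u k)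
    (hXm : ∀ k, AEStronglyMeasurable (fun ω => N k ω - Q k ω) μ)
    (hXc : ∀ k, ∀ᵐ ω ∂μ, ‖N k ω - Q k ω‖ ≤ c k)
    (hcov : ∀ i j, i < j → ∫ ω, (N i ω - Q i ω) * (N j ω - Q j ω) ∂μ ≤ 0)
    (hvar : ∀ k, ∫ ω, (N k ω - Q k ω) ^ 2 ∂μ ≤ u k) :
    ∀ᵐ ω ∂μ, Tendsto (fun n => (∑ k ∈ Finset.range n, (N k ω - Q k ω)) / ∑ k ∈ Finset.range n, u k)
      atTop (𝓝 0) := by
  classical
  set U : ℕ → ℝ := fun n => ∑ k ∈ Finset.range n, u k with hUd
  have hUmono : Monotone U := by
    apply monotone_nat_of_le_succ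
    intro n
    simp only [hUd, Finset.sum_range_succ]
    linarith [hu0 n]
  have hex : ∀ m : ℕ, ∃ n, (m : ℝ) ^ 2 ≤ U n := fun m => (hU.eventually_ge_atTop ((m : ℝ) ^ 2)).exists
  set t : ℕ → ℕ := fun m => Nat.find (hex m) with ht
  have ht1 : ∀ m : ℕ, (m : ℝ) ^ 2 ≤ U (t m) := fun m => Nat.find_spec (hex m)
  have ht2 : ∀ m, U (t m) ≤ (m : ℝ) ^ 2 + 1 := by
    intro m
    rcases Nat.eq_zero_or_pos (t m) with h | h
    · rw [h]
      simp only [hUd, Finset.range_zero, Finset.sum_empty]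
      positivity
    · have h1 : ¬ ((m : ℝ) ^ 2 ≤ U (t m - 1)) := Nat.find_min (hex m) (by
        have : t m - 1 < t m := by omega
        exact this)
      push Not at h1
      have h2 : U (t m) = U (t m - 1) + u (t m - 1) := by
        simp only [hUd]
        rw [← Finset.sum_range_succ]
        congr 2
        omega
      rw [h2]
      linarith [hu1 (t m - 1)]
  have htm : ∀ m n, n < t m → U n < (m : ℝ) ^ 2 := by
    intro m n hn
    have := Nat.find_min (hex m) hn
    push Not at this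
    exact this
  have htmono : Monotone t := by
    intro a b hab
    refine Nat.find_min' (hex a) (le_trans ?_ (ht1 b))
    exact pow_le_pow_left₀ (Nat.cast_nonneg a) (by exact_mod_cast hab) 2
  set S : ℕ → Ω → ℝ := fun n ω => ∑ k ∈ Finset.range n, (N k ω - Q k ω) with hSd
  -- almost sure convergence along the subsequence
  have hsub : ∀ᵐ ω ∂μ, Tendsto (fun m : ℕ => S (t (m + 1)) ω / ((m : ℝ) + 1) ^ 2) atTop (𝓝 0) := by
    have hSm : ∀ n, AEStronglyMeasurable (S n) μ := fun n =>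
      Finset.aestronglyMeasurable_fun_sum _ fun k _ => hXm k
    have hbound : ∀ n, ∀ᵐ ω ∂μ, ‖S n ω‖ ≤ ∑ k ∈ Finset.range n, c k := by
      intro n
      have h1 : ∀ᵐ ω ∂μ, ∀ k, ‖N k ω - Q k ω‖ ≤ c k := ae_all_iff.2 hXc
      filter_upwards [h1] with ω h1
      exact (norm_sum_le _ _).trans (Finset.sum_le_sum fun k _ => h1 k)
    have hint : ∀ n, Integrable (fun ω => (S n ω) ^ 2) μ := by
      intro n
      apply Integrable.of_bound ((hSm n).pow 2) ((∑ k ∈ Finset.range n, c k) ^ 2)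
      filter_upwards [hbound n] with ω hω
      rw [Pi.pow_apply, norm_pow]
      exact pow_le_pow_left₀ (norm_nonneg _) hω 2
    have hmom : ∀ m : ℕ, ∫⁻ ω, ENNReal.ofReal ((S (t (m + 1)) ω / ((m : ℝ) + 1) ^ 2) ^ 2) ∂μ ≤
        ENNReal.ofReal (2 * (1 / ((m : ℝ) + 1) ^ 2)) := by
      intro m
      have e : ∀ ω, (S (t (m + 1)) ω / ((m : ℝ) + 1) ^ 2) ^ 2 = (S (t (m + 1)) ω) ^ 2 / ((m : ℝ) + 1) ^ 4 := by
        intro ω
        rw [div_pow]
        ring
      have h1 : Integrable (fun ω => (S (t (m + 1)) ω / ((m : ℝ) + 1) ^ 2) ^ 2) μ := by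
        simp_rw [e]
        exact (hint _).div_const _
      rw [← ofReal_integral_eq_lintegral_ofReal h1 (Eventually.of_forall fun ω => sq_nonneg _)]
      apply ENNReal.ofReal_le_ofReal
      simp_rw [e]
      rw [integral_div, div_le_iff₀ (by positivity)]
      have h2 := second_moment (μ := μ) (fun k ω => N k ω - Q k ω) u c hXm hXc hcov hvar (t (m + 1))
      refine h2.trans ((ht2 (m + 1)).trans ?_)
      push_cast
      have h3 : (1 : ℝ) ≤ ((m : ℝ) + 1) ^ 2 := by
        have : (0 : ℝ) ≤ m := Nat.cast_nonneg m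
        nlinarith
      have h4 : 2 * (1 / ((m : ℝ) + 1) ^ 2) * ((m : ℝ) + 1) ^ 4 = 2 * ((m : ℝ) + 1) ^ 2 := by
        field_simp
      rw [h4]
      linarith
    have hsum : ∑' m : ℕ, ∫⁻ ω, ENNReal.ofReal ((S (t (m + 1)) ω / ((m : ℝ) + 1) ^ 2) ^ 2) ∂μ ≠ ∞ := by
      have h1 : Summable (fun m : ℕ => 2 * (1 / ((m : ℝ) + 1) ^ 2)) := by
        have := (summable_nat_add_iff 1).2 (Real.summable_one_div_nat_pow (p := 2).2 (by norm_num))
        have h2 := this.mul_left 2
        refine h2.congr fun m => ?_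
        push_cast
        rfl
      have h2 : ∑' m : ℕ, ENNReal.ofReal (2 * (1 / ((m : ℝ) + 1) ^ 2)) ≠ ∞ := by
        rw [← ENNReal.ofReal_tsum_of_nonneg (fun m => by positivity) h1]
        exact ENNReal.ofReal_ne_top
      exact ne_top_of_le_ne_top h2 (ENNReal.tsum_le_tsum hmom)
    have hmeas : ∀ m : ℕ, AEMeasurable (fun ω => ENNReal.ofReal ((S (t (m + 1)) ω / ((m : ℝ) + 1) ^ 2) ^ 2)) μ := by
      intro m
      exact ((((hSm _).aemeasurable).div_const _).pow_const 2).ennreal_ofReal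
    rw [← lintegral_tsum hmeas] at hsum
    have h3 := ae_lt_top' (AEMeasurable.ennreal_tsum hmeas) hsum
    filter_upwards [h3] with ω h3
    have h4 := ENNReal.tendsto_atTop_zero_of_tsum_ne_top h3.ne
    have h5 : Tendsto (fun m : ℕ => (S (t (m + 1)) ω / ((m : ℝ) + 1) ^ 2) ^ 2) atTop (𝓝 0) := by
      have h6 := (ENNReal.tendsto_toReal ENNReal.zero_ne_top).comp h4
      simp only [ENNReal.toReal_zero] at h6
      refine h6.congr fun m => ?_
      simp only [Function.comp]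
      exact ENNReal.toReal_ofReal (sq_nonneg _)
    have h7 := h5.sqrt
    simp only [Real.sqrt_zero] at h7
    have h8 : Tendsto (fun m : ℕ => |S (t (m + 1)) ω / ((m : ℝ) + 1) ^ 2|) atTop (𝓝 0) :=
      h7.congr fun m => Real.sqrt_sq_eq_abs _
    exact (tendsto_zero_iff_abs_tendsto_zero _).2 h8
  -- interpolation
  filter_upwards [hsub, ae_all_iff.2 hN0, ae_all_iff.2 hQ0, ae_all_iff.2 hQ1] with ω hω hN0 hQ0 hQ1
  have hdiff : ∀ a b, a ≤ b → S a ω - (U b - U a) ≤ S b ω := by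
    intro a b hab
    induction b, hab using Nat.le_induction with
    | base => simp
    | succ b hb ih =>
      have e1 : S (b + 1) ω = S b ω + (N b ω - Q b ω) := by simp only [hSd, Finset.sum_range_succ]
      have e2 : U (b + 1) = U b + u b := by simp only [hUd, Finset.sum_range_succ]
      rw [e1, e2]
      linarith [hN0 b, hQ1 b]
  rw [Metric.tendsto_atTop]
  intro ε hε
  have h1 := (Metric.tendsto_atTop.1 hω) (ε / 8) (by positivity)
  obtain ⟨M, hM⟩ := h1
  obtain ⟨M', hM'⟩ := exists_nat_gt (32 / ε)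
  refine ⟨t (max (max M M') 1 + 1), fun n hn => ?_⟩
  -- find `m`
  have hUn : (1 : ℝ) ≤ U n := by
    have h2 := hUmono hn
    have h3 := ht1 (max (max M M') 1 + 1)
    push_cast at h3
    have h4 : (0 : ℝ) ≤ ((max (max (M : ℝ) M') 1)) := le_trans zero_le_one (le_max_right _ _)
    nlinarith
  obtain ⟨m, hm1, hm2⟩ : ∃ m : ℕ, t (m + 1) ≤ n ∧ n < t (m + 2) := by
    have hexm : ∃ m, n < t m := by
      obtain ⟨m, hm⟩ := exists_nat_gt (U n)
      refine ⟨m + 1, ?_⟩
      by_contra hcon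
      push Not at hcon
      have h2 := hUmono hcon
      have h3 := ht1 (m + 1)
      push_cast at h3
      have h4 : (0 : ℝ) ≤ m := Nat.cast_nonneg m
      nlinarith
    have hf := Nat.find_spec hexm
    have hge : max (max M M') 1 + 2 ≤ Nat.find hexm := by
      by_contra hcon
      push Not at hcon
      have h2 : t (Nat.find hexm) ≤ t (max (max M M') 1 + 1) := htmono (by omega)
      omega
    refine ⟨Nat.find hexm - 2, ?_, ?_⟩
    · have h3 : Nat.find hexm - 2 + 1 < Nat.find hexm := by omega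
      have := Nat.find_min hexm h3
      omega
    · have h3 : Nat.find hexm - 2 + 2 = Nat.find hexm := by omega
      rw [h3]
      exact hf
  have hmge : max (max M M') 1 ≤ m := by
    by_contra hcon
    push Not at hcon
    have h2 : t (m + 2) ≤ t (max (max M M') 1 + 1) := htmono (by omega)
    omega
  have hmM : M ≤ m := (le_max_left M M').trans ((le_max_left _ 1).trans hmge)
  have hmM' : M' ≤ m := (le_max_right M M').trans ((le_max_left _ 1).trans hmge)
  have hm1' : 1 ≤ m := (le_max_right _ 1).trans hmge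
  have hmr : (1 : ℝ) ≤ m := by exact_mod_cast hm1'
  have hmε : 32 / ε < m := hM'.trans_le (by exact_mod_cast hmM')
  have h2 := hM m hmM
  have h3 := hM (m + 1) (by omega)
  rw [Real.dist_eq, sub_zero, abs_div, abs_of_pos (by positivity : (0 : ℝ) < ((m : ℝ) + 1) ^ 2), div_lt_iff₀ (by positivity)] at h2
  rw [Real.dist_eq, sub_zero, abs_div] at h3
  push_cast at h3
  rw [abs_of_pos (by positivity : (0 : ℝ) < ((m : ℝ) + 1 + 1) ^ 2), div_lt_iff₀ (by positivity)] at h3
  have h4 : U (t (m + 1 + 1)) ≤ ((m : ℝ) + 1 + 1) ^ 2 + 1 := by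
    have := ht2 (m + 1 + 1)
    push_cast at this
    exact this
  have h5 : ((m : ℝ) + 1) ^ 2 ≤ U (t (m + 1)) := by
    have := ht1 (m + 1)
    push_cast at this
    exact this
  have h6 := hdiff (t (m + 1)) n hm1
  have h7 := hdiff n (t (m + 1 + 1)) hm2.le
  have h8 := hUmono hm1
  have h9 := hUmono hm2.le
  have h9' : U n ≤ U (t (m + 1 + 1)) := h9
  have hU0 : 0 < U n := by linarith
  rw [Real.dist_eq, sub_zero, abs_div, abs_of_pos hU0, div_lt_iff₀ hU0]
  have h10 : ((m : ℝ) + 1 + 1) ^ 2 ≤ 4 * ((m : ℝ) + 1) ^ 2 := by nlinarith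
  have h11 : 2 * (m : ℝ) + 4 ≤ ε / 4 * ((m : ℝ) + 1) ^ 2 := by
    have h12 : 32 < m * ε := by rwa [div_lt_iff₀ hε] at hmε
    nlinarith
  have h12 : ε / 8 * ((m : ℝ) + 1) ^ 2 ≤ ε / 8 * U n := mul_le_mul_of_nonneg_left (by linarith) (by positivity)
  have h13 : |S n ω| < ε * U n := by
    rw [abs_lt]
    have h14 := abs_lt.1 h2
    have h15 := abs_lt.1 h3
    have h16 : ε / 8 * ((m : ℝ) + 1 + 1) ^ 2 ≤ ε / 8 * (4 * ((m : ℝ) + 1) ^ 2) :=
      mul_le_mul_of_nonneg_left h10 (by positivity)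
    constructor <;> nlinarith [h14.1, h14.2, h15.1, h15.2]
  exact h13

end Pool.Agent.R528.RM
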