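import Mathlib
import Pool.Agent.R528.RM.StrongLaw

set_option autoImplicit false
set_option linter.unusedSectionVars false

/-! # A strong law for monotone sums with a random compensator -/

open MeasureTheory Filter Set
open scoped ENNReal Topology

namespace Pool.Agent.R528.RM

variable {Ω : Type} {m0 : MeasurableSpace Ω} {μ : Measure Ω} [IsProbabilityMeasure μ]

theorem strong_sub (X : ℕ → Ω → ℝ) (u : ℕ → ℝ) (c : ℕ → ℝ) {C : ℝ} (hC : 0 ≤ C) (hu0 : ∀ k, 0 ≤ u k) (hu1 : ∀ k, u k ≤ 1)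
    (hU : Tendsto (fun n => ∑ k ∈ Finset.range n, u k) atTop atTop)
    (hXm : ∀ k, AEStronglyMeasurable (X k) μ)
    (hXc : ∀ k, ∀ᵐ ω ∂μ, ‖X k ω‖ ≤ c k)
    (hcov : ∀ i j, i < j → ∫ ω, X i ω * X j ω ∂μ ≤ 0)
    (hvar : ∀ k, ∫ ω, X k ω ^ 2 ∂μ ≤ C * u k) :
    ∀ᵐ ω ∂μ, ∀ N q : ℕ → ℝ, Monotone N → 0 ≤ N 0 → (∀ n, N n - q n = ∑ k ∈ Finset.range n, X k ω) →
      Tendsto (fun n => q n / ∑ k ∈ Finset.range n, u k) atTop (𝓝 1) →
      Tendsto (fun n => N n / ∑ k ∈ Finset.range n, u k) atTop (𝓝 1) := by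
  classical
  set U : ℕ → ℝ := fun n => ∑ k ∈ Finset.range n, u k with hUd
  have hUmono : Monotone U := by
    apply monotone_nat_of_le_succ
    intro n
    simp only [hUd, Finset.sum_range_succ]
    linarith [hu0 n]
  have hex : ∀ m : ℕ, ∃ n, (m : ℝ) ^ 2 ≤ U n := fun m => (hU.eventually_ge_atTop ((m : ℝ) ^ 2)).exists
  set t : ℕ → ℕ := fun m => Nat.find (hex m) with ht
  have ht1 : ∀ m : ℕ, (m : ℝ) ^ 2 ≤ U (t m) := fun m => Nat.find_spec (hex m)
  have ht2 : ∀ m, U (t m) ≤ (m : ℝ) ^ 2 + 1 := by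
    intro m
    rcases Nat.eq_zero_or_pos (t m) with h | h
    · rw [h]
      simp only [hUd, Finset.range_zero, Finset.sum_empty]
      positivity
    · have h1 : ¬ ((m : ℝ) ^ 2 ≤ U (t m - 1)) := Nat.find_min (hex m) (by
        have : t m - 1 < t m := by omega
        exact this)
      push Not at h1
      have h2 : U (t m) = U (t m - 1) + u (t m - 1) := by
        simp only [hUd]
        rw [← Finset.sum_range_succ]
        congr 2
        omega
      rw [h2]
      linarith [hu1 (t m - 1)]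
  have htmono : Monotone t := by
    intro a b hab
    refine Nat.find_min' (hex a) (le_trans ?_ (ht1 b))
    exact pow_le_pow_left₀ (Nat.cast_nonneg a) (by exact_mod_cast hab) 2
  set S : ℕ → Ω → ℝ := fun n ω => ∑ k ∈ Finset.range n, X k ω with hSd
  have hsub : ∀ᵐ ω ∂μ, Tendsto (fun m : ℕ => S (t (m + 1)) ω / ((m : ℝ) + 1) ^ 2) atTop (𝓝 0) := by
    have hSm : ∀ n, AEStronglyMeasurable (S n) μ := fun n =>
      Finset.aestronglyMeasurable_fun_sum _ fun k _ => hXm k
    have hbound : ∀ n, ∀ᵐ ω ∂μ, ‖S n ω‖ ≤ ∑ k ∈ Finset.range n, c k := by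
      intro n
      have h1 : ∀ᵐ ω ∂μ, ∀ k, ‖X k ω‖ ≤ c k := ae_all_iff.2 hXc
      filter_upwards [h1] with ω h1
      exact (norm_sum_le _ _).trans (Finset.sum_le_sum fun k _ => h1 k)
    have hint : ∀ n, Integrable (fun ω => (S n ω) ^ 2) μ := by
      intro n
      apply Integrable.of_bound ((hSm n).pow 2) ((∑ k ∈ Finset.range n, c k) ^ 2)
      filter_upwards [hbound n] with ω hω
      rw [Pi.pow_apply, norm_pow]
      exact pow_le_pow_left₀ (norm_nonneg _) hω 2
    have hmom : ∀ m : ℕ, ∫⁻ ω, ENNReal.ofReal ((S (t (m + 1)) ω / ((m : ℝ) + 1) ^ 2) ^ 2) ∂μ ≤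
        ENNReal.ofReal (2 * C * (1 / ((m : ℝ) + 1) ^ 2)) := by
      intro m
      have e : ∀ ω, (S (t (m + 1)) ω / ((m : ℝ) + 1) ^ 2) ^ 2 = (S (t (m + 1)) ω) ^ 2 / ((m : ℝ) + 1) ^ 4 := by
        intro ω
        rw [div_pow]
        ring
      have h1 : Integrable (fun ω => (S (t (m + 1)) ω / ((m : ℝ) + 1) ^ 2) ^ 2) μ := by
        simp_rw [e]
        exact (hint _).div_const _
      rw [← ofReal_integral_eq_lintegral_ofReal h1 (Eventually.of_forall fun ω => sq_nonneg _)]
      apply ENNReal.ofReal_le_ofReal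
      simp_rw [e]
      rw [integral_div, div_le_iff₀ (by positivity)]
      have h2 := second_moment (μ := μ) X (fun k => C * u k) c hXm hXc hcov hvar (t (m + 1))
      rw [← Finset.mul_sum] at h2
      have h2' := h2.trans (mul_le_mul_of_nonneg_left (ht2 (m + 1)) hC)
      refine h2'.trans ?_
      push_cast
      have h3 : (1 : ℝ) ≤ ((m : ℝ) + 1) ^ 2 := by
        have : (0 : ℝ) ≤ m := Nat.cast_nonneg m
        nlinarith
      have h4 : 2 * C * (1 / ((m : ℝ) + 1) ^ 2) * ((m : ℝ) + 1) ^ 4 = C * (2 * ((m : ℝ) + 1) ^ 2) := by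
        field_simp
      rw [h4]
      exact mul_le_mul_of_nonneg_left (by linarith) hC
    have hsum : ∑' m : ℕ, ∫⁻ ω, ENNReal.ofReal ((S (t (m + 1)) ω / ((m : ℝ) + 1) ^ 2) ^ 2) ∂μ ≠ ∞ := by
      have h1 : Summable (fun m : ℕ => 2 * C * (1 / ((m : ℝ) + 1) ^ 2)) := by
        have := (summable_nat_add_iff 1).2 (Real.summable_one_div_nat_pow (p := 2).2 (by norm_num))
        have h2 := this.mul_left (2 * C)
        refine h2.congr fun m => ?_
        push_cast
        rfl
      have h2 : ∑' m : ℕ, ENNReal.ofReal (2 * C * (1 / ((m : ℝ) + 1) ^ 2)) ≠ ∞ := by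
        rw [← ENNReal.ofReal_tsum_of_nonneg (fun m => by positivity) h1]
        exact ENNReal.ofReal_ne_top
      exact ne_top_of_le_ne_top h2 (ENNReal.tsum_le_tsum hmom)
    have hmeas : ∀ m : ℕ, AEMeasurable (fun ω => ENNReal.ofReal ((S (t (m + 1)) ω / ((m : ℝ) + 1) ^ 2) ^ 2)) μ := by
      intro m
      exact ((((hSm _).aemeasurable).div_const _).pow_const 2).ennreal_ofReal
    rw [← lintegral_tsum hmeas] at hsum
    have h3 := ae_lt_top' (AEMeasurable.tsum hmeas) hsum
    filter_upwards [h3] with ω h3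
    have h4 := ENNReal.tendsto_atTop_zero_of_tsum_ne_top h3.ne
    have h5 : Tendsto (fun m : ℕ => (S (t (m + 1)) ω / ((m : ℝ) + 1) ^ 2) ^ 2) atTop (𝓝 0) := by
      have h6 := (ENNReal.tendsto_toReal ENNReal.zero_ne_top).comp h4
      simp only [ENNReal.toReal_zero] at h6
      refine h6.congr fun m => ?_
      simp only [Function.comp]
      exact ENNReal.toReal_ofReal (sq_nonneg _)
    have h7 := h5.sqrt
    simp only [Real.sqrt_zero] at h7
    have h8 : Tendsto (fun m : ℕ => |S (t (m + 1)) ω / ((m : ℝ) + 1) ^ 2|) atTop (𝓝 0) :=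
      h7.congr fun m => Real.sqrt_sq_eq_abs _
    exact (tendsto_zero_iff_abs_tendsto_zero _).2 h8
  filter_upwards [hsub] with ω hω N q hN hN0 hNq hq
  have htt : Tendsto (fun m : ℕ => t (m + 1)) atTop atTop := by
    have h1 : Tendsto (fun m : ℕ => U (t (m + 1))) atTop atTop := by
      have h2 : Tendsto (fun m : ℕ => ((m : ℝ) + 1) ^ 2) atTop atTop :=
        (tendsto_pow_atTop (by norm_num : (2 : ℕ) ≠ 0)).comp (tendsto_atTop_add_const_right _ 1 tendsto_natCast_atTop_atTop)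
      refine tendsto_atTop_mono (fun m => ?_) h2
      have := ht1 (m + 1)
      push_cast at this
      exact this
    by_contra hcon
    rw [tendsto_atTop] at hcon
    push Not at hcon
    obtain ⟨b, hb⟩ := hcon
    obtain ⟨m, hm1, hm2⟩ := (hb.and_eventually (h1.eventually_gt_atTop (U b))).exists
    exact absurd (hUmono hm1.le) (not_le.2 hm2)
  -- the ratio along the subsequence
  have hr : Tendsto (fun m : ℕ => N (t (m + 1)) / U (t (m + 1))) atTop (𝓝 1) := by
    have h1 : Tendsto (fun m : ℕ => S (t (m + 1)) ω / U (t (m + 1))) atTop (𝓝 0) := by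
      rw [tendsto_zero_iff_abs_tendsto_zero] at hω ⊢
      refine squeeze_zero (fun m => abs_nonneg _) (fun m => ?_) hω
      simp only [Function.comp]
      rw [abs_div, abs_div]
      have h2 := ht1 (m + 1)
      push_cast at h2
      have h3 : (0 : ℝ) < ((m : ℝ) + 1) ^ 2 := by positivity
      rw [abs_of_pos h3, abs_of_pos (h3.trans_le h2)]
      exact div_le_div_of_nonneg_left (abs_nonneg _) h3 h2
    have h2 := (hq.comp htt).add h1
    rw [add_zero] at h2
    refine h2.congr fun m => ?_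
    simp only [Function.comp]
    rw [← add_div]
    congr 1
    have := hNq (t (m + 1))
    simp only [hSd]
    linarith
  have hρ : Tendsto (fun m : ℕ => U (t (m + 2)) / U (t (m + 1))) atTop (𝓝 1) := by
    have hm : Tendsto (fun m : ℕ => (m : ℝ) + 1) atTop atTop := tendsto_atTop_add_const_right _ 1 tendsto_natCast_atTop_atTop
    have h0 : Tendsto (fun m : ℕ => 1 / ((m : ℝ) + 1)) atTop (𝓝 0) := by
      simp_rw [one_div]
      exact hm.inv_tendsto_atTop
    have h1 : Tendsto (fun m : ℕ => (1 + 1 / ((m : ℝ) + 1)) ^ 2 + (1 / ((m : ℝ) + 1)) ^ 2) atTop (𝓝 ((1 + 0) ^ 2 + 0 ^ 2)) :=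
      ((tendsto_const_nhds.add h0).pow 2).add (h0.pow 2)
    have e : (1 + 0 : ℝ) ^ 2 + 0 ^ 2 = 1 := by norm_num
    rw [e] at h1
    refine tendsto_of_tendsto_of_tendsto_of_le_of_le' tendsto_const_nhds h1 ?_ ?_
    · refine Eventually.of_forall fun m => ?_
      have h2 := ht1 (m + 1)
      push_cast at h2
      have h3 : (0 : ℝ) < ((m : ℝ) + 1) ^ 2 := by positivity
      rw [one_le_div (h3.trans_le h2)]
      exact hUmono (htmono (by omega))
    · refine Eventually.of_forall fun m => ?_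
      have h2 := ht1 (m + 1)
      have h4 := ht2 (m + 2)
      push_cast at h2 h4
      have h3 : (0 : ℝ) < ((m : ℝ) + 1) ^ 2 := by positivity
      rw [div_le_iff₀ (h3.trans_le h2)]
      have h5 : ((1 + 1 / ((m : ℝ) + 1)) ^ 2 + (1 / ((m : ℝ) + 1)) ^ 2) * ((m : ℝ) + 1) ^ 2 = ((m : ℝ) + 2) ^ 2 + 1 := by
        field_simp
        ring
      have h6 : ((1 + 1 / ((m : ℝ) + 1)) ^ 2 + (1 / ((m : ℝ) + 1)) ^ 2) * ((m : ℝ) + 1) ^ 2 ≤
          ((1 + 1 / ((m : ℝ) + 1)) ^ 2 + (1 / ((m : ℝ) + 1)) ^ 2) * U (t (m + 1)) :=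
        mul_le_mul_of_nonneg_left h2 (by positivity)
      linarith
  have hup : Tendsto (fun m : ℕ => N (t (m + 1 + 1)) / U (t (m + 1 + 1)) * (U (t (m + 2)) / U (t (m + 1)))) atTop (𝓝 1) := by
    have := ((tendsto_add_atTop_iff_nat 1).2 hr).mul hρ
    rw [mul_one] at this
    exact this
  have hlow : Tendsto (fun m : ℕ => N (t (m + 1)) / U (t (m + 1)) / (U (t (m + 2)) / U (t (m + 1)))) atTop (𝓝 1) := by
    have := hr.div hρ one_ne_zero
    rw [div_one] at this
    exact this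
  rw [Metric.tendsto_atTop]
  intro ε hε
  obtain ⟨M, hM⟩ := eventually_atTop.1 ((hup.eventually (gt_mem_nhds (show (1 : ℝ) < 1 + ε by linarith))).and
    (hlow.eventually (lt_mem_nhds (show 1 - ε < (1 : ℝ) by linarith))))
  refine ⟨t (M + 1), fun n hn => ?_⟩
  obtain ⟨m, hmM, hm1, hm2⟩ : ∃ m : ℕ, M ≤ m ∧ t (m + 1) ≤ n ∧ n < t (m + 2) := by
    have hexm : ∃ m, n < t (m + 1) := (htt.eventually_gt_atTop n).exists
    have hf := Nat.find_spec hexm
    have hge : M + 1 ≤ Nat.find hexm := by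
      by_contra hcon
      push Not at hcon
      have h2 : t (Nat.find hexm + 1) ≤ t (M + 1) := htmono (by omega)
      omega
    refine ⟨Nat.find hexm - 1, by omega, ?_, ?_⟩
    · have h3 : Nat.find hexm - 1 < Nat.find hexm := by omega
      have := Nat.find_min hexm h3
      omega
    · have h3 : Nat.find hexm - 1 + 2 = Nat.find hexm + 1 := by omega
      rw [h3]
      exact hf
  obtain ⟨g1, g2⟩ := hM m hmM
  have hU1 : 0 < U (t (m + 1)) := by
    have h2 := ht1 (m + 1)
    push_cast at h2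
    have h3 : (0 : ℝ) < ((m : ℝ) + 1) ^ 2 := by positivity
    linarith
  have hUn : U (t (m + 1)) ≤ U n := hUmono hm1
  have hUn2 : U n ≤ U (t (m + 2)) := hUmono hm2.le
  have hNn : N (t (m + 1)) ≤ N n := hN hm1
  have hNn2 : N n ≤ N (t (m + 2)) := hN hm2.le
  have hNpos : ∀ k, 0 ≤ N k := fun k => hN0.trans (hN (Nat.zero_le k))
  have h1 : N n / U n ≤ N (t (m + 1 + 1)) / U (t (m + 1 + 1)) * (U (t (m + 2)) / U (t (m + 1))) := by
    have e : N (t (m + 1 + 1)) / U (t (m + 1 + 1)) * (U (t (m + 2)) / U (t (m + 1))) = N (t (m + 2)) / U (t (m + 1)) := by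
      have : U (t (m + 2)) ≠ 0 := by linarith
      rw [show m + 1 + 1 = m + 2 by ring]
      field_simp
    rw [e]
    exact div_le_div₀ (hNpos _) hNn2 hU1 hUn
  have h2 : N (t (m + 1)) / U (t (m + 1)) / (U (t (m + 2)) / U (t (m + 1))) ≤ N n / U n := by
    have e : N (t (m + 1)) / U (t (m + 1)) / (U (t (m + 2)) / U (t (m + 1))) = N (t (m + 1)) / U (t (m + 2)) := by
      have : U (t (m + 2)) ≠ 0 := by linarith
      field_simp
    rw [e]
    exact div_le_div₀ (hNpos _) hNn (by linarith) hUn2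
  rw [Real.dist_eq, abs_lt]
  constructor <;> linarith

end Pool.Agent.R528.RM
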