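import Mathlib
import Pool.Agent.R528.RM.StrongSub
import Pool.Agent.R528.RM.Tails
import Pool.Agent.R528.RM.Final

set_option autoImplicit false
set_option linter.unusedSectionVars false

/-! # Members in prescribed positions given by several sequences -/

open MeasureTheory Filter Set
open scoped ENNReal Topology

namespace Pool.Agent.R528.RM

variable {Ω : Type} {m0 : MeasurableSpace Ω} {μ : Measure Ω} [IsProbabilityMeasure μ]
  {ℱ : Filtration ℕ m0} {A : ℕ → Set Ω}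

/-- pulling out -/
lemma pull_A (hA : ∀ n, MeasurableSet[ℱ n] (A n)) (k : ℕ) {f : Ω → ℝ}
    (hf : StronglyMeasurable[ℱ k] f) (c : ℝ) (hfc : ∀ᵐ ω ∂μ, ‖f ω‖ ≤ c) :
    ∫ ω, f ω * (A (k + 1)).indicator (fun _ => (1 : ℝ)) ω ∂μ = ∫ ω, f ω * dens μ ℱ A k ω ∂μ := by
  have hA' : MeasurableSet (A (k + 1)) := ℱ.le _ _ (hA _)
  have hg : Integrable ((A (k + 1)).indicator (fun _ => (1 : ℝ))) μ := (integrable_const _).indicator hA'
  have h1 := condExp_stronglyMeasurable_mul_of_bound (ℱ.le k) hf hg c hfc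
  have h2 := integral_condExp (μ := μ) (ℱ.le k) (f := f * (A (k + 1)).indicator (fun _ => (1 : ℝ)))
  have h3 : ∫ ω, f ω * (A (k + 1)).indicator (fun _ => (1 : ℝ)) ω ∂μ =
      ∫ ω, (f * (A (k + 1)).indicator (fun _ => (1 : ℝ))) ω ∂μ := rfl
  rw [h3, ← h2]
  exact integral_congr_ae h1

lemma dens01 (hA : ∀ n, MeasurableSet[ℱ n] (A n)) (k : ℕ) : ∀ᵐ ω ∂μ, 0 ≤ dens μ ℱ A k ω ∧ dens μ ℱ A k ω ≤ 1 := by
  have hA' : MeasurableSet (A (k + 1)) := ℱ.le _ _ (hA _)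
  have hg : Integrable ((A (k + 1)).indicator (fun _ => (1 : ℝ))) μ := (integrable_const _).indicator hA'
  have h0 : ∀ᵐ ω ∂μ, 0 ≤ dens μ ℱ A k ω :=
    condExp_nonneg (Eventually.of_forall fun ω => indicator_nonneg (fun _ _ => zero_le_one) ω)
  have h1 : (A (k + 1)).indicator (fun _ => (1 : ℝ)) ≤ᵐ[μ] fun _ => 1 :=
    Eventually.of_forall fun ω => indicator_le_self' (fun _ _ => zero_le_one) ω
  have h2 := condExp_mono (m := ℱ k) hg (integrable_const (1 : ℝ)) h1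
  filter_upwards [h0, h2] with ω h0 h2
  refine ⟨h0, ?_⟩
  rwa [condExp_const (ℱ.le k)] at h2

/-- no violation between `N₀` and `e` -/
def NW (V : ℕ → Set Ω) (N₀ e : ℕ) : Set Ω := {ω | ∀ m, N₀ ≤ m → m ≤ e → ω ∉ V m}

lemma NW_meas {V : ℕ → Set Ω} (hV : ∀ n, MeasurableSet[ℱ n] (V n)) (N₀ e : ℕ) : MeasurableSet[ℱ e] (NW V N₀ e) := by
  have h1 : NW V N₀ e = ⋂ n ∈ Finset.Icc N₀ e, (V n)ᶜ := by
    ext ω
    simp only [NW, mem_ofPred_eq, mem_iInter, Finset.mem_Icc, mem_compl_iff]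
    exact ⟨fun h n hn => h n hn.1 hn.2, fun h n h1 h2 => h n ⟨h1, h2⟩⟩
  rw [h1]
  refine Finset.measurableSet_biInter _ fun n hn => ?_
  exact (ℱ.mono (Finset.mem_Icc.1 hn).2 _ (hV n)).compl

/-- all members of the finite set `T` are chosen -/
def AT (A : ℕ → Set Ω) (T : Finset ℕ) : Set Ω := {ω | ∀ v ∈ T, ω ∈ A v}

lemma AT_meas (hA : ∀ n, MeasurableSet[ℱ n] (A n)) (T : Finset ℕ) (e : ℕ) (hT : ∀ v ∈ T, v ≤ e) :
    MeasurableSet[ℱ e] (AT A T) := by
  have h1 : AT A T = ⋂ v ∈ T, A v := by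
    ext ω
    simp [AT]
  rw [h1]
  exact Finset.measurableSet_biInter _ fun v hv => ℱ.mono (hT v hv) _ (hA v)

/-- the probability that all members of `T` are chosen -/
theorem tuple_le (hA : ∀ n, MeasurableSet[ℱ n] (A n)) {V : ℕ → Set Ω}
    (hV : ∀ n, MeasurableSet[ℱ n] (V n)) (u : ℕ → ℝ) (N₀ : ℕ) (hu : ∀ n, N₀ ≤ n → 0 ≤ u n)
    (hub : ∀ n, N₀ ≤ n → ∀ ω, ω ∉ V n → dens μ ℱ A n ω ≤ u n) (T : Finset ℕ) :
    (∀ v ∈ T, N₀ + 1 ≤ v) → ∀ e, (∀ v ∈ T, v ≤ e + 1) → μ.real (NW V N₀ e ∩ AT A T) ≤ ∏ v ∈ T, u (v - 1) := by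
  classical
  induction T using Finset.induction_on_max with
  | empty =>
    intro _ e _
    simp only [Finset.prod_empty]
    exact measureReal_le_one
  | insert v T hv ih =>
    intro hN e he
    have hvN : N₀ + 1 ≤ v := hN v (Finset.mem_insert_self v T)
    have hve : v ≤ e + 1 := he v (Finset.mem_insert_self v T)
    have hvT : v ∉ T := fun h => lt_irrefl _ (hv v h)
    rw [Finset.prod_insert hvT]
    have hB : MeasurableSet[ℱ (v - 1)] (NW V N₀ (v - 1) ∩ AT A T) :=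
      @MeasurableSet.inter _ (ℱ (v - 1)) _ _ (NW_meas hV _ _) (AT_meas hA T _ fun w hw => by
        have := hv w hw
        omega)
    have h1 := upper_meas (μ := μ) hA (v - 1) hB (u := u (v - 1)) (fun ω hω =>
      hub (v - 1) (by omega) ω (hω.1 (v - 1) (by omega) le_rfl))
    have e1 : v - 1 + 1 = v := by omega
    rw [e1] at h1
    have h2 : NW V N₀ e ∩ AT A (insert v T) ⊆ (NW V N₀ (v - 1) ∩ AT A T) ∩ A v := by
      rintro ω ⟨h3, h4⟩
      refine ⟨⟨fun m hm1 hm2 => h3 m hm1 (by omega), fun w hw => h4 w (Finset.mem_insert_of_mem hw)⟩, ?_⟩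
      exact h4 v (Finset.mem_insert_self v T)
    have h3 := ih (fun w hw => hN w (Finset.mem_insert_of_mem hw)) (v - 1) (fun w hw => by
      have := hv w hw
      omega)
    calc μ.real (NW V N₀ e ∩ AT A (insert v T)) ≤ μ.real ((NW V N₀ (v - 1) ∩ AT A T) ∩ A v) :=
          measureReal_mono h2 (measure_ne_top _ _)
      _ ≤ u (v - 1) * μ.real (NW V N₀ (v - 1) ∩ AT A T) := h1
      _ ≤ u (v - 1) * ∏ v ∈ T, u (v - 1) := mul_le_mul_of_nonneg_left h3 (hu _ (by omega))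

/-- weighted averages: terms which are asymptotically equal have asymptotically equal sums -/
lemma sum_ratio {a b U : ℕ → ℝ} (ha : ∀ n, 0 ≤ a n) (hU : Tendsto U atTop atTop)
    (hab : ∀ ε : ℝ, 0 < ε → ∀ᶠ n in atTop, |b n - a n| ≤ ε * a n)
    (h : Tendsto (fun n => (∑ k ∈ Finset.range n, a k) / U n) atTop (𝓝 1)) :
    Tendsto (fun n => (∑ k ∈ Finset.range n, b k) / U n) atTop (𝓝 1) := by
  have hlo : Tendsto (fun n => (∑ k ∈ Finset.range n, (b k - a k)) / U n) atTop (𝓝 0) := by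
    rw [Metric.tendsto_atTop]
    intro ε hε
    obtain ⟨n₀, hn₀⟩ := eventually_atTop.1 (hab (ε / 4) (by positivity))
    set C : ℝ := |∑ k ∈ Finset.range n₀, (b k - a k)| with hC
    obtain ⟨n₁, hn₁⟩ := eventually_atTop.1 ((h.eventually (gt_mem_nhds (show (1 : ℝ) < 2 by norm_num))).and
      ((hU.eventually_gt_atTop 0).and (hU.eventually_gt_atTop (4 * C / ε))))
    refine ⟨max n₀ n₁, fun n hn => ?_⟩
    obtain ⟨h1, h2, h3⟩ := hn₁ n ((le_max_right _ _).trans hn)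
    have hn0 : n₀ ≤ n := (le_max_left _ _).trans hn
    rw [Real.dist_eq, sub_zero, abs_div, abs_of_pos h2, div_lt_iff₀ h2]
    have h4 : ∑ k ∈ Finset.range n, (b k - a k) = ∑ k ∈ Finset.range n₀, (b k - a k) + ∑ k ∈ Finset.Ico n₀ n, (b k - a k) := by
      rw [Finset.sum_range_add_sum_Ico _ hn0]
    have h5 : |∑ k ∈ Finset.Ico n₀ n, (b k - a k)| ≤ ε / 4 * ∑ k ∈ Finset.range n, a k := by
      refine (Finset.abs_sum_le_sum_abs _ _).trans ?_
      rw [Finset.mul_sum]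
      refine (Finset.sum_le_sum fun k hk => hn₀ k (Finset.mem_Ico.1 hk).1).trans ?_
      apply Finset.sum_le_sum_of_subset_of_nonneg
      · intro k hk
        exact Finset.mem_range.2 (Finset.mem_Ico.1 hk).2
      · intro k _ _
        exact mul_nonneg (by positivity) (ha k)
    rw [div_lt_iff₀ h2] at h1
    rw [div_lt_iff₀ hε] at h3
    rw [h4]
    refine lt_of_le_of_lt (abs_add_le _ _) ?_
    have h6 : ε / 4 * ∑ k ∈ Finset.range n, a k ≤ ε / 4 * (2 * U n) := mul_le_mul_of_nonneg_left h1.le (by positivity)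
    rw [← hC]
    nlinarith
  have h2 := h.add hlo
  rw [add_zero] at h2
  refine h2.congr fun n => ?_
  rw [← add_div, Finset.sum_sub_distrib]
  congr 1
  ring

variable {ι : Type}

/-- the indicator that all `F i n`, `i ∈ s`, are chosen -/
noncomputable def YY (A : ℕ → Set Ω) (F : ι → ℕ → ℕ) (s : Finset ι) (n : ℕ) (ω : Ω) : ℝ :=
  ∏ i ∈ s, (A (F i n)).indicator (fun _ => (1 : ℝ)) ω

lemma YY_eq (F : ι → ℕ → ℕ) (s : Finset ι) (n : ℕ) (ω : Ω) :
    YY A F s n ω = {ω | ∀ i ∈ s, ω ∈ A (F i n)}.indicator (fun _ => (1 : ℝ)) ω := by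
  classical
  unfold YY
  by_cases h : ∀ i ∈ s, ω ∈ A (F i n)
  · rw [indicator_of_mem (show ω ∈ {ω | ∀ i ∈ s, ω ∈ A (F i n)} from h)]
    exact Finset.prod_eq_one fun i hi => by rw [indicator_of_mem (h i hi)]
  · rw [indicator_of_notMem (show ω ∉ {ω | ∀ i ∈ s, ω ∈ A (F i n)} from h)]
    push Not at h
    obtain ⟨i, hi, hn⟩ := h
    exact Finset.prod_eq_zero hi (by rw [indicator_of_notMem hn])

lemma YY_meas (hA : ∀ n, MeasurableSet[ℱ n] (A n)) (F : ι → ℕ → ℕ) (s : Finset ι) (n e : ℕ)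
    (h : ∀ i ∈ s, F i n ≤ e) : MeasurableSet[ℱ e] {ω | ∀ i ∈ s, ω ∈ A (F i n)} := by
  have h1 : {ω | ∀ i ∈ s, ω ∈ A (F i n)} = ⋂ i ∈ s, A (F i n) := by
    ext ω
    simp
  rw [h1]
  exact Finset.measurableSet_biInter _ fun i hi => ℱ.mono (h i hi) _ (hA _)

lemma YY_insert [DecidableEq ι] (F : ι → ℕ → ℕ) {s : Finset ι} {g : ι} (hg : g ∉ s) (n : ℕ) (ω : Ω) :
    YY A F (insert g s) n ω = YY A F s n ω * (A (F g n)).indicator (fun _ => (1 : ℝ)) ω := by
  unfold YY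
  rw [Finset.prod_insert hg, mul_comm]

/-- the upper bound for the expectation -/
lemma YY_exp (hA : ∀ n, MeasurableSet[ℱ n] (A n)) [DecidableEq ι] (F : ι → ℕ → ℕ) (s : Finset ι) (n N₀ e : ℕ)
    (hinj : ∀ i ∈ s, ∀ j ∈ s, F i n = F j n → i = j)
    (h3 : ∀ i ∈ s, 3 ≤ F i n) (hN : ∀ i ∈ s, N₀ + 1 ≤ F i n) (he : ∀ i ∈ s, F i n ≤ e + 1) (hN2 : 2 ≤ N₀) :
    μ.real (NW (VF μ ℱ A 1) N₀ e ∩ {ω | ∀ i ∈ s, ω ∈ A (F i n)}) ≤ ∏ i ∈ s, 4 * (Real.log (F i n))⁻¹ := by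
  have hub : ∀ m : ℕ, N₀ ≤ m → ∀ ω, ω ∉ VF μ ℱ A 1 m → dens μ ℱ A m ω ≤ 2 * (Real.log m)⁻¹ := by
    intro m hm ω hω
    simp only [VF, mem_ofPred_eq, not_not] at hω
    have h4 := (abs_le.1 hω).2
    have h5 : 0 < Real.log m := Real.log_pos (by
      have : 2 ≤ m := hN2.trans hm
      have : (2 : ℝ) ≤ m := by exact_mod_cast this
      linarith)
    rw [← div_eq_mul_inv, le_div_iff₀ h5]
    linarith
  have h1 := tuple_le (μ := μ) hA (V := VF μ ℱ A 1) (fun n => VF_meas 1 n) (fun m => 2 * (Real.log m)⁻¹) N₀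
    (fun m hm => by
      have : 0 ≤ Real.log (m : ℝ) := Real.log_natCast_nonneg m
      positivity) hub (s.image fun i => F i n) (by
      intro v hv
      obtain ⟨i, hi, rfl⟩ := Finset.mem_image.1 hv
      exact hN i hi) e (by
      intro v hv
      obtain ⟨i, hi, rfl⟩ := Finset.mem_image.1 hv
      exact he i hi)
  have h2 : AT A (s.image fun i => F i n) = {ω | ∀ i ∈ s, ω ∈ A (F i n)} := by
    ext ω
    simp [AT]
  rw [h2, Finset.prod_image (fun i hi j hj h => hinj i hi j hj h)] at h1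
  refine h1.trans ?_
  apply Finset.prod_le_prod
  · intro i hi
    have : 0 ≤ Real.log ((F i n - 1 : ℕ) : ℝ) := Real.log_natCast_nonneg _
    positivity
  · intro i hi
    have h4 : (3 : ℝ) ≤ F i n := by exact_mod_cast h3 i hi
    have h5 : ((F i n - 1 : ℕ) : ℝ) = F i n - 1 := by
      rw [Nat.cast_sub (by have := h3 i hi; omega)]
      simp
    rw [h5]
    have h6 : 0 < Real.log (F i n : ℝ) := Real.log_pos (by linarith)
    have h7 : Real.log (F i n : ℝ) ≤ 2 * Real.log ((F i n : ℝ) - 1) := by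
      have e : 2 * Real.log ((F i n : ℝ) - 1) = Real.log (((F i n : ℝ) - 1) ^ 2) := by rw [Real.log_pow]; norm_num
      rw [e]
      exact Real.log_le_log (by linarith) (by nlinarith)
    have h8 : 0 < Real.log ((F i n : ℝ) - 1) := Real.log_pos (by linarith)
    rw [← div_eq_mul_inv, ← div_eq_mul_inv, div_le_div_iff₀ h8 h6]
    linarith

end Pool.Agent.R528.RM
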