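import Mathlib
import Pool.Agent.R528.RM.BH

set_option autoImplicit false
set_option linter.unusedSectionVars false

/-! # Members in prescribed positions: the general law -/

open MeasureTheory Filter Set
open scoped ENNReal Topology

namespace Pool.Agent.R528.RM

variable {Ω : Type} {m0 : MeasurableSpace Ω} {μ : Measure Ω} [IsProbabilityMeasure μ]
  {ℱ : Filtration ℕ m0} {A : ℕ → Set Ω} {ι : Type}

/-- the conditional probability exceeds twice its expected size -/
def VR (μ : Measure Ω) (ℱ : Filtration ℕ m0) (A : ℕ → Set Ω) (ρ : ℕ → ℝ) (n : ℕ) : Set Ω :=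
  {ω | 2 * ρ (n + 1) < dens μ ℱ A n ω}

lemma VR_meas (ρ : ℕ → ℝ) (n : ℕ) : MeasurableSet[ℱ n] (VR μ ℱ A ρ n) := by
  have h : Measurable[ℱ n] (dens μ ℱ A n) := (dens_meas n).measurable
  exact h (measurableSet_Ioi (a := 2 * ρ (n + 1)))

lemma YY_exp' (hA : ∀ n, MeasurableSet[ℱ n] (A n)) [DecidableEq ι] (ρ : ℕ → ℝ) (hρ : ∀ n, 0 ≤ ρ n)
    (F : ι → ℕ → ℕ) (s : Finset ι) (n N₀ e : ℕ)
    (hinj : ∀ i ∈ s, ∀ j ∈ s, F i n = F j n → i = j)
    (hN : ∀ i ∈ s, N₀ + 1 ≤ F i n) (he : ∀ i ∈ s, F i n ≤ e + 1) :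
    μ.real (NW (VR μ ℱ A ρ) N₀ e ∩ {ω | ∀ i ∈ s, ω ∈ A (F i n)}) ≤ ∏ i ∈ s, 2 * ρ (F i n) := by
  have hub : ∀ m : ℕ, N₀ ≤ m → ∀ ω, ω ∉ VR μ ℱ A ρ m → dens μ ℱ A m ω ≤ 2 * ρ (m + 1) := by
    intro m _ ω hω
    simp only [VR, mem_ofPred_eq, not_lt] at hω
    exact hω
  have h1 := tuple_le (μ := μ) hA (V := VR μ ℱ A ρ) (fun n => VR_meas ρ n) (fun m => 2 * ρ (m + 1)) N₀
    (fun m _ => by have := hρ (m + 1); positivity) hub (s.image fun i => F i n) (by
      intro v hv
      obtain ⟨i, hi, rfl⟩ := Finset.mem_image.1 hv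
      exact hN i hi) e (by
      intro v hv
      obtain ⟨i, hi, rfl⟩ := Finset.mem_image.1 hv
      exact he i hi)
  have h2 : AT A (s.image fun i => F i n) = {ω | ∀ i ∈ s, ω ∈ A (F i n)} := by
    ext ω
    simp [AT]
  rw [h2, Finset.prod_image (fun i hi j hj h => hinj i hi j hj h)] at h1
  refine h1.trans (le_of_eq ?_)
  refine Finset.prod_congr rfl fun i hi => ?_
  have := hN i hi
  rw [show F i n - 1 + 1 = F i n by omega]

/-- the general law: the sequences `F i` are strictly increasing and pairwise ordered -/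
theorem bhg (hA : ∀ n, MeasurableSet[ℱ n] (A n)) [DecidableEq ι] (ρ : ℕ → ℝ) (hρ : ∀ n, 0 ≤ ρ n)
    (hρ1 : ∀ n, ρ n ≤ 1)
    (hd : ∀ᵐ ω ∂μ, ∀ ε : ℝ, 0 < ε → ∀ᶠ n : ℕ in atTop, |dens μ ℱ A n ω - ρ (n + 1)| ≤ ε * ρ (n + 1))
    (F : ι → ℕ → ℕ) (k : ℕ) :
    ∀ s : Finset ι, s.card = k → (∀ i ∈ s, StrictMono (F i)) → (∀ i ∈ s, ∀ n, 1 ≤ F i n) →
    (∀ i ∈ s, ∀ j ∈ s, i ≠ j → (∀ n, F i n < F j n) ∨ (∀ n, F j n < F i n)) →
    ∀ w : ℕ → ℝ, (∀ n, 0 ≤ w n) → (∀ n, w n ≤ 1) →
    Tendsto (fun x => ∑ n ∈ Finset.range x, w n * ∏ i ∈ s, ρ (F i n)) atTop atTop →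
    ∀ᵐ ω ∂μ, Tendsto (fun x => (∑ n ∈ Finset.range x, w n * YY A F s n ω) /
      ∑ n ∈ Finset.range x, w n * ∏ i ∈ s, ρ (F i n)) atTop (𝓝 1) := by
  classical
  induction k with
  | zero =>
    intro s hs _ _ _ w _ _ hU
    rw [Finset.card_eq_zero] at hs
    subst hs
    refine Eventually.of_forall fun ω => ?_
    simp only [YY, Finset.prod_empty] at hU ⊢
    refine Tendsto.congr' ?_ tendsto_const_nhds
    filter_upwards [hU.eventually_gt_atTop 0] with x hx
    rw [div_self hx.ne']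
  | succ k ih =>
    intro s hs hmono h1 hord w hw0 hw1 hU
    have hsne : s.Nonempty := by
      rw [← Finset.card_pos, hs]
      omega
    obtain ⟨g, hgs, hgmax⟩ := Finset.exists_max_image s (fun i => F i 0) hsne
    set s' := s.erase g with hs'
    have hgs' : g ∉ s' := Finset.notMem_erase g s
    have hins : insert g s' = s := Finset.insert_erase hgs
    have hlt : ∀ j ∈ s', ∀ n, F j n < F g n := by
      intro j hj
      have hj1 := Finset.mem_of_mem_erase hj
      have hj2 := Finset.ne_of_mem_erase hj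
      rcases hord j hj1 g hgs hj2 with h | h
      · exact h
      · exact absurd (h 0) (not_lt.2 (hgmax j hj1))
    have hin : ∀ i ∈ s, ∀ n, n + 1 ≤ F i n := by
      intro i hi n
      induction n with
      | zero => exact h1 i hi 0
      | succ n ihn =>
        have h3 : F i n < F i (n + 1) := hmono i hi (Nat.lt_succ_self n)
        omega
    have hgn : ∀ n, n + 1 ≤ F g n := hin g hgs
    set u : ℕ → ℝ := fun n => w n * ∏ i ∈ s, ρ (F i n) with hu
    set w' : ℕ → ℝ := fun n => w n * ρ (F g n) with hw'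
    have huw : ∀ n, u n = w' n * ∏ i ∈ s', ρ (F i n) := by
      intro n
      simp only [hu, hw']
      rw [← hins, Finset.prod_insert hgs']
      ring
    have hu0 : ∀ n, 0 ≤ u n := fun n => mul_nonneg (hw0 n) (Finset.prod_nonneg fun i _ => hρ _)
    have hu1 : ∀ n, u n ≤ 1 := fun n => mul_le_one₀ (hw1 n) (Finset.prod_nonneg fun i _ => hρ _)
      (Finset.prod_le_one (fun i _ => hρ _) fun i _ => hρ1 _)
    have hIH := ih s' (by rw [hs', Finset.card_erase_of_mem hgs, hs]; rfl)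
      (fun i hi => hmono i (Finset.mem_of_mem_erase hi)) (fun i hi => h1 i (Finset.mem_of_mem_erase hi))
      (fun i hi j hj hij => hord i (Finset.mem_of_mem_erase hi) j (Finset.mem_of_mem_erase hj) hij)
      w' (fun n => mul_nonneg (hw0 n) (hρ _)) (fun n => mul_le_one₀ (hw1 n) (hρ _) (hρ1 _))
      (hU.congr fun x => Finset.sum_congr rfl fun n _ => huw n)
    -- the martingale differences
    set Z : ℕ → ℕ → Set Ω := fun N₀ n => NW (VR μ ℱ A ρ) N₀ (F g n - 1) ∩ {ω | ∀ i ∈ s', ω ∈ A (F i n)} with hZ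
    have hZm : ∀ N₀ n, MeasurableSet[ℱ (F g n - 1)] (Z N₀ n) := fun N₀ n =>
      @MeasurableSet.inter _ (ℱ (F g n - 1)) _ _ (NW_meas (fun n => VR_meas ρ n) _ _)
        (YY_meas hA F s' n _ fun i hi => by have := hlt i hi n; omega)
    set c : ℕ → ℕ → ℝ := fun N₀ n => if N₀ ≤ n then w n else 0 with hc
    have hc0 : ∀ N₀ n, 0 ≤ c N₀ n := fun N₀ n => by
      simp only [hc]
      split_ifs
      · exact hw0 n
      · exact le_rfl
    have hc1 : ∀ N₀ n, c N₀ n ≤ 1 := fun N₀ n => by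
      simp only [hc]
      split_ifs
      · exact hw1 n
      · exact zero_le_one
    set ζ : ℕ → ℕ → Ω → ℝ := fun N₀ n ω => c N₀ n * (Z N₀ n).indicator (fun _ => (1 : ℝ)) ω with hζ
    have hζm : ∀ N₀ n, StronglyMeasurable[ℱ (F g n - 1)] (ζ N₀ n) := fun N₀ n =>
      @StronglyMeasurable.const_mul _ _ _ (ℱ (F g n - 1)) _ _ _
        ((@stronglyMeasurable_const _ _ (ℱ (F g n - 1)) _ _).indicator (hZm N₀ n)) _
    have hζ0 : ∀ N₀ n ω, 0 ≤ ζ N₀ n ω := fun N₀ n ω =>
      mul_nonneg (hc0 _ _) (indicator_nonneg (fun _ _ => zero_le_one) _)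
    have hζ1 : ∀ N₀ n ω, ζ N₀ n ω ≤ 1 := fun N₀ n ω =>
      mul_le_one₀ (hc1 _ _) (indicator_nonneg (fun _ _ => zero_le_one) _) (indicator_le_self' (fun _ _ => zero_le_one) ω)
    set I : ℕ → Ω → ℝ := fun n => (A (F g n)).indicator (fun _ => (1 : ℝ)) with hI
    set D : ℕ → Ω → ℝ := fun n => dens μ ℱ A (F g n - 1) with hD
    have hFe : ∀ n, F g n - 1 + 1 = F g n := fun n => by have := hgn n; omega
    have hI0 : ∀ n ω, 0 ≤ I n ω := fun n ω => indicator_nonneg (fun _ _ => zero_le_one) _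
    have hI1 : ∀ n ω, I n ω ≤ 1 := fun n ω => indicator_le_self' (fun _ _ => zero_le_one) ω
    have hD01 : ∀ n, ∀ᵐ ω ∂μ, 0 ≤ D n ω ∧ D n ω ≤ 1 := fun n => dens01 hA _
    set X : ℕ → ℕ → Ω → ℝ := fun N₀ n ω => ζ N₀ n ω * (I n ω - D n ω) with hX
    have hIm : ∀ n, StronglyMeasurable[ℱ (F g n)] (I n) := fun n =>
      (@stronglyMeasurable_const _ _ (ℱ (F g n)) _ _).indicator (hA _)
    have hDm : ∀ n, StronglyMeasurable[ℱ (F g n - 1)] (D n) := fun n => dens_meas _
    have hXm' : ∀ N₀ n, StronglyMeasurable[ℱ (F g n)] (X N₀ n) := by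
      intro N₀ n
      have h1 : StronglyMeasurable[ℱ (F g n)] (D n) := (hDm n).mono (ℱ.mono (Nat.sub_le _ _))
      have h4 : StronglyMeasurable[ℱ (F g n)] (ζ N₀ n) := (hζm N₀ n).mono (ℱ.mono (Nat.sub_le _ _))
      have h2 : StronglyMeasurable[ℱ (F g n)] (I n - D n) :=
        @StronglyMeasurable.sub _ _ (I n) (D n) (ℱ (F g n)) _ _ _ (hIm n) h1
      exact @StronglyMeasurable.mul _ _ (ζ N₀ n) (I n - D n) (ℱ (F g n)) _ _ _ h4 h2
    have hXm : ∀ N₀ n, AEStronglyMeasurable (X N₀ n) μ := fun N₀ n =>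
      ((hXm' N₀ n).mono (ℱ.le _)).aestronglyMeasurable
    have hXc : ∀ N₀ n, ∀ᵐ ω ∂μ, ‖X N₀ n ω‖ ≤ (1 : ℝ) := by
      intro N₀ n
      filter_upwards [hD01 n] with ω hω
      rw [Real.norm_eq_abs]
      simp only [hX]
      rw [abs_mul, abs_of_nonneg (hζ0 _ _ _)]
      refine mul_le_one₀ (hζ1 _ _ _) (abs_nonneg _) ?_
      rw [abs_le]
      constructor <;> linarith [hI0 n ω, hI1 n ω, hω.1, hω.2]
    -- pulling out
    have hpull : ∀ n (f : Ω → ℝ), StronglyMeasurable[ℱ (F g n - 1)] f → (∀ᵐ ω ∂μ, ‖f ω‖ ≤ 1) →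
        ∫ ω, f ω * I n ω ∂μ = ∫ ω, f ω * D n ω ∂μ := by
      intro n f hf hf1
      have h2 := pull_A (μ := μ) hA (F g n - 1) hf 1 hf1
      rw [hFe] at h2
      exact h2
    have hint : ∀ f : Ω → ℝ, AEStronglyMeasurable f μ → (∀ᵐ ω ∂μ, ‖f ω‖ ≤ 1) → Integrable f μ := by
      intro f hf hf1
      exact Integrable.of_bound hf 1 hf1
    have hIam : ∀ n, AEStronglyMeasurable (I n) μ := fun n => ((hIm n).mono (ℱ.le _)).aestronglyMeasurable
    have hDam : ∀ n, AEStronglyMeasurable (D n) μ := fun n => ((hDm n).mono (ℱ.le _)).aestronglyMeasurable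
    have hζam : ∀ N₀ n, AEStronglyMeasurable (ζ N₀ n) μ := fun N₀ n => ((hζm N₀ n).mono (ℱ.le _)).aestronglyMeasurable
    have hmul1 : ∀ a b : ℝ, ‖a‖ ≤ 1 → ‖b‖ ≤ 1 → ‖a * b‖ ≤ 1 := by
      intro a b ha hb
      rw [norm_mul]
      exact mul_le_one₀ ha (norm_nonneg _) hb
    have nI : ∀ n ω, ‖I n ω‖ ≤ 1 := fun n ω => by
      rw [Real.norm_eq_abs, abs_of_nonneg (hI0 _ _)]; exact hI1 _ _
    have nζ : ∀ N₀ n ω, ‖ζ N₀ n ω‖ ≤ 1 := fun N₀ n ω => by
      rw [Real.norm_eq_abs, abs_of_nonneg (hζ0 _ _ _)]; exact hζ1 _ _ _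
    have nD : ∀ n, ∀ᵐ ω ∂μ, ‖D n ω‖ ≤ 1 := fun n => by
      filter_upwards [hD01 n] with ω hω
      rw [Real.norm_eq_abs, abs_of_nonneg hω.1]; exact hω.2
    have hcov : ∀ N₀ i j, i < j → ∫ ω, X N₀ i ω * X N₀ j ω ∂μ ≤ 0 := by
      intro N₀ i j hij
      have hFij : F g i < F g j := hmono g hgs hij
      set f : Ω → ℝ := fun ω => X N₀ i ω * ζ N₀ j ω with hf
      have hle : F g i ≤ F g j - 1 := by omega
      have hfm1 : StronglyMeasurable[ℱ (F g j - 1)] (X N₀ i) := (hXm' N₀ i).mono (ℱ.mono hle)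
      have hfm : StronglyMeasurable[ℱ (F g j - 1)] f :=
        @StronglyMeasurable.mul _ _ (X N₀ i) (ζ N₀ j) (ℱ (F g j - 1)) _ _ _ hfm1 (hζm N₀ j)
      have hf1 : ∀ᵐ ω ∂μ, ‖f ω‖ ≤ 1 := by
        filter_upwards [hXc N₀ i] with ω hω
        exact hmul1 _ _ hω (nζ _ _ _)
      have h2 := hpull j f hfm hf1
      have hfam : AEStronglyMeasurable f μ := (hfm.mono (ℱ.le _)).aestronglyMeasurable
      have e1 : ∀ ω, X N₀ i ω * X N₀ j ω = f ω * I j ω - f ω * D j ω := by
        intro ω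
        simp only [hf, hX]
        ring
      have i1 : Integrable (fun ω => f ω * I j ω) μ := hint _ (hfam.mul (hIam j)) (by
        filter_upwards [hf1] with ω hω
        exact hmul1 _ _ hω (nI _ _))
      have i2 : Integrable (fun ω => f ω * D j ω) μ := hint _ (hfam.mul (hDam j)) (by
        filter_upwards [hf1, nD j] with ω hω hω2
        exact hmul1 _ _ hω hω2)
      simp only [e1]
      rw [integral_sub i1 i2, h2, sub_self]
    have hvar : ∀ N₀ n, ∫ ω, X N₀ n ω ^ 2 ∂μ ≤ 2 ^ (k + 1) * u n := by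
      intro N₀ n
      set f : Ω → ℝ := fun ω => ζ N₀ n ω ^ 2 * D n ω with hf
      have hζ2m : StronglyMeasurable[ℱ (F g n - 1)] (fun ω => ζ N₀ n ω ^ 2) :=
        @StronglyMeasurable.pow _ _ _ (ℱ (F g n - 1)) _ _ _ (hζm N₀ n) 2
      have hfm : StronglyMeasurable[ℱ (F g n - 1)] f :=
        @StronglyMeasurable.mul _ _ (fun ω => ζ N₀ n ω ^ 2) (D n) (ℱ (F g n - 1)) _ _ _ hζ2m (hDm n)
      have nζ2 : ∀ ω, ‖ζ N₀ n ω ^ 2‖ ≤ 1 := fun ω => by
        rw [norm_pow]
        exact pow_le_one₀ (norm_nonneg _) (nζ _ _ _)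
      have hf1 : ∀ᵐ ω ∂μ, ‖f ω‖ ≤ 1 := by
        filter_upwards [nD n] with ω hω
        exact hmul1 _ _ (nζ2 ω) hω
      have h2 := hpull n f hfm hf1
      have hfam : AEStronglyMeasurable f μ := (hfm.mono (ℱ.le _)).aestronglyMeasurable
      have hζ2am : AEStronglyMeasurable (fun ω => ζ N₀ n ω ^ 2) μ := (hζ2m.mono (ℱ.le _)).aestronglyMeasurable
      have hII : ∀ ω, I n ω * I n ω = I n ω := by
        intro ω
        simp only [hI]
        by_cases h : ω ∈ A (F g n)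
        · rw [indicator_of_mem h]; ring
        · rw [indicator_of_notMem h]; ring
      have e1 : ∀ ω, X N₀ n ω ^ 2 = ζ N₀ n ω ^ 2 * I n ω - 2 * (f ω * I n ω) + f ω * D n ω := by
        intro ω
        have : X N₀ n ω ^ 2 = ζ N₀ n ω ^ 2 * (I n ω * I n ω - 2 * D n ω * I n ω + D n ω ^ 2) := by
          simp only [hX]
          ring
        rw [this, hII]
        simp only [hf]
        ring
      have i1 : Integrable (fun ω => ζ N₀ n ω ^ 2 * I n ω) μ := hint _ (hζ2am.mul (hIam n))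
        (Eventually.of_forall fun ω => hmul1 _ _ (nζ2 ω) (nI _ _))
      have i2 : Integrable (fun ω => f ω * I n ω) μ := hint _ (hfam.mul (hIam n)) (by
        filter_upwards [hf1] with ω hω
        exact hmul1 _ _ hω (nI _ _))
      have i3 : Integrable (fun ω => f ω * D n ω) μ := hint _ (hfam.mul (hDam n)) (by
        filter_upwards [hf1, nD n] with ω hω hω2
        exact hmul1 _ _ hω hω2)
      have e2 : ∫ ω, X N₀ n ω ^ 2 ∂μ = ∫ ω, ζ N₀ n ω ^ 2 * I n ω ∂μ - ∫ ω, f ω * D n ω ∂μ := by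
        simp only [e1]
        have i12 : Integrable (fun ω => ζ N₀ n ω ^ 2 * I n ω - 2 * (f ω * I n ω)) μ := i1.sub (i2.const_mul 2)
        rw [integral_add i12 i3, integral_sub i1 (i2.const_mul 2), integral_const_mul, h2]
        ring
      have e3 : 0 ≤ ∫ ω, f ω * D n ω ∂μ := by
        refine integral_nonneg_of_ae ?_
        filter_upwards [hD01 n] with ω hω
        simp only [hf, Pi.zero_apply]
        exact mul_nonneg (mul_nonneg (sq_nonneg _) hω.1) hω.1
      rw [e2]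
      by_cases hn : N₀ ≤ n
      · have e4 : ∀ ω, ζ N₀ n ω ^ 2 * I n ω ≤ w n * (Z N₀ n ∩ A (F g n)).indicator (fun _ => (1 : ℝ)) ω := by
          intro ω
          simp only [hζ, hI, hc, if_pos hn]
          by_cases h3 : ω ∈ Z N₀ n
          · by_cases h4 : ω ∈ A (F g n)
            · rw [indicator_of_mem h3, indicator_of_mem h4, indicator_of_mem (show ω ∈ Z N₀ n ∩ A (F g n) from ⟨h3, h4⟩)]
              nlinarith [hw0 n, hw1 n]
            · rw [indicator_of_notMem h4, indicator_of_notMem (show ω ∉ Z N₀ n ∩ A (F g n) from fun h => h4 h.2)]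
              simp
          · rw [indicator_of_notMem h3, indicator_of_notMem (show ω ∉ Z N₀ n ∩ A (F g n) from fun h => h3 h.1)]
            simp
        have hZA : MeasurableSet (Z N₀ n ∩ A (F g n)) := (ℱ.le _ _ (hZm N₀ n)).inter (ℱ.le _ _ (hA _))
        have e5 : ∫ ω, ζ N₀ n ω ^ 2 * I n ω ∂μ ≤ w n * μ.real (Z N₀ n ∩ A (F g n)) := by
          refine (integral_mono i1 (((integrable_const _).indicator hZA).const_mul _) e4).trans ?_
          rw [integral_const_mul, integral_indicator hZA]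
          simp [Measure.real]
        have e6 : Z N₀ n ∩ A (F g n) = NW (VR μ ℱ A ρ) N₀ (F g n - 1) ∩ {ω | ∀ i ∈ s, ω ∈ A (F i n)} := by
          ext ω
          simp only [hZ, mem_inter_iff, mem_ofPred_eq]
          constructor
          · rintro ⟨⟨h3, h4⟩, h5⟩
            refine ⟨h3, fun i hi => ?_⟩
            by_cases hig : i = g
            · rw [hig]; exact h5
            · exact h4 i (Finset.mem_erase.2 ⟨hig, hi⟩)
          · rintro ⟨h3, h4⟩
            exact ⟨⟨h3, fun i hi => h4 i (Finset.mem_of_mem_erase hi)⟩, h4 g hgs⟩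
        have e7 := YY_exp' (μ := μ) hA ρ hρ F s n N₀ (F g n - 1) (fun i hi j hj h => by
          by_contra hij
          rcases hord i hi j hj hij with h3 | h3
          · exact absurd h (h3 n).ne
          · exact absurd h (h3 n).ne') (fun i hi => by
            have := hin i hi n
            omega) (fun i hi => by
            by_cases hig : i = g
            · rw [hig]; omega
            · have := hlt i (Finset.mem_erase.2 ⟨hig, hi⟩) n
              omega)
        rw [e6] at e5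
        have e8 : ∏ i ∈ s, 2 * ρ (F i n) = 2 ^ (k + 1) * ∏ i ∈ s, ρ (F i n) := by
          rw [Finset.prod_mul_distrib, Finset.prod_const, hs]
        rw [e8] at e7
        have e9 : w n * μ.real (NW (VR μ ℱ A ρ) N₀ (F g n - 1) ∩ {ω | ∀ i ∈ s, ω ∈ A (F i n)}) ≤ 2 ^ (k + 1) * u n := by
          refine (mul_le_mul_of_nonneg_left e7 (hw0 n)).trans (le_of_eq ?_)
          simp only [hu]
          ring
        linarith
      · have e4 : ∀ ω, ζ N₀ n ω ^ 2 * I n ω = 0 := by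
          intro ω
          simp only [hζ, hc, if_neg hn]
          ring
        simp only [e4, integral_zero]
        have := hu0 n
        have : 0 ≤ 2 ^ (k + 1) * u n := by positivity
        linarith
    have hSS : ∀ N₀, ∀ᵐ ω ∂μ, ∀ N q : ℕ → ℝ, Monotone N → 0 ≤ N 0 → (∀ n, N n - q n = ∑ k ∈ Finset.range n, X N₀ k ω) →
        Tendsto (fun n => q n / ∑ k ∈ Finset.range n, u k) atTop (𝓝 1) →
        Tendsto (fun n => N n / ∑ k ∈ Finset.range n, u k) atTop (𝓝 1) := fun N₀ =>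
      strong_sub (X N₀) u (fun _ => 1) (C := 2 ^ (k + 1)) (by positivity) hu0 hu1 hU (hXm N₀) (hXc N₀) (hcov N₀) (hvar N₀)
    filter_upwards [hIH, hd, ae_all_iff.2 hSS] with ω hω1 hω2 hω3
    -- no violations
    obtain ⟨N₀, hN₀⟩ := eventually_atTop.1 (hω2 1 one_pos)
    have hnv : ∀ n, N₀ ≤ n → ω ∉ VR μ ℱ A ρ n := by
      intro n hn h
      simp only [VR, mem_ofPred_eq] at h
      have := (abs_le.1 (hN₀ n hn)).2
      linarith
    set a₁ : ℕ → ℝ := fun n => w' n * YY A F s' n ω with ha₁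
    set b₁ : ℕ → ℝ := fun n => c N₀ n * YY A F s' n ω * D n ω with hb₁
    set a₂ : ℕ → ℝ := fun n => c N₀ n * YY A F s n ω with ha₂
    have hY0 : ∀ (t : Finset ι) n, 0 ≤ YY A F t n ω := fun t n =>
      Finset.prod_nonneg fun i _ => indicator_nonneg (fun _ _ => zero_le_one) _
    have hUeq : ∀ x, ∑ n ∈ Finset.range x, u n = ∑ n ∈ Finset.range x, w' n * ∏ i ∈ s', ρ (F i n) := fun x =>
      Finset.sum_congr rfl fun n _ => huw n
    have hq : Tendsto (fun n => (∑ k ∈ Finset.range n, b₁ k) / ∑ k ∈ Finset.range n, u k) atTop (𝓝 1) := by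
      refine sum_ratio (a := a₁) (fun n => mul_nonneg (mul_nonneg (hw0 n) (hρ _)) (hY0 _ _)) hU ?_ ?_
      · intro ε hε
        have h3 := hω2 ε hε
        obtain ⟨n₁, hn₁⟩ := eventually_atTop.1 h3
        filter_upwards [eventually_ge_atTop N₀, eventually_ge_atTop n₁] with n hn hn1
        have h4 := hn₁ (F g n - 1) (by have := hgn n; omega)
        rw [hFe] at h4
        simp only [hb₁, ha₁, hc, if_pos hn, hw']
        have e1 : w n * YY A F s' n ω * D n ω - w n * ρ (F g n) * YY A F s' n ω =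
            w n * YY A F s' n ω * (D n ω - ρ (F g n)) := by ring
        rw [e1, abs_mul, abs_of_nonneg (mul_nonneg (hw0 n) (hY0 _ _))]
        calc w n * YY A F s' n ω * |D n ω - ρ (F g n)| ≤ w n * YY A F s' n ω * (ε * ρ (F g n)) :=
              mul_le_mul_of_nonneg_left h4 (mul_nonneg (hw0 n) (hY0 _ _))
          _ = ε * (w n * ρ (F g n) * YY A F s' n ω) := by ring
      · refine hω1.congr fun x => ?_
        rw [hUeq]
    have hNt := hω3 N₀ (fun n => ∑ k ∈ Finset.range n, a₂ k) (fun n => ∑ k ∈ Finset.range n, b₁ k) (by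
      apply monotone_nat_of_le_succ
      intro n
      rw [Finset.sum_range_succ]
      have := mul_nonneg (hc0 N₀ n) (hY0 s n)
      simp only [ha₂]
      linarith) (by simp) (by
      intro n
      rw [← Finset.sum_sub_distrib]
      refine Finset.sum_congr rfl fun k _ => ?_
      simp only [ha₂, hb₁, hX, hζ]
      rw [← hins, YY_insert F hgs']
      have e1 : c N₀ k * (Z N₀ k).indicator (fun _ => (1 : ℝ)) ω = c N₀ k * YY A F s' k ω := by
        by_cases hk : N₀ ≤ k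
        · congr 1
          rw [YY_eq]
          by_cases h3 : ∀ i ∈ s', ω ∈ A (F i k)
          · rw [indicator_of_mem (show ω ∈ Z N₀ k from ⟨fun m hm _ => hnv m hm, h3⟩),
              indicator_of_mem (show ω ∈ {ω | ∀ i ∈ s', ω ∈ A (F i k)} from h3)]
          · rw [indicator_of_notMem (show ω ∉ Z N₀ k from fun h => h3 h.2),
              indicator_of_notMem (show ω ∉ {ω | ∀ i ∈ s', ω ∈ A (F i k)} from h3)]
        · simp only [hc, if_neg hk, zero_mul]
      rw [e1]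
      simp only [hI]
      ring) hq
    refine sum_ratio (a := a₂) (fun n => mul_nonneg (hc0 N₀ n) (hY0 s n)) hU ?_ hNt
    intro ε hε
    filter_upwards [eventually_ge_atTop N₀] with n hn
    simp only [ha₂, hc, if_pos hn, sub_self, abs_zero]
    exact mul_nonneg hε.le (mul_nonneg (hw0 n) (hY0 s n))

end Pool.Agent.R528.RM
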