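import Mathlib
import Pool.Agent.R528.RM.Azuma

set_option autoImplicit false
set_option linter.unusedSectionVars false

/-! # Sums of two chosen integers -/

open MeasureTheory Filter Set
open scoped ENNReal Topology

namespace Pool.Agent.R528.RM

variable {Ω : Type} {m0 : MeasurableSpace Ω} {μ : Measure Ω} [IsProbabilityMeasure μ]
  {ℱ : Filtration ℕ m0} {A : ℕ → Set Ω}

lemma bc_real {s : ℕ → Set Ω} {c : ℕ → ℝ} (hc : Summable c) (h : ∀ᶠ n in atTop, μ.real (s n) ≤ c n) :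
    ∀ᵐ ω ∂μ, ∀ᶠ n in atTop, ω ∉ s n := by
  obtain ⟨N, hN⟩ := eventually_atTop.1 h
  have h1 : ∑' n, μ (s (n + N)) ≠ ∞ := by
    have h2 : ∀ n, μ (s (n + N)) ≤ ENNReal.ofReal (c (n + N)) := by
      intro n
      rw [← ofReal_measureReal (measure_ne_top μ (s (n + N)))]
      exact ENNReal.ofReal_le_ofReal (hN _ (by omega))
    have h3 : Summable (fun n => c (n + N)) := (summable_nat_add_iff N).2 hc
    have h4 : ∀ n, 0 ≤ c (n + N) := fun n => measureReal_nonneg.trans (hN _ (by omega))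
    refine ne_top_of_le_ne_top ?_ (ENNReal.tsum_le_tsum h2)
    rw [← ENNReal.ofReal_tsum_of_nonneg h4 h3]
    exact ENNReal.ofReal_ne_top
  filter_upwards [ae_eventually_notMem h1] with ω hω
  obtain ⟨M, hM⟩ := eventually_atTop.1 hω
  filter_upwards [eventually_ge_atTop (M + N)] with n hn
  have := hM (n - N) (by omega)
  rwa [show n - N + N = n by omega] at this

/-- the indicator of `n` being chosen -/
noncomputable def In (A : ℕ → Set Ω) (n : ℕ) (ω : Ω) : ℝ := (A n).indicator (fun _ => (1 : ℝ)) ω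

lemma In_nonneg (n : ℕ) (ω : Ω) : 0 ≤ In A n ω := indicator_nonneg (fun _ _ => zero_le_one) _

lemma In_le (n : ℕ) (ω : Ω) : In A n ω ≤ 1 := indicator_le_self' (fun _ _ => zero_le_one) ω

lemma In_meas (hA : ∀ n, MeasurableSet[ℱ n] (A n)) {n k : ℕ} (h : n ≤ k) : StronglyMeasurable[ℱ k] (In A n) :=
  (@stronglyMeasurable_const _ _ (ℱ k) _ _).indicator (ℱ.mono h _ (hA n))

lemma sym_sum (n : ℕ) (f : ℕ → ℝ) (hf : ∀ j, j ≤ n → f (n - j) = f j) (h0 : ∀ j, 0 ≤ f j) (h1 : ∀ j, f j ≤ 1) :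
    |∑ j ∈ Finset.range (n + 1), f j - 2 * ∑ j ∈ Finset.range ((n + 1) / 2), f j| ≤ 1 := by
  set h := (n + 1) / 2 with hh
  have e1 : ∑ j ∈ Finset.range (n + 1), f j = ∑ j ∈ Finset.range h, f j + ∑ j ∈ Finset.Ico h (n + 1), f j :=
    (Finset.sum_range_add_sum_Ico _ (by omega)).symm
  have e2 : ∑ j ∈ Finset.Ico h (n + 1), f j = ∑ j ∈ Finset.range (n + 1 - h), f j := by
    rw [Finset.sum_Ico_eq_sum_range, ← Finset.sum_range_reflect]
    refine Finset.sum_congr rfl fun j hj => ?_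
    have hj' := Finset.mem_range.1 hj
    rw [show h + (n + 1 - h - 1 - j) = n - j by omega]
    exact hf j (by omega)
  rw [e1, e2]
  rcases Nat.even_or_odd' n with ⟨q, hq | hq⟩
  · rw [show n + 1 - h = h + 1 by omega, Finset.sum_range_succ]
    rw [show ∑ j ∈ Finset.range h, f j + (∑ j ∈ Finset.range h, f j + f h) - 2 * ∑ j ∈ Finset.range h, f j = f h by ring,
      abs_of_nonneg (h0 h)]
    exact h1 h
  · rw [show n + 1 - h = h by omega]
    rw [show ∑ j ∈ Finset.range h, f j + ∑ j ∈ Finset.range h, f j - 2 * ∑ j ∈ Finset.range h, f j = 0 by ring]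
    simp

/-- number of ordered representations of `n` as a sum of two chosen integers -/
noncomputable def gold (A : ℕ → Set Ω) (n : ℕ) (ω : Ω) : ℝ := ∑ j ∈ Finset.range (n + 1), In A j ω * In A (n - j) ω

/-- the expected size -/
noncomputable def goldE (ρ : ℕ → ℝ) (n : ℕ) : ℝ := ∑ j ∈ Finset.range (n + 1), ρ j * ρ (n - j)

/-- the error terms are small almost surely -/
lemma gold_errors (hA : ∀ n, MeasurableSet[ℱ n] (A n)) (ρ : ℕ → ℝ) (hρ : ∀ n, 0 ≤ ρ n ∧ ρ n ≤ 1) :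
    ∀ᵐ ω ∂μ, ∀ᶠ n : ℕ in atTop,
      |Sw μ ℱ A (n - (n + 1) / 2) (fun k => In A ((n + 1) / 2 - 1 - k)) ((n + 1) / 2) ω| < 2 * √(n * Real.log n) ∧
      |Sw μ ℱ A 0 (fun k _ => ρ (n - (k + 1))) ((n + 1) / 2 - 1) ω| < 2 * √(n * Real.log n) := by
  have hsum : Summable (fun n : ℕ => 2 * ((n : ℝ) ^ 2)⁻¹) :=
    (Real.summable_nat_pow_inv.2 (by norm_num)).mul_left 2
  have key : ∀ (n : ℕ) (a M : ℕ) (w : ℕ → Ω → ℝ), 4 ≤ n → (∀ k, StronglyMeasurable[ℱ (a + k)] (w k)) →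
      (∀ k ω, |w k ω| ≤ 1) → 0 < M → 2 * M ≤ n + 1 →
      μ.real {ω | 2 * √(n * Real.log n) ≤ |Sw μ ℱ A a w M ω|} ≤ 2 * ((n : ℝ) ^ 2)⁻¹ := by
    intro n a M w hn hw hw1 hM hMn
    have hn' : (4 : ℝ) ≤ n := by exact_mod_cast hn
    have hlog : 0 ≤ Real.log (n : ℝ) := Real.log_natCast_nonneg n
    have h1 := Sw_tail (μ := μ) hA a w hw hw1 M hM (lam := 2 * √(n * Real.log n)) (by positivity)
    refine h1.trans (mul_le_mul_of_nonneg_left ?_ (by norm_num))
    have e1 : ((n : ℝ) ^ 2)⁻¹ = Real.exp (-(2 * Real.log n)) := by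
      rw [Real.exp_neg, mul_comm, Real.exp_mul, Real.exp_log (by linarith)]
      norm_num
    rw [e1]
    apply Real.exp_le_exp.2
    apply neg_le_neg
    rw [mul_pow, Real.sq_sqrt (by positivity)]
    have hM' : (0 : ℝ) < 2 * M := by
      have : (0 : ℝ) < M := by exact_mod_cast hM
      linarith
    rw [le_div_iff₀ hM']
    have h2 : (2 * M : ℝ) ≤ n + 1 := by exact_mod_cast hMn
    nlinarith [mul_nonneg hlog (show (0 : ℝ) ≤ n + 1 - 2 * M by linarith), mul_nonneg hlog (show (0 : ℝ) ≤ n - 1 by linarith)]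
  have h1 := bc_real (μ := μ) hsum (s := fun n => {ω | 2 * √(n * Real.log n) ≤ |Sw μ ℱ A (n - (n + 1) / 2) (fun k => In A ((n + 1) / 2 - 1 - k)) ((n + 1) / 2) ω|}) (by
    filter_upwards [eventually_ge_atTop 4] with n hn
    exact key n _ _ _ hn (fun k => In_meas hA (by omega)) (fun k ω => by
      rw [abs_of_nonneg (In_nonneg _ _)]; exact In_le _ _) (by omega) (by omega))
  have h2 := bc_real (μ := μ) hsum (s := fun n => {ω | 2 * √(n * Real.log n) ≤ |Sw μ ℱ A 0 (fun k _ => ρ (n - (k + 1))) ((n + 1) / 2 - 1) ω|}) (by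
    filter_upwards [eventually_ge_atTop 4] with n hn
    exact key n _ _ _ hn (fun k => stronglyMeasurable_const) (fun k ω => by
      rw [abs_of_nonneg (hρ _).1]; exact (hρ _).2) (by omega) (by omega))
  filter_upwards [h1, h2] with ω hω1 hω2
  filter_upwards [hω1, hω2] with n hn1 hn2
  exact ⟨not_le.1 hn1, not_le.1 hn2⟩

/-- sums of two chosen integers: the general law -/
theorem gold_law (hA : ∀ n, MeasurableSet[ℱ n] (A n)) (ρ : ℕ → ℝ) (hρ : ∀ n, 0 ≤ ρ n ∧ ρ n ≤ 1)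
    (hd : ∀ᵐ ω ∂μ, ∀ ε : ℝ, 0 < ε → ∀ᶠ n : ℕ in atTop, |dens μ ℱ A n ω - ρ (n + 1)| ≤ ε * ρ (n + 1)) :
    ∀ᵐ ω ∂μ, ∀ ε : ℝ, 0 < ε → ∀ᶠ n : ℕ in atTop,
      |gold A n ω - goldE ρ n| ≤ 14 * √(n * Real.log n) + ε * goldE ρ n := by
  have h01 : ∀ᵐ ω ∂μ, ∀ n, 0 ≤ dens μ ℱ A n ω ∧ dens μ ℱ A n ω ≤ 1 := ae_all_iff.2 fun n => dens01 hA n
  filter_upwards [gold_errors (μ := μ) hA ρ hρ, hd, h01] with ω hω1 hω2 hω3 ε₀ hε₀
  set ε := min 1 (ε₀ / 3) with hε
  have hεpos : 0 < ε := lt_min one_pos (by positivity)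
  have hε1 : ε ≤ 1 := min_le_left _ _
  have hε3 : 3 * ε ≤ ε₀ := by
    have := min_le_right 1 (ε₀ / 3)
    linarith
  obtain ⟨N, hN⟩ := eventually_atTop.1 (hω2 ε hεpos)
  have hlarge : ∀ᶠ n : ℕ in atTop, (13 + 4 * (N : ℝ)) ≤ 2 * √(n * Real.log n) := by
    have h1 : Tendsto (fun n : ℕ => 2 * √(n * Real.log n)) atTop atTop := by
      refine Tendsto.const_mul_atTop (by norm_num) ?_
      exact (Real.tendsto_sqrt_atTop.comp (tendsto_natCast_atTop_atTop.atTop_mul_atTop₀ tendsto_log))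
    exact h1.eventually_ge_atTop _
  filter_upwards [hω1, hlarge, eventually_ge_atTop (2 * N + 4)] with n hn1 hn2 hn3
  obtain ⟨hT1, hT2⟩ := hn1
  set lam := 2 * √(n * Real.log n) with hlam
  set h := (n + 1) / 2 with hh
  set I : ℕ → ℝ := fun j => In A j ω with hI
  have hI0 : ∀ j, 0 ≤ I j := fun j => In_nonneg j ω
  have hI1 : ∀ j, I j ≤ 1 := fun j => In_le j ω
  set D : ℕ → ℝ := fun j => dens μ ℱ A j ω with hD
  have hgold := sym_sum n (fun j => I j * I (n - j)) (fun j hj => by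
    rw [show n - (n - j) = j by omega]
    ring) (fun j => mul_nonneg (hI0 _) (hI0 _)) (fun j => mul_le_one₀ (hI1 _) (hI0 _) (hI1 _))
  have hgoldE := sym_sum n (fun j => ρ j * ρ (n - j)) (fun j hj => by
    rw [show n - (n - j) = j by omega]
    ring) (fun j => mul_nonneg (hρ _).1 (hρ _).1) (fun j => mul_le_one₀ (hρ _).2 (hρ _).1 (hρ _).2)
  rw [← hh] at hgold hgoldE
  set R := ∑ j ∈ Finset.range h, I j * I (n - j) with hR
  set Eh := ∑ j ∈ Finset.range h, ρ j * ρ (n - j) with hEh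
  set S1 := ∑ j ∈ Finset.range h, I j * ρ (n - j) with hS1
  -- first error term
  have a1 : Sw μ ℱ A (n - h) (fun k => In A (h - 1 - k)) h ω = R - ∑ j ∈ Finset.range h, I j * D (n - 1 - j) := by
    unfold Sw
    rw [← Finset.sum_range_reflect, hR, ← Finset.sum_sub_distrib]
    refine Finset.sum_congr rfl fun j hj => ?_
    have hj' := Finset.mem_range.1 hj
    show In A (h - 1 - (h - 1 - j)) ω * ((A (n - h + (h - 1 - j) + 1)).indicator (fun _ => (1 : ℝ)) ω -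
      dens μ ℱ A (n - h + (h - 1 - j)) ω) = I j * I (n - j) - I j * D (n - 1 - j)
    rw [show h - 1 - (h - 1 - j) = j by omega, show n - h + (h - 1 - j) + 1 = n - j by omega,
      show n - h + (h - 1 - j) = n - 1 - j by omega]
    simp only [hI, hD, In]
    ring
  have a2 : |∑ j ∈ Finset.range h, I j * D (n - 1 - j) - S1| ≤ ε * S1 := by
    rw [hS1, ← Finset.sum_sub_distrib, Finset.mul_sum]
    refine (Finset.abs_sum_le_sum_abs _ _).trans (Finset.sum_le_sum fun j hj => ?_)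
    have hj' := Finset.mem_range.1 hj
    rw [← mul_sub, abs_mul, abs_of_nonneg (hI0 j)]
    have h4 := hN (n - 1 - j) (by omega)
    rw [show n - 1 - j + 1 = n - j by omega] at h4
    calc I j * |D (n - 1 - j) - ρ (n - j)| ≤ I j * (ε * ρ (n - j)) := mul_le_mul_of_nonneg_left h4 (hI0 j)
      _ = _ := by ring
  -- second error term
  have a3 : ∀ f g : ℕ → ℝ, ∑ j ∈ Finset.range h, f j * g (n - j) = f 0 * g n + ∑ k ∈ Finset.range (h - 1), f (k + 1) * g (n - (k + 1)) := by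
    intro f g
    conv_lhs => rw [show h = h - 1 + 1 by omega]
    rw [Finset.sum_range_succ']
    simp only [Nat.sub_zero]
    ring
  have a4 : Sw μ ℱ A 0 (fun k _ => ρ (n - (k + 1))) (h - 1) ω =
      ∑ k ∈ Finset.range (h - 1), I (k + 1) * ρ (n - (k + 1)) - ∑ k ∈ Finset.range (h - 1), D k * ρ (n - (k + 1)) := by
    unfold Sw
    rw [← Finset.sum_sub_distrib]
    refine Finset.sum_congr rfl fun k _ => ?_
    rw [Nat.zero_add]
    simp only [hI, hD, In]
    ring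
  have a5 : |∑ k ∈ Finset.range (h - 1), D k * ρ (n - (k + 1)) - ∑ k ∈ Finset.range (h - 1), ρ (k + 1) * ρ (n - (k + 1))| ≤
      N + ε * ∑ k ∈ Finset.range (h - 1), ρ (k + 1) * ρ (n - (k + 1)) := by
    rw [← Finset.sum_sub_distrib, Finset.mul_sum]
    have b1 : ∀ k ∈ Finset.range (h - 1), |D k * ρ (n - (k + 1)) - ρ (k + 1) * ρ (n - (k + 1))| ≤
        (if k < N then 1 else 0) + ε * (ρ (k + 1) * ρ (n - (k + 1))) := by
      intro k _
      rw [← sub_mul, abs_mul, abs_of_nonneg (hρ (n - (k + 1))).1]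
      split_ifs with hk
      · have c1 : |D k - ρ (k + 1)| ≤ 1 := by
          rw [abs_le]
          have := hω3 k
          have := hρ (k + 1)
          simp only [hD]
          constructor <;> linarith
        have c2 : |D k - ρ (k + 1)| * ρ (n - (k + 1)) ≤ 1 := mul_le_one₀ c1 (hρ _).1 (hρ _).2
        have c3 : 0 ≤ ε * (ρ (k + 1) * ρ (n - (k + 1))) := mul_nonneg hεpos.le (mul_nonneg (hρ _).1 (hρ _).1)
        linarith
      · have c1 := hN k (not_lt.1 hk)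
        rw [zero_add, ← mul_assoc]
        exact mul_le_mul_of_nonneg_right c1 (hρ _).1
    refine (Finset.abs_sum_le_sum_abs _ _).trans ((Finset.sum_le_sum b1).trans ?_)
    rw [Finset.sum_add_distrib]
    refine add_le_add ?_ le_rfl
    rw [Finset.sum_boole]
    have b2 : (Finset.filter (fun k => k < N) (Finset.range (h - 1))) ⊆ Finset.range N := by
      intro k hk
      exact Finset.mem_range.2 (Finset.mem_filter.1 hk).2
    have b3 := Finset.card_le_card b2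
    rw [Finset.card_range] at b3
    exact_mod_cast b3
  have a6 := a3 I ρ
  have a7 := a3 ρ ρ
  rw [← hS1] at a6
  rw [← hEh] at a7
  rw [a1] at hT1
  rw [a4] at hT2
  set P1 := ∑ k ∈ Finset.range (h - 1), I (k + 1) * ρ (n - (k + 1))
  set P2 := ∑ k ∈ Finset.range (h - 1), D k * ρ (n - (k + 1))
  set P3 := ∑ k ∈ Finset.range (h - 1), ρ (k + 1) * ρ (n - (k + 1))
  set P4 := ∑ j ∈ Finset.range h, I j * D (n - 1 - j)
  have hE0 : 0 ≤ Eh := Finset.sum_nonneg fun j _ => mul_nonneg (hρ _).1 (hρ _).1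
  have q1 : 0 ≤ I 0 * ρ n ∧ I 0 * ρ n ≤ 1 := ⟨mul_nonneg (hI0 _) (hρ _).1, mul_le_one₀ (hI1 _) (hρ _).1 (hρ _).2⟩
  have q2 : 0 ≤ ρ 0 * ρ n ∧ ρ 0 * ρ n ≤ 1 := ⟨mul_nonneg (hρ _).1 (hρ _).1, mul_le_one₀ (hρ _).2 (hρ _).1 (hρ _).2⟩
  have q3 : ε * P3 ≤ ε * Eh := mul_le_mul_of_nonneg_left (by linarith) hεpos.le
  have hlam0 : 0 ≤ lam := by positivity
  -- S1 against Eh
  have r1 : |S1 - Eh| ≤ 1 + lam + N + ε * Eh := by
    rw [abs_le]
    have b1 := abs_le.1 a5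
    have b2 := abs_lt.1 hT2
    constructor <;> linarith [b1.1, b1.2, b2.1, b2.2]
  have r2 : ε * S1 ≤ ε * Eh + (1 + lam + N + ε * Eh) := by
    have b1 := (abs_le.1 r1).2
    have b2 : ε * S1 ≤ ε * (Eh + (1 + lam + N + ε * Eh)) := mul_le_mul_of_nonneg_left (by linarith) hεpos.le
    have b3 : 0 ≤ 1 + lam + N + ε * Eh := by positivity
    have b4 : ε * (1 + lam + N + ε * Eh) ≤ 1 * (1 + lam + N + ε * Eh) := mul_le_mul_of_nonneg_right hε1 b3
    linarith
  have r3 : |R - Eh| ≤ 3 * lam + 2 + 2 * N + 3 * (ε * Eh) := by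
    rw [abs_le]
    have b1 := abs_le.1 a2
    have b2 := abs_lt.1 hT1
    have b3 := abs_le.1 r1
    constructor <;> linarith [b1.1, b1.2, b2.1, b2.2, b3.1, b3.2]
  have r4 : |gold A n ω - goldE ρ n| ≤ 2 + 2 * |R - Eh| := by
    have b1 := abs_le.1 hgold
    have b2 := abs_le.1 hgoldE
    have e1 : gold A n ω = ∑ j ∈ Finset.range (n + 1), I j * I (n - j) := rfl
    have e2 : goldE ρ n = ∑ j ∈ Finset.range (n + 1), ρ j * ρ (n - j) := rfl
    rw [e1, e2, abs_le]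
    have b3 := neg_abs_le (R - Eh)
    have b4 := le_abs_self (R - Eh)
    constructor <;> linarith [b1.1, b1.2, b2.1, b2.2]
  have r5 : 2 * Eh ≤ goldE ρ n + 1 := by
    have b2 := abs_le.1 hgoldE
    have e2 : goldE ρ n = ∑ j ∈ Finset.range (n + 1), ρ j * ρ (n - j) := rfl
    rw [e2]
    linarith [b2.1]
  have r6 : 6 * (ε * Eh) ≤ ε₀ * goldE ρ n + 3 := by
    have g0 : 0 ≤ goldE ρ n := Finset.sum_nonneg fun j _ => mul_nonneg (hρ _).1 (hρ _).1
    have b1 : 3 * ε * (2 * Eh) ≤ 3 * ε * (goldE ρ n + 1) := mul_le_mul_of_nonneg_left r5 (by positivity)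
    have b2 : 3 * ε * goldE ρ n ≤ ε₀ * goldE ρ n := mul_le_mul_of_nonneg_right hε3 g0
    nlinarith
  have r7 : 14 * √(n * Real.log n) = 7 * lam := by rw [hlam]; ring
  rw [r7]
  linarith

end Pool.Agent.R528.RM
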