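import Mathlib
import Pool.Agent.R528.RM.Cher
import Pool.Agent.R528.RM.BHFinal
import Pool.Agent.R528.RM.Gold

set_option autoImplicit false
set_option linter.unusedSectionVars false

/-! # Absent sets; integers of a progression coprime to `W` -/

open MeasureTheory Filter Set
open scoped ENNReal Topology

namespace Pool.Agent.R528.RM

variable {Ω : Type} {m0 : MeasurableSpace Ω} {μ : Measure Ω} [IsProbabilityMeasure μ]
  {ℱ : Filtration ℕ m0} {A : ℕ → Set Ω}

/-- the densities are at least `l` between `N` and `m` -/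
def LBs (μ : Measure Ω) (ℱ : Filtration ℕ m0) (A : ℕ → Set Ω) (l : ℕ → ℝ) (N m : ℕ) : Set Ω :=
  {ω | ∀ n, N ≤ n → n < m → l (n + 1) ≤ dens μ ℱ A n ω}

/-- the probability that no element of `T` is chosen -/
theorem absent_le (hA : ∀ n, MeasurableSet[ℱ n] (A n)) (l : ℕ → ℝ) (hl1 : ∀ n, l n ≤ 1) (N : ℕ) (T : Finset ℕ) :
    (∀ t ∈ T, N < t) → ∀ m, (∀ t ∈ T, t ≤ m) →
      μ.real ({ω | ∀ t ∈ T, ω ∉ A t} ∩ LBs μ ℱ A l N m) ≤ ∏ t ∈ T, (1 - l t) := by
  classical
  induction T using Finset.induction_on_max with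
  | empty =>
    intro _ m _
    rw [Finset.prod_empty]
    exact measureReal_le_one
  | insert g T hg ih =>
    intro hN m hm
    have hgT : g ∉ T := fun h => lt_irrefl _ (hg g h)
    have hNg : N < g := hN g (Finset.mem_insert_self _ _)
    have hgm : g ≤ m := hm g (Finset.mem_insert_self _ _)
    have hg1 : g - 1 + 1 = g := by omega
    set B : Set Ω := {ω | ∀ t ∈ T, ω ∉ A t} ∩ {ω | ∀ n, N ≤ n → n < g → l (n + 1) ≤ dens μ ℱ A n ω} with hB
    have hBm : MeasurableSet[ℱ (g - 1)] B := by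
      have h1 : B = (⋂ t ∈ T, (A t)ᶜ) ∩ ⋂ n ∈ Finset.Ico N g, {ω | l (n + 1) ≤ dens μ ℱ A n ω} := by
        ext ω
        simp only [hB, mem_inter_iff, mem_ofPred_eq, mem_iInter, Finset.mem_Ico, and_imp, mem_compl_iff]
      rw [h1]
      refine @MeasurableSet.inter _ (ℱ (g - 1)) _ _ ?_ ?_
      · refine Finset.measurableSet_biInter _ fun t ht => ?_
        exact (ℱ.mono (by have := hg t ht; omega) _ (hA t)).compl
      · refine Finset.measurableSet_biInter _ fun n hn => ?_
        have h2 := (Finset.mem_Ico.1 hn).2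
        have h3 : StronglyMeasurable[ℱ n] (dens μ ℱ A n) := dens_meas n
        exact ℱ.mono (by omega) _ (h3.measurable measurableSet_Ici)
    have h1 : l g * μ.real B ≤ μ.real (B ∩ A (g - 1 + 1)) := by
      refine lower_meas (μ := μ) hA (g - 1) hBm fun ω hω => ?_
      have := hω.2 (g - 1) (by omega) (by omega)
      rwa [hg1] at this
    rw [hg1] at h1
    have hA0 : MeasurableSet (A g) := ℱ.le _ _ (hA g)
    have hsplit := measureReal_inter_add_sdiff (μ := μ) (s := B) hA0
    have h2 : μ.real B ≤ ∏ t ∈ T, (1 - l t) := by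
      refine (measureReal_mono ?_ (measure_ne_top _ _)).trans (ih (fun t ht => hN t (Finset.mem_insert_of_mem ht)) g (fun t ht => (hg t ht).le))
      exact subset_rfl
    have h3 : {ω | ∀ t ∈ insert g T, ω ∉ A t} ∩ LBs μ ℱ A l N m ⊆ B \ A g := by
      rintro ω ⟨h4, h5⟩
      have h4' : ∀ t ∈ insert g T, ω ∉ A t := h4
      have h5' : ∀ n, N ≤ n → n < m → l (n + 1) ≤ dens μ ℱ A n ω := h5
      exact ⟨⟨fun t ht => h4' t (Finset.mem_insert_of_mem ht), fun n h6 h7 => h5' n h6 (by omega)⟩,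
        h4' g (Finset.mem_insert_self _ _)⟩
    rw [Finset.prod_insert hgT]
    calc _ ≤ μ.real (B \ A g) := measureReal_mono h3 (measure_ne_top _ _)
      _ ≤ (1 - l g) * μ.real B := by linarith
      _ ≤ _ := mul_le_mul_of_nonneg_left h2 (by linarith [hl1 g])

/-- exponential form -/
theorem absent_exp (hA : ∀ n, MeasurableSet[ℱ n] (A n)) (l : ℕ → ℝ) (hl1 : ∀ n, l n ≤ 1) (N m : ℕ) (T : Finset ℕ)
    (hT : ∀ t ∈ T, N < t ∧ t ≤ m) {v : ℝ} (hv : v ≤ ∑ t ∈ T, l t) :
      μ.real ({ω | ∀ t ∈ T, ω ∉ A t} ∩ LBs μ ℱ A l N m) ≤ Real.exp (-v) := by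
  refine (absent_le hA l hl1 N T (fun t ht => (hT t ht).1) m (fun t ht => (hT t ht).2)).trans ?_
  calc ∏ t ∈ T, (1 - l t) ≤ ∏ t ∈ T, Real.exp (-l t) := by
        refine Finset.prod_le_prod (fun t _ => by linarith [hl1 t]) fun t _ => ?_
        have := Real.add_one_le_exp (-l t)
        linarith
    _ = Real.exp (-∑ t ∈ T, l t) := by rw [← Real.exp_sum, Finset.sum_neg_distrib]
    _ ≤ _ := Real.exp_le_exp.2 (by linarith)

/-- many members of a disjoint family without chosen elements -/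
theorem fam_le {ι : Type} [DecidableEq ι] (hA : ∀ n, MeasurableSet[ℱ n] (A n)) (l : ℕ → ℝ) (hl1 : ∀ n, l n ≤ 1)
    (N m : ℕ) (I : Finset ι) (R : ι → Finset ℕ) (hR : ∀ i ∈ I, ∀ t ∈ R i, N < t ∧ t ≤ m)
    (hdis : ∀ i ∈ I, ∀ j ∈ I, i ≠ j → Disjoint (R i) (R j)) {v : ℝ} (hv : ∀ i ∈ I, v ≤ ∑ t ∈ R i, l t) (k : ℕ) (hk : 1 ≤ k) :
    μ.real ({ω | ∃ T ⊆ I, T.card = k ∧ ∀ i ∈ T, ∀ t ∈ R i, ω ∉ A t} ∩ LBs μ ℱ A l N m) ≤
      (I.card * Real.exp (-v) * Real.exp 1 / k) ^ k := by
  classical
  have h1 : {ω | ∃ T ⊆ I, T.card = k ∧ ∀ i ∈ T, ∀ t ∈ R i, ω ∉ A t} ∩ LBs μ ℱ A l N m ⊆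
      ⋃ T ∈ I.powersetCard k, ({ω | ∀ t ∈ T.biUnion R, ω ∉ A t} ∩ LBs μ ℱ A l N m) := by
    rintro ω ⟨⟨T, hT1, hT2, hT3⟩, h2⟩
    rw [mem_iUnion₂]
    refine ⟨T, Finset.mem_powersetCard.2 ⟨hT1, hT2⟩, ?_, h2⟩
    intro t ht
    obtain ⟨i, hi, hti⟩ := Finset.mem_biUnion.1 ht
    exact hT3 i hi t hti
  have h2 : ∀ T ∈ I.powersetCard k, μ.real ({ω | ∀ t ∈ T.biUnion R, ω ∉ A t} ∩ LBs μ ℱ A l N m) ≤ Real.exp (-(k * v)) := by
    intro T hT
    obtain ⟨hT1, hT2⟩ := Finset.mem_powersetCard.1 hT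
    refine absent_exp hA l hl1 N m _ ?_ ?_
    · intro t ht
      obtain ⟨i, hi, hti⟩ := Finset.mem_biUnion.1 ht
      exact hR i (hT1 hi) t hti
    · rw [Finset.sum_biUnion (fun i hi j hj hij => hdis i (hT1 hi) j (hT1 hj) hij)]
      calc (k : ℝ) * v = ∑ i ∈ T, v := by rw [Finset.sum_const, hT2, nsmul_eq_mul]
        _ ≤ _ := Finset.sum_le_sum fun i hi => hv i (hT1 hi)
  have hk0 : (0 : ℝ) < k := by exact_mod_cast hk
  calc _ ≤ μ.real (⋃ T ∈ I.powersetCard k, ({ω | ∀ t ∈ T.biUnion R, ω ∉ A t} ∩ LBs μ ℱ A l N m)) :=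
        measureReal_mono h1 (measure_ne_top _ _)
    _ ≤ ∑ T ∈ I.powersetCard k, μ.real ({ω | ∀ t ∈ T.biUnion R, ω ∉ A t} ∩ LBs μ ℱ A l N m) :=
        measureReal_biUnion_finset_le _ _
    _ ≤ ∑ T ∈ I.powersetCard k, Real.exp (-(k * v)) := Finset.sum_le_sum h2
    _ = (I.card.choose k : ℝ) * Real.exp (-(k * v)) := by
        rw [Finset.sum_const, Finset.card_powersetCard, nsmul_eq_mul]
    _ ≤ ((I.card : ℝ) ^ k / k.factorial) * Real.exp (-(k * v)) := by
        apply mul_le_mul_of_nonneg_right _ (Real.exp_pos _).le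
        exact Nat.choose_le_pow_div k I.card
    _ ≤ ((I.card : ℝ) ^ k * (Real.exp 1 / k) ^ k) * Real.exp (-(k * v)) := by
        apply mul_le_mul_of_nonneg_right _ (Real.exp_pos _).le
        rw [div_eq_mul_inv]
        apply mul_le_mul_of_nonneg_left _ (by positivity)
        have h3 := Real.pow_div_factorial_le_exp (k : ℝ) hk0.le k
        have hf : (0 : ℝ) < k.factorial := by exact_mod_cast k.factorial_pos
        rw [div_le_iff₀ hf] at h3
        rw [div_pow, ← Real.exp_nat_mul, mul_one, le_div_iff₀ (by positivity), inv_mul_le_iff₀ hf]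
        linarith
    _ = _ := by
        rw [show -((k : ℝ) * v) = k * (-v) by ring, Real.exp_nat_mul]
        rw [← mul_pow, ← mul_pow]
        congr 1
        ring

/-! ### integers of a residue class coprime to `W` -/

/-- the admissible classes -/
def adm (W q : ℕ) : Finset ℕ := (Finset.range q).filter (fun a => Nat.Coprime a (Nat.gcd q W))

/-- the integers of the class which are coprime to `W` -/
def inC (W q a n : ℕ) : Prop := n % q = a ∧ Nat.Coprime n W

instance (W q a : ℕ) : DecidablePred (inC W q a) := fun n => by unfold inC; infer_instance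

lemma inC_periodic (W q a : ℕ) : Function.Periodic (inC W q a) (q * W) := by
  intro n
  unfold inC
  have h1 : (n + q * W) % q = n % q := by rw [Nat.add_mul_mod_self_left]
  have h2 : Nat.Coprime (n + q * W) W ↔ Nat.Coprime n W := by
    rw [Nat.coprime_add_mul_right_left]
  rw [h1, h2]

lemma count_mul_period {p : ℕ → Prop} [DecidablePred p] {P : ℕ} (hp : Function.Periodic p P) (k : ℕ) :
    Nat.count p (k * P) = k * Nat.count p P := by
  induction k with
  | zero => simp
  | succ k ih =>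
    rw [Nat.succ_mul, Nat.count_add, ih, Nat.succ_mul]
    congr 1
    have h1 : (fun i => p (k * P + i)) = p := by
      funext i
      rw [add_comm]
      have := hp.nat_mul k i
      simpa using this
    simp only [h1]

lemma count_bounds_period {p : ℕ → Prop} [DecidablePred p] {P : ℕ} (hP : 0 < P) (hp : Function.Periodic p P) (x : ℕ) :
    (x / P) * Nat.count p P ≤ Nat.count p x ∧ Nat.count p x ≤ (x / P + 1) * Nat.count p P := by
  constructor
  · rw [← count_mul_period hp]
    exact Nat.count_monotone p (Nat.div_mul_le_self x P)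
  · rw [← count_mul_period hp]
    apply Nat.count_monotone p
    have := Nat.lt_div_mul_add (a := x) hP
    nlinarith

/-- the number of such integers in a period -/
def KC (W q a : ℕ) : ℕ := Nat.count (inC W q a) (q * W)

lemma mem_adm {W q a : ℕ} : a ∈ adm W q ↔ a < q ∧ Nat.Coprime a (Nat.gcd q W) := by
  unfold adm
  rw [Finset.mem_filter, Finset.mem_range]

lemma KC_eq {W q a a' : ℕ} (hW : 0 < W) (ha : a ∈ adm W q) (ha' : a' ∈ adm W q) : KC W q a ≤ KC W q a' := by
  classical
  obtain ⟨ha1, ha2⟩ := mem_adm.1 ha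
  obtain ⟨ha1', ha2'⟩ := mem_adm.1 ha'
  have hq : 0 < q := by omega
  set W' := ∏ p ∈ W.primeFactors.filter (fun p => ¬ p ∣ q), p with hW'
  have hcop : Nat.Coprime q W' := by
    rw [hW']
    apply Nat.Coprime.prod_right
    intro p hp
    rw [Finset.mem_filter, Nat.mem_primeFactors] at hp
    exact ((Nat.Prime.coprime_iff_not_dvd hp.1.1).2 hp.2).symm
  obtain ⟨s, hs1, hs2⟩ := Nat.chineseRemainder hcop (a' + (q - a)) 0
  -- the translation by `s`
  have hmap : ∀ n, inC W q a n → inC W q a' (n + s) := by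
    rintro n ⟨h1, h2⟩
    have h3 : (n + s) % q = a' := by
      have h4 : n + s ≡ a + (a' + (q - a)) [MOD q] := by
        apply Nat.ModEq.add _ hs1
        rw [Nat.ModEq, h1, Nat.mod_eq_of_lt ha1]
      have h5 : a + (a' + (q - a)) = a' + q := by omega
      rw [h5] at h4
      rw [Nat.ModEq, Nat.add_mod_right, Nat.mod_eq_of_lt ha1'] at h4
      exact h4
    refine ⟨h3, ?_⟩
    rw [Nat.coprime_iff_gcd_eq_one] at *
    by_contra hne
    obtain ⟨p, hp, hpd⟩ := Nat.exists_prime_and_dvd hne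
    have hp1 : p ∣ n + s := hpd.trans (Nat.gcd_dvd_left _ _)
    have hp2 : p ∣ W := hpd.trans (Nat.gcd_dvd_right _ _)
    by_cases hpq : p ∣ q
    · have h6 : p ∣ a' := by
        rw [← h3]
        exact (Nat.dvd_mod_iff hpq).2 hp1
      have h7 : p ∣ Nat.gcd a' (Nat.gcd q W) := Nat.dvd_gcd h6 (Nat.dvd_gcd hpq hp2)
      rw [ha2'] at h7
      exact hp.one_lt.ne' (Nat.dvd_one.1 h7)
    · have h6 : p ∣ W' := Finset.dvd_prod_of_mem _ (Finset.mem_filter.2 ⟨Nat.mem_primeFactors.2 ⟨hp, hp2, hW.ne'⟩, hpq⟩)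
      have h7 : p ∣ s := h6.trans ((Nat.modEq_zero_iff_dvd).1 hs2)
      have h8 : p ∣ n := (Nat.dvd_add_left h7).1 hp1
      have h9 : p ∣ Nat.gcd n W := Nat.dvd_gcd h8 hp2
      rw [h2] at h9
      exact hp.one_lt.ne' (Nat.dvd_one.1 h9)
  unfold KC
  have e1 : Nat.count (inC W q a') (q * W) = ((Finset.Ico s (s + q * W)).filter (inC W q a')).card := by
    rw [Nat.filter_Ico_card_eq_of_periodic _ _ _ (inC_periodic W q a')]
  rw [e1, Nat.count_eq_card_filter_range]
  apply Finset.card_le_card_of_injOn (fun n => n + s)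
  · intro n hn
    rw [Finset.mem_coe, Finset.mem_filter, Finset.mem_range] at hn
    rw [Finset.mem_coe, Finset.mem_filter, Finset.mem_Ico]
    have hn1 := hn.1
    exact ⟨⟨Nat.le_add_left s n, by show n + s < s + q * W; omega⟩, hmap n hn.2⟩
  · intro n _ m _ h
    simpa using h

lemma KC_mul {W q a : ℕ} (hW : 0 < W) (ha : a ∈ adm W q) : KC W q a * (adm W q).card = q * Nat.totient W := by
  classical
  have hq : 0 < q := by have := (mem_adm.1 ha).1; omega
  have h1 : ∑ b ∈ adm W q, KC W q b = KC W q a * (adm W q).card := by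
    rw [Finset.sum_congr rfl (fun b hb => le_antisymm (KC_eq hW hb ha) (KC_eq hW ha hb)), Finset.sum_const, smul_eq_mul, mul_comm]
  rw [← h1]
  have hper : Function.Periodic (fun n => Nat.Coprime n W) W := by
    intro n
    show Nat.Coprime (n + W) W = Nat.Coprime n W
    rw [Nat.coprime_add_self_left]
  have h2 : Nat.count (fun n => Nat.Coprime n W) (q * W) = q * Nat.totient W := by
    rw [count_mul_period hper]
    congr 1
    rw [Nat.totient_eq_card_coprime, Nat.count_eq_card_filter_range]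
    congr 1
    refine Finset.filter_congr fun n _ => ?_
    exact Nat.coprime_comm
  rw [← h2, Nat.count_eq_card_filter_range]
  have h3 : (Finset.range (q * W)).filter (fun n => Nat.Coprime n W) =
      (adm W q).biUnion (fun b => (Finset.range (q * W)).filter (inC W q b)) := by
    ext n
    simp only [Finset.mem_filter, Finset.mem_biUnion, Finset.mem_range, mem_adm, inC]
    constructor
    · rintro ⟨h4, h5⟩
      refine ⟨n % q, ⟨Nat.mod_lt _ hq, ?_⟩, h4, rfl, h5⟩
      have h6 : Nat.Coprime n (Nat.gcd q W) := Nat.Coprime.coprime_dvd_right (Nat.gcd_dvd_right _ _) h5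
      rw [Nat.coprime_iff_gcd_eq_one] at *
      by_contra hne
      obtain ⟨p, hp, hpd⟩ := Nat.exists_prime_and_dvd hne
      have hp1 : p ∣ n % q := hpd.trans (Nat.gcd_dvd_left _ _)
      have hp2 : p ∣ Nat.gcd q W := hpd.trans (Nat.gcd_dvd_right _ _)
      have hp3 : p ∣ n := (Nat.dvd_mod_iff (hp2.trans (Nat.gcd_dvd_left _ _))).1 hp1
      have h9 : p ∣ Nat.gcd n (Nat.gcd q W) := Nat.dvd_gcd hp3 hp2
      rw [h6] at h9
      exact hp.one_lt.ne' (Nat.dvd_one.1 h9)
    · rintro ⟨b, _, h4, _, h5⟩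
      exact ⟨h4, h5⟩
  rw [h3, Finset.card_biUnion]
  · refine Finset.sum_congr rfl fun b _ => ?_
    unfold KC
    rw [Nat.count_eq_card_filter_range]
  · intro b _ c _ hbc
    rw [Function.onFun, Finset.disjoint_left]
    intro n hn hn'
    rw [Finset.mem_filter] at hn hn'
    exact hbc (hn.2.1.symm.trans hn'.2.1)

lemma KC_le {W q a : ℕ} : KC W q a ≤ W := by
  classical
  unfold KC
  rw [Nat.count_eq_card_filter_range]
  have h1 : ((Finset.range (q * W)).filter (inC W q a)) ⊆ (Finset.range W).image (fun k => a + q * k) := by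
    intro n hn
    rw [Finset.mem_filter, Finset.mem_range] at hn
    rw [Finset.mem_image]
    refine ⟨n / q, Finset.mem_range.2 (Nat.div_lt_of_lt_mul hn.1), ?_⟩
    rw [← hn.2.1]
    exact Nat.mod_add_div n q
  calc _ ≤ ((Finset.range W).image (fun k => a + q * k)).card := Finset.card_le_card h1
    _ ≤ (Finset.range W).card := Finset.card_image_le
    _ = W := Finset.card_range W

/-- the integers of the class `a` modulo `q`, coprime to `W`, in `(s, t]` -/
def cls (W q a s t : ℕ) : Finset ℕ := (Finset.Ioc s t).filter (inC W q a)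

lemma mem_cls {W q a s t n : ℕ} : n ∈ cls W q a s t ↔ (s < n ∧ n ≤ t) ∧ n % q = a ∧ Nat.Coprime n W := by
  unfold cls
  rw [Finset.mem_filter, Finset.mem_Ioc]
  rfl

lemma cls_card {W q a s t : ℕ} (hW : 0 < W) (hq : 0 < q) (hst : s ≤ t) :
    (((t : ℝ) - s) / (q * W) - 2) * KC W q a ≤ (cls W q a s t).card ∧
    ((cls W q a s t).card : ℝ) ≤ (((t : ℝ) - s) / (q * W) + 2) * KC W q a := by
  classical
  have hP : 0 < q * W := Nat.mul_pos hq hW
  have hP' : (0 : ℝ) < (q : ℝ) * W := by exact_mod_cast hP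
  have h0 : (cls W q a s t).card + Nat.count (inC W q a) (s + 1) = Nat.count (inC W q a) (t + 1) := by
    rw [Nat.count_eq_card_filter_range, Nat.count_eq_card_filter_range, cls, ← Finset.card_union_of_disjoint]
    · congr 1
      ext n
      simp only [Finset.mem_union, Finset.mem_filter, Finset.mem_Ioc, Finset.mem_range]
      constructor
      · rintro (⟨h1, h2⟩ | ⟨h1, h2⟩)
        · exact ⟨by omega, h2⟩
        · exact ⟨by omega, h2⟩
      · rintro ⟨h1, h2⟩
        by_cases h3 : s < n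
        · exact Or.inl ⟨⟨h3, by omega⟩, h2⟩
        · exact Or.inr ⟨by omega, h2⟩
    · rw [Finset.disjoint_left]
      intro n h1 h2
      rw [Finset.mem_filter, Finset.mem_Ioc] at h1
      rw [Finset.mem_filter, Finset.mem_range] at h2
      omega
  obtain ⟨h1, h2⟩ := count_bounds_period hP (inC_periodic W q a) (s + 1)
  obtain ⟨h3, h4⟩ := count_bounds_period hP (inC_periodic W q a) (t + 1)
  set C := Nat.count (inC W q a) (q * W) with hC
  have hKC : KC W q a = C := rfl
  rw [hKC]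
  have hC0 : (0 : ℝ) ≤ C := Nat.cast_nonneg _
  have h0' : ((cls W q a s t).card : ℝ) = (Nat.count (inC W q a) (t + 1) : ℝ) - Nat.count (inC W q a) (s + 1) := by
    have : ((cls W q a s t).card : ℝ) + Nat.count (inC W q a) (s + 1) = Nat.count (inC W q a) (t + 1) := by exact_mod_cast h0
    linarith
  have h1' : (((s + 1) / (q * W) : ℕ) : ℝ) * C ≤ Nat.count (inC W q a) (s + 1) := by exact_mod_cast h1
  have h2' : (Nat.count (inC W q a) (s + 1) : ℝ) ≤ ((((s + 1) / (q * W) : ℕ) : ℝ) + 1) * C := by exact_mod_cast h2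
  have h3' : (((t + 1) / (q * W) : ℕ) : ℝ) * C ≤ Nat.count (inC W q a) (t + 1) := by exact_mod_cast h3
  have h4' : (Nat.count (inC W q a) (t + 1) : ℝ) ≤ ((((t + 1) / (q * W) : ℕ) : ℝ) + 1) * C := by exact_mod_cast h4
  have f1 : (((s + 1) / (q * W) : ℕ) : ℝ) ≤ ((s : ℝ) + 1) / (q * W) := by
    have := @Nat.cast_div_le ℝ _ _ _ (s + 1) (q * W)
    push_cast at this
    exact this
  have f2 : ((s : ℝ) + 1) / (q * W) - 1 ≤ (((s + 1) / (q * W) : ℕ) : ℝ) := by
    have h5 := Nat.lt_div_mul_add (a := s + 1) hP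
    have h6 : (s : ℝ) + 1 < (((s + 1) / (q * W) : ℕ) : ℝ) * (q * W) + q * W := by exact_mod_cast h5
    rw [sub_le_iff_le_add, div_le_iff₀ hP']
    linarith
  have f3 : (((t + 1) / (q * W) : ℕ) : ℝ) ≤ ((t : ℝ) + 1) / (q * W) := by
    have := @Nat.cast_div_le ℝ _ _ _ (t + 1) (q * W)
    push_cast at this
    exact this
  have f4 : ((t : ℝ) + 1) / (q * W) - 1 ≤ (((t + 1) / (q * W) : ℕ) : ℝ) := by
    have h5 := Nat.lt_div_mul_add (a := t + 1) hP
    have h6 : (t : ℝ) + 1 < (((t + 1) / (q * W) : ℕ) : ℝ) * (q * W) + q * W := by exact_mod_cast h5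
    rw [sub_le_iff_le_add, div_le_iff₀ hP']
    linarith
  have e : ((t : ℝ) - s) / (q * W) = ((t : ℝ) + 1) / (q * W) - ((s : ℝ) + 1) / (q * W) := by ring
  rw [h0', e]
  constructor
  · nlinarith
  · nlinarith

lemma adm_card_le {W q : ℕ} : (adm W q).card ≤ q := by
  unfold adm
  exact (Finset.card_filter_le _ _).trans (Finset.card_range q).le

lemma adm_nonempty {W q : ℕ} (hq : 1 < q) : 1 ∈ adm W q := mem_adm.2 ⟨hq, Nat.coprime_one_left _⟩

lemma adm_card_ge {W q : ℕ} (hW : 0 < W) (hq : 1 < q) :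
    (q : ℝ) * (Nat.totient W / W) ≤ (adm W q).card := by
  have h1 := KC_mul hW (adm_nonempty (W := W) hq)
  have h2 : KC W q 1 ≤ W := KC_le
  have hW' : (0 : ℝ) < W := by exact_mod_cast hW
  rw [mul_div_assoc', div_le_iff₀ hW']
  have h3 : (KC W q 1 : ℝ) * (adm W q).card = q * Nat.totient W := by exact_mod_cast h1
  rw [← h3]
  have h4 : (KC W q 1 : ℝ) ≤ W := by exact_mod_cast h2
  nlinarith [Nat.cast_nonneg (α := ℝ) (adm W q).card]

/-- the sum of the profile over a class -/
lemma rho_cls {W q a s t : ℕ} (hW : 0 < W) (hq : 1 < q) (ha : a ∈ adm W q) (hst : s ≤ t)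
    (hs : (W : ℝ) / Nat.totient W ≤ Real.log s) (hs1 : 1 ≤ s) :
    (((t : ℝ) - s) - 2 * (q * W)) / ((adm W q).card * Real.log t) ≤ ∑ n ∈ cls W q a s t, rhoW W n ∧
    ∑ n ∈ cls W q a s t, rhoW W n ≤ (((t : ℝ) - s) + 2 * (q * W)) / ((adm W q).card * Real.log s) := by
  have hφ : (0 : ℝ) < Nat.totient W := by exact_mod_cast Nat.totient_pos.2 hW
  have hW' : (0 : ℝ) < W := by exact_mod_cast hW
  have hq' : (0 : ℝ) < q := by exact_mod_cast (by omega : 0 < q)
  have hc : 0 < (W : ℝ) / Nat.totient W := by positivity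
  have hls : 0 < Real.log s := lt_of_lt_of_le hc hs
  have hs1' : (1 : ℝ) ≤ s := by exact_mod_cast hs1
  have hst' : (s : ℝ) ≤ t := by exact_mod_cast hst
  have hlt : Real.log s ≤ Real.log t := Real.log_le_log (by linarith) hst'
  have hcard : (0 : ℝ) < (adm W q).card := by
    have : 0 < (adm W q).card := Finset.card_pos.2 ⟨1, adm_nonempty hq⟩
    exact_mod_cast this
  have hKC : (KC W q a : ℝ) * (adm W q).card = q * Nat.totient W := by exact_mod_cast KC_mul hW ha
  have hKC' : (KC W q a : ℝ) = q * Nat.totient W / (adm W q).card := by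
    field_simp
    linarith
  obtain ⟨h1, h2⟩ := cls_card (W := W) (q := q) (a := a) hW (by omega) hst
  have hval : ∀ n ∈ cls W q a s t, ((W : ℝ) / Nat.totient W) / Real.log t ≤ rhoW W n ∧
      rhoW W n ≤ ((W : ℝ) / Nat.totient W) / Real.log s := by
    intro n hn
    obtain ⟨⟨h3, h4⟩, _, h5⟩ := mem_cls.1 hn
    have h3' : (s : ℝ) ≤ n := by exact_mod_cast h3.le
    have h4' : (n : ℝ) ≤ t := by exact_mod_cast h4
    have g1 : Real.log s ≤ Real.log n := Real.log_le_log (by linarith) h3'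
    have g2 : Real.log n ≤ Real.log t := Real.log_le_log (by linarith) h4'
    have g3 : ((W : ℝ) / Nat.totient W) / Real.log n ≤ 1 := by
      rw [div_le_one (by linarith)]
      linarith
    unfold rhoW
    rw [if_pos h5, min_eq_right g3]
    constructor
    · exact div_le_div_of_nonneg_left hc.le (by linarith) g2
    · exact div_le_div_of_nonneg_left hc.le hls g1
  constructor
  · calc (((t : ℝ) - s) - 2 * (q * W)) / ((adm W q).card * Real.log t) =
          ((((t : ℝ) - s) / (q * W) - 2) * KC W q a) * (((W : ℝ) / Nat.totient W) / Real.log t) := by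
            rw [hKC']
            field_simp
      _ ≤ ((cls W q a s t).card : ℝ) * (((W : ℝ) / Nat.totient W) / Real.log t) := by
            apply mul_le_mul_of_nonneg_right h1
            have : 0 < Real.log t := by linarith
            positivity
      _ = ∑ n ∈ cls W q a s t, (((W : ℝ) / Nat.totient W) / Real.log t) := by
            rw [Finset.sum_const, nsmul_eq_mul]
      _ ≤ _ := Finset.sum_le_sum fun n hn => (hval n hn).1
  · calc ∑ n ∈ cls W q a s t, rhoW W n ≤ ∑ n ∈ cls W q a s t, (((W : ℝ) / Nat.totient W) / Real.log s) :=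
            Finset.sum_le_sum fun n hn => (hval n hn).2
      _ = ((cls W q a s t).card : ℝ) * (((W : ℝ) / Nat.totient W) / Real.log s) := by
            rw [Finset.sum_const, nsmul_eq_mul]
      _ ≤ ((((t : ℝ) - s) / (q * W) + 2) * KC W q a) * (((W : ℝ) / Nat.totient W) / Real.log s) := by
            apply mul_le_mul_of_nonneg_right h2
            positivity
      _ = _ := by
            rw [hKC']
            field_simp

end Pool.Agent.R528.RM
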