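import Mathlib
import Pool.Agent.R528.RM.Wag0

set_option autoImplicit false
set_option linter.unusedSectionVars false

/-! # Survival of residue classes -/

open MeasureTheory Filter Set
open scoped ENNReal Topology

namespace Pool.Agent.R528.RM

variable {Ω : Type} {m0 : MeasurableSpace Ω} {μ : Measure Ω} [IsProbabilityMeasure μ]
  {ℱ : Filtration ℕ m0} {A : ℕ → Set Ω}

/-- the class `a` modulo `q` has no member up to `t` -/
def Sset (A : ℕ → Set Ω) (q a t : ℕ) : Set Ω := {ω | ∀ n, n ≤ t → n % q = a → ω ∉ A n}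

/-- its indicator -/
noncomputable def sv (A : ℕ → Set Ω) (q a t : ℕ) (ω : Ω) : ℝ := (Sset A q a t).indicator (fun _ => (1 : ℝ)) ω

lemma Sset_meas (hA : ∀ n, MeasurableSet[ℱ n] (A n)) (q a t : ℕ) : MeasurableSet[ℱ t] (Sset A q a t) := by
  have h1 : Sset A q a t = ⋂ n ∈ (Finset.range (t + 1)).filter (fun n => n % q = a), (A n)ᶜ := by
    ext ω
    simp only [Sset, mem_ofPred_eq, mem_iInter, Finset.mem_filter, Finset.mem_range, mem_compl_iff, and_imp]
    exact ⟨fun h n h1 h2 => h n (by omega) h2, fun h n h1 h2 => h n (by omega) h2⟩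
  rw [h1]
  refine Finset.measurableSet_biInter _ fun n hn => ?_
  rw [Finset.mem_filter, Finset.mem_range] at hn
  exact (ℱ.mono (by omega) _ (hA n)).compl

lemma sv_meas (hA : ∀ n, MeasurableSet[ℱ n] (A n)) (q a t : ℕ) : StronglyMeasurable[ℱ t] (sv A q a t) :=
  (@stronglyMeasurable_const _ _ (ℱ t) _ _).indicator (Sset_meas hA q a t)

lemma sv_nonneg (q a t : ℕ) (ω : Ω) : 0 ≤ sv A q a t ω := indicator_nonneg (fun _ _ => zero_le_one) _

lemma sv_le (q a t : ℕ) (ω : Ω) : sv A q a t ω ≤ 1 := indicator_le_self' (fun _ _ => zero_le_one) ω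

lemma sv_anti (q a : ℕ) {t t' : ℕ} (h : t ≤ t') (ω : Ω) : sv A q a t' ω ≤ sv A q a t ω := by
  unfold sv
  refine indicator_le_indicator_of_subset ?_ (fun _ => zero_le_one) ω
  intro ω hω n hn
  exact hω n (hn.trans h)

/-- the number of surviving admissible classes -/
noncomputable def NS (A : ℕ → Set Ω) (W : ℕ) (Q : Finset ℕ) (t : ℕ) (ω : Ω) : ℝ :=
  ∑ q ∈ Q, ∑ a ∈ adm W q, sv A q a t ω

/-- the number of moduli for which the class of `n` survives -/
noncomputable def ww (A : ℕ → Set Ω) (Q : Finset ℕ) (n t : ℕ) (ω : Ω) : ℝ := ∑ q ∈ Q, sv A q (n % q) t ω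

lemma ww_meas (hA : ∀ n, MeasurableSet[ℱ n] (A n)) (Q : Finset ℕ) (n t : ℕ) : StronglyMeasurable[ℱ t] (ww A Q n t) := by
  have h1 : ww A Q n t = ∑ q ∈ Q, sv A q (n % q) t := by
    funext ω
    simp [ww]
  rw [h1]
  exact Finset.stronglyMeasurable_sum _ fun q _ => sv_meas hA _ _ _

lemma ww_nonneg (Q : Finset ℕ) (n t : ℕ) (ω : Ω) : 0 ≤ ww A Q n t ω := Finset.sum_nonneg fun _ _ => sv_nonneg _ _ _ _

lemma ww_anti (Q : Finset ℕ) (n : ℕ) {t t' : ℕ} (h : t ≤ t') (ω : Ω) : ww A Q n t' ω ≤ ww A Q n t ω :=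
  Finset.sum_le_sum fun _ _ => sv_anti _ _ h _

lemma ww_le (Q : Finset ℕ) (n t : ℕ) (ω : Ω) : ww A Q n t ω ≤ Q.card := by
  unfold ww
  refine (Finset.sum_le_sum fun q _ => sv_le q (n % q) t ω).trans ?_
  simp

lemma NS_nonneg (W : ℕ) (Q : Finset ℕ) (t : ℕ) (ω : Ω) : 0 ≤ NS A W Q t ω :=
  Finset.sum_nonneg fun _ _ => Finset.sum_nonneg fun _ _ => sv_nonneg _ _ _ _

lemma mod_adm {W q n : ℕ} (hq : 0 < q) (h : Nat.Coprime n W) : n % q ∈ adm W q := by
  refine mem_adm.2 ⟨Nat.mod_lt _ hq, ?_⟩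
  have h6 : Nat.Coprime n (Nat.gcd q W) := Nat.Coprime.coprime_dvd_right (Nat.gcd_dvd_right _ _) h
  rw [Nat.coprime_iff_gcd_eq_one] at *
  by_contra hne
  obtain ⟨p, hp, hpd⟩ := Nat.exists_prime_and_dvd hne
  have hp1 : p ∣ n % q := hpd.trans (Nat.gcd_dvd_left _ _)
  have hp2 : p ∣ Nat.gcd q W := hpd.trans (Nat.gcd_dvd_right _ _)
  have hp3 : p ∣ n := (Nat.dvd_mod_iff (hp2.trans (Nat.gcd_dvd_left _ _))).1 hp1
  have h9 : p ∣ Nat.gcd n (Nat.gcd q W) := Nat.dvd_gcd hp3 hp2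
  rw [h6] at h9
  exact hp.one_lt.ne' (Nat.dvd_one.1 h9)

/-- a sum over the classes -/
lemma sum_classes (S D : Finset ℕ) (q : ℕ) (f : ℕ → ℝ) (hf : ∀ n ∈ S, 0 ≤ f n) :
    ∑ a ∈ D, ∑ n ∈ S.filter (fun n => n % q = a), f n ≤ ∑ n ∈ S, f n := by
  classical
  simp_rw [Finset.sum_filter]
  rw [Finset.sum_comm]
  refine Finset.sum_le_sum fun n hn => ?_
  rw [Finset.sum_ite_eq]
  split_ifs
  · exact le_rfl
  · exact hf n hn

/-- the number of classes killed -/
lemma kill (W : ℕ) (Q : Finset ℕ) (t t' : ℕ) (ω : Ω) :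
    NS A W Q t ω - NS A W Q t' ω ≤ ∑ n ∈ Finset.Ioc t t', In A n ω * ww A Q n t ω := by
  classical
  have h1 : ∀ q ∈ Q, ∑ a ∈ adm W q, (sv A q a t ω - sv A q a t' ω) ≤ ∑ n ∈ Finset.Ioc t t', In A n ω * sv A q (n % q) t ω := by
    intro q _
    have h2 : ∀ a ∈ adm W q, sv A q a t ω - sv A q a t' ω ≤
        ∑ n ∈ (Finset.Ioc t t').filter (fun n => n % q = a), In A n ω * sv A q (n % q) t ω := by
      intro a _
      have hnn : ∀ n ∈ (Finset.Ioc t t').filter (fun n => n % q = a), 0 ≤ In A n ω * sv A q (n % q) t ω :=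
        fun n _ => mul_nonneg (In_nonneg _ _) (sv_nonneg _ _ _ _)
      by_cases h3 : ω ∈ Sset A q a t
      · by_cases h4 : ω ∈ Sset A q a t'
        · have e1 : sv A q a t ω = 1 := by unfold sv; rw [indicator_of_mem h3]
          have e2 : sv A q a t' ω = 1 := by unfold sv; rw [indicator_of_mem h4]
          rw [e1, e2, sub_self]
          exact Finset.sum_nonneg hnn
        · have h5 : ∃ n, n ≤ t' ∧ n % q = a ∧ ω ∈ A n := by
            by_contra hcon
            push Not at hcon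
            exact h4 fun n g1 g2 => hcon n g1 g2
          obtain ⟨n, g1, g2, g3⟩ := h5
          have g4 : t < n := by
            by_contra hcon
            exact h3 n (by omega) g2 g3
          have e1 : sv A q a t ω = 1 := by unfold sv; rw [indicator_of_mem h3]
          have hn : n ∈ (Finset.Ioc t t').filter (fun n => n % q = a) := Finset.mem_filter.2 ⟨Finset.mem_Ioc.2 ⟨g4, g1⟩, g2⟩
          have h6 := Finset.single_le_sum hnn hn
          have e3 : In A n ω = 1 := by unfold In; rw [indicator_of_mem g3]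
          rw [g2, e1, e3, one_mul] at h6
          have := sv_nonneg (A := A) q a t' ω
          linarith
      · have e1 : sv A q a t ω = 0 := by unfold sv; rw [indicator_of_notMem h3]
        have := sv_nonneg (A := A) q a t' ω
        rw [e1]
        have := Finset.sum_nonneg hnn
        linarith
    exact (Finset.sum_le_sum h2).trans (sum_classes _ _ q _ fun n _ => mul_nonneg (In_nonneg _ _) (sv_nonneg _ _ _ _))
  calc NS A W Q t ω - NS A W Q t' ω = ∑ q ∈ Q, ∑ a ∈ adm W q, (sv A q a t ω - sv A q a t' ω) := by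
        unfold NS
        rw [← Finset.sum_sub_distrib]
        refine Finset.sum_congr rfl fun q _ => ?_
        rw [Finset.sum_sub_distrib]
    _ ≤ ∑ q ∈ Q, ∑ n ∈ Finset.Ioc t t', In A n ω * sv A q (n % q) t ω := Finset.sum_le_sum h1
    _ = _ := by
        rw [Finset.sum_comm]
        refine Finset.sum_congr rfl fun n _ => ?_
        unfold ww
        rw [Finset.mul_sum]

/-- the total weight of a block -/
lemma block_weight (W : ℕ) (Q : Finset ℕ) (hQ : ∀ q ∈ Q, 1 < q) {t t' : ℕ} {U : ℝ}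
    (hU : ∀ q ∈ Q, ∀ a ∈ adm W q, ∑ n ∈ cls W q a t t', rhoW W n ≤ U) (ω : Ω) :
    ∑ n ∈ Finset.Ioc t t', rhoW W n * ww A Q n t ω ≤ NS A W Q t ω * U := by
  classical
  have h1 : ∀ q ∈ Q, ∑ n ∈ Finset.Ioc t t', rhoW W n * sv A q (n % q) t ω ≤ ∑ a ∈ adm W q, sv A q a t ω * U := by
    intro q hq
    have hq0 : 0 < q := by have := hQ q hq; omega
    have h2 : ∑ n ∈ Finset.Ioc t t', rhoW W n * sv A q (n % q) t ω =
        ∑ a ∈ adm W q, ∑ n ∈ cls W q a t t', rhoW W n * sv A q (n % q) t ω := by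
      have h3 : ∀ a ∈ adm W q, ∑ n ∈ cls W q a t t', rhoW W n * sv A q (n % q) t ω =
          ∑ n ∈ Finset.Ioc t t', if n % q = a then rhoW W n * sv A q (n % q) t ω else 0 := by
        intro a _
        unfold cls
        rw [Finset.sum_filter]
        refine Finset.sum_congr rfl fun n _ => ?_
        by_cases h4 : n % q = a
        · rw [if_pos h4]
          by_cases h5 : Nat.Coprime n W
          · rw [if_pos (show inC W q a n from ⟨h4, h5⟩)]
          · rw [if_neg (fun h => h5 h.2)]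
            unfold rhoW
            rw [if_neg h5, zero_mul]
        · rw [if_neg h4, if_neg (fun h => h4 h.1)]
      rw [Finset.sum_congr rfl h3, Finset.sum_comm]
      refine Finset.sum_congr rfl fun n _ => ?_
      rw [Finset.sum_ite_eq]
      by_cases h5 : Nat.Coprime n W
      · rw [if_pos (mod_adm hq0 h5)]
      · unfold rhoW
        rw [if_neg h5, zero_mul, ite_self]
    rw [h2]
    refine Finset.sum_le_sum fun a ha => ?_
    have h3 : ∑ n ∈ cls W q a t t', rhoW W n * sv A q (n % q) t ω = sv A q a t ω * ∑ n ∈ cls W q a t t', rhoW W n := by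
      rw [Finset.mul_sum]
      refine Finset.sum_congr rfl fun n hn => ?_
      rw [(mem_cls.1 hn).2.1, mul_comm]
    rw [h3]
    exact mul_le_mul_of_nonneg_left (hU q hq a ha) (sv_nonneg _ _ _ _)
  calc ∑ n ∈ Finset.Ioc t t', rhoW W n * ww A Q n t ω = ∑ q ∈ Q, ∑ n ∈ Finset.Ioc t t', rhoW W n * sv A q (n % q) t ω := by
        rw [Finset.sum_comm]
        refine Finset.sum_congr rfl fun n _ => ?_
        unfold ww
        rw [Finset.mul_sum]
    _ ≤ ∑ q ∈ Q, ∑ a ∈ adm W q, sv A q a t ω * U := Finset.sum_le_sum h1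
    _ = _ := by
        unfold NS
        rw [Finset.sum_mul]
        refine Finset.sum_congr rfl fun q _ => ?_
        rw [Finset.sum_mul]

/-- one block -/
theorem wag_step (hA : ∀ n, MeasurableSet[ℱ n] (A n)) (W : ℕ) (Q : Finset ℕ) (hQ : ∀ q ∈ Q, 1 < q)
    {t t' : ℕ} (htt : t ≤ t') {U B s δ lam : ℝ} (hδ : 0 ≤ δ)
    (hU : ∀ q ∈ Q, ∀ a ∈ adm W q, ∑ n ∈ cls W q a t t', rhoW W n ≤ U) (hB : 0 < B) (hs : 0 < s) (hs1 : s ≤ 1) :
    μ.real {ω | NS A W Q t' ω < NS A W Q t ω * (1 - (1 + s) * (1 + δ) * U) - B * (lam / s) ∧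
      (∀ n, t < n → n ≤ t' → ww A Q n t ω ≤ B) ∧ ∀ n, t ≤ n → n < t' → dens μ ℱ A n ω ≤ (1 + δ) * rhoW W (n + 1)} ≤
      2 * Real.exp (-lam) := by
  set w : ℕ → Ω → ℝ := fun k ω => min 1 (ww A Q (t + k + 1) t ω / B) with hw
  have hw01 : ∀ k ω, 0 ≤ w k ω ∧ w k ω ≤ 1 := fun k ω =>
    ⟨le_min zero_le_one (div_nonneg (ww_nonneg _ _ _ _) hB.le), min_le_left _ _⟩
  have hwm : ∀ k, StronglyMeasurable[ℱ (t + k)] (w k) := by
    intro k
    have h1 : StronglyMeasurable[ℱ (t + k)] (fun ω => ww A Q (t + k + 1) t ω / B) := by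
      have h2 : StronglyMeasurable[ℱ (t + k)] (ww A Q (t + k + 1) t) := (ww_meas hA Q (t + k + 1) t).mono (ℱ.mono (Nat.le_add_right _ _))
      simp_rw [div_eq_mul_inv]
      exact h2.mul_const _
    have h3 : Measurable[ℱ (t + k)] (fun _ : Ω => (1 : ℝ)) := measurable_const
    have h4 : Measurable[ℱ (t + k)] (w k) := Measurable.min h3 h1.measurable
    exact h4.stronglyMeasurable
  refine (measureReal_mono ?_ (measure_ne_top _ _)).trans (Cw_tail (μ := μ) hA t w hwm hw01 hs hs1 (t' - t) lam)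
  rintro ω ⟨h1, h2, h3⟩
  show s * Vw μ ℱ A t w (t' - t) ω + lam / s ≤ |Sw μ ℱ A t w (t' - t) ω|
  by_contra hcon
  push Not at hcon
  have hcon' := (le_abs_self _).trans_lt hcon
  have hwk : ∀ k, k < t' - t → B * w k ω = ww A Q (t + k + 1) t ω := by
    intro k hk
    have h4 := h2 (t + k + 1) (by omega) (by omega)
    simp only [hw]
    rw [min_eq_right ((div_le_one hB).2 h4)]
    field_simp
  have e1 : ∑ n ∈ Finset.Ioc t t', In A n ω * ww A Q n t ω = ∑ k ∈ Finset.range (t' - t), In A (t + k + 1) ω * ww A Q (t + k + 1) t ω := by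
    have : Finset.Ioc t t' = Finset.Ico (t + 1) (t' + 1) := by
      ext n
      simp only [Finset.mem_Ioc, Finset.mem_Ico]
      omega
    rw [this, Finset.sum_Ico_eq_sum_range, show t' + 1 - (t + 1) = t' - t by omega]
    refine Finset.sum_congr rfl fun k _ => ?_
    rw [show t + 1 + k = t + k + 1 by ring]
  have e2 : ∑ n ∈ Finset.Ioc t t', rhoW W n * ww A Q n t ω = ∑ k ∈ Finset.range (t' - t), rhoW W (t + k + 1) * ww A Q (t + k + 1) t ω := by
    have : Finset.Ioc t t' = Finset.Ico (t + 1) (t' + 1) := by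
      ext n
      simp only [Finset.mem_Ioc, Finset.mem_Ico]
      omega
    rw [this, Finset.sum_Ico_eq_sum_range, show t' + 1 - (t + 1) = t' - t by omega]
    refine Finset.sum_congr rfl fun k _ => ?_
    rw [show t + 1 + k = t + k + 1 by ring]
  have h4 : ∑ k ∈ Finset.range (t' - t), In A (t + k + 1) ω * ww A Q (t + k + 1) t ω =
      B * (Sw μ ℱ A t w (t' - t) ω + Vw μ ℱ A t w (t' - t) ω) := by
    unfold Sw Vw
    rw [← Finset.sum_add_distrib, Finset.mul_sum]
    refine Finset.sum_congr rfl fun k hk => ?_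
    rw [← hwk k (Finset.mem_range.1 hk)]
    unfold In
    ring
  have h5 : B * Vw μ ℱ A t w (t' - t) ω ≤ (1 + δ) * (NS A W Q t ω * U) := by
    have h6 : B * Vw μ ℱ A t w (t' - t) ω ≤ (1 + δ) * ∑ k ∈ Finset.range (t' - t), rhoW W (t + k + 1) * ww A Q (t + k + 1) t ω := by
      unfold Vw
      rw [Finset.mul_sum, Finset.mul_sum]
      refine Finset.sum_le_sum fun k hk => ?_
      have hk' := Finset.mem_range.1 hk
      have g1 := h3 (t + k) (by omega) (by omega)
      have g2 := ww_nonneg (A := A) Q (t + k + 1) t ω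
      calc B * (w k ω * dens μ ℱ A (t + k) ω) = ww A Q (t + k + 1) t ω * dens μ ℱ A (t + k) ω := by
            rw [← hwk k hk']; ring
        _ ≤ ww A Q (t + k + 1) t ω * ((1 + δ) * rhoW W (t + k + 1)) := mul_le_mul_of_nonneg_left g1 g2
        _ = _ := by ring
    refine h6.trans ?_
    rw [← e2]
    exact mul_le_mul_of_nonneg_left (block_weight W Q hQ hU ω) (by linarith)
  have h7 := kill (A := A) W Q t t' ω
  rw [e1, h4] at h7
  have h8 : B * Sw μ ℱ A t w (t' - t) ω < B * (s * Vw μ ℱ A t w (t' - t) ω + lam / s) := mul_lt_mul_of_pos_left hcon' hB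
  have h9 : B * (Sw μ ℱ A t w (t' - t) ω + Vw μ ℱ A t w (t' - t) ω) < (1 + s) * (B * Vw μ ℱ A t w (t' - t) ω) + B * (lam / s) := by
    nlinarith
  have h10 : (1 + s) * (B * Vw μ ℱ A t w (t' - t) ω) ≤ (1 + s) * ((1 + δ) * (NS A W Q t ω * U)) :=
    mul_le_mul_of_nonneg_left h5 (by linarith)
  nlinarith

/-- several blocks -/
theorem wag_iter (hA : ∀ n, MeasurableSet[ℱ n] (A n)) (W : ℕ) (Q : Finset ℕ) (hQ : ∀ q ∈ Q, 1 < q)
    {T : ℕ → ℕ} (hT : Monotone T) {U B s δ lam θ : ℝ} (hδ : 0 ≤ δ) (i : ℕ) (J : ℕ)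
    (hU : ∀ k, i ≤ k → k < i + J → ∀ q ∈ Q, ∀ a ∈ adm W q, ∑ n ∈ cls W q a (T k) (T (k + 1)), rhoW W n ≤ U) (hB : 0 < B)
    (hs : 0 < s) (hs1 : s ≤ 1) (hθ : θ = (1 + s) * (1 + δ) * U) (hθ0 : 0 < θ) (hθ1 : θ ≤ 1) (hlam : 0 ≤ lam) :
    ∀ j, j ≤ J → μ.real {ω | NS A W Q (T (i + j)) ω < (1 - θ) ^ j * NS A W Q (T i) ω - B * (lam / s) / θ ∧
      (∀ n, T i < n → n ≤ T (i + j) → ww A Q n (T i) ω ≤ B) ∧
      ∀ n, T i ≤ n → n < T (i + j) → dens μ ℱ A n ω ≤ (1 + δ) * rhoW W (n + 1)} ≤ j * (2 * Real.exp (-lam)) := by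
  intro j
  have hE : 0 ≤ B * (lam / s) := by positivity
  induction j with
  | zero =>
    intro _
    have h1 : {ω | NS A W Q (T (i + 0)) ω < (1 - θ) ^ 0 * NS A W Q (T i) ω - B * (lam / s) / θ ∧
      (∀ n, T i < n → n ≤ T (i + 0) → ww A Q n (T i) ω ≤ B) ∧
      ∀ n, T i ≤ n → n < T (i + 0) → dens μ ℱ A n ω ≤ (1 + δ) * rhoW W (n + 1)} = ∅ := by
      ext ω
      simp only [mem_ofPred_eq, mem_empty_iff_false, iff_false, add_zero, pow_zero, one_mul]
      rintro ⟨h, _⟩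
      have : 0 ≤ B * (lam / s) / θ := by positivity
      linarith
    rw [h1]
    simp
  | succ j ih =>
    intro hj
    have ih := ih (by omega)
    have hst := wag_step (μ := μ) (ℱ := ℱ) hA W Q hQ (t := T (i + j)) (t' := T (i + j + 1)) (hT (Nat.le_succ _))
      (lam := lam) hδ (hU (i + j) (by omega) (by omega)) hB hs hs1
    set E1 : Set Ω := {ω | NS A W Q (T (i + j)) ω < (1 - θ) ^ j * NS A W Q (T i) ω - B * (lam / s) / θ ∧
        (∀ n, T i < n → n ≤ T (i + j) → ww A Q n (T i) ω ≤ B) ∧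
        ∀ n, T i ≤ n → n < T (i + j) → dens μ ℱ A n ω ≤ (1 + δ) * rhoW W (n + 1)} with hE1
    set E2 : Set Ω := {ω | NS A W Q (T (i + j + 1)) ω < NS A W Q (T (i + j)) ω * (1 - (1 + s) * (1 + δ) * U) - B * (lam / s) ∧
        (∀ n, T (i + j) < n → n ≤ T (i + j + 1) → ww A Q n (T (i + j)) ω ≤ B) ∧
        ∀ n, T (i + j) ≤ n → n < T (i + j + 1) → dens μ ℱ A n ω ≤ (1 + δ) * rhoW W (n + 1)} with hE2
    refine (measureReal_mono (s₂ := E1 ∪ E2) ?_ (measure_ne_top _ _)).trans ((measureReal_union_le _ _).trans ?_)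
    · rintro ω ⟨h1, h2, h3⟩
      have hm1 : T i ≤ T (i + j) := hT (Nat.le_add_right _ _)
      have hm2 : T (i + j) ≤ T (i + (j + 1)) := hT (by omega)
      by_cases h4 : NS A W Q (T (i + j)) ω < (1 - θ) ^ j * NS A W Q (T i) ω - B * (lam / s) / θ
      · left
        exact ⟨h4, fun n g1 g2 => h2 n g1 (g2.trans hm2), fun n g1 g2 => h3 n g1 (g2.trans_le hm2)⟩
      · right
        push Not at h4
        refine ⟨?_, fun n g1 g2 => (ww_anti Q n hm1 ω).trans (h2 n (hm1.trans_lt g1) g2), fun n g1 g2 => h3 n (hm1.trans g1) g2⟩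
        have h5 : NS A W Q (T (i + (j + 1))) ω < (1 - θ) ^ (j + 1) * NS A W Q (T i) ω - B * (lam / s) / θ := h1
        show NS A W Q (T (i + (j + 1))) ω < _
        refine h5.trans_le ?_
        rw [← hθ, pow_succ]
        have h6 : (1 - θ) * ((1 - θ) ^ j * NS A W Q (T i) ω - B * (lam / s) / θ) ≤ (1 - θ) * NS A W Q (T (i + j)) ω :=
          mul_le_mul_of_nonneg_left h4 (by linarith)
        have h7 : θ * (B * (lam / s) / θ) = B * (lam / s) := by field_simp
        nlinarith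
    · push_cast
      linarith

end Pool.Agent.R528.RM
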