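import Mathlib
import Pool.Agent.R528.RM.Wag1

set_option autoImplicit false
set_option linter.unusedSectionVars false

/-! # Survival of residue classes: the block lengths -/

open MeasureTheory Filter Set
open scoped ENNReal Topology

namespace Pool.Agent.R528.RM

variable {Ω : Type} {m0 : MeasurableSpace Ω} {μ : Measure Ω} [IsProbabilityMeasure μ]
  {ℱ : Filtration ℕ m0} {A : ℕ → Set Ω}

lemma ev_pow {a b : ℝ} (hab : a < b) (C : ℝ) :
    ∀ᶠ X : ℕ in atTop, C * (Real.log X + 1) * (X : ℝ) ^ a ≤ (X : ℝ) ^ b := by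
  have hr : 0 < b - a := by linarith
  have hc : (0 : ℝ) < 1 / (2 * (|C| + 1)) := by positivity
  have h1 : ∀ᶠ x : ℝ in atTop, C * (Real.log x + 1) * x ^ a ≤ x ^ b := by
    filter_upwards [(isLittleO_log_rpow_atTop hr).def hc, (tendsto_rpow_atTop hr).eventually_ge_atTop (2 * (|C| + 1)),
      eventually_ge_atTop 1] with x h1 h2 h3
    have hx0 : 0 < x := by linarith
    have hl : 0 ≤ Real.log x := Real.log_nonneg h3
    have hp : 0 < x ^ (b - a) := Real.rpow_pos_of_pos hx0 _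
    rw [Real.norm_of_nonneg hl, Real.norm_of_nonneg hp.le, one_div, inv_mul_eq_div, le_div_iff₀ (by positivity)] at h1
    have h4 : C * (Real.log x + 1) ≤ x ^ (b - a) := by
      have h5 : C * (Real.log x + 1) ≤ (|C| + 1) * (Real.log x + 1) :=
        mul_le_mul_of_nonneg_right (by linarith [le_abs_self C]) (by linarith)
      nlinarith [abs_nonneg C]
    calc C * (Real.log x + 1) * x ^ a ≤ x ^ (b - a) * x ^ a :=
          mul_le_mul_of_nonneg_right h4 (Real.rpow_pos_of_pos hx0 _).le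
      _ = x ^ b := by rw [← Real.rpow_add hx0]; ring_nf
  exact tendsto_natCast_atTop_atTop.eventually h1

lemma ev_log (C : ℝ) : ∀ᶠ X : ℕ in atTop, C ≤ Real.log X := tendsto_log.eventually_ge_atTop C

lemma cls_mono {W q a s t t' : ℕ} (h : t ≤ t') : cls W q a s t ⊆ cls W q a s t' := by
  intro n hn
  rw [mem_cls] at *
  exact ⟨⟨hn.1.1, hn.1.2.trans h⟩, hn.2⟩

/-- lower bound for the mass of a class up to `c |adm| log²` -/
lemma v_lower {W : ℕ} (hW : 0 < W) {c δ : ℝ} (hc : 0 < c) (hδ : 0 < δ) (hδ1 : δ < 1) (N₁ : ℕ)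
    (hN : (W : ℝ) / Nat.totient W ≤ Real.log N₁) (hN1 : 1 ≤ N₁) :
    ∀ᶠ X : ℕ in atTop, ∀ q a T : ℕ, X ≤ 2 * q → q ≤ X → a ∈ adm W q → c * (adm W q).card * Real.log X ^ 2 ≤ T →
      c * (1 - δ) * Real.log X ≤ ∑ n ∈ cls W q a N₁ T, rhoW W n := by
  have hφ : (0 : ℝ) < Nat.totient W := by exact_mod_cast Nat.totient_pos.2 hW
  have hW' : (0 : ℝ) < W := by exact_mod_cast hW
  set c₀ : ℝ := Nat.totient W / W with hc₀
  have hc₀0 : 0 < c₀ := by positivity
  set K : ℝ := 2 * (N₁ + 2 * W) / c₀ with hK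
  have hK0 : 0 ≤ K := by positivity
  have e1 : ∀ᶠ X : ℕ in atTop, c * X * Real.log X ^ 2 + 1 ≤ (X : ℝ) ^ (1 + δ / 2) := by
    filter_upwards [ev_pow (a := 1 + δ / 8) (b := 1 + δ / 4) (by linarith) (c + 1), ev_pow (a := 1) (b := 1 + δ / 8) (by linarith) 1,
      ev_pow (a := 1 + δ / 4) (b := 1 + δ / 2) (by linarith) 1,
      ev_log 1, eventually_ge_atTop 1] with X h1 h2 h3 h4 h5
    have hX : (1 : ℝ) ≤ X := by exact_mod_cast h5
    have hXp : 0 < (X : ℝ) := by linarith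
    rw [Real.rpow_one] at h2
    have g1 : Real.log X * X ≤ (X : ℝ) ^ (1 + δ / 8) := by nlinarith
    have g2 : c * X * Real.log X ^ 2 + 1 ≤ (c + 1) * (Real.log X + 1) * (X : ℝ) ^ (1 + δ / 8) := by
      have g3 : 1 ≤ Real.log X * X := by nlinarith
      have g4 : 0 < (X : ℝ) ^ (1 + δ / 8) := Real.rpow_pos_of_pos hXp _
      have g5 : c * X * Real.log X ^ 2 = c * Real.log X * (Real.log X * X) := by ring
      rw [g5]
      have g6 : c * Real.log X * (Real.log X * X) ≤ c * Real.log X * (X : ℝ) ^ (1 + δ / 8) :=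
        mul_le_mul_of_nonneg_left g1 (by positivity)
      have g7 : 0 ≤ Real.log (X : ℝ) * (X : ℝ) ^ (1 + δ / 8) := by positivity
      nlinarith
    refine g2.trans (h1.trans ?_)
    exact Real.rpow_le_rpow_of_exponent_le hX (by linarith)
  have e2 : ∀ᶠ X : ℕ in atTop, K ≤ c * (δ / 2 + δ ^ 2 / 2) * Real.log X := by
    filter_upwards [ev_log (K / (c * (δ / 2 + δ ^ 2 / 2)))] with X hX
    rw [div_le_iff₀ (by positivity)] at hX
    linarith
  have e3 : ∀ᶠ X : ℕ in atTop, (N₁ : ℝ) ≤ c * (c₀ * X / 2) * Real.log X ^ 2 := by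
    have h1 : ∀ᶠ X : ℕ in atTop, (N₁ : ℝ) / (c * c₀ / 2) ≤ X := tendsto_natCast_atTop_atTop.eventually_ge_atTop _
    filter_upwards [h1, ev_log 1] with X h1 h2
    rw [div_le_iff₀ (by positivity)] at h1
    have h3 : 1 ≤ Real.log (X : ℝ) ^ 2 := by nlinarith
    have h4 : 0 ≤ c * (c₀ * X / 2) := by positivity
    nlinarith
  filter_upwards [e1, e2, e3, ev_log 1, eventually_ge_atTop 4] with X h1 h2 h3 h4 h5 q a T hq1 hq2 ha hT
  have hX : (4 : ℝ) ≤ X := by exact_mod_cast h5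
  have hq : 1 < q := by omega
  have hq1' : (X : ℝ) ≤ 2 * q := by exact_mod_cast hq1
  have hq2' : (q : ℝ) ≤ X := by exact_mod_cast hq2
  set D : ℝ := ((adm W q).card : ℝ) with hD
  have hD1 : c₀ * X / 2 ≤ D := by
    have := adm_card_ge (q := q) hW hq
    rw [← hc₀] at this
    nlinarith
  have hD2 : D ≤ X := by
    have : D ≤ q := by rw [hD]; exact_mod_cast adm_card_le (W := W) (q := q)
    linarith
  have hD0 : 0 < D := by have : 0 < c₀ * X / 2 := by positivity
                         linarith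
  set T' := ⌈c * D * Real.log X ^ 2⌉₊ with hT'
  have hT'T : T' ≤ T := Nat.ceil_le.2 hT
  have g1 : c * D * Real.log X ^ 2 ≤ T' := Nat.le_ceil _
  have g2 : (T' : ℝ) ≤ c * D * Real.log X ^ 2 + 1 := (Nat.ceil_lt_add_one (by positivity)).le
  have g3 : (N₁ : ℝ) ≤ T' := by
    refine h3.trans (le_trans ?_ g1)
    apply mul_le_mul_of_nonneg_right _ (sq_nonneg _)
    exact mul_le_mul_of_nonneg_left hD1 hc.le
  have g3' : N₁ ≤ T' := by exact_mod_cast g3
  have g4 : (T' : ℝ) ≤ (X : ℝ) ^ (1 + δ / 2) := by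
    refine (g2.trans ?_).trans h1
    have : c * D * Real.log X ^ 2 ≤ c * X * Real.log X ^ 2 := by
      apply mul_le_mul_of_nonneg_right _ (sq_nonneg _)
      exact mul_le_mul_of_nonneg_left hD2 hc.le
    linarith
  have hN1' : (1 : ℝ) ≤ N₁ := by exact_mod_cast hN1
  have g5 : Real.log T' ≤ (1 + δ / 2) * Real.log X := by
    have := Real.log_le_log (by linarith) g4
    rwa [Real.log_rpow (by linarith)] at this
  have hlc : 0 < Real.log (N₁ : ℝ) := lt_of_lt_of_le (by positivity) hN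
  have g6 : 0 < Real.log (T' : ℝ) := hlc.trans_le (Real.log_le_log (by linarith) g3)
  have g7 := (rho_cls hW hq ha g3' hN hN1).1
  have g8 : ∑ n ∈ cls W q a N₁ T', rhoW W n ≤ ∑ n ∈ cls W q a N₁ T, rhoW W n :=
    Finset.sum_le_sum_of_subset_of_nonneg (cls_mono hT'T) fun n _ _ => rhoW_nonneg W n
  refine le_trans ?_ (g7.trans g8)
  rw [← hD]
  have g9 : D * (c * Real.log X ^ 2 - K) ≤ (T' : ℝ) - N₁ - 2 * (q * W) := by
    have g10 : (N₁ : ℝ) + 2 * (q * W) ≤ D * K := by
      have g11 : c₀ * X / 2 * K ≤ D * K := mul_le_mul_of_nonneg_right hD1 hK0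
      have g12 : c₀ * X / 2 * K = X * (N₁ + 2 * W) := by
        rw [hK]
        field_simp
      rw [g12] at g11
      refine le_trans ?_ g11
      nlinarith
    nlinarith
  have g13 : 0 ≤ c * Real.log X ^ 2 - K := by
    have : c * (δ / 2 + δ ^ 2 / 2) * Real.log X ≤ c * Real.log X ^ 2 := by
      have h6 : δ / 2 + δ ^ 2 / 2 ≤ 1 := by nlinarith
      have h7 : c * (δ / 2 + δ ^ 2 / 2) * Real.log X ≤ c * 1 * Real.log X :=
        mul_le_mul_of_nonneg_right (mul_le_mul_of_nonneg_left h6 hc.le) (by linarith)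
      nlinarith
    linarith
  calc c * (1 - δ) * Real.log X ≤ (c * Real.log X ^ 2 - K) / ((1 + δ / 2) * Real.log X) := by
        rw [le_div_iff₀ (by positivity)]
        have h6 : K ≤ c * (δ / 2 + δ ^ 2 / 2) * Real.log X ^ 2 := by
          have h7 : 0 ≤ c * (δ / 2 + δ ^ 2 / 2) * Real.log X := by positivity
          nlinarith
        nlinarith
    _ ≤ (c * Real.log X ^ 2 - K) / Real.log T' := div_le_div_of_nonneg_left g13 g6 g5
    _ = (D * (c * Real.log X ^ 2 - K)) / (D * Real.log T') := by rw [mul_div_mul_left _ _ hD0.ne']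
    _ ≤ _ := div_le_div_of_nonneg_right g9 (by positivity)

/-! ### blocks -/

/-- the start -/
noncomputable def tW (W X : ℕ) : ℕ := ⌊(Nat.totient W / W : ℝ) * X / 8⌋₊

/-- the block length -/
noncomputable def hW (η : ℝ) (X : ℕ) (Y : ℝ) : ℕ := ⌊η * Y * Real.log X⌋₊

/-- the end points of the blocks -/
noncomputable def TW (W : ℕ) (η : ℝ) (X : ℕ) (Y : ℝ) (k : ℕ) : ℕ := tW W X + k * hW η X Y

/-- the number of blocks -/
noncomputable def JW (η c : ℝ) (X : ℕ) : ℕ := ⌊c * Real.log X / η⌋₊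

lemma TW_mono (W : ℕ) (η : ℝ) (X : ℕ) (Y : ℝ) : Monotone (TW W η X Y) := by
  intro a b h
  unfold TW
  have := Nat.mul_le_mul_right (hW η X Y) h
  omega

/-- conditions on the moduli -/
def Qok (W X : ℕ) (Y : ℝ) (Q : Finset ℕ) : Prop := ∀ q ∈ Q, X ≤ 2 * q ∧ q ≤ X ∧ Y ≤ (adm W q).card

lemma tW_ev {W : ℕ} (hW : 0 < W) : ∀ᶠ X : ℕ in atTop, (Nat.totient W / W : ℝ) * X / 16 ≤ tW W X ∧ (tW W X : ℝ) ≤ (Nat.totient W / W : ℝ) * X / 8 := by
  have hφ : (0 : ℝ) < Nat.totient W := by exact_mod_cast Nat.totient_pos.2 hW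
  have hW' : (0 : ℝ) < W := by exact_mod_cast hW
  have hc₀0 : (0 : ℝ) < (Nat.totient W / W : ℝ) := by positivity
  have h1 : ∀ᶠ X : ℕ in atTop, (16 : ℝ) / (Nat.totient W / W : ℝ) ≤ X := tendsto_natCast_atTop_atTop.eventually_ge_atTop _
  filter_upwards [h1] with X hX
  rw [div_le_iff₀ hc₀0] at hX
  constructor
  · have := (Nat.lt_floor_add_one ((Nat.totient W / W : ℝ) * X / 8)).le
    unfold tW
    nlinarith
  · exact Nat.floor_le (by positivity)

lemma blk {W : ℕ} (hW0 : 0 < W) {η δ : ℝ} (hη : 0 < η) (hδ : 0 < δ) :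
    ∀ᶠ X : ℕ in atTop, ∀ (Y : ℝ) (Q : Finset ℕ), (Nat.totient W / W : ℝ) * X / 2 ≤ Y → Qok W X Y Q →
      ∀ k, ∀ q ∈ Q, ∀ a ∈ adm W q, ∑ n ∈ cls W q a (TW W η X Y k) (TW W η X Y (k + 1)), rhoW W n ≤ (1 + δ) * η := by
  have hφ : (0 : ℝ) < Nat.totient W := by exact_mod_cast Nat.totient_pos.2 hW0
  have hW' : (0 : ℝ) < W := by exact_mod_cast hW0
  set c₀ : ℝ := Nat.totient W / W with hc₀
  have hc₀0 : 0 < c₀ := by positivity
  have e1 : ∀ᶠ X : ℕ in atTop, η * Real.log X + 4 * W / c₀ ≤ (1 + δ) * η * (Real.log X + Real.log (c₀ / 16)) := by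
    filter_upwards [ev_log ((4 * W / c₀ - (1 + δ) * η * Real.log (c₀ / 16)) / (δ * η))] with X hX
    rw [div_le_iff₀ (by positivity)] at hX
    nlinarith
  have e2 : ∀ᶠ X : ℕ in atTop, (W : ℝ) / Nat.totient W ≤ Real.log X + Real.log (c₀ / 16) := by
    filter_upwards [ev_log ((W : ℝ) / Nat.totient W - Real.log (c₀ / 16))] with X hX
    linarith
  filter_upwards [e1, e2, tW_ev hW0, eventually_ge_atTop 4, ev_log 0] with X h1 h2 h3 h4 h6 Y Q hY hQ k q hq a ha
  obtain ⟨hq1, hq2, hq3⟩ := hQ q hq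
  have hX : (4 : ℝ) ≤ X := by exact_mod_cast h4
  have hY0 : 0 < Y := lt_of_lt_of_le (by positivity) hY
  have hlt : Real.log X + Real.log (c₀ / 16) = Real.log (c₀ * X / 16) := by
    rw [← Real.log_mul (by linarith) (by positivity)]
    congr 1
    ring
  have hT0 : (tW W X : ℝ) ≤ TW W η X Y k := by
    unfold TW
    push_cast
    have : (0 : ℝ) ≤ k * hW η X Y := by positivity
    linarith
  have hlog1 : Real.log X + Real.log (c₀ / 16) ≤ Real.log (TW W η X Y k) := by
    rw [hlt]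
    exact Real.log_le_log (by positivity) (h3.1.trans hT0)
  have hlog0 : 0 < Real.log X + Real.log (c₀ / 16) := lt_of_lt_of_le (by positivity) h2
  have hT1 : 1 ≤ TW W η X Y k := by
    by_contra hcon
    have : TW W η X Y k = 0 := by omega
    rw [this] at hlog1
    simp at hlog1
    linarith
  have h5 := (rho_cls (a := a) hW0 (by omega : 1 < q) ha (TW_mono W η X Y (Nat.le_succ k)) (h2.trans hlog1) hT1).2
  refine h5.trans ?_
  have hcard : 0 < ((adm W q).card : ℝ) := hY0.trans_le hq3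
  have hlogT : 0 < Real.log (TW W η X Y k : ℝ) := hlog0.trans_le hlog1
  have hH : ((TW W η X Y (k + 1) : ℕ) : ℝ) - TW W η X Y k ≤ η * Y * Real.log X := by
    have h7 : ((TW W η X Y (k + 1) : ℕ) : ℝ) - TW W η X Y k = hW η X Y := by
      unfold TW
      push_cast
      ring
    rw [h7]
    exact Nat.floor_le (by positivity)
  have hq2' : (q : ℝ) ≤ X := by exact_mod_cast hq2
  calc ((((TW W η X Y (k + 1) : ℕ) : ℝ) - TW W η X Y k) + 2 * (q * W)) / ((adm W q).card * Real.log (TW W η X Y k)) ≤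
        (η * Y * Real.log X + 2 * (X * W)) / (Y * (Real.log X + Real.log (c₀ / 16))) := by
          apply div_le_div₀
          · positivity
          · nlinarith
          · positivity
          · exact mul_le_mul hq3 hlog1 hlog0.le hcard.le
    _ ≤ (Y * (η * Real.log X + 4 * W / c₀)) / (Y * (Real.log X + Real.log (c₀ / 16))) := by
          apply div_le_div_of_nonneg_right _ (by positivity)
          have h8 : 2 * (X * W : ℝ) ≤ Y * (4 * W / c₀) := by
            have h9 : c₀ * X / 2 * (4 * W / c₀) ≤ Y * (4 * W / c₀) := mul_le_mul_of_nonneg_right hY (by positivity)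
            have h10 : c₀ * X / 2 * (4 * W / c₀) = 2 * (X * W) := by field_simp; ring
            linarith
          nlinarith
    _ = (η * Real.log X + 4 * W / c₀) / (Real.log X + Real.log (c₀ / 16)) := by rw [mul_div_mul_left _ _ hY0.ne']
    _ ≤ _ := by
          rw [div_le_iff₀ hlog0]
          exact h1

lemma start {W : ℕ} (hW0 : 0 < W) (η : ℝ) :
    ∀ᶠ X : ℕ in atTop, ∀ (Y : ℝ) (Q : Finset ℕ) (ω : Ω), (Nat.totient W / W : ℝ) * X / 2 ≤ Y → Qok W X Y Q →
      Q.card * (Y / 2) ≤ NS A W Q (TW W η X Y 0) ω := by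
  classical
  have hφ : (0 : ℝ) < Nat.totient W := by exact_mod_cast Nat.totient_pos.2 hW0
  have hW' : (0 : ℝ) < W := by exact_mod_cast hW0
  set c₀ : ℝ := Nat.totient W / W with hc₀
  have hc₀0 : 0 < c₀ := by positivity
  have e1 : ∀ᶠ X : ℕ in atTop, (8 : ℝ) / c₀ ≤ X := tendsto_natCast_atTop_atTop.eventually_ge_atTop _
  filter_upwards [tW_ev hW0, e1] with X h1 h2 Y Q ω hY hQ
  rw [div_le_iff₀ hc₀0] at h2
  have hT0 : TW W η X Y 0 = tW W X := by unfold TW; simp
  rw [hT0]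
  unfold NS
  have h3 : ∀ q ∈ Q, Y / 2 ≤ ∑ a ∈ adm W q, sv A q a (tW W X) ω := by
    intro q hq
    obtain ⟨hq1, hq2, hq3⟩ := hQ q hq
    have h4 : ∑ a ∈ adm W q, (1 - sv A q a (tW W X) ω) ≤ ∑ n ∈ Finset.range (tW W X + 1), (1 : ℝ) := by
      refine le_trans ?_ (sum_classes (Finset.range (tW W X + 1)) (adm W q) q (fun _ => (1 : ℝ)) fun _ _ => zero_le_one)
      refine Finset.sum_le_sum fun a _ => ?_
      by_cases h5 : ω ∈ Sset A q a (tW W X)
      · have e1 : sv A q a (tW W X) ω = 1 := by unfold sv; rw [indicator_of_mem h5]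
        rw [e1, sub_self]
        exact Finset.sum_nonneg fun _ _ => zero_le_one
      · have e1 : sv A q a (tW W X) ω = 0 := by unfold sv; rw [indicator_of_notMem h5]
        rw [e1, sub_zero]
        have h6 : ∃ n, n ≤ tW W X ∧ n % q = a ∧ ω ∈ A n := by
          by_contra hcon
          push Not at hcon
          exact h5 fun n g1 g2 => hcon n g1 g2
        obtain ⟨n, g1, g2, _⟩ := h6
        have hn : n ∈ (Finset.range (tW W X + 1)).filter (fun n => n % q = a) :=
          Finset.mem_filter.2 ⟨Finset.mem_range.2 (by omega), g2⟩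
        exact Finset.single_le_sum (f := fun _ => (1 : ℝ)) (fun _ _ => zero_le_one) hn
    rw [Finset.sum_sub_distrib, Finset.sum_const, Finset.sum_const, Finset.card_range, nsmul_eq_mul, nsmul_eq_mul, mul_one, mul_one] at h4
    push_cast at h4
    linarith [h1.2]
  calc (Q.card : ℝ) * (Y / 2) = ∑ q ∈ Q, (Y / 2) := by rw [Finset.sum_const, nsmul_eq_mul]
    _ ≤ _ := Finset.sum_le_sum h3

/-- the last block reaches `c Y log²` -/
lemma reach {W : ℕ} {η c c' : ℝ} (hη : 0 < η) (hc : 0 < c) (hcc : c < c') :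
    ∀ᶠ X : ℕ in atTop, ∀ Y : ℝ, 1 ≤ Y → c * Y * Real.log X ^ 2 ≤ TW W η X Y (JW η c' X) := by
  have hc' : 0 < c' := hc.trans hcc
  filter_upwards [ev_log ((η + c' / η) / (c' - c)), ev_log 1, ev_log (1 / η), ev_log (η / c')] with X h1 h2 h3 h4 Y hY
  rw [div_le_iff₀ (by linarith)] at h1
  rw [div_le_iff₀ hη] at h3
  rw [div_le_iff₀ hc'] at h4
  have g1 : c' * Real.log X / η - 1 ≤ JW η c' X := by
    have := (Nat.lt_floor_add_one (c' * Real.log X / η)).le
    unfold JW
    linarith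
  have g2 : η * Y * Real.log X - 1 ≤ hW η X Y := by
    have := (Nat.lt_floor_add_one (η * Y * Real.log X)).le
    unfold hW
    linarith
  have g3 : 0 ≤ c' * Real.log X / η - 1 := by
    rw [sub_nonneg, le_div_iff₀ hη]
    linarith
  have g4 : 0 ≤ η * Y * Real.log X - 1 := by nlinarith
  have g5 : (c' * Real.log X / η - 1) * (η * Y * Real.log X - 1) ≤ JW η c' X * hW η X Y :=
    mul_le_mul g1 g2 g4 (Nat.cast_nonneg _)
  have g6 : (c' * Real.log X / η - 1) * (η * Y * Real.log X - 1) =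
      c' * Y * Real.log X ^ 2 - η * Y * Real.log X - c' / η * Real.log X + 1 := by
    field_simp
    ring
  have g7 : c * Y * Real.log X ^ 2 ≤ c' * Y * Real.log X ^ 2 - η * Y * Real.log X - c' / η * Real.log X + 1 := by
    have g8 : (η + c' / η) * (Y * Real.log X) ≤ (c' - c) * Real.log X * (Y * Real.log X) := by
      apply mul_le_mul_of_nonneg_right _ (by positivity)
      linarith
    have g9 : c' / η * Real.log X ≤ c' / η * (Y * Real.log X) := by
      apply mul_le_mul_of_nonneg_left _ (by positivity)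
      nlinarith
    nlinarith
  have g10 : ((TW W η X Y (JW η c' X) : ℕ) : ℝ) = tW W X + JW η c' X * hW η X Y := by
    unfold TW
    push_cast
    ring
  rw [g10]
  have : (0 : ℝ) ≤ tW W X := Nat.cast_nonneg _
  linarith

lemma TW_upper {W : ℕ} (hW0 : 0 < W) {η c : ℝ} (hη : 0 < η) (hc : 0 < c) :
    ∀ᶠ X : ℕ in atTop, ∀ Y : ℝ, 0 ≤ Y → Y ≤ X → (TW W η X Y (JW η c X) : ℝ) < (X : ℝ) ^ (3 / 2 : ℝ) := by
  have hφ : (Nat.totient W : ℝ) ≤ W := by exact_mod_cast Nat.totient_le W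
  have hW' : (0 : ℝ) < W := by exact_mod_cast hW0
  filter_upwards [tW_ev hW0, ev_log 1, ev_pow (a := 1) (b := 5 / 4) (by norm_num) 1, ev_pow (a := 5 / 4) (b := 3 / 2) (by norm_num) (c + 1),
    eventually_ge_atTop 2] with X h1 h2 h3 h4 h5 Y hY0 hY
  have hX : (2 : ℝ) ≤ X := by exact_mod_cast h5
  rw [Real.rpow_one] at h3
  have g1 : (tW W X : ℝ) ≤ X := by
    refine h1.2.trans ?_
    have : (Nat.totient W / W : ℝ) ≤ 1 := (div_le_one hW').2 hφ
    nlinarith
  have g2 : (JW η c X : ℝ) ≤ c * Real.log X / η := Nat.floor_le (by positivity)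
  have g3 : (hW η X Y : ℝ) ≤ η * Y * Real.log X := Nat.floor_le (by positivity)
  have g4 : ((TW W η X Y (JW η c X) : ℕ) : ℝ) = tW W X + JW η c X * hW η X Y := by
    unfold TW
    push_cast
    ring
  have g5 : (JW η c X : ℝ) * hW η X Y ≤ c * Real.log X / η * (η * Y * Real.log X) :=
    mul_le_mul g2 g3 (Nat.cast_nonneg _) (by positivity)
  have g6 : c * Real.log X / η * (η * Y * Real.log X) = c * Real.log X * (Real.log X * Y) := by
    field_simp
  have g7 : Real.log X * Y ≤ Real.log X * X := mul_le_mul_of_nonneg_left hY (by linarith)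
  have g8 : (0 : ℝ) < (X : ℝ) ^ (5 / 4 : ℝ) := Real.rpow_pos_of_pos (by linarith) _
  rw [g4]
  have g9 : Real.log X * Y ≤ (X : ℝ) ^ (5 / 4 : ℝ) := by nlinarith
  have g10 : c * Real.log X * (Real.log X * Y) ≤ c * Real.log X * (X : ℝ) ^ (5 / 4 : ℝ) :=
    mul_le_mul_of_nonneg_left g9 (by positivity)
  have g11 : (X : ℝ) < (X : ℝ) ^ (5 / 4 : ℝ) := by nlinarith
  nlinarith

/-- the power of `1 - θ` -/
lemma pow_lower {η c κ θ : ℝ} (hη : 0 < η) (hc : 0 < c) (hθ0 : 0 < θ) (hθ1 : θ < 1) (hκ : θ / (1 - θ) ≤ κ * η) {X : ℕ} (hX : 1 < X)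
    {j : ℕ} (hj : j ≤ JW η c X) : (X : ℝ) ^ (-(c * κ)) ≤ (1 - θ) ^ j := by
  have hX' : (1 : ℝ) < X := by exact_mod_cast hX
  have hl : 0 < Real.log (X : ℝ) := Real.log_pos hX'
  have h1 : Real.exp (-(θ / (1 - θ))) ≤ 1 - θ := by
    have h2 : 1 + θ / (1 - θ) ≤ Real.exp (θ / (1 - θ)) := by
      have := Real.add_one_le_exp (θ / (1 - θ))
      linarith
    have h3 : 1 + θ / (1 - θ) = (1 - θ)⁻¹ := by
      have : 1 - θ ≠ 0 := by linarith
      field_simp
      ring
    rw [Real.exp_neg]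
    rw [h3] at h2
    exact inv_le_of_inv_le₀ (by linarith) h2
  have h4 : (j : ℝ) ≤ c * Real.log X / η := by
    have g2 : (JW η c X : ℝ) ≤ c * Real.log X / η := Nat.floor_le (by positivity)
    have : (j : ℝ) ≤ JW η c X := by exact_mod_cast hj
    linarith
  have h5 : 0 ≤ θ / (1 - θ) := div_nonneg hθ0.le (by linarith)
  calc (X : ℝ) ^ (-(c * κ)) = Real.exp (-(c * κ) * Real.log X) := by
        rw [Real.rpow_def_of_pos (by linarith)]
        ring_nf
    _ ≤ Real.exp (j * (-(θ / (1 - θ)))) := by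
        apply Real.exp_le_exp.2
        have h6 : (j : ℝ) * (θ / (1 - θ)) ≤ c * Real.log X / η * (κ * η) :=
          mul_le_mul h4 hκ h5 (by positivity)
        have h7 : c * Real.log X / η * (κ * η) = c * κ * Real.log X := by field_simp
        linarith
    _ = Real.exp (-(θ / (1 - θ))) ^ j := by rw [Real.exp_nat_mul]
    _ ≤ _ := pow_le_pow_left₀ (Real.exp_pos _).le h1 j

end Pool.Agent.R528.RM
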