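import Mathlib
import Pool.Agent.R528.RM.Wag2

set_option autoImplicit false
set_option linter.unusedSectionVars false

/-! # Survival of residue classes: lower bounds -/

open MeasureTheory Filter Set
open scoped ENNReal Topology

namespace Pool.Agent.R528.RM

variable {Ω : Type} {m0 : MeasurableSpace Ω} {μ : Measure Ω} [IsProbabilityMeasure μ]
  {ℱ : Filtration ℕ m0} {A : ℕ → Set Ω}

lemma NS_anti (W : ℕ) (Q : Finset ℕ) {t t' : ℕ} (h : t ≤ t') (ω : Ω) : NS A W Q t' ω ≤ NS A W Q t ω :=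
  Finset.sum_le_sum fun _ _ => Finset.sum_le_sum fun _ _ => sv_anti _ _ h _

/-- the parameter -/
noncomputable def thW (δ : ℝ) : ℝ := (1 + δ) * (1 + δ) * ((1 + δ) * δ)

lemma choose_par {K : ℝ} (hK : 1 < K) : ∃ δ₀ : ℝ, 0 < δ₀ ∧ ∀ δ, 0 < δ → δ ≤ δ₀ →
    δ ≤ 1 / 8 ∧ 0 < thW δ ∧ thW δ < 1 ∧ thW δ / (1 - thW δ) ≤ K * δ := by
  refine ⟨min (1 / 8) ((K - 1) / 9), lt_min (by norm_num) (by linarith), fun δ hδ hδ' => ?_⟩
  have h1 : δ ≤ 1 / 8 := hδ'.trans (min_le_left _ _)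
  have h2 : δ ≤ (K - 1) / 9 := hδ'.trans (min_le_right _ _)
  have h3 : (1 + δ) * (1 + δ) * (1 + δ) ≤ 1 + 4 * δ := by nlinarith [sq_nonneg δ]
  have h4 : thW δ ≤ δ * (1 + 4 * δ) := by
    unfold thW
    have : (1 + δ) * (1 + δ) * ((1 + δ) * δ) = ((1 + δ) * (1 + δ) * (1 + δ)) * δ := by ring
    rw [this, mul_comm δ]
    exact mul_le_mul_of_nonneg_right h3 hδ.le
  have h5 : 0 < thW δ := by unfold thW; positivity
  have h6 : thW δ ≤ 3 / 16 := by nlinarith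
  refine ⟨h1, h5, by linarith, ?_⟩
  rw [div_le_iff₀ (by linarith)]
  have h7 : K * δ ≥ (1 + 9 * δ) * δ := by
    apply mul_le_mul_of_nonneg_right _ hδ.le
    linarith
  have h8 : (1 + 9 * δ) * δ * (1 - thW δ) ≥ (1 + 9 * δ) * δ * (1 - δ * (1 + 4 * δ)) := by
    apply mul_le_mul_of_nonneg_left _ (by positivity)
    linarith
  have h9 : (1 + 9 * δ) * (1 - δ * (1 + 4 * δ)) ≥ 1 + 4 * δ := by nlinarith [sq_nonneg δ, mul_pos hδ hδ]
  nlinarith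

/-- error term -/
lemma prob_ev {c δ : ℝ} (hδ : 0 < δ) (hc : 0 < c) : ∀ᶠ X : ℕ in atTop,
    (JW δ c X : ℝ) * (2 * Real.exp (-(4 * Real.log X))) ≤ (X : ℝ) ^ (-3 : ℝ) := by
  filter_upwards [ev_pow (a := -4) (b := -3) (by norm_num) (2 * c / δ), ev_log 0, eventually_ge_atTop 1] with X h1 h2 h3
  have hX : (0 : ℝ) < X := by exact_mod_cast h3
  have g2 : (JW δ c X : ℝ) ≤ c * Real.log X / δ := Nat.floor_le (by positivity)
  have e : Real.exp (-(4 * Real.log X)) = (X : ℝ) ^ (-4 : ℝ) := by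
    rw [Real.rpow_def_of_pos hX]
    ring_nf
  rw [e]
  have hp : 0 < (X : ℝ) ^ (-4 : ℝ) := Real.rpow_pos_of_pos hX _
  calc (JW δ c X : ℝ) * (2 * (X : ℝ) ^ (-4 : ℝ)) ≤ (c * Real.log X / δ) * (2 * (X : ℝ) ^ (-4 : ℝ)) :=
        mul_le_mul_of_nonneg_right g2 (by positivity)
    _ = 2 * c / δ * Real.log X * (X : ℝ) ^ (-4 : ℝ) := by ring
    _ ≤ 2 * c / δ * (Real.log X + 1) * (X : ℝ) ^ (-4 : ℝ) := by
        apply mul_le_mul_of_nonneg_right _ hp.le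
        apply mul_le_mul_of_nonneg_left _ (by positivity)
        linarith
    _ ≤ _ := h1

/-- the first phase -/
theorem phase1 (hA : ∀ n, MeasurableSet[ℱ n] (A n)) {W : ℕ} (hW0 : 0 < W) {c c' : ℝ} (hc : 0 < c) (hcc : c < c') (hc1 : c' < 1) :
    ∃ δ₀ : ℝ, 0 < δ₀ ∧ ∀ δ, 0 < δ → δ ≤ δ₀ → ∀ N₀ : ℕ, ∀ᶠ X : ℕ in atTop, ∀ (Y : ℝ) (Q : Finset ℕ),
      (Nat.totient W / W : ℝ) * X / 2 ≤ Y → Qok W X Y Q →
      μ.real {ω | NS A W Q ⌊c * Y * Real.log X ^ 2⌋₊ ω < Q.card * (X : ℝ) ^ (1 - c') ∧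
        ∀ n, N₀ ≤ n → dens μ ℱ A n ω ≤ (1 + δ) * rhoW W (n + 1)} ≤ (X : ℝ) ^ (-3 : ℝ) := by
  have hφ : (0 : ℝ) < Nat.totient W := by exact_mod_cast Nat.totient_pos.2 hW0
  have hW' : (0 : ℝ) < W := by exact_mod_cast hW0
  set c₀ : ℝ := Nat.totient W / W with hc₀
  have hc₀0 : 0 < c₀ := by positivity
  set cm : ℝ := (c + c') / 2 with hcm
  have hcm1 : c < cm := by rw [hcm]; linarith
  have hcm2 : cm < c' := by rw [hcm]; linarith
  have hcm0 : 0 < cm := by linarith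
  set K : ℝ := (1 + c' / cm) / 2 with hK
  have hcd : 1 < c' / cm := by rw [lt_div_iff₀ hcm0]; linarith
  have hK1 : 1 < K := by rw [hK]; linarith
  have hKc : cm * K < c' := by
    have : cm * (c' / cm) = c' := by field_simp
    rw [hK]
    nlinarith
  obtain ⟨δ₀, hδ₀, hpar⟩ := choose_par hK1
  refine ⟨δ₀, hδ₀, fun δ hδ hδ' N₀ => ?_⟩
  obtain ⟨hδ8, hθ0, hθ1, hθK⟩ := hpar δ hδ hδ'
  set θ := thW δ with hθ
  have e1 := ev_pow (a := 1 - c') (b := 1 - cm * K) (by linarith) (8 / c₀)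
  have e2 := ev_pow (a := 0) (b := 1 - cm * K) (by linarith) (32 / (δ * θ * c₀))
  have e3 : ∀ᶠ X : ℕ in atTop, (N₀ : ℝ) ≤ tW W X := by
    have h1 : ∀ᶠ X : ℕ in atTop, (16 * N₀ : ℝ) / c₀ ≤ X := tendsto_natCast_atTop_atTop.eventually_ge_atTop _
    filter_upwards [tW_ev hW0, h1] with X h1 h2
    rw [div_le_iff₀ hc₀0] at h2
    linarith [h1.1]
  have e4 : ∀ᶠ X : ℕ in atTop, (2 : ℝ) / c₀ ≤ X := tendsto_natCast_atTop_atTop.eventually_ge_atTop _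
  filter_upwards [blk hW0 hδ hδ, start (A := A) hW0 δ, reach (W := W) hδ hc hcm1, prob_ev hδ hcm0, e1, e2, e3, e4, ev_log 0,
    eventually_ge_atTop 4] with X hblk hstart hreach hprob h1 h2 h3 h4 h5 h6 Y Q hY hQ
  have hX : (4 : ℝ) ≤ X := by exact_mod_cast h6
  have hXp : (0 : ℝ) < X := by linarith
  have hp3 : 0 ≤ (X : ℝ) ^ (-3 : ℝ) := (Real.rpow_pos_of_pos hXp _).le
  rcases Finset.eq_empty_or_nonempty Q with hQe | hQne
  · subst hQe
    have : {ω | NS A W ∅ ⌊c * Y * Real.log X ^ 2⌋₊ ω < (∅ : Finset ℕ).card * (X : ℝ) ^ (1 - c') ∧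
        ∀ n, N₀ ≤ n → dens μ ℱ A n ω ≤ (1 + δ) * rhoW W (n + 1)} = ∅ := by
      ext ω
      simp [NS]
    rw [this]
    simp only [measureReal_empty]
    exact hp3
  have hB : (0 : ℝ) < Q.card := by exact_mod_cast Finset.card_pos.2 hQne
  have hY1 : 1 ≤ Y := by
    rw [div_le_iff₀ hc₀0] at h4
    linarith
  have hQ1 : ∀ q ∈ Q, 1 < q := fun q hq => by have := (hQ q hq).1; omega
  have hiter := wag_iter (μ := μ) (ℱ := ℱ) hA W Q hQ1 (TW_mono W δ X Y) (U := (1 + δ) * δ) (B := Q.card) (s := δ) (δ := δ)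
    (lam := 4 * Real.log X) (θ := θ) hδ.le 0 (JW δ cm X) (fun k _ _ => hblk Y Q hY hQ k) hB hδ (by linarith) rfl hθ0 hθ1.le
    (by positivity) (JW δ cm X) le_rfl
  rw [zero_add] at hiter
  refine (measureReal_mono ?_ (measure_ne_top _ _)).trans (hiter.trans hprob)
  rintro ω ⟨g1, g2⟩
  have hN0 : ∀ n, TW W δ X Y 0 ≤ n → N₀ ≤ n := by
    intro n hn
    have g3 : TW W δ X Y 0 = tW W X := by unfold TW; simp
    have g4 : N₀ ≤ tW W X := by exact_mod_cast h3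
    omega
  refine ⟨?_, fun n _ _ => ww_le Q n _ ω, fun n g3 _ => g2 n (hN0 n g3)⟩
  have g3 : NS A W Q (TW W δ X Y (JW δ cm X)) ω ≤ NS A W Q ⌊c * Y * Real.log X ^ 2⌋₊ ω := by
    apply NS_anti
    have g4 := hreach Y hY1
    have g5 := Nat.floor_le (show 0 ≤ c * Y * Real.log X ^ 2 by positivity)
    exact_mod_cast g5.trans g4
  have g4 := hstart Y Q ω hY hQ
  have g5 := pow_lower (η := δ) hδ hcm0 hθ0 hθ1 hθK (X := X) (by omega) (j := JW δ cm X) le_rfl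
  refine (g3.trans_lt g1).trans_le ?_
  have hpp : 0 < (X : ℝ) ^ (-(cm * K)) := Real.rpow_pos_of_pos hXp _
  have g6 : (X : ℝ) ^ (-(cm * K)) * (Q.card * (Y / 2)) ≤ (1 - θ) ^ JW δ cm X * NS A W Q (TW W δ X Y 0) ω :=
    mul_le_mul g5 g4 (by positivity) (hpp.le.trans g5)
  have g7 : (X : ℝ) ^ (1 - cm * K) = (X : ℝ) ^ (-(cm * K)) * X := by
    rw [show 1 - cm * K = -(cm * K) + 1 by ring, Real.rpow_add hXp, Real.rpow_one]
  have g8 : (c₀ / 4) * (X : ℝ) ^ (1 - cm * K) ≤ (X : ℝ) ^ (-(cm * K)) * (Y / 2) := by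
    rw [g7]
    have : (X : ℝ) ^ (-(cm * K)) * (c₀ * X / 4) ≤ (X : ℝ) ^ (-(cm * K)) * (Y / 2) :=
      mul_le_mul_of_nonneg_left (by linarith) hpp.le
    linarith
  have g9 : (X : ℝ) ^ (1 - c') ≤ (c₀ / 8) * (X : ℝ) ^ (1 - cm * K) := by
    have hp1 : 0 < (X : ℝ) ^ (1 - c') := Real.rpow_pos_of_pos hXp _
    have : 8 / c₀ * (X : ℝ) ^ (1 - c') ≤ (X : ℝ) ^ (1 - cm * K) := by
      refine le_trans ?_ h1
      apply mul_le_mul_of_nonneg_right _ hp1.le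
      have : 8 / c₀ * 1 ≤ 8 / c₀ * (Real.log X + 1) := mul_le_mul_of_nonneg_left (by linarith) (by positivity)
      linarith
    rw [div_mul_eq_mul_div, div_le_iff₀ hc₀0] at this
    linarith
  have g10 : 4 * Real.log X / δ / θ ≤ (c₀ / 8) * (X : ℝ) ^ (1 - cm * K) := by
    rw [Real.rpow_zero, mul_one] at h2
    have : 32 / (δ * θ * c₀) * Real.log X ≤ (X : ℝ) ^ (1 - cm * K) := by
      refine le_trans ?_ h2
      exact mul_le_mul_of_nonneg_left (by linarith) (by positivity)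
    have e : 4 * Real.log X / δ / θ = (c₀ / 8) * (32 / (δ * θ * c₀) * Real.log X) := by
      field_simp
      ring
    rw [e]
    exact mul_le_mul_of_nonneg_left this (by positivity)
  have g11 : (Q.card : ℝ) * (4 * Real.log X / δ) / θ = Q.card * (4 * Real.log X / δ / θ) := by ring
  rw [g11]
  have g12 : (Q.card : ℝ) * (X : ℝ) ^ (1 - c') ≤ Q.card * ((c₀ / 8) * (X : ℝ) ^ (1 - cm * K)) := mul_le_mul_of_nonneg_left g9 hB.le
  have g13 : (Q.card : ℝ) * (4 * Real.log X / δ / θ) ≤ Q.card * ((c₀ / 8) * (X : ℝ) ^ (1 - cm * K)) := mul_le_mul_of_nonneg_left g10 hB.le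
  have g14 : (Q.card : ℝ) * ((c₀ / 4) * (X : ℝ) ^ (1 - cm * K)) ≤ Q.card * ((X : ℝ) ^ (-(cm * K)) * (Y / 2)) := mul_le_mul_of_nonneg_left g8 hB.le
  nlinarith

end Pool.Agent.R528.RM
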