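import Mathlib
import Pool.Agent.R528.RM.Wag3

set_option autoImplicit false
set_option linter.unusedSectionVars false

/-! # Survival of residue classes: many moduli -/

open MeasureTheory Filter Set
open scoped ENNReal Topology

namespace Pool.Agent.R528.RM

variable {Ω : Type} {m0 : MeasurableSpace Ω} {μ : Measure Ω} [IsProbabilityMeasure μ]
  {ℱ : Filtration ℕ m0} {A : ℕ → Set Ω}

/-- the family bound with the factor one half -/
lemma fam_half {ι : Type} [DecidableEq ι] (hA : ∀ n, MeasurableSet[ℱ n] (A n)) (l : ℕ → ℝ) (hl1 : ∀ n, l n ≤ 1)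
    (N m : ℕ) (I : Finset ι) (R : ι → Finset ℕ) (hR : ∀ i ∈ I, ∀ t ∈ R i, N < t ∧ t ≤ m)
    (hdis : ∀ i ∈ I, ∀ j ∈ I, i ≠ j → Disjoint (R i) (R j)) {v B : ℝ} (hB : 1 ≤ B) (hv : ∀ i ∈ I, v ≤ ∑ t ∈ R i, l t)
    (hI : I.card * Real.exp (-v) * Real.exp 1 ≤ B / 2) :
    μ.real ({ω | ∃ T ⊆ I, T.card = ⌈B⌉₊ ∧ ∀ i ∈ T, ∀ t ∈ R i, ω ∉ A t} ∩ LBs μ ℱ A l N m) ≤ (1 / 2 : ℝ) ^ ⌈B⌉₊ := by
  have hk : 1 ≤ ⌈B⌉₊ := Nat.one_le_ceil_iff.2 (by linarith)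
  refine (fam_le hA l hl1 N m I R hR hdis hv _ hk).trans ?_
  have hk0 : (0 : ℝ) < ⌈B⌉₊ := by exact_mod_cast hk
  apply pow_le_pow_left₀ (by positivity)
  rw [div_le_iff₀ hk0]
  have := Nat.le_ceil B
  linarith

lemma half_ev {ε : ℝ} (hε : 0 < ε) (C : ℝ) : ∀ᶠ X : ℕ in atTop, (1 / 2 : ℝ) ^ ⌈(X : ℝ) ^ ε⌉₊ ≤ (X : ℝ) ^ (-C) := by
  filter_upwards [ev_pow (a := 0) (b := ε) hε (2 * |C|), eventually_ge_atTop 1, ev_log 0] with X h1 h2 h3
  have hX : (0 : ℝ) < X := by exact_mod_cast h2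
  rw [Real.rpow_zero, mul_one] at h1
  have h4 : (1 / 2 : ℝ) = Real.exp (-Real.log 2) := by
    rw [Real.exp_neg, Real.exp_log (by norm_num)]
    norm_num
  have h4' : (X : ℝ) ^ (-C) = Real.exp (Real.log X * (-C)) := Real.rpow_def_of_pos hX _
  rw [h4, ← Real.exp_nat_mul, h4']
  apply Real.exp_le_exp.2
  have h5 := Nat.le_ceil ((X : ℝ) ^ ε)
  have h6 : (0.5 : ℝ) ≤ Real.log 2 := by linarith [Real.log_two_gt_d9]
  have h7 : |C| * Real.log X ≤ ⌈(X : ℝ) ^ ε⌉₊ * Real.log 2 := by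
    have h8 : 2 * |C| * Real.log X ≤ ⌈(X : ℝ) ^ ε⌉₊ := by nlinarith [abs_nonneg C]
    have h9 : (0 : ℝ) ≤ ⌈(X : ℝ) ^ ε⌉₊ := Nat.cast_nonneg _
    nlinarith
  have h10 : C * Real.log X ≤ |C| * Real.log X := mul_le_mul_of_nonneg_right (le_abs_self C) h3
  have h11 : ((⌈(X : ℝ) ^ ε⌉₊ : ℕ) : ℝ) * -Real.log 2 = -(⌈(X : ℝ) ^ ε⌉₊ * Real.log 2) := by ring
  rw [h11]
  linarith

/-- few moduli for which the class of `n` survives -/
lemma ww_few (hA : ∀ n, MeasurableSet[ℱ n] (A n)) (l : ℕ → ℝ) (hl1 : ∀ n, l n ≤ 1) (W N₁ n t X : ℕ) (Q : Finset ℕ)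
    (hQ : ∀ q ∈ Q, q.Prime ∧ X ≤ 2 * q) (htn : t < n) (hn : 4 * n < X ^ 2) {v B : ℝ} (hB : 1 ≤ B)
    (hv : ∀ q ∈ Q, v ≤ ∑ m ∈ cls W q (n % q) N₁ t, l m) (hQB : Q.card * Real.exp (-v) * Real.exp 1 ≤ B / 2) :
    μ.real ({ω | B < ww A Q n t ω} ∩ LBs μ ℱ A l N₁ t) ≤ (1 / 2 : ℝ) ^ ⌈B⌉₊ := by
  classical
  refine (measureReal_mono ?_ (measure_ne_top _ _)).trans
    (fam_half hA l hl1 N₁ t Q (fun q => cls W q (n % q) N₁ t) (fun q _ m hm => (mem_cls.1 hm).1) ?_ hB hv hQB)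
  · rintro ω ⟨h1, h2⟩
    refine ⟨?_, h2⟩
    set S := Q.filter (fun q => ω ∈ Sset A q (n % q) t) with hS
    have h3 : ww A Q n t ω = S.card := by
      unfold ww sv
      rw [hS, Finset.card_filter]
      push_cast
      refine Finset.sum_congr rfl fun q _ => ?_
      rw [indicator_apply]
    have h4 : ⌈B⌉₊ ≤ S.card := by
      have h5 : B < ww A Q n t ω := h1
      rw [h3] at h5
      exact Nat.ceil_le.2 h5.le
    obtain ⟨T, hT1, hT2⟩ := Finset.exists_subset_card_eq h4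
    refine ⟨T, fun q hq => (Finset.mem_filter.1 (hT1 hq)).1, hT2, fun q hq m hm => ?_⟩
    have h6 : ω ∈ Sset A q (n % q) t := (Finset.mem_filter.1 (hT1 hq)).2
    obtain ⟨⟨_, h7⟩, h8, _⟩ := mem_cls.1 hm
    exact h6 m h7 h8
  · intro q hq q' hq' hne
    rw [Finset.disjoint_left]
    intro m hm hm'
    obtain ⟨⟨_, h1⟩, h2, _⟩ := mem_cls.1 hm
    obtain ⟨_, h3, _⟩ := mem_cls.1 hm'
    have h4 : q ∣ n - m := (Nat.modEq_iff_dvd' (by omega)).1 h2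
    have h5 : q' ∣ n - m := (Nat.modEq_iff_dvd' (by omega)).1 h3
    have h6 : Nat.Coprime q q' := (Nat.coprime_primes (hQ q hq).1 (hQ q' hq').1).2 hne
    have h7 : q * q' ≤ n - m := Nat.le_of_dvd (by omega) (h6.mul_dvd_of_dvd_of_dvd h4 h5)
    have h8 := (hQ q hq).2
    have h9 := (hQ q' hq').2
    have h10 : X * X ≤ (2 * q) * (2 * q') := Nat.mul_le_mul h8 h9
    have h11 : (2 * q) * (2 * q') = 4 * (q * q') := by ring
    rw [h11] at h10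
    rw [pow_two] at hn
    omega

lemma adm_prime {W q : ℕ} (hW : 0 < W) (hq : q.Prime) (hqW : W < q) : adm W q = Finset.range q := by
  unfold adm
  rw [Finset.filter_true_of_mem]
  intro a _
  have h1 : Nat.Coprime q W := (Nat.Prime.coprime_iff_not_dvd hq).2 fun h => by
    have := Nat.le_of_dvd hW h
    omega
  rw [h1]
  exact Nat.coprime_one_right a

/-- parameters of the second phase -/
lemma par2 {c c' : ℝ} (hc : 1 < c) (hcc : c < c') (hc2 : c' < 2) :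
    ∃ ε cm K κ₀ δ₀ : ℝ, ε = (2 - c') / 4 ∧ 0 < ε ∧ ε < 1 / 4 ∧ 0 < cm ∧ cm * K < c' ∧ (1 - ε / 4) * K < 1 ∧
      0 < κ₀ ∧ κ₀ < 1 / 2 ∧ 1 - ε / 4 < cm ∧ c / (1 - κ₀) < cm ∧ 0 < δ₀ ∧ δ₀ ≤ 1 / 8 ∧
      (∀ δ, 0 < δ → δ ≤ δ₀ → 0 < thW δ ∧ thW δ < 1 ∧ thW δ / (1 - thW δ) ≤ K * δ) ∧
      (∀ δ, 0 < δ → δ ≤ δ₀ → 1 - ε / 2 ≤ (1 - δ) * ((1 - ε / 4 - ε / 16) * (1 - κ₀) * (1 - ε / 16))) := by
  have hε0 : 0 < (2 - c') / 4 := by linarith
  have hε1 : (2 - c') / 4 < 1 / 4 := by linarith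
  set ε : ℝ := (2 - c') / 4 with hε
  set cm : ℝ := (c + c') / 2 with hcm
  have hcm1 : c < cm := by rw [hcm]; linarith
  have hcm2 : cm < c' := by rw [hcm]; linarith
  have hcm0 : 0 < cm := by linarith
  set c₁ : ℝ := 1 - ε / 4 with hc₁
  have hc₁0 : 0 < c₁ := by rw [hc₁]; linarith
  have hc₁1 : c₁ < 1 := by rw [hc₁]; linarith
  have hcd : 1 < c' / cm := by rw [lt_div_iff₀ hcm0]; linarith
  have hcd1 : 1 < 1 / c₁ := by rw [lt_div_iff₀ hc₁0]; linarith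
  set K : ℝ := min ((1 + c' / cm) / 2) ((1 + 1 / c₁) / 2) with hK
  have hK1 : 1 < K := lt_min (by linarith) (by linarith)
  have hKc : cm * K < c' := by
    have h1 : cm * (c' / cm) = c' := by field_simp
    have h2 : K ≤ (1 + c' / cm) / 2 := min_le_left _ _
    have h3 : cm * K ≤ cm * ((1 + c' / cm) / 2) := mul_le_mul_of_nonneg_left h2 hcm0.le
    have h4 : cm * ((1 + c' / cm) / 2) = (cm + cm * (c' / cm)) / 2 := by ring
    rw [h4, h1] at h3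
    linarith only [h3, hcm2]
  have hKc1 : c₁ * K < 1 := by
    have h1 : c₁ * (1 / c₁) = 1 := by field_simp
    have h2 : K ≤ (1 + 1 / c₁) / 2 := min_le_right _ _
    have h3 : c₁ * K ≤ c₁ * ((1 + 1 / c₁) / 2) := mul_le_mul_of_nonneg_left h2 hc₁0.le
    have h4 : c₁ * ((1 + 1 / c₁) / 2) = (c₁ + c₁ * (1 / c₁)) / 2 := by ring
    rw [h4, h1] at h3
    linarith only [h3, hc₁1]
  set κ₀ : ℝ := min (ε / 16) ((cm - c) / 4) with hκ₀
  have hκ0 : 0 < κ₀ := lt_min (by positivity) (by linarith)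
  have hκ1 : κ₀ ≤ ε / 16 := min_le_left _ _
  have hκ2 : κ₀ ≤ (cm - c) / 4 := min_le_right _ _
  have hκ3 : κ₀ < 1 / 2 := by linarith
  obtain ⟨δ₀, hδ₀, hpar⟩ := choose_par hK1
  refine ⟨ε, cm, K, κ₀, min (min δ₀ (1 / 8)) (ε / 16), rfl, hε0, hε1, hcm0, hKc, hKc1, hκ0, hκ3, by linarith, ?_,
    lt_min (lt_min hδ₀ (by norm_num)) (by positivity), (min_le_left _ _).trans (min_le_right _ _), ?_, ?_⟩
  · rw [div_lt_iff₀ (by linarith)]
    have h1 : cm * κ₀ ≤ 2 * ((cm - c) / 4) := mul_le_mul (by linarith) hκ2 hκ0.le (by norm_num)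
    have h2 : cm * (1 - κ₀) = cm - cm * κ₀ := by ring
    rw [h2]
    linarith only [h1, hcm1]
  · intro δ h1 h2
    exact (hpar δ h1 (h2.trans ((min_le_left _ _).trans (min_le_left _ _)))).2
  · intro δ h1 h2
    have hδε : δ ≤ ε / 16 := h2.trans (min_le_right _ _)
    have g1 : 1 - 6 * ε / 16 ≤ (1 - ε / 4 - ε / 16) * (1 - κ₀) := by
      have : (1 - ε / 4 - ε / 16) * (1 - κ₀) = 1 - ε / 4 - ε / 16 - κ₀ + (ε / 4 + ε / 16) * κ₀ := by ring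
      rw [this]
      have : 0 ≤ (ε / 4 + ε / 16) * κ₀ := by positivity
      linarith
    have g2 : 1 - 7 * ε / 16 ≤ (1 - ε / 4 - ε / 16) * (1 - κ₀) * (1 - ε / 16) := by
      have h3 : (1 - 6 * ε / 16) * (1 - ε / 16) ≤ (1 - ε / 4 - ε / 16) * (1 - κ₀) * (1 - ε / 16) :=
        mul_le_mul_of_nonneg_right g1 (by linarith)
      have h4 : (1 - 6 * ε / 16) * (1 - ε / 16) = 1 - 7 * ε / 16 + 6 * ε / 16 * (ε / 16) := by ring
      rw [h4] at h3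
      have : 0 ≤ 6 * ε / 16 * (ε / 16) := by positivity
      linarith
    have h3 : (1 - δ) * (1 - 7 * ε / 16) ≤ (1 - δ) * ((1 - ε / 4 - ε / 16) * (1 - κ₀) * (1 - ε / 16)) :=
      mul_le_mul_of_nonneg_left g2 (by linarith)
    have h4 : (1 - δ) * (1 - 7 * ε / 16) = 1 - δ - 7 * ε / 16 + δ * (7 * ε / 16) := by ring
    rw [h4] at h3
    have : 0 ≤ δ * (7 * ε / 16) := by positivity
    linarith

/-- the probability that the class of some `n` survives for many moduli -/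
lemma P2E2 (hA : ∀ n, MeasurableSet[ℱ n] (A n)) (l : ℕ → ℝ) (hl1 : ∀ n, l n ≤ 1) (W N₁ t t' X : ℕ) (Q : Finset ℕ)
    (hX : 4 ≤ X) (hQ : ∀ q ∈ Q, q.Prime ∧ X ≤ 2 * q ∧ q ≤ X) {vv ε : ℝ} (hε : 0 < ε) (hvv : 1 - ε / 2 ≤ vv)
    (ht' : (t' : ℝ) < (X : ℝ) ^ (3 / 2 : ℝ)) (h6 : 4 * (Real.log X + 1) * (X : ℝ) ^ (3 / 2 : ℝ) ≤ (X : ℝ) ^ (2 : ℝ))
    (h4 : 2 * Real.exp 1 * (Real.log X + 1) * (X : ℝ) ^ (ε / 2) ≤ (X : ℝ) ^ ε)
    (hhalf : (1 / 2 : ℝ) ^ ⌈(X : ℝ) ^ ε⌉₊ ≤ (X : ℝ) ^ (-(9 / 2) : ℝ))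
    (hv : ∀ n, ∀ q ∈ Q, vv * Real.log X ≤ ∑ m ∈ cls W q (n % q) N₁ t, l m) :
    μ.real (⋃ n ∈ Finset.Ioc t t', ({ω | (X : ℝ) ^ ε < ww A Q n t ω} ∩ LBs μ ℱ A l N₁ t)) ≤ (X : ℝ) ^ (-3 : ℝ) := by
  have hX' : (4 : ℝ) ≤ X := by exact_mod_cast hX
  have hXp : (0 : ℝ) < X := by linarith
  have h8 : 0 ≤ Real.log (X : ℝ) := Real.log_natCast_nonneg X
  have hB1 : 1 ≤ (X : ℝ) ^ ε := Real.one_le_rpow (by linarith) hε.le
  have hQX : (Q.card : ℝ) ≤ X := by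
    have g1 : Q ⊆ Finset.Ioc 0 X := by
      intro q hq
      rw [Finset.mem_Ioc]
      exact ⟨(hQ q hq).1.pos, (hQ q hq).2.2⟩
    have g2 := Finset.card_le_card g1
    rw [Nat.card_Ioc, Nat.sub_zero] at g2
    exact_mod_cast g2
  have hp4 : (0 : ℝ) < (X : ℝ) ^ (3 / 2 : ℝ) := Real.rpow_pos_of_pos hXp _
  have hq4 : Q.card * Real.exp (-(vv * Real.log X)) * Real.exp 1 ≤ (X : ℝ) ^ ε / 2 := by
    have g3 : Real.exp (-(vv * Real.log X)) = (X : ℝ) ^ (-vv) := by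
      rw [Real.rpow_def_of_pos hXp]
      ring_nf
    rw [g3]
    have g4 : (Q.card : ℝ) * (X : ℝ) ^ (-vv) ≤ (X : ℝ) ^ (ε / 2) := by
      calc (Q.card : ℝ) * (X : ℝ) ^ (-vv) ≤ X * (X : ℝ) ^ (-vv) :=
            mul_le_mul_of_nonneg_right hQX (Real.rpow_pos_of_pos hXp _).le
        _ = (X : ℝ) ^ (1 - vv) := by
            rw [show 1 - vv = 1 + -vv by ring, Real.rpow_add hXp, Real.rpow_one]
        _ ≤ _ := Real.rpow_le_rpow_of_exponent_le (by linarith) (by linarith)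
    have g5 : 2 * Real.exp 1 * (X : ℝ) ^ (ε / 2) ≤ (X : ℝ) ^ ε := by
      refine le_trans ?_ h4
      apply mul_le_mul_of_nonneg_right _ (Real.rpow_pos_of_pos hXp _).le
      have : 0 ≤ 2 * Real.exp 1 * Real.log X := mul_nonneg (by positivity) h8
      linarith only [this]
    have g6 : (Q.card : ℝ) * (X : ℝ) ^ (-vv) * Real.exp 1 ≤ (X : ℝ) ^ (ε / 2) * Real.exp 1 :=
      mul_le_mul_of_nonneg_right g4 (Real.exp_pos 1).le
    linarith only [g5, g6]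
  have g0 : ∀ n ∈ Finset.Ioc t t',
      μ.real ({ω | (X : ℝ) ^ ε < ww A Q n t ω} ∩ LBs μ ℱ A l N₁ t) ≤ (X : ℝ) ^ (-(9 / 2) : ℝ) := by
    intro n hn
    obtain ⟨g1, g2⟩ := Finset.mem_Ioc.1 hn
    refine (ww_few hA l hl1 W N₁ n t X Q (fun q hq => ⟨(hQ q hq).1, (hQ q hq).2.1⟩) g1 ?_ hB1
      (v := vv * Real.log X) (hv n) hq4).trans hhalf
    have g3 : (n : ℝ) ≤ t' := by exact_mod_cast g2
    have g5 : (4 : ℝ) * (X : ℝ) ^ (3 / 2 : ℝ) ≤ (X : ℝ) ^ (2 : ℝ) := by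
      refine le_trans ?_ h6
      have : 0 ≤ 4 * Real.log X * (X : ℝ) ^ (3 / 2 : ℝ) := by positivity
      linarith only [this]
    rw [Real.rpow_two] at g5
    have g6 : (4 : ℝ) * n < (X : ℝ) ^ 2 := by linarith only [g3, g5, ht']
    exact_mod_cast g6
  calc _ ≤ ∑ n ∈ Finset.Ioc t t', μ.real ({ω | (X : ℝ) ^ ε < ww A Q n t ω} ∩ LBs μ ℱ A l N₁ t) :=
        measureReal_biUnion_finset_le _ _
    _ ≤ ∑ n ∈ Finset.Ioc t t', (X : ℝ) ^ (-(9 / 2) : ℝ) := Finset.sum_le_sum g0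
    _ ≤ (X : ℝ) ^ (3 / 2 : ℝ) * (X : ℝ) ^ (-(9 / 2) : ℝ) := by
        rw [Finset.sum_const, nsmul_eq_mul, Nat.card_Ioc]
        apply mul_le_mul_of_nonneg_right _ (Real.rpow_pos_of_pos hXp _).le
        refine le_trans ?_ ht'.le
        exact_mod_cast Nat.sub_le _ _
    _ = _ := by
        rw [← Real.rpow_add hXp]
        norm_num

/-- the deterministic part -/
lemma P2fin {X card Y c₀ ε θ δ cmK c1K c' S0 Si L : ℝ} {i J : ℕ} (hiJ : i ≤ J) (hXp : 0 < X) (hc₀ : 0 < c₀) (hcard : 0 < card)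
    (hY : c₀ * X / 2 ≤ Y) (hθ0 : 0 < θ) (hθ1 : θ < 1) (hδ : 0 < δ) (hL : 0 ≤ L) (hcardX : X ^ (1 - ε) ≤ card)
    (g4 : card * (Y / 2) ≤ S0) (g5 : X ^ (-cmK) ≤ (1 - θ) ^ J) (g5' : X ^ (-c1K) ≤ (1 - θ) ^ i)
    (h1 : 16 / c₀ * (L + 1) * X ^ (1 - c') ≤ X ^ (1 - cmK))
    (h2 : 32 / (δ * θ * c₀) * (L + 1) * X ^ (0 : ℝ) ≤ X ^ (1 - c1K))
    (h3 : 64 / (δ * θ * c₀) * (L + 1) * X ^ ε ≤ X ^ (2 - ε - cmK))
    (hph1 : (1 - θ) ^ i * S0 - card * (4 * L / δ) / θ ≤ Si) :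
    card * X ^ (1 - c') ≤ (1 - θ) ^ (J - i) * Si - X ^ ε * (4 * L / δ) / θ := by
  have hY0 : 0 < Y := lt_of_lt_of_le (by positivity) hY
  have hS00 : 0 < card * (Y / 2) := by positivity
  have hpp : 0 < X ^ (-cmK) := Real.rpow_pos_of_pos hXp _
  have hpp' : 0 < X ^ (-c1K) := Real.rpow_pos_of_pos hXp _
  have g6 : X ^ (-cmK) * (card * (Y / 2)) ≤ (1 - θ) ^ J * S0 := mul_le_mul g5 g4 hS00.le (hpp.le.trans g5)
  have g6' : X ^ (-c1K) * (card * (Y / 2)) ≤ (1 - θ) ^ i * S0 := mul_le_mul g5' g4 hS00.le (hpp'.le.trans g5')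
  have hconv : ∀ z : ℝ, card * ((c₀ / 4) * X ^ (1 - z)) ≤ X ^ (-z) * (card * (Y / 2)) := by
    intro z
    have q1 : X ^ (1 - z) = X ^ (-z) * X := by
      rw [show 1 - z = -z + 1 by ring, Real.rpow_add hXp, Real.rpow_one]
    rw [q1]
    have h4 : c₀ * X / 4 ≤ Y / 2 := by linarith only [hY]
    have : X ^ (-z) * card * (c₀ * X / 4) ≤ X ^ (-z) * card * (Y / 2) :=
      mul_le_mul_of_nonneg_left h4 (mul_pos (Real.rpow_pos_of_pos hXp _) hcard).le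
    calc card * ((c₀ / 4) * (X ^ (-z) * X)) = X ^ (-z) * card * (c₀ * X / 4) := by ring
      _ ≤ _ := this
      _ = _ := by ring
  have g7 : card * (4 * L / δ) / θ ≤ (1 - θ) ^ i * S0 / 2 := by
    rw [Real.rpow_zero, mul_one] at h2
    have q1 : 32 / (δ * θ * c₀) * L ≤ X ^ (1 - c1K) := by
      refine le_trans ?_ h2
      exact mul_le_mul_of_nonneg_left (by linarith only []) (by positivity)
    have q2 : card * (4 * L / δ) / θ = card * ((c₀ / 8) * (32 / (δ * θ * c₀) * L)) := by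
      field_simp
      ring
    rw [q2]
    have q3 : card * ((c₀ / 8) * (32 / (δ * θ * c₀) * L)) ≤ card * ((c₀ / 8) * X ^ (1 - c1K)) := by
      apply mul_le_mul_of_nonneg_left _ hcard.le
      exact mul_le_mul_of_nonneg_left q1 (by positivity)
    have q4 := hconv c1K
    have q5 : card * ((c₀ / 4) * X ^ (1 - c1K)) = 2 * (card * ((c₀ / 8) * X ^ (1 - c1K))) := by ring
    rw [q5] at q4
    linarith only [q3, q4, g6']
  have hpow : (1 - θ) ^ (J - i) * (1 - θ) ^ i = (1 - θ) ^ J := by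
    rw [← pow_add, Nat.sub_add_cancel hiJ]
  have h1θ : 0 < (1 - θ) ^ (J - i) := pow_pos (by linarith) _
  have g8 : (1 - θ) ^ J * S0 / 2 ≤ (1 - θ) ^ (J - i) * Si := by
    have q1 : (1 - θ) ^ i * S0 / 2 ≤ Si := by linarith only [hph1, g7]
    have q2 := mul_le_mul_of_nonneg_left q1 h1θ.le
    have q3 : (1 - θ) ^ (J - i) * ((1 - θ) ^ i * S0 / 2) = (1 - θ) ^ J * S0 / 2 := by
      rw [← hpow]; ring
    linarith only [q2, q3]
  have g9 : card * ((c₀ / 8) * X ^ (1 - cmK)) ≤ (1 - θ) ^ J * S0 / 2 := by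
    have q4 := hconv cmK
    have q5 : card * ((c₀ / 4) * X ^ (1 - cmK)) = 2 * (card * ((c₀ / 8) * X ^ (1 - cmK))) := by ring
    rw [q5] at q4
    linarith only [q4, g6]
  have g10 : card * X ^ (1 - c') ≤ card * ((c₀ / 16) * X ^ (1 - cmK)) := by
    apply mul_le_mul_of_nonneg_left _ hcard.le
    have hp1 : 0 < X ^ (1 - c') := Real.rpow_pos_of_pos hXp _
    have : 16 / c₀ * X ^ (1 - c') ≤ X ^ (1 - cmK) := by
      refine le_trans ?_ h1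
      apply mul_le_mul_of_nonneg_right _ hp1.le
      have : 16 / c₀ * 1 ≤ 16 / c₀ * (L + 1) := mul_le_mul_of_nonneg_left (by linarith only [hL]) (by positivity)
      linarith only [this]
    rw [div_mul_eq_mul_div, div_le_iff₀ hc₀] at this
    linarith only [this]
  have g11 : X ^ ε * (4 * L / δ) / θ ≤ card * ((c₀ / 16) * X ^ (1 - cmK)) := by
    have hBp : 0 < X ^ ε := Real.rpow_pos_of_pos hXp _
    have q1 : 64 / (δ * θ * c₀) * L * X ^ ε ≤ X ^ (2 - ε - cmK) := by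
      refine le_trans ?_ h3
      apply mul_le_mul_of_nonneg_right _ hBp.le
      exact mul_le_mul_of_nonneg_left (by linarith only []) (by positivity)
    have q2 : X ^ ε * (4 * L / δ) / θ = (c₀ / 16) * (64 / (δ * θ * c₀) * L * X ^ ε) := by
      field_simp
      ring
    have q3 : X ^ (2 - ε - cmK) = X ^ (1 - ε) * X ^ (1 - cmK) := by
      rw [← Real.rpow_add hXp]
      ring_nf
    have q4 : 0 < X ^ (1 - cmK) := Real.rpow_pos_of_pos hXp _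
    rw [q2]
    calc (c₀ / 16) * (64 / (δ * θ * c₀) * L * X ^ ε) ≤ (c₀ / 16) * X ^ (2 - ε - cmK) :=
          mul_le_mul_of_nonneg_left q1 (by positivity)
      _ = (c₀ / 16) * (X ^ (1 - ε) * X ^ (1 - cmK)) := by rw [q3]
      _ ≤ (c₀ / 16) * (card * X ^ (1 - cmK)) := by
          apply mul_le_mul_of_nonneg_left _ (by positivity)
          exact mul_le_mul_of_nonneg_right hcardX q4.le
      _ = _ := by ring
  have g12 : card * ((c₀ / 8) * X ^ (1 - cmK)) = 2 * (card * ((c₀ / 16) * X ^ (1 - cmK))) := by ring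
  linarith only [g8, g9, g10, g11, g12]

end Pool.Agent.R528.RM
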