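import Mathlib
import Pool.Agent.R528.RM.Wag4

set_option autoImplicit false
set_option linter.unusedSectionVars false

/-! # Survival of residue classes: the second phase -/

open MeasureTheory Filter Set
open scoped ENNReal Topology

namespace Pool.Agent.R528.RM

variable {Ω : Type} {m0 : MeasurableSpace Ω} {μ : Measure Ω} [IsProbabilityMeasure μ]
  {ℱ : Filtration ℕ m0} {A : ℕ → Set Ω}

lemma exists_N₁ (W N₀ : ℕ) : ∃ N₁ : ℕ, N₀ ≤ N₁ ∧ 1 ≤ N₁ ∧ (W : ℝ) / Nat.totient W ≤ Real.log N₁ := by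
  refine ⟨max (max N₀ ⌈Real.exp ((W : ℝ) / Nat.totient W)⌉₊) 1, (le_max_left _ _).trans (le_max_left _ _), le_max_right _ _, ?_⟩
  set N₁ : ℕ := max (max N₀ ⌈Real.exp ((W : ℝ) / Nat.totient W)⌉₊) 1 with hN₁
  have hN₁1 : 1 ≤ N₁ := le_max_right _ _
  have h1 : Real.exp ((W : ℝ) / Nat.totient W) ≤ N₁ := by
    refine (Nat.le_ceil _).trans ?_
    exact_mod_cast (le_max_right N₀ _).trans (le_max_left _ 1)
  rw [Real.le_log_iff_exp_le (by exact_mod_cast hN₁1)]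
  exact h1

/-- the second phase -/
theorem phase2 (hA : ∀ n, MeasurableSet[ℱ n] (A n)) {W : ℕ} (hW0 : 0 < W) {c c' : ℝ} (hc : 1 < c) (hcc : c < c') (hc2 : c' < 2) :
    ∃ κ₀ : ℝ, 0 < κ₀ ∧ κ₀ < 1 / 2 ∧ ∃ δ₀ : ℝ, 0 < δ₀ ∧ ∀ δ, 0 < δ → δ ≤ δ₀ → ∀ N₀ : ℕ, ∀ᶠ X : ℕ in atTop, ∀ Q : Finset ℕ,
      (∀ q ∈ Q, q.Prime ∧ (1 - κ₀) * X ≤ q ∧ q ≤ X) → (X : ℝ) ^ (1 - (2 - c') / 4) ≤ Q.card →
      μ.real {ω | NS A W Q ⌊c * X * Real.log X ^ 2⌋₊ ω < Q.card * (X : ℝ) ^ (1 - c') ∧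
        (∀ n, N₀ ≤ n → dens μ ℱ A n ω ≤ (1 + δ) * rhoW W (n + 1)) ∧
        ∀ n, N₀ ≤ n → (1 - δ) * rhoW W (n + 1) ≤ dens μ ℱ A n ω} ≤ (X : ℝ) ^ (-2 : ℝ) := by
  obtain ⟨ε, cm, K, κ₀, δ₀, hε, hε0, hε1, hcm0, hKc, hKc1, hκ0, hκ3, hc1cm, hca1, hδ₀, hδ₀8, hpar, hvvp⟩ := par2 hc hcc hc2
  refine ⟨κ₀, hκ0, hκ3, δ₀, hδ₀, fun δ hδ hδ' N₀ => ?_⟩
  rw [← hε]
  obtain ⟨hθ0, hθ1, hθK⟩ := hpar δ hδ hδ'
  have hvv1 := hvvp δ hδ hδ'
  have hδ8 : δ ≤ 1 / 8 := hδ'.trans hδ₀8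
  clear hpar hvvp
  have hφ : (0 : ℝ) < Nat.totient W := by exact_mod_cast Nat.totient_pos.2 hW0
  have hφW : (Nat.totient W : ℝ) ≤ W := by exact_mod_cast Nat.totient_le W
  have hW' : (0 : ℝ) < W := by exact_mod_cast hW0
  have hc₀0 : (0 : ℝ) < (Nat.totient W : ℝ) / W := by positivity
  have hc₀1 : (Nat.totient W : ℝ) / W ≤ 1 := (div_le_one hW').2 hφW
  obtain ⟨N₁, hN₁0, hN₁1, hN₁2⟩ := exists_N₁ W N₀
  have hc₁0 : 0 < 1 - ε / 4 := by linarith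
  have hc₂0 : 0 < 1 - ε / 4 - ε / 16 := by linarith
  have hc₂1 : 1 - ε / 4 - ε / 16 < 1 - ε / 4 := by linarith
  have h1κ : 0 < 1 - κ₀ := by linarith
  have hca0 : 0 < c / (1 - κ₀) := by positivity
  have e1 := ev_pow (a := 1 - c') (b := 1 - cm * K) (by linarith) (16 / ((Nat.totient W : ℝ) / W))
  have e2 := ev_pow (a := 0) (b := 1 - (1 - ε / 4) * K) (by linarith) (32 / (δ * thW δ * ((Nat.totient W : ℝ) / W)))
  have e3 := ev_pow (a := ε) (b := 2 - ε - cm * K) (by linarith) (64 / (δ * thW δ * ((Nat.totient W : ℝ) / W)))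
  have e4 := ev_pow (a := ε / 2) (b := ε) (by linarith) (2 * Real.exp 1)
  have e5 : ∀ᶠ X : ℕ in atTop, (N₁ : ℝ) ≤ tW W X := by
    have h1 : ∀ᶠ X : ℕ in atTop, (16 * N₁ : ℝ) / ((Nat.totient W : ℝ) / W) ≤ X := tendsto_natCast_atTop_atTop.eventually_ge_atTop _
    filter_upwards [tW_ev hW0, h1] with X h1 h2
    rw [div_le_iff₀ hc₀0] at h2
    linarith [h1.1]
  have e6 := ev_pow (a := 3 / 2) (b := 2) (by norm_num) 4
  have e7 : ∀ᶠ X : ℕ in atTop, (2 * W + 4 : ℕ) ≤ X := eventually_ge_atTop _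
  have hvc : 0 < (1 - ε / 4 - ε / 16) * (1 - κ₀) := by positivity
  filter_upwards [blk hW0 hδ hδ, start (A := A) hW0 δ, reach (W := W) hδ hca0 hca1, reach (W := W) hδ hc₂0 hc₂1,
    prob_ev hδ hcm0, prob_ev hδ hc₁0, e1, e2, e3, e4, e5, e6, e7, half_ev hε0 (9 / 2), TW_upper hW0 hδ hcm0,
    v_lower hW0 hvc (show 0 < ε / 16 by positivity) (by linarith) N₁ hN₁2 hN₁1]
    with X hblk hstart hreach hreach1 hprob hprob1 h1 h2 h3 h4 h5 h6 h7 hhalf hup hvl Q hQ hQc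
  clear e1 e2 e3 e4 e5 e6 e7
  have hX4 : 4 ≤ X := by omega
  have hX : (4 : ℝ) ≤ X := by exact_mod_cast hX4
  have hXp : (0 : ℝ) < X := by linarith only [hX]
  have h8 : 0 ≤ Real.log (X : ℝ) := Real.log_natCast_nonneg X
  set Y : ℝ := (1 - κ₀) * X with hY
  have hYX : Y ≤ X := mul_le_of_le_one_left hXp.le (by linarith only [hκ0])
  have hY2 : X / 2 ≤ Y := by
    have := mul_le_mul_of_nonneg_right (show (1 / 2 : ℝ) ≤ 1 - κ₀ by linarith only [hκ3]) hXp.le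
    rw [hY]
    linarith only [this]
  have hY1 : 1 ≤ Y := by linarith only [hY2, hX]
  have hY0 : (Nat.totient W : ℝ) / W * X / 2 ≤ Y := by
    have := mul_le_of_le_one_left hXp.le hc₀1
    linarith only [this, hY2]
  have hQX2 : ∀ q ∈ Q, X ≤ 2 * q := by
    intro q hq
    have g1 := (hQ q hq).2.1
    have g3 : (X : ℝ) ≤ 2 * q := by linarith only [g1, hY2, hY]
    exact_mod_cast g3
  have hQW : ∀ q ∈ Q, W < q := by
    intro q hq
    have := hQX2 q hq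
    omega
  have hadm : ∀ q ∈ Q, adm W q = Finset.range q := fun q hq => adm_prime hW0 (hQ q hq).1 (hQW q hq)
  have hQok : Qok W X Y Q := by
    intro q hq
    refine ⟨hQX2 q hq, (hQ q hq).2.2, ?_⟩
    rw [hadm q hq, Finset.card_range]
    exact (hQ q hq).2.1
  have hXpow : 0 < (X : ℝ) ^ (1 - ε) := Real.rpow_pos_of_pos hXp _
  have hB : (0 : ℝ) < Q.card := hXpow.trans_le hQc
  have hQ1 : ∀ q ∈ Q, 1 < q := fun q hq => (hQ q hq).1.one_lt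
  have hBp : 0 < (X : ℝ) ^ ε := Real.rpow_pos_of_pos hXp _
  have hiJ : JW δ (1 - ε / 4) X ≤ JW δ cm X := by
    unfold JW
    apply Nat.floor_mono
    apply div_le_div_of_nonneg_right _ hδ.le
    exact mul_le_mul_of_nonneg_right hc1cm.le h8
  have hδ1 : δ ≤ 1 := by linarith only [hδ8]
  have hlam : 0 ≤ 4 * Real.log (X : ℝ) := by positivity
  have hiter1 := wag_iter (μ := μ) (ℱ := ℱ) hA W Q hQ1 (TW_mono W δ X Y) (U := (1 + δ) * δ) (B := Q.card) (s := δ) (δ := δ)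
    (lam := 4 * Real.log X) (θ := thW δ) hδ.le 0 (JW δ (1 - ε / 4) X) (fun k _ _ => hblk Y Q hY0 hQok k) hB hδ hδ1 rfl hθ0 hθ1.le
    hlam (JW δ (1 - ε / 4) X) le_rfl
  have hiter2 := wag_iter (μ := μ) (ℱ := ℱ) hA W Q hQ1 (TW_mono W δ X Y) (U := (1 + δ) * δ) (B := (X : ℝ) ^ ε) (s := δ) (δ := δ)
    (lam := 4 * Real.log X) (θ := thW δ) hδ.le (JW δ (1 - ε / 4) X) (JW δ cm X - JW δ (1 - ε / 4) X)
    (fun k _ _ => hblk Y Q hY0 hQok k) hBp hδ hδ1 rfl hθ0 hθ1.le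
    hlam (JW δ cm X - JW δ (1 - ε / 4) X) le_rfl
  have hTJ := hup Y (by linarith only [hY1]) hYX
  have hreach' := hreach Y hY1
  have hreach1' := hreach1 Y hY1
  have hstart' := fun ω => hstart Y Q ω hY0 hQok
  clear hblk hstart hreach hreach1 hup
  have hg5 := pow_lower (η := δ) hδ hcm0 hθ0 hθ1 hθK (show 1 < X by omega) (j := JW δ cm X) le_rfl
  have hg5' := pow_lower (η := δ) hδ hc₁0 hθ0 hθ1 hθK (show 1 < X by omega) (j := JW δ (1 - ε / 4) X) le_rfl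
  rw [zero_add] at hiter1
  set i := JW δ (1 - ε / 4) X with hi
  set J := JW δ cm X with hJ
  rw [show i + (J - i) = J by omega] at hiter2
  set l : ℕ → ℝ := fun n => (1 - δ) * rhoW W n with hl
  have hl1 : ∀ n, l n ≤ 1 := by
    intro n
    have g1 := rhoW_nonneg W n
    have g2 := rhoW_le W n
    show (1 - δ) * rhoW W n ≤ 1
    have g3 : (1 - δ) * rhoW W n ≤ 1 * 1 := mul_le_mul (by linarith only [hδ]) g2 g1 zero_le_one
    linarith only [g3]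
  have hmono := TW_mono W δ X Y
  set T := TW W δ X Y with hT
  set E1 : Set Ω := {ω | NS A W Q (T i) ω < (1 - thW δ) ^ i * NS A W Q (T 0) ω - Q.card * (4 * Real.log X / δ) / thW δ ∧
      (∀ n, T 0 < n → n ≤ T i → ww A Q n (T 0) ω ≤ Q.card) ∧
      ∀ n, T 0 ≤ n → n < T i → dens μ ℱ A n ω ≤ (1 + δ) * rhoW W (n + 1)} with hE1
  set E3 : Set Ω := {ω | NS A W Q (T J) ω < (1 - thW δ) ^ (J - i) * NS A W Q (T i) ω - (X : ℝ) ^ ε * (4 * Real.log X / δ) / thW δ ∧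
      (∀ n, T i < n → n ≤ T J → ww A Q n (T i) ω ≤ (X : ℝ) ^ ε) ∧
      ∀ n, T i ≤ n → n < T J → dens μ ℱ A n ω ≤ (1 + δ) * rhoW W (n + 1)} with hE3
  set E2 : Set Ω := ⋃ n ∈ Finset.Ioc (T i) (T J), ({ω | (X : ℝ) ^ ε < ww A Q n (T i) ω} ∩ LBs μ ℱ A l N₁ (T i)) with hE2
  have hP2 : μ.real E2 ≤ (X : ℝ) ^ (-3 : ℝ) := by
    refine P2E2 hA l hl1 W N₁ (T i) (T J) X Q hX4 (fun q hq => ⟨(hQ q hq).1, hQX2 q hq, (hQ q hq).2.2⟩) hε0 hvv1 hTJ h6 h4 hhalf ?_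
    intro n q hq
    have g3 := hvl q (n % q) (T i) (hQX2 q hq) (hQ q hq).2.2 (by rw [hadm q hq, Finset.mem_range]; exact Nat.mod_lt _ (hQ q hq).1.pos) (by
      rw [hadm q hq, Finset.card_range]
      refine le_trans ?_ hreach1'
      have g4 : (q : ℝ) ≤ X := by exact_mod_cast (hQ q hq).2.2
      have g5 : (1 - ε / 4 - ε / 16) * (1 - κ₀) * q * Real.log X ^ 2 ≤ (1 - ε / 4 - ε / 16) * (1 - κ₀) * X * Real.log X ^ 2 := by
        apply mul_le_mul_of_nonneg_right _ (sq_nonneg _)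
        exact mul_le_mul_of_nonneg_left g4 hvc.le
      refine g5.trans (le_of_eq ?_)
      rw [hY]
      ring)
    calc (1 - δ) * ((1 - ε / 4 - ε / 16) * (1 - κ₀) * (1 - ε / 16)) * Real.log X =
          (1 - δ) * ((1 - ε / 4 - ε / 16) * (1 - κ₀) * (1 - ε / 16) * Real.log X) := by ring
      _ ≤ (1 - δ) * ∑ m ∈ cls W q (n % q) N₁ (T i), rhoW W m :=
          mul_le_mul_of_nonneg_left g3 (by linarith only [hδ1])
      _ = _ := by rw [Finset.mul_sum]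
  have hP1 : μ.real E1 ≤ (X : ℝ) ^ (-3 : ℝ) := hiter1.trans hprob1
  have hP3 : μ.real E3 ≤ (X : ℝ) ^ (-3 : ℝ) := by
    refine hiter2.trans (le_trans ?_ hprob)
    apply mul_le_mul_of_nonneg_right _ (by positivity)
    exact_mod_cast Nat.sub_le _ _
  have hsum : (X : ℝ) ^ (-3 : ℝ) + ((X : ℝ) ^ (-3 : ℝ) + (X : ℝ) ^ (-3 : ℝ)) ≤ (X : ℝ) ^ (-2 : ℝ) := by
    have g1 : (X : ℝ) ^ (-2 : ℝ) = (X : ℝ) ^ (-3 : ℝ) * X := by
      rw [show (-2 : ℝ) = -3 + 1 by norm_num, Real.rpow_add hXp, Real.rpow_one]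
    have g2 : 0 < (X : ℝ) ^ (-3 : ℝ) := Real.rpow_pos_of_pos hXp _
    rw [g1]
    have g3 := mul_le_mul_of_nonneg_left hX g2.le
    linarith only [g3, g2]
  refine (measureReal_mono (s₂ := E1 ∪ (E2 ∪ E3)) ?_ (measure_ne_top _ _)).trans
    ((measureReal_union_le _ _).trans ((add_le_add hP1 ((measureReal_union_le _ _).trans (add_le_add hP2 hP3))).trans hsum))
  clear hP1 hP2 hP3 hsum hiter1 hiter2 hvl hhalf h6 h4
  rintro ω ⟨g1, gU, gL⟩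
  by_cases hω1 : ω ∈ E1
  · exact Or.inl hω1
  by_cases hω2 : ω ∈ E2
  · exact Or.inr (Or.inl hω2)
  right
  right
  have hT00 : T 0 = tW W X := by rw [hT]; unfold TW; simp
  have hN0 : ∀ n, T 0 ≤ n → N₀ ≤ n := by
    intro n hn
    have g4 : N₁ ≤ tW W X := by exact_mod_cast h5
    omega
  have hi0 : T 0 ≤ T i := hmono (Nat.zero_le _)
  have hwwB : ∀ n, T i < n → n ≤ T J → ww A Q n (T i) ω ≤ (X : ℝ) ^ ε := by
    intro n q1 q2
    by_contra hcon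
    push Not at hcon
    apply hω2
    rw [hE2, mem_iUnion₂]
    refine ⟨n, Finset.mem_Ioc.2 ⟨q1, q2⟩, hcon, fun k hk1 hk2 => ?_⟩
    exact gL k (hN₁0.trans hk1)
  refine ⟨?_, hwwB, fun n q1 _ => gU n (hN0 n (hi0.trans q1))⟩
  have hph1 : (1 - thW δ) ^ i * NS A W Q (T 0) ω - Q.card * (4 * Real.log X / δ) / thW δ ≤ NS A W Q (T i) ω := by
    by_contra hcon
    push Not at hcon
    exact hω1 ⟨hcon, fun n _ _ => ww_le Q n _ ω, fun n q1 _ => gU n (hN0 n q1)⟩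
  have g3 : NS A W Q (T J) ω ≤ NS A W Q ⌊c * X * Real.log X ^ 2⌋₊ ω := by
    apply NS_anti
    have g5 := Nat.floor_le (show 0 ≤ c * X * Real.log X ^ 2 by positivity)
    have g6 : c / (1 - κ₀) * Y * Real.log X ^ 2 = c * X * Real.log X ^ 2 := by
      rw [hY]
      field_simp
    rw [g6] at hreach'
    exact_mod_cast g5.trans hreach'
  refine (g3.trans_lt g1).trans_le ?_
  exact P2fin hiJ hXp hc₀0 hB hY0 hθ0 hθ1 hδ h8 hQc (hstart' ω) hg5 hg5' h1 h2 h3 hph1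

end Pool.Agent.R528.RM
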