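import Mathlib
import Pool.Agent.R528.RM.Wag5
import Pool.Agent.R528.RM.RoughCount

set_option autoImplicit false
set_option linter.unusedSectionVars false

/-! # Least members of residue classes: almost sure statements -/

open MeasureTheory Filter Set
open scoped ENNReal Topology

namespace Pool.Agent.R528.RM

variable {Ω : Type} {m0 : MeasurableSpace Ω} {μ : Measure Ω} [IsProbabilityMeasure μ]
  {ℱ : Filtration ℕ m0} {A : ℕ → Set Ω}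

/-- some admissible class has no member up to `t` -/
def SvE (A : ℕ → Set Ω) (W q t : ℕ) : Set Ω := {ω | ∃ a ∈ adm W q, ω ∈ Sset A q a t}

/-- the scale of the least members -/
noncomputable def TT (W : ℕ) (c : ℝ) (q : ℕ) : ℕ := ⌊c * (adm W q).card * Real.log q ^ 2⌋₊

lemma SvE_anti {W q t t' : ℕ} (h : t ≤ t') : SvE A W q t' ⊆ SvE A W q t := by
  rintro ω ⟨a, ha, h1⟩
  exact ⟨a, ha, fun n hn => h1 n (hn.trans h)⟩

lemma TT_mono (W : ℕ) {c c' : ℝ} (h : c ≤ c') (q : ℕ) : TT W c q ≤ TT W c' q := by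
  unfold TT
  apply Nat.floor_mono
  apply mul_le_mul_of_nonneg_right _ (sq_nonneg _)
  exact mul_le_mul_of_nonneg_right h (Nat.cast_nonneg _)

lemma SvE_eq (W q t : ℕ) : SvE A W q t = ⋃ a ∈ adm W q, Sset A q a t := by
  ext ω
  simp [SvE]

lemma SvE_meas (hA : ∀ n, MeasurableSet[ℱ n] (A n)) (W q t : ℕ) : MeasurableSet (SvE A W q t) := by
  rw [SvE_eq]
  exact Finset.measurableSet_biUnion _ fun a _ => ℱ.le _ _ (Sset_meas hA q a t)

lemma LBs_meas (l : ℕ → ℝ) (N m : ℕ) : MeasurableSet (LBs μ ℱ A l N m) := by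
  have h1 : LBs μ ℱ A l N m = ⋂ n ∈ Finset.Ico N m, {ω | l (n + 1) ≤ dens μ ℱ A n ω} := by
    ext ω
    simp only [LBs, mem_ofPred_eq, mem_iInter, Finset.mem_Ico, and_imp]
  rw [h1]
  refine Finset.measurableSet_biInter _ fun n _ => ?_
  have h3 : StronglyMeasurable[ℱ n] (dens μ ℱ A n) := dens_meas n
  exact ℱ.le n _ (h3.measurable measurableSet_Ici)

lemma TT_lower {W : ℕ} (hW : 0 < W) {c δ : ℝ} (hc : 0 < c) (hδ : 0 < δ) :
    ∀ᶠ q : ℕ in atTop, c * (1 - δ) * (adm W q).card * Real.log q ^ 2 ≤ TT W c q := by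
  have hφ : (0 : ℝ) < Nat.totient W := by exact_mod_cast Nat.totient_pos.2 hW
  have hW' : (0 : ℝ) < W := by exact_mod_cast hW
  have hc₀0 : (0 : ℝ) < (Nat.totient W : ℝ) / W := by positivity
  have h1 : ∀ᶠ q : ℕ in atTop, (1 : ℝ) / (c * δ * ((Nat.totient W : ℝ) / W)) ≤ q := tendsto_natCast_atTop_atTop.eventually_ge_atTop _
  filter_upwards [h1, ev_log 1, eventually_gt_atTop 1] with q h1 h2 h3
  rw [div_le_iff₀ (by positivity)] at h1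
  have h4 := adm_card_ge hW h3
  have h5 := (Nat.lt_floor_add_one (c * (adm W q).card * Real.log q ^ 2)).le
  have h6 : 1 ≤ Real.log (q : ℝ) ^ 2 := one_le_pow₀ h2
  have h7 : (1 : ℝ) ≤ c * δ * (adm W q).card := by
    have := mul_le_mul_of_nonneg_left h4 (show 0 ≤ c * δ by positivity)
    linarith only [this, h1]
  have h8 : 1 ≤ c * δ * (adm W q).card * Real.log (q : ℝ) ^ 2 := one_le_mul_of_one_le_of_one_le h7 h6
  unfold TT
  have h9 : c * (1 - δ) * (adm W q).card * Real.log q ^ 2 =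
    c * (adm W q).card * Real.log q ^ 2 - c * δ * (adm W q).card * Real.log (q : ℝ) ^ 2 := by ring
  rw [h9]
  linarith only [h5, h8]

/-- the mass of a class up to `TT` -/
lemma mass_ev {W : ℕ} (hW : 0 < W) {c δ : ℝ} (hc : 0 < c) (hδ : 0 < δ) (hδ1 : δ < 1) (N₁ : ℕ)
    (hN : (W : ℝ) / Nat.totient W ≤ Real.log N₁) (hN1 : 1 ≤ N₁) :
    ∀ᶠ q : ℕ in atTop, ∀ a ∈ adm W q, c * (1 - δ) ^ 3 * Real.log q ≤ ∑ n ∈ cls W q a N₁ (TT W c q), (1 - δ) * rhoW W n := by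
  have h0 : 0 < 1 - δ := by linarith
  filter_upwards [v_lower hW (show 0 < c * (1 - δ) by positivity) hδ hδ1 N₁ hN hN1, TT_lower hW hc hδ] with q h1 h2 a ha
  have h3 := h1 q a (TT W c q) (by omega) le_rfl ha h2
  rw [← Finset.mul_sum]
  have h4 := mul_le_mul_of_nonneg_left h3 h0.le
  calc c * (1 - δ) ^ 3 * Real.log q = (1 - δ) * (c * (1 - δ) * (1 - δ) * Real.log q) := by ring
    _ ≤ _ := h4

lemma sve_le (hA : ∀ n, MeasurableSet[ℱ n] (A n)) {W : ℕ} (hW : 0 < W) {c δ : ℝ} (hc : 0 < c) (hδ : 0 < δ) (hδ1 : δ < 1) (N₁ : ℕ)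
    (hN : (W : ℝ) / Nat.totient W ≤ Real.log N₁) (hN1 : 1 ≤ N₁) :
    ∀ᶠ q : ℕ in atTop, μ.real (SvE A W q (TT W c q) ∩ LBs μ ℱ A (fun n => (1 - δ) * rhoW W n) N₁ (TT W c q)) ≤
      (q : ℝ) ^ (1 - c * (1 - δ) ^ 3) := by
  have h0 : 0 < 1 - δ := by linarith
  filter_upwards [mass_ev hW hc hδ hδ1 N₁ hN hN1, eventually_gt_atTop 0] with q h1 h2
  have hq : (0 : ℝ) < q := by exact_mod_cast h2
  set T := TT W c q with hT
  set l : ℕ → ℝ := fun n => (1 - δ) * rhoW W n with hl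
  have hl1 : ∀ n, l n ≤ 1 := by
    intro n
    have g1 := rhoW_nonneg W n
    have g2 := rhoW_le W n
    show (1 - δ) * rhoW W n ≤ 1
    have g3 : (1 - δ) * rhoW W n ≤ 1 * 1 := mul_le_mul (by linarith only [hδ]) g2 g1 zero_le_one
    linarith only [g3]
  have h3 : SvE A W q T ∩ LBs μ ℱ A l N₁ T ⊆ ⋃ a ∈ adm W q, ({ω | ∀ t ∈ cls W q a N₁ T, ω ∉ A t} ∩ LBs μ ℱ A l N₁ T) := by
    rintro ω ⟨⟨a, ha, h4⟩, h5⟩
    rw [mem_iUnion₂]
    refine ⟨a, ha, fun t ht => ?_, h5⟩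
    obtain ⟨⟨_, h6⟩, h7, _⟩ := mem_cls.1 ht
    exact h4 t h6 h7
  have h4 : ∀ a ∈ adm W q, μ.real ({ω | ∀ t ∈ cls W q a N₁ T, ω ∉ A t} ∩ LBs μ ℱ A l N₁ T) ≤ (q : ℝ) ^ (-(c * (1 - δ) ^ 3)) := by
    intro a ha
    refine (absent_exp hA l hl1 N₁ T _ (fun t ht => (mem_cls.1 ht).1) (h1 a ha)).trans (le_of_eq ?_)
    rw [Real.rpow_def_of_pos hq]
    ring_nf
  calc _ ≤ _ := measureReal_mono h3 (measure_ne_top _ _)
    _ ≤ ∑ a ∈ adm W q, μ.real ({ω | ∀ t ∈ cls W q a N₁ T, ω ∉ A t} ∩ LBs μ ℱ A l N₁ T) := measureReal_biUnion_finset_le _ _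
    _ ≤ ∑ a ∈ adm W q, (q : ℝ) ^ (-(c * (1 - δ) ^ 3)) := Finset.sum_le_sum h4
    _ = (adm W q).card * (q : ℝ) ^ (-(c * (1 - δ) ^ 3)) := by rw [Finset.sum_const, nsmul_eq_mul]
    _ ≤ q * (q : ℝ) ^ (-(c * (1 - δ) ^ 3)) := by
        apply mul_le_mul_of_nonneg_right _ (Real.rpow_pos_of_pos hq _).le
        exact_mod_cast adm_card_le
    _ = _ := by
        rw [show 1 - c * (1 - δ) ^ 3 = 1 + -(c * (1 - δ) ^ 3) by ring, Real.rpow_add hq, Real.rpow_one]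

lemma fewa (hA : ∀ n, MeasurableSet[ℱ n] (A n)) {W : ℕ} (hW : 0 < W) {c δ ε : ℝ} (hc : 0 < c) (hδ : 0 < δ) (hδ1 : δ < 1)
    (hε : 0 < ε) (hcδ : 1 ≤ c * (1 - δ) ^ 3) (N₁ : ℕ)
    (hN : (W : ℝ) / Nat.totient W ≤ Real.log N₁) (hN1 : 1 ≤ N₁) :
    ∀ᶠ q : ℕ in atTop, μ.real ({ω | (q : ℝ) ^ ε < ∑ a ∈ adm W q, sv A q a (TT W c q) ω} ∩
      LBs μ ℱ A (fun n => (1 - δ) * rhoW W n) N₁ (TT W c q)) ≤ (q : ℝ) ^ (-2 : ℝ) := by
  classical
  filter_upwards [mass_ev hW hc hδ hδ1 N₁ hN hN1, eventually_gt_atTop 1, half_ev hε 2, ev_pow (a := 0) (b := ε) hε (2 * Real.exp 1),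
    ev_log 0] with q h1 h2 h3 h4 h5
  have hq : (1 : ℝ) < q := by exact_mod_cast h2
  set T := TT W c q with hT
  set l : ℕ → ℝ := fun n => (1 - δ) * rhoW W n with hl
  have hl1 : ∀ n, l n ≤ 1 := by
    intro n
    have g1 := rhoW_nonneg W n
    have g2 := rhoW_le W n
    show (1 - δ) * rhoW W n ≤ 1
    have g3 : (1 - δ) * rhoW W n ≤ 1 * 1 := mul_le_mul (by linarith only [hδ]) g2 g1 zero_le_one
    linarith only [g3]
  have hB : 1 ≤ (q : ℝ) ^ ε := Real.one_le_rpow hq.le hε.le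
  have hcard : ((adm W q).card : ℝ) * Real.exp (-(c * (1 - δ) ^ 3 * Real.log q)) * Real.exp 1 ≤ (q : ℝ) ^ ε / 2 := by
    have g1 : ((adm W q).card : ℝ) ≤ q := by exact_mod_cast adm_card_le
    have g2 : Real.exp (-(c * (1 - δ) ^ 3 * Real.log q)) ≤ (q : ℝ)⁻¹ := by
      have e1 : (q : ℝ)⁻¹ = Real.exp (-Real.log q) := by rw [Real.exp_neg, Real.exp_log (by linarith)]
      rw [e1]
      apply Real.exp_le_exp.2
      have := mul_le_mul_of_nonneg_right hcδ h5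
      linarith only [this]
    have g3 : ((adm W q).card : ℝ) * Real.exp (-(c * (1 - δ) ^ 3 * Real.log q)) ≤ q * (q : ℝ)⁻¹ :=
      mul_le_mul g1 g2 (Real.exp_pos _).le (by linarith)
    rw [mul_inv_cancel₀ (by linarith)] at g3
    have g4 := mul_le_mul_of_nonneg_right g3 (Real.exp_pos 1).le
    rw [Real.rpow_zero, mul_one] at h4
    have g5 : 0 ≤ 2 * Real.exp 1 * Real.log q := mul_nonneg (by positivity) h5
    linarith only [g4, h4, g5]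
  refine (measureReal_mono ?_ (measure_ne_top _ _)).trans
    ((fam_half hA l hl1 N₁ T (adm W q) (fun a => cls W q a N₁ T) (fun a _ m hm => (mem_cls.1 hm).1) ?_ hB h1 hcard).trans h3)
  · rintro ω ⟨h6, h7⟩
    refine ⟨?_, h7⟩
    set S := (adm W q).filter (fun a => ω ∈ Sset A q a T) with hS
    have h8 : ∑ a ∈ adm W q, sv A q a T ω = S.card := by
      unfold sv
      rw [hS, Finset.card_filter]
      push_cast
      refine Finset.sum_congr rfl fun a _ => ?_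
      rw [indicator_apply]
    have h9 : ⌈(q : ℝ) ^ ε⌉₊ ≤ S.card := by
      have h5 : (q : ℝ) ^ ε < ∑ a ∈ adm W q, sv A q a T ω := h6
      rw [h8] at h5
      exact Nat.ceil_le.2 h5.le
    obtain ⟨T', hT1, hT2⟩ := Finset.exists_subset_card_eq h9
    refine ⟨T', fun a ha => (Finset.mem_filter.1 (hT1 ha)).1, hT2, fun a ha m hm => ?_⟩
    have h10 : ω ∈ Sset A q a T := (Finset.mem_filter.1 (hT1 ha)).2
    obtain ⟨⟨_, g7⟩, g8, _⟩ := mem_cls.1 hm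
    exact h10 m g7 g8
  · intro a _ b _ hab
    rw [Finset.disjoint_left]
    intro m hm hm'
    exact hab ((mem_cls.1 hm).2.1.symm.trans (mem_cls.1 hm').2.1)

/-! ### the hypothesis on the densities -/

/-- bounds for all large `n` -/
lemma dens_two {ω : Ω} {W : ℕ} (h : ∀ ε : ℝ, 0 < ε → ∀ᶠ n : ℕ in atTop, |dens μ ℱ A n ω - rhoW W (n + 1)| ≤ ε * rhoW W (n + 1))
    {δ : ℝ} (hδ : 0 < δ) : ∃ N₀ : ℕ, ∀ N, N₀ ≤ N → (∀ n, N ≤ n → dens μ ℱ A n ω ≤ (1 + δ) * rhoW W (n + 1)) ∧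
      ∀ n, N ≤ n → (1 - δ) * rhoW W (n + 1) ≤ dens μ ℱ A n ω := by
  obtain ⟨N₀, hN₀⟩ := eventually_atTop.1 (h δ hδ)
  refine ⟨N₀, fun N hN => ⟨fun n hn => ?_, fun n hn => ?_⟩⟩
  · have := (abs_le.1 (hN₀ n (hN.trans hn))).2
    linarith only [this]
  · have := (abs_le.1 (hN₀ n (hN.trans hn))).1
    linarith only [this]

lemma summable_pow_nat {s : ℝ} (hs : s < -1) : Summable (fun n : ℕ => (n : ℝ) ^ s) := Real.summable_nat_rpow.2 hs

/-- no survivors beyond `2` -/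
theorem F1 (hA : ∀ n, MeasurableSet[ℱ n] (A n)) {W : ℕ} (hW : 0 < W)
    (hd : ∀ᵐ ω ∂μ, ∀ ε : ℝ, 0 < ε → ∀ᶠ n : ℕ in atTop, |dens μ ℱ A n ω - rhoW W (n + 1)| ≤ ε * rhoW W (n + 1))
    {c : ℝ} (hc : 2 < c) : ∀ᵐ ω ∂μ, ∀ᶠ q : ℕ in atTop, ω ∉ SvE A W q (TT W c q) := by
  set δ : ℝ := (c - 2) / (4 * c) with hδ
  have hc0 : 0 < c := by linarith
  have hδ0 : 0 < δ := by rw [hδ]; apply div_pos (by linarith) (by linarith)
  have hδc : c * δ = (c - 2) / 4 := by rw [hδ]; field_simp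
  have hδ1 : δ < 1 := by
    rw [hδ, div_lt_one (by linarith)]
    linarith
  have hexp : 2 < c * (1 - δ) ^ 3 := by
    have h1 : 1 - 3 * δ ≤ (1 - δ) ^ 3 := by nlinarith only [sq_nonneg δ, hδ0, hδ1, mul_nonneg (sq_nonneg δ) (sub_nonneg.2 hδ1.le)]
    have h2 := mul_le_mul_of_nonneg_left h1 hc0.le
    have h3 : c * (1 - 3 * δ) = c - 3 * (c * δ) := by ring
    rw [h3, hδc] at h2
    linarith only [h2, hc]
  have h1 : ∀ N₀ : ℕ, ∀ᵐ ω ∂μ, ∀ᶠ q : ℕ in atTop, ω ∉ SvE A W q (TT W c q) ∩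
      LBs μ ℱ A (fun n => (1 - δ) * rhoW W n) (Classical.choose (exists_N₁ W N₀)) (TT W c q) := by
    intro N₀
    obtain ⟨g1, g2, g3⟩ := Classical.choose_spec (exists_N₁ W N₀)
    exact bc_real (summable_pow_nat (by linarith)) (sve_le hA hW hc0 hδ0 hδ1 _ g3 g2)
  filter_upwards [ae_all_iff.2 h1, hd] with ω h1 h2
  obtain ⟨N₀, hN₀⟩ := dens_two h2 hδ0
  obtain ⟨g1, g2, g3⟩ := Classical.choose_spec (exists_N₁ W N₀)
  filter_upwards [h1 N₀] with q hq h3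
  exact hq ⟨h3, fun n hn _ => (hN₀ _ g1).2 n hn⟩

/-- few surviving classes for each modulus -/
theorem F4 (hA : ∀ n, MeasurableSet[ℱ n] (A n)) {W : ℕ} (hW : 0 < W)
    (hd : ∀ᵐ ω ∂μ, ∀ ε : ℝ, 0 < ε → ∀ᶠ n : ℕ in atTop, |dens μ ℱ A n ω - rhoW W (n + 1)| ≤ ε * rhoW W (n + 1))
    {c ε : ℝ} (hc : 1 < c) (hε : 0 < ε) : ∀ᵐ ω ∂μ, ∀ᶠ q : ℕ in atTop, ∑ a ∈ adm W q, sv A q a (TT W c q) ω ≤ (q : ℝ) ^ ε := by
  set δ : ℝ := (c - 1) / (4 * c) with hδ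
  have hc0 : 0 < c := by linarith
  have hδ0 : 0 < δ := by rw [hδ]; apply div_pos (by linarith) (by linarith)
  have hδc : c * δ = (c - 1) / 4 := by rw [hδ]; field_simp
  have hδ1 : δ < 1 := by
    rw [hδ, div_lt_one (by linarith)]
    linarith
  have hexp : 1 ≤ c * (1 - δ) ^ 3 := by
    have h1 : 1 - 3 * δ ≤ (1 - δ) ^ 3 := by nlinarith only [sq_nonneg δ, hδ0, hδ1, mul_nonneg (sq_nonneg δ) (sub_nonneg.2 hδ1.le)]
    have h2 := mul_le_mul_of_nonneg_left h1 hc0.le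
    have h3 : c * (1 - 3 * δ) = c - 3 * (c * δ) := by ring
    rw [h3, hδc] at h2
    linarith only [h2, hc]
  have h1 : ∀ N₀ : ℕ, ∀ᵐ ω ∂μ, ∀ᶠ q : ℕ in atTop, ω ∉ {ω | (q : ℝ) ^ ε < ∑ a ∈ adm W q, sv A q a (TT W c q) ω} ∩
      LBs μ ℱ A (fun n => (1 - δ) * rhoW W n) (Classical.choose (exists_N₁ W N₀)) (TT W c q) := by
    intro N₀
    obtain ⟨g1, g2, g3⟩ := Classical.choose_spec (exists_N₁ W N₀)
    exact bc_real (summable_pow_nat (by norm_num)) (fewa hA hW hc0 hδ0 hδ1 hε hexp _ g3 g2)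
  filter_upwards [ae_all_iff.2 h1, hd] with ω h1 h2
  obtain ⟨N₀, hN₀⟩ := dens_two h2 hδ0
  obtain ⟨g1, g2, g3⟩ := Classical.choose_spec (exists_N₁ W N₀)
  filter_upwards [h1 N₀] with q hq
  by_contra hcon
  push Not at hcon
  exact hq ⟨hcon, fun n hn _ => (hN₀ _ g1).2 n hn⟩

/-- survivors below `1` for every modulus -/
theorem F2 (hA : ∀ n, MeasurableSet[ℱ n] (A n)) {W : ℕ} (hW : 0 < W)
    (hd : ∀ᵐ ω ∂μ, ∀ ε : ℝ, 0 < ε → ∀ᶠ n : ℕ in atTop, |dens μ ℱ A n ω - rhoW W (n + 1)| ≤ ε * rhoW W (n + 1))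
    {c : ℝ} (hc0 : 0 < c) (hc : c < 1) : ∀ᵐ ω ∂μ, ∀ᶠ q : ℕ in atTop, ω ∈ SvE A W q (TT W c q) := by
  obtain ⟨δ, hδ, hδ'⟩ := phase1 (μ := μ) (ℱ := ℱ) hA hW hc0 (show c < (c + 1) / 2 by linarith) (by linarith)
  have h1 : ∀ N₀ : ℕ, ∀ᵐ ω ∂μ, ∀ᶠ q : ℕ in atTop, ω ∉ {ω | NS A W {q} ⌊c * (adm W q).card * Real.log q ^ 2⌋₊ ω <
      ({q} : Finset ℕ).card * (q : ℝ) ^ (1 - (c + 1) / 2) ∧ ∀ n, N₀ ≤ n → dens μ ℱ A n ω ≤ (1 + δ) * rhoW W (n + 1)} := by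
    intro N₀
    refine bc_real (summable_pow_nat (show (-3 : ℝ) < -1 by norm_num)) ?_
    filter_upwards [hδ' δ hδ le_rfl N₀, eventually_gt_atTop 1] with q hq hq1
    refine hq (adm W q).card {q} ?_ ?_
    · have g1 := adm_card_ge hW hq1
      have g2 : (0 : ℝ) ≤ q * (Nat.totient W / W) := by positivity
      linarith only [g1, g2]
    · intro q' hq'
      rw [Finset.mem_singleton] at hq'
      subst hq'
      exact ⟨by omega, le_rfl, le_rfl⟩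
  filter_upwards [ae_all_iff.2 h1, hd] with ω h1 h2
  obtain ⟨N₀, hN₀⟩ := dens_two h2 hδ
  filter_upwards [h1 N₀, eventually_gt_atTop 0] with q hq hq0
  by_contra hcon
  apply hq
  refine ⟨?_, fun n hn => (hN₀ _ le_rfl).1 n hn⟩
  have hq' : (0 : ℝ) < q := by exact_mod_cast hq0
  have h3 : NS A W {q} ⌊c * (adm W q).card * Real.log q ^ 2⌋₊ ω = 0 := by
    unfold NS
    rw [Finset.sum_singleton]
    refine Finset.sum_eq_zero fun a ha => ?_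
    unfold sv
    rw [indicator_of_notMem]
    intro h4
    exact hcon ⟨a, ha, h4⟩
  rw [h3, Finset.card_singleton, Nat.cast_one, one_mul]
  exact Real.rpow_pos_of_pos hq' _

end Pool.Agent.R528.RM
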