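import Mathlib
import Pool.Agent.R528.RM.Wag6

set_option autoImplicit false
set_option linter.unusedSectionVars false

/-! # Exponential martingales with stopped tilts -/

open MeasureTheory Filter Set
open scoped ENNReal Topology

namespace Pool.Agent.R528.RM

variable {Ω : Type} {m0 : MeasurableSpace Ω} {μ : Measure Ω} [IsProbabilityMeasure μ]
  {ℱ : Filtration ℕ m0} {A : ℕ → Set Ω}

/-- the densities follow the profile between `N` and `n` -/
def Gs (μ : Measure Ω) (ℱ : Filtration ℕ m0) (A : ℕ → Set Ω) (ρ : ℕ → ℝ) (δ : ℝ) (N n : ℕ) : Set Ω :=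
  {ω | ∀ m, N ≤ m → m ≤ n → (1 - δ) * ρ (m + 1) ≤ dens μ ℱ A m ω ∧ dens μ ℱ A m ω ≤ (1 + δ) * ρ (m + 1)}

lemma Gs_meas (ρ : ℕ → ℝ) (δ : ℝ) (N n : ℕ) : MeasurableSet[ℱ n] (Gs μ ℱ A ρ δ N n) := by
  have h1 : Gs μ ℱ A ρ δ N n = ⋂ m ∈ Finset.Icc N n, ({ω | (1 - δ) * ρ (m + 1) ≤ dens μ ℱ A m ω} ∩
      {ω | dens μ ℱ A m ω ≤ (1 + δ) * ρ (m + 1)}) := by
    ext ω
    simp only [Gs, mem_ofPred_eq, mem_iInter, Finset.mem_Icc, and_imp, mem_inter_iff]
  rw [h1]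
  refine Finset.measurableSet_biInter _ fun m hm => ?_
  have h2 := (Finset.mem_Icc.1 hm).2
  have h3 : StronglyMeasurable[ℱ m] (dens μ ℱ A m) := dens_meas m
  exact ℱ.mono h2 _ (@MeasurableSet.inter _ (ℱ m) _ _ (h3.measurable measurableSet_Ici) (h3.measurable measurableSet_Iic))

/-- its indicator -/
noncomputable def gi (μ : Measure Ω) (ℱ : Filtration ℕ m0) (A : ℕ → Set Ω) (ρ : ℕ → ℝ) (δ : ℝ) (N n : ℕ) (ω : Ω) : ℝ :=
  (Gs μ ℱ A ρ δ N n).indicator (fun _ => (1 : ℝ)) ω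

lemma gi_meas (ρ : ℕ → ℝ) (δ : ℝ) (N n : ℕ) : StronglyMeasurable[ℱ n] (gi μ ℱ A ρ δ N n) :=
  (@stronglyMeasurable_const _ _ (ℱ n) _ _).indicator (Gs_meas ρ δ N n)

lemma gi_cases (ρ : ℕ → ℝ) (δ : ℝ) (N n : ℕ) (ω : Ω) : (ω ∉ Gs μ ℱ A ρ δ N n ∧ gi μ ℱ A ρ δ N n ω = 0) ∨
    (ω ∈ Gs μ ℱ A ρ δ N n ∧ gi μ ℱ A ρ δ N n ω = 1) := by
  by_cases h : ω ∈ Gs μ ℱ A ρ δ N n
  · exact Or.inr ⟨h, by unfold gi; rw [indicator_of_mem h]⟩
  · exact Or.inl ⟨h, by unfold gi; rw [indicator_of_notMem h]⟩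

lemma gi_nonneg (ρ : ℕ → ℝ) (δ : ℝ) (N n : ℕ) (ω : Ω) : 0 ≤ gi μ ℱ A ρ δ N n ω := indicator_nonneg (fun _ _ => zero_le_one) _

lemma gi_le (ρ : ℕ → ℝ) (δ : ℝ) (N n : ℕ) (ω : Ω) : gi μ ℱ A ρ δ N n ω ≤ 1 := indicator_le_self' (fun _ _ => zero_le_one) ω

/-- the exponent -/
noncomputable def Zt (μ : Measure Ω) (ℱ : Filtration ℕ m0) (A : ℕ → Set Ω) (ρ : ℕ → ℝ) (δ : ℝ) (t : ℕ → ℝ) (N M : ℕ) (ω : Ω) : ℝ :=
  ∑ k ∈ Finset.range M, gi μ ℱ A ρ δ N (N + k) ω * (t (N + k + 1) * In A (N + k + 1) ω -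
    Real.log (1 + (Real.exp (t (N + k + 1)) - 1) * dens μ ℱ A (N + k) ω))

/-- the denominators are bounded below -/
lemma den_pos {t d : ℝ} (_ht : |t| ≤ 1) (hd0 : 0 ≤ d) (hd1 : d ≤ 1 / 8) : 1 / 2 ≤ 1 + (Real.exp t - 1) * d := by
  have h1 : 0 < Real.exp t := Real.exp_pos t
  nlinarith

lemma term_bound {t d I : ℝ} (ht : |t| ≤ 1) (hd0 : 0 ≤ d) (hd1 : d ≤ 1 / 8) (hI0 : 0 ≤ I) (hI1 : I ≤ 1) :
    t * I - Real.log (1 + (Real.exp t - 1) * d) ≤ 2 := by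
  have h1 := den_pos ht hd0 hd1
  have h2 : Real.log (1 / 2) ≤ Real.log (1 + (Real.exp t - 1) * d) := Real.log_le_log (by norm_num) h1
  have h3 : Real.log (1 / 2) = -Real.log 2 := by rw [one_div, Real.log_inv]
  have h4 : Real.log 2 ≤ 1 := by linarith [Real.log_two_lt_d9]
  have h5 : t * I ≤ 1 := by
    have := (le_abs_self t).trans ht
    nlinarith
  linarith

variable {ρ : ℕ → ℝ} {δ : ℝ} {N : ℕ}

lemma on_Gs (hρ : ∀ n, 0 ≤ ρ n) (hδ0 : 0 ≤ δ) (hδ1 : δ ≤ 1) (hsm : ∀ m, N ≤ m → (1 + δ) * ρ (m + 1) ≤ 1 / 8) {n : ℕ} (hn : N ≤ n)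
    {ω : Ω} (hω : ω ∈ Gs μ ℱ A ρ δ N n) : 0 ≤ dens μ ℱ A n ω ∧ dens μ ℱ A n ω ≤ 1 / 8 := by
  obtain ⟨h1, h2⟩ := hω n hn le_rfl
  have := hρ (n + 1)
  exact ⟨le_trans (mul_nonneg (by linarith) this) h1, h2.trans (hsm n hn)⟩

lemma Zt_bound (hρ : ∀ n, 0 ≤ ρ n) (hδ0 : 0 ≤ δ) (hδ1 : δ ≤ 1) (hsm : ∀ m, N ≤ m → (1 + δ) * ρ (m + 1) ≤ 1 / 8)
    {t : ℕ → ℝ} (ht : ∀ n, |t n| ≤ 1) (M : ℕ) (ω : Ω) : Zt μ ℱ A ρ δ t N M ω ≤ 2 * M := by
  unfold Zt
  have h1 : ∀ k ∈ Finset.range M, gi μ ℱ A ρ δ N (N + k) ω * (t (N + k + 1) * In A (N + k + 1) ω -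
    Real.log (1 + (Real.exp (t (N + k + 1)) - 1) * dens μ ℱ A (N + k) ω)) ≤ 2 := by
    intro k _
    rcases gi_cases (μ := μ) (ℱ := ℱ) (A := A) ρ δ N (N + k) ω with ⟨_, h2⟩ | ⟨h1, h2⟩
    · rw [h2, zero_mul]; norm_num
    · rw [h2, one_mul]
      obtain ⟨h3, h4⟩ := on_Gs hρ hδ0 hδ1 hsm (Nat.le_add_right _ _) h1
      exact term_bound (ht _) h3 h4 (In_nonneg _ _) (In_le _ _)
  refine (Finset.sum_le_sum h1).trans ?_
  rw [Finset.sum_const, Finset.card_range, nsmul_eq_mul, mul_comm]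

lemma Zt_meas (hA : ∀ n, MeasurableSet[ℱ n] (A n)) (t : ℕ → ℝ) (M : ℕ) : StronglyMeasurable[ℱ (N + M)] (Zt μ ℱ A ρ δ t N M) := by
  have h1 : Zt μ ℱ A ρ δ t N M = ∑ k ∈ Finset.range M, (gi μ ℱ A ρ δ N (N + k) * fun ω => (t (N + k + 1) * In A (N + k + 1) ω -
    Real.log (1 + (Real.exp (t (N + k + 1)) - 1) * dens μ ℱ A (N + k) ω))) := by
    funext ω
    simp [Zt]
  rw [h1]
  refine Finset.stronglyMeasurable_sum _ fun k hk => ?_
  have hk' := Finset.mem_range.1 hk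
  have h2 : StronglyMeasurable[ℱ (N + M)] (gi μ ℱ A ρ δ N (N + k)) := (gi_meas ρ δ N (N + k)).mono (ℱ.mono (by omega))
  have h3 : StronglyMeasurable[ℱ (N + M)] (In A (N + k + 1)) := In_meas hA (by omega)
  have h4 : StronglyMeasurable[ℱ (N + M)] (dens μ ℱ A (N + k)) := (dens_meas _).mono (ℱ.mono (by omega))
  have h5 : StronglyMeasurable[ℱ (N + M)] (fun ω => Real.log (1 + (Real.exp (t (N + k + 1)) - 1) * dens μ ℱ A (N + k) ω)) := by
    have h6 : Measurable[ℱ (N + M)] (fun ω => 1 + (Real.exp (t (N + k + 1)) - 1) * dens μ ℱ A (N + k) ω) :=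
      ((h4.const_mul _).measurable).const_add 1
    exact (Real.measurable_log.comp h6).stronglyMeasurable
  have h7 : StronglyMeasurable[ℱ (N + M)] (fun ω => (t (N + k + 1) * In A (N + k + 1) ω -
    Real.log (1 + (Real.exp (t (N + k + 1)) - 1) * dens μ ℱ A (N + k) ω))) :=
    @StronglyMeasurable.sub _ _ _ _ (ℱ (N + M)) _ _ _ (h3.const_mul _) h5
  exact @StronglyMeasurable.mul _ _ _ _ (ℱ (N + M)) _ _ _ h2 h7

/-- the martingale property -/
theorem Zt_one (hA : ∀ n, MeasurableSet[ℱ n] (A n)) (hρ : ∀ n, 0 ≤ ρ n) (hδ0 : 0 ≤ δ) (hδ1 : δ ≤ 1)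
    (hsm : ∀ m, N ≤ m → (1 + δ) * ρ (m + 1) ≤ 1 / 8)
    {t : ℕ → ℝ} (ht : ∀ n, |t n| ≤ 1) (M : ℕ) : ∫ ω, Real.exp (Zt μ ℱ A ρ δ t N M ω) ∂μ = 1 := by
  have hEm : ∀ M, StronglyMeasurable[ℱ (N + M)] (fun ω => Real.exp (Zt μ ℱ A ρ δ t N M ω)) := fun M =>
    Real.continuous_exp.comp_stronglyMeasurable (Zt_meas hA t M)
  have hbd : ∀ M, ∀ ω, Real.exp (Zt μ ℱ A ρ δ t N M ω) ≤ Real.exp (2 * M) := fun M ω =>
    Real.exp_le_exp.2 (Zt_bound hρ hδ0 hδ1 hsm ht M ω)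
  induction M with
  | zero => simp [Zt]
  | succ M ih =>
    set D := dens μ ℱ A (N + M) with hD
    set I := (A (N + M + 1)).indicator (fun _ => (1 : ℝ)) with hI
    set g := gi μ ℱ A ρ δ N (N + M) with hg
    set E : Ω → ℝ := fun ω => Real.exp (Zt μ ℱ A ρ δ t N M ω) with hE
    set c : ℝ := Real.exp (t (N + M + 1)) - 1 with hc
    set f : Ω → ℝ := fun ω => E ω * (g ω * (1 + c * D ω)⁻¹) with hf
    have hpt : ∀ ω, Real.exp (Zt μ ℱ A ρ δ t N (M + 1) ω) = E ω * (1 - g ω) + (f ω + c * (f ω * I ω)) := by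
      intro ω
      have h1 : Zt μ ℱ A ρ δ t N (M + 1) ω = Zt μ ℱ A ρ δ t N M ω + g ω * (t (N + M + 1) * In A (N + M + 1) ω -
          Real.log (1 + c * D ω)) := by
        unfold Zt
        rw [Finset.sum_range_succ]
      rw [h1, Real.exp_add]
      rcases gi_cases (μ := μ) (ℱ := ℱ) (A := A) ρ δ N (N + M) ω with ⟨_, h2⟩ | ⟨h1, h2⟩
      · rw [← hg] at h2
        simp only [hf, hE]
        rw [h2]
        simp
      · rw [← hg] at h2
        obtain ⟨h3, h4⟩ := on_Gs hρ hδ0 hδ1 hsm (Nat.le_add_right _ _) h1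
        have h5 := den_pos (ht (N + M + 1)) h3 h4
        simp only [hf, hE]
        rw [h2, one_mul, Real.exp_sub, Real.exp_log (by linarith)]
        have hI' : In A (N + M + 1) ω = I ω := rfl
        rw [hI']
        rcases Set.indicator_eq_zero_or_self (A (N + M + 1)) (fun _ => (1 : ℝ)) ω with h | h
        · rw [← hI] at h
          rw [h]
          simp
        · rw [← hI] at h
          rw [h, mul_one, hc]
          simp only [sub_self, mul_zero, zero_add, one_mul, mul_one]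
          field_simp
          ring
    -- measurability
    have hgm : StronglyMeasurable[ℱ (N + M)] g := gi_meas ρ δ N (N + M)
    have hDm : StronglyMeasurable[ℱ (N + M)] D := dens_meas _
    have hinv : StronglyMeasurable[ℱ (N + M)] (fun ω => (1 + c * D ω)⁻¹) := by
      have h6 : Measurable[ℱ (N + M)] (fun ω => 1 + c * D ω) := ((hDm.const_mul c).measurable).const_add 1
      exact (measurable_inv.comp h6).stronglyMeasurable
    have hgi : StronglyMeasurable[ℱ (N + M)] (fun ω => g ω * (1 + c * D ω)⁻¹) :=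
      @StronglyMeasurable.mul _ _ _ _ (ℱ (N + M)) _ _ _ hgm hinv
    have hfm : StronglyMeasurable[ℱ (N + M)] f := @StronglyMeasurable.mul _ _ _ _ (ℱ (N + M)) _ _ _ (hEm M) hgi
    set B : ℝ := Real.exp (2 * M) * 2 with hB
    have hfb : ∀ ω, ‖f ω‖ ≤ B := by
      intro ω
      simp only [hf]
      rw [norm_mul, hB]
      refine mul_le_mul ?_ ?_ (norm_nonneg _) (Real.exp_pos _).le
      · rw [Real.norm_eq_abs, abs_of_pos (Real.exp_pos _)]
        exact hbd M ω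
      · rcases gi_cases (μ := μ) (ℱ := ℱ) (A := A) ρ δ N (N + M) ω with ⟨_, h2⟩ | ⟨h1, h2⟩
        · rw [← hg] at h2
          rw [h2]
          simp
        · rw [← hg] at h2
          obtain ⟨h3, h4⟩ := on_Gs hρ hδ0 hδ1 hsm (Nat.le_add_right _ _) h1
          have h5 := den_pos (ht (N + M + 1)) h3 h4
          rw [h2, one_mul, Real.norm_eq_abs, abs_of_pos (by positivity)]
          rw [inv_le_comm₀ (by linarith) (by norm_num)]
          linarith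
    have hpull := pull_A (μ := μ) hA (N + M) hfm B (Eventually.of_forall hfb)
    have hfam : AEStronglyMeasurable f μ := (hfm.mono (ℱ.le _)).aestronglyMeasurable
    have hEam : AEStronglyMeasurable E μ := ((hEm M).mono (ℱ.le _)).aestronglyMeasurable
    have hgam : AEStronglyMeasurable g μ := (hgm.mono (ℱ.le _)).aestronglyMeasurable
    have hDam : AEStronglyMeasurable D μ := (hDm.mono (ℱ.le _)).aestronglyMeasurable
    have hIam : AEStronglyMeasurable I μ :=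
      ((stronglyMeasurable_const.indicator (ℱ.le _ _ (hA (N + M + 1))))).aestronglyMeasurable
    have h01 := dens01 (μ := μ) (ℱ := ℱ) hA (N + M)
    have iE : Integrable E μ := Integrable.of_bound hEam (Real.exp (2 * M)) (Eventually.of_forall fun ω => by
      rw [Real.norm_eq_abs, abs_of_pos (Real.exp_pos _)]
      exact hbd M ω)
    have iEg : Integrable (fun ω => E ω * (1 - g ω)) μ := by
      refine Integrable.of_bound (hEam.mul (aestronglyMeasurable_const.sub hgam)) (Real.exp (2 * M)) (Eventually.of_forall fun ω => ?_)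
      rw [norm_mul]
      have h1 : ‖1 - g ω‖ ≤ 1 := by
        rw [Real.norm_eq_abs, abs_le]
        have := gi_nonneg (μ := μ) (ℱ := ℱ) (A := A) ρ δ N (N + M) ω
        have := gi_le (μ := μ) (ℱ := ℱ) (A := A) ρ δ N (N + M) ω
        constructor <;> linarith
      calc ‖E ω‖ * ‖1 - g ω‖ ≤ Real.exp (2 * M) * 1 := by
            refine mul_le_mul ?_ h1 (norm_nonneg _) (Real.exp_pos _).le
            rw [Real.norm_eq_abs, abs_of_pos (Real.exp_pos _)]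
            exact hbd M ω
        _ = _ := mul_one _
    have if0 : Integrable f μ := Integrable.of_bound hfam B (Eventually.of_forall hfb)
    have ifI : Integrable (fun ω => f ω * I ω) μ := by
      refine Integrable.of_bound (hfam.mul hIam) B (Eventually.of_forall fun ω => ?_)
      rw [norm_mul]
      have hI1 : ‖I ω‖ ≤ 1 := by
        rw [Real.norm_eq_abs, abs_of_nonneg (indicator_nonneg (fun _ _ => zero_le_one) _)]
        exact indicator_le_self' (fun _ _ => zero_le_one) ω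
      calc _ ≤ B * 1 := mul_le_mul (hfb ω) hI1 (norm_nonneg _) (by positivity)
        _ = _ := mul_one _
    have ifD : Integrable (fun ω => f ω * D ω) μ := by
      refine Integrable.of_bound (hfam.mul hDam) B ?_
      filter_upwards [h01] with ω h2
      rw [norm_mul]
      have hD1 : ‖D ω‖ ≤ 1 := by
        rw [Real.norm_eq_abs, abs_of_nonneg h2.1]
        exact h2.2
      calc _ ≤ B * 1 := mul_le_mul (hfb ω) hD1 (norm_nonneg _) (by positivity)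
        _ = _ := mul_one _
    have e1 : ∫ ω, Real.exp (Zt μ ℱ A ρ δ t N (M + 1) ω) ∂μ = ∫ ω, (E ω * (1 - g ω) + (f ω + c * (f ω * I ω))) ∂μ :=
      integral_congr_ae (Eventually.of_forall hpt)
    have e2 : ∫ ω, (E ω * (1 - g ω) + (f ω + c * (f ω * I ω))) ∂μ = ∫ ω, E ω * (1 - g ω) ∂μ + (∫ ω, f ω ∂μ + c * ∫ ω, f ω * I ω ∂μ) := by
      have g1 : ∫ ω, (E ω * (1 - g ω) + (f ω + c * (f ω * I ω))) ∂μ =
          ∫ ω, E ω * (1 - g ω) ∂μ + ∫ ω, (f ω + c * (f ω * I ω)) ∂μ := integral_add iEg (if0.add (ifI.const_mul c))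
      have g2 : ∫ ω, (f ω + c * (f ω * I ω)) ∂μ = ∫ ω, f ω ∂μ + ∫ ω, c * (f ω * I ω) ∂μ := integral_add if0 (ifI.const_mul c)
      rw [g1, g2, integral_const_mul]
    have e3 : ∫ ω, (E ω * (1 - g ω) + (f ω + c * (f ω * D ω))) ∂μ = ∫ ω, E ω * (1 - g ω) ∂μ + (∫ ω, f ω ∂μ + c * ∫ ω, f ω * D ω ∂μ) := by
      have g1 : ∫ ω, (E ω * (1 - g ω) + (f ω + c * (f ω * D ω))) ∂μ =
          ∫ ω, E ω * (1 - g ω) ∂μ + ∫ ω, (f ω + c * (f ω * D ω)) ∂μ := integral_add iEg (if0.add (ifD.const_mul c))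
      have g2 : ∫ ω, (f ω + c * (f ω * D ω)) ∂μ = ∫ ω, f ω ∂μ + ∫ ω, c * (f ω * D ω) ∂μ := integral_add if0 (ifD.const_mul c)
      rw [g1, g2, integral_const_mul]
    rw [e1, e2, hpull, ← e3]
    have e4 : ∀ ω, E ω * (1 - g ω) + (f ω + c * (f ω * D ω)) = E ω := by
      intro ω
      simp only [hf]
      rcases gi_cases (μ := μ) (ℱ := ℱ) (A := A) ρ δ N (N + M) ω with ⟨_, h2⟩ | ⟨h1, h2⟩
      · rw [← hg] at h2
        rw [h2]
        simp
      · rw [← hg] at h2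
        obtain ⟨h3, h4⟩ := on_Gs hρ hδ0 hδ1 hsm (Nat.le_add_right _ _) h1
        have h5 := den_pos (ht (N + M + 1)) h3 h4
        rw [h2]
        have h6 : 1 + c * D ω ≠ 0 := by
          have : 1 / 2 ≤ 1 + c * D ω := h5
          linarith
        field_simp
        ring
    rw [integral_congr_ae (Eventually.of_forall e4)]
    exact ih

/-! ### the cumulant -/

/-- the centered cumulant -/
noncomputable def Lc (t d : ℝ) : ℝ := Real.log (1 + (Real.exp t - 1) * d) - t * d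

lemma Lc_le {t d : ℝ} (ht : |t| ≤ 1) (hd0 : 0 ≤ d) (hd1 : d ≤ 1 / 8) : Lc t d ≤ t ^ 2 / 2 * (1 + |t|) * d := by
  have h1 := den_pos ht hd0 hd1
  have h2 := Real.log_le_sub_one_of_pos (show 0 < 1 + (Real.exp t - 1) * d by linarith)
  have h3 := Real.exp_bound ht (n := 3) (by norm_num)
  have h4 : ∑ m ∈ Finset.range 3, t ^ m / (m.factorial : ℝ) = 1 + t + t ^ 2 / 2 := by
    simp [Finset.sum_range_succ, Nat.factorial]
  rw [h4] at h3
  have h5 := (abs_le.1 h3).2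
  have h6 : |t| ^ 3 * (((3 : ℕ).succ : ℝ) / (((3 : ℕ).factorial : ℝ) * (3 : ℕ))) ≤ |t| ^ 3 / 2 := by
    have : (((3 : ℕ).succ : ℝ) / (((3 : ℕ).factorial : ℝ) * (3 : ℕ))) = 2 / 9 := by
      simp [Nat.factorial]
      norm_num
    rw [this]
    have : 0 ≤ |t| ^ 3 := by positivity
    linarith
  have h7 : |t| ^ 3 = t ^ 2 * |t| := by
    rw [← sq_abs]; ring
  unfold Lc
  have h8 : Real.exp t - 1 - t ≤ t ^ 2 / 2 * (1 + |t|) := by
    rw [h7] at h6
    linarith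
  have h9 := mul_le_mul_of_nonneg_right h8 hd0
  linarith

lemma Lc_ge {t d : ℝ} (ht0 : 0 ≤ t) (ht : t ≤ 1) (hd0 : 0 ≤ d) : t ^ 2 / 2 * (1 - 4 * d) * d ≤ Lc t d := by
  have h1 : 1 + t + t ^ 2 / 2 ≤ Real.exp t := Real.quadratic_le_exp_of_nonneg ht0
  have h2 : Real.exp t - 1 ≤ 2 * t := by
    have h3 := Real.abs_exp_sub_one_sub_id_le (x := t) (by rw [abs_of_nonneg ht0]; exact ht)
    have h4 := (abs_le.1 h3).2
    nlinarith
  have hu0 : 0 ≤ (Real.exp t - 1) * d := mul_nonneg (by linarith [Real.add_one_le_exp t]) hd0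
  have h3 : (Real.exp t - 1) * d - ((Real.exp t - 1) * d) ^ 2 / 2 ≤ Real.log (1 + (Real.exp t - 1) * d) := by
    set u := (Real.exp t - 1) * d
    have h4 := Real.le_log_one_add_of_nonneg hu0
    refine le_trans ?_ h4
    rw [le_div_iff₀ (by linarith)]
    nlinarith [mul_nonneg hu0 (mul_nonneg hu0 hu0)]
  have h4 : ((Real.exp t - 1) * d) ^ 2 ≤ (2 * t * d) ^ 2 := by
    apply pow_le_pow_left₀ hu0
    exact mul_le_mul_of_nonneg_right h2 hd0
  unfold Lc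
  have h5 : t ^ 2 / 2 * d ≤ (Real.exp t - 1 - t) * d := mul_le_mul_of_nonneg_right (by linarith) hd0
  have h6 : t ^ 2 / 2 * (1 - 4 * d) * d = t ^ 2 / 2 * d - (2 * t * d) ^ 2 / 2 := by ring
  rw [h6]
  linarith

end Pool.Agent.R528.RM
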