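import Mathlib
import Pool.Agent.R528.RM.EH1

set_option autoImplicit false
set_option linter.unusedSectionVars false
set_option linter.unusedVariables false

/-! # Uniform bounds for the centered counts in classes -/

open MeasureTheory Filter Set
open scoped ENNReal Topology

namespace Pool.Agent.R528.RM

variable {Ω : Type} {m0 : MeasurableSpace Ω} {μ : Measure Ω} [IsProbabilityMeasure μ]
  {ℱ : Filtration ℕ m0} {A : ℕ → Set Ω}

/-- the centered count of the set `R` -/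
noncomputable def CS (μ : Measure Ω) (ℱ : Filtration ℕ m0) (A : ℕ → Set Ω) (R : Finset ℕ) (ω : Ω) : ℝ :=
  ∑ n ∈ R, (In A n ω - dens μ ℱ A (n - 1) ω)

/-- the sum of the densities over the set `R` -/
noncomputable def VS (μ : Measure Ω) (ℱ : Filtration ℕ m0) (A : ℕ → Set Ω) (R : Finset ℕ) (ω : Ω) : ℝ :=
  ∑ n ∈ R, dens μ ℱ A (n - 1) ω

/-- the weights of the set `R` -/
noncomputable def wR {Ω : Type} (R : Finset ℕ) (k : ℕ) (_ω : Ω) : ℝ := if 0 + k + 1 ∈ R then 1 else 0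

lemma Sw_CS {R : Finset ℕ} {M : ℕ} (hR : ∀ n ∈ R, 0 < n ∧ n ≤ M) (ω : Ω) : Sw μ ℱ A 0 (wR R) M ω = CS μ ℱ A R ω := by
  have h1 := sum_R_eq (ρ := fun n => In A n ω - dens μ ℱ A (n - 1) ω) (N := 0) R M (fun n hn => by
    obtain ⟨h1, h2⟩ := hR n hn
    exact ⟨h1, by omega⟩)
  unfold CS
  rw [← h1]
  unfold Sw wR In
  refine Finset.sum_congr rfl fun k _ => ?_
  split_ifs
  · rw [one_mul, show 0 + k + 1 - 1 = 0 + k by omega]
  · rw [zero_mul]

lemma Vw_VS {R : Finset ℕ} {M : ℕ} (hR : ∀ n ∈ R, 0 < n ∧ n ≤ M) (ω : Ω) : Vw μ ℱ A 0 (wR R) M ω = VS μ ℱ A R ω := by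
  have h1 := sum_R_eq (ρ := fun n => dens μ ℱ A (n - 1) ω) (N := 0) R M (fun n hn => by
    obtain ⟨h1, h2⟩ := hR n hn
    exact ⟨h1, by omega⟩)
  unfold VS
  rw [← h1]
  unfold Vw wR
  refine Finset.sum_congr rfl fun k _ => ?_
  split_ifs
  · rw [one_mul, show 0 + k + 1 - 1 = 0 + k by omega]
  · rw [zero_mul]

theorem CS_tail (hA : ∀ n, MeasurableSet[ℱ n] (A n)) {R : Finset ℕ} (hR : ∀ n ∈ R, 0 < n) {V₀ lam : ℝ} (hV : 0 ≤ V₀)
    (hl : 0 < lam) :
    μ.real ({ω | VS μ ℱ A R ω ≤ V₀} ∩ {ω | 2 * √(lam * V₀) + 2 * lam ≤ |CS μ ℱ A R ω|}) ≤ 2 * Real.exp (-lam) := by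
  set M : ℕ := R.sup id with hM
  have hR' : ∀ n ∈ R, 0 < n ∧ n ≤ M := fun n hn => ⟨hR n hn, Finset.le_sup (f := id) hn⟩
  have key : ∀ s : ℝ, 0 < s → s ≤ 1 → s * V₀ + lam / s ≤ 2 * √(lam * V₀) + 2 * lam →
      μ.real ({ω | VS μ ℱ A R ω ≤ V₀} ∩ {ω | 2 * √(lam * V₀) + 2 * lam ≤ |CS μ ℱ A R ω|}) ≤ 2 * Real.exp (-lam) := by
    intro s hs hs1 h
    refine (measureReal_mono ?_ (measure_ne_top _ _)).trans
      (Cw_tail (μ := μ) (ℱ := ℱ) (A := A) hA 0 (wR R) (fun k => @stronglyMeasurable_const _ _ (ℱ (0 + k)) _ _)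
        (fun k ω => by unfold wR; split_ifs <;> simp) hs hs1 M lam)
    rintro ω ⟨h1, h2⟩
    have h1' : VS μ ℱ A R ω ≤ V₀ := h1
    have h2' : 2 * √(lam * V₀) + 2 * lam ≤ |CS μ ℱ A R ω| := h2
    show s * Vw μ ℱ A 0 (wR R) M ω + lam / s ≤ |Sw μ ℱ A 0 (wR R) M ω|
    rw [Vw_VS hR', Sw_CS hR']
    have h3 := mul_le_mul_of_nonneg_left h1' hs.le
    linarith only [h3, h, h2']
  by_cases hc : lam ≤ V₀
  · have hV0 : 0 < V₀ := lt_of_lt_of_le hl hc
    have hs0 : 0 < √(lam / V₀) := Real.sqrt_pos.2 (div_pos hl hV0)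
    refine key (√(lam / V₀)) hs0 ?_ ?_
    · rw [Real.sqrt_le_one]
      rw [div_le_one hV0]
      exact hc
    · have e1 : √(lam / V₀) * V₀ = √(lam * V₀) := by
        have h5 : lam * V₀ = lam / V₀ * V₀ ^ 2 := by field_simp
        rw [h5, Real.sqrt_mul (by positivity), Real.sqrt_sq hV0.le]
      have e2 : lam / √(lam / V₀) = √(lam * V₀) := by
        rw [div_eq_iff hs0.ne']
        have := Real.mul_self_sqrt (show 0 ≤ lam / V₀ by positivity)
        calc lam = lam / V₀ * V₀ := by field_simp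
          _ = √(lam / V₀) * √(lam / V₀) * V₀ := by rw [this]
          _ = (√(lam / V₀) * V₀) * √(lam / V₀) := by ring
          _ = √(lam * V₀) * √(lam / V₀) := by rw [e1]
      rw [e1, e2]
      linarith only [hl]
  · push Not at hc
    refine key 1 one_pos le_rfl ?_
    have := Real.sqrt_nonneg (lam * V₀)
    rw [one_mul, div_one]
    linarith only [this, hc]

lemma cls_card_le {W q a s t : ℕ} (hW : 0 < W) (hq : 0 < q) (hst : s ≤ t) :
    ((cls W q a s t).card : ℝ) ≤ ((t : ℝ) - s) / q + 2 * W := by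
  have hW' : (0 : ℝ) < W := by exact_mod_cast hW
  have hq' : (0 : ℝ) < q := by exact_mod_cast hq
  have h1 := (cls_card (a := a) hW hq hst).2
  have h2 : (KC W q a : ℝ) ≤ W := by exact_mod_cast KC_le
  have hst' : (s : ℝ) ≤ t := by exact_mod_cast hst
  have h3 : (((t : ℝ) - s) / (q * W) + 2) * KC W q a ≤ (((t : ℝ) - s) / (q * W) + 2) * W :=
    mul_le_mul_of_nonneg_left h2 (add_nonneg (div_nonneg (by linarith only [hst']) (by positivity)) (by norm_num))
  have h4 : (((t : ℝ) - s) / (q * W) + 2) * W = ((t : ℝ) - s) / q + 2 * W := by field_simp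
  linarith only [h1, h3, h4]

lemma cls_split {W q a s r t : ℕ} (h1 : s ≤ r) (h2 : r ≤ t) : cls W q a s t = cls W q a s r ∪ cls W q a r t := by
  ext n
  rw [Finset.mem_union, mem_cls, mem_cls, mem_cls]
  constructor
  · rintro ⟨⟨h3, h4⟩, h5⟩
    by_cases h : n ≤ r
    · exact Or.inl ⟨⟨h3, h⟩, h5⟩
    · exact Or.inr ⟨⟨by omega, h4⟩, h5⟩
  · rintro (⟨⟨h3, h4⟩, h5⟩ | ⟨⟨h3, h4⟩, h5⟩)
    · exact ⟨⟨h3, by omega⟩, h5⟩
    · exact ⟨⟨by omega, h4⟩, h5⟩

lemma cls_disj {W q a s r t : ℕ} : Disjoint (cls W q a s r) (cls W q a r t) := by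
  rw [Finset.disjoint_left]
  intro n h1 h2
  have := (mem_cls.1 h1).1.2
  have := (mem_cls.1 h2).1.1
  omega

lemma cls_sum {W q a s r t : ℕ} (h1 : s ≤ r) (h2 : r ≤ t) (f : ℕ → ℝ) :
    ∑ n ∈ cls W q a s t, f n = ∑ n ∈ cls W q a s r, f n + ∑ n ∈ cls W q a r t, f n := by
  rw [cls_split h1 h2, Finset.sum_union cls_disj]

/-- the sum of the densities over the classes -/
lemma VS_le {ω : Ω} {W : ℕ} (hW : 0 < W) (h01 : ∀ n, 0 ≤ dens μ ℱ A n ω ∧ dens μ ℱ A n ω ≤ 1)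
    (hd : ∀ᶠ n : ℕ in atTop, dens μ ℱ A n ω ≤ 2 * rhoW W (n + 1)) :
    ∀ᶠ j : ℕ in atTop, ∀ s t : ℕ, s ≤ t → j ≤ t → (s = 0 ∨ √(j : ℝ) ≤ s) → ∀ q : ℕ, 1 ≤ q → ∀ a : ℕ,
      VS μ ℱ A (cls W q a s t) ω ≤ 12 * (W : ℝ) ^ 2 * (((t : ℝ) - s) / (q * Real.log j) + 1) := by
  obtain ⟨n₀, hn₀⟩ := eventually_atTop.1 hd
  have hW' : (1 : ℝ) ≤ W := by exact_mod_cast hW
  have hφ : (1 : ℝ) ≤ Nat.totient W := by exact_mod_cast Nat.totient_pos.2 hW
  have hev : ∀ᶠ j : ℕ in atTop, (((n₀ + 1 : ℕ) : ℝ)) ^ 2 ≤ (j : ℝ) := tendsto_natCast_atTop_atTop.eventually_ge_atTop _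
  filter_upwards [hev, ev_log 1, ev_pow (a := 1 / 2) (b := 1) (by norm_num) 1] with j h1 h2 h3 s t hst hjt hs q hq a
  have hj0 : (0 : ℝ) < j := by
    have : (0 : ℝ) < (((n₀ + 1 : ℕ) : ℝ)) ^ 2 := by positivity
    linarith only [this, h1]
  have hsq : ((n₀ + 1 : ℕ) : ℝ) ≤ √(j : ℝ) := Real.le_sqrt_of_sq_le h1
  have hq' : (1 : ℝ) ≤ q := by exact_mod_cast hq
  have hl0 : 0 < Real.log (j : ℝ) := by linarith only [h2]
  -- the densities beyond `√j`
  have hdens : ∀ n : ℕ, √(j : ℝ) < n → dens μ ℱ A (n - 1) ω ≤ 4 * W / Real.log j := by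
    intro n hn
    have g1 : n₀ + 1 ≤ n := by
      have : ((n₀ + 1 : ℕ) : ℝ) ≤ n := hsq.trans hn.le
      exact_mod_cast this
    have g2 := hn₀ (n - 1) (by omega)
    rw [show n - 1 + 1 = n by omega] at g2
    have hsj : 0 < √(j : ℝ) := Real.sqrt_pos.2 hj0
    have g3 : Real.log j / 2 ≤ Real.log n := by
      rw [← Real.log_sqrt hj0.le]
      exact Real.log_le_log hsj hn.le
    have g4 : rhoW W n ≤ 2 * W / Real.log j := by
      unfold rhoW
      split_ifs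
      · refine (min_le_right _ _).trans ?_
        rw [div_le_div_iff₀ (by linarith only [g3, hl0]) hl0]
        have e1 : (W : ℝ) / Nat.totient W ≤ W := div_le_self (by linarith only [hW']) hφ
        have e2 : (W : ℝ) / Nat.totient W * Real.log j ≤ W * Real.log j := mul_le_mul_of_nonneg_right e1 hl0.le
        have e3 : (W : ℝ) * Real.log j ≤ W * (2 * Real.log n) := mul_le_mul_of_nonneg_left (by linarith only [g3]) (by linarith only [hW'])
        linarith only [e2, e3]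
      · positivity
    calc dens μ ℱ A (n - 1) ω ≤ 2 * rhoW W n := g2
      _ ≤ 2 * (2 * W / Real.log j) := by linarith only [g4]
      _ = 4 * W / Real.log j := by ring
  -- sums beyond `√j`
  have htail : ∀ r : ℕ, r ≤ t → √(j : ℝ) ≤ r → VS μ ℱ A (cls W q a r t) ω ≤ 4 * W * (((t : ℝ) - r) / (q * Real.log j)) + 8 * (W : ℝ) ^ 2 := by
    intro r hrt hr
    unfold VS
    have g1 : ∀ n ∈ cls W q a r t, dens μ ℱ A (n - 1) ω ≤ 4 * W / Real.log j := by
      intro n hn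
      apply hdens
      have := (mem_cls.1 hn).1.1
      refine lt_of_le_of_lt hr ?_
      exact_mod_cast this
    refine (Finset.sum_le_sum g1).trans ?_
    rw [Finset.sum_const, nsmul_eq_mul]
    have g2 := cls_card_le (a := a) hW (show 0 < q by omega) hrt
    have g3 : ((cls W q a r t).card : ℝ) * (4 * W / Real.log j) ≤ (((t : ℝ) - r) / q + 2 * W) * (4 * W / Real.log j) :=
      mul_le_mul_of_nonneg_right g2 (by positivity)
    refine g3.trans ?_
    have g4 : (((t : ℝ) - r) / q + 2 * W) * (4 * W / Real.log j) = 4 * W * (((t : ℝ) - r) / (q * Real.log j)) + 8 * (W : ℝ) ^ 2 / Real.log j := by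
      field_simp
      ring
    rw [g4]
    have g5 : 8 * (W : ℝ) ^ 2 / Real.log j ≤ 8 * (W : ℝ) ^ 2 := div_le_self (by positivity) h2
    linarith only [g5]
  have hst' : (s : ℝ) ≤ t := by exact_mod_cast hst
  have hWW : (W : ℝ) ≤ (W : ℝ) ^ 2 := by nlinarith only [hW']
  rcases hs with hs | hs
  · subst hs
    set r : ℕ := ⌈√(j : ℝ)⌉₊ with hr
    have hrj : r ≤ j := by
      rw [hr]
      apply Nat.ceil_le.2
      rw [Real.sqrt_le_left hj0.le]
      have : (1 : ℝ) ≤ j := by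
        have h5 : (1 : ℝ) ≤ (((n₀ + 1 : ℕ) : ℝ)) ^ 2 := by
          have : (1 : ℝ) ≤ ((n₀ + 1 : ℕ) : ℝ) := by exact_mod_cast (by omega : 1 ≤ n₀ + 1)
          nlinarith only [this]
        exact h5.trans h1
      nlinarith only [this]
    have hrt : r ≤ t := hrj.trans hjt
    have g1 := htail r hrt (Nat.le_ceil _)
    have g2 : VS μ ℱ A (cls W q a 0 t) ω = VS μ ℱ A (cls W q a 0 r) ω + VS μ ℱ A (cls W q a r t) ω := cls_sum (Nat.zero_le _) hrt _
    have g3 : VS μ ℱ A (cls W q a 0 r) ω ≤ (cls W q a 0 r).card := by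
      unfold VS
      refine (Finset.sum_le_sum fun n _ => (h01 (n - 1)).2).trans ?_
      rw [Finset.sum_const, nsmul_eq_mul, mul_one]
    have g4 := cls_card_le (a := a) hW (show 0 < q by omega) (Nat.zero_le r)
    have g5 : (r : ℝ) ≤ √(j : ℝ) + 1 := (Nat.ceil_lt_add_one (Real.sqrt_nonneg _)).le
    have g6 : √(j : ℝ) ≤ j / Real.log j := by
      rw [le_div_iff₀ hl0]
      rw [Real.rpow_one, ← Real.sqrt_eq_rpow] at h3
      have : 0 ≤ √(j : ℝ) := Real.sqrt_nonneg _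
      nlinarith only [h3, this]
    have g7 : ((r : ℝ) - (0 : ℕ)) / q ≤ (t : ℝ) / (q * Real.log j) + 1 := by
      have e1 : ((r : ℝ) - (0 : ℕ)) / q ≤ (j / Real.log j + 1) / q := by
        apply div_le_div_of_nonneg_right _ (by linarith only [hq'])
        push_cast
        linarith only [g5, g6]
      have e2 : (j / Real.log j + 1) / (q : ℝ) = (j : ℝ) / (q * Real.log j) + 1 / q := by
        field_simp
      have e3 : 1 / (q : ℝ) ≤ 1 := by
        rw [div_le_one (by linarith only [hq'])]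
        exact hq'
      have e4 : (j : ℝ) / (q * Real.log j) ≤ (t : ℝ) / (q * Real.log j) := by
        apply div_le_div_of_nonneg_right _ (by positivity)
        exact_mod_cast hjt
      linarith only [e1, e2, e3, e4]
    have g8 : ((t : ℝ) - r) / (q * Real.log j) ≤ (t : ℝ) / (q * Real.log j) := by
      apply div_le_div_of_nonneg_right _ (by positivity)
      have : (0 : ℝ) ≤ r := Nat.cast_nonneg _
      linarith only [this]
    have g9 : (0 : ℝ) ≤ (t : ℝ) / (q * Real.log j) := by positivity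
    rw [g2, Nat.cast_zero, sub_zero]
    have g10 : 4 * (W : ℝ) * (((t : ℝ) - r) / (q * Real.log j)) ≤ 4 * W * ((t : ℝ) / (q * Real.log j)) :=
      mul_le_mul_of_nonneg_left g8 (by positivity)
    have g11 : (1 + 4 * (W : ℝ)) * ((t : ℝ) / (q * Real.log j)) ≤ 12 * (W : ℝ) ^ 2 * ((t : ℝ) / (q * Real.log j)) :=
      mul_le_mul_of_nonneg_right (by linarith only [hWW, hW']) g9
    linarith only [g1, g3, g4, g7, g10, g11, hWW, hW']
  · have g1 := htail s hst hs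
    have g9 : (0 : ℝ) ≤ ((t : ℝ) - s) / (q * Real.log j) := div_nonneg (by linarith only [hst']) (by positivity)
    have g11 : 4 * (W : ℝ) * (((t : ℝ) - s) / (q * Real.log j)) ≤ 12 * (W : ℝ) ^ 2 * (((t : ℝ) - s) / (q * Real.log j)) :=
      mul_le_mul_of_nonneg_right (by linarith only [hWW, hW']) g9
    have g12 : 0 ≤ 4 * (W : ℝ) ^ 2 := by positivity
    linarith only [g1, g11, g12]

/-- **uniform bound** -/
theorem UB (hA : ∀ n, MeasurableSet[ℱ n] (A n)) {W : ℕ} (hW : 0 < W)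
    (hd : ∀ᵐ ω ∂μ, ∀ ε : ℝ, 0 < ε → ∀ᶠ n : ℕ in atTop, |dens μ ℱ A n ω - rhoW W (n + 1)| ≤ ε * rhoW W (n + 1))
    (s t : ℕ → ℕ) (hst : ∀ j, s j ≤ t j) (htj : ∀ j, j ≤ t j) (hs : ∀ j, s j = 0 ∨ √(j : ℝ) ≤ s j) :
    ∀ᵐ ω ∂μ, ∀ᶠ j : ℕ in atTop, ∀ q : ℕ, 1 ≤ q → q ≤ j → ∀ a, a < q →
      |CS μ ℱ A (cls W q a (s j) (t j)) ω| ≤ (16 * (W : ℝ) + 10) * (√(((t j : ℝ) - s j) / q) + Real.log j) := by
  classical
  have hW' : (1 : ℝ) ≤ W := by exact_mod_cast hW
  set V₀ : ℕ → ℕ → ℝ := fun j q => 12 * (W : ℝ) ^ 2 * (((t j : ℝ) - s j) / (q * Real.log j) + 1) with hV₀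
  have hb : ∀ᶠ j : ℕ in atTop, μ.real {ω | ∃ q ∈ Finset.range (j + 1), ∃ a ∈ Finset.range j,
      VS μ ℱ A (cls W q a (s j) (t j)) ω ≤ V₀ j q ∧
      2 * √(5 * Real.log j * V₀ j q) + 2 * (5 * Real.log j) ≤ |CS μ ℱ A (cls W q a (s j) (t j)) ω|} ≤ 4 * (j : ℝ) ^ (-3 : ℝ) := by
    filter_upwards [ev_log 1, eventually_ge_atTop 1] with j h1 h2
    have hj : (1 : ℝ) ≤ j := by exact_mod_cast h2
    have hl : 0 < 5 * Real.log (j : ℝ) := by linarith only [h1]
    have hst' : (s j : ℝ) ≤ t j := by exact_mod_cast hst j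
    have hV : ∀ q, 0 ≤ V₀ j q := by
      intro q
      have : 0 ≤ ((t j : ℝ) - s j) / (q * Real.log j) := div_nonneg (by linarith only [hst']) (by positivity)
      simp only [hV₀]
      positivity
    set B : ℕ → ℕ → Set Ω := fun q a => {ω | VS μ ℱ A (cls W q a (s j) (t j)) ω ≤ V₀ j q} ∩
      {ω | 2 * √(5 * Real.log j * V₀ j q) + 2 * (5 * Real.log j) ≤ |CS μ ℱ A (cls W q a (s j) (t j)) ω|} with hB
    have hBle : ∀ q a, μ.real (B q a) ≤ 2 * Real.exp (-(5 * Real.log j)) := fun q a =>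
      CS_tail hA (fun n hn => by have := (mem_cls.1 hn).1.1; omega) (hV q) hl
    have hsub : {ω | ∃ q ∈ Finset.range (j + 1), ∃ a ∈ Finset.range j,
      VS μ ℱ A (cls W q a (s j) (t j)) ω ≤ V₀ j q ∧
      2 * √(5 * Real.log j * V₀ j q) + 2 * (5 * Real.log j) ≤ |CS μ ℱ A (cls W q a (s j) (t j)) ω|} ⊆
        ⋃ q ∈ Finset.range (j + 1), ⋃ a ∈ Finset.range j, B q a := by
      rintro ω ⟨q, hq, a, ha, h3⟩
      exact mem_biUnion hq (mem_biUnion ha h3)
    refine (measureReal_mono hsub (measure_ne_top _ _)).trans ?_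
    refine (measureReal_biUnion_finset_le _ _).trans ?_
    refine (Finset.sum_le_sum fun q _ => measureReal_biUnion_finset_le _ _).trans ?_
    refine (Finset.sum_le_sum fun q _ => Finset.sum_le_sum fun a _ => hBle q a).trans ?_
    rw [Finset.sum_const, Finset.sum_const, Finset.card_range, Finset.card_range, nsmul_eq_mul, nsmul_eq_mul]
    have e1 : Real.exp (-(5 * Real.log j)) = (j : ℝ) ^ (-5 : ℝ) := by
      rw [Real.rpow_def_of_pos (by linarith only [hj])]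
      congr 1
      ring
    rw [e1]
    have e2 : (j : ℝ) ^ (-3 : ℝ) = (j : ℝ) * (j : ℝ) * (j : ℝ) ^ (-5 : ℝ) := by
      rw [show (-3 : ℝ) = 1 + 1 + (-5) by norm_num, Real.rpow_add (by linarith only [hj]), Real.rpow_add (by linarith only [hj]), Real.rpow_one]
    rw [e2]
    have e3 : 0 ≤ (j : ℝ) ^ (-5 : ℝ) := by positivity
    push_cast
    have e4 : ((j : ℝ) + 1) * ((j : ℝ) * (2 * (j : ℝ) ^ (-5 : ℝ))) ≤ (2 * j) * ((j : ℝ) * (2 * (j : ℝ) ^ (-5 : ℝ))) :=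
      mul_le_mul_of_nonneg_right (by linarith only [hj]) (by positivity)
    linarith only [e4]
  have h2 := bc_real (μ := μ) ((summable_pow_nat (s := -3) (by norm_num)).mul_left 4) hb
  have h01 : ∀ᵐ ω ∂μ, ∀ n, 0 ≤ dens μ ℱ A n ω ∧ dens μ ℱ A n ω ≤ 1 := ae_all_iff.2 fun n => dens01 hA n
  filter_upwards [h2, h01, hd] with ω g1 g2 g3
  have hd2 : ∀ᶠ n : ℕ in atTop, dens μ ℱ A n ω ≤ 2 * rhoW W (n + 1) := by
    filter_upwards [g3 1 one_pos] with n hn
    have := (abs_le.1 hn).2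
    linarith only [this]
  filter_upwards [g1, VS_le hW g2 hd2, ev_log 1, eventually_ge_atTop 1] with j k1 k2 k3 k4 q hq hqj a ha
  have hj : (1 : ℝ) ≤ j := by exact_mod_cast k4
  have hq' : (1 : ℝ) ≤ q := by exact_mod_cast hq
  have hst' : (s j : ℝ) ≤ t j := by exact_mod_cast hst j
  have k5 := k2 (s j) (t j) (hst j) (htj j) (hs j) q hq a
  have k6 : |CS μ ℱ A (cls W q a (s j) (t j)) ω| < 2 * √(5 * Real.log j * V₀ j q) + 2 * (5 * Real.log j) := by
    by_contra hcon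
    push Not at hcon
    exact k1 ⟨q, Finset.mem_range.2 (by omega), a, Finset.mem_range.2 (by omega), k5, hcon⟩
  refine k6.le.trans ?_
  set h : ℝ := ((t j : ℝ) - s j) / q with hh
  have hh0 : 0 ≤ h := div_nonneg (by linarith only [hst']) (by linarith only [hq'])
  have hl0 : 0 < Real.log (j : ℝ) := by linarith only [k3]
  have e1 : 5 * Real.log j * V₀ j q = 60 * (W : ℝ) ^ 2 * (h + Real.log j) := by
    simp only [hV₀, hh]
    field_simp
    ring
  have e2 : √(5 * Real.log j * V₀ j q) ≤ 8 * W * (√h + Real.log j) := by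
    rw [e1]
    apply Real.sqrt_le_iff.2
    refine ⟨by positivity, ?_⟩
    have f1 := Real.sq_sqrt hh0
    have f2 : 0 ≤ √h := Real.sqrt_nonneg _
    have f3 : Real.log (j : ℝ) ≤ Real.log j ^ 2 := by nlinarith only [k3]
    have f4 : h + Real.log j ≤ (√h + Real.log j) ^ 2 := by nlinarith only [f1, f3, mul_nonneg f2 hl0.le]
    have f5 : (0 : ℝ) ≤ (W : ℝ) ^ 2 := by positivity
    have f6 := mul_le_mul_of_nonneg_left f4 f5
    have f7 : 0 ≤ (W : ℝ) ^ 2 * (√h + Real.log j) ^ 2 := by positivity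
    nlinarith only [f6, f7]
  have e3 : 0 ≤ √h := Real.sqrt_nonneg _
  nlinarith only [e2, e3, hl0]

end Pool.Agent.R528.RM
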