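import Mathlib
import Pool.Agent.R528.RM.EH2

set_option autoImplicit false
set_option linter.unusedSectionVars false
set_option linter.unusedVariables false

/-! # Means of the counts in classes and the two tail estimates -/

open MeasureTheory Filter Set
open scoped ENNReal Topology

namespace Pool.Agent.R528.RM

variable {Ω : Type} {m0 : MeasurableSpace Ω} {μ : Measure Ω} [IsProbabilityMeasure μ]
  {ℱ : Filtration ℕ m0} {A : ℕ → Set Ω}

lemma adm_ne (W : ℕ) {q : ℕ} (hq : 0 < q) : (adm W q).Nonempty := by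
  rcases Nat.lt_or_ge 1 q with h | h
  · exact ⟨1, adm_nonempty h⟩
  · have : q = 1 := by omega
    subst this
    exact ⟨0, by rw [mem_adm]; simp⟩

lemma adm_pos (W : ℕ) {q : ℕ} (hq : 0 < q) : (0 : ℝ) < (adm W q).card := by
  exact_mod_cast Finset.card_pos.2 (adm_ne W hq)

lemma adm_ge {W q : ℕ} (hW : 0 < W) (hq : 0 < q) : (q : ℝ) * (Nat.totient W / W) ≤ (adm W q).card := by
  obtain ⟨a, ha⟩ := adm_ne W hq
  have h1 := KC_mul hW ha
  have h2 : KC W q a ≤ W := KC_le
  have hW' : (0 : ℝ) < W := by exact_mod_cast hW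
  rw [mul_div_assoc', div_le_iff₀ hW']
  have h3 : (KC W q a : ℝ) * (adm W q).card = q * Nat.totient W := by exact_mod_cast h1
  rw [← h3]
  have h4 : (KC W q a : ℝ) ≤ W := by exact_mod_cast h2
  nlinarith only [h4, Nat.cast_nonneg (α := ℝ) (adm W q).card]

lemma rho_cls1 {W q a s t : ℕ} (hW : 0 < W) (hq : 0 < q) (ha : a ∈ adm W q) (hst : s ≤ t)
    (hs : (W : ℝ) / Nat.totient W ≤ Real.log s) (hs1 : 1 ≤ s) :
    (((t : ℝ) - s) - 2 * (q * W)) / ((adm W q).card * Real.log t) ≤ ∑ n ∈ cls W q a s t, rhoW W n ∧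
    ∑ n ∈ cls W q a s t, rhoW W n ≤ (((t : ℝ) - s) + 2 * (q * W)) / ((adm W q).card * Real.log s) := by
  have hφ : (0 : ℝ) < Nat.totient W := by exact_mod_cast Nat.totient_pos.2 hW
  have hW' : (0 : ℝ) < W := by exact_mod_cast hW
  have hq' : (0 : ℝ) < q := by exact_mod_cast (by omega : 0 < q)
  have hc : 0 < (W : ℝ) / Nat.totient W := by positivity
  have hls : 0 < Real.log s := lt_of_lt_of_le hc hs
  have hs1' : (1 : ℝ) ≤ s := by exact_mod_cast hs1
  have hst' : (s : ℝ) ≤ t := by exact_mod_cast hst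
  have hlt : Real.log s ≤ Real.log t := Real.log_le_log (by linarith) hst'
  have hcard : (0 : ℝ) < (adm W q).card := adm_pos W hq
  have hKC : (KC W q a : ℝ) * (adm W q).card = q * Nat.totient W := by exact_mod_cast KC_mul hW ha
  have hKC' : (KC W q a : ℝ) = q * Nat.totient W / (adm W q).card := by
    field_simp
    linarith
  obtain ⟨h1, h2⟩ := cls_card (W := W) (q := q) (a := a) hW (by omega) hst
  have hval : ∀ n ∈ cls W q a s t, ((W : ℝ) / Nat.totient W) / Real.log t ≤ rhoW W n ∧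
      rhoW W n ≤ ((W : ℝ) / Nat.totient W) / Real.log s := by
    intro n hn
    obtain ⟨⟨h3, h4⟩, _, h5⟩ := mem_cls.1 hn
    have h3' : (s : ℝ) ≤ n := by exact_mod_cast h3.le
    have h4' : (n : ℝ) ≤ t := by exact_mod_cast h4
    have g1 : Real.log s ≤ Real.log n := Real.log_le_log (by linarith) h3'
    have g2 : Real.log n ≤ Real.log t := Real.log_le_log (by linarith) h4'
    have g3 : ((W : ℝ) / Nat.totient W) / Real.log n ≤ 1 := by
      rw [div_le_one (by linarith)]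
      linarith
    unfold rhoW
    rw [if_pos h5, min_eq_right g3]
    constructor
    · exact div_le_div_of_nonneg_left hc.le (by linarith) g2
    · exact div_le_div_of_nonneg_left hc.le hls g1
  constructor
  · calc (((t : ℝ) - s) - 2 * (q * W)) / ((adm W q).card * Real.log t) =
          ((((t : ℝ) - s) / (q * W) - 2) * KC W q a) * (((W : ℝ) / Nat.totient W) / Real.log t) := by
            rw [hKC']
            field_simp
      _ ≤ ((cls W q a s t).card : ℝ) * (((W : ℝ) / Nat.totient W) / Real.log t) := by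
            apply mul_le_mul_of_nonneg_right h1
            have : 0 < Real.log t := by linarith
            positivity
      _ = ∑ n ∈ cls W q a s t, (((W : ℝ) / Nat.totient W) / Real.log t) := by
            rw [Finset.sum_const, nsmul_eq_mul]
      _ ≤ _ := Finset.sum_le_sum fun n hn => (hval n hn).1
  · calc ∑ n ∈ cls W q a s t, rhoW W n ≤ ∑ n ∈ cls W q a s t, (((W : ℝ) / Nat.totient W) / Real.log s) :=
            Finset.sum_le_sum fun n hn => (hval n hn).2
      _ = ((cls W q a s t).card : ℝ) * (((W : ℝ) / Nat.totient W) / Real.log s) := by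
            rw [Finset.sum_const, nsmul_eq_mul]
      _ ≤ ((((t : ℝ) - s) / (q * W) + 2) * KC W q a) * (((W : ℝ) / Nat.totient W) / Real.log s) := by
            apply mul_le_mul_of_nonneg_right h2
            positivity
      _ = _ := by
            rw [hKC']
            field_simp

/-- the upper bound for the means -/
noncomputable def vx (W : ℕ) (δ : ℝ) (x q : ℕ) : ℝ := (1 + δ) * x / ((adm W q).card * Real.log x)

lemma v_bounds {W : ℕ} (hW : 0 < W) {β δ : ℝ} (hβ1 : β < 1) (hδ : 0 < δ) (hδ1 : δ ≤ 1) (N₀ : ℕ)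
    (hN : (W : ℝ) / Nat.totient W ≤ Real.log N₀) (hN1 : 1 ≤ N₀) :
    ∀ᶠ x : ℕ in atTop, ∀ q : ℕ, 1 ≤ q → (q : ℝ) ≤ (x : ℝ) ^ β → ∀ a ∈ adm W q,
      (1 - δ) * x / ((adm W q).card * Real.log x) ≤ ∑ n ∈ cls W q a N₀ x, rhoW W n ∧
      ∑ n ∈ cls W q a N₀ x, rhoW W n ≤ vx W δ x q := by
  have hφ : (0 : ℝ) < Nat.totient W := by exact_mod_cast Nat.totient_pos.2 hW
  have hW' : (0 : ℝ) < W := by exact_mod_cast hW
  have hφW : (Nat.totient W : ℝ) ≤ W := by exact_mod_cast Nat.totient_le W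
  have hc1 : 1 ≤ (W : ℝ) / Nat.totient W := by
    rw [le_div_iff₀ hφ]
    linarith only [hφW]
  have hl0 : 1 ≤ Real.log N₀ := hc1.trans hN
  set b : ℝ := max β (1 - δ / 4) with hb
  have hb1 : b < 1 := max_lt hβ1 (by linarith)
  filter_upwards [ev_pow (a := b) (b := 1) hb1 ((8 / δ) * (2 * W + 2 + N₀)), ev_log 1, eventually_ge_atTop N₀, eventually_ge_atTop 1,
    ev_pow (a := 0) (b := 1 - δ / 4) (by linarith) (N₀ + 1)] with x h1 h2 h3 h4 h5 q hq hqx a ha
  have hx : (1 : ℝ) ≤ x := by exact_mod_cast h4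
  have hxp : (0 : ℝ) < x := by linarith only [hx]
  have hlx : 0 < Real.log (x : ℝ) := by linarith only [h2]
  have hcard := adm_pos W (q := q) (by omega)
  rw [Real.rpow_one] at h1
  rw [Real.rpow_zero, mul_one] at h5
  have hN0 : (0 : ℝ) ≤ N₀ := Nat.cast_nonneg _
  have hxb0 : 1 ≤ (x : ℝ) ^ b := by
    refine Real.one_le_rpow hx ?_
    exact le_trans (by linarith only [hδ1]) (le_max_right β (1 - δ / 4))
  have hqb : (q : ℝ) ≤ (x : ℝ) ^ b := hqx.trans (Real.rpow_le_rpow_of_exponent_le hx (le_max_left _ _))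
  have hs1b : (x : ℝ) ^ (1 - δ / 4) ≤ (x : ℝ) ^ b := Real.rpow_le_rpow_of_exponent_le hx (le_max_right _ _)
  have herr : ((2 * W + 2 + N₀) : ℝ) * (x : ℝ) ^ b * (Real.log x + 1) ≤ δ / 8 * x := by
    have := mul_le_mul_of_nonneg_left h1 (show 0 ≤ δ / 8 by positivity)
    have e1 : δ / 8 * (8 / δ * (2 * W + 2 + N₀) * (Real.log x + 1) * (x : ℝ) ^ b) = ((2 * W + 2 + N₀) : ℝ) * (x : ℝ) ^ b * (Real.log x + 1) := by
      field_simp
    linarith only [this, e1]
  have herr1 : (N₀ : ℝ) + 2 * (q * W) ≤ δ / 8 * x := by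
    have e1 : (N₀ : ℝ) ≤ N₀ * (x : ℝ) ^ b := by nlinarith only [hN0, hxb0]
    have e2 : (q : ℝ) * W ≤ (x : ℝ) ^ b * W := mul_le_mul_of_nonneg_right hqb hW'.le
    have e3 : ((2 * W + 2 + N₀) : ℝ) * (x : ℝ) ^ b * 1 ≤ ((2 * W + 2 + N₀) : ℝ) * (x : ℝ) ^ b * (Real.log x + 1) := by
      apply mul_le_mul_of_nonneg_left (by linarith only [hlx])
      positivity
    linarith only [herr, e1, e2, e3, hxb0]
  constructor
  · have g1 := (rho_cls1 hW (by omega) ha h3 hN hN1).1
    refine le_trans ?_ g1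
    apply div_le_div_of_nonneg_right _ (by positivity)
    have : 0 < δ * x := by positivity
    linarith only [herr1, this]
  · set s : ℕ := ⌈(x : ℝ) ^ (1 - δ / 4)⌉₊ with hs
    have hs1 : (x : ℝ) ^ (1 - δ / 4) ≤ s := Nat.le_ceil _
    have hs2 : (s : ℝ) ≤ (x : ℝ) ^ (1 - δ / 4) + 1 := (Nat.ceil_lt_add_one (by positivity)).le
    have hsx : s ≤ x := by
      apply Nat.ceil_le.2
      calc (x : ℝ) ^ (1 - δ / 4) ≤ (x : ℝ) ^ (1 : ℝ) := Real.rpow_le_rpow_of_exponent_le hx (by linarith only [hδ])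
        _ = x := Real.rpow_one _
    have hNs : N₀ ≤ s := by
      have e1 : ((N₀ : ℝ) + 1) * (Real.log x + 1) ≤ s := h5.trans hs1
      have e2 : (N₀ : ℝ) ≤ s := by nlinarith only [e1, hlx, hN0]
      exact_mod_cast e2
    have hs1' : 1 ≤ s := hN1.trans hNs
    have hls : (1 - δ / 4) * Real.log x ≤ Real.log s := by
      rw [← Real.log_rpow hxp]
      exact Real.log_le_log (Real.rpow_pos_of_pos hxp _) hs1
    have hlog : Real.log N₀ ≤ Real.log s := Real.log_le_log (by exact_mod_cast hN1) (by exact_mod_cast hNs)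
    rw [cls_sum hNs hsx]
    have g1 := (rho_cls1 hW (by omega) ha hNs hN hN1).2
    have g2 := (rho_cls1 hW (by omega) ha hsx (hN.trans hlog) hs1').2
    have hqW : (q : ℝ) * W ≤ (x : ℝ) ^ b * W := mul_le_mul_of_nonneg_right hqb hW'.le
    -- the first part
    have k1 : (((s : ℝ) - N₀) + 2 * (q * W)) / ((adm W q).card * Real.log N₀) ≤ (δ / 8) * (x / ((adm W q).card * Real.log x)) := by
      have e1 : (((s : ℝ) - N₀) + 2 * (q * W)) / ((adm W q).card * Real.log N₀) ≤ (((s : ℝ)) + 2 * (q * W)) / ((adm W q).card * 1) := by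
        apply div_le_div₀
        · positivity
        · linarith only [hN0]
        · positivity
        · exact mul_le_mul_of_nonneg_left hl0 hcard.le
      refine e1.trans ?_
      rw [mul_one, mul_div_assoc', div_le_div_iff₀ hcard (by positivity)]
      have e2 : ((s : ℝ) + 2 * (q * W)) * Real.log x ≤ δ / 8 * x := by
        have e3 : (s : ℝ) + 2 * (q * W) ≤ ((2 * W + 2 + N₀) : ℝ) * (x : ℝ) ^ b := by
          have : 0 ≤ (N₀ : ℝ) * (x : ℝ) ^ b := by positivity
          linarith only [hs2, hs1b, hqW, hxb0, this]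
        have e4 := mul_le_mul_of_nonneg_right e3 hlx.le
        have e5 : 0 ≤ ((2 * W + 2 + N₀) : ℝ) * (x : ℝ) ^ b := by positivity
        linarith only [e4, e5, herr]
      calc ((s : ℝ) + 2 * (q * W)) * ((adm W q).card * Real.log x) = (((s : ℝ) + 2 * (q * W)) * Real.log x) * (adm W q).card := by ring
        _ ≤ (δ / 8 * x) * (adm W q).card := mul_le_mul_of_nonneg_right e2 hcard.le
    -- the second part
    have k2 : (((x : ℝ) - s) + 2 * (q * W)) / ((adm W q).card * Real.log s) ≤ (1 + δ / 2) * (1 + δ / 8) * (x / ((adm W q).card * Real.log x)) := by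
      have hd4 : 0 < 1 - δ / 4 := by linarith only [hδ1]
      have e1 : (((x : ℝ) - s) + 2 * (q * W)) / ((adm W q).card * Real.log s) ≤ ((1 + δ / 8) * x) / ((adm W q).card * ((1 - δ / 4) * Real.log x)) := by
        apply div_le_div₀
        · positivity
        · have : (0 : ℝ) ≤ s := Nat.cast_nonneg _
          linarith only [this, herr1, hN0]
        · positivity
        · exact mul_le_mul_of_nonneg_left hls hcard.le
      refine e1.trans ?_
      have e2 : ((1 + δ / 8) * x) / ((adm W q).card * ((1 - δ / 4) * Real.log x)) = (1 / (1 - δ / 4)) * (1 + δ / 8) * (x / ((adm W q).card * Real.log x)) := by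
        field_simp
      rw [e2]
      have e3 : 1 / (1 - δ / 4) ≤ 1 + δ / 2 := by
        rw [div_le_iff₀ hd4]
        nlinarith only [hδ, hδ1]
      apply mul_le_mul_of_nonneg_right _ (by positivity)
      exact mul_le_mul_of_nonneg_right e3 (by positivity)
    have k3 : vx W δ x q = (1 + δ) * (x / ((adm W q).card * Real.log x)) := by
      unfold vx
      ring
    rw [k3]
    have k4 : 0 ≤ x / ((adm W q).card * Real.log x) := by positivity
    have k5 : ((1 + δ / 2) * (1 + δ / 8) + δ / 8) * (x / ((adm W q).card * Real.log x)) ≤ (1 + δ) * (x / ((adm W q).card * Real.log x)) := by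
      apply mul_le_mul_of_nonneg_right _ k4
      nlinarith only [hδ, hδ1]
    linarith only [g1, g2, k1, k2, k5]

lemma vx_pos (W : ℕ) {δ : ℝ} (hδ : 0 < δ) {x q : ℕ} (hx : 1 < x) (hq : 1 ≤ q) : 0 < vx W δ x q := by
  unfold vx
  have h1 := adm_pos W (q := q) (by omega)
  have h2 : 0 < Real.log (x : ℝ) := Real.log_pos (by exact_mod_cast hx)
  have h3 : (0 : ℝ) < x := by exact_mod_cast (by omega : 0 < x)
  positivity

lemma vx_log (W : ℕ) {δ : ℝ} {x q : ℕ} (hx : 1 < x) (hq : 1 ≤ q) : Real.log x * vx W δ x q = (1 + δ) * x / (adm W q).card := by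
  have h1 := adm_pos W (q := q) (by omega)
  have h2 : 0 < Real.log (x : ℝ) := Real.log_pos (by exact_mod_cast hx)
  unfold vx
  field_simp

/-- the tilts are small -/
lemma theta_small (W : ℕ) {β γ c δ : ℝ} (hβ1 : β < 1) (hγ : 0 ≤ γ) (hc : 0 < c) (hδ : 0 < δ) :
    ∀ᶠ x : ℕ in atTop, ∀ q : ℕ, 1 ≤ q → (q : ℝ) ≤ (x : ℝ) ^ β → √(2 * (γ * Real.log x) / vx W δ x q) ≤ c := by
  filter_upwards [ev_pow (a := β) (b := (β + 1) / 2) (by linarith) 1, ev_pow (a := (β + 1) / 2) (b := 1) (by linarith) (2 * γ / c ^ 2),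
    ev_log 1, eventually_gt_atTop 1] with x h1 h2 h3 h4 q hq hqx
  have hx : (1 : ℝ) < x := by exact_mod_cast h4
  have hxp : (0 : ℝ) < x := by linarith only [hx]
  have hlx : 0 < Real.log (x : ℝ) := by linarith only [h3]
  have hcard := adm_pos W (q := q) (by omega)
  have hq1 : ((adm W q).card : ℝ) ≤ (x : ℝ) ^ β := le_trans (by exact_mod_cast adm_card_le) hqx
  rw [Real.sqrt_le_left hc.le]
  have e1 : 2 * (γ * Real.log x) / vx W δ x q = 2 * γ * (Real.log x) ^ 2 * (adm W q).card / ((1 + δ) * x) := by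
    unfold vx
    field_simp
  rw [e1, div_le_iff₀ (by positivity)]
  rw [Real.rpow_one] at h2
  have p0 : 0 ≤ (x : ℝ) ^ β := by positivity
  have p1 : 0 ≤ (x : ℝ) ^ ((β + 1) / 2) := by positivity
  have e2 : Real.log x * (x : ℝ) ^ β ≤ (x : ℝ) ^ ((β + 1) / 2) := by
    have : 0 ≤ (x : ℝ) ^ β := p0
    linarith only [h1, this]
  have e3 : 2 * γ * (Real.log x * (x : ℝ) ^ ((β + 1) / 2)) ≤ c ^ 2 * x := by
    have := mul_le_mul_of_nonneg_left h2 (show 0 ≤ c ^ 2 by positivity)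
    have e4 : c ^ 2 * (2 * γ / c ^ 2 * (Real.log x + 1) * (x : ℝ) ^ ((β + 1) / 2)) = 2 * γ * ((Real.log x + 1) * (x : ℝ) ^ ((β + 1) / 2)) := by
      field_simp
    have e5 : 0 ≤ 2 * γ * (x : ℝ) ^ ((β + 1) / 2) := by positivity
    linarith only [this, e4, e5]
  have e6 : 2 * γ * (Real.log x) ^ 2 * (adm W q).card ≤ 2 * γ * (Real.log x * (x : ℝ) ^ ((β + 1) / 2)) := by
    have f1 : Real.log x * (adm W q).card ≤ (x : ℝ) ^ ((β + 1) / 2) := (mul_le_mul_of_nonneg_left hq1 hlx.le).trans e2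
    have f2 := mul_le_mul_of_nonneg_left f1 (show 0 ≤ 2 * γ * Real.log x by positivity)
    linarith only [f2]
  have e7 : 0 ≤ c ^ 2 * (δ * x) := by positivity
  linarith only [e3, e6, e7]

/-- **upper tail** -/
theorem tail_ev (hA : ∀ n, MeasurableSet[ℱ n] (A n)) {W : ℕ} (hW : 0 < W) {β γ η δ : ℝ} (hβ1 : β < 1) (hγ : 0 < γ)
    (hη0 : 0 < η) (hη1 : η ≤ 1) (hδ : 0 < δ) (hδη : (1 + δ) ^ 2 ≤ 1 + η) (N₀ : ℕ)
    (hN : (W : ℝ) / Nat.totient W ≤ Real.log N₀) (hN1 : 1 ≤ N₀) (hsm : ∀ m, N₀ ≤ m → (1 + δ) * rhoW W (m + 1) ≤ 1 / 8) :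
    ∀ᶠ x : ℕ in atTop, ∀ q : ℕ, 1 ≤ q → (q : ℝ) ≤ (x : ℝ) ^ β → ∀ a ∈ adm W q,
      μ.real {ω | (1 + 3 * η) * √(2 * γ * x / (adm W q).card) ≤ |SR μ ℱ A (rhoW W) δ (cls W q a N₀ x) N₀ x ω|} ≤
        2 * (x : ℝ) ^ (-(γ * (1 + η))) := by
  have hδ1 : δ ≤ 1 := by nlinarith only [hδη, hη1, hδ]
  filter_upwards [v_bounds hW hβ1 hδ hδ1 N₀ hN hN1, theta_small W hβ1 hγ.le (show 0 < min δ 1 by positivity) hδ, ev_log 1,
    eventually_gt_atTop 1] with x h1 h2 h3 h4 q hq hqx a ha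
  have hx : (1 : ℝ) < x := by exact_mod_cast h4
  have hxp : (0 : ℝ) < x := by linarith only [hx]
  have hlx : 0 < Real.log (x : ℝ) := by linarith only [h3]
  have hcard := adm_pos W (q := q) (by omega)
  have hv0 := vx_pos W hδ h4 hq
  obtain ⟨_, hv⟩ := h1 q hq hqx a ha
  have hθ1 := h2 q hq hqx
  set v := vx W δ x q with hvd
  set θ := √(2 * (γ * Real.log x) / v) with hθ
  have hθ0 : 0 < θ := Real.sqrt_pos.2 (by positivity)
  have hθδ : θ ≤ δ := hθ1.trans (min_le_left _ _)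
  have hθ1' : θ ≤ 1 := hθ1.trans (min_le_right _ _)
  have hθ2 : θ ^ 2 * v = 2 * (γ * Real.log x) := by
    rw [hθ, Real.sq_sqrt (by positivity)]
    exact div_mul_cancel₀ _ hv0.ne'
  have hθv : θ * v = √(2 * γ * (1 + δ) * x / (adm W q).card) := by
    rw [hθ]
    have e1 : v = √(v ^ 2) := (Real.sqrt_sq hv0.le).symm
    have e2 : √(2 * (γ * Real.log x) / v) * v = √(2 * (γ * Real.log x) / v * v ^ 2) := by
      rw [Real.sqrt_mul (by positivity), Real.sqrt_sq hv0.le]
    rw [e2]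
    congr 1
    have e3 : 2 * (γ * Real.log x) / v * v ^ 2 = 2 * γ * (Real.log x * v) := by
      rw [sq, ← mul_assoc, div_mul_cancel₀ _ hv0.ne']
      ring
    rw [e3, hvd, vx_log W h4 hq]
    ring
  -- comparison of the thresholds
  have hcmp : (1 + η) * (θ * v) ≤ (1 + 3 * η) * √(2 * γ * x / (adm W q).card) := by
    have e1 : √(2 * γ * (1 + δ) * x / (adm W q).card) ≤ (1 + η) * √(2 * γ * x / (adm W q).card) := by
      have e2 : √(2 * γ * (1 + δ) * x / (adm W q).card) = √(1 + δ) * √(2 * γ * x / (adm W q).card) := by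
        rw [← Real.sqrt_mul (by positivity)]
        congr 1
        ring
      rw [e2]
      apply mul_le_mul_of_nonneg_right _ (Real.sqrt_nonneg _)
      rw [Real.sqrt_le_left (by linarith only [hη0])]
      nlinarith only [hδη, hη0, hδ]
    rw [hθv]
    have e3 : 0 ≤ √(2 * γ * x / (adm W q).card) := Real.sqrt_nonneg _
    have e4 := mul_le_mul_of_nonneg_left e1 (show 0 ≤ 1 + η by linarith only [hη0])
    have e5 : (1 + η) * (1 + η) ≤ 1 + 3 * η := by nlinarith only [hη0, hη1]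
    have e6 := mul_le_mul_of_nonneg_right e5 e3
    linarith only [e4, e6]
  set Y : ℝ := 2 * (1 + η) * (γ * Real.log x) with hY
  have hYe : Y = θ * ((1 + η) * (θ * v)) := by
    rw [hY]
    linear_combination -(1 + η) * hθ2
  have hexpb : ∀ t : ℝ, |t| = θ → Real.exp (-Y + t ^ 2 / 2 * (1 + |t|) * ((1 + δ) * ∑ n ∈ cls W q a N₀ x, rhoW W n)) ≤ (x : ℝ) ^ (-(γ * (1 + η))) := by
    intro t ht
    rw [Real.rpow_def_of_pos hxp]
    apply Real.exp_le_exp.2
    have e1 : t ^ 2 = θ ^ 2 := by rw [← sq_abs, ht]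
    rw [e1, ht]
    have e2 : θ ^ 2 / 2 * (1 + θ) * ((1 + δ) * ∑ n ∈ cls W q a N₀ x, rhoW W n) ≤ θ ^ 2 / 2 * (1 + δ) * ((1 + δ) * v) := by
      apply mul_le_mul
      · apply mul_le_mul_of_nonneg_left _ (by positivity)
        linarith only [hθδ]
      · exact mul_le_mul_of_nonneg_left hv (by linarith only [hδ])
      · apply mul_nonneg (by linarith only [hδ])
        exact Finset.sum_nonneg fun n _ => rhoW_nonneg W n
      · positivity
    have e3 : θ ^ 2 / 2 * (1 + δ) * ((1 + δ) * v) = (1 + δ) ^ 2 * (γ * Real.log x) := by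
      linear_combination ((1 + δ) ^ 2 / 2) * hθ2
    have e4 : (1 + δ) ^ 2 * (γ * Real.log x) ≤ (1 + η) * (γ * Real.log x) := mul_le_mul_of_nonneg_right hδη (by positivity)
    rw [hY]
    linarith only [e2, e3, e4]
  have t1 := SR_tail (μ := μ) (ℱ := ℱ) (A := A) (N := N₀) hA (rhoW_nonneg W) hδ.le hδ1 hsm (θ := θ) (by rw [abs_of_pos hθ0]; exact hθ1')
    (cls W q a N₀ x) x Y
  have t2 := SR_tail (μ := μ) (ℱ := ℱ) (A := A) (N := N₀) hA (rhoW_nonneg W) hδ.le hδ1 hsm (θ := -θ) (by rw [abs_neg, abs_of_pos hθ0]; exact hθ1')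
    (cls W q a N₀ x) x Y
  have hsub : {ω | (1 + 3 * η) * √(2 * γ * x / (adm W q).card) ≤ |SR μ ℱ A (rhoW W) δ (cls W q a N₀ x) N₀ x ω|} ⊆
      {ω | Y ≤ θ * SR μ ℱ A (rhoW W) δ (cls W q a N₀ x) N₀ x ω} ∪ {ω | Y ≤ (-θ) * SR μ ℱ A (rhoW W) δ (cls W q a N₀ x) N₀ x ω} := by
    intro ω hω
    have g0 : (1 + 3 * η) * √(2 * γ * x / (adm W q).card) ≤ |SR μ ℱ A (rhoW W) δ (cls W q a N₀ x) N₀ x ω| := hω
    have g1 := hcmp.trans g0
    rcases le_abs.1 g1 with h | h
    · left
      show Y ≤ _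
      rw [hYe]
      exact mul_le_mul_of_nonneg_left h hθ0.le
    · right
      show Y ≤ _
      rw [hYe]
      have := mul_le_mul_of_nonneg_left h hθ0.le
      linarith only [this]
  refine (measureReal_mono hsub (measure_ne_top _ _)).trans ((measureReal_union_le _ _).trans ?_)
  have u1 := t1.trans (hexpb θ (abs_of_pos hθ0))
  have u2 := t2.trans (hexpb (-θ) (by rw [abs_neg, abs_of_pos hθ0]))
  linarith only [u1, u2]

end Pool.Agent.R528.RM
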