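import Mathlib
import Pool.Agent.R528.RM.EH4

set_option autoImplicit false
set_option linter.unusedSectionVars false
set_option linter.unusedVariables false

/-! # Occurrence of prescribed patterns -/

open MeasureTheory Filter Set
open scoped ENNReal Topology

namespace Pool.Agent.R528.RM

variable {Ω : Type} {m0 : MeasurableSpace Ω} {μ : Measure Ω} [IsProbabilityMeasure μ]
  {ℱ : Filtration ℕ m0} {A : ℕ → Set Ω}

/-- a violation of the density bounds -/
def VB (μ : Measure Ω) (ℱ : Filtration ℕ m0) (A : ℕ → Set Ω) (l u : ℕ → ℝ) (n : ℕ) : Set Ω :=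
  {ω | ¬ (l (n + 1) ≤ dens μ ℱ A n ω ∧ dens μ ℱ A n ω ≤ u (n + 1))}

lemma VB_meas (l u : ℕ → ℝ) (n : ℕ) : MeasurableSet[ℱ n] (VB μ ℱ A l u n) := by
  have h1 : VB μ ℱ A l u n = ({ω | l (n + 1) ≤ dens μ ℱ A n ω} ∩ {ω | dens μ ℱ A n ω ≤ u (n + 1)})ᶜ := by
    ext ω
    simp only [VB, mem_ofPred_eq, mem_compl_iff, mem_inter_iff]
  rw [h1]
  have h3 : StronglyMeasurable[ℱ n] (dens μ ℱ A n) := dens_meas n
  exact @MeasurableSet.compl _ _ (ℱ n) (@MeasurableSet.inter _ (ℱ n) _ _ (h3.measurable measurableSet_Ici) (h3.measurable measurableSet_Iic))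

/-- the chosen integers among `t + 1, ..., t + j` are those with `P` -/
def PatE (A : ℕ → Set Ω) (P : ℕ → Prop) (t j : ℕ) : Set Ω := {ω | ∀ i < j, (ω ∈ A (t + 1 + i) ↔ P (t + 1 + i))}

lemma PatE_meas (hA : ∀ n, MeasurableSet[ℱ n] (A n)) (P : ℕ → Prop) (t j : ℕ) : MeasurableSet[ℱ (t + j)] (PatE A P t j) := by
  classical
  have h1 : PatE A P t j = ⋂ i ∈ Finset.range j, (if P (t + 1 + i) then A (t + 1 + i) else (A (t + 1 + i))ᶜ) := by
    ext ω
    simp only [PatE, mem_ofPred_eq, mem_iInter, Finset.mem_range]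
    refine forall₂_congr fun i _ => ?_
    split_ifs with h
    · simp [h]
    · simp [h]
  rw [h1]
  refine Finset.measurableSet_biInter _ fun i hi => ?_
  have hi' := Finset.mem_range.1 hi
  have h2 : MeasurableSet[ℱ (t + j)] (A (t + 1 + i)) := ℱ.mono (by omega) _ (hA _)
  split_ifs
  · exact h2
  · exact @MeasurableSet.compl _ _ (ℱ (t + j)) h2

open Classical in
/-- lower bound for the probability of a pattern, up to violations -/
theorem pat_ge (hA : ∀ n, MeasurableSet[ℱ n] (A n)) {l u : ℕ → ℝ} (hl0 : ∀ n, 0 ≤ l n) (hl1 : ∀ n, l n ≤ 1) (hu0 : ∀ n, 0 ≤ u n)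
    (hu1 : ∀ n, u n ≤ 1) (P : ℕ → Prop) (j : ℕ) : ∀ t, ∀ B, MeasurableSet[ℱ t] B →
      (∏ i ∈ Finset.range j, (if P (t + 1 + i) then l (t + 1 + i) else 1 - u (t + 1 + i))) * μ.real B ≤
        μ.real (B ∩ (PatE A P t j ∪ WV (VB μ ℱ A l u) t j)) := by
  have hf01 : ∀ n, 0 ≤ (if P n then l n else 1 - u n) ∧ (if P n then l n else 1 - u n) ≤ 1 := by
    intro n
    have := hl0 n
    have := hl1 n
    have := hu0 n
    have := hu1 n
    split_ifs <;> constructor <;> linarith
  induction j with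
  | zero =>
    intro t B hB
    have : B ∩ (PatE A P t 0 ∪ WV (VB μ ℱ A l u) t 0) = B := by
      ext ω
      simp [PatE]
    rw [this, Finset.prod_range_zero, one_mul]
  | succ j ih =>
    intro t B hB
    have hBm : MeasurableSet B := ℱ.le t _ hB
    set V := VB μ ℱ A l u with hV
    have hVt : MeasurableSet[ℱ t] (V t) := VB_meas l u t
    have hVm : MeasurableSet (V t) := ℱ.le t _ hVt
    set B₁ : Set Ω := B \ V t with hB₁
    have hB₁m : MeasurableSet[ℱ t] B₁ := hB.diff hVt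
    set E : Set Ω := if P (t + 1) then A (t + 1) else (A (t + 1))ᶜ with hE
    have hEm : MeasurableSet[ℱ (t + 1)] E := by
      rw [hE]
      split_ifs
      · exact hA _
      · exact @MeasurableSet.compl _ _ (ℱ (t + 1)) (hA _)
    have hB₂m : MeasurableSet[ℱ (t + 1)] (B₁ ∩ E) := (ℱ.mono (Nat.le_succ t) _ hB₁m).inter hEm
    have h1 := ih (t + 1) (B₁ ∩ E) hB₂m
    set p : ℝ := if P (t + 1) then l (t + 1) else 1 - u (t + 1) with hp
    set Pr : ℝ := ∏ i ∈ Finset.range j, (if P (t + 1 + 1 + i) then l (t + 1 + 1 + i) else 1 - u (t + 1 + 1 + i)) with hPr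
    have hPr0 : 0 ≤ Pr := Finset.prod_nonneg fun i _ => (hf01 _).1
    have hPr1 : Pr ≤ 1 := Finset.prod_le_one (fun i _ => (hf01 _).1) fun i _ => (hf01 _).2
    have hp0 : 0 ≤ p := (hf01 _).1
    have hp1 : p ≤ 1 := (hf01 _).2
    have hprod : ∏ i ∈ Finset.range (j + 1), (if P (t + 1 + i) then l (t + 1 + i) else 1 - u (t + 1 + i)) = Pr * p := by
      rw [Finset.prod_range_succ']
      congr 1
      refine Finset.prod_congr rfl fun i _ => ?_
      rw [show t + 1 + (i + 1) = t + 1 + 1 + i by ring]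
    -- the first step
    have h2 : p * μ.real B₁ ≤ μ.real (B₁ ∩ E) := by
      have hb : ∀ ω ∈ B₁, l (t + 1) ≤ dens μ ℱ A t ω ∧ dens μ ℱ A t ω ≤ u (t + 1) := by
        rintro ω ⟨_, h⟩
        by_contra hcon
        exact h hcon
      rw [hp, hE]
      by_cases h : P (t + 1)
      · rw [if_pos h, if_pos h]
        exact lower_meas hA t hB₁m fun ω hω => (hb ω hω).1
      · rw [if_neg h, if_neg h]
        have g1 := upper_meas (μ := μ) hA t hB₁m fun ω hω => (hb ω hω).2
        have g2 := measureReal_inter_add_sdiff (μ := μ) (s := B₁) (ℱ.le _ _ (hA (t + 1)))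
        rw [show B₁ ∩ (A (t + 1))ᶜ = B₁ \ A (t + 1) from rfl]
        linarith
    have h3 : B ∩ (PatE A P t (j + 1) ∪ WV V t (j + 1)) ⊇ (B ∩ V t) ∪ ((B₁ ∩ E) ∩ (PatE A P (t + 1) j ∪ WV V (t + 1) j)) := by
      rintro ω (⟨g1, g2⟩ | ⟨⟨⟨g1, g2⟩, g3⟩, g4⟩)
      · refine ⟨g1, Or.inr ?_⟩
        rw [WV_succ]
        exact Or.inl g2
      · refine ⟨g1, ?_⟩
        rcases g4 with g4 | g4
        · left
          intro i hi
          rcases i with _ | i
          · rw [add_zero]
            rw [hE] at g3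
            by_cases h : P (t + 1)
            · rw [if_pos h] at g3
              exact ⟨fun _ => h, fun _ => g3⟩
            · rw [if_neg h] at g3
              exact ⟨fun h' => absurd h' g3, fun h' => absurd h' h⟩
          · have := g4 i (by omega)
            rwa [show t + 1 + (i + 1) = t + 1 + 1 + i by ring]
        · right
          rw [WV_succ]
          exact Or.inr g4
    have h4 : μ.real ((B ∩ V t) ∪ ((B₁ ∩ E) ∩ (PatE A P (t + 1) j ∪ WV V (t + 1) j))) =
        μ.real (B ∩ V t) + μ.real ((B₁ ∩ E) ∩ (PatE A P (t + 1) j ∪ WV V (t + 1) j)) := by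
      rw [union_comm, measureReal_union _ (hBm.inter hVm), add_comm]
      rw [Set.disjoint_left]
      rintro ω ⟨⟨⟨_, g1⟩, _⟩, _⟩ ⟨_, g2⟩
      exact g1 g2
    have h5 := measureReal_mono (μ := μ) h3 (measure_ne_top _ _)
    rw [h4] at h5
    have h6 := measureReal_inter_add_sdiff (μ := μ) (s := B) hVm
    have h7 := mul_le_mul_of_nonneg_left h2 hPr0
    have h8 : 0 ≤ μ.real (B ∩ V t) := measureReal_nonneg
    have h9 : Pr * p * μ.real (B ∩ V t) ≤ 1 * μ.real (B ∩ V t) :=
      mul_le_mul_of_nonneg_right (by nlinarith only [hPr0, hPr1, hp0, hp1]) h8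
    rw [hprod]
    have h10 : Pr * p * μ.real B = Pr * p * μ.real (B ∩ V t) + Pr * (p * μ.real B₁) := by
      rw [← h6]
      ring
    linarith only [h1, h5, h7, h9, h10]

open Classical in
/-- blocks without the pattern are improbable -/
theorem pat_blocks (hA : ∀ n, MeasurableSet[ℱ n] (A n)) {l u : ℕ → ℝ} (hl0 : ∀ n, 0 ≤ l n) (hl1 : ∀ n, l n ≤ 1) (hu0 : ∀ n, 0 ≤ u n)
    (hu1 : ∀ n, u n ≤ 1) (R : Finset ℕ) (s H M : ℕ) {π : ℝ}
    (hπ : ∀ m < M, π ≤ ∏ i ∈ Finset.range H, (if i + 1 ∈ R then l (s + H * m + 1 + i) else 1 - u (s + H * m + 1 + i))) :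
    μ.real {ω | (∀ m < M, ω ∉ PatE A (fun n => n - (s + H * m) ∈ R) (s + H * m) H) ∧ ∀ n, s ≤ n → n < s + H * M → ω ∉ VB μ ℱ A l u n} ≤
      Real.exp (-(M * π)) := by
  set V := VB μ ℱ A l u with hV
  have hVm : ∀ n, MeasurableSet[ℱ n] (V n) := fun n => VB_meas l u n
  set D : ℕ → Set Ω := fun m => PatE A (fun n => n - (s + H * m) ∈ R) (s + H * m) H ∪ WV V (s + H * m) H with hD
  have hDm : ∀ m < M, MeasurableSet[ℱ (s + H * (m + 1))] (D m) := by
    intro m _
    have e : s + H * (m + 1) = s + H * m + H := by ring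
    rw [e]
    exact (PatE_meas hA _ _ _).union (WV_meas hVm _ _)
  have h1 := RB_le (μ := μ) (ℱ := ℱ) (D := D) (B := univ) (s := s) (H := H) (M := M) (@MeasurableSet.univ _ (ℱ s)) hDm (p := π) (by
    intro m hm C hC
    have h2 := pat_ge (μ := μ) (ℱ := ℱ) hA hl0 hl1 hu0 hu1 (fun n => n - (s + H * m) ∈ R) H (s + H * m) C hC
    refine le_trans (mul_le_mul_of_nonneg_right ?_ measureReal_nonneg) h2
    refine (hπ m hm).trans (le_of_eq ?_)
    refine Finset.prod_congr rfl fun i _ => ?_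
    have : s + H * m + 1 + i - (s + H * m) = i + 1 := by omega
    simp only [this]) M le_rfl
  have huniv : μ.real (univ : Set Ω) = 1 := by simp
  rw [huniv, mul_one] at h1
  refine (measureReal_mono ?_ (measure_ne_top _ _)).trans h1
  rintro ω ⟨h2, h3⟩
  have key : ∀ m ≤ M, ω ∈ RB D univ m := by
    intro m
    induction m with
    | zero => intro _; exact mem_univ ω
    | succ m ih =>
      intro hm
      refine ⟨ih (by omega), ?_⟩
      rintro (h | ⟨n, g1, g2, g3⟩)
      · exact h2 m (by omega) h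
      · refine h3 n (by omega) ?_ g3
        have : H * (m + 1) ≤ H * M := Nat.mul_le_mul_left _ hm
        have : H * (m + 1) = H * m + H := by ring
        omega
  exact key M le_rfl

lemma one_sub_ge {u κ : ℝ} (hu0 : 0 ≤ u) (hκ1 : κ ≤ 1) (hu : 2 * u ≤ κ) : Real.exp (-((1 + κ) * u)) ≤ 1 - u := by
  have hκ0 : 0 ≤ κ := by linarith
  have h1 := Real.add_one_le_exp ((1 + κ) * u)
  have h2 : 1 ≤ (1 - u) * (1 + (1 + κ) * u) := by nlinarith only [hu0, hκ1, hu, hκ0, mul_nonneg hu0 hκ0]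
  have h3 : 0 < 1 - u := by linarith
  have h4 : 1 ≤ (1 - u) * Real.exp ((1 + κ) * u) := h2.trans (mul_le_mul_of_nonneg_left (by linarith only [h1]) h3.le)
  rw [Real.exp_neg, ← one_div, div_le_iff₀ (Real.exp_pos _)]
  exact h4

/-- lower bound for the product -/
lemma prod_ge {c : ℕ → Prop} [DecidablePred c] {l u : ℕ → ℝ} {lm κ : ℝ} {H k : ℕ} (hlm0 : 0 ≤ lm) (hlm1 : lm ≤ 1)
    (hl : ∀ i < H, c i → lm ≤ l i) (hκ1 : κ ≤ 1) (hu0 : ∀ i < H, 0 ≤ u i) (hu : ∀ i < H, 2 * u i ≤ κ)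
    (hk : ((Finset.range H).filter c).card ≤ k) :
    lm ^ k * Real.exp (-((1 + κ) * ∑ i ∈ Finset.range H, u i)) ≤ ∏ i ∈ Finset.range H, (if c i then l i else 1 - u i) := by
  have h1 : ∏ i ∈ Finset.range H, ((if c i then lm else 1) * Real.exp (-((1 + κ) * u i))) ≤ ∏ i ∈ Finset.range H, (if c i then l i else 1 - u i) := by
    apply Finset.prod_le_prod
    · intro i _
      have := (Real.exp_pos (-((1 + κ) * u i))).le
      split_ifs
      · positivity
      · rw [one_mul]; exact this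
    · intro i hi
      have hi' := Finset.mem_range.1 hi
      have hκ0 : 0 ≤ κ := by linarith [hu0 i hi', hu i hi']
      split_ifs with h
      · have h2 : Real.exp (-((1 + κ) * u i)) ≤ 1 := by
          rw [Real.exp_le_one_iff]
          have := mul_nonneg (show 0 ≤ 1 + κ by linarith) (hu0 i hi')
          linarith
        calc lm * Real.exp (-((1 + κ) * u i)) ≤ lm * 1 := mul_le_mul_of_nonneg_left h2 hlm0
          _ ≤ l i := by rw [mul_one]; exact hl i hi' h
      · rw [one_mul]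
        exact one_sub_ge (hu0 i hi') hκ1 (hu i hi')
  refine le_trans ?_ h1
  rw [Finset.prod_mul_distrib, ← Real.exp_sum, Finset.prod_ite, Finset.prod_const, Finset.prod_const_one, mul_one, Finset.sum_neg_distrib,
    ← Finset.mul_sum]
  apply mul_le_mul_of_nonneg_right _ (Real.exp_pos _).le
  exact pow_le_pow_of_le_one hlm0 hlm1 hk

lemma sum_rhoW_eq (W t H : ℕ) : ∑ i ∈ Finset.range H, rhoW W (t + 1 + i) = ∑ n ∈ cls W 1 0 t (t + H), rhoW W n := by
  have h1 : ∑ n ∈ cls W 1 0 t (t + H), rhoW W n = ∑ n ∈ Finset.Ioc t (t + H), rhoW W n := by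
    unfold cls
    rw [Finset.sum_filter]
    refine Finset.sum_congr rfl fun n _ => ?_
    split_ifs with h
    · rfl
    · unfold rhoW
      rw [if_neg]
      intro h2
      exact h ⟨Nat.mod_one n, h2⟩
  rw [h1]
  apply Finset.sum_bij (fun i _ => t + 1 + i)
  · intro i hi
    have := Finset.mem_range.1 hi
    rw [Finset.mem_Ioc]
    omega
  · intro i _ j _ h
    omega
  · intro n hn
    obtain ⟨g1, g2⟩ := Finset.mem_Ioc.1 hn
    exact ⟨n - t - 1, Finset.mem_range.2 (by omega), by omega⟩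
  · intro i _
    rfl

end Pool.Agent.R528.RM
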