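import Mathlib
import Pool.Agent.R528.RM.Pat0

set_option autoImplicit false
set_option linter.unusedSectionVars false
set_option linter.unusedVariables false

/-! # All cheap patterns occur -/

open MeasureTheory Filter Set
open scoped ENNReal Topology

namespace Pool.Agent.R528.RM

variable {Ω : Type} {m0 : MeasurableSpace Ω} {μ : Measure Ω} [IsProbabilityMeasure μ]
  {ℱ : Filtration ℕ m0} {A : ℕ → Set Ω}

lemma adm_oneW (W : ℕ) : (adm W 1).card = 1 := by
  unfold adm
  simp

lemma zero_mem_admW (W : ℕ) : 0 ∈ adm W 1 := by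
  rw [mem_adm]
  simp

/-- the lower profile -/
noncomputable def lp (W : ℕ) (δ : ℝ) (n : ℕ) : ℝ := (1 - δ) * rhoW W n

/-- the upper profile -/
noncomputable def up (W : ℕ) (δ : ℝ) (n : ℕ) : ℝ := min 1 ((1 + δ) * rhoW W n)

/-- the condition on the pattern -/
def Cheap (W : ℕ) (ε : ℝ) (x : ℕ) (R : Finset ℕ) (H : ℕ) : Prop :=
  0 < H ∧ W ∣ H ∧ (∀ r ∈ R, 1 ≤ r ∧ r ≤ H ∧ Nat.Coprime r W) ∧
  (R.card : ℝ) * (Real.log (Real.log x) + 1) + H / Real.log x ≤ (1 - ε) * Real.log x

/-- the first block -/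
def sx (W x : ℕ) : ℕ := W * (x / (2 * W) + 1)

lemma sx_bounds {W : ℕ} (hW : 0 < W) (x : ℕ) : x ≤ 2 * sx W x ∧ 2 * sx W x ≤ x + 2 * W := by
  unfold sx
  have h1 := Nat.div_add_mod x (2 * W)
  have h2 := Nat.mod_lt x (show 0 < 2 * W by omega)
  have e : 2 * (W * (x / (2 * W) + 1)) = 2 * W * (x / (2 * W)) + 2 * W := by ring
  rw [e]
  omega

theorem pat_prob (hA : ∀ n, MeasurableSet[ℱ n] (A n)) {W : ℕ} (hW : 0 < W) {ε : ℝ} (hε0 : 0 < ε) (hε1 : ε < 1) :
    ∀ᶠ x : ℕ in atTop, ∀ (R : Finset ℕ) (H : ℕ), Cheap W ε x R H →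
      μ.real {ω | (∀ m < x / (4 * H), ω ∉ PatE A (fun n => n - (sx W x + H * m) ∈ R) (sx W x + H * m) H) ∧
        ∀ n, x ≤ 2 * n → n < x → ω ∉ VB μ ℱ A (lp W (ε / 20)) (up W (ε / 20)) n} ≤ Real.exp (-((x : ℝ) ^ (ε / 4))) := by
  classical
  set δ : ℝ := ε / 20 with hδ
  have hδ0 : 0 < δ := by positivity
  have hδ1 : δ ≤ 1 / 20 := by linarith
  have hφ : (1 : ℝ) ≤ Nat.totient W := by exact_mod_cast Nat.totient_pos.2 hW
  have hW' : (1 : ℝ) ≤ W := by exact_mod_cast hW
  have hWφ1 : 1 ≤ (W : ℝ) / Nat.totient W := by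
    rw [le_div_iff₀ (by linarith)]
    have : (Nat.totient W : ℝ) ≤ W := by exact_mod_cast Nat.totient_le W
    linarith
  have hWφ2 : (W : ℝ) / Nat.totient W ≤ W := div_le_self (by linarith) hφ
  have hl0 : ∀ n, 0 ≤ lp W δ n := fun n => mul_nonneg (by linarith) (rhoW_nonneg W n)
  have hl1 : ∀ n, lp W δ n ≤ 1 := by
    intro n
    have h1 := rhoW_le W n
    have h2 := rhoW_nonneg W n
    unfold lp
    nlinarith only [h1, h2, hδ0, hδ1]
  have hu0 : ∀ n, 0 ≤ up W δ n := fun n => le_min zero_le_one (mul_nonneg (by linarith) (rhoW_nonneg W n))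
  have hu1 : ∀ n, up W δ n ≤ 1 := fun n => min_le_left _ _
  filter_upwards [ev_log (4 * W / δ + 2), ev_pow (a := 0) (b := δ) hδ0 (Real.exp (4 * W)),
    ev_pow (a := 0) (b := ε / 16) (by positivity) 16,
    eventually_ge_atTop (4 * W + 4)] with x h1 h2 h3 h4 R H hc
  obtain ⟨hH0, hHW, hR, hcost⟩ := hc
  have hx4 : (4 * W + 4 : ℝ) ≤ x := by exact_mod_cast h4
  have hxp : (0 : ℝ) < x := by linarith only [hx4, hW']
  have hx1 : (1 : ℝ) < x := by linarith only [hx4, hW']
  set L : ℝ := Real.log x with hL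
  have hL1 : 2 ≤ L := by
    have : 0 ≤ 4 * (W : ℝ) / δ := by positivity
    linarith only [h1, this]
  have hLp : 0 < L := by linarith only [hL1]
  have hLW : 4 * (W : ℝ) ≤ δ * L := by
    have e1 : 4 * (W : ℝ) / δ ≤ L := by linarith only [h1]
    rw [div_le_iff₀ hδ0] at e1
    linarith only [e1]
  obtain ⟨hs1, hs2⟩ := sx_bounds hW x
  set s := sx W x with hs
  have hHp : (0 : ℝ) < H := by exact_mod_cast hH0
  have hHL : (H : ℝ) ≤ L ^ 2 := by
    have e1 : 0 ≤ (R.card : ℝ) * (Real.log L + 1) := by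
      have : 0 ≤ Real.log L := Real.log_nonneg (by linarith only [hL1])
      positivity
    have e2 : (H : ℝ) / L ≤ 1 * L := by
      have : (1 - ε) * L ≤ 1 * L := mul_le_mul_of_nonneg_right (by linarith only [hε0]) hLp.le
      linarith only [hcost, e1, this]
    rw [div_le_iff₀ hLp] at e2
    linarith only [e2]
  -- number of blocks
  set M := x / (4 * H) with hM
  have hM4 : 4 * (H * M) ≤ x := by
    have := Nat.mul_div_le x (4 * H)
    rw [← hM] at this
    linarith only [this]
  have hend : s + H * M ≤ x := by omega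
  -- the lower bound for the product
  set lm : ℝ := 1 / (2 * L) with hlm
  have hlm0 : 0 < lm := by positivity
  have hlm1 : lm ≤ 1 := by
    rw [hlm, div_le_one (by positivity)]
    linarith only [hL1]
  set π : ℝ := lm ^ R.card * Real.exp (-((1 + δ) * ((1 + δ) * ((H + 2 * W) / ((1 - δ) * L))))) with hπ
  have hlogs : ∀ t : ℕ, s ≤ t → (1 - δ) * L ≤ Real.log t := by
    intro t ht
    have e1 : (x : ℝ) / 2 ≤ t := by
      have : (x : ℝ) ≤ 2 * t := by exact_mod_cast (by omega : x ≤ 2 * t)
      linarith only [this]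
    have e2 : Real.log ((x : ℝ) / 2) ≤ Real.log t := Real.log_le_log (by positivity) e1
    rw [Real.log_div hxp.ne' (by norm_num)] at e2
    have e3 : Real.log 2 ≤ 1 := by linarith only [Real.log_two_lt_d9]
    have e4 : 1 ≤ δ * L := by nlinarith only [hLW, hW']
    linarith only [e2, e3, e4]
  have hprod : ∀ m < M, π ≤ ∏ i ∈ Finset.range H, (if i + 1 ∈ R then lp W δ (s + H * m + 1 + i) else 1 - up W δ (s + H * m + 1 + i)) := by
    intro m hm
    have hmM : H * m + H ≤ H * M := by
      have : H * (m + 1) ≤ H * M := Nat.mul_le_mul_left _ hm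
      linarith only [this]
    have hsum : ∑ i ∈ Finset.range H, up W δ (s + H * m + 1 + i) ≤ (1 + δ) * ((H + 2 * W) / ((1 - δ) * L)) := by
      have e1 : ∑ i ∈ Finset.range H, up W δ (s + H * m + 1 + i) ≤ ∑ i ∈ Finset.range H, (1 + δ) * rhoW W (s + H * m + 1 + i) :=
        Finset.sum_le_sum fun i _ => min_le_right _ _
      rw [← Finset.mul_sum, sum_rhoW_eq] at e1
      refine e1.trans ?_
      apply mul_le_mul_of_nonneg_left _ (by linarith only [hδ0])
      have hls := hlogs (s + H * m) (by omega)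
      have hls2 : (W : ℝ) / Nat.totient W ≤ Real.log ((s + H * m : ℕ) : ℝ) := by
        nlinarith only [hls, hLW, hWφ2, hδ1, hLp, hW']
      have e2 := (rho_cls1 (W := W) (q := 1) (a := 0) (s := s + H * m) (t := s + H * m + H) hW one_pos (zero_mem_admW W) (by omega) hls2 (by
        have : 0 < s := by omega
        omega)).2
      refine e2.trans ?_
      rw [adm_oneW]
      push_cast
      rw [one_mul]
      apply div_le_div₀ (by positivity) _ (by
        have : 0 < 1 - δ := by linarith only [hδ1]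
        positivity) _
      · linarith only
      · rw [one_mul]
        push_cast at hls
        exact hls
    have key := prod_ge (c := fun i => i + 1 ∈ R) (l := fun i => lp W δ (s + H * m + 1 + i)) (u := fun i => up W δ (s + H * m + 1 + i)) (lm := lm) (κ := δ)
      (H := H) (k := R.card) hlm0.le hlm1 (by
        intro i hi hiR
        have hn : Nat.Coprime (s + H * m + 1 + i) W := by
          have h5 := (hR _ hiR).2.2
          have h6 : s + H * m + 1 + i = W * (x / (2 * W) + 1 + (H / W) * m) + (i + 1) := by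
            obtain ⟨w, hw⟩ := hHW
            have : H / W = w := by rw [hw]; exact Nat.mul_div_cancel_left w hW
            rw [this, hs]
            unfold sx
            rw [hw]
            ring
          rw [h6, Nat.coprime_mul_left_add_left]
          exact h5
        have hnx : ((s + H * m + 1 + i : ℕ) : ℝ) ≤ x := by exact_mod_cast (by omega : s + H * m + 1 + i ≤ x)
        have hnp : (1 : ℝ) < ((s + H * m + 1 + i : ℕ) : ℝ) := by exact_mod_cast (by omega : 1 < s + H * m + 1 + i)
        have hln : Real.log ((s + H * m + 1 + i : ℕ) : ℝ) ≤ L := Real.log_le_log (by linarith only [hnp]) hnx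
        have hln0 : 0 < Real.log ((s + H * m + 1 + i : ℕ) : ℝ) := Real.log_pos hnp
        show lm ≤ (1 - δ) * rhoW W (s + H * m + 1 + i)
        unfold rhoW
        rw [if_pos hn]
        have e1 : 1 / L ≤ min 1 (((W : ℝ) / Nat.totient W) / Real.log ((s + H * m + 1 + i : ℕ) : ℝ)) := by
          apply le_min
          · rw [div_le_one hLp]; linarith only [hL1]
          · exact div_le_div₀ (by linarith only [hWφ1]) hWφ1 hln0 hln
        have e2 : lm ≤ (1 - δ) * (1 / L) := by
          have : lm = 1 / 2 * (1 / L) := by rw [hlm]; field_simp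
          rw [this]
          apply mul_le_mul_of_nonneg_right (by linarith only [hδ1]) (by positivity)
        exact e2.trans (mul_le_mul_of_nonneg_left e1 (by linarith only [hδ1]))) (by linarith only [hδ1]) (fun i _ => hu0 _) (by
        intro i hi
        show 2 * up W δ (s + H * m + 1 + i) ≤ δ
        have e0 : up W δ (s + H * m + 1 + i) ≤ (1 + δ) * rhoW W (s + H * m + 1 + i) := min_le_right _ _
        have hls := hlogs (s + H * m + 1 + i) (by omega)
        have e1 : rhoW W (s + H * m + 1 + i) ≤ W / ((1 - δ) * L) := by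
          have hpos : 0 < (1 - δ) * L := mul_pos (by linarith only [hδ1]) hLp
          unfold rhoW
          split_ifs
          · refine (min_le_right _ _).trans ?_
            exact div_le_div₀ (by linarith only [hW']) hWφ2 hpos hls
          · positivity
        have e2 : (W : ℝ) / ((1 - δ) * L) ≤ δ / 3 := by
          have hpos : 0 < (1 - δ) * L := mul_pos (by linarith only [hδ1]) hLp
          rw [div_le_iff₀ hpos]
          nlinarith only [hLW, hδ1, hLp, hδ0, mul_pos hδ0 hLp]
        nlinarith only [e0, e1, e2, hδ0, hδ1]) (by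
        apply Finset.card_le_card_of_injOn (fun i => i + 1)
        · intro i hi
          exact (Finset.mem_filter.1 (Finset.mem_coe.1 hi)).2
        · intro i _ j _ h
          have : i + 1 = j + 1 := h
          omega)
    refine le_trans ?_ key
    rw [hπ]
    apply mul_le_mul_of_nonneg_left _ (by positivity)
    apply Real.exp_le_exp.2
    have := mul_le_mul_of_nonneg_left hsum (show 0 ≤ 1 + δ by linarith only [hδ0])
    linarith only [this]
  have hblk := pat_blocks (μ := μ) (ℱ := ℱ) hA hl0 hl1 hu0 hu1 R s H M hprod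
  refine (measureReal_mono ?_ (measure_ne_top _ _)).trans (hblk.trans ?_)
  · rintro ω ⟨g1, g2⟩
    exact ⟨g1, fun n hn1 hn2 => g2 n (by omega) (by omega)⟩
  · apply Real.exp_le_exp.2
    apply neg_le_neg
    -- lower bound for `π`
    have hπlow : (x : ℝ) ^ (-(1 - ε / 2)) ≤ π := by
      have e1 : lm ^ R.card = Real.exp (-(R.card * (Real.log 2 + Real.log L))) := by
        rw [← Real.log_mul (by norm_num) hLp.ne', hlm, one_div, ← Real.exp_log (show 0 < (2 * L)⁻¹ by positivity), ← Real.exp_nat_mul, Real.log_inv]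
        congr 1
        ring
      rw [hπ, e1, ← Real.exp_add, Real.rpow_def_of_pos hxp]
      apply Real.exp_le_exp.2
      have e2 : Real.log 2 ≤ 1 := by linarith only [Real.log_two_lt_d9]
      have e3 : (R.card : ℝ) * (Real.log 2 + Real.log L) ≤ (R.card : ℝ) * (Real.log L + 1) :=
        mul_le_mul_of_nonneg_left (by linarith only [e2]) (Nat.cast_nonneg _)
      have hpos : 0 < (1 - δ) * L := mul_pos (by linarith only [hδ1]) hLp
      have e4 : (1 + δ) * ((1 + δ) * ((H + 2 * W) / ((1 - δ) * L))) ≤ (1 + 5 * δ) * ((H + 2 * W) / L) := by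
        have f1 : (1 + δ) * (1 + δ) / (1 - δ) ≤ 1 + 5 * δ := by
          rw [div_le_iff₀ (by linarith only [hδ1])]
          nlinarith only [hδ0, hδ1]
        have f2 : (1 + δ) * ((1 + δ) * ((H + 2 * W) / ((1 - δ) * L))) = (1 + δ) * (1 + δ) / (1 - δ) * ((H + 2 * W) / L) := by
          have : (1 - δ) ≠ 0 := by linarith only [hδ1]
          field_simp
        rw [f2]
        exact mul_le_mul_of_nonneg_right f1 (by positivity)
      have e5 : ((H : ℝ) + 2 * W) / L = H / L + 2 * W / L := add_div _ _ _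
      have e6 : 2 * (W : ℝ) / L ≤ δ := by
        rw [div_le_iff₀ hLp]
        linarith only [hLW, hW']
      have e7 : 0 ≤ (H : ℝ) / L := by positivity
      have e8 : 0 ≤ (R.card : ℝ) * (Real.log L + 1) := by
        have : 0 ≤ Real.log L := Real.log_nonneg (by linarith only [hL1])
        positivity
      have e9 : (1 + 5 * δ) * ((1 - ε) * L) ≤ (1 - ε / 2) * L - δ * L := by
        have : (1 + 5 * δ) * (1 - ε) ≤ 1 - ε / 2 - δ := by rw [hδ]; nlinarith only [hε0, hε1]
        have := mul_le_mul_of_nonneg_right this hLp.le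
        linarith only [this]
      have e10 : (R.card : ℝ) * (Real.log L + 1) + (1 + 5 * δ) * (H / L) ≤ (1 + 5 * δ) * ((1 - ε) * L) := by
        have f1 := mul_le_mul_of_nonneg_left hcost (show 0 ≤ 1 + 5 * δ by linarith only [hδ0])
        have f2 : 0 ≤ 5 * δ * ((R.card : ℝ) * (Real.log L + 1)) := by positivity
        linarith only [f1, f2]
      have e11 : (1 + 5 * δ) * (2 * W / L) ≤ (1 + 5 * δ) * δ := mul_le_mul_of_nonneg_left e6 (by linarith only [hδ0])
      have e12 : (1 + 5 * δ) * δ ≤ δ * L := by nlinarith only [hδ0, hδ1, hL1]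
      rw [e5, mul_add] at e4
      linarith only [e3, e4, e9, e10, e11, e12]
    -- the number of blocks
    have hMlow : (x : ℝ) / (8 * L ^ 2) ≤ M := by
      have e1 : (x : ℝ) / (4 * H) < M + 1 := by
        have f1 := Nat.lt_floor_add_one ((x : ℝ) / (4 * H))
        have f2 : ⌊(x : ℝ) / (4 * H)⌋₊ = M := by
          have : ((4 * H : ℕ) : ℝ) = 4 * (H : ℝ) := by push_cast; ring
          rw [← this, Nat.floor_div_eq_div]
        rw [f2] at f1
        exact f1
      have e2 : (x : ℝ) / (4 * L ^ 2) ≤ x / (4 * H) := by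
        apply div_le_div_of_nonneg_left hxp.le (by positivity)
        linarith only [hHL]
      have e3 : 1 ≤ (x : ℝ) / (8 * L ^ 2) := by
        rw [le_div_iff₀ (by positivity), one_mul]
        have f1 : 16 * (L + 1) * (x : ℝ) ^ (0 : ℝ) ≤ (x : ℝ) ^ (ε / 16) := h3
        rw [Real.rpow_zero, mul_one] at f1
        have f2 : (x : ℝ) ^ (ε / 16) ≤ (x : ℝ) ^ (1 / 2 : ℝ) := Real.rpow_le_rpow_of_exponent_le hx1.le (by linarith only [hε1])
        have f3 : (x : ℝ) ^ (1 / 2 : ℝ) * (x : ℝ) ^ (1 / 2 : ℝ) = x := by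
          rw [← Real.rpow_add hxp]; norm_num
        have f4 : 16 * L ≤ (x : ℝ) ^ (1 / 2 : ℝ) := by linarith only [f1, f2]
        nlinarith only [f3, f4, hLp]
      have e4 : (x : ℝ) / (4 * L ^ 2) = 2 * (x / (8 * L ^ 2)) := by field_simp; norm_num
      linarith only [e1, e2, e3, e4]
    have hfin : (x : ℝ) ^ (ε / 4) ≤ (x : ℝ) / (8 * L ^ 2) * (x : ℝ) ^ (-(1 - ε / 2)) := by
      rw [div_mul_eq_mul_div, le_div_iff₀ (by positivity)]
      have e1 : (x : ℝ) * (x : ℝ) ^ (-(1 - ε / 2)) = (x : ℝ) ^ (ε / 4) * (x : ℝ) ^ (ε / 4) := by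
        nth_rw 1 [← Real.rpow_one (x : ℝ)]
        rw [← Real.rpow_add hxp, ← Real.rpow_add hxp]
        congr 1
        ring
      rw [e1]
      apply mul_le_mul_of_nonneg_left _ (by positivity)
      have f1 : 16 * (L + 1) * (x : ℝ) ^ (0 : ℝ) ≤ (x : ℝ) ^ (ε / 16) := h3
      rw [Real.rpow_zero, mul_one] at f1
      have f3 : (x : ℝ) ^ (ε / 16) * (x : ℝ) ^ (ε / 16) ≤ (x : ℝ) ^ (ε / 4) := by
        rw [← Real.rpow_add hxp]
        apply Real.rpow_le_rpow_of_exponent_le hx1.le
        linarith only [hε0]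
      nlinarith only [f1, f3, hLp]
    calc (x : ℝ) ^ (ε / 4) ≤ (x : ℝ) / (8 * L ^ 2) * (x : ℝ) ^ (-(1 - ε / 2)) := hfin
      _ ≤ M * π := mul_le_mul hMlow hπlow (by positivity) (Nat.cast_nonneg _)

end Pool.Agent.R528.RM
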