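import Mathlib
import Pool.Agent.R528.RM.Pat1

set_option autoImplicit false
set_option linter.unusedSectionVars false
set_option linter.unusedVariables false

/-! # All cheap patterns occur: the almost sure statement -/

open MeasureTheory Filter Set
open scoped ENNReal Topology

namespace Pool.Agent.R528.RM

variable {Ω : Type} {m0 : MeasurableSpace Ω} {μ : Measure Ω} [IsProbabilityMeasure μ]
  {ℱ : Filtration ℕ m0} {A : ℕ → Set Ω}

/-- the number of small subsets -/
lemma card_small (H K : ℕ) : (((Finset.Icc 1 H).powerset).filter (fun R => R.card ≤ K)).card ≤ (H + 1) ^ K := by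
  classical
  have h1 : (Finset.univ : Finset (Fin K → Fin (H + 1))).card = (H + 1) ^ K := by
    rw [Finset.card_univ, Fintype.card_fun, Fintype.card_fin, Fintype.card_fin]
  rw [← h1]
  apply Finset.card_le_card_of_surjOn (fun f => (Finset.univ.image (fun i => (f i : ℕ))).filter (fun n => 1 ≤ n))
  intro R hR
  obtain ⟨h2, h3⟩ := Finset.mem_filter.1 (Finset.mem_coe.1 hR)
  have h2' := Finset.mem_powerset.1 h2
  -- an enumeration
  have h4 : ∀ r ∈ R, r < H + 1 := fun r hr => by have := Finset.mem_Icc.1 (h2' hr); omega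
  set e := R.orderEmbOfFin rfl with he
  refine ⟨fun i => if h : (i : ℕ) < R.card then ⟨e ⟨i, h⟩, h4 _ (Finset.orderEmbOfFin_mem R rfl _)⟩ else 0, Finset.mem_coe.2 (Finset.mem_univ _), ?_⟩
  ext n
  simp only [Finset.mem_filter, Finset.mem_image, Finset.mem_univ, true_and]
  constructor
  · rintro ⟨⟨i, hi⟩, hn⟩
    by_cases h : (i : ℕ) < R.card
    · rw [dif_pos h] at hi
      rw [← hi]
      exact Finset.orderEmbOfFin_mem R rfl _
    · rw [dif_neg h] at hi
      have : (0 : ℕ) = n := hi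
      omega
  · intro hn
    have h5 := Finset.mem_Icc.1 (h2' hn)
    refine ⟨?_, h5.1⟩
    have h6 : n ∈ Set.range e := by
      rw [he, Finset.range_orderEmbOfFin]
      exact hn
    obtain ⟨j, hj⟩ := h6
    refine ⟨⟨j, lt_of_lt_of_le j.2 h3⟩, ?_⟩
    rw [dif_pos (show ((⟨j, lt_of_lt_of_le j.2 h3⟩ : Fin K) : ℕ) < R.card from j.2)]
    exact hj

/-- **every cheap pattern occurs** -/
theorem pat_all (hA : ∀ n, MeasurableSet[ℱ n] (A n)) {W : ℕ} (hW : 0 < W)
    (hd : ∀ᵐ ω ∂μ, ∀ ε : ℝ, 0 < ε → ∀ᶠ n : ℕ in atTop, |dens μ ℱ A n ω - rhoW W (n + 1)| ≤ ε * rhoW W (n + 1))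
    {ε : ℝ} (hε0 : 0 < ε) (hε1 : ε < 1) :
    ∀ᵐ ω ∂μ, ∀ᶠ x : ℕ in atTop, ∀ (R : Finset ℕ) (H : ℕ), Cheap W ε x R H →
      ∃ t : ℕ, x ≤ 2 * t ∧ t + H ≤ x ∧ W ∣ t ∧ ω ∈ PatE A (fun n => n - t ∈ R) t H := by
  classical
  set B : ℕ → Finset ℕ → ℕ → Set Ω := fun x R H => {ω | (∀ m < x / (4 * H), ω ∉ PatE A (fun n => n - (sx W x + H * m) ∈ R) (sx W x + H * m) H) ∧
        ∀ n, x ≤ 2 * n → n < x → ω ∉ VB μ ℱ A (lp W (ε / 20)) (up W (ε / 20)) n} with hB
  have hb : ∀ᶠ x : ℕ in atTop, μ.real {ω | ∃ (R : Finset ℕ) (H : ℕ), Cheap W ε x R H ∧ ω ∈ B x R H} ≤ (x : ℝ) ^ (-2 : ℝ) := by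
    filter_upwards [pat_prob (μ := μ) (ℱ := ℱ) hA hW hε0 hε1, ev_log 10, ev_pow (a := 0) (b := ε / 4) (by positivity) 5,
      ev_pow (a := 0) (b := 1 / 2) (by norm_num) 4, (Real.tendsto_log_atTop.comp tendsto_log).eventually_ge_atTop 1] with x h1 h2 h3 h3' h4
    rw [Real.rpow_zero, mul_one] at h3 h3'
    have hll : 1 ≤ Real.log (Real.log x) := h4
    set L : ℝ := Real.log x with hL
    have hLp : 0 < L := by linarith only [h2]
    have hxp : (0 : ℝ) < x := by
      by_contra hcon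
      push Not at hcon
      have : (x : ℝ) = 0 := le_antisymm hcon (Nat.cast_nonneg _)
      rw [hL, this, Real.log_zero] at h2
      linarith only [h2]
    set HM : ℕ := ⌊L ^ 2⌋₊ with hHM
    set K : ℕ := ⌊L / (Real.log L + 1)⌋₊ with hK
    set I : Finset (Finset ℕ × ℕ) := (Finset.range (HM + 1)).biUnion (fun H => (((Finset.Icc 1 H).powerset).filter (fun R => R.card ≤ K)).image (fun R => (R, H))) with hI
    have hmem : ∀ (R : Finset ℕ) (H : ℕ), Cheap W ε x R H → (R, H) ∈ I := by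
      rintro R H ⟨c1, c2, c3, c4⟩
      have e0 : (1 - ε) * L ≤ L := by nlinarith only [hε0, hLp]
      have e1 : 0 ≤ (H : ℝ) / L := by positivity
      have e2 : 0 ≤ (R.card : ℝ) * (Real.log L + 1) := by positivity
      rw [← hL] at c4
      rw [hI, Finset.mem_biUnion]
      refine ⟨H, ?_, ?_⟩
      · rw [Finset.mem_range, Nat.lt_succ_iff]
        apply Nat.le_floor
        have : (H : ℝ) / L ≤ L := by linarith only [e0, e2, c4]
        rw [div_le_iff₀ hLp] at this
        linarith only [this]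
      · rw [Finset.mem_image]
        refine ⟨R, ?_, rfl⟩
        rw [Finset.mem_filter, Finset.mem_powerset]
        refine ⟨fun r hr => Finset.mem_Icc.2 ⟨(c3 r hr).1, (c3 r hr).2.1⟩, ?_⟩
        apply Nat.le_floor
        rw [le_div_iff₀ (by linarith only [hll])]
        linarith only [e0, e1, c4]
    have hsub : {ω | ∃ (R : Finset ℕ) (H : ℕ), Cheap W ε x R H ∧ ω ∈ B x R H} ⊆
        ⋃ i ∈ I.filter (fun i => Cheap W ε x i.1 i.2), B x i.1 i.2 := by
      rintro ω ⟨R, H, g1, g2⟩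
      exact mem_biUnion (x := (R, H)) (Finset.mem_coe.2 (Finset.mem_filter.2 ⟨hmem R H g1, g1⟩)) g2
    refine (measureReal_mono hsub (measure_ne_top _ _)).trans ((measureReal_biUnion_finset_le _ _).trans ?_)
    refine (Finset.sum_le_sum fun i hi => h1 i.1 i.2 (Finset.mem_filter.1 hi).2).trans ?_
    rw [Finset.sum_const, nsmul_eq_mul]
    -- the number of patterns
    have hcard : ((I.filter (fun i => Cheap W ε x i.1 i.2)).card : ℝ) ≤ (x : ℝ) ^ (3 : ℝ) := by
      have e1 : I.card ≤ ∑ H ∈ Finset.range (HM + 1), (HM + 1) ^ K := by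
        rw [hI]
        refine Finset.card_biUnion_le.trans (Finset.sum_le_sum fun H hH => ?_)
        refine Finset.card_image_le.trans ((card_small H K).trans ?_)
        exact Nat.pow_le_pow_left (by have := Finset.mem_range.1 hH; omega) K
      rw [Finset.sum_const, Finset.card_range, smul_eq_mul] at e1
      have e2 : ((I.filter (fun i => Cheap W ε x i.1 i.2)).card : ℝ) ≤ ((HM + 1 : ℕ) : ℝ) * ((HM + 1 : ℕ) : ℝ) ^ K := by
        have := (Finset.card_filter_le I (fun i => Cheap W ε x i.1 i.2)).trans e1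
        exact_mod_cast this
      refine e2.trans ?_
      have e3 : ((HM + 1 : ℕ) : ℝ) ≤ 2 * L ^ 2 := by
        push_cast
        have : (HM : ℝ) ≤ L ^ 2 := Nat.floor_le (by positivity)
        nlinarith only [this, h2]
      have e4 : (2 : ℝ) * L ^ 2 ≤ x := by
        have f3 : (x : ℝ) ^ (1 / 2 : ℝ) * (x : ℝ) ^ (1 / 2 : ℝ) = x := by
          rw [← Real.rpow_add hxp]; norm_num
        nlinarith only [f3, h3', hLp]
      have e5 : ((HM + 1 : ℕ) : ℝ) ^ K ≤ (x : ℝ) ^ (2 : ℝ) * 1 := by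
        have f0 : (0 : ℝ) < ((HM + 1 : ℕ) : ℝ) := by positivity
        have f1 : ((HM + 1 : ℕ) : ℝ) ^ K = Real.exp (K * Real.log ((HM + 1 : ℕ) : ℝ)) := by
          rw [mul_comm, Real.exp_mul, Real.exp_log f0, Real.rpow_natCast]
        rw [f1, mul_one, Real.rpow_def_of_pos hxp]
        apply Real.exp_le_exp.2
        have f2 : Real.log ((HM + 1 : ℕ) : ℝ) ≤ 2 * (Real.log L + 1) := by
          have g2 : Real.log ((HM + 1 : ℕ) : ℝ) ≤ Real.log (2 * L ^ 2) := Real.log_le_log f0 e3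
          rw [Real.log_mul (by norm_num) (by positivity), Real.log_pow] at g2
          have g3 : Real.log 2 ≤ 1 := by linarith only [Real.log_two_lt_d9]
          push_cast at g2
          push_cast
          linarith only [g2, g3]
        have f3 : (K : ℝ) ≤ L / (Real.log L + 1) := Nat.floor_le (by positivity)
        have f4 : (K : ℝ) * Real.log ((HM + 1 : ℕ) : ℝ) ≤ (L / (Real.log L + 1)) * (2 * (Real.log L + 1)) := by
          apply mul_le_mul f3 f2 (Real.log_nonneg (by push_cast; linarith [Nat.cast_nonneg (α := ℝ) HM])) (by positivity)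
        have f5 : (L / (Real.log L + 1)) * (2 * (Real.log L + 1)) = L * 2 := by
          have : Real.log L + 1 ≠ 0 := by linarith only [hll]
          field_simp
        linarith only [f4, f5]
      have e6 : (x : ℝ) ^ (3 : ℝ) = x * (x : ℝ) ^ (2 : ℝ) := by
        rw [show (3 : ℝ) = 1 + 2 by norm_num, Real.rpow_add hxp, Real.rpow_one]
      rw [e6]
      exact mul_le_mul (e3.trans e4) (by linarith only [e5]) (by positivity) hxp.le
    have hexp : Real.exp (-((x : ℝ) ^ (ε / 4))) ≤ (x : ℝ) ^ (-5 : ℝ) := by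
      have e1 : (x : ℝ) ^ (-5 : ℝ) = Real.exp (Real.log x * (-5)) := Real.rpow_def_of_pos hxp _
      rw [e1]
      apply Real.exp_le_exp.2
      rw [← hL]
      linarith only [h3]
    calc ((I.filter (fun i => Cheap W ε x i.1 i.2)).card : ℝ) * Real.exp (-((x : ℝ) ^ (ε / 4))) ≤ (x : ℝ) ^ (3 : ℝ) * (x : ℝ) ^ (-5 : ℝ) :=
          mul_le_mul hcard hexp (Real.exp_pos _).le (by positivity)
      _ = (x : ℝ) ^ (-2 : ℝ) := by rw [← Real.rpow_add hxp]; norm_num
  have h01 : ∀ᵐ ω ∂μ, ∀ n, 0 ≤ dens μ ℱ A n ω ∧ dens μ ℱ A n ω ≤ 1 := ae_all_iff.2 fun n => dens01 hA n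
  filter_upwards [bc_real (μ := μ) (summable_pow_nat (s := -2) (by norm_num)) hb, hd, h01] with ω hω hdω h01ω
  obtain ⟨N, hN⟩ := dens_two hdω (show 0 < ε / 20 by positivity)
  filter_upwards [hω, eventually_ge_atTop (2 * N + 1), eventually_ge_atTop (4 * W)] with x h1 h2 h3 R H hc
  have hv : ∀ n, x ≤ 2 * n → n < x → ω ∉ VB μ ℱ A (lp W (ε / 20)) (up W (ε / 20)) n := by
    intro n hn _
    rintro hcon
    apply hcon
    have g1 := (hN N le_rfl).1 n (by omega)
    have g2 := (hN N le_rfl).2 n (by omega)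
    exact ⟨g2, le_min (h01ω n).2 g1⟩
  have h4 : ω ∉ B x R H := fun h => h1 ⟨R, H, hc, h⟩
  have h5 : ∃ m < x / (4 * H), ω ∈ PatE A (fun n => n - (sx W x + H * m) ∈ R) (sx W x + H * m) H := by
    by_contra hcon
    push Not at hcon
    exact h4 ⟨hcon, hv⟩
  obtain ⟨m, hm, h6⟩ := h5
  obtain ⟨hs1, hs2⟩ := sx_bounds hW x
  obtain ⟨c1, c2, c3, c4⟩ := hc
  refine ⟨sx W x + H * m, by omega, ?_, ?_, h6⟩
  · have hM4 : 4 * (H * (x / (4 * H))) ≤ x := by
      have := Nat.mul_div_le x (4 * H)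
      linarith only [this]
    have hmM : H * m + H ≤ H * (x / (4 * H)) := by
      have : H * (m + 1) ≤ H * (x / (4 * H)) := Nat.mul_le_mul_left _ hm
      linarith only [this]
    omega
  · apply Dvd.dvd.add
    · exact Dvd.intro _ rfl
    · exact c2.mul_right m

end Pool.Agent.R528.RM
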