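import Mathlib
import Pool.Agent.R528.RM.Pat2
import Pool.Agent.R528.RM.Final

set_option autoImplicit false
set_option linter.unusedSectionVars false
set_option linter.unusedVariables false

/-! # Gaps are at most the square of the logarithm -/

open MeasureTheory Filter Set
open scoped ENNReal Topology

namespace Pool.Agent.R528.RM

variable {Ω : Type} {m0 : MeasurableSpace Ω} {μ : Measure Ω} [IsProbabilityMeasure μ]
  {ℱ : Filtration ℕ m0} {A : ℕ → Set Ω}

/-- no long gaps -/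
theorem norun (hA : ∀ n, MeasurableSet[ℱ n] (A n)) {W : ℕ} (hW : 0 < W)
    (hd : ∀ᵐ ω ∂μ, ∀ ε : ℝ, 0 < ε → ∀ᶠ n : ℕ in atTop, |dens μ ℱ A n ω - rhoW W (n + 1)| ≤ ε * rhoW W (n + 1))
    {ε : ℝ} (hε0 : 0 < ε) (hε1 : ε < 1) :
    ∀ᵐ ω ∂μ, ∀ᶠ y : ℕ in atTop, ∃ n : ℕ, y < n ∧ (n : ℝ) ≤ y + (1 + ε) * Real.log y ^ 2 ∧ ω ∈ A n := by
  classical
  set δ : ℝ := ε / 20 with hδ
  have hδ0 : 0 < δ := by positivity
  have hδ1 : δ ≤ 1 / 20 := by linarith
  have hφ : (1 : ℝ) ≤ Nat.totient W := by exact_mod_cast Nat.totient_pos.2 hW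
  have hW' : (1 : ℝ) ≤ W := by exact_mod_cast hW
  have hWφ2 : (W : ℝ) / Nat.totient W ≤ W := div_le_self (by linarith) hφ
  set l : ℕ → ℝ := fun n => (1 - δ) * rhoW W n with hl
  have hl1 : ∀ n, l n ≤ 1 := by
    intro n
    have h1 := rhoW_le W n
    have h2 := rhoW_nonneg W n
    show (1 - δ) * rhoW W n ≤ 1
    nlinarith only [h1, h2, hδ0, hδ1]
  have hb : ∀ᶠ y : ℕ in atTop, μ.real ({ω | ∀ t ∈ cls W 1 0 y (y + ⌊(1 + ε) * Real.log y ^ 2⌋₊), ω ∉ A t} ∩
      LBs μ ℱ A l y (y + ⌊(1 + ε) * Real.log y ^ 2⌋₊)) ≤ (y : ℝ) ^ (-(1 + ε / 2)) := by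
    filter_upwards [ev_log ((4 * W + 4) / δ), eventually_gt_atTop 1, ev_pow (a := 0) (b := 1 / 4) (by norm_num) 2] with y h1 h2 h3
    have hy : (1 : ℝ) < y := by exact_mod_cast h2
    have hyp : (0 : ℝ) < y := by linarith only [hy]
    rw [Real.rpow_zero, mul_one] at h3
    set L : ℝ := Real.log y with hL
    rw [div_le_iff₀ hδ0] at h1
    have hL1 : 8 ≤ L := by
      nlinarith only [h1, hδ1, hW', hδ0]
    have hLp : 0 < L := by linarith only [hL1]
    set h : ℕ := ⌊(1 + ε) * L ^ 2⌋₊ with hh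
    have hh1 : (h : ℝ) ≤ (1 + ε) * L ^ 2 := Nat.floor_le (by positivity)
    have hh2 : (1 + ε) * L ^ 2 < h + 1 := Nat.lt_floor_add_one _
    have hhy : ((y + h : ℕ) : ℝ) ≤ y * y := by
      push_cast
      have f1 : (y : ℝ) ^ (1 / 4 : ℝ) * (y : ℝ) ^ (1 / 4 : ℝ) * ((y : ℝ) ^ (1 / 4 : ℝ) * (y : ℝ) ^ (1 / 4 : ℝ)) = y := by
        rw [← Real.rpow_add hyp, ← Real.rpow_add hyp]; norm_num
      have f2 : (h : ℝ) ≤ 2 * L ^ 2 := by nlinarith only [hh1, hε1, hLp]
      have f3 : 1 ≤ (y : ℝ) ^ (1 / 4 : ℝ) := Real.one_le_rpow hy.le (by norm_num)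
      have f4 : 2 * (L + 1) * (2 * (L + 1)) ≤ (y : ℝ) ^ (1 / 4 : ℝ) * (y : ℝ) ^ (1 / 4 : ℝ) := mul_le_mul h3 h3 (by positivity) (by positivity)
      have f5 : (y : ℝ) ^ (1 / 4 : ℝ) * (y : ℝ) ^ (1 / 4 : ℝ) ≤ y := by
        nth_rw 3 [← f1]
        have : 1 ≤ (y : ℝ) ^ (1 / 4 : ℝ) * (y : ℝ) ^ (1 / 4 : ℝ) := by nlinarith only [f3]
        nlinarith only [this]
      have f6 : (h : ℝ) ≤ y := by nlinarith only [f2, f4, f5, hLp]
      have f7 : (2 : ℝ) ≤ y := by exact_mod_cast h2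
      nlinarith only [f6, f7]
    have hlogt : Real.log ((y + h : ℕ) : ℝ) ≤ (1 + δ) * L := by
      have f1 : Real.log ((y + h : ℕ) : ℝ) = L + Real.log (1 + h / y) := by
        rw [hL, ← Real.log_mul hyp.ne' (by positivity)]
        congr 1
        push_cast
        field_simp
      have f2 : Real.log (1 + (h : ℝ) / y) ≤ h / y := by
        have := Real.log_le_sub_one_of_pos (show 0 < 1 + (h : ℝ) / y by positivity)
        linarith only [this]
      have f3 : (h : ℝ) / y ≤ 1 := by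
        rw [div_le_one hyp]
        have f1 : (y : ℝ) ^ (1 / 4 : ℝ) * (y : ℝ) ^ (1 / 4 : ℝ) * ((y : ℝ) ^ (1 / 4 : ℝ) * (y : ℝ) ^ (1 / 4 : ℝ)) = y := by
          rw [← Real.rpow_add hyp, ← Real.rpow_add hyp]; norm_num
        have f2 : (h : ℝ) ≤ 2 * L ^ 2 := by nlinarith only [hh1, hε1, hLp]
        have f3 : 1 ≤ (y : ℝ) ^ (1 / 4 : ℝ) := Real.one_le_rpow hy.le (by norm_num)
        have f4 : 2 * (L + 1) * (2 * (L + 1)) ≤ (y : ℝ) ^ (1 / 4 : ℝ) * (y : ℝ) ^ (1 / 4 : ℝ) := mul_le_mul h3 h3 (by positivity) (by positivity)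
        have f5 : (y : ℝ) ^ (1 / 4 : ℝ) * (y : ℝ) ^ (1 / 4 : ℝ) ≤ y := by
          nth_rw 3 [← f1]
          have : 1 ≤ (y : ℝ) ^ (1 / 4 : ℝ) * (y : ℝ) ^ (1 / 4 : ℝ) := by nlinarith only [f3]
          nlinarith only [this]
        nlinarith only [f2, f4, f5, hLp]
      have f4 : 1 ≤ δ * L := by linarith only [h1, hW']
      linarith only [f1, f2, f3, f4]
    have hlogy : (W : ℝ) / Nat.totient W ≤ Real.log y := by
      rw [← hL]
      nlinarith only [hWφ2, h1, hδ1, hLp, hW']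
    have hρ := (rho_cls1 (W := W) (q := 1) (a := 0) (s := y) (t := y + h) hW one_pos (zero_mem_admW W) (by omega) hlogy (by omega)).1
    rw [adm_oneW] at hρ
    have hv : (1 + ε / 2) * L ≤ ∑ t ∈ cls W 1 0 y (y + h), l t := by
      simp only [hl]
      rw [← Finset.mul_sum]
      have e1 := mul_le_mul_of_nonneg_left hρ (show 0 ≤ 1 - δ by linarith only [hδ1])
      refine le_trans ?_ e1
      have hlp : 0 < Real.log ((y + h : ℕ) : ℝ) := Real.log_pos (by push_cast; linarith [Nat.cast_nonneg (α := ℝ) h])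
      rw [mul_div_assoc', le_div_iff₀ (by rw [Nat.cast_one, one_mul]; exact hlp)]
      push_cast
      push_cast at hlogt
      have e2 : (1 + ε / 2) * L * (1 * Real.log ((y : ℝ) + h)) ≤ (1 + ε / 2) * L * ((1 + δ) * L) := by
        rw [one_mul]
        exact mul_le_mul_of_nonneg_left hlogt (by positivity)
      refine e2.trans ?_
      have e3 : (1 + ε / 2) * (1 + δ) + δ ≤ (1 - δ) * (1 + ε) := by rw [hδ]; nlinarith only [hε0, hε1]
      have e4 := mul_le_mul_of_nonneg_right e3 (show 0 ≤ L ^ 2 by positivity)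
      have e5 : 2 * (W : ℝ) + 1 ≤ δ * L ^ 2 := by nlinarith only [h1, hL1, hW', hδ0, mul_pos hδ0 hLp]
      have e6 : (1 - δ) * ((y : ℝ) + h - y - 2 * (1 * W)) = (1 - δ) * (h - 2 * W) := by ring
      rw [e6]
      nlinarith only [e4, e5, hh2, hδ0, hδ1, hW']
    refine (absent_exp (μ := μ) hA l hl1 y (y + h) (cls W 1 0 y (y + h)) (fun t ht => (mem_cls.1 ht).1) hv).trans (le_of_eq ?_)
    rw [Real.rpow_def_of_pos hyp, ← hL]
    congr 1
    ring
  filter_upwards [bc_real (μ := μ) (summable_pow_nat (s := -(1 + ε / 2)) (by linarith)) hb, hd] with ω hω hdω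
  obtain ⟨N, hN⟩ := dens_two hdω hδ0
  filter_upwards [hω, eventually_ge_atTop N] with y h1 h2
  by_contra hcon
  push Not at hcon
  apply h1
  refine ⟨fun t ht => ?_, fun n hn _ => (hN N le_rfl).2 n (h2.trans hn)⟩
  have g1 := (mem_cls.1 ht).1
  apply hcon t g1.1
  have g2 : (t : ℝ) ≤ y + (⌊(1 + ε) * Real.log y ^ 2⌋₊ : ℕ) := by exact_mod_cast g1.2
  have g3 : ((⌊(1 + ε) * Real.log y ^ 2⌋₊ : ℕ) : ℝ) ≤ (1 + ε) * Real.log y ^ 2 := Nat.floor_le (by positivity)
  linarith only [g2, g3]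

/-- growth of the members and of the gaps -/
lemma gaps_le {S : Set ℕ} {ε : ℝ} (hε0 : 0 < ε) (hε1 : ε < 1)
    (h : ∀ᶠ y : ℕ in atTop, ∃ n : ℕ, y < n ∧ (n : ℝ) ≤ y + (1 + ε) * Real.log y ^ 2 ∧ n ∈ S) :
    S.Infinite ∧ ∀ᶠ x : ℕ in atTop, ∀ n : ℕ, n ≤ x → (pn S (n + 1) : ℝ) - pn S n ≤ (1 + ε) ^ 3 * Real.log x ^ 2 := by
  obtain ⟨y₀, hy₀⟩ := eventually_atTop.1 h
  have hinf : S.Infinite := by
    apply Set.infinite_of_not_bddAbove
    rintro ⟨B, hB⟩
    obtain ⟨n, h1, _, h2⟩ := hy₀ (max y₀ B) (le_max_left _ _)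
    have := hB h2
    have := le_max_right y₀ B
    omega
  refine ⟨hinf, ?_⟩
  have hmono := nth_mono hinf
  -- one step
  have hstep : ∀ n, y₀ ≤ pn S n → (pn S (n + 1) : ℝ) - pn S n ≤ (1 + ε) * Real.log (pn S n) ^ 2 := by
    intro n hn
    obtain ⟨m, h1, h2, h3⟩ := hy₀ _ hn
    obtain ⟨k, hk⟩ := exists_nth h3
    have h4 : n < k := by
      by_contra hcon
      push Not at hcon
      have := hmono.monotone hcon
      omega
    have h5 : pn S (n + 1) ≤ m := by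
      rw [← hk]
      exact hmono.monotone h4
    have h6 : (pn S (n + 1) : ℝ) ≤ m := by exact_mod_cast h5
    linarith only [h2, h6]
  obtain ⟨n₀, hn₀⟩ : ∃ n₀, y₀ + 1 ≤ pn S n₀ := ⟨y₀ + 1, hmono.id_le _⟩
  set K : ℕ := pn S (n₀ + 1) with hK
  filter_upwards [ev_pow (a := 0) (b := ε / 4) (by positivity) 8, ev_log (K + 1), eventually_gt_atTop (K + 1),
    eventually_gt_atTop 1] with x h1 h2 h3 h4
  rw [Real.rpow_zero, mul_one] at h1
  have hx1 : (1 : ℝ) < x := by exact_mod_cast h4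
  have hxp : (0 : ℝ) < x := by linarith only [hx1]
  set L : ℝ := Real.log x with hL
  have hK0 : (0 : ℝ) ≤ K := Nat.cast_nonneg _
  have hL1 : 1 ≤ L := by linarith only [h2, hK0]
  have hKx : (K : ℝ) ≤ x := by exact_mod_cast (by omega : K ≤ x)
  have hxε : 8 * L ^ 2 + 1 ≤ (x : ℝ) ^ ε := by
    have f1 : (x : ℝ) ^ (ε / 4) * (x : ℝ) ^ (ε / 4) ≤ (x : ℝ) ^ ε := by
      rw [← Real.rpow_add hxp]
      apply Real.rpow_le_rpow_of_exponent_le hx1.le
      linarith only [hε0]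
    have f2 : 8 * (L + 1) * (8 * (L + 1)) ≤ (x : ℝ) ^ (ε / 4) * (x : ℝ) ^ (ε / 4) := mul_le_mul h1 h1 (by positivity) (by positivity)
    nlinarith only [f1, f2, hL1]
  -- growth
  have hgrow : ∀ n, n₀ ≤ n → n ≤ x → (pn S n : ℝ) ≤ K + n * (8 * L ^ 2) := by
    intro n hn
    induction n, hn using Nat.le_induction with
    | base =>
      intro _
      have e1 : (pn S n₀ : ℝ) ≤ K := by exact_mod_cast hmono.monotone (Nat.le_succ n₀)
      have : 0 ≤ (n₀ : ℝ) * (8 * L ^ 2) := by positivity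
      linarith only [e1, this]
    | succ n hn ih =>
      intro hnx
      have e1 := ih (by omega)
      have hp : y₀ ≤ pn S n := by
        have := hmono.monotone hn
        omega
      have hp1 : 1 ≤ pn S n := by
        have := hmono.monotone hn
        omega
      have e2 := hstep n hp
      have hnx' : (n : ℝ) ≤ x := by exact_mod_cast (by omega : n ≤ x)
      have e3 : (pn S n : ℝ) ≤ x * (x : ℝ) ^ ε := by
        have f1 : (n : ℝ) * (8 * L ^ 2) ≤ x * (8 * L ^ 2) := mul_le_mul_of_nonneg_right hnx' (by positivity)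
        have f2 := mul_le_mul_of_nonneg_left hxε hxp.le
        linarith only [e1, f1, f2, hKx]
      have e4 : Real.log (pn S n) ≤ 2 * L := by
        have hpp : (0 : ℝ) < pn S n := by exact_mod_cast hp1
        have f1 := Real.log_le_log hpp e3
        rw [Real.log_mul hxp.ne' (by positivity), Real.log_rpow hxp, ← hL] at f1
        nlinarith only [f1, hε1, hL1]
      have e5 : 0 ≤ Real.log (pn S n) := Real.log_nonneg (by exact_mod_cast hp1)
      have e6 : Real.log (pn S n) ^ 2 ≤ 4 * L ^ 2 := by nlinarith only [e4, e5]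
      have e7 : (1 + ε) * Real.log (pn S n) ^ 2 ≤ 2 * (4 * L ^ 2) := mul_le_mul (by linarith only [hε1]) e6 (by positivity) (by norm_num)
      push_cast
      linarith only [e1, e2, e7]
  intro n hnx
  have h13 : (1 : ℝ) ≤ (1 + ε) ^ 3 := one_le_pow₀ (by linarith only [hε0])
  rcases Nat.lt_or_ge n n₀ with hn | hn
  · have e1 : (pn S (n + 1) : ℝ) ≤ K := by exact_mod_cast hmono.monotone (by omega : n + 1 ≤ n₀ + 1)
    have e2 : (0 : ℝ) ≤ pn S n := Nat.cast_nonneg _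
    have e3 : (K : ℝ) ≤ L ^ 2 := by nlinarith only [h2, hL1, hK0]
    have e4 : 1 * L ^ 2 ≤ (1 + ε) ^ 3 * L ^ 2 := mul_le_mul_of_nonneg_right h13 (by positivity)
    linarith only [e1, e2, e3, e4]
  · have hp : y₀ ≤ pn S n := by
      have := hmono.monotone hn
      omega
    have hp1 : 1 ≤ pn S n := by
      have := hmono.monotone hn
      omega
    have e2 := hstep n hp
    have e1 := hgrow n hn hnx
    have hnx' : (n : ℝ) ≤ x := by exact_mod_cast hnx
    have e3 : (pn S n : ℝ) ≤ x * (x : ℝ) ^ ε := by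
      have f1 : (n : ℝ) * (8 * L ^ 2) ≤ x * (8 * L ^ 2) := mul_le_mul_of_nonneg_right hnx' (by positivity)
      have f2 := mul_le_mul_of_nonneg_left hxε hxp.le
      linarith only [e1, f1, f2, hKx]
    have e4 : Real.log (pn S n) ≤ (1 + ε) * L := by
      have hpp : (0 : ℝ) < pn S n := by exact_mod_cast hp1
      have f1 := Real.log_le_log hpp e3
      rw [Real.log_mul hxp.ne' (by positivity), Real.log_rpow hxp, ← hL] at f1
      linarith only [f1]
    have e5 : 0 ≤ Real.log (pn S n) := Real.log_nonneg (by exact_mod_cast hp1)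
    have e6 : Real.log (pn S n) ^ 2 ≤ ((1 + ε) * L) ^ 2 := pow_le_pow_left₀ e5 e4 2
    have e7 := mul_le_mul_of_nonneg_left e6 (show 0 ≤ 1 + ε by linarith only [hε0])
    have e8 : (1 + ε) * ((1 + ε) * L) ^ 2 = (1 + ε) ^ 3 * L ^ 2 := by ring
    linarith only [e2, e7, e8]

/-- the block of a gap -/
lemma cheap_gap {W : ℕ} (hW : 0 < W) {ε : ℝ} (hε0 : 0 < ε) (hε1 : ε < 1) :
    ∀ᶠ x : ℕ in atTop, ∀ r t : ℕ, 1 ≤ r → r < 2 * W → Nat.Coprime r W → 0 < t → Nat.Coprime (r + t) W → (t : ℝ) ≤ (1 - ε) * Real.log x ^ 2 →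
      Cheap W (ε / 2) x {r, r + t} (W * ((r + t) / W + 1)) ∧ r + t ≤ W * ((r + t) / W + 1) := by
  have hW' : (1 : ℝ) ≤ W := by exact_mod_cast hW
  have hlog2 : Tendsto (fun x : ℕ => Real.log (Real.log x) / Real.log x) atTop (𝓝 0) := by
    have h := (Real.isLittleO_log_id_atTop.tendsto_div_nhds_zero).comp tendsto_log
    exact h
  filter_upwards [ev_log ((16 + 12 * W) / ε + 1), hlog2.eventually_lt_const (show (0 : ℝ) < ε / 16 by positivity)] with x h1 h2 r t hr1 hr2 hr3 ht1 ht2 ht3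
  set L : ℝ := Real.log x with hL
  have hL1 : 1 ≤ L := by
    have : 0 ≤ (16 + 12 * (W : ℝ)) / ε := by positivity
    linarith only [h1, this]
  have hLp : 0 < L := by linarith only [hL1]
  have h1' : 16 + 12 * (W : ℝ) ≤ ε * L := by
    have : (16 + 12 * (W : ℝ)) / ε ≤ L := by linarith only [h1]
    rw [div_le_iff₀ hε0] at this
    linarith only [this]
  have h2' : Real.log L ≤ ε / 16 * L := by
    have : Real.log L / L < ε / 16 := h2
    rw [div_lt_iff₀ hLp] at this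
    exact this.le
  have hmod := Nat.div_add_mod (r + t) W
  have hlt := Nat.mod_lt (r + t) hW
  have hHe : W * ((r + t) / W + 1) = W * ((r + t) / W) + W := by ring
  have hle : r + t ≤ W * ((r + t) / W + 1) := by
    rw [hHe]
    omega
  have hge : W * ((r + t) / W + 1) ≤ t + 3 * W := by
    rw [hHe]
    omega
  refine ⟨⟨by positivity, Dvd.intro _ rfl, ?_, ?_⟩, hle⟩
  · intro m hm
    rw [Finset.mem_insert, Finset.mem_singleton] at hm
    rcases hm with rfl | rfl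
    · exact ⟨hr1, by omega, hr3⟩
    · exact ⟨by omega, hle, ht2⟩
  · have e1 : (({r, r + t} : Finset ℕ).card : ℝ) ≤ 2 := by exact_mod_cast Finset.card_le_two
    have e2 : 0 ≤ Real.log L + 1 := by
      have : 0 ≤ Real.log L := Real.log_nonneg hL1
      linarith only [this]
    have e3 : (({r, r + t} : Finset ℕ).card : ℝ) * (Real.log L + 1) ≤ 2 * (Real.log L + 1) := mul_le_mul_of_nonneg_right e1 e2
    have e4 : ((W * ((r + t) / W + 1) : ℕ) : ℝ) ≤ t + 3 * W := by exact_mod_cast hge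
    have e5 : ((W * ((r + t) / W + 1) : ℕ) : ℝ) / L ≤ (t + 3 * W) / L := div_le_div_of_nonneg_right e4 hLp.le
    have e6 : ((t : ℝ) + 3 * W) / L ≤ (1 - ε) * L + 3 * W := by
      rw [div_le_iff₀ hLp]
      nlinarith only [ht3, hL1, hW']
    have e7 : 3 * (W : ℝ) ≤ ε * L / 4 := by linarith only [h1']
    linarith only [e3, e5, e6, e7, h2', h1', hW']

end Pool.Agent.R528.RM
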