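import Mathlib
import Pool.Agent.R528.RM.Pat3

set_option autoImplicit false
set_option linter.unusedSectionVars false
set_option linter.unusedVariables false

/-! # Costly patterns do not occur -/

open MeasureTheory Filter Set
open scoped ENNReal Topology

namespace Pool.Agent.R528.RM

variable {Ω : Type} {m0 : MeasurableSpace Ω} {μ : Measure Ω} [IsProbabilityMeasure μ]
  {ℱ : Filtration ℕ m0} {A : ℕ → Set Ω}

open Classical in
/-- upper bound for the probability of a pattern without violations -/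
theorem pat_le (hA : ∀ n, MeasurableSet[ℱ n] (A n)) {l u : ℕ → ℝ} (hl1 : ∀ n, l n ≤ 1) (hu0 : ∀ n, 0 ≤ u n)
    (P : ℕ → Prop) (j : ℕ) : ∀ t, ∀ B, MeasurableSet[ℱ t] B →
      μ.real (B ∩ (PatE A P t j ∩ {ω | ∀ n, t ≤ n → n < t + j → ω ∉ VB μ ℱ A l u n})) ≤
        (∏ i ∈ Finset.range j, (if P (t + 1 + i) then u (t + 1 + i) else 1 - l (t + 1 + i))) * μ.real B := by
  have hf0 : ∀ n, 0 ≤ (if P n then u n else 1 - l n) := by
    intro n
    have := hl1 n
    have := hu0 n
    split_ifs <;> linarith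
  induction j with
  | zero =>
    intro t B hB
    rw [Finset.prod_range_zero, one_mul]
    exact measureReal_mono inter_subset_left (measure_ne_top _ _)
  | succ j ih =>
    intro t B hB
    set V := VB μ ℱ A l u with hV
    have hVt : MeasurableSet[ℱ t] (V t) := VB_meas l u t
    set B₁ : Set Ω := B \ V t with hB₁
    have hB₁m : MeasurableSet[ℱ t] B₁ := hB.diff hVt
    set E : Set Ω := if P (t + 1) then A (t + 1) else (A (t + 1))ᶜ with hE
    have hEm : MeasurableSet[ℱ (t + 1)] E := by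
      rw [hE]
      split_ifs
      · exact hA _
      · exact @MeasurableSet.compl _ _ (ℱ (t + 1)) (hA _)
    have hB₂m : MeasurableSet[ℱ (t + 1)] (B₁ ∩ E) := (ℱ.mono (Nat.le_succ t) _ hB₁m).inter hEm
    have h1 := ih (t + 1) (B₁ ∩ E) hB₂m
    set p : ℝ := if P (t + 1) then u (t + 1) else 1 - l (t + 1) with hp
    set Pr : ℝ := ∏ i ∈ Finset.range j, (if P (t + 1 + 1 + i) then u (t + 1 + 1 + i) else 1 - l (t + 1 + 1 + i)) with hPr
    have hPr0 : 0 ≤ Pr := Finset.prod_nonneg fun i _ => hf0 _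
    have hp0 : 0 ≤ p := hf0 _
    have hprod : ∏ i ∈ Finset.range (j + 1), (if P (t + 1 + i) then u (t + 1 + i) else 1 - l (t + 1 + i)) = Pr * p := by
      rw [Finset.prod_range_succ']
      congr 1
      refine Finset.prod_congr rfl fun i _ => ?_
      rw [show t + 1 + (i + 1) = t + 1 + 1 + i by ring]
    have h2 : μ.real (B₁ ∩ E) ≤ p * μ.real B₁ := by
      have hb : ∀ ω ∈ B₁, l (t + 1) ≤ dens μ ℱ A t ω ∧ dens μ ℱ A t ω ≤ u (t + 1) := by
        rintro ω ⟨_, h⟩
        by_contra hcon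
        exact h hcon
      rw [hp, hE]
      by_cases h : P (t + 1)
      · rw [if_pos h, if_pos h]
        exact upper_meas hA t hB₁m fun ω hω => (hb ω hω).2
      · rw [if_neg h, if_neg h]
        have g1 := lower_meas (μ := μ) hA t hB₁m fun ω hω => (hb ω hω).1
        have g2 := measureReal_inter_add_sdiff (μ := μ) (s := B₁) (ℱ.le _ _ (hA (t + 1)))
        rw [show B₁ ∩ (A (t + 1))ᶜ = B₁ \ A (t + 1) from rfl]
        linarith
    have h3 : B ∩ (PatE A P t (j + 1) ∩ {ω | ∀ n, t ≤ n → n < t + (j + 1) → ω ∉ V n}) ⊆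
        (B₁ ∩ E) ∩ (PatE A P (t + 1) j ∩ {ω | ∀ n, t + 1 ≤ n → n < t + 1 + j → ω ∉ V n}) := by
      rintro ω ⟨g1, g2, g3⟩
      refine ⟨⟨⟨g1, g3 t le_rfl (by omega)⟩, ?_⟩, ?_, ?_⟩
      · have := g2 0 (by omega)
        rw [add_zero] at this
        rw [hE]
        by_cases h : P (t + 1)
        · rw [if_pos h]
          exact this.2 h
        · rw [if_neg h]
          exact fun h' => h (this.1 h')
      · intro i hi
        have := g2 (i + 1) (by omega)
        rwa [show t + 1 + (i + 1) = t + 1 + 1 + i by ring] at this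
      · intro n hn1 hn2
        exact g3 n (by omega) (by omega)
    have h5 := measureReal_mono (μ := μ) h3 (measure_ne_top _ _)
    have h6 : μ.real B₁ ≤ μ.real B := measureReal_mono sdiff_subset (measure_ne_top _ _)
    rw [hprod]
    calc _ ≤ _ := h5
      _ ≤ _ := h1
      _ ≤ Pr * (p * μ.real B₁) := mul_le_mul_of_nonneg_left h2 hPr0
      _ ≤ Pr * (p * μ.real B) := mul_le_mul_of_nonneg_left (mul_le_mul_of_nonneg_left h6 hp0) hPr0
      _ = _ := by ring

/-- upper bound for the product -/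
lemma prod_le {c : ℕ → Prop} [DecidablePred c] {l u : ℕ → ℝ} {U : ℝ} {H k : ℕ} (hU0 : 0 ≤ U)
    (hl0 : ∀ i < H, l i ≤ U) (hl1 : ∀ i < H, l i ≤ 1) (hu0 : ∀ i < H, 0 ≤ u i) (hu : ∀ i < H, c i → u i ≤ U)
    (hk : ((Finset.range H).filter c).card = k) :
    ∏ i ∈ Finset.range H, (if c i then u i else 1 - l i) ≤
      (U * Real.exp U) ^ k * Real.exp (-∑ i ∈ Finset.range H, l i) := by
  have h1 : ∏ i ∈ Finset.range H, (if c i then u i else 1 - l i) ≤
      ∏ i ∈ Finset.range H, ((if c i then U * Real.exp U else 1) * Real.exp (-l i)) := by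
    apply Finset.prod_le_prod
    · intro i hi
      have hi' := Finset.mem_range.1 hi
      split_ifs
      · exact hu0 i hi'
      · linarith [hl1 i hi']
    · intro i hi
      have hi' := Finset.mem_range.1 hi
      split_ifs with h
      · have e1 : U * 1 ≤ U * (Real.exp U * Real.exp (-l i)) := by
          apply mul_le_mul_of_nonneg_left _ hU0
          rw [← Real.exp_add]
          apply Real.one_le_exp
          linarith [hl0 i hi']
        calc u i ≤ U * 1 := by rw [mul_one]; exact hu i hi' h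
          _ ≤ _ := e1
          _ = _ := by ring
      · rw [one_mul]
        have := Real.add_one_le_exp (-l i)
        linarith
  refine h1.trans (le_of_eq ?_)
  rw [Finset.prod_mul_distrib, ← Real.exp_sum, Finset.sum_neg_distrib, Finset.prod_ite, Finset.prod_const, hk, Finset.prod_const_one, mul_one]

/-- the probability of a costly pattern -/
theorem costly_prob (hA : ∀ n, MeasurableSet[ℱ n] (A n)) {W : ℕ} (hW : 0 < W) {ε : ℝ} (hε0 : 0 < ε) (hε1 : ε < 1) (C : ℝ) :
    ∀ᶠ n : ℕ in atTop, ∀ (R : Finset ℕ) (H : ℕ), (∀ r ∈ R, 1 ≤ r ∧ r ≤ H) → (H : ℝ) ≤ C * Real.log n ^ 2 →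
      (1 + ε) * Real.log n ≤ R.card * Real.log (Real.log n) + H / Real.log n →
      μ.real (PatE A (fun m => m - n ∈ R) n H ∩ {ω | ∀ m, n ≤ m → m < n + H → ω ∉ VB μ ℱ A (lp W (ε / 40)) (up W (ε / 40)) m}) ≤
        (n : ℝ) ^ (-(1 + 3 * ε / 4)) := by
  classical
  set δ : ℝ := ε / 40 with hδ
  have hδ0 : 0 < δ := by positivity
  have hδ1 : δ ≤ 1 / 40 := by linarith
  have hφ : (1 : ℝ) ≤ Nat.totient W := by exact_mod_cast Nat.totient_pos.2 hW
  have hW' : (1 : ℝ) ≤ W := by exact_mod_cast hW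
  have hWφ2 : (W : ℝ) / Nat.totient W ≤ W := div_le_self (by linarith) hφ
  have hWφ0 : 0 ≤ (W : ℝ) / Nat.totient W := by positivity
  have hl1 : ∀ n, lp W δ n ≤ 1 := by
    intro n
    have h1 := rhoW_le W n
    have h2 := rhoW_nonneg W n
    unfold lp
    nlinarith only [h1, h2, hδ0, hδ1]
  have hu0 : ∀ n, 0 ≤ up W δ n := fun n => le_min zero_le_one (mul_nonneg (by linarith) (rhoW_nonneg W n))
  filter_upwards [ev_log ((4 * W + 4) / δ), eventually_gt_atTop 1,
    (Real.tendsto_log_atTop.comp tendsto_log).eventually_ge_atTop ((Real.log (2 * W) + 1) / δ),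
    ev_pow (a := 0) (b := 1 / 4) (by norm_num) (|C| + 1)] with n h1 h2 h3 h4 R H hR hHC hcost
  have hn1 : (1 : ℝ) < n := by exact_mod_cast h2
  have hnp : (0 : ℝ) < n := by linarith only [hn1]
  set L : ℝ := Real.log n with hL
  have h3' : (Real.log (2 * W) + 1) / δ ≤ Real.log L := h3
  rw [div_le_iff₀ hδ0] at h1 h3'
  rw [Real.rpow_zero, mul_one] at h4
  have hL1 : 8 ≤ L := by nlinarith only [h1, hδ1, hW', hδ0]
  have hLp : 0 < L := by linarith only [hL1]
  have hHn : (H : ℝ) ≤ n := by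
    have f1 : (n : ℝ) ^ (1 / 4 : ℝ) * (n : ℝ) ^ (1 / 4 : ℝ) * ((n : ℝ) ^ (1 / 4 : ℝ) * (n : ℝ) ^ (1 / 4 : ℝ)) = n := by
      rw [← Real.rpow_add hnp, ← Real.rpow_add hnp]; norm_num
    have f3 : 1 ≤ (n : ℝ) ^ (1 / 4 : ℝ) := Real.one_le_rpow hn1.le (by norm_num)
    have f4 : (|C| + 1) * (L + 1) * ((|C| + 1) * (L + 1)) ≤ (n : ℝ) ^ (1 / 4 : ℝ) * (n : ℝ) ^ (1 / 4 : ℝ) :=
      mul_le_mul h4 h4 (by positivity) (by positivity)
    have f5 : (n : ℝ) ^ (1 / 4 : ℝ) * (n : ℝ) ^ (1 / 4 : ℝ) ≤ n := by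
      nth_rw 3 [← f1]
      have : 1 ≤ (n : ℝ) ^ (1 / 4 : ℝ) * (n : ℝ) ^ (1 / 4 : ℝ) := by nlinarith only [f3]
      nlinarith only [this]
    have f6 : C * L ^ 2 ≤ (|C| + 1) * (L + 1) * ((|C| + 1) * (L + 1)) := by
      have g1 : C * L ^ 2 ≤ |C| * L ^ 2 := mul_le_mul_of_nonneg_right (le_abs_self C) (by positivity)
      have g2 : |C| * L ^ 2 ≤ (|C| + 1) * (L + 1) ^ 2 := by
        have := abs_nonneg C
        nlinarith only [this, hLp, mul_nonneg this hLp.le]
      have g3 : (|C| + 1) * (L + 1) ^ 2 ≤ (|C| + 1) * (L + 1) ^ 2 * (|C| + 1) := by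
        apply le_mul_of_one_le_right (by positivity)
        have := abs_nonneg C
        linarith only [this]
      calc _ ≤ _ := g1
        _ ≤ _ := g2
        _ ≤ _ := g3
        _ = _ := by ring
    linarith only [f4, f5, f6, hHC]
  -- logarithms
  have hlogt : Real.log ((n + H : ℕ) : ℝ) ≤ (1 + δ) * L := by
    have e1 : ((n + H : ℕ) : ℝ) ≤ 2 * n := by push_cast; linarith only [hHn]
    have e2 : Real.log ((n + H : ℕ) : ℝ) ≤ Real.log (2 * n) := Real.log_le_log (by push_cast; linarith only [hnp, Nat.cast_nonneg (α := ℝ) H]) e1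
    rw [Real.log_mul (by norm_num) hnp.ne'] at e2
    have e3 : Real.log 2 ≤ 1 := by linarith only [Real.log_two_lt_d9]
    have e4 : 1 ≤ δ * L := by linarith only [h1, hW']
    linarith only [e2, e3, e4]
  have hlogn : (W : ℝ) / Nat.totient W ≤ Real.log n := by
    rw [← hL]
    nlinarith only [hWφ2, h1, hδ1, hLp, hW']
  set U : ℝ := 2 * W / L with hU
  have hU0 : 0 < U := by positivity
  have hU1 : U ≤ 1 := by
    rw [hU, div_le_one hLp]
    nlinarith only [h1, hδ1, hLp, hW']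
  have hρU : ∀ m : ℕ, n ≤ m → (1 + δ) * rhoW W m ≤ U := by
    intro m hm
    have hm' : (n : ℝ) ≤ m := by exact_mod_cast hm
    have e1 : L ≤ Real.log m := Real.log_le_log hnp hm'
    have e2 : rhoW W m ≤ W / L := by
      unfold rhoW
      split_ifs
      · exact (min_le_right _ _).trans (div_le_div₀ (by linarith only [hW']) hWφ2 hLp e1)
      · positivity
    have e3 : (1 + δ) * rhoW W m ≤ 2 * (W / L) := mul_le_mul (by linarith only [hδ1]) e2 (rhoW_nonneg W m) (by norm_num)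
    rw [hU]
    linarith only [e3, show 2 * (W / L) = 2 * (W : ℝ) / L by ring]
  have key := pat_le (μ := μ) (ℱ := ℱ) hA (l := lp W δ) (u := up W δ) hl1 hu0 (fun m => m - n ∈ R) H n univ MeasurableSet.univ
  rw [univ_inter, probReal_univ, mul_one] at key
  refine key.trans ?_
  have hprod := prod_le (c := fun i => (n + 1 + i) - n ∈ R) (l := fun i => lp W δ (n + 1 + i)) (u := fun i => up W δ (n + 1 + i))
    (U := U) (H := H) (k := R.card) hU0.le (fun i _ => by
      have := hρU (n + 1 + i) (by omega)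
      have h0 := rhoW_nonneg W (n + 1 + i)
      show (1 - δ) * rhoW W (n + 1 + i) ≤ U
      nlinarith only [this, h0, hδ0]) (fun i _ => hl1 _) (fun i _ => hu0 _) (fun i _ _ => (min_le_right _ _).trans (hρU _ (by omega))) (by
      refine Finset.card_bij (fun i _ => i + 1) ?_ ?_ ?_
      · intro i hi
        have := (Finset.mem_filter.1 hi).2
        rwa [show n + 1 + i - n = i + 1 by omega] at this
      · intro i _ j _ h
        omega
      · intro r hr
        obtain ⟨g1, g2⟩ := hR r hr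
        refine ⟨r - 1, ?_, by omega⟩
        rw [Finset.mem_filter, Finset.mem_range]
        refine ⟨by omega, ?_⟩
        rwa [show n + 1 + (r - 1) - n = r by omega])
  refine le_trans (le_of_eq (Finset.prod_congr rfl fun i _ => ?_)) (hprod.trans ?_)
  · congr
  -- the sum
  have hsum : (1 - δ) * ((H - 2 * W) / ((1 + δ) * L)) ≤ ∑ i ∈ Finset.range H, lp W δ (n + 1 + i) := by
    have e1 : ∑ i ∈ Finset.range H, lp W δ (n + 1 + i) = (1 - δ) * ∑ i ∈ Finset.range H, rhoW W (n + 1 + i) := by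
      rw [Finset.mul_sum]
      rfl
    rw [e1, sum_rhoW_eq]
    apply mul_le_mul_of_nonneg_left _ (by linarith only [hδ1])
    rcases le_or_gt (H : ℝ) (2 * W) with hH | hH
    · refine le_trans ?_ (Finset.sum_nonneg fun i _ => rhoW_nonneg W i)
      apply div_nonpos_of_nonpos_of_nonneg (by linarith only [hH])
      exact mul_nonneg (by linarith only [hδ0]) hLp.le
    · have e2 := (rho_cls1 (W := W) (q := 1) (a := 0) (s := n) (t := n + H) hW one_pos (zero_mem_admW W) (by omega) hlogn (by omega)).1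
      rw [adm_oneW] at e2
      refine le_trans ?_ e2
      push_cast
      push_cast at hlogt
      rw [one_mul, one_mul]
      have hlp : 0 < Real.log ((n : ℝ) + H) := Real.log_pos (by linarith only [hn1, Nat.cast_nonneg (α := ℝ) H])
      apply div_le_div₀ (by linarith only [hH]) (by linarith only) hlp hlogt
  have hUe : (U * Real.exp U) ^ R.card = Real.exp (R.card * (Real.log U + U)) := by
    rw [Real.exp_nat_mul, Real.exp_add, Real.exp_log hU0]
  rw [hUe, ← Real.exp_add, Real.rpow_def_of_pos hnp, Real.exp_le_exp, ← hL]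
  have hlogU : Real.log U = Real.log (2 * W) - Real.log L := by
    rw [hU, Real.log_div (by positivity) hLp.ne']
  have hlogL : 0 ≤ Real.log L := Real.log_nonneg (by linarith only [hL1])
  have hk : (R.card : ℝ) * (Real.log U + U) ≤ -((1 - 2 * δ) * (R.card * Real.log L)) := by
    have hk0 : (0 : ℝ) ≤ R.card := Nat.cast_nonneg _
    have e1 : Real.log U + U ≤ -((1 - 2 * δ) * Real.log L) := by
      rw [hlogU]
      nlinarith only [h3', hU1, hlogL, hδ0]
    have := mul_le_mul_of_nonneg_left e1 hk0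
    linarith only [this]
  have hHsum : (1 - 2 * δ) * (H / L) - 1 ≤ (1 - δ) * ((H - 2 * W) / ((1 + δ) * L)) := by
    have hpos : 0 < (1 + δ) * L := mul_pos (by linarith only [hδ0]) hLp
    have e1 : (1 - δ) * (((H : ℝ) - 2 * W) / ((1 + δ) * L)) = (1 - δ) / (1 + δ) * (H / L) - (1 - δ) / (1 + δ) * (2 * W / L) := by
      have : (1 + δ) ≠ 0 := by linarith only [hδ0]
      field_simp
    rw [e1]
    have e2 : 1 - 2 * δ ≤ (1 - δ) / (1 + δ) := by
      rw [le_div_iff₀ (by linarith only [hδ0])]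
      nlinarith only [hδ0]
    have e3 : (1 - δ) / (1 + δ) ≤ 1 := by
      rw [div_le_one (by linarith only [hδ0])]
      linarith only [hδ0]
    have e4 : (1 - δ) / (1 + δ) * (2 * W / L) ≤ 1 * 1 := by
      apply mul_le_mul e3 hU1 hU0.le (by norm_num)
    have e5 := mul_le_mul_of_nonneg_right e2 (show 0 ≤ (H : ℝ) / L by positivity)
    linarith only [e4, e5]
  have hfin := mul_le_mul_of_nonneg_left hcost (show 0 ≤ 1 - 2 * δ by linarith only [hδ1])
  have e6 : (1 + 3 * ε / 4) * L + 1 ≤ (1 - 2 * δ) * ((1 + ε) * L) := by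
    have : 1 ≤ δ * L := by linarith only [h1, hW']
    have h7 : (1 + 3 * ε / 4) + δ ≤ (1 - 2 * δ) * (1 + ε) := by
      rw [hδ]
      nlinarith only [hε0, hε1]
    have h8 := mul_le_mul_of_nonneg_right h7 hLp.le
    linarith only [this, h8]
  have e7 : L * -(1 + 3 * ε / 4) = -((1 + 3 * ε / 4) * L) := by ring
  rw [e7]
  have e8 : (1 - 2 * δ) * (R.card * Real.log L + H / L) = (1 - 2 * δ) * (R.card * Real.log L) + (1 - 2 * δ) * (H / L) := by ring
  rw [e8] at hfin
  linarith only [hk, hHsum, hsum, hfin, e6]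

/-- **costly patterns do not occur** -/
theorem pat_never (hA : ∀ n, MeasurableSet[ℱ n] (A n)) {W : ℕ} (hW : 0 < W)
    (hd : ∀ᵐ ω ∂μ, ∀ ε : ℝ, 0 < ε → ∀ᶠ n : ℕ in atTop, |dens μ ℱ A n ω - rhoW W (n + 1)| ≤ ε * rhoW W (n + 1))
    {ε : ℝ} (hε0 : 0 < ε) (hε1 : ε < 1) (C : ℝ) (F : ℕ → Finset (Finset ℕ × ℕ))
    (hF : ∀ᶠ n : ℕ in atTop, ((F n).card : ℝ) ≤ (n : ℝ) ^ (ε / 4)) :
    ∀ᵐ ω ∂μ, ∀ᶠ n : ℕ in atTop, ∀ (R : Finset ℕ) (H : ℕ), (R, H) ∈ F n → (∀ r ∈ R, 1 ≤ r ∧ r ≤ H) → (H : ℝ) ≤ C * Real.log n ^ 2 →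
      (1 + ε) * Real.log n ≤ R.card * Real.log (Real.log n) + H / Real.log n →
      ω ∉ PatE A (fun m => m - n ∈ R) n H := by
  classical
  set δ : ℝ := ε / 40 with hδ
  have hδ0 : 0 < δ := by positivity
  have hδ1 : δ ≤ 1 / 40 := by linarith
  set cond : ℕ → Finset ℕ × ℕ → Prop := fun n p => (∀ r ∈ p.1, 1 ≤ r ∧ r ≤ p.2) ∧ (p.2 : ℝ) ≤ C * Real.log n ^ 2 ∧
      (1 + ε) * Real.log n ≤ p.1.card * Real.log (Real.log n) + p.2 / Real.log n with hcond
  set B : ℕ → Set Ω := fun n => ⋃ p ∈ (F n).filter (fun p => cond n p),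
    (PatE A (fun m => m - n ∈ p.1) n p.2 ∩ {ω | ∀ m, n ≤ m → m < n + p.2 → ω ∉ VB μ ℱ A (lp W δ) (up W δ) m}) with hB
  have hb : ∀ᶠ n : ℕ in atTop, μ.real (B n) ≤ (n : ℝ) ^ (-(1 + ε / 2)) := by
    filter_upwards [costly_prob (μ := μ) (ℱ := ℱ) hA hW hε0 hε1 C, hF, eventually_gt_atTop 0] with n h1 h2 h3
    have hnp : (0 : ℝ) < n := by exact_mod_cast h3
    have e1 : μ.real (B n) ≤ ∑ p ∈ (F n).filter (fun p => cond n p), (n : ℝ) ^ (-(1 + 3 * ε / 4)) := by
      refine (measureReal_biUnion_finset_le _ _).trans (Finset.sum_le_sum fun p hp => ?_)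
      obtain ⟨_, g1, g2, g3⟩ := Finset.mem_filter.1 hp
      exact h1 p.1 p.2 g1 g2 g3
    rw [Finset.sum_const, nsmul_eq_mul] at e1
    have e2 : ((((F n).filter (fun p => cond n p)).card : ℕ) : ℝ) ≤ (n : ℝ) ^ (ε / 4) := by
      refine le_trans ?_ h2
      exact_mod_cast Finset.card_filter_le _ _
    have e3 : 0 ≤ (n : ℝ) ^ (-(1 + 3 * ε / 4)) := (Real.rpow_pos_of_pos hnp _).le
    refine e1.trans ((mul_le_mul_of_nonneg_right e2 e3).trans (le_of_eq ?_))
    rw [← Real.rpow_add hnp]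
    congr 1
    ring
  have h01 : ∀ᵐ ω ∂μ, ∀ n, 0 ≤ dens μ ℱ A n ω ∧ dens μ ℱ A n ω ≤ 1 := ae_all_iff.2 fun n => dens01 hA n
  filter_upwards [bc_real (μ := μ) (summable_pow_nat (s := -(1 + ε / 2)) (by linarith)) hb, hd, h01] with ω hω hdω h01ω
  obtain ⟨N, hN⟩ := dens_two hdω hδ0
  filter_upwards [hω, eventually_ge_atTop N] with n h1 h2 R H g1 g2 g3 g4 g5
  apply h1
  rw [hB, mem_iUnion₂]
  refine ⟨(R, H), Finset.mem_filter.2 ⟨g1, g2, g3, g4⟩, g5, ?_⟩
  intro m hm1 hm2 hv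
  apply hv
  have hN' := hN N le_rfl
  exact ⟨hN'.2 m (h2.trans hm1), le_min (h01ω m).2 (hN'.1 m (h2.trans hm1))⟩

end Pool.Agent.R528.RM
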