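import Mathlib
import Pool.Agent.R528.RM.Pat5

set_option autoImplicit false
set_option linter.unusedSectionVars false
set_option linter.unusedVariables false

/-! # Counts in windows with a variable profile -/

open MeasureTheory Filter Set
open scoped ENNReal Topology

namespace Pool.Agent.R528.RM

variable {Ω : Type} {m0 : MeasurableSpace Ω} {μ : Measure Ω} [IsProbabilityMeasure μ]
  {ℱ : Filtration ℕ m0} {A : ℕ → Set Ω}

/-- the lower bound -/
noncomputable def Gb (u : ℕ → ℝ) (P : ℕ → Prop) [DecidablePred P] (lm : ℝ) (t j k : ℕ) : ℝ :=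
  ((((Finset.range j).filter (fun i => P (t + 1 + i))).card.choose k : ℕ) : ℝ) * lm ^ k * ∏ i ∈ Finset.range j, (1 - u (t + 1 + i))

lemma card_filter_succ (P : ℕ → Prop) [DecidablePred P] (t j : ℕ) :
    ((Finset.range (j + 1)).filter (fun i => P (t + 1 + i))).card =
      ((Finset.range j).filter (fun i => P (t + 1 + 1 + i))).card + if P (t + 1) then 1 else 0 := by
  rw [Finset.card_filter, Finset.card_filter, Finset.sum_range_succ']
  congr 1
  refine Finset.sum_congr rfl fun i _ => ?_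
  rw [show t + 1 + (i + 1) = t + 1 + 1 + i by ring]

lemma prod_succ_u (u : ℕ → ℝ) (t j : ℕ) :
    ∏ i ∈ Finset.range (j + 1), (1 - u (t + 1 + i)) = (∏ i ∈ Finset.range j, (1 - u (t + 1 + 1 + i))) * (1 - u (t + 1)) := by
  rw [Finset.prod_range_succ']
  congr 1
  refine Finset.prod_congr rfl fun i _ => ?_
  rw [show t + 1 + (i + 1) = t + 1 + 1 + i by ring]

lemma Gb_nonneg {u : ℕ → ℝ} (hu1 : ∀ n, u n ≤ 1) (P : ℕ → Prop) [DecidablePred P] {lm : ℝ} (hlm : 0 ≤ lm) (t j k : ℕ) :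
    0 ≤ Gb u P lm t j k := by
  unfold Gb
  have : 0 ≤ ∏ i ∈ Finset.range j, (1 - u (t + 1 + i)) := Finset.prod_nonneg fun i _ => by linarith [hu1 (t + 1 + i)]
  positivity

lemma Gb_zero (u : ℕ → ℝ) (P : ℕ → Prop) [DecidablePred P] (lm : ℝ) (t j : ℕ) :
    Gb u P lm t (j + 1) 0 = Gb u P lm (t + 1) j 0 * (1 - u (t + 1)) := by
  unfold Gb
  rw [prod_succ_u, Nat.choose_zero_right, Nat.choose_zero_right]
  ring

lemma Gb_succ_neg (u : ℕ → ℝ) (P : ℕ → Prop) [DecidablePred P] (lm : ℝ) (t j k : ℕ) (h : ¬ P (t + 1)) :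
    Gb u P lm t (j + 1) k = Gb u P lm (t + 1) j k * (1 - u (t + 1)) := by
  unfold Gb
  rw [prod_succ_u, card_filter_succ, if_neg h, add_zero]
  ring

lemma Gb_succ_pos (u : ℕ → ℝ) (P : ℕ → Prop) [DecidablePred P] (lm : ℝ) (t j k : ℕ) (h : P (t + 1)) :
    Gb u P lm t (j + 1) (k + 1) = Gb u P lm (t + 1) j k * lm * (1 - u (t + 1)) + Gb u P lm (t + 1) j (k + 1) * (1 - u (t + 1)) := by
  unfold Gb
  rw [prod_succ_u, card_filter_succ, if_pos h, Nat.choose_succ_succ]
  push_cast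
  ring

lemma Gb_le_one {u : ℕ → ℝ} (hu0 : ∀ n, 0 ≤ u n) (hu1 : ∀ n, u n ≤ 1) (P : ℕ → Prop) [DecidablePred P] {lm : ℝ} (hlm0 : 0 ≤ lm)
    (hlm : ∀ n, P n → lm ≤ u n) (j : ℕ) : ∀ t k, Gb u P lm t j k ≤ 1 := by
  induction j with
  | zero =>
    intro t k
    unfold Gb
    rcases k with _ | k <;> simp
  | succ j ih =>
    intro t k
    have e0 := hu0 (t + 1)
    have e1 := hu1 (t + 1)
    by_cases h : P (t + 1)
    · rcases k with _ | k
      · rw [Gb_zero]
        have h1 := ih (t + 1) 0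
        have h2 := Gb_nonneg hu1 P hlm0 (t + 1) j 0
        nlinarith
      · rw [Gb_succ_pos _ _ _ _ _ _ h]
        have h1 := ih (t + 1) k
        have h2 := ih (t + 1) (k + 1)
        have h3 := Gb_nonneg hu1 P hlm0 (t + 1) j k
        have h4 := Gb_nonneg hu1 P hlm0 (t + 1) j (k + 1)
        have h5 := hlm _ h
        have h6 : Gb u P lm (t + 1) j k * lm * (1 - u (t + 1)) ≤ 1 * u (t + 1) * (1 - u (t + 1)) := by
          apply mul_le_mul_of_nonneg_right _ (by linarith)
          exact mul_le_mul h1 h5 hlm0 (by norm_num)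
        have h7 : Gb u P lm (t + 1) j (k + 1) * (1 - u (t + 1)) ≤ 1 * (1 - u (t + 1)) := mul_le_mul_of_nonneg_right h2 (by linarith)
        nlinarith
    · rw [Gb_succ_neg _ _ _ _ _ _ h]
      have h1 := ih (t + 1) k
      have h2 := Gb_nonneg hu1 P hlm0 (t + 1) j k
      nlinarith

/-- lower bound for the probability of an exact count or a violation -/
theorem cnt_ge_prof (hA : ∀ n, MeasurableSet[ℱ n] (A n)) {l u : ℕ → ℝ} (hu0 : ∀ n, 0 ≤ u n)
    (hu1 : ∀ n, u n ≤ 1) (P : ℕ → Prop) [DecidablePred P] {lm : ℝ} (hlm0 : 0 ≤ lm) (hlm : ∀ n, P n → lm ≤ l n)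
    (hlmu : ∀ n, P n → lm ≤ u n) (j : ℕ) :
    ∀ t k, ∀ B, MeasurableSet[ℱ t] B → Gb u P lm t j k * μ.real B ≤
        μ.real (B ∩ ({ω | cnt A t j ω = k} ∪ WV (VB μ ℱ A l u) t j)) := by
  classical
  induction j with
  | zero =>
    intro t k B hB
    rcases k with _ | k
    · have : B ∩ ({ω | cnt A t 0 ω = 0} ∪ WV (VB μ ℱ A l u) t 0) = B := by
        ext ω
        simp [cnt]
      rw [this]
      unfold Gb
      simp
    · unfold Gb
      simp only [Finset.range_zero, Finset.filter_empty, Finset.card_empty, Nat.choose_zero_succ, Nat.cast_zero, zero_mul]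
      exact measureReal_nonneg
  | succ j ih =>
    intro t k B hB
    have hBm : MeasurableSet B := ℱ.le t _ hB
    set V := VB μ ℱ A l u with hV
    have hVt : MeasurableSet[ℱ t] (V t) := VB_meas l u t
    have hVm : MeasurableSet (V t) := ℱ.le t _ hVt
    set B₁ : Set Ω := B \ V t with hB₁
    have hB₁m : MeasurableSet[ℱ t] B₁ := hB.diff hVt
    have hA1 : MeasurableSet[ℱ (t + 1)] (A (t + 1)) := hA _
    have hA1m : MeasurableSet (A (t + 1)) := ℱ.le _ _ hA1
    have hB₁' : MeasurableSet[ℱ (t + 1)] B₁ := ℱ.mono (Nat.le_succ t) _ hB₁m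
    have hC1 : MeasurableSet[ℱ (t + 1)] (B₁ ∩ A (t + 1)) := hB₁'.inter hA1
    have hC2 : MeasurableSet[ℱ (t + 1)] (B₁ \ A (t + 1)) := hB₁'.diff hA1
    have hb : ∀ ω ∈ B₁, l (t + 1) ≤ dens μ ℱ A t ω ∧ dens μ ℱ A t ω ≤ u (t + 1) := by
      rintro ω ⟨_, h⟩
      by_contra hcon
      exact h hcon
    have hup := upper_meas (μ := μ) hA t hB₁m fun ω hω => (hb ω hω).2
    have hlow := lower_meas (μ := μ) hA t hB₁m fun ω hω => (hb ω hω).1
    have hsplit := measureReal_inter_add_sdiff (μ := μ) (s := B₁) hA1m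
    have hcompl : (1 - u (t + 1)) * μ.real B₁ ≤ μ.real (B₁ \ A (t + 1)) := by linarith
    have hBsplit := measureReal_inter_add_sdiff (μ := μ) (s := B) hVm
    have hV0 : 0 ≤ μ.real (B ∩ V t) := measureReal_nonneg
    have hB10 : 0 ≤ μ.real B₁ := measureReal_nonneg
    have e1 := hu1 (t + 1)
    have e0 := hu0 (t + 1)
    -- the pieces
    have hpieces : ∀ k', μ.real (B ∩ V t) + μ.real ((B₁ \ A (t + 1)) ∩ ({ω | cnt A (t + 1) j ω = k'} ∪ WV V (t + 1) j)) ≤
        μ.real (B ∩ ({ω | cnt A t (j + 1) ω = k'} ∪ WV V t (j + 1))) := by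
      intro k'
      rw [← measureReal_union (by
        rw [Set.disjoint_left]
        rintro ω ⟨_, g1⟩ ⟨⟨⟨_, g2⟩, _⟩, _⟩
        exact g2 g1) (by
          apply (ℱ.le _ _ hC2).inter
          exact (ℱ.le _ _ (cnt_meas hA _ _ _)).union (ℱ.le _ _ (WV_meas (fun n => VB_meas l u n) _ _)))]
      apply measureReal_mono _ (measure_ne_top _ _)
      rintro ω (⟨g1, g2⟩ | ⟨⟨⟨g1, g2⟩, g3⟩, g4⟩)
      · refine ⟨g1, Or.inr ?_⟩
        rw [WV_succ]
        exact Or.inl g2
      · refine ⟨g1, ?_⟩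
        rcases g4 with g4 | g4
        · left
          show cnt A t (j + 1) ω = k'
          rw [cnt_succ, if_neg g3, add_zero]
          exact g4
        · right
          rw [WV_succ]
          exact Or.inr g4
    by_cases h : P (t + 1)
    · rcases k with _ | k
      · rw [Gb_zero]
        have h1 := ih (t + 1) 0 _ hC2
        have h2 := hpieces 0
        have h3 := Gb_nonneg hu1 P hlm0 (t + 1) j 0
        have h4 := Gb_le_one hu0 hu1 P hlm0 hlmu j (t + 1) 0
        have h5 := mul_le_mul_of_nonneg_left hcompl h3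
        have h6 : Gb u P lm (t + 1) j 0 * (1 - u (t + 1)) * μ.real (B ∩ V t) ≤ 1 * μ.real (B ∩ V t) := by
          apply mul_le_mul_of_nonneg_right _ hV0
          nlinarith
        have h7 : Gb u P lm (t + 1) j 0 * (1 - u (t + 1)) * μ.real B = Gb u P lm (t + 1) j 0 * (1 - u (t + 1)) * μ.real (B ∩ V t) +
            Gb u P lm (t + 1) j 0 * ((1 - u (t + 1)) * μ.real B₁) := by
          rw [← hBsplit]; ring
        linarith
      · have hG1 := Gb_le_one hu0 hu1 P hlm0 hlmu (j + 1) t (k + 1)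
        rw [Gb_succ_pos _ _ _ _ _ _ h] at hG1 ⊢
        have h1 := ih (t + 1) (k + 1) _ hC2
        have h1' := ih (t + 1) k _ hC1
        have h3 := Gb_nonneg hu1 P hlm0 (t + 1) j k
        have h3' := Gb_nonneg hu1 P hlm0 (t + 1) j (k + 1)
        have hlm' : lm * μ.real B₁ ≤ μ.real (B₁ ∩ A (t + 1)) := (mul_le_mul_of_nonneg_right (hlm _ h) hB10).trans hlow
        have h5 := mul_le_mul_of_nonneg_left hcompl h3'
        have h5' := mul_le_mul_of_nonneg_left hlm' h3
        -- three pieces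
        have h8 : μ.real (B ∩ V t) + μ.real ((B₁ \ A (t + 1)) ∩ ({ω | cnt A (t + 1) j ω = k + 1} ∪ WV V (t + 1) j)) +
            μ.real ((B₁ ∩ A (t + 1)) ∩ ({ω | cnt A (t + 1) j ω = k} ∪ WV V (t + 1) j)) ≤
            μ.real (B ∩ ({ω | cnt A t (j + 1) ω = k + 1} ∪ WV V t (j + 1))) := by
          have hmeas : ∀ k', MeasurableSet ({ω | cnt A (t + 1) j ω = k'} ∪ WV V (t + 1) j) := fun k' =>
            (ℱ.le _ _ (cnt_meas hA _ _ _)).union (ℱ.le _ _ (WV_meas (fun n => VB_meas l u n) _ _))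
          rw [← measureReal_union (by
            rw [Set.disjoint_left]
            rintro ω ⟨_, g1⟩ ⟨⟨⟨_, g2⟩, _⟩, _⟩
            exact g2 g1) ((ℱ.le _ _ hC2).inter (hmeas _)), ← measureReal_union (by
              rw [Set.disjoint_left]
              rintro ω (⟨_, g1⟩ | ⟨⟨_, g2⟩, _⟩) ⟨⟨⟨_, g3⟩, g4⟩, _⟩
              · exact g3 g1
              · exact g2 g4) ((ℱ.le _ _ hC1).inter (hmeas _))]
          apply measureReal_mono _ (measure_ne_top _ _)
          rintro ω ((⟨g1, g2⟩ | ⟨⟨⟨g1, g2⟩, g3⟩, g4⟩) | ⟨⟨⟨g1, g2⟩, g3⟩, g4⟩)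
          · refine ⟨g1, Or.inr ?_⟩
            rw [WV_succ]
            exact Or.inl g2
          · refine ⟨g1, ?_⟩
            rcases g4 with g4 | g4
            · left
              show cnt A t (j + 1) ω = k + 1
              rw [cnt_succ, if_neg g3, add_zero]
              exact g4
            · right
              rw [WV_succ]
              exact Or.inr g4
          · refine ⟨g1, ?_⟩
            rcases g4 with g4 | g4
            · left
              show cnt A t (j + 1) ω = k + 1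
              rw [cnt_succ, if_pos g3]
              have g5 : cnt A (t + 1) j ω = k := g4
              omega
            · right
              rw [WV_succ]
              exact Or.inr g4
        set G := Gb u P lm (t + 1) j k
        set G' := Gb u P lm (t + 1) j (k + 1)
        have h9 : (G * lm * (1 - u (t + 1)) + G' * (1 - u (t + 1))) * μ.real (B ∩ V t) ≤ 1 * μ.real (B ∩ V t) :=
          mul_le_mul_of_nonneg_right hG1 hV0
        have h10 : (G * lm * (1 - u (t + 1)) + G' * (1 - u (t + 1))) * μ.real B =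
            (G * lm * (1 - u (t + 1)) + G' * (1 - u (t + 1))) * μ.real (B ∩ V t) + G * (lm * μ.real B₁) * (1 - u (t + 1)) +
            G' * ((1 - u (t + 1)) * μ.real B₁) := by
          rw [← hBsplit]; ring
        have h11 : G * (lm * μ.real B₁) * (1 - u (t + 1)) ≤ G * (lm * μ.real B₁) := by
          have : 0 ≤ G * (lm * μ.real B₁) := by positivity
          nlinarith
        linarith
    · rw [Gb_succ_neg _ _ _ _ _ _ h]
      have h1 := ih (t + 1) k _ hC2
      have h2 := hpieces k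
      have h3 := Gb_nonneg hu1 P hlm0 (t + 1) j k
      have h4 := Gb_le_one hu0 hu1 P hlm0 hlmu j (t + 1) k
      have h5 := mul_le_mul_of_nonneg_left hcompl h3
      have h6 : Gb u P lm (t + 1) j k * (1 - u (t + 1)) * μ.real (B ∩ V t) ≤ 1 * μ.real (B ∩ V t) := by
        apply mul_le_mul_of_nonneg_right _ hV0
        nlinarith
      have h7 : Gb u P lm (t + 1) j k * (1 - u (t + 1)) * μ.real B = Gb u P lm (t + 1) j k * (1 - u (t + 1)) * μ.real (B ∩ V t) +
          Gb u P lm (t + 1) j k * ((1 - u (t + 1)) * μ.real B₁) := by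
        rw [← hBsplit]; ring
      linarith

/-- the moment generating function of a count -/
theorem cnt_mgf (hA : ∀ n, MeasurableSet[ℱ n] (A n)) {l u : ℕ → ℝ} (hl1 : ∀ n, l n ≤ 1) (hu0 : ∀ n, 0 ≤ u n)
    {s : ℝ} (hs : 0 < s) (j : ℕ) : ∀ t B, MeasurableSet[ℱ t] B →
      ∑ k ∈ Finset.range (j + 1), s ^ k * μ.real ((B ∩ {ω | cnt A t j ω = k}) \ WV (VB μ ℱ A l u) t j) ≤
        (∏ i ∈ Finset.range j, (1 + s * u (t + 1 + i) - l (t + 1 + i))) * μ.real B := by
  classical
  induction j with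
  | zero =>
    intro t B hB
    rw [zero_add, Finset.sum_range_one, pow_zero, one_mul, Finset.prod_range_zero, one_mul]
    exact measureReal_mono (sdiff_subset.trans inter_subset_left) (measure_ne_top _ _)
  | succ j ih =>
    intro t B hB
    set V := VB μ ℱ A l u with hV
    have hVt : MeasurableSet[ℱ t] (V t) := VB_meas l u t
    set B₁ : Set Ω := B \ V t with hB₁
    have hB₁m : MeasurableSet[ℱ t] B₁ := hB.diff hVt
    have hA1 : MeasurableSet[ℱ (t + 1)] (A (t + 1)) := hA _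
    have hA1m : MeasurableSet (A (t + 1)) := ℱ.le _ _ hA1
    have hB₁' : MeasurableSet[ℱ (t + 1)] B₁ := ℱ.mono (Nat.le_succ t) _ hB₁m
    have hC1 : MeasurableSet[ℱ (t + 1)] (B₁ ∩ A (t + 1)) := hB₁'.inter hA1
    have hC2 : MeasurableSet[ℱ (t + 1)] (B₁ \ A (t + 1)) := hB₁'.diff hA1
    have hb : ∀ ω ∈ B₁, l (t + 1) ≤ dens μ ℱ A t ω ∧ dens μ ℱ A t ω ≤ u (t + 1) := by
      rintro ω ⟨_, h⟩
      by_contra hcon
      exact h hcon
    have hup := upper_meas (μ := μ) hA t hB₁m fun ω hω => (hb ω hω).2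
    have hlow := lower_meas (μ := μ) hA t hB₁m fun ω hω => (hb ω hω).1
    have hsplit := measureReal_inter_add_sdiff (μ := μ) (s := B₁) hA1m
    have hB10 : 0 ≤ μ.real B₁ := measureReal_nonneg
    have hB1B : μ.real B₁ ≤ μ.real B := measureReal_mono sdiff_subset (measure_ne_top _ _)
    set a : ℕ → ℝ := fun k => μ.real ((B ∩ {ω | cnt A t (j + 1) ω = k}) \ WV V t (j + 1)) with ha
    set b : ℕ → ℝ := fun k => μ.real (((B₁ ∩ A (t + 1)) ∩ {ω | cnt A (t + 1) j ω = k}) \ WV V (t + 1) j) with hb'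
    set c : ℕ → ℝ := fun k => μ.real (((B₁ \ A (t + 1)) ∩ {ω | cnt A (t + 1) j ω = k}) \ WV V (t + 1) j) with hc
    have h0 : a 0 ≤ c 0 := by
      apply measureReal_mono _ (measure_ne_top _ _)
      rintro ω ⟨⟨g1, g2⟩, g3⟩
      rw [WV_succ] at g3
      have g4 : ω ∉ V t := fun h => g3 (Or.inl h)
      have g5 : ω ∉ WV V (t + 1) j := fun h => g3 (Or.inr h)
      have g2' : cnt A t (j + 1) ω = 0 := g2
      rw [cnt_succ] at g2'
      have g6 : ω ∉ A (t + 1) := by
        intro h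
        rw [if_pos h] at g2'
        omega
      rw [if_neg g6, add_zero] at g2'
      exact ⟨⟨⟨⟨g1, g4⟩, g6⟩, g2'⟩, g5⟩
    have h1 : ∀ k, a (k + 1) ≤ b k + c (k + 1) := by
      intro k
      refine (measureReal_mono (s₂ := (((B₁ ∩ A (t + 1)) ∩ {ω | cnt A (t + 1) j ω = k}) \ WV V (t + 1) j) ∪
        (((B₁ \ A (t + 1)) ∩ {ω | cnt A (t + 1) j ω = k + 1}) \ WV V (t + 1) j)) ?_ (measure_ne_top _ _)).trans (measureReal_union_le _ _)
      rintro ω ⟨⟨g1, g2⟩, g3⟩
      rw [WV_succ] at g3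
      have g4 : ω ∉ V t := fun h => g3 (Or.inl h)
      have g5 : ω ∉ WV V (t + 1) j := fun h => g3 (Or.inr h)
      have g2' : cnt A t (j + 1) ω = k + 1 := g2
      rw [cnt_succ] at g2'
      by_cases g6 : ω ∈ A (t + 1)
      · rw [if_pos g6] at g2'
        left
        exact ⟨⟨⟨⟨g1, g4⟩, g6⟩, by show cnt A (t + 1) j ω = k; omega⟩, g5⟩
      · rw [if_neg g6, add_zero] at g2'
        right
        exact ⟨⟨⟨⟨g1, g4⟩, g6⟩, g2'⟩, g5⟩
    have hc0 : c (j + 1) = 0 := by
      have : (((B₁ \ A (t + 1)) ∩ {ω | cnt A (t + 1) j ω = j + 1}) \ WV V (t + 1) j) = ∅ := by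
        rw [Set.eq_empty_iff_forall_notMem]
        rintro ω ⟨⟨_, g2⟩, _⟩
        have g3 : cnt A (t + 1) j ω = j + 1 := g2
        have g4 : cnt A (t + 1) j ω ≤ j := by
          unfold cnt
          calc ∑ r ∈ Finset.range j, (if ω ∈ A (t + 1 + 1 + r) then 1 else 0) ≤ ∑ r ∈ Finset.range j, 1 :=
                Finset.sum_le_sum fun r _ => by split_ifs <;> omega
            _ = j := by simp
        omega
      simp only [hc]
      rw [this, measureReal_empty]
    have h2 : ∑ k ∈ Finset.range (j + 1 + 1), s ^ k * a k ≤ s * ∑ k ∈ Finset.range (j + 1), s ^ k * b k + ∑ k ∈ Finset.range (j + 1), s ^ k * c k := by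
      have e1 : ∑ k ∈ Finset.range (j + 1), s ^ k * c k = ∑ k ∈ Finset.range (j + 1 + 1), s ^ k * c k := by
        rw [Finset.sum_range_succ _ (j + 1), hc0, mul_zero, add_zero]
      rw [e1, Finset.sum_range_succ', Finset.sum_range_succ' (fun k => s ^ k * c k), pow_zero, one_mul, one_mul, Finset.mul_sum, ← add_assoc,
        ← Finset.sum_add_distrib]
      apply add_le_add _ h0
      apply Finset.sum_le_sum
      intro k _
      have h3 := mul_le_mul_of_nonneg_left (h1 k) (pow_nonneg hs.le (k + 1))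
      have h4 : s ^ (k + 1) * (b k + c (k + 1)) = s * (s ^ k * b k) + s ^ (k + 1) * c (k + 1) := by ring
      linarith
    have h3 := ih (t + 1) _ hC1
    have h4 := ih (t + 1) _ hC2
    have hprod : ∏ i ∈ Finset.range (j + 1), (1 + s * u (t + 1 + i) - l (t + 1 + i)) =
        (∏ i ∈ Finset.range j, (1 + s * u (t + 1 + 1 + i) - l (t + 1 + 1 + i))) * (1 + s * u (t + 1) - l (t + 1)) := by
      rw [Finset.prod_range_succ']
      congr 1
      refine Finset.prod_congr rfl fun i _ => ?_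
      rw [show t + 1 + (i + 1) = t + 1 + 1 + i by ring]
    have hfac : ∀ n, 0 ≤ 1 + s * u n - l n := fun n => by
      have g1 := hl1 n
      have g2 := mul_nonneg hs.le (hu0 n)
      linarith
    rw [hprod]
    set Pr : ℝ := ∏ i ∈ Finset.range j, (1 + s * u (t + 1 + 1 + i) - l (t + 1 + 1 + i)) with hPr
    have hPr0 : 0 ≤ Pr := Finset.prod_nonneg fun i _ => hfac _
    have h5 : s * ∑ k ∈ Finset.range (j + 1), s ^ k * b k ≤ s * (Pr * μ.real (B₁ ∩ A (t + 1))) := mul_le_mul_of_nonneg_left h3 hs.le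
    have h6 : s * μ.real (B₁ ∩ A (t + 1)) + μ.real (B₁ \ A (t + 1)) ≤ (1 + s * u (t + 1) - l (t + 1)) * μ.real B₁ := by
      have g1 := mul_le_mul_of_nonneg_left hup hs.le
      linarith
    have h7 := mul_le_mul_of_nonneg_left h6 hPr0
    have h8 : Pr * ((1 + s * u (t + 1) - l (t + 1)) * μ.real B₁) ≤ Pr * ((1 + s * u (t + 1) - l (t + 1)) * μ.real B) :=
      mul_le_mul_of_nonneg_left (mul_le_mul_of_nonneg_left hB1B (hfac _)) hPr0
    have h9 : Pr * (1 + s * u (t + 1) - l (t + 1)) * μ.real B = Pr * ((1 + s * u (t + 1) - l (t + 1)) * μ.real B) := by ring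
    rw [h9]
    linarith

/-- the tail of a count -/
theorem cnt_tail_prof (hA : ∀ n, MeasurableSet[ℱ n] (A n)) {l u : ℕ → ℝ} (hl1 : ∀ n, l n ≤ 1) (hu0 : ∀ n, 0 ≤ u n)
    {s κ : ℝ} (hs : 0 < s) (S : Set ℕ) (hS : ∀ k ∈ S, s ^ κ ≤ s ^ k) (t j : ℕ) :
    μ.real ({ω | cnt A t j ω ∈ S} \ WV (VB μ ℱ A l u) t j) ≤
      Real.exp (-(κ * Real.log s)) * Real.exp (∑ i ∈ Finset.range j, (s * u (t + 1 + i) - l (t + 1 + i))) := by
  classical
  set V := VB μ ℱ A l u with hV
  have h1 : ({ω | cnt A t j ω ∈ S} \ WV V t j) ⊆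
      ⋃ k ∈ (Finset.range (j + 1)).filter (· ∈ S), ((univ ∩ {ω | cnt A t j ω = k}) \ WV V t j) := by
    intro ω hω
    rw [mem_iUnion₂]
    refine ⟨cnt A t j ω, ?_, ⟨⟨mem_univ _, rfl⟩, hω.2⟩⟩
    rw [Finset.mem_filter, Finset.mem_range]
    refine ⟨Nat.lt_succ_of_le ?_, hω.1⟩
    unfold cnt
    calc ∑ r ∈ Finset.range j, (if ω ∈ A (t + 1 + r) then 1 else 0) ≤ ∑ r ∈ Finset.range j, 1 :=
          Finset.sum_le_sum fun r _ => by split_ifs <;> omega
      _ = j := by simp
  have hpos : 0 < s ^ κ := Real.rpow_pos_of_pos hs κ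
  have h2 : μ.real ({ω | cnt A t j ω ∈ S} \ WV V t j) ≤
      ∑ k ∈ (Finset.range (j + 1)).filter (· ∈ S), (s ^ κ)⁻¹ * (s ^ k * μ.real ((univ ∩ {ω | cnt A t j ω = k}) \ WV V t j)) := by
    refine (measureReal_mono h1 (measure_ne_top _ _)).trans ((measureReal_biUnion_finset_le _ _).trans ?_)
    apply Finset.sum_le_sum
    intro k hk
    have h5 := hS k (Finset.mem_filter.1 hk).2
    have h6 : 1 ≤ (s ^ κ)⁻¹ * s ^ k := by
      rw [inv_mul_eq_div, one_le_div hpos]
      exact h5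
    rw [← mul_assoc]
    exact le_mul_of_one_le_left measureReal_nonneg h6
  have h3 : ∑ k ∈ (Finset.range (j + 1)).filter (· ∈ S), (s ^ κ)⁻¹ * (s ^ k * μ.real ((univ ∩ {ω | cnt A t j ω = k}) \ WV V t j)) ≤
      (s ^ κ)⁻¹ * ∑ k ∈ Finset.range (j + 1), (s ^ k * μ.real ((univ ∩ {ω | cnt A t j ω = k}) \ WV V t j)) := by
    rw [Finset.mul_sum]
    apply Finset.sum_le_sum_of_subset_of_nonneg (Finset.filter_subset _ _)
    intro k _ _
    have : 0 ≤ μ.real ((univ ∩ {ω | cnt A t j ω = k}) \ WV V t j) := measureReal_nonneg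
    positivity
  have h4 := cnt_mgf (μ := μ) hA hl1 hu0 hs j t univ MeasurableSet.univ
  rw [probReal_univ, mul_one] at h4
  have h8 : (s ^ κ)⁻¹ = Real.exp (-(κ * Real.log s)) := by
    rw [Real.exp_neg, Real.rpow_def_of_pos hs, mul_comm]
  refine h2.trans (h3.trans ?_)
  rw [h8]
  apply mul_le_mul_of_nonneg_left _ (Real.exp_pos _).le
  refine h4.trans ?_
  rw [Real.exp_sum]
  apply Finset.prod_le_prod
  · intro i _
    have g1 := hl1 (t + 1 + i)
    have g2 := mul_nonneg hs.le (hu0 (t + 1 + i))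
    linarith
  · intro i _
    have := Real.add_one_le_exp (s * u (t + 1 + i) - l (t + 1 + i))
    linarith

/-- sparse blocks: the events occur infinitely often -/
theorem seq_none {T h : ℕ → ℕ} {J₀ : ℕ} (hT : ∀ j, J₀ ≤ j → T j + h j ≤ T (j + 1)) {D : ℕ → Set Ω}
    (hD : ∀ j, J₀ ≤ j → MeasurableSet[ℱ (T j + h j)] (D j)) {p : ℕ → ℝ} (hp1 : ∀ j, J₀ ≤ j → p j ≤ 1)
    (hp : ∀ j, J₀ ≤ j → ∀ B, MeasurableSet[ℱ (T j)] B → p j * μ.real B ≤ μ.real (B ∩ D j)) (J : ℕ) (hJ : J₀ ≤ J) (M : ℕ) :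
    μ.real {ω | ∀ j, J ≤ j → j < J + M → ω ∉ D j} ≤ Real.exp (-∑ j ∈ Finset.Ico J (J + M), p j) ∧
      MeasurableSet[ℱ (T (J + M))] {ω | ∀ j, J ≤ j → j < J + M → ω ∉ D j} := by
  induction M with
  | zero =>
    constructor
    · rw [add_zero, Finset.Ico_self, Finset.sum_empty, neg_zero, Real.exp_zero]
      have := measureReal_mono (μ := μ) (subset_univ {ω : Ω | ∀ j, J ≤ j → j < J + 0 → ω ∉ D j}) (measure_ne_top _ _)
      rw [probReal_univ] at this
      exact this
    · have : {ω : Ω | ∀ j, J ≤ j → j < J + 0 → ω ∉ D j} = univ := by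
        ext ω
        simp only [mem_ofPred_eq, mem_univ, iff_true]
        intro j h1 h2
        omega
      rw [this]
      exact @MeasurableSet.univ _ (ℱ (T (J + 0)))
  | succ M ih =>
    obtain ⟨ih1, ih2⟩ := ih
    have hset : {ω : Ω | ∀ j, J ≤ j → j < J + (M + 1) → ω ∉ D j} = {ω | ∀ j, J ≤ j → j < J + M → ω ∉ D j} \ D (J + M) := by
      ext ω
      simp only [mem_ofPred_eq, Set.mem_sdiff]
      constructor
      · intro h
        exact ⟨fun j h1 h2 => h j h1 (by omega), h (J + M) (by omega) (by omega)⟩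
      · rintro ⟨h1, h2⟩ j h3 h4
        rcases Nat.lt_or_ge j (J + M) with h5 | h5
        · exact h1 j h3 h5
        · have : j = J + M := by omega
          rw [this]
          exact h2
    set X : Set Ω := {ω | ∀ j, J ≤ j → j < J + M → ω ∉ D j} with hX
    have hJM : J₀ ≤ J + M := by omega
    have hDm : MeasurableSet (D (J + M)) := ℱ.le _ _ (hD _ hJM)
    have h1 := hp _ hJM X ih2
    have h2 := measureReal_inter_add_sdiff (μ := μ) (s := X) hDm
    constructor
    · rw [hset, show J + (M + 1) = J + M + 1 by ring, Finset.sum_Ico_succ_top (by omega)]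
      have h3 : μ.real (X \ D (J + M)) ≤ (1 - p (J + M)) * μ.real X := by linarith
      have h4 : 1 - p (J + M) ≤ Real.exp (-p (J + M)) := by
        have := Real.add_one_le_exp (-p (J + M))
        linarith
      have h5 : 0 ≤ μ.real X := measureReal_nonneg
      calc μ.real (X \ D (J + M)) ≤ (1 - p (J + M)) * μ.real X := h3
        _ ≤ Real.exp (-p (J + M)) * Real.exp (-∑ j ∈ Finset.Ico J (J + M), p j) :=
          mul_le_mul h4 ih1 h5 (Real.exp_pos _).le
        _ = _ := by rw [← Real.exp_add]; congr 1; ring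
    · rw [hset]
      have h6 : T (J + M) + h (J + M) ≤ T (J + (M + 1)) := hT _ hJM
      have h7 : MeasurableSet[ℱ (T (J + (M + 1)))] X := ℱ.mono (by omega) _ ih2
      have h8 : MeasurableSet[ℱ (T (J + (M + 1)))] (D (J + M)) := ℱ.mono h6 _ (hD _ hJM)
      exact h7.diff h8

end Pool.Agent.R528.RM
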