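import Mathlib
import Pool.Agent.R528.RM.Sp1
import Pool.Agent.R528.RM.Binom

set_option autoImplicit false
set_option linter.unusedSectionVars false
set_option linter.unusedVariables false

/-! # Counts in windows along a sparse sequence -/

open MeasureTheory Filter Set
open scoped ENNReal Topology

namespace Pool.Agent.R528.RM

variable {Ω : Type} {m0 : MeasurableSpace Ω} {μ : Measure Ω} [IsProbabilityMeasure μ]
  {ℱ : Filtration ℕ m0} {A : ℕ → Set Ω}

/-- a sparse sequence of windows with mean `β log j` -/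
structure Spar (T h : ℕ → ℕ) (β : ℝ) : Prop where
  disj : ∀ᶠ j in atTop, T j + h j ≤ T (j + 1)
  big : Tendsto (fun j => Real.log (T j)) atTop atTop
  ratio : Tendsto (fun j => Real.log ((T j + h j : ℕ) : ℝ) / Real.log (T j)) atTop (𝓝 1)
  mean : Tendsto (fun j : ℕ => (h j : ℝ) / Real.log (T j) / Real.log j) atTop (𝓝 β)

/-- the mean of a window -/
noncomputable def Rw (W : ℕ) (T h : ℕ → ℕ) (j : ℕ) : ℝ := ∑ i ∈ Finset.range (h j), rhoW W (T j + 1 + i)

lemma Rw_lim {W : ℕ} (hW : 0 < W) {T h : ℕ → ℕ} {β : ℝ} (hs : Spar T h β) :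
    Tendsto (fun j : ℕ => Rw W T h j / Real.log j) atTop (𝓝 β) := by
  obtain ⟨h1, h2, h3, h4⟩ := hs
  have he : Tendsto (fun j : ℕ => 2 * (W : ℝ) / Real.log (T j) / Real.log j) atTop (𝓝 0) := by
    have g1 : Tendsto (fun j : ℕ => 2 * (W : ℝ) / Real.log (T j)) atTop (𝓝 0) := tendsto_const_nhds.div_atTop h2
    have g2 : Tendsto (fun j : ℕ => (Real.log j)⁻¹) atTop (𝓝 0) := tendsto_log.inv_tendsto_atTop
    have g3 := g1.mul g2
    rw [mul_zero] at g3
    exact g3.congr fun j => by rw [div_eq_mul_inv (2 * (W : ℝ) / Real.log (T j))]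
  have hlow : Tendsto (fun j : ℕ => ((h j : ℝ) / Real.log (T j) / Real.log j - 2 * (W : ℝ) / Real.log (T j) / Real.log j) /
      (Real.log ((T j + h j : ℕ) : ℝ) / Real.log (T j))) atTop (𝓝 β) := by
    have := (h4.sub he).div h3 one_ne_zero
    rw [sub_zero, div_one] at this
    exact this
  have hup : Tendsto (fun j : ℕ => (h j : ℝ) / Real.log (T j) / Real.log j + 2 * (W : ℝ) / Real.log (T j) / Real.log j) atTop (𝓝 β) := by
    have := h4.add he
    rwa [add_zero] at this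
  have hev : ∀ᶠ j : ℕ in atTop, (((h j : ℝ) - 2 * W) / Real.log ((T j + h j : ℕ) : ℝ) ≤ Rw W T h j ∧
      Rw W T h j ≤ ((h j : ℝ) + 2 * W) / Real.log (T j)) ∧ 0 < Real.log (T j) ∧ 0 < Real.log ((T j + h j : ℕ) : ℝ) ∧ 0 < Real.log (j : ℝ) := by
    filter_upwards [h2.eventually_ge_atTop ((W : ℝ) / Nat.totient W), h2.eventually_gt_atTop 0, tendsto_log.eventually_gt_atTop 0] with j g1 g2 g3
    have hT1 : 1 ≤ T j := by
      by_contra hcon
      have : T j = 0 := by omega
      rw [this] at g2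
      simp at g2
    have g4 := rho_cls1 (W := W) (q := 1) (a := 0) (s := T j) (t := T j + h j) hW one_pos (zero_mem_admW W) (by omega) g1 hT1
    rw [adm_oneW, ← sum_rhoW_eq] at g4
    have g5 : Real.log (T j) ≤ Real.log ((T j + h j : ℕ) : ℝ) := Real.log_le_log (by exact_mod_cast hT1) (by push_cast; linarith [Nat.cast_nonneg (α := ℝ) (h j)])
    refine ⟨⟨?_, ?_⟩, g2, lt_of_lt_of_le g2 g5, g3⟩
    · refine le_trans (le_of_eq ?_) g4.1
      push_cast
      ring
    · refine g4.2.trans (le_of_eq ?_)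
      push_cast
      ring
  refine tendsto_of_tendsto_of_tendsto_of_le_of_le' hlow hup ?_ ?_
  · filter_upwards [hev] with j ⟨⟨g1, g2⟩, g3, g4, g5⟩
    have e : ((h j : ℝ) / Real.log (T j) / Real.log j - 2 * (W : ℝ) / Real.log (T j) / Real.log j) /
      (Real.log ((T j + h j : ℕ) : ℝ) / Real.log (T j)) = (((h j : ℝ) - 2 * W) / Real.log ((T j + h j : ℕ) : ℝ)) / Real.log j := by
      have g3' := g3.ne'
      have g4' := g4.ne'
      have g5' := g5.ne'
      set a := Real.log (T j : ℝ)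
      set b := Real.log ((T j + h j : ℕ) : ℝ)
      set c := Real.log (j : ℝ)
      field_simp
    rw [e]
    exact div_le_div_of_nonneg_right g1 g5.le
  · filter_upwards [hev] with j ⟨⟨g1, g2⟩, g3, g4, g5⟩
    have e : (h j : ℝ) / Real.log (T j) / Real.log j + 2 * (W : ℝ) / Real.log (T j) / Real.log j = (((h j : ℝ) + 2 * W) / Real.log (T j)) / Real.log j := by
      ring
    rw [e]
    exact div_le_div_of_nonneg_right g2 g5.le

lemma tendsto_T {T : ℕ → ℕ} (h : Tendsto (fun j => Real.log (T j : ℝ)) atTop atTop) : Tendsto T atTop atTop := by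
  rw [tendsto_atTop]
  intro b
  filter_upwards [h.eventually_gt_atTop (Real.log b), h.eventually_gt_atTop 0] with j h1 h2
  by_contra hcon
  push Not at hcon
  have hT1 : 1 ≤ T j := by
    by_contra hcon
    have : T j = 0 := by omega
    rw [this] at h2
    simp at h2
  have := Real.log_le_log (show (0 : ℝ) < T j by exact_mod_cast hT1) (show (T j : ℝ) ≤ b by exact_mod_cast hcon.le)
  linarith

/-- large deviations do not occur infinitely often -/
theorem spar_ev (hA : ∀ n, MeasurableSet[ℱ n] (A n)) {W : ℕ} (hW : 0 < W)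
    (hd : ∀ᵐ ω ∂μ, ∀ ε : ℝ, 0 < ε → ∀ᶠ n : ℕ in atTop, |dens μ ℱ A n ω - rhoW W (n + 1)| ≤ ε * rhoW W (n + 1))
    {T h : ℕ → ℕ} {β : ℝ} (hs : Spar T h β) (hβ : 0 < β) {s : ℝ} (hs0 : 0 < s) (hI : 1 < β * (s * Real.log s - s + 1)) (S : ℕ → Set ℕ)
    (hS : ∀ j : ℕ, ∀ k ∈ S j, s ^ (s * β * Real.log j) ≤ s ^ k) :
    ∀ᵐ ω ∂μ, ∀ᶠ j : ℕ in atTop, cnt A (T j) (h j) ω ∉ S j := by
  obtain ⟨δ, hδ0, hδ1, hδ⟩ : ∃ δ : ℝ, 0 < δ ∧ δ ≤ 1 ∧ 1 < β * ((s * Real.log s - s + 1) - δ * (s + 1)) := by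
    have hgap : 0 < β * (s * Real.log s - s + 1) - 1 := by linarith
    refine ⟨min 1 ((β * (s * Real.log s - s + 1) - 1) / (2 * β * (s + 1))), lt_min one_pos (by positivity), min_le_left _ _, ?_⟩
    have h1 : min 1 ((β * (s * Real.log s - s + 1) - 1) / (2 * β * (s + 1))) ≤ (β * (s * Real.log s - s + 1) - 1) / (2 * β * (s + 1)) := min_le_right _ _
    have h2 : β * (s + 1) * min 1 ((β * (s * Real.log s - s + 1) - 1) / (2 * β * (s + 1))) ≤ β * (s + 1) * ((β * (s * Real.log s - s + 1) - 1) / (2 * β * (s + 1))) :=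
      mul_le_mul_of_nonneg_left h1 (by positivity)
    have h3 : β * (s + 1) * ((β * (s * Real.log s - s + 1) - 1) / (2 * β * (s + 1))) = (β * (s * Real.log s - s + 1) - 1) / 2 := by
      field_simp
    rw [h3] at h2
    have h4 : β * ((s * Real.log s - s + 1) - min 1 ((β * (s * Real.log s - s + 1) - 1) / (2 * β * (s + 1))) * (s + 1)) =
      β * (s * Real.log s - s + 1) - β * (s + 1) * min 1 ((β * (s * Real.log s - s + 1) - 1) / (2 * β * (s + 1))) := by ring
    rw [h4]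
    linarith
  have hR := Rw_lim hW hs
  have hl1 : ∀ n, lp W δ n ≤ 1 := by
    intro n
    have h1 := rhoW_le W n
    have h2 := rhoW_nonneg W n
    unfold lp
    nlinarith only [h1, h2, hδ0, hδ1]
  have hu0 : ∀ n, 0 ≤ up W δ n := fun n => le_min zero_le_one (mul_nonneg (by linarith) (rhoW_nonneg W n))
  set c : ℝ := s * (1 + δ) - (1 - δ) with hc
  set r : ℝ := β * ((s * Real.log s - s + 1) - δ * (s + 1)) with hr
  have hexp : Tendsto (fun j : ℕ => -(s * β * Real.log s) + c * (Rw W T h j / Real.log j)) atTop (𝓝 (-r)) := by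
    have := (hR.const_mul c).const_add (-(s * β * Real.log s))
    have e : -(s * β * Real.log s) + c * β = -r := by rw [hc, hr]; ring
    rwa [e] at this
  have hb : ∀ᶠ j : ℕ in atTop, μ.real ({ω | cnt A (T j) (h j) ω ∈ S j} \ WV (VB μ ℱ A (lp W δ) (up W δ)) (T j) (h j)) ≤ (j : ℝ) ^ (-((1 + r) / 2)) := by
    filter_upwards [hexp.eventually (eventually_lt_nhds (show -r < -((1 + r) / 2) by linarith)), tendsto_log.eventually_gt_atTop 0,
      eventually_gt_atTop 0] with j h1 h2 h3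
    have hj : (0 : ℝ) < j := by exact_mod_cast h3
    refine (cnt_tail_prof (μ := μ) (ℱ := ℱ) hA hl1 hu0 (κ := s * β * Real.log j) hs0 (S j) (hS j) (T j) (h j)).trans ?_
    rw [← Real.exp_add, Real.rpow_def_of_pos hj, Real.exp_le_exp]
    have h4 : ∑ i ∈ Finset.range (h j), (s * up W δ (T j + 1 + i) - lp W δ (T j + 1 + i)) ≤ c * Rw W T h j := by
      unfold Rw
      rw [Finset.mul_sum]
      apply Finset.sum_le_sum
      intro i _
      have g1 : up W δ (T j + 1 + i) ≤ (1 + δ) * rhoW W (T j + 1 + i) := min_le_right _ _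
      have g2 := mul_le_mul_of_nonneg_left g1 hs0.le
      unfold lp
      rw [hc]
      linarith
    have h5 : (-(s * β * Real.log s) + c * (Rw W T h j / Real.log j)) * Real.log j ≤ -((1 + r) / 2) * Real.log j :=
      mul_le_mul_of_nonneg_right h1.le h2.le
    have h6 : (-(s * β * Real.log s) + c * (Rw W T h j / Real.log j)) * Real.log j = -(s * β * Real.log j * Real.log s) + c * Rw W T h j := by
      field_simp
    rw [h6] at h5
    linarith
  have hsum : Summable (fun j : ℕ => (j : ℝ) ^ (-((1 + r) / 2))) := summable_pow_nat (by linarith)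
  have h01 : ∀ᵐ ω ∂μ, ∀ n, 0 ≤ dens μ ℱ A n ω ∧ dens μ ℱ A n ω ≤ 1 := ae_all_iff.2 fun n => dens01 hA n
  filter_upwards [bc_real (μ := μ) hsum hb, hd, h01] with ω hω hdω h01ω
  obtain ⟨N, hN⟩ := dens_two hdω hδ0
  filter_upwards [hω, (tendsto_T hs.big).eventually_ge_atTop N] with j h1 h2 h3
  apply h1
  refine ⟨h3, ?_⟩
  rintro ⟨m, hm1, hm2, hm3⟩
  apply hm3
  have hN' := hN N le_rfl
  exact ⟨hN'.2 m (h2.trans hm1), le_min (h01ω m).2 (hN'.1 m (h2.trans hm1))⟩

/-- the positions coprime to `W` in the window -/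
def Pj (W : ℕ) (T h : ℕ → ℕ) (j : ℕ) (n : ℕ) : Prop := Nat.Coprime n W ∧ T j < n ∧ n ≤ T j + h j

instance (W : ℕ) (T h : ℕ → ℕ) (j : ℕ) : DecidablePred (Pj W T h j) := fun n => inferInstanceAs (Decidable (_ ∧ _ ∧ _))

/-- the lower bound for one term -/
noncomputable def lmj (W : ℕ) (T h : ℕ → ℕ) (δ : ℝ) (j : ℕ) : ℝ := (1 - δ) * (((W : ℝ) / Nat.totient W) / Real.log ((T j + h j : ℕ) : ℝ))

lemma lmj_bounds {W : ℕ} (hW : 0 < W) {T h : ℕ → ℕ} {β : ℝ} (hs : Spar T h β) {δ : ℝ} (hδ0 : 0 < δ) (hδ1 : δ ≤ 1 / 4) :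
    ∀ᶠ j : ℕ in atTop, 0 < lmj W T h δ j ∧ (∀ n, Pj W T h j n → lmj W T h δ j ≤ lp W δ n) ∧ (∀ n, Pj W T h j n → lmj W T h δ j ≤ up W δ n) := by
  have hφ : (0 : ℝ) < Nat.totient W := by exact_mod_cast Nat.totient_pos.2 hW
  have hW' : (0 : ℝ) < W := by exact_mod_cast hW
  have hc : 0 < (W : ℝ) / Nat.totient W := by positivity
  filter_upwards [hs.big.eventually_ge_atTop ((W : ℝ) / Nat.totient W), hs.big.eventually_gt_atTop 0] with j g1 g2
  have hT1 : 1 ≤ T j := by
    by_contra hcon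
    have : T j = 0 := by omega
    rw [this] at g2
    simp at g2
  have hlog : ∀ n : ℕ, T j ≤ n → n ≤ T j + h j → Real.log (T j) ≤ Real.log n ∧ Real.log n ≤ Real.log ((T j + h j : ℕ) : ℝ) := by
    intro n h1 h2
    constructor
    · exact Real.log_le_log (by exact_mod_cast hT1) (by exact_mod_cast h1)
    · exact Real.log_le_log (by exact_mod_cast (by omega : 0 < n)) (by exact_mod_cast h2)
  have hTh := (hlog (T j) le_rfl (by omega)).2
  have hpos : 0 < Real.log ((T j + h j : ℕ) : ℝ) := lt_of_lt_of_le g2 hTh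
  have hlm : 0 < lmj W T h δ j := by
    unfold lmj
    have : 0 < 1 - δ := by linarith
    positivity
  have key : ∀ n, Pj W T h j n → lmj W T h δ j ≤ lp W δ n := by
    rintro n ⟨h1, h2, h3⟩
    obtain ⟨h4, h5⟩ := hlog n h2.le h3
    unfold lp lmj rhoW
    rw [if_pos h1]
    apply mul_le_mul_of_nonneg_left _ (by linarith)
    apply le_min
    · rw [div_le_one hpos]
      linarith
    · exact div_le_div_of_nonneg_left hc.le (by linarith) h5
  refine ⟨hlm, key, fun n hn => (key n hn).trans ?_⟩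
  have h1 := rhoW_nonneg W n
  have h2 := rhoW_le W n
  unfold lp up
  apply le_min
  · nlinarith
  · nlinarith

/-- infinitely often from the divergence of the lower bounds -/
theorem spar_bc (hA : ∀ n, MeasurableSet[ℱ n] (A n)) {W : ℕ} (hW : 0 < W)
    (hd : ∀ᵐ ω ∂μ, ∀ ε : ℝ, 0 < ε → ∀ᶠ n : ℕ in atTop, |dens μ ℱ A n ω - rhoW W (n + 1)| ≤ ε * rhoW W (n + 1))
    {T h : ℕ → ℕ} {β : ℝ} (hs : Spar T h β) {δ : ℝ} (hδ0 : 0 < δ) (hδ1 : δ ≤ 1 / 4) (K : ℕ → ℕ)
    (hG : ∀ᶠ j : ℕ in atTop, 1 / (j : ℝ) ≤ Gb (up W δ) (Pj W T h j) (lmj W T h δ j) (T j) (h j) (K j)) :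
    ∀ᵐ ω ∂μ, ∃ᶠ j : ℕ in atTop, cnt A (T j) (h j) ω = K j := by
  have hu0 : ∀ n, 0 ≤ up W δ n := fun n => le_min zero_le_one (mul_nonneg (by linarith) (rhoW_nonneg W n))
  have hu1 : ∀ n, up W δ n ≤ 1 := fun n => min_le_left _ _
  obtain ⟨J₀, hJ₀⟩ := eventually_atTop.1 ((hG.and (lmj_bounds hW hs hδ0 hδ1)).and hs.disj)
  set D : ℕ → Set Ω := fun j => {ω | cnt A (T j) (h j) ω = K j} ∪ WV (VB μ ℱ A (lp W δ) (up W δ)) (T j) (h j) with hD
  have hnone := seq_none (μ := μ) (ℱ := ℱ) (T := T) (h := h) (J₀ := J₀) (fun j hj => (hJ₀ j hj).2) (D := D)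
    (fun j hj => @MeasurableSet.union _ (ℱ (T j + h j)) _ _ (cnt_meas hA _ _ _) (WV_meas (fun n => VB_meas _ _ n) _ _))
    (p := fun j => Gb (up W δ) (Pj W T h j) (lmj W T h δ j) (T j) (h j) (K j))
    (fun j hj => Gb_le_one hu0 hu1 _ (hJ₀ j hj).1.2.1.le (hJ₀ j hj).1.2.2.2 _ _ _)
    (fun j hj B hB => cnt_ge_prof (μ := μ) hA hu0 hu1 _ (hJ₀ j hj).1.2.1.le (hJ₀ j hj).1.2.2.1 (hJ₀ j hj).1.2.2.2 _ _ _ B hB)
  have hzero : ∀ J, J₀ ≤ J → μ {ω | ∀ j, J ≤ j → ω ∉ D j} = 0 := by
    intro J hJ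
    have h1 : ∀ M, μ.real {ω | ∀ j, J ≤ j → ω ∉ D j} ≤ Real.exp (-∑ j ∈ Finset.Ico J (J + M), 1 / (j : ℝ)) := by
      intro M
      refine (measureReal_mono (s₂ := {ω | ∀ j, J ≤ j → j < J + M → ω ∉ D j}) ?_ (measure_ne_top _ _)).trans (((hnone J hJ M).1).trans ?_)
      · intro ω hω j h1 _
        exact hω j h1
      · apply Real.exp_le_exp.2
        apply neg_le_neg
        apply Finset.sum_le_sum
        intro j hj
        exact (hJ₀ j (hJ.trans (Finset.mem_Ico.1 hj).1)).1.1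
    have h2 : Tendsto (fun M : ℕ => ∑ j ∈ Finset.Ico J (J + M), 1 / (j : ℝ)) atTop atTop := by
      have h3 : Tendsto (fun n : ℕ => ∑ j ∈ Finset.range n, 1 / (j : ℝ)) atTop atTop := by
        have := (not_summable_iff_tendsto_nat_atTop_of_nonneg (f := fun n : ℕ => 1 / (n : ℝ)) (fun n => by positivity)).1 Real.not_summable_one_div_natCast
        exact this
      have h4 : Tendsto (fun M : ℕ => ∑ j ∈ Finset.range (J + M), 1 / (j : ℝ) - ∑ j ∈ Finset.range J, 1 / (j : ℝ)) atTop atTop := by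
        apply tendsto_atTop_add_const_right
        exact h3.comp (tendsto_add_atTop_nat J |>.congr fun n => by rw [add_comm])
      refine h4.congr fun M => ?_
      rw [Finset.sum_Ico_eq_sub _ (by omega)]
    have h5 : Tendsto (fun M : ℕ => Real.exp (-∑ j ∈ Finset.Ico J (J + M), 1 / (j : ℝ))) atTop (𝓝 0) :=
      Real.tendsto_exp_neg_atTop_nhds_zero.comp h2
    have h6 : μ.real {ω | ∀ j, J ≤ j → ω ∉ D j} ≤ 0 := ge_of_tendsto h5 (Eventually.of_forall h1)
    have h7 : μ.real {ω | ∀ j, J ≤ j → ω ∉ D j} = 0 := le_antisymm h6 measureReal_nonneg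
    exact (measureReal_eq_zero_iff (measure_ne_top _ _)).1 h7
  have h01 : ∀ᵐ ω ∂μ, ∀ n, 0 ≤ dens μ ℱ A n ω ∧ dens μ ℱ A n ω ≤ 1 := ae_all_iff.2 fun n => dens01 hA n
  have hall : ∀ᵐ ω ∂μ, ∀ J, J₀ ≤ J → ∃ j, J ≤ j ∧ ω ∈ D j := by
    rw [ae_all_iff]
    intro J
    by_cases hJ : J₀ ≤ J
    · have : ∀ᵐ ω ∂μ, ω ∉ {ω | ∀ j, J ≤ j → ω ∉ D j} := measure_eq_zero_iff_ae_notMem.1 (hzero J hJ)
      filter_upwards [this] with ω hω _
      by_contra hcon
      push Not at hcon
      exact hω hcon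
    · exact Eventually.of_forall fun ω h => absurd h hJ
  filter_upwards [hall, hd, h01] with ω hω hdω h01ω
  obtain ⟨N, hN⟩ := dens_two hdω hδ0
  obtain ⟨J₁, hJ₁⟩ := eventually_atTop.1 ((tendsto_T hs.big).eventually_ge_atTop N)
  rw [frequently_atTop]
  intro J
  obtain ⟨j, hj1, hj2⟩ := hω (max J₀ (max J₁ J)) (le_max_left _ _)
  have hj3 : J₁ ≤ j := ((le_max_left _ _).trans (le_max_right _ _)).trans hj1
  have hj4 : J ≤ j := ((le_max_right _ _).trans (le_max_right _ _)).trans hj1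
  refine ⟨j, hj4, ?_⟩
  rcases hj2 with h1 | ⟨m, hm1, hm2, hm3⟩
  · exact h1
  · exfalso
    apply hm3
    have hN' := hN N le_rfl
    have := hJ₁ j hj3
    exact ⟨hN'.2 m (this.trans hm1), le_min (h01ω m).2 (hN'.1 m (this.trans hm1))⟩

/-- lower bound for the product of the absent terms -/
lemma prod_absent {W : ℕ} (hW : 0 < W) {T h : ℕ → ℕ} {β : ℝ} (hs : Spar T h β) {δ : ℝ} (hδ0 : 0 < δ) (hδ1 : δ ≤ 1 / 4) :
    ∀ᶠ j : ℕ in atTop, Real.exp (-((1 + δ) ^ 2 * Rw W T h j)) ≤ ∏ i ∈ Finset.range (h j), (1 - up W δ (T j + 1 + i)) := by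
  have hφ : (1 : ℝ) ≤ Nat.totient W := by exact_mod_cast Nat.totient_pos.2 hW
  have hW' : (1 : ℝ) ≤ W := by exact_mod_cast hW
  have hWφ2 : (W : ℝ) / Nat.totient W ≤ W := div_le_self (by linarith) hφ
  have hu0 : ∀ n, 0 ≤ up W δ n := fun n => le_min zero_le_one (mul_nonneg (by linarith) (rhoW_nonneg W n))
  filter_upwards [hs.big.eventually_ge_atTop (4 * W / δ), hs.big.eventually_gt_atTop 0] with j g1 g2
  have hT1 : 1 ≤ T j := by
    by_contra hcon
    have : T j = 0 := by omega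
    rw [this] at g2
    simp at g2
  have hsmall : ∀ i < h j, 2 * up W δ (T j + 1 + i) ≤ δ := by
    intro i hi
    have e0 : up W δ (T j + 1 + i) ≤ (1 + δ) * rhoW W (T j + 1 + i) := min_le_right _ _
    have e1 : rhoW W (T j + 1 + i) ≤ W / Real.log (T j) := by
      unfold rhoW
      split_ifs
      · refine (min_le_right _ _).trans ?_
        exact div_le_div₀ (by linarith) hWφ2 g2 (Real.log_le_log (by exact_mod_cast hT1) (by exact_mod_cast (by omega : T j ≤ T j + 1 + i)))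
      · positivity
    have e2 : (W : ℝ) / Real.log (T j) ≤ δ / 4 := by
      rw [div_le_iff₀ g2]
      rw [div_le_iff₀ hδ0] at g1
      linarith
    have e3 := rhoW_nonneg W (T j + 1 + i)
    nlinarith
  have key := prod_ge (c := fun _ => False) (l := fun i => 0) (u := fun i => up W δ (T j + 1 + i)) (lm := 1) (κ := δ)
    (H := h j) (k := 0) (by norm_num) le_rfl (fun i _ h => absurd h id) (by linarith) (fun i _ => hu0 _) hsmall (by simp)
  simp only [pow_zero, one_mul, if_false] at key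
  refine le_trans ?_ key
  apply Real.exp_le_exp.2
  apply neg_le_neg
  have h1 : ∑ i ∈ Finset.range (h j), up W δ (T j + 1 + i) ≤ (1 + δ) * Rw W T h j := by
    unfold Rw
    rw [Finset.mul_sum]
    exact Finset.sum_le_sum fun i _ => min_le_right _ _
  have h2 := mul_le_mul_of_nonneg_left h1 (show 0 ≤ 1 + δ by linarith)
  calc _ ≤ _ := h2
    _ = _ := by ring

/-- the number of positions -/
lemma dj_ge {W : ℕ} (hW : 0 < W) {T h : ℕ → ℕ} {β : ℝ} (hs : Spar T h β) :
    ∀ᶠ j : ℕ in atTop, Rw W T h j * Real.log (T j) ≤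
      (((Finset.range (h j)).filter (fun i => Pj W T h j (T j + 1 + i))).card : ℝ) * ((W : ℝ) / Nat.totient W) := by
  have hφ : (0 : ℝ) < Nat.totient W := by exact_mod_cast Nat.totient_pos.2 hW
  have hW' : (0 : ℝ) < W := by exact_mod_cast hW
  filter_upwards [hs.big.eventually_gt_atTop 0] with j g2
  have hT1 : 1 ≤ T j := by
    by_contra hcon
    have : T j = 0 := by omega
    rw [this] at g2
    simp at g2
  have h1 : Rw W T h j ≤ (((Finset.range (h j)).filter (fun i => Pj W T h j (T j + 1 + i))).card : ℝ) * (((W : ℝ) / Nat.totient W) / Real.log (T j)) := by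
    unfold Rw
    rw [← nsmul_eq_mul, ← Finset.sum_const, Finset.sum_filter]
    apply Finset.sum_le_sum
    intro i hi
    have hi' := Finset.mem_range.1 hi
    unfold rhoW
    by_cases hc : Nat.Coprime (T j + 1 + i) W
    · rw [if_pos hc, if_pos (show Pj W T h j (T j + 1 + i) from ⟨hc, by omega, by omega⟩)]
      refine (min_le_right _ _).trans ?_
      exact div_le_div_of_nonneg_left (by positivity) g2 (Real.log_le_log (by exact_mod_cast hT1) (by exact_mod_cast (by omega : T j ≤ T j + 1 + i)))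
    · rw [if_neg hc]
      split_ifs <;> positivity
  have h2 := mul_le_mul_of_nonneg_right h1 g2.le
  refine h2.trans (le_of_eq ?_)
  field_simp

/-- prescribed counts occur infinitely often when the rate is less than one -/
theorem spar_io (hA : ∀ n, MeasurableSet[ℱ n] (A n)) {W : ℕ} (hW : 0 < W)
    (hd : ∀ᵐ ω ∂μ, ∀ ε : ℝ, 0 < ε → ∀ᶠ n : ℕ in atTop, |dens μ ℱ A n ω - rhoW W (n + 1)| ≤ ε * rhoW W (n + 1))
    {T h : ℕ → ℕ} {β c : ℝ} (hs : Spar T h β) (hβ : 0 < β) (hc : 0 < c) (K : ℕ → ℕ)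
    (hK : Tendsto (fun j : ℕ => (K j : ℝ) / Real.log j) atTop (𝓝 c)) (hrate : 0 < 1 + c * (1 + Real.log (β / c)) - β) :
    ∀ᵐ ω ∂μ, ∃ᶠ j : ℕ in atTop, cnt A (T j) (h j) ω = K j := by
  -- choose `δ`
  obtain ⟨δ, hδ0, hδ1, hδ⟩ : ∃ δ : ℝ, 0 < δ ∧ δ ≤ 1 / 4 ∧
      0 < 1 + c * (1 + Real.log ((1 - δ) * (β / c))) - (1 + δ) ^ 2 * β := by
    have hcont : ContinuousAt (fun δ : ℝ => 1 + c * (1 + Real.log ((1 - δ) * (β / c))) - (1 + δ) ^ 2 * β) 0 := by
      have h1 : (1 - 0) * (β / c) ≠ 0 := by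
        rw [sub_zero, one_mul]
        positivity
      fun_prop (disch := assumption)
    have h0 : (fun δ : ℝ => 1 + c * (1 + Real.log ((1 - δ) * (β / c))) - (1 + δ) ^ 2 * β) 0 =
        1 + c * (1 + Real.log (β / c)) - β := by simp
    have h1 := hcont.eventually (eventually_gt_nhds (show (0 : ℝ) <
      (fun δ : ℝ => 1 + c * (1 + Real.log ((1 - δ) * (β / c))) - (1 + δ) ^ 2 * β) 0 by rw [h0]; exact hrate))
    obtain ⟨ε, hε, hball⟩ := Metric.eventually_nhds_iff.1 h1
    refine ⟨min (ε / 2) (1 / 4), lt_min (by positivity) (by norm_num), min_le_right _ _, ?_⟩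
    apply hball
    rw [Real.dist_eq, sub_zero, abs_of_pos (lt_min (by positivity) (by norm_num))]
    exact lt_of_le_of_lt (min_le_left _ _) (by linarith)
  apply spar_bc hA hW hd hs hδ0 hδ1 K
  have hφ : (0 : ℝ) < Nat.totient W := by exact_mod_cast Nat.totient_pos.2 hW
  have hW' : (0 : ℝ) < W := by exact_mod_cast hW
  have hcW : 0 < (W : ℝ) / Nat.totient W := by positivity
  have hR := Rw_lim hW hs
  have hlogj := tendsto_log
  -- the ratio `R / K`
  have hRK : Tendsto (fun j : ℕ => Rw W T h j / K j) atTop (𝓝 (β / c)) := by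
    have h1 := hR.div hK hc.ne'
    refine h1.congr' ?_
    filter_upwards [hlogj.eventually_gt_atTop 0] with j hj
    show Rw W T h j / Real.log j / (K j / Real.log j) = _
    have := hj.ne'
    field_simp
  have hKt : Tendsto (fun j : ℕ => (K j : ℝ)) atTop atTop := by
    have h1 := hlogj.atTop_mul_pos hc hK
    refine h1.congr' ?_
    filter_upwards [hlogj.eventually_gt_atTop 0] with j hj
    have := hj.ne'
    field_simp
  -- the argument of the logarithm
  have harg : Tendsto (fun j : ℕ => (1 - δ) * (Rw W T h j / K j / (Real.log ((T j + h j : ℕ) : ℝ) / Real.log (T j)) -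
      ((W : ℝ) / Nat.totient W) / (Real.log (T j)) / (Real.log ((T j + h j : ℕ) : ℝ) / Real.log (T j)))) atTop (𝓝 ((1 - δ) * (β / c))) := by
    have h1 := hRK.div hs.ratio one_ne_zero
    have h2 : Tendsto (fun j : ℕ => ((W : ℝ) / Nat.totient W) / (Real.log (T j))) atTop (𝓝 0) := tendsto_const_nhds.div_atTop hs.big
    have h3 := h2.div hs.ratio one_ne_zero
    rw [div_one] at h1 h3
    have h4 := (h1.sub h3).const_mul (1 - δ)
    rw [sub_zero] at h4
    exact h4
  have hargpos : 0 < (1 - δ) * (β / c) := by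
    have : 0 < 1 - δ := by linarith
    positivity
  have hE : Tendsto (fun j : ℕ => (K j : ℝ) / Real.log j * (1 + Real.log ((1 - δ) * (Rw W T h j / K j / (Real.log ((T j + h j : ℕ) : ℝ) / Real.log (T j)) -
      ((W : ℝ) / Nat.totient W) / (Real.log (T j)) / (Real.log ((T j + h j : ℕ) : ℝ) / Real.log (T j))))) -
      Real.log (K j) / K j * ((K j : ℝ) / Real.log j) - 1 / Real.log j - (1 + δ) ^ 2 * (Rw W T h j / Real.log j)) atTop
      (𝓝 (c * (1 + Real.log ((1 - δ) * (β / c))) - 0 * c - 0 - (1 + δ) ^ 2 * β)) := by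
    have h1 := hK.mul ((harg.log hargpos.ne').const_add 1)
    have h2 : Tendsto (fun j : ℕ => Real.log (K j : ℝ) / K j) atTop (𝓝 0) :=
      (Real.isLittleO_log_id_atTop.tendsto_div_nhds_zero).comp hKt
    have h3 : Tendsto (fun j : ℕ => 1 / Real.log (j : ℝ)) atTop (𝓝 0) := tendsto_const_nhds.div_atTop hlogj
    exact ((h1.sub (h2.mul hK)).sub h3).sub (hR.const_mul _)
  have hgt : -1 < c * (1 + Real.log ((1 - δ) * (β / c))) - 0 * c - 0 - (1 + δ) ^ 2 * β := by linarith
  filter_upwards [hE.eventually (eventually_gt_nhds hgt), harg.eventually (eventually_gt_nhds hargpos), hlogj.eventually_gt_atTop 0,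
    hs.big.eventually_gt_atTop 0, hKt.eventually_ge_atTop 1, prod_absent hW hs hδ0 hδ1, dj_ge hW hs, lmj_bounds hW hs hδ0 hδ1,
    eventually_gt_atTop 0] with j g1 g2 g3 g4 g5 g6 g7 g8 g9
  have hj : (0 : ℝ) < j := by exact_mod_cast g9
  have hK1 : 1 ≤ K j := by exact_mod_cast g5
  have hKp : (0 : ℝ) < K j := by linarith
  have hT1 : 1 ≤ T j := by
    by_contra hcon
    have : T j = 0 := by omega
    rw [this] at g4
    simp at g4
  have hTh : Real.log (T j) ≤ Real.log ((T j + h j : ℕ) : ℝ) := Real.log_le_log (by exact_mod_cast hT1) (by exact_mod_cast Nat.le_add_right _ _)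
  have hThp : 0 < Real.log ((T j + h j : ℕ) : ℝ) := lt_of_lt_of_le g4 hTh
  set d : ℕ := ((Finset.range (h j)).filter (fun i => Pj W T h j (T j + 1 + i))).card with hdd
  set X : ℝ := (1 - δ) * (Rw W T h j / K j / (Real.log ((T j + h j : ℕ) : ℝ) / Real.log (T j)) -
      ((W : ℝ) / Nat.totient W) / (Real.log (T j)) / (Real.log ((T j + h j : ℕ) : ℝ) / Real.log (T j))) with hX
  have hδp : 0 < 1 - δ := by linarith
  -- comparison
  have hcomp : X ≤ ((d : ℝ) - K j) * lmj W T h δ j / K j := by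
    have e1 : X = (Rw W T h j * Real.log (T j) - K j * ((W : ℝ) / Nat.totient W)) * ((1 - δ) / Real.log ((T j + h j : ℕ) : ℝ)) / K j := by
      rw [hX]
      have a1 := g4.ne'
      have a2 := hThp.ne'
      have a3 := hKp.ne'
      set x := Real.log (T j : ℝ)
      set y := Real.log ((T j + h j : ℕ) : ℝ)
      set z := (W : ℝ) / Nat.totient W
      field_simp
    have e2 : ((d : ℝ) - K j) * lmj W T h δ j / K j = ((d : ℝ) * ((W : ℝ) / Nat.totient W) - K j * ((W : ℝ) / Nat.totient W)) * ((1 - δ) / Real.log ((T j + h j : ℕ) : ℝ)) / K j := by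
      unfold lmj
      ring
    rw [e1, e2]
    apply div_le_div_of_nonneg_right _ hKp.le
    apply mul_le_mul_of_nonneg_right _ (by positivity)
    linarith
  have hlm := g8.1
  have hdK : K j < d := by
    have e1 : 0 < ((d : ℝ) - K j) * lmj W T h δ j / K j := lt_of_lt_of_le g2 hcomp
    have e2 : 0 < ((d : ℝ) - K j) := by
      by_contra hcon
      push Not at hcon
      have : ((d : ℝ) - K j) * lmj W T h δ j / K j ≤ 0 := div_nonpos_of_nonpos_of_nonneg (mul_nonpos_of_nonpos_of_nonneg hcon hlm.le) hKp.le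
      linarith
    have e3 : (K j : ℝ) < d := by linarith
    exact_mod_cast e3
  have hdK' : 0 < (d : ℝ) - K j := by
    have : (K j : ℝ) < d := by exact_mod_cast hdK
    linarith
  have hch := choose_ge d (K j) hK1 hdK
  have hlmpow : lmj W T h δ j ^ K j = Real.exp (K j * Real.log (lmj W T h δ j)) := by
    rw [← Real.rpow_natCast, Real.rpow_def_of_pos hlm, mul_comm]
  have hGb : Real.exp (K j * (1 + Real.log (((d : ℝ) - K j) / K j)) - Real.log (K j) - 1) * Real.exp (K j * Real.log (lmj W T h δ j)) *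
      Real.exp (-((1 + δ) ^ 2 * Rw W T h j)) ≤ Gb (up W δ) (Pj W T h j) (lmj W T h δ j) (T j) (h j) (K j) := by
    unfold Gb
    rw [hlmpow]
    apply mul_le_mul (mul_le_mul_of_nonneg_right hch (Real.exp_pos _).le) g6 (Real.exp_pos _).le
    positivity
  refine le_trans ?_ hGb
  rw [← Real.exp_add, ← Real.exp_add]
  have hlog : Real.log (((d : ℝ) - K j) / K j) + Real.log (lmj W T h δ j) = Real.log (((d : ℝ) - K j) * lmj W T h δ j / K j) := by
    rw [← Real.log_mul (by positivity) hlm.ne']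
    congr 1
    ring
  have hlog2 : Real.log X ≤ Real.log (((d : ℝ) - K j) * lmj W T h δ j / K j) := Real.log_le_log g2 hcomp
  have e1 : 1 / (j : ℝ) = Real.exp (-Real.log j) := by
    rw [Real.exp_neg, Real.exp_log hj, one_div]
  rw [e1]
  apply Real.exp_le_exp.2
  have g1' := mul_lt_mul_of_pos_right g1 g3
  have e2 : ((K j : ℝ) / Real.log j * (1 + Real.log X) - Real.log (K j) / K j * ((K j : ℝ) / Real.log j) - 1 / Real.log j -
      (1 + δ) ^ 2 * (Rw W T h j / Real.log j)) * Real.log j =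
      K j * (1 + Real.log X) - Real.log (K j) - 1 - (1 + δ) ^ 2 * Rw W T h j := by
    have a1 := g3.ne'
    have a3 := hKp.ne'
    set y := Real.log (j : ℝ)
    set z := Real.log X
    set w := Real.log (K j : ℝ)
    field_simp
  rw [e2] at g1'
  have h5 : (K j : ℝ) * Real.log X ≤ K j * (Real.log (((d : ℝ) - K j) / K j) + Real.log (lmj W T h δ j)) := by
    rw [hlog]
    exact mul_le_mul_of_nonneg_left hlog2 hKp.le
  nlinarith only [g1', h5]

end Pool.Agent.R528.RM
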