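import Mathlib
import Pool.Agent.R528.RM.Sp2
import Pool.Agent.R528.RM.ERFinal

set_option autoImplicit false
set_option linter.unusedSectionVars false
set_option linter.unusedVariables false

/-! # The exact extreme orders in windows along a sparse sequence -/

open MeasureTheory Filter Set
open scoped ENNReal Topology

namespace Pool.Agent.R528.RM

variable {Ω : Type} {m0 : MeasurableSpace Ω} {μ : Measure Ω} [IsProbabilityMeasure μ]
  {ℱ : Filtration ℕ m0} {A : ℕ → Set Ω}

lemma rate_eq {β s : ℝ} (hβ : 0 < β) (hs : 0 < s) : 1 + s * β * (1 + Real.log (β / (s * β))) - β = 1 - β * II s := by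
  have e : β / (s * β) = s⁻¹ := by field_simp
  rw [e, Real.log_inv]
  unfold II
  ring

lemma exists_near {β s : ℝ} (hs : 0 < s) (hI : β * II s < 1) : (∃ s', s < s' ∧ β * II s' < 1) ∧ ∃ s', 0 < s' ∧ s' < s ∧ β * II s' < 1 := by
  have hcont : ContinuousAt (fun s : ℝ => β * II s) s := by
    unfold II
    have : s ≠ 0 := hs.ne'
    fun_prop (disch := assumption)
  have h1 := hcont.eventually (eventually_lt_nhds hI)
  obtain ⟨ε, hε, hball⟩ := Metric.eventually_nhds_iff.1 h1
  refine ⟨⟨s + ε / 2, by linarith, ?_⟩, ⟨s - min (ε / 2) (s / 2), ?_, ?_, ?_⟩⟩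
  · apply hball
    rw [Real.dist_eq, add_sub_cancel_left, abs_of_pos (by positivity)]
    linarith
  · have : min (ε / 2) (s / 2) ≤ s / 2 := min_le_right _ _
    linarith
  · have : 0 < min (ε / 2) (s / 2) := lt_min (by linarith) (by linarith)
    linarith
  · apply hball
    have h2 : 0 < min (ε / 2) (s / 2) := lt_min (by linarith) (by linarith)
    have h3 : min (ε / 2) (s / 2) ≤ ε / 2 := min_le_left _ _
    rw [Real.dist_eq, show s - min (ε / 2) (s / 2) - s = -min (ε / 2) (s / 2) by ring, abs_neg, abs_of_pos h2]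
    linarith

theorem spar_final (hA : ∀ n, MeasurableSet[ℱ n] (A n)) {W : ℕ} (hW : 0 < W)
    (hd : ∀ᵐ ω ∂μ, ∀ ε : ℝ, 0 < ε → ∀ᶠ n : ℕ in atTop, |dens μ ℱ A n ω - rhoW W (n + 1)| ≤ ε * rhoW W (n + 1))
    {T h : ℕ → ℕ} {β a b : ℝ} (hs : Spar T h β) (hβ : 0 < β) (ha : 1 < a) (hIa : β * II a = 1) (hb0 : 0 ≤ b) (hb1 : b < 1)
    (hb : (β ≤ 1 ∧ b = 0) ∨ (0 < b ∧ β * II b = 1)) :
    ∀ᵐ ω ∂μ, ∀ ε : ℝ, 0 < ε →
      (∀ᶠ j : ℕ in atTop, (cnt A (T j) (h j) ω : ℝ) < (a + ε) * β * Real.log j) ∧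
      (∃ᶠ j : ℕ in atTop, (a - ε) * β * Real.log j < cnt A (T j) (h j) ω) ∧
      (∀ᶠ j : ℕ in atTop, (b - ε) * β * Real.log j < cnt A (T j) (h j) ω) ∧
      (∃ᶠ j : ℕ in atTop, (cnt A (T j) (h j) ω : ℝ) < (b + ε) * β * Real.log j) := by
  have hlog : ∀ᶠ x : ℕ in atTop, 0 < Real.log x := tendsto_log.eventually_gt_atTop 0
  -- four countable families
  have h1 : ∀ m : ℕ, ∀ᵐ ω ∂μ, ∀ᶠ x : ℕ in atTop, (cnt A (T x) (h x) ω : ℝ) < (a + 1 / ((m : ℝ) + 1)) * β * Real.log x := by
    intro m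
    have hm : 0 < 1 / ((m : ℝ) + 1) := by positivity
    set s := a + 1 / ((m : ℝ) + 1) with hs'
    have hs1 : 1 < s := by linarith
    have := spar_ev (μ := μ) (ℱ := ℱ) hA hW hd hs hβ (show 0 < s by linarith)
      (hIa.symm.trans_lt (mul_lt_mul_of_pos_left (II_mono ha.le (by linarith)) hβ))
      (fun x => {k : ℕ | s * β * Real.log x ≤ k}) (by
        intro x k hk
        rw [← Real.rpow_natCast]
        exact Real.rpow_le_rpow_of_exponent_le hs1.le hk)
    filter_upwards [this] with ω h1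
    filter_upwards [h1] with x hx
    have hx' : ¬ (s * β * Real.log x ≤ (cnt A (T x) (h x) ω : ℝ)) := hx
    exact not_le.1 hx'
  have h2 : ∀ m : ℕ, ∀ᵐ ω ∂μ, ∃ᶠ x : ℕ in atTop, (a - 1 / ((m : ℝ) + 1)) * β * Real.log x < cnt A (T x) (h x) ω := by
    intro m
    have hm : 0 < 1 / ((m : ℝ) + 1) := by positivity
    set s := max ((1 + a) / 2) (a - 1 / ((m : ℝ) + 1)) with hs'
    have hs1 : 1 < s := lt_of_lt_of_le (by linarith) (le_max_left _ _)
    have hsa : s < a := max_lt (by linarith) (by linarith)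
    obtain ⟨s', hs'1, hs'2⟩ := (exists_near (β := β) (show 0 < s by linarith) ((mul_lt_mul_of_pos_left (II_mono hs1.le hsa) hβ).trans_eq hIa)).1
    have hs'0 : 0 < s' := by linarith
    have h3 := spar_io (μ := μ) (ℱ := ℱ) hA hW hd hs hβ (show 0 < s' * β by positivity) (fun j => ⌈s' * β * Real.log j⌉₊)
      ((tendsto_nat_ceil_mul_div_atTop (show 0 ≤ s' * β by positivity)).comp tendsto_log) (by rw [rate_eq hβ hs'0]; linarith)
    filter_upwards [h3] with ω h3
    refine (h3.and_eventually hlog).mono fun x hx => ?_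
    have g1 := Nat.le_ceil (s' * β * Real.log x)
    have g2 : (cnt A (T x) (h x) ω : ℝ) = (⌈s' * β * Real.log x⌉₊ : ℕ) := by exact_mod_cast hx.1
    rw [g2]
    refine lt_of_lt_of_le ?_ g1
    apply mul_lt_mul_of_pos_right _ hx.2
    apply mul_lt_mul_of_pos_right _ hβ
    exact lt_of_le_of_lt (le_max_right _ _) hs'1
  have h3 : ∀ m : ℕ, ∀ᵐ ω ∂μ, ∀ᶠ x : ℕ in atTop, (b - 1 / ((m : ℝ) + 1)) * β * Real.log x < cnt A (T x) (h x) ω := by
    intro m
    have hm : 0 < 1 / ((m : ℝ) + 1) := by positivity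
    rcases hb with ⟨_, hb⟩ | ⟨hb, hIb⟩
    · refine Eventually.of_forall fun ω => ?_
      filter_upwards [hlog] with x hx
      have h4 : (b - 1 / ((m : ℝ) + 1)) * β * Real.log x < 0 := by
        apply mul_neg_of_neg_of_pos _ hx
        apply mul_neg_of_neg_of_pos _ hβ
        rw [hb]
        linarith
      exact h4.trans_le (Nat.cast_nonneg _)
    · set s := max (b / 2) (b - 1 / ((m : ℝ) + 1)) with hs'
      have hs1 : 0 < s := lt_of_lt_of_le (by linarith) (le_max_left _ _)
      have hsb : s < b := max_lt (by linarith) (by linarith)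
      have := spar_ev (μ := μ) (ℱ := ℱ) hA hW hd hs hβ hs1
        (hIb.symm.trans_lt (mul_lt_mul_of_pos_left (II_anti hs1 hsb hb1.le) hβ))
        (fun x => {k : ℕ | (k : ℝ) ≤ s * β * Real.log x}) (by
          intro x k hk
          rw [← Real.rpow_natCast]
          exact Real.rpow_le_rpow_of_exponent_ge hs1 (by linarith) hk)
      filter_upwards [this] with ω h4
      filter_upwards [h4, hlog] with x hx hxl
      have hx' : ¬ ((cnt A (T x) (h x) ω : ℝ) ≤ s * β * Real.log x) := hx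
      refine lt_of_le_of_lt ?_ (not_le.1 hx')
      apply mul_le_mul_of_nonneg_right _ hxl.le
      exact mul_le_mul_of_nonneg_right (le_max_right _ _) hβ.le
  have h4 : ∀ m : ℕ, ∀ᵐ ω ∂μ, ∃ᶠ x : ℕ in atTop, (cnt A (T x) (h x) ω : ℝ) < (b + 1 / ((m : ℝ) + 1)) * β * Real.log x := by
    intro m
    have hm : 0 < 1 / ((m : ℝ) + 1) := by positivity
    set s := min ((1 + b) / 2) (b + 1 / ((m : ℝ) + 1)) with hs'
    have hs1 : s < 1 := lt_of_le_of_lt (min_le_left _ _) (by linarith)
    have hsb : b < s := lt_min (by linarith) (by linarith)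
    have hs0 : 0 < s := by linarith
    have hI : β * II s < 1 := by
      rcases hb with ⟨hl, _⟩ | ⟨hb, hIb⟩
      · have h5 := II_lt_one hs0 hs1
        nlinarith
      · exact (mul_lt_mul_of_pos_left (II_anti hb hsb hs1.le) hβ).trans_eq hIb
    obtain ⟨s', hs'0, hs'1, hs'2⟩ := (exists_near (β := β) hs0 hI).2
    have h3 := spar_io (μ := μ) (ℱ := ℱ) hA hW hd hs hβ (show 0 < s' * β by positivity) (fun j => ⌊s' * β * Real.log j⌋₊)
      ((tendsto_nat_floor_mul_div_atTop (show 0 ≤ s' * β by positivity)).comp tendsto_log) (by rw [rate_eq hβ hs'0]; linarith)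
    filter_upwards [h3] with ω h5
    refine (h5.and_eventually hlog).mono fun x hx => ?_
    have g1 := Nat.floor_le (show 0 ≤ s' * β * Real.log x by have := hx.2; positivity)
    have g2 : (cnt A (T x) (h x) ω : ℝ) = (⌊s' * β * Real.log x⌋₊ : ℕ) := by exact_mod_cast hx.1
    rw [g2]
    refine lt_of_le_of_lt g1 ?_
    apply mul_lt_mul_of_pos_right _ hx.2
    apply mul_lt_mul_of_pos_right _ hβ
    exact lt_of_lt_of_le hs'1 (min_le_right _ _)
  filter_upwards [ae_all_iff.2 h1, ae_all_iff.2 h2, ae_all_iff.2 h3, ae_all_iff.2 h4] with ω h1 h2 h3 h4 ε hε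
  obtain ⟨m, hm⟩ := exists_nat_one_div_lt hε
  refine ⟨?_, ?_, ?_, ?_⟩
  · filter_upwards [h1 m, hlog] with x hx hxl
    refine hx.trans_le (mul_le_mul_of_nonneg_right (mul_le_mul_of_nonneg_right (by linarith) hβ.le) hxl.le)
  · refine ((h2 m).and_eventually hlog).mono fun x hx => ?_
    refine lt_of_le_of_lt (mul_le_mul_of_nonneg_right (mul_le_mul_of_nonneg_right (by linarith) hβ.le) hx.2.le) hx.1
  · filter_upwards [h3 m, hlog] with x hx hxl
    refine lt_of_le_of_lt (mul_le_mul_of_nonneg_right (mul_le_mul_of_nonneg_right (by linarith) hβ.le) hxl.le) hx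
  · refine ((h4 m).and_eventually hlog).mono fun x hx => ?_
    refine hx.1.trans_le (mul_le_mul_of_nonneg_right (mul_le_mul_of_nonneg_right (by linarith) hβ.le) hx.2.le)

/-- the ratio of the logarithms -/
lemma ratio_of_le {T h : ℕ → ℕ} (hT : Tendsto (fun j => Real.log (T j)) atTop atTop) (hh : ∀ᶠ j in atTop, h j ≤ T j) :
    Tendsto (fun j => Real.log ((T j + h j : ℕ) : ℝ) / Real.log (T j)) atTop (𝓝 1) := by
  have h1 : Tendsto (fun j => 1 + Real.log 2 / Real.log (T j)) atTop (𝓝 (1 + 0)) :=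
    (tendsto_const_nhds.div_atTop hT).const_add 1
  rw [add_zero] at h1
  refine tendsto_of_tendsto_of_tendsto_of_le_of_le' tendsto_const_nhds h1 ?_ ?_
  · filter_upwards [hT.eventually_gt_atTop 0] with j hj
    have hT1 : 1 ≤ T j := by
      by_contra hcon
      have : T j = 0 := by omega
      rw [this] at hj
      simp at hj
    rw [le_div_iff₀ hj, one_mul]
    exact Real.log_le_log (by exact_mod_cast hT1) (by exact_mod_cast Nat.le_add_right _ _)
  · filter_upwards [hT.eventually_gt_atTop 0, hh] with j hj hj2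
    have hT1 : 1 ≤ T j := by
      by_contra hcon
      have : T j = 0 := by omega
      rw [this] at hj
      simp at hj
    have hTp : (0 : ℝ) < T j := by exact_mod_cast hT1
    rw [div_le_iff₀ hj, add_mul, one_mul, div_mul_cancel₀ _ hj.ne', ← Real.log_mul hTp.ne' (by norm_num)]
    apply Real.log_le_log
    · exact_mod_cast (by omega : 0 < T j + h j)
    · push_cast
      have : (h j : ℝ) ≤ T j := by exact_mod_cast hj2
      linarith

/-- the constants exist when `β > 1` -/
lemma II_roots {β : ℝ} (hβ : 1 < β) : ∃ a b : ℝ, 1 < a ∧ β * II a = 1 ∧ 0 < b ∧ b < 1 ∧ β * II b = 1 := by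
  have hcont : Continuous (fun s : ℝ => β * II s) := by
    unfold II
    have := Real.continuous_mul_log
    fun_prop
  have h1 : β * II 1 = 0 := by unfold II; simp
  have h0 : β * II 0 = β := by unfold II; simp
  obtain ⟨b, hb1, hb2⟩ := intermediate_value_Icc' (show (0 : ℝ) ≤ 1 by norm_num) hcont.continuousOn (show (1 : ℝ) ∈ Set.Icc (β * II 1) (β * II 0) by
    rw [h1, h0]; exact ⟨by norm_num, hβ.le⟩)
  have he : β * II (Real.exp 2) = β * (Real.exp 2 + 1) := by
    unfold II
    rw [Real.log_exp]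
    ring
  obtain ⟨a, ha1, ha2⟩ := intermediate_value_Icc (show (1 : ℝ) ≤ Real.exp 2 from Real.one_le_exp (by norm_num)) hcont.continuousOn
    (show (1 : ℝ) ∈ Set.Icc (β * II 1) (β * II (Real.exp 2)) by
      rw [h1, he]
      refine ⟨by norm_num, ?_⟩
      have := Real.exp_pos 2
      nlinarith)
  have ha2' : β * II a = 1 := ha2
  have hb2' : β * II b = 1 := hb2
  refine ⟨a, b, ?_, ha2', ?_, ?_, hb2'⟩
  · refine lt_of_le_of_ne ha1.1 fun h => ?_
    rw [← h, h1] at ha2'
    norm_num at ha2'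
  · refine lt_of_le_of_ne hb1.1 fun h => ?_
    rw [← h, h0] at hb2'
    linarith
  · refine lt_of_le_of_ne hb1.2 fun h => ?_
    rw [h, h1] at hb2'
    norm_num at hb2'

end Pool.Agent.R528.RM
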