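import Mathlib
import Pool.Agent.R528.RM.Sp3
import Pool.Agent.R528.RM.RoughCount

set_option autoImplicit false
set_option linter.unusedSectionVars false
set_option linter.unusedVariables false

/-! # Empty windows along a sparse sequence; the nth prime -/

open MeasureTheory Filter Set
open scoped ENNReal Topology

namespace Pool.Agent.R528.RM

variable {Ω : Type} {m0 : MeasurableSpace Ω} {μ : Measure Ω} [IsProbabilityMeasure μ]
  {ℱ : Filtration ℕ m0} {A : ℕ → Set Ω}

lemma exists_delta {β γ : ℝ} (hβ : 0 < β) (h : β < γ) : ∃ δ : ℝ, 0 < δ ∧ δ ≤ 1 / 4 ∧ (1 + δ) ^ 2 * β < γ := by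
  refine ⟨min (1 / 4) ((γ - β) / (4 * β)), lt_min (by norm_num) (div_pos (by linarith) (by positivity)), min_le_left _ _, ?_⟩
  set δ := min (1 / 4) ((γ - β) / (4 * β)) with hδ
  have h0 : 0 < δ := lt_min (by norm_num) (div_pos (by linarith) (by positivity))
  have h1 : δ ≤ 1 / 4 := min_le_left _ _
  have h2 : δ ≤ (γ - β) / (4 * β) := min_le_right _ _
  rw [le_div_iff₀ (by positivity)] at h2
  nlinarith

/-- the lower bound for the empty window -/
lemma Gb_empty {W : ℕ} (hW : 0 < W) {T h : ℕ → ℕ} {β γ : ℝ} (hs : Spar T h β) {δ : ℝ} (hδ0 : 0 < δ) (hδ1 : δ ≤ 1 / 4)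
    (hγ : (1 + δ) ^ 2 * β < γ) :
    ∀ᶠ j : ℕ in atTop, (j : ℝ) ^ (-γ) ≤ Gb (up W δ) (Pj W T h j) (lmj W T h δ j) (T j) (h j) 0 := by
  have h1 := ((Rw_lim hW hs).const_mul ((1 + δ) ^ 2)).eventually (eventually_lt_nhds hγ)
  filter_upwards [h1, prod_absent hW hs hδ0 hδ1, tendsto_log.eventually_gt_atTop 0, eventually_gt_atTop 0] with j g1 g2 g3 g4
  have hj : (0 : ℝ) < j := by exact_mod_cast g4
  unfold Gb
  rw [Nat.choose_zero_right, pow_zero, Nat.cast_one, one_mul, one_mul]
  refine le_trans ?_ g2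
  rw [Real.rpow_def_of_pos hj, Real.exp_le_exp]
  rw [← mul_div_assoc, div_lt_iff₀ g3] at g1
  linarith

/-- empty windows occur infinitely often if `β < 1` -/
theorem spar_zero (hA : ∀ n, MeasurableSet[ℱ n] (A n)) {W : ℕ} (hW : 0 < W)
    (hd : ∀ᵐ ω ∂μ, ∀ ε : ℝ, 0 < ε → ∀ᶠ n : ℕ in atTop, |dens μ ℱ A n ω - rhoW W (n + 1)| ≤ ε * rhoW W (n + 1))
    {T h : ℕ → ℕ} {β : ℝ} (hs : Spar T h β) (hβ : 0 < β) (hβ1 : β < 1) :
    ∀ᵐ ω ∂μ, ∃ᶠ j : ℕ in atTop, cnt A (T j) (h j) ω = 0 := by
  obtain ⟨δ, hδ0, hδ1, hδ⟩ := exists_delta hβ hβ1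
  apply spar_bc hA hW hd hs hδ0 hδ1 (fun _ => 0)
  filter_upwards [Gb_empty hW hs hδ0 hδ1 hδ, eventually_gt_atTop 0] with j g1 g2
  have hj : (0 : ℝ) < j := by exact_mod_cast g2
  refine le_trans (le_of_eq ?_) g1
  rw [Real.rpow_neg_one, one_div]

/-- the number of the prime number `j` (from `1`) -/
lemma tendsto_nth_prime : Tendsto (fun j : ℕ => Nat.nth Nat.Prime (j - 1)) atTop atTop := by
  have h1 : Tendsto (Nat.nth Nat.Prime) atTop atTop := (Nat.nth_strictMono Nat.infinite_setOfPred_prime).tendsto_atTop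
  exact h1.comp (tendsto_sub_atTop_nat 1)

/-- the asymptotic of the nth prime -/
lemma nth_prime_asymp : Tendsto (fun j : ℕ => (Nat.nth Nat.Prime (j - 1) : ℝ) / (j * Real.log j)) atTop (𝓝 1) := by
  set P : ℕ → ℕ := fun j => Nat.nth Nat.Prime (j - 1) with hP
  have hPt : Tendsto P atTop atTop := tendsto_nth_prime
  have hcount : ∀ᶠ j : ℕ in atTop, Nat.primeCounting (P j) = j := by
    filter_upwards [eventually_gt_atTop 0] with j hj
    have h1 : Nat.primeCounting' (Nat.nth Nat.Prime (j - 1) + 1) = (j - 1) + 1 := by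
      rw [Nat.primeCounting']
      exact Nat.count_nth_succ_of_infinite Nat.infinite_setOfPred_prime (j - 1)
    have h2 : Nat.primeCounting (P j) = Nat.primeCounting' (P j + 1) := rfl
    rw [h2, h1]
    omega
  have h1 : Tendsto (fun j : ℕ => (j : ℝ) * Real.log (P j) / P j) atTop (𝓝 1) := by
    refine (pnt_nat.comp hPt).congr' ?_
    filter_upwards [hcount] with j hj
    show (Nat.primeCounting (P j) : ℝ) * Real.log (P j) / (P j) = _
    rw [hj]
  have hPr : Tendsto (fun j : ℕ => (P j : ℝ)) atTop atTop := tendsto_natCast_atTop_atTop.comp hPt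
  have hlP : Tendsto (fun j : ℕ => Real.log (P j : ℝ)) atTop atTop := Real.tendsto_log_atTop.comp hPr
  -- the quotient of the logarithms
  have h2 : Tendsto (fun j : ℕ => Real.log j / Real.log (P j)) atTop (𝓝 1) := by
    have e1 := (Real.continuousAt_log (one_ne_zero)).tendsto.comp h1
    rw [Real.log_one] at e1
    have e2 : Tendsto (fun j : ℕ => Real.log (Real.log (P j)) / Real.log (P j)) atTop (𝓝 0) :=
      (Real.isLittleO_log_id_atTop.tendsto_div_nhds_zero).comp hlP
    have e3 := (e1.div_atTop hlP).sub e2 |>.const_add 1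
    rw [sub_zero, add_zero] at e3
    refine e3.congr' ?_
    filter_upwards [hlP.eventually_gt_atTop 0, eventually_gt_atTop 0, hPt.eventually_gt_atTop 0] with j g1 g2 g3
    have hj : (0 : ℝ) < j := by exact_mod_cast g2
    have hp : (0 : ℝ) < P j := by exact_mod_cast g3
    simp only [Function.comp]
    rw [Real.log_div (by positivity) hp.ne', Real.log_mul hj.ne' g1.ne']
    have := g1.ne'
    field_simp
    ring
  have h3 := (h2.mul h1).inv₀ (by norm_num)
  rw [one_mul, inv_one] at h3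
  refine h3.congr' ?_
  filter_upwards [hlP.eventually_gt_atTop 0, eventually_gt_atTop 1, hPt.eventually_gt_atTop 0] with j g1 g2 g3
  have hj : (0 : ℝ) < j := by exact_mod_cast (by omega : 0 < j)
  have hp : (0 : ℝ) < P j := by exact_mod_cast g3
  have hlj : 0 < Real.log (j : ℝ) := Real.log_pos (by exact_mod_cast g2)
  have := g1.ne'
  show (Real.log j / Real.log (P j) * ((j : ℝ) * Real.log (P j) / P j))⁻¹ = (P j : ℝ) / (j * Real.log j)
  field_simp

/-- the windows after the powers of `g` -/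
lemma spar_pow {g : ℕ} (hg : 2 ≤ g) : Spar (fun j => g ^ j - 1) (fun j => Nat.nth Nat.Prime (j - 1) + 1) (1 / Real.log g) := by
  have hg' : (2 : ℝ) ≤ g := by exact_mod_cast hg
  have hlg : 0 < Real.log g := Real.log_pos (by linarith)
  set P : ℕ → ℕ := fun j => Nat.nth Nat.Prime (j - 1) with hP
  have hasym := nth_prime_asymp
  -- the logarithm of the starting points
  have hcast : ∀ j : ℕ, ((g ^ j - 1 : ℕ) : ℝ) = (g : ℝ) ^ j - 1 := by
    intro j
    rw [Nat.cast_sub (Nat.one_le_pow _ _ (by omega))]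
    push_cast
    ring
  have hpow : Tendsto (fun j : ℕ => (g : ℝ) ^ j) atTop atTop := tendsto_pow_atTop_atTop_of_one_lt (by linarith)
  have hlog1 : Tendsto (fun j : ℕ => Real.log ((g ^ j - 1 : ℕ) : ℝ) - j * Real.log g) atTop (𝓝 0) := by
    have h1 : Tendsto (fun j : ℕ => 1 - ((g : ℝ) ^ j)⁻¹) atTop (𝓝 1) := by
      have := hpow.inv_tendsto_atTop.const_sub 1
      rwa [sub_zero] at this
    have h2 := (Real.continuousAt_log (one_ne_zero)).tendsto.comp h1
    rw [Real.log_one] at h2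
    refine h2.congr' ?_
    filter_upwards [eventually_ge_atTop 1] with j hj
    have hgj : (0 : ℝ) < (g : ℝ) ^ j := by positivity
    have hgj2 : (1 : ℝ) < (g : ℝ) ^ j := one_lt_pow₀ (by linarith) (by omega)
    simp only [Function.comp]
    rw [hcast, show (g : ℝ) ^ j - 1 = (g : ℝ) ^ j * (1 - ((g : ℝ) ^ j)⁻¹) by field_simp,
      Real.log_mul hgj.ne' (by
        have : ((g : ℝ) ^ j)⁻¹ < 1 := inv_lt_one_of_one_lt₀ hgj2
        linarith), Real.log_pow]
    ring
  have hjg : Tendsto (fun j : ℕ => (j : ℝ) * Real.log g) atTop atTop := tendsto_natCast_atTop_atTop.atTop_mul_const hlg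
  have hbig : Tendsto (fun j : ℕ => Real.log ((g ^ j - 1 : ℕ) : ℝ)) atTop atTop := by
    have := hlog1.add_atTop hjg
    refine this.congr fun j => by ring
  have hratio : Tendsto (fun j : ℕ => Real.log ((g ^ j - 1 : ℕ) : ℝ) / (j * Real.log g)) atTop (𝓝 1) := by
    have := (hlog1.div_atTop hjg).const_add 1
    rw [add_zero] at this
    refine this.congr' ?_
    filter_upwards [hjg.eventually_gt_atTop 0] with j hj
    have := hj.ne'
    rw [sub_div, div_self this]
    ring
  -- the length is small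
  have hsmall : ∀ᶠ j : ℕ in atTop, P j + 2 ≤ 2 ^ j := by
    have h1 : ∀ᶠ j : ℕ in atTop, (P j : ℝ) ≤ 2 * (j * Real.log j) := by
      filter_upwards [hasym.eventually (eventually_lt_nhds (show (1 : ℝ) < 2 by norm_num)), eventually_gt_atTop 1] with j g1 g2
      have hj : (0 : ℝ) < j := by exact_mod_cast (by omega : 0 < j)
      have hlj : 0 < Real.log (j : ℝ) := Real.log_pos (by exact_mod_cast g2)
      rw [div_lt_iff₀ (by positivity)] at g1
      exact g1.le
    have h2 : ∀ᶠ j : ℕ in atTop, 2 * ((j : ℝ) * j) + 2 ≤ (2 : ℝ) ^ j := by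
      have h3 : Tendsto (fun n : ℕ => ((n : ℝ)) ^ 2 / (2 : ℝ) ^ n) atTop (𝓝 0) := tendsto_pow_const_div_const_pow_of_one_lt 2 (by norm_num)
      filter_upwards [h3.eventually (eventually_lt_nhds (show (0 : ℝ) < 1 / 4 by norm_num)), eventually_ge_atTop 2] with j g1 g2
      rw [div_lt_iff₀ (by positivity)] at g1
      have hj : (2 : ℝ) ≤ j := by exact_mod_cast g2
      nlinarith
    filter_upwards [h1, h2, eventually_gt_atTop 0] with j g1 g2 g3
    have hj : (0 : ℝ) < j := by exact_mod_cast g3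
    have hlj : Real.log j ≤ j := by
      have := Real.log_le_sub_one_of_pos hj
      linarith
    have : (P j : ℝ) + 2 ≤ (2 : ℝ) ^ j := by nlinarith
    exact_mod_cast this
  have hpow2 : ∀ j : ℕ, 2 ^ j ≤ g ^ j := fun j => Nat.pow_le_pow_left hg j
  refine ⟨?_, hbig, ?_, ?_⟩
  · filter_upwards [hsmall] with j hj
    have h1 := hpow2 j
    have h2 : 2 * g ^ j ≤ g ^ (j + 1) := by
      rw [pow_succ, mul_comm]
      exact Nat.mul_le_mul_left _ hg
    show g ^ j - 1 + (P j + 1) ≤ g ^ (j + 1) - 1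
    omega
  · apply ratio_of_le (T := fun j => g ^ j - 1) (h := fun j => P j + 1) hbig
    filter_upwards [hsmall] with j hj
    have h1 := hpow2 j
    omega
  · have hl : Tendsto (fun j : ℕ => Real.log (j : ℝ)) atTop atTop := tendsto_log
    have h1 : Tendsto (fun j : ℕ => ((P j + 1 : ℕ) : ℝ) / (j * Real.log j)) atTop (𝓝 1) := by
      have h2 : Tendsto (fun j : ℕ => 1 / ((j : ℝ) * Real.log j)) atTop (𝓝 0) :=
        tendsto_const_nhds.div_atTop (tendsto_natCast_atTop_atTop.atTop_mul_atTop₀ hl)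
      have h3 := hasym.add h2
      rw [add_zero] at h3
      refine h3.congr fun j => ?_
      push_cast
      rw [← add_div]
    have h2 := (h1.div hratio one_ne_zero).div_const (Real.log g)
    rw [div_one] at h2
    refine h2.congr' ?_
    filter_upwards [hl.eventually_gt_atTop 0, hbig.eventually_gt_atTop 0, eventually_gt_atTop 0] with j g1 g2 g3
    have hj : (0 : ℝ) < j := by exact_mod_cast g3
    have a1 := g1.ne'
    have a2 := g2.ne'
    have a3 := hlg.ne'
    show ((P j + 1 : ℕ) : ℝ) / (j * Real.log j) / (Real.log ((g ^ j - 1 : ℕ) : ℝ) / (j * Real.log g)) / Real.log g =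
      ((P j + 1 : ℕ) : ℝ) / Real.log ((g ^ j - 1 : ℕ) : ℝ) / Real.log j
    set x := Real.log ((g ^ j - 1 : ℕ) : ℝ)
    set y := Real.log (j : ℝ)
    set z := Real.log (g : ℝ)
    set w := ((P j + 1 : ℕ) : ℝ)
    field_simp

end Pool.Agent.R528.RM
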