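import Mathlib
import Pool.Agent.R528.RM.Sp4

set_option autoImplicit false
set_option linter.unusedSectionVars false
set_option linter.unusedVariables false

/-! # The number of empty windows along a sparse sequence -/

open MeasureTheory Filter Set
open scoped ENNReal Topology

namespace Pool.Agent.R528.RM

variable {Ω : Type} {m0 : MeasurableSpace Ω} {μ : Measure Ω} [IsProbabilityMeasure μ]
  {ℱ : Filtration ℕ m0} {A : ℕ → Set Ω}

/-- the number of empty windows up to `J` -/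
noncomputable def emp (A : ℕ → Set Ω) (T h : ℕ → ℕ) (J : ℕ) (ω : Ω) : ℕ :=
  ((Finset.range (J + 1)).filter (fun j => cnt A (T j) (h j) ω = 0)).card

/-- no empty windows if `β > 1` -/
theorem spar_nonempty (hA : ∀ n, MeasurableSet[ℱ n] (A n)) {W : ℕ} (hW : 0 < W)
    (hd : ∀ᵐ ω ∂μ, ∀ ε : ℝ, 0 < ε → ∀ᶠ n : ℕ in atTop, |dens μ ℱ A n ω - rhoW W (n + 1)| ≤ ε * rhoW W (n + 1))
    {T h : ℕ → ℕ} {β : ℝ} (hs : Spar T h β) (hβ : 1 < β) :
    ∀ᵐ ω ∂μ, ∀ᶠ j : ℕ in atTop, cnt A (T j) (h j) ω ≠ 0 := by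
  have hcont : Continuous (fun s : ℝ => β * II s) := by
    unfold II
    have := Real.continuous_mul_log
    fun_prop
  have h0 : β * II 0 = β := by unfold II; simp
  have h1 := hcont.continuousAt (x := 0) |>.eventually (eventually_gt_nhds (show (1 : ℝ) < β * II 0 by rw [h0]; exact hβ))
  obtain ⟨ε, hε, hball⟩ := Metric.eventually_nhds_iff.1 h1
  set s : ℝ := min (ε / 2) (1 / 2) with hs'
  have hs0 : 0 < s := lt_min (by positivity) (by norm_num)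
  have hs1 : s ≤ 1 := (min_le_right _ _).trans (by norm_num)
  have hI : 1 < β * (s * Real.log s - s + 1) := by
    have := hball (y := s) (by
      rw [Real.dist_eq, sub_zero, abs_of_pos hs0]
      exact lt_of_le_of_lt (min_le_left _ _) (by linarith))
    exact this
  have h2 := spar_ev (μ := μ) (ℱ := ℱ) hA hW hd hs (by linarith) hs0 hI (fun _ => {0}) (by
    intro j k hk
    have : k = 0 := hk
    rw [this, pow_zero]
    apply Real.rpow_le_one hs0.le hs1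
    have : 0 ≤ Real.log (j : ℝ) := Real.log_natCast_nonneg j
    positivity)
  filter_upwards [h2] with ω h2
  filter_upwards [h2] with j hj
  exact hj

/-- upper bound for the number of empty windows -/
theorem emp_upper (hA : ∀ n, MeasurableSet[ℱ n] (A n)) {W : ℕ} (hW : 0 < W)
    (hd : ∀ᵐ ω ∂μ, ∀ ε : ℝ, 0 < ε → ∀ᶠ n : ℕ in atTop, |dens μ ℱ A n ω - rhoW W (n + 1)| ≤ ε * rhoW W (n + 1))
    {T h : ℕ → ℕ} {β γ : ℝ} (hs : Spar T h β) (hβ : 0 < β) (hγ : 1 - β < γ) (hγ0 : 0 < γ) :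
    ∀ᵐ ω ∂μ, ∀ᶠ J : ℕ in atTop, (emp A T h J ω : ℝ) ≤ (J : ℝ) ^ γ := by
  set γ₁ : ℝ := (max (1 - β) 0 + γ) / 2 with hγ₁
  have hmaxγ : max (1 - β) 0 < γ := max_lt hγ hγ0
  have hγ₁a : 1 - β < γ₁ := lt_of_le_of_lt (le_max_left _ _) (by rw [hγ₁]; linarith)
  have hγ₁0 : 0 < γ₁ := lt_of_le_of_lt (le_max_right (1 - β) 0) (by rw [hγ₁]; linarith)
  have hγ₁b : γ₁ < γ := by rw [hγ₁]; linarith
  set η : ℝ := γ₁ - (1 - β) with hη
  have hη0 : 0 < η := by linarith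
  -- `δ`
  obtain ⟨δ, hδ0, hδ1, hδ⟩ : ∃ δ : ℝ, 0 < δ ∧ δ ≤ 1 / 2 ∧ β * (1 - δ - δ * (1 + δ)) > β - η / 2 := by
    refine ⟨min (1 / 2) (η / (8 * β)), lt_min (by norm_num) (by positivity), min_le_left _ _, ?_⟩
    set δ := min (1 / 2) (η / (8 * β)) with hδ
    have h0 : 0 < δ := lt_min (by norm_num) (by positivity)
    have h1 : δ ≤ 1 / 2 := min_le_left _ _
    have h2 : δ ≤ η / (8 * β) := min_le_right _ _
    rw [le_div_iff₀ (by positivity)] at h2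
    have h3 : δ * δ ≤ δ * (1 / 2) := mul_le_mul_of_nonneg_left h1 h0.le
    nlinarith
  have hl1 : ∀ n, lp W δ n ≤ 1 := by
    intro n
    have h1 := rhoW_le W n
    have h2 := rhoW_nonneg W n
    unfold lp
    nlinarith only [h1, h2, hδ0, hδ1]
  have hu0 : ∀ n, 0 ≤ up W δ n := fun n => le_min zero_le_one (mul_nonneg (by linarith) (rhoW_nonneg W n))
  set E : ℕ → Set Ω := fun j => {ω | cnt A (T j) (h j) ω = 0} \ WV (VB μ ℱ A (lp W δ) (up W δ)) (T j) (h j) with hE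
  have hEm : ∀ j, MeasurableSet (E j) := fun j => (ℱ.le _ _ (cnt_meas hA _ _ _)).diff (ℱ.le _ _ (WV_meas (fun n => VB_meas _ _ n) _ _))
  have hR := Rw_lim hW hs
  have hprob : ∀ᶠ j : ℕ in atTop, μ.real (E j) ≤ (j : ℝ) ^ (-(β - η / 2)) := by
    have h1 := (hR.const_mul (1 - δ - δ * (1 + δ))).eventually (eventually_gt_nhds (show β - η / 2 < (1 - δ - δ * (1 + δ)) * β by linarith))
    filter_upwards [h1, tendsto_log.eventually_gt_atTop 0, eventually_gt_atTop 0] with j g1 g2 g3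
    have hj : (0 : ℝ) < j := by exact_mod_cast g3
    have h2 := cnt_tail_prof (μ := μ) (ℱ := ℱ) hA hl1 hu0 (κ := 0) hδ0 ({0} : Set ℕ) (by
      intro k hk
      have : k = 0 := hk
      rw [this, Real.rpow_zero, pow_zero]) (T j) (h j)
    rw [zero_mul, neg_zero, Real.exp_zero, one_mul] at h2
    refine (le_trans (measureReal_mono (fun ω hω => hω) (measure_ne_top _ _)) h2).trans ?_
    rw [Real.rpow_def_of_pos hj, Real.exp_le_exp]
    have h4 : ∑ i ∈ Finset.range (h j), (δ * up W δ (T j + 1 + i) - lp W δ (T j + 1 + i)) ≤ -((1 - δ - δ * (1 + δ)) * Rw W T h j) := by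
      unfold Rw
      rw [Finset.mul_sum, ← Finset.sum_neg_distrib]
      apply Finset.sum_le_sum
      intro i _
      have g1 : up W δ (T j + 1 + i) ≤ (1 + δ) * rhoW W (T j + 1 + i) := min_le_right _ _
      have g2 := mul_le_mul_of_nonneg_left g1 hδ0.le
      unfold lp
      linarith
    rw [← mul_div_assoc, lt_div_iff₀ g2] at g1
    linarith
  -- the weighted series
  set w : ℕ → ℝ≥0∞ := fun j => ENNReal.ofReal ((j : ℝ) ^ (-γ₁)) with hw
  have hfin : ∑' j, w j * μ (E j) ≠ ∞ := by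
    obtain ⟨N, hN⟩ := eventually_atTop.1 (hprob.and (eventually_gt_atTop 0))
    have hsum : Summable (fun j : ℕ => (j : ℝ) ^ (-(1 + η / 2))) := summable_pow_nat (by linarith)
    have h1 : ∀ j, N ≤ j → w j * μ (E j) ≤ ENNReal.ofReal ((j : ℝ) ^ (-(1 + η / 2))) := by
      intro j hj
      obtain ⟨g1, g2⟩ := hN j hj
      have hj : (0 : ℝ) < j := by exact_mod_cast g2
      rw [← ofReal_measureReal (measure_ne_top μ (E j)), hw, ← ENNReal.ofReal_mul (Real.rpow_nonneg hj.le _)]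
      apply ENNReal.ofReal_le_ofReal
      calc (j : ℝ) ^ (-γ₁) * μ.real (E j) ≤ (j : ℝ) ^ (-γ₁) * (j : ℝ) ^ (-(β - η / 2)) :=
            mul_le_mul_of_nonneg_left g1 (Real.rpow_nonneg hj.le _)
        _ = _ := by
            rw [← Real.rpow_add hj]
            congr 1
            rw [hη]
            ring
    have h2 : ∑' j, w (j + N) * μ (E (j + N)) ≠ ∞ := by
      have hs' : Summable (fun j : ℕ => ((j + N : ℕ) : ℝ) ^ (-(1 + η / 2))) := (summable_nat_add_iff N).2 hsum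
      have h3 : ∑' j : ℕ, ENNReal.ofReal (((j + N : ℕ) : ℝ) ^ (-(1 + η / 2))) ≠ ∞ := by
        rw [← ENNReal.ofReal_tsum_of_nonneg (fun j => Real.rpow_nonneg (Nat.cast_nonneg _) _) hs']
        exact ENNReal.ofReal_ne_top
      exact ne_top_of_le_ne_top h3 (ENNReal.tsum_le_tsum fun j => h1 (j + N) (by omega))
    have h3 : ∑' j, w j * μ (E j) = ∑ j ∈ Finset.range N, w j * μ (E j) + ∑' j, w (j + N) * μ (E (j + N)) :=
      (ENNReal.summable.sum_add_tsum_nat_add' (f := fun j => w j * μ (E j)) (k := N)).symm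
    rw [h3]
    refine ENNReal.add_ne_top.2 ⟨?_, h2⟩
    rw [ENNReal.sum_ne_top]
    intro j _
    exact ENNReal.mul_ne_top ENNReal.ofReal_ne_top (measure_ne_top _ _)
  have hint : ∫⁻ ω, ∑' j, w j * (E j).indicator 1 ω ∂μ ≠ ∞ := by
    rw [lintegral_tsum (fun j => ((measurable_one.indicator (hEm j)).const_mul _).aemeasurable)]
    have : ∀ j, ∫⁻ ω, w j * (E j).indicator 1 ω ∂μ = w j * μ (E j) := by
      intro j
      rw [lintegral_const_mul _ (measurable_one.indicator (hEm j)), lintegral_indicator_one (hEm j)]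
    simp_rw [this]
    exact hfin
  have hae : ∀ᵐ ω ∂μ, ∑' j, w j * (E j).indicator 1 ω < ∞ :=
    ae_lt_top (Measurable.tsum fun j => (measurable_one.indicator (hEm j)).const_mul _) hint
  have h01 : ∀ᵐ ω ∂μ, ∀ n, 0 ≤ dens μ ℱ A n ω ∧ dens μ ℱ A n ω ≤ 1 := ae_all_iff.2 fun n => dens01 hA n
  filter_upwards [hae, hd, h01] with ω hω hdω h01ω
  obtain ⟨N, hN⟩ := dens_two hdω hδ0
  obtain ⟨J₁, hJ₁⟩ := eventually_atTop.1 ((tendsto_T hs.big).eventually_ge_atTop N)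
  set C : ℝ := (∑' j, w j * (E j).indicator 1 ω).toReal with hC
  have hC0 : 0 ≤ C := ENNReal.toReal_nonneg
  have hmain : ∀ J : ℕ, 0 < J → (emp A T h J ω : ℝ) ≤ J₁ + 1 + C * (J : ℝ) ^ γ₁ := by
    intro J hJ
    have hJp : (0 : ℝ) < J := by exact_mod_cast hJ
    set F : Finset ℕ := (Finset.Icc (max J₁ 1) J).filter (fun j => cnt A (T j) (h j) ω = 0) with hF
    have e1 : emp A T h J ω ≤ (J₁ + 1) + F.card := by
      unfold emp
      have : (Finset.range (J + 1)).filter (fun j => cnt A (T j) (h j) ω = 0) ⊆ Finset.range (J₁ + 1) ∪ F := by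
        intro j hj
        obtain ⟨g1, g2⟩ := Finset.mem_filter.1 hj
        rw [Finset.mem_union, Finset.mem_range, hF, Finset.mem_filter, Finset.mem_Icc]
        have := Finset.mem_range.1 g1
        by_cases hjj : j < J₁ + 1
        · exact Or.inl hjj
        · exact Or.inr ⟨⟨by omega, by omega⟩, g2⟩
      refine (Finset.card_le_card this).trans ((Finset.card_union_le _ _).trans ?_)
      rw [Finset.card_range]
    have hFE : ∀ j ∈ F, ω ∈ E j := by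
      intro j hj
      obtain ⟨g1, g2⟩ := Finset.mem_filter.1 hj
      have g3 := Finset.mem_Icc.1 g1
      refine ⟨g2, ?_⟩
      rintro ⟨m, hm1, hm2, hm3⟩
      apply hm3
      have hN' := hN N le_rfl
      have := hJ₁ j (by omega)
      exact ⟨hN'.2 m (this.trans hm1), le_min (h01ω m).2 (hN'.1 m (this.trans hm1))⟩
    have e2 : ∑ j ∈ F, w j ≤ ∑' j, w j * (E j).indicator 1 ω := by
      refine le_trans (le_of_eq (Finset.sum_congr rfl fun j hj => ?_)) (ENNReal.sum_le_tsum F)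
      rw [indicator_of_mem (hFE j hj)]
      simp
    have e3 : (F.card : ℝ) * (J : ℝ) ^ (-γ₁) ≤ C := by
      have h1 : ENNReal.ofReal ((F.card : ℝ) * (J : ℝ) ^ (-γ₁)) ≤ ∑' j, w j * (E j).indicator 1 ω := by
        refine le_trans ?_ e2
        have h2 : ∀ j ∈ F, ENNReal.ofReal ((J : ℝ) ^ (-γ₁)) ≤ w j := by
          intro j hj
          have g3 := Finset.mem_Icc.1 (Finset.mem_filter.1 hj).1
          apply ENNReal.ofReal_le_ofReal
          have hj1 : (0 : ℝ) < j := by exact_mod_cast (by omega : 0 < j)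
          have hjJ : (j : ℝ) ≤ J := by exact_mod_cast g3.2
          exact Real.rpow_le_rpow_of_nonpos hj1 hjJ (by linarith)
        calc ENNReal.ofReal ((F.card : ℝ) * (J : ℝ) ^ (-γ₁)) = ∑ j ∈ F, ENNReal.ofReal ((J : ℝ) ^ (-γ₁)) := by
              rw [Finset.sum_const, nsmul_eq_mul, ENNReal.ofReal_mul (Nat.cast_nonneg _), ENNReal.ofReal_natCast]
          _ ≤ _ := Finset.sum_le_sum h2
      rw [hC]
      exact (ENNReal.ofReal_le_iff_le_toReal hω.ne).1 h1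
    have e4 : (F.card : ℝ) ≤ C * (J : ℝ) ^ γ₁ := by
      have h1 := mul_le_mul_of_nonneg_right e3 (Real.rpow_nonneg hJp.le γ₁)
      rw [mul_assoc, ← Real.rpow_add hJp, neg_add_cancel, Real.rpow_zero, mul_one] at h1
      exact h1
    have e5 : (emp A T h J ω : ℝ) ≤ (J₁ + 1) + F.card := by exact_mod_cast e1
    linarith
  filter_upwards [ev_pow (a := γ₁) (b := γ) hγ₁b (C + J₁ + 1), ev_log 0, eventually_gt_atTop 0] with J g1 g2 g3
  have hJ : (1 : ℝ) ≤ J := by exact_mod_cast g3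
  have h1 := hmain J g3
  have h2 : 1 ≤ (J : ℝ) ^ γ₁ := Real.one_le_rpow hJ hγ₁0.le
  have h3 : (C + J₁ + 1) * 1 * (J : ℝ) ^ γ₁ ≤ (C + J₁ + 1) * (Real.log J + 1) * (J : ℝ) ^ γ₁ := by
    apply mul_le_mul_of_nonneg_right _ (by linarith)
    apply mul_le_mul_of_nonneg_left (by linarith) (by positivity)
  have h4 : ((J₁ : ℝ) + 1) * 1 ≤ (J₁ + 1) * (J : ℝ) ^ γ₁ := mul_le_mul_of_nonneg_left h2 (by positivity)
  linarith

/-- short distances between empty windows -/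
theorem emp_dense (hA : ∀ n, MeasurableSet[ℱ n] (A n)) {W : ℕ} (hW : 0 < W)
    (hd : ∀ᵐ ω ∂μ, ∀ ε : ℝ, 0 < ε → ∀ᶠ n : ℕ in atTop, |dens μ ℱ A n ω - rhoW W (n + 1)| ≤ ε * rhoW W (n + 1))
    {T h : ℕ → ℕ} {β γ : ℝ} (hs : Spar T h β) (hβ : 0 < β) (hγ : β < γ) (hγ1 : γ < 1) :
    ∀ᵐ ω ∂μ, ∀ᶠ J : ℕ in atTop, ∃ j, J ≤ j ∧ j < J + ⌈(J : ℝ) ^ γ⌉₊ ∧ cnt A (T j) (h j) ω = 0 := by
  set γ' : ℝ := (β + γ) / 2 with hγ'
  have hγ'1 : β < γ' := by rw [hγ']; linarith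
  have hγ'2 : γ' < γ := by rw [hγ']; linarith
  obtain ⟨δ, hδ0, hδ1, hδ⟩ := exists_delta hβ hγ'1
  have hu0 : ∀ n, 0 ≤ up W δ n := fun n => le_min zero_le_one (mul_nonneg (by linarith) (rhoW_nonneg W n))
  have hu1 : ∀ n, up W δ n ≤ 1 := fun n => min_le_left _ _
  obtain ⟨J₀, hJ₀⟩ := eventually_atTop.1 (((Gb_empty hW hs hδ0 hδ1 hδ).and (lmj_bounds hW hs hδ0 hδ1)).and hs.disj)
  set D : ℕ → Set Ω := fun j => {ω | cnt A (T j) (h j) ω = 0} ∪ WV (VB μ ℱ A (lp W δ) (up W δ)) (T j) (h j) with hD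
  have hnone := seq_none (μ := μ) (ℱ := ℱ) (T := T) (h := h) (J₀ := J₀) (fun j hj => (hJ₀ j hj).2) (D := D)
    (fun j hj => @MeasurableSet.union _ (ℱ (T j + h j)) _ _ (cnt_meas hA _ _ _) (WV_meas (fun n => VB_meas _ _ n) _ _))
    (p := fun j => Gb (up W δ) (Pj W T h j) (lmj W T h δ j) (T j) (h j) 0)
    (fun j hj => Gb_le_one hu0 hu1 _ (hJ₀ j hj).1.2.1.le (hJ₀ j hj).1.2.2.2 _ _ _)
    (fun j hj B hB => cnt_ge_prof (μ := μ) hA hu0 hu1 _ (hJ₀ j hj).1.2.1.le (hJ₀ j hj).1.2.2.1 (hJ₀ j hj).1.2.2.2 _ _ _ B hB)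
  have hb : ∀ᶠ J : ℕ in atTop, μ.real {ω | ∀ j, J ≤ j → j < J + ⌈(J : ℝ) ^ γ⌉₊ → ω ∉ D j} ≤ (J : ℝ) ^ (-2 : ℝ) := by
    filter_upwards [eventually_ge_atTop J₀, eventually_gt_atTop 0, ev_pow (a := 0) (b := γ - γ') (by linarith) 6, ev_log 0] with J g1 g2 g3 g4
    have hJ : (1 : ℝ) ≤ J := by exact_mod_cast g2
    have hJp : (0 : ℝ) < J := by linarith
    rw [Real.rpow_zero, mul_one] at g3
    refine (hnone J g1 _).1.trans ?_
    have e0 : (J : ℝ) ^ (-2 : ℝ) = Real.exp (-(2 * Real.log J)) := by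
      rw [Real.rpow_def_of_pos hJp]
      congr 1
      ring
    rw [e0, Real.exp_le_exp]
    have hM : (J : ℝ) ^ γ ≤ ⌈(J : ℝ) ^ γ⌉₊ := Nat.le_ceil _
    have hM2 : ((⌈(J : ℝ) ^ γ⌉₊ : ℕ) : ℝ) ≤ 2 * J := by
      have h1 := Nat.ceil_lt_add_one (show 0 ≤ (J : ℝ) ^ γ by positivity)
      have h2 : (J : ℝ) ^ γ ≤ (J : ℝ) ^ (1 : ℝ) := Real.rpow_le_rpow_of_exponent_le hJ hγ1.le
      rw [Real.rpow_one] at h2
      linarith
    have hterm : ∀ j ∈ Finset.Ico J (J + ⌈(J : ℝ) ^ γ⌉₊), (3 * (J : ℝ)) ^ (-γ') ≤ Gb (up W δ) (Pj W T h j) (lmj W T h δ j) (T j) (h j) 0 := by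
      intro j hj
      obtain ⟨h1, h2⟩ := Finset.mem_Ico.1 hj
      refine le_trans ?_ (hJ₀ j (g1.trans h1)).1.1
      have h3 : (j : ℝ) ≤ 3 * J := by
        have : (j : ℝ) ≤ J + (⌈(J : ℝ) ^ γ⌉₊ : ℕ) := by exact_mod_cast h2.le
        linarith
      have h4 : (0 : ℝ) < j := by exact_mod_cast (by omega : 0 < j)
      exact Real.rpow_le_rpow_of_nonpos h4 h3 (by linarith)
    have hsum : (⌈(J : ℝ) ^ γ⌉₊ : ℝ) * (3 * (J : ℝ)) ^ (-γ') ≤ ∑ j ∈ Finset.Ico J (J + ⌈(J : ℝ) ^ γ⌉₊), Gb (up W δ) (Pj W T h j) (lmj W T h δ j) (T j) (h j) 0 := by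
      have := Finset.card_nsmul_le_sum _ _ _ hterm
      rw [Nat.card_Ico, Nat.add_sub_cancel_left, nsmul_eq_mul] at this
      exact this
    have h3 : (1 / 3 : ℝ) * (J : ℝ) ^ (γ - γ') ≤ (⌈(J : ℝ) ^ γ⌉₊ : ℝ) * (3 * (J : ℝ)) ^ (-γ') := by
      have e1 : (3 * (J : ℝ)) ^ (-γ') = (3 : ℝ) ^ (-γ') * (J : ℝ) ^ (-γ') := Real.mul_rpow (by norm_num) hJp.le
      have e2 : (1 / 3 : ℝ) ≤ (3 : ℝ) ^ (-γ') := by
        have : (3 : ℝ) ^ (-1 : ℝ) ≤ (3 : ℝ) ^ (-γ') := Real.rpow_le_rpow_of_exponent_le (by norm_num) (by linarith)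
        rw [Real.rpow_neg_one] at this
        linarith
      have e3 : (J : ℝ) ^ (γ - γ') = (J : ℝ) ^ γ * (J : ℝ) ^ (-γ') := by rw [← Real.rpow_add hJp]; congr 1
      rw [e1, e3]
      have e4 : 0 < (J : ℝ) ^ (-γ') := Real.rpow_pos_of_pos hJp _
      have e5 : 0 < (J : ℝ) ^ γ := Real.rpow_pos_of_pos hJp _
      calc (1 / 3 : ℝ) * ((J : ℝ) ^ γ * (J : ℝ) ^ (-γ')) ≤ (3 : ℝ) ^ (-γ') * ((J : ℝ) ^ γ * (J : ℝ) ^ (-γ')) :=
            mul_le_mul_of_nonneg_right e2 (by positivity)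
        _ ≤ (3 : ℝ) ^ (-γ') * ((⌈(J : ℝ) ^ γ⌉₊ : ℝ) * (J : ℝ) ^ (-γ')) := by
            apply mul_le_mul_of_nonneg_left _ (by positivity)
            exact mul_le_mul_of_nonneg_right hM e4.le
        _ = _ := by ring
    linarith
  have hsum : Summable (fun n : ℕ => (n : ℝ) ^ (-2 : ℝ)) := summable_pow_nat (by norm_num)
  have h01 : ∀ᵐ ω ∂μ, ∀ n, 0 ≤ dens μ ℱ A n ω ∧ dens μ ℱ A n ω ≤ 1 := ae_all_iff.2 fun n => dens01 hA n
  filter_upwards [bc_real (μ := μ) hsum hb, hd, h01] with ω hω hdω h01ω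
  obtain ⟨N, hN⟩ := dens_two hdω hδ0
  obtain ⟨J₁, hJ₁⟩ := eventually_atTop.1 ((tendsto_T hs.big).eventually_ge_atTop N)
  filter_upwards [hω, eventually_ge_atTop J₁] with J g1 g2
  have g3 : ¬ ∀ j, J ≤ j → j < J + ⌈(J : ℝ) ^ γ⌉₊ → ω ∉ D j := g1
  push Not at g3
  obtain ⟨j, hj1, hj2, hj3⟩ := g3
  refine ⟨j, hj1, hj2, ?_⟩
  rcases hj3 with h1 | ⟨m, hm1, hm2, hm3⟩
  · exact h1
  · exfalso
    apply hm3
    have hN' := hN N le_rfl
    have := hJ₁ j (g2.trans hj1)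
    exact ⟨hN'.2 m (this.trans hm1), le_min (h01ω m).2 (hN'.1 m (this.trans hm1))⟩

/-- lower bound for the number of empty windows -/
lemma emp_lower {A : ℕ → Set Ω} {T h : ℕ → ℕ} {γ ε : ℝ} (hγ0 : 0 < γ) (hγ1 : γ < 1) (hε : 0 < ε) {ω : Ω}
    (hdense : ∀ᶠ J : ℕ in atTop, ∃ j, J ≤ j ∧ j < J + ⌈(J : ℝ) ^ γ⌉₊ ∧ cnt A (T j) (h j) ω = 0) :
    ∀ᶠ J : ℕ in atTop, (J : ℝ) ^ (1 - γ - ε) ≤ emp A T h J ω := by
  obtain ⟨J₀, hJ₀⟩ := eventually_atTop.1 hdense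
  filter_upwards [eventually_ge_atTop (2 * J₀ + 2), ev_pow (a := γ) (b := 1) hγ1 16, ev_pow (a := 1 - γ - ε) (b := 1 - γ) (by linarith) 16,
    ev_log 0] with N g1 g2 g3 g4
  have hN1 : (1 : ℝ) ≤ N := by exact_mod_cast (by omega : 1 ≤ N)
  have hNp : (0 : ℝ) < N := by linarith
  rw [Real.rpow_one] at g2
  set m : ℕ := ⌈(N : ℝ) ^ γ⌉₊ with hm
  have hm1 : (N : ℝ) ^ γ ≤ m := Nat.le_ceil _
  have hNγ : 1 ≤ (N : ℝ) ^ γ := Real.one_le_rpow hN1 hγ0.le
  have hm2 : (m : ℝ) ≤ 2 * (N : ℝ) ^ γ := by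
    have := Nat.ceil_lt_add_one (show 0 ≤ (N : ℝ) ^ γ by positivity)
    linarith
  have hm0 : 0 < m := by
    have : (0 : ℝ) < m := by linarith
    exact_mod_cast this
  set K : ℕ := (N - N / 2) / m with hK
  have hKm : m * K ≤ N - N / 2 := Nat.mul_div_le _ _
  have hcard : K ≤ emp A T h N ω := by
    unfold emp
    rw [← Finset.card_range K]
    apply Finset.card_le_card_of_surjOn (fun j => (j - N / 2) / m)
    intro i hi
    have hi' : i < K := Finset.mem_range.1 (Finset.mem_coe.1 hi)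
    have h1 : m * i + m ≤ m * K := by
      have : m * (i + 1) ≤ m * K := Nat.mul_le_mul_left _ hi'
      linarith
    have hJle : N / 2 + m * i ≤ N := by omega
    obtain ⟨j, hj1, hj2, hj3⟩ := hJ₀ (N / 2 + m * i) (by omega)
    have h2 : ⌈((N / 2 + m * i : ℕ) : ℝ) ^ γ⌉₊ ≤ m := by
      apply Nat.ceil_mono
      exact Real.rpow_le_rpow (Nat.cast_nonneg _) (by exact_mod_cast hJle) hγ0.le
    refine ⟨j, ?_, ?_⟩
    · rw [Finset.mem_coe, Finset.mem_filter, Finset.mem_range]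
      exact ⟨by omega, hj3⟩
    · show (j - N / 2) / m = i
      rw [Nat.div_eq_iff hm0]
      have h3 : i * m = m * i := Nat.mul_comm _ _
      constructor <;> omega
  have hK2 : (N : ℝ) / 2 < m * (K + 1) := by
    have h1 : N - N / 2 < m * (K + 1) := Nat.lt_mul_div_succ _ hm0
    have h2 : (N : ℝ) ≤ 2 * ((N - N / 2 : ℕ) : ℝ) := by exact_mod_cast (by omega : N ≤ 2 * (N - N / 2))
    have h3 : ((N - N / 2 : ℕ) : ℝ) < m * (K + 1) := by exact_mod_cast h1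
    linarith
  have hcard' : (K : ℝ) ≤ emp A T h N ω := by exact_mod_cast hcard
  refine le_trans ?_ hcard'
  have h5 : (N : ℝ) ^ (1 - γ) * (N : ℝ) ^ γ = N := by
    rw [← Real.rpow_add hNp, sub_add_cancel, Real.rpow_one]
  have hpγ : 0 < (N : ℝ) ^ γ := by linarith
  have h6 : (N : ℝ) ^ (1 - γ) / 4 < K + 1 := by
    have e1 : (N : ℝ) / 2 < 2 * (N : ℝ) ^ γ * (K + 1) := lt_of_lt_of_le hK2 (mul_le_mul_of_nonneg_right hm2 (by positivity))
    have e1' : (N : ℝ) ^ (1 - γ) * (N : ℝ) ^ γ / 2 < 2 * (N : ℝ) ^ γ * (K + 1) := by rw [h5]; exact e1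
    have e2 : (N : ℝ) ^ γ * ((N : ℝ) ^ (1 - γ) / 4) < (N : ℝ) ^ γ * (K + 1) := by
      linarith only [e1']
    exact lt_of_mul_lt_mul_left e2 hpγ.le
  have h7 : 0 ≤ (N : ℝ) ^ (1 - γ - ε) := by positivity
  have h8 : 16 * (N : ℝ) ^ (1 - γ - ε) ≤ (N : ℝ) ^ (1 - γ) := by
    refine le_trans ?_ g3
    have : 16 * 1 * (N : ℝ) ^ (1 - γ - ε) ≤ 16 * (Real.log N + 1) * (N : ℝ) ^ (1 - γ - ε) := by
      apply mul_le_mul_of_nonneg_right _ h7
      linarith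
    linarith
  have h9 : 16 ≤ (N : ℝ) ^ (1 - γ) := by
    have e1 : 16 * (N : ℝ) ^ γ ≤ N := by
      refine le_trans ?_ g2
      have : 16 * 1 * (N : ℝ) ^ γ ≤ 16 * (Real.log N + 1) * (N : ℝ) ^ γ := by
        apply mul_le_mul_of_nonneg_right _ hpγ.le
        linarith
      linarith
    have e1' : 16 * (N : ℝ) ^ γ ≤ (N : ℝ) ^ (1 - γ) * (N : ℝ) ^ γ := by rw [h5]; exact e1
    exact le_of_mul_le_mul_right e1' hpγ
  linarith

end Pool.Agent.R528.RM
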