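import Mathlib
import Pool.Agent.R528.RM.Pat3
import Pool.Agent.R528.RM.BHFinal

set_option autoImplicit false
set_option linter.unusedSectionVars false
set_option linter.unusedVariables false

/-! # All admissible differences occur as gaps -/

open MeasureTheory Filter Set
open scoped ENNReal Topology

namespace Pool.Agent.R528.RM

variable {Ω : Type} {m0 : MeasurableSpace Ω} {μ : Measure Ω} [IsProbabilityMeasure μ]
  {ℱ : Filtration ℕ m0} {A : ℕ → Set Ω}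

lemma cop_shift {W : ℕ} {a b : ℕ} (h : a ≡ b [MOD W]) : Nat.Coprime a W ↔ Nat.Coprime b W := by
  rw [Nat.coprime_iff_gcd_eq_one, Nat.coprime_iff_gcd_eq_one, Nat.ModEq.gcd_eq h]

/-- a pattern with members `R` gives consecutive members -/
lemma pat_consec {S : Set ℕ} {T H u v : ℕ} (huv : u < v) (hu : 1 ≤ u) (hv : v ≤ H)
    (hpat : ∀ i < H, (T + 1 + i ∈ S ↔ (T + 1 + i) - T ∈ ({u, v} : Finset ℕ))) (hinf : S.Infinite) :
    ∃ n, pn S n = T + u ∧ pn S (n + 1) = T + v := by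
  have h1 : ∀ m, 1 ≤ m → m ≤ H → (T + m ∈ S ↔ m = u ∨ m = v) := by
    intro m h1 h2
    have := hpat (m - 1) (by omega)
    rw [show T + 1 + (m - 1) = T + m by omega, Nat.add_sub_cancel_left, Finset.mem_insert, Finset.mem_singleton] at this
    exact this
  have hmono := nth_mono hinf
  obtain ⟨n, hn⟩ := exists_nth ((h1 u hu (by omega)).2 (Or.inl rfl))
  obtain ⟨m, hm⟩ := exists_nth ((h1 v (by omega) hv).2 (Or.inr rfl))
  have hnm : n < m := by
    by_contra hcon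
    push Not at hcon
    have := hmono.monotone hcon
    omega
  have h2 : pn S (n + 1) ≤ T + v := by
    rw [← hm]
    exact hmono.monotone hnm
  have h3 : T + u < pn S (n + 1) := by
    rw [← hn]
    exact hmono (Nat.lt_succ_self n)
  refine ⟨n, hn, ?_⟩
  have h4 := (h1 (pn S (n + 1) - T) (by omega) (by omega)).1 (by
    rw [Nat.add_sub_cancel' (by omega)]
    exact nth_mem hinf _)
  omega

/-- **all admissible differences up to `(1 - ε) log² x` occur, none beyond `(1 + ε)³ log² x`** -/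
theorem least_gap (hA : ∀ n, MeasurableSet[ℱ n] (A n)) {W : ℕ} (hW : 0 < W)
    (hd : ∀ᵐ ω ∂μ, ∀ ε : ℝ, 0 < ε → ∀ᶠ n : ℕ in atTop, |dens μ ℱ A n ω - rhoW W (n + 1)| ≤ ε * rhoW W (n + 1))
    {ε : ℝ} (hε0 : 0 < ε) (hε1 : ε < 1) :
    ∀ᵐ ω ∂μ, {k | ω ∈ A k}.Infinite ∧
      (∀ᶠ x : ℕ in atTop, ∀ t : ℕ, 0 < t → (∃ a, Nat.Coprime a W ∧ Nat.Coprime (a + t) W) → (t : ℝ) ≤ (1 - ε) * Real.log x ^ 2 →
        ∃ n < x, pn {k | ω ∈ A k} (n + 1) = pn {k | ω ∈ A k} n + t) ∧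
      (∀ᶠ x : ℕ in atTop, ∀ n : ℕ, n ≤ x → (pn {k | ω ∈ A k} (n + 1) : ℝ) - pn {k | ω ∈ A k} n ≤ (1 + ε) ^ 3 * Real.log x ^ 2) := by
  filter_upwards [pat_all (μ := μ) hA hW hd (ε := ε / 2) (by linarith) (by linarith), norun (μ := μ) hA hW hd hε0 hε1] with ω h1 h2
  obtain ⟨hinf, h3⟩ := gaps_le (S := {k | ω ∈ A k}) hε0 hε1 h2
  refine ⟨hinf, ?_, h3⟩
  filter_upwards [h1, cheap_gap hW hε0 hε1] with x g1 g2 t ht0 ht1 ht2
  obtain ⟨a, ha1, ha2⟩ := ht1
  set r : ℕ := a % W + W with hr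
  have hmodlt := Nat.mod_lt a hW
  have hra : r ≡ a [MOD W] := by
    rw [hr, Nat.ModEq, Nat.add_mod_right, Nat.mod_mod]
  have hr1 : 1 ≤ r := by omega
  have hr2 : r < 2 * W := by omega
  have hr3 : Nat.Coprime r W := (cop_shift hra).2 ha1
  have hr4 : Nat.Coprime (r + t) W := (cop_shift (hra.add_right t)).2 ha2
  obtain ⟨g3, g4⟩ := g2 r t hr1 hr2 hr3 ht0 hr4 ht2
  obtain ⟨T, _, g5, _, g6⟩ := g1 _ _ g3
  obtain ⟨n, hn1, hn2⟩ := pat_consec (S := {k | ω ∈ A k}) (T := T) (u := r) (v := r + t) (by omega) hr1 g4 g6 hinf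
  refine ⟨n, ?_, by omega⟩
  have : n ≤ pn {k | ω ∈ A k} n := (nth_mono hinf).id_le n
  omega

end Pool.Agent.R528.RM
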