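import Mathlib
import Pool.Agent.R528.RM.Pat4
import Pool.Agent.R528.RM.Pat5

set_option autoImplicit false
set_option linter.unusedSectionVars false
set_option linter.unusedVariables false

/-! # Runs of equal gaps -/

open MeasureTheory Filter Set
open scoped ENNReal Topology

namespace Pool.Agent.R528.RM

variable {Ω : Type} {m0 : MeasurableSpace Ω} {μ : Measure Ω} [IsProbabilityMeasure μ]
  {ℱ : Filtration ℕ m0} {A : ℕ → Set Ω}

/-- a pattern in arithmetic progression gives a run of equal gaps -/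
lemma pat_run {S : Set ℕ} {T H k d r : ℕ} (hd : 0 < d) (hr : 1 ≤ r) (hH : r + k * d ≤ H)
    (hpat : ∀ i < H, (T + 1 + i ∈ S ↔ (T + 1 + i) - T ∈ (Finset.range (k + 1)).image (fun i => r + i * d))) (hinf : S.Infinite) :
    ∃ n, ∀ i ≤ k, pn S (n + i) = T + r + i * d := by
  have h1 : ∀ m, 1 ≤ m → m ≤ H → (T + m ∈ S ↔ ∃ i ≤ k, m = r + i * d) := by
    intro m h1 h2
    have := hpat (m - 1) (by omega)
    rw [show T + 1 + (m - 1) = T + m by omega, Nat.add_sub_cancel_left, Finset.mem_image] at this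
    rw [this]
    constructor
    · rintro ⟨i, hi, h⟩
      exact ⟨i, by have := Finset.mem_range.1 hi; omega, h.symm⟩
    · rintro ⟨i, hi, h⟩
      exact ⟨i, Finset.mem_range.2 (by omega), h.symm⟩
  have hle : ∀ i ≤ k, r + i * d ≤ H := fun i hi => by
    have : i * d ≤ k * d := Nat.mul_le_mul_right d hi
    omega
  have hmono := nth_mono hinf
  obtain ⟨n, hn⟩ := exists_nth ((h1 r hr (by omega)).2 ⟨0, Nat.zero_le _, by ring⟩)
  refine ⟨n, ?_⟩
  intro i
  induction i with
  | zero =>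
    intro _
    rw [add_zero, hn]
    ring
  | succ i ih =>
    intro hi
    have ih' := ih (by omega)
    obtain ⟨m, hm⟩ := exists_nth ((h1 (r + (i + 1) * d) (by omega) (hle _ hi)).2 ⟨i + 1, hi, rfl⟩)
    have hs : (i + 1) * d = i * d + d := by ring
    have hnm : n + i < m := by
      by_contra hcon
      push Not at hcon
      have := hmono.monotone hcon
      omega
    have h2 : pn S (n + (i + 1)) ≤ T + (r + (i + 1) * d) := by
      rw [← hm]
      exact hmono.monotone hnm
    have h3 : T + r + i * d < pn S (n + (i + 1)) := by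
      rw [← ih']
      exact hmono (by omega)
    have hle' := hle _ hi
    obtain ⟨i', hi', h4⟩ := (h1 (pn S (n + (i + 1)) - T) (by omega) (by omega)).1 (by
      rw [Nat.add_sub_cancel' (by omega)]
      exact nth_mem hinf _)
    have h5 : i * d < i' * d := by omega
    have h6 : i < i' := lt_of_mul_lt_mul_right h5 (Nat.zero_le _)
    have h7 : (i + 1) * d ≤ i' * d := Nat.mul_le_mul_right d h6
    omega

/-- the cost of a run of `k` gaps `d` -/
lemma cheap_run {W : ℕ} (hW : 0 < W) {ε : ℝ} (hε0 : 0 < ε) (hε1 : ε < 1) :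
    ∀ᶠ x : ℕ in atTop, ∀ r k d : ℕ, 1 ≤ r → r < 2 * W → 1 ≤ k → 0 < d → (∀ i ≤ k, Nat.Coprime (r + i * d) W) →
      (k : ℝ) * (Real.log (Real.log x) + d / Real.log x) ≤ (1 - ε) * Real.log x →
      Cheap W (ε / 2) x ((Finset.range (k + 1)).image (fun i => r + i * d)) (W * ((r + k * d) / W + 1)) ∧
        r + k * d ≤ W * ((r + k * d) / W + 1) := by
  have hW' : (1 : ℝ) ≤ W := by exact_mod_cast hW
  have hlog2 : Tendsto (fun x : ℕ => Real.log (Real.log x) / Real.log x) atTop (𝓝 0) := by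
    have h := (Real.isLittleO_log_id_atTop.tendsto_div_nhds_zero).comp tendsto_log
    exact h
  filter_upwards [ev_log (8 * (3 * W + 1) / ε + 1), hlog2.eventually_lt_const (show (0 : ℝ) < ε / 8 by positivity),
    (Real.tendsto_log_atTop.comp tendsto_log).eventually_ge_atTop (8 / ε)] with x h1 h2 h3 r k d hr1 hr2 hk hd hcop hc
  set L : ℝ := Real.log x with hL
  have h3' : 8 / ε ≤ Real.log L := h3
  have hL1 : 1 ≤ L := by
    have : 0 ≤ 8 * (3 * (W : ℝ) + 1) / ε := by positivity
    linarith only [h1, this]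
  have hLp : 0 < L := by linarith only [hL1]
  have h1' : 8 * (3 * (W : ℝ) + 1) ≤ ε * L := by
    have : 8 * (3 * (W : ℝ) + 1) / ε ≤ L := by linarith only [h1]
    rw [div_le_iff₀ hε0] at this
    linarith only [this]
  have h2' : Real.log L ≤ ε / 8 * L := by
    have : Real.log L / L < ε / 8 := h2
    rw [div_lt_iff₀ hLp] at this
    exact this.le
  have hll : 0 < Real.log L := lt_of_lt_of_le (by positivity) h3'
  have hk0 : (0 : ℝ) ≤ k := Nat.cast_nonneg _
  have hmod := Nat.div_add_mod (r + k * d) W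
  have hlt := Nat.mod_lt (r + k * d) hW
  have hHe : W * ((r + k * d) / W + 1) = W * ((r + k * d) / W) + W := by ring
  have hle : r + k * d ≤ W * ((r + k * d) / W + 1) := by
    rw [hHe]
    omega
  have hge : W * ((r + k * d) / W + 1) ≤ k * d + 3 * W := by
    rw [hHe]
    omega
  refine ⟨⟨by positivity, Dvd.intro _ rfl, ?_, ?_⟩, hle⟩
  · intro r' hr'
    obtain ⟨i, hi, rfl⟩ := Finset.mem_image.1 hr'
    have hi' := Finset.mem_range.1 hi
    have : i * d ≤ k * d := Nat.mul_le_mul_right d (by omega)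
    exact ⟨by omega, by omega, hcop i (by omega)⟩
  · have e1 : ((((Finset.range (k + 1)).image (fun i => r + i * d)).card : ℕ) : ℝ) ≤ k + 1 := by
      have := Finset.card_image_le (s := Finset.range (k + 1)) (f := fun i => r + i * d)
      rw [Finset.card_range] at this
      exact_mod_cast this
    have e2 := mul_le_mul_of_nonneg_right e1 (show 0 ≤ Real.log L + 1 by linarith only [hll])
    have e3 : ((W * ((r + k * d) / W + 1) : ℕ) : ℝ) / L ≤ k * (d / L) + 3 * W / L := by
      have g1 : ((W * ((r + k * d) / W + 1) : ℕ) : ℝ) ≤ k * d + 3 * W := by exact_mod_cast hge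
      have g2 := div_le_div_of_nonneg_right g1 hLp.le
      have g3 : ((k : ℝ) * d + 3 * W) / L = k * (d / L) + 3 * W / L := by ring
      rwa [g3] at g2
    have e4 : 3 * (W : ℝ) / L ≤ 3 * W := div_le_self (by linarith only [hW']) hL1
    have e5 : (k : ℝ) * 8 ≤ ε * L := by
      have g1 : (k : ℝ) * (8 / ε) ≤ k * Real.log L := mul_le_mul_of_nonneg_left h3' hk0
      have g2 : (k : ℝ) * Real.log L ≤ L := by
        have g3 : 0 ≤ (k : ℝ) * (d / L) := by positivity
        have g4 : (1 - ε) * L ≤ 1 * L := mul_le_mul_of_nonneg_right (by linarith only [hε0]) hLp.le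
        linarith only [hc, g3, g4]
      have g5 : (k : ℝ) * (8 / ε) = k * 8 / ε := by ring
      rw [g5] at g1
      have g6 := g1.trans g2
      rw [div_le_iff₀ hε0] at g6
      linarith only [g6]
    nlinarith only [hc, e2, e3, e4, e5, h1', h2']

/-- the number of gaps which is too large -/
noncomputable def Kn (ε : ℝ) (n d : ℕ) : ℕ := ⌈(1 + ε) * Real.log n / (Real.log (Real.log n) + d / Real.log n)⌉₊

lemma run_upper (hA : ∀ n, MeasurableSet[ℱ n] (A n)) {W : ℕ} (hW : 0 < W)
    (hd : ∀ᵐ ω ∂μ, ∀ ε : ℝ, 0 < ε → ∀ᶠ n : ℕ in atTop, |dens μ ℱ A n ω - rhoW W (n + 1)| ≤ ε * rhoW W (n + 1))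
    {ε : ℝ} (hε0 : 0 < ε) (hε1 : ε < 1) :
    ∀ᵐ ω ∂μ, ∀ᶠ v : ℕ in atTop, ∀ k d : ℕ, 0 < d → (d : ℝ) ≤ 3 * Real.log v ^ 2 →
      (1 + ε) * Real.log v ≤ k * (Real.log (Real.log v) + d / Real.log v) →
      ¬ (∀ m, v < m → m ≤ v + k * d → (ω ∈ A m ↔ ∃ i, m = v + i * d)) := by
  classical
  set F : ℕ → Finset (Finset ℕ × ℕ) := fun n => (Finset.range (⌊3 * Real.log n ^ 2⌋₊ + 1)).image
    (fun d => ((Finset.Icc 1 (Kn ε n d)).image (fun i => i * d), Kn ε n d * d)) with hF
  have hFc : ∀ᶠ n : ℕ in atTop, ((F n).card : ℝ) ≤ (n : ℝ) ^ (ε / 4) := by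
    filter_upwards [ev_pow (a := 0) (b := ε / 8) (by positivity) 2, eventually_gt_atTop 1, ev_log 1] with n h1 h2 h3
    have hn1 : (1 : ℝ) < n := by exact_mod_cast h2
    have hnp : (0 : ℝ) < n := by linarith only [hn1]
    rw [Real.rpow_zero, mul_one] at h1
    have e1 : ((F n).card : ℝ) ≤ 3 * Real.log n ^ 2 + 1 := by
      have g1 : (F n).card ≤ ⌊3 * Real.log n ^ 2⌋₊ + 1 := by
        refine Finset.card_image_le.trans ?_
        rw [Finset.card_range]
      have g2 : ((F n).card : ℝ) ≤ (⌊3 * Real.log n ^ 2⌋₊ : ℕ) + 1 := by exact_mod_cast g1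
      have g3 : ((⌊3 * Real.log n ^ 2⌋₊ : ℕ) : ℝ) ≤ 3 * Real.log n ^ 2 := Nat.floor_le (by positivity)
      linarith only [g2, g3]
    have e2 : (n : ℝ) ^ (ε / 8) * (n : ℝ) ^ (ε / 8) = (n : ℝ) ^ (ε / 4) := by
      rw [← Real.rpow_add hnp]
      congr 1
      ring
    have e3 := mul_le_mul h1 h1 (by positivity) (by positivity)
    rw [e2] at e3
    nlinarith only [e1, e3, h3]
  filter_upwards [pat_never (μ := μ) (ℱ := ℱ) hA hW hd hε0 hε1 5 F hFc] with ω hω
  filter_upwards [hω, ev_log 1, (Real.tendsto_log_atTop.comp tendsto_log).eventually_ge_atTop 1] with v h1 h2 h3 k d hd0 hd1 hcost hcon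
  set L : ℝ := Real.log v with hL
  have h3' : 1 ≤ Real.log L := h3
  have hLp : 0 < L := by linarith only [h2]
  have hden : 0 < Real.log L + d / L := by
    have : 0 ≤ (d : ℝ) / L := by positivity
    linarith only [this, h3']
  set K := Kn ε v d with hK
  have hK1 : (1 + ε) * L / (Real.log L + d / L) ≤ K := Nat.le_ceil _
  have hK2 : (K : ℝ) < (1 + ε) * L / (Real.log L + d / L) + 1 := Nat.ceil_lt_add_one (by positivity)
  have hKk : K ≤ k := by
    apply Nat.ceil_le.2
    rw [div_le_iff₀ hden]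
    exact hcost
  rw [div_le_iff₀ hden] at hK1
  refine h1 ((Finset.Icc 1 K).image (fun i => i * d)) (K * d) ?_ ?_ ?_ ?_ ?_
  · refine Finset.mem_image.2 ⟨d, Finset.mem_range.2 ?_, rfl⟩
    exact Nat.lt_succ_of_le (Nat.le_floor hd1)
  · intro r hr
    obtain ⟨i, hi, rfl⟩ := Finset.mem_image.1 hr
    obtain ⟨g1, g2⟩ := Finset.mem_Icc.1 hi
    exact ⟨Nat.mul_pos g1 hd0, Nat.mul_le_mul_right d g2⟩
  · push_cast
    have e1 : (K : ℝ) * d ≤ ((1 + ε) * L / (Real.log L + d / L) + 1) * d := mul_le_mul_of_nonneg_right hK2.le (by positivity)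
    have e2 : (1 + ε) * L / (Real.log L + d / L) * d ≤ (1 + ε) * L * L := by
      rw [div_mul_eq_mul_div, div_le_iff₀ hden]
      have g1 : (d : ℝ) ≤ L * (Real.log L + d / L) := by
        have g2 : L * (Real.log L + d / L) = L * Real.log L + d := by field_simp
        rw [g2]
        have : 0 ≤ L * Real.log L := by positivity
        linarith only [this]
      calc (1 + ε) * L * (d : ℝ) ≤ (1 + ε) * L * (L * (Real.log L + d / L)) := mul_le_mul_of_nonneg_left g1 (by positivity)
        _ = _ := by ring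
    nlinarith only [e1, e2, hd1, hε1, hLp, sq_nonneg L]
  · have e1 : (((Finset.Icc 1 K).image (fun i => i * d)).card : ℝ) = K := by
      rw [Finset.card_image_of_injective _ (fun a b h => Nat.eq_of_mul_eq_mul_right hd0 h), Nat.card_Icc]
      simp
    rw [e1]
    push_cast
    have e2 : (K : ℝ) * Real.log L + K * d / L = K * (Real.log L + d / L) := by ring
    rw [e2]
    exact hK1
  · intro i hi
    have hle : K * d ≤ k * d := Nat.mul_le_mul_right d hKk
    have e1 := hcon (v + 1 + i) (by omega) (by omega)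
    rw [e1]
    show _ ↔ v + 1 + i - v ∈ _
    rw [show v + 1 + i - v = 1 + i by omega, Finset.mem_image]
    constructor
    · rintro ⟨j, hj⟩
      have hj0 : 1 ≤ j := by
        by_contra hcon'
        have : j = 0 := by omega
        rw [this] at hj
        omega
      refine ⟨j, Finset.mem_Icc.2 ⟨hj0, ?_⟩, by omega⟩
      by_contra hcon'
      push Not at hcon'
      have : K * d ≤ j * d := Nat.mul_le_mul_right d hcon'.le
      have h9 : K * d < j * d := Nat.mul_lt_mul_of_pos_right hcon' hd0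
      omega
    · rintro ⟨j, _, hj⟩
      exact ⟨j, by show v + 1 + i = v + j * d; omega⟩

/-- a run of equal gaps is a pattern -/
lemma run_pat {S : Set ℕ} (hinf : S.Infinite) {n k d : ℕ} (hd : 0 < d) (h : ∀ i ≤ k, pn S (n + i) = pn S n + i * d) :
    ∀ m, pn S n < m → m ≤ pn S n + k * d → (m ∈ S ↔ ∃ i, m = pn S n + i * d) := by
  have hmono := nth_mono hinf
  intro m h1 h2
  constructor
  · intro hm
    obtain ⟨j, hj⟩ := exists_nth hm
    have g1 : n < j := by
      by_contra hcon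
      push Not at hcon
      have := hmono.monotone hcon
      omega
    have g2 : j ≤ n + k := by
      by_contra hcon
      push Not at hcon
      have g3 := hmono hcon
      have g4 := h k le_rfl
      omega
    refine ⟨j - n, ?_⟩
    rw [← h (j - n) (by omega), ← hj]
    congr 1
    omega
  · rintro ⟨i, hi⟩
    have g1 : i ≤ k := by
      by_contra hcon
      push Not at hcon
      have : k * d < i * d := Nat.mul_lt_mul_of_pos_right hcon hd
      omega
    rw [hi, ← h i g1]
    exact nth_mem hinf _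

lemma cost_mono {a b d : ℝ} (ha : Real.exp 1 ≤ a) (hab : a ≤ b) (hd : 0 ≤ d) {k : ℝ} (hk : 0 ≤ k) {c : ℝ}
    (h : k * (Real.log a + d / a) < c * a) : k * (Real.log b + d / b) < c * b := by
  have ha0 : 0 < a := lt_of_lt_of_le (Real.exp_pos 1) ha
  have hb0 : 0 < b := lt_of_lt_of_le ha0 hab
  have h1 : Real.log b / b ≤ Real.log a / a := Real.log_div_self_antitoneOn (by exact ha) (by exact ha.trans hab) hab
  have h2 : d / b / b ≤ d / a / a := by
    rw [div_div, div_div]
    exact div_le_div_of_nonneg_left hd (by positivity) (mul_le_mul hab hab ha0.le hb0.le)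
  have h3 : k * (Real.log b + d / b) / b ≤ k * (Real.log a + d / a) / a := by
    have e1 : k * (Real.log b + d / b) / b = k * (Real.log b / b + d / b / b) := by ring
    have e2 : k * (Real.log a + d / a) / a = k * (Real.log a / a + d / a / a) := by ring
    rw [e1, e2]
    exact mul_le_mul_of_nonneg_left (by linarith) hk
  have h4 : k * (Real.log a + d / a) / a < c := by
    rw [div_lt_iff₀ ha0]
    exact h
  have h5 := lt_of_le_of_lt h3 h4
  rw [div_lt_iff₀ hb0] at h5
  exact h5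

/-- no long runs of equal gaps -/
lemma run_bound {S : Set ℕ} {ε : ℝ} (hε0 : 0 < ε) (hε1 : ε < 1) (hinf : S.Infinite)
    (h1 : ∀ᶠ v : ℕ in atTop, ∀ k d : ℕ, 0 < d → (d : ℝ) ≤ 3 * Real.log v ^ 2 →
      (1 + ε) * Real.log v ≤ k * (Real.log (Real.log v) + d / Real.log v) →
      ¬ (∀ m, v < m → m ≤ v + k * d → (m ∈ S ↔ ∃ i, m = v + i * d)))
    (h2 : ∀ᶠ y : ℕ in atTop, ∃ n : ℕ, y < n ∧ (n : ℝ) ≤ y + (1 + ε) * Real.log y ^ 2 ∧ n ∈ S) :
    ∀ᶠ x : ℕ in atTop, ∀ n k d : ℕ, 1 ≤ k → 0 < d → pn S n ≤ x → (∀ i ≤ k, pn S (n + i) = pn S n + i * d) →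
      k * (Real.log (Real.log x) + d / Real.log x) < (1 + ε) * Real.log x := by
  obtain ⟨V₁, hV₁⟩ := eventually_atTop.1 h1
  obtain ⟨V₂, hV₂⟩ := eventually_atTop.1 h2
  obtain ⟨V₃, hV₃⟩ := eventually_atTop.1 (ev_log (Real.exp 1))
  set V := max (max V₁ V₂) V₃ with hV
  have hmono := nth_mono hinf
  -- beyond V
  have star : ∀ n k d : ℕ, 1 ≤ k → 0 < d → V ≤ pn S n → (∀ i ≤ k, pn S (n + i) = pn S n + i * d) →
      k * (Real.log (Real.log (pn S n)) + d / Real.log (pn S n)) < (1 + ε) * Real.log (pn S n) := by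
    intro n k d hk hd hn hrun
    by_contra hcon
    push Not at hcon
    obtain ⟨m, g1, g2, g3⟩ := hV₂ (pn S n) (by omega)
    obtain ⟨j, hj⟩ := exists_nth g3
    have g4 : n < j := by
      by_contra hcon'
      push Not at hcon'
      have := hmono.monotone hcon'
      omega
    have g5 : pn S (n + 1) ≤ m := by
      rw [← hj]
      exact hmono.monotone g4
    have g6 := hrun 1 hk
    rw [one_mul] at g6
    have g7 : (pn S (n + 1) : ℝ) = pn S n + d := by exact_mod_cast g6
    have g8 : (pn S (n + 1) : ℝ) ≤ m := by exact_mod_cast g5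
    have g9 : (d : ℝ) ≤ 3 * Real.log (pn S n) ^ 2 := by
      have : (1 + ε) * Real.log (pn S n) ^ 2 ≤ 3 * Real.log (pn S n) ^ 2 := mul_le_mul_of_nonneg_right (by linarith) (by positivity)
      linarith
    exact hV₁ (pn S n) (by omega) k d hd g9 hcon (run_pat hinf hd hrun)
  set v' := pn S V with hv'
  have hVv' : V ≤ v' := hmono.id_le V
  have hlv' : Real.exp 1 ≤ Real.log v' := hV₃ v' (by omega)
  have he1 : (1 : ℝ) ≤ Real.exp 1 := Real.one_le_exp (by norm_num)
  have hllv' : 1 ≤ Real.log (Real.log v') := by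
    rw [← Real.log_exp 1]
    exact Real.log_le_log (Real.exp_pos _) hlv'
  set K₁ : ℕ := V + ⌈2 * Real.log v'⌉₊ + 1 with hK₁
  have hlog2 : Tendsto (fun x : ℕ => Real.log (Real.log x) / Real.log x) atTop (𝓝 0) := by
    have h := (Real.isLittleO_log_id_atTop.tendsto_div_nhds_zero).comp tendsto_log
    exact h
  have hK0 : (0 : ℝ) < K₁ := by rw [hK₁]; positivity
  filter_upwards [hlog2.eventually_lt_const (show (0 : ℝ) < 1 / (4 * K₁) by positivity), ev_log (4 * K₁ * v' + Real.exp 1)] with x g1 g2 n k d hk hd hn hrun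
  set L : ℝ := Real.log x with hL
  have hv'0 : (0 : ℝ) ≤ v' := Nat.cast_nonneg _
  have hkv : 0 ≤ 4 * (K₁ : ℝ) * v' := by positivity
  have hL1 : 1 ≤ L := by linarith only [g2, hkv, he1]
  have hLp : 0 < L := by linarith only [hL1]
  rcases Nat.lt_or_ge (pn S n) V with hlt | hge
  · have hnV : n < V := lt_of_le_of_lt (hmono.id_le n) hlt
    have hdv : d ≤ v' := by
      have e1 := hrun 1 hk
      have e2 : pn S (n + 1) ≤ v' := hmono.monotone (by omega)
      omega
    have hkK : k ≤ K₁ := by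
      by_contra hcon
      push Not at hcon
      have e1 : ∀ i ≤ k - (V - n), pn S (V + i) = pn S V + i * d := by
        intro i hi
        have f1 := hrun (V - n + i) (by omega)
        have f2 := hrun (V - n) (by omega)
        rw [show n + (V - n + i) = V + i by omega] at f1
        rw [show n + (V - n) = V by omega] at f2
        rw [f1, f2]
        ring
      have e2 := star V (k - (V - n)) d (by omega) hd hVv' e1
      have e3 : ((k - (V - n) : ℕ) : ℝ) * 1 ≤ ((k - (V - n) : ℕ) : ℝ) * (Real.log (Real.log v') + d / Real.log v') := by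
        apply mul_le_mul_of_nonneg_left _ (Nat.cast_nonneg _)
        have : 0 ≤ (d : ℝ) / Real.log v' := div_nonneg (Nat.cast_nonneg _) (by linarith)
        linarith
      have e4 : ((k - (V - n) : ℕ) : ℝ) < 2 * Real.log v' := by
        have : (1 + ε) * Real.log v' ≤ 2 * Real.log v' := mul_le_mul_of_nonneg_right (by linarith) (by linarith)
        linarith
      have e5 : k - (V - n) < ⌈2 * Real.log v'⌉₊ := Nat.lt_ceil.2 e4
      omega
    have hkK' : (k : ℝ) ≤ K₁ := by exact_mod_cast hkK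
    have hdv' : (d : ℝ) ≤ v' := by exact_mod_cast hdv
    have hll : Real.log L ≤ L / (4 * K₁) := by
      have : Real.log L / L < 1 / (4 * K₁) := g1
      rw [div_lt_iff₀ hLp] at this
      rw [show L / (4 * K₁) = 1 / (4 * K₁) * L by ring]
      exact this.le
    have hll0 : 0 ≤ Real.log L := Real.log_nonneg hL1
    have f1 : (d : ℝ) / L ≤ v' := (div_le_self (Nat.cast_nonneg _) hL1).trans hdv'
    have f2 : (k : ℝ) * (Real.log L + d / L) ≤ K₁ * (L / (4 * K₁) + v') :=
      mul_le_mul hkK' (by linarith only [hll, f1]) (add_nonneg hll0 (div_nonneg (Nat.cast_nonneg _) hLp.le)) hK0.le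
    have f3 : (K₁ : ℝ) * (L / (4 * K₁) + v') = L / 4 + K₁ * v' := by
      field_simp
    rw [f3] at f2
    have f4 : (K₁ : ℝ) * v' ≤ L / 4 := by
      have : Real.exp 1 ≥ 0 := (Real.exp_pos 1).le
      linarith only [g2, this]
    have f5 : 0 < ε * L := mul_pos hε0 hLp
    linarith only [f2, f4, hLp, f5]
  · have e1 := star n k d hk hd hge hrun
    have hpos : (0 : ℝ) < pn S n := by
      have : V₃ ≤ pn S n := by omega
      have h3 := hV₃ _ this
      by_contra hcon
      push Not at hcon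
      have h4 : (pn S n : ℝ) = 0 := le_antisymm hcon (Nat.cast_nonneg _)
      rw [h4, Real.log_zero] at h3
      linarith
    have hln : Real.exp 1 ≤ Real.log (pn S n) := hV₃ _ (by omega)
    have hle : Real.log (pn S n) ≤ L := Real.log_le_log hpos (by exact_mod_cast hn)
    exact cost_mono hln hle (Nat.cast_nonneg _) (Nat.cast_nonneg _) e1

/-- **the law of runs of equal gaps** -/
theorem runs_law (hA : ∀ n, MeasurableSet[ℱ n] (A n)) {W : ℕ} (hW : 0 < W)
    (hd : ∀ᵐ ω ∂μ, ∀ ε : ℝ, 0 < ε → ∀ᶠ n : ℕ in atTop, |dens μ ℱ A n ω - rhoW W (n + 1)| ≤ ε * rhoW W (n + 1))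
    {ε : ℝ} (hε0 : 0 < ε) (hε1 : ε < 1) :
    ∀ᵐ ω ∂μ, {k | ω ∈ A k}.Infinite ∧
      (∀ᶠ x : ℕ in atTop, ∀ k d : ℕ, 1 ≤ k → 0 < d → (∃ a, ∀ i ≤ k, Nat.Coprime (a + i * d) W) →
        (k : ℝ) * (Real.log (Real.log x) + d / Real.log x) ≤ (1 - ε) * Real.log x →
        ∃ n, x ≤ 2 * pn {k | ω ∈ A k} n ∧ pn {k | ω ∈ A k} (n + k) ≤ x ∧
          ∀ i ≤ k, pn {k | ω ∈ A k} (n + i) = pn {k | ω ∈ A k} n + i * d) ∧
      (∀ᶠ x : ℕ in atTop, ∀ n k d : ℕ, 1 ≤ k → 0 < d → pn {k | ω ∈ A k} n ≤ x → (∀ i ≤ k, pn {k | ω ∈ A k} (n + i) = pn {k | ω ∈ A k} n + i * d) →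
        k * (Real.log (Real.log x) + d / Real.log x) < (1 + ε) * Real.log x) := by
  filter_upwards [pat_all (μ := μ) hA hW hd (ε := ε / 2) (by linarith) (by linarith), norun (μ := μ) hA hW hd hε0 hε1,
    run_upper (μ := μ) (ℱ := ℱ) hA hW hd hε0 hε1] with ω h1 h2 h3
  obtain ⟨hinf, _⟩ := gaps_le (S := {k | ω ∈ A k}) hε0 hε1 h2
  refine ⟨hinf, ?_, run_bound (S := {k | ω ∈ A k}) hε0 hε1 hinf h3 h2⟩
  filter_upwards [h1, cheap_run hW hε0 hε1] with x g1 g2 k d hk hd0 ha hc
  obtain ⟨a, ha⟩ := ha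
  set r : ℕ := a % W + W with hr
  have hmodlt := Nat.mod_lt a hW
  have hra : r ≡ a [MOD W] := by
    rw [hr, Nat.ModEq, Nat.add_mod_right, Nat.mod_mod]
  obtain ⟨g3, g4⟩ := g2 r k d (by omega) (by omega) hk hd0 (fun i hi => (cop_shift (hra.add_right _)).2 (ha i hi)) hc
  obtain ⟨T, g0, g5, _, g6⟩ := g1 _ _ g3
  obtain ⟨n, hn⟩ := pat_run (S := {k | ω ∈ A k}) (T := T) hd0 (by omega) g4 g6 hinf
  have hn0 := hn 0 (Nat.zero_le _)
  rw [add_zero, zero_mul, add_zero] at hn0
  refine ⟨n, ?_, ?_, fun i hi => ?_⟩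
  · rw [hn0]
    omega
  · rw [hn k le_rfl]
    omega
  · rw [hn i hi, hn0]

end Pool.Agent.R528.RM
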