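import Mathlib
import Pool.Agent.R528.RM.Sp3
import Pool.Agent.R528.RM.Pat6

set_option autoImplicit false
set_option linter.unusedSectionVars false
set_option linter.unusedVariables false

/-! # Many members in all windows; consecutive large gaps -/

open MeasureTheory Filter Set
open scoped ENNReal Topology

namespace Pool.Agent.R528.RM

variable {Ω : Type} {m0 : MeasurableSpace Ω} {μ : Measure Ω} [IsProbabilityMeasure μ]
  {ℱ : Filtration ℕ m0} {A : ℕ → Set Ω}

/-- a sequence of windows with mean `β log j` -/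
structure Spar0 (T h : ℕ → ℕ) (β : ℝ) : Prop where
  big : Tendsto (fun j => Real.log (T j)) atTop atTop
  ratio : Tendsto (fun j => Real.log ((T j + h j : ℕ) : ℝ) / Real.log (T j)) atTop (𝓝 1)
  mean : Tendsto (fun j : ℕ => (h j : ℝ) / Real.log (T j) / Real.log j) atTop (𝓝 β)

lemma Rw_lim0 {W : ℕ} (hW : 0 < W) {T h : ℕ → ℕ} {β : ℝ} (hs : Spar0 T h β) :
    Tendsto (fun j : ℕ => Rw W T h j / Real.log j) atTop (𝓝 β) := by
  obtain ⟨h2, h3, h4⟩ := hs
  have he : Tendsto (fun j : ℕ => 2 * (W : ℝ) / Real.log (T j) / Real.log j) atTop (𝓝 0) := by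
    have g1 : Tendsto (fun j : ℕ => 2 * (W : ℝ) / Real.log (T j)) atTop (𝓝 0) := tendsto_const_nhds.div_atTop h2
    have g2 : Tendsto (fun j : ℕ => (Real.log j)⁻¹) atTop (𝓝 0) := tendsto_log.inv_tendsto_atTop
    have g3 := g1.mul g2
    rw [mul_zero] at g3
    exact g3.congr fun j => by rw [div_eq_mul_inv (2 * (W : ℝ) / Real.log (T j))]
  have hlow : Tendsto (fun j : ℕ => ((h j : ℝ) / Real.log (T j) / Real.log j - 2 * (W : ℝ) / Real.log (T j) / Real.log j) /
      (Real.log ((T j + h j : ℕ) : ℝ) / Real.log (T j))) atTop (𝓝 β) := by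
    have := (h4.sub he).div h3 one_ne_zero
    rw [sub_zero, div_one] at this
    exact this
  have hup : Tendsto (fun j : ℕ => (h j : ℝ) / Real.log (T j) / Real.log j + 2 * (W : ℝ) / Real.log (T j) / Real.log j) atTop (𝓝 β) := by
    have := h4.add he
    rwa [add_zero] at this
  have hev : ∀ᶠ j : ℕ in atTop, (((h j : ℝ) - 2 * W) / Real.log ((T j + h j : ℕ) : ℝ) ≤ Rw W T h j ∧
      Rw W T h j ≤ ((h j : ℝ) + 2 * W) / Real.log (T j)) ∧ 0 < Real.log (T j) ∧ 0 < Real.log ((T j + h j : ℕ) : ℝ) ∧ 0 < Real.log (j : ℝ) := by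
    filter_upwards [h2.eventually_ge_atTop ((W : ℝ) / Nat.totient W), h2.eventually_gt_atTop 0, tendsto_log.eventually_gt_atTop 0] with j g1 g2 g3
    have hT1 : 1 ≤ T j := by
      by_contra hcon
      have : T j = 0 := by omega
      rw [this] at g2
      simp at g2
    have g4 := rho_cls1 (W := W) (q := 1) (a := 0) (s := T j) (t := T j + h j) hW one_pos (zero_mem_admW W) (by omega) g1 hT1
    rw [adm_oneW, ← sum_rhoW_eq] at g4
    have g5 : Real.log (T j) ≤ Real.log ((T j + h j : ℕ) : ℝ) := Real.log_le_log (by exact_mod_cast hT1) (by push_cast; linarith [Nat.cast_nonneg (α := ℝ) (h j)])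
    refine ⟨⟨?_, ?_⟩, g2, lt_of_lt_of_le g2 g5, g3⟩
    · refine le_trans (le_of_eq ?_) g4.1
      push_cast
      ring
    · refine g4.2.trans (le_of_eq ?_)
      push_cast
      ring
  refine tendsto_of_tendsto_of_tendsto_of_le_of_le' hlow hup ?_ ?_
  · filter_upwards [hev] with j ⟨⟨g1, g2⟩, g3, g4, g5⟩
    have e : ((h j : ℝ) / Real.log (T j) / Real.log j - 2 * (W : ℝ) / Real.log (T j) / Real.log j) /
      (Real.log ((T j + h j : ℕ) : ℝ) / Real.log (T j)) = (((h j : ℝ) - 2 * W) / Real.log ((T j + h j : ℕ) : ℝ)) / Real.log j := by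
      have g3' := g3.ne'
      have g4' := g4.ne'
      have g5' := g5.ne'
      set a := Real.log (T j : ℝ)
      set b := Real.log ((T j + h j : ℕ) : ℝ)
      set c := Real.log (j : ℝ)
      field_simp
    rw [e]
    exact div_le_div_of_nonneg_right g1 g5.le
  · filter_upwards [hev] with j ⟨⟨g1, g2⟩, g3, g4, g5⟩
    have e : (h j : ℝ) / Real.log (T j) / Real.log j + 2 * (W : ℝ) / Real.log (T j) / Real.log j = (((h j : ℝ) + 2 * W) / Real.log (T j)) / Real.log j := by
      ring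
    rw [e]
    exact div_le_div_of_nonneg_right g2 g5.le

/-- large deviations do not occur infinitely often -/
theorem spar_ev0 (hA : ∀ n, MeasurableSet[ℱ n] (A n)) {W : ℕ} (hW : 0 < W)
    (hd : ∀ᵐ ω ∂μ, ∀ ε : ℝ, 0 < ε → ∀ᶠ n : ℕ in atTop, |dens μ ℱ A n ω - rhoW W (n + 1)| ≤ ε * rhoW W (n + 1))
    {T h : ℕ → ℕ} {β : ℝ} (hs : Spar0 T h β) (hβ : 0 < β) {s : ℝ} (hs0 : 0 < s) (hI : 1 < β * (s * Real.log s - s + 1)) (S : ℕ → Set ℕ)
    (hS : ∀ j : ℕ, ∀ k ∈ S j, s ^ (s * β * Real.log j) ≤ s ^ k) :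
    ∀ᵐ ω ∂μ, ∀ᶠ j : ℕ in atTop, cnt A (T j) (h j) ω ∉ S j := by
  obtain ⟨δ, hδ0, hδ1, hδ⟩ : ∃ δ : ℝ, 0 < δ ∧ δ ≤ 1 ∧ 1 < β * ((s * Real.log s - s + 1) - δ * (s + 1)) := by
    have hgap : 0 < β * (s * Real.log s - s + 1) - 1 := by linarith
    refine ⟨min 1 ((β * (s * Real.log s - s + 1) - 1) / (2 * β * (s + 1))), lt_min one_pos (by positivity), min_le_left _ _, ?_⟩
    have h1 : min 1 ((β * (s * Real.log s - s + 1) - 1) / (2 * β * (s + 1))) ≤ (β * (s * Real.log s - s + 1) - 1) / (2 * β * (s + 1)) := min_le_right _ _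
    have h2 : β * (s + 1) * min 1 ((β * (s * Real.log s - s + 1) - 1) / (2 * β * (s + 1))) ≤ β * (s + 1) * ((β * (s * Real.log s - s + 1) - 1) / (2 * β * (s + 1))) :=
      mul_le_mul_of_nonneg_left h1 (by positivity)
    have h3 : β * (s + 1) * ((β * (s * Real.log s - s + 1) - 1) / (2 * β * (s + 1))) = (β * (s * Real.log s - s + 1) - 1) / 2 := by
      field_simp
    rw [h3] at h2
    have h4 : β * ((s * Real.log s - s + 1) - min 1 ((β * (s * Real.log s - s + 1) - 1) / (2 * β * (s + 1))) * (s + 1)) =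
      β * (s * Real.log s - s + 1) - β * (s + 1) * min 1 ((β * (s * Real.log s - s + 1) - 1) / (2 * β * (s + 1))) := by ring
    rw [h4]
    linarith
  have hR := Rw_lim0 hW hs
  have hl1 : ∀ n, lp W δ n ≤ 1 := by
    intro n
    have h1 := rhoW_le W n
    have h2 := rhoW_nonneg W n
    unfold lp
    nlinarith only [h1, h2, hδ0, hδ1]
  have hu0 : ∀ n, 0 ≤ up W δ n := fun n => le_min zero_le_one (mul_nonneg (by linarith) (rhoW_nonneg W n))
  set c : ℝ := s * (1 + δ) - (1 - δ) with hc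
  set r : ℝ := β * ((s * Real.log s - s + 1) - δ * (s + 1)) with hr
  have hexp : Tendsto (fun j : ℕ => -(s * β * Real.log s) + c * (Rw W T h j / Real.log j)) atTop (𝓝 (-r)) := by
    have := (hR.const_mul c).const_add (-(s * β * Real.log s))
    have e : -(s * β * Real.log s) + c * β = -r := by rw [hc, hr]; ring
    rwa [e] at this
  have hb : ∀ᶠ j : ℕ in atTop, μ.real ({ω | cnt A (T j) (h j) ω ∈ S j} \ WV (VB μ ℱ A (lp W δ) (up W δ)) (T j) (h j)) ≤ (j : ℝ) ^ (-((1 + r) / 2)) := by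
    filter_upwards [hexp.eventually (eventually_lt_nhds (show -r < -((1 + r) / 2) by linarith)), tendsto_log.eventually_gt_atTop 0,
      eventually_gt_atTop 0] with j h1 h2 h3
    have hj : (0 : ℝ) < j := by exact_mod_cast h3
    refine (cnt_tail_prof (μ := μ) (ℱ := ℱ) hA hl1 hu0 (κ := s * β * Real.log j) hs0 (S j) (hS j) (T j) (h j)).trans ?_
    rw [← Real.exp_add, Real.rpow_def_of_pos hj, Real.exp_le_exp]
    have h4 : ∑ i ∈ Finset.range (h j), (s * up W δ (T j + 1 + i) - lp W δ (T j + 1 + i)) ≤ c * Rw W T h j := by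
      unfold Rw
      rw [Finset.mul_sum]
      apply Finset.sum_le_sum
      intro i _
      have g1 : up W δ (T j + 1 + i) ≤ (1 + δ) * rhoW W (T j + 1 + i) := min_le_right _ _
      have g2 := mul_le_mul_of_nonneg_left g1 hs0.le
      unfold lp
      rw [hc]
      linarith
    have h5 : (-(s * β * Real.log s) + c * (Rw W T h j / Real.log j)) * Real.log j ≤ -((1 + r) / 2) * Real.log j :=
      mul_le_mul_of_nonneg_right h1.le h2.le
    have h6 : (-(s * β * Real.log s) + c * (Rw W T h j / Real.log j)) * Real.log j = -(s * β * Real.log j * Real.log s) + c * Rw W T h j := by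
      field_simp
    rw [h6] at h5
    linarith
  have hsum : Summable (fun j : ℕ => (j : ℝ) ^ (-((1 + r) / 2))) := summable_pow_nat (by linarith)
  have h01 : ∀ᵐ ω ∂μ, ∀ n, 0 ≤ dens μ ℱ A n ω ∧ dens μ ℱ A n ω ≤ 1 := ae_all_iff.2 fun n => dens01 hA n
  filter_upwards [bc_real (μ := μ) hsum hb, hd, h01] with ω hω hdω h01ω
  obtain ⟨N, hN⟩ := dens_two hdω hδ0
  filter_upwards [hω, (tendsto_T hs.big).eventually_ge_atTop N] with j h1 h2 h3
  apply h1
  refine ⟨h3, ?_⟩
  rintro ⟨m, hm1, hm2, hm3⟩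
  apply hm3
  have hN' := hN N le_rfl
  exact ⟨hN'.2 m (h2.trans hm1), le_min (h01ω m).2 (hN'.1 m (h2.trans hm1))⟩


lemma spar0_all {c : ℝ} (hc : 0 < c) : Spar0 (fun j => j) (fun j => ⌊c * Real.log j ^ 2⌋₊) c := by
  have hsmall : ∀ᶠ j : ℕ in atTop, c * Real.log j ^ 2 ≤ j := by
    have h3 := (Real.isLittleO_pow_log_id_atTop (n := 2)).def (show (0 : ℝ) < 1 / c by positivity)
    have h4 : ∀ᶠ x : ℝ in atTop, c * Real.log x ^ 2 ≤ x := by
      filter_upwards [h3, eventually_ge_atTop 1] with x h3 h6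
      rw [Real.norm_of_nonneg (by positivity), id, Real.norm_of_nonneg (by linarith)] at h3
      calc c * Real.log x ^ 2 ≤ c * (1 / c * x) := mul_le_mul_of_nonneg_left h3 hc.le
        _ = x := by field_simp
    exact tendsto_natCast_atTop_atTop.eventually h4
  refine ⟨tendsto_log, ?_, ?_⟩
  · apply ratio_of_le (T := fun j => j) tendsto_log
    filter_upwards [hsmall] with j hj
    have := Nat.floor_mono hj
    rwa [Nat.floor_natCast] at this
  · have h1 : Tendsto (fun j : ℕ => ((⌊c * Real.log j ^ 2⌋₊ : ℕ) : ℝ) / Real.log j ^ 2) atTop (𝓝 c) :=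
      (tendsto_nat_floor_mul_div_atTop hc.le).comp ((tendsto_pow_atTop (n := 2) two_ne_zero).comp tendsto_log)
    refine h1.congr' ?_
    filter_upwards [tendsto_log.eventually_gt_atTop 0] with j hj
    rw [div_div, sq]

/-- windows longer than `log²` contain many members -/
theorem many_in_window (hA : ∀ n, MeasurableSet[ℱ n] (A n)) {W : ℕ} (hW : 0 < W)
    (hd : ∀ᵐ ω ∂μ, ∀ ε : ℝ, 0 < ε → ∀ᶠ n : ℕ in atTop, |dens μ ℱ A n ω - rhoW W (n + 1)| ≤ ε * rhoW W (n + 1))
    {c : ℝ} (hc : 1 < c) :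
    ∃ κ : ℝ, 0 < κ ∧ ∀ᵐ ω ∂μ, ∀ᶠ y : ℕ in atTop, κ * Real.log y < cnt A y ⌊c * Real.log y ^ 2⌋₊ ω := by
  obtain ⟨a, b, ha, hIa, hb0, hb1, hIb⟩ := II_roots hc
  refine ⟨b / 2 * c, by positivity, ?_⟩
  have h2 : II b < II (b / 2) := II_anti (by linarith) (by linarith) hb1.le
  have h1 : 1 < c * (b / 2 * Real.log (b / 2) - b / 2 + 1) := by
    have : c * II b < c * II (b / 2) := mul_lt_mul_of_pos_left h2 (by linarith)
    rw [hIb] at this
    exact this
  have h3 := spar_ev0 (μ := μ) (ℱ := ℱ) hA hW hd (spar0_all (show 0 < c by linarith)) (show 0 < c by linarith) (show 0 < b / 2 by linarith) h1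
    (fun x => {k : ℕ | (k : ℝ) ≤ b / 2 * c * Real.log x}) (by
      intro x k hk
      rw [← Real.rpow_natCast]
      exact Real.rpow_le_rpow_of_exponent_ge (by linarith) (by linarith) hk)
  filter_upwards [h3] with ω h4
  filter_upwards [h4] with x hx
  have hx' : ¬ ((cnt A x ⌊c * Real.log x ^ 2⌋₊ ω : ℝ) ≤ b / 2 * c * Real.log x) := hx
  exact not_le.1 hx'

/-- the sum of `k` consecutive gaps -/
lemma sum_gaps_le {ω : Ω} (hinf : {k | ω ∈ A k}.Infinite) {c : ℝ} {κ : ℝ} (hκ : 0 < κ) (hc : 0 ≤ c)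
    (h : ∀ᶠ y : ℕ in atTop, κ * Real.log y < cnt A y ⌊c * Real.log y ^ 2⌋₊ ω) (k : ℕ) :
    ∀ᶠ n : ℕ in atTop, (pn {k | ω ∈ A k} (n + k) : ℝ) ≤ pn {k | ω ∈ A k} n + c * Real.log (pn {k | ω ∈ A k} n) ^ 2 := by
  set S : Set ℕ := {k | ω ∈ A k} with hS
  have hmono := nth_mono hinf
  have h1 := (tendsto_nth hinf).eventually (h.and (ev_log (k / κ)))
  filter_upwards [h1] with n ⟨g1, g2⟩
  by_contra hcon
  push Not at hcon
  set y := pn S n with hy
  rw [cnt_eq_ncard] at g1
  have hsub : {a : ℕ | ω ∈ A a ∧ y < a ∧ a ≤ y + ⌊c * Real.log y ^ 2⌋₊} ⊆ ((Finset.Ioo n (n + k)).image (pn S) : Finset ℕ) := by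
    rintro a ⟨a1, a2, a3⟩
    obtain ⟨j, hj⟩ := exists_nth (S := S) a1
    rw [Finset.coe_image, mem_image]
    refine ⟨j, ?_, hj⟩
    rw [Finset.mem_coe, Finset.mem_Ioo]
    constructor
    · by_contra hcon'
      push Not at hcon'
      have := hmono.monotone hcon'
      omega
    · by_contra hcon'
      push Not at hcon'
      have h2 := hmono.monotone hcon'
      have h3 : (pn S (n + k) : ℝ) ≤ y + c * Real.log y ^ 2 := by
        have e1 : ((⌊c * Real.log y ^ 2⌋₊ : ℕ) : ℝ) ≤ c * Real.log y ^ 2 := Nat.floor_le (by positivity)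
        have e2 : (pn S (n + k) : ℝ) ≤ (y + ⌊c * Real.log y ^ 2⌋₊ : ℕ) := by exact_mod_cast (by omega : pn S (n + k) ≤ y + ⌊c * Real.log y ^ 2⌋₊)
        push_cast at e2
        linarith
      linarith
  have hcard := Set.ncard_le_ncard hsub (Finset.finite_toSet _)
  rw [Set.ncard_coe_finset] at hcard
  have hcard2 : ((Finset.Ioo n (n + k)).image (pn S)).card ≤ k := by
    refine Finset.card_image_le.trans ?_
    rw [Nat.card_Ioo]
    omega
  have h3 : (({a : ℕ | ω ∈ A a ∧ y < a ∧ a ≤ y + ⌊c * Real.log y ^ 2⌋₊}.ncard : ℕ) : ℝ) ≤ k := by exact_mod_cast hcard.trans hcard2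
  rw [div_le_iff₀ hκ] at g2
  linarith

/-- `k` consecutive large gaps occur late -/
lemma large_late {S : Set ℕ} (hinf : S.Infinite) {c : ℝ} (hc : 0 ≤ c) {k : ℕ} (hk : 1 ≤ k)
    (h : ∀ᶠ n : ℕ in atTop, (pn S (n + k) : ℝ) ≤ pn S n + c * Real.log (pn S n) ^ 2) :
    ∀ᶠ g : ℕ in atTop, ∀ n, (∀ i < k, pn S (n + i) + g ≤ pn S (n + i + 1)) → (k : ℝ) * g ≤ c * Real.log (pn S (n + k)) ^ 2 := by
  obtain ⟨N₀, hN₀⟩ := eventually_atTop.1 h
  have hmono := nth_mono hinf
  filter_upwards [eventually_gt_atTop (pn S (N₀ + 1))] with g hg n hn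
  have hn0 : N₀ ≤ n := by
    by_contra hcon
    push Not at hcon
    have h1 := hn 0 (by omega)
    rw [add_zero] at h1
    have h2 : pn S (n + 1) ≤ pn S (N₀ + 1) := hmono.monotone (by omega)
    omega
  have h1 : ∀ j ≤ k, pn S n + j * g ≤ pn S (n + j) := by
    intro j
    induction j with
    | zero => intro _; simp
    | succ j ih =>
      intro hj
      have h2 := ih (by omega)
      have h3 := hn j (by omega)
      rw [show n + (j + 1) = n + j + 1 by ring]
      have : (j + 1) * g = j * g + g := by ring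
      omega
  have h2 : (pn S n : ℝ) + k * g ≤ pn S (n + k) := by exact_mod_cast h1 k le_rfl
  have h3 := hN₀ n hn0
  have h4 : Real.log (pn S n) ^ 2 ≤ Real.log (pn S (n + k)) ^ 2 := by
    apply pow_le_pow_left₀ (Real.log_natCast_nonneg _)
    rcases Nat.eq_zero_or_pos (pn S n) with h5 | h5
    · rw [h5, Nat.cast_zero, Real.log_zero]
      exact Real.log_natCast_nonneg _
    · exact Real.log_le_log (by exact_mod_cast h5) (by exact_mod_cast hmono.monotone (Nat.le_add_right n k))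
  have h5 := mul_le_mul_of_nonneg_left h4 hc
  linarith

/-- the parameters of the first occurrence -/
lemma first_param {k : ℕ} (hk : 1 ≤ k) {η : ℝ} (hη : 0 < η) :
    ∃ ε : ℝ, 0 < ε ∧ ε < 1 ∧ ∀ᶠ g : ℕ in atTop,
      (k : ℝ) * (Real.log (Real.log (⌊Real.exp ((1 + η) * √((k : ℝ) * g))⌋₊ : ℕ)) + g / Real.log (⌊Real.exp ((1 + η) * √((k : ℝ) * g))⌋₊ : ℕ)) ≤
        (1 - ε) * Real.log (⌊Real.exp ((1 + η) * √((k : ℝ) * g))⌋₊ : ℕ) := by
  have hk' : (0 : ℝ) < k := by exact_mod_cast hk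
  set y : ℕ → ℝ := fun g => (1 + η) * √((k : ℝ) * g) with hy
  have hyt : Tendsto y atTop atTop := by
    apply Tendsto.const_mul_atTop (by linarith)
    apply Real.tendsto_sqrt_atTop.comp
    exact tendsto_natCast_atTop_atTop.const_mul_atTop hk'
  have hfl : Tendsto (fun t : ℝ => Real.log (⌊Real.exp t⌋₊ : ℕ) - t) atTop (𝓝 0) := by
    have h1 : Tendsto (fun t : ℝ => ((⌊Real.exp t⌋₊ : ℕ) : ℝ) / Real.exp t) atTop (𝓝 1) := by
      have := (tendsto_nat_floor_div_atTop (R := ℝ)).comp Real.tendsto_exp_atTop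
      exact this
    have h2 := (Real.continuousAt_log (one_ne_zero)).tendsto.comp h1
    rw [Real.log_one] at h2
    refine h2.congr' ?_
    filter_upwards [eventually_gt_atTop 0] with t ht
    have h3 : 0 < ((⌊Real.exp t⌋₊ : ℕ) : ℝ) := by
      have : 0 < ⌊Real.exp t⌋₊ := Nat.floor_pos.2 (Real.one_le_exp ht.le)
      exact_mod_cast this
    simp only [Function.comp]
    rw [Real.log_div h3.ne' (Real.exp_pos _).ne', Real.log_exp]
  set L : ℕ → ℝ := fun g => Real.log (⌊Real.exp (y g)⌋₊ : ℕ) with hL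
  have hLy : Tendsto (fun g => L g - y g) atTop (𝓝 0) := hfl.comp hyt
  have hLt : Tendsto L atTop atTop := by
    have := hLy.add_atTop hyt
    exact this.congr fun g => by ring
  have hLy1 : Tendsto (fun g => L g / y g) atTop (𝓝 1) := by
    have h1 := (hLy.div_atTop hyt).const_add 1
    rw [add_zero] at h1
    refine h1.congr' ?_
    filter_upwards [hyt.eventually_gt_atTop 0] with g hg
    rw [sub_div, div_self hg.ne']
    ring
  -- the second term
  have h2 : Tendsto (fun g : ℕ => (k : ℝ) * g / L g ^ 2) atTop (𝓝 (1 / (1 + η) ^ 2)) := by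
    have h1 := ((hLy1.pow 2).inv₀ (by norm_num)).mul_const (1 / (1 + η) ^ 2)
    rw [one_pow, inv_one, one_mul] at h1
    refine h1.congr' ?_
    filter_upwards [hyt.eventually_gt_atTop 0, hLt.eventually_gt_atTop 0, eventually_gt_atTop 0] with g g1 g2 g3
    have hsq : y g ^ 2 = (1 + η) ^ 2 * (k * g) := by
      simp only [hy]
      rw [mul_pow, Real.sq_sqrt (by positivity)]
    rw [div_pow, inv_div, hsq]
    have : (1 + η) ≠ 0 := by linarith
    field_simp
  have h3 : Tendsto (fun g : ℕ => (k : ℝ) * (Real.log (L g) / L g)) atTop (𝓝 0) := by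
    have := ((Real.isLittleO_log_id_atTop.tendsto_div_nhds_zero).comp hLt).const_mul (k : ℝ)
    rw [mul_zero] at this
    exact this
  have h4 := h3.add h2
  rw [zero_add] at h4
  have hlt : 1 / (1 + η) ^ 2 < 1 := by
    rw [div_lt_one (by positivity)]
    nlinarith
  refine ⟨(1 - 1 / (1 + η) ^ 2) / 2, by linarith, ?_, ?_⟩
  · have : 0 < 1 / (1 + η) ^ 2 := by positivity
    linarith
  · filter_upwards [h4.eventually (eventually_lt_nhds (show 1 / (1 + η) ^ 2 < 1 - (1 - 1 / (1 + η) ^ 2) / 2 by linarith)), hLt.eventually_gt_atTop 0] with g g1 g2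
    have g3 := mul_lt_mul_of_pos_right g1 g2
    have g4 : ((k : ℝ) * (Real.log (L g) / L g) + k * g / L g ^ 2) * L g = k * (Real.log (L g) + g / L g) := by
      field_simp
    rw [g4] at g3
    exact g3.le

end Pool.Agent.R528.RM
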