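import Mathlib
import Pool.Agent.R528.RM.Wag6

set_option autoImplicit false
set_option linter.unusedSectionVars false
set_option linter.unusedVariables false

/-! # Nonincreasing densities are equidistributed in classes -/

open Filter Set
open scoped Topology

namespace Pool.Agent.R528.RM

/-- the monotone interpolation of the densities -/
noncomputable def eM (W : ℕ) (d : ℕ → ℝ) : ℕ → ℝ
  | 0 => 1
  | (n + 1) => if Nat.Coprime (n + 1) W then d n else eM W d n

variable {W : ℕ} {d : ℕ → ℝ}

lemma eM_ge (h01 : ∀ n, 0 ≤ d n ∧ d n ≤ 1) (hm : ∀ m n, m ≤ n → Nat.Coprime (m + 1) W → Nat.Coprime (n + 1) W → d n ≤ d m) (n : ℕ) :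
    ∀ k, n ≤ k → Nat.Coprime (k + 1) W → d k ≤ eM W d n := by
  induction n with
  | zero => intro k _ _; exact (h01 k).2
  | succ n ih =>
    intro k hk hc
    unfold eM
    split_ifs with h
    · exact hm n k (by omega) h hc
    · exact ih k (by omega) hc

lemma eM_nonneg (h01 : ∀ n, 0 ≤ d n ∧ d n ≤ 1) (n : ℕ) : 0 ≤ eM W d n := by
  induction n with
  | zero => exact zero_le_one
  | succ n ih =>
    unfold eM
    split_ifs
    · exact (h01 n).1
    · exact ih

lemma eM_anti (h01 : ∀ n, 0 ≤ d n ∧ d n ≤ 1) (hm : ∀ m n, m ≤ n → Nat.Coprime (m + 1) W → Nat.Coprime (n + 1) W → d n ≤ d m) (n : ℕ) :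
    eM W d (n + 1) ≤ eM W d n := by
  by_cases h : Nat.Coprime (n + 1) W
  · have : eM W d (n + 1) = d n := by
      show (if Nat.Coprime (n + 1) W then d n else eM W d n) = d n
      rw [if_pos h]
    rw [this]
    exact eM_ge h01 hm n n le_rfl h
  · have : eM W d (n + 1) = eM W d n := by
      show (if Nat.Coprime (n + 1) W then d n else eM W d n) = eM W d n
      rw [if_neg h]
    rw [this]

lemma eM_cop {n : ℕ} (h : Nat.Coprime (n + 1) W) : eM W d (n + 1) = d n := by
  show (if Nat.Coprime (n + 1) W then d n else eM W d n) = d n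
  rw [if_pos h]

lemma cls_succ_sum {W q a x : ℕ} (f : ℕ → ℝ) :
    ∑ n ∈ cls W q a 0 (x + 1), f n = ∑ n ∈ cls W q a 0 x, f n + (if inC W q a (x + 1) then f (x + 1) else 0) := by
  unfold cls
  rw [show Finset.Ioc 0 (x + 1) = insert (x + 1) (Finset.Ioc 0 x) by ext n; simp only [Finset.mem_Ioc, Finset.mem_insert]; omega,
    Finset.filter_insert]
  split_ifs with h
  · rw [Finset.sum_insert (by simp), add_comm]
  · rw [add_zero]

lemma adm_one (W : ℕ) : (adm W 1).card = 1 := by
  unfold adm
  simp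

lemma zero_mem_adm_one (W : ℕ) : 0 ∈ adm W 1 := by
  rw [mem_adm]
  simp

lemma cls_dev {q a : ℕ} (hW : 0 < W) (hq : 0 < q) (ha : a ∈ adm W q) (x : ℕ) :
    |((cls W q a 0 x).card : ℝ) - (cls W 1 0 0 x).card / (adm W q).card| ≤ 4 * W := by
  have hW' : (0 : ℝ) < W := by exact_mod_cast hW
  have hq' : (0 : ℝ) < q := by exact_mod_cast hq
  have hc0 : 0 < (adm W q).card := Finset.card_pos.2 ⟨a, ha⟩
  have hc1 : (1 : ℝ) ≤ (adm W q).card := by exact_mod_cast hc0
  obtain ⟨h1, h2⟩ := cls_card (W := W) (q := q) (a := a) hW hq (Nat.zero_le x)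
  obtain ⟨h3, h4⟩ := cls_card (W := W) (q := 1) (a := 0) hW one_pos (Nat.zero_le x)
  have k1 : (KC W q a : ℝ) * (adm W q).card = q * Nat.totient W := by exact_mod_cast KC_mul hW ha
  have k2 : (KC W 1 0 : ℝ) * 1 = 1 * Nat.totient W := by
    have := KC_mul hW (zero_mem_adm_one W)
    rw [adm_one] at this
    exact_mod_cast this
  have k3 : (KC W q a : ℝ) ≤ W := by exact_mod_cast KC_le
  have k4 : (KC W 1 0 : ℝ) ≤ W := by exact_mod_cast KC_le
  rw [Nat.cast_zero, sub_zero] at *
  push_cast at *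
  have e1 : (x : ℝ) / (q * W) * KC W q a = (x / (1 * W) * KC W 1 0) / (adm W q).card := by
    rw [mul_one, one_mul] at k2
    rw [k2, eq_div_iff (by linarith only [hc1])]
    have : (x : ℝ) / (q * W) * KC W q a * (adm W q).card = (x : ℝ) / (q * W) * (KC W q a * (adm W q).card) := by ring
    rw [this, k1]
    field_simp
  have e2 : (2 : ℝ) * KC W 1 0 / (adm W q).card ≤ 2 * W := by
    rw [div_le_iff₀ (by linarith only [hc1])]
    nlinarith only [k4, hc1, hW']
  have e3 : ((cls W 1 0 0 x).card : ℝ) / (adm W q).card ≤ (x / (1 * W) * KC W 1 0) / (adm W q).card + 2 * KC W 1 0 / (adm W q).card := by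
    rw [← add_div]
    apply div_le_div_of_nonneg_right _ (by linarith only [hc1])
    linarith only [h4]
  have e4 : (x / (1 * W) * KC W 1 0) / (adm W q).card - 2 * KC W 1 0 / (adm W q).card ≤ ((cls W 1 0 0 x).card : ℝ) / (adm W q).card := by
    rw [← sub_div]
    apply div_le_div_of_nonneg_right _ (by linarith only [hc1])
    linarith only [h3]
  rw [abs_le]
  constructor
  · linarith only [h1, e1, e2, e3, k3]
  · linarith only [h2, e1, e2, e4, k3]

/-- nonincreasing densities are equidistributed -/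
theorem mono_classes (hW : 0 < W) (h01 : ∀ n, 0 ≤ d n ∧ d n ≤ 1)
    (hm : ∀ m n, m ≤ n → Nat.Coprime (m + 1) W → Nat.Coprime (n + 1) W → d n ≤ d m) {q a : ℕ} (hq : 0 < q) (ha : a ∈ adm W q) (x : ℕ) :
    |∑ n ∈ cls W q a 0 x, d (n - 1) - (∑ n ∈ cls W 1 0 0 x, d (n - 1)) / (adm W q).card| ≤ 4 * W := by
  set D : ℕ → ℝ := fun x => ((cls W q a 0 x).card : ℝ) - (cls W 1 0 0 x).card / (adm W q).card with hD
  set T : ℕ → ℝ := fun x => ∑ n ∈ cls W q a 0 x, d (n - 1) - (∑ n ∈ cls W 1 0 0 x, d (n - 1)) / (adm W q).card with hT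
  have hDb : ∀ x, |D x| ≤ 4 * W := fun x => cls_dev hW hq ha x
  have hstep : ∀ x, T (x + 1) - T x = eM W d (x + 1) * (D (x + 1) - D x) := by
    intro x
    have e1 := cls_succ_sum (W := W) (q := q) (a := a) (x := x) (fun n => d (n - 1))
    have e2 := cls_succ_sum (W := W) (q := 1) (a := 0) (x := x) (fun n => d (n - 1))
    have e3 := cls_succ_sum (W := W) (q := q) (a := a) (x := x) (fun _ => 1)
    have e4 := cls_succ_sum (W := W) (q := 1) (a := 0) (x := x) (fun _ => 1)
    rw [Finset.sum_const, Finset.sum_const, nsmul_eq_mul, nsmul_eq_mul, mul_one, mul_one] at e3 e4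
    simp only [hT, hD]
    rw [e1, e2, e3, e4]
    simp only [Nat.add_sub_cancel]
    by_cases h : Nat.Coprime (x + 1) W
    · rw [eM_cop h]
      split_ifs <;> ring
    · have i1 : ¬ inC W q a (x + 1) := fun hh => h hh.2
      have i2 : ¬ inC W 1 0 (x + 1) := fun hh => h hh.2
      rw [if_neg i1, if_neg i2, if_neg i1, if_neg i2]
      ring
  have hind : ∀ x, |T x - eM W d x * D x| ≤ 4 * W * (1 - eM W d x) := by
    intro x
    induction x with
    | zero =>
      have h1 : T 0 = 0 := by simp [hT, cls]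
      have h2 : D 0 = 0 := by simp [hD, cls]
      rw [h1, h2]
      simp [eM]
    | succ x ih =>
      have h1 : T (x + 1) - eM W d (x + 1) * D (x + 1) = (T x - eM W d x * D x) + (eM W d x - eM W d (x + 1)) * D x := by
        have := hstep x
        linarith only [this]
      rw [h1]
      have h2 := eM_anti h01 hm x
      have h3 : |(eM W d x - eM W d (x + 1)) * D x| ≤ (eM W d x - eM W d (x + 1)) * (4 * W) := by
        rw [abs_mul, abs_of_nonneg (by linarith only [h2])]
        exact mul_le_mul_of_nonneg_left (hDb x) (by linarith only [h2])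
      have h4 := abs_add_le (T x - eM W d x * D x) ((eM W d x - eM W d (x + 1)) * D x)
      linarith only [h4, h3, ih]
  have h1 := hind x
  have h2 := eM_nonneg (W := W) h01 x
  have h3 : |eM W d x * D x| ≤ eM W d x * (4 * W) := by
    rw [abs_mul, abs_of_nonneg h2]
    exact mul_le_mul_of_nonneg_left (hDb x) h2
  have h4 : |T x| ≤ |T x - eM W d x * D x| + |eM W d x * D x| := by
    have := abs_add_le (T x - eM W d x * D x) (eM W d x * D x)
    rwa [sub_add_cancel] at this
  show |T x| ≤ 4 * W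
  linarith only [h1, h3, h4]

end Pool.Agent.R528.RM
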