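import Mathlib
import Pool.Agent.R528.RM.Wag6

set_option autoImplicit false
set_option linter.unusedSectionVars false

/-! # The number of exceptional moduli -/

open MeasureTheory Filter Set
open scoped ENNReal Topology

namespace Pool.Agent.R528.RM

variable {Ω : Type} {m0 : MeasurableSpace Ω} {μ : Measure Ω} [IsProbabilityMeasure μ]
  {ℱ : Filtration ℕ m0} {A : ℕ → Set Ω}

lemma markov_count {F : ℕ → Set Ω} (hF : ∀ q, MeasurableSet (F q)) (I : Finset ℕ) {y : ℝ} (hy : 0 < y) :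
    μ.real {ω | y ≤ ∑ q ∈ I, (F q).indicator (fun _ => (1 : ℝ)) ω} ≤ (∑ q ∈ I, μ.real (F q)) / y := by
  have hint : ∀ q ∈ I, Integrable ((F q).indicator (fun _ => (1 : ℝ))) μ :=
    fun q _ => (integrable_const (1 : ℝ)).indicator (hF q)
  have h1 := mul_meas_ge_le_integral_of_nonneg (μ := μ) (f := fun ω => ∑ q ∈ I, (F q).indicator (fun _ => (1 : ℝ)) ω)
    (Eventually.of_forall fun ω => Finset.sum_nonneg fun q _ => indicator_nonneg (fun _ _ => zero_le_one) ω)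
    (integrable_finsetSum I hint) y
  have h2 : ∫ ω, ∑ q ∈ I, (F q).indicator (fun _ => (1 : ℝ)) ω ∂μ = ∑ q ∈ I, μ.real (F q) := by
    rw [integral_finsetSum I hint]
    refine Finset.sum_congr rfl fun q _ => ?_
    rw [integral_indicator (hF q)]
    simp
  rw [h2] at h1
  rw [le_div_iff₀ hy, mul_comm]
  exact h1

open Classical in
/-- the number of moduli up to `X` with a surviving class -/
noncomputable def CX (A : ℕ → Set Ω) (W : ℕ) (c : ℝ) (X : ℕ) (ω : Ω) : ℕ :=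
  ((Finset.range (X + 1)).filter (fun q => ω ∈ SvE A W q (TT W c q))).card

lemma CX_anti (W : ℕ) {c c' : ℝ} (h : c ≤ c') (X : ℕ) (ω : Ω) : CX A W c' X ω ≤ CX A W c X ω := by
  classical
  unfold CX
  apply Finset.card_le_card
  intro q hq
  rw [Finset.mem_filter] at *
  exact ⟨hq.1, SvE_anti (TT_mono W h q) hq.2⟩

/-- upper bound for the number of exceptional moduli -/
theorem F3a (hA : ∀ n, MeasurableSet[ℱ n] (A n)) {W : ℕ} (hW : 0 < W)
    (hd : ∀ᵐ ω ∂μ, ∀ ε : ℝ, 0 < ε → ∀ᶠ n : ℕ in atTop, |dens μ ℱ A n ω - rhoW W (n + 1)| ≤ ε * rhoW W (n + 1))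
    {c c' : ℝ} (hc : 1 < c) (hc2 : c < 2) (hcc : c' < c) (hc'0 : 0 ≤ c') :
    ∀ᵐ ω ∂μ, ∀ᶠ X : ℕ in atTop, (CX A W c X ω : ℝ) ≤ (X : ℝ) ^ (2 - c') := by
  classical
  set c2 : ℝ := (c + c') / 2 with hc2'
  set c3 : ℝ := (c' + c2) / 2 with hc3
  set s : ℝ := (c2 - c3) / 2 with hs
  have hc2a : c2 < c := by rw [hc2']; linarith
  have hc2b : c' < c2 := by rw [hc2']; linarith
  have hc3a : c3 < c2 := by rw [hc3]; linarith
  have hc3b : c' < c3 := by rw [hc3]; linarith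
  have hs0 : 0 < s := by rw [hs]; linarith
  have hc0 : 0 < c := by linarith
  set δ : ℝ := min ((c - c2) / (4 * c)) (1 / 2) with hδ
  have hδ0 : 0 < δ := lt_min (div_pos (by linarith) (by linarith)) (by norm_num)
  have hδc : c * δ ≤ (c - c2) / 4 := by
    have h1 : δ ≤ (c - c2) / (4 * c) := min_le_left _ _
    have h2 := mul_le_mul_of_nonneg_left h1 hc0.le
    have h3 : c * ((c - c2) / (4 * c)) = (c - c2) / 4 := by field_simp
    linarith only [h2, h3]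
  have hδ1 : δ < 1 := lt_of_le_of_lt (min_le_right _ _) (by norm_num)
  have hexp : c2 ≤ c * (1 - δ) ^ 3 := by
    have h1 : 1 - 3 * δ ≤ (1 - δ) ^ 3 := by nlinarith only [sq_nonneg δ, hδ0, hδ1, mul_nonneg (sq_nonneg δ) (sub_nonneg.2 hδ1.le)]
    have h2 := mul_le_mul_of_nonneg_left h1 hc0.le
    have h3 : c * (1 - 3 * δ) = c - 3 * (c * δ) := by ring
    rw [h3] at h2
    linarith only [h2, hδc, hc2a]
  set Z : ℝ := ∑' n : ℕ, (n : ℝ) ^ (-1 - s) with hZ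
  have hsum : Summable (fun n : ℕ => (n : ℝ) ^ (-1 - s)) := summable_pow_nat (by linarith)
  have hmain : ∀ N₀ : ℕ, ∃ q₁ : ℕ, 1 ≤ q₁ ∧ ∀ᵐ ω ∂μ, ∀ᶠ k : ℕ in atTop,
      ω ∉ {ω | ((2 : ℝ) ^ k) ^ (2 - c3) ≤ ∑ q ∈ Finset.Ico q₁ (2 ^ k + 1), ((SvE A W q (TT W c q) ∩
        LBs μ ℱ A (fun n => (1 - δ) * rhoW W n) (Classical.choose (exists_N₁ W N₀)) (TT W c q)).indicator (fun _ => (1 : ℝ)) ω)} := by
    intro N₀
    obtain ⟨g1, g2, g3⟩ := Classical.choose_spec (exists_N₁ W N₀)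
    set N₁ := Classical.choose (exists_N₁ W N₀) with hN₁
    obtain ⟨q₀, hq₀⟩ := eventually_atTop.1 (sve_le (μ := μ) (ℱ := ℱ) hA hW hc0 hδ0 hδ1 N₁ g3 g2)
    refine ⟨max q₀ 1, le_max_right _ _, ?_⟩
    have hgeo : Summable (fun k : ℕ => Z * ((2 : ℝ) ^ (-s)) ^ k) := by
      apply Summable.mul_left
      apply summable_geometric_of_lt_one (Real.rpow_pos_of_pos (by norm_num) _).le
      exact Real.rpow_lt_one_of_one_lt_of_neg (by norm_num) (by linarith)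
    refine bc_real hgeo (Eventually.of_forall fun k => ?_)
    have h2k : (0 : ℝ) < (2 : ℝ) ^ k := by positivity
    have h2k1 : (1 : ℝ) ≤ (2 : ℝ) ^ k := one_le_pow₀ (by norm_num)
    refine (markov_count (fun q => (SvE_meas hA W q _).inter (LBs_meas _ _ _)) _ (Real.rpow_pos_of_pos h2k _)).trans ?_
    rw [div_le_iff₀ (Real.rpow_pos_of_pos h2k _)]
    have h1 : ∀ q ∈ Finset.Ico (max q₀ 1) (2 ^ k + 1), μ.real (SvE A W q (TT W c q) ∩
        LBs μ ℱ A (fun n => (1 - δ) * rhoW W n) N₁ (TT W c q)) ≤ (q : ℝ) ^ (-1 - s) * ((2 : ℝ) ^ k) ^ (2 - c2 + s) := by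
      intro q hq
      obtain ⟨h2, h3⟩ := Finset.mem_Ico.1 hq
      have h4 : 1 ≤ q := (le_max_right _ _).trans h2
      have h5 : (1 : ℝ) ≤ q := by exact_mod_cast h4
      have h6 : (q : ℝ) ≤ (2 : ℝ) ^ k := by exact_mod_cast (by omega : q ≤ 2 ^ k)
      refine (hq₀ q ((le_max_left _ _).trans h2)).trans ?_
      calc (q : ℝ) ^ (1 - c * (1 - δ) ^ 3) ≤ (q : ℝ) ^ (1 - c2) := Real.rpow_le_rpow_of_exponent_le h5 (by linarith only [hexp])
        _ = (q : ℝ) ^ (-1 - s) * (q : ℝ) ^ (2 - c2 + s) := by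
            rw [← Real.rpow_add (by linarith)]
            ring_nf
        _ ≤ _ := by
            apply mul_le_mul_of_nonneg_left _ (Real.rpow_pos_of_pos (by linarith) _).le
            exact Real.rpow_le_rpow (by linarith) h6 (by linarith)
    refine (Finset.sum_le_sum h1).trans ?_
    rw [← Finset.sum_mul]
    have h7 : ∑ q ∈ Finset.Ico (max q₀ 1) (2 ^ k + 1), (q : ℝ) ^ (-1 - s) ≤ Z :=
      hsum.sum_le_tsum _ fun n _ => Real.rpow_nonneg (Nat.cast_nonneg n) _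
    have h8 : (((2 : ℝ) ^ (-s)) ^ k) * ((2 : ℝ) ^ k) ^ (2 - c3) = ((2 : ℝ) ^ k) ^ (2 - c2 + s) := by
      have e1 : ((2 : ℝ) ^ (-s)) ^ k = ((2 : ℝ) ^ k) ^ (-s) := by
        rw [← Real.rpow_natCast, ← Real.rpow_natCast, ← Real.rpow_mul (by norm_num), ← Real.rpow_mul (by norm_num), mul_comm]
      rw [e1, ← Real.rpow_add h2k]
      congr 1
      rw [hs]
      ring
    rw [mul_assoc, h8]
    exact mul_le_mul_of_nonneg_right h7 (Real.rpow_pos_of_pos h2k _).le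
  choose q₁ hq₁ hmain' using hmain
  filter_upwards [ae_all_iff.2 hmain', hd] with ω h1 h2
  obtain ⟨N₀, hN₀⟩ := dens_two h2 hδ0
  obtain ⟨g1, g2, g3⟩ := Classical.choose_spec (exists_N₁ W N₀)
  obtain ⟨k₀, hk₀⟩ := eventually_atTop.1 (h1 N₀)
  filter_upwards [eventually_ge_atTop (2 ^ k₀), ev_pow (a := 2 - c3) (b := 2 - c') (by linarith) (q₁ N₀ + 4), ev_log 0, eventually_ge_atTop 1]
    with X hX h3 h4 h5
  have hX1 : (1 : ℝ) ≤ X := by exact_mod_cast h5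
  set k := Nat.log 2 X + 1 with hk
  have hXne : X ≠ 0 := by omega
  have hk1 : X < 2 ^ k := Nat.lt_pow_succ_log_self (by norm_num) X
  have hk2 : 2 ^ k ≤ 2 * X := by
    rw [hk, pow_succ]
    have := Nat.pow_log_le_self 2 hXne
    omega
  have hkk : k₀ ≤ k := by
    have : k₀ ≤ Nat.log 2 X := (Nat.le_log_iff_pow_le (by norm_num) hXne).2 hX
    omega
  have h6 := hk₀ k hkk
  have h6' : ∑ q ∈ Finset.Ico (q₁ N₀) (2 ^ k + 1), ((SvE A W q (TT W c q) ∩
        LBs μ ℱ A (fun n => (1 - δ) * rhoW W n) (Classical.choose (exists_N₁ W N₀)) (TT W c q)).indicator (fun _ => (1 : ℝ)) ω) <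
      ((2 : ℝ) ^ k) ^ (2 - c3) := not_le.1 h6
  have h7 : (CX A W c X ω : ℝ) ≤ q₁ N₀ + ∑ q ∈ Finset.Ico (q₁ N₀) (2 ^ k + 1), ((SvE A W q (TT W c q) ∩
        LBs μ ℱ A (fun n => (1 - δ) * rhoW W n) (Classical.choose (exists_N₁ W N₀)) (TT W c q)).indicator (fun _ => (1 : ℝ)) ω) := by
    have g4 : ∑ q ∈ Finset.Ico (q₁ N₀) (2 ^ k + 1), ((SvE A W q (TT W c q) ∩
        LBs μ ℱ A (fun n => (1 - δ) * rhoW W n) (Classical.choose (exists_N₁ W N₀)) (TT W c q)).indicator (fun _ => (1 : ℝ)) ω) =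
        (((Finset.Ico (q₁ N₀) (2 ^ k + 1)).filter (fun q => ω ∈ SvE A W q (TT W c q))).card : ℝ) := by
      rw [Finset.card_filter]
      push_cast
      refine Finset.sum_congr rfl fun q _ => ?_
      rw [indicator_apply]
      have g5 : ω ∈ LBs μ ℱ A (fun n => (1 - δ) * rhoW W n) (Classical.choose (exists_N₁ W N₀)) (TT W c q) :=
        fun n hn _ => (hN₀ _ g1).2 n hn
      by_cases g6 : ω ∈ SvE A W q (TT W c q)
      · rw [if_pos ⟨g6, g5⟩, if_pos g6]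
      · rw [if_neg (fun h => g6 h.1), if_neg g6]
    rw [g4]
    have g7 : (Finset.range (X + 1)).filter (fun q => ω ∈ SvE A W q (TT W c q)) ⊆
        Finset.range (q₁ N₀) ∪ (Finset.Ico (q₁ N₀) (2 ^ k + 1)).filter (fun q => ω ∈ SvE A W q (TT W c q)) := by
      intro q hq
      rw [Finset.mem_filter, Finset.mem_range] at hq
      rw [Finset.mem_union, Finset.mem_range, Finset.mem_filter, Finset.mem_Ico]
      by_cases g8 : q < q₁ N₀
      · exact Or.inl g8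
      · exact Or.inr ⟨⟨by omega, by omega⟩, hq.2⟩
    have g8 := (Finset.card_le_card g7).trans (Finset.card_union_le _ _)
    rw [Finset.card_range] at g8
    unfold CX
    exact_mod_cast g8
  have h8 : ((2 : ℝ) ^ k) ^ (2 - c3) ≤ 4 * (X : ℝ) ^ (2 - c3) := by
    have g4 : ((2 : ℝ) ^ k) ≤ 2 * X := by exact_mod_cast hk2
    calc ((2 : ℝ) ^ k) ^ (2 - c3) ≤ (2 * X : ℝ) ^ (2 - c3) := Real.rpow_le_rpow (by positivity) g4 (by linarith)
      _ = (2 : ℝ) ^ (2 - c3) * (X : ℝ) ^ (2 - c3) := Real.mul_rpow (by norm_num) (by linarith)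
      _ ≤ 4 * (X : ℝ) ^ (2 - c3) := by
          apply mul_le_mul_of_nonneg_right _ (Real.rpow_pos_of_pos (by linarith) _).le
          calc (2 : ℝ) ^ (2 - c3) ≤ (2 : ℝ) ^ (2 : ℝ) := Real.rpow_le_rpow_of_exponent_le (by norm_num) (by linarith)
            _ = 4 := by norm_num
  have h9 : 1 ≤ (X : ℝ) ^ (2 - c3) := Real.one_le_rpow hX1 (by linarith)
  have h10 : (q₁ N₀ : ℝ) * 1 ≤ q₁ N₀ * (X : ℝ) ^ (2 - c3) := mul_le_mul_of_nonneg_left h9 (Nat.cast_nonneg _)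
  have h11 : ((q₁ N₀ : ℝ) + 4) * (X : ℝ) ^ (2 - c3) ≤ ((q₁ N₀ : ℝ) + 4) * (Real.log X + 1) * (X : ℝ) ^ (2 - c3) := by
    apply mul_le_mul_of_nonneg_right _ (by linarith only [h9])
    have : 0 ≤ ((q₁ N₀ : ℝ) + 4) * Real.log X := mul_nonneg (by positivity) h4
    linarith only [this]
  linarith only [h3, h6', h7, h8, h10, h11]

end Pool.Agent.R528.RM
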