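import Mathlib
import Pool.Agent.R528.RM.Wag7

set_option autoImplicit false
set_option linter.unusedSectionVars false

/-! # The number of exceptional moduli: lower bound and the final law -/

open MeasureTheory Filter Set
open scoped ENNReal Topology

namespace Pool.Agent.R528.RM

variable {Ω : Type} {m0 : MeasurableSpace Ω} {μ : Measure Ω} [IsProbabilityMeasure μ]
  {ℱ : Filtration ℕ m0} {A : ℕ → Set Ω}

open Classical in
/-- the primes just below `X` -/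
noncomputable def PX (κ : ℝ) (X : ℕ) : Finset ℕ :=
  (Finset.range (X + 1)).filter (fun q => q.Prime ∧ (1 - κ) * X ≤ q)

lemma log_ratio_floor {κ : ℝ} (h1 : κ < 1) :
    Tendsto (fun X : ℕ => Real.log X / Real.log (⌊(1 - κ) * (X : ℝ)⌋₊ : ℕ)) atTop (𝓝 1) := by
  have hk : 0 < 1 - κ := by linarith
  have h2 : Tendsto (fun X : ℕ => ((⌊(1 - κ) * (X : ℝ)⌋₊ : ℕ) : ℝ) / X) atTop (𝓝 (1 - κ)) :=
    (tendsto_nat_floor_mul_div_atTop hk.le).comp tendsto_natCast_atTop_atTop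
  have h3 : Tendsto (fun X : ℕ => Real.log (((⌊(1 - κ) * (X : ℝ)⌋₊ : ℕ) : ℝ) / X)) atTop (𝓝 (Real.log (1 - κ))) :=
    (Real.continuousAt_log hk.ne').tendsto.comp h2
  have h4 : Tendsto (fun X : ℕ => 1 + Real.log (((⌊(1 - κ) * (X : ℝ)⌋₊ : ℕ) : ℝ) / X) / Real.log X) atTop (𝓝 (1 + 0)) :=
    (h3.div_atTop tendsto_log).const_add 1
  rw [add_zero] at h4
  have h5 := h4.inv₀ one_ne_zero
  rw [inv_one] at h5
  refine h5.congr' ?_
  filter_upwards [h2.eventually (eventually_gt_nhds hk), eventually_gt_atTop 1] with X g1 g2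
  have hX : (1 : ℝ) < X := by exact_mod_cast g2
  have hl : 0 < Real.log (X : ℝ) := Real.log_pos hX
  have hy : 0 < ((⌊(1 - κ) * (X : ℝ)⌋₊ : ℕ) : ℝ) := by
    by_contra hcon
    push Not at hcon
    have : ((⌊(1 - κ) * (X : ℝ)⌋₊ : ℕ) : ℝ) / X ≤ 0 := div_nonpos_of_nonpos_of_nonneg hcon (by linarith)
    linarith
  rw [Real.log_div hy.ne' (by linarith)]
  have : 1 + (Real.log ((⌊(1 - κ) * (X : ℝ)⌋₊ : ℕ) : ℝ) - Real.log X) / Real.log X = Real.log ((⌊(1 - κ) * (X : ℝ)⌋₊ : ℕ) : ℝ) / Real.log X := by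
    field_simp
    ring
  rw [this, inv_div]

lemma primes_short {κ ε : ℝ} (hκ : 0 < κ) (hκ1 : κ < 1) (hε : 0 < ε) :
    ∀ᶠ X : ℕ in atTop, (X : ℝ) ^ (1 - ε) ≤ (PX κ X).card := by
  classical
  have hk : 0 < 1 - κ := by linarith
  set y : ℕ → ℕ := fun X => ⌊(1 - κ) * (X : ℝ)⌋₊ with hy
  have hyt : Tendsto y atTop atTop := tendsto_nat_floor_atTop.comp (tendsto_natCast_atTop_atTop.const_mul_atTop hk)
  have h2 : Tendsto (fun X : ℕ => ((y X : ℕ) : ℝ) / X) atTop (𝓝 (1 - κ)) :=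
    (tendsto_nat_floor_mul_div_atTop hk.le).comp tendsto_natCast_atTop_atTop
  have h3 := pnt_nat.comp hyt
  have h4 := (h3.mul h2).mul (log_ratio_floor hκ1)
  have h5 : Tendsto (fun X : ℕ => (Nat.primeCounting (y X) : ℝ) * Real.log X / X) atTop (𝓝 (1 * (1 - κ) * 1)) := by
    refine h4.congr' ?_
    filter_upwards [hyt.eventually_gt_atTop 1, eventually_gt_atTop 1] with X g1 g2
    have g1' : (1 : ℝ) < y X := by exact_mod_cast g1
    have hl : 0 < Real.log (y X : ℝ) := Real.log_pos g1'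
    have hX : (1 : ℝ) < X := by exact_mod_cast g2
    show (Nat.primeCounting (y X) : ℝ) * Real.log (y X) / (y X) * ((y X : ℝ) / X) * (Real.log X / Real.log (y X)) = _
    have : (y X : ℝ) ≠ 0 := by linarith
    have hX0 : (X : ℝ) ≠ 0 := by linarith
    field_simp
  have h6 := pnt_nat.sub h5
  have h7 : (1 : ℝ) - 1 * (1 - κ) * 1 = κ := by ring
  rw [h7] at h6
  filter_upwards [h6.eventually (lt_mem_nhds (show κ / 2 < κ by linarith)), ev_pow (a := 1 - ε) (b := 1) (by linarith) (2 / κ),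
    eventually_gt_atTop 1] with X g1 g2 g3
  have hX : (1 : ℝ) < X := by exact_mod_cast g3
  have hl : 0 < Real.log (X : ℝ) := Real.log_pos hX
  have g4 : (Nat.primeCounting X : ℝ) - Nat.primeCounting (y X) ≤ (PX κ X).card := by
    have g5 : Nat.primeCounting X ≤ Nat.primeCounting (y X) + (PX κ X).card := by
      rw [Nat.primeCounting, Nat.primeCounting, Nat.primeCounting', Nat.count_eq_card_filter_range, Nat.count_eq_card_filter_range]
      refine le_trans (Finset.card_le_card ?_) (Finset.card_union_le _ _)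
      intro q hq
      rw [Finset.mem_filter, Finset.mem_range] at hq
      rw [Finset.mem_union, Finset.mem_filter, Finset.mem_range, PX, Finset.mem_filter, Finset.mem_range]
      by_cases g6 : q < y X + 1
      · exact Or.inl ⟨g6, hq.2⟩
      · right
        refine ⟨hq.1, hq.2, ?_⟩
        have g7 : ⌊(1 - κ) * (X : ℝ)⌋₊ < q := by
          show y X < q
          omega
        exact ((Nat.floor_lt (by positivity)).1 g7).le
    have : (Nat.primeCounting X : ℝ) ≤ Nat.primeCounting (y X) + (PX κ X).card := by exact_mod_cast g5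
    linarith only [this]
  have g8 : κ / 2 * (X / Real.log X) ≤ (Nat.primeCounting X : ℝ) - Nat.primeCounting (y X) := by
    have g9 : κ / 2 < ((Nat.primeCounting X : ℝ) - Nat.primeCounting (y X)) * Real.log X / X := by
      rw [sub_mul, sub_div]
      exact g1
    rw [lt_div_iff₀ (by linarith)] at g9
    rw [mul_div_assoc', div_le_iff₀ hl]
    exact g9.le
  refine le_trans ?_ (g8.trans g4)
  rw [Real.rpow_one] at g2
  rw [mul_div_assoc', le_div_iff₀ hl]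
  have hp : 0 < (X : ℝ) ^ (1 - ε) := Real.rpow_pos_of_pos (by linarith) _
  have g10 : (Real.log X + 1) * (X : ℝ) ^ (1 - ε) ≤ κ / 2 * X := by
    have g11 := mul_le_mul_of_nonneg_left g2 (show 0 ≤ κ / 2 by positivity)
    have g12 : κ / 2 * (2 / κ * (Real.log X + 1) * (X : ℝ) ^ (1 - ε)) = (Real.log X + 1) * (X : ℝ) ^ (1 - ε) := by
      field_simp
    rw [g12] at g11
    exact g11
  have g13 : (X : ℝ) ^ (1 - ε) * Real.log X ≤ (Real.log X + 1) * (X : ℝ) ^ (1 - ε) := by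
    have : (Real.log X + 1) * (X : ℝ) ^ (1 - ε) = (X : ℝ) ^ (1 - ε) * Real.log X + (X : ℝ) ^ (1 - ε) := by ring
    rw [this]
    linarith only [hp]
  exact g13.trans g10

/-- lower bound for the number of exceptional moduli -/
theorem F3b (hA : ∀ n, MeasurableSet[ℱ n] (A n)) {W : ℕ} (hW : 0 < W)
    (hd : ∀ᵐ ω ∂μ, ∀ ε : ℝ, 0 < ε → ∀ᶠ n : ℕ in atTop, |dens μ ℱ A n ω - rhoW W (n + 1)| ≤ ε * rhoW W (n + 1))
    {c c' : ℝ} (hc : 1 < c) (hcc : c < c') (hc2 : c' < 2) :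
    ∀ᵐ ω ∂μ, ∀ᶠ X : ℕ in atTop, (X : ℝ) ^ (2 - c') ≤ CX A W c X ω := by
  classical
  set cA : ℝ := (c + c') / 2 with hcA
  have hcA1 : c < cA := by rw [hcA]; linarith
  have hcA2 : cA < c' := by rw [hcA]; linarith
  set ε : ℝ := (c' - cA) / 4 with hε
  have hε0 : 0 < ε := by rw [hε]; linarith
  obtain ⟨κ, hκ0, hκ1, δ, hδ0, hph⟩ := phase2 (μ := μ) (ℱ := ℱ) hA hW hc hcA1 (show cA < 2 by linarith)
  have h1 : ∀ N₀ : ℕ, ∀ᵐ ω ∂μ, ∀ᶠ X : ℕ in atTop, ω ∉ {ω | NS A W (PX κ X) ⌊c * X * Real.log X ^ 2⌋₊ ω <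
      (PX κ X).card * (X : ℝ) ^ (1 - cA) ∧ (∀ n, N₀ ≤ n → dens μ ℱ A n ω ≤ (1 + δ) * rhoW W (n + 1)) ∧
        ∀ n, N₀ ≤ n → (1 - δ) * rhoW W (n + 1) ≤ dens μ ℱ A n ω} := by
    intro N₀
    refine bc_real (summable_pow_nat (show (-2 : ℝ) < -1 by norm_num)) ?_
    filter_upwards [hph δ hδ0 le_rfl N₀, primes_short hκ0 (by linarith) (show 0 < (2 - cA) / 4 by linarith)] with X g1 g2
    refine g1 (PX κ X) ?_ g2
    intro q hq
    rw [PX, Finset.mem_filter, Finset.mem_range] at hq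
    exact ⟨hq.2.1, hq.2.2, by omega⟩
  filter_upwards [ae_all_iff.2 h1, hd, F4 hA hW hd hc hε0] with ω h1 h2 h4
  obtain ⟨N₀, hN₀⟩ := dens_two h2 hδ0
  obtain ⟨q₀, hq₀⟩ := eventually_atTop.1 h4
  filter_upwards [h1 N₀, primes_short hκ0 (show κ < 1 by linarith) hε0, eventually_ge_atTop (2 * q₀ + 2), ev_log 0] with X g1 g2 g3 g4
  have hX : (2 : ℝ) ≤ X := by exact_mod_cast (by omega : 2 ≤ X)
  have hXp : (0 : ℝ) < X := by linarith
  have g5 : (PX κ X).card * (X : ℝ) ^ (1 - cA) ≤ NS A W (PX κ X) ⌊c * X * Real.log X ^ 2⌋₊ ω := by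
    by_contra hcon
    push Not at hcon
    exact g1 ⟨hcon, (hN₀ _ le_rfl).1, (hN₀ _ le_rfl).2⟩
  have hTT : ∀ q ∈ PX κ X, TT W c q ≤ ⌊c * X * Real.log X ^ 2⌋₊ := by
    intro q hq
    rw [PX, Finset.mem_filter, Finset.mem_range] at hq
    unfold TT
    apply Nat.floor_mono
    have q1 : ((adm W q).card : ℝ) ≤ X := by
      have : ((adm W q).card : ℝ) ≤ q := by exact_mod_cast adm_card_le
      have h3 : (q : ℝ) ≤ X := by exact_mod_cast (by omega : q ≤ X)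
      linarith
    have q2 : Real.log q ≤ Real.log X := Real.log_le_log (by exact_mod_cast hq.2.1.pos) (by exact_mod_cast (by omega : q ≤ X))
    have q3 : 0 ≤ Real.log (q : ℝ) := Real.log_natCast_nonneg q
    apply mul_le_mul (mul_le_mul_of_nonneg_left q1 (by linarith)) (pow_le_pow_left₀ q3 q2 2) (sq_nonneg _) (by positivity)
  have g6 : NS A W (PX κ X) ⌊c * X * Real.log X ^ 2⌋₊ ω ≤ (X : ℝ) ^ ε * CX A W c X ω := by
    have g7 : ∀ q ∈ PX κ X, ∑ a ∈ adm W q, sv A q a ⌊c * X * Real.log X ^ 2⌋₊ ω ≤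
        (X : ℝ) ^ ε * (if ω ∈ SvE A W q (TT W c q) then 1 else 0) := by
      intro q hq
      have hq' := hq
      rw [PX, Finset.mem_filter, Finset.mem_range] at hq'
      have q0 : q₀ ≤ q := by
        have q1 := hq'.2.2
        have q2 : (X : ℝ) / 2 ≤ q := by
          have := mul_le_mul_of_nonneg_right (show (1 / 2 : ℝ) ≤ 1 - κ by linarith only [hκ1]) hXp.le
          linarith only [this, q1]
        have q3 : (X : ℝ) ≤ 2 * q := by linarith only [q2]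
        have q4 : X ≤ 2 * q := by exact_mod_cast q3
        omega
      have q1 : ∑ a ∈ adm W q, sv A q a ⌊c * X * Real.log X ^ 2⌋₊ ω ≤ ∑ a ∈ adm W q, sv A q a (TT W c q) ω :=
        Finset.sum_le_sum fun a _ => sv_anti q a (hTT q hq) ω
      by_cases q2 : ω ∈ SvE A W q (TT W c q)
      · rw [if_pos q2, mul_one]
        refine q1.trans ((hq₀ q q0).trans ?_)
        exact Real.rpow_le_rpow (Nat.cast_nonneg _) (by exact_mod_cast (by omega : q ≤ X)) hε0.le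
      · rw [if_neg q2, mul_zero]
        refine q1.trans (le_of_eq ?_)
        refine Finset.sum_eq_zero fun a ha => ?_
        unfold sv
        rw [indicator_of_notMem]
        intro q3
        exact q2 ⟨a, ha, q3⟩
    unfold NS
    refine (Finset.sum_le_sum g7).trans ?_
    rw [← Finset.mul_sum]
    apply mul_le_mul_of_nonneg_left _ (Real.rpow_pos_of_pos hXp _).le
    rw [Finset.sum_boole]
    unfold CX
    have q5 : ((PX κ X).filter (fun q => ω ∈ SvE A W q (TT W c q))) ⊆ ((Finset.range (X + 1)).filter (fun q => ω ∈ SvE A W q (TT W c q))) := by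
      intro q hq
      rw [Finset.mem_filter, PX, Finset.mem_filter] at hq
      rw [Finset.mem_filter]
      exact ⟨hq.1.1, hq.2⟩
    exact_mod_cast Finset.card_le_card q5
  have hp1 : 0 < (X : ℝ) ^ ε := Real.rpow_pos_of_pos hXp _
  have hp2 : 0 < (X : ℝ) ^ (1 - cA) := Real.rpow_pos_of_pos hXp _
  have g8 : (X : ℝ) ^ (1 - ε) * (X : ℝ) ^ (1 - cA) ≤ (X : ℝ) ^ ε * CX A W c X ω :=
    (mul_le_mul_of_nonneg_right g2 hp2.le).trans (g5.trans g6)
  have g9 : (X : ℝ) ^ (1 - ε) * (X : ℝ) ^ (1 - cA) = (X : ℝ) ^ ε * (X : ℝ) ^ (2 - cA - 2 * ε) := by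
    rw [← Real.rpow_add hXp, ← Real.rpow_add hXp]
    congr 1
    ring
  rw [g9] at g8
  have g10 : (X : ℝ) ^ (2 - cA - 2 * ε) ≤ CX A W c X ω := le_of_mul_le_mul_left g8 hp1
  refine le_trans ?_ g10
  apply Real.rpow_le_rpow_of_exponent_le (by linarith)
  rw [hε]
  linarith

/-- the law of the exceptional moduli -/
theorem F3 (hA : ∀ n, MeasurableSet[ℱ n] (A n)) {W : ℕ} (hW : 0 < W)
    (hd : ∀ᵐ ω ∂μ, ∀ ε : ℝ, 0 < ε → ∀ᶠ n : ℕ in atTop, |dens μ ℱ A n ω - rhoW W (n + 1)| ≤ ε * rhoW W (n + 1)) :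
    ∀ᵐ ω ∂μ, ∀ c : ℝ, 1 < c → c < 2 → ∀ ε : ℝ, 0 < ε → ∀ᶠ X : ℕ in atTop,
      (X : ℝ) ^ (2 - c - ε) ≤ CX A W c X ω ∧ (CX A W c X ω : ℝ) ≤ (X : ℝ) ^ (2 - c + ε) := by
  have h1 : ∀ᵐ ω ∂μ, ∀ r s : ℚ, (1 < (r : ℝ) ∧ (r : ℝ) < 2 ∧ (s : ℝ) < r ∧ 0 ≤ (s : ℝ)) →
      ∀ᶠ X : ℕ in atTop, (CX A W r X ω : ℝ) ≤ (X : ℝ) ^ (2 - (s : ℝ)) := by
    refine ae_all_iff.2 fun r => ae_all_iff.2 fun s => ?_
    by_cases h : 1 < (r : ℝ) ∧ (r : ℝ) < 2 ∧ (s : ℝ) < r ∧ 0 ≤ (s : ℝ)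
    · filter_upwards [F3a hA hW hd h.1 h.2.1 h.2.2.1 h.2.2.2] with ω hω _
      exact hω
    · exact Eventually.of_forall fun ω h' => absurd h' h
  have h2 : ∀ᵐ ω ∂μ, ∀ r s : ℚ, (1 < (r : ℝ) ∧ (r : ℝ) < s ∧ (s : ℝ) < 2) →
      ∀ᶠ X : ℕ in atTop, (X : ℝ) ^ (2 - (s : ℝ)) ≤ CX A W r X ω := by
    refine ae_all_iff.2 fun r => ae_all_iff.2 fun s => ?_
    by_cases h : 1 < (r : ℝ) ∧ (r : ℝ) < s ∧ (s : ℝ) < 2
    · filter_upwards [F3b hA hW hd h.1 h.2.1 h.2.2] with ω hω _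
      exact hω
    · exact Eventually.of_forall fun ω h' => absurd h' h
  filter_upwards [h1, h2] with ω h1 h2 c hc1 hc2 ε hε
  obtain ⟨r, hr1, hr2⟩ := exists_rat_btwn (show max 1 (c - ε / 2) < c from max_lt hc1 (by linarith))
  have hr3 := (le_max_left (1 : ℝ) _).trans_lt hr1
  have hr4 := (le_max_right (1 : ℝ) _).trans_lt hr1
  obtain ⟨s, hs1, hs2⟩ := exists_rat_btwn (show max 0 ((r : ℝ) - ε / 2) < r from max_lt (by linarith) (by linarith))
  have hs3 := (le_max_left (0 : ℝ) _).trans_lt hs1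
  have hs4 := (le_max_right (0 : ℝ) _).trans_lt hs1
  obtain ⟨r', hr1', hr2'⟩ := exists_rat_btwn (show c < min 2 (c + ε / 2) from lt_min hc2 (by linarith))
  have hr3' := hr2'.trans_le (min_le_left _ _)
  have hr4' := hr2'.trans_le (min_le_right _ _)
  obtain ⟨s', hs1', hs2'⟩ := exists_rat_btwn (show (r' : ℝ) < min 2 ((r' : ℝ) + ε / 2) from lt_min hr3' (by linarith))
  have hs3' := hs2'.trans_le (min_le_left _ _)
  have hs4' := hs2'.trans_le (min_le_right _ _)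
  filter_upwards [h1 r s ⟨hr3, by linarith, hs2, hs3.le⟩, h2 r' s' ⟨by linarith, hs1', hs3'⟩, eventually_ge_atTop 1] with X g1 g2 g3
  have hX : (1 : ℝ) ≤ X := by exact_mod_cast g3
  constructor
  · calc (X : ℝ) ^ (2 - c - ε) ≤ (X : ℝ) ^ (2 - (s' : ℝ)) := Real.rpow_le_rpow_of_exponent_le hX (by linarith)
      _ ≤ CX A W r' X ω := g2
      _ ≤ CX A W c X ω := by exact_mod_cast CX_anti W hr1'.le X ω
  · calc (CX A W c X ω : ℝ) ≤ CX A W r X ω := by exact_mod_cast CX_anti W hr2.le X ω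
      _ ≤ (X : ℝ) ^ (2 - (s : ℝ)) := g1
      _ ≤ _ := Real.rpow_le_rpow_of_exponent_le hX (by linarith)

/-- upper and lower bounds for every modulus -/
theorem F12 (hA : ∀ n, MeasurableSet[ℱ n] (A n)) {W : ℕ} (hW : 0 < W)
    (hd : ∀ᵐ ω ∂μ, ∀ ε : ℝ, 0 < ε → ∀ᶠ n : ℕ in atTop, |dens μ ℱ A n ω - rhoW W (n + 1)| ≤ ε * rhoW W (n + 1)) :
    ∀ᵐ ω ∂μ, (∀ c : ℝ, 2 < c → ∀ᶠ q : ℕ in atTop, ω ∉ SvE A W q (TT W c q)) ∧
      ∀ c : ℝ, c < 1 → ∀ᶠ q : ℕ in atTop, ω ∈ SvE A W q (TT W c q) := by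
  have h1 : ∀ᵐ ω ∂μ, ∀ r : ℚ, (2 < (r : ℝ)) → ∀ᶠ q : ℕ in atTop, ω ∉ SvE A W q (TT W r q) := by
    refine ae_all_iff.2 fun r => ?_
    by_cases h : 2 < (r : ℝ)
    · filter_upwards [F1 hA hW hd h] with ω hω _
      exact hω
    · exact Eventually.of_forall fun ω h' => absurd h' h
  have h2 : ∀ᵐ ω ∂μ, ∀ r : ℚ, (0 < (r : ℝ) ∧ (r : ℝ) < 1) → ∀ᶠ q : ℕ in atTop, ω ∈ SvE A W q (TT W r q) := by
    refine ae_all_iff.2 fun r => ?_
    by_cases h : 0 < (r : ℝ) ∧ (r : ℝ) < 1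
    · filter_upwards [F2 hA hW hd h.1 h.2] with ω hω _
      exact hω
    · exact Eventually.of_forall fun ω h' => absurd h' h
  filter_upwards [h1, h2] with ω h1 h2
  constructor
  · intro c hc
    obtain ⟨r, hr1, hr2⟩ := exists_rat_btwn hc
    filter_upwards [h1 r hr1] with q hq h3
    exact hq (SvE_anti (TT_mono W hr2.le q) h3)
  · intro c hc
    obtain ⟨r, hr1, hr2⟩ := exists_rat_btwn (show max 0 c < 1 from max_lt one_pos hc)
    filter_upwards [h2 r ⟨(le_max_left _ _).trans_lt hr1, hr2⟩] with q hq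
    exact SvE_anti (TT_mono W ((le_max_right _ _).trans_lt hr1).le q) hq

end Pool.Agent.R528.RM
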