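import Mathlib
import Pool.Agent.R528.RM.EH4
import Pool.Agent.R528.RM.Wag8

set_option autoImplicit false
set_option linter.unusedSectionVars false
set_option linter.unusedVariables false

/-! # Few exceptional moduli -/

open MeasureTheory Filter Set
open scoped ENNReal Topology

namespace Pool.Agent.R528.RM

variable {Ω : Type} {m0 : MeasurableSpace Ω} {μ : Measure Ω} [IsProbabilityMeasure μ]
  {ℱ : Filtration ℕ m0} {A : ℕ → Set Ω}

/-- lower bound for families of classes -/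
theorem low_gen (hA : ∀ n, MeasurableSet[ℱ n] (A n)) {W : ℕ} (hW : 0 < W) {γ η κ δ d₀ : ℝ} (hγ : 0 < γ)
    (hη0 : 0 < η) (hη1 : η ≤ 1 / 10) (hκ0 : 0 < κ) (hκ1 : κ ≤ 1) (hδ : 0 < δ) (hδ1 : δ ≤ 1)
    (hpar1 : (1 + κ) ^ 2 * (1 + δ) ≤ 1 + η) (hpar2 : 1 - η / 2 ≤ (1 - κ) * (1 - δ) ^ 2) {N₀ : ℕ}
    (hsm : ∀ m, N₀ ≤ m → (1 + δ) * rhoW W (m + 1) ≤ d₀) (hd₀ : d₀ ≤ 1 / 8)
    {x : ℕ} (hx : 1 < x) {v : ℝ} (hv0 : 0 < v) (hθd : 4 * √(2 * (γ * Real.log x) / v) + 4 * d₀ ≤ κ ^ 2)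
    (I : Finset (ℕ × ℕ)) (hI : I.Nonempty) {o₁ : ℝ} (ho : 0 ≤ o₁)
    (hdis : ∀ i ∈ I, ∀ j ∈ I, i ≠ j → ∑ n ∈ cls W i.1 i.2 N₀ x ∩ cls W j.1 j.2 N₀ x, rhoW W n ≤ o₁)
    (hv : ∀ i ∈ I, (1 - δ) * v ≤ ∑ n ∈ cls W i.1 i.2 N₀ x, rhoW W n ∧ ∑ n ∈ cls W i.1 i.2 N₀ x, rhoW W n ≤ v) :
    μ.real ({ω | ∀ i ∈ I, SR μ ℱ A (rhoW W) δ (cls W i.1 i.2 N₀ x) N₀ x ω < (1 - 4 * η) * √(2 * (γ * Real.log x) * v)} ∩
      Gs μ ℱ A (rhoW W) δ N₀ (N₀ + x)) ≤
      4 * (x : ℝ) ^ (γ * (1 - η)) / I.card + 10 * (x : ℝ) ^ (-(κ * η * γ / 2)) +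
      4 * (Real.exp (4 * (γ * Real.log x) / v * ((1 + δ) * o₁)) - 1) := by
  classical
  have hx1 : (1 : ℝ) < x := by exact_mod_cast hx
  have hxp : (0 : ℝ) < x := by linarith only [hx1]
  have hlx : 0 < Real.log (x : ℝ) := Real.log_pos hx1
  set L : ℝ := γ * Real.log x with hL
  have hL0 : 0 < L := by positivity
  have h3η : 0 < 1 - 3 * η := by linarith only [hη1]
  set Λ : ℝ := (1 - 3 * η) * L with hΛ
  have hΛ0 : 0 < Λ := by positivity
  have hΛL : Λ ≤ L := by nlinarith only [hη0, hL0, hΛ]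
  set θ : ℝ := √(2 * Λ / v) with hθ
  have hθ0 : 0 < θ := Real.sqrt_pos.2 (by positivity)
  have hθle : θ ≤ √(2 * L / v) := by
    apply Real.sqrt_le_sqrt
    apply div_le_div_of_nonneg_right _ hv0.le
    linarith only [hΛL]
  have hθ2 : θ ^ 2 * v = 2 * Λ := by
    rw [hθ, Real.sq_sqrt (by positivity)]
    exact div_mul_cancel₀ _ hv0.ne'
  have hθ2' : θ ^ 2 * v / 2 = Λ := by linarith only [hθ2]
  have key := fam_max (μ := μ) (ℱ := ℱ) (A := A) (N := N₀) (ι := ℕ × ℕ) hA (rhoW_nonneg W) hδ.le hδ1 hsm hd₀ hθ0 hκ0 hκ1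
    (by linarith only [hθle, hθd]) hη0 hpar1 hpar2 I hI (fun i => cls W i.1 i.2 N₀ x) x
    (fun i _ n hn => by
      have := (mem_cls.1 hn).1
      exact ⟨this.1, by omega⟩) hdis hv
  rw [hθ2'] at key
  have hthr : (1 - 4 * η) * √(2 * L * v) ≤ (1 - η) * θ * v := by
    have e1 : θ * v = √(2 * Λ * v) := by
      have e2 : θ * v = √(2 * Λ / v * v ^ 2) := by
        rw [Real.sqrt_mul (by positivity), Real.sqrt_sq hv0.le]
      rw [e2]
      congr 1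
      rw [sq, ← mul_assoc, div_mul_cancel₀ _ hv0.ne']
    have e2 : (1 - 3 * η) * √(2 * L * v) ≤ √(2 * Λ * v) := by
      apply Real.le_sqrt_of_sq_le
      rw [mul_pow, Real.sq_sqrt (by positivity)]
      have : (1 - 3 * η) ^ 2 ≤ 1 - 3 * η := by nlinarith only [hη0, h3η]
      calc (1 - 3 * η) ^ 2 * (2 * L * v) ≤ (1 - 3 * η) * (2 * L * v) := mul_le_mul_of_nonneg_right this (by positivity)
        _ = 2 * Λ * v := by rw [hΛ]; ring
    have e3 : 0 ≤ √(2 * L * v) := Real.sqrt_nonneg _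
    have e4 : (1 - 4 * η) ≤ (1 - η) * (1 - 3 * η) := by nlinarith only [hη0]
    have e5 := mul_le_mul_of_nonneg_right e4 e3
    have e6 := mul_le_mul_of_nonneg_left e2 (show 0 ≤ 1 - η by linarith only [hη1])
    rw [mul_assoc (1 - η) θ v, e1]
    linarith only [e5, e6]
  refine (measureReal_mono (s₂ := {ω | ∀ i ∈ I, SR μ ℱ A (rhoW W) δ (cls W i.1 i.2 N₀ x) N₀ x ω < (1 - η) * θ * v} ∩
    Gs μ ℱ A (rhoW W) δ N₀ (N₀ + x)) ?_ (measure_ne_top _ _)).trans (key.trans ?_)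
  · rintro ω ⟨h1, h2⟩
    exact ⟨fun i hi => lt_of_lt_of_le (h1 i hi) hthr, h2⟩
  · have hc : (0 : ℝ) < I.card := by exact_mod_cast Finset.card_pos.2 hI
    have f1 : Real.exp ((1 + 2 * η) * Λ) ≤ (x : ℝ) ^ (γ * (1 - η)) := by
      rw [Real.rpow_def_of_pos hxp]
      apply Real.exp_le_exp.2
      have : (1 + 2 * η) * (1 - 3 * η) ≤ 1 - η := by nlinarith only [hη0]
      have := mul_le_mul_of_nonneg_right this hL0.le
      rw [hL] at this
      rw [hΛ, hL]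
      linarith only [this]
    have f2 : Real.exp (-(κ * η * Λ)) ≤ (x : ℝ) ^ (-(κ * η * γ / 2)) := by
      rw [Real.rpow_def_of_pos hxp]
      apply Real.exp_le_exp.2
      have e1 : 1 / 2 * L ≤ Λ := by
        rw [hΛ]
        apply mul_le_mul_of_nonneg_right _ hL0.le
        linarith only [hη1]
      have e2 := mul_le_mul_of_nonneg_left e1 (show 0 ≤ κ * η by positivity)
      rw [hL] at e2
      linarith only [e2]
    have f3 : Real.exp (2 * θ ^ 2 * ((1 + δ) * o₁)) ≤ Real.exp (4 * L / v * ((1 + δ) * o₁)) := by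
      apply Real.exp_le_exp.2
      apply mul_le_mul_of_nonneg_right _ (by positivity)
      have e1 : θ ^ 2 = 2 * Λ / v := by rw [hθ, Real.sq_sqrt (by positivity)]
      rw [e1]
      have e2 : 2 * (2 * Λ / v) = 4 * Λ / v := by ring
      rw [e2]
      apply div_le_div_of_nonneg_right _ hv0.le
      linarith only [hΛL]
    have f4 : 4 * Real.exp ((1 + 2 * η) * Λ) / I.card ≤ 4 * (x : ℝ) ^ (γ * (1 - η)) / I.card := by
      apply div_le_div_of_nonneg_right _ hc.le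
      linarith only [f1]
    linarith only [f2, f3, f4]

/-- the main term -/
noncomputable def Bmn (W : ℕ) (β : ℝ) (x q : ℕ) : ℝ := √(2 * β * x / (adm W q).card)

/-- the exceptional event of the modulus `q` -/
def Fq (μ : Measure Ω) (ℱ : Filtration ℕ m0) (A : ℕ → Set Ω) (W : ℕ) (β η δ : ℝ) (N₀ x q : ℕ) : Set Ω :=
  {ω | ∃ a ∈ adm W q, (1 + 3 * η) * Bmn W β x q ≤ |SR μ ℱ A (rhoW W) δ (cls W q a N₀ x) N₀ x ω|} ∪
  ({ω | ∀ a ∈ adm W q, SR μ ℱ A (rhoW W) δ (cls W q a N₀ x) N₀ x ω < (1 - 4 * η) * Bmn W β x q} ∩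
    Gs μ ℱ A (rhoW W) δ N₀ (N₀ + x))

lemma Fq_meas (hA : ∀ n, MeasurableSet[ℱ n] (A n)) (W : ℕ) (β η δ : ℝ) (N₀ x q : ℕ) : MeasurableSet (Fq μ ℱ A W β η δ N₀ x q) := by
  unfold Fq
  have hS : ∀ a, Measurable (SR μ ℱ A (rhoW W) δ (cls W q a N₀ x) N₀ x) := fun a => SR_meas hA _ _
  refine MeasurableSet.union ?_ (MeasurableSet.inter ?_ (ℱ.le _ _ (Gs_meas _ _ _ _)))
  · have h1 : {ω | ∃ a ∈ adm W q, (1 + 3 * η) * Bmn W β x q ≤ |SR μ ℱ A (rhoW W) δ (cls W q a N₀ x) N₀ x ω|} =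
        ⋃ a ∈ adm W q, {ω | (1 + 3 * η) * Bmn W β x q ≤ |SR μ ℱ A (rhoW W) δ (cls W q a N₀ x) N₀ x ω|} := by
      ext ω
      simp only [mem_ofPred_eq, mem_iUnion, exists_prop]
    rw [h1]
    exact Finset.measurableSet_biUnion _ fun a _ => measurableSet_le measurable_const (hS a).abs
  · have h1 : {ω | ∀ a ∈ adm W q, SR μ ℱ A (rhoW W) δ (cls W q a N₀ x) N₀ x ω < (1 - 4 * η) * Bmn W β x q} =
        ⋂ a ∈ adm W q, {ω | SR μ ℱ A (rhoW W) δ (cls W q a N₀ x) N₀ x ω < (1 - 4 * η) * Bmn W β x q} := by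
      ext ω
      simp only [mem_ofPred_eq, mem_iInter]
    rw [h1]
    exact Finset.measurableSet_biInter _ fun a _ => measurableSet_lt (hS a) measurable_const

lemma ev_le_pow {a b C : ℝ} (hab : a < b) : ∀ᶠ X : ℕ in atTop, C * (X : ℝ) ^ a ≤ (X : ℝ) ^ b := by
  filter_upwards [ev_pow hab (max C 0), ev_log 0, eventually_ge_atTop 1] with X h1 h2 h3
  refine le_trans ?_ h1
  apply mul_le_mul_of_nonneg_right _ (by positivity)
  have h4 : C ≤ max C 0 := le_max_left _ _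
  have h5 : 0 ≤ max C 0 := le_max_right _ _
  nlinarith only [h4, h5, h2, mul_nonneg h5 h2]

/-- exceptional probabilities -/
theorem Fq_le (hA : ∀ n, MeasurableSet[ℱ n] (A n)) {W : ℕ} (hW : 0 < W) {β η : ℝ} (hβ0 : 0 < β) (hβ1 : β < 1)
    (hη0 : 0 < η) (hη1 : η ≤ 1 / 10) (N₀ : ℕ)
    (hN : (W : ℝ) / Nat.totient W ≤ Real.log N₀) (hN1 : 1 ≤ N₀)
    (hsm : ∀ m, N₀ ≤ m → (1 + η / 8) * rhoW W (m + 1) ≤ (η / 8) ^ 2 / 8) :
    ∀ᶠ x : ℕ in atTop, ∀ q : ℕ, 1 ≤ q → (x : ℝ) ^ (β - β * η ^ 2 / 100) ≤ q → (q : ℝ) ≤ (x : ℝ) ^ β →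
      μ.real (Fq μ ℱ A W β η (η / 8) N₀ x q) ≤ (x : ℝ) ^ (-(β * η ^ 2 / 20)) := by
  set δ : ℝ := η / 8 with hδ
  have hδ0 : 0 < δ := by positivity
  have hδ1 : δ ≤ 1 := by linarith only [hδ, hη1]
  have hφ : (0 : ℝ) < Nat.totient W := by exact_mod_cast Nat.totient_pos.2 hW
  have hW' : (0 : ℝ) < W := by exact_mod_cast hW
  have hd8 : δ ^ 2 / 8 ≤ 1 / 8 := by nlinarith only [hδ0, hδ1]
  have hη8 : η = 8 * δ := by rw [hδ]; ring
  have hδ2 : δ ^ 2 ≤ δ := by nlinarith only [hδ0, hδ1]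
  have hδ20 : 0 < δ ^ 2 := by positivity
  have hδ3 : δ ^ 3 ≤ δ := by nlinarith only [hδ0, hδ1, hδ2, hδ20]
  have hpar1 : (1 + δ) ^ 2 * (1 + δ) ≤ 1 + η := by
    have e1 : (1 + δ) ^ 2 * (1 + δ) = 1 + 3 * δ + 3 * δ ^ 2 + δ ^ 3 := by ring
    rw [e1]
    linarith only [hδ2, hδ3, hη8, hδ0]
  have hpar2 : 1 - η / 2 ≤ (1 - δ) * (1 - δ) ^ 2 := by
    have e1 : (1 - δ) * (1 - δ) ^ 2 = 1 - 3 * δ + 3 * δ ^ 2 - δ ^ 3 := by ring
    rw [e1]
    linarith only [hδ2, hδ3, hη8, hδ0, hδ20]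
  have hβη : 0 < β * η := by positivity
  have hβη2 : 10 * (β * η ^ 2) ≤ β * η := by nlinarith only [hβη, hη1, hη0]
  have hβη3 : 0 < β * η ^ 2 := by positivity
  filter_upwards [tail_ev (μ := μ) (ℱ := ℱ) hA hW (γ := β) hβ1 hβ0 hη0 (by linarith only [hη1]) hδ0 (by nlinarith only [hδ, hη0, hη1]) N₀ hN hN1
      (fun m hm => (hsm m hm).trans hd8),
    v_bounds hW hβ1 (show 0 < δ / 2 by positivity) (by linarith only [hδ1]) N₀ hN hN1,
    theta_small W hβ1 hβ0.le (show 0 < δ ^ 2 / 8 by positivity) (show 0 < δ / 2 by positivity), eventually_gt_atTop 1,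
    ev_le_pow (a := -(β * η)) (b := -(β * η ^ 2 / 20)) (C := 6) (by linarith only [hβη2, hβη3]),
    ev_le_pow (a := -(β * η) + β * η ^ 2 / 100) (b := -(β * η ^ 2 / 20)) (C := 12 * (W / Nat.totient W)) (by linarith only [hβη2, hβη3]),
    ev_le_pow (a := -(δ * η * β / 2)) (b := -(β * η ^ 2 / 20)) (C := 30) (by rw [hδ]; nlinarith only [hβη3])]
    with x h1 h2 h3 h4 h5 h6 h7 q hq hqx1 hqx
  have hx1 : (1 : ℝ) < x := by exact_mod_cast h4
  have hxp : (0 : ℝ) < x := by linarith only [hx1]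
  have hlx : 0 < Real.log (x : ℝ) := Real.log_pos hx1
  have hcard := adm_pos W (q := q) (by omega)
  have hcq : ((adm W q).card : ℝ) ≤ q := by exact_mod_cast adm_card_le
  have hcq2 := adm_ge hW (q := q) (by omega)
  set v := vx W (δ / 2) x q with hv
  have hv0 : 0 < v := vx_pos W (by positivity) h4 hq
  -- the first part
  have p1 : μ.real {ω | ∃ a ∈ adm W q, (1 + 3 * η) * Bmn W β x q ≤ |SR μ ℱ A (rhoW W) δ (cls W q a N₀ x) N₀ x ω|} ≤
      2 * (x : ℝ) ^ (-(β * η)) := by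
    have hsub : {ω | ∃ a ∈ adm W q, (1 + 3 * η) * Bmn W β x q ≤ |SR μ ℱ A (rhoW W) δ (cls W q a N₀ x) N₀ x ω|} ⊆
        ⋃ a ∈ adm W q, {ω | (1 + 3 * η) * √(2 * β * x / (adm W q).card) ≤ |SR μ ℱ A (rhoW W) δ (cls W q a N₀ x) N₀ x ω|} := by
      rintro ω ⟨a, ha, h⟩
      exact mem_biUnion ha h
    refine (measureReal_mono hsub (measure_ne_top _ _)).trans ((measureReal_biUnion_finset_le _ _).trans ?_)
    refine (Finset.sum_le_sum fun a ha => h1 q hq hqx a ha).trans ?_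
    rw [Finset.sum_const, nsmul_eq_mul]
    have e1 : ((adm W q).card : ℝ) * (2 * (x : ℝ) ^ (-(β * (1 + η)))) ≤ (x : ℝ) ^ β * (2 * (x : ℝ) ^ (-(β * (1 + η)))) :=
      mul_le_mul_of_nonneg_right (hcq.trans hqx) (by positivity)
    refine e1.trans (le_of_eq ?_)
    have e2 : (x : ℝ) ^ (-(β * η)) = (x : ℝ) ^ β * (x : ℝ) ^ (-(β * (1 + η))) := by
      rw [← Real.rpow_add hxp]
      congr 1
      ring
    rw [e2]
    ring
  -- the second part
  have p2 : μ.real ({ω | ∀ a ∈ adm W q, SR μ ℱ A (rhoW W) δ (cls W q a N₀ x) N₀ x ω < (1 - 4 * η) * Bmn W β x q} ∩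
      Gs μ ℱ A (rhoW W) δ N₀ (N₀ + x)) ≤ 4 * (x : ℝ) ^ (β * (1 - η)) / (adm W q).card + 10 * (x : ℝ) ^ (-(δ * η * β / 2)) := by
    set I : Finset (ℕ × ℕ) := (adm W q).image (fun a => (q, a)) with hI
    have hIc : I.card = (adm W q).card := Finset.card_image_of_injective _ (fun a b h => (Prod.mk.inj h).2)
    have hIne : I.Nonempty := (adm_ne W (by omega)).image _
    have key := low_gen (μ := μ) (ℱ := ℱ) hA hW (γ := β) (κ := δ) hβ0 hη0 hη1 hδ0 hδ1 hδ0 hδ1 hpar1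
      hpar2 hsm hd8 h4 hv0 (by
        have := h3 q hq hqx
        linarith only [this]) I hIne (o₁ := 0) le_rfl (by
          rintro i hi j hj hij
          obtain ⟨a, _, rfl⟩ := Finset.mem_image.1 hi
          obtain ⟨b, _, rfl⟩ := Finset.mem_image.1 hj
          have : cls W q a N₀ x ∩ cls W q b N₀ x = ∅ := by
            rw [← Finset.disjoint_iff_inter_eq_empty, Finset.disjoint_left]
            intro n hn hn'
            apply hij
            rw [(mem_cls.1 hn).2.1.symm.trans (mem_cls.1 hn').2.1]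
          show ∑ n ∈ cls W q a N₀ x ∩ cls W q b N₀ x, rhoW W n ≤ 0
          rw [this, Finset.sum_empty]) (by
          rintro i hi
          obtain ⟨a, ha, rfl⟩ := Finset.mem_image.1 hi
          obtain ⟨g1, g2⟩ := h2 q hq hqx a ha
          refine ⟨le_trans ?_ g1, g2⟩
          rw [hv]
          unfold vx
          rw [mul_div_assoc' (1 - δ)]
          apply div_le_div_of_nonneg_right _ (mul_pos hcard hlx).le
          nlinarith only [mul_pos hδ0 hxp, mul_pos (mul_pos hδ0 hδ0) hxp])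
    rw [mul_zero, mul_zero, Real.exp_zero, sub_self, mul_zero, add_zero, hIc] at key
    refine (measureReal_mono ?_ (measure_ne_top _ _)).trans key
    rintro ω ⟨g1, g2⟩
    refine ⟨fun i hi => ?_, g2⟩
    obtain ⟨a, ha, rfl⟩ := Finset.mem_image.1 hi
    refine lt_of_lt_of_le (g1 a ha) ?_
    apply mul_le_mul_of_nonneg_left _ (by linarith only [hη1])
    unfold Bmn
    apply Real.sqrt_le_sqrt
    have e1 := vx_log W (δ := δ / 2) h4 hq
    have e2 : 2 * (β * Real.log x) * v = 2 * β * (Real.log x * v) := by ring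
    rw [e2, hv, e1]
    rw [mul_div_assoc, mul_div_assoc]
    have e3 : 0 ≤ (x : ℝ) / (adm W q).card := div_nonneg hxp.le hcard.le
    have e4 : 0 ≤ β * (δ * ((x : ℝ) / (adm W q).card)) := mul_nonneg hβ0.le (mul_nonneg hδ0.le e3)
    linarith only [e4]
  have p3 : 4 * (x : ℝ) ^ (β * (1 - η)) / (adm W q).card ≤ (4 * (W / Nat.totient W)) * (x : ℝ) ^ (-(β * η) + β * η ^ 2 / 100) := by
    rw [div_le_iff₀ hcard]
    have e1 : (x : ℝ) ^ (β - β * η ^ 2 / 100) * (Nat.totient W / W) ≤ (adm W q).card :=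
      (mul_le_mul_of_nonneg_right hqx1 (by positivity)).trans hcq2
    have e2 : (x : ℝ) ^ (β * (1 - η)) = (x : ℝ) ^ (-(β * η) + β * η ^ 2 / 100) * (x : ℝ) ^ (β - β * η ^ 2 / 100) := by
      rw [← Real.rpow_add hxp]
      congr 1
      ring
    have e3 := mul_le_mul_of_nonneg_left e1 (show 0 ≤ (4 * ((W : ℝ) / Nat.totient W)) * (x : ℝ) ^ (-(β * η) + β * η ^ 2 / 100) by positivity)
    refine le_trans (le_of_eq ?_) e3
    rw [e2]
    field_simp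
  have p4 := (measureReal_union_le (μ := μ) {ω | ∃ a ∈ adm W q, (1 + 3 * η) * Bmn W β x q ≤ |SR μ ℱ A (rhoW W) δ (cls W q a N₀ x) N₀ x ω|}
    ({ω | ∀ a ∈ adm W q, SR μ ℱ A (rhoW W) δ (cls W q a N₀ x) N₀ x ω < (1 - 4 * η) * Bmn W β x q} ∩ Gs μ ℱ A (rhoW W) δ N₀ (N₀ + x)))
  show μ.real (_ ∪ _) ≤ _
  have h6' : 3 * ((4 * (W / Nat.totient W)) * (x : ℝ) ^ (-(β * η) + β * η ^ 2 / 100)) ≤ (x : ℝ) ^ (-(β * η ^ 2 / 20)) := by
    linarith only [h6]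
  linarith only [p1, p2, p3, p4, h5, h6', h7]

/-- the moduli considered -/
noncomputable def JX (β η : ℝ) (x : ℕ) : Finset ℕ :=
  (Finset.Icc 1 ⌊(x : ℝ) ^ β⌋₊).filter (fun q => (x : ℝ) ^ (β - β * η ^ 2 / 100) ≤ q)

/-- few exceptional moduli along a power grid -/
theorem few_exc (hA : ∀ n, MeasurableSet[ℱ n] (A n)) {W : ℕ} (hW : 0 < W) {β η : ℝ} (hβ0 : 0 < β) (hβ1 : β < 1)
    (hη0 : 0 < η) (hη1 : η ≤ 1 / 10) (N₀ : ℕ)
    (hN : (W : ℝ) / Nat.totient W ≤ Real.log N₀) (hN1 : 1 ≤ N₀)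
    (hsm : ∀ m, N₀ ≤ m → (1 + η / 8) * rhoW W (m + 1) ≤ (η / 8) ^ 2 / 8) {p : ℕ} (hp : 2 < p * (β * η ^ 2 / 40)) :
    ∀ᵐ ω ∂μ, ∀ᶠ k : ℕ in atTop, ∑ q ∈ JX β η (k ^ p), (Fq μ ℱ A W β η (η / 8) N₀ (k ^ p) q).indicator (fun _ => (1 : ℝ)) ω <
      ((k ^ p : ℕ) : ℝ) ^ (β - β * η ^ 2 / 40) := by
  have hp0 : 0 < p := by
    rcases Nat.eq_zero_or_pos p with h | h
    · subst h
      norm_num at hp
    · exact h
  have htp : Tendsto (fun k : ℕ => k ^ p) atTop atTop := tendsto_pow_atTop hp0.ne'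
  have h1 : ∀ᶠ k : ℕ in atTop, μ.real {ω | ((k ^ p : ℕ) : ℝ) ^ (β - β * η ^ 2 / 40) ≤
      ∑ q ∈ JX β η (k ^ p), (Fq μ ℱ A W β η (η / 8) N₀ (k ^ p) q).indicator (fun _ => (1 : ℝ)) ω} ≤ (k : ℝ) ^ (-2 : ℝ) := by
    filter_upwards [htp.eventually (Fq_le (μ := μ) (ℱ := ℱ) hA hW hβ0 hβ1 hη0 hη1 N₀ hN hN1 hsm), eventually_gt_atTop 1] with k h1 h2
    have hk : (1 : ℝ) < k := by exact_mod_cast h2
    have hk0 : (0 : ℝ) < k := by linarith only [hk]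
    set x : ℕ := k ^ p with hx
    have hxp : (0 : ℝ) < x := by
      rw [hx]
      push_cast
      positivity
    have h3 := markov_count (μ := μ) (F := fun q => Fq μ ℱ A W β η (η / 8) N₀ x q) (fun q => Fq_meas hA _ _ _ _ _ _ _) (JX β η x)
      (y := (x : ℝ) ^ (β - β * η ^ 2 / 40)) (by positivity)
    refine h3.trans ?_
    have h4 : ∀ q ∈ JX β η x, μ.real (Fq μ ℱ A W β η (η / 8) N₀ x q) ≤ (x : ℝ) ^ (-(β * η ^ 2 / 20)) := by
      intro q hq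
      obtain ⟨g1, g2⟩ := Finset.mem_filter.1 hq
      obtain ⟨g3, g4⟩ := Finset.mem_Icc.1 g1
      exact h1 q g3 g2 ((Nat.le_floor_iff (by positivity)).1 g4)
    have h5 : ∑ q ∈ JX β η x, μ.real (Fq μ ℱ A W β η (η / 8) N₀ x q) ≤ (x : ℝ) ^ β * (x : ℝ) ^ (-(β * η ^ 2 / 20)) := by
      refine (Finset.sum_le_sum h4).trans ?_
      rw [Finset.sum_const, nsmul_eq_mul]
      apply mul_le_mul_of_nonneg_right _ (by positivity)
      have g1 : (JX β η x).card ≤ ⌊(x : ℝ) ^ β⌋₊ := by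
        unfold JX
        refine (Finset.card_filter_le _ _).trans ?_
        rw [Nat.card_Icc]
        omega
      calc ((JX β η x).card : ℝ) ≤ (⌊(x : ℝ) ^ β⌋₊ : ℕ) := by exact_mod_cast g1
        _ ≤ (x : ℝ) ^ β := Nat.floor_le (by positivity)
    rw [div_le_iff₀ (by positivity)]
    refine h5.trans ?_
    have e1 : (x : ℝ) = (k : ℝ) ^ (p : ℝ) := by
      rw [hx, Real.rpow_natCast]
      push_cast
      ring
    rw [e1, ← Real.rpow_mul hk0.le, ← Real.rpow_mul hk0.le, ← Real.rpow_mul hk0.le, ← Real.rpow_add hk0, ← Real.rpow_add hk0]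
    apply Real.rpow_le_rpow_of_exponent_le hk.le
    nlinarith only [hp]
  filter_upwards [bc_real (μ := μ) (summable_pow_nat (s := -2) (by norm_num)) h1] with ω hω
  filter_upwards [hω] with k hk
  by_contra hcon
  push Not at hcon
  exact hk hcon

end Pool.Agent.R528.RM
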