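import Mathlib
import Pool.Agent.R528.RM.EH3
import Pool.Agent.R528.RM.EH5

set_option autoImplicit false
set_option linter.unusedSectionVars false
set_option linter.unusedVariables false

/-! # Deviations: the deterministic part -/

open MeasureTheory Filter Set
open scoped ENNReal Topology

namespace Pool.Agent.R528.RM

variable {Ω : Type} {m0 : MeasurableSpace Ω} {μ : Measure Ω} [IsProbabilityMeasure μ]
  {ℱ : Filtration ℕ m0} {A : ℕ → Set Ω}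

/-- the number of members of `R` -/
noncomputable def Ncl (A : ℕ → Set Ω) (R : Finset ℕ) (ω : Ω) : ℝ := ∑ n ∈ R, In A n ω

/-- the deviation of the class `a` -/
noncomputable def Dv (A : ℕ → Set Ω) (W x q a : ℕ) (ω : Ω) : ℝ :=
  Ncl A (cls W q a 0 x) ω - Ncl A (cls W 1 0 0 x) ω / (adm W q).card

/-- the largest deviation -/
noncomputable def EE (A : ℕ → Set Ω) (W x q : ℕ) (ω : Ω) : ℝ := sSup ((fun a => |Dv A W x q a ω|) '' (adm W q : Set ℕ))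

lemma EE_le {W x q : ℕ} (hq : 0 < q) {ω : Ω} {B : ℝ} (h : ∀ a ∈ adm W q, |Dv A W x q a ω| ≤ B) : EE A W x q ω ≤ B := by
  unfold EE
  apply csSup_le
  · obtain ⟨a, ha⟩ := adm_ne W hq
    exact ⟨_, ⟨a, ha, rfl⟩⟩
  · rintro y ⟨a, ha, rfl⟩
    exact h a ha

lemma le_EE {W x q a : ℕ} {ω : Ω} (ha : a ∈ adm W q) : |Dv A W x q a ω| ≤ EE A W x q ω := by
  unfold EE
  exact le_csSup (((adm W q).finite_toSet.image _).bddAbove) ⟨a, ha, rfl⟩

lemma EE_nonneg {W x q : ℕ} (hq : 0 < q) {ω : Ω} : 0 ≤ EE A W x q ω := by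
  obtain ⟨a, ha⟩ := adm_ne W hq
  exact (abs_nonneg _).trans (le_EE ha)

lemma CS_eq (R : Finset ℕ) (ω : Ω) : CS μ ℱ A R ω = Ncl A R ω - VS μ ℱ A R ω := by
  unfold CS Ncl VS
  rw [Finset.sum_sub_distrib]

lemma Dv_CS {W : ℕ} (hW : 0 < W) {ω : Ω} (h01 : ∀ n, 0 ≤ dens μ ℱ A n ω ∧ dens μ ℱ A n ω ≤ 1)
    (hm : ∀ m n, m ≤ n → Nat.Coprime (m + 1) W → Nat.Coprime (n + 1) W → dens μ ℱ A n ω ≤ dens μ ℱ A m ω)
    {q a : ℕ} (hq : 0 < q) (ha : a ∈ adm W q) (x : ℕ) :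
    |Dv A W x q a ω - CS μ ℱ A (cls W q a 0 x) ω| ≤ |CS μ ℱ A (cls W 1 0 0 x) ω| / (adm W q).card + 4 * W := by
  have h1 := mono_classes (W := W) (d := fun n => dens μ ℱ A n ω) hW h01 hm hq ha x
  have h2 : Dv A W x q a ω - CS μ ℱ A (cls W q a 0 x) ω =
      (VS μ ℱ A (cls W q a 0 x) ω - VS μ ℱ A (cls W 1 0 0 x) ω / (adm W q).card) - CS μ ℱ A (cls W 1 0 0 x) ω / (adm W q).card := by
    unfold Dv
    rw [CS_eq, CS_eq]
    ring
  rw [h2]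
  have h3 : |VS μ ℱ A (cls W q a 0 x) ω - VS μ ℱ A (cls W 1 0 0 x) ω / (adm W q).card| ≤ 4 * W := h1
  have h4 : |CS μ ℱ A (cls W 1 0 0 x) ω / (adm W q).card| = |CS μ ℱ A (cls W 1 0 0 x) ω| / (adm W q).card := by
    rw [abs_div, Nat.abs_cast]
  have h5 := abs_sub (VS μ ℱ A (cls W q a 0 x) ω - VS μ ℱ A (cls W 1 0 0 x) ω / (adm W q).card) (CS μ ℱ A (cls W 1 0 0 x) ω / (adm W q).card)
  rw [h4] at h5
  linarith only [h3, h5]

lemma SR_CS {ρ : ℕ → ℝ} {δ : ℝ} {N M : ℕ} {R : Finset ℕ} (hR : ∀ n ∈ R, N < n ∧ n ≤ N + M) {ω : Ω}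
    (hω : ω ∈ Gs μ ℱ A ρ δ N (N + M)) : SR μ ℱ A ρ δ R N M ω = CS μ ℱ A R ω := by
  unfold CS
  rw [← sum_R_eq (ρ := fun n => In A n ω - dens μ ℱ A (n - 1) ω) (N := N) R M hR]
  unfold SR
  refine Finset.sum_congr rfl fun k hk => ?_
  have hk' := Finset.mem_range.1 hk
  have h1 : ω ∈ Gs μ ℱ A ρ δ N (N + k) := fun m h1 h2 => hω m h1 (by omega)
  have h2 : gi μ ℱ A ρ δ N (N + k) ω = 1 := by unfold gi; rw [indicator_of_mem h1]
  rw [h2, one_mul]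
  split_ifs
  · rw [show N + k + 1 - 1 = N + k by omega]
  · rfl

lemma CS_trivial {W q a N : ℕ} {ω : Ω} (h01 : ∀ n, 0 ≤ dens μ ℱ A n ω ∧ dens μ ℱ A n ω ≤ 1) :
    |CS μ ℱ A (cls W q a 0 N) ω| ≤ N := by
  unfold CS
  refine (Finset.abs_sum_le_sum_abs _ _).trans ?_
  have h1 : ∀ n ∈ cls W q a 0 N, |In A n ω - dens μ ℱ A (n - 1) ω| ≤ 1 := by
    intro n _
    obtain ⟨g1, g2⟩ := h01 (n - 1)
    have g3 := In_nonneg (A := A) n ω
    have g4 := In_le (A := A) n ω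
    rw [abs_le]
    constructor <;> linarith only [g1, g2, g3, g4]
  refine (Finset.sum_le_sum h1).trans ?_
  rw [Finset.sum_const, nsmul_eq_mul, mul_one]
  have h2 : (cls W q a 0 N).card ≤ N := by
    unfold cls
    refine (Finset.card_filter_le _ _).trans ?_
    rw [Nat.card_Ioc]
    omega
  exact_mod_cast h2

lemma CS_split {W q a s r t : ℕ} (h1 : s ≤ r) (h2 : r ≤ t) (ω : Ω) :
    CS μ ℱ A (cls W q a s t) ω = CS μ ℱ A (cls W q a s r) ω + CS μ ℱ A (cls W q a r t) ω := cls_sum h1 h2 _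

/-! ### numerical lemmas -/

lemma sum_inv_sqrt (Y : ℕ) : ∑ q ∈ Finset.Icc 1 Y, 1 / √(q : ℝ) ≤ 2 * √(Y : ℝ) := by
  induction Y with
  | zero => simp
  | succ Y ih =>
    rw [Finset.sum_Icc_succ_top (by omega)]
    have h1 : (0 : ℝ) < ((Y + 1 : ℕ) : ℝ) := by positivity
    have h2 : 0 < √((Y + 1 : ℕ) : ℝ) := Real.sqrt_pos.2 h1
    have h3 := Real.sq_sqrt h1.le
    have h4 := Real.sq_sqrt (Nat.cast_nonneg (α := ℝ) Y)
    have h5 : 0 ≤ √(Y : ℝ) := Real.sqrt_nonneg _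
    have h6 : 1 / √((Y + 1 : ℕ) : ℝ) ≤ 2 * √((Y + 1 : ℕ) : ℝ) - 2 * √(Y : ℝ) := by
      rw [div_le_iff₀ h2]
      push_cast at h3 ⊢
      nlinarith only [h3, h4, sq_nonneg (√((Y : ℝ) + 1) - √(Y : ℝ))]
    linarith only [ih, h6]

lemma num1 {β : ℝ} (hβ1 : β < 1) (C : ℝ) : ∀ᶠ x : ℕ in atTop, ∀ q : ℕ, 1 ≤ q → (q : ℝ) ≤ (x : ℝ) ^ β →
    C * (Real.log x + 1) ≤ √((x : ℝ) / q) := by
  filter_upwards [ev_pow (a := 0) (b := (1 - β) / 2) (by linarith) C, eventually_gt_atTop 1] with x h1 h2 q hq hqx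
  have hx : (0 : ℝ) < x := by exact_mod_cast (by omega : 0 < x)
  have hq' : (0 : ℝ) < q := by exact_mod_cast (by omega : 0 < q)
  rw [Real.rpow_zero, mul_one] at h1
  refine h1.trans ?_
  apply Real.le_sqrt_of_sq_le
  rw [← Real.rpow_natCast, ← Real.rpow_mul hx.le, le_div_iff₀ hq']
  have e1 : (1 - β) / 2 * ((2 : ℕ) : ℝ) = 1 - β := by push_cast; ring
  rw [e1]
  calc (x : ℝ) ^ (1 - β) * q ≤ (x : ℝ) ^ (1 - β) * (x : ℝ) ^ β := mul_le_mul_of_nonneg_left hqx (by positivity)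
    _ = x := by rw [← Real.rpow_add hx]; simp

lemma num2 {b : ℝ} (hb : 0 < b) (C : ℝ) : ∀ᶠ x : ℕ in atTop, ∀ q : ℕ, (x : ℝ) ^ b ≤ q → C ≤ √(q : ℝ) := by
  filter_upwards [ev_le_pow (a := 0) (b := b / 2) (C := C) (by linarith), eventually_gt_atTop 1] with x h1 h2 q hq
  have hx : (0 : ℝ) < x := by exact_mod_cast (by omega : 0 < x)
  rw [Real.rpow_zero, mul_one] at h1
  refine h1.trans ?_
  apply Real.le_sqrt_of_sq_le
  rw [← Real.rpow_natCast, ← Real.rpow_mul hx.le]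
  have e1 : b / 2 * ((2 : ℕ) : ℝ) = b := by push_cast; ring
  rw [e1]
  exact hq

lemma Bmn_ge {W : ℕ} {β : ℝ} (hβ : 0 ≤ β) {x q : ℕ} (hq : 1 ≤ q) : √(2 * β) * √((x : ℝ) / q) ≤ Bmn W β x q := by
  unfold Bmn
  rw [← Real.sqrt_mul (by positivity)]
  apply Real.sqrt_le_sqrt
  have hcard := adm_pos W (q := q) (by omega)
  have hq' : (0 : ℝ) < q := by exact_mod_cast (by omega : 0 < q)
  rw [mul_div_assoc']
  apply div_le_div_of_nonneg_left (by positivity) hcard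
  exact_mod_cast adm_card_le

lemma adm_inv {W q : ℕ} (hW : 0 < W) (hq : 1 ≤ q) : 1 / ((adm W q).card : ℝ) ≤ W / q := by
  have hcard := adm_pos W (q := q) (by omega)
  have hq' : (0 : ℝ) < q := by exact_mod_cast (by omega : 0 < q)
  have hW' : (0 : ℝ) < W := by exact_mod_cast hW
  have hφ : (1 : ℝ) ≤ Nat.totient W := by exact_mod_cast Nat.totient_pos.2 hW
  have h1 := adm_ge hW (q := q) (by omega)
  rw [div_le_div_iff₀ hcard hq', one_mul]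
  have h2 : (q : ℝ) * (Nat.totient W / W) * W ≤ (adm W q).card * W := mul_le_mul_of_nonneg_right h1 hW'.le
  have h3 : (q : ℝ) * (Nat.totient W / W) * W = q * Nat.totient W := by field_simp
  rw [h3] at h2
  nlinarith only [h2, hφ, hq']

lemma Bmn_le {W : ℕ} (hW : 0 < W) {β : ℝ} (hβ : 0 ≤ β) (hβ1 : β ≤ 1) {x q : ℕ} (hq : 1 ≤ q) :
    Bmn W β x q ≤ 2 * W * √((x : ℝ) / q) := by
  unfold Bmn
  have hW' : (1 : ℝ) ≤ W := by exact_mod_cast hW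
  have hq' : (0 : ℝ) < q := by exact_mod_cast (by omega : 0 < q)
  have h1 := adm_inv hW hq
  apply Real.sqrt_le_iff.2
  refine ⟨by positivity, ?_⟩
  rw [mul_pow, Real.sq_sqrt (by positivity)]
  have hx : (0 : ℝ) ≤ x := Nat.cast_nonneg _
  have h2 : 2 * β * x / ((adm W q).card : ℝ) = (2 * β * x) * (1 / (adm W q).card) := by ring
  rw [h2]
  have h3 : (2 * β * (x : ℝ)) * (1 / (adm W q).card) ≤ (2 * 1 * x) * (W / q) := by
    apply mul_le_mul _ h1 (by positivity) (by positivity)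
    nlinarith only [hx, hβ1]
  refine h3.trans ?_
  have h4 : (2 * (W : ℝ)) ^ 2 * (x / q) = (4 * W) * (W * (x / q)) := by ring
  have h5 : 2 * 1 * (x : ℝ) * (W / q) = 2 * (W * (x / q)) := by ring
  rw [h4, h5]
  apply mul_le_mul_of_nonneg_right (by linarith only [hW']) (by positivity)

lemma Bmn_scale {W : ℕ} {β : ℝ} (hβ : 0 ≤ β) {x X q : ℕ} {τ : ℝ} (hτ : 0 ≤ τ) (h1 : x ≤ X) (h2 : (X : ℝ) ≤ (1 + τ) * x) :
    Bmn W β x q ≤ Bmn W β X q ∧ Bmn W β X q ≤ (1 + τ) * Bmn W β x q := by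
  unfold Bmn
  have h1' : (x : ℝ) ≤ X := by exact_mod_cast h1
  constructor
  · apply Real.sqrt_le_sqrt
    apply div_le_div_of_nonneg_right _ (Nat.cast_nonneg _)
    exact mul_le_mul_of_nonneg_left h1' (by positivity)
  · apply Real.sqrt_le_iff.2
    refine ⟨mul_nonneg (by linarith) (Real.sqrt_nonneg _), ?_⟩
    rw [mul_pow, Real.sq_sqrt (by positivity)]
    have e1 : 2 * β * (X : ℝ) / (adm W q).card ≤ 2 * β * ((1 + τ) * x) / (adm W q).card := by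
      apply div_le_div_of_nonneg_right _ (Nat.cast_nonneg _)
      exact mul_le_mul_of_nonneg_left h2 (by positivity)
    refine e1.trans ?_
    have e2 : 2 * β * ((1 + τ) * (x : ℝ)) / (adm W q).card = (1 + τ) * (2 * β * x / (adm W q).card) := by ring
    rw [e2]
    apply mul_le_mul_of_nonneg_right _ (by positivity)
    nlinarith only [hτ]

/-! ### the grid -/

/-- index of the grid point -/
noncomputable def kg (p : ℕ) (j : ℕ) : ℕ := ⌈(j : ℝ) ^ ((p : ℝ)⁻¹)⌉₊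

/-- the grid point above `j` -/
noncomputable def tg (p : ℕ) (j : ℕ) : ℕ := (kg p j) ^ p

lemma le_tg {p : ℕ} (hp : 0 < p) (j : ℕ) : j ≤ tg p j := by
  have h1 : (j : ℝ) ^ ((p : ℝ)⁻¹) ≤ kg p j := Nat.le_ceil _
  have h2 : ((j : ℝ) ^ ((p : ℝ)⁻¹)) ^ p ≤ (kg p j : ℝ) ^ p := pow_le_pow_left₀ (by positivity) h1 p
  rw [← Real.rpow_natCast, ← Real.rpow_mul (Nat.cast_nonneg _), inv_mul_cancel₀ (by exact_mod_cast hp.ne'), Real.rpow_one] at h2
  unfold tg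
  exact_mod_cast h2

lemma tendsto_kg {p : ℕ} (hp : 0 < p) : Tendsto (kg p) atTop atTop := by
  unfold kg
  have hp' : (0 : ℝ) < (p : ℝ)⁻¹ := by positivity
  exact tendsto_nat_ceil_atTop.comp ((tendsto_rpow_atTop hp').comp tendsto_natCast_atTop_atTop)

lemma tg_ratio {p : ℕ} (hp : 0 < p) {τ : ℝ} (hτ : 0 < τ) : ∀ᶠ j : ℕ in atTop, (tg p j : ℝ) ≤ (1 + τ) * j := by
  have hp' : (0 : ℝ) < (p : ℝ)⁻¹ := by positivity
  have h1 : Tendsto (fun j : ℕ => (1 + (j : ℝ) ^ (-(p : ℝ)⁻¹)) ^ p) atTop (𝓝 ((1 + 0) ^ p)) :=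
    (tendsto_const_nhds.add ((tendsto_rpow_neg_atTop hp').comp tendsto_natCast_atTop_atTop)).pow p
  rw [add_zero, one_pow] at h1
  filter_upwards [h1.eventually_lt_const (show (1 : ℝ) < 1 + τ by linarith), eventually_gt_atTop 0] with j h2 h3
  have hj : (0 : ℝ) < j := by exact_mod_cast h3
  have hpos : 0 < (j : ℝ) ^ ((p : ℝ)⁻¹) := Real.rpow_pos_of_pos hj _
  have h4 : (kg p j : ℝ) ≤ (j : ℝ) ^ ((p : ℝ)⁻¹) + 1 := (Nat.ceil_lt_add_one hpos.le).le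
  have h5 : (j : ℝ) ^ ((p : ℝ)⁻¹) + 1 = (j : ℝ) ^ ((p : ℝ)⁻¹) * (1 + (j : ℝ) ^ (-(p : ℝ)⁻¹)) := by
    rw [mul_add, mul_one, ← Real.rpow_add hj, add_neg_cancel, Real.rpow_zero]
  rw [h5] at h4
  have h6 := pow_le_pow_left₀ (Nat.cast_nonneg _) h4 p
  rw [mul_pow, ← Real.rpow_natCast ((j : ℝ) ^ ((p : ℝ)⁻¹)) p, ← Real.rpow_mul hj.le, inv_mul_cancel₀ (by exact_mod_cast hp.ne'), Real.rpow_one] at h6
  unfold tg
  push_cast
  refine h6.trans ?_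
  rw [mul_comm]
  exact mul_le_mul_of_nonneg_right h2.le hj.le

/-! ### the deviations -/

/-- the bounds available for almost every path -/
structure Good (μ : Measure Ω) (ℱ : Filtration ℕ m0) (A : ℕ → Set Ω) (W p : ℕ) (ω : Ω) : Prop where
  h01 : ∀ n, 0 ≤ dens μ ℱ A n ω ∧ dens μ ℱ A n ω ≤ 1
  hm : ∀ m n, m ≤ n → Nat.Coprime (m + 1) W → Nat.Coprime (n + 1) W → dens μ ℱ A n ω ≤ dens μ ℱ A m ω
  ub0 : ∀ᶠ j : ℕ in atTop, ∀ q : ℕ, 1 ≤ q → q ≤ j → ∀ a, a < q →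
      |CS μ ℱ A (cls W q a 0 j) ω| ≤ (16 * (W : ℝ) + 10) * (√((j : ℝ) / q) + Real.log j)
  ub1 : ∀ᶠ j : ℕ in atTop, ∀ q : ℕ, 1 ≤ q → q ≤ j → ∀ a, a < q →
      |CS μ ℱ A (cls W q a j (tg p j)) ω| ≤ (16 * (W : ℝ) + 10) * (√(((tg p j : ℝ) - j) / q) + Real.log j)

lemma good_ae (hA : ∀ n, MeasurableSet[ℱ n] (A n)) {W : ℕ} (hW : 0 < W)
    (hd : ∀ᵐ ω ∂μ, ∀ ε : ℝ, 0 < ε → ∀ᶠ n : ℕ in atTop, |dens μ ℱ A n ω - rhoW W (n + 1)| ≤ ε * rhoW W (n + 1))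
    (hmono : ∀ᵐ ω ∂μ, ∀ m n, m ≤ n → Nat.Coprime (m + 1) W → Nat.Coprime (n + 1) W → dens μ ℱ A n ω ≤ dens μ ℱ A m ω)
    {p : ℕ} (hp : 0 < p) : ∀ᵐ ω ∂μ, Good μ ℱ A W p ω := by
  have h01 : ∀ᵐ ω ∂μ, ∀ n, 0 ≤ dens μ ℱ A n ω ∧ dens μ ℱ A n ω ≤ 1 := ae_all_iff.2 fun n => dens01 hA n
  have h1 := UB (μ := μ) (ℱ := ℱ) hA hW hd (fun _ => 0) (fun j => j) (fun j => Nat.zero_le _) (fun j => le_rfl) (fun j => Or.inl rfl)
  have h2 := UB (μ := μ) (ℱ := ℱ) hA hW hd (fun j => j) (fun j => tg p j) (fun j => le_tg hp j) (fun j => le_tg hp j) (fun j => by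
    rcases Nat.eq_zero_or_pos j with h | h
    · exact Or.inl h
    · right
      rw [Real.sqrt_le_left (Nat.cast_nonneg _)]
      have : (1 : ℝ) ≤ j := by exact_mod_cast h
      nlinarith only [this])
  filter_upwards [h01, hmono, h1, h2] with ω g1 g2 g3 g4
  refine ⟨g1, g2, ?_, g4⟩
  filter_upwards [g3] with j hj q hq hqj a ha
  have := hj q hq hqj a ha
  rwa [Nat.cast_zero, sub_zero] at this

/-- trivial bounds for all moduli -/
lemma all_q {W p : ℕ} (hW : 0 < W) {β : ℝ} (hβ0 : 0 < β) (hβ1 : β < 1) {ω : Ω} (hg : Good μ ℱ A W p ω) :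
    ∃ K : ℝ, 0 < K ∧ ∀ᶠ x : ℕ in atTop, ∀ q : ℕ, 1 ≤ q → (q : ℝ) ≤ (x : ℝ) ^ β →
      |EE A W x q ω - Bmn W β x q| ≤ K * √((x : ℝ) / q) := by
  have hW' : (1 : ℝ) ≤ W := by exact_mod_cast hW
  set K₁ : ℝ := 16 * (W : ℝ) + 10 with hK₁
  have hK₁0 : 0 < K₁ := by positivity
  refine ⟨2 * K₁ + 2 * K₁ * W + 6 * W, by positivity, ?_⟩
  filter_upwards [hg.ub0, num1 hβ1 1, eventually_gt_atTop 1, ev_log 0] with x h1 h2 h3 h4 q hq hqx
  have hx1 : (1 : ℝ) < x := by exact_mod_cast h3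
  have hq' : (1 : ℝ) ≤ q := by exact_mod_cast hq
  have hqx' : q ≤ x := by
    have : (q : ℝ) ≤ x := hqx.trans (by
      calc (x : ℝ) ^ β ≤ (x : ℝ) ^ (1 : ℝ) := Real.rpow_le_rpow_of_exponent_le hx1.le hβ1.le
        _ = x := Real.rpow_one _)
    exact_mod_cast this
  have h5 := h2 q hq hqx
  set s : ℝ := √((x : ℝ) / q) with hs
  have hs1 : 1 ≤ s := by linarith only [h5, h4]
  have hlog : Real.log x ≤ s := by linarith only [h5]
  have hcard := adm_pos W (q := q) (by omega)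
  have hinv := adm_inv hW hq
  have hsx : √(x : ℝ) / q ≤ s := by
    rw [hs, Real.sqrt_div (Nat.cast_nonneg _)]
    apply div_le_div_of_nonneg_left (Real.sqrt_nonneg _) (Real.sqrt_pos.2 (by linarith only [hq']))
    rw [Real.sqrt_le_left (by linarith only [hq'])]
    nlinarith only [hq']
  have hall : |CS μ ℱ A (cls W 1 0 0 x) ω| / (adm W q).card ≤ 2 * K₁ * W * s := by
    have g1 := h1 1 le_rfl (by omega) 0 one_pos
    rw [Nat.cast_one, div_one] at g1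
    have g2 : |CS μ ℱ A (cls W 1 0 0 x) ω| / (adm W q).card = |CS μ ℱ A (cls W 1 0 0 x) ω| * (1 / (adm W q).card) := by ring
    rw [g2]
    have g3 : |CS μ ℱ A (cls W 1 0 0 x) ω| * (1 / (adm W q).card) ≤ (K₁ * (√(x : ℝ) + Real.log x)) * (W / q) :=
      mul_le_mul g1 hinv (by positivity) (by positivity)
    have g4 : Real.log x / q ≤ s := (div_le_self h4 hq').trans hlog
    have g5 : (K₁ * (√(x : ℝ) + Real.log x)) * (W / q) = K₁ * W * (√(x : ℝ) / q + Real.log x / q) := by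
      field_simp
    rw [g5] at g3
    have g6 : K₁ * W * (√(x : ℝ) / q + Real.log x / q) ≤ K₁ * W * (s + s) :=
      mul_le_mul_of_nonneg_left (add_le_add hsx g4) (by positivity)
    linarith only [g3, g6]
  have hEE : EE A W x q ω ≤ (2 * K₁ + 2 * K₁ * W + 4 * W) * s := by
    apply EE_le (by omega)
    intro a ha
    have g1 := Dv_CS (μ := μ) (ℱ := ℱ) hW hg.h01 hg.hm (by omega) ha x
    have g2 := h1 q hq hqx' a (mem_adm.1 ha).1
    have g3 : |Dv A W x q a ω| ≤ |Dv A W x q a ω - CS μ ℱ A (cls W q a 0 x) ω| + |CS μ ℱ A (cls W q a 0 x) ω| := by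
      have := abs_add_le (Dv A W x q a ω - CS μ ℱ A (cls W q a 0 x) ω) (CS μ ℱ A (cls W q a 0 x) ω)
      rwa [sub_add_cancel] at this
    have g4 : K₁ * (s + Real.log x) ≤ K₁ * (s + s) := mul_le_mul_of_nonneg_left (by linarith only [hlog]) hK₁0.le
    have g5 : 4 * (W : ℝ) * 1 ≤ 4 * W * s := mul_le_mul_of_nonneg_left hs1 (by positivity)
    linarith only [g1, g2, g3, g4, g5, hall]
  have hE0 := EE_nonneg (A := A) (W := W) (x := x) (q := q) (by omega) (ω := ω)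
  have hB := Bmn_le hW hβ0.le hβ1.le (x := x) hq
  have hB0 : 0 ≤ Bmn W β x q := Real.sqrt_nonneg _
  have hsp : 0 ≤ s := by linarith only [hs1]
  have hK0 : 0 ≤ (2 * K₁ + 2 * K₁ * W) * s := by positivity
  rw [abs_le]
  constructor
  · nlinarith only [hB, hE0, hK0, mul_nonneg (show (0 : ℝ) ≤ W by linarith only [hW']) hsp]
  · nlinarith only [hEE, hB0, mul_nonneg (show (0 : ℝ) ≤ W by linarith only [hW']) hsp]

end Pool.Agent.R528.RM
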