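import Mathlib
import Pool.Agent.R528.RM.ERFinal
import Pool.Agent.R528.RM.Final

set_option autoImplicit false
set_option linter.unusedSectionVars false

/-! # Uniform asymptotics in all intervals of length at least `lam log²` -/

open MeasureTheory Filter Set
open scoped ENNReal Topology

namespace Pool.Agent.R528.RM

variable {Ω : Type} {m0 : MeasurableSpace Ω} {μ : Measure Ω} [IsProbabilityMeasure μ]
  {ℱ : Filtration ℕ m0} {A : ℕ → Set Ω}

lemma VF_bounds2 {δ L : ℝ} (hδ : δ ≤ 1) {n : ℕ} (hL : 1 ≤ L) (h1 : L ≤ Real.log n) (h2 : Real.log n ≤ L + 2)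
    {ω : Ω} (hω : ω ∉ VF μ ℱ A δ n) :
    (1 - δ) / (L + 2) ≤ dens μ ℱ A n ω ∧ dens μ ℱ A n ω ≤ (1 + δ) / L := by
  simp only [VF, mem_ofPred_eq, not_not] at hω
  have h3 := abs_le.1 hω
  have h4 : 0 < Real.log n := by linarith
  have h5 : 0 ≤ dens μ ℱ A n ω := by
    by_contra hcon
    push Not at hcon
    have : dens μ ℱ A n ω * Real.log n < 0 := mul_neg_of_neg_of_pos hcon h4
    linarith
  constructor
  · rw [div_le_iff₀ (by linarith)]
    nlinarith
  · rw [le_div_iff₀ (by linarith)]
    nlinarith

lemma geom_tail {y : ℝ} (hy : 0 < y) (a b : ℕ) :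
    ∑ j ∈ Finset.Ico a b, Real.exp (-(j * y)) ≤ Real.exp (-(a * y)) * (1 + 1 / y) := by
  have h1 : Real.exp (-y) < 1 := by
    rw [Real.exp_lt_one_iff]
    linarith
  have h2 : ∀ j : ℕ, Real.exp (-(j * y)) = Real.exp (-y) ^ j := by
    intro j
    rw [← Real.exp_nat_mul]
    congr 1
    ring
  simp_rw [h2]
  have h3 : 1 / (1 - Real.exp (-y)) ≤ 1 + 1 / y := by
    have h4 : Real.exp (-y) * (1 + y) ≤ 1 := by
      have := Real.add_one_le_exp y
      calc Real.exp (-y) * (1 + y) ≤ Real.exp (-y) * Real.exp y :=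
            mul_le_mul_of_nonneg_left (by linarith) (Real.exp_pos _).le
        _ = 1 := by rw [← Real.exp_add, neg_add_cancel, Real.exp_zero]
    rw [div_le_iff₀ (by linarith)]
    have h5 : (1 + 1 / y) * (1 - Real.exp (-y)) = 1 + (1 - Real.exp (-y) * (1 + y)) / y := by
      field_simp
      ring
    rw [h5]
    have : 0 ≤ (1 - Real.exp (-y) * (1 + y)) / y := div_nonneg (by linarith) hy.le
    linarith
  have h4 : ∑ j ∈ Finset.Ico a b, Real.exp (-y) ^ j ≤ Real.exp (-y) ^ a / (1 - Real.exp (-y)) := by
    rcases Nat.le_total a b with h | h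
    · have h5 := geom_sum_Ico' (x := Real.exp (-y)) h1.ne h
      rw [h5]
      apply div_le_div_of_nonneg_right _ (by linarith)
      have := pow_nonneg (Real.exp_pos (-y)).le b
      linarith
    · rw [Finset.Ico_eq_empty_of_le h, Finset.sum_empty]
      exact div_nonneg (pow_nonneg (Real.exp_pos _).le _) (by linarith)
  refine h4.trans ?_
  rw [div_eq_mul_one_div]
  exact mul_le_mul_of_nonneg_left h3 (pow_nonneg (Real.exp_pos _).le _)

/-- uniform tail bound over all window lengths between `lam log²` and `2 x` -/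
theorem uni_tail (hA : ∀ n, MeasurableSet[ℱ n] (A n))
    (hd : ∀ᵐ ω ∂μ, Tendsto (fun n : ℕ => dens μ ℱ A n ω * Real.log n) atTop (𝓝 1))
    {lam s : ℝ} (hlam : 0 < lam) (hs : 0 < s) (hI : 1 < lam * II s) (S : ℕ → ℕ → Set ℕ)
    (hS : ∀ x j : ℕ, ∀ k ∈ S x j, s ^ (s * j / Real.log x) ≤ s ^ k) :
    ∀ᵐ ω ∂μ, ∀ᶠ x : ℕ in atTop, ∀ j, wl lam x ≤ j → j ≤ 2 * x → cnt A x j ω ∉ S x j := by
  -- choose `δ`
  obtain ⟨δ, hδ0, hδ1, hδ⟩ : ∃ δ : ℝ, 0 < δ ∧ δ ≤ 1 ∧ 1 < lam * (II s - 2 * δ * (s + 1)) := by
    have hgap : 0 < lam * II s - 1 := by linarith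
    refine ⟨min 1 ((lam * II s - 1) / (4 * lam * (s + 1))), lt_min one_pos (by positivity), min_le_left _ _, ?_⟩
    have h1 : min 1 ((lam * II s - 1) / (4 * lam * (s + 1))) ≤ (lam * II s - 1) / (4 * lam * (s + 1)) := min_le_right _ _
    have h2 : lam * (2 * min 1 ((lam * II s - 1) / (4 * lam * (s + 1))) * (s + 1)) ≤
        lam * (2 * ((lam * II s - 1) / (4 * lam * (s + 1))) * (s + 1)) :=
      mul_le_mul_of_nonneg_left (mul_le_mul_of_nonneg_right (by linarith) (by linarith)) hlam.le
    have h3 : lam * (2 * ((lam * II s - 1) / (4 * lam * (s + 1))) * (s + 1)) = (lam * II s - 1) / 2 := by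
      field_simp
      ring
    rw [mul_sub]
    linarith
  set β : ℝ := II s - 2 * δ * (s + 1) with hβ
  have hβ0 : 0 < β := by
    by_contra hcon
    push Not at hcon
    nlinarith
  set V := VF μ ℱ A δ with hVd
  obtain ⟨p, hp1, hp2⟩ : ∃ p : ℝ, 1 < p ∧ p < lam * β := exists_between hδ
  -- eventual facts
  have hlog1 : ∀ᶠ x : ℕ in atTop, 1 ≤ Real.log x := tendsto_log.eventually_ge_atTop 1
  have hlog2 : ∀ᶠ x : ℕ in atTop, 2 / (δ * (s + 1)) ≤ Real.log x := tendsto_log.eventually_ge_atTop _
  have hlogp : ∀ᶠ x : ℕ in atTop, Real.exp β * (1 + Real.log x / β) ≤ (x : ℝ) ^ (lam * β - p) := by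
    have h1 : ∀ᶠ x : ℝ in atTop, Real.exp β * (1 + Real.log x / β) ≤ x ^ (lam * β - p) := by
      have h2 := (isLittleO_log_rpow_atTop (show (0 : ℝ) < lam * β - p by linarith)).def
        (show (0 : ℝ) < 1 / (Real.exp β * (1 + 1 / β)) by positivity)
      filter_upwards [h2, Real.tendsto_log_atTop.eventually_ge_atTop 1, eventually_gt_atTop 0] with x h3 h4 h5
      rw [Real.norm_of_nonneg (by linarith), Real.norm_of_nonneg (Real.rpow_nonneg h5.le _)] at h3
      have h6 : 1 + Real.log x / β ≤ (1 + 1 / β) * Real.log x := by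
        have : (1 + 1 / β) * Real.log x = Real.log x + Real.log x / β := by ring
        linarith
      calc Real.exp β * (1 + Real.log x / β) ≤ Real.exp β * ((1 + 1 / β) * Real.log x) :=
            mul_le_mul_of_nonneg_left h6 (Real.exp_pos _).le
        _ = (Real.exp β * (1 + 1 / β)) * Real.log x := by ring
        _ ≤ (Real.exp β * (1 + 1 / β)) * (1 / (Real.exp β * (1 + 1 / β)) * x ^ (lam * β - p)) :=
            mul_le_mul_of_nonneg_left h3 (by positivity)
        _ = x ^ (lam * β - p) := by field_simp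
    exact tendsto_natCast_atTop_atTop.eventually h1
  set E : ℕ → Set Ω := fun x => ⋃ j ∈ Finset.Ico (wl lam x) (2 * x + 1), ({ω | cnt A x j ω ∈ S x j} \ WV V x j) with hE
  have hprob : ∀ᶠ x : ℕ in atTop, μ.real (E x) ≤ 1 / (x : ℝ) ^ p := by
    filter_upwards [eventually_ge_atTop 2, hlog1, hlog2, hlogp] with x hx2 hL1 hL2 hLp
    obtain ⟨L, hL⟩ : ∃ L, L = Real.log (x : ℝ) := ⟨_, rfl⟩
    have hx0 : (0 : ℝ) < x := by
      have : 0 < x := by omega
      exact_mod_cast this
    rw [← hL] at hL1 hL2 hLp
    have hL0 : 0 < L := by linarith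
    have hδs : 2 / L ≤ δ * (s + 1) := by
      rw [div_le_iff₀ (by positivity)] at hL2
      rw [div_le_iff₀ hL0]
      linarith
    have hone : ∀ j ∈ Finset.Ico (wl lam x) (2 * x + 1), μ.real ({ω | cnt A x j ω ∈ S x j} \ WV V x j) ≤
        Real.exp (-(j * (β / L))) := by
      intro j hj
      have hj := Finset.mem_Ico.1 hj
      have h1 := tail (μ := μ) hA (V := V) (fun n => VF_meas δ n) (l := (1 - δ) / (L + 2)) (u := (1 + δ) / L)
        (by rw [div_le_one (by linarith)]; linarith) (by positivity) x j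
        (fun n hn1 hn2 ω hω => by
          have h2 : L ≤ Real.log n := by
            rw [hL]
            exact Real.log_le_log hx0 (by exact_mod_cast hn1)
          have h3 : Real.log n ≤ L + 2 := by
            have h4 : (n : ℝ) ≤ 3 * x := by
              have : n ≤ 3 * x := by omega
              exact_mod_cast this
            have h5 : (0 : ℝ) < n := lt_of_lt_of_le hx0 (by exact_mod_cast hn1)
            have h6 := Real.log_le_log h5 h4
            rw [Real.log_mul (by norm_num) hx0.ne'] at h6
            have h7 : Real.log 3 ≤ 2 := by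
              have := Real.log_le_sub_one_of_pos (show (0 : ℝ) < 3 by norm_num)
              linarith
            rw [hL]
            linarith
          exact VF_bounds2 hδ1 hL1 h2 h3 hω) hs (S x j) (hS x j)
      refine h1.trans ?_
      rw [← Real.exp_add]
      apply Real.exp_le_exp.2
      rw [← hL]
      have h2 : (1 - δ) / (L + 2) ≥ (1 - δ) * (1 / L - 2 / L ^ 2) := by
        have h3 : 1 / L - 2 / L ^ 2 ≤ 1 / (L + 2) := by
          rw [div_sub_div _ _ hL0.ne' (by positivity), div_le_div_iff₀ (by positivity) (by positivity)]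
          nlinarith
        have h4 : (1 - δ) / (L + 2) = (1 - δ) * (1 / (L + 2)) := by ring
        rw [h4]
        exact mul_le_mul_of_nonneg_left h3 (by linarith)
      have h3 : (j : ℝ) * (s * ((1 + δ) / L) - (1 - δ) / (L + 2)) ≤
          j * (s * ((1 + δ) / L) - (1 - δ) * (1 / L - 2 / L ^ 2)) :=
        mul_le_mul_of_nonneg_left (by linarith) (Nat.cast_nonneg _)
      have h4 : -(s * j / L * Real.log s) + j * (s * ((1 + δ) / L) - (1 - δ) * (1 / L - 2 / L ^ 2)) =
          -(j / L * (II s - δ * (s + 1) - (1 - δ) * (2 / L))) := by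
        unfold II
        field_simp
        ring
      have h5 : β ≤ II s - δ * (s + 1) - (1 - δ) * (2 / L) := by
        have h6 : (1 - δ) * (2 / L) ≤ 2 / L := by
          have : 0 < 2 / L := by positivity
          nlinarith
        rw [hβ]
        linarith
      have h6 : (j : ℝ) * (β / L) ≤ j / L * (II s - δ * (s + 1) - (1 - δ) * (2 / L)) := by
        have : (j : ℝ) * (β / L) = j / L * β := by ring
        rw [this]
        exact mul_le_mul_of_nonneg_left h5 (by positivity)
      linarith
    have h1 : μ.real (E x) ≤ Real.exp (-((wl lam x : ℕ) * (β / L))) * (1 + 1 / (β / L)) :=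
      (measureReal_biUnion_finset_le _ _).trans ((Finset.sum_le_sum hone).trans (geom_tail (by positivity) _ _))
    refine h1.trans ?_
    have h2 : lam * L ^ 2 - 1 ≤ (wl lam x : ℕ) := by
      unfold wl
      rw [hL]
      exact (Nat.sub_one_lt_floor _).le
    have h3 : Real.exp (-((wl lam x : ℕ) * (β / L))) ≤ Real.exp β * Real.exp (-(lam * β * L)) := by
      rw [← Real.exp_add]
      apply Real.exp_le_exp.2
      have h4 : (lam * L ^ 2 - 1) * (β / L) ≤ (wl lam x : ℕ) * (β / L) := mul_le_mul_of_nonneg_right h2 (by positivity)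
      have h5 : (lam * L ^ 2 - 1) * (β / L) = lam * β * L - β / L := by
        field_simp
      have h6 : β / L ≤ β := div_le_self hβ0.le hL1
      linarith
    have h4 : (1 : ℝ) + 1 / (β / L) = 1 + L / β := by
      rw [one_div_div]
    rw [h4]
    have h5 : Real.exp (-(lam * β * L)) = (x : ℝ) ^ (-(lam * β)) := by
      rw [Real.rpow_def_of_pos hx0, ← hL]
      congr 1
      ring
    calc Real.exp (-((wl lam x : ℕ) * (β / L))) * (1 + L / β)
        ≤ (Real.exp β * Real.exp (-(lam * β * L))) * (1 + L / β) := mul_le_mul_of_nonneg_right h3 (by positivity)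
      _ = (Real.exp β * (1 + L / β)) * (x : ℝ) ^ (-(lam * β)) := by rw [h5]; ring
      _ ≤ (x : ℝ) ^ (lam * β - p) * (x : ℝ) ^ (-(lam * β)) := mul_le_mul_of_nonneg_right hLp (Real.rpow_nonneg hx0.le _)
      _ = 1 / (x : ℝ) ^ p := by
        rw [← Real.rpow_add hx0, one_div, ← Real.rpow_neg hx0.le]
        congr 1
        ring
  have hsum : ∑' x : ℕ, μ (E x) ≠ ∞ := by
    have h1 : Summable (fun x : ℕ => 1 / (x : ℝ) ^ p) := Real.summable_one_div_nat_rpow.2 hp1
    have h2 : Summable (fun x : ℕ => μ.real (E x)) := by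
      refine Summable.of_norm_bounded_eventually_nat h1 ?_
      filter_upwards [hprob] with x hx
      rw [Real.norm_of_nonneg measureReal_nonneg]
      exact hx
    have h3 : ∑' x : ℕ, μ (E x) = ENNReal.ofReal (∑' x : ℕ, μ.real (E x)) := by
      rw [ENNReal.ofReal_tsum_of_nonneg (fun _ => measureReal_nonneg) h2]
      congr 1
      funext i
      exact (ofReal_measureReal (measure_ne_top _ _)).symm
    rw [h3]
    exact ENNReal.ofReal_ne_top
  filter_upwards [ae_eventually_notMem hsum, hd] with ω h1 h2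
  obtain ⟨n₀, hn₀⟩ := no_VF h2 hδ0
  filter_upwards [h1, eventually_ge_atTop n₀] with x hx hxn j hj1 hj2 hmem
  apply hx
  simp only [hE, mem_iUnion]
  refine ⟨j, Finset.mem_Ico.2 ⟨hj1, by omega⟩, hmem, ?_⟩
  rintro ⟨n, hn1, _, hn3⟩
  exact hn₀ n (by omega) hn3

/-- the rate function is larger to the left of `1` -/
lemma II_left_right {t : ℝ} (ht0 : 0 ≤ t) (ht1 : t < 1) : II (1 + t) ≤ II (1 - t) := by
  have hmono : MonotoneOn (fun t : ℝ => II (1 - t) - II (1 + t)) (Set.Ico 0 1) := by
    apply monotoneOn_of_deriv_nonneg (convex_Ico 0 1)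
    · unfold II
      apply ContinuousOn.sub
      · have : Continuous (fun t : ℝ => (1 - t) * Real.log (1 - t) - (1 - t) + 1) := by
          have h1 := Real.continuous_mul_log.comp (continuous_const.sub continuous_id : Continuous (fun t : ℝ => 1 - t))
          exact (h1.sub (continuous_const.sub continuous_id)).add continuous_const
        exact this.continuousOn
      · have : Continuous (fun t : ℝ => (1 + t) * Real.log (1 + t) - (1 + t) + 1) := by
          have h1 := Real.continuous_mul_log.comp (continuous_const.add continuous_id : Continuous (fun t : ℝ => 1 + t))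
          exact (h1.sub (continuous_const.add continuous_id)).add continuous_const
        exact this.continuousOn
    · intro t ht
      rw [interior_Ico] at ht
      have h1 : (1 : ℝ) - t ≠ 0 := by linarith [ht.2]
      have h2 : (1 : ℝ) + t ≠ 0 := by linarith [ht.1]
      unfold II
      apply DifferentiableAt.differentiableWithinAt
      fun_prop (disch := assumption)
    · intro t ht
      rw [interior_Ico] at ht
      have h1 : (1 : ℝ) - t ≠ 0 := by linarith [ht.2]
      have h2 : (1 : ℝ) + t ≠ 0 := by linarith [ht.1]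
      have d1 : HasDerivAt (fun t : ℝ => (1 - t) * Real.log (1 - t) - (1 - t) + 1) (-Real.log (1 - t)) t := by
        have g1 : HasDerivAt (fun t : ℝ => 1 - t) (-1) t := by
          simpa using (hasDerivAt_id t).const_sub 1
        have g3 := ((g1.mul (g1.log h1)).sub g1).add_const 1
        have e1 : -1 * Real.log (1 - t) + (1 - t) * (-1 / (1 - t)) - -1 = -Real.log (1 - t) := by
          have : (1 - t) * (-1 / (1 - t)) = -1 := by field_simp
          rw [this]
          ring
        rw [e1] at g3
        exact g3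
      have d2 : HasDerivAt (fun t : ℝ => (1 + t) * Real.log (1 + t) - (1 + t) + 1) (Real.log (1 + t)) t := by
        have g1 : HasDerivAt (fun t : ℝ => 1 + t) 1 t := by
          simpa using (hasDerivAt_id t).const_add 1
        have g3 := ((g1.mul (g1.log h2)).sub g1).add_const 1
        have e1 : 1 * Real.log (1 + t) + (1 + t) * (1 / (1 + t)) - 1 = Real.log (1 + t) := by
          have : (1 + t) * (1 / (1 + t)) = 1 := by field_simp
          rw [this]
          ring
        rw [e1] at g3
        exact g3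
      have d3 := (d1.sub d2).deriv
      have e : deriv (fun t : ℝ => II (1 - t) - II (1 + t)) t = -Real.log (1 - t) - Real.log (1 + t) := by
        unfold II
        exact d3
      rw [e]
      have h3 : Real.log (1 - t) + Real.log (1 + t) ≤ 0 := by
        rw [← Real.log_mul h1 h2]
        apply Real.log_nonpos
        · nlinarith [ht.1, ht.2]
        · nlinarith [ht.1]
      linarith
  have h := hmono (Set.left_mem_Ico.2 one_pos) ⟨ht0, ht1⟩ ht0
  simp only [sub_zero, add_zero, sub_self] at h
  linarith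

end Pool.Agent.R528.RM
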