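import Mathlib
import Pool.Agent.R528.RM.Basic
import Pool.Agent.R528.RM.StrongLaw

set_option autoImplicit false
set_option linter.unusedSectionVars false

/-! # Counting runs of absent integers -/

open MeasureTheory Filter Set
open scoped ENNReal Topology

namespace Pool.Agent.R528.RM

variable {Ω : Type} {m0 : MeasurableSpace Ω} {μ : Measure Ω} [IsProbabilityMeasure μ]
  {ℱ : Filtration ℕ m0} {A : ℕ → Set Ω}

/-- `k + 1` is present and the next `G` integers are absent -/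
def run (A : ℕ → Set Ω) (k G : ℕ) : Set Ω :=
  {ω | ω ∈ A (k + 1) ∧ ∀ j, 1 ≤ j → j ≤ G → ω ∉ A (k + 1 + j)}

lemma run_succ (k G : ℕ) : run A k (G + 1) = run A k G \ A (k + 1 + G + 1) := by
  ext ω
  simp only [run, mem_ofPred_eq, Set.mem_sdiff]
  constructor
  · rintro ⟨h1, h2⟩
    refine ⟨⟨h1, fun j hj1 hj2 => h2 j hj1 (by omega)⟩, ?_⟩
    have := h2 (G + 1) (by omega) le_rfl
    rwa [← add_assoc] at this
  · rintro ⟨⟨h1, h2⟩, h3⟩
    refine ⟨h1, fun j hj1 hj2 => ?_⟩
    rcases Nat.lt_or_ge j (G + 1) with h | h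
    · exact h2 j hj1 (by omega)
    · have : j = G + 1 := le_antisymm hj2 h
      rw [this, ← add_assoc]
      exact h3

lemma run_zero (k : ℕ) : run A k 0 = A (k + 1) := by
  ext ω
  simp only [run, mem_ofPred_eq]
  constructor
  · exact fun h => h.1
  · exact fun h => ⟨h, fun j h1 h2 => by omega⟩

lemma run_meas (hA : ∀ n, MeasurableSet[ℱ n] (A n)) (k G : ℕ) :
    MeasurableSet[ℱ (k + 1 + G)] (run A k G) := by
  induction G with
  | zero =>
    rw [run_zero]
    exact hA (k + 1)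
  | succ G ih =>
    rw [run_succ]
    have h1 := ℱ.mono (Nat.le_succ (k + 1 + G)) _ ih
    exact MeasurableSet.diff h1 (hA (k + 1 + G + 1))

lemma run_meas0 (hA : ∀ n, MeasurableSet[ℱ n] (A n)) (k G : ℕ) : MeasurableSet (run A k G) :=
  ℱ.le _ _ (run_meas hA k G)

lemma lower_ae (hA : ∀ n, MeasurableSet[ℱ n] (A n)) (n : ℕ) {B : Set Ω}
    (hB : MeasurableSet[ℱ n] B) {l : ℝ} (hl : ∀ᵐ ω ∂μ, ω ∈ B → l ≤ dens μ ℱ A n ω) :
    l * μ.real B ≤ μ.real (B ∩ A (n + 1)) := by
  have hB' : MeasurableSet B := ℱ.le n _ hB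
  rw [← setInt_dens hA n hB]
  have h1 : ∫ ω in B, l ∂μ ≤ ∫ ω in B, dens μ ℱ A n ω ∂μ :=
    setIntegral_mono_on_ae (integrable_const l).integrableOn integrable_condExp.integrableOn hB' hl
  rw [setIntegral_const, smul_eq_mul] at h1
  linarith

lemma upper_ae (hA : ∀ n, MeasurableSet[ℱ n] (A n)) (n : ℕ) {B : Set Ω}
    (hB : MeasurableSet[ℱ n] B) {u : ℝ} (hu : ∀ᵐ ω ∂μ, ω ∈ B → dens μ ℱ A n ω ≤ u) :
    μ.real (B ∩ A (n + 1)) ≤ u * μ.real B := by
  have hB' : MeasurableSet B := ℱ.le n _ hB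
  rw [← setInt_dens hA n hB]
  have h1 : ∫ ω in B, dens μ ℱ A n ω ∂μ ≤ ∫ ω in B, u ∂μ :=
    setIntegral_mono_on_ae integrable_condExp.integrableOn (integrable_const u).integrableOn hB' hu
  rw [setIntegral_const, smul_eq_mul] at h1
  linarith

/-- bounds for the probability of a run -/
theorem run_bounds (hA : ∀ n, MeasurableSet[ℱ n] (A n)) {l u : ℝ} (hl1 : l ≤ 1) (hu1 : u ≤ 1) (k G : ℕ) {B : Set Ω}
    (hB : MeasurableSet[ℱ k] B)
    (hlu : ∀ n, k ≤ n → n ≤ k + G → ∀ᵐ ω ∂μ, ω ∈ B → l ≤ dens μ ℱ A n ω ∧ dens μ ℱ A n ω ≤ u) :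
    ∀ j ≤ G, l * (1 - u) ^ j * μ.real B ≤ μ.real (B ∩ run A k j) ∧
      μ.real (B ∩ run A k j) ≤ u * (1 - l) ^ j * μ.real B := by
  intro j
  induction j with
  | zero =>
    intro _
    rw [run_zero, pow_zero, pow_zero, mul_one, mul_one]
    have h1 := hlu k le_rfl (by omega)
    exact ⟨lower_ae hA k hB (h1.mono fun ω h hω => (h hω).1), upper_ae hA k hB (h1.mono fun ω h hω => (h hω).2)⟩
  | succ j ih =>
    intro hj
    obtain ⟨ih1, ih2⟩ := ih (by omega)
    have hC : MeasurableSet[ℱ (k + 1 + j)] (B ∩ run A k j) :=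
      MeasurableSet.inter (ℱ.mono (by omega) _ hB) (run_meas hA k j)
    have h1 := hlu (k + 1 + j) (by omega) (by omega)
    have h2 := lower_ae (μ := μ) hA (k + 1 + j) hC (l := l) (h1.mono fun ω h hω => (h hω.1).1)
    have h3 := upper_ae (μ := μ) hA (k + 1 + j) hC (u := u) (h1.mono fun ω h hω => (h hω.1).2)
    have hA' : MeasurableSet (A (k + 1 + j + 1)) := ℱ.le _ _ (hA _)
    have h4 : μ.real (B ∩ run A k (j + 1)) =
        μ.real (B ∩ run A k j) - μ.real ((B ∩ run A k j) ∩ A (k + 1 + j + 1)) := by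
      have := measureReal_inter_add_sdiff (μ := μ) (s := B ∩ run A k j) hA'
      have h5 : B ∩ run A k (j + 1) = (B ∩ run A k j) \ A (k + 1 + j + 1) := by
        rw [run_succ, inter_sdiff_assoc]
      rw [h5]
      linarith
    rw [h4, pow_succ, pow_succ]
    constructor
    · have h5 : (1 - u) * (l * (1 - u) ^ j * μ.real B) ≤ (1 - u) * μ.real (B ∩ run A k j) :=
        mul_le_mul_of_nonneg_left ih1 (by linarith)
      nlinarith
    · have h5 : (1 - l) * μ.real (B ∩ run A k j) ≤ (1 - l) * (u * (1 - l) ^ j * μ.real B) :=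
        mul_le_mul_of_nonneg_left ih2 (by linarith)
      nlinarith

/-- the conditional probability of a run -/
noncomputable def qq (μ : Measure Ω) (ℱ : Filtration ℕ m0) (A : ℕ → Set Ω) (k G : ℕ) : Ω → ℝ :=
  μ[(run A k G).indicator (fun _ => (1 : ℝ)) | ℱ k]

lemma qq_nonneg (k G : ℕ) : ∀ᵐ ω ∂μ, 0 ≤ qq μ ℱ A k G ω :=
  condExp_nonneg (Eventually.of_forall fun ω => indicator_nonneg (fun _ _ => zero_le_one) ω)

lemma ind_int (hA : ∀ n, MeasurableSet[ℱ n] (A n)) (k G : ℕ) :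
    Integrable ((run A k G).indicator (fun _ => (1 : ℝ))) μ :=
  (integrable_const _).indicator (run_meas0 hA k G)

lemma qq_le_one (hA : ∀ n, MeasurableSet[ℱ n] (A n)) (k G : ℕ) : ∀ᵐ ω ∂μ, qq μ ℱ A k G ω ≤ 1 := by
  have h1 : (run A k G).indicator (fun _ => (1 : ℝ)) ≤ᵐ[μ] fun _ => 1 :=
    Eventually.of_forall fun ω => indicator_le_self' (fun _ _ => zero_le_one) ω
  have h2 := condExp_mono (m := ℱ k) (ind_int (μ := μ) hA k G) (integrable_const (1 : ℝ)) h1
  filter_upwards [h2] with ω h2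
  rwa [condExp_const (ℱ.le k)] at h2

/-- pulling out -/
lemma pull_run (hA : ∀ n, MeasurableSet[ℱ n] (A n)) (k G : ℕ) {f : Ω → ℝ}
    (hf : StronglyMeasurable[ℱ k] f) (c : ℝ) (hfc : ∀ᵐ ω ∂μ, ‖f ω‖ ≤ c) :
    ∫ ω, f ω * (run A k G).indicator (fun _ => (1 : ℝ)) ω ∂μ = ∫ ω, f ω * qq μ ℱ A k G ω ∂μ := by
  have hg := ind_int (μ := μ) hA k G
  have h1 := condExp_stronglyMeasurable_mul_of_bound (ℱ.le k) hf hg c hfc
  have h2 := integral_condExp (μ := μ) (ℱ.le k) (f := f * (run A k G).indicator (fun _ => (1 : ℝ)))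
  have h3 : ∫ ω, f ω * (run A k G).indicator (fun _ => (1 : ℝ)) ω ∂μ =
      ∫ ω, (f * (run A k G).indicator (fun _ => (1 : ℝ))) ω ∂μ := rfl
  rw [h3, ← h2]
  exact integral_congr_ae h1

/-- the variables of the strong law -/
noncomputable def NN (A : ℕ → Set Ω) (B : ℕ → Set Ω) (G : ℕ → ℕ) (k : ℕ) (ω : Ω) : ℝ :=
  (B k).indicator (fun _ => (1 : ℝ)) ω * (run A k (G k)).indicator (fun _ => (1 : ℝ)) ω

/-- the compensators -/
noncomputable def QQ (μ : Measure Ω) (ℱ : Filtration ℕ m0) (A : ℕ → Set Ω) (B : ℕ → Set Ω) (G : ℕ → ℕ)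
    (k : ℕ) (ω : Ω) : ℝ := (B k).indicator (fun _ => (1 : ℝ)) ω * qq μ ℱ A k (G k) ω

lemma ind01 (s : Set Ω) (ω : Ω) : 0 ≤ s.indicator (fun _ => (1 : ℝ)) ω ∧ s.indicator (fun _ => (1 : ℝ)) ω ≤ 1 ∧
    s.indicator (fun _ => (1 : ℝ)) ω * s.indicator (fun _ => (1 : ℝ)) ω = s.indicator (fun _ => (1 : ℝ)) ω := by
  by_cases h : ω ∈ s
  · rw [indicator_of_mem h]; norm_num
  · rw [indicator_of_notMem h]; norm_num

lemma ind_sm {m : MeasurableSpace Ω} {s : Set Ω} (hs : MeasurableSet[m] s) :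
    StronglyMeasurable[m] (s.indicator (fun _ => (1 : ℝ))) :=
  stronglyMeasurable_const.indicator hs

theorem count_law (hA : ∀ n, MeasurableSet[ℱ n] (A n)) (B : ℕ → Set Ω) (hB : ∀ k, MeasurableSet[ℱ k] (B k))
    (G : ℕ → ℕ) (u : ℕ → ℝ) (hu0 : ∀ k, 0 ≤ u k) (hu1 : ∀ k, u k ≤ 1)
    (hU : Tendsto (fun n => ∑ k ∈ Finset.range n, u k) atTop atTop)
    (hup : ∀ k, ∀ C ⊆ B k, MeasurableSet[ℱ k] C → μ.real (C ∩ run A k (G k)) ≤ u k * μ.real C) :
    ∀ᵐ ω ∂μ, Tendsto (fun n => (∑ k ∈ Finset.range n, (NN A B G k ω - QQ μ ℱ A B G k ω)) /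
      ∑ k ∈ Finset.range n, u k) atTop (𝓝 0) := by
  have hqm : ∀ k, StronglyMeasurable[ℱ k] (qq μ ℱ A k (G k)) := fun k => stronglyMeasurable_condExp
  have hBm : ∀ k, StronglyMeasurable[ℱ k] ((B k).indicator (fun _ => (1 : ℝ))) := fun k => ind_sm (hB k)
  have hQm : ∀ k, StronglyMeasurable[ℱ k] (QQ μ ℱ A B G k) := fun k => (hBm k).mul (hqm k)
  have hq01 : ∀ k, ∀ᵐ ω ∂μ, 0 ≤ qq μ ℱ A k (G k) ω ∧ qq μ ℱ A k (G k) ω ≤ 1 := fun k => by
    filter_upwards [qq_nonneg (μ := μ) (ℱ := ℱ) (A := A) k (G k), qq_le_one (μ := μ) hA k (G k)] with ω h1 h2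
    exact ⟨h1, h2⟩
  have hQ01 : ∀ k, ∀ᵐ ω ∂μ, 0 ≤ QQ μ ℱ A B G k ω ∧ QQ μ ℱ A B G k ω ≤ 1 := by
    intro k
    filter_upwards [hq01 k] with ω h
    obtain ⟨h1, h2, _⟩ := ind01 (B k) ω
    exact ⟨mul_nonneg h1 h.1, mul_le_one₀ h2 h.1 h.2⟩
  have hN01 : ∀ k ω, 0 ≤ NN A B G k ω ∧ NN A B G k ω ≤ 1 ∧ NN A B G k ω * NN A B G k ω = NN A B G k ω := by
    intro k ω
    obtain ⟨h1, h2, h3⟩ := ind01 (B k) ω
    obtain ⟨h4, h5, h6⟩ := ind01 (run A k (G k)) ω
    refine ⟨mul_nonneg h1 h4, mul_le_one₀ h2 h4 h5, ?_⟩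
    unfold NN
    rw [mul_mul_mul_comm, h3, h6]
  have hNm : ∀ k, StronglyMeasurable[ℱ (k + 1 + G k)] (NN A B G k) := fun k =>
    ((hBm k).mono (ℱ.mono (by omega))).mul (ind_sm (run_meas hA k (G k)))
  have hNm0 : ∀ k, AEStronglyMeasurable (NN A B G k) μ := fun k => ((hNm k).mono (ℱ.le _)).aestronglyMeasurable
  have hQm0 : ∀ k, AEStronglyMeasurable (QQ μ ℱ A B G k) μ := fun k => ((hQm k).mono (ℱ.le _)).aestronglyMeasurable
  have hNi : ∀ k, Integrable (NN A B G k) μ := fun k => Integrable.of_bound (hNm0 k) 1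
    (Eventually.of_forall fun ω => by rw [Real.norm_eq_abs, abs_of_nonneg (hN01 k ω).1]; exact (hN01 k ω).2.1)
  have hQn : ∀ k, ∀ᵐ ω ∂μ, ‖QQ μ ℱ A B G k ω‖ ≤ 1 := fun k => by
    filter_upwards [hQ01 k] with ω h
    rw [Real.norm_eq_abs, abs_of_nonneg h.1]; exact h.2
  have hNn : ∀ k, ∀ᵐ ω ∂μ, ‖NN A B G k ω‖ ≤ 1 := fun k => Eventually.of_forall fun ω => by
    rw [Real.norm_eq_abs, abs_of_nonneg (hN01 k ω).1]; exact (hN01 k ω).2.1
  have hQi : ∀ k, Integrable (QQ μ ℱ A B G k) μ := fun k => Integrable.of_bound (hQm0 k) 1 (hQn k)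
  have hNNi : ∀ i j, Integrable (fun ω => NN A B G i ω * NN A B G j ω) μ := fun i j =>
    (hNi j).bdd_mul (hNm0 i) (hNn i)
  have hNQi : ∀ i j, Integrable (fun ω => NN A B G i ω * QQ μ ℱ A B G j ω) μ := fun i j =>
    (hQi j).bdd_mul (hNm0 i) (hNn i)
  have hQNi : ∀ i j, Integrable (fun ω => QQ μ ℱ A B G i ω * NN A B G j ω) μ := fun i j =>
    (hNi j).bdd_mul (hQm0 i) (hQn i)
  have hQQi : ∀ i j, Integrable (fun ω => QQ μ ℱ A B G i ω * QQ μ ℱ A B G j ω) μ := fun i j =>
    (hQi j).bdd_mul (hQm0 i) (hQn i)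
  -- the pull out property for `N`
  have hpull : ∀ k, ∀ f : Ω → ℝ, StronglyMeasurable[ℱ k] f → (∀ᵐ ω ∂μ, ‖f ω‖ ≤ 1) →
      ∫ ω, f ω * NN A B G k ω ∂μ = ∫ ω, f ω * QQ μ ℱ A B G k ω ∂μ := by
    intro k f hf hfc
    have h1 := pull_run (μ := μ) hA k (G k) (f := fun ω => f ω * (B k).indicator (fun _ => (1 : ℝ)) ω)
      (hf.mul (hBm k)) 1 (by
        filter_upwards [hfc] with ω h
        rw [norm_mul]
        obtain ⟨h1, h2, _⟩ := ind01 (B k) ω
        exact mul_le_one₀ h (norm_nonneg _) (by rw [Real.norm_eq_abs, abs_of_nonneg h1]; exact h2))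
    calc ∫ ω, f ω * NN A B G k ω ∂μ = ∫ ω, f ω * (B k).indicator (fun _ => (1 : ℝ)) ω *
          (run A k (G k)).indicator (fun _ => (1 : ℝ)) ω ∂μ := by
          congr 1; funext ω; unfold NN; ring
      _ = ∫ ω, f ω * (B k).indicator (fun _ => (1 : ℝ)) ω * qq μ ℱ A k (G k) ω ∂μ := h1
      _ = _ := by congr 1; funext ω; unfold QQ; ring
  have hdisj : ∀ i j ω, i < j → j < i + 1 + G i → NN A B G i ω * NN A B G j ω = 0 := by
    intro i j ω h1 h2
    by_cases h : ω ∈ run A i (G i)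
    · have h3 : ω ∉ run A j (G j) := by
        intro h4
        have h5 := h.2 (j - i) (by omega) (by omega)
        have h6 : i + 1 + (j - i) = j + 1 := by omega
        rw [h6] at h5
        exact h5 h4.1
      unfold NN
      rw [indicator_of_notMem h3]
      ring
    · unfold NN
      rw [indicator_of_notMem h]
      ring
  refine strong_law (μ := μ) (NN A B G) (QQ μ ℱ A B G) u (fun _ => 2) hu0 hu1 hU
    (fun k => Eventually.of_forall fun ω => (hN01 k ω).1) (fun k => (hQ01 k).mono fun ω h => h.1) ?_ ?_ ?_ ?_ ?_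
  · -- the compensator is at most `u`
    intro k
    have h1 : ∀ᵐ ω ∂μ, ω ∈ B k → qq μ ℱ A k (G k) ω ≤ u k := by
      rw [ae_iff]
      set T : Set Ω := {ω | ω ∈ B k ∧ u k < qq μ ℱ A k (G k) ω} with hT
      have hTm : MeasurableSet[ℱ k] T := by
        have h2 : MeasurableSet[ℱ k] {ω | u k < qq μ ℱ A k (G k) ω} := (hqm k).measurable measurableSet_Ioi
        exact @MeasurableSet.inter _ (ℱ k) _ _ (hB k) h2
      have hTm0 : MeasurableSet T := ℱ.le k _ hTm
      have h2 := hup k T (fun ω h => h.1) hTm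
      have h3 : ∫ ω in T, qq μ ℱ A k (G k) ω ∂μ = μ.real (T ∩ run A k (G k)) := by
        unfold qq
        rw [setIntegral_condExp (ℱ.le k) (ind_int hA k (G k)) hTm,
          setIntegral_indicator (run_meas0 hA k (G k)), setIntegral_const, smul_eq_mul, mul_one]
      rw [← h3] at h2
      have h4 : ∫ ω in T, (qq μ ℱ A k (G k) ω - u k) ∂μ ≤ 0 := by
        have hqi : Integrable (qq μ ℱ A k (G k)) μ := integrable_condExp
        rw [integral_sub hqi.integrableOn (integrable_const _).integrableOn, setIntegral_const,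
          smul_eq_mul]
        linarith
      have h5 : μ T = 0 := by
        by_contra hne
        have h6 : 0 < ∫ ω in T, (qq μ ℱ A k (G k) ω - u k) ∂μ := by
          rw [setIntegral_pos_iff_support_of_nonneg_ae]
          · have h7 : Function.support (fun ω => qq μ ℱ A k (G k) ω - u k) ∩ T = T := by
              ext ω
              simp only [mem_inter_iff, Function.mem_support, ne_eq]
              constructor
              · exact fun h => h.2
              · exact fun h => ⟨by have := h.2; intro h0; linarith, h⟩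
            rw [h7]
            exact pos_iff_ne_zero.2 hne
          · rw [EventuallyLE, ae_restrict_iff' hTm0]
            exact Eventually.of_forall fun ω h => by simp only [Pi.zero_apply]; linarith [h.2]
          · exact (integrable_condExp.sub (integrable_const _)).integrableOn
        linarith
      refine measure_mono_null (fun ω h => ?_) h5
      simp only [mem_ofPred_eq, Classical.not_imp, not_le] at h
      exact h
    filter_upwards [h1] with ω h1
    unfold QQ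
    by_cases h : ω ∈ B k
    · rw [indicator_of_mem h, one_mul]
      exact h1 h
    · rw [indicator_of_notMem h, zero_mul]
      exact hu0 k
  · exact fun k => (hNm0 k).sub (hQm0 k)
  · intro k
    filter_upwards [hNn k, hQn k] with ω h1 h2
    exact (norm_sub_le _ _).trans (by linarith)
  · intro i j hij
    have e1 : ∀ ω, (NN A B G i ω - QQ μ ℱ A B G i ω) * (NN A B G j ω - QQ μ ℱ A B G j ω) =
        (NN A B G i ω * NN A B G j ω - NN A B G i ω * QQ μ ℱ A B G j ω) -
          (QQ μ ℱ A B G i ω * NN A B G j ω - QQ μ ℱ A B G i ω * QQ μ ℱ A B G j ω) := by intro ω; ring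
    have i1 : Integrable (fun ω => NN A B G i ω * NN A B G j ω - NN A B G i ω * QQ μ ℱ A B G j ω) μ :=
      (hNNi i j).sub (hNQi i j)
    have i2 : Integrable (fun ω => QQ μ ℱ A B G i ω * NN A B G j ω - QQ μ ℱ A B G i ω * QQ μ ℱ A B G j ω) μ :=
      (hQNi i j).sub (hQQi i j)
    rw [integral_congr_ae (Eventually.of_forall e1), integral_sub i1 i2,
      integral_sub (hNNi i j) (hNQi i j), integral_sub (hQNi i j) (hQQi i j),
      hpull j _ ((hQm i).mono (ℱ.mono hij.le)) (hQn i), sub_self, sub_zero]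
    by_cases hc : j < i + 1 + G i
    · have h0 : ∫ ω, NN A B G i ω * NN A B G j ω ∂μ = 0 := by
        rw [integral_congr_ae (Eventually.of_forall fun ω => hdisj i j ω hij hc)]
        simp
      rw [h0, zero_sub, neg_nonpos]
      apply integral_nonneg_of_ae
      filter_upwards [hQ01 j] with ω h
      exact mul_nonneg (hN01 i ω).1 h.1
    · rw [hpull j _ ((hNm i).mono (ℱ.mono (by omega))) (hNn i), sub_self]
  · intro k
    have e1 : ∀ ω, (NN A B G k ω - QQ μ ℱ A B G k ω) ^ 2 =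
        (NN A B G k ω - QQ μ ℱ A B G k ω * NN A B G k ω) -
          (QQ μ ℱ A B G k ω * NN A B G k ω - QQ μ ℱ A B G k ω * QQ μ ℱ A B G k ω) := by
      intro ω
      have := (hN01 k ω).2.2
      calc (NN A B G k ω - QQ μ ℱ A B G k ω) ^ 2 = NN A B G k ω * NN A B G k ω - 2 * (QQ μ ℱ A B G k ω * NN A B G k ω)
            + QQ μ ℱ A B G k ω * QQ μ ℱ A B G k ω := by ring
        _ = _ := by rw [this]; ring
    have i1 : Integrable (fun ω => NN A B G k ω - QQ μ ℱ A B G k ω * NN A B G k ω) μ :=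
      (hNi k).sub (hQNi k k)
    have i2 : Integrable (fun ω => QQ μ ℱ A B G k ω * NN A B G k ω - QQ μ ℱ A B G k ω * QQ μ ℱ A B G k ω) μ :=
      (hQNi k k).sub (hQQi k k)
    rw [integral_congr_ae (Eventually.of_forall e1), integral_sub i1 i2,
      integral_sub (hNi k) (hQNi k k), integral_sub (hQNi k k) (hQQi k k),
      hpull k _ (hQm k) (hQn k), sub_self, sub_zero]
    have h1 : ∫ ω, NN A B G k ω ∂μ = μ.real (B k ∩ run A k (G k)) := by
      have h2 : ∀ ω, NN A B G k ω = (B k ∩ run A k (G k)).indicator (fun _ => (1 : ℝ)) ω := by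
        intro ω
        unfold NN
        rw [← inter_indicator_mul]
        simp
      rw [integral_congr_ae (Eventually.of_forall h2), integral_indicator ((ℱ.le k _ (hB k)).inter (run_meas0 hA k (G k))),
        setIntegral_const, smul_eq_mul, mul_one]
    have h2 := hup k (B k) le_rfl (hB k)
    have h3 : u k * μ.real (B k) ≤ u k * 1 := mul_le_mul_of_nonneg_left measureReal_le_one (hu0 k)
    have h4 : 0 ≤ ∫ ω, QQ μ ℱ A B G k ω * QQ μ ℱ A B G k ω ∂μ := integral_nonneg fun ω => mul_self_nonneg _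
    rw [h1]
    linarith

lemma int_qq (hA : ∀ n, MeasurableSet[ℱ n] (A n)) {k G : ℕ} {T : Set Ω} (hT : MeasurableSet[ℱ k] T) :
    ∫ ω in T, qq μ ℱ A k G ω ∂μ = μ.real (T ∩ run A k G) := by
  unfold qq
  rw [setIntegral_condExp (ℱ.le k) (ind_int hA k G) hT,
    setIntegral_indicator (run_meas0 hA k G), setIntegral_const, smul_eq_mul, mul_one]

/-- an upper bound for the compensator -/
theorem qq_le_of (hA : ∀ n, MeasurableSet[ℱ n] (A n)) {k G : ℕ} {B : Set Ω} (hB : MeasurableSet[ℱ k] B) {u : ℝ}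
    (hup : ∀ C ⊆ B, MeasurableSet[ℱ k] C → μ.real (C ∩ run A k G) ≤ u * μ.real C) :
    ∀ᵐ ω ∂μ, ω ∈ B → qq μ ℱ A k G ω ≤ u := by
  have hqm : StronglyMeasurable[ℱ k] (qq μ ℱ A k G) := stronglyMeasurable_condExp
  have hqi : Integrable (qq μ ℱ A k G) μ := integrable_condExp
  rw [ae_iff]
  set T : Set Ω := {ω | ω ∈ B ∧ u < qq μ ℱ A k G ω} with hT
  have hTm : MeasurableSet[ℱ k] T := by
    have h2 : MeasurableSet[ℱ k] {ω | u < qq μ ℱ A k G ω} := hqm.measurable measurableSet_Ioi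
    exact @MeasurableSet.inter _ (ℱ k) _ _ hB h2
  have hTm0 : MeasurableSet T := ℱ.le k _ hTm
  have h2 := hup T (fun ω h => h.1) hTm
  rw [← int_qq hA hTm] at h2
  have h4 : ∫ ω in T, (qq μ ℱ A k G ω - u) ∂μ ≤ 0 := by
    rw [integral_sub hqi.integrableOn (integrable_const _).integrableOn, setIntegral_const, smul_eq_mul]
    linarith
  have h5 : μ T = 0 := by
    by_contra hne
    have h6 : 0 < ∫ ω in T, (qq μ ℱ A k G ω - u) ∂μ := by
      rw [setIntegral_pos_iff_support_of_nonneg_ae]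
      · have h7 : Function.support (fun ω => qq μ ℱ A k G ω - u) ∩ T = T := by
          ext ω
          simp only [mem_inter_iff, Function.mem_support, ne_eq]
          constructor
          · exact fun h => h.2
          · exact fun h => ⟨by have := h.2; intro h0; linarith, h⟩
        rw [h7]
        exact pos_iff_ne_zero.2 hne
      · rw [EventuallyLE, ae_restrict_iff' hTm0]
        exact Eventually.of_forall fun ω h => by simp only [Pi.zero_apply]; linarith [h.2]
      · exact (hqi.sub (integrable_const _)).integrableOn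
    linarith
  refine measure_mono_null (fun ω h => ?_) h5
  simp only [mem_ofPred_eq, Classical.not_imp, not_le] at h
  exact h

/-- a lower bound for the compensator -/
theorem le_qq_of (hA : ∀ n, MeasurableSet[ℱ n] (A n)) {k G : ℕ} {B : Set Ω} (hB : MeasurableSet[ℱ k] B) {l : ℝ}
    (hlow : ∀ C ⊆ B, MeasurableSet[ℱ k] C → l * μ.real C ≤ μ.real (C ∩ run A k G)) :
    ∀ᵐ ω ∂μ, ω ∈ B → l ≤ qq μ ℱ A k G ω := by
  have hqm : StronglyMeasurable[ℱ k] (qq μ ℱ A k G) := stronglyMeasurable_condExp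
  have hqi : Integrable (qq μ ℱ A k G) μ := integrable_condExp
  rw [ae_iff]
  set T : Set Ω := {ω | ω ∈ B ∧ qq μ ℱ A k G ω < l} with hT
  have hTm : MeasurableSet[ℱ k] T := by
    have h2 : MeasurableSet[ℱ k] {ω | qq μ ℱ A k G ω < l} := hqm.measurable measurableSet_Iio
    exact @MeasurableSet.inter _ (ℱ k) _ _ hB h2
  have hTm0 : MeasurableSet T := ℱ.le k _ hTm
  have h2 := hlow T (fun ω h => h.1) hTm
  rw [← int_qq hA hTm] at h2
  have h4 : ∫ ω in T, (l - qq μ ℱ A k G ω) ∂μ ≤ 0 := by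
    rw [integral_sub (integrable_const _).integrableOn hqi.integrableOn, setIntegral_const, smul_eq_mul]
    linarith
  have h5 : μ T = 0 := by
    by_contra hne
    have h6 : 0 < ∫ ω in T, (l - qq μ ℱ A k G ω) ∂μ := by
      rw [setIntegral_pos_iff_support_of_nonneg_ae]
      · have h7 : Function.support (fun ω => l - qq μ ℱ A k G ω) ∩ T = T := by
          ext ω
          simp only [mem_inter_iff, Function.mem_support, ne_eq]
          constructor
          · exact fun h => h.2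
          · exact fun h => ⟨by have := h.2; intro h0; linarith, h⟩
        rw [h7]
        exact pos_iff_ne_zero.2 hne
      · rw [EventuallyLE, ae_restrict_iff' hTm0]
        exact Eventually.of_forall fun ω h => by simp only [Pi.zero_apply]; linarith [h.2]
      · exact ((integrable_const _).sub hqi).integrableOn
    linarith
  refine measure_mono_null (fun ω h => ?_) h5
  simp only [mem_ofPred_eq, Classical.not_imp, not_le] at h
  exact h

end Pool.Agent.R528.RM
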