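import Mathlib
import Pool.Agent.R528.RM.Count
import Pool.Agent.R528.RM.Asym
import Pool.Agent.R528.RM.Law

set_option autoImplicit false
set_option linter.unusedSectionVars false

/-! # The number of violations of Cramér's inequality -/

open MeasureTheory Filter Set
open scoped ENNReal Topology

namespace Pool.Agent.R528.RM

variable {Ω : Type} {m0 : MeasurableSpace Ω} {μ : Measure Ω} [IsProbabilityMeasure μ]
  {ℱ : Filtration ℕ m0} {A : ℕ → Set Ω}

/-- the relevant run length at `k + 1` -/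
noncomputable def gl (k : ℕ) : ℕ := ⌈Real.log ((k : ℝ) + 1) ^ 2⌉₊

/-- the reciprocal density at `k` is within `δ` of `log (k + 1) + c` -/
def near (μ : Measure Ω) (ℱ : Filtration ℕ m0) (A : ℕ → Set Ω) (c δ : ℝ) (k : ℕ) : Set Ω :=
  {ω | |(dens μ ℱ A k ω)⁻¹ - (Real.log ((k : ℝ) + 1) + c)| ≤ δ}

lemma near_meas (c δ : ℝ) (k : ℕ) : MeasurableSet[ℱ k] (near μ ℱ A c δ k) := by
  have h1 := meas_aux (ℱ k) (dens μ ℱ A k) (dens_meas k).measurable (Real.log ((k : ℝ) + 1) + c) δ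
  have h2 := @MeasurableSet.compl _ _ (ℱ k) h1
  have e : near μ ℱ A c δ k = {ω | ¬ |(dens μ ℱ A k ω)⁻¹ - (Real.log ((k : ℝ) + 1) + c)| ≤ δ}ᶜ := by
    ext ω
    simp [near]
  rw [e]
  exact h2

/-- slow variation -/
lemma slow (x : ℕ → ℝ) {K : ℝ} (hK0 : 0 ≤ K) {n₀ k : ℕ} (hk : n₀ ≤ k) (hk1 : 1 ≤ k)
    (hx : ∀ n, n₀ ≤ n → |x (n + 1) - x n| ≤ K / n * |x n|) (i : ℕ) :
    |x (k + i)| ≤ (1 + K / k) ^ i * |x k| ∧ |x (k + i) - x k| ≤ ((1 + K / k) ^ i - 1) * |x k| := by
  have hk' : (0 : ℝ) < k := by exact_mod_cast hk1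
  induction i with
  | zero => simp
  | succ i ih =>
    obtain ⟨ih1, ih2⟩ := ih
    have h1 := hx (k + i) (by omega)
    have h2 : K / ((k + i : ℕ) : ℝ) ≤ K / k := by
      apply div_le_div_of_nonneg_left hK0 hk'
      exact_mod_cast Nat.le_add_right k i
    have h3 : |x (k + i + 1) - x (k + i)| ≤ K / k * |x (k + i)| :=
      h1.trans (mul_le_mul_of_nonneg_right h2 (abs_nonneg _))
    have hKk : 0 ≤ K / k := by positivity
    have h4 : K / k * |x (k + i)| ≤ K / k * ((1 + K / k) ^ i * |x k|) := mul_le_mul_of_nonneg_left ih1 hKk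
    rw [← add_assoc]
    constructor
    · calc |x (k + i + 1)| = |(x (k + i + 1) - x (k + i)) + x (k + i)| := by ring_nf
        _ ≤ |x (k + i + 1) - x (k + i)| + |x (k + i)| := abs_add_le _ _
        _ ≤ K / k * ((1 + K / k) ^ i * |x k|) + (1 + K / k) ^ i * |x k| := by linarith
        _ = (1 + K / k) ^ (i + 1) * |x k| := by ring
    · calc |x (k + i + 1) - x k| = |(x (k + i + 1) - x (k + i)) + (x (k + i) - x k)| := by ring_nf
        _ ≤ |x (k + i + 1) - x (k + i)| + |x (k + i) - x k| := abs_add_le _ _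
        _ ≤ K / k * ((1 + K / k) ^ i * |x k|) + ((1 + K / k) ^ i - 1) * |x k| := by linarith
        _ = ((1 + K / k) ^ (i + 1) - 1) * |x k| := by ring

/-- the growth factor over a window is negligible -/
lemma window (K c : ℝ) (hK0 : 0 ≤ K) {δ : ℝ} (hδ : 0 < δ) : ∀ᶠ k : ℕ in atTop, ∀ i ≤ gl k,
    ((1 + K / k) ^ i - 1) * (Real.log ((k : ℝ) + 1) + c + δ) ≤ δ := by
  have hx : Tendsto (fun k : ℕ => (k : ℝ) + 1) atTop atTop :=
    tendsto_atTop_add_const_right _ 1 tendsto_natCast_atTop_atTop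
  have h1 : ∀ᶠ x : ℝ in atTop, 1 ≤ Real.log x ∧ |c| + δ ≤ Real.log x ∧
      16 * K * Real.log x ^ 3 ≤ δ * x ∧ 4 * K * Real.log x ^ 2 ≤ x ∧ 2 ≤ x := by
    have t1 := Real.tendsto_log_atTop
    have h2 := (Real.isLittleO_pow_log_id_atTop (n := 3)).def
      (show (0 : ℝ) < δ / (16 * K + 1) by positivity)
    have h3 := (Real.isLittleO_pow_log_id_atTop (n := 2)).def
      (show (0 : ℝ) < 1 / (4 * K + 1) by positivity)
    filter_upwards [t1.eventually_ge_atTop 1, t1.eventually_ge_atTop (|c| + δ), h2, h3, eventually_ge_atTop 2]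
      with x h4 h5 h2 h3 h6
    rw [Real.norm_of_nonneg (by positivity), id, Real.norm_of_nonneg (by linarith)] at h2 h3
    refine ⟨h4, h5, ?_, ?_, h6⟩
    · have h7 : 16 * K * Real.log x ^ 3 ≤ (16 * K + 1) * Real.log x ^ 3 := by
        have : 0 ≤ Real.log x ^ 3 := by positivity
        nlinarith
      have h8 : (16 * K + 1) * Real.log x ^ 3 ≤ (16 * K + 1) * (δ / (16 * K + 1) * x) :=
        mul_le_mul_of_nonneg_left h2 (by positivity)
      have h9 : (16 * K + 1) * (δ / (16 * K + 1) * x) = δ * x := by field_simp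
      linarith
    · have h7 : 4 * K * Real.log x ^ 2 ≤ (4 * K + 1) * Real.log x ^ 2 := by
        have : 0 ≤ Real.log x ^ 2 := by positivity
        nlinarith
      have h8 : (4 * K + 1) * Real.log x ^ 2 ≤ (4 * K + 1) * (1 / (4 * K + 1) * x) :=
        mul_le_mul_of_nonneg_left h3 (by positivity)
      have h9 : (4 * K + 1) * (1 / (4 * K + 1) * x) = x := by field_simp
      linarith
  filter_upwards [hx.eventually h1, eventually_ge_atTop 1] with k h hk i hi
  obtain ⟨h1, h2, h3, h4, h5⟩ := h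
  have hk' : (1 : ℝ) ≤ k := by exact_mod_cast hk
  obtain ⟨L, hL⟩ : ∃ L, L = Real.log ((k : ℝ) + 1) := ⟨_, rfl⟩
  rw [← hL] at h1 h2 h3 h4 ⊢
  have hG : (i : ℝ) ≤ 2 * L ^ 2 := by
    have h6 : (gl k : ℝ) ≤ L ^ 2 + 1 := by
      unfold gl
      rw [← hL]
      exact (Nat.ceil_lt_add_one (by positivity)).le
    have h7 : (i : ℝ) ≤ gl k := by exact_mod_cast hi
    nlinarith
  have hKi : K / k * i ≤ 1 := by
    rw [div_mul_eq_mul_div, div_le_one (by linarith)]
    have h6 : K * i ≤ K * (2 * L ^ 2) := mul_le_mul_of_nonneg_left hG hK0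
    nlinarith
  have hKi0 : 0 ≤ K / k * i := by positivity
  have h6 : (1 + K / k) ^ i ≤ Real.exp (K / k * i) := by
    rw [mul_comm, Real.exp_nat_mul]
    apply pow_le_pow_left₀ (by positivity)
    have := Real.add_one_le_exp (K / k)
    linarith
  have h7 : Real.exp (K / k * i) - 1 ≤ 2 * (K / k * i) := by
    have h9 : Real.exp (K / k * i) ≤ 1 + 2 * (K / k * i) := by
      have h10 := Real.abs_exp_sub_one_le (x := K / k * i) (by rw [abs_of_nonneg hKi0]; exact hKi)
      rw [abs_of_nonneg hKi0] at h10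
      have := le_abs_self (Real.exp (K / k * i) - 1)
      linarith
    linarith
  have h8 : (1 + K / k) ^ i - 1 ≤ 4 * K * L ^ 2 / k := by
    have h9 : K / k * i ≤ K / k * (2 * L ^ 2) := mul_le_mul_of_nonneg_left hG (by positivity)
    have h10 : K / k * (2 * L ^ 2) = 2 * K * L ^ 2 / k := by ring
    have h11 : 4 * K * L ^ 2 / k = 2 * (2 * K * L ^ 2 / k) := by ring
    rw [h11]
    linarith
  have h9 : L + c + δ ≤ 2 * L := by
    have := le_abs_self c
    linarith
  have h9' : 0 ≤ L + c + δ ∨ L + c + δ ≤ 0 := le_total _ _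
  have h10 : 0 ≤ (1 + K / k) ^ i - 1 := by
    have : 1 ≤ (1 + K / k) ^ i := one_le_pow₀ (by
      have : 0 ≤ K / k := by positivity
      linarith)
    linarith
  calc ((1 + K / k) ^ i - 1) * (L + c + δ) ≤ ((1 + K / k) ^ i - 1) * (2 * L) := mul_le_mul_of_nonneg_left h9 h10
    _ ≤ 4 * K * L ^ 2 / k * (2 * L) := mul_le_mul_of_nonneg_right h8 (by linarith)
    _ = 8 * K * L ^ 3 / k := by ring
    _ ≤ δ := by
      rw [div_le_iff₀ (by linarith)]
      nlinarith

/-- bounds for all densities in the window -/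
lemma near_window {K : ℝ} (hK0 : 0 ≤ K) {n₀ : ℕ}
    (hK : ∀ᵐ ω ∂μ, ∀ n, n₀ ≤ n → |(dens μ ℱ A (n + 1) ω)⁻¹ - (dens μ ℱ A n ω)⁻¹| ≤ K / n * |(dens μ ℱ A n ω)⁻¹|)
    (c : ℝ) {δ : ℝ} (hδ : 0 < δ) {k : ℕ} (hk : n₀ ≤ k) (hk1 : 1 ≤ k)
    (hw : ∀ i ≤ gl k, ((1 + K / k) ^ i - 1) * (Real.log ((k : ℝ) + 1) + c + δ) ≤ δ)
    (hpos : 1 ≤ Real.log ((k : ℝ) + 1) + c - 2 * δ) (n : ℕ) (hn1 : k ≤ n) (hn2 : n ≤ k + gl k) :
    ∀ᵐ ω ∂μ, ω ∈ near μ ℱ A c δ k → 1 / (Real.log ((k : ℝ) + 1) + c + 2 * δ) ≤ dens μ ℱ A n ω ∧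
      dens μ ℱ A n ω ≤ 1 / (Real.log ((k : ℝ) + 1) + c - 2 * δ) := by
  filter_upwards [hK] with ω hω hnear
  obtain ⟨i, rfl⟩ : ∃ i, n = k + i := ⟨n - k, by omega⟩
  have h1 := (slow (fun n => (dens μ ℱ A n ω)⁻¹) hK0 hk hk1 hω i).2
  obtain ⟨L, hL⟩ : ∃ L, L = Real.log ((k : ℝ) + 1) := ⟨_, rfl⟩
  simp only [near, mem_ofPred_eq] at hnear
  have h2 := hw i (by omega)
  rw [← hL] at h2 hnear hpos ⊢
  have h3 := abs_le.1 hnear
  have h4 : |(dens μ ℱ A k ω)⁻¹| ≤ L + c + δ := by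
    rw [abs_le]
    constructor <;> linarith
  have h5 : 0 ≤ (1 + K / k) ^ i - 1 := by
    have : 1 ≤ (1 + K / k) ^ i := one_le_pow₀ (by
      have : 0 ≤ K / k := by positivity
      linarith)
    linarith
  have h6 : |(dens μ ℱ A (k + i) ω)⁻¹ - (dens μ ℱ A k ω)⁻¹| ≤ δ :=
    h1.trans ((mul_le_mul_of_nonneg_left h4 h5).trans h2)
  have h7 := abs_le.1 h6
  obtain ⟨x, hx⟩ : ∃ x, x = dens μ ℱ A (k + i) ω := ⟨_, rfl⟩
  rw [← hx] at h7 ⊢
  have h8 : L + c - 2 * δ ≤ x⁻¹ := by linarith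
  have h9 : x⁻¹ ≤ L + c + 2 * δ := by linarith
  have h10 : 0 < x⁻¹ := by linarith
  have h11 : 0 < x := inv_pos.1 h10
  constructor
  · rw [one_div, inv_le_comm₀ (by linarith) h11]
    exact h9
  · rw [one_div, le_inv_comm₀ h11 (by linarith)]
    exact h8

/-- the count of runs -/
noncomputable def VC (A : ℕ → Set Ω) (n : ℕ) (ω : Ω) : ℝ :=
  ∑ k ∈ Finset.range n, (run A k (gl k)).indicator (fun _ => (1 : ℝ)) ω

/-- the core estimate -/
theorem core (hA : ∀ n, MeasurableSet[ℱ n] (A n)) {K : ℝ} (hK0 : 0 ≤ K) {n₀ : ℕ}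
    (hK : ∀ᵐ ω ∂μ, ∀ n, n₀ ≤ n → |(dens μ ℱ A (n + 1) ω)⁻¹ - (dens μ ℱ A n ω)⁻¹| ≤ K / n * |(dens μ ℱ A n ω)⁻¹|)
    (c : ℝ) {δ : ℝ} (hδ : 0 < δ) :
    ∀ᵐ ω ∂μ, (∃ k₁, ∀ k, k₁ ≤ k → ω ∈ near μ ℱ A c δ k) → ∀ ε : ℝ, 0 < ε →
      ∀ᶠ n : ℕ in atTop, Real.exp (c - 2 * δ - 1 / 2) - ε < VC A n ω / ll n ∧
        VC A n ω / ll n < Real.exp (c + 2 * δ - 1 / 2) + ε := by
  classical
  have hlog : Tendsto (fun k : ℕ => Real.log ((k : ℝ) + 1)) atTop atTop :=
    Real.tendsto_log_atTop.comp (tendsto_atTop_add_const_right _ 1 tendsto_natCast_atTop_atTop)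
  obtain ⟨k₀, hk₀⟩ : ∃ k₀ : ℕ, ∀ k, k₀ ≤ k → n₀ ≤ k ∧ 1 ≤ k ∧
      (∀ i ≤ gl k, ((1 + K / k) ^ i - 1) * (Real.log ((k : ℝ) + 1) + c + δ) ≤ δ) ∧
      1 ≤ Real.log ((k : ℝ) + 1) + c - 2 * δ := by
    rw [← eventually_atTop]
    filter_upwards [eventually_ge_atTop n₀, eventually_ge_atTop 1, window K c hK0 hδ,
      hlog.eventually_ge_atTop (1 - c + 2 * δ)] with k h1 h2 h3 h4
    exact ⟨h1, h2, h3, by linarith⟩
  set B : ℕ → Set Ω := fun k => if k₀ ≤ k then near μ ℱ A c δ k else ∅ with hB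
  set l' : ℕ → ℝ := fun k => 1 / (Real.log ((k : ℝ) + 1) + (c + 2 * δ)) with hl'
  set u' : ℕ → ℝ := fun k => 1 / (Real.log ((k : ℝ) + 1) + (c - 2 * δ)) with hu'
  set u : ℕ → ℝ := fun k => if k₀ ≤ k then u' k * (1 - l' k) ^ gl k else 0 with hu
  set l : ℕ → ℝ := fun k => if k₀ ≤ k then l' k * (1 - u' k) ^ gl k else 0 with hl
  have hBm : ∀ k, MeasurableSet[ℱ k] (B k) := by
    intro k
    by_cases h : k₀ ≤ k
    · simp only [hB, if_pos h]
      exact near_meas c δ k
    · simp only [hB, if_neg h]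
      exact @MeasurableSet.empty _ (ℱ k)
  have hb : ∀ k, k₀ ≤ k → 0 < l' k ∧ l' k ≤ u' k ∧ u' k ≤ 1 := by
    intro k hk
    obtain ⟨h1, h2, h3, h4⟩ := hk₀ k hk
    refine ⟨one_div_pos.2 (by linarith), one_div_le_one_div_of_le (by linarith) (by linarith), ?_⟩
    simp only [hu']
    rw [div_le_one (by linarith)]
    linarith
  have hwin : ∀ k, k₀ ≤ k → ∀ n, k ≤ n → n ≤ k + gl k → ∀ᵐ ω ∂μ, ω ∈ near μ ℱ A c δ k →
      l' k ≤ dens μ ℱ A n ω ∧ dens μ ℱ A n ω ≤ u' k := by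
    intro k hk n hn1 hn2
    obtain ⟨h1, h2, h3, h4⟩ := hk₀ k hk
    have h5 := near_window (μ := μ) hK0 hK c hδ h1 h2 h3 h4 n hn1 hn2
    have e1 : l' k = 1 / (Real.log ((k : ℝ) + 1) + c + 2 * δ) := by simp only [hl']; rw [add_assoc]
    have e2 : u' k = 1 / (Real.log ((k : ℝ) + 1) + c - 2 * δ) := by simp only [hu']; rw [add_sub_assoc]
    rw [e1, e2]
    exact h5
  have hu0 : ∀ k, 0 ≤ u k := by
    intro k
    by_cases h : k₀ ≤ k
    · obtain ⟨h1, h2, h3⟩ := hb k h
      simp only [hu, if_pos h]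
      have : 0 ≤ 1 - l' k := by linarith
      have : 0 ≤ u' k := by linarith
      positivity
    · simp only [hu, if_neg h]
      exact le_rfl
  have hu1 : ∀ k, u k ≤ 1 := by
    intro k
    by_cases h : k₀ ≤ k
    · obtain ⟨h1, h2, h3⟩ := hb k h
      simp only [hu, if_pos h]
      exact mul_le_one₀ h3 (pow_nonneg (by linarith) _) (pow_le_one₀ (by linarith) (by linarith))
    · simp only [hu, if_neg h]
      exact zero_le_one
  -- the asymptotics of the deterministic sums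
  have hUa : Tendsto (fun n : ℕ => (∑ k ∈ Finset.range n, u k) / ll n) atTop (𝓝 (Real.exp (c + 2 * δ - 1 / 2))) := by
    apply sum_asymp
    refine (run_prob_nat (c - 2 * δ) (c + 2 * δ)).congr' ?_
    filter_upwards [eventually_ge_atTop k₀] with k hk
    simp only [hu, if_pos hk, hu', hl', gl]
  have hLa : Tendsto (fun n : ℕ => (∑ k ∈ Finset.range n, l k) / ll n) atTop (𝓝 (Real.exp (c - 2 * δ - 1 / 2))) := by
    apply sum_asymp
    refine (run_prob_nat (c + 2 * δ) (c - 2 * δ)).congr' ?_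
    filter_upwards [eventually_ge_atTop k₀] with k hk
    simp only [hl, if_pos hk, hu', hl', gl]
  have hll : Tendsto (fun n : ℕ => ll (n : ℝ)) atTop atTop :=
    (Real.tendsto_log_atTop.comp Real.tendsto_log_atTop).comp tendsto_natCast_atTop_atTop
  have hUtop : Tendsto (fun n => ∑ k ∈ Finset.range n, u k) atTop atTop := by
    have h1 := hUa.pos_mul_atTop (Real.exp_pos _) hll
    refine h1.congr' ?_
    filter_upwards [hll.eventually_gt_atTop 0] with n hn
    field_simp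
  -- the bounds for the conditional probabilities
  have hup : ∀ k, ∀ C ⊆ B k, MeasurableSet[ℱ k] C → μ.real (C ∩ run A k (gl k)) ≤ u k * μ.real C := by
    intro k C hC hCm
    by_cases h : k₀ ≤ k
    · obtain ⟨h1, h2, h3⟩ := hb k h
      simp only [hB, if_pos h] at hC
      simp only [hu, if_pos h]
      refine ((run_bounds (μ := μ) hA (by linarith) h3 k (gl k) hCm ?_) (gl k) le_rfl).2
      intro n hn1 hn2
      filter_upwards [hwin k h n hn1 hn2] with ω hω hωC
      exact hω (hC hωC)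
    · simp only [hB, if_neg h] at hC
      have : C = ∅ := subset_empty_iff.1 hC
      rw [this]
      simp
  have hlow : ∀ k, ∀ C ⊆ B k, MeasurableSet[ℱ k] C → l k * μ.real C ≤ μ.real (C ∩ run A k (gl k)) := by
    intro k C hC hCm
    by_cases h : k₀ ≤ k
    · obtain ⟨h1, h2, h3⟩ := hb k h
      simp only [hB, if_pos h] at hC
      simp only [hl, if_pos h]
      refine ((run_bounds (μ := μ) hA (by linarith) h3 k (gl k) hCm ?_) (gl k) le_rfl).1
      intro n hn1 hn2
      filter_upwards [hwin k h n hn1 hn2] with ω hω hωC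
      exact hω (hC hωC)
    · simp only [hB, if_neg h] at hC
      have : C = ∅ := subset_empty_iff.1 hC
      rw [this]
      simp
  have hlaw := count_law (μ := μ) hA B hBm gl u hu0 hu1 hUtop hup
  have hq1 := fun k => qq_le_of (μ := μ) hA (hBm k) (hup k)
  have hq2 := fun k => le_qq_of (μ := μ) hA (hBm k) (hlow k)
  filter_upwards [hlaw, ae_all_iff.2 hq1, ae_all_iff.2 hq2] with ω hlaw hq1 hq2 hnear ε hε
  obtain ⟨k₁, hk₁⟩ := hnear
  set U : ℕ → ℝ := fun n => ∑ k ∈ Finset.range n, u k with hUdef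
  set T : ℕ → ℝ := fun n => ∑ k ∈ Finset.range n, (NN A B gl k ω - QQ μ ℱ A B gl k ω) with hT
  -- `T n / ll n → 0`
  have hT0 : Tendsto (fun n : ℕ => T n / ll n) atTop (𝓝 0) := by
    have h1 := hlaw.mul hUa
    rw [zero_mul] at h1
    refine h1.congr' ?_
    filter_upwards [hUtop.eventually_gt_atTop 0] with n hn
    have hn' : 0 < U n := hn
    show T n / U n * (U n / ll n) = T n / ll n
    field_simp
  set k₂ := max k₀ k₁ with hk₂
  have hBk : ∀ k, k₂ ≤ k → ω ∈ B k := by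
    intro k hk
    simp only [hB, if_pos ((le_max_left _ _).trans hk)]
    exact hk₁ k ((le_max_right _ _).trans hk)
  have hVN : ∀ n, VC A n ω ≤ ∑ k ∈ Finset.range n, NN A B gl k ω + k₂ := by
    intro n
    induction n with
    | zero => simp [VC]
    | succ n ih =>
      by_cases hn : k₂ ≤ n
      · have h1 : NN A B gl n ω = (run A n (gl n)).indicator (fun _ => (1 : ℝ)) ω := by
          unfold NN
          rw [indicator_of_mem (hBk n hn), one_mul]
        unfold VC at ih ⊢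
        rw [Finset.sum_range_succ, Finset.sum_range_succ, h1]
        linarith
      · have h1 : VC A (n + 1) ω ≤ (n + 1 : ℕ) := by
          unfold VC
          calc ∑ k ∈ Finset.range (n + 1), (run A k (gl k)).indicator (fun _ => (1 : ℝ)) ω
              ≤ ∑ k ∈ Finset.range (n + 1), (1 : ℝ) := Finset.sum_le_sum fun k _ => (ind01 _ ω).2.1
            _ = _ := by simp
        have h2 : (0 : ℝ) ≤ ∑ k ∈ Finset.range (n + 1), NN A B gl k ω :=
          Finset.sum_nonneg fun k _ => mul_nonneg (ind01 _ ω).1 (ind01 _ ω).1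
        have h3 : ((n + 1 : ℕ) : ℝ) ≤ k₂ := by exact_mod_cast (by omega : n + 1 ≤ k₂)
        linarith
  have hNV : ∀ n, ∑ k ∈ Finset.range n, NN A B gl k ω ≤ VC A n ω := by
    intro n
    unfold VC
    apply Finset.sum_le_sum
    intro k _
    unfold NN
    have h1 := ind01 (B k) ω
    have h2 := ind01 (run A k (gl k)) ω
    nlinarith
  have hQU : ∀ n, ∑ k ∈ Finset.range n, QQ μ ℱ A B gl k ω ≤ U n := by
    intro n
    apply Finset.sum_le_sum
    intro k _
    unfold QQ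
    by_cases h : ω ∈ B k
    · rw [indicator_of_mem h, one_mul]
      exact hq1 k h
    · rw [indicator_of_notMem h, zero_mul]
      exact hu0 k
  have hLQ : ∀ n, ∑ k ∈ Finset.range n, l k - k₂ ≤ ∑ k ∈ Finset.range n, QQ μ ℱ A B gl k ω := by
    have hl1 : ∀ k, l k ≤ 1 := by
      intro k
      by_cases h : k₀ ≤ k
      · obtain ⟨h1, h2, h3⟩ := hb k h
        simp only [hl, if_pos h]
        exact mul_le_one₀ (h2.trans h3) (pow_nonneg (by linarith) _) (pow_le_one₀ (by linarith) (by linarith))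
      · simp only [hl, if_neg h]
        exact zero_le_one
    have hl0 : ∀ k, 0 ≤ l k := by
      intro k
      by_cases h : k₀ ≤ k
      · obtain ⟨h1, h2, h3⟩ := hb k h
        simp only [hl, if_pos h]
        have : 0 ≤ 1 - u' k := by linarith
        positivity
      · simp only [hl, if_neg h]
        exact le_rfl
    have hQ0 : ∀ k, k < k₂ → -1 ≤ QQ μ ℱ A B gl k ω - l k ∨ True := fun k _ => Or.inr trivial
    intro n
    induction n with
    | zero => simp
    | succ n ih =>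
      rw [Finset.sum_range_succ, Finset.sum_range_succ]
      by_cases hn : k₂ ≤ n
      · have h1 : l n ≤ QQ μ ℱ A B gl n ω := by
          unfold QQ
          rw [indicator_of_mem (hBk n hn), one_mul]
          exact hq2 n (hBk n hn)
        linarith
      · -- trivial bound
        have h2 : ∑ k ∈ Finset.range n, l k ≤ n := by
          calc ∑ k ∈ Finset.range n, l k ≤ ∑ k ∈ Finset.range n, (1 : ℝ) := Finset.sum_le_sum fun k _ => hl1 k
            _ = n := by simp
        have h3 : (0 : ℝ) ≤ ∑ k ∈ Finset.range n, QQ μ ℱ A B gl k ω := by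
          apply Finset.sum_nonneg
          intro k _
          unfold QQ
          by_cases h : ω ∈ B k
          · rw [indicator_of_mem h, one_mul]
            exact (hl0 k).trans (hq2 k h)
          · rw [indicator_of_notMem h, zero_mul]
        have h4 : 0 ≤ QQ μ ℱ A B gl n ω := by
          unfold QQ
          by_cases h : ω ∈ B n
          · rw [indicator_of_mem h, one_mul]
            exact (hl0 n).trans (hq2 n h)
          · rw [indicator_of_notMem h, zero_mul]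
        have h5 : ((n : ℝ) + 1) ≤ k₂ := by exact_mod_cast (by omega : n + 1 ≤ k₂)
        have h6 := hl1 n
        linarith
  have hk₂0 : Tendsto (fun n : ℕ => (k₂ : ℝ) / ll n) atTop (𝓝 0) := tendsto_const_nhds.div_atTop hll
  have hup2 : Tendsto (fun n : ℕ => (U n + T n + k₂) / ll n) atTop (𝓝 (Real.exp (c + 2 * δ - 1 / 2))) := by
    have := (hUa.add hT0).add hk₂0
    rw [add_zero, add_zero] at this
    refine this.congr fun n => ?_
    rw [add_div, add_div]
  have hlo2 : Tendsto (fun n : ℕ => (∑ k ∈ Finset.range n, l k + T n - k₂) / ll n) atTop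
      (𝓝 (Real.exp (c - 2 * δ - 1 / 2))) := by
    have := (hLa.add hT0).sub hk₂0
    rw [add_zero, sub_zero] at this
    refine this.congr fun n => ?_
    rw [sub_div, add_div]
  have hTsum : ∀ n, T n = ∑ k ∈ Finset.range n, NN A B gl k ω - ∑ k ∈ Finset.range n, QQ μ ℱ A B gl k ω := fun n =>
    Finset.sum_sub_distrib _ _
  filter_upwards [hup2.eventually (eventually_lt_nhds (show Real.exp (c + 2 * δ - 1 / 2) < Real.exp (c + 2 * δ - 1 / 2) + ε by linarith)),
    hlo2.eventually (eventually_gt_nhds (show Real.exp (c - 2 * δ - 1 / 2) - ε < Real.exp (c - 2 * δ - 1 / 2) by linarith)),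
    hll.eventually_gt_atTop 0] with n h1 h2 h3
  have h4 := hVN n
  have h5 := hNV n
  have h6 := hQU n
  have h7 := hLQ n
  have h8 := hTsum n
  constructor
  · refine h2.trans_le ?_
    apply div_le_div_of_nonneg_right _ h3.le
    linarith
  · refine lt_of_le_of_lt ?_ h1
    apply div_le_div_of_nonneg_right _ h3.le
    linarith

/-- **the number of long runs** -/
theorem violations (hA : ∀ n, MeasurableSet[ℱ n] (A n)) {K : ℝ} (hK0 : 0 ≤ K) {n₀ : ℕ}
    (hK : ∀ᵐ ω ∂μ, ∀ n, n₀ ≤ n → |(dens μ ℱ A (n + 1) ω)⁻¹ - (dens μ ℱ A n ω)⁻¹| ≤ K / n * |(dens μ ℱ A n ω)⁻¹|) :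
    ∀ᵐ ω ∂μ, ∀ C : ℝ, Tendsto (fun n : ℕ => (dens μ ℱ A n ω)⁻¹ - Real.log n) atTop (𝓝 C) →
      Tendsto (fun n : ℕ => VC A n ω / ll n) atTop (𝓝 (Real.exp (C - 1 / 2))) := by
  have h1 : ∀ (m : ℕ) (c : ℚ), ∀ᵐ ω ∂μ, (∃ k₁, ∀ k, k₁ ≤ k → ω ∈ near μ ℱ A c (1 / ((m : ℝ) + 1)) k) →
      ∀ ε : ℝ, 0 < ε → ∀ᶠ n : ℕ in atTop, Real.exp (c - 2 * (1 / ((m : ℝ) + 1)) - 1 / 2) - ε < VC A n ω / ll n ∧
        VC A n ω / ll n < Real.exp (c + 2 * (1 / ((m : ℝ) + 1)) - 1 / 2) + ε := by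
    intro m c
    exact core hA hK0 hK c (by positivity)
  have h2 := ae_all_iff.2 fun m => ae_all_iff.2 (h1 m)
  filter_upwards [h2] with ω h2 C hC
  -- the limit with `log (k + 1)`
  have hC' : Tendsto (fun k : ℕ => (dens μ ℱ A k ω)⁻¹ - Real.log ((k : ℝ) + 1)) atTop (𝓝 C) := by
    have h3 : Tendsto (fun k : ℕ => Real.log ((k : ℝ) + 1) - Real.log k) atTop (𝓝 0) := by
      have h4 : Tendsto (fun k : ℕ => Real.log (1 + 1 / (k : ℝ))) atTop (𝓝 (Real.log (1 + 0))) := by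
        apply Tendsto.log
        · exact tendsto_const_nhds.add tendsto_one_div_atTop_nhds_zero_nat
        · norm_num
      rw [add_zero, Real.log_one] at h4
      refine h4.congr' ?_
      filter_upwards [eventually_ge_atTop 1] with k hk
      have hk' : (0 : ℝ) < k := by exact_mod_cast hk
      rw [← Real.log_div (by positivity) (by positivity)]
      congr 1
      field_simp
    have h5 := hC.sub h3
    rw [sub_zero] at h5
    refine h5.congr fun k => ?_
    ring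
  have hcont : Tendsto (fun x : ℝ => Real.exp (C + x - 1 / 2)) (𝓝 0) (𝓝 (Real.exp (C - 1 / 2))) := by
    have h3 : Continuous (fun x : ℝ => Real.exp (C + x - 1 / 2)) := by fun_prop
    have := h3.tendsto 0
    simpa using this
  have hseq : Tendsto (fun m : ℕ => 3 * (1 / ((m : ℝ) + 1))) atTop (𝓝 0) := by
    have := (tendsto_one_div_add_atTop_nhds_zero_nat (𝕜 := ℝ)).const_mul 3
    simpa using this
  have hkey : ∀ m : ℕ, ∀ ε : ℝ, 0 < ε → ∀ᶠ n : ℕ in atTop,
      Real.exp (C - 3 * (1 / ((m : ℝ) + 1)) - 1 / 2) - ε < VC A n ω / ll n ∧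
        VC A n ω / ll n < Real.exp (C + 3 * (1 / ((m : ℝ) + 1)) - 1 / 2) + ε := by
    intro m ε hε
    have hm : 0 < 1 / ((m : ℝ) + 1) := by positivity
    obtain ⟨c, hc1, hc2⟩ := exists_rat_btwn (show C < C + 1 / ((m : ℝ) + 1) / 2 by linarith)
    have h3 : ∃ k₁, ∀ k, k₁ ≤ k → ω ∈ near μ ℱ A c (1 / ((m : ℝ) + 1)) k := by
      rw [← eventually_atTop]
      have h4 := hC'.eventually (Metric.ball_mem_nhds C (show 0 < 1 / ((m : ℝ) + 1) / 2 by positivity))
      filter_upwards [h4] with k hk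
      have hk : dist ((dens μ ℱ A k ω)⁻¹ - Real.log ((k : ℝ) + 1)) C < 1 / ((m : ℝ) + 1) / 2 := hk
      rw [Real.dist_eq] at hk
      have h5 := abs_lt.1 hk
      simp only [near, mem_ofPred_eq]
      rw [abs_le]
      constructor <;> linarith
    filter_upwards [h2 m c h3 ε hε] with n hn
    constructor
    · refine lt_of_le_of_lt ?_ hn.1
      have : Real.exp (C - 3 * (1 / ((m : ℝ) + 1)) - 1 / 2) ≤ Real.exp (c - 2 * (1 / ((m : ℝ) + 1)) - 1 / 2) :=
        Real.exp_le_exp.2 (by linarith)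
      linarith
    · refine lt_of_lt_of_le hn.2 ?_
      have : Real.exp (c + 2 * (1 / ((m : ℝ) + 1)) - 1 / 2) ≤ Real.exp (C + 3 * (1 / ((m : ℝ) + 1)) - 1 / 2) :=
        Real.exp_le_exp.2 (by linarith)
      linarith
  have hup := (hcont.comp hseq)
  have hlow := hcont.comp (by simpa using hseq.neg : Tendsto (fun m : ℕ => -(3 * (1 / ((m : ℝ) + 1)))) atTop (𝓝 0))
  rw [tendsto_order]
  constructor
  · intro a ha
    obtain ⟨m, hm⟩ := (hlow.eventually (eventually_gt_nhds ha)).exists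
    simp only [Function.comp] at hm
    have h3 := hkey m (Real.exp (C + -(3 * (1 / ((m : ℝ) + 1))) - 1 / 2) - a) (by linarith)
    filter_upwards [h3] with n hn
    have e : C - 3 * (1 / ((m : ℝ) + 1)) - 1 / 2 = C + -(3 * (1 / ((m : ℝ) + 1))) - 1 / 2 := by ring
    rw [e] at hn
    linarith [hn.1]
  · intro a ha
    obtain ⟨m, hm⟩ := (hup.eventually (eventually_lt_nhds ha)).exists
    simp only [Function.comp] at hm
    have h3 := hkey m (a - Real.exp (C + (3 * (1 / ((m : ℝ) + 1))) - 1 / 2)) (by linarith)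
    filter_upwards [h3] with n hn
    linarith [hn.2]

/-- the number of violations up to `x` -/
noncomputable def viol (S : Set ℕ) (x : ℕ) : ℕ :=
  Set.ncard {n : ℕ | pn S n ≤ x ∧ Real.log (pn S n) ^ 2 ≤ gap S n}

lemma gap_ge_iff {S : Set ℕ} (hS : S.Infinite) {n k : ℕ} (hk : pn S n = k) (x : ℝ) :
    x ≤ gap S n ↔ ∀ j, 1 ≤ j → j ≤ ⌈x⌉₊ → k + j ∉ S := by
  have h0 := nth_mono hS (Nat.lt_succ_self n)
  simp only [Nat.succ_eq_add_one] at h0
  constructor
  · intro h j hj1 hj2 hmem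
    have h1 : ⌈x⌉₊ ≤ gap S n := Nat.ceil_le.2 h
    obtain ⟨m, hm⟩ := exists_nth hmem
    have h2 : n < m := by
      rw [← (nth_mono hS).lt_iff_lt, hm, hk]
      omega
    have h3 : pn S (n + 1) ≤ k + j := by
      rw [← hm]
      exact (nth_mono hS).monotone h2
    unfold gap at h1
    omega
  · intro h
    by_contra hcon
    push Not at hcon
    have h1 : gap S n < ⌈x⌉₊ := Nat.lt_ceil.2 hcon
    refine h (gap S n + 1) (by omega) h1 ?_
    have h2 : pn S (n + 1) = k + (gap S n + 1) := by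
      unfold gap
      omega
    rw [← h2]
    exact nth_mem hS (n + 1)

/-- comparison of the two counts -/
theorem viol_VC (ω : Ω) (hS : (rset A ω).Infinite) (x : ℕ) :
    VC A x ω ≤ viol (rset A ω) x ∧ (viol (rset A ω) x : ℝ) ≤ VC A x ω + 1 := by
  classical
  obtain ⟨S, hSd⟩ : ∃ S : Set ℕ, S = rset A ω := ⟨_, rfl⟩
  have hmem : ∀ k, k ∈ S ↔ ω ∈ A k := fun k => by rw [hSd]; rfl
  rw [← hSd] at hS ⊢
  set P : ℕ → Prop := fun k => k ∈ S ∧ ∀ j, 1 ≤ j → j ≤ ⌈Real.log (k : ℝ) ^ 2⌉₊ → k + j ∉ S with hP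
  have h1 : viol S x = ((Finset.range (x + 1)).filter P).card := by
    unfold viol
    rw [← Set.ncard_coe_finset, ← Set.ncard_image_of_injective _ (nth_mono hS).injective]
    congr 1
    ext k
    simp only [mem_image, mem_ofPred_eq, Finset.coe_filter, Finset.mem_range]
    constructor
    · rintro ⟨n, ⟨hn1, hn2⟩, rfl⟩
      exact ⟨by omega, nth_mem hS n, (gap_ge_iff hS rfl _).1 hn2⟩
    · rintro ⟨hk1, hk2, hk3⟩
      obtain ⟨n, hn⟩ := exists_nth hk2
      refine ⟨n, ⟨by omega, ?_⟩, hn⟩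
      rw [gap_ge_iff hS hn, hn]
      exact hk3
  have h2 : VC A x ω = ∑ k ∈ Finset.range x, (if P (k + 1) then (1 : ℝ) else 0) := by
    unfold VC
    apply Finset.sum_congr rfl
    intro k _
    have h3 : ω ∈ run A k (gl k) ↔ P (k + 1) := by
      simp only [run, hP, mem_ofPred_eq, hmem, gl]
      push_cast
      rfl
    by_cases h : P (k + 1)
    · rw [indicator_of_mem (h3.2 h), if_pos h]
    · rw [indicator_of_notMem (fun h' => h (h3.1 h')), if_neg h]
  have h3 : (((Finset.range (x + 1)).filter P).card : ℝ) = ∑ k ∈ Finset.range (x + 1), (if P k then (1 : ℝ) else 0) := by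
    rw [Finset.sum_boole]
  rw [h1, h3, h2, Finset.sum_range_succ']
  have h4 : (0 : ℝ) ≤ (if P 0 then (1 : ℝ) else 0) ∧ (if P 0 then (1 : ℝ) else 0) ≤ (1 : ℝ) := by
    split_ifs <;> norm_num
  constructor <;> linarith [h4.1, h4.2]

/-- the law for the number of violations -/
theorem viol_law (ω : Ω) (hS : (rset A ω).Infinite) {c : ℝ}
    (h : Tendsto (fun n : ℕ => VC A n ω / ll n) atTop (𝓝 c)) :
    Tendsto (fun x : ℕ => (viol (rset A ω) x : ℝ) / ll x) atTop (𝓝 c) := by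
  have hll : Tendsto (fun n : ℕ => ll (n : ℝ)) atTop atTop :=
    (Real.tendsto_log_atTop.comp Real.tendsto_log_atTop).comp tendsto_natCast_atTop_atTop
  have h1 : Tendsto (fun n : ℕ => VC A n ω / ll n + 1 / ll n) atTop (𝓝 (c + 0)) :=
    h.add (tendsto_const_nhds.div_atTop hll)
  rw [add_zero] at h1
  refine tendsto_of_tendsto_of_tendsto_of_le_of_le' h h1 ?_ ?_
  · filter_upwards [hll.eventually_gt_atTop 0] with x hx
    exact div_le_div_of_nonneg_right (viol_VC ω hS x).1 hx.le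
  · filter_upwards [hll.eventually_gt_atTop 0] with x hx
    rw [← add_div]
    exact div_le_div_of_nonneg_right (viol_VC ω hS x).2 hx.le

end Pool.Agent.R528.RM
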