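import Mathlib
import Pool.Agent.R528.RM.BHFinal

set_option autoImplicit false
set_option linter.unusedSectionVars false

/-! # Polynomial values in random models with a fixed sieving modulus: final form -/

open MeasureTheory Filter Set Polynomial
open scoped ENNReal Topology

namespace Pool.Agent.R528.RM

variable {Ω : Type} {m0 : MeasurableSpace Ω} {μ : Measure Ω} [IsProbabilityMeasure μ]
  {ℱ : Filtration ℕ m0} {A : ℕ → Set Ω}

/-- number of `n < x` for which all the values `f(n)` are in `S` -/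
noncomputable def polyCount (S : Set ℕ) (P : Finset ℤ[X]) (x : ℕ) : ℕ :=
  {n : ℕ | n < x ∧ ∀ f ∈ P, ∃ a ∈ S, (a : ℤ) = f.eval (n : ℤ)}.ncard

/-- number of residues `r` modulo `p` with `∏ f(r) ≡ 0` modulo `p` -/
noncomputable def omegaF (P : Finset ℤ[X]) (p : ℕ) : ℕ :=
  {r : ℕ | r < p ∧ (p : ℤ) ∣ ∏ f ∈ P, f.eval (r : ℤ)}.ncard

lemma omega_good (P : Finset ℤ[X]) {p : ℕ} (hp : p.Prime) : Nat.count (good P p) p + omegaF P p = p := by
  classical
  have hg : ∀ r, good P p r ↔ ¬ (p : ℤ) ∣ ∏ f ∈ P, f.eval (r : ℤ) := by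
    intro r
    have hpi : Prime (p : ℤ) := Nat.prime_iff_prime_int.1 hp
    rw [hpi.dvd_finsetProd_iff]
    push Not
    unfold good
    refine forall₂_congr fun f _ => ?_
    rw [Int.gcd_comm, Int.gcd_eq_natAbs, Int.natAbs_natCast]
    constructor
    · intro h h2
      have h3 : p ∣ (f.eval (r : ℤ)).natAbs := Int.natCast_dvd.1 h2
      have h4 := Nat.Coprime.eq_one_of_dvd (h : Nat.Coprime p _) h3
      exact hp.one_lt.ne' h4
    · intro h
      exact (Nat.Prime.coprime_iff_not_dvd hp).2 fun h2 => h (Int.natCast_dvd.2 h2)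
  have h1 : omegaF P p = ((Finset.range p).filter (fun r => ¬ good P p r)).card := by
    unfold omegaF
    rw [← Set.ncard_coe_finset]
    congr 1
    ext r
    simp [hg]
  rw [h1, Nat.count_eq_card_filter_range]
  have := Finset.card_filter_add_card_filter_not (s := Finset.range p) (good P p)
  rw [Finset.card_range] at this
  exact this

lemma totient_prod (Q : Finset ℕ) (hQ : ∀ p ∈ Q, p.Prime) :
    (((∏ p ∈ Q, p : ℕ) : ℝ) / Nat.totient (∏ p ∈ Q, p)) = ∏ p ∈ Q, (1 - 1 / (p : ℝ))⁻¹ := by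
  classical
  induction Q using Finset.induction_on with
  | empty => simp
  | insert p Q hp ih =>
    have hpp : p.Prime := hQ p (Finset.mem_insert_self p Q)
    have hQ' : ∀ q ∈ Q, q.Prime := fun q hq => hQ q (Finset.mem_insert_of_mem hq)
    have hcop : Nat.Coprime p (∏ q ∈ Q, q) := by
      refine Nat.Coprime.prod_right fun q hq => ?_
      refine (Nat.coprime_primes hpp (hQ' q hq)).2 ?_
      rintro rfl
      exact hp hq
    rw [Finset.prod_insert hp, Finset.prod_insert hp, ← ih hQ', Nat.totient_mul hcop, Nat.totient_prime hpp]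
    have e1 : (0 : ℝ) < p := by exact_mod_cast hpp.pos
    have e4 : ((p - 1 : ℕ) : ℝ) = p - 1 := by
      rw [Nat.cast_sub hpp.one_le]
      simp
    have e5 : (1 : ℝ) < p := by exact_mod_cast hpp.one_lt
    push_cast [e4]
    have e6 : (1 - 1 / (p : ℝ))⁻¹ = p / (p - 1) := by
      rw [one_sub_div e1.ne', inv_div]
    rw [e6, mul_div_mul_comm]

theorem bh_final (hA : ∀ n, MeasurableSet[ℱ n] (A n)) (Q : Finset ℕ) (hQ : ∀ p ∈ Q, p.Prime)
    (hcop : ∀ n, (∃ p ∈ Q, p ∣ n) → A n = ∅)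
    (hd : ∀ᵐ ω ∂μ, Tendsto (fun n : ℕ => dens μ ℱ A n ω * Real.log n)
      (atTop ⊓ 𝓟 {n : ℕ | ∀ p ∈ Q, ¬ p ∣ n + 1}) (𝓝 (∏ p ∈ Q, (1 - 1 / (p : ℝ))⁻¹))) :
    ∀ᵐ ω ∂μ, ∀ P : Finset ℤ[X], (∀ f ∈ P, 0 < f.natDegree ∧ 0 < f.leadingCoeff) →
      Tendsto (fun x : ℕ => (polyCount {a | ω ∈ A a} P x : ℝ) * Real.log x ^ P.card / x) atTop
        (𝓝 ((∏ p ∈ Q, (1 - (omegaF P p : ℝ) / p) / (1 - 1 / (p : ℝ)) ^ P.card) * ∏ f ∈ P, ((f.natDegree : ℝ))⁻¹)) := by
  classical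
  set W := ∏ p ∈ Q, p with hWdef
  have hW : 0 < W := Finset.prod_pos fun q hq => (hQ q hq).pos
  have hc : ∀ n, Nat.Coprime n W ↔ ∀ p ∈ Q, ¬ p ∣ n := by
    intro n
    rw [hWdef, Nat.coprime_prod_right_iff]
    refine forall₂_congr fun p hp => ?_
    rw [Nat.coprime_comm]
    exact Nat.Prime.coprime_iff_not_dvd (hQ p hp)
  have h1 := bh_poly (μ := μ) hA W hW (fun n hn => hcop n (by
    rw [hc] at hn
    push Not at hn
    exact hn)) (by
    rw [totient_prod Q hQ]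
    simp_rw [hc]
    exact hd)
  filter_upwards [h1] with ω hω P hP
  have h2 := hω P hP
  have h3 : bhConst W P = (∏ p ∈ Q, (1 - (omegaF P p : ℝ) / p) / (1 - 1 / (p : ℝ)) ^ P.card) * ∏ f ∈ P, ((f.natDegree : ℝ))⁻¹ := by
    unfold bhConst
    rw [← mul_assoc, const_prod P Q hQ]
    congr 1
    refine Finset.prod_congr rfl fun p hp => ?_
    have h4 := omega_good P (hQ p hp)
    have h5 : (Nat.count (good P p) p : ℝ) + omegaF P p = p := by exact_mod_cast h4
    have h6 : (0 : ℝ) < p := by exact_mod_cast (hQ p hp).pos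
    have h7 : (Nat.count (good P p) p : ℝ) / p = 1 - (omegaF P p : ℝ) / p := by
      field_simp
      linarith
    rw [h7, inv_pow]
    exact (div_eq_mul_inv _ _).symm
  rw [← h3]
  -- the two ways of counting differ by a bounded amount
  have h4 : ∀ᶠ n : ℕ in atTop, ∀ f ∈ P, 0 < f.eval (n : ℤ) := by
    rw [eventually_all_finset]
    exact fun f hf => ev_pos_int f (hP f hf).2
  obtain ⟨n₀, hn₀⟩ := eventually_atTop.1 h4
  set y : ℕ → ℝ := fun n => if (∀ f ∈ P, ∃ a ∈ {a | ω ∈ A a}, (a : ℤ) = f.eval (n : ℤ)) then 1 else 0 with hy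
  have h5 : ∀ x, (polyCount {a | ω ∈ A a} P x : ℝ) = ∑ n ∈ Finset.range x, y n := by
    intro x
    rw [Finset.sum_boole]
    congr 1
    unfold polyCount
    rw [← Set.ncard_coe_finset]
    congr 1
    ext n
    simp
  have h6 : ∀ n, n₀ ≤ n → y n = YY A pv P n ω := by
    intro n hn
    rw [YY_eq]
    have h7 : (∀ f ∈ P, ∃ a ∈ {a | ω ∈ A a}, (a : ℤ) = f.eval (n : ℤ)) ↔ ∀ f ∈ P, ω ∈ A (pv f n) := by
      refine forall₂_congr fun f hf => ?_
      have h8 := hn₀ n hn f hf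
      have h9 : ((pv f n : ℕ) : ℤ) = f.eval (n : ℤ) := Int.toNat_of_nonneg h8.le
      constructor
      · rintro ⟨a, ha, ha2⟩
        have : a = pv f n := by
          have : (a : ℤ) = (pv f n : ℤ) := by rw [ha2, h9]
          exact_mod_cast this
        rwa [← this]
      · intro h
        exact ⟨pv f n, h, h9⟩
    simp only [hy]
    by_cases h : ∀ f ∈ P, ω ∈ A (pv f n)
    · rw [if_pos (h7.2 h), indicator_of_mem (show ω ∈ {ω | ∀ i ∈ P, ω ∈ A (pv i n)} from h)]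
    · rw [if_neg (fun h' => h (h7.1 h')), indicator_of_notMem (show ω ∉ {ω | ∀ i ∈ P, ω ∈ A (pv i n)} from h)]
  have hlim : Tendsto (fun x : ℕ => (∑ n ∈ Finset.range n₀, (y n - YY A pv P n ω)) * (Real.log x ^ P.card / x)) atTop
      (𝓝 ((∑ n ∈ Finset.range n₀, (y n - YY A pv P n ω)) * 0)) := by
    refine Tendsto.const_mul _ ?_
    have h20 : Tendsto (fun x : ℝ => Real.log x ^ P.card / x ^ (1 : ℝ)) atTop (𝓝 0) :=
      (isLittleO_log_rpow_rpow_atTop (P.card : ℝ) one_pos).tendsto_div_nhds_zero.congr fun x => by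
        rw [Real.rpow_natCast]
    exact (h20.comp tendsto_natCast_atTop_atTop).congr fun x => by simp
  rw [mul_zero] at hlim
  have h10 := h2.add hlim
  rw [add_zero] at h10
  refine h10.congr' ?_
  filter_upwards [eventually_ge_atTop n₀] with x hx
  have h11 : ∑ n ∈ Finset.range x, y n = ∑ n ∈ Finset.range x, YY A pv P n ω + ∑ n ∈ Finset.range n₀, (y n - YY A pv P n ω) := by
    have : ∑ n ∈ Finset.range x, (y n - YY A pv P n ω) = ∑ n ∈ Finset.range n₀, (y n - YY A pv P n ω) := by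
      rw [← Finset.sum_range_add_sum_Ico _ hx, Finset.sum_eq_zero (s := Finset.Ico n₀ x) fun n hn => ?_, add_zero]
      rw [h6 n (Finset.mem_Ico.1 hn).1, sub_self]
    rw [← this, Finset.sum_sub_distrib]
    ring
  rw [h5, h11]
  ring

/-- the general law with sets -/
theorem general_final {ι : Type} (hA : ∀ n, MeasurableSet[ℱ n] (A n)) (ρ : ℕ → ℝ) (hρ : ∀ n, 0 ≤ ρ n ∧ ρ n ≤ 1)
    (hd : ∀ᵐ ω ∂μ, ∀ ε : ℝ, 0 < ε → ∀ᶠ n : ℕ in atTop, |dens μ ℱ A n ω - ρ (n + 1)| ≤ ε * ρ (n + 1))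
    (s : Finset ι) (F : ι → ℕ → ℕ) (hmono : ∀ i ∈ s, ∀ᶠ n in atTop, F i n < F i (n + 1))
    (hord : ∀ i ∈ s, ∀ j ∈ s, i ≠ j → (∀ᶠ n in atTop, F i n < F j n) ∨ (∀ᶠ n in atTop, F j n < F i n))
    (hU : Tendsto (fun x => ∑ n ∈ Finset.range x, ∏ i ∈ s, ρ (F i n)) atTop atTop) :
    ∀ᵐ ω ∂μ, Tendsto (fun x => ({n : ℕ | n < x ∧ ∀ i ∈ s, ω ∈ A (F i n)}.ncard : ℝ) /
      ∑ n ∈ Finset.range x, ∏ i ∈ s, ρ (F i n)) atTop (𝓝 1) := by
  classical
  filter_upwards [bhg_ev (μ := μ) hA ρ (fun n => (hρ n).1) (fun n => (hρ n).2) hd F s hmono hord hU] with ω hω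
  refine hω.congr fun x => ?_
  congr 1
  have h1 : ∀ n, YY A F s n ω = if (∀ i ∈ s, ω ∈ A (F i n)) then 1 else 0 := by
    intro n
    rw [YY_eq]
    by_cases h : ∀ i ∈ s, ω ∈ A (F i n)
    · rw [if_pos h, indicator_of_mem (show ω ∈ {ω | ∀ i ∈ s, ω ∈ A (F i n)} from h)]
    · rw [if_neg h, indicator_of_notMem (show ω ∉ {ω | ∀ i ∈ s, ω ∈ A (F i n)} from h)]
  simp_rw [h1]
  rw [Finset.sum_boole]
  congr 1
  rw [← Set.ncard_coe_finset]
  congr 1
  ext n
  simp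

end Pool.Agent.R528.RM
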