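import Mathlib
import Pool.Agent.R528.RM.Gold

set_option autoImplicit false
set_option linter.unusedSectionVars false

/-! # Tuples with uniformity in the shifts -/

open MeasureTheory Filter Set
open scoped ENNReal Topology

namespace Pool.Agent.R528.RM

variable {Ω : Type} {m0 : MeasurableSpace Ω} {μ : Measure Ω} [IsProbabilityMeasure μ]
  {ℱ : Filtration ℕ m0} {A : ℕ → Set Ω}

/-- mixed sums: true indicators at the shifts of `L`, expected values at the shifts of `U` -/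
noncomputable def TN (A : ℕ → Set Ω) (ρ : ℕ → ℝ) (x : ℕ) (L U : Finset ℕ) (ω : Ω) : ℝ :=
  ∑ n ∈ Finset.range x, (∏ h ∈ L, In A (n + 1 + h) ω) * ∏ h ∈ U, ρ (n + 1 + h)

/-- the weights -/
noncomputable def wt (A : ℕ → Set Ω) (ρ : ℕ → ℝ) (H : Finset ℕ) (g k : ℕ) (ω : Ω) : ℝ :=
  (∏ h ∈ H.filter (· < g), In A (k + 1 + h) ω) * ∏ h ∈ H.filter (g < ·), ρ (k + 1 + h)

lemma wt_meas (hA : ∀ n, MeasurableSet[ℱ n] (A n)) (ρ : ℕ → ℝ) (H : Finset ℕ) (g k : ℕ) :
    StronglyMeasurable[ℱ (g + k)] (wt A ρ H g k) := by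
  have h1 : StronglyMeasurable[ℱ (g + k)] (∏ h ∈ H.filter (· < g), In A (k + 1 + h)) := by
    refine Finset.stronglyMeasurable_prod _ fun h hh => ?_
    exact In_meas hA (by have := (Finset.mem_filter.1 hh).2; omega)
  have h2 : wt A ρ H g k = fun ω => (∏ h ∈ H.filter (· < g), In A (k + 1 + h)) ω * ∏ h ∈ H.filter (g < ·), ρ (k + 1 + h) := by
    funext ω
    simp [wt]
  rw [h2]
  exact h1.mul_const _

lemma wt_01 {ρ : ℕ → ℝ} (hρ : ∀ n, 0 ≤ ρ n ∧ ρ n ≤ 1) (H : Finset ℕ) (g k : ℕ) (ω : Ω) :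
    0 ≤ wt A ρ H g k ω ∧ wt A ρ H g k ω ≤ 1 := by
  unfold wt
  have h1 : 0 ≤ ∏ h ∈ H.filter (· < g), In A (k + 1 + h) ω := Finset.prod_nonneg fun h _ => In_nonneg _ _
  have h2 : ∏ h ∈ H.filter (· < g), In A (k + 1 + h) ω ≤ 1 := Finset.prod_le_one (fun h _ => In_nonneg _ _) fun h _ => In_le _ _
  have h3 : 0 ≤ ∏ h ∈ H.filter (g < ·), ρ (k + 1 + h) := Finset.prod_nonneg fun h _ => (hρ _).1
  have h4 : ∏ h ∈ H.filter (g < ·), ρ (k + 1 + h) ≤ 1 := Finset.prod_le_one (fun h _ => (hρ _).1) fun h _ => (hρ _).2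
  exact ⟨mul_nonneg h1 h3, mul_le_one₀ h2 h3 h4⟩

/-- the allowed deviation -/
noncomputable def lamT (C k x : ℕ) : ℝ := √(8 * (C + 1) * k * (x * Real.log x))

/-- all the martingales are small -/
theorem tup_errors (hA : ∀ n, MeasurableSet[ℱ n] (A n)) (ρ : ℕ → ℝ) (hρ : ∀ n, 0 ≤ ρ n ∧ ρ n ≤ 1) (C : ℕ) :
    ∀ᵐ ω ∂μ, ∀ᶠ x : ℕ in atTop, ∀ H : Finset ℕ, H ⊆ Finset.range (x ^ C + 1) → ∀ g ∈ H,
      |Sw μ ℱ A g (wt A ρ H g) x ω| < lamT C H.card x := by
  classical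
  set Bad : ℕ → Set Ω := fun x => ⋃ H ∈ (Finset.range (x ^ C + 1)).powerset.filter (·.Nonempty), ⋃ g ∈ H,
    {ω | lamT C H.card x ≤ |Sw μ ℱ A g (wt A ρ H g) x ω|} with hBad
  have hsum : Summable (fun x : ℕ => 16 * ((x : ℝ) ^ 3)⁻¹) :=
    (Real.summable_nat_pow_inv.2 (by norm_num)).mul_left 16
  have hb : ∀ᶠ x in atTop, μ.real (Bad x) ≤ 16 * ((x : ℝ) ^ 3)⁻¹ := by
    filter_upwards [eventually_ge_atTop 2] with x hx
    have hx' : (2 : ℝ) ≤ x := by exact_mod_cast hx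
    have hx0 : (0 : ℝ) < x := by linarith
    have hlog : 0 < Real.log (x : ℝ) := Real.log_pos (by linarith)
    set y : ℝ := ((x : ℝ) ^ (3 * (C + 1)))⁻¹ with hy
    have hy0 : 0 < y := by positivity
    -- individual probabilities
    have h1 : ∀ H : Finset ℕ, H.Nonempty → ∀ g ∈ H,
        μ.real {ω | lamT C H.card x ≤ |Sw μ ℱ A g (wt A ρ H g) x ω|} ≤ 2 * ((x : ℝ) ^ (4 * (C + 1) * H.card))⁻¹ := by
      intro H _ g _
      have h2 := Sw_tail (μ := μ) hA g (wt A ρ H g) (fun k => wt_meas hA ρ H g k) (fun k ω => by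
        rw [abs_of_nonneg (wt_01 hρ H g k ω).1]; exact (wt_01 hρ H g k ω).2) x (by omega) (lam := lamT C H.card x) (Real.sqrt_nonneg _)
      refine h2.trans (mul_le_mul_of_nonneg_left (le_of_eq ?_) (by norm_num))
      have e1 : ((x : ℝ) ^ (4 * (C + 1) * H.card))⁻¹ = Real.exp (-((4 * (C + 1) * H.card : ℕ) * Real.log x)) := by
        rw [Real.exp_neg, Real.exp_nat_mul, Real.exp_log hx0]
      rw [e1]
      congr 2
      unfold lamT
      rw [Real.sq_sqrt (by positivity)]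
      push_cast
      field_simp
      ring
    have h2 : μ.real (Bad x) ≤ ∑ H ∈ (Finset.range (x ^ C + 1)).powerset.filter (·.Nonempty), 2 * y ^ H.card := by
      refine (measureReal_biUnion_finset_le _ _).trans (Finset.sum_le_sum fun H hH => ?_)
      have hHne := (Finset.mem_filter.1 hH).2
      refine (measureReal_biUnion_finset_le _ _).trans ((Finset.sum_le_sum fun g hg => h1 H hHne g hg).trans ?_)
      rw [Finset.sum_const, nsmul_eq_mul]
      have e1 : (x : ℝ) ^ (4 * (C + 1) * H.card) = (x : ℝ) ^ (3 * (C + 1) * H.card) * (x : ℝ) ^ ((C + 1) * H.card) := by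
        rw [← pow_add]; congr 1; ring
      have e2 : (H.card : ℝ) ≤ (x : ℝ) ^ ((C + 1) * H.card) := by
        have g1 : H.card < 2 ^ H.card := Nat.lt_two_pow_self
        have g2 : (2 : ℝ) ^ H.card ≤ (x : ℝ) ^ H.card := pow_le_pow_left₀ (by norm_num) hx' _
        have g3 : (x : ℝ) ^ H.card ≤ (x : ℝ) ^ ((C + 1) * H.card) := pow_le_pow_right₀ (by linarith) (by nlinarith)
        have g4 : (H.card : ℝ) ≤ (2 : ℝ) ^ H.card := by exact_mod_cast g1.le
        linarith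
      have e3 : y ^ H.card = ((x : ℝ) ^ (3 * (C + 1) * H.card))⁻¹ := by
        rw [hy, inv_pow, ← pow_mul]
      rw [e1, e3, mul_inv]
      have p1 : 0 < (x : ℝ) ^ (3 * (C + 1) * H.card) := by positivity
      have p2 : 0 < (x : ℝ) ^ ((C + 1) * H.card) := by positivity
      have e4 : (H.card : ℝ) * ((x : ℝ) ^ ((C + 1) * H.card))⁻¹ ≤ 1 := by
        rw [← div_eq_mul_inv, div_le_one p2]; exact e2
      calc (H.card : ℝ) * (2 * (((x : ℝ) ^ (3 * (C + 1) * H.card))⁻¹ * ((x : ℝ) ^ ((C + 1) * H.card))⁻¹)) =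
          2 * ((x : ℝ) ^ (3 * (C + 1) * H.card))⁻¹ * ((H.card : ℝ) * ((x : ℝ) ^ ((C + 1) * H.card))⁻¹) := by ring
        _ ≤ 2 * ((x : ℝ) ^ (3 * (C + 1) * H.card))⁻¹ * 1 := mul_le_mul_of_nonneg_left e4 (by positivity)
        _ = _ := mul_one _
    have h3 : ∑ H ∈ (Finset.range (x ^ C + 1)).powerset.filter (·.Nonempty), 2 * y ^ H.card = 2 * ((1 + y) ^ (x ^ C + 1) - 1) := by
      have h4 := Finset.sum_pow_mul_eq_add_pow y 1 (Finset.range (x ^ C + 1))
      simp only [one_pow, mul_one, Finset.card_range] at h4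
      have h5 : (Finset.range (x ^ C + 1)).powerset.filter (·.Nonempty) = (Finset.range (x ^ C + 1)).powerset.erase ∅ := by
        ext H
        simp only [Finset.mem_filter, Finset.mem_erase, Finset.nonempty_iff_ne_empty]
        tauto
      rw [h5, ← Finset.mul_sum, Finset.sum_erase_eq_sub (Finset.empty_mem_powerset _), h4]
      simp [add_comm]
    have h4 : (1 + y) ^ (x ^ C + 1) - 1 ≤ 2 * (y * ((x : ℝ) ^ C + 1)) := by
      have e1 : (1 + y) ^ (x ^ C + 1) ≤ Real.exp (y * ((x : ℝ) ^ C + 1)) := by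
        have g1 : 1 + y ≤ Real.exp y := by have := Real.add_one_le_exp y; linarith
        calc (1 + y) ^ (x ^ C + 1) ≤ (Real.exp y) ^ (x ^ C + 1) := pow_le_pow_left₀ (by linarith) g1 _
          _ = _ := by
            rw [← Real.exp_nat_mul]
            congr 1
            push_cast
            ring
      have e2 : y * ((x : ℝ) ^ C + 1) ≤ 1 := by
        rw [hy, inv_mul_le_iff₀ (by positivity), mul_one]
        have g1 : (x : ℝ) ^ C + 1 ≤ 2 * (x : ℝ) ^ C := by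
          have : 1 ≤ (x : ℝ) ^ C := one_le_pow₀ (by linarith)
          linarith
        have g2 : 2 * (x : ℝ) ^ C ≤ (x : ℝ) ^ (C + 1) := by
          rw [pow_succ, mul_comm]
          exact mul_le_mul_of_nonneg_left hx' (by positivity)
        have g3 : (x : ℝ) ^ (C + 1) ≤ (x : ℝ) ^ (3 * (C + 1)) := pow_le_pow_right₀ (by linarith) (by omega)
        linarith
      have e3 : Real.exp (y * ((x : ℝ) ^ C + 1)) - 1 ≤ 2 * (y * ((x : ℝ) ^ C + 1)) := by
        have g1 : 0 ≤ y * ((x : ℝ) ^ C + 1) := by positivity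
        have := Real.abs_exp_sub_one_le (x := y * ((x : ℝ) ^ C + 1)) (by rw [abs_of_nonneg g1]; exact e2)
        rw [abs_of_nonneg g1] at this
        exact (le_abs_self _).trans this
      linarith
    have h5 : y * ((x : ℝ) ^ C + 1) ≤ 2 * ((x : ℝ) ^ 3)⁻¹ := by
      have g1 : (x : ℝ) ^ C + 1 ≤ 2 * (x : ℝ) ^ C := by
        have : 1 ≤ (x : ℝ) ^ C := one_le_pow₀ (by linarith)
        linarith
      have g2 : (x : ℝ) ^ C * (x : ℝ) ^ 3 ≤ (x : ℝ) ^ (3 * (C + 1)) := by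
        rw [← pow_add]
        exact pow_le_pow_right₀ (by linarith) (by omega)
      have p3 : (0 : ℝ) < (x : ℝ) ^ 3 := by positivity
      rw [hy, inv_mul_le_iff₀ (by positivity), ← div_eq_mul_inv, ← mul_div_assoc, le_div_iff₀ p3]
      nlinarith
    have h6 : 0 ≤ ((x : ℝ) ^ 3)⁻¹ := by positivity
    rw [h3] at h2
    linarith
  filter_upwards [bc_real (μ := μ) hsum hb] with ω hω
  filter_upwards [hω] with x hx H hH g hg
  by_contra hcon
  apply hx
  simp only [hBad, Set.mem_iUnion]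
  refine ⟨H, Finset.mem_filter.2 ⟨Finset.mem_powerset.2 hH, ⟨g, hg⟩⟩, g, hg, not_lt.1 hcon⟩

/-- one step -/
lemma TN_step {ρ : ℕ → ℝ} (hρ : ∀ n, 0 ≤ ρ n ∧ ρ n ≤ 1) {ω : Ω} (h01 : ∀ n, 0 ≤ dens μ ℱ A n ω ∧ dens μ ℱ A n ω ≤ 1)
    {ε : ℝ} (hε : 0 ≤ ε) {N : ℕ} (hN : ∀ n, N ≤ n → |dens μ ℱ A n ω - ρ (n + 1)| ≤ ε * ρ (n + 1))
    (x : ℕ) (L U : Finset ℕ) (g : ℕ) (hL : ∀ a ∈ L, a < g) (hU : ∀ b ∈ U, g < b) :
    |TN A ρ x (insert g L) U ω - TN A ρ x L (insert g U) ω| ≤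
      |Sw μ ℱ A g (wt A ρ (insert g (L ∪ U)) g) x ω| + N + ε * TN A ρ x L (insert g U) ω := by
  classical
  have hgL : g ∉ L := fun h => lt_irrefl _ (hL g h)
  have hgU : g ∉ U := fun h => lt_irrefl _ (hU g h)
  have f1 : (insert g (L ∪ U)).filter (· < g) = L := by
    ext a
    simp only [Finset.mem_filter, Finset.mem_insert, Finset.mem_union]
    constructor
    · rintro ⟨h1 | h1 | h1, h2⟩
      · omega
      · exact h1
      · have := hU a h1; omega
    · intro h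
      exact ⟨Or.inr (Or.inl h), hL a h⟩
  have f2 : (insert g (L ∪ U)).filter (g < ·) = U := by
    ext a
    simp only [Finset.mem_filter, Finset.mem_insert, Finset.mem_union]
    constructor
    · rintro ⟨h1 | h1 | h1, h2⟩
      · omega
      · have := hL a h1; omega
      · exact h1
    · intro h
      exact ⟨Or.inr (Or.inr h), hU a h⟩
  set w : ℕ → ℝ := fun k => wt A ρ (insert g (L ∪ U)) g k ω with hw
  have hw01 : ∀ k, 0 ≤ w k ∧ w k ≤ 1 := fun k => wt_01 hρ _ _ _ _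
  have e1 : ∀ k, (∏ h ∈ insert g L, In A (k + 1 + h) ω) * ∏ h ∈ U, ρ (k + 1 + h) = w k * In A (g + k + 1) ω := by
    intro k
    simp only [hw, wt, f1, f2]
    rw [Finset.prod_insert hgL, show k + 1 + g = g + k + 1 by ring]
    ring
  have e2 : ∀ k, (∏ h ∈ L, In A (k + 1 + h) ω) * ∏ h ∈ insert g U, ρ (k + 1 + h) = w k * ρ (g + k + 1) := by
    intro k
    simp only [hw, wt, f1, f2]
    rw [Finset.prod_insert hgU, show k + 1 + g = g + k + 1 by ring]
    ring
  have e3 : TN A ρ x (insert g L) U ω - TN A ρ x L (insert g U) ω =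
      Sw μ ℱ A g (wt A ρ (insert g (L ∪ U)) g) x ω + ∑ k ∈ Finset.range x, w k * (dens μ ℱ A (g + k) ω - ρ (g + k + 1)) := by
    unfold TN Sw
    simp only [e1, e2]
    rw [← Finset.sum_sub_distrib, ← Finset.sum_add_distrib]
    refine Finset.sum_congr rfl fun k _ => ?_
    simp only [hw, In]
    ring
  have e4 : |∑ k ∈ Finset.range x, w k * (dens μ ℱ A (g + k) ω - ρ (g + k + 1))| ≤ N + ε * TN A ρ x L (insert g U) ω := by
    have b1 : ∀ k ∈ Finset.range x, |w k * (dens μ ℱ A (g + k) ω - ρ (g + k + 1))| ≤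
        (if k < N then 1 else 0) + ε * (w k * ρ (g + k + 1)) := by
      intro k _
      rw [abs_mul, abs_of_nonneg (hw01 k).1]
      have c3 : 0 ≤ ε * (w k * ρ (g + k + 1)) := mul_nonneg hε (mul_nonneg (hw01 k).1 (hρ _).1)
      split_ifs with hk
      · have c1 : |dens μ ℱ A (g + k) ω - ρ (g + k + 1)| ≤ 1 := by
          rw [abs_le]
          have := h01 (g + k)
          have := hρ (g + k + 1)
          constructor <;> linarith
        have c2 : w k * |dens μ ℱ A (g + k) ω - ρ (g + k + 1)| ≤ 1 := mul_le_one₀ (hw01 k).2 (abs_nonneg _) c1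
        linarith
      · have c1 := hN (g + k) (by omega)
        rw [zero_add]
        calc w k * |dens μ ℱ A (g + k) ω - ρ (g + k + 1)| ≤ w k * (ε * ρ (g + k + 1)) :=
              mul_le_mul_of_nonneg_left c1 (hw01 k).1
          _ = _ := by ring
    refine (Finset.abs_sum_le_sum_abs _ _).trans ((Finset.sum_le_sum b1).trans ?_)
    rw [Finset.sum_add_distrib, ← Finset.mul_sum]
    refine add_le_add ?_ (le_of_eq ?_)
    · rw [Finset.sum_boole]
      have b2 : (Finset.filter (fun k => k < N) (Finset.range x)) ⊆ Finset.range N := by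
        intro k hk
        exact Finset.mem_range.2 (Finset.mem_filter.1 hk).2
      have b3 := Finset.card_le_card b2
      rw [Finset.card_range] at b3
      exact_mod_cast b3
    · congr 1
      unfold TN
      exact Finset.sum_congr rfl fun k _ => (e2 k).symm
  rw [e3]
  refine (abs_add_le _ _).trans ?_
  linarith

lemma TN_nonneg {ρ : ℕ → ℝ} (hρ : ∀ n, 0 ≤ ρ n ∧ ρ n ≤ 1) (x : ℕ) (L U : Finset ℕ) (ω : Ω) : 0 ≤ TN A ρ x L U ω :=
  Finset.sum_nonneg fun n _ => mul_nonneg (Finset.prod_nonneg fun h _ => In_nonneg _ _) (Finset.prod_nonneg fun h _ => (hρ _).1)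

/-- all steps -/
lemma TN_bounds {ρ : ℕ → ℝ} (hρ : ∀ n, 0 ≤ ρ n ∧ ρ n ≤ 1) {ω : Ω} (h01 : ∀ n, 0 ≤ dens μ ℱ A n ω ∧ dens μ ℱ A n ω ≤ 1)
    {ε : ℝ} (hε : 0 ≤ ε) (hε1 : ε ≤ 1) {N : ℕ} (hN : ∀ n, N ≤ n → |dens μ ℱ A n ω - ρ (n + 1)| ≤ ε * ρ (n + 1))
    (x : ℕ) (H : Finset ℕ) {lam : ℝ} (hlam : 0 ≤ lam) (hH : ∀ g ∈ H, |Sw μ ℱ A g (wt A ρ H g) x ω| ≤ lam) (L : Finset ℕ) :
    ∀ U : Finset ℕ, (∀ a ∈ L, ∀ b ∈ U, a < b) → L ∪ U = H →
      (1 - ε) ^ L.card * TN A ρ x ∅ H ω - L.card * (lam + N) ≤ TN A ρ x L U ω ∧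
      TN A ρ x L U ω ≤ (1 + ε) ^ L.card * (TN A ρ x ∅ H ω + L.card * (lam + N)) := by
  classical
  have hE0 := TN_nonneg (A := A) hρ x ∅ H ω
  have hN0 : (0 : ℝ) ≤ N := Nat.cast_nonneg N
  induction L using Finset.induction_on_max with
  | empty =>
    intro U _ hU
    rw [Finset.empty_union] at hU
    subst hU
    simp
  | insert g L hg ih =>
    intro U hLU hU
    have hgL : g ∉ L := fun h => lt_irrefl _ (hg g h)
    have hgU : ∀ b ∈ U, g < b := fun b hb => hLU g (Finset.mem_insert_self g L) b hb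
    have h1 := ih (insert g U) (by
      intro a ha b hb
      rcases Finset.mem_insert.1 hb with h | h
      · rw [h]; exact hg a ha
      · exact hLU a (Finset.mem_insert_of_mem ha) b h) (by
      rw [Finset.union_insert, ← Finset.insert_union]
      exact hU)
    have h2 := TN_step (μ := μ) hρ h01 hε hN x L U g hg hgU
    have h3 : insert g (L ∪ U) = H := by rw [← Finset.insert_union]; exact hU
    rw [h3] at h2
    have h4 := hH g (by rw [← h3]; exact Finset.mem_insert_self _ _)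
    have h5 := abs_le.1 h2
    rw [Finset.card_insert_of_notMem hgL]
    have hT0 := TN_nonneg (A := A) hρ x L (insert g U) ω
    set T := TN A ρ x L (insert g U) ω
    set E := TN A ρ x ∅ H ω
    have hM0 : 0 ≤ lam + N := by linarith
    push_cast
    constructor
    · have h6 : (1 - ε) * T - (lam + N) ≤ TN A ρ x (insert g L) U ω := by linarith [h5.1]
      have h7 : (1 - ε) * ((1 - ε) ^ L.card * E - L.card * (lam + N)) ≤ (1 - ε) * T :=
        mul_le_mul_of_nonneg_left h1.1 (by linarith)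
      have h8 : 0 ≤ ε * (L.card * (lam + N)) := by positivity
      calc (1 - ε) ^ (L.card + 1) * E - (L.card + 1) * (lam + N) ≤
          (1 - ε) * ((1 - ε) ^ L.card * E - L.card * (lam + N)) - (lam + N) := by
            rw [pow_succ]
            nlinarith
        _ ≤ _ := by linarith
    · have h6 : TN A ρ x (insert g L) U ω ≤ (1 + ε) * T + (lam + N) := by linarith [h5.2]
      have h7 : (1 + ε) * T ≤ (1 + ε) * ((1 + ε) ^ L.card * (E + L.card * (lam + N))) :=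
        mul_le_mul_of_nonneg_left h1.2 (by linarith)
      have h8 : (1 : ℝ) ≤ (1 + ε) ^ (L.card + 1) := one_le_pow₀ (by linarith)
      have h9 : lam + N ≤ (1 + ε) ^ (L.card + 1) * (lam + N) := le_mul_of_one_le_left hM0 h8
      calc TN A ρ x (insert g L) U ω ≤ (1 + ε) * ((1 + ε) ^ L.card * (E + L.card * (lam + N))) + (1 + ε) ^ (L.card + 1) * (lam + N) := by linarith
        _ = _ := by ring

/-- the general uniform law -/
theorem tup_law (hA : ∀ n, MeasurableSet[ℱ n] (A n)) (ρ : ℕ → ℝ) (hρ : ∀ n, 0 ≤ ρ n ∧ ρ n ≤ 1)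
    (hd : ∀ᵐ ω ∂μ, ∀ ε : ℝ, 0 < ε → ∀ᶠ n : ℕ in atTop, |dens μ ℱ A n ω - ρ (n + 1)| ≤ ε * ρ (n + 1)) :
    ∀ᵐ ω ∂μ, ∀ C : ℕ, ∀ ε : ℝ, 0 < ε → ε ≤ 1 → ∀ᶠ x : ℕ in atTop, ∀ H : Finset ℕ, H ⊆ Finset.range (x ^ C + 1) →
      (1 - ε) ^ H.card * TN A ρ x ∅ H ω - H.card * (2 * lamT C H.card x) ≤ TN A ρ x H ∅ ω ∧
      TN A ρ x H ∅ ω ≤ (1 + ε) ^ H.card * (TN A ρ x ∅ H ω + H.card * (2 * lamT C H.card x)) := by
  have h01 : ∀ᵐ ω ∂μ, ∀ n, 0 ≤ dens μ ℱ A n ω ∧ dens μ ℱ A n ω ≤ 1 := ae_all_iff.2 fun n => dens01 hA n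
  have herr : ∀ᵐ ω ∂μ, ∀ C : ℕ, ∀ᶠ x : ℕ in atTop, ∀ H : Finset ℕ, H ⊆ Finset.range (x ^ C + 1) → ∀ g ∈ H,
      |Sw μ ℱ A g (wt A ρ H g) x ω| < lamT C H.card x := ae_all_iff.2 fun C => tup_errors hA ρ hρ C
  filter_upwards [h01, herr, hd] with ω h1 h2 h3 C ε hε hε1
  obtain ⟨N, hN⟩ := eventually_atTop.1 (h3 ε hε)
  have hlarge : ∀ᶠ x : ℕ in atTop, (N : ℝ) ≤ √(x * Real.log x) := by
    have : Tendsto (fun n : ℕ => √(n * Real.log n)) atTop atTop :=
      Real.tendsto_sqrt_atTop.comp (tendsto_natCast_atTop_atTop.atTop_mul_atTop₀ tendsto_log)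
    exact this.eventually_ge_atTop _
  filter_upwards [h2 C, hlarge, eventually_ge_atTop 2] with x hx1 hx2 hx3 H hH
  rcases Finset.eq_empty_or_nonempty H with hHe | hHne
  · subst hHe
    simp
  have hk1 : 1 ≤ H.card := Finset.card_pos.2 hHne
  have hk1' : (1 : ℝ) ≤ H.card := by exact_mod_cast hk1
  have hlog : 0 ≤ Real.log (x : ℝ) := Real.log_natCast_nonneg x
  have hNl : (N : ℝ) ≤ lamT C H.card x := by
    refine hx2.trans ?_
    unfold lamT
    apply Real.sqrt_le_sqrt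
    have : (1 : ℝ) ≤ 8 * (C + 1) * H.card := by
      have : (0 : ℝ) ≤ C := Nat.cast_nonneg C
      nlinarith
    exact le_mul_of_one_le_left (by positivity) this
  have h4 := TN_bounds (μ := μ) hρ h1 hε.le hε1 hN x H (lam := lamT C H.card x) (Real.sqrt_nonneg _)
    (fun g hg => (hx1 H hH g hg).le) H ∅ (by simp) (by simp)
  have h5 : lamT C H.card x + N ≤ 2 * lamT C H.card x := by linarith
  have h6 : (H.card : ℝ) * (lamT C H.card x + N) ≤ H.card * (2 * lamT C H.card x) :=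
    mul_le_mul_of_nonneg_left h5 (Nat.cast_nonneg _)
  constructor
  · linarith [h4.1]
  · refine h4.2.trans (mul_le_mul_of_nonneg_left (by linarith) (by positivity))

end Pool.Agent.R528.RM
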