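import Mathlib
import Pool.Agent.R528.RM.Pat2

set_option autoImplicit false
set_option linter.unusedSectionVars false
set_option linter.unusedVariables false

/-! # Cheap patterns occur many times -/

open MeasureTheory Filter Set
open scoped ENNReal Topology

namespace Pool.Agent.R528.RM

variable {Ω : Type} {m0 : MeasurableSpace Ω} {μ : Measure Ω} [IsProbabilityMeasure μ]
  {ℱ : Filtration ℕ m0} {A : ℕ → Set Ω}

/-- the pattern with boundedly many members -/
def Bd (W : ℕ) (K : ℕ) (R : Finset ℕ) (H : ℕ) : Prop :=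
  0 < H ∧ W ∣ H ∧ (∀ r ∈ R, 1 ≤ r ∧ r ≤ H ∧ Nat.Coprime r W) ∧ R.card ≤ K

/-- the product of one block -/
lemma block_pi {W : ℕ} (hW : 0 < W) {ε : ℝ} (hε0 : 0 < ε) (hε1 : ε < 1) (K : ℕ) :
    ∀ᶠ x : ℕ in atTop, ∀ (R : Finset ℕ) (H : ℕ), Bd W K R H → (H : ℝ) ≤ Real.log x ^ 2 → ∀ T : ℕ, W ∣ T → x ≤ 2 * T → T + H ≤ x →
      (x : ℝ) ^ (-ε) * Real.exp (-(H / Real.log x)) ≤
        ∏ i ∈ Finset.range H, (if i + 1 ∈ R then lp W (ε / 20) (T + 1 + i) else 1 - up W (ε / 20) (T + 1 + i)) := by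
  classical
  set δ : ℝ := ε / 20 with hδ
  have hδ0 : 0 < δ := by positivity
  have hδ1 : δ ≤ 1 / 20 := by linarith
  have hφ : (1 : ℝ) ≤ Nat.totient W := by exact_mod_cast Nat.totient_pos.2 hW
  have hW' : (1 : ℝ) ≤ W := by exact_mod_cast hW
  have hWφ1 : 1 ≤ (W : ℝ) / Nat.totient W := by
    rw [le_div_iff₀ (by linarith)]
    have : (Nat.totient W : ℝ) ≤ W := by exact_mod_cast Nat.totient_le W
    linarith
  have hWφ2 : (W : ℝ) / Nat.totient W ≤ W := div_le_self (by linarith) hφ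
  have hu0 : ∀ n, 0 ≤ up W δ n := fun n => le_min zero_le_one (mul_nonneg (by linarith) (rhoW_nonneg W n))
  have hKll : ∀ᶠ x : ℕ in atTop, (K : ℝ) * (1 + Real.log (Real.log x)) ≤ ε / 4 * Real.log x := by
    have h1 : Tendsto (fun x : ℕ => (K : ℝ) * ((Real.log x)⁻¹ + Real.log (Real.log x) / Real.log x)) atTop (𝓝 0) := by
      have h2 := (Real.isLittleO_log_id_atTop.tendsto_div_nhds_zero).comp tendsto_log
      have h3 := ((tendsto_log.inv_tendsto_atTop).add h2).const_mul (K : ℝ)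
      rw [add_zero, mul_zero] at h3
      exact h3
    filter_upwards [h1.eventually (eventually_lt_nhds (show (0 : ℝ) < ε / 4 by positivity)), tendsto_log.eventually_gt_atTop 0] with x g1 g2
    have g3 := mul_lt_mul_of_pos_right g1 g2
    have g4 : (K : ℝ) * ((Real.log x)⁻¹ + Real.log (Real.log x) / Real.log x) * Real.log x = K * (1 + Real.log (Real.log x)) := by
      field_simp
    rw [g4] at g3
    exact g3.le
  filter_upwards [ev_log (4 * W / δ + 2), hKll, eventually_ge_atTop (4 * W + 4)] with x h1 h2 h4 R H hc hHL T hWT hxT hTH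
  obtain ⟨hH0, hHW, hR, hcard⟩ := hc
  have hx4 : (4 * W + 4 : ℝ) ≤ x := by exact_mod_cast h4
  have hxp : (0 : ℝ) < x := by linarith only [hx4, hW']
  have hx1 : (1 : ℝ) < x := by linarith only [hx4, hW']
  set L : ℝ := Real.log x with hL
  have hL1 : 2 ≤ L := by
    have : 0 ≤ 4 * (W : ℝ) / δ := by positivity
    linarith only [h1, this]
  have hLp : 0 < L := by linarith only [hL1]
  have hLW : 4 * (W : ℝ) ≤ δ * L := by
    have e1 : 4 * (W : ℝ) / δ ≤ L := by linarith only [h1]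
    rw [div_le_iff₀ hδ0] at e1
    linarith only [e1]
  have hHp : (0 : ℝ) < H := by exact_mod_cast hH0
  set lm : ℝ := 1 / (2 * L) with hlm
  have hlm0 : 0 < lm := by positivity
  have hlm1 : lm ≤ 1 := by
    rw [hlm, div_le_one (by positivity)]
    linarith only [hL1]
  set π : ℝ := lm ^ K * Real.exp (-((1 + δ) * ((1 + δ) * ((H + 2 * W) / ((1 - δ) * L))))) with hπ
  have hlogs : ∀ t : ℕ, T ≤ t → (1 - δ) * L ≤ Real.log t := by
    intro t ht
    have e1 : (x : ℝ) / 2 ≤ t := by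
      have : (x : ℝ) ≤ 2 * t := by exact_mod_cast (by omega : x ≤ 2 * t)
      linarith only [this]
    have e2 : Real.log ((x : ℝ) / 2) ≤ Real.log t := Real.log_le_log (by positivity) e1
    rw [Real.log_div hxp.ne' (by norm_num)] at e2
    have e3 : Real.log 2 ≤ 1 := by linarith only [Real.log_two_lt_d9]
    have e4 : 1 ≤ δ * L := by nlinarith only [hLW, hW']
    linarith only [e2, e3, e4]
  have hprod : π ≤ ∏ i ∈ Finset.range H, (if i + 1 ∈ R then lp W δ (T + 1 + i) else 1 - up W δ (T + 1 + i)) := by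
    have hsum : ∑ i ∈ Finset.range H, up W δ (T + 1 + i) ≤ (1 + δ) * ((H + 2 * W) / ((1 - δ) * L)) := by
      have e1 : ∑ i ∈ Finset.range H, up W δ (T + 1 + i) ≤ ∑ i ∈ Finset.range H, (1 + δ) * rhoW W (T + 1 + i) :=
        Finset.sum_le_sum fun i _ => min_le_right _ _
      rw [← Finset.mul_sum, sum_rhoW_eq] at e1
      refine e1.trans ?_
      apply mul_le_mul_of_nonneg_left _ (by linarith only [hδ0])
      have hls := hlogs T le_rfl
      have hls2 : (W : ℝ) / Nat.totient W ≤ Real.log (T : ℝ) := by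
        nlinarith only [hls, hLW, hWφ2, hδ1, hLp, hW']
      have e2 := (rho_cls1 (W := W) (q := 1) (a := 0) (s := T) (t := T + H) hW one_pos (zero_mem_admW W) (by omega) hls2 (by omega)).2
      refine e2.trans ?_
      rw [adm_oneW]
      push_cast
      rw [one_mul]
      apply div_le_div₀ (by positivity) _ (by
        have : 0 < 1 - δ := by linarith only [hδ1]
        positivity) _
      · linarith only
      · rw [one_mul]
        exact hls
    have key := prod_ge (c := fun i => i + 1 ∈ R) (l := fun i => lp W δ (T + 1 + i)) (u := fun i => up W δ (T + 1 + i)) (lm := lm) (κ := δ)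
      (H := H) (k := K) hlm0.le hlm1 (by
        intro i hi hiR
        have hn : Nat.Coprime (T + 1 + i) W := by
          have h5 := (hR _ hiR).2.2
          obtain ⟨w, hw⟩ := hWT
          have h6 : T + 1 + i = W * w + (i + 1) := by rw [hw]; ring
          rw [h6, Nat.coprime_mul_left_add_left]
          exact h5
        have hnx : ((T + 1 + i : ℕ) : ℝ) ≤ x := by exact_mod_cast (by omega : T + 1 + i ≤ x)
        have hnp : (1 : ℝ) < ((T + 1 + i : ℕ) : ℝ) := by exact_mod_cast (by omega : 1 < T + 1 + i)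
        have hln : Real.log ((T + 1 + i : ℕ) : ℝ) ≤ L := Real.log_le_log (by linarith only [hnp]) hnx
        have hln0 : 0 < Real.log ((T + 1 + i : ℕ) : ℝ) := Real.log_pos hnp
        show lm ≤ (1 - δ) * rhoW W (T + 1 + i)
        unfold rhoW
        rw [if_pos hn]
        have e1 : 1 / L ≤ min 1 (((W : ℝ) / Nat.totient W) / Real.log ((T + 1 + i : ℕ) : ℝ)) := by
          apply le_min
          · rw [div_le_one hLp]; linarith only [hL1]
          · exact div_le_div₀ (by linarith only [hWφ1]) hWφ1 hln0 hln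
        have e2 : lm ≤ (1 - δ) * (1 / L) := by
          have : lm = 1 / 2 * (1 / L) := by rw [hlm]; field_simp
          rw [this]
          apply mul_le_mul_of_nonneg_right (by linarith only [hδ1]) (by positivity)
        exact e2.trans (mul_le_mul_of_nonneg_left e1 (by linarith only [hδ1]))) (by linarith only [hδ1]) (fun i _ => hu0 _) (by
        intro i hi
        show 2 * up W δ (T + 1 + i) ≤ δ
        have e0 : up W δ (T + 1 + i) ≤ (1 + δ) * rhoW W (T + 1 + i) := min_le_right _ _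
        have hls := hlogs (T + 1 + i) (by omega)
        have e1 : rhoW W (T + 1 + i) ≤ W / ((1 - δ) * L) := by
          have hpos : 0 < (1 - δ) * L := mul_pos (by linarith only [hδ1]) hLp
          unfold rhoW
          split_ifs
          · refine (min_le_right _ _).trans ?_
            exact div_le_div₀ (by linarith only [hW']) hWφ2 hpos hls
          · positivity
        have e2 : (W : ℝ) / ((1 - δ) * L) ≤ δ / 3 := by
          have hpos : 0 < (1 - δ) * L := mul_pos (by linarith only [hδ1]) hLp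
          rw [div_le_iff₀ hpos]
          nlinarith only [hLW, hδ1, hLp, hδ0, mul_pos hδ0 hLp]
        nlinarith only [e0, e1, e2, hδ0, hδ1]) (by
        refine le_trans ?_ hcard
        apply Finset.card_le_card_of_injOn (fun i => i + 1)
        · intro i hi
          exact (Finset.mem_filter.1 (Finset.mem_coe.1 hi)).2
        · intro i _ j _ h
          have : i + 1 = j + 1 := h
          omega)
    refine le_trans ?_ key
    rw [hπ]
    apply mul_le_mul_of_nonneg_left _ (by positivity)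
    apply Real.exp_le_exp.2
    have := mul_le_mul_of_nonneg_left hsum (show 0 ≤ 1 + δ by linarith only [hδ0])
    linarith only [this]
  refine le_trans ?_ hprod
  have e1 : lm ^ K = Real.exp (-(K * (Real.log 2 + Real.log L))) := by
    rw [← Real.log_mul (by norm_num) hLp.ne', hlm, one_div, ← Real.exp_log (show 0 < (2 * L)⁻¹ by positivity), ← Real.exp_nat_mul, Real.log_inv]
    congr 1
    ring
  rw [hπ, e1, ← Real.exp_add, Real.rpow_def_of_pos hxp, ← Real.exp_add]
  apply Real.exp_le_exp.2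
  rw [← hL]
  have e2 : Real.log 2 ≤ 1 := by linarith only [Real.log_two_lt_d9]
  have e3 : (K : ℝ) * (Real.log 2 + Real.log L) ≤ ε / 4 * L :=
    (mul_le_mul_of_nonneg_left (by linarith only [e2]) (Nat.cast_nonneg _)).trans h2
  have e4 : (1 + δ) * ((1 + δ) * ((H + 2 * W) / ((1 - δ) * L))) ≤ (1 + 5 * δ) * ((H + 2 * W) / L) := by
    have f1 : (1 + δ) * (1 + δ) / (1 - δ) ≤ 1 + 5 * δ := by
      rw [div_le_iff₀ (by linarith only [hδ1])]
      nlinarith only [hδ0, hδ1]
    have f2 : (1 + δ) * ((1 + δ) * ((H + 2 * W) / ((1 - δ) * L))) = (1 + δ) * (1 + δ) / (1 - δ) * ((H + 2 * W) / L) := by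
      have : (1 - δ) ≠ 0 := by linarith only [hδ1]
      field_simp
    rw [f2]
    exact mul_le_mul_of_nonneg_right f1 (by positivity)
  have e5 : ((H : ℝ) + 2 * W) / L = H / L + 2 * W / L := add_div _ _ _
  have e6 : 2 * (W : ℝ) / L ≤ δ := by
    rw [div_le_iff₀ hLp]
    linarith only [hLW, hW']
  have e7 : (H : ℝ) / L ≤ L := by
    rw [div_le_iff₀ hLp]
    linarith only [hHL]
  have e8 : 5 * δ * (H / L) ≤ ε / 4 * L := by
    have : 5 * δ * (H / L) ≤ 5 * δ * L := mul_le_mul_of_nonneg_left e7 (by positivity)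
    rw [hδ] at this ⊢
    linarith only [this]
  have e11 : (1 + 5 * δ) * (2 * W / L) ≤ (1 + 5 * δ) * δ := mul_le_mul_of_nonneg_left e6 (by linarith only [hδ0])
  have e12 : (1 + 5 * δ) * δ ≤ ε / 4 * L := by
    rw [hδ]
    nlinarith only [hε0, hε1, hL1]
  rw [e5, mul_add] at e4
  linarith only [e3, e4, e8, e11, e12, mul_pos hε0 hLp]

/-- the number of blocks in a group -/
noncomputable def gM (ε : ℝ) (x H : ℕ) : ℕ := ⌈(x : ℝ) ^ (2 * ε) * Real.exp (H / Real.log x)⌉₊

/-- the start of the group -/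
noncomputable def gs (W : ℕ) (ε : ℝ) (x H g : ℕ) : ℕ := sx W x + H * (gM ε x H * g)

theorem group_prob (hA : ∀ n, MeasurableSet[ℱ n] (A n)) {W : ℕ} (hW : 0 < W) {ε : ℝ} (hε0 : 0 < ε) (hε1 : ε < 1) (K : ℕ) :
    ∀ᶠ x : ℕ in atTop, ∀ (R : Finset ℕ) (H : ℕ), Bd W K R H → (H : ℝ) ≤ Real.log x ^ 2 → ∀ g : ℕ, gs W ε x H (g + 1) ≤ x →
      μ.real {ω | (∀ m < gM ε x H, ω ∉ PatE A (fun n => n - (gs W ε x H g + H * m) ∈ R) (gs W ε x H g + H * m) H) ∧
        ∀ n, x ≤ 2 * n → n < x → ω ∉ VB μ ℱ A (lp W (ε / 20)) (up W (ε / 20)) n} ≤ Real.exp (-((x : ℝ) ^ ε)) := by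
  classical
  have hδ0 : 0 < ε / 20 := by positivity
  have hl0 : ∀ n, 0 ≤ lp W (ε / 20) n := fun n => mul_nonneg (by linarith) (rhoW_nonneg W n)
  have hl1 : ∀ n, lp W (ε / 20) n ≤ 1 := by
    intro n
    have h1 := rhoW_le W n
    have h2 := rhoW_nonneg W n
    unfold lp
    nlinarith only [h1, h2, hε0, hε1]
  have hu0 : ∀ n, 0 ≤ up W (ε / 20) n := fun n => le_min zero_le_one (mul_nonneg (by linarith) (rhoW_nonneg W n))
  have hu1 : ∀ n, up W (ε / 20) n ≤ 1 := fun n => min_le_left _ _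
  filter_upwards [block_pi hW hε0 hε1 K, eventually_gt_atTop 0] with x h1 h2 R H hc hH g hg
  have hxp : (0 : ℝ) < x := by exact_mod_cast h2
  set M := gM ε x H with hM
  set s := gs W ε x H g with hs
  obtain ⟨hs1, hs2⟩ := sx_bounds hW x
  have hsg : gs W ε x H (g + 1) = s + H * M := by
    rw [hs]
    unfold gs
    rw [← hM]
    ring
  have hsx : sx W x ≤ s := by
    rw [hs]; unfold gs; omega
  have hWs : W ∣ s := by
    rw [hs]
    unfold gs
    apply Dvd.dvd.add
    · exact Dvd.intro _ rfl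
    · exact hc.2.1.mul_right _
  have hprod : ∀ m < M, (x : ℝ) ^ (-ε) * Real.exp (-(H / Real.log x)) ≤
      ∏ i ∈ Finset.range H, (if i + 1 ∈ R then lp W (ε / 20) (s + H * m + 1 + i) else 1 - up W (ε / 20) (s + H * m + 1 + i)) := by
    intro m hm
    have hmM : H * m + H ≤ H * M := by
      have : H * (m + 1) ≤ H * M := Nat.mul_le_mul_left _ hm
      linarith only [this]
    exact h1 R H hc hH (s + H * m) (hWs.add (hc.2.1.mul_right _)) (by omega) (by omega)
  have hblk := pat_blocks (μ := μ) (ℱ := ℱ) hA hl0 hl1 hu0 hu1 R s H M hprod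
  refine (measureReal_mono ?_ (measure_ne_top _ _)).trans (hblk.trans ?_)
  · rintro ω ⟨g1, g2⟩
    exact ⟨g1, fun n hn1 hn2 => g2 n (by omega) (by omega)⟩
  · apply Real.exp_le_exp.2
    apply neg_le_neg
    have e1 : (x : ℝ) ^ (2 * ε) * Real.exp (H / Real.log x) ≤ M := Nat.le_ceil _
    have e2 : (x : ℝ) ^ ε = (x : ℝ) ^ (2 * ε) * Real.exp (H / Real.log x) * ((x : ℝ) ^ (-ε) * Real.exp (-(H / Real.log x))) := by
      have e3 : (x : ℝ) ^ ε = (x : ℝ) ^ (2 * ε) * (x : ℝ) ^ (-ε) := by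
        rw [← Real.rpow_add hxp]; congr 1; ring
      have e4 : Real.exp (H / Real.log x) * Real.exp (-(H / Real.log x)) = 1 := by
        rw [← Real.exp_add, add_neg_cancel, Real.exp_zero]
      calc (x : ℝ) ^ ε = (x : ℝ) ^ (2 * ε) * (x : ℝ) ^ (-ε) * 1 := by rw [e3, mul_one]
        _ = _ := by rw [← e4]; ring
    rw [e2]
    exact mul_le_mul_of_nonneg_right e1 (by positivity)

/-- every group contains the pattern -/
theorem groups_all (hA : ∀ n, MeasurableSet[ℱ n] (A n)) {W : ℕ} (hW : 0 < W)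
    (hd : ∀ᵐ ω ∂μ, ∀ ε : ℝ, 0 < ε → ∀ᶠ n : ℕ in atTop, |dens μ ℱ A n ω - rhoW W (n + 1)| ≤ ε * rhoW W (n + 1))
    {ε : ℝ} (hε0 : 0 < ε) (hε1 : ε < 1) (K : ℕ) :
    ∀ᵐ ω ∂μ, ∀ᶠ x : ℕ in atTop, ∀ (R : Finset ℕ) (H : ℕ), Bd W K R H → (H : ℝ) ≤ Real.log x ^ 2 →
      ∀ g, gs W ε x H (g + 1) ≤ x → ∃ m < gM ε x H, ω ∈ PatE A (fun n => n - (gs W ε x H g + H * m) ∈ R) (gs W ε x H g + H * m) H := by
  classical
  set B : ℕ → Finset ℕ → ℕ → ℕ → Set Ω := fun x R H g => {ω | (∀ m < gM ε x H, ω ∉ PatE A (fun n => n - (gs W ε x H g + H * m) ∈ R) (gs W ε x H g + H * m) H) ∧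
        ∀ n, x ≤ 2 * n → n < x → ω ∉ VB μ ℱ A (lp W (ε / 20)) (up W (ε / 20)) n} with hB
  have hb : ∀ᶠ x : ℕ in atTop, μ.real {ω | ∃ (R : Finset ℕ) (H g : ℕ), Bd W K R H ∧ (H : ℝ) ≤ Real.log x ^ 2 ∧ gs W ε x H (g + 1) ≤ x ∧ ω ∈ B x R H g} ≤ (x : ℝ) ^ (-2 : ℝ) := by
    filter_upwards [group_prob (μ := μ) (ℱ := ℱ) hA hW hε0 hε1 K, ev_log 1, ev_pow (a := 0) (b := ε) (by positivity) (K + 6),
      ev_pow (a := 0) (b := 1 / 2) (by norm_num) 4] with x h1 h2 h3 h3'
    rw [Real.rpow_zero, mul_one] at h3 h3'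
    set L : ℝ := Real.log x with hL
    have hLp : 0 < L := by linarith only [h2]
    have hxp : (0 : ℝ) < x := by
      by_contra hcon
      push Not at hcon
      have : (x : ℝ) = 0 := le_antisymm hcon (Nat.cast_nonneg _)
      rw [hL, this, Real.log_zero] at h2
      linarith only [h2]
    have hx0 : 0 < x := by exact_mod_cast hxp
    set HM : ℕ := ⌊L ^ 2⌋₊ with hHM
    set I : Finset ((Finset ℕ × ℕ) × ℕ) := ((Finset.range (HM + 1)).biUnion (fun H => (((Finset.Icc 1 H).powerset).filter (fun R => R.card ≤ K)).image (fun R => (R, H)))) ×ˢ Finset.range x with hI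
    have hmem : ∀ (R : Finset ℕ) (H g : ℕ), Bd W K R H → (H : ℝ) ≤ L ^ 2 → gs W ε x H (g + 1) ≤ x → ((R, H), g) ∈ I := by
      rintro R H g ⟨c1, c2, c3, c4⟩ h5 h6
      rw [hI, Finset.mem_product, Finset.mem_biUnion]
      refine ⟨⟨H, ?_, ?_⟩, ?_⟩
      · rw [Finset.mem_range, Nat.lt_succ_iff]
        exact Nat.le_floor h5
      · rw [Finset.mem_image]
        refine ⟨R, ?_, rfl⟩
        rw [Finset.mem_filter, Finset.mem_powerset]
        exact ⟨fun r hr => Finset.mem_Icc.2 ⟨(c3 r hr).1, (c3 r hr).2.1⟩, c4⟩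
      · rw [Finset.mem_range]
        show g < x
        unfold gs at h6
        have hM1 : 1 ≤ gM ε x H := Nat.one_le_ceil_iff.2 (by positivity)
        have h7 : g + 1 ≤ H * (gM ε x H * (g + 1)) := by
          calc g + 1 = 1 * (1 * (g + 1)) := by ring
            _ ≤ H * (gM ε x H * (g + 1)) := Nat.mul_le_mul c1 (Nat.mul_le_mul_right _ hM1)
        omega
    have hsub : {ω | ∃ (R : Finset ℕ) (H g : ℕ), Bd W K R H ∧ (H : ℝ) ≤ L ^ 2 ∧ gs W ε x H (g + 1) ≤ x ∧ ω ∈ B x R H g} ⊆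
        ⋃ i ∈ I.filter (fun i => Bd W K i.1.1 i.1.2 ∧ (i.1.2 : ℝ) ≤ L ^ 2 ∧ gs W ε x i.1.2 (i.2 + 1) ≤ x), B x i.1.1 i.1.2 i.2 := by
      rintro ω ⟨R, H, g, g1, g2, g3, g4⟩
      exact mem_biUnion (x := ((R, H), g)) (Finset.mem_coe.2 (Finset.mem_filter.2 ⟨hmem R H g g1 g2 g3, g1, g2, g3⟩)) g4
    refine (measureReal_mono hsub (measure_ne_top _ _)).trans ((measureReal_biUnion_finset_le _ _).trans ?_)
    refine (Finset.sum_le_sum fun i hi => h1 i.1.1 i.1.2 (Finset.mem_filter.1 hi).2.1 (Finset.mem_filter.1 hi).2.2.1 i.2 (Finset.mem_filter.1 hi).2.2.2).trans ?_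
    rw [Finset.sum_const, nsmul_eq_mul]
    have hcard : ((I.filter (fun i => Bd W K i.1.1 i.1.2 ∧ (i.1.2 : ℝ) ≤ L ^ 2 ∧ gs W ε x i.1.2 (i.2 + 1) ≤ x)).card : ℝ) ≤ (x : ℝ) ^ ((K : ℝ) + 2) := by
      have e1 : I.card ≤ (∑ H ∈ Finset.range (HM + 1), (HM + 1) ^ K) * x := by
        rw [hI, Finset.card_product, Finset.card_range]
        apply Nat.mul_le_mul_right
        refine Finset.card_biUnion_le.trans (Finset.sum_le_sum fun H hH => ?_)
        refine Finset.card_image_le.trans ((card_small H K).trans ?_)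
        exact Nat.pow_le_pow_left (by have := Finset.mem_range.1 hH; omega) K
      rw [Finset.sum_const, Finset.card_range, smul_eq_mul] at e1
      have e2 : ((I.filter (fun i => Bd W K i.1.1 i.1.2 ∧ (i.1.2 : ℝ) ≤ L ^ 2 ∧ gs W ε x i.1.2 (i.2 + 1) ≤ x)).card : ℝ) ≤
          ((HM + 1 : ℕ) : ℝ) * ((HM + 1 : ℕ) : ℝ) ^ K * x := by
        have := (Finset.card_filter_le I (fun i => Bd W K i.1.1 i.1.2 ∧ (i.1.2 : ℝ) ≤ L ^ 2 ∧ gs W ε x i.1.2 (i.2 + 1) ≤ x)).trans e1
        exact_mod_cast this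
      refine e2.trans ?_
      have e3 : ((HM + 1 : ℕ) : ℝ) ≤ 2 * L ^ 2 := by
        push_cast
        have : (HM : ℝ) ≤ L ^ 2 := Nat.floor_le (by positivity)
        nlinarith only [this, h2]
      have e4 : (2 : ℝ) * L ^ 2 ≤ x := by
        have f3 : (x : ℝ) ^ (1 / 2 : ℝ) * (x : ℝ) ^ (1 / 2 : ℝ) = x := by
          rw [← Real.rpow_add hxp]; norm_num
        nlinarith only [f3, h3', hLp]
      have e5 : ((HM + 1 : ℕ) : ℝ) ^ K ≤ (x : ℝ) ^ K := pow_le_pow_left₀ (by positivity) (e3.trans e4) K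
      calc ((HM + 1 : ℕ) : ℝ) * ((HM + 1 : ℕ) : ℝ) ^ K * x ≤ x * (x : ℝ) ^ K * x := by
            apply mul_le_mul_of_nonneg_right _ hxp.le
            exact mul_le_mul (e3.trans e4) e5 (by positivity) hxp.le
        _ = (x : ℝ) ^ (K + 2) := by ring
        _ = (x : ℝ) ^ ((K : ℝ) + 2) := by
            rw [← Real.rpow_natCast]
            push_cast
            rfl
    have hexp : Real.exp (-((x : ℝ) ^ ε)) ≤ (x : ℝ) ^ (-((K : ℝ) + 4)) := by
      have e1 : (x : ℝ) ^ (-((K : ℝ) + 4)) = Real.exp (Real.log x * (-((K : ℝ) + 4))) := Real.rpow_def_of_pos hxp _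
      rw [e1]
      apply Real.exp_le_exp.2
      rw [← hL]
      have : (0 : ℝ) ≤ K := Nat.cast_nonneg _
      nlinarith only [h3, hLp, this]
    calc _ ≤ (x : ℝ) ^ ((K : ℝ) + 2) * (x : ℝ) ^ (-((K : ℝ) + 4)) :=
          mul_le_mul hcard hexp (Real.exp_pos _).le (by positivity)
      _ = (x : ℝ) ^ (-2 : ℝ) := by rw [← Real.rpow_add hxp]; congr 1; ring
  have h01 : ∀ᵐ ω ∂μ, ∀ n, 0 ≤ dens μ ℱ A n ω ∧ dens μ ℱ A n ω ≤ 1 := ae_all_iff.2 fun n => dens01 hA n
  filter_upwards [bc_real (μ := μ) (summable_pow_nat (s := -2) (by norm_num)) hb, hd, h01] with ω hω hdω h01ω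
  obtain ⟨N, hN⟩ := dens_two hdω (show 0 < ε / 20 by positivity)
  filter_upwards [hω, eventually_ge_atTop (2 * N + 1)] with x h1 h2 R H hc hHL
  have hv : ∀ n, x ≤ 2 * n → n < x → ω ∉ VB μ ℱ A (lp W (ε / 20)) (up W (ε / 20)) n := by
    intro n hn _
    rintro hcon
    apply hcon
    have g1 := (hN N le_rfl).1 n (by omega)
    have g2 := (hN N le_rfl).2 n (by omega)
    exact ⟨g2, le_min (h01ω n).2 g1⟩
  intro g hg
  by_contra hcon
  push Not at hcon
  exact h1 ⟨R, H, g, hc, hHL, hg, hcon, hv⟩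

/-- **cheap patterns with boundedly many members occur many times, and everywhere** -/
theorem many_all (hA : ∀ n, MeasurableSet[ℱ n] (A n)) {W : ℕ} (hW : 0 < W)
    (hd : ∀ᵐ ω ∂μ, ∀ ε : ℝ, 0 < ε → ∀ᶠ n : ℕ in atTop, |dens μ ℱ A n ω - rhoW W (n + 1)| ≤ ε * rhoW W (n + 1))
    {ε : ℝ} (hε0 : 0 < ε) (hε1 : ε < 1) (K : ℕ) :
    ∀ᵐ ω ∂μ, ∀ᶠ x : ℕ in atTop, ∀ (R : Finset ℕ) (H : ℕ), Bd W K R H → (H : ℝ) / Real.log x ≤ (1 - 5 * ε) * Real.log x →
      (∃ F : Finset ℕ, (x : ℝ) ^ (1 - 3 * ε) * Real.exp (-(H / Real.log x)) ≤ F.card ∧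
        ∀ t ∈ F, x ≤ 2 * t ∧ t + H ≤ x ∧ W ∣ t ∧ ω ∈ PatE A (fun n => n - t ∈ R) t H) ∧
      (∀ u : ℕ, x ≤ 2 * u → (u : ℝ) + (x : ℝ) ^ (3 * ε) * Real.exp (H / Real.log x) ≤ x →
        ∃ t : ℕ, u ≤ t ∧ ((t + H : ℕ) : ℝ) ≤ u + (x : ℝ) ^ (3 * ε) * Real.exp (H / Real.log x) ∧ W ∣ t ∧ ω ∈ PatE A (fun n => n - t ∈ R) t H) := by
  classical
  filter_upwards [groups_all (μ := μ) (ℱ := ℱ) hA hW hd hε0 hε1 K] with ω hω
  filter_upwards [hω, eventually_ge_atTop (4 * W), ev_log 1,
    ev_pow (a := 0) (b := ε / 2) (by positivity) 16, ev_pow (a := 1 - ε) (b := 1) (by linarith) 64] with x h1 h3 h4 h5 h5' R H hc hcost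
  obtain ⟨hs1, hs2⟩ := sx_bounds hW x
  obtain ⟨c1, c2, c3, c4⟩ := id hc
  set L : ℝ := Real.log x with hL
  have hLp : 0 < L := by linarith only [h4]
  have hxp : (0 : ℝ) < x := by
    have : 0 < x := by omega
    exact_mod_cast this
  have hx1 : (1 : ℝ) ≤ x := by
    have : 1 ≤ x := by omega
    exact_mod_cast this
  have hHp : (1 : ℝ) ≤ H := by exact_mod_cast c1
  have hHL : (H : ℝ) ≤ L ^ 2 := by
    have e2 : (H : ℝ) / L ≤ 1 * L := hcost.trans (mul_le_mul_of_nonneg_right (by linarith only [hε0]) hLp.le)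
    rw [div_le_iff₀ hLp] at e2
    linarith only [e2]
  have h6 : ∀ g, gs W ε x H (g + 1) ≤ x → ∃ m < gM ε x H, ω ∈ PatE A (fun n => n - (gs W ε x H g + H * m) ∈ R) (gs W ε x H g + H * m) H :=
    h1 R H hc hHL
  choose! m hm1 hm2 using h6
  set M := gM ε x H with hM
  have hM1 : 1 ≤ M := Nat.one_le_ceil_iff.2 (by positivity)
  have hML : (M : ℝ) ≤ 2 * ((x : ℝ) ^ (2 * ε) * Real.exp (H / L)) := by
    have e1 : (M : ℝ) < (x : ℝ) ^ (2 * ε) * Real.exp (H / L) + 1 := Nat.ceil_lt_add_one (by positivity)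
    have e2 : 1 ≤ (x : ℝ) ^ (2 * ε) := Real.one_le_rpow hx1 (by positivity)
    have e3 : 1 ≤ Real.exp (H / L) := Real.one_le_exp (by positivity)
    nlinarith only [e1, e2, e3]
  have hHM : (H : ℝ) * M ≤ L ^ 2 * (2 * ((x : ℝ) ^ (2 * ε) * Real.exp (H / L))) :=
    mul_le_mul hHL hML (Nat.cast_nonneg _) (by positivity)
  rw [Real.rpow_zero, mul_one] at h5
  have h16 : 16 * L ^ 2 ≤ (x : ℝ) ^ ε := by
    have f1 : (x : ℝ) ^ ε = (x : ℝ) ^ (ε / 2) * (x : ℝ) ^ (ε / 2) := by
      rw [← Real.rpow_add hxp]; congr 1; ring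
    rw [f1]
    nlinarith only [h5, hLp]
  constructor
  swap
  · -- everywhere
    intro u hu1 hu2
    have h2HM : 2 * ((H : ℝ) * M) ≤ (x : ℝ) ^ (3 * ε) * Real.exp (H / L) := by
      have e1 : (x : ℝ) ^ (3 * ε) = (x : ℝ) ^ ε * (x : ℝ) ^ (2 * ε) := by rw [← Real.rpow_add hxp]; congr 1; ring
      have e2 : 2 * (L ^ 2 * (2 * ((x : ℝ) ^ (2 * ε) * Real.exp (H / L)))) ≤ (x : ℝ) ^ ε * ((x : ℝ) ^ (2 * ε) * Real.exp (H / L)) := by
        have : 2 * (L ^ 2 * (2 * ((x : ℝ) ^ (2 * ε) * Real.exp (H / L)))) = 4 * L ^ 2 * ((x : ℝ) ^ (2 * ε) * Real.exp (H / L)) := by ring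
        rw [this]
        apply mul_le_mul_of_nonneg_right _ (by positivity)
        nlinarith only [h16, hLp]
      rw [e1, mul_assoc]
      linarith only [e2, hHM]
    have hHM0 : 0 < H * M := Nat.mul_pos c1 hM1
    -- the group
    obtain ⟨g, hg1, hg2⟩ : ∃ g, u ≤ gs W ε x H g ∧ gs W ε x H g ≤ u + H * M + W := by
      rcases le_or_gt u (sx W x) with h | h
      · refine ⟨0, ?_, ?_⟩
        · unfold gs; omega
        · unfold gs
          rw [Nat.mul_zero, Nat.mul_zero]
          omega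
      · refine ⟨(u - sx W x) / (H * M) + 1, ?_, ?_⟩
        · unfold gs
          rw [← hM, ← mul_assoc]
          have e1 := Nat.lt_div_mul_add (a := u - sx W x) hHM0
          have e2 : H * M * ((u - sx W x) / (H * M) + 1) = (u - sx W x) / (H * M) * (H * M) + H * M := by ring
          omega
        · unfold gs
          rw [← hM, ← mul_assoc]
          have e1 := Nat.div_mul_le_self (u - sx W x) (H * M)
          have e2 : H * M * ((u - sx W x) / (H * M) + 1) = (u - sx W x) / (H * M) * (H * M) + H * M := by ring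
          omega
    have e5 : gs W ε x H (g + 1) = gs W ε x H g + H * M := by
      unfold gs
      rw [← hM]
      ring
    have hWH : W ≤ H := Nat.le_of_dvd c1 c2
    have hWHM : W ≤ H * M := hWH.trans (Nat.le_mul_of_pos_right H hM1)
    have h3HM : 3 * ((H : ℝ) * M) ≤ (x : ℝ) ^ (3 * ε) * Real.exp (H / L) := by
      have e1 : (x : ℝ) ^ (3 * ε) = (x : ℝ) ^ ε * (x : ℝ) ^ (2 * ε) := by rw [← Real.rpow_add hxp]; congr 1; ring
      have e2 : 3 * (L ^ 2 * (2 * ((x : ℝ) ^ (2 * ε) * Real.exp (H / L)))) ≤ (x : ℝ) ^ ε * ((x : ℝ) ^ (2 * ε) * Real.exp (H / L)) := by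
        have : 3 * (L ^ 2 * (2 * ((x : ℝ) ^ (2 * ε) * Real.exp (H / L)))) = 6 * L ^ 2 * ((x : ℝ) ^ (2 * ε) * Real.exp (H / L)) := by ring
        rw [this]
        apply mul_le_mul_of_nonneg_right _ (by positivity)
        nlinarith only [h16, hLp]
      rw [e1, mul_assoc]
      linarith only [e2, hHM]
    have hend : gs W ε x H (g + 1) ≤ u + 3 * (H * M) := by omega
    have hendR : ((gs W ε x H (g + 1) : ℕ) : ℝ) ≤ u + (x : ℝ) ^ (3 * ε) * Real.exp (H / L) := by
      have : ((gs W ε x H (g + 1) : ℕ) : ℝ) ≤ ((u + 3 * (H * M) : ℕ) : ℝ) := by exact_mod_cast hend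
      push_cast at this
      linarith only [this, h3HM]
    have hgx : gs W ε x H (g + 1) ≤ x := by
      have : ((gs W ε x H (g + 1) : ℕ) : ℝ) ≤ x := hendR.trans hu2
      exact_mod_cast this
    have e1 := hm1 g hgx
    have e6 : H * m g + H ≤ H * M := by
      have : H * (m g + 1) ≤ H * M := Nat.mul_le_mul_left _ e1
      linarith only [this]
    refine ⟨gs W ε x H g + H * m g, by omega, ?_, ?_, hm2 g hgx⟩
    · refine le_trans ?_ hendR
      exact_mod_cast (by omega : gs W ε x H g + H * m g + H ≤ gs W ε x H (g + 1))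
    · apply Dvd.dvd.add
      · unfold gs
        apply Dvd.dvd.add
        · exact Dvd.intro _ rfl
        · exact c2.mul_right _
      · exact c2.mul_right _
  set G : ℕ := x / (4 * (H * M)) with hG
  have hG1 : ∀ g < G, gs W ε x H (g + 1) ≤ x := by
    intro g hg
    unfold gs
    rw [← hM]
    have e1 : 4 * (H * M) * G ≤ x := Nat.mul_div_le x _
    have e2 : H * (M * (g + 1)) ≤ H * M * G := by
      rw [← mul_assoc]
      exact Nat.mul_le_mul_left _ hg
    have e3 : 4 * (H * M) * G = 4 * (H * M * G) := by ring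
    omega
  refine ⟨(Finset.range G).image (fun g => gs W ε x H g + H * m g), ?_, ?_⟩
  · -- cardinality
    rw [Finset.card_image_of_injOn, Finset.card_range]
    · have hG2 : (x : ℝ) / (4 * (H * M)) < G + 1 := by
        have f1 := Nat.lt_floor_add_one ((x : ℝ) / (4 * (H * M)))
        have f2 : ⌊(x : ℝ) / (4 * (H * M))⌋₊ = G := by
          have : ((4 * (H * M) : ℕ) : ℝ) = 4 * ((H : ℝ) * M) := by push_cast; ring
          rw [← this, Nat.floor_div_eq_div]
        rw [f2] at f1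
        exact f1
      -- the main inequality
      set X : ℝ := (x : ℝ) ^ (1 - 3 * ε) * Real.exp (-(H / L)) with hX
      have hX1 : 1 ≤ X := by
        rw [hX, Real.rpow_def_of_pos hxp, ← Real.exp_add, ← hL]
        apply Real.one_le_exp
        nlinarith only [hcost, hLp, hε0]
      have hXX : 2 * X ≤ (x : ℝ) / (4 * (H * M)) := by
        rw [le_div_iff₀ (by
          have : (1 : ℝ) ≤ M := by exact_mod_cast hM1
          positivity)]
        have e1 : 2 * X * (4 * (H * M)) ≤ 2 * X * (4 * (L ^ 2 * (2 * ((x : ℝ) ^ (2 * ε) * Real.exp (H / L))))) := by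
          apply mul_le_mul_of_nonneg_left _ (by positivity)
          linarith only [hHM]
        refine e1.trans ?_
        have e2 : Real.exp (H / L) * Real.exp (-(H / L)) = 1 := by
          rw [← Real.exp_add, add_neg_cancel, Real.exp_zero]
        have e3 : (x : ℝ) ^ (1 - 3 * ε) * (x : ℝ) ^ (2 * ε) = (x : ℝ) ^ (1 - ε) := by
          rw [← Real.rpow_add hxp]; congr 1; ring
        have e4 : 2 * X * (4 * (L ^ 2 * (2 * ((x : ℝ) ^ (2 * ε) * Real.exp (H / L))))) = 16 * L ^ 2 * (x : ℝ) ^ (1 - ε) := by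
          rw [hX]
          calc 2 * ((x : ℝ) ^ (1 - 3 * ε) * Real.exp (-(H / L))) * (4 * (L ^ 2 * (2 * ((x : ℝ) ^ (2 * ε) * Real.exp (H / L)))))
              = 16 * L ^ 2 * ((x : ℝ) ^ (1 - 3 * ε) * (x : ℝ) ^ (2 * ε)) * (Real.exp (H / L) * Real.exp (-(H / L))) := by ring
            _ = _ := by rw [e2, e3, mul_one]
        rw [e4]
        calc 16 * L ^ 2 * (x : ℝ) ^ (1 - ε) ≤ (x : ℝ) ^ ε * (x : ℝ) ^ (1 - ε) := mul_le_mul_of_nonneg_right h16 (by positivity)
          _ = x := by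
              rw [← Real.rpow_add hxp]
              have : ε + (1 - ε) = 1 := by ring
              rw [this, Real.rpow_one]
      linarith only [hXX, hG2, hX1]
    · -- injective
      have hlt : ∀ g g', g < g' → g < G → gs W ε x H g + H * m g < gs W ε x H g' + H * m g' := by
        intro g g' hgg hg
        have e1 := hm1 g (hG1 g hg)
        have e2 : gs W ε x H g + H * M ≤ gs W ε x H g' := by
          unfold gs
          rw [← hM]
          have : H * (M * (g + 1)) ≤ H * (M * g') := Nat.mul_le_mul_left _ (Nat.mul_le_mul_left _ hgg)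
          have e3 : H * (M * (g + 1)) = H * (M * g) + H * M := by ring
          omega
        have e4 : H * m g < H * M := Nat.mul_lt_mul_of_pos_left e1 c1
        omega
      intro g hg g' hg' h
      have hg := Finset.mem_range.1 (Finset.mem_coe.1 hg)
      have hg' := Finset.mem_range.1 (Finset.mem_coe.1 hg')
      have h : gs W ε x H g + H * m g = gs W ε x H g' + H * m g' := h
      rcases lt_trichotomy g g' with hlt' | heq | hgt
      · have := hlt g g' hlt' hg; omega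
      · exact heq
      · have := hlt g' g hgt hg'; omega
  · intro t ht
    obtain ⟨g, hg, rfl⟩ := Finset.mem_image.1 ht
    have hg := Finset.mem_range.1 hg
    have e0 := hG1 g hg
    have e1 := hm1 g e0
    have e5 : gs W ε x H (g + 1) = gs W ε x H g + H * M := by
      unfold gs
      rw [← hM]
      ring
    have e6 : H * m g + H ≤ H * M := by
      have : H * (m g + 1) ≤ H * M := Nat.mul_le_mul_left _ e1
      linarith only [this]
    have e7 : sx W x ≤ gs W ε x H g := by unfold gs; omega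
    refine ⟨by omega, by omega, ?_, hm2 g e0⟩
    apply Dvd.dvd.add
    · unfold gs
      apply Dvd.dvd.add
      · exact Dvd.intro _ rfl
      · exact c2.mul_right _
    · exact c2.mul_right _

end Pool.Agent.R528.RM
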