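import Mathlib
import Pool.Agent.R528.RM.Pat5

set_option autoImplicit false
set_option linter.unusedSectionVars false
set_option linter.unusedVariables false

/-! # Patterns do not occur too many times -/

open MeasureTheory Filter Set
open scoped ENNReal Topology

namespace Pool.Agent.R528.RM

variable {Ω : Type} {m0 : MeasurableSpace Ω} {μ : Measure Ω} [IsProbabilityMeasure μ]
  {ℱ : Filtration ℕ m0} {A : ℕ → Set Ω}

/-- series of nonnegative functions with summable means converge almost surely -/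
lemma ae_summable_of {f : ℕ → Ω → ℝ} (hf0 : ∀ n ω, 0 ≤ f n ω) (hfi : ∀ n, Integrable (f n) μ) {c : ℕ → ℝ} (hc : Summable c)
    (h : ∀ᶠ n in atTop, ∫ ω, f n ω ∂μ ≤ c n) : ∀ᵐ ω ∂μ, Summable (fun n => f n ω) := by
  obtain ⟨N, hN⟩ := eventually_atTop.1 h
  have h1 : ∫⁻ ω, ∑' n, ENNReal.ofReal (f (n + N) ω) ∂μ ≠ ∞ := by
    rw [lintegral_tsum fun n => (hfi (n + N)).aestronglyMeasurable.aemeasurable.ennreal_ofReal]
    have h2 : ∀ n, ∫⁻ ω, ENNReal.ofReal (f (n + N) ω) ∂μ ≤ ENNReal.ofReal (c (n + N)) := by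
      intro n
      rw [← ofReal_integral_eq_lintegral_ofReal (hfi _) (Eventually.of_forall fun ω => hf0 _ ω)]
      exact ENNReal.ofReal_le_ofReal (hN _ (by omega))
    have h3 : Summable (fun n => c (n + N)) := (summable_nat_add_iff N).2 hc
    exact ((ENNReal.tsum_le_tsum h2).trans_lt (lt_top_iff_ne_top.2 h3.tsum_ofReal_ne_top)).ne
  have h4 := ae_lt_top' (AEMeasurable.ennreal_tsum fun n => (hfi (n + N)).aestronglyMeasurable.aemeasurable.ennreal_ofReal) h1
  filter_upwards [h4] with ω hω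
  rw [← summable_nat_add_iff N]
  have h5 := ENNReal.summable_toReal hω.ne
  refine h5.congr fun n => ?_
  rw [ENNReal.toReal_ofReal (hf0 _ _)]

/-- the probability of a pattern -/
theorem bounded_prob (hA : ∀ n, MeasurableSet[ℱ n] (A n)) {W : ℕ} (hW : 0 < W) {ε : ℝ} (hε0 : 0 < ε) (hε1 : ε < 1) {C : ℝ} (hC : 0 ≤ C) :
    ∀ᶠ n : ℕ in atTop, ∀ (R : Finset ℕ) (H : ℕ), (∀ r ∈ R, 1 ≤ r ∧ r ≤ H) → (H : ℝ) ≤ C * Real.log n ^ 2 →
      μ.real (PatE A (fun m => m - n ∈ R) n H ∩ {ω | ∀ m, n ≤ m → m < n + H → ω ∉ VB μ ℱ A (lp W (ε / (8 * (C + 1)))) (up W (ε / (8 * (C + 1)))) m}) ≤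
        (n : ℝ) ^ ε * Real.exp (-(H / Real.log n)) := by
  classical
  set δ : ℝ := ε / (8 * (C + 1)) with hδ
  have hδ0 : 0 < δ := by positivity
  have hδC : δ * (8 * (C + 1)) = ε := by rw [hδ]; field_simp
  have hδ1 : δ ≤ 1 / 8 := by nlinarith only [hδC, hC, hδ0, hε1]
  have hφ : (1 : ℝ) ≤ Nat.totient W := by exact_mod_cast Nat.totient_pos.2 hW
  have hW' : (1 : ℝ) ≤ W := by exact_mod_cast hW
  have hWφ2 : (W : ℝ) / Nat.totient W ≤ W := div_le_self (by linarith) hφ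
  have hWφ0 : 0 ≤ (W : ℝ) / Nat.totient W := by positivity
  have hl1 : ∀ n, lp W δ n ≤ 1 := by
    intro n
    have h1 := rhoW_le W n
    have h2 := rhoW_nonneg W n
    unfold lp
    nlinarith only [h1, h2, hδ0, hδ1]
  have hu0 : ∀ n, 0 ≤ up W δ n := fun n => le_min zero_le_one (mul_nonneg (by linarith) (rhoW_nonneg W n))
  filter_upwards [ev_log ((4 * W + 4) / δ), eventually_gt_atTop 1,
    ev_pow (a := 0) (b := 1 / 4) (by norm_num) (|C| + 1)] with n h1 h2 h4 R H hR hHC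
  have hn1 : (1 : ℝ) < n := by exact_mod_cast h2
  have hnp : (0 : ℝ) < n := by linarith only [hn1]
  set L : ℝ := Real.log n with hL
  rw [div_le_iff₀ hδ0] at h1
  rw [Real.rpow_zero, mul_one] at h4
  have hL1 : 8 * (4 * W + 4) ≤ L := by nlinarith only [h1, hδ1, hW', hδ0]
  have hLp : 0 < L := by linarith only [hL1, hW']
  have hHn : (H : ℝ) ≤ n := by
    have f1 : (n : ℝ) ^ (1 / 4 : ℝ) * (n : ℝ) ^ (1 / 4 : ℝ) * ((n : ℝ) ^ (1 / 4 : ℝ) * (n : ℝ) ^ (1 / 4 : ℝ)) = n := by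
      rw [← Real.rpow_add hnp, ← Real.rpow_add hnp]; norm_num
    have f3 : 1 ≤ (n : ℝ) ^ (1 / 4 : ℝ) := Real.one_le_rpow hn1.le (by norm_num)
    have f4 : (|C| + 1) * (L + 1) * ((|C| + 1) * (L + 1)) ≤ (n : ℝ) ^ (1 / 4 : ℝ) * (n : ℝ) ^ (1 / 4 : ℝ) :=
      mul_le_mul h4 h4 (by positivity) (by positivity)
    have f5 : (n : ℝ) ^ (1 / 4 : ℝ) * (n : ℝ) ^ (1 / 4 : ℝ) ≤ n := by
      nth_rw 3 [← f1]
      have : 1 ≤ (n : ℝ) ^ (1 / 4 : ℝ) * (n : ℝ) ^ (1 / 4 : ℝ) := by nlinarith only [f3]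
      nlinarith only [this]
    have f6 : C * L ^ 2 ≤ (|C| + 1) * (L + 1) * ((|C| + 1) * (L + 1)) := by
      have g1 : C * L ^ 2 ≤ |C| * L ^ 2 := mul_le_mul_of_nonneg_right (le_abs_self C) (by positivity)
      have g2 : |C| * L ^ 2 ≤ (|C| + 1) * (L + 1) ^ 2 := by
        have := abs_nonneg C
        nlinarith only [this, hLp, mul_nonneg this hLp.le]
      have g3 : (|C| + 1) * (L + 1) ^ 2 ≤ (|C| + 1) * (L + 1) ^ 2 * (|C| + 1) := by
        apply le_mul_of_one_le_right (by positivity)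
        have := abs_nonneg C
        linarith only [this]
      calc _ ≤ _ := g1
        _ ≤ _ := g2
        _ ≤ _ := g3
        _ = _ := by ring
    linarith only [f4, f5, f6, hHC]
  -- logarithms
  have hlogt : Real.log ((n + H : ℕ) : ℝ) ≤ (1 + δ) * L := by
    have e1 : ((n + H : ℕ) : ℝ) ≤ 2 * n := by push_cast; linarith only [hHn]
    have e2 : Real.log ((n + H : ℕ) : ℝ) ≤ Real.log (2 * n) := Real.log_le_log (by push_cast; linarith only [hnp, Nat.cast_nonneg (α := ℝ) H]) e1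
    rw [Real.log_mul (by norm_num) hnp.ne'] at e2
    have e3 : Real.log 2 ≤ 1 := by linarith only [Real.log_two_lt_d9]
    have e4 : 1 ≤ δ * L := by linarith only [h1, hW']
    linarith only [e2, e3, e4]
  have hlogn : (W : ℝ) / Nat.totient W ≤ Real.log n := by
    rw [← hL]
    linarith only [hWφ2, hL1, hW']
  set U : ℝ := 2 * W / L with hU
  have hU0 : 0 < U := by positivity
  have hU1 : U ≤ 1 / 4 := by
    rw [hU, div_le_iff₀ hLp]
    linarith only [hL1, hW']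
  have hρU : ∀ m : ℕ, n ≤ m → (1 + δ) * rhoW W m ≤ U := by
    intro m hm
    have hm' : (n : ℝ) ≤ m := by exact_mod_cast hm
    have e1 : L ≤ Real.log m := Real.log_le_log hnp hm'
    have e2 : rhoW W m ≤ W / L := by
      unfold rhoW
      split_ifs
      · exact (min_le_right _ _).trans (div_le_div₀ (by linarith only [hW']) hWφ2 hLp e1)
      · positivity
    have e3 : (1 + δ) * rhoW W m ≤ 2 * (W / L) := mul_le_mul (by linarith only [hδ1]) e2 (rhoW_nonneg W m) (by norm_num)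
    rw [hU]
    linarith only [e3, show 2 * (W / L) = 2 * (W : ℝ) / L by ring]
  have key := pat_le (μ := μ) (ℱ := ℱ) hA (l := lp W δ) (u := up W δ) hl1 hu0 (fun m => m - n ∈ R) H n univ MeasurableSet.univ
  rw [univ_inter, probReal_univ, mul_one] at key
  refine key.trans ?_
  have hprod := prod_le (c := fun i => (n + 1 + i) - n ∈ R) (l := fun i => lp W δ (n + 1 + i)) (u := fun i => up W δ (n + 1 + i))
    (U := U) (H := H) (k := R.card) hU0.le (fun i _ => by
      have := hρU (n + 1 + i) (by omega)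
      have h0 := rhoW_nonneg W (n + 1 + i)
      show (1 - δ) * rhoW W (n + 1 + i) ≤ U
      nlinarith only [this, h0, hδ0]) (fun i _ => hl1 _) (fun i _ => hu0 _) (fun i _ _ => (min_le_right _ _).trans (hρU _ (by omega))) (by
      refine Finset.card_bij (fun i _ => i + 1) ?_ ?_ ?_
      · intro i hi
        have := (Finset.mem_filter.1 hi).2
        rwa [show n + 1 + i - n = i + 1 by omega] at this
      · intro i _ j _ h
        omega
      · intro r hr
        obtain ⟨g1, g2⟩ := hR r hr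
        refine ⟨r - 1, ?_, by omega⟩
        rw [Finset.mem_filter, Finset.mem_range]
        refine ⟨by omega, ?_⟩
        rwa [show n + 1 + (r - 1) - n = r by omega])
  refine le_trans (le_of_eq (Finset.prod_congr rfl fun i _ => ?_)) (hprod.trans ?_)
  · congr
  -- the sum
  have hsum : (1 - δ) * ((H - 2 * W) / ((1 + δ) * L)) ≤ ∑ i ∈ Finset.range H, lp W δ (n + 1 + i) := by
    have e1 : ∑ i ∈ Finset.range H, lp W δ (n + 1 + i) = (1 - δ) * ∑ i ∈ Finset.range H, rhoW W (n + 1 + i) := by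
      rw [Finset.mul_sum]
      rfl
    rw [e1, sum_rhoW_eq]
    apply mul_le_mul_of_nonneg_left _ (by linarith only [hδ1])
    rcases le_or_gt (H : ℝ) (2 * W) with hH | hH
    · refine le_trans ?_ (Finset.sum_nonneg fun i _ => rhoW_nonneg W i)
      apply div_nonpos_of_nonpos_of_nonneg (by linarith only [hH])
      exact mul_nonneg (by linarith only [hδ0]) hLp.le
    · have e2 := (rho_cls1 (W := W) (q := 1) (a := 0) (s := n) (t := n + H) hW one_pos (zero_mem_admW W) (by omega) hlogn (by omega)).1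
      rw [adm_oneW] at e2
      refine le_trans ?_ e2
      push_cast
      push_cast at hlogt
      rw [one_mul, one_mul]
      have hlp : 0 < Real.log ((n : ℝ) + H) := Real.log_pos (by linarith only [hn1, Nat.cast_nonneg (α := ℝ) H])
      apply div_le_div₀ (by linarith only [hH]) (by linarith only) hlp hlogt
  have hUe : (U * Real.exp U) ^ R.card ≤ 1 := by
    apply pow_le_one₀ (by positivity)
    have e1 : Real.exp U ≤ 2 := by
      have e2 : Real.exp U ≤ Real.exp (1 / 4) := Real.exp_le_exp.2 hU1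
      have e3 : Real.exp (1 / 4) ≤ 2 := by
        have := Real.exp_one_lt_d9
        have h5 : Real.exp (1 / 4) ^ 4 = Real.exp 1 := by rw [← Real.exp_nat_mul]; norm_num
        by_contra hcon
        push Not at hcon
        have : (2 : ℝ) ^ 4 < Real.exp (1 / 4) ^ 4 := pow_lt_pow_left₀ hcon (by norm_num) (by norm_num)
        rw [h5] at this
        norm_num at this
        linarith
      exact e2.trans e3
    nlinarith only [e1, hU1, hU0]
  have hHsum : (1 - 2 * δ) * (H / L) - 1 ≤ (1 - δ) * ((H - 2 * W) / ((1 + δ) * L)) := by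
    have hpos : 0 < (1 + δ) * L := mul_pos (by linarith only [hδ0]) hLp
    have e1 : (1 - δ) * (((H : ℝ) - 2 * W) / ((1 + δ) * L)) = (1 - δ) / (1 + δ) * (H / L) - (1 - δ) / (1 + δ) * (2 * W / L) := by
      have : (1 + δ) ≠ 0 := by linarith only [hδ0]
      field_simp
    rw [e1]
    have e2 : 1 - 2 * δ ≤ (1 - δ) / (1 + δ) := by
      rw [le_div_iff₀ (by linarith only [hδ0])]
      nlinarith only [hδ0]
    have e3 : (1 - δ) / (1 + δ) ≤ 1 := by
      rw [div_le_one (by linarith only [hδ0])]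
      linarith only [hδ0]
    have e4 : (1 - δ) / (1 + δ) * (2 * W / L) ≤ 1 * 1 := by
      apply mul_le_mul e3 (hU1.trans (by norm_num)) hU0.le (by norm_num)
    have e5 := mul_le_mul_of_nonneg_right e2 (show 0 ≤ (H : ℝ) / L by positivity)
    linarith only [e4, e5]
  have e6 : 2 * δ * (H / L) ≤ ε / 4 * L := by
    have f1 : (H : ℝ) / L ≤ C * L := by
      rw [div_le_iff₀ hLp]
      linarith only [hHC]
    have f2 : 2 * δ * (H / L) ≤ 2 * δ * (C * L) := mul_le_mul_of_nonneg_left f1 (by positivity)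
    have f3 : 2 * δ * C ≤ ε / 4 := by nlinarith only [hδC, hδ0]
    nlinarith only [f2, f3, hLp]
  have e7 : 1 ≤ ε / 4 * L := by
    have : δ ≤ ε / 8 := by nlinarith only [hδC, hδ0, hC, mul_nonneg hδ0.le hC]
    nlinarith only [this, h1, hW', hLp]
  calc (U * Real.exp U) ^ R.card * Real.exp (-∑ i ∈ Finset.range H, lp W δ (n + 1 + i)) ≤
        1 * Real.exp (-∑ i ∈ Finset.range H, lp W δ (n + 1 + i)) := mul_le_mul_of_nonneg_right hUe (Real.exp_pos _).le
    _ ≤ (n : ℝ) ^ ε * Real.exp (-(H / L)) := by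
        rw [one_mul, Real.rpow_def_of_pos hnp, ← Real.exp_add, Real.exp_le_exp, ← hL]
        nlinarith only [hsum, hHsum, e6, e7, mul_pos hε0 hLp]

/-- **bounded patterns occur not too many times** -/
theorem pat_few (hA : ∀ n, MeasurableSet[ℱ n] (A n)) {W : ℕ} (hW : 0 < W)
    (hd : ∀ᵐ ω ∂μ, ∀ ε : ℝ, 0 < ε → ∀ᶠ n : ℕ in atTop, |dens μ ℱ A n ω - rhoW W (n + 1)| ≤ ε * rhoW W (n + 1))
    {ε : ℝ} (hε0 : 0 < ε) (hε1 : ε < 1) {C : ℝ} (hC : 0 ≤ C) (K : ℕ) :
    ∀ᵐ ω ∂μ, ∀ᶠ x : ℕ in atTop, ∀ (R : Finset ℕ) (H : ℕ), R.card ≤ K → (∀ r ∈ R, 1 ≤ r ∧ r ≤ H) → (H : ℝ) / Real.log x ≤ Real.log x →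
      ∀ V : Finset ℕ, (∀ v ∈ V, v ≤ x ∧ (H : ℝ) ≤ C * Real.log v ^ 2 ∧ ω ∈ PatE A (fun m => m - v ∈ R) v H) →
        (V.card : ℝ) ≤ (x : ℝ) ^ (1 + ε) * Real.exp (-(H / Real.log x)) := by
  classical
  set δ : ℝ := (ε / 4) / (8 * (C + 1)) with hδ
  have hδ0 : 0 < δ := by positivity
  set F : ℕ → Finset (Finset ℕ × ℕ) := fun v => (Finset.range (⌊C * Real.log v ^ 2⌋₊ + 1)).biUnion
    (fun H => (((Finset.Icc 1 H).powerset).filter (fun R => R.card ≤ K)).image (fun R => (R, H))) with hF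
  set E : ℕ → Finset ℕ × ℕ → Set Ω := fun v p => PatE A (fun m => m - v ∈ p.1) v p.2 ∩ {ω | ∀ m, v ≤ m → m < v + p.2 → ω ∉ VB μ ℱ A (lp W δ) (up W δ) m} with hE
  have hEm : ∀ v p, MeasurableSet (E v p) := by
    intro v p
    apply MeasurableSet.inter
    · exact ℱ.le _ _ (PatE_meas hA _ _ _)
    · have : {ω | ∀ m, v ≤ m → m < v + p.2 → ω ∉ VB μ ℱ A (lp W δ) (up W δ) m} = ⋂ m, ⋂ (_ : v ≤ m), ⋂ (_ : m < v + p.2), (VB μ ℱ A (lp W δ) (up W δ) m)ᶜ := by
        ext ω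
        simp
      rw [this]
      exact MeasurableSet.iInter fun m => MeasurableSet.iInter fun _ => MeasurableSet.iInter fun _ => (ℱ.le _ _ (VB_meas _ _ m)).compl
  set w : ℕ → ℕ → ℝ := fun v H => (v : ℝ) ^ (-(1 + ε / 2)) * Real.exp (H / Real.log v) with hw
  have hw0 : ∀ v H, 0 ≤ w v H := fun v H => mul_nonneg (Real.rpow_nonneg (Nat.cast_nonneg _) _) (Real.exp_pos _).le
  set f : ℕ → Ω → ℝ := fun v ω => ∑ p ∈ F v, w v p.2 * (E v p).indicator (fun _ => (1 : ℝ)) ω with hf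
  have hind0 : ∀ v p ω, 0 ≤ (E v p).indicator (fun _ => (1 : ℝ)) ω := fun v p ω => indicator_nonneg (fun _ _ => zero_le_one) ω
  have hf0 : ∀ v ω, 0 ≤ f v ω := fun v ω => Finset.sum_nonneg fun p _ => mul_nonneg (hw0 _ _) (hind0 _ _ _)
  have hfi : ∀ v, Integrable (f v) μ := fun v => integrable_finset_sum _ fun p _ => ((integrable_const (1 : ℝ)).indicator (hEm v p)).const_mul _
  have hint : ∀ v, ∫ ω, f v ω ∂μ = ∑ p ∈ F v, w v p.2 * μ.real (E v p) := by
    intro v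
    rw [integral_finset_sum _ fun p _ => ((integrable_const (1 : ℝ)).indicator (hEm v p)).const_mul _]
    refine Finset.sum_congr rfl fun p _ => ?_
    rw [integral_const_mul, integral_indicator_const _ (hEm v p), smul_eq_mul, mul_one]
  have hFmem : ∀ (v : ℕ) (R : Finset ℕ) (H : ℕ), R.card ≤ K → (∀ r ∈ R, 1 ≤ r ∧ r ≤ H) → (H : ℝ) ≤ C * Real.log v ^ 2 → (R, H) ∈ F v := by
    intro v R H h1 h2 h3
    rw [hF, Finset.mem_biUnion]
    refine ⟨H, ?_, ?_⟩
    · rw [Finset.mem_range, Nat.lt_succ_iff]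
      exact Nat.le_floor h3
    · rw [Finset.mem_image]
      refine ⟨R, ?_, rfl⟩
      rw [Finset.mem_filter, Finset.mem_powerset]
      exact ⟨fun r hr => Finset.mem_Icc.2 (h2 r hr), h1⟩
  have hFmem' : ∀ (v : ℕ) (p : Finset ℕ × ℕ), p ∈ F v → (∀ r ∈ p.1, 1 ≤ r ∧ r ≤ p.2) ∧ (p.2 : ℝ) ≤ C * Real.log v ^ 2 := by
    intro v p hp
    obtain ⟨H, h1, h2⟩ := Finset.mem_biUnion.1 hp
    obtain ⟨R, h3, h4⟩ := Finset.mem_image.1 h2
    obtain ⟨h5, h6⟩ := Finset.mem_filter.1 h3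
    have h7 := Finset.mem_powerset.1 h5
    rw [← h4]
    refine ⟨fun r hr => Finset.mem_Icc.1 (h7 hr), ?_⟩
    have h8 : H ≤ ⌊C * Real.log v ^ 2⌋₊ := by have := Finset.mem_range.1 h1; omega
    exact (show (H : ℝ) ≤ (⌊C * Real.log v ^ 2⌋₊ : ℕ) by exact_mod_cast h8).trans (Nat.floor_le (by positivity))
  have hFcard : ∀ᶠ v : ℕ in atTop, ((F v).card : ℝ) ≤ (v : ℝ) ^ (ε / 8) := by
    have hη : (0 : ℝ) < ε / (16 * (K + 1)) := by positivity
    filter_upwards [ev_pow (a := 0) (b := ε / (16 * (K + 1))) hη (C + 2), ev_log 1, eventually_gt_atTop 1] with v h1 h2 h3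
    rw [Real.rpow_zero, mul_one] at h1
    have hvp : (0 : ℝ) < v := by exact_mod_cast (by omega : 0 < v)
    have e1 : (F v).card ≤ ∑ H ∈ Finset.range (⌊C * Real.log v ^ 2⌋₊ + 1), (⌊C * Real.log v ^ 2⌋₊ + 1) ^ K := by
      rw [hF]
      refine Finset.card_biUnion_le.trans (Finset.sum_le_sum fun H hH => ?_)
      refine Finset.card_image_le.trans ((card_small H K).trans ?_)
      exact Nat.pow_le_pow_left (by have := Finset.mem_range.1 hH; omega) K
    rw [Finset.sum_const, Finset.card_range, smul_eq_mul] at e1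
    have e2 : ((F v).card : ℝ) ≤ ((⌊C * Real.log v ^ 2⌋₊ + 1 : ℕ) : ℝ) ^ (K + 1) := by
      rw [pow_succ']
      exact_mod_cast e1
    refine e2.trans ?_
    have e3 : ((⌊C * Real.log v ^ 2⌋₊ + 1 : ℕ) : ℝ) ≤ ((C + 2) * (Real.log v + 1)) ^ 2 := by
      push_cast
      have : (⌊C * Real.log v ^ 2⌋₊ : ℝ) ≤ C * Real.log v ^ 2 := Nat.floor_le (by positivity)
      nlinarith only [this, h2, hC, mul_nonneg hC (show 0 ≤ Real.log (v : ℝ) by linarith only [h2]), mul_nonneg (mul_nonneg hC (show 0 ≤ Real.log (v : ℝ) by linarith only [h2])) (show 0 ≤ Real.log (v : ℝ) by linarith only [h2]), mul_nonneg hC (mul_nonneg hC (mul_nonneg (show 0 ≤ Real.log (v : ℝ) by linarith only [h2]) (show 0 ≤ Real.log (v : ℝ) by linarith only [h2])))]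
    have e4 : ((⌊C * Real.log v ^ 2⌋₊ + 1 : ℕ) : ℝ) ≤ ((v : ℝ) ^ (ε / (16 * (K + 1)))) ^ 2 :=
      e3.trans (pow_le_pow_left₀ (by positivity) h1 2)
    refine (pow_le_pow_left₀ (Nat.cast_nonneg _) e4 (K + 1)).trans (le_of_eq ?_)
    rw [← pow_mul, ← Real.rpow_natCast, ← Real.rpow_mul hvp.le]
    congr 1
    push_cast
    field_simp
    ring
  have hmean : ∀ᶠ v : ℕ in atTop, ∫ ω, f v ω ∂μ ≤ (v : ℝ) ^ (-(1 + ε / 8)) := by
    filter_upwards [bounded_prob (μ := μ) (ℱ := ℱ) hA hW (ε := ε / 4) (by linarith) (by linarith) hC, hFcard, eventually_gt_atTop 0] with v h1 h2 h3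
    have hvp : (0 : ℝ) < v := by exact_mod_cast h3
    rw [hint]
    have e1 : ∀ p ∈ F v, w v p.2 * μ.real (E v p) ≤ (v : ℝ) ^ (-(1 + ε / 4)) := by
      intro p hp
      obtain ⟨g1, g2⟩ := hFmem' v p hp
      have g3 := h1 p.1 p.2 g1 g2
      refine (mul_le_mul_of_nonneg_left g3 (hw0 _ _)).trans (le_of_eq ?_)
      have e2 : Real.exp (p.2 / Real.log v) * Real.exp (-(p.2 / Real.log v)) = 1 := by
        rw [← Real.exp_add, add_neg_cancel, Real.exp_zero]
      calc (v : ℝ) ^ (-(1 + ε / 2)) * Real.exp (p.2 / Real.log v) * ((v : ℝ) ^ (ε / 4) * Real.exp (-(p.2 / Real.log v)))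
          = (v : ℝ) ^ (-(1 + ε / 2)) * (v : ℝ) ^ (ε / 4) * (Real.exp (p.2 / Real.log v) * Real.exp (-(p.2 / Real.log v))) := by ring
        _ = _ := by
            rw [e2, mul_one, ← Real.rpow_add hvp]
            congr 1
            ring
    refine (Finset.sum_le_sum e1).trans ?_
    rw [Finset.sum_const, nsmul_eq_mul]
    refine (mul_le_mul_of_nonneg_right h2 (by positivity)).trans (le_of_eq ?_)
    rw [← Real.rpow_add hvp]
    congr 1
    ring
  have h01 : ∀ᵐ ω ∂μ, ∀ n, 0 ≤ dens μ ℱ A n ω ∧ dens μ ℱ A n ω ≤ 1 := ae_all_iff.2 fun n => dens01 hA n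
  filter_upwards [ae_summable_of (μ := μ) hf0 hfi (summable_pow_nat (s := -(1 + ε / 8)) (by linarith)) hmean, hd, h01] with ω hω hdω h01ω
  obtain ⟨N₀, hN₀⟩ := dens_two hdω hδ0
  set N := max N₀ 2 with hN
  set Z : ℝ := ∑' v, f v ω with hZ
  have hZ0 : 0 ≤ Z := tsum_nonneg fun v => hf0 v ω
  filter_upwards [((tendsto_rpow_atTop (show 0 < ε / 2 by positivity)).comp (tendsto_natCast_atTop_atTop (R := ℝ))).eventually_ge_atTop (N + Z + 1),
    ev_log 1, eventually_gt_atTop 1] with x h1 h2 h3 R H hRK hR hHL V hV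
  have h1 : (N : ℝ) + Z + 1 ≤ (x : ℝ) ^ (ε / 2) := h1
  have hxp : (0 : ℝ) < x := by exact_mod_cast (by omega : 0 < x)
  have hx1 : (1 : ℝ) ≤ x := by exact_mod_cast (by omega : 1 ≤ x)
  set L : ℝ := Real.log x with hL
  have hLp : 0 < L := by linarith only [h2]
  -- the small ones
  set V1 := V.filter (fun v => v < N) with hV1
  set V2 := V.filter (fun v => ¬ v < N) with hV2
  have hVc : V.card = V1.card + V2.card := (Finset.card_filter_add_card_filter_not (s := V) (fun v => v < N)).symm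
  have hV1c : V1.card ≤ N := by
    have : V1 ⊆ Finset.range N := fun v hv => Finset.mem_range.2 (Finset.mem_filter.1 hv).2
    exact (Finset.card_le_card this).trans (le_of_eq (Finset.card_range N))
  have hwx : ∀ v ∈ V2, (x : ℝ) ^ (-(1 + ε / 2)) * Real.exp (H / L) ≤ f v ω := by
    intro v hv
    obtain ⟨hv1, hv2⟩ := Finset.mem_filter.1 hv
    obtain ⟨g1, g2, g3⟩ := hV v hv1
    push Not at hv2
    have hv3 : 2 ≤ v := (le_max_right _ _).trans hv2
    have hv4 : N₀ ≤ v := (le_max_left _ _).trans hv2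
    have hvp : (0 : ℝ) < v := by exact_mod_cast (by omega : 0 < v)
    have hvx : (v : ℝ) ≤ x := by exact_mod_cast g1
    have hv1' : (1 : ℝ) < v := by exact_mod_cast (by omega : 1 < v)
    have e1 : w v H * (E v (R, H)).indicator (fun _ => (1 : ℝ)) ω ≤ f v ω :=
      Finset.single_le_sum (f := fun p : Finset ℕ × ℕ => w v p.2 * (E v p).indicator (fun _ => (1 : ℝ)) ω)
        (fun p _ => mul_nonneg (hw0 _ _) (hind0 _ _ _)) (hFmem v R H hRK hR g2)
    have e2 : ω ∈ E v (R, H) := by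
      refine ⟨g3, ?_⟩
      intro m hm1 hm2 hvv
      apply hvv
      have hN' := hN₀ N₀ le_rfl
      exact ⟨hN'.2 m (hv4.trans hm1), le_min (h01ω m).2 (hN'.1 m (hv4.trans hm1))⟩
    rw [indicator_of_mem e2, mul_one] at e1
    refine le_trans ?_ e1
    rw [hw]
    apply mul_le_mul _ _ (Real.exp_pos _).le (Real.rpow_nonneg hvp.le _)
    · exact Real.rpow_le_rpow_of_nonpos hvp hvx (by linarith only [hε0])
    · apply Real.exp_le_exp.2
      apply div_le_div_of_nonneg_left (Nat.cast_nonneg _) (Real.log_pos hv1')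
      exact Real.log_le_log hvp hvx
  have hV2c : (V2.card : ℝ) * ((x : ℝ) ^ (-(1 + ε / 2)) * Real.exp (H / L)) ≤ Z := by
    calc (V2.card : ℝ) * ((x : ℝ) ^ (-(1 + ε / 2)) * Real.exp (H / L)) = ∑ v ∈ V2, (x : ℝ) ^ (-(1 + ε / 2)) * Real.exp (H / L) := by
          rw [Finset.sum_const, nsmul_eq_mul]
      _ ≤ ∑ v ∈ V2, f v ω := Finset.sum_le_sum hwx
      _ ≤ Z := hω.sum_le_tsum V2 (fun v _ => hf0 v ω)
  have hV2c' : (V2.card : ℝ) ≤ Z * ((x : ℝ) ^ (1 + ε / 2) * Real.exp (-(H / L))) := by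
    have e1 : (x : ℝ) ^ (-(1 + ε / 2)) * Real.exp (H / L) * ((x : ℝ) ^ (1 + ε / 2) * Real.exp (-(H / L))) = 1 := by
      have e2 : Real.exp (H / L) * Real.exp (-(H / L)) = 1 := by rw [← Real.exp_add, add_neg_cancel, Real.exp_zero]
      have e3 : (x : ℝ) ^ (-(1 + ε / 2)) * (x : ℝ) ^ (1 + ε / 2) = 1 := by
        rw [← Real.rpow_add hxp, neg_add_cancel, Real.rpow_zero]
      calc _ = ((x : ℝ) ^ (-(1 + ε / 2)) * (x : ℝ) ^ (1 + ε / 2)) * (Real.exp (H / L) * Real.exp (-(H / L))) := by ring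
        _ = 1 := by rw [e2, e3, mul_one]
    have e4 := mul_le_mul_of_nonneg_right hV2c (show 0 ≤ (x : ℝ) ^ (1 + ε / 2) * Real.exp (-(H / L)) by positivity)
    rw [mul_assoc, e1, mul_one] at e4
    exact e4
  -- conclusion
  set Y : ℝ := (x : ℝ) ^ (1 + ε / 2) * Real.exp (-(H / L)) with hY
  have hY1 : 1 ≤ Y := by
    rw [hY, Real.rpow_def_of_pos hxp, ← Real.exp_add, ← hL]
    apply Real.one_le_exp
    nlinarith only [hHL, hLp, hε0]
  have hfin : (x : ℝ) ^ (1 + ε) * Real.exp (-(H / L)) = (x : ℝ) ^ (ε / 2) * Y := by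
    rw [hY, ← mul_assoc, ← Real.rpow_add hxp]
    congr 2
    ring
  rw [hfin, hVc]
  push_cast
  have e1 : (V1.card : ℝ) ≤ N := by exact_mod_cast hV1c
  have e2 : ((N : ℝ) + Z + 1) * Y ≤ (x : ℝ) ^ (ε / 2) * Y := mul_le_mul_of_nonneg_right h1 (by linarith only [hY1])
  nlinarith only [e1, e2, hV2c', hY1, Nat.cast_nonneg (α := ℝ) N]

end Pool.Agent.R528.RM
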