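import Mathlib
import Pool.Agent.R528.RM.Ct1
import Pool.Agent.R528.RM.Ct2
import Pool.Agent.R528.RM.Sp6

set_option autoImplicit false
set_option linter.unusedSectionVars false
set_option linter.unusedVariables false

/-! # The number of occurrences of consecutive gaps -/

open MeasureTheory Filter Set
open scoped ENNReal Topology

namespace Pool.Agent.R528.RM

variable {Ω : Type} {m0 : MeasurableSpace Ω} {μ : Measure Ω} [IsProbabilityMeasure μ]
  {ℱ : Filtration ℕ m0} {A : ℕ → Set Ω}

/-- a pattern gives consecutive members -/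
lemma pat_seq {S : Set ℕ} {T H k : ℕ} {a : ℕ → ℕ} (ha1 : 1 ≤ a 0) (hstep : ∀ i < k, a i < a (i + 1)) (hH : a k ≤ H)
    (hpat : ∀ i < H, (T + 1 + i ∈ S ↔ (T + 1 + i) - T ∈ (Finset.range (k + 1)).image a)) (hinf : S.Infinite) :
    ∃ n, ∀ i ≤ k, pn S (n + i) = T + a i := by
  have hmonoa : ∀ j ≤ k, ∀ i < j, a i < a j := by
    intro j
    induction j with
    | zero => intro _ i hi; omega
    | succ j ih =>
      intro hj i hi
      have h1 := hstep j (by omega)
      rcases Nat.lt_succ_iff_lt_or_eq.1 hi with h | h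
      · exact (ih (by omega) i h).trans h1
      · rw [h]; exact h1
  have hle : ∀ i ≤ k, a i ≤ H := by
    intro i hi
    rcases Nat.lt_or_eq_of_le hi with h | h
    · exact (hmonoa k le_rfl i h).le.trans hH
    · rw [h]; exact hH
  have hge : ∀ i ≤ k, 1 ≤ a i := by
    intro i hi
    rcases Nat.eq_zero_or_pos i with h | h
    · rw [h]; exact ha1
    · have := hmonoa i hi 0 h
      omega
  have h1 : ∀ m, 1 ≤ m → m ≤ H → (T + m ∈ S ↔ ∃ i ≤ k, m = a i) := by
    intro m h1 h2
    have := hpat (m - 1) (by omega)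
    rw [show T + 1 + (m - 1) = T + m by omega, Nat.add_sub_cancel_left, Finset.mem_image] at this
    rw [this]
    constructor
    · rintro ⟨i, hi, h⟩
      exact ⟨i, by have := Finset.mem_range.1 hi; omega, h.symm⟩
    · rintro ⟨i, hi, h⟩
      exact ⟨i, Finset.mem_range.2 (by omega), h.symm⟩
  have hmono := nth_mono hinf
  obtain ⟨n, hn⟩ := exists_nth ((h1 (a 0) ha1 (hle 0 (Nat.zero_le _))).2 ⟨0, Nat.zero_le _, rfl⟩)
  refine ⟨n, ?_⟩
  intro i
  induction i with
  | zero =>
    intro _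
    rw [add_zero, hn]
  | succ i ih =>
    intro hi
    have ih' := ih (by omega)
    obtain ⟨m, hm⟩ := exists_nth ((h1 (a (i + 1)) (hge _ hi) (hle _ hi)).2 ⟨i + 1, hi, rfl⟩)
    have hs := hstep i (by omega)
    have hnm : n + i < m := by
      by_contra hcon
      push Not at hcon
      have := hmono.monotone hcon
      omega
    have h2 : pn S (n + (i + 1)) ≤ T + a (i + 1) := by
      rw [← hm]
      exact hmono.monotone hnm
    have h3 : T + a i < pn S (n + (i + 1)) := by
      rw [← ih']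
      exact hmono (by omega)
    have hle' := hle _ hi
    obtain ⟨i', hi', h4⟩ := (h1 (pn S (n + (i + 1)) - T) (by omega) (by omega)).1 (by
      rw [Nat.add_sub_cancel' (by omega)]
      exact nth_mem hinf _)
    have h5 : a i < a i' := by omega
    have h6 : i < i' := by
      by_contra hcon
      push Not at hcon
      rcases Nat.lt_or_eq_of_le hcon with h | h
      · have := hmonoa i (by omega) i' h
        omega
      · rw [h] at h5; omega
    have h7 : a (i + 1) ≤ a i' := by
      rcases Nat.lt_or_eq_of_le (Nat.succ_le_of_lt h6) with h | h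
      · exact (hmonoa i' hi' (i + 1) h).le
      · rw [← h]
    omega

/-- consecutive members give a pattern -/
lemma seq_pat {S : Set ℕ} (hinf : S.Infinite) {n k : ℕ} {b : ℕ → ℕ} (hb0 : b 0 = 0)
    (h : ∀ i ≤ k, pn S (n + i) = pn S n + b i) :
    ∀ i < b k, (pn S n + 1 + i ∈ S ↔ (pn S n + 1 + i) - pn S n ∈ (Finset.Icc 1 k).image b) := by
  intro i hi
  have hmono := nth_mono hinf
  rw [Finset.mem_image]
  constructor
  · intro hm
    obtain ⟨j, hj⟩ := exists_nth hm
    have h1 : n < j := by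
      by_contra hcon
      push Not at hcon
      have := hmono.monotone hcon
      omega
    have h2 : j ≤ n + k := by
      by_contra hcon
      push Not at hcon
      have h3 := hmono hcon
      have h4 := h k le_rfl
      omega
    refine ⟨j - n, Finset.mem_Icc.2 ⟨by omega, by omega⟩, ?_⟩
    have h3 := h (j - n) (by omega)
    rw [Nat.add_sub_cancel' h1.le, hj] at h3
    omega
  · rintro ⟨j, hj, h1⟩
    have hj := Finset.mem_Icc.1 hj
    have h2 := h j hj.2
    have : pn S n + 1 + i = pn S (n + j) := by omega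
    rw [this]
    exact nth_mem hinf _

/-- the indices at which the consecutive gaps `t` occur -/
def occ (S : Set ℕ) (k : ℕ) (t : ℕ → ℕ) (x : ℕ) : Set ℕ :=
  {n : ℕ | pn S (n + k) ≤ x ∧ ∀ i < k, pn S (n + i + 1) = pn S (n + i) + t i}

lemma occ_sum {S : Set ℕ} {k : ℕ} {t : ℕ → ℕ} {n : ℕ} (h : ∀ i < k, pn S (n + i + 1) = pn S (n + i) + t i) :
    ∀ i ≤ k, pn S (n + i) = pn S n + ∑ j ∈ Finset.range i, t j := by
  intro i
  induction i with
  | zero => intro _; simp
  | succ i ih =>
    intro hi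
    rw [show n + (i + 1) = n + i + 1 by ring, h i (by omega), ih (by omega), Finset.sum_range_succ]
    ring

lemma occ_sub {S : Set ℕ} (hinf : S.Infinite) (k : ℕ) (t : ℕ → ℕ) (x : ℕ) : occ S k t x ⊆ (Finset.range (x + 1) : Finset ℕ) := by
  intro n hn
  rw [Finset.mem_coe, Finset.mem_range]
  have h1 := (nth_mono hinf).le_apply (x := n + k)
  have h2 := hn.1
  omega

lemma occ_fin {S : Set ℕ} (hinf : S.Infinite) (k : ℕ) (t : ℕ → ℕ) (x : ℕ) : (occ S k t x).Finite :=
  (Finset.finite_toSet _).subset (occ_sub hinf k t x)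

/-- **the law of the number of occurrences** -/
theorem occ_law (hA : ∀ n, MeasurableSet[ℱ n] (A n)) {W : ℕ} (hW : 0 < W)
    (hd : ∀ᵐ ω ∂μ, ∀ ε : ℝ, 0 < ε → ∀ᶠ n : ℕ in atTop, |dens μ ℱ A n ω - rhoW W (n + 1)| ≤ ε * rhoW W (n + 1))
    {ε : ℝ} (hε0 : 0 < ε) (hε1 : ε < 1) {k : ℕ} (hk : 1 ≤ k) :
    ∀ᵐ ω ∂μ, {n | ω ∈ A n}.Infinite ∧ ∀ᶠ x : ℕ in atTop, ∀ t : ℕ → ℕ, (∀ i < k, 1 ≤ t i) →
      ((∃ a, ∀ i ≤ k, Nat.Coprime (a + ∑ j ∈ Finset.range i, t j) W) → (∑ j ∈ Finset.range k, (t j : ℝ)) ≤ (1 - ε) * Real.log x ^ 2 →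
        (x : ℝ) ^ (1 - (∑ j ∈ Finset.range k, (t j : ℝ)) / Real.log x ^ 2 - ε) ≤ (occ {n | ω ∈ A n} k t x).ncard) ∧
      ((∑ j ∈ Finset.range k, (t j : ℝ)) ≤ Real.log x ^ 2 →
        ((occ {n | ω ∈ A n} k t x).ncard : ℝ) ≤ (x : ℝ) ^ (1 - (∑ j ∈ Finset.range k, (t j : ℝ)) / Real.log x ^ 2 + ε)) ∧
      ((1 + ε) * Real.log x ^ 2 ≤ ∑ j ∈ Finset.range k, (t j : ℝ) → occ {n | ω ∈ A n} k t x = ∅) := by
  classical
  obtain ⟨κ, hκ0, hκ⟩ := many_in_window (μ := μ) (ℱ := ℱ) hA hW hd (c := 1 + ε / 2) (by linarith)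
  filter_upwards [many_all (μ := μ) (ℱ := ℱ) hA hW hd (ε := ε / 10) (by linarith) (by linarith) (k + 1),
    pat_few (μ := μ) (ℱ := ℱ) hA hW hd (ε := ε / 2) (by linarith) (by linarith) (C := 2) (by norm_num) k,
    norun (μ := μ) hA hW hd hε0 hε1, hκ] with ω h1 h2 h3 h4
  set S : Set ℕ := {n | ω ∈ A n} with hS
  obtain ⟨hinf, _⟩ := gaps_le (S := S) hε0 hε1 h3
  have hmono := nth_mono hinf
  obtain ⟨N, hN⟩ := eventually_atTop.1 (sum_gaps_le (A := A) (ω := ω) hinf hκ0 (c := 1 + ε / 2) (by linarith) h4 k)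
  refine ⟨hinf, ?_⟩
  have hlogsq : Tendsto (fun x : ℕ => Real.log (x : ℝ) ^ 2) atTop atTop := (tendsto_pow_atTop (n := 2) two_ne_zero).comp tendsto_log
  filter_upwards [h1, h2, ev_log 1, hlogsq.eventually_ge_atTop (6 * W / ε + pn S (N + k) + 1),
    ((tendsto_rpow_atTop (show 0 < ε / 2 by positivity)).comp (tendsto_natCast_atTop_atTop (R := ℝ))).eventually_ge_atTop ((N : ℝ) + 1),
    ev_log (30 * W / ε), eventually_gt_atTop 1] with x g1 g2 g3 g4 g5 g6 g7 t ht
  have g5 : (N : ℝ) + 1 ≤ (x : ℝ) ^ (ε / 2) := g5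
  set L : ℝ := Real.log x with hL
  have hLp : 0 < L := by linarith
  have hxp : (0 : ℝ) < x := by exact_mod_cast (by omega : 0 < x)
  have hW' : (1 : ℝ) ≤ W := by exact_mod_cast hW
  set s : ℕ := ∑ j ∈ Finset.range k, t j with hs
  have hsc : (∑ j ∈ Finset.range k, (t j : ℝ)) = s := by rw [hs]; push_cast; rfl
  rw [hsc]
  have hexp : ∀ c : ℝ, (x : ℝ) ^ (c - s / L ^ 2) = (x : ℝ) ^ c * Real.exp (-(s / L)) := by
    intro c
    rw [Real.rpow_def_of_pos hxp, Real.rpow_def_of_pos hxp, ← Real.exp_add, ← hL]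
    congr 1
    field_simp
    ring
  -- the gaps are not too large
  have hsmall : ∀ n ∈ occ S k t x, N ≤ n → (s : ℝ) ≤ (1 + ε / 2) * Real.log (pn S n) ^ 2 ∧ 0 < pn S n := by
    intro n hn hNn
    have h5 := occ_sum hn.2 k le_rfl
    have h6 := hN n hNn
    rw [h5, ← hs] at h6
    push_cast at h6
    have h7 : 1 ≤ s := by
      have : t 0 ≤ s := Finset.single_le_sum (f := t) (fun _ _ => Nat.zero_le _) (Finset.mem_range.2 (by omega))
      have := ht 0 (by omega)
      omega
    refine ⟨by linarith, ?_⟩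
    by_contra hcon
    have h8 : pn S n = 0 := by omega
    rw [h8, Nat.cast_zero, Real.log_zero] at h6
    have : (1 : ℝ) ≤ s := by exact_mod_cast h7
    linarith
  have hlogn : ∀ n ∈ occ S k t x, 0 < pn S n → Real.log (pn S n) ^ 2 ≤ L ^ 2 := by
    intro n hn hp
    apply pow_le_pow_left₀ (Real.log_natCast_nonneg _)
    apply Real.log_le_log (by exact_mod_cast hp)
    exact_mod_cast (hmono.monotone (Nat.le_add_right n k)).trans hn.1
  refine ⟨?_, ?_, ?_⟩
  · rintro ⟨a, ha⟩ hsum
    set r : ℕ := a % W + W with hr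
    have hmodlt := Nat.mod_lt a hW
    have hra : r ≡ a [MOD W] := by
      rw [hr, Nat.ModEq, Nat.add_mod_right, Nat.mod_mod]
    set b : ℕ → ℕ := fun i => r + ∑ j ∈ Finset.range i, t j with hb
    set H : ℕ := W * ((r + s) / W + 1) with hH
    have hdm := Nat.div_add_mod (r + s) W
    have hml := Nat.mod_lt (r + s) hW
    have hH' : H = W * ((r + s) / W) + W := by rw [hH]; ring
    have hbk : b k = r + s := rfl
    have hstep : ∀ i < k, b i < b (i + 1) := by
      intro i hi
      show r + ∑ j ∈ Finset.range i, t j < r + ∑ j ∈ Finset.range (i + 1), t j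
      rw [Finset.sum_range_succ]
      have := ht i hi
      omega
    have hble : ∀ i ≤ k, b i ≤ r + s := by
      intro i hi
      show r + ∑ j ∈ Finset.range i, t j ≤ r + s
      have : ∑ j ∈ Finset.range i, t j ≤ s := Finset.sum_le_sum_of_subset (Finset.range_subset_range.2 hi)
      omega
    have hBd : Bd W (k + 1) ((Finset.range (k + 1)).image b) H := by
      refine ⟨by omega, ⟨_, hH⟩, ?_, ?_⟩
      · intro q hq
        obtain ⟨i, hi, rfl⟩ := Finset.mem_image.1 hq
        have hi' : i ≤ k := by have := Finset.mem_range.1 hi; omega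
        refine ⟨?_, ?_, ?_⟩
        · show 1 ≤ r + ∑ j ∈ Finset.range i, t j
          omega
        · have := hble i hi'
          omega
        · exact (cop_shift (hra.add_right _)).2 (ha i hi')
      · exact Finset.card_image_le.trans (le_of_eq (Finset.card_range _))
    have hHs : (H : ℝ) ≤ s + 3 * W := by
      have : H ≤ s + 3 * W := by omega
      exact_mod_cast this
    have hcost : (H : ℝ) / L ≤ (1 - 5 * (ε / 10)) * L := by
      rw [div_le_iff₀ hLp]
      have e1 : 6 * (W : ℝ) / ε ≤ L ^ 2 := by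
        have : (0 : ℝ) ≤ pn S (N + k) := Nat.cast_nonneg _
        linarith
      rw [div_le_iff₀ hε0] at e1
      nlinarith
    obtain ⟨⟨F, hF1, hF2⟩, _⟩ := g1 _ H hBd hcost
    have hF3 : ∀ T ∈ F, ∃ n, n ∈ occ S k t x ∧ pn S n = T + r := by
      intro T hT
      obtain ⟨f1, f2, f3, f4⟩ := hF2 T hT
      obtain ⟨n, hn⟩ := pat_seq (S := S) (T := T) (H := H) (k := k) (a := b) (by
        show 1 ≤ r + ∑ j ∈ Finset.range 0, t j
        omega) hstep (by rw [hbk]; omega) f4 hinf
      refine ⟨n, ⟨?_, ?_⟩, ?_⟩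
      · rw [hn k le_rfl, hbk]
        omega
      · intro i hi
        have e1 := hn (i + 1) (by omega)
        have e2 := hn i (by omega)
        rw [show n + i + 1 = n + (i + 1) by ring, e1, e2]
        show T + (r + ∑ j ∈ Finset.range (i + 1), t j) = T + (r + ∑ j ∈ Finset.range i, t j) + t i
        rw [Finset.sum_range_succ]
        ring
      · have e1 := hn 0 (Nat.zero_le _)
        rw [add_zero] at e1
        rw [e1]
        show T + (r + ∑ j ∈ Finset.range 0, t j) = T + r
        rw [Finset.sum_range_zero, add_zero]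
    choose! φ hφ1 hφ2 using hF3
    have hcard : F.card ≤ (occ S k t x).ncard := by
      rw [← Set.ncard_coe_finset F]
      refine Set.ncard_le_ncard_of_injOn φ (fun T hT => hφ1 T hT) ?_ (occ_fin hinf k t x)
      intro T hT T' hT' h
      have e1 := hφ2 T hT
      have e2 := hφ2 T' hT'
      rw [h] at e1
      omega
    have hcard' : (F.card : ℝ) ≤ (occ S k t x).ncard := by exact_mod_cast hcard
    refine le_trans ?_ (hF1.trans hcard')
    rw [show 1 - (s : ℝ) / L ^ 2 - ε = (1 - ε) - s / L ^ 2 by ring, hexp, Real.rpow_def_of_pos hxp, Real.rpow_def_of_pos hxp, ← Real.exp_add, ← Real.exp_add,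
      Real.exp_le_exp, ← hL]
    have e1 : (H : ℝ) / L ≤ s / L + 3 * W / L := by
      rw [← add_div]
      exact div_le_div_of_nonneg_right hHs hLp.le
    have e2 : 3 * (W : ℝ) / L ≤ ε / 10 := by
      rw [div_le_iff₀ hLp]
      rw [div_le_iff₀ hε0] at g6
      linarith
    have e3 : ε / 10 ≤ ε / 10 * L := by nlinarith
    nlinarith [mul_pos hε0 hLp]
  · intro hsum
    set V : Finset ℕ := ((Finset.range (x + 1)).filter (fun n => n ∈ occ S k t x ∧ N ≤ n)).image (pn S) with hV
    have hVc : ((occ S k t x).ncard : ℝ) ≤ N + V.card := by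
      have e1 : occ S k t x ⊆ ((Finset.range N ∪ (Finset.range (x + 1)).filter (fun n => n ∈ occ S k t x ∧ N ≤ n) : Finset ℕ) : Set ℕ) := by
        intro n hn
        rw [Finset.mem_coe, Finset.mem_union]
        rcases Nat.lt_or_ge n N with h | h
        · exact Or.inl (Finset.mem_range.2 h)
        · exact Or.inr (Finset.mem_filter.2 ⟨occ_sub hinf k t x hn, hn, h⟩)
      have e2 := Set.ncard_le_ncard e1 (Finset.finite_toSet _)
      rw [Set.ncard_coe_finset] at e2
      have e3 : V.card = ((Finset.range (x + 1)).filter (fun n => n ∈ occ S k t x ∧ N ≤ n)).card :=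
        Finset.card_image_of_injective _ hmono.injective
      have e4 := e2.trans (Finset.card_union_le _ _)
      rw [Finset.card_range, ← e3] at e4
      exact_mod_cast e4
    have hfew := g2 ((Finset.Icc 1 k).image (fun i => ∑ j ∈ Finset.range i, t j)) s (by
      refine Finset.card_image_le.trans ?_
      rw [Nat.card_Icc]
      omega) (by
      intro q hq
      obtain ⟨i, hi, rfl⟩ := Finset.mem_image.1 hq
      have hi := Finset.mem_Icc.1 hi
      constructor
      · have e1 : t 0 ≤ ∑ j ∈ Finset.range i, t j := Finset.single_le_sum (f := t) (fun _ _ => Nat.zero_le _) (Finset.mem_range.2 (by omega))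
        have := ht 0 (by omega)
        omega
      · exact Finset.sum_le_sum_of_subset (Finset.range_subset_range.2 hi.2)) (by
      rw [div_le_iff₀ hLp]
      linarith) V (by
      intro v hv
      obtain ⟨n, hn, rfl⟩ := Finset.mem_image.1 hv
      obtain ⟨_, hn1, hn2⟩ := Finset.mem_filter.1 hn
      obtain ⟨e1, e2⟩ := hsmall n hn1 hn2
      refine ⟨(hmono.monotone (Nat.le_add_right n k)).trans hn1.1, ?_, ?_⟩
      · have : 0 ≤ Real.log (pn S n : ℝ) ^ 2 := by positivity
        nlinarith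
      · exact seq_pat hinf (b := fun i => ∑ j ∈ Finset.range i, t j) (by simp) (occ_sum hn1.2))
    rw [show 1 - (s : ℝ) / L ^ 2 + ε = (1 + ε) - s / L ^ 2 by ring, hexp]
    set Y : ℝ := (x : ℝ) ^ (1 + ε / 2) * Real.exp (-(s / L)) with hY
    have hY1 : 1 ≤ Y := by
      rw [hY, Real.rpow_def_of_pos hxp, ← Real.exp_add, ← hL]
      apply Real.one_le_exp
      have : (s : ℝ) / L ≤ L := by
        rw [div_le_iff₀ hLp]
        linarith
      nlinarith [mul_pos hε0 hLp]
    have hfin : (x : ℝ) ^ (1 + ε) * Real.exp (-(s / L)) = (x : ℝ) ^ (ε / 2) * Y := by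
      rw [hY, ← mul_assoc, ← Real.rpow_add hxp]
      congr 2
      ring
    rw [hfin]
    have e2 : ((N : ℝ) + 1) * Y ≤ (x : ℝ) ^ (ε / 2) * Y := mul_le_mul_of_nonneg_right g5 (by linarith)
    nlinarith [Nat.cast_nonneg (α := ℝ) N]
  · intro hsum
    rw [Set.eq_empty_iff_forall_notMem]
    intro n hn
    rcases Nat.lt_or_ge n N with h | h
    · have h5 := occ_sum hn.2 k le_rfl
      rw [← hs] at h5
      have h6 : pn S (n + k) ≤ pn S (N + k) := hmono.monotone (by omega)
      have h7 : (s : ℝ) ≤ pn S (N + k) := by exact_mod_cast (by omega : s ≤ pn S (N + k))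
      have h8 : 0 ≤ 6 * (W : ℝ) / ε := by positivity
      nlinarith
    · obtain ⟨e1, e2⟩ := hsmall n hn h
      have e3 := hlogn n hn e2
      have : 0 < L ^ 2 := by positivity
      nlinarith

end Pool.Agent.R528.RM
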