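import Mathlib
import Pool.Agent.R528.RM.Ct3

set_option autoImplicit false
set_option linter.unusedSectionVars false
set_option linter.unusedVariables false

/-! # A weighted series over the gaps, and the waiting time for a gap -/

open MeasureTheory Filter Set
open scoped ENNReal Topology

namespace Pool.Agent.R528.RM

variable {Ω : Type} {m0 : MeasurableSpace Ω} {μ : Measure Ω} [IsProbabilityMeasure μ]
  {ℱ : Filtration ℕ m0} {A : ℕ → Set Ω}

/-- **a convergent series over the gaps** -/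
theorem gap_weight (hA : ∀ n, MeasurableSet[ℱ n] (A n)) {W : ℕ} (hW : 0 < W)
    (hd : ∀ᵐ ω ∂μ, ∀ ε : ℝ, 0 < ε → ∀ᶠ n : ℕ in atTop, |dens μ ℱ A n ω - rhoW W (n + 1)| ≤ ε * rhoW W (n + 1))
    {ε : ℝ} (hε0 : 0 < ε) (hε1 : ε < 1) :
    ∀ᵐ ω ∂μ, {n | ω ∈ A n}.Infinite ∧ ∃ (Z : ℝ) (N : ℕ), 0 ≤ Z ∧ ∀ V : Finset ℕ, (∀ n ∈ V, N ≤ n) →
      ∑ n ∈ V, (pn {n | ω ∈ A n} n : ℝ) ^ (-(1 + ε)) *
        Real.exp (((pn {n | ω ∈ A n} (n + 1) : ℝ) - pn {n | ω ∈ A n} n) / Real.log (pn {n | ω ∈ A n} n)) ≤ Z := by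
  classical
  set δ : ℝ := (ε / 4) / (8 * ((2 : ℝ) + 1)) with hδ
  have hδ0 : 0 < δ := by positivity
  set E : ℕ → ℕ → Set Ω := fun v H => PatE A (fun m => m - v ∈ ({H} : Finset ℕ)) v H ∩ {ω | ∀ m, v ≤ m → m < v + H → ω ∉ VB μ ℱ A (lp W δ) (up W δ) m} with hE
  have hEm : ∀ v H, MeasurableSet (E v H) := by
    intro v H
    apply MeasurableSet.inter
    · exact ℱ.le _ _ (PatE_meas hA _ _ _)
    · have : {ω | ∀ m, v ≤ m → m < v + H → ω ∉ VB μ ℱ A (lp W δ) (up W δ) m} = ⋂ m, ⋂ (_ : v ≤ m), ⋂ (_ : m < v + H), (VB μ ℱ A (lp W δ) (up W δ) m)ᶜ := by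
        ext ω
        simp
      rw [this]
      exact MeasurableSet.iInter fun m => MeasurableSet.iInter fun _ => MeasurableSet.iInter fun _ => (ℱ.le _ _ (VB_meas _ _ m)).compl
  set w : ℕ → ℕ → ℝ := fun v H => (v : ℝ) ^ (-(1 + ε)) * Real.exp (H / Real.log v) with hw
  have hw0 : ∀ v H, 0 ≤ w v H := fun v H => mul_nonneg (Real.rpow_nonneg (Nat.cast_nonneg _) _) (Real.exp_pos _).le
  set I : ℕ → Finset ℕ := fun v => Finset.Icc 1 ⌊2 * Real.log v ^ 2⌋₊ with hI
  set f : ℕ → Ω → ℝ := fun v ω => ∑ H ∈ I v, w v H * (E v H).indicator (fun _ => (1 : ℝ)) ω with hf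
  have hind0 : ∀ v H ω, 0 ≤ (E v H).indicator (fun _ => (1 : ℝ)) ω := fun v H ω => indicator_nonneg (fun _ _ => zero_le_one) ω
  have hf0 : ∀ v ω, 0 ≤ f v ω := fun v ω => Finset.sum_nonneg fun H _ => mul_nonneg (hw0 _ _) (hind0 _ _ _)
  have hfi : ∀ v, Integrable (f v) μ := fun v => integrable_finsetSum _ fun H _ => ((integrable_const (1 : ℝ)).indicator (hEm v H)).const_mul _
  have hint : ∀ v, ∫ ω, f v ω ∂μ = ∑ H ∈ I v, w v H * μ.real (E v H) := by
    intro v
    rw [integral_finsetSum _ fun H _ => ((integrable_const (1 : ℝ)).indicator (hEm v H)).const_mul _]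
    refine Finset.sum_congr rfl fun H _ => ?_
    rw [integral_const_mul, integral_indicator_const _ (hEm v H), smul_eq_mul, mul_one]
  have hmean : ∀ᶠ v : ℕ in atTop, ∫ ω, f v ω ∂μ ≤ (v : ℝ) ^ (-(1 + ε / 2)) := by
    filter_upwards [bounded_prob (μ := μ) (ℱ := ℱ) hA hW (ε := ε / 4) (by linarith) (by linarith) (C := 2) (by norm_num),
      ev_pow (a := 0) (b := ε / 8) (by positivity) 2, ev_log 1, eventually_gt_atTop 0] with v h1 h2 h4 h3
    rw [Real.rpow_zero, mul_one] at h2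
    have hvp : (0 : ℝ) < v := by exact_mod_cast h3
    rw [hint]
    have e1 : ∀ H ∈ I v, w v H * μ.real (E v H) ≤ (v : ℝ) ^ (-(1 + 3 * ε / 4)) := by
      intro H hH
      have hH := Finset.mem_Icc.1 hH
      have hH2 : (H : ℝ) ≤ 2 * Real.log v ^ 2 := (show (H : ℝ) ≤ (⌊2 * Real.log v ^ 2⌋₊ : ℕ) by exact_mod_cast hH.2).trans (Nat.floor_le (by positivity))
      have g3 := h1 {H} H (by
        intro r hr
        rw [Finset.mem_singleton] at hr
        rw [hr]
        exact ⟨hH.1, le_rfl⟩) hH2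
      refine (mul_le_mul_of_nonneg_left g3 (hw0 _ _)).trans (le_of_eq ?_)
      have e2 : Real.exp (H / Real.log v) * Real.exp (-(H / Real.log v)) = 1 := by
        rw [← Real.exp_add, add_neg_cancel, Real.exp_zero]
      calc (v : ℝ) ^ (-(1 + ε)) * Real.exp (H / Real.log v) * ((v : ℝ) ^ (ε / 4) * Real.exp (-(H / Real.log v)))
          = (v : ℝ) ^ (-(1 + ε)) * (v : ℝ) ^ (ε / 4) * (Real.exp (H / Real.log v) * Real.exp (-(H / Real.log v))) := by ring
        _ = _ := by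
            rw [e2, mul_one, ← Real.rpow_add hvp]
            congr 1
            ring
    refine (Finset.sum_le_sum e1).trans ?_
    rw [Finset.sum_const, nsmul_eq_mul]
    have hcard : ((I v).card : ℝ) ≤ (v : ℝ) ^ (ε / 4) := by
      have e3 : ((I v).card : ℝ) ≤ 2 * Real.log v ^ 2 := by
        rw [hI, Nat.card_Icc, Nat.add_sub_cancel]
        exact Nat.floor_le (by positivity)
      have e4 : (v : ℝ) ^ (ε / 4) = (v : ℝ) ^ (ε / 8) * (v : ℝ) ^ (ε / 8) := by
        rw [← Real.rpow_add hvp]; congr 1; ring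
      rw [e4]
      nlinarith only [e3, h2, h4]
    refine (mul_le_mul_of_nonneg_right hcard (by positivity)).trans (le_of_eq ?_)
    rw [← Real.rpow_add hvp]
    congr 1
    ring
  obtain ⟨κ, hκ0, hκ⟩ := many_in_window (μ := μ) (ℱ := ℱ) hA hW hd (c := 2) (by norm_num)
  have h01 : ∀ᵐ ω ∂μ, ∀ n, 0 ≤ dens μ ℱ A n ω ∧ dens μ ℱ A n ω ≤ 1 := ae_all_iff.2 fun n => dens01 hA n
  filter_upwards [ae_summable_of (μ := μ) hf0 hfi (summable_pow_nat (s := -(1 + ε / 2)) (by linarith)) hmean, hd, h01,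
    norun (μ := μ) hA hW hd hε0 hε1, hκ] with ω hω hdω h01ω h3 h4
  set S : Set ℕ := {n | ω ∈ A n} with hS
  obtain ⟨hinf, _⟩ := gaps_le (S := S) hε0 hε1 h3
  have hmono := nth_mono hinf
  obtain ⟨N₀, hN₀⟩ := dens_two hdω hδ0
  obtain ⟨N₁, hN₁⟩ := eventually_atTop.1 (sum_gaps_le (A := A) (ω := ω) hinf hκ0 (c := 2) (by norm_num) h4 1)
  refine ⟨hinf, ∑' v, f v ω, max N₀ N₁, tsum_nonneg fun v => hf0 v ω, ?_⟩
  intro V hV
  have h5 : ∀ n ∈ V, (pn S n : ℝ) ^ (-(1 + ε)) * Real.exp (((pn S (n + 1) : ℝ) - pn S n) / Real.log (pn S n)) ≤ f (pn S n) ω := by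
    intro n hn
    have hn1 := hV n hn
    have hn2 : N₀ ≤ n := (le_max_left _ _).trans hn1
    have hn3 : N₁ ≤ n := (le_max_right _ _).trans hn1
    have hlt : pn S n < pn S (n + 1) := hmono (Nat.lt_succ_self n)
    set v := pn S n with hv
    set H := pn S (n + 1) - v with hH
    have hH1 : 1 ≤ H := by omega
    have hsum : (pn S (n + 1) : ℝ) = v + H := by
      have : pn S (n + 1) = v + H := by omega
      exact_mod_cast this
    have hH2 : (H : ℝ) ≤ 2 * Real.log v ^ 2 := by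
      have := hN₁ n hn3
      rw [← hv, hsum] at this
      linarith
    have hvn : n ≤ v := hmono.le_apply
    have hmemE : ω ∈ E v H := by
      refine ⟨?_, ?_⟩
      · have g1 := seq_pat hinf (n := n) (k := 1) (b := fun i => i * H) (by simp) (by
          intro i hi
          rcases Nat.lt_or_ge i 1 with h | h
          · have : i = 0 := by omega
            rw [this]
            simp
          · have : i = 1 := by omega
            rw [this, ← hv]
            show pn S (n + 1) = v + 1 * H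
            omega)
        have g2 : (Finset.Icc 1 1).image (fun i => i * H) = {H} := by
          rw [Finset.Icc_self, Finset.image_singleton, one_mul]
        rw [g2] at g1
        intro i hi
        exact g1 i (by simpa using hi)
      · intro m hm1 hm2 hvv
        apply hvv
        have hN' := hN₀ N₀ le_rfl
        exact ⟨hN'.2 m (by omega), le_min (h01ω m).2 (hN'.1 m (by omega))⟩
    have hHI : H ∈ I v := Finset.mem_Icc.2 ⟨hH1, Nat.le_floor hH2⟩
    have e1 : w v H * (E v H).indicator (fun _ => (1 : ℝ)) ω ≤ f v ω :=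
      Finset.single_le_sum (f := fun H => w v H * (E v H).indicator (fun _ => (1 : ℝ)) ω)
        (fun p _ => mul_nonneg (hw0 _ _) (hind0 _ _ _)) hHI
    rw [indicator_of_mem hmemE, mul_one] at e1
    have e2 : (pn S (n + 1) : ℝ) - v = H := by rw [hsum]; ring
    rw [e2]
    exact e1
  refine (Finset.sum_le_sum h5).trans ?_
  have h6 : ∑ n ∈ V, f (pn S n) ω = ∑ v ∈ V.image (pn S), f v ω := by
    rw [Finset.sum_image]
    intro a _ b _ h
    exact hmono.injective h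
  rw [h6]
  exact hω.sum_le_tsum _ (fun v _ => hf0 v ω)

/-- **the waiting time for a gap** -/
theorem local_gap (hA : ∀ n, MeasurableSet[ℱ n] (A n)) {W : ℕ} (hW : 0 < W)
    (hd : ∀ᵐ ω ∂μ, ∀ ε : ℝ, 0 < ε → ∀ᶠ n : ℕ in atTop, |dens μ ℱ A n ω - rhoW W (n + 1)| ≤ ε * rhoW W (n + 1))
    {ε : ℝ} (hε0 : 0 < ε) (hε1 : ε < 1) {k : ℕ} (hk : 1 ≤ k) :
    ∀ᵐ ω ∂μ, {n | ω ∈ A n}.Infinite ∧ ∀ᶠ x : ℕ in atTop, ∀ t : ℕ → ℕ, (∀ i < k, 1 ≤ t i) →
      (∃ a, ∀ i ≤ k, Nat.Coprime (a + ∑ j ∈ Finset.range i, t j) W) → (∑ j ∈ Finset.range k, (t j : ℝ)) ≤ (1 - ε) * Real.log x ^ 2 →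
      ∃ n, x ≤ pn {n | ω ∈ A n} n ∧ (pn {n | ω ∈ A n} (n + k) : ℝ) ≤ x + (x : ℝ) ^ ((∑ j ∈ Finset.range k, (t j : ℝ)) / Real.log x ^ 2 + ε) ∧
        ∀ i < k, pn {n | ω ∈ A n} (n + i + 1) = pn {n | ω ∈ A n} (n + i) + t i := by
  classical
  have hdouble : Tendsto (fun x : ℕ => 2 * x) atTop atTop := tendsto_id.const_mul_atTop' (by norm_num)
  filter_upwards [many_all (μ := μ) (ℱ := ℱ) hA hW hd (ε := ε / 20) (by linarith) (by linarith) (k + 1),
    norun (μ := μ) hA hW hd hε0 hε1] with ω h1 h3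
  set S : Set ℕ := {n | ω ∈ A n} with hS
  obtain ⟨hinf, _⟩ := gaps_le (S := S) hε0 hε1 h3
  refine ⟨hinf, ?_⟩
  filter_upwards [hdouble.eventually h1, ev_log (60 * W / ε + 20 / ε + 20), eventually_gt_atTop 1] with x g1 g6 g7 t ht ha hsum
  obtain ⟨a, ha⟩ := ha
  have hW' : (1 : ℝ) ≤ W := by exact_mod_cast hW
  have hxp : (0 : ℝ) < x := by exact_mod_cast (by omega : 0 < x)
  set L : ℝ := Real.log x with hL
  have h60 : 0 ≤ 60 * (W : ℝ) / ε := by positivity
  have h20 : 0 ≤ 20 / ε := by positivity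
  have hL20 : 20 ≤ L := by linarith
  have hLp : 0 < L := by linarith
  have hLW : 60 * (W : ℝ) ≤ ε * L := by
    have : 60 * (W : ℝ) / ε ≤ L := by linarith
    rw [div_le_iff₀ hε0] at this
    linarith
  have hLε : 20 ≤ ε * L := by
    have : 20 / ε ≤ L := by linarith
    rw [div_le_iff₀ hε0] at this
    linarith
  set L₂ : ℝ := Real.log ((2 * x : ℕ) : ℝ) with hL₂
  have hL₂e : L₂ = Real.log 2 + L := by
    rw [hL₂, Nat.cast_mul, Nat.cast_ofNat, Real.log_mul (by norm_num) hxp.ne']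
  have hlog2 : Real.log 2 ≤ 1 := by linarith only [Real.log_two_lt_d9]
  have hlog20 : 0 ≤ Real.log 2 := Real.log_nonneg (by norm_num)
  have hLL : L ≤ L₂ := by linarith
  have hL₂p : 0 < L₂ := by linarith
  set s : ℕ := ∑ j ∈ Finset.range k, t j with hs
  have hsc : (∑ j ∈ Finset.range k, (t j : ℝ)) = s := by rw [hs]; push_cast; rfl
  rw [hsc] at hsum ⊢
  set r : ℕ := a % W + W with hr
  have hmodlt := Nat.mod_lt a hW
  have hra : r ≡ a [MOD W] := by
    rw [hr, Nat.ModEq, Nat.add_mod_right, Nat.mod_mod]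
  set b : ℕ → ℕ := fun i => r + ∑ j ∈ Finset.range i, t j with hb
  set H : ℕ := W * ((r + s) / W + 1) with hH
  have hdm := Nat.div_add_mod (r + s) W
  have hml := Nat.mod_lt (r + s) hW
  have hH' : H = W * ((r + s) / W) + W := by rw [hH]; ring
  have hbk : b k = r + s := rfl
  have hstep : ∀ i < k, b i < b (i + 1) := by
    intro i hi
    show r + ∑ j ∈ Finset.range i, t j < r + ∑ j ∈ Finset.range (i + 1), t j
    rw [Finset.sum_range_succ]
    have := ht i hi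
    omega
  have hble : ∀ i ≤ k, b i ≤ r + s := by
    intro i hi
    show r + ∑ j ∈ Finset.range i, t j ≤ r + s
    have : ∑ j ∈ Finset.range i, t j ≤ s := Finset.sum_le_sum_of_subset (Finset.range_subset_range.2 hi)
    omega
  have hBd : Bd W (k + 1) ((Finset.range (k + 1)).image b) H := by
    refine ⟨by omega, ⟨_, hH⟩, ?_, ?_⟩
    · intro q hq
      obtain ⟨i, hi, rfl⟩ := Finset.mem_image.1 hq
      have hi' : i ≤ k := by have := Finset.mem_range.1 hi; omega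
      refine ⟨?_, ?_, ?_⟩
      · show 1 ≤ r + ∑ j ∈ Finset.range i, t j
        omega
      · have := hble i hi'
        omega
      · exact (cop_shift (hra.add_right _)).2 (ha i hi')
    · exact Finset.card_image_le.trans (le_of_eq (Finset.card_range _))
  have hHs : (H : ℝ) ≤ s + 3 * W := by
    have : H ≤ s + 3 * W := by omega
    exact_mod_cast this
  have hs0 : (0 : ℝ) ≤ s := Nat.cast_nonneg _
  have hHL : (H : ℝ) / L₂ ≤ s / L + ε / 20 := by
    have e1 : (H : ℝ) / L₂ ≤ (s + 3 * W) / L := div_le_div₀ (by positivity) hHs hLp hLL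
    have e2 : ((s : ℝ) + 3 * W) / L = s / L + 3 * W / L := add_div _ _ _
    have e3 : 3 * (W : ℝ) / L ≤ ε / 20 := by
      rw [div_le_iff₀ hLp]
      linarith
    linarith
  have hsL : (s : ℝ) / L ≤ (1 - ε) * L := by
    rw [div_le_iff₀ hLp]
    nlinarith
  have hcost : (H : ℝ) / L₂ ≤ (1 - 5 * (ε / 20)) * L₂ := by
    have e1 : (1 - 5 * (ε / 20)) * L ≤ (1 - 5 * (ε / 20)) * L₂ := mul_le_mul_of_nonneg_left hLL (by linarith)
    nlinarith
  obtain ⟨_, g2⟩ := g1 _ H hBd hcost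
  -- the length of the window
  have hexp : ((2 * x : ℕ) : ℝ) ^ (3 * (ε / 20)) * Real.exp (H / L₂) ≤ (x : ℝ) ^ ((s : ℝ) / L ^ 2 + ε) := by
    have e0 : (0 : ℝ) < ((2 * x : ℕ) : ℝ) := by exact_mod_cast (by omega : 0 < 2 * x)
    rw [Real.rpow_def_of_pos e0, Real.rpow_def_of_pos hxp, ← Real.exp_add, Real.exp_le_exp, ← hL₂, ← hL]
    have e1 : L * ((s : ℝ) / L ^ 2 + ε) = s / L + ε * L := by field_simp
    rw [e1]
    have e3 : L₂ * (3 * (ε / 20)) ≤ (L + 1) * (3 * (ε / 20)) := mul_le_mul_of_nonneg_right (by linarith) (by positivity)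
    linarith
  have hle : (x : ℝ) ^ ((s : ℝ) / L ^ 2 + ε) ≤ (x : ℝ) ^ ((s : ℝ) / L ^ 2 + ε) := le_rfl
  have hexp2 : ((2 * x : ℕ) : ℝ) ^ (3 * (ε / 20)) * Real.exp (H / L₂) ≤ x := by
    have e0 : (0 : ℝ) < ((2 * x : ℕ) : ℝ) := by exact_mod_cast (by omega : 0 < 2 * x)
    have e1 : (x : ℝ) = Real.exp L := (Real.exp_log hxp).symm
    have e2 : ((2 * x : ℕ) : ℝ) ^ (3 * (ε / 20)) * Real.exp (H / L₂) ≤ Real.exp L := by
      rw [Real.rpow_def_of_pos e0, ← Real.exp_add, Real.exp_le_exp, ← hL₂]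
      have e3 : L₂ * (3 * (ε / 20)) ≤ (L + 1) * (3 * (ε / 20)) := mul_le_mul_of_nonneg_right (by linarith) (by positivity)
      linarith
    rwa [← e1] at e2
  obtain ⟨T, f1, f2, f3, f4⟩ := g2 x le_rfl (by push_cast; push_cast at hexp2; linarith)
  obtain ⟨n, hn⟩ := pat_seq (S := S) (T := T) (H := H) (k := k) (a := b) (by
    show 1 ≤ r + ∑ j ∈ Finset.range 0, t j
    omega) hstep (by rw [hbk]; omega) f4 hinf
  refine ⟨n, ?_, ?_, ?_⟩
  · have e1 := hn 0 (Nat.zero_le _)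
    rw [add_zero] at e1
    omega
  · rw [hn k le_rfl, hbk]
    have e1 : ((T + (r + s) : ℕ) : ℝ) ≤ ((T + H : ℕ) : ℝ) := by exact_mod_cast (by omega : T + (r + s) ≤ T + H)
    linarith
  · intro i hi
    have e1 := hn (i + 1) (by omega)
    have e2 := hn i (by omega)
    rw [show n + i + 1 = n + (i + 1) by ring, e1, e2]
    show T + (r + ∑ j ∈ Finset.range (i + 1), t j) = T + (r + ∑ j ∈ Finset.range i, t j) + t i
    rw [Finset.sum_range_succ]
    ring

end Pool.Agent.R528.RM
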