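import Mathlib
import Pool.Agent.R528.RM.Ct4

set_option autoImplicit false
set_option linter.unusedSectionVars false
set_option linter.unusedVariables false

/-! # Differences of powers of consecutive members -/

open MeasureTheory Filter Set
open scoped ENNReal Topology

namespace Pool.Agent.R528.RM

variable {Ω : Type} {m0 : MeasurableSpace Ω} {μ : Measure Ω} [IsProbabilityMeasure μ]
  {ℱ : Filtration ℕ m0} {A : ℕ → Set Ω}

lemma rpow_sub_le {p q a : ℝ} (hp : 0 < p) (hpq : p ≤ q) (ha0 : 0 ≤ a) (ha1 : a ≤ 1) :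
    q ^ a - p ^ a ≤ a * p ^ (a - 1) * (q - p) := by
  have h1 : 0 ≤ (q - p) / p := div_nonneg (by linarith) hp.le
  have h2 := _root_.rpow_one_add_le_one_add_mul_self (s := (q - p) / p) (by linarith) ha0 ha1
  have h3 : q = p * (1 + (q - p) / p) := by field_simp; ring
  have h4 : q ^ a = p ^ a * (1 + (q - p) / p) ^ a := by
    nth_rw 1 [h3]
    exact Real.mul_rpow hp.le (by linarith)
  have h5 : p ^ (a - 1) = p ^ a / p := by rw [Real.rpow_sub hp, Real.rpow_one]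
  have h6 : 0 ≤ p ^ a := Real.rpow_nonneg hp.le _
  have h7 := mul_le_mul_of_nonneg_left h2 h6
  rw [h4, h5]
  have h8 : p ^ a * (1 + a * ((q - p) / p)) = p ^ a + a * (p ^ a / p) * (q - p) := by field_simp
  linarith

lemma le_rpow_sub {p q a : ℝ} (hp : 0 < p) (hpq : p ≤ q) (ha0 : 0 ≤ a) (ha1 : a ≤ 1) :
    a * q ^ (a - 1) * (q - p) ≤ q ^ a - p ^ a := by
  have hq : 0 < q := hp.trans_le hpq
  have h0 : -1 ≤ (p - q) / q := by
    rw [le_div_iff₀ hq]
    linarith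
  have h2 := _root_.rpow_one_add_le_one_add_mul_self (s := (p - q) / q) h0 ha0 ha1
  have h3 : p = q * (1 + (p - q) / q) := by field_simp; ring
  have h4 : p ^ a = q ^ a * (1 + (p - q) / q) ^ a := by
    nth_rw 1 [h3]
    exact Real.mul_rpow hq.le (by linarith)
  have h5 : q ^ (a - 1) = q ^ a / q := by rw [Real.rpow_sub hq, Real.rpow_one]
  have h6 : 0 ≤ q ^ a := Real.rpow_nonneg hq.le _
  have h7 := mul_le_mul_of_nonneg_left h2 h6
  rw [h4, h5]
  have h8 : q ^ a * (1 + a * ((p - q) / q)) = q ^ a - a * (q ^ a / q) * (q - p) := by field_simp; ring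
  linarith

lemma rpow_ratio {p q a : ℝ} (hp : 0 < p) (hpq : p ≤ q) (ha0 : 0 ≤ a) : p ^ (a - 1) * (p / q) ≤ q ^ (a - 1) := by
  have hq : 0 < q := hp.trans_le hpq
  have h1 : q ^ (a - 1) = q ^ a / q := by rw [Real.rpow_sub hq, Real.rpow_one]
  have h2 : p ^ (a - 1) = p ^ a / p := by rw [Real.rpow_sub hp, Real.rpow_one]
  rw [h1, h2]
  have h3 : p ^ a / p * (p / q) = p ^ a / q := by field_simp
  rw [h3]
  exact div_le_div_of_nonneg_right (Real.rpow_le_rpow hp.le hpq ha0) hq.le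

lemma weight_anti {a : ℝ} (ha1 : a < 1) {x p : ℝ} (hx : Real.exp (1 / ((1 - a) / 2)) ≤ x) (hxp : x ≤ p) :
    p ^ (a - 1) * Real.log p ^ 2 ≤ x ^ (a - 1) * Real.log x ^ 2 := by
  have hb : 0 < (1 - a) / 2 := by linarith
  have h1 := Real.log_div_self_rpow_antitoneOn hb (show x ∈ Set.Ici (Real.exp ((1 - a) / 2)⁻¹) by rw [Set.mem_Ici, ← one_div]; exact hx)
    (show p ∈ Set.Ici (Real.exp ((1 - a) / 2)⁻¹) by rw [Set.mem_Ici, ← one_div]; exact hx.trans hxp) hxp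
  have h1 : Real.log p / p ^ ((1 - a) / 2) ≤ Real.log x / x ^ ((1 - a) / 2) := h1
  have hx1 : 1 < x := lt_of_lt_of_le (Real.one_lt_exp_iff.2 (by positivity)) hx
  have hx0 : 0 < x := by linarith
  have hp0 : 0 < p := by linarith
  have h2 : 0 ≤ Real.log p / p ^ ((1 - a) / 2) := div_nonneg (Real.log_nonneg (by linarith)) (Real.rpow_nonneg hp0.le _)
  have h3 := pow_le_pow_left₀ h2 h1 2
  have h4 : ∀ y : ℝ, 0 < y → (Real.log y / y ^ ((1 - a) / 2)) ^ 2 = y ^ (a - 1) * Real.log y ^ 2 := by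
    intro y hy
    rw [div_pow, ← Real.rpow_natCast (y ^ ((1 - a) / 2)) 2, ← Real.rpow_mul hy.le]
    have : (1 - a) / 2 * ((2 : ℕ) : ℝ) = -(a - 1) := by push_cast; ring
    rw [this, Real.rpow_neg hy.le]
    field_simp
  rwa [h4 p hp0, h4 x hx0] at h3

/-- the upper bound for the differences -/
lemma and_upper {S : Set ℕ} (hinf : S.Infinite) {η : ℝ} (hη : 0 < η)
    (h : ∀ᶠ n : ℕ in atTop, (pn S (n + 1) : ℝ) ≤ pn S n + (1 + η) * Real.log (pn S n) ^ 2) {a : ℝ} (ha0 : 0 < a) (ha1 : a < 1) :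
    ∀ᶠ x : ℕ in atTop, ∀ n, x ≤ pn S n → (pn S (n + 1) : ℝ) ^ a - (pn S n : ℝ) ^ a ≤ (1 + η) * (a * (x : ℝ) ^ (a - 1) * Real.log x ^ 2) := by
  obtain ⟨N, hN⟩ := eventually_atTop.1 h
  have hmono := nth_mono hinf
  filter_upwards [eventually_ge_atTop (pn S N + 1), (tendsto_natCast_atTop_atTop (R := ℝ)).eventually_ge_atTop (Real.exp (1 / ((1 - a) / 2)))] with x g1 g2 n hn
  have hNn : N ≤ n := by
    by_contra hcon
    push Not at hcon
    have := hmono hcon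
    omega
  have hx0 : (0 : ℝ) < x := lt_of_lt_of_le (Real.exp_pos _) g2
  have hxp : (x : ℝ) ≤ pn S n := by exact_mod_cast hn
  have hp : (0 : ℝ) < pn S n := by linarith
  have hpq : (pn S n : ℝ) ≤ pn S (n + 1) := by exact_mod_cast (hmono (Nat.lt_succ_self n)).le
  have h1 := rpow_sub_le hp hpq ha0.le ha1.le
  have h2 := hN n hNn
  have h3 := weight_anti ha1 g2 hxp
  have h4 : 0 ≤ a * (pn S n : ℝ) ^ (a - 1) := mul_nonneg ha0.le (Real.rpow_nonneg hp.le _)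
  calc (pn S (n + 1) : ℝ) ^ a - (pn S n : ℝ) ^ a ≤ a * (pn S n : ℝ) ^ (a - 1) * (pn S (n + 1) - pn S n) := h1
    _ ≤ a * (pn S n : ℝ) ^ (a - 1) * ((1 + η) * Real.log (pn S n) ^ 2) := mul_le_mul_of_nonneg_left (by linarith) h4
    _ = (1 + η) * a * ((pn S n : ℝ) ^ (a - 1) * Real.log (pn S n) ^ 2) := by ring
    _ ≤ (1 + η) * a * ((x : ℝ) ^ (a - 1) * Real.log x ^ 2) := mul_le_mul_of_nonneg_left h3 (by positivity)
    _ = _ := by ring

/-- the lower bound for the differences -/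
lemma and_lower {S : Set ℕ} (hinf : S.Infinite) {ε : ℝ} (hε0 : 0 < ε) (hε1 : ε < 1 / 4)
    (h : ∀ᶠ x : ℕ in atTop, ∃ n, x ≤ pn S n ∧ (pn S (n + 1) : ℝ) ≤ x + (x : ℝ) ^ (1 - ε) ∧
      (1 - 3 * ε) * Real.log x ^ 2 ≤ (pn S (n + 1) : ℝ) - pn S n) {a : ℝ} (ha0 : 0 < a) (ha1 : a < 1) :
    ∀ᶠ x : ℕ in atTop, ∃ n, x ≤ pn S n ∧ (1 - 4 * ε) * (a * (x : ℝ) ^ (a - 1) * Real.log x ^ 2) ≤ (pn S (n + 1) : ℝ) ^ a - (pn S n : ℝ) ^ a := by
  have hmono := nth_mono hinf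
  have ht : Tendsto (fun x : ℕ => (x : ℝ) ^ ε) atTop atTop := (tendsto_rpow_atTop hε0).comp (tendsto_natCast_atTop_atTop (R := ℝ))
  filter_upwards [h, ht.eventually_ge_atTop (1 / ε), eventually_gt_atTop 1] with x ⟨n, g1, g2, g3⟩ g4 g5
  refine ⟨n, g1, ?_⟩
  have hx : (1 : ℝ) < x := by exact_mod_cast g5
  have hx0 : (0 : ℝ) < x := by linarith
  have hxp : (x : ℝ) ≤ pn S n := by exact_mod_cast g1
  have hp : (0 : ℝ) < pn S n := by linarith
  have hpq : (pn S n : ℝ) ≤ pn S (n + 1) := by exact_mod_cast (hmono (Nat.lt_succ_self n)).le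
  have hq : (0 : ℝ) < pn S (n + 1) := by linarith
  have h1 := le_rpow_sub hp hpq ha0.le ha1.le
  have h2 := rpow_ratio hx0 (hxp.trans hpq) ha0.le
  -- the ratio
  have h3 : 1 - ε ≤ (x : ℝ) / pn S (n + 1) := by
    rw [le_div_iff₀ hq]
    have e1 : (x : ℝ) ^ (1 - ε) ≤ ε * x := by
      rw [Real.rpow_sub hx0, Real.rpow_one, div_le_iff₀ (by positivity)]
      have : 1 ≤ ε * (x : ℝ) ^ ε := by
        rw [div_le_iff₀ hε0] at g4
        linarith
      nlinarith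
    have e2 : (1 - ε) * (pn S (n + 1) : ℝ) ≤ (1 - ε) * (x + ε * x) := mul_le_mul_of_nonneg_left (by linarith) (by linarith)
    nlinarith [mul_pos (mul_pos hε0 hε0) hx0]
  have h4 : 0 ≤ (x : ℝ) ^ (a - 1) := Real.rpow_nonneg hx0.le _
  have hL2 : 0 ≤ Real.log (x : ℝ) ^ 2 := by positivity
  have h5 : (x : ℝ) ^ (a - 1) * (1 - ε) ≤ (pn S (n + 1) : ℝ) ^ (a - 1) := (mul_le_mul_of_nonneg_left h3 h4).trans h2
  calc (1 - 4 * ε) * (a * (x : ℝ) ^ (a - 1) * Real.log x ^ 2)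
      ≤ ((1 - ε) * (1 - 3 * ε)) * (a * (x : ℝ) ^ (a - 1) * Real.log x ^ 2) := by
        apply mul_le_mul_of_nonneg_right _ (by positivity)
        nlinarith
    _ = a * ((x : ℝ) ^ (a - 1) * (1 - ε)) * ((1 - 3 * ε) * Real.log x ^ 2) := by ring
    _ ≤ a * (pn S (n + 1) : ℝ) ^ (a - 1) * (pn S (n + 1) - pn S n) := by
        apply mul_le_mul (mul_le_mul_of_nonneg_left h5 ha0.le) g3
        · exact mul_nonneg (by linarith) hL2
        · exact mul_nonneg ha0.le (Real.rpow_nonneg hq.le _)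
    _ ≤ _ := h1

/-- multiples of `W` in the right range -/
lemma mult_param {W : ℕ} (hW : 0 < W) {c c' : ℝ} (hc : 0 < c) (hcc : c < c') :
    ∀ᶠ x : ℕ in atTop, ∃ t : ℕ, 1 ≤ t ∧ W ∣ t ∧ c * Real.log x ^ 2 ≤ t ∧ (t : ℝ) ≤ c' * Real.log x ^ 2 := by
  have hlogsq : Tendsto (fun x : ℕ => Real.log (x : ℝ) ^ 2) atTop atTop := (tendsto_pow_atTop (n := 2) two_ne_zero).comp tendsto_log
  filter_upwards [hlogsq.eventually_ge_atTop (W / (c' - c)), hlogsq.eventually_gt_atTop 0] with x h1 h2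
  rw [div_le_iff₀ (by linarith)] at h1
  have hW' : (0 : ℝ) < W := by exact_mod_cast hW
  have hpos : 0 < ⌈c * Real.log x ^ 2 / W⌉₊ := Nat.ceil_pos.2 (by positivity)
  refine ⟨W * ⌈c * Real.log x ^ 2 / W⌉₊, Nat.mul_pos hW hpos, Dvd.intro _ rfl, ?_, ?_⟩
  · push_cast
    have := Nat.le_ceil (c * Real.log x ^ 2 / W)
    rw [div_le_iff₀ hW'] at this
    linarith
  · push_cast
    have h3 := (Nat.ceil_lt_add_one (show 0 ≤ c * Real.log (x : ℝ) ^ 2 / W by positivity)).le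
    have h4 := mul_le_mul_of_nonneg_left h3 hW'.le
    have h5 : (W : ℝ) * (c * Real.log x ^ 2 / W + 1) = c * Real.log x ^ 2 + W := by field_simp
    rw [h5] at h4
    linarith

lemma possible_mult {W t : ℕ} (h : W ∣ t) : ∃ a, ∀ i ≤ 1, Nat.Coprime (a + ∑ j ∈ Finset.range i, (fun _ => t) j) W := by
  refine ⟨1, fun i hi => ?_⟩
  rcases Nat.lt_or_ge i 1 with h1 | h1
  · have : i = 0 := by omega
    rw [this]
    simp
  · have : i = 1 := by omega
    rw [this, Finset.sum_range_one]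
    obtain ⟨s, rfl⟩ := h
    exact (Nat.coprime_add_mul_left_left 1 W s).2 (Nat.coprime_one_left _)

/-- the number of large differences, from above -/
lemma and_count_upper {S : Set ℕ} (hinf : S.Infinite) {ε Z : ℝ} {N : ℕ} (hε0 : 0 < ε)
    (hZ : 0 ≤ Z)
    (h : ∀ V : Finset ℕ, (∀ n ∈ V, N ≤ n) →
      ∑ n ∈ V, (pn S n : ℝ) ^ (-(1 + ε)) * Real.exp (((pn S (n + 1) : ℝ) - pn S n) / Real.log (pn S n)) ≤ Z)
    {a c : ℝ} (ha0 : 0 < a) (ha1 : a < 1) (hc0 : 0 < c) (hc1 : c < 1) :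
    ∀ᶠ x : ℕ in atTop, ({n : ℕ | pn S n ≤ x ∧ c * a * (pn S n : ℝ) ^ (a - 1) * Real.log (pn S n) ^ 2 < (pn S (n + 1) : ℝ) ^ a - (pn S n : ℝ) ^ a}.ncard : ℝ) ≤
      (x : ℝ) ^ (1 - c + 2 * ε) := by
  classical
  have hmono := nth_mono hinf
  set N₀ := max N 2 with hN₀
  filter_upwards [((tendsto_rpow_atTop hε0).comp (tendsto_natCast_atTop_atTop (R := ℝ))).eventually_ge_atTop ((N₀ : ℝ) + Z), eventually_gt_atTop 1] with x g1 g2
  have g1 : (N₀ : ℝ) + Z ≤ (x : ℝ) ^ ε := g1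
  have hx : (1 : ℝ) ≤ x := by exact_mod_cast g2.le
  have hx0 : (0 : ℝ) < x := by linarith
  set O : Set ℕ := {n : ℕ | pn S n ≤ x ∧ c * a * (pn S n : ℝ) ^ (a - 1) * Real.log (pn S n) ^ 2 < (pn S (n + 1) : ℝ) ^ a - (pn S n : ℝ) ^ a} with hO
  set V : Finset ℕ := (Finset.range (x + 1)).filter (fun n => n ∈ O ∧ N₀ ≤ n) with hV
  have hOc : (O.ncard : ℝ) ≤ N₀ + V.card := by
    have e1 : O ⊆ ((Finset.range N₀ ∪ V : Finset ℕ) : Set ℕ) := by
      intro n hn
      rw [Finset.mem_coe, Finset.mem_union]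
      rcases Nat.lt_or_ge n N₀ with h | h
      · exact Or.inl (Finset.mem_range.2 h)
      · refine Or.inr (Finset.mem_filter.2 ⟨?_, hn, h⟩)
        rw [Finset.mem_range]
        have h1 := hmono.le_apply (x := n)
        have h2 := hn.1
        omega
    have e2 := Set.ncard_le_ncard e1 (Finset.finite_toSet _)
    rw [Set.ncard_coe_finset] at e2
    have e4 := e2.trans (Finset.card_union_le _ _)
    rw [Finset.card_range] at e4
    exact_mod_cast e4
  have hterm : ∀ n ∈ V, (x : ℝ) ^ (-(1 + ε - c)) ≤ (pn S n : ℝ) ^ (-(1 + ε)) * Real.exp (((pn S (n + 1) : ℝ) - pn S n) / Real.log (pn S n)) := by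
    intro n hn
    obtain ⟨_, ⟨h1, h2⟩, h3⟩ := Finset.mem_filter.1 hn
    have h4 : 2 ≤ pn S n := ((le_max_right _ _).trans h3).trans hmono.le_apply
    have hp1 : (1 : ℝ) < pn S n := by exact_mod_cast (by omega : 1 < pn S n)
    have hp : (0 : ℝ) < pn S n := by linarith
    have hpx : (pn S n : ℝ) ≤ x := by exact_mod_cast h1
    have hpq : (pn S n : ℝ) ≤ pn S (n + 1) := by exact_mod_cast (hmono (Nat.lt_succ_self n)).le
    have h5 := rpow_sub_le hp hpq ha0.le ha1.le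
    have hlog : 0 < Real.log (pn S n : ℝ) := Real.log_pos hp1
    have h6 : c * Real.log (pn S n) ^ 2 ≤ (pn S (n + 1) : ℝ) - pn S n := by
      have hpos : 0 < a * (pn S n : ℝ) ^ (a - 1) := mul_pos ha0 (Real.rpow_pos_of_pos hp _)
      by_contra hcon
      push Not at hcon
      have := mul_lt_mul_of_pos_left hcon hpos
      nlinarith
    have h7 : c * Real.log (pn S n) ≤ ((pn S (n + 1) : ℝ) - pn S n) / Real.log (pn S n) := by
      rw [le_div_iff₀ hlog]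
      linarith
    calc (x : ℝ) ^ (-(1 + ε - c)) ≤ (pn S n : ℝ) ^ (-(1 + ε - c)) := Real.rpow_le_rpow_of_nonpos hp hpx (by linarith)
      _ = (pn S n : ℝ) ^ (-(1 + ε)) * Real.exp (c * Real.log (pn S n)) := by
          have : Real.exp (c * Real.log (pn S n : ℝ)) = (pn S n : ℝ) ^ c := by rw [Real.rpow_def_of_pos hp, mul_comm]
          rw [this, ← Real.rpow_add hp]
          congr 1
          ring
      _ ≤ _ := mul_le_mul_of_nonneg_left (Real.exp_le_exp.2 h7) (Real.rpow_nonneg hp.le _)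
  have hsum : (V.card : ℝ) * (x : ℝ) ^ (-(1 + ε - c)) ≤ Z := by
    calc (V.card : ℝ) * (x : ℝ) ^ (-(1 + ε - c)) = ∑ n ∈ V, (x : ℝ) ^ (-(1 + ε - c)) := by rw [Finset.sum_const, nsmul_eq_mul]
      _ ≤ _ := Finset.sum_le_sum hterm
      _ ≤ Z := h V fun n hn => (le_max_left _ _).trans (Finset.mem_filter.1 hn).2.2
  have hVc : (V.card : ℝ) ≤ Z * (x : ℝ) ^ (1 + ε - c) := by
    have e1 := mul_le_mul_of_nonneg_right hsum (show 0 ≤ (x : ℝ) ^ (1 + ε - c) by positivity)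
    rw [mul_assoc, ← Real.rpow_add hx0, neg_add_cancel, Real.rpow_zero, mul_one] at e1
    exact e1
  have h1 : 1 ≤ (x : ℝ) ^ (1 + ε - c) := Real.one_le_rpow hx (by linarith)
  calc (O.ncard : ℝ) ≤ N₀ + V.card := hOc
    _ ≤ N₀ * (x : ℝ) ^ (1 + ε - c) + Z * (x : ℝ) ^ (1 + ε - c) := by
        have : (N₀ : ℝ) * 1 ≤ N₀ * (x : ℝ) ^ (1 + ε - c) := mul_le_mul_of_nonneg_left h1 (Nat.cast_nonneg _)
        linarith
    _ = (N₀ + Z) * (x : ℝ) ^ (1 + ε - c) := by ring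
    _ ≤ (x : ℝ) ^ ε * (x : ℝ) ^ (1 + ε - c) := mul_le_mul_of_nonneg_right g1 (by positivity)
    _ = (x : ℝ) ^ (1 - c + 2 * ε) := by
        rw [← Real.rpow_add hx0]
        congr 1
        ring

/-- the number of large differences, from below -/
lemma and_count_lower {S : Set ℕ} (hinf : S.Infinite) {ε : ℝ} (hε0 : 0 < ε) {W : ℕ} (hW : 0 < W)
    (h : ∀ᶠ n : ℕ in atTop, (pn S (n + 1) : ℝ) ≤ pn S n + 2 * Real.log (pn S n) ^ 2)
    (hocc : ∀ᶠ x : ℕ in atTop, ∀ t : ℕ → ℕ, (∀ i < 1, 1 ≤ t i) →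
      ((∃ a, ∀ i ≤ 1, Nat.Coprime (a + ∑ j ∈ Finset.range i, t j) W) → (∑ j ∈ Finset.range 1, (t j : ℝ)) ≤ (1 - ε) * Real.log x ^ 2 →
        (x : ℝ) ^ (1 - (∑ j ∈ Finset.range 1, (t j : ℝ)) / Real.log x ^ 2 - ε) ≤ (occ S 1 t x).ncard))
    {a c : ℝ} (ha0 : 0 < a) (ha1 : a < 1) (hc0 : 0 < c) (hc1 : c + 3 * ε < 1) :
    ∀ᶠ x : ℕ in atTop, (x : ℝ) ^ (1 - c - 3 * ε) ≤
      ({n : ℕ | pn S n ≤ x ∧ c * a * (pn S n : ℝ) ^ (a - 1) * Real.log (pn S n) ^ 2 < (pn S (n + 1) : ℝ) ^ a - (pn S n : ℝ) ^ a}.ncard : ℝ) := by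
  classical
  have hmono := nth_mono hinf
  -- the ratio
  have hratio : ∀ᶠ n : ℕ in atTop, c * (pn S (n + 1) : ℝ) < (c + ε) * pn S n := by
    have h1 : Tendsto (fun y : ℝ => Real.log y ^ 2 / y) atTop (𝓝 0) := by
      have := (Real.isLittleO_pow_log_id_atTop (n := 2)).tendsto_div_nhds_zero
      exact this
    have h2 : Tendsto (fun n : ℕ => (pn S n : ℝ)) atTop atTop := (tendsto_natCast_atTop_atTop (R := ℝ)).comp (tendsto_nth hinf)
    have h3 := (h1.comp h2).eventually (eventually_lt_nhds (show (0 : ℝ) < ε / (2 * c) by positivity))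
    filter_upwards [h, h3, h2.eventually_gt_atTop 0] with n g1 g2 g3
    have g2 : Real.log (pn S n) ^ 2 / (pn S n : ℝ) < ε / (2 * c) := g2
    rw [div_lt_div_iff₀ g3 (by positivity)] at g2
    nlinarith
  obtain ⟨N, hN⟩ := eventually_atTop.1 hratio
  set N' := max N 1 with hN'
  have hlogsq : Tendsto (fun x : ℕ => Real.log (x : ℝ) ^ 2) atTop atTop := (tendsto_pow_atTop (n := 2) two_ne_zero).comp tendsto_log
  filter_upwards [hocc, mult_param hW (show 0 < c + ε by linarith) (show c + ε < c + 2 * ε by linarith), hlogsq.eventually_gt_atTop ((pn S N' : ℝ) / c),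
    ev_log 1, eventually_gt_atTop 1] with x g1 ⟨t, t1, t2, t3, t4⟩ g3 g4 g5
  have hx1 : (1 : ℝ) ≤ x := by exact_mod_cast g5.le
  have hL2 : 0 < Real.log (x : ℝ) ^ 2 := by positivity
  have g6 := g1 (fun _ => t) (fun _ _ => t1) (possible_mult t2) (by
    rw [Finset.sum_range_one]
    refine t4.trans (mul_le_mul_of_nonneg_right (by linarith) hL2.le))
  rw [Finset.sum_range_one] at g6
  set O : Set ℕ := {n : ℕ | pn S n ≤ x ∧ c * a * (pn S n : ℝ) ^ (a - 1) * Real.log (pn S n) ^ 2 < (pn S (n + 1) : ℝ) ^ a - (pn S n : ℝ) ^ a} with hO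
  have hfin : O.Finite := by
    apply (Finset.finite_toSet (Finset.range (x + 1))).subset
    intro n hn
    rw [Finset.mem_coe, Finset.mem_range]
    have h1 := hmono.le_apply (x := n)
    have h2 := hn.1
    omega
  have hsub : occ S 1 (fun _ => t) x ⊆ O := by
    rintro n ⟨h1, h2⟩
    have h3 : pn S (n + 1) = pn S n + t := h2 0 (by omega)
    have hgap : (pn S (n + 1) : ℝ) = pn S n + t := by exact_mod_cast h3
    have hnN : N' ≤ n := by
      by_contra hcon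
      push Not at hcon
      have e1 : pn S (n + 1) ≤ pn S N' := hmono.monotone hcon
      have e2 : (t : ℝ) ≤ pn S N' := by exact_mod_cast (by omega : t ≤ pn S N')
      rw [div_lt_iff₀ hc0] at g3
      nlinarith
    have hp : (0 : ℝ) < pn S n := by
      have := hmono.le_apply (x := n)
      have h5 : 1 ≤ n := (le_max_right _ _).trans hnN
      exact_mod_cast (by omega : 0 < pn S n)
    have hpq : (pn S n : ℝ) ≤ pn S (n + 1) := by rw [hgap]; linarith [Nat.cast_nonneg (α := ℝ) t]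
    have hq : (0 : ℝ) < pn S (n + 1) := by linarith
    have hpx : pn S n ≤ x := (hmono.monotone (Nat.le_succ n)).trans h1
    refine ⟨hpx, ?_⟩
    have hr := hN n ((le_max_left _ _).trans hnN)
    have h6 := le_rpow_sub hp hpq ha0.le ha1.le
    have h7 := rpow_ratio hp hpq ha0.le
    have hlog : Real.log (pn S n : ℝ) ^ 2 ≤ Real.log x ^ 2 := by
      apply pow_le_pow_left₀ (Real.log_natCast_nonneg _)
      exact Real.log_le_log hp (by exact_mod_cast hpx)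
    have hA : 0 < a * (pn S n : ℝ) ^ (a - 1) := mul_pos ha0 (Real.rpow_pos_of_pos hp _)
    have h8 : c < (pn S n : ℝ) / pn S (n + 1) * (c + ε) := by
      rw [div_mul_eq_mul_div, lt_div_iff₀ hq]
      linarith
    calc c * a * (pn S n : ℝ) ^ (a - 1) * Real.log (pn S n) ^ 2 = (a * (pn S n : ℝ) ^ (a - 1)) * (c * Real.log (pn S n) ^ 2) := by ring
      _ ≤ (a * (pn S n : ℝ) ^ (a - 1)) * (c * Real.log x ^ 2) := mul_le_mul_of_nonneg_left (mul_le_mul_of_nonneg_left hlog hc0.le) hA.le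
      _ < (a * (pn S n : ℝ) ^ (a - 1)) * ((pn S n : ℝ) / pn S (n + 1) * (c + ε) * Real.log x ^ 2) :=
          mul_lt_mul_of_pos_left (mul_lt_mul_of_pos_right h8 hL2) hA
      _ = (a * ((pn S n : ℝ) ^ (a - 1) * (pn S n / pn S (n + 1)))) * ((c + ε) * Real.log x ^ 2) := by ring
      _ ≤ (a * (pn S (n + 1) : ℝ) ^ (a - 1)) * (pn S (n + 1) - pn S n) := by
          apply mul_le_mul (mul_le_mul_of_nonneg_left h7 ha0.le)
          · rw [hgap]; linarith
          · positivity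
          · exact mul_nonneg ha0.le (Real.rpow_nonneg hq.le _)
      _ ≤ _ := h6
  have h9 : ((occ S 1 (fun _ => t) x).ncard : ℝ) ≤ O.ncard := by exact_mod_cast Set.ncard_le_ncard hsub hfin
  refine le_trans ?_ (g6.trans h9)
  apply Real.rpow_le_rpow_of_exponent_le hx1
  have : (t : ℝ) / Real.log x ^ 2 ≤ c + 2 * ε := by
    rw [div_le_iff₀ hL2]
    exact t4
  linarith

end Pool.Agent.R528.RM
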