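import Mathlib
import Pool.Agent.R528.RM.Tails

set_option autoImplicit false
set_option linter.unusedSectionVars false

/-! # The probability that there is no long run of absent integers -/

open MeasureTheory Filter Set
open scoped ENNReal Topology

namespace Pool.Agent.R528.RM

variable {Ω : Type} {m0 : MeasurableSpace Ω} {μ : Measure Ω} [IsProbabilityMeasure μ]
  {ℱ : Filtration ℕ m0} {A : ℕ → Set Ω}

/-- successes at infinitely many scales, general scales -/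
def RS (D : ℕ → Set Ω) (j₀ : ℕ) : ℕ → Set Ω
  | 0 => univ
  | n + 1 => RS D j₀ n \ D (j₀ + n)

theorem io_scales {T : ℕ → ℕ} (hT : Monotone T) {D : ℕ → Set Ω} {j₀ : ℕ}
    (hD : ∀ j, j₀ ≤ j → MeasurableSet[ℱ (T (j + 1))] (D j)) (p : ℕ → ℝ)
    (hp : ∀ j, j₀ ≤ j → ∀ C, MeasurableSet[ℱ (T j)] C → p j * μ.real C ≤ μ.real (C ∩ D j))
    (hsum : ∀ j₁, j₀ ≤ j₁ → Tendsto (fun n => ∑ i ∈ Finset.range n, p (j₁ + i)) atTop atTop) :
    ∀ᵐ ω ∂μ, ∀ j₁ : ℕ, ∃ j, j₁ ≤ j ∧ j₀ ≤ j ∧ ω ∈ D j := by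
  have hmeas : ∀ j₁, j₀ ≤ j₁ → ∀ n, MeasurableSet[ℱ (T (j₁ + n))] (RS D j₁ n) := by
    intro j₁ hj₁ n
    induction n with
    | zero => exact @MeasurableSet.univ _ (ℱ (T (j₁ + 0)))
    | succ n ih =>
      exact @MeasurableSet.diff _ (ℱ (T (j₁ + n + 1))) _ _ (ℱ.mono (hT (Nat.le_succ _)) _ ih) (hD (j₁ + n) (by omega))
  have hle : ∀ j₁, j₀ ≤ j₁ → ∀ n, μ.real (RS D j₁ n) ≤ Real.exp (-∑ i ∈ Finset.range n, p (j₁ + i)) := by
    intro j₁ hj₁ n
    induction n with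
    | zero => simp [RS]
    | succ n ih =>
      have h1 := hp (j₁ + n) (by omega) _ (hmeas j₁ hj₁ n)
      have hD0 : MeasurableSet (D (j₁ + n)) := ℱ.le _ _ (hD (j₁ + n) (by omega))
      have h2 := measureReal_inter_add_sdiff (μ := μ) (s := RS D j₁ n) hD0
      have h3 : RS D j₁ (n + 1) = RS D j₁ n \ D (j₁ + n) := rfl
      have h4 : μ.real (RS D j₁ (n + 1)) ≤ (1 - p (j₁ + n)) * μ.real (RS D j₁ n) := by
        rw [h3]
        linarith
      have h5 : 1 - p (j₁ + n) ≤ Real.exp (-p (j₁ + n)) := by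
        have := Real.add_one_le_exp (-p (j₁ + n))
        linarith
      have h6 : 0 ≤ μ.real (RS D j₁ n) := measureReal_nonneg
      rw [Finset.sum_range_succ, neg_add, Real.exp_add, mul_comm]
      exact h4.trans (mul_le_mul h5 ih h6 (Real.exp_pos _).le)
  have h1 : ∀ j₁, j₀ ≤ j₁ → μ (⋂ n, RS D j₁ n) = 0 := by
    intro j₁ hj₁
    have h2 : ∀ n : ℕ, μ.real (⋂ n, RS D j₁ n) ≤ Real.exp (-∑ i ∈ Finset.range n, p (j₁ + i)) := by
      intro n
      exact (measureReal_mono (iInter_subset _ n)).trans (hle j₁ hj₁ n)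
    have h3 : Tendsto (fun n : ℕ => Real.exp (-∑ i ∈ Finset.range n, p (j₁ + i))) atTop (𝓝 0) :=
      Real.tendsto_exp_neg_atTop_nhds_zero.comp (hsum j₁ hj₁)
    have h4 : μ.real (⋂ n, RS D j₁ n) ≤ 0 := ge_of_tendsto' h3 h2
    have h5 : μ.real (⋂ n, RS D j₁ n) = 0 := le_antisymm h4 measureReal_nonneg
    rw [measureReal_eq_zero_iff] at h5
    exact h5
  have hnot : ∀ j₁ n, ∀ ω, ω ∉ RS D j₁ n → ∃ j, j₁ ≤ j ∧ ω ∈ D j := by
    intro j₁ n ω
    induction n with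
    | zero => intro h; exact absurd (mem_univ ω) h
    | succ n ih =>
      intro h
      by_cases h1 : ω ∈ RS D j₁ n
      · refine ⟨j₁ + n, by omega, ?_⟩
        by_contra h2
        exact h ⟨h1, h2⟩
      · exact ih h1
  have h2 : ∀ᵐ ω ∂μ, ∀ j₁, j₀ ≤ j₁ → ω ∉ ⋂ n, RS D j₁ n := by
    rw [ae_all_iff]
    intro j₁
    by_cases hj₁ : j₀ ≤ j₁
    · have := measure_eq_zero_iff_ae_notMem.1 (h1 j₁ hj₁)
      filter_upwards [this] with ω hω _
      exact hω
    · exact Eventually.of_forall fun ω h => absurd h hj₁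
  filter_upwards [h2] with ω hω j₁
  have h3 := hω (max j₀ j₁) (le_max_left _ _)
  rw [mem_iInter, not_forall] at h3
  obtain ⟨n, hn⟩ := h3
  obtain ⟨j, hj, hjD⟩ := hnot _ _ _ hn
  exact ⟨j, (le_max_right _ _).trans hj, (le_max_left _ _).trans hj, hjD⟩

/-- the exponential bound, conditional form -/
theorem tail_B (hA : ∀ n, MeasurableSet[ℱ n] (A n)) {V : ℕ → Set Ω}
    (hV : ∀ n, MeasurableSet[ℱ n] (V n)) {l u : ℝ} (hl1 : l ≤ 1) (hu0 : 0 ≤ u) (t j : ℕ)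
    (hbd : ∀ n, t ≤ n → n < t + j → ∀ ω, ω ∉ V n → l ≤ dens μ ℱ A n ω ∧ dens μ ℱ A n ω ≤ u)
    {s κ : ℝ} (hs : 0 < s) (S : Set ℕ) (hS : ∀ k ∈ S, s ^ κ ≤ s ^ k) (B : Set Ω) (hB : MeasurableSet[ℱ t] B) :
    μ.real ((B ∩ {ω | cnt A t j ω ∈ S}) \ WV V t j) ≤
      Real.exp (-(κ * Real.log s)) * Real.exp (j * (s * u - l)) * μ.real B := by
  classical
  have h1 : ((B ∩ {ω | cnt A t j ω ∈ S}) \ WV V t j) ⊆
      ⋃ k ∈ (Finset.range (j + 1)).filter (· ∈ S), ((B ∩ {ω | cnt A t j ω = k}) \ WV V t j) := by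
    intro ω hω
    rw [mem_iUnion₂]
    refine ⟨cnt A t j ω, ?_, ⟨⟨hω.1.1, rfl⟩, hω.2⟩⟩
    rw [Finset.mem_filter, Finset.mem_range]
    exact ⟨Nat.lt_succ_of_le (cnt_le_len t j ω), hω.1.2⟩
  have hB0 : 0 ≤ μ.real B := measureReal_nonneg
  have h2 : μ.real ((B ∩ {ω | cnt A t j ω ∈ S}) \ WV V t j) ≤
      (∑ k ∈ (Finset.range (j + 1)).filter (· ∈ S), (j.choose k : ℝ) * u ^ k * (1 - l) ^ (j - k)) * μ.real B := by
    refine (measureReal_mono h1 (measure_ne_top _ _)).trans ((measureReal_biUnion_finset_le _ _).trans ?_)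
    rw [Finset.sum_mul]
    apply Finset.sum_le_sum
    intro k _
    exact cnt_le (μ := μ) hA hV hl1 hu0 j t hbd k B hB
  have hpos : 0 < s ^ κ := Real.rpow_pos_of_pos hs κ
  have hl0 : 0 ≤ 1 - l := by linarith
  have h3 : ∑ k ∈ (Finset.range (j + 1)).filter (· ∈ S), (j.choose k : ℝ) * u ^ k * (1 - l) ^ (j - k) ≤
      ∑ k ∈ Finset.range (j + 1), (s ^ κ)⁻¹ * ((s * u) ^ k * (1 - l) ^ (j - k) * (j.choose k : ℝ)) := by
    have h4 : ∑ k ∈ (Finset.range (j + 1)).filter (· ∈ S), (j.choose k : ℝ) * u ^ k * (1 - l) ^ (j - k) ≤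
        ∑ k ∈ (Finset.range (j + 1)).filter (· ∈ S), (s ^ κ)⁻¹ * ((s * u) ^ k * (1 - l) ^ (j - k) * (j.choose k : ℝ)) := by
      apply Finset.sum_le_sum
      intro k hk
      have h5 := hS k (Finset.mem_filter.1 hk).2
      have h6 : 1 ≤ (s ^ κ)⁻¹ * s ^ k := by
        rw [inv_mul_eq_div, one_le_div hpos]
        exact h5
      have h7 : 0 ≤ (j.choose k : ℝ) * u ^ k * (1 - l) ^ (j - k) := by positivity
      calc (j.choose k : ℝ) * u ^ k * (1 - l) ^ (j - k)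
          ≤ ((s ^ κ)⁻¹ * s ^ k) * ((j.choose k : ℝ) * u ^ k * (1 - l) ^ (j - k)) := le_mul_of_one_le_left h7 h6
        _ = _ := by rw [mul_pow]; ring
    refine h4.trans ?_
    apply Finset.sum_le_sum_of_subset_of_nonneg (Finset.filter_subset _ _)
    intro k _ _
    positivity
  rw [← Finset.mul_sum, ← add_pow] at h3
  refine h2.trans (mul_le_mul_of_nonneg_right (h3.trans ?_) hB0)
  have h8 : (s ^ κ)⁻¹ = Real.exp (-(κ * Real.log s)) := by
    rw [Real.exp_neg, Real.rpow_def_of_pos hs, mul_comm]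
  rw [h8]
  apply mul_le_mul_of_nonneg_left _ (Real.exp_pos _).le
  have h9 : s * u + (1 - l) ≤ Real.exp (s * u - l) := by
    have := Real.add_one_le_exp (s * u - l)
    linarith
  rw [Real.exp_nat_mul]
  exact pow_le_pow_left₀ (by positivity) h9 j

/-- survival: starting at time `t` with `a` absent integers behind, no run of absent integers reaches the
length `H` within `j` steps, as long as at most `k` members have been seen -/
def Sv (A : ℕ → Set Ω) (H : ℕ) : ℕ → ℕ → ℕ → ℕ → Set Ω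
  | 0, _, _, _ => univ
  | j + 1, t, a, k => {ω | (ω ∈ A (t + 1) ∧ (k = 0 ∨ ω ∈ Sv A H j (t + 1) 0 (k - 1))) ∨
      (ω ∉ A (t + 1) ∧ a + 1 < H ∧ ω ∈ Sv A H j (t + 1) (a + 1) k)}

lemma Sv_meas (hA : ∀ n, MeasurableSet[ℱ n] (A n)) (H j : ℕ) : ∀ t a k, MeasurableSet[ℱ (t + j)] (Sv A H j t a k) := by
  classical
  induction j with
  | zero => intro t a k; exact @MeasurableSet.univ _ (ℱ (t + 0))
  | succ j ih =>
    intro t a k
    have e : t + 1 + j = t + (j + 1) := by ring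
    have hA1 : MeasurableSet[ℱ (t + (j + 1))] (A (t + 1)) := ℱ.mono (by omega) _ (hA (t + 1))
    have h1 := ih (t + 1) 0 (k - 1)
    have h2 := ih (t + 1) (a + 1) k
    rw [e] at h1 h2
    have h3 : Sv A H (j + 1) t a k = (A (t + 1) ∩ ((if k = 0 then univ else ∅) ∪ Sv A H j (t + 1) 0 (k - 1))) ∪
        ((if a + 1 < H then univ else ∅) ∩ Sv A H j (t + 1) (a + 1) k) \ A (t + 1) := by
      ext ω
      simp only [Sv, mem_ofPred_eq, mem_union, mem_inter_iff, Set.mem_sdiff]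
      split_ifs with h4 h5 h5 <;> simp only [mem_univ, mem_empty_iff_false] <;> tauto
    rw [h3]
    have h4 : MeasurableSet[ℱ (t + (j + 1))] (if k = 0 then univ else ∅ : Set Ω) := by
      split_ifs
      · exact @MeasurableSet.univ _ (ℱ (t + (j + 1)))
      · exact @MeasurableSet.empty _ (ℱ (t + (j + 1)))
    have h5 : MeasurableSet[ℱ (t + (j + 1))] (if a + 1 < H then univ else ∅ : Set Ω) := by
      split_ifs
      · exact @MeasurableSet.univ _ (ℱ (t + (j + 1)))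
      · exact @MeasurableSet.empty _ (ℱ (t + (j + 1)))
    exact @MeasurableSet.union _ (ℱ (t + (j + 1))) _ _
      (@MeasurableSet.inter _ (ℱ (t + (j + 1))) _ _ hA1 (@MeasurableSet.union _ (ℱ (t + (j + 1))) _ _ h4 h1))
      (@MeasurableSet.diff _ (ℱ (t + (j + 1))) _ _ (@MeasurableSet.inter _ (ℱ (t + (j + 1))) _ _ h5 h2) hA1)

/-- lower bound for the survival probability -/
theorem Sv_ge (hA : ∀ n, MeasurableSet[ℱ n] (A n)) {V : ℕ → Set Ω}
    (hV : ∀ n, MeasurableSet[ℱ n] (V n)) {l : ℝ} (hl0 : 0 ≤ l) (hl1 : l ≤ 1) {H : ℕ} (j : ℕ) :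
    ∀ t, (∀ n, t ≤ n → n < t + j → ∀ ω, ω ∉ V n → l ≤ dens μ ℱ A n ω) →
      ∀ a, a < H → ∀ k, ∀ B, MeasurableSet[ℱ t] B →
        (1 - (1 - l) ^ (H - a)) * (1 - (1 - l) ^ H) ^ k * μ.real B ≤ μ.real (B ∩ (Sv A H j t a k ∪ WV V t j)) := by
  have hq0 : 0 ≤ 1 - l := by linarith
  have hq1 : 1 - l ≤ 1 := by linarith
  have hβ0 : ∀ m : ℕ, 0 ≤ 1 - (1 - l) ^ m := fun m => by
    have := pow_le_one₀ (n := m) hq0 hq1
    linarith
  have hβ1 : ∀ m : ℕ, 1 - (1 - l) ^ m ≤ 1 := fun m => by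
    have := pow_nonneg hq0 m
    linarith
  induction j with
  | zero =>
    intro t _ a _ k B _
    have e : Sv A H 0 t a k = univ := by simp [Sv]
    rw [e]
    simp only [univ_union, inter_univ]
    have h1 := mul_le_one₀ (hβ1 (H - a)) (pow_nonneg (hβ0 H) k) (pow_le_one₀ (hβ0 H) (hβ1 H))
    have h2 : 0 ≤ μ.real B := measureReal_nonneg
    nlinarith
  | succ j ih =>
    intro t hbd a ha k B hB
    have hV0 : MeasurableSet (V t) := ℱ.le _ _ (hV t)
    have hA0 : MeasurableSet (A (t + 1)) := ℱ.le _ _ (hA _)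
    have hBV : MeasurableSet[ℱ t] (B \ V t) := @MeasurableSet.diff _ (ℱ t) _ _ hB (hV t)
    have hC : MeasurableSet[ℱ (t + 1)] ((B \ V t) ∩ A (t + 1)) :=
      @MeasurableSet.inter _ (ℱ (t + 1)) _ _ (ℱ.mono (Nat.le_succ t) _ hBV) (hA (t + 1))
    have hC' : MeasurableSet[ℱ (t + 1)] ((B \ V t) \ A (t + 1)) :=
      @MeasurableSet.diff _ (ℱ (t + 1)) _ _ (ℱ.mono (Nat.le_succ t) _ hBV) (hA (t + 1))
    have hbd' : ∀ n, t + 1 ≤ n → n < t + 1 + j → ∀ ω, ω ∉ V n → l ≤ dens μ ℱ A n ω :=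
      fun n h1 h2 => hbd n (by omega) (by omega)
    have hlow := lower_meas (μ := μ) hA t hBV (l := l) (fun ω hω => hbd t le_rfl (by omega) ω hω.2)
    have hsplit := measureReal_inter_add_sdiff (μ := μ) (s := B \ V t) hA0
    set X : Set Ω := B ∩ (Sv A H (j + 1) t a k ∪ WV V t (j + 1)) with hX
    have hXV : μ.real X = μ.real (X ∩ V t) + μ.real (X \ V t) :=
      (measureReal_inter_add_sdiff (μ := μ) (s := X) hV0).symm
    have hXA : μ.real (X \ V t) = μ.real ((X \ V t) ∩ A (t + 1)) + μ.real ((X \ V t) \ A (t + 1)) :=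
      (measureReal_inter_add_sdiff (μ := μ) (s := X \ V t) hA0).symm
    have e1 : X ∩ V t = B ∩ V t := by
      ext ω
      simp only [hX, WV_succ, mem_inter_iff, mem_union]
      tauto
    have hBVs : μ.real B = μ.real (B ∩ V t) + μ.real (B \ V t) :=
      (measureReal_inter_add_sdiff (μ := μ) (s := B) hV0).symm
    have hBVn : 0 ≤ μ.real (B ∩ V t) := measureReal_nonneg
    have hBV0 : 0 ≤ μ.real (B \ V t) := measureReal_nonneg
    have hk0 : 0 ≤ (1 - (1 - l) ^ H) ^ k := pow_nonneg (hβ0 H) k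
    have hk1 : (1 - (1 - l) ^ H) ^ k ≤ 1 := pow_le_one₀ (hβ0 H) (hβ1 H)
    have hq := mul_le_one₀ (hβ1 (H - a)) hk0 hk1
    have hV1 : (1 - (1 - l) ^ (H - a)) * (1 - (1 - l) ^ H) ^ k * μ.real (B ∩ V t) ≤ μ.real (B ∩ V t) := by
      nlinarith
    -- the member branch
    have hm : (1 - (1 - l) ^ H) ^ k * μ.real ((B \ V t) ∩ A (t + 1)) ≤ μ.real ((X \ V t) ∩ A (t + 1)) := by
      cases k with
      | zero =>
        have h1 : (B \ V t) ∩ A (t + 1) ⊆ (X \ V t) ∩ A (t + 1) := by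
          rintro ω ⟨⟨h1, h2⟩, h3⟩
          refine ⟨⟨⟨h1, Or.inl ?_⟩, h2⟩, h3⟩
          left
          exact ⟨h3, Or.inl rfl⟩
        rw [pow_zero, one_mul]
        exact measureReal_mono h1 (measure_ne_top _ _)
      | succ k =>
        have h1 := ih (t + 1) hbd' 0 (by omega) k _ hC
        have h2 : ((B \ V t) ∩ A (t + 1)) ∩ (Sv A H j (t + 1) 0 k ∪ WV V (t + 1) j) ⊆ (X \ V t) ∩ A (t + 1) := by
          rintro ω ⟨⟨⟨h1, h2⟩, h3⟩, h4⟩
          refine ⟨⟨⟨h1, ?_⟩, h2⟩, h3⟩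
          rcases h4 with h4 | h4
          · left
            left
            exact ⟨h3, Or.inr h4⟩
          · right
            rw [WV_succ]
            exact Or.inr h4
        rw [Nat.sub_zero] at h1
        calc (1 - (1 - l) ^ H) ^ (k + 1) * μ.real ((B \ V t) ∩ A (t + 1))
            = (1 - (1 - l) ^ H) * (1 - (1 - l) ^ H) ^ k * μ.real ((B \ V t) ∩ A (t + 1)) := by ring
          _ ≤ _ := h1
          _ ≤ _ := measureReal_mono h2 (measure_ne_top _ _)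
    -- the other branch
    have hn : (1 - (1 - l) ^ (H - (a + 1))) * (1 - (1 - l) ^ H) ^ k * μ.real ((B \ V t) \ A (t + 1)) ≤
        μ.real ((X \ V t) \ A (t + 1)) := by
      rcases Nat.lt_or_ge (a + 1) H with haH | haH
      · have h1 := ih (t + 1) hbd' (a + 1) haH k _ hC'
        refine h1.trans (measureReal_mono ?_ (measure_ne_top _ _))
        rintro ω ⟨⟨⟨h1, h2⟩, h3⟩, h4⟩
        refine ⟨⟨⟨h1, ?_⟩, h2⟩, h3⟩
        rcases h4 with h4 | h4
        · left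
          right
          exact ⟨h3, haH, h4⟩
        · right
          rw [WV_succ]
          exact Or.inr h4
      · have e : H - (a + 1) = 0 := by omega
        rw [e, pow_zero, sub_self, zero_mul, zero_mul]
        exact measureReal_nonneg
    have e2 : H - a = (H - (a + 1)) + 1 := by omega
    rw [hXV, e1, hXA, hBVs, mul_add]
    obtain ⟨ρ, hρ⟩ : ∃ ρ, ρ = (1 - l) ^ (H - (a + 1)) := ⟨_, rfl⟩
    have hρ0 : 0 ≤ ρ := by rw [hρ]; exact pow_nonneg hq0 _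
    rw [← hρ] at hn
    have e3 : (1 - l) ^ (H - a) = ρ * (1 - l) := by rw [e2, pow_succ, hρ]
    rw [e3] at hV1 ⊢
    obtain ⟨κ, hκ⟩ : ∃ κ, κ = (1 - (1 - l) ^ H) ^ k := ⟨_, rfl⟩
    rw [← hκ] at hm hn hV1 hk0 hk1 ⊢
    have h8 : μ.real ((B \ V t) \ A (t + 1)) ≤ (1 - l) * μ.real (B \ V t) := by linarith
    have h9 : ρ * μ.real ((B \ V t) \ A (t + 1)) ≤ ρ * ((1 - l) * μ.real (B \ V t)) := mul_le_mul_of_nonneg_left h8 hρ0
    have h10 : (1 - ρ * (1 - l)) * μ.real (B \ V t) ≤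
        μ.real ((B \ V t) ∩ A (t + 1)) + (1 - ρ) * μ.real ((B \ V t) \ A (t + 1)) := by linarith
    have h11 := mul_le_mul_of_nonneg_left h10 hk0
    linarith

/-- survival and few members imply that there is no long run -/
lemma Sv_norun {ω : Ω} {H : ℕ} (j : ℕ) : ∀ t a k, a < H → ω ∈ Sv A H j t a k → cnt A t j ω ≤ k →
    (∀ s, t ≤ s → s + H ≤ t + j → ∃ r, s < r ∧ r ≤ s + H ∧ ω ∈ A r) ∧
    (H ≤ a + j → ∃ r, t < r ∧ r ≤ t + (H - a) ∧ ω ∈ A r) := by
  classical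
  induction j with
  | zero =>
    intro t a k ha _ _
    constructor
    · intro s h1 h2
      omega
    · intro h
      omega
  | succ j ih =>
    intro t a k ha hS hc
    rw [cnt_succ] at hc
    rcases hS with ⟨h1, h2⟩ | ⟨h1, h2, h3⟩
    · rw [if_pos h1] at hc
      have hk : k ≠ 0 := by omega
      rcases h2 with h2 | h2
      · exact absurd h2 hk
      · obtain ⟨i1, _⟩ := ih (t + 1) 0 (k - 1) (by omega) h2 (by omega)
        constructor
        · intro s hs1 hs2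
          rcases Nat.eq_or_lt_of_le hs1 with hs | hs
          · exact ⟨t + 1, by omega, by omega, h1⟩
          · exact i1 s hs (by omega)
        · intro _
          exact ⟨t + 1, by omega, by omega, h1⟩
    · rw [if_neg h1] at hc
      obtain ⟨i1, i2⟩ := ih (t + 1) (a + 1) k h2 h3 (by omega)
      constructor
      · intro s hs1 hs2
        rcases Nat.eq_or_lt_of_le hs1 with hs | hs
        · obtain ⟨r, hr1, hr2, hr3⟩ := i2 (by omega)
          exact ⟨r, by omega, by omega, hr3⟩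
        · exact i1 s hs (by omega)
      · intro h
        obtain ⟨r, hr1, hr2, hr3⟩ := i2 (by omega)
        exact ⟨r, by omega, by omega, hr3⟩

/-- no run of length `H` in `(t, t + j]` and at most `K` members, or a violation -/
def NR (A V : ℕ → Set Ω) (H K t j : ℕ) : Set Ω :=
  (Sv A H j t 0 K ∩ ⋃ k ∈ Finset.range (K + 1), {ω | cnt A t j ω = k}) ∪ WV V t j

lemma NR_meas (hA : ∀ n, MeasurableSet[ℱ n] (A n)) {V : ℕ → Set Ω}
    (hV : ∀ n, MeasurableSet[ℱ n] (V n)) (H K t j : ℕ) : MeasurableSet[ℱ (t + j)] (NR A V H K t j) := by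
  refine @MeasurableSet.union _ (ℱ (t + j)) _ _ (@MeasurableSet.inter _ (ℱ (t + j)) _ _ (Sv_meas hA H j t 0 K) ?_) (WV_meas hV t j)
  exact Finset.measurableSet_biUnion _ fun k _ => cnt_meas hA t j k

lemma NR_norun {V : ℕ → Set Ω} {H K t j : ℕ} (hH : 0 < H) {ω : Ω} (h : ω ∈ NR A V H K t j)
    (hV : ∀ n, t ≤ n → ω ∉ V n) : ∀ s, t ≤ s → s + H ≤ t + j → ∃ r, s < r ∧ r ≤ s + H ∧ ω ∈ A r := by
  rcases h with ⟨h1, h2⟩ | ⟨n, hn1, _, hn3⟩
  · rw [mem_iUnion₂] at h2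
    obtain ⟨k, hk, hk2⟩ := h2
    have hk := Finset.mem_range.1 hk
    have hk2 : cnt A t j ω = k := hk2
    exact (Sv_norun j t 0 K hH h1 (by omega)).1
  · exact absurd hn3 (hV n hn1)

theorem NR_ge (hA : ∀ n, MeasurableSet[ℱ n] (A n)) {V : ℕ → Set Ω}
    (hV : ∀ n, MeasurableSet[ℱ n] (V n)) {l u : ℝ} (hl0 : 0 ≤ l) (hl1 : l ≤ 1) (hu0 : 0 ≤ u) {H K : ℕ} (hH : 0 < H) (t j : ℕ)
    (hbd : ∀ n, t ≤ n → n < t + j → ∀ ω, ω ∉ V n → l ≤ dens μ ℱ A n ω ∧ dens μ ℱ A n ω ≤ u)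
    (B : Set Ω) (hB : MeasurableSet[ℱ t] B) :
    ((1 - (1 - l) ^ H) ^ (K + 1) - Real.exp (-(((K : ℝ) + 1) * Real.log 2)) * Real.exp (j * (2 * u - l))) * μ.real B ≤
      μ.real (B ∩ NR A V H K t j) := by
  classical
  have h1 := Sv_ge (μ := μ) hA hV hl0 hl1 (H := H) j t (fun n h1 h2 ω hω => (hbd n h1 h2 ω hω).1) 0 hH K B hB
  have h2 := tail_B (μ := μ) hA hV hl1 hu0 t j hbd (s := 2) (κ := (K : ℝ) + 1) (by norm_num) {k : ℕ | K + 1 ≤ k} (by
    intro k hk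
    have hk : K + 1 ≤ k := hk
    rw [← Real.rpow_natCast]
    apply Real.rpow_le_rpow_of_exponent_le (by norm_num)
    exact_mod_cast hk) B hB
  have h3 : B ∩ (Sv A H j t 0 K ∪ WV V t j) ⊆ (B ∩ NR A V H K t j) ∪ ((B ∩ {ω | cnt A t j ω ∈ {k : ℕ | K + 1 ≤ k}}) \ WV V t j) := by
    rintro ω ⟨hωB, hω⟩
    by_cases hW : ω ∈ WV V t j
    · left
      exact ⟨hωB, Or.inr hW⟩
    · rcases hω with hω | hω
      · rcases Nat.lt_or_ge (cnt A t j ω) (K + 1) with hc | hc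
        · left
          refine ⟨hωB, Or.inl ⟨hω, ?_⟩⟩
          rw [mem_iUnion₂]
          exact ⟨cnt A t j ω, Finset.mem_range.2 hc, rfl⟩
        · right
          exact ⟨⟨hωB, hc⟩, hW⟩
      · exact absurd hω hW
  have h4 := (measureReal_mono (μ := μ) h3 (measure_ne_top _ _)).trans (measureReal_union_le _ _)
  rw [Nat.sub_zero] at h1
  have e : (1 - (1 - l) ^ H) ^ (K + 1) * μ.real B = (1 - (1 - l) ^ H) * (1 - (1 - l) ^ H) ^ K * μ.real B := by ring
  linarith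

end Pool.Agent.R528.RM
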