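import Mathlib
import Pool.Agent.R528.RM.NoRun
import Pool.Agent.R528.RM.Gold

set_option autoImplicit false
set_option linter.unusedSectionVars false

/-! # Runs of absent integers with varying densities -/

open MeasureTheory Filter Set
open scoped ENNReal Topology

namespace Pool.Agent.R528.RM

variable {Ω : Type} {m0 : MeasurableSpace Ω} {μ : Measure Ω} [IsProbabilityMeasure μ]
  {ℱ : Filtration ℕ m0} {A : ℕ → Set Ω}

/-- no member in `(t, t + j]` -/
def NA (A : ℕ → Set Ω) (t j : ℕ) : Set Ω := {ω | ∀ n, t < n → n ≤ t + j → ω ∉ A n}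

lemma NA_meas (hA : ∀ n, MeasurableSet[ℱ n] (A n)) (t j : ℕ) : MeasurableSet[ℱ (t + j)] (NA A t j) := by
  have h1 : NA A t j = ⋂ n ∈ Finset.Ioc t (t + j), (A n)ᶜ := by
    ext ω
    simp only [NA, mem_ofPred_eq, mem_iInter, Finset.mem_Ioc, mem_compl_iff]
    exact ⟨fun h n hn => h n hn.1 hn.2, fun h n h1 h2 => h n ⟨h1, h2⟩⟩
  rw [h1]
  refine Finset.measurableSet_biInter _ fun n hn => ?_
  exact (ℱ.mono (Finset.mem_Ioc.1 hn).2 _ (hA n)).compl

/-- the probability of a run -/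
theorem NA_ge (hA : ∀ n, MeasurableSet[ℱ n] (A n)) {V : ℕ → Set Ω}
    (hV : ∀ n, MeasurableSet[ℱ n] (V n)) (e : ℕ → ℝ) (he0 : ∀ n, 0 ≤ e n) (he1 : ∀ n, e n ≤ 1) (j : ℕ) :
    ∀ t, (∀ n, t ≤ n → n < t + j → A (n + 1) = ∅ ∨ ∀ ω, ω ∉ V n → dens μ ℱ A n ω ≤ e n) →
      ∀ B, MeasurableSet[ℱ t] B →
        (∏ n ∈ Finset.Ico t (t + j), (1 - e n)) * μ.real B ≤ μ.real (B ∩ (NA A t j ∪ WV V t j)) := by
  induction j with
  | zero =>
    intro t _ B _
    have h1 : NA A t 0 = univ := by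
      ext ω
      simp only [NA, mem_ofPred_eq, mem_univ, iff_true]
      intro n h1 h2
      omega
    rw [h1, univ_union, inter_univ]
    simp
  | succ j ih =>
    intro t hbd B hB
    have hV0 : MeasurableSet (V t) := ℱ.le _ _ (hV t)
    have hA0 : MeasurableSet (A (t + 1)) := ℱ.le _ _ (hA _)
    have hBV : MeasurableSet[ℱ t] (B \ V t) := @MeasurableSet.diff _ (ℱ t) _ _ hB (hV t)
    have hC' : MeasurableSet[ℱ (t + 1)] ((B \ V t) \ A (t + 1)) :=
      @MeasurableSet.diff _ (ℱ (t + 1)) _ _ (ℱ.mono (Nat.le_succ t) _ hBV) (hA (t + 1))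
    have hup : μ.real ((B \ V t) ∩ A (t + 1)) ≤ e t * μ.real (B \ V t) := by
      rcases hbd t le_rfl (by omega) with h | h
      · rw [h, inter_empty]
        simp only [measureReal_empty]
        exact mul_nonneg (he0 t) measureReal_nonneg
      · exact upper_meas (μ := μ) hA t hBV (fun ω hω => h ω hω.2)
    have hsplit := measureReal_inter_add_sdiff (μ := μ) (s := B \ V t) hA0
    have hstep : (1 - e t) * μ.real (B \ V t) ≤ μ.real ((B \ V t) \ A (t + 1)) := by linarith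
    have hIH := ih (t + 1) (fun n h1 h2 => hbd n (by omega) (by omega)) _ hC'
    have hprod : ∏ n ∈ Finset.Ico t (t + (j + 1)), (1 - e n) = (1 - e t) * ∏ n ∈ Finset.Ico (t + 1) (t + 1 + j), (1 - e n) := by
      rw [Finset.prod_eq_prod_Ico_succ_bot (by omega : t < t + (j + 1)), show t + (j + 1) = t + 1 + j by ring]
    set P := ∏ n ∈ Finset.Ico (t + 1) (t + 1 + j), (1 - e n) with hP
    have hP0 : 0 ≤ P := Finset.prod_nonneg fun n _ => by linarith [he1 n]
    have hP1 : P ≤ 1 := Finset.prod_le_one (fun n _ => by linarith [he1 n]) fun n _ => by linarith [he0 n]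
    set X : Set Ω := B ∩ (NA A t (j + 1) ∪ WV V t (j + 1)) with hX
    have hXV : μ.real X = μ.real (X ∩ V t) + μ.real (X \ V t) :=
      (measureReal_inter_add_sdiff (μ := μ) (s := X) hV0).symm
    have e1 : X ∩ V t = B ∩ V t := by
      ext ω
      simp only [hX, WV_succ, mem_inter_iff, mem_union]
      tauto
    have e2 : ((B \ V t) \ A (t + 1)) ∩ (NA A (t + 1) j ∪ WV V (t + 1) j) ⊆ X \ V t := by
      rintro ω ⟨⟨⟨h1, h2⟩, h3⟩, h4⟩
      refine ⟨⟨h1, ?_⟩, h2⟩
      rcases h4 with h4 | h4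
      · left
        intro n hn1 hn2
        rcases Nat.eq_or_lt_of_le (show t + 1 ≤ n from hn1) with h5 | h5
        · rw [← h5]; exact h3
        · exact h4 n h5 (by omega)
      · right
        rw [WV_succ]
        exact Or.inr h4
    have hBVs : μ.real B = μ.real (B ∩ V t) + μ.real (B \ V t) :=
      (measureReal_inter_add_sdiff (μ := μ) (s := B) hV0).symm
    have e3 := measureReal_mono (μ := μ) e2 (measure_ne_top _ _)
    have hBVn : 0 ≤ μ.real (B ∩ V t) := measureReal_nonneg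
    have hBV0 : 0 ≤ μ.real (B \ V t) := measureReal_nonneg
    rw [hprod, hXV, e1, hBVs]
    have e4 : (1 - e t) * P * μ.real (B \ V t) ≤ μ.real (X \ V t) := by
      calc (1 - e t) * P * μ.real (B \ V t) = P * ((1 - e t) * μ.real (B \ V t)) := by ring
        _ ≤ P * μ.real ((B \ V t) \ A (t + 1)) := mul_le_mul_of_nonneg_left hstep hP0
        _ ≤ _ := hIH.trans e3
    have e5 : (1 - e t) * P ≤ 1 := mul_le_one₀ (by linarith [he0 t]) hP0 hP1
    have e6 : (1 - e t) * P * μ.real (B ∩ V t) ≤ μ.real (B ∩ V t) := mul_le_of_le_one_left hBVn e5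
    calc (1 - e t) * P * (μ.real (B ∩ V t) + μ.real (B \ V t)) =
        (1 - e t) * P * μ.real (B ∩ V t) + (1 - e t) * P * μ.real (B \ V t) := by ring
      _ ≤ _ := add_le_add e6 e4

/-- no run and no violation in any of the first `K` blocks -/
def NB (A V : ℕ → Set Ω) (s : ℕ → ℕ) (L : ℕ) : ℕ → Set Ω
  | 0 => univ
  | K + 1 => NB A V s L K \ (NA A (s K) L ∪ WV V (s K) L)

theorem NB_le (hA : ∀ n, MeasurableSet[ℱ n] (A n)) {V : ℕ → Set Ω}
    (hV : ∀ n, MeasurableSet[ℱ n] (V n)) (s : ℕ → ℕ) (L : ℕ) (hs : ∀ k, s k + L ≤ s (k + 1)) {q : ℝ} (hq1 : q ≤ 1)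
    (hq : ∀ k, ∀ B, MeasurableSet[ℱ (s k)] B → q * μ.real B ≤ μ.real (B ∩ (NA A (s k) L ∪ WV V (s k) L)))
    (K : ℕ) : MeasurableSet[ℱ (s K)] (NB A V s L K) ∧ μ.real (NB A V s L K) ≤ (1 - q) ^ K := by
  induction K with
  | zero =>
    refine ⟨@MeasurableSet.univ _ (ℱ (s 0)), ?_⟩
    simp [NB]
  | succ K ih =>
    obtain ⟨ih1, ih2⟩ := ih
    have h1 : MeasurableSet[ℱ (s K + L)] (NA A (s K) L ∪ WV V (s K) L) :=
      @MeasurableSet.union _ (ℱ (s K + L)) _ _ (NA_meas hA _ _) (WV_meas hV _ _)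
    have h2 : MeasurableSet[ℱ (s K + L)] (NB A V s L K) := ℱ.mono (by omega) _ ih1
    refine ⟨ℱ.mono (hs K) _ (@MeasurableSet.diff _ (ℱ (s K + L)) _ _ h2 h1), ?_⟩
    have h3 := hq K _ ih1
    have h4 := measureReal_inter_add_sdiff (μ := μ) (s := NB A V s L K) (ℱ.le _ _ h1)
    have h5 : NB A V s L (K + 1) = NB A V s L K \ (NA A (s K) L ∪ WV V (s K) L) := rfl
    rw [h5]
    have h6 : μ.real (NB A V s L K \ (NA A (s K) L ∪ WV V (s K) L)) ≤ (1 - q) * μ.real (NB A V s L K) := by linarith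
    refine h6.trans ?_
    rw [pow_succ, mul_comm]
    exact mul_le_mul_of_nonneg_right ih2 (by linarith)

/-- the same, with the hypothesis for the first `K` blocks only -/
theorem NB_le' (hA : ∀ n, MeasurableSet[ℱ n] (A n)) {V : ℕ → Set Ω}
    (hV : ∀ n, MeasurableSet[ℱ n] (V n)) (s : ℕ → ℕ) (L : ℕ) (hs : ∀ k, s k + L ≤ s (k + 1)) {q : ℝ} (hq1 : q ≤ 1)
    (K : ℕ) (hq : ∀ k, k < K → ∀ B, MeasurableSet[ℱ (s k)] B → q * μ.real B ≤ μ.real (B ∩ (NA A (s k) L ∪ WV V (s k) L))) :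
    μ.real (NB A V s L K) ≤ (1 - q) ^ K := by
  have hm : ∀ K, MeasurableSet[ℱ (s K)] (NB A V s L K) := by
    intro K
    induction K with
    | zero => exact @MeasurableSet.univ _ (ℱ (s 0))
    | succ K ih =>
      have h1 : MeasurableSet[ℱ (s K + L)] (NA A (s K) L ∪ WV V (s K) L) :=
        @MeasurableSet.union _ (ℱ (s K + L)) _ _ (NA_meas hA _ _) (WV_meas hV _ _)
      have h2 : MeasurableSet[ℱ (s K + L)] (NB A V s L K) := ℱ.mono (by omega) _ ih
      exact ℱ.mono (hs K) _ (@MeasurableSet.diff _ (ℱ (s K + L)) _ _ h2 h1)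
  have key : ∀ j, j ≤ K → μ.real (NB A V s L j) ≤ (1 - q) ^ j := by
    intro j
    induction j with
    | zero => intro _; simp [NB]
    | succ j ih =>
      intro hj
      have ih2 := ih (by omega)
      have h1 : MeasurableSet[ℱ (s j + L)] (NA A (s j) L ∪ WV V (s j) L) :=
        @MeasurableSet.union _ (ℱ (s j + L)) _ _ (NA_meas hA _ _) (WV_meas hV _ _)
      have h3 := hq j (by omega) _ (hm j)
      have h4 := measureReal_inter_add_sdiff (μ := μ) (s := NB A V s L j) (ℱ.le _ _ h1)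
      have h5 : NB A V s L (j + 1) = NB A V s L j \ (NA A (s j) L ∪ WV V (s j) L) := rfl
      rw [h5]
      have h6 : μ.real (NB A V s L j \ (NA A (s j) L ∪ WV V (s j) L)) ≤ (1 - q) * μ.real (NB A V s L j) := by linarith
      refine h6.trans ?_
      rw [pow_succ, mul_comm]
      exact mul_le_mul_of_nonneg_right ih2 (by linarith)
  exact key K le_rfl

lemma not_NB {V : ℕ → Set Ω} {s : ℕ → ℕ} {L K : ℕ} {ω : Ω} (h : ω ∉ NB A V s L K) :
    ∃ k, k < K ∧ ω ∈ NA A (s k) L ∪ WV V (s k) L := by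
  induction K with
  | zero => exact absurd (mem_univ ω) h
  | succ K ih =>
    by_cases h1 : ω ∈ NB A V s L K
    · refine ⟨K, Nat.lt_succ_self K, ?_⟩
      by_contra h2
      exact h ⟨h1, h2⟩
    · obtain ⟨k, hk, hk2⟩ := ih h1
      exact ⟨k, by omega, hk2⟩

end Pool.Agent.R528.RM
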