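import Mathlib
import Pool.Agent.R528.RM.EH6

set_option autoImplicit false
set_option linter.unusedSectionVars false
set_option linter.unusedVariables false

/-! # The asymptotics of the sum of the largest deviations -/

open MeasureTheory Filter Set
open scoped ENNReal Topology

namespace Pool.Agent.R528.RM

variable {Ω : Type} {m0 : MeasurableSpace Ω} {μ : Measure Ω} [IsProbabilityMeasure μ]
  {ℱ : Filtration ℕ m0} {A : ℕ → Set Ω}

/-- the deviation of a class at `x` is close to the stopped sum at the grid point above `x` -/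
lemma dev_close {W p : ℕ} (hW : 0 < W) (hp : 0 < p) {β c δ b : ℝ} (hβ1 : β < 1) (hb : 0 < b) (hc : 0 < c) {N₀ : ℕ}
    {ω : Ω} (hg : Good μ ℱ A W p ω) (hGs : ∀ M, ω ∈ Gs μ ℱ A (rhoW W) δ N₀ (N₀ + M)) :
    ∀ᶠ x : ℕ in atTop, ∀ q : ℕ, 1 ≤ q → (q : ℝ) ≤ (x : ℝ) ^ β → (x : ℝ) ^ b ≤ q → ∀ a ∈ adm W q,
      |Dv A W x q a ω - SR μ ℱ A (rhoW W) δ (cls W q a N₀ (tg p x)) N₀ (tg p x) ω| ≤ c * √((x : ℝ) / q) := by
  have hW' : (1 : ℝ) ≤ W := by exact_mod_cast hW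
  set K₁ : ℝ := 16 * (W : ℝ) + 10 with hK₁
  have hK₁0 : 0 < K₁ := by positivity
  set τ : ℝ := (c / (4 * K₁)) ^ 2 with hτ
  have hτ0 : 0 < τ := by positivity
  have hsτ : √τ = c / (4 * K₁) := by rw [hτ, Real.sqrt_sq (by positivity)]
  filter_upwards [hg.ub0, hg.ub1, num1 hβ1 (4 / c * (N₀ + K₁ + K₁ * W + 4 * W)), num2 hb (4 / c * (K₁ * W)),
    tg_ratio hp hτ0, eventually_gt_atTop 1, ev_log 0, eventually_ge_atTop N₀] with x h1 h1' h2 h2' h3 h4 h5 h6 q hq hqx hqb a ha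
  have hx1 : (1 : ℝ) < x := by exact_mod_cast h4
  have hq' : (1 : ℝ) ≤ q := by exact_mod_cast hq
  have hqp : (0 : ℝ) < q := by linarith only [hq']
  have hqx' : q ≤ x := by
    have : (q : ℝ) ≤ x := hqx.trans (by
      calc (x : ℝ) ^ β ≤ (x : ℝ) ^ (1 : ℝ) := Real.rpow_le_rpow_of_exponent_le hx1.le hβ1.le
        _ = x := Real.rpow_one _)
    exact_mod_cast this
  have haq := (mem_adm.1 ha).1
  have hxX := le_tg hp x
  set X := tg p x with hX
  have hxX' : (x : ℝ) ≤ X := by exact_mod_cast hxX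
  have g0 := h2 q hq hqx
  have g0' := h2' q hqb
  set s : ℝ := √((x : ℝ) / q) with hs
  have hs0 : 0 ≤ s := Real.sqrt_nonneg _
  have hN0 : (0 : ℝ) ≤ N₀ := Nat.cast_nonneg _
  -- the logarithmic terms
  have k1 : (N₀ + K₁ + K₁ * W + 4 * W) * (Real.log x + 1) ≤ c / 4 * s := by
    have := mul_le_mul_of_nonneg_left g0 (show 0 ≤ c / 4 by positivity)
    have e : c / 4 * (4 / c * (N₀ + K₁ + K₁ * W + 4 * W) * (Real.log x + 1)) = (N₀ + K₁ + K₁ * W + 4 * W) * (Real.log x + 1) := by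
      field_simp
    linarith only [this, e]
  -- the sum over all integers
  have hcard := adm_pos W (q := q) (by omega)
  have hinv := adm_inv hW hq
  have hsq0 : 0 < √(q : ℝ) := Real.sqrt_pos.2 hqp
  have k2 : |CS μ ℱ A (cls W 1 0 0 x) ω| / (adm W q).card ≤ c / 4 * s + K₁ * W * Real.log x := by
    have g1 := h1 1 le_rfl (by omega) 0 one_pos
    rw [Nat.cast_one, div_one] at g1
    have g2 : |CS μ ℱ A (cls W 1 0 0 x) ω| / (adm W q).card = |CS μ ℱ A (cls W 1 0 0 x) ω| * (1 / (adm W q).card) := by ring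
    rw [g2]
    have g3 : |CS μ ℱ A (cls W 1 0 0 x) ω| * (1 / (adm W q).card) ≤ (K₁ * (√(x : ℝ) + Real.log x)) * (W / q) :=
      mul_le_mul g1 hinv (by positivity) (by positivity)
    have g4 : Real.log x / q ≤ Real.log x := div_le_self h5 hq'
    have g5 : (K₁ * (√(x : ℝ) + Real.log x)) * (W / q) = K₁ * W * (√(x : ℝ) / q) + K₁ * W * (Real.log x / q) := by
      field_simp
    rw [g5] at g3
    have g6 : K₁ * W * (√(x : ℝ) / q) ≤ c / 4 * s := by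
      have e1 : s = √(x : ℝ) / √(q : ℝ) := by rw [hs, Real.sqrt_div (Nat.cast_nonneg _)]
      have e2 : √(x : ℝ) / q = s / √(q : ℝ) := by
        rw [e1, div_div, Real.mul_self_sqrt hqp.le]
      rw [e2, mul_div_assoc', div_le_iff₀ hsq0]
      have e3 : K₁ * W ≤ c / 4 * √(q : ℝ) := by
        have := mul_le_mul_of_nonneg_left g0' (show 0 ≤ c / 4 by positivity)
        have e : c / 4 * (4 / c * (K₁ * W)) = K₁ * W := by field_simp
        linarith only [this, e]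
      have := mul_le_mul_of_nonneg_right e3 hs0
      linarith only [this]
    have g7 : K₁ * W * (Real.log x / q) ≤ K₁ * W * Real.log x := mul_le_mul_of_nonneg_left g4 (by positivity)
    linarith only [g3, g6, g7]
  have k3 := Dv_CS (μ := μ) (ℱ := ℱ) hW hg.h01 hg.hm (by omega) ha x
  have k4 := h1' q hq hqx' a haq
  have k5 : √(((X : ℝ) - x) / q) ≤ c / (4 * K₁) * s := by
    rw [← hsτ, hs, ← Real.sqrt_mul hτ0.le]
    apply Real.sqrt_le_sqrt
    rw [mul_div_assoc']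
    apply div_le_div_of_nonneg_right _ hqp.le
    linarith only [h3]
  have k6 : K₁ * √(((X : ℝ) - x) / q) ≤ c / 4 * s := by
    have := mul_le_mul_of_nonneg_left k5 hK₁0.le
    have e : K₁ * (c / (4 * K₁) * s) = c / 4 * s := by field_simp
    linarith only [this, e]
  have k7 := CS_trivial (W := W) (q := q) (a := a) (N := N₀) hg.h01
  have k8 : SR μ ℱ A (rhoW W) δ (cls W q a N₀ X) N₀ X ω = CS μ ℱ A (cls W q a N₀ X) ω :=
    SR_CS (fun n hn => by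
      have := (mem_cls.1 hn).1
      exact ⟨this.1, by omega⟩) (hGs X)
  have k9 := CS_split (μ := μ) (ℱ := ℱ) (A := A) (W := W) (q := q) (a := a) (Nat.zero_le N₀) (h6.trans hxX) ω
  have k10 := CS_split (μ := μ) (ℱ := ℱ) (A := A) (W := W) (q := q) (a := a) (Nat.zero_le x) hxX ω
  have k11 : Dv A W x q a ω - SR μ ℱ A (rhoW W) δ (cls W q a N₀ X) N₀ X ω =
      (Dv A W x q a ω - CS μ ℱ A (cls W q a 0 x) ω) + (CS μ ℱ A (cls W q a 0 N₀) ω - CS μ ℱ A (cls W q a x X) ω) := by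
    rw [k8]
    linarith only [k9, k10]
  rw [k11]
  have k12 := abs_add_le (Dv A W x q a ω - CS μ ℱ A (cls W q a 0 x) ω) (CS μ ℱ A (cls W q a 0 N₀) ω - CS μ ℱ A (cls W q a x X) ω)
  have k13 := abs_sub (CS μ ℱ A (cls W q a 0 N₀) ω) (CS μ ℱ A (cls W q a x X) ω)
  have k14 : 0 ≤ (N₀ : ℝ) * Real.log x := mul_nonneg hN0 h5
  have k15 : 0 ≤ (W : ℝ) * Real.log x := mul_nonneg (by linarith only [hW']) h5
  have k16 : 0 ≤ K₁ * W := by positivity
  have k17 : 0 ≤ c * s := by positivity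
  rw [← hK₁] at k4
  linarith only [k12, k13, k1, k2, k3, k4, k6, k7, k14, k15, k16, k17, hK₁0]

lemma good_q {W p : ℕ} (hW : 0 < W) (hp : 0 < p) {β η : ℝ} (hβ0 : 0 < β) (hβ1 : β < 1) (hη0 : 0 < η) (hη1 : η ≤ 1 / 10) {N₀ : ℕ}
    {ω : Ω} (hg : Good μ ℱ A W p ω) (hGs : ∀ M, ω ∈ Gs μ ℱ A (rhoW W) (η / 8) N₀ (N₀ + M)) :
    ∀ᶠ x : ℕ in atTop, ∀ q : ℕ, 1 ≤ q → (q : ℝ) ≤ (x : ℝ) ^ β → ((tg p x : ℕ) : ℝ) ^ (β - β * η ^ 2 / 100) ≤ q →
      ω ∉ Fq μ ℱ A W β η (η / 8) N₀ (tg p x) q → |EE A W x q ω - Bmn W β x q| ≤ 6 * η * Bmn W β x q := by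
  have hb : 0 < β - β * η ^ 2 / 100 := by
    have : η ^ 2 ≤ 1 := by nlinarith only [hη0, hη1]
    nlinarith only [this, hβ0]
  have hsb : 0 < √(2 * β) := Real.sqrt_pos.2 (by positivity)
  filter_upwards [dev_close hW hp hβ1 hb (show 0 < η / 2 * √(2 * β) by positivity) hg hGs, tg_ratio hp (show 0 < η / 4 by positivity)] with
    x h1 h2 q hq hqx hqb hF
  have hxX := le_tg hp x
  set X := tg p x with hX
  have hxb : (x : ℝ) ^ (β - β * η ^ 2 / 100) ≤ q :=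
    (Real.rpow_le_rpow (Nat.cast_nonneg _) (by exact_mod_cast hxX) hb.le).trans hqb
  have h3 := h1 q hq hqx hxb
  have hB := Bmn_ge (W := W) hβ0.le (x := x) hq
  obtain ⟨hS1, hS2⟩ := Bmn_scale (W := W) (q := q) hβ0.le (show 0 ≤ η / 4 by positivity) hxX h2
  set B := Bmn W β x q with hBd
  have hB0 : 0 ≤ B := Real.sqrt_nonneg _
  have hclose : ∀ a ∈ adm W q, |Dv A W x q a ω - SR μ ℱ A (rhoW W) (η / 8) (cls W q a N₀ X) N₀ X ω| ≤ η / 2 * B := by
    intro a ha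
    refine (h3 a ha).trans ?_
    rw [mul_assoc]
    exact mul_le_mul_of_nonneg_left hB (by positivity)
  have hF1 : ∀ a ∈ adm W q, |SR μ ℱ A (rhoW W) (η / 8) (cls W q a N₀ X) N₀ X ω| < (1 + 3 * η) * Bmn W β X q := by
    intro a ha
    by_contra hcon
    push Not at hcon
    exact hF (Or.inl ⟨a, ha, hcon⟩)
  have hF2 : ∃ a ∈ adm W q, (1 - 4 * η) * Bmn W β X q ≤ SR μ ℱ A (rhoW W) (η / 8) (cls W q a N₀ X) N₀ X ω := by
    by_contra hcon
    push Not at hcon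
    exact hF (Or.inr ⟨fun a ha => hcon a ha, hGs X⟩)
  rw [abs_le]
  constructor
  · obtain ⟨a, ha, h4⟩ := hF2
    have h5 := le_EE (A := A) (x := x) (ω := ω) ha
    have h6 := (abs_le.1 (hclose a ha)).1
    have h7 := le_abs_self (Dv A W x q a ω)
    have h8 : (1 - 4 * η) * B ≤ (1 - 4 * η) * Bmn W β X q := mul_le_mul_of_nonneg_left hS1 (by linarith only [hη1])
    have h9 : 0 ≤ η * B := by positivity
    linarith only [h4, h5, h6, h7, h8, h9]
  · have h5 : EE A W x q ω ≤ (1 + 6 * η) * B := by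
      apply EE_le (by omega)
      intro a ha
      have h6 := hF1 a ha
      have h7 := hclose a ha
      have h8 : |Dv A W x q a ω| ≤ |Dv A W x q a ω - SR μ ℱ A (rhoW W) (η / 8) (cls W q a N₀ X) N₀ X ω| +
          |SR μ ℱ A (rhoW W) (η / 8) (cls W q a N₀ X) N₀ X ω| := by
        have := abs_add_le (Dv A W x q a ω - SR μ ℱ A (rhoW W) (η / 8) (cls W q a N₀ X) N₀ X ω)
          (SR μ ℱ A (rhoW W) (η / 8) (cls W q a N₀ X) N₀ X ω)
        rwa [sub_add_cancel] at this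
      have h9 : (1 + 3 * η) * Bmn W β X q ≤ (1 + 3 * η) * ((1 + η / 4) * B) := mul_le_mul_of_nonneg_left hS2 (by linarith only [hη0])
      have h10 : (1 + 3 * η) * (1 + η / 4) + η / 2 ≤ 1 + 6 * η := by nlinarith only [hη0, hη1]
      have h11 := mul_le_mul_of_nonneg_right h10 hB0
      linarith only [h6, h7, h8, h9, h11]
    linarith only [h5]

/-- the asymptotics with an error -/
theorem EH_eta (hA : ∀ n, MeasurableSet[ℱ n] (A n)) {W : ℕ} (hW : 0 < W)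
    (hd : ∀ᵐ ω ∂μ, ∀ ε : ℝ, 0 < ε → ∀ᶠ n : ℕ in atTop, |dens μ ℱ A n ω - rhoW W (n + 1)| ≤ ε * rhoW W (n + 1))
    (hmono : ∀ᵐ ω ∂μ, ∀ m n, m ≤ n → Nat.Coprime (m + 1) W → Nat.Coprime (n + 1) W → dens μ ℱ A n ω ≤ dens μ ℱ A m ω)
    {β η : ℝ} (hβ0 : 0 < β) (hβ1 : β < 1) (hη0 : 0 < η) (hη1 : η ≤ 1 / 10) :
    ∀ᵐ ω ∂μ, ∀ᶠ x : ℕ in atTop, |∑ q ∈ Finset.Icc 1 ⌊(x : ℝ) ^ β⌋₊, EE A W x q ω - ∑ q ∈ Finset.Icc 1 ⌊(x : ℝ) ^ β⌋₊, Bmn W β x q| ≤
      7 * η * ∑ q ∈ Finset.Icc 1 ⌊(x : ℝ) ^ β⌋₊, Bmn W β x q := by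
  classical
  obtain ⟨p, hp⟩ := exists_nat_gt (2 / (β * η ^ 2 / 40))
  have hβη : 0 < β * η ^ 2 := by positivity
  rw [div_lt_iff₀ (by positivity)] at hp
  have hp0 : 0 < p := by
    rcases Nat.eq_zero_or_pos p with h | h
    · subst h
      norm_num at hp
    · exact h
  -- thresholds without violation
  have hN : ∀ N : ℕ, ∃ N₀ : ℕ, N ≤ N₀ ∧ 1 ≤ N₀ ∧ (W : ℝ) / Nat.totient W ≤ Real.log N₀ ∧
      ∀ m, N₀ ≤ m → (1 + η / 8) * rhoW W (m + 1) ≤ (η / 8) ^ 2 / 8 := by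
    intro N
    obtain ⟨N₁, g1, g2, g3⟩ := exists_N₁ W N
    have g4 : ∀ᶠ m : ℕ in atTop, (1 + η / 8) * rhoW W (m + 1) ≤ (η / 8) ^ 2 / 8 := by
      have hc : 0 < (η / 8) ^ 2 / 8 / (1 + η / 8) := by positivity
      have hφ : (0 : ℝ) < Nat.totient W := by exact_mod_cast Nat.totient_pos.2 hW
      have hW' : (0 : ℝ) < W := by exact_mod_cast hW
      filter_upwards [ev_log (((W : ℝ) / Nat.totient W) / ((η / 8) ^ 2 / 8 / (1 + η / 8))), eventually_gt_atTop 1] with m h1 h2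
      have hm : (1 : ℝ) < m := by exact_mod_cast h2
      have h3 : Real.log m ≤ Real.log ((m + 1 : ℕ) : ℝ) := Real.log_le_log (by linarith only [hm]) (by push_cast; linarith only)
      have hlm : 0 < Real.log ((m + 1 : ℕ) : ℝ) := (Real.log_pos hm).trans_le h3
      have h4 : rhoW W (m + 1) ≤ (η / 8) ^ 2 / 8 / (1 + η / 8) := by
        unfold rhoW
        split_ifs
        · refine (min_le_right _ _).trans ?_
          rw [div_le_iff₀ hlm]
          rw [div_le_iff₀ hc] at h1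
          have := mul_le_mul_of_nonneg_left h3 hc.le
          linarith only [this, h1]
        · exact hc.le
      rw [le_div_iff₀ (by positivity)] at h4
      linarith only [h4]
    obtain ⟨m₀, hm₀⟩ := eventually_atTop.1 g4
    refine ⟨max N₁ m₀, g1.trans (le_max_left _ _), g2.trans (le_max_left _ _), g3.trans ?_, fun m hm => hm₀ m ((le_max_right _ _).trans hm)⟩
    apply Real.log_le_log (by exact_mod_cast g2)
    exact_mod_cast le_max_left N₁ m₀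
  choose N₀ hN1 hN2 hN3 hN4 using hN
  have hfew : ∀ᵐ ω ∂μ, ∀ N : ℕ, ∀ᶠ k : ℕ in atTop, ∑ q ∈ JX β η (k ^ p), (Fq μ ℱ A W β η (η / 8) (N₀ N) (k ^ p) q).indicator (fun _ => (1 : ℝ)) ω <
      ((k ^ p : ℕ) : ℝ) ^ (β - β * η ^ 2 / 40) :=
    ae_all_iff.2 fun N => few_exc (μ := μ) (ℱ := ℱ) hA hW hβ0 hβ1 hη0 hη1 (N₀ N) (hN3 N) (hN2 N) (hN4 N) hp
  filter_upwards [hfew, good_ae hA hW hd hmono hp0, hd] with ω hf hg hdω
  obtain ⟨N, hN⟩ := dens_two hdω (show 0 < η / 8 by positivity)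
  have hGs : ∀ M, ω ∈ Gs μ ℱ A (rhoW W) (η / 8) (N₀ N) (N₀ N + M) := by
    intro M m hm _
    exact ⟨(hN _ (hN1 N)).2 m hm, (hN _ (hN1 N)).1 m hm⟩
  obtain ⟨K, hK0, hK⟩ := all_q hW hβ0 hβ1 hg
  have hb : 0 < β - β * η ^ 2 / 100 := by
    have : η ^ 2 ≤ 1 := by nlinarith only [hη0, hη1]
    nlinarith only [this, hβ0]
  set b : ℝ := β - β * η ^ 2 / 100 with hbd
  have hsβ : 0 < √β := Real.sqrt_pos.2 hβ0
  filter_upwards [(tendsto_kg hp0).eventually (hf N), hK, good_q hW hp0 hβ0 hβ1 hη0 hη1 hg hGs, tg_ratio hp0 one_pos,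
    ev_le_pow (a := b / 2) (b := β / 2) (C := 6 * K / (η * √β)) (by rw [hbd]; linarith only [hβη]), eventually_gt_atTop 1,
    ev_le_pow (a := 0) (b := β) (C := 2) hβ0] with x h1 h2 h3 h4 h5 h6 h6'
  have hx1 : (1 : ℝ) < x := by exact_mod_cast h6
  have hxp : (0 : ℝ) < x := by linarith only [hx1]
  have hxX := le_tg hp0 x
  change ∑ q ∈ JX β η (tg p x), (Fq μ ℱ A W β η (η / 8) (N₀ N) (tg p x) q).indicator (fun _ => (1 : ℝ)) ω <
      ((tg p x : ℕ) : ℝ) ^ (β - β * η ^ 2 / 40) at h1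
  set X := tg p x with hX
  have hxX' : (x : ℝ) ≤ X := by exact_mod_cast hxX
  have hXp : (0 : ℝ) < X := by linarith only [hxX', hxp]
  have hX1 : (1 : ℝ) < X := by linarith only [hxX', hx1]
  set Y := ⌊(x : ℝ) ^ β⌋₊ with hY
  set sb : ℝ := √((X : ℝ) ^ b) with hsb
  have hXb : 0 < (X : ℝ) ^ b := Real.rpow_pos_of_pos hXp _
  have hsb0 : 0 < sb := Real.sqrt_pos.2 hXb
  -- termwise bound
  set f1 : ℕ → ℝ := fun q => if q ∈ Finset.Icc 1 ⌊(X : ℝ) ^ b⌋₊ then 1 / √(q : ℝ) else 0 with hf1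
  set f2 : ℕ → ℝ := fun q => if q ∈ JX β η X then (Fq μ ℱ A W β η (η / 8) (N₀ N) X q).indicator (fun _ => (1 : ℝ)) ω / sb else 0 with hf2
  have hf10 : ∀ q, 0 ≤ f1 q := fun q => by simp only [hf1]; split_ifs <;> positivity
  have hf20 : ∀ q, 0 ≤ f2 q := fun q => by
    simp only [hf2]
    split_ifs
    · exact div_nonneg (indicator_nonneg (fun _ _ => zero_le_one) _) hsb0.le
    · exact le_rfl
  have hterm : ∀ q ∈ Finset.Icc 1 Y, |EE A W x q ω - Bmn W β x q| ≤ 6 * η * Bmn W β x q + K * √(x : ℝ) * (f1 q + f2 q) := by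
    intro q hq
    obtain ⟨hq1, hq2⟩ := Finset.mem_Icc.1 hq
    have hqx : (q : ℝ) ≤ (x : ℝ) ^ β := (Nat.le_floor_iff (by positivity)).1 hq2
    have hqp : (0 : ℝ) < q := by exact_mod_cast (by omega : 0 < q)
    have hB0 : 0 ≤ 6 * η * Bmn W β x q := mul_nonneg (by positivity) (Real.sqrt_nonneg _)
    have hKs : 0 ≤ K * √(x : ℝ) := by positivity
    have hsxq : √((x : ℝ) / q) = √(x : ℝ) * (1 / √(q : ℝ)) := by rw [Real.sqrt_div hxp.le]; ring
    by_cases hc : (X : ℝ) ^ b ≤ q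
    · by_cases hFq : ω ∈ Fq μ ℱ A W β η (η / 8) (N₀ N) X q
      · have g1 := h2 q hq1 hqx
        have g2 : q ∈ JX β η X := by
          unfold JX
          refine Finset.mem_filter.2 ⟨Finset.mem_Icc.2 ⟨hq1, ?_⟩, hc⟩
          exact hq2.trans (Nat.floor_mono (Real.rpow_le_rpow hxp.le hxX' hβ0.le))
        have g3 : f2 q = 1 / sb := by
          simp only [hf2]
          rw [if_pos g2, indicator_of_mem hFq]
        have g4 : 1 / √(q : ℝ) ≤ 1 / sb := one_div_le_one_div_of_le hsb0 (Real.sqrt_le_sqrt hc)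
        rw [hsxq] at g1
        have g5 : K * √(x : ℝ) * (1 / √(q : ℝ)) ≤ K * √(x : ℝ) * (f1 q + f2 q) := by
          apply mul_le_mul_of_nonneg_left _ hKs
          rw [g3]
          linarith only [g4, hf10 q]
        linarith only [g1, g5, hB0]
      · have g1 := h3 q hq1 hqx hc hFq
        have g2 : 0 ≤ K * √(x : ℝ) * (f1 q + f2 q) := mul_nonneg hKs (add_nonneg (hf10 q) (hf20 q))
        linarith only [g1, g2]
    · push Not at hc
      have g1 := h2 q hq1 hqx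
      have g2 : q ∈ Finset.Icc 1 ⌊(X : ℝ) ^ b⌋₊ := Finset.mem_Icc.2 ⟨hq1, Nat.le_floor hc.le⟩
      have g3 : f1 q = 1 / √(q : ℝ) := by simp only [hf1]; rw [if_pos g2]
      rw [hsxq] at g1
      have g5 : K * √(x : ℝ) * (1 / √(q : ℝ)) ≤ K * √(x : ℝ) * (f1 q + f2 q) := by
        apply mul_le_mul_of_nonneg_left _ hKs
        rw [g3]
        linarith only [hf20 q]
      linarith only [g1, g5, hB0]
  -- the sum of the error terms
  have hs1 : ∑ q ∈ Finset.Icc 1 Y, f1 q ≤ 2 * sb := by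
    have e1 : ∑ q ∈ Finset.Icc 1 Y, f1 q ≤ ∑ q ∈ Finset.Icc 1 ⌊(X : ℝ) ^ b⌋₊, 1 / √(q : ℝ) := by
      simp only [hf1]
      rw [← Finset.sum_filter]
      apply Finset.sum_le_sum_of_subset_of_nonneg
      · intro q hq
        exact (Finset.mem_filter.1 hq).2
      · exact fun q _ _ => by positivity
    refine e1.trans ((sum_inv_sqrt _).trans ?_)
    have e2 : √((⌊(X : ℝ) ^ b⌋₊ : ℕ) : ℝ) ≤ sb := Real.sqrt_le_sqrt (Nat.floor_le hXb.le)
    linarith only [e2]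
  have hs2 : ∑ q ∈ Finset.Icc 1 Y, f2 q ≤ (X : ℝ) ^ (β - β * η ^ 2 / 40) / sb := by
    have e1 : ∑ q ∈ Finset.Icc 1 Y, f2 q ≤ ∑ q ∈ JX β η X, (Fq μ ℱ A W β η (η / 8) (N₀ N) X q).indicator (fun _ => (1 : ℝ)) ω / sb := by
      simp only [hf2]
      rw [← Finset.sum_filter]
      apply Finset.sum_le_sum_of_subset_of_nonneg
      · intro q hq
        exact (Finset.mem_filter.1 hq).2
      · exact fun q _ _ => div_nonneg (indicator_nonneg (fun _ _ => zero_le_one) _) hsb0.le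
    refine e1.trans ?_
    rw [← Finset.sum_div]
    exact div_le_div_of_nonneg_right h1.le hsb0.le
  have hs3 : (X : ℝ) ^ (β - β * η ^ 2 / 40) / sb ≤ sb := by
    rw [div_le_iff₀ hsb0, hsb, Real.mul_self_sqrt hXb.le]
    apply Real.rpow_le_rpow_of_exponent_le hX1.le
    rw [hbd]
    linarith only [hβη]
  have hs4 : sb ≤ 2 * (x : ℝ) ^ (b / 2) := by
    have e1 : sb = (X : ℝ) ^ (b / 2) := by
      rw [hsb, Real.sqrt_eq_rpow, ← Real.rpow_mul hXp.le]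
      congr 1
      ring
    rw [e1]
    have e2 : (X : ℝ) ^ (b / 2) ≤ ((1 + 1) * x : ℝ) ^ (b / 2) := Real.rpow_le_rpow hXp.le h4 (by positivity)
    refine e2.trans ?_
    rw [Real.mul_rpow (by norm_num) hxp.le]
    apply mul_le_mul_of_nonneg_right _ (by positivity)
    calc ((1 + 1 : ℝ)) ^ (b / 2) ≤ (1 + 1 : ℝ) ^ (1 : ℝ) := by
          apply Real.rpow_le_rpow_of_exponent_le (by norm_num)
          rw [hbd]
          linarith only [hβ1, hβη]
      _ = 2 := by norm_num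
  -- the main term
  set D : ℝ := ∑ q ∈ Finset.Icc 1 Y, Bmn W β x q with hD
  have hDlow : √β * √(x : ℝ) * (x : ℝ) ^ (β / 2) ≤ D := by
    have hYr : (x : ℝ) ^ β ≤ 2 * Y := by
      have e1 : (x : ℝ) ^ β < Y + 1 := Nat.lt_floor_add_one _
      have e2 : (2 : ℝ) ≤ (x : ℝ) ^ β := by
        rw [Real.rpow_zero, mul_one] at h6'
        exact h6'
      have e3 : (1 : ℝ) ≤ Y := by linarith only [e1, e2]
      linarith only [e1, e3]
    have hxb0 : 0 < (x : ℝ) ^ β := Real.rpow_pos_of_pos hxp _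
    have hYp : (0 : ℝ) < Y := by linarith only [hYr, hxb0]
    have e1 : ∀ q ∈ Finset.Icc 1 Y, √(2 * β) * √((x : ℝ) / Y) ≤ Bmn W β x q := by
      intro q hq
      obtain ⟨hq1, hq2⟩ := Finset.mem_Icc.1 hq
      have hqp : (0 : ℝ) < q := by exact_mod_cast (by omega : 0 < q)
      refine le_trans ?_ (Bmn_ge hβ0.le hq1)
      apply mul_le_mul_of_nonneg_left _ (Real.sqrt_nonneg _)
      apply Real.sqrt_le_sqrt
      apply div_le_div_of_nonneg_left hxp.le hqp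
      exact_mod_cast hq2
    have e2 := Finset.sum_le_sum e1
    rw [Finset.sum_const, Nat.card_Icc, Nat.add_sub_cancel, nsmul_eq_mul] at e2
    refine le_trans ?_ e2
    have e3 : (Y : ℝ) * (√(2 * β) * √((x : ℝ) / Y)) = √β * √(x : ℝ) * √(2 * (Y : ℝ)) := by
      have f1 : √((x : ℝ) / Y) = √(x : ℝ) / √(Y : ℝ) := Real.sqrt_div hxp.le _
      have f2 : √(2 * β) = √2 * √β := Real.sqrt_mul (by norm_num) _
      have f3 : √(2 * (Y : ℝ)) = √2 * √(Y : ℝ) := Real.sqrt_mul (by norm_num) _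
      have f4 : (Y : ℝ) = √(Y : ℝ) * √(Y : ℝ) := (Real.mul_self_sqrt hYp.le).symm
      have f5 : 0 < √(Y : ℝ) := Real.sqrt_pos.2 hYp
      rw [f1, f2, f3]
      calc (Y : ℝ) * (√2 * √β * (√(x : ℝ) / √(Y : ℝ))) = (√(Y : ℝ) * √(Y : ℝ)) * (√2 * √β * (√(x : ℝ) / √(Y : ℝ))) := by rw [← f4]
        _ = √β * √(x : ℝ) * (√2 * √(Y : ℝ)) := by field_simp
    rw [e3]
    apply mul_le_mul_of_nonneg_left _ (by positivity)
    apply Real.le_sqrt_of_sq_le
    rw [← Real.rpow_natCast, ← Real.rpow_mul hxp.le]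
    have e4 : β / 2 * ((2 : ℕ) : ℝ) = β := by push_cast; ring
    rw [e4]
    exact hYr
  have hfin : K * √(x : ℝ) * (∑ q ∈ Finset.Icc 1 Y, f1 q + ∑ q ∈ Finset.Icc 1 Y, f2 q) ≤ η * D := by
    have g1 : ∑ q ∈ Finset.Icc 1 Y, f1 q + ∑ q ∈ Finset.Icc 1 Y, f2 q ≤ 6 * (x : ℝ) ^ (b / 2) := by
      linarith only [hs1, hs2, hs3, hs4]
    have g2 : K * √(x : ℝ) * (∑ q ∈ Finset.Icc 1 Y, f1 q + ∑ q ∈ Finset.Icc 1 Y, f2 q) ≤ K * √(x : ℝ) * (6 * (x : ℝ) ^ (b / 2)) :=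
      mul_le_mul_of_nonneg_left g1 (by positivity)
    have g3 : K * √(x : ℝ) * (6 * (x : ℝ) ^ (b / 2)) = (η * √β * √(x : ℝ)) * (6 * K / (η * √β) * (x : ℝ) ^ (b / 2)) := by
      field_simp
    have g4 : (η * √β * √(x : ℝ)) * (6 * K / (η * √β) * (x : ℝ) ^ (b / 2)) ≤ (η * √β * √(x : ℝ)) * (x : ℝ) ^ (β / 2) :=
      mul_le_mul_of_nonneg_left h5 (by positivity)
    have g5 : (η * √β * √(x : ℝ)) * (x : ℝ) ^ (β / 2) = η * (√β * √(x : ℝ) * (x : ℝ) ^ (β / 2)) := by ring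
    have g6 := mul_le_mul_of_nonneg_left hDlow hη0.le
    linarith only [g2, g3, g4, g5, g6]
  calc |∑ q ∈ Finset.Icc 1 Y, EE A W x q ω - D| = |∑ q ∈ Finset.Icc 1 Y, (EE A W x q ω - Bmn W β x q)| := by
        rw [Finset.sum_sub_distrib]
    _ ≤ ∑ q ∈ Finset.Icc 1 Y, |EE A W x q ω - Bmn W β x q| := Finset.abs_sum_le_sum_abs _ _
    _ ≤ ∑ q ∈ Finset.Icc 1 Y, (6 * η * Bmn W β x q + K * √(x : ℝ) * (f1 q + f2 q)) := Finset.sum_le_sum hterm
    _ = 6 * η * D + K * √(x : ℝ) * (∑ q ∈ Finset.Icc 1 Y, f1 q + ∑ q ∈ Finset.Icc 1 Y, f2 q) := by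
        rw [Finset.sum_add_distrib, ← Finset.mul_sum, ← Finset.mul_sum, Finset.sum_add_distrib]
    _ ≤ 6 * η * D + η * D := by linarith only [hfin]
    _ = 7 * η * D := by ring

end Pool.Agent.R528.RM
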