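import Mathlib
import Pool.Agent.R528.RM.EH7

set_option autoImplicit false
set_option linter.unusedSectionVars false
set_option linter.unusedVariables false

/-! # The maximum over all moduli and classes -/

open MeasureTheory Filter Set
open scoped ENNReal Topology

namespace Pool.Agent.R528.RM

variable {Ω : Type} {m0 : MeasurableSpace Ω} {μ : Measure Ω} [IsProbabilityMeasure μ]
  {ℱ : Filtration ℕ m0} {A : ℕ → Set Ω}

/-- upper bound along the grid -/
theorem upper_grid (hA : ∀ n, MeasurableSet[ℱ n] (A n)) {W : ℕ} (hW : 0 < W) {b γ η δ : ℝ} (hb0 : 0 ≤ b) (hb1 : b < 1) (hγ : 0 < γ)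
    (hbγ : 2 * b ≤ γ)
    (hη0 : 0 < η) (hη1 : η ≤ 1) (hδ : 0 < δ) (hδη : (1 + δ) ^ 2 ≤ 1 + η) (N₀ : ℕ)
    (hN : (W : ℝ) / Nat.totient W ≤ Real.log N₀) (hN1 : 1 ≤ N₀) (hsm : ∀ m, N₀ ≤ m → (1 + δ) * rhoW W (m + 1) ≤ 1 / 8)
    {p : ℕ} (hp : 2 < p * (γ * η)) :
    ∀ᵐ ω ∂μ, ∀ᶠ k : ℕ in atTop, ∀ q : ℕ, 1 ≤ q → (q : ℝ) ≤ ((k ^ p : ℕ) : ℝ) ^ b → ∀ a ∈ adm W q,
      |SR μ ℱ A (rhoW W) δ (cls W q a N₀ (k ^ p)) N₀ (k ^ p) ω| < (1 + 3 * η) * Bmn W γ (k ^ p) q := by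
  have hp0 : 0 < p := by
    rcases Nat.eq_zero_or_pos p with h | h
    · subst h
      norm_num at hp
    · exact h
  have htp : Tendsto (fun k : ℕ => k ^ p) atTop atTop := tendsto_pow_atTop hp0.ne'
  have h1 : ∀ᶠ k : ℕ in atTop, μ.real {ω | ∃ q ∈ Finset.Icc 1 ⌊((k ^ p : ℕ) : ℝ) ^ b⌋₊, ∃ a ∈ adm W q,
      (1 + 3 * η) * Bmn W γ (k ^ p) q ≤ |SR μ ℱ A (rhoW W) δ (cls W q a N₀ (k ^ p)) N₀ (k ^ p) ω|} ≤ 2 * (k : ℝ) ^ (-2 : ℝ) := by
    filter_upwards [htp.eventually (tail_ev (μ := μ) (ℱ := ℱ) hA hW (β := b) hb1 hγ hη0 hη1 hδ hδη N₀ hN hN1 hsm),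
      eventually_gt_atTop 1] with k h1 h2
    have hk : (1 : ℝ) < k := by exact_mod_cast h2
    have hk0 : (0 : ℝ) < k := by linarith only [hk]
    set x : ℕ := k ^ p with hx
    have hxk : (x : ℝ) = (k : ℝ) ^ p := by rw [hx]; push_cast; rfl
    have hxp : (0 : ℝ) < x := by rw [hxk]; positivity
    have hx1 : (1 : ℝ) ≤ x := by
      rw [hxk]
      exact one_le_pow₀ hk.le
    have hsub : {ω | ∃ q ∈ Finset.Icc 1 ⌊(x : ℝ) ^ b⌋₊, ∃ a ∈ adm W q,
      (1 + 3 * η) * Bmn W γ x q ≤ |SR μ ℱ A (rhoW W) δ (cls W q a N₀ x) N₀ x ω|} ⊆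
        ⋃ q ∈ Finset.Icc 1 ⌊(x : ℝ) ^ b⌋₊, ⋃ a ∈ adm W q,
          {ω | (1 + 3 * η) * √(2 * γ * x / (adm W q).card) ≤ |SR μ ℱ A (rhoW W) δ (cls W q a N₀ x) N₀ x ω|} := by
      rintro ω ⟨q, hq, a, ha, h⟩
      exact mem_biUnion hq (mem_biUnion ha h)
    refine (measureReal_mono hsub (measure_ne_top _ _)).trans ((measureReal_biUnion_finset_le _ _).trans ?_)
    refine (Finset.sum_le_sum fun q _ => measureReal_biUnion_finset_le _ _).trans ?_
    have h3 : ∀ q ∈ Finset.Icc 1 ⌊(x : ℝ) ^ b⌋₊, ∑ a ∈ adm W q,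
        μ.real {ω | (1 + 3 * η) * √(2 * γ * x / (adm W q).card) ≤ |SR μ ℱ A (rhoW W) δ (cls W q a N₀ x) N₀ x ω|} ≤
        (x : ℝ) ^ b * (2 * (x : ℝ) ^ (-(γ * (1 + η)))) := by
      intro q hq
      obtain ⟨g1, g2⟩ := Finset.mem_Icc.1 hq
      have g3 : (q : ℝ) ≤ (x : ℝ) ^ b := (Nat.le_floor_iff (by positivity)).1 g2
      refine (Finset.sum_le_sum fun a ha => h1 q g1 g3 a ha).trans ?_
      rw [Finset.sum_const, nsmul_eq_mul]
      apply mul_le_mul_of_nonneg_right _ (by positivity)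
      exact le_trans (by exact_mod_cast adm_card_le) g3
    refine (Finset.sum_le_sum h3).trans ?_
    rw [Finset.sum_const, nsmul_eq_mul, Nat.card_Icc, Nat.add_sub_cancel]
    have h4 : ((⌊(x : ℝ) ^ b⌋₊ : ℕ) : ℝ) ≤ (x : ℝ) ^ b := Nat.floor_le (by positivity)
    have h5 : ((⌊(x : ℝ) ^ b⌋₊ : ℕ) : ℝ) * ((x : ℝ) ^ b * (2 * (x : ℝ) ^ (-(γ * (1 + η))))) ≤
        (x : ℝ) ^ b * ((x : ℝ) ^ b * (2 * (x : ℝ) ^ (-(γ * (1 + η))))) := mul_le_mul_of_nonneg_right h4 (by positivity)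
    refine h5.trans ?_
    have h6 : (x : ℝ) ^ b * ((x : ℝ) ^ b * (2 * (x : ℝ) ^ (-(γ * (1 + η))))) = 2 * (x : ℝ) ^ (b + b + -(γ * (1 + η))) := by
      rw [Real.rpow_add hxp, Real.rpow_add hxp]
      ring
    rw [h6]
    have h7 : (x : ℝ) ^ (b + b + -(γ * (1 + η))) ≤ (x : ℝ) ^ (-(γ * η)) :=
      Real.rpow_le_rpow_of_exponent_le hx1 (by linarith only [hbγ])
    have h8 : (x : ℝ) ^ (-(γ * η)) ≤ (k : ℝ) ^ (-2 : ℝ) := by
      rw [hxk, ← Real.rpow_natCast, ← Real.rpow_mul hk0.le]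
      apply Real.rpow_le_rpow_of_exponent_le hk.le
      linarith only [hp]
    linarith only [h7, h8]
  filter_upwards [bc_real (μ := μ) ((summable_pow_nat (s := -2) (by norm_num)).mul_left 2) h1] with ω hω
  filter_upwards [hω] with k hk q hq hqx a ha
  by_contra hcon
  push Not at hcon
  exact hk ⟨q, Finset.mem_Icc.2 ⟨hq, Nat.le_floor hqx⟩, a, ha, hcon⟩

/-- the family of prime moduli -/
noncomputable def IX (W : ℕ) (κ : ℝ) (Y : ℕ) : Finset (ℕ × ℕ) := (PX κ Y).biUnion (fun q => (adm W q).image (fun a => (q, a)))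

lemma mem_IX {W : ℕ} {κ : ℝ} {Y : ℕ} {i : ℕ × ℕ} : i ∈ IX W κ Y ↔ i.1 ∈ PX κ Y ∧ i.2 ∈ adm W i.1 := by
  unfold IX
  rw [Finset.mem_biUnion]
  constructor
  · rintro ⟨q, hq, h⟩
    obtain ⟨a, ha, rfl⟩ := Finset.mem_image.1 h
    exact ⟨hq, ha⟩
  · rintro ⟨h1, h2⟩
    exact ⟨i.1, h1, Finset.mem_image.2 ⟨i.2, h2, rfl⟩⟩

lemma mem_PX {κ : ℝ} {Y q : ℕ} : q ∈ PX κ Y ↔ q ≤ Y ∧ q.Prime ∧ (1 - κ) * Y ≤ q := by
  classical
  unfold PX
  rw [Finset.mem_filter, Finset.mem_range, Nat.lt_succ_iff]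

/-- classes of different prime moduli overlap little -/
lemma overlap_le {W q q' a a' N x : ℕ} (hq : q.Prime) (hq' : q'.Prime) (hne : q ≠ q') :
    ∑ n ∈ cls W q a N x ∩ cls W q' a' N x, rhoW W n ≤ (x : ℝ) / (q * q') + 1 := by
  have h1 : ∑ n ∈ cls W q a N x ∩ cls W q' a' N x, rhoW W n ≤ ((cls W q a N x ∩ cls W q' a' N x).card : ℝ) := by
    refine (Finset.sum_le_sum fun n _ => rhoW_le W n).trans ?_
    rw [Finset.sum_const, nsmul_eq_mul, mul_one]
  refine h1.trans ?_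
  have hqq : 0 < q * q' := Nat.mul_pos hq.pos hq'.pos
  have hcop : Nat.Coprime q q' := (Nat.coprime_primes hq hq').2 hne
  have h2 : (cls W q a N x ∩ cls W q' a' N x).card ≤ (Finset.range (x / (q * q') + 1)).card := by
    apply Finset.card_le_card_of_injOn (fun n => n / (q * q'))
    · intro n hn
      have hn' := Finset.mem_inter.1 (Finset.mem_coe.1 hn)
      have h3 := (mem_cls.1 hn'.1).1.2
      rw [Finset.mem_coe, Finset.mem_range]
      show n / (q * q') < x / (q * q') + 1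
      exact Nat.lt_succ_of_le (Nat.div_le_div_right (c := q * q') h3)
    · intro n hn m hm hnm
      obtain ⟨n1, n2⟩ := Finset.mem_inter.1 (Finset.mem_coe.1 hn)
      obtain ⟨m1, m2⟩ := Finset.mem_inter.1 (Finset.mem_coe.1 hm)
      have e1 : n % q = m % q := (mem_cls.1 n1).2.1.trans (mem_cls.1 m1).2.1.symm
      have e2 : n % q' = m % q' := (mem_cls.1 n2).2.1.trans (mem_cls.1 m2).2.1.symm
      have e3 : n ≡ m [MOD q * q'] := (Nat.modEq_and_modEq_iff_modEq_mul hcop).1 ⟨e1, e2⟩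
      have e4 : n / (q * q') = m / (q * q') := hnm
      have e5 := Nat.div_add_mod n (q * q')
      have e6 := Nat.div_add_mod m (q * q')
      have e7 : n % (q * q') = m % (q * q') := e3
      rw [← e5, ← e6, e4, e7]
  rw [Finset.card_range] at h2
  have h3 : ((x / (q * q') : ℕ) : ℝ) ≤ (x : ℝ) / (q * q') := by
    have := Nat.cast_div_le (α := ℝ) (m := x) (n := q * q')
    push_cast at this
    exact this
  have h4 : ((cls W q a N x ∩ cls W q' a' N x).card : ℝ) ≤ ((x / (q * q') + 1 : ℕ) : ℝ) := by exact_mod_cast h2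
  push_cast at h4
  have h5 : ((x / (q * q') : ℕ) : ℝ) = ((x / (q * q') : ℕ) : ℝ) := rfl
  linarith only [h3, h4]

/-- the probability that all the sums are small -/
theorem low_prob (hA : ∀ n, MeasurableSet[ℱ n] (A n)) {W : ℕ} (hW : 0 < W) {β η : ℝ} (hβ0 : 0 < β) (hβ1 : β < 1)
    (hη0 : 0 < η) (hη1 : η ≤ 1 / 10) (N₀ : ℕ)
    (hN : (W : ℝ) / Nat.totient W ≤ Real.log N₀) (hN1 : 1 ≤ N₀)
    (hsm : ∀ m, N₀ ≤ m → (1 + η / 8) * rhoW W (m + 1) ≤ (η / 8) ^ 2 / 8) :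
    ∀ᶠ x : ℕ in atTop, μ.real ({ω | ∀ i ∈ IX W (η / 32) ⌊((x : ℝ) / 2) ^ β⌋₊,
        SR μ ℱ A (rhoW W) (η / 8) (cls W i.1 i.2 N₀ x) N₀ x ω < (1 - 4 * η) * Bmn W (2 * β) x i.1} ∩
      Gs μ ℱ A (rhoW W) (η / 8) N₀ (N₀ + x)) ≤
      (x : ℝ) ^ (-(min (β * η ^ 2 / 16) (min (β / 2) ((1 - β) / 2)))) := by
  classical
  set c₁ : ℝ := min (β * η ^ 2 / 16) (min (β / 2) ((1 - β) / 2)) with hc₁
  have c1a : c₁ ≤ β * η ^ 2 / 16 := min_le_left _ _
  have c1b : c₁ ≤ β / 2 := (min_le_right _ _).trans (min_le_left _ _)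
  have c1c : c₁ ≤ (1 - β) / 2 := (min_le_right _ _).trans (min_le_right _ _)
  set δ : ℝ := η / 8 with hδ
  have hδ0 : 0 < δ := by positivity
  have hδ1 : δ ≤ 1 / 80 := by linarith only [hδ, hη1]
  have hη8 : η = 8 * δ := by rw [hδ]; ring
  have hκ' : η / 32 = δ / 4 := by rw [hδ]; ring
  rw [hκ']
  have hδ2 : δ ^ 2 ≤ δ := by nlinarith only [hδ0, hδ1]
  have hδ20 : 0 < δ ^ 2 := by positivity
  have hδ3 : δ ^ 3 ≤ δ := by nlinarith only [hδ0, hδ1, hδ2, hδ20]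
  have hpar1 : (1 + δ) ^ 2 * (1 + δ) ≤ 1 + η := by
    have e1 : (1 + δ) ^ 2 * (1 + δ) = 1 + 3 * δ + 3 * δ ^ 2 + δ ^ 3 := by ring
    rw [e1]
    linarith only [hδ2, hδ3, hη8, hδ0]
  have hpar2 : 1 - η / 2 ≤ (1 - δ) * (1 - δ) ^ 2 := by
    have e1 : (1 - δ) * (1 - δ) ^ 2 = 1 - 3 * δ + 3 * δ ^ 2 - δ ^ 3 := by ring
    rw [e1]
    linarith only [hδ2, hδ3, hη8, hδ0, hδ20]
  have hd8 : δ ^ 2 / 8 ≤ 1 / 8 := by nlinarith only [hδ0, hδ1]
  have hβη : 0 < β * η := by positivity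
  have hβη3 : 0 < β * η ^ 2 := by positivity
  have hβη2 : 10 * (β * η ^ 2) ≤ β * η := by nlinarith only [hβη, hη1, hη0]
  -- the size of `Y`
  have hY : ∀ᶠ x : ℕ in atTop, (x : ℝ) ^ β / 4 ≤ (⌊((x : ℝ) / 2) ^ β⌋₊ : ℕ) := by
    filter_upwards [ev_le_pow (a := 0) (b := β) (C := 4) hβ0, eventually_gt_atTop 1] with x h1 h2
    rw [Real.rpow_zero, mul_one] at h1
    have hx : (0 : ℝ) < x := by exact_mod_cast (by omega : 0 < x)
    have e1 : ((x : ℝ) / 2) ^ β < (⌊((x : ℝ) / 2) ^ β⌋₊ : ℕ) + 1 := Nat.lt_floor_add_one _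
    have e2 : (x : ℝ) ^ β / 2 ≤ ((x : ℝ) / 2) ^ β := by
      rw [Real.div_rpow hx.le (by norm_num)]
      apply div_le_div_of_nonneg_left (by positivity) (by positivity)
      calc (2 : ℝ) ^ β ≤ (2 : ℝ) ^ (1 : ℝ) := Real.rpow_le_rpow_of_exponent_le (by norm_num) hβ1.le
        _ = 2 := Real.rpow_one 2
    linarith only [e1, e2, h1]
  have hYt : Tendsto (fun x : ℕ => ⌊((x : ℝ) / 2) ^ β⌋₊) atTop atTop := by
    apply tendsto_nat_floor_atTop.comp
    exact (tendsto_rpow_atTop hβ0).comp (tendsto_natCast_atTop_atTop.atTop_div_const (by norm_num))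
  filter_upwards [v_bounds hW hβ1 (show 0 < δ / 4 by positivity) (by linarith only [hδ1]) N₀ hN hN1,
    theta_small W hβ1 (γ := 2 * β) (by positivity) (show 0 < δ ^ 2 / 8 by positivity) (show 0 < δ / 4 by positivity), eventually_gt_atTop 1,
    hY, hYt.eventually (primes_short (κ := δ / 4) (ε := η) (by positivity) (by linarith only [hδ1]) hη0), hYt.eventually_gt_atTop (2 * W + 2),
    ev_le_pow (a := -(β * η)) (b := -c₁) (C := 3 * 128) (by linarith only [hβη2, hβη3, c1a]),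
    ev_le_pow (a := -(β * η ^ 2 / 8)) (b := -c₁) (C := 30) (by linarith only [hβη3, c1a]),
    ev_pow (a := -β) (b := -(c₁ + β / 4)) (by linarith only [c1b, hβ0]) 1,
    ev_pow (a := -(c₁ + β / 4)) (b := -c₁) (by linarith only [hβ0]) (6 * 8 * 256),
    ev_pow (a := β - 1) (b := -(c₁ + (1 - β) / 4)) (by linarith only [c1c, hβ1]) 1,
    ev_pow (a := -(c₁ + (1 - β) / 4)) (b := -c₁) (by linarith only [hβ1]) (6 * 8 * 32),
    ev_le_pow (a := -c₁) (b := 0) (C := 1) (by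
      have : 0 < c₁ := lt_min (by positivity) (lt_min (by positivity) (by linarith only [hβ1]))
      linarith only [this])] with
    x h1 h2 h3 h4 h5 h6 h7 h8 h9 h9' h10 h10' h11
  have hx1 : (1 : ℝ) < x := by exact_mod_cast h3
  have hxp : (0 : ℝ) < x := by linarith only [hx1]
  have hlx : 0 < Real.log (x : ℝ) := Real.log_pos hx1
  set Y : ℕ := ⌊((x : ℝ) / 2) ^ β⌋₊ with hYd
  have hYx : (Y : ℝ) ≤ (x : ℝ) ^ β := by
    have e1 : (Y : ℝ) ≤ ((x : ℝ) / 2) ^ β := Nat.floor_le (by positivity)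
    exact e1.trans (Real.rpow_le_rpow (by positivity) (by linarith only [hxp]) hβ0.le)
  have hYp : (0 : ℝ) < Y := by exact_mod_cast (by omega : 0 < Y)
  have hYW : (2 * W + 2 : ℝ) < Y := by exact_mod_cast h6
  have hW1 : (1 : ℝ) ≤ W := by exact_mod_cast hW
  have hk4 : 0 < 1 - δ / 4 := by linarith only [hδ1]
  have hk42 : 1 / 2 ≤ 1 - δ / 4 := by linarith only [hδ1]
  -- facts on the moduli
  have hq : ∀ i ∈ IX W (δ / 4) Y, 1 ≤ i.1 ∧ (i.1 : ℝ) ≤ (x : ℝ) ^ β ∧ (1 - δ / 4) * Y ≤ i.1 ∧ (i.1 : ℝ) ≤ Y ∧ i.1.Prime ∧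
      ((adm W i.1).card : ℝ) = i.1 := by
    intro i hi
    obtain ⟨g1, g2⟩ := mem_IX.1 hi
    obtain ⟨g3, g4, g5⟩ := mem_PX.1 g1
    have g6 : (i.1 : ℝ) ≤ Y := by exact_mod_cast g3
    have g7 : (W : ℝ) < i.1 := by
      have : (1 / 2 : ℝ) * Y ≤ (1 - δ / 4) * Y := mul_le_mul_of_nonneg_right hk42 hYp.le
      linarith only [this, g5, hYW]
    have g8 : W < i.1 := by exact_mod_cast g7
    refine ⟨g4.one_lt.le, g6.trans hYx, g5, g6, g4, ?_⟩
    rw [adm_prime hW g4 g8, Finset.card_range]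
  set v : ℝ := (1 + δ / 4) * x / ((1 - δ / 4) * Y * Real.log x) with hv
  have hv0 : 0 < v := by positivity
  have hvY : x / (Y * Real.log x) ≤ v := by
    rw [hv, div_le_div_iff₀ (by positivity) (by positivity)]
    have e1 : (1 - δ / 4) * ((x : ℝ) * (Y * Real.log x)) ≤ (1 + δ / 4) * ((x : ℝ) * (Y * Real.log x)) :=
      mul_le_mul_of_nonneg_right (by linarith only [hδ0]) (by positivity)
    linarith only [e1]
  -- a fixed member
  have hPXne : (PX (δ / 4) Y).Nonempty := by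
    rw [← Finset.card_pos]
    have : (0 : ℝ) < (PX (δ / 4) Y).card := lt_of_lt_of_le (by positivity) h5
    exact_mod_cast this
  have hIne : (IX W (δ / 4) Y).Nonempty := by
    obtain ⟨q, hq'⟩ := hPXne
    obtain ⟨a, ha⟩ := adm_ne W (mem_PX.1 hq').2.1.pos
    exact ⟨(q, a), mem_IX.2 ⟨hq', ha⟩⟩
  have hvle : ∀ i ∈ IX W (δ / 4) Y, vx W (δ / 4) x i.1 ≤ v ∧ (1 - δ) * v ≤ (1 - δ / 4) * x / ((adm W i.1).card * Real.log x) := by
    intro i hi
    obtain ⟨g1, g2, g3, g4, g5, g6⟩ := hq i hi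
    have hqp : (0 : ℝ) < i.1 := by exact_mod_cast g1
    unfold vx
    rw [g6, hv]
    constructor
    · apply div_le_div_of_nonneg_left (by positivity) (by positivity)
      exact mul_le_mul_of_nonneg_right g3 hlx.le
    · rw [mul_div_assoc', div_le_div_iff₀ (by positivity) (by positivity)]
      have e1 : (1 - δ) * (1 + δ / 4) ≤ (1 - δ / 4) * (1 - δ / 4) := by nlinarith only [hδ0]
      have e2 : (1 - δ) * (1 + δ / 4) * (x * i.1 * Real.log x) ≤ (1 - δ / 4) * (1 - δ / 4) * (x * i.1 * Real.log x) :=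
        mul_le_mul_of_nonneg_right e1 (by positivity)
      have e3 : (1 - δ / 4) * (1 - δ / 4) * (x * i.1 * Real.log x) ≤ (1 - δ / 4) * (1 - δ / 4) * (x * Y * Real.log x) := by
        apply mul_le_mul_of_nonneg_left _ (by positivity)
        apply mul_le_mul_of_nonneg_right _ hlx.le
        exact mul_le_mul_of_nonneg_left g4 hxp.le
      linarith only [e2, e3]
  set o₁ : ℝ := 4 * x / (Y : ℝ) ^ 2 + 1 with ho
  have ho0 : 0 ≤ o₁ := by positivity
  have key := low_gen (μ := μ) (ℱ := ℱ) hA hW (γ := 2 * β) (κ := δ) (by positivity) hη0 hη1 hδ0 (by linarith only [hδ1]) hδ0 (by linarith only [hδ1]) hpar1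
    hpar2 hsm hd8 h3 hv0 (by
      obtain ⟨i, hi⟩ := hIne
      obtain ⟨g1, g2, g3, g4, g5, g6⟩ := hq i hi
      have e1 := h2 i.1 g1 g2
      have e2 : √(2 * (2 * β * Real.log x) / v) ≤ √(2 * (2 * β * Real.log x) / vx W (δ / 4) x i.1) := by
        apply Real.sqrt_le_sqrt
        apply div_le_div_of_nonneg_left (by positivity) (vx_pos W (by positivity) h3 g1) (hvle i hi).1
      linarith only [e1, e2]) (IX W (δ / 4) Y) hIne (o₁ := o₁) ho0 (by
      intro i hi j hj hij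
      obtain ⟨g1, g2, g3, g4, g5, g6⟩ := hq i hi
      obtain ⟨k1, k2, k3, k4, k5, k6⟩ := hq j hj
      by_cases he : i.1 = j.1
      · have : cls W i.1 i.2 N₀ x ∩ cls W j.1 j.2 N₀ x = ∅ := by
          rw [← Finset.disjoint_iff_inter_eq_empty, Finset.disjoint_left]
          intro n hn hn'
          apply hij
          have f1 := (mem_cls.1 hn).2.1
          have f2 := (mem_cls.1 hn').2.1
          rw [he] at f1
          exact Prod.ext he (f1.symm.trans f2)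
        rw [this, Finset.sum_empty]
        exact ho0
      · refine (overlap_le g5 k5 he).trans ?_
        rw [ho]
        have f1 : (Y : ℝ) ^ 2 / 4 ≤ (i.1 : ℝ) * j.1 := by
          have f2 : (1 / 2 : ℝ) * Y ≤ i.1 := (mul_le_mul_of_nonneg_right hk42 hYp.le).trans g3
          have f3 : (1 / 2 : ℝ) * Y ≤ j.1 := (mul_le_mul_of_nonneg_right hk42 hYp.le).trans k3
          nlinarith only [f2, f3, hYp]
        have f4 : (x : ℝ) / (i.1 * j.1) ≤ 4 * x / (Y : ℝ) ^ 2 := by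
          rw [div_le_div_iff₀ (lt_of_lt_of_le (by positivity) f1) (by positivity)]
          have := mul_le_mul_of_nonneg_left f1 hxp.le
          linarith only [this]
        linarith only [f4]) (by
      intro i hi
      obtain ⟨g1, g2, g3, g4, g5, g6⟩ := hq i hi
      obtain ⟨f1, f2⟩ := h1 i.1 g1 g2 i.2 (mem_IX.1 hi).2
      obtain ⟨f3, f4⟩ := hvle i hi
      exact ⟨f4.trans f1, f2.trans f3⟩)
  refine (measureReal_mono ?_ (measure_ne_top _ _)).trans (key.trans ?_)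
  · rintro ω ⟨g1, g2⟩
    refine ⟨fun i hi => ?_, g2⟩
    refine lt_of_lt_of_le (g1 i hi) ?_
    apply mul_le_mul_of_nonneg_left _ (by linarith only [hη1])
    obtain ⟨f1, f2, f3, f4, f5, f6⟩ := hq i hi
    unfold Bmn
    apply Real.sqrt_le_sqrt
    rw [f6]
    have hqp : (0 : ℝ) < i.1 := by exact_mod_cast f1
    have e1 : 2 * (2 * β * Real.log x) * v = 2 * (2 * β) * ((1 + δ / 4) * x / ((1 - δ / 4) * Y)) := by
      rw [hv]
      field_simp
    rw [e1, mul_div_assoc]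
    apply mul_le_mul_of_nonneg_left _ (by positivity)
    rw [div_le_div_iff₀ hqp (by positivity)]
    have e2 := mul_le_mul_of_nonneg_left f3 hxp.le
    have e3 : 0 ≤ δ / 4 * (x * i.1) := by positivity
    linarith only [e2, e3]
  · -- the size of the family
    have hcard : (x : ℝ) ^ (2 * β - β * η) / 32 ≤ ((IX W (δ / 4) Y).card : ℝ) := by
      have e1 : (IX W (δ / 4) Y).card = ∑ q ∈ PX (δ / 4) Y, (adm W q).card := by
        unfold IX
        rw [Finset.card_biUnion]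
        · refine Finset.sum_congr rfl fun q _ => ?_
          exact Finset.card_image_of_injective _ (fun a b h => (Prod.mk.inj h).2)
        · intro q _ q' _ hne
          show Disjoint ((adm W q).image (fun a => (q, a))) ((adm W q').image (fun a => (q', a)))
          rw [Finset.disjoint_left]
          intro i hi hi'
          obtain ⟨a, _, rfl⟩ := Finset.mem_image.1 hi
          obtain ⟨a', _, h⟩ := Finset.mem_image.1 hi'
          exact hne (Prod.mk.inj h).1.symm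
      have e2 : ∑ q ∈ PX (δ / 4) Y, (1 / 2 : ℝ) * Y ≤ ∑ q ∈ PX (δ / 4) Y, ((adm W q).card : ℝ) := by
        apply Finset.sum_le_sum
        intro q hq'
        obtain ⟨a, ha⟩ := adm_ne W (mem_PX.1 hq').2.1.pos
        obtain ⟨f1, f2, f3, f4, f5, f6⟩ := hq (q, a) (mem_IX.2 ⟨hq', ha⟩)
        have f6' : ((adm W q).card : ℝ) = q := f6
        rw [f6']
        exact (mul_le_mul_of_nonneg_right hk42 hYp.le).trans f3
      rw [Finset.sum_const, nsmul_eq_mul] at e2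
      have e3 : ((IX W (δ / 4) Y).card : ℝ) = ∑ q ∈ PX (δ / 4) Y, ((adm W q).card : ℝ) := by
        rw [e1]
        push_cast
        rfl
      rw [e3]
      refine le_trans ?_ e2
      have e4 : (Y : ℝ) ^ (1 - η) * (1 / 2 * Y) ≤ ((PX (δ / 4) Y).card : ℝ) * (1 / 2 * Y) :=
        mul_le_mul_of_nonneg_right h5 (by positivity)
      refine le_trans ?_ e4
      have e5 : (Y : ℝ) ^ (1 - η) * (1 / 2 * Y) = 1 / 2 * (Y : ℝ) ^ (2 - η) := by
        have : (Y : ℝ) ^ (2 - η) = (Y : ℝ) ^ (1 - η) * Y := by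
          rw [show (2 - η : ℝ) = (1 - η) + 1 by ring, Real.rpow_add hYp, Real.rpow_one]
        rw [this]
        ring
      rw [e5]
      have e6 : ((x : ℝ) ^ β / 4) ^ (2 - η) ≤ (Y : ℝ) ^ (2 - η) := Real.rpow_le_rpow (by positivity) h4 (by linarith only [hη1])
      have e7 : (x : ℝ) ^ (2 * β - β * η) / 16 ≤ ((x : ℝ) ^ β / 4) ^ (2 - η) := by
        rw [Real.div_rpow (by positivity) (by norm_num), ← Real.rpow_mul hxp.le]
        rw [show β * (2 - η) = 2 * β - β * η by ring]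
        apply div_le_div_of_nonneg_left (by positivity) (by positivity)
        calc (4 : ℝ) ^ (2 - η) ≤ (4 : ℝ) ^ (2 : ℝ) := Real.rpow_le_rpow_of_exponent_le (by norm_num) (by linarith only [hη0])
          _ = 16 := by norm_num
      linarith only [e6, e7]
    have p0 : 0 < (x : ℝ) ^ (2 * β - β * η) := Real.rpow_pos_of_pos hxp _
    have p1 : 4 * (x : ℝ) ^ (2 * β * (1 - η)) / (IX W (δ / 4) Y).card ≤ 128 * (x : ℝ) ^ (-(β * η)) := by
      rw [div_le_iff₀ (lt_of_lt_of_le (by positivity) hcard)]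
      have e1 : (x : ℝ) ^ (2 * β * (1 - η)) = (x : ℝ) ^ (-(β * η)) * (x : ℝ) ^ (2 * β - β * η) := by
        rw [← Real.rpow_add hxp]
        congr 1
        ring
      have e2 := mul_le_mul_of_nonneg_left hcard (show 0 ≤ 128 * (x : ℝ) ^ (-(β * η)) by positivity)
      rw [e1]
      linarith only [e2]
    have p2 : -(δ * η * (2 * β) / 2) = -(β * η ^ 2 / 8) := by rw [hδ]; ring
    rw [p2]
    -- the correlation term
    have p3 : 4 * (2 * β * Real.log x) / v * ((1 + δ) * o₁) ≤ 16 * (Real.log x) ^ 2 * (16 * (x : ℝ) ^ (-β) + (x : ℝ) ^ (β - 1)) := by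
      have e1 : 1 / v ≤ Y * Real.log x / x := by
        rw [div_le_div_iff₀ hv0 hxp]
        rw [div_le_iff₀ (by positivity)] at hvY
        linarith only [hvY]
      have e2 : 4 * (2 * β * Real.log x) / v * ((1 + δ) * o₁) = (8 * β * Real.log x * ((1 + δ) * o₁)) * (1 / v) := by
        field_simp
        ring
      rw [e2]
      have e3 : (8 * β * Real.log x * ((1 + δ) * o₁)) * (1 / v) ≤ (8 * β * Real.log x * ((1 + δ) * o₁)) * (Y * Real.log x / x) :=
        mul_le_mul_of_nonneg_left e1 (by positivity)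
      have e4 : (8 * β * Real.log x * ((1 + δ) * o₁)) * (Y * Real.log x / x) ≤ 16 * (Real.log x) ^ 2 * (Y / x * o₁) := by
        have f1 : 8 * β * (1 + δ) ≤ 16 := by nlinarith only [hβ1, hδ1, hδ0, hβ0]
        have f2 : 0 ≤ (Real.log x) ^ 2 * (Y / x * o₁) := by positivity
        have f3 := mul_le_mul_of_nonneg_right f1 f2
        have f4 : (8 * β * Real.log x * ((1 + δ) * o₁)) * (Y * Real.log x / x) = 8 * β * (1 + δ) * ((Real.log x) ^ 2 * (Y / x * o₁)) := by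
          ring
        linarith only [f3, f4]
      have e5 : (Y : ℝ) / x * o₁ = 4 / Y + Y / x := by
        rw [ho]
        field_simp
      have e6 : 4 / (Y : ℝ) ≤ 16 * (x : ℝ) ^ (-β) := by
        rw [Real.rpow_neg hxp.le, div_le_iff₀ hYp]
        have := Real.rpow_pos_of_pos hxp β
        have f1 : (x : ℝ) ^ β / 4 * (16 * ((x : ℝ) ^ β)⁻¹) ≤ Y * (16 * ((x : ℝ) ^ β)⁻¹) := mul_le_mul_of_nonneg_right h4 (by positivity)
        have f2 : (x : ℝ) ^ β / 4 * (16 * ((x : ℝ) ^ β)⁻¹) = 4 := by field_simp; norm_num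
        linarith only [f1, f2]
      have e7 : (Y : ℝ) / x ≤ (x : ℝ) ^ (β - 1) := by
        rw [Real.rpow_sub hxp, Real.rpow_one]
        exact div_le_div_of_nonneg_right hYx hxp.le
      have e8 : 16 * (Real.log x) ^ 2 * (Y / x * o₁) ≤ 16 * (Real.log x) ^ 2 * (16 * (x : ℝ) ^ (-β) + (x : ℝ) ^ (β - 1)) := by
        rw [e5]
        apply mul_le_mul_of_nonneg_left _ (by positivity)
        linarith only [e6, e7]
      linarith only [e3, e4, e8]
    have hl1 : 0 ≤ Real.log (x : ℝ) := hlx.le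
    have p4 : 16 * (Real.log x) ^ 2 * (16 * (x : ℝ) ^ (-β) + (x : ℝ) ^ (β - 1)) ≤ (x : ℝ) ^ (-c₁) / 24 := by
      have q1 : 0 ≤ (x : ℝ) ^ (-β) := by positivity
      have q2 : 0 ≤ (x : ℝ) ^ (β - 1) := by positivity
      have q3 : 0 ≤ (x : ℝ) ^ (-(c₁ + β / 4)) := by positivity
      have q4 : 0 ≤ (x : ℝ) ^ (-(c₁ + (1 - β) / 4)) := by positivity
      have e1 : Real.log x * (x : ℝ) ^ (-β) ≤ (x : ℝ) ^ (-(c₁ + β / 4)) := by linarith only [h9, q1]
      have e2 : 6 * 8 * 256 * (Real.log x * (x : ℝ) ^ (-(c₁ + β / 4))) ≤ (x : ℝ) ^ (-c₁) := by linarith only [h9', q3]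
      have e3 : Real.log x * (x : ℝ) ^ (β - 1) ≤ (x : ℝ) ^ (-(c₁ + (1 - β) / 4)) := by linarith only [h10, q2]
      have e4 : 6 * 8 * 32 * (Real.log x * (x : ℝ) ^ (-(c₁ + (1 - β) / 4))) ≤ (x : ℝ) ^ (-c₁) := by linarith only [h10', q4]
      have e5 := mul_le_mul_of_nonneg_left e1 hl1
      have e6 := mul_le_mul_of_nonneg_left e3 hl1
      have e7 : 16 * (Real.log x) ^ 2 * (16 * (x : ℝ) ^ (-β) + (x : ℝ) ^ (β - 1)) =
          256 * (Real.log x * (Real.log x * (x : ℝ) ^ (-β))) + 16 * (Real.log x * (Real.log x * (x : ℝ) ^ (β - 1))) := by ring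
      have q5 : 0 ≤ (x : ℝ) ^ (-c₁) := by positivity
      rw [e7]
      linarith only [e2, e4, e5, e6, q5]
    have p5 : (x : ℝ) ^ (-c₁) ≤ 1 := by
      rw [Real.rpow_zero, one_mul] at h11
      exact h11
    set u : ℝ := 4 * (2 * β * Real.log x) / v * ((1 + δ) * o₁) with hu
    have hu0 : 0 ≤ u := by positivity
    have hu1 : u ≤ (x : ℝ) ^ (-c₁) / 24 := p3.trans p4
    have hexp : Real.exp u - 1 ≤ 2 * u := by
      have f1 : |u| ≤ 1 := by
        rw [abs_of_nonneg hu0]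
        linarith only [hu1, p5]
      have f2 := Real.abs_exp_sub_one_le f1
      rw [abs_of_nonneg hu0] at f2
      exact (le_abs_self _).trans f2
    linarith only [h7, h8, p1, hexp, hu1]

end Pool.Agent.R528.RM
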