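import Mathlib
import Pool.Agent.R528.RM.EH8

set_option autoImplicit false
set_option linter.unusedSectionVars false
set_option linter.unusedVariables false

/-! # The largest error over all moduli and classes -/

open MeasureTheory Filter Set
open scoped ENNReal Topology

namespace Pool.Agent.R528.RM

variable {Ω : Type} {m0 : MeasurableSpace Ω} {μ : Measure Ω} [IsProbabilityMeasure μ]
  {ℱ : Filtration ℕ m0} {A : ℕ → Set Ω}

/-- the centered counts at `x` and the stopped sums at the grid point above `x` -/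
lemma cs_close {W p : ℕ} (hW : 0 < W) (hp : 0 < p) {β c δ : ℝ} (hβ1 : β < 1) (hc : 0 < c) {N₀ : ℕ}
    {ω : Ω} (hg : Good μ ℱ A W p ω) (hGs : ∀ M, ω ∈ Gs μ ℱ A (rhoW W) δ N₀ (N₀ + M)) :
    ∀ᶠ x : ℕ in atTop, ∀ q : ℕ, 1 ≤ q → (q : ℝ) ≤ (x : ℝ) ^ β → ∀ a ∈ adm W q,
      |CS μ ℱ A (cls W q a 0 x) ω - SR μ ℱ A (rhoW W) δ (cls W q a N₀ (tg p x)) N₀ (tg p x) ω| ≤ c * √((x : ℝ) / q) := by
  have hW' : (1 : ℝ) ≤ W := by exact_mod_cast hW
  set K₁ : ℝ := 16 * (W : ℝ) + 10 with hK₁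
  have hK₁0 : 0 < K₁ := by positivity
  set τ : ℝ := (c / (4 * K₁)) ^ 2 with hτ
  have hτ0 : 0 < τ := by positivity
  have hsτ : √τ = c / (4 * K₁) := by rw [hτ, Real.sqrt_sq (by positivity)]
  filter_upwards [hg.ub1, num1 hβ1 (4 / c * (N₀ + K₁)),
    tg_ratio hp hτ0, eventually_gt_atTop 1, ev_log 0, eventually_ge_atTop N₀] with x h1' h2 h3 h4 h5 h6 q hq hqx a ha
  have hx1 : (1 : ℝ) < x := by exact_mod_cast h4
  have hq' : (1 : ℝ) ≤ q := by exact_mod_cast hq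
  have hqp : (0 : ℝ) < q := by linarith only [hq']
  have hqx' : q ≤ x := by
    have : (q : ℝ) ≤ x := hqx.trans (by
      calc (x : ℝ) ^ β ≤ (x : ℝ) ^ (1 : ℝ) := Real.rpow_le_rpow_of_exponent_le hx1.le hβ1.le
        _ = x := Real.rpow_one _)
    exact_mod_cast this
  have haq := (mem_adm.1 ha).1
  have hxX := le_tg hp x
  set X := tg p x with hX
  have hxX' : (x : ℝ) ≤ X := by exact_mod_cast hxX
  have g0 := h2 q hq hqx
  set s : ℝ := √((x : ℝ) / q) with hs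
  have hs0 : 0 ≤ s := Real.sqrt_nonneg _
  have hN0 : (0 : ℝ) ≤ N₀ := Nat.cast_nonneg _
  have k1 : (N₀ + K₁) * (Real.log x + 1) ≤ c / 4 * s := by
    have := mul_le_mul_of_nonneg_left g0 (show 0 ≤ c / 4 by positivity)
    have e : c / 4 * (4 / c * (N₀ + K₁) * (Real.log x + 1)) = (N₀ + K₁) * (Real.log x + 1) := by
      field_simp
    linarith only [this, e]
  have k4 := h1' q hq hqx' a haq
  have k5 : √(((X : ℝ) - x) / q) ≤ c / (4 * K₁) * s := by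
    rw [← hsτ, hs, ← Real.sqrt_mul hτ0.le]
    apply Real.sqrt_le_sqrt
    rw [mul_div_assoc']
    apply div_le_div_of_nonneg_right _ hqp.le
    linarith only [h3]
  have k6 : K₁ * √(((X : ℝ) - x) / q) ≤ c / 4 * s := by
    have := mul_le_mul_of_nonneg_left k5 hK₁0.le
    have e : K₁ * (c / (4 * K₁) * s) = c / 4 * s := by field_simp
    linarith only [this, e]
  have k7 := CS_trivial (W := W) (q := q) (a := a) (N := N₀) hg.h01
  have k8 : SR μ ℱ A (rhoW W) δ (cls W q a N₀ X) N₀ X ω = CS μ ℱ A (cls W q a N₀ X) ω :=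
    SR_CS (fun n hn => by
      have := (mem_cls.1 hn).1
      exact ⟨this.1, by omega⟩) (hGs X)
  have k9 := CS_split (μ := μ) (ℱ := ℱ) (A := A) (W := W) (q := q) (a := a) (Nat.zero_le N₀) (h6.trans hxX) ω
  have k10 := CS_split (μ := μ) (ℱ := ℱ) (A := A) (W := W) (q := q) (a := a) (Nat.zero_le x) hxX ω
  have k11 : CS μ ℱ A (cls W q a 0 x) ω - SR μ ℱ A (rhoW W) δ (cls W q a N₀ X) N₀ X ω =
      CS μ ℱ A (cls W q a 0 N₀) ω - CS μ ℱ A (cls W q a x X) ω := by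
    rw [k8]
    linarith only [k9, k10]
  rw [k11]
  have k13 := abs_sub (CS μ ℱ A (cls W q a 0 N₀) ω) (CS μ ℱ A (cls W q a x X) ω)
  have k14 : 0 ≤ (N₀ : ℝ) * Real.log x := mul_nonneg hN0 h5
  have k17 : 0 ≤ c * s := by positivity
  rw [← hK₁] at k4
  linarith only [k13, k1, k4, k6, k7, k14, k17, hK₁0]

lemma Bmn_one {W : ℕ} {γ : ℝ} (x : ℕ) : Bmn W γ x 1 = √(2 * γ * x) := by
  unfold Bmn
  rw [adm_one, Nat.cast_one, div_one]

lemma Bmn_ge2 {W : ℕ} {γ : ℝ} (hγ : 0 ≤ γ) {x q : ℕ} (hq : 1 ≤ q) : √(2 * γ) * (√(x : ℝ) / (adm W q).card) ≤ Bmn W γ x q := by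
  have hcard := adm_pos W (q := q) (by omega)
  have hc1 : (1 : ℝ) ≤ (adm W q).card := by exact_mod_cast Finset.card_pos.2 (adm_ne W (by omega : 0 < q))
  unfold Bmn
  apply Real.le_sqrt_of_sq_le
  rw [mul_pow, div_pow, Real.sq_sqrt (by positivity), Real.sq_sqrt (Nat.cast_nonneg _), mul_div_assoc']
  apply div_le_div_of_nonneg_left (by positivity) hcard
  nlinarith only [hc1]

/-- two-sided bounds with an error -/
theorem Mont_eta (hA : ∀ n, MeasurableSet[ℱ n] (A n)) {W : ℕ} (hW : 0 < W)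
    (hd : ∀ᵐ ω ∂μ, ∀ ε : ℝ, 0 < ε → ∀ᶠ n : ℕ in atTop, |dens μ ℱ A n ω - rhoW W (n + 1)| ≤ ε * rhoW W (n + 1))
    (hmono : ∀ᵐ ω ∂μ, ∀ m n, m ≤ n → Nat.Coprime (m + 1) W → Nat.Coprime (n + 1) W → dens μ ℱ A n ω ≤ dens μ ℱ A m ω)
    {β η : ℝ} (hβ0 : 0 < β) (hβ1 : β < 1) (hη0 : 0 < η) (hη1 : η ≤ 1 / 10) :
    ∀ᵐ ω ∂μ, ∀ᶠ x : ℕ in atTop,
      (∀ q : ℕ, 1 ≤ q → (q : ℝ) ≤ (x : ℝ) ^ β → ∀ a ∈ adm W q, |Dv A W x q a ω| ≤ (1 + 9 * η) * Bmn W (2 * β) x q) ∧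
      (∃ q : ℕ, 1 ≤ q ∧ (q : ℝ) ≤ (x : ℝ) ^ β ∧ ∃ a ∈ adm W q, (1 - 9 * η) * Bmn W (2 * β) x q ≤ |Dv A W x q a ω|) := by
  classical
  set c₁ : ℝ := min (β * η ^ 2 / 16) (min (β / 2) ((1 - β) / 2)) with hc₁
  have hc₁0 : 0 < c₁ := lt_min (by positivity) (lt_min (by positivity) (by linarith))
  set γ₁ : ℝ := η ^ 2 * β / 4 with hγ₁
  have hγ₁0 : 0 < γ₁ := by positivity
  set c₂ : ℝ := min c₁ (min (2 * β * η) (γ₁ * η)) with hc₂
  have hc₂0 : 0 < c₂ := lt_min hc₁0 (lt_min (by positivity) (by positivity))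
  have c2a : c₂ ≤ c₁ := min_le_left _ _
  have c2b : c₂ ≤ 2 * β * η := (min_le_right _ _).trans (min_le_left _ _)
  have c2c : c₂ ≤ γ₁ * η := (min_le_right _ _).trans (min_le_right _ _)
  obtain ⟨p, hp⟩ := exists_nat_gt (2 / c₂)
  rw [div_lt_iff₀ hc₂0] at hp
  have hp0 : 0 < p := by
    rcases Nat.eq_zero_or_pos p with h | h
    · subst h
      norm_num at hp
    · exact h
  have hpp : (0 : ℝ) < p := by exact_mod_cast hp0
  -- thresholds without violation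
  have hN : ∀ N : ℕ, ∃ N₀ : ℕ, N ≤ N₀ ∧ 1 ≤ N₀ ∧ (W : ℝ) / Nat.totient W ≤ Real.log N₀ ∧
      ∀ m, N₀ ≤ m → (1 + η / 8) * rhoW W (m + 1) ≤ (η / 8) ^ 2 / 8 := by
    intro N
    obtain ⟨N₁, g1, g2, g3⟩ := exists_N₁ W N
    have g4 : ∀ᶠ m : ℕ in atTop, (1 + η / 8) * rhoW W (m + 1) ≤ (η / 8) ^ 2 / 8 := by
      have hc : 0 < (η / 8) ^ 2 / 8 / (1 + η / 8) := by positivity
      have hφ : (0 : ℝ) < Nat.totient W := by exact_mod_cast Nat.totient_pos.2 hW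
      have hW' : (0 : ℝ) < W := by exact_mod_cast hW
      filter_upwards [ev_log (((W : ℝ) / Nat.totient W) / ((η / 8) ^ 2 / 8 / (1 + η / 8))), eventually_gt_atTop 1] with m h1 h2
      have hm : (1 : ℝ) < m := by exact_mod_cast h2
      have h3 : Real.log m ≤ Real.log ((m + 1 : ℕ) : ℝ) := Real.log_le_log (by linarith only [hm]) (by push_cast; linarith only)
      have hlm : 0 < Real.log ((m + 1 : ℕ) : ℝ) := (Real.log_pos hm).trans_le h3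
      have h4 : rhoW W (m + 1) ≤ (η / 8) ^ 2 / 8 / (1 + η / 8) := by
        unfold rhoW
        split_ifs
        · refine (min_le_right _ _).trans ?_
          rw [div_le_iff₀ hlm]
          rw [div_le_iff₀ hc] at h1
          have := mul_le_mul_of_nonneg_left h3 hc.le
          linarith only [this, h1]
        · exact hc.le
      rw [le_div_iff₀ (by positivity)] at h4
      linarith only [h4]
    obtain ⟨m₀, hm₀⟩ := eventually_atTop.1 g4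
    refine ⟨max N₁ m₀, g1.trans (le_max_left _ _), g2.trans (le_max_left _ _), g3.trans ?_, fun m hm => hm₀ m ((le_max_right _ _).trans hm)⟩
    apply Real.log_le_log (by exact_mod_cast g2)
    exact_mod_cast le_max_left N₁ m₀
  choose N₀ hN1 hN2 hN3 hN4 using hN
  have hd8 : (η / 8) ^ 2 / 8 ≤ 1 / 8 := by nlinarith only [hη0, hη1]
  have hδη : (1 + η / 8) ^ 2 ≤ 1 + η := by nlinarith only [hη0, hη1]
  have htp : Tendsto (fun k : ℕ => k ^ p) atTop atTop := tendsto_pow_atTop hp0.ne'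
  have hU : ∀ᵐ ω ∂μ, ∀ N : ℕ, ∀ᶠ k : ℕ in atTop, ∀ q : ℕ, 1 ≤ q → (q : ℝ) ≤ ((k ^ p : ℕ) : ℝ) ^ β → ∀ a ∈ adm W q,
      |SR μ ℱ A (rhoW W) (η / 8) (cls W q a (N₀ N) (k ^ p)) (N₀ N) (k ^ p) ω| < (1 + 3 * η) * Bmn W (2 * β) (k ^ p) q :=
    ae_all_iff.2 fun N => upper_grid (μ := μ) (ℱ := ℱ) hA hW hβ0.le hβ1 (by positivity) (le_refl (2 * β)) hη0 (by linarith) (by positivity) hδη
      (N₀ N) (hN3 N) (hN2 N) (fun m hm => (hN4 N m hm).trans hd8) (by nlinarith only [hp, c2b, hpp])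
  have hU1 : ∀ᵐ ω ∂μ, ∀ N : ℕ, ∀ᶠ k : ℕ in atTop, ∀ q : ℕ, 1 ≤ q → (q : ℝ) ≤ ((k ^ p : ℕ) : ℝ) ^ (0 : ℝ) → ∀ a ∈ adm W q,
      |SR μ ℱ A (rhoW W) (η / 8) (cls W q a (N₀ N) (k ^ p)) (N₀ N) (k ^ p) ω| < (1 + 3 * η) * Bmn W γ₁ (k ^ p) q :=
    ae_all_iff.2 fun N => upper_grid (μ := μ) (ℱ := ℱ) hA hW le_rfl one_pos hγ₁0 (by linarith) hη0 (by linarith) (by positivity) hδη
      (N₀ N) (hN3 N) (hN2 N) (fun m hm => (hN4 N m hm).trans hd8) (by nlinarith only [hp, c2c, hpp])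
  have hL : ∀ᵐ ω ∂μ, ∀ N : ℕ, ∀ᶠ k : ℕ in atTop, ω ∉ {ω | ∀ i ∈ IX W (η / 32) ⌊(((k ^ p : ℕ) : ℝ) / 2) ^ β⌋₊,
        SR μ ℱ A (rhoW W) (η / 8) (cls W i.1 i.2 (N₀ N) (k ^ p)) (N₀ N) (k ^ p) ω < (1 - 4 * η) * Bmn W (2 * β) (k ^ p) i.1} ∩
      Gs μ ℱ A (rhoW W) (η / 8) (N₀ N) (N₀ N + k ^ p) := by
    refine ae_all_iff.2 fun N => ?_
    refine bc_real (μ := μ) (summable_pow_nat (s := -2) (by norm_num)) ?_
    filter_upwards [htp.eventually (low_prob (μ := μ) (ℱ := ℱ) hA hW hβ0 hβ1 hη0 hη1 (N₀ N) (hN3 N) (hN2 N) (hN4 N)), eventually_gt_atTop 1] with k h1 h2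
    have hk : (1 : ℝ) < k := by exact_mod_cast h2
    refine h1.trans ?_
    push_cast
    rw [← Real.rpow_natCast, ← Real.rpow_mul (by linarith only [hk])]
    apply Real.rpow_le_rpow_of_exponent_le hk.le
    rw [← hc₁]
    nlinarith only [hp, c2a, hpp]
  filter_upwards [hU, hU1, hL, good_ae hA hW hd hmono hp0, hd] with ω hu hu1 hl hg hdω
  obtain ⟨N, hN⟩ := dens_two hdω (show 0 < η / 8 by positivity)
  have hGs : ∀ M, ω ∈ Gs μ ℱ A (rhoW W) (η / 8) (N₀ N) (N₀ N + M) := by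
    intro M m hm _
    exact ⟨(hN _ (hN1 N)).2 m hm, (hN _ (hN1 N)).1 m hm⟩
  have hsβ : 0 < √β := Real.sqrt_pos.2 hβ0
  have hs4 : √(2 * (2 * β)) = 2 * √β := by
    rw [show 2 * (2 * β) = 2 ^ 2 * β by ring, Real.sqrt_mul (by norm_num), Real.sqrt_sq (by norm_num)]
  filter_upwards [(tendsto_kg hp0).eventually (hu N), (tendsto_kg hp0).eventually (hu1 N), (tendsto_kg hp0).eventually (hl N),
    cs_close hW hp0 hβ1 (show 0 < η * (2 * √β) by positivity) hg hGs, tg_ratio hp0 (show 0 < η / 4 by positivity),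
    num1 hβ1 (4 * W / (η * (2 * √β))), eventually_gt_atTop 1, ev_log 0] with x h1 h1' h2 h3 h4 h5 h6 h7
  change ∀ q : ℕ, 1 ≤ q → (q : ℝ) ≤ ((tg p x : ℕ) : ℝ) ^ β → ∀ a ∈ adm W q,
      |SR μ ℱ A (rhoW W) (η / 8) (cls W q a (N₀ N) (tg p x)) (N₀ N) (tg p x) ω| < (1 + 3 * η) * Bmn W (2 * β) (tg p x) q at h1
  change ∀ q : ℕ, 1 ≤ q → (q : ℝ) ≤ ((tg p x : ℕ) : ℝ) ^ (0 : ℝ) → ∀ a ∈ adm W q,
      |SR μ ℱ A (rhoW W) (η / 8) (cls W q a (N₀ N) (tg p x)) (N₀ N) (tg p x) ω| < (1 + 3 * η) * Bmn W γ₁ (tg p x) q at h1'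
  change ω ∉ {ω | ∀ i ∈ IX W (η / 32) ⌊(((tg p x : ℕ) : ℝ) / 2) ^ β⌋₊,
        SR μ ℱ A (rhoW W) (η / 8) (cls W i.1 i.2 (N₀ N) (tg p x)) (N₀ N) (tg p x) ω < (1 - 4 * η) * Bmn W (2 * β) (tg p x) i.1} ∩
      Gs μ ℱ A (rhoW W) (η / 8) (N₀ N) (N₀ N + tg p x) at h2
  have hx1 : (1 : ℝ) < x := by exact_mod_cast h6
  have hxp : (0 : ℝ) < x := by linarith only [hx1]
  have hxX := le_tg hp0 x
  set X := tg p x with hX
  have hxX' : (x : ℝ) ≤ X := by exact_mod_cast hxX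
  have hXp : (0 : ℝ) < X := by linarith only [hxX', hxp]
  -- the sum over all integers
  have hall : |CS μ ℱ A (cls W 1 0 0 x) ω| ≤ 3 * η * (2 * √β) * √(x : ℝ) := by
    have g1 := h3 1 le_rfl (by rw [Nat.cast_one]; exact Real.one_le_rpow hx1.le hβ0.le) 0 (zero_mem_adm_one W)
    have g2 := h1' 1 le_rfl (by rw [Real.rpow_zero, Nat.cast_one]) 0 (zero_mem_adm_one W)
    rw [Nat.cast_one, div_one] at g1
    rw [Bmn_one] at g2
    have g3 : √(2 * γ₁ * X) ≤ η * √β * √(x : ℝ) := by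
      apply Real.sqrt_le_iff.2
      refine ⟨by positivity, ?_⟩
      rw [mul_pow, mul_pow, Real.sq_sqrt hβ0.le, Real.sq_sqrt hxp.le, hγ₁]
      have e1 : (X : ℝ) ≤ 2 * x := by
        have : η / 4 * x ≤ 1 * x := mul_le_mul_of_nonneg_right (by linarith only [hη1]) hxp.le
        linarith only [h4, this]
      have e2 : 0 ≤ η ^ 2 * β := by positivity
      have e3 := mul_le_mul_of_nonneg_left e1 e2
      linarith only [e3]
    have g4 : |CS μ ℱ A (cls W 1 0 0 x) ω| ≤ |CS μ ℱ A (cls W 1 0 0 x) ω - SR μ ℱ A (rhoW W) (η / 8) (cls W 1 0 (N₀ N) X) (N₀ N) X ω| +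
        |SR μ ℱ A (rhoW W) (η / 8) (cls W 1 0 (N₀ N) X) (N₀ N) X ω| := by
      have := abs_add_le (CS μ ℱ A (cls W 1 0 0 x) ω - SR μ ℱ A (rhoW W) (η / 8) (cls W 1 0 (N₀ N) X) (N₀ N) X ω)
        (SR μ ℱ A (rhoW W) (η / 8) (cls W 1 0 (N₀ N) X) (N₀ N) X ω)
      rwa [sub_add_cancel] at this
    have g5 : (1 + 3 * η) * √(2 * γ₁ * X) ≤ 2 * (η * √β * √(x : ℝ)) := by
      have e1 : 1 + 3 * η ≤ 2 := by linarith only [hη1]
      exact mul_le_mul e1 g3 (Real.sqrt_nonneg _) (by norm_num)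
    have g6 : 0 ≤ η * √β * √(x : ℝ) := by positivity
    linarith only [g1, g2, g4, g5, g6]
  -- deviations versus stopped sums
  have hdev5 : ∀ q : ℕ, 1 ≤ q → (q : ℝ) ≤ (x : ℝ) ^ β → ∀ a ∈ adm W q,
      |Dv A W x q a ω - SR μ ℱ A (rhoW W) (η / 8) (cls W q a (N₀ N) X) (N₀ N) X ω| ≤ 5 * η * Bmn W (2 * β) x q := by
    intro q hq hqx a ha
    have g1 := h3 q hq hqx a ha
    have g2 := h5 q hq hqx
    have g3 := Dv_CS (μ := μ) (ℱ := ℱ) hW hg.h01 hg.hm (by omega) ha x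
    have g4 := Bmn_ge (W := W) (β := 2 * β) (by positivity) (x := x) hq
    have g5 := Bmn_ge2 (W := W) (γ := 2 * β) (by positivity) (x := x) hq
    rw [hs4] at g4 g5
    have hcard := adm_pos W (q := q) (by omega)
    have k1 : |CS μ ℱ A (cls W 1 0 0 x) ω| / (adm W q).card ≤ 3 * η * Bmn W (2 * β) x q := by
      have e1 : |CS μ ℱ A (cls W 1 0 0 x) ω| / (adm W q).card ≤ (3 * η * (2 * √β) * √(x : ℝ)) / (adm W q).card :=
        div_le_div_of_nonneg_right hall hcard.le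
      have e2 : (3 * η * (2 * √β) * √(x : ℝ)) / (adm W q).card = 3 * η * (2 * √β * (√(x : ℝ) / (adm W q).card)) := by ring
      have e3 := mul_le_mul_of_nonneg_left g5 (show 0 ≤ 3 * η by positivity)
      linarith only [e1, e2, e3]
    have k2 : 4 * (W : ℝ) ≤ η * Bmn W (2 * β) x q := by
      have e1 : 4 * W / (η * (2 * √β)) * 1 ≤ √((x : ℝ) / q) := by
        refine le_trans ?_ g2
        apply mul_le_mul_of_nonneg_left (by linarith only [h7]) (by positivity)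
      rw [mul_one, div_le_iff₀ (by positivity)] at e1
      have e2 := mul_le_mul_of_nonneg_left g4 hη0.le
      linarith only [e1, e2]
    have k3 : η * (2 * √β) * √((x : ℝ) / q) ≤ η * Bmn W (2 * β) x q := by
      have e2 := mul_le_mul_of_nonneg_left g4 hη0.le
      linarith only [e2]
    have k4 : |Dv A W x q a ω - SR μ ℱ A (rhoW W) (η / 8) (cls W q a (N₀ N) X) (N₀ N) X ω| ≤
        |Dv A W x q a ω - CS μ ℱ A (cls W q a 0 x) ω| +
        |CS μ ℱ A (cls W q a 0 x) ω - SR μ ℱ A (rhoW W) (η / 8) (cls W q a (N₀ N) X) (N₀ N) X ω| := by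
      have := abs_add_le (Dv A W x q a ω - CS μ ℱ A (cls W q a 0 x) ω)
        (CS μ ℱ A (cls W q a 0 x) ω - SR μ ℱ A (rhoW W) (η / 8) (cls W q a (N₀ N) X) (N₀ N) X ω)
      rwa [sub_add_sub_cancel] at this
    linarith only [g1, g3, k1, k2, k3, k4]
  constructor
  · intro q hq hqx a ha
    have g1 := hdev5 q hq hqx a ha
    have g2 := h1 q hq (hqx.trans (Real.rpow_le_rpow hxp.le hxX' hβ0.le)) a ha
    obtain ⟨hS1, hS2⟩ := Bmn_scale (W := W) (q := q) (β := 2 * β) (by positivity) (show 0 ≤ η / 4 by positivity) hxX h4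
    have hB0 : 0 ≤ Bmn W (2 * β) x q := Real.sqrt_nonneg _
    have g3 : |Dv A W x q a ω| ≤ |Dv A W x q a ω - SR μ ℱ A (rhoW W) (η / 8) (cls W q a (N₀ N) X) (N₀ N) X ω| +
          |SR μ ℱ A (rhoW W) (η / 8) (cls W q a (N₀ N) X) (N₀ N) X ω| := by
      have := abs_add_le (Dv A W x q a ω - SR μ ℱ A (rhoW W) (η / 8) (cls W q a (N₀ N) X) (N₀ N) X ω)
        (SR μ ℱ A (rhoW W) (η / 8) (cls W q a (N₀ N) X) (N₀ N) X ω)
      rwa [sub_add_cancel] at this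
    have g4 : (1 + 3 * η) * Bmn W (2 * β) X q ≤ (1 + 3 * η) * ((1 + η / 4) * Bmn W (2 * β) x q) :=
      mul_le_mul_of_nonneg_left hS2 (by linarith only [hη0])
    have g5 : (1 + 3 * η) * (1 + η / 4) + 5 * η ≤ 1 + 9 * η := by nlinarith only [hη0, hη1]
    have g6 := mul_le_mul_of_nonneg_right g5 hB0
    linarith only [g1, g2, g3, g4, g6]
  · have h8 : ∃ i ∈ IX W (η / 32) ⌊((X : ℝ) / 2) ^ β⌋₊,
        (1 - 4 * η) * Bmn W (2 * β) X i.1 ≤ SR μ ℱ A (rhoW W) (η / 8) (cls W i.1 i.2 (N₀ N) X) (N₀ N) X ω := by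
      by_contra hcon
      push Not at hcon
      exact h2 ⟨fun i hi => hcon i hi, hGs X⟩
    obtain ⟨i, hi, h9⟩ := h8
    obtain ⟨k1, k2⟩ := mem_IX.1 hi
    obtain ⟨k3, k4, k5⟩ := mem_PX.1 k1
    have k6 : (i.1 : ℝ) ≤ (x : ℝ) ^ β := by
      have e1 : (i.1 : ℝ) ≤ (⌊((X : ℝ) / 2) ^ β⌋₊ : ℕ) := by exact_mod_cast k3
      refine e1.trans ((Nat.floor_le (by positivity)).trans ?_)
      apply Real.rpow_le_rpow (by positivity) _ hβ0.le
      have : η / 4 * x ≤ 1 * x := mul_le_mul_of_nonneg_right (by linarith only [hη1]) hxp.le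
      linarith only [h4, this]
    refine ⟨i.1, k4.one_lt.le, k6, i.2, k2, ?_⟩
    have g1 := hdev5 i.1 k4.one_lt.le k6 i.2 k2
    obtain ⟨hS1, hS2⟩ := Bmn_scale (W := W) (q := i.1) (β := 2 * β) (by positivity) (show 0 ≤ η / 4 by positivity) hxX h4
    have hB0 : 0 ≤ Bmn W (2 * β) x i.1 := Real.sqrt_nonneg _
    have g4 : (1 - 4 * η) * Bmn W (2 * β) x i.1 ≤ (1 - 4 * η) * Bmn W (2 * β) X i.1 :=
      mul_le_mul_of_nonneg_left hS1 (by linarith only [hη1])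
    have g7 := (abs_le.1 g1).1
    have g8 := le_abs_self (Dv A W x i.1 i.2 ω)
    linarith only [g4, g7, g8, h9]

end Pool.Agent.R528.RM
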