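import Mathlib
import Pool.Agent.R528.RM.ER
import Pool.Agent.R528.RM.Final

set_option autoImplicit false
set_option linter.unusedSectionVars false

/-! # Vectors of consecutive gaps -/

open MeasureTheory Filter Set
open scoped ENNReal Topology

namespace Pool.Agent.R528.RM

variable {Ω : Type} {m0 : MeasurableSpace Ω} {μ : Measure Ω} [IsProbabilityMeasure μ]
  {ℱ : Filtration ℕ m0} {A : ℕ → Set Ω}

/-- the prescribed pattern in the window -/
def MP (A : ℕ → Set Ω) (t j : ℕ) (Q : ℕ → Prop) : Set Ω := {ω | ∀ r < j, (ω ∈ A (t + 1 + r) ↔ Q r)}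

lemma MP_succ (t j : ℕ) (Q : ℕ → Prop) (ω : Ω) :
    ω ∈ MP A t (j + 1) Q ↔ (ω ∈ A (t + 1) ↔ Q 0) ∧ ω ∈ MP A (t + 1) j (fun r => Q (r + 1)) := by
  simp only [MP, mem_ofPred_eq]
  constructor
  · intro h
    refine ⟨h 0 (by omega), fun r hr => ?_⟩
    have := h (r + 1) (by omega)
    have e : t + 1 + (r + 1) = t + 1 + 1 + r := by ring
    rwa [e] at this
  · rintro ⟨h1, h2⟩ r hr
    rcases Nat.eq_zero_or_pos r with rfl | hr0
    · exact h1
    · obtain ⟨r', rfl⟩ : ∃ r', r = r' + 1 := ⟨r - 1, by omega⟩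
      have := h2 r' (by omega)
      have e : t + 1 + 1 + r' = t + 1 + (r' + 1) := by ring
      rwa [e] at this

lemma MP_zero (t : ℕ) (Q : ℕ → Prop) : MP A t 0 Q = univ := by
  ext ω
  simp [MP]

lemma MP_meas (hA : ∀ n, MeasurableSet[ℱ n] (A n)) (t j : ℕ) (Q : ℕ → Prop) :
    MeasurableSet[ℱ (t + j)] (MP A t j Q) := by
  classical
  induction j generalizing t Q with
  | zero => rw [MP_zero]; exact @MeasurableSet.univ _ (ℱ (t + 0))
  | succ j ih =>
    have e : t + 1 + j = t + (j + 1) := by ring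
    have hA1 : MeasurableSet[ℱ (t + (j + 1))] (A (t + 1)) := ℱ.mono (by omega) _ (hA (t + 1))
    have h1 := ih (t + 1) (fun r => Q (r + 1))
    rw [e] at h1
    by_cases hQ : Q 0
    · have : MP A t (j + 1) Q = A (t + 1) ∩ MP A (t + 1) j (fun r => Q (r + 1)) := by
        ext ω
        rw [MP_succ, mem_inter_iff]
        tauto
      rw [this]
      exact @MeasurableSet.inter _ (ℱ (t + (j + 1))) _ _ hA1 h1
    · have : MP A t (j + 1) Q = MP A (t + 1) j (fun r => Q (r + 1)) \ A (t + 1) := by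
        ext ω
        rw [MP_succ, Set.mem_sdiff]
        tauto
      rw [this]
      exact @MeasurableSet.diff _ (ℱ (t + (j + 1))) _ _ h1 hA1

open Classical in
/-- lower bound for the probability of a pattern or a violation -/
theorem MP_ge (hA : ∀ n, MeasurableSet[ℱ n] (A n)) {V : ℕ → Set Ω}
    (hV : ∀ n, MeasurableSet[ℱ n] (V n)) {l u : ℝ} (hl0 : 0 ≤ l) (hl1 : l ≤ 1) (hu0 : 0 ≤ u) (hu1 : u ≤ 1) (j : ℕ) :
    ∀ t, (∀ n, t ≤ n → n < t + j → ∀ ω, ω ∉ V n → l ≤ dens μ ℱ A n ω ∧ dens μ ℱ A n ω ≤ u) →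
      ∀ Q : ℕ → Prop, ∀ B, MeasurableSet[ℱ t] B → (∏ r ∈ Finset.range j, (if Q r then l else 1 - u)) * μ.real B ≤
        μ.real (B ∩ (MP A t j Q ∪ WV V t j)) := by
  have hpr : ∀ (Q : ℕ → Prop) (j : ℕ), 0 ≤ ∏ r ∈ Finset.range j, (if Q r then l else 1 - u) := by
    intro Q j
    apply Finset.prod_nonneg
    intro r _
    split_ifs <;> linarith
  have hpr1 : ∀ (Q : ℕ → Prop) (j : ℕ), ∏ r ∈ Finset.range j, (if Q r then l else 1 - u) ≤ 1 := by
    intro Q j
    apply Finset.prod_le_one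
    · intro r _
      split_ifs <;> linarith
    · intro r _
      split_ifs <;> linarith
  induction j with
  | zero =>
    intro t _ Q B _
    rw [MP_zero]
    simp
  | succ j ih =>
    intro t hbd Q B hB
    have hV0 : MeasurableSet (V t) := ℱ.le _ _ (hV t)
    have hA0 : MeasurableSet (A (t + 1)) := ℱ.le _ _ (hA _)
    have hBV : MeasurableSet[ℱ t] (B \ V t) := @MeasurableSet.diff _ (ℱ t) _ _ hB (hV t)
    have hC : MeasurableSet[ℱ (t + 1)] ((B \ V t) ∩ A (t + 1)) :=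
      @MeasurableSet.inter _ (ℱ (t + 1)) _ _ (ℱ.mono (Nat.le_succ t) _ hBV) (hA (t + 1))
    have hC' : MeasurableSet[ℱ (t + 1)] ((B \ V t) \ A (t + 1)) :=
      @MeasurableSet.diff _ (ℱ (t + 1)) _ _ (ℱ.mono (Nat.le_succ t) _ hBV) (hA (t + 1))
    have hbd' : ∀ n, t + 1 ≤ n → n < t + 1 + j → ∀ ω, ω ∉ V n → l ≤ dens μ ℱ A n ω ∧ dens μ ℱ A n ω ≤ u :=
      fun n h1 h2 => hbd n (by omega) (by omega)
    have hlow := lower_meas (μ := μ) hA t hBV (l := l) (fun ω hω => (hbd t le_rfl (by omega) ω hω.2).1)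
    have hupp := upper_meas (μ := μ) hA t hBV (u := u) (fun ω hω => (hbd t le_rfl (by omega) ω hω.2).2)
    have hsplit := measureReal_inter_add_sdiff (μ := μ) (s := B \ V t) hA0
    set X : Set Ω := B ∩ (MP A t (j + 1) Q ∪ WV V t (j + 1)) with hX
    have hXV : μ.real X = μ.real (X ∩ V t) + μ.real (X \ V t) :=
      (measureReal_inter_add_sdiff (μ := μ) (s := X) hV0).symm
    have e1 : X ∩ V t = B ∩ V t := by
      ext ω
      simp only [hX, WV_succ, mem_inter_iff, mem_union]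
      tauto
    have hBVs : μ.real B = μ.real (B ∩ V t) + μ.real (B \ V t) :=
      (measureReal_inter_add_sdiff (μ := μ) (s := B) hV0).symm
    have hBVn : 0 ≤ μ.real (B ∩ V t) := measureReal_nonneg
    have hq := hpr1 Q (j + 1)
    have hq' := hpr (fun r => Q (r + 1)) j
    have hV1 : (∏ r ∈ Finset.range (j + 1), (if Q r then l else 1 - u)) * μ.real (B ∩ V t) ≤ μ.real (B ∩ V t) := by
      nlinarith
    have hmain : (∏ r ∈ Finset.range (j + 1), (if Q r then l else 1 - u)) * μ.real (B \ V t) ≤ μ.real (X \ V t) := by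
      rw [Finset.prod_range_succ']
      by_cases hQ : Q 0
      · rw [if_pos hQ]
        have h1 := ih (t + 1) hbd' (fun r => Q (r + 1)) _ hC
        have h2 : ((B \ V t) ∩ A (t + 1)) ∩ (MP A (t + 1) j (fun r => Q (r + 1)) ∪ WV V (t + 1) j) ⊆ X \ V t := by
          rintro ω ⟨⟨⟨h3, h4⟩, h5⟩, h6⟩
          refine ⟨⟨h3, ?_⟩, h4⟩
          rcases h6 with h6 | h6
          · left
            rw [MP_succ]
            exact ⟨⟨fun _ => hQ, fun _ => h5⟩, h6⟩
          · right
            rw [WV_succ]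
            exact Or.inr h6
        have h3 : μ.real (((B \ V t) ∩ A (t + 1)) ∩ (MP A (t + 1) j (fun r => Q (r + 1)) ∪ WV V (t + 1) j)) ≤
            μ.real (X \ V t) := measureReal_mono h2 (measure_ne_top _ _)
        have h4 := mul_le_mul_of_nonneg_left hlow hq'
        calc (∏ r ∈ Finset.range j, (if Q (r + 1) then l else 1 - u)) * l * μ.real (B \ V t)
            = (∏ r ∈ Finset.range j, (if Q (r + 1) then l else 1 - u)) * (l * μ.real (B \ V t)) := by ring
          _ ≤ _ := h4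
          _ ≤ _ := h1
          _ ≤ _ := h3
      · rw [if_neg hQ]
        have h1 := ih (t + 1) hbd' (fun r => Q (r + 1)) _ hC'
        have h2 : ((B \ V t) \ A (t + 1)) ∩ (MP A (t + 1) j (fun r => Q (r + 1)) ∪ WV V (t + 1) j) ⊆ X \ V t := by
          rintro ω ⟨⟨⟨h3, h4⟩, h5⟩, h6⟩
          refine ⟨⟨h3, ?_⟩, h4⟩
          rcases h6 with h6 | h6
          · left
            rw [MP_succ]
            exact ⟨⟨fun h => absurd h h5, fun h => absurd h hQ⟩, h6⟩
          · right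
            rw [WV_succ]
            exact Or.inr h6
        have h3 : μ.real (((B \ V t) \ A (t + 1)) ∩ (MP A (t + 1) j (fun r => Q (r + 1)) ∪ WV V (t + 1) j)) ≤
            μ.real (X \ V t) := measureReal_mono h2 (measure_ne_top _ _)
        have h5 : (1 - u) * μ.real (B \ V t) ≤ μ.real ((B \ V t) \ A (t + 1)) := by linarith
        have h4 := mul_le_mul_of_nonneg_left h5 hq'
        calc (∏ r ∈ Finset.range j, (if Q (r + 1) then l else 1 - u)) * (1 - u) * μ.real (B \ V t)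
            = (∏ r ∈ Finset.range j, (if Q (r + 1) then l else 1 - u)) * ((1 - u) * μ.real (B \ V t)) := by ring
          _ ≤ _ := h4
          _ ≤ _ := h1
          _ ≤ _ := h3
    rw [hXV, e1, hBVs, mul_add]
    linarith

/-- the probability of a long run is at least `exp (-(1 - δ) L)` -/
lemma pow_run {c δ L u : ℝ} {H : ℕ} (hc0 : 0 < c) (hδ0 : 0 < δ) (hδ1 : δ ≤ 1 / 4) (hδ : c * (1 + 3 * δ) + δ < 1)
    (hL : 16 ≤ L) (hδL : 16 ≤ δ * L) (hH : (H : ℝ) ≤ c * L ^ 2) (hu : u = (1 + δ) / L) :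
    Real.exp (-((1 - δ) * L)) ≤ (1 - u) ^ H := by
  have hL0 : 0 < L := by linarith
  have hu0 : 0 < u := by rw [hu]; exact div_pos (by linarith) hL0
  have k5 : u * L = 1 + δ := by
    rw [hu]
    field_simp
  have hu4 : u ≤ 1 / 4 := by
    have : u * 16 ≤ u * L := mul_le_mul_of_nonneg_left hL hu0.le
    linarith
  have hpos : 0 < 1 - u := by linarith
  have k1 : 1 - (1 - u)⁻¹ ≤ Real.log (1 - u) := Real.one_sub_inv_le_log_of_pos hpos
  have k2 : (1 - u)⁻¹ ≤ 1 + u + 2 * u ^ 2 := by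
    rw [inv_le_iff_one_le_mul₀ hpos]
    nlinarith [mul_nonneg (sq_nonneg u) (show 0 ≤ 1 - 2 * u by linarith)]
  have k3 : -(u + 2 * u ^ 2) ≤ Real.log (1 - u) := by linarith
  have k4 : (1 - u) ^ H = Real.exp (H * Real.log (1 - u)) := by
    rw [Real.exp_nat_mul, Real.exp_log hpos]
  rw [k4]
  apply Real.exp_le_exp.2
  have k6 : 2 * u ^ 2 ≤ δ * u := by
    have h1 : 2 * u ≤ δ := by
      have h2 : 2 * u * L ≤ δ * L := by
        have : 2 * u * L = 2 * (1 + δ) := by rw [← k5]; ring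
        linarith
      exact le_of_mul_le_mul_right h2 hL0
    have h3 : 2 * u * u ≤ δ * u := mul_le_mul_of_nonneg_right h1 hu0.le
    calc 2 * u ^ 2 = 2 * u * u := by ring
      _ ≤ _ := h3
  have hup : 0 ≤ u + 2 * u ^ 2 := by positivity
  have k7 : (H : ℝ) * (u + 2 * u ^ 2) ≤ c * L ^ 2 * (u + 2 * u ^ 2) :=
    mul_le_mul_of_nonneg_right hH hup
  have k8 : c * L ^ 2 * (u + 2 * u ^ 2) ≤ c * L ^ 2 * ((1 + δ) * u) :=
    mul_le_mul_of_nonneg_left (by linarith) (by positivity)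
  have k9 : c * L ^ 2 * ((1 + δ) * u) = c * L * ((1 + δ) * (1 + δ)) := by
    calc c * L ^ 2 * ((1 + δ) * u) = c * L * ((1 + δ) * (u * L)) := by ring
      _ = _ := by rw [k5]
  have k10 : c * L * ((1 + δ) * (1 + δ)) ≤ (1 - δ) * L := by
    have k11 : c * ((1 + δ) * (1 + δ)) ≤ 1 - δ := by
      have k12 : (1 + δ) * (1 + δ) ≤ 1 + 3 * δ := by nlinarith
      have := mul_le_mul_of_nonneg_left k12 hc0.le
      linarith
    calc c * L * ((1 + δ) * (1 + δ)) = (c * ((1 + δ) * (1 + δ))) * L := by ring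
      _ ≤ (1 - δ) * L := mul_le_mul_of_nonneg_right k11 hL0.le
  have k11 : (H : ℝ) * -(u + 2 * u ^ 2) ≤ H * Real.log (1 - u) :=
    mul_le_mul_of_nonneg_left k3 (Nat.cast_nonneg _)
  linarith

/-- patterns with few members and length at most `c L²`, `c < 1`, occur infinitely often -/
theorem pattern_io (hA : ∀ n, MeasurableSet[ℱ n] (A n))
    (hd : ∀ᵐ ω ∂μ, Tendsto (fun n : ℕ => dens μ ℱ A n ω * Real.log n) atTop (𝓝 1))
    {c : ℝ} (hc0 : 0 < c) (hc : c < 1) (K : ℕ) (H : ℕ → ℕ) (Q : ℕ → ℕ → Prop)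
    (hH1 : ∀ᶠ i in atTop, 1 ≤ H i)
    (hH : ∀ᶠ i : ℕ in atTop, (H i : ℝ) ≤ c * ((i : ℝ) * Real.log 2) ^ 2)
    (hQ : ∀ i, ∀ S : Finset ℕ, (∀ r ∈ S, Q i r) → S.card ≤ K) :
    ∀ᵐ ω ∂μ, ∀ i₁ : ℕ, ∃ i, i₁ ≤ i ∧ ∃ t, 2 ^ i ≤ t ∧ t + H i ≤ 2 ^ (i + 1) ∧ ω ∈ MP A t (H i) (Q i) := by
  classical
  obtain ⟨hl20, hl21, hl22⟩ := log_two_facts
  obtain ⟨δ, hδ0, hδ1, hδ⟩ : ∃ δ : ℝ, 0 < δ ∧ δ ≤ 1 / 4 ∧ c * (1 + 3 * δ) + δ < 1 := by
    refine ⟨min (1 / 4) ((1 - c) / (2 * (3 * c + 1))), lt_min (by norm_num) (div_pos (by linarith) (by linarith)), min_le_left _ _, ?_⟩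
    have h1 : min (1 / 4) ((1 - c) / (2 * (3 * c + 1))) ≤ (1 - c) / (2 * (3 * c + 1)) := min_le_right _ _
    have h2 : (3 * c + 1) * min (1 / 4) ((1 - c) / (2 * (3 * c + 1))) ≤ (3 * c + 1) * ((1 - c) / (2 * (3 * c + 1))) :=
      mul_le_mul_of_nonneg_left h1 (by linarith)
    have h3 : (3 * c + 1) * ((1 - c) / (2 * (3 * c + 1))) = (1 - c) / 2 := by field_simp
    nlinarith
  set V := VF μ ℱ A δ with hV
  set L : ℕ → ℝ := fun i => (i : ℝ) * Real.log 2 with hL
  have hLt : Tendsto L atTop atTop := tendsto_iL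
  set l : ℕ → ℝ := fun i => (1 - δ) / (L i + 1) with hl
  set u : ℕ → ℝ := fun i => (1 + δ) / L i with hu
  -- the eventual facts
  have hreal : ∀ᶠ x : ℝ in atTop, 16 ≤ x ∧ 16 ≤ δ * x ∧
      2 * (c * x ^ 2) ≤ Real.exp x ∧ 1 ≤ Real.exp (δ * x) / (2 * x ^ 2) * ((1 / (4 * x)) ^ K) := by
    have h1 : ∀ᶠ x : ℝ in atTop, 2 * (c * x ^ 2) ≤ Real.exp x := by
      have := (Real.isLittleO_pow_exp_atTop (n := 2)).def (show (0 : ℝ) < 1 / (2 * c) by positivity)
      filter_upwards [this] with x hx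
      rw [Real.norm_of_nonneg (by positivity), Real.norm_of_nonneg (Real.exp_pos _).le] at hx
      calc 2 * (c * x ^ 2) = 2 * c * x ^ 2 := by ring
        _ ≤ 2 * c * (1 / (2 * c) * Real.exp x) := mul_le_mul_of_nonneg_left hx (by positivity)
        _ = Real.exp x := by field_simp
    have h2 : Tendsto (fun x : ℝ => Real.exp (δ * x) / x ^ (2 + K)) atTop atTop := by
      have h3 := (Real.tendsto_exp_div_pow_atTop (2 + K)).comp ((tendsto_id (α := ℝ) (x := atTop)).const_mul_atTop hδ0)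
      have h4 := h3.const_mul_atTop (show 0 < δ ^ (2 + K) by positivity)
      refine h4.congr' ?_
      filter_upwards [eventually_gt_atTop 0] with x hx
      simp only [Function.comp, id]
      rw [mul_pow]
      field_simp
    filter_upwards [eventually_ge_atTop 16, (tendsto_id.const_mul_atTop hδ0).eventually_ge_atTop 16, h1,
      h2.eventually_ge_atTop (2 * 4 ^ K)] with x h3 h4 h5 h6
    refine ⟨h3, h4, h5, ?_⟩
    have hx : 0 < x := by linarith
    have e : Real.exp (δ * x) / (2 * x ^ 2) * ((1 / (4 * x)) ^ K) = (Real.exp (δ * x) / x ^ (2 + K)) / (2 * 4 ^ K) := by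
      rw [div_pow, mul_pow, pow_add, one_pow]
      field_simp
    rw [e, one_le_div (by positivity)]
    exact h6
  obtain ⟨i₀, hi₀⟩ := eventually_atTop.1 ((hLt.eventually hreal).and (hH1.and hH))
  set M : ℕ → ℕ := fun i => 2 ^ i / H i with hM
  set D : ℕ → ℕ → Set Ω := fun i m => MP A (2 ^ i + H i * m) (H i) (Q i) ∪ WV V (2 ^ i + H i * m) (H i) with hD
  have hHM : ∀ i, i₀ ≤ i → H i * M i ≤ 2 ^ i := fun i _ => Nat.mul_div_le _ _
  have hblock : ∀ i, i₀ ≤ i → ∀ m, m < M i → 2 ^ i + H i * m + H i ≤ 2 ^ (i + 1) := by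
    intro i hi m hm
    have h1 : H i * m + H i ≤ 2 ^ i := by
      calc H i * m + H i = H i * (m + 1) := by ring
        _ ≤ H i * M i := Nat.mul_le_mul_left _ hm
        _ ≤ _ := hHM i hi
    have e : 2 ^ (i + 1) = 2 ^ i + 2 ^ i := by rw [pow_succ]; ring
    omega
  have hlu : ∀ i, i₀ ≤ i → 0 < l i ∧ l i ≤ 1 ∧ 0 < u i ∧ u i ≤ 1 / 4 ∧ 1 / (4 * L i) ≤ l i := by
    intro i hi
    obtain ⟨⟨h1, h2, h3, h4⟩, h5, h6⟩ := hi₀ i hi
    have hLi : 16 ≤ L i := h1
    refine ⟨div_pos (by linarith) (by linarith), ?_, div_pos (by linarith) (by linarith), ?_, ?_⟩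
    · simp only [hl]
      rw [div_le_one (by linarith)]
      linarith
    · simp only [hu]
      rw [div_le_iff₀ (by linarith)]
      linarith
    · simp only [hl]
      rw [div_le_div_iff₀ (by linarith) (by linarith)]
      nlinarith
  have hprob : ∀ i, i₀ ≤ i → l i ^ K * (1 - u i) ^ H i ≤ ∏ r ∈ Finset.range (H i), (if Q i r then l i else 1 - u i) := by
    intro i hi
    obtain ⟨h1, h2, h3, h4, h5⟩ := hlu i hi
    have h6 : ∀ r ∈ Finset.range (H i), (if Q i r then l i else 1) * (1 - u i) ≤ (if Q i r then l i else 1 - u i) := by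
      intro r _
      split_ifs
      · nlinarith
      · linarith
    have h7 : ∏ r ∈ Finset.range (H i), ((if Q i r then l i else 1) * (1 - u i)) ≤
        ∏ r ∈ Finset.range (H i), (if Q i r then l i else 1 - u i) := by
      apply Finset.prod_le_prod _ h6
      intro r _
      apply mul_nonneg _ (by linarith)
      split_ifs <;> linarith
    refine le_trans ?_ h7
    rw [Finset.prod_mul_distrib, Finset.prod_const, Finset.card_range]
    apply mul_le_mul_of_nonneg_right _ (pow_nonneg (by linarith) _)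
    rw [← Finset.prod_filter_mul_prod_filter_not (Finset.range (H i)) (fun r => Q i r)]
    have h8 : ∏ r ∈ (Finset.range (H i)).filter (fun r => ¬ Q i r), (if Q i r then l i else 1) = 1 := by
      apply Finset.prod_eq_one
      intro r hr
      rw [if_neg (Finset.mem_filter.1 hr).2]
    have h9 : ∏ r ∈ (Finset.range (H i)).filter (fun r => Q i r), (if Q i r then l i else 1) =
        l i ^ ((Finset.range (H i)).filter (fun r => Q i r)).card := by
      rw [← Finset.prod_const]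
      apply Finset.prod_congr rfl
      intro r hr
      rw [if_pos (Finset.mem_filter.1 hr).2]
    rw [h8, h9, mul_one]
    exact pow_le_pow_of_le_one h1.le h2 (hQ i _ fun r hr => (Finset.mem_filter.1 hr).2)
  have hmain := io_blocks (μ := μ) (ℱ := ℱ) (D := D) (H := H) (M := M) (i₀ := i₀) hHM
    (by
      intro i _ m _
      have e : 2 ^ i + H i * (m + 1) = 2 ^ i + H i * m + H i := by ring
      rw [e]
      exact @MeasurableSet.union _ (ℱ (2 ^ i + H i * m + H i)) _ _ (MP_meas hA _ _ _) (WV_meas (fun n => VF_meas δ n) _ _))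
    (fun i => l i ^ K * (1 - u i) ^ H i)
    (by
      intro i hi m hm C hC
      obtain ⟨⟨h1, h2, h3, h4⟩, h5, h6⟩ := hi₀ i hi
      obtain ⟨g1, g2, g3, g4, g5⟩ := hlu i hi
      have hLi : 16 ≤ L i := h1
      have hge := MP_ge (μ := μ) hA (V := V) (fun n => VF_meas δ n) g1.le g2 g3.le (by linarith) (H i) (2 ^ i + H i * m) (by
        intro n hn1 hn2 ω hω
        have hb := hblock i hi m hm
        obtain ⟨b1, b2⟩ := log_dyadic (i := i) (n := n) (by omega) (by omega)
        exact VF_bounds (by linarith) (by linarith) b1 b2 hω) (Q i) C hC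
      exact (mul_le_mul_of_nonneg_right (hprob i hi) measureReal_nonneg).trans hge)
    (by
      intro i hi
      obtain ⟨⟨h1, h2, h3, h4⟩, h5, h6⟩ := hi₀ i hi
      obtain ⟨g1, g2, g3, g4, g5⟩ := hlu i hi
      have hLi : 16 ≤ L i := h1
      have hδL : 16 ≤ δ * L i := h2
      have h3' : 2 * (c * L i ^ 2) ≤ Real.exp (L i) := h3
      have h4' : 1 ≤ Real.exp (δ * L i) / (2 * L i ^ 2) * ((1 / (4 * L i)) ^ K) := h4
      have h6' : (H i : ℝ) ≤ c * L i ^ 2 := h6
      have hHpos : (0 : ℝ) < H i := by exact_mod_cast h5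
      have hMge : Real.exp (L i) / (2 * L i ^ 2) ≤ M i := by
        have e : Real.exp (L i) = (2 : ℝ) ^ i := (pow_two_exp i).symm
        have h8 : 2 ^ i < H i * (M i + 1) := Nat.lt_mul_div_succ (2 ^ i) (by omega)
        have h9 : (2 : ℝ) ^ i < H i * (M i + 1) := by exact_mod_cast h8
        have h10 : (2 : ℝ) * H i ≤ 2 ^ i := by rw [← e]; linarith
        have h11 : Real.exp (L i) / (2 * H i) ≤ M i := by
          rw [e, div_le_iff₀ (by positivity)]
          nlinarith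
        refine le_trans ?_ h11
        apply div_le_div_of_nonneg_left (Real.exp_pos _).le (by positivity)
        nlinarith
      -- `(1 - u)^H ≥ exp (- (1 - δ) L)`
      have hpow : Real.exp (-((1 - δ) * L i)) ≤ (1 - u i) ^ H i :=
        pow_run hc0 hδ0 hδ1 hδ hLi hδL h6' rfl
      have hlK : (1 / (4 * L i)) ^ K ≤ l i ^ K := pow_le_pow_left₀ (by positivity) g5 K
      calc (1 : ℝ) ≤ Real.exp (δ * L i) / (2 * L i ^ 2) * ((1 / (4 * L i)) ^ K) := h4'
        _ = Real.exp (L i) / (2 * L i ^ 2) * ((1 / (4 * L i)) ^ K * Real.exp (-((1 - δ) * L i))) := by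
          have : Real.exp (δ * L i) = Real.exp (L i) * Real.exp (-((1 - δ) * L i)) := by
            rw [← Real.exp_add]; congr 1; ring
          rw [this]; ring
        _ ≤ M i * (l i ^ K * (1 - u i) ^ H i) := by
          apply mul_le_mul hMge (mul_le_mul hlK hpow (Real.exp_pos _).le (pow_nonneg g1.le _)) (by positivity)
            (Nat.cast_nonneg _))
  filter_upwards [hmain, hd] with ω h1 h2 i₁
  obtain ⟨n₀, hn₀⟩ := no_VF h2 hδ0
  obtain ⟨i, hi, hii, m, hm, hDm⟩ := h1 (max i₁ n₀)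
  refine ⟨i, (le_max_left _ _).trans hi, 2 ^ i + H i * m, Nat.le_add_right _ _, hblock i hii m hm, ?_⟩
  rcases hDm with h3 | ⟨n, hn1, _, hn3⟩
  · exact h3
  · exfalso
    refine hn₀ n ?_ hn3
    have h4 : i < 2 ^ i := Nat.lt_two_pow_self
    have h5 : n₀ ≤ i := (le_max_right _ _).trans hi
    omega

end Pool.Agent.R528.RM
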