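import Mathlib
import Pool.Agent.R528.RM.GapVec
import Pool.Agent.R528.RM.ERFinal

set_option autoImplicit false
set_option linter.unusedSectionVars false

/-! # The limit points of the vectors of consecutive gaps -/

open MeasureTheory Filter Set
open scoped ENNReal Topology

namespace Pool.Agent.R528.RM

variable {Ω : Type} {m0 : MeasurableSpace Ω} {μ : Measure Ω} [IsProbabilityMeasure μ]
  {ℱ : Filtration ℕ m0} {A : ℕ → Set Ω}

/-- the vector of `k` consecutive gaps starting at the member number `n`, divided by the squared logarithm -/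
noncomputable def gvec (S : Set ℕ) (k n : ℕ) : Fin k → ℝ := fun i =>
  ((pn S (n + i + 1) : ℝ) - pn S (n + i)) / Real.log (pn S n) ^ 2

lemma next_member {S : Set ℕ} (hS : S.Infinite) {m x y : ℕ} (hx : pn S m = x) (hxy : x < y) (hy : y ∈ S)
    (hno : ∀ z, x < z → z < y → z ∉ S) : pn S (m + 1) = y := by
  obtain ⟨m', hm'⟩ := exists_nth hy
  have h1 : m < m' := by
    rw [← (nth_mono hS).lt_iff_lt, hx, hm']
    exact hxy
  rcases Nat.lt_or_ge (m + 1) m' with h2 | h2
  · exfalso
    have h3 : pn S (m + 1) < y := by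
      rw [← hm']
      exact nth_mono hS h2
    have h4 : x < pn S (m + 1) := by
      rw [← hx]
      exact nth_mono hS (Nat.lt_succ_self m)
    exact hno _ h4 h3 (nth_mem hS _)
  · have : m' = m + 1 := by omega
    rw [← this, hm']

lemma pattern_gap {ω : Ω} (hS : (rset A ω).Infinite) {k t : ℕ} {a : ℕ → ℕ} (ha : StrictMono a)
    (h : ω ∈ MP A t (a k + 1) (fun r => ∃ j, j ≤ k ∧ r = a j)) :
    ∃ n, ∀ j, j ≤ k → pn (rset A ω) (n + j) = t + 1 + a j := by
  have hmem : ∀ j, j ≤ k → t + 1 + a j ∈ rset A ω := by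
    intro j hj
    have h1 := ha.monotone hj
    exact (h (a j) (by omega)).2 ⟨j, hj, rfl⟩
  obtain ⟨n, hn⟩ := exists_nth (hmem 0 (Nat.zero_le _))
  refine ⟨n, fun j => ?_⟩
  induction j with
  | zero =>
    intro _
    exact hn
  | succ j ih =>
    intro hj
    have h1 := ih (by omega)
    have h2 := ha (Nat.lt_succ_self j)
    simp only [Nat.succ_eq_add_one] at h2
    refine next_member hS h1 (by omega) (hmem _ hj) ?_
    intro z hz1 hz2 hz
    obtain ⟨r, rfl⟩ : ∃ r, z = t + 1 + r := ⟨z - (t + 1), by omega⟩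
    have h3 := ha.monotone hj
    obtain ⟨j', _, hj'⟩ := (h r (by omega)).1 hz
    rw [hj'] at hz1 hz2
    have h4 : a j < a j' := by omega
    have h5 : a j' < a (j + 1) := by omega
    rw [ha.lt_iff_lt] at h4 h5
    omega

lemma cnt_next {ω : Ω} (hS : (rset A ω).Infinite) {k n j : ℕ} (hk : 1 ≤ k)
    (h : k ≤ cnt A (pn (rset A ω) n) j ω) : pn (rset A ω) (n + k) ≤ pn (rset A ω) n + j := by
  classical
  by_contra hcon
  push Not at hcon
  rw [cnt_eq_ncard] at h
  set S := rset A ω with hSd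
  have h1 : {a : ℕ | ω ∈ A a ∧ pn S n < a ∧ a ≤ pn S n + j} ⊆
      ((Finset.Ioo n (n + k)).image (pn S) : Finset ℕ) := by
    rintro a ⟨ha, ha1, ha2⟩
    obtain ⟨m, hm⟩ := exists_nth (S := S) (show a ∈ S from ha)
    rw [Finset.coe_image, mem_image]
    refine ⟨m, ?_, hm⟩
    rw [Finset.mem_coe, Finset.mem_Ioo]
    constructor
    · rw [← (nth_mono hS).lt_iff_lt, hm]
      exact ha1
    · rw [← (nth_mono hS).lt_iff_lt, hm]
      exact lt_of_le_of_lt ha2 hcon
  have h2 := Set.ncard_le_ncard h1 (Finset.finite_toSet _)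
  rw [Set.ncard_coe_finset] at h2
  have h3 : ((Finset.Ioo n (n + k)).image (pn S)).card ≤ k - 1 := by
    refine Finset.card_image_le.trans ?_
    rw [Nat.card_Ioo]
    omega
  omega

/-- upper bound for the sum of consecutive gaps -/
theorem gapvec_ev (hA : ∀ n, MeasurableSet[ℱ n] (A n))
    (hd : ∀ᵐ ω ∂μ, Tendsto (fun n : ℕ => dens μ ℱ A n ω * Real.log n) atTop (𝓝 1)) :
    ∀ᵐ ω ∂μ, (rset A ω).Infinite ∧ ∀ k : ℕ, ∀ ε : ℝ, 0 < ε →
      ∀ᶠ n in atTop, (pn (rset A ω) (n + k) : ℝ) - pn (rset A ω) n ≤ (1 + ε) * Real.log (pn (rset A ω) n) ^ 2 := by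
  have h1 : ∀ m : ℕ, ∀ᵐ ω ∂μ, ∃ s : ℝ, 0 < s ∧
      ∀ᶠ x : ℕ in atTop, s * (1 + 1 / ((m : ℝ) + 1)) * Real.log x < cnt A x (wl (1 + 1 / ((m : ℝ) + 1)) x) ω := by
    intro m
    have hm : 0 < 1 / ((m : ℝ) + 1) := by positivity
    have h2 : ∀ᶠ s : ℝ in 𝓝[>] 0, 1 < (1 + 1 / ((m : ℝ) + 1)) * II s := by
      apply nhdsWithin_le_nhds
      have hcont : ContinuousAt (fun s : ℝ => (1 + 1 / ((m : ℝ) + 1)) * II s) 0 := by
        have h5 : Continuous II := by
          unfold II
          exact (Real.continuous_mul_log.sub continuous_id).add continuous_const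
        exact (continuous_const.mul h5).continuousAt
      apply hcont.eventually
      apply eventually_gt_nhds
      simp [II]
      positivity
    have h3 : ∀ᶠ s : ℝ in 𝓝[>] 0, s < 1 := nhdsWithin_le_nhds (eventually_lt_nhds (by norm_num))
    have h3' : ∀ᶠ s : ℝ in 𝓝[>] 0, 0 < s := eventually_mem_nhdsWithin
    obtain ⟨s, hs1, hs2, hs3⟩ := (h2.and (h3'.and h3)).exists
    have h4 := er_lower_ev (μ := μ) hA hd (show 0 < 1 + 1 / ((m : ℝ) + 1) by positivity) hs2 hs3 hs1
    filter_upwards [h4] with ω h4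
    exact ⟨s, hs2, h4⟩
  filter_upwards [ae_all_iff.2 h1] with ω h1
  have hinf : (rset A ω).Infinite := by
    apply infinite_of
    intro K
    obtain ⟨s, hs, h2⟩ := h1 0
    obtain ⟨x, hx1, hx2, hx3⟩ := (h2.and ((eventually_ge_atTop K).and (tendsto_log.eventually_gt_atTop 0))).exists
    have h4 : (0 : ℝ) < cnt A x (wl (1 + 1 / (((0 : ℕ) : ℝ) + 1)) x) ω := lt_trans (by positivity) hx1
    have h5 : cnt A x (wl (1 + 1 / (((0 : ℕ) : ℝ) + 1)) x) ω ≠ 0 := by
      intro h
      rw [h] at h4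
      simp at h4
    rw [cnt_eq_ncard] at h5
    obtain ⟨a, ha⟩ := Set.nonempty_of_ncard_ne_zero h5
    exact ⟨a, by have := ha.2.1; omega, ha.1⟩
  refine ⟨hinf, fun k ε hε => ?_⟩
  rcases Nat.eq_zero_or_pos k with rfl | hk
  · refine Eventually.of_forall fun n => ?_
    simp only [add_zero, sub_self]
    positivity
  obtain ⟨m, hm⟩ := exists_nat_one_div_lt hε
  obtain ⟨s, hs, h2⟩ := h1 m
  have hlam : 0 < 1 + 1 / ((m : ℝ) + 1) := by positivity
  have h3 : ∀ᶠ x : ℕ in atTop, (k : ℝ) ≤ s * (1 + 1 / ((m : ℝ) + 1)) * Real.log x :=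
    (tendsto_log.const_mul_atTop (show 0 < s * (1 + 1 / ((m : ℝ) + 1)) by positivity)).eventually_ge_atTop _
  filter_upwards [(tendsto_nth hinf).eventually (h2.and h3)] with n hn
  obtain ⟨hn1, hn2⟩ := hn
  have h4 : k ≤ cnt A (pn (rset A ω) n) (wl (1 + 1 / ((m : ℝ) + 1)) (pn (rset A ω) n)) ω := by
    have : (k : ℝ) < cnt A (pn (rset A ω) n) (wl (1 + 1 / ((m : ℝ) + 1)) (pn (rset A ω) n)) ω :=
      lt_of_le_of_lt hn2 hn1
    exact_mod_cast this.le
  have h5 := cnt_next hinf hk h4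
  have h6 : (pn (rset A ω) (n + k) : ℝ) ≤ pn (rset A ω) n + (wl (1 + 1 / ((m : ℝ) + 1)) (pn (rset A ω) n) : ℕ) := by
    exact_mod_cast h5
  have h7 : ((wl (1 + 1 / ((m : ℝ) + 1)) (pn (rset A ω) n) : ℕ) : ℝ) ≤
      (1 + 1 / ((m : ℝ) + 1)) * Real.log (pn (rset A ω) n) ^ 2 := Nat.floor_le (by positivity)
  have h8 : (1 + 1 / ((m : ℝ) + 1)) * Real.log (pn (rset A ω) n) ^ 2 ≤ (1 + ε) * Real.log (pn (rset A ω) n) ^ 2 :=
    mul_le_mul_of_nonneg_right (by linarith) (sq_nonneg _)
  linarith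

/-- the estimate for a single normalized gap -/
lemma gap_close {q L l : ℝ} {r : ℕ} (hq0 : 0 < q) (hq1 : q < 1) (hL : 1 ≤ L) (h1 : L ≤ l) (h2 : l ≤ L + 1)
    (hr : r = ⌊q * L ^ 2⌋₊ + 1) : |(r : ℝ) / l ^ 2 - q| ≤ 3 / L := by
  have h3 : (r : ℝ) ≤ q * L ^ 2 + 1 := by
    rw [hr]
    push_cast
    have := Nat.floor_le (show 0 ≤ q * L ^ 2 by positivity)
    linarith
  have h4 : q * L ^ 2 ≤ r := by
    rw [hr]
    push_cast
    exact (Nat.lt_floor_add_one _).le
  have hl : 0 < l := by linarith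
  have hL0 : 0 < L := by linarith
  have h5 : (r : ℝ) / l ^ 2 ≤ q + 3 / L := by
    rw [div_le_iff₀ (by positivity)]
    have h6 : L ^ 2 ≤ l ^ 2 := by nlinarith
    have h7 : q * L ^ 2 ≤ q * l ^ 2 := mul_le_mul_of_nonneg_left h6 hq0.le
    have h8 : 1 ≤ 3 / L * l ^ 2 := by
      rw [div_mul_eq_mul_div, le_div_iff₀ hL0]
      nlinarith
    nlinarith
  have h6 : q - 3 / L ≤ (r : ℝ) / l ^ 2 := by
    rw [le_div_iff₀ (by positivity)]
    have h7 : q * l ^ 2 ≤ q * (L + 1) ^ 2 := mul_le_mul_of_nonneg_left (by nlinarith) hq0.le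
    have h8 : 3 * L ≤ 3 / L * l ^ 2 := by
      rw [div_mul_eq_mul_div, le_div_iff₀ hL0]
      nlinarith
    have h9 : q * (2 * L + 1) ≤ 3 * L := by nlinarith
    nlinarith
  rw [abs_le]
  constructor <;> linarith

/-- every rational vector in the open simplex is a cluster point -/
theorem gapvec_io (hA : ∀ n, MeasurableSet[ℱ n] (A n))
    (hd : ∀ᵐ ω ∂μ, Tendsto (fun n : ℕ => dens μ ℱ A n ω * Real.log n) atTop (𝓝 1))
    {k : ℕ} (q : Fin k → ℚ) (hq : ∀ i, 0 < q i) (hs : ∑ i, q i < 1) :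
    ∀ᵐ ω ∂μ, (rset A ω).Infinite →
      MapClusterPt (fun i => (q i : ℝ)) atTop (gvec (rset A ω) k) := by
  classical
  obtain ⟨hl20, hl21, hl22⟩ := log_two_facts
  set q' : ℕ → ℝ := fun j => if h : j < k then (q ⟨j, h⟩ : ℝ) else 0 with hq'
  have hq'0 : ∀ j, 0 ≤ q' j := by
    intro j
    simp only [hq']
    split_ifs with h
    · exact_mod_cast (hq ⟨j, h⟩).le
    · exact le_rfl
  have hsum : ∑ j ∈ Finset.range k, q' j = ((∑ i, q i : ℚ) : ℝ) := by
    rw [← Fin.sum_univ_eq_sum_range]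
    push_cast
    apply Finset.sum_congr rfl
    intro i _
    simp only [hq', i.2, dif_pos]
  set σ : ℝ := ((∑ i, q i : ℚ) : ℝ) with hσ
  have hσ1 : σ < 1 := by
    rw [hσ]
    exact_mod_cast hs
  have hσ0 : 0 ≤ σ := by
    rw [← hsum]
    exact Finset.sum_nonneg fun j _ => hq'0 j
  set L : ℕ → ℝ := fun i => (i : ℝ) * Real.log 2 with hL
  have hLt : Tendsto L atTop atTop := tendsto_iL
  set r : ℕ → ℕ → ℕ := fun i j => ⌊q' j * L i ^ 2⌋₊ + 1 with hr
  set a : ℕ → ℕ → ℕ := fun i j => ∑ l ∈ Finset.range j, r i l with ha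
  have ham : ∀ i, StrictMono (a i) := by
    intro i
    apply strictMono_nat_of_lt_succ
    intro j
    simp only [ha, Finset.sum_range_succ, hr]
    omega
  have hio := pattern_io (μ := μ) hA hd (c := (1 + σ) / 2) (by linarith) (by linarith) (k + 1)
    (fun i => a i k + 1) (fun i r => ∃ j, j ≤ k ∧ r = a i j) (Eventually.of_forall fun i => by omega)
    (by
      have h1 : ∀ᶠ x : ℝ in atTop, (k : ℝ) + 1 ≤ (1 - σ) / 2 * x ^ 2 :=
        ((tendsto_pow_atTop (by norm_num)).const_mul_atTop (by linarith)).eventually_ge_atTop _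
      filter_upwards [hLt.eventually h1] with i hi
      have h2 : (a i k : ℝ) ≤ ∑ j ∈ Finset.range k, (q' j * L i ^ 2 + 1) := by
        simp only [ha]
        push_cast
        apply Finset.sum_le_sum
        intro j _
        simp only [hr]
        push_cast
        have := Nat.floor_le (show 0 ≤ q' j * L i ^ 2 from mul_nonneg (hq'0 j) (sq_nonneg _))
        linarith
      rw [Finset.sum_add_distrib, ← Finset.sum_mul, hsum] at h2
      simp only [Finset.sum_const, Finset.card_range, nsmul_eq_mul, mul_one] at h2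
      push_cast
      show (a i k : ℝ) + 1 ≤ (1 + σ) / 2 * L i ^ 2
      linarith)
    (by
      intro i S hS
      have h1 : S ⊆ (Finset.range (k + 1)).image (a i) := by
        intro x hx
        obtain ⟨j, hj, rfl⟩ := hS x hx
        exact Finset.mem_image.2 ⟨j, Finset.mem_range.2 (by omega), rfl⟩
      refine (Finset.card_le_card h1).trans ?_
      refine Finset.card_image_le.trans ?_
      rw [Finset.card_range])
  filter_upwards [hio] with ω hω hinf
  rw [mapClusterPt_iff_frequently]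
  intro s hsn
  obtain ⟨ε, hε, hball⟩ := Metric.mem_nhds_iff.1 hsn
  rw [frequently_atTop]
  intro N
  have hev : ∀ᶠ i : ℕ in atTop, 1 ≤ L i ∧ 3 / L i < ε ∧ pn (rset A ω) N ≤ i := by
    refine (hLt.eventually_ge_atTop 1).and (Eventually.and ?_ (eventually_ge_atTop _))
    have h1 : Tendsto (fun i => 3 / L i) atTop (𝓝 0) := hLt.const_div_atTop 3
    exact h1.eventually (gt_mem_nhds hε)
  obtain ⟨i₁, hi₁⟩ := eventually_atTop.1 hev
  obtain ⟨i, hi, t, ht1, ht2, hM⟩ := hω i₁
  obtain ⟨hi1, hi2, hi3⟩ := hi₁ i hi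
  obtain ⟨n, hn⟩ := pattern_gap hinf (ham i) hM
  have hn0 : pn (rset A ω) n = t + 1 := by
    have := hn 0 (Nat.zero_le _)
    simpa [ha] using this
  refine ⟨n, ?_, hball ?_⟩
  · have h1 : i < 2 ^ i := Nat.lt_two_pow_self
    have h2 : pn (rset A ω) N ≤ pn (rset A ω) n := by omega
    exact (nth_mono hinf).le_iff_le.1 h2
  · rw [Metric.mem_ball, dist_pi_lt_iff hε]
    intro j
    have hj := j.2
    have h1 := hn (j + 1) (by omega)
    have h2 := hn j (by omega)
    have h3 : a i (j + 1) = a i j + r i j := by simp only [ha, Finset.sum_range_succ]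
    have h4 : gvec (rset A ω) k n j = (r i j : ℝ) / Real.log ((t : ℝ) + 1) ^ 2 := by
      unfold gvec
      rw [show n + (j : ℕ) + 1 = n + (j + 1) by ring, h1, h2, h3, hn0]
      push_cast
      congr 1
      ring
    have h5 : q' j = (q j : ℝ) := by
      simp only [hq', hj, dif_pos]
    have h6 : (q j : ℝ) < 1 := by
      have h7 : q j ≤ ∑ i, q i := Finset.single_le_sum (f := q) (fun i _ => (hq i).le) (Finset.mem_univ j)
      exact_mod_cast lt_of_le_of_lt h7 hs
    have h7 : (0 : ℝ) < q j := by exact_mod_cast hq j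
    obtain ⟨b1, b2⟩ := log_dyadic (i := i) (n := t) (by omega) (by omega)
    have ht0 : (0 : ℝ) < t := by
      have : 0 < 2 ^ i := by positivity
      exact_mod_cast lt_of_lt_of_le this ht1
    have b3 : L i ≤ Real.log ((t : ℝ) + 1) := b1.trans (Real.log_le_log ht0 (by linarith))
    have b4 : Real.log ((t : ℝ) + 1) ≤ L i + 1 := by
      have h8 : (t : ℝ) + 1 ≤ 2 ^ (i + 1) := by exact_mod_cast (show t + 1 ≤ 2 ^ (i + 1) by omega)
      have h9 := Real.log_le_log (by linarith) h8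
      rw [Real.log_pow] at h9
      push_cast at h9
      simp only [hL]
      linarith
    have h8 := gap_close h7 h6 hi1 b3 b4 (r := r i j) (by simp only [hr, h5])
    rw [h4, Real.dist_eq]
    exact lt_of_le_of_lt h8 hi2

/-- **the limit points of the vectors of consecutive gaps** -/
theorem gapvec (hA : ∀ n, MeasurableSet[ℱ n] (A n))
    (hd : ∀ᵐ ω ∂μ, Tendsto (fun n : ℕ => dens μ ℱ A n ω * Real.log n) atTop (𝓝 1)) :
    ∀ᵐ ω ∂μ, (rset A ω).Infinite ∧ ∀ (k : ℕ) (x : Fin k → ℝ),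
      MapClusterPt x atTop (gvec (rset A ω) k) ↔ (∀ i, 0 ≤ x i) ∧ ∑ i, x i ≤ 1 := by
  have h1 : ∀ k : ℕ, ∀ q : Fin k → ℚ, ∀ᵐ ω ∂μ, (∀ i, 0 < q i) → ∑ i, q i < 1 → (rset A ω).Infinite →
      MapClusterPt (fun i => (q i : ℝ)) atTop (gvec (rset A ω) k) := by
    intro k q
    by_cases hq : (∀ i, 0 < q i) ∧ ∑ i, q i < 1
    · filter_upwards [gapvec_io (μ := μ) hA hd q hq.1 hq.2] with ω h _ _ h3
      exact h h3
    · exact Eventually.of_forall fun ω h2 h3 => absurd ⟨h2, h3⟩ hq
  have h2 : ∀ᵐ ω ∂μ, ∀ k : ℕ, ∀ q : Fin k → ℚ, (∀ i, 0 < q i) → ∑ i, q i < 1 → (rset A ω).Infinite →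
      MapClusterPt (fun i => (q i : ℝ)) atTop (gvec (rset A ω) k) :=
    ae_all_iff.2 fun k => ae_all_iff.2 (h1 k)
  filter_upwards [h2, gapvec_ev (μ := μ) hA hd] with ω h2 h3
  obtain ⟨hinf, h3⟩ := h3
  refine ⟨hinf, fun k x => ⟨fun hx => ?_, fun hx => ?_⟩⟩
  · constructor
    · intro i
      have hcl : IsClosed {y : Fin k → ℝ | 0 ≤ y i} := isClosed_le continuous_const (continuous_apply i)
      by_contra hcon
      have h4 : {y : Fin k → ℝ | 0 ≤ y i}ᶜ ∈ 𝓝 x := hcl.isOpen_compl.mem_nhds hcon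
      obtain ⟨n, hn⟩ := (mapClusterPt_iff_frequently.1 hx _ h4).exists
      apply hn
      show 0 ≤ gvec (rset A ω) k n i
      unfold gvec
      apply div_nonneg _ (sq_nonneg _)
      have := (nth_mono hinf).monotone (Nat.le_succ (n + i))
      have : (pn (rset A ω) (n + i) : ℝ) ≤ pn (rset A ω) (n + i + 1) := by exact_mod_cast this
      linarith
    · apply le_of_forall_pos_le_add
      intro ε hε
      have hcl : IsClosed {y : Fin k → ℝ | ∑ i, y i ≤ 1 + ε} :=
        isClosed_le (continuous_finsetSum _ fun i _ => continuous_apply i) continuous_const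
      by_contra hcon
      have h4 : {y : Fin k → ℝ | ∑ i, y i ≤ 1 + ε}ᶜ ∈ 𝓝 x := hcl.isOpen_compl.mem_nhds hcon
      obtain ⟨n, hn, hn1, hn2⟩ := ((mapClusterPt_iff_frequently.1 hx _ h4).and_eventually
        ((h3 k ε hε).and ((tendsto_log.comp (tendsto_nth hinf)).eventually_gt_atTop 0))).exists
      apply hn
      show ∑ i, gvec (rset A ω) k n i ≤ 1 + ε
      unfold gvec
      rw [← Finset.sum_div]
      have h5 : ∑ i : Fin k, ((pn (rset A ω) (n + i + 1) : ℝ) - pn (rset A ω) (n + i)) =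
          (pn (rset A ω) (n + k) : ℝ) - pn (rset A ω) n := by
        rw [Fin.sum_univ_eq_sum_range (fun i => (pn (rset A ω) (n + i + 1) : ℝ) - pn (rset A ω) (n + i)) k]
        have := Finset.sum_range_sub (fun i => (pn (rset A ω) (n + i) : ℝ)) k
        simpa [add_assoc] using this
      have hn2 : 0 < Real.log (pn (rset A ω) n) := hn2
      rw [h5, div_le_iff₀ (by positivity)]
      exact hn1
  · obtain ⟨hx0, hx1⟩ := hx
    have hclosed : IsClosed {y : Fin k → ℝ | MapClusterPt y atTop (gvec (rset A ω) k)} :=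
      isClosed_setOfPred_clusterPt
    have hmem : x ∈ closure {y : Fin k → ℝ | MapClusterPt y atTop (gvec (rset A ω) k)} := by
      rw [Metric.mem_closure_iff]
      intro ε hε
      -- the approximating rational vector
      set t : ℝ := min (1 / 2) (ε / 4) with ht
      have ht0 : 0 < t := lt_min (by norm_num) (by positivity)
      have ht1 : t ≤ 1 / 2 := min_le_left _ _
      have ht2 : t ≤ ε / 4 := min_le_right _ _
      have hk0 : (0 : ℝ) < 2 * ((k : ℝ) + 1) := by positivity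
      set z : Fin k → ℝ := fun i => (1 - t) * x i + t / (2 * ((k : ℝ) + 1)) with hz
      have hz0 : ∀ i, 0 < z i := by
        intro i
        have h4 : 0 ≤ (1 - t) * x i := mul_nonneg (by linarith) (hx0 i)
        have h5 : 0 < t / (2 * ((k : ℝ) + 1)) := by positivity
        simp only [hz]
        linarith
      have hq : ∀ i, ∃ q : ℚ, max 0 (z i - ε / 4) < (q : ℝ) ∧ (q : ℝ) < z i := by
        intro i
        exact exists_rat_btwn (max_lt (hz0 i) (by linarith))
      choose q hq1 hq2 using hq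
      have hsz : ∑ i, z i < 1 := by
        simp only [hz]
        rw [Finset.sum_add_distrib, ← Finset.mul_sum, Finset.sum_const, Finset.card_univ, Fintype.card_fin, nsmul_eq_mul]
        have h4 : (1 - t) * ∑ i, x i ≤ (1 - t) * 1 := mul_le_mul_of_nonneg_left hx1 (by linarith)
        have h5 : (k : ℝ) * (t / (2 * ((k : ℝ) + 1))) ≤ t / 2 := by
          rw [mul_div_assoc', div_le_div_iff₀ hk0 (by norm_num)]
          nlinarith
        linarith
      have hqs : ∑ i, q i < 1 := by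
        have h4 : ∑ i, (q i : ℝ) ≤ ∑ i, z i := Finset.sum_le_sum fun i _ => (hq2 i).le
        have h5 : ((∑ i, q i : ℚ) : ℝ) < 1 := by
          push_cast
          linarith
        exact_mod_cast h5
      have hq0 : ∀ i, 0 < q i := by
        intro i
        have := lt_of_le_of_lt (le_max_left _ _) (hq1 i)
        exact_mod_cast this
      refine ⟨fun i => (q i : ℝ), h2 k q hq0 hqs hinf, ?_⟩
      rw [dist_pi_lt_iff hε]
      intro i
      have hxi : x i ≤ 1 := (Finset.single_le_sum (f := x) (fun i _ => hx0 i) (Finset.mem_univ i)).trans hx1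
      have h4 : z i - ε / 4 < q i := lt_of_le_of_lt (le_max_right _ _) (hq1 i)
      have h5 := hq2 i
      have h6 : |z i - x i| ≤ ε / 4 := by
        have h7 : z i - x i = t / (2 * ((k : ℝ) + 1)) - t * x i := by simp only [hz]; ring
        have h8 : t / (2 * ((k : ℝ) + 1)) ≤ t := by
          rw [div_le_iff₀ hk0]
          have : (0 : ℝ) ≤ k := Nat.cast_nonneg _
          nlinarith
        have h9 : 0 ≤ t / (2 * ((k : ℝ) + 1)) := by positivity
        have h10 : t * x i ≤ t := by nlinarith [hx0 i]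
        have h11 : 0 ≤ t * x i := mul_nonneg ht0.le (hx0 i)
        rw [h7, abs_le]
        constructor <;> linarith
      rw [abs_le] at h6
      rw [Real.dist_eq, abs_lt]
      constructor <;> linarith
    rw [hclosed.closure_eq] at hmem
    exact hmem

end Pool.Agent.R528.RM
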