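import Mathlib
import Pool.Agent.R528.RM.Basic

set_option autoImplicit false
set_option linter.unusedSectionVars false

/-! # The Hawkins random sieve: conditional densities -/

open MeasureTheory Filter Set ProbabilityTheory
open scoped ENNReal Topology

namespace Pool.Agent.R528.RM

/-- `n` survives the sieve in which a surviving number `j` strikes out the larger number `n`
when `r j n` holds -/
def Survives (r : ℕ → ℕ → Prop) (n : ℕ) : Prop :=
  2 ≤ n ∧ ∀ j : Fin n, Survives r j → ¬ r j n
termination_by n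
decreasing_by exact j.2

lemma survives_iff (r : ℕ → ℕ → Prop) (n : ℕ) :
    Survives r n ↔ 2 ≤ n ∧ ∀ j < n, Survives r j → ¬ r j n := by
  rw [Survives]
  constructor
  · rintro ⟨h1, h2⟩
    exact ⟨h1, fun j hj => h2 ⟨j, hj⟩⟩
  · rintro ⟨h1, h2⟩
    exact ⟨h1, fun j => h2 j j.2⟩

/-- the sieve of Eratosthenes -/
lemma survives_dvd (n : ℕ) : Survives (fun j n => j ∣ n) n ↔ n.Prime := by
  induction n using Nat.strong_induction_on with
  | _ n ih =>
    rw [survives_iff]
    constructor
    · rintro ⟨h1, h2⟩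
      by_contra hp
      have h3 := Nat.minFac_prime (show n ≠ 1 by omega)
      have h4 : n.minFac < n := lt_of_le_of_ne (Nat.minFac_le (by omega)) (fun h => hp (h ▸ h3))
      exact h2 _ h4 ((ih _ h4).2 h3) (Nat.minFac_dvd n)
    · intro hp
      refine ⟨hp.two_le, fun j hj hsj hd => ?_⟩
      have h3 := (ih j hj).1 hsj
      rcases (Nat.dvd_prime hp).1 hd with h | h
      · exact h3.one_lt.ne' h
      · omega

variable {Ω : Type} {m0 : MeasurableSpace Ω} {μ : Measure Ω} [IsProbabilityMeasure μ]

/-- the one step computation -/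
theorem step (m : MeasurableSpace Ω) (hm : m ≤ m0) (E C : ℕ → Set Ω) (p : ℕ → ℝ)
    (J₀ : Finset ℕ) (hC : ∀ j ∈ J₀, MeasurableSet[m] (C j))
    (hbase : ∀ K ⊆ J₀, ∀ B, MeasurableSet[m] B →
      μ.real (B ∩ ⋂ k ∈ K, (E k)ᶜ) = (∏ k ∈ K, (1 - p k)) * μ.real B) (J : Finset ℕ) :
    ∀ K ⊆ J₀, J ⊆ J₀ → Disjoint J K → ∀ B, MeasurableSet[m] B →
      μ.real ((B ∩ {ω | ∀ j ∈ J, ω ∈ C j → ω ∉ E j}) ∩ ⋂ k ∈ K, (E k)ᶜ) =
      (∏ k ∈ K, (1 - p k)) * ∫ ω in B, ∏ j ∈ J, (1 - (C j).indicator (fun _ => p j) ω) ∂μ := by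
  classical
  induction J using Finset.induction_on with
  | empty =>
    intro K hK _ _ B hB
    simp only [Finset.notMem_empty, false_imp_iff, implies_true, Finset.prod_empty]
    have e : {ω : Ω | True} = univ := by ext; simp
    rw [e, inter_univ, hbase K hK B hB, setIntegral_const, smul_eq_mul, mul_one]
  | insert a J ha ih =>
    intro K hK hJ hd B hB
    have haJ₀ : a ∈ J₀ := hJ (Finset.mem_insert_self a J)
    have hJ' : J ⊆ J₀ := (Finset.subset_insert a J).trans hJ
    have haK : a ∉ K := Finset.disjoint_left.1 hd (Finset.mem_insert_self a J)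
    have hd' : Disjoint J K := Finset.disjoint_of_subset_left (Finset.subset_insert a J) hd
    have hBC : MeasurableSet[m] (B ∩ C a) := @MeasurableSet.inter _ m _ _ hB (hC a haJ₀)
    have hBC' : MeasurableSet[m] (B \ C a) := @MeasurableSet.diff _ m _ _ hB (hC a haJ₀)
    have h1 := ih (insert a K) (Finset.insert_subset haJ₀ hK) hJ' (by
      rw [Finset.disjoint_insert_right]
      exact ⟨ha, hd'⟩) (B ∩ C a) hBC
    have h2 := ih K hK hJ' hd' (B \ C a) hBC'
    rw [Finset.prod_insert haK] at h1
    -- the set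
    set X : Set Ω := (B ∩ {ω | ∀ j ∈ insert a J, ω ∈ C j → ω ∉ E j}) ∩ ⋂ k ∈ K, (E k)ᶜ with hX
    have hCa : MeasurableSet[m0] (C a) := hm _ (hC a haJ₀)
    have h3 : μ.real X = μ.real (X ∩ C a) + μ.real (X \ C a) :=
      (measureReal_inter_add_sdiff (μ := μ) (s := X) hCa).symm
    have e1 : X ∩ C a = ((B ∩ C a) ∩ {ω | ∀ j ∈ J, ω ∈ C j → ω ∉ E j}) ∩ ⋂ k ∈ insert a K, (E k)ᶜ := by
      ext ω
      simp only [hX, mem_inter_iff, mem_ofPred_eq, mem_iInter, mem_compl_iff, Finset.mem_insert,
        forall_eq_or_imp]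
      tauto
    have e2 : X \ C a = ((B \ C a) ∩ {ω | ∀ j ∈ J, ω ∈ C j → ω ∉ E j}) ∩ ⋂ k ∈ K, (E k)ᶜ := by
      ext ω
      simp only [hX, mem_inter_iff, Set.mem_sdiff, mem_ofPred_eq, mem_iInter, mem_compl_iff, Finset.mem_insert,
        forall_eq_or_imp]
      tauto
    rw [h3, e1, e2, h1, h2]
    have hB0 : MeasurableSet[m0] B := hm _ hB
    have hint : Integrable (fun ω => ∏ j ∈ insert a J, (1 - (C j).indicator (fun _ => p j) ω)) μ := by
      apply Integrable.of_bound (C := ∏ j ∈ insert a J, (1 + |p j|))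
      · apply Measurable.aestronglyMeasurable
        apply Finset.measurable_fun_prod
        intro j hj
        exact measurable_const.sub (measurable_const.indicator (hm _ (hC j (hJ hj))))
      · refine Eventually.of_forall fun ω => ?_
        rw [norm_prod]
        apply Finset.prod_le_prod (fun _ _ => norm_nonneg _)
        intro j _
        by_cases h : ω ∈ C j
        · rw [indicator_of_mem h, Real.norm_eq_abs]
          calc |1 - p j| ≤ |(1 : ℝ)| + |p j| := abs_sub _ _
            _ = _ := by rw [abs_one]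
        · rw [indicator_of_notMem h, sub_zero, norm_one]
          linarith [abs_nonneg (p j)]
    have h4 := integral_inter_add_sdiff (μ := μ) (s := B) hCa hint.integrableOn
    have h5 : ∫ ω in B ∩ C a, ∏ j ∈ insert a J, (1 - (C j).indicator (fun _ => p j) ω) ∂μ =
        (1 - p a) * ∫ ω in B ∩ C a, ∏ j ∈ J, (1 - (C j).indicator (fun _ => p j) ω) ∂μ := by
      rw [← integral_const_mul]
      apply setIntegral_congr_fun (hB0.inter hCa)
      intro ω hω
      simp only
      rw [Finset.prod_insert ha, indicator_of_mem hω.2]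
    have h6 : ∫ ω in B \ C a, ∏ j ∈ insert a J, (1 - (C j).indicator (fun _ => p j) ω) ∂μ =
        ∫ ω in B \ C a, ∏ j ∈ J, (1 - (C j).indicator (fun _ => p j) ω) ∂μ := by
      apply setIntegral_congr_fun (hB0.diff hCa)
      intro ω hω
      simp only
      rw [Finset.prod_insert ha, indicator_of_notMem hω.2, sub_zero, one_mul]
    rw [← h4, h5, h6]
    ring

variable (R : ℕ → ℕ → Set Ω)

/-- the event that `n` survives the random sieve -/
def surv (n : ℕ) : Set Ω := {ω | Survives (fun j n => ω ∈ R j n) n}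

lemma mem_surv (n : ℕ) (ω : Ω) : ω ∈ surv R n ↔ 2 ≤ n ∧ ∀ j < n, ω ∈ surv R j → ω ∉ R j n :=
  survives_iff _ n

variable {R}

/-- the information given by the events `R j k` with `k ≤ n` -/
def hist (hR : ∀ j n, MeasurableSet (R j n)) : Filtration ℕ m0 where
  seq n := ⨆ x ∈ {x : ℕ × ℕ | x.2 ≤ n}, MeasurableSpace.generateFrom {R x.1 x.2}
  mono' := by
    intro a b hab
    exact biSup_mono fun x hx => le_trans hx hab
  le' := by
    intro n
    refine iSup₂_le fun x _ => ?_
    apply MeasurableSpace.generateFrom_le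
    intro t ht
    rw [mem_singleton_iff.1 ht]
    exact hR _ _

lemma R_meas (hR : ∀ j n, MeasurableSet (R j n)) {j n k : ℕ} (h : n ≤ k) :
    MeasurableSet[hist hR k] (R j n) := by
  have h1 : MeasurableSpace.generateFrom {R j n} ≤ hist hR k :=
    le_iSup₂_of_le (f := fun (x : ℕ × ℕ) (_ : x ∈ {x : ℕ × ℕ | x.2 ≤ k}) =>
      MeasurableSpace.generateFrom {R x.1 x.2}) (j, n) h le_rfl
  exact h1 _ (MeasurableSpace.measurableSet_generateFrom rfl)

lemma surv_meas (hR : ∀ j n, MeasurableSet (R j n)) (n : ℕ) : MeasurableSet[hist hR n] (surv R n) := by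
  induction n using Nat.strong_induction_on with
  | _ n ih =>
    by_cases hn : 2 ≤ n
    · have e : surv R n = ⋂ j ∈ Finset.range n, ((surv R j)ᶜ ∪ (R j n)ᶜ) := by
        ext ω
        rw [mem_surv]
        simp only [mem_iInter, Finset.mem_range, mem_union, mem_compl_iff]
        constructor
        · intro h j hj
          by_cases h1 : ω ∈ surv R j
          · exact Or.inr (h.2 j hj h1)
          · exact Or.inl h1
        · intro h
          refine ⟨hn, fun j hj h1 => ?_⟩
          rcases h j hj with h2 | h2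
          · exact absurd h1 h2
          · exact h2
      rw [e]
      refine Finset.measurableSet_biInter _ fun j hj => ?_
      have hj := Finset.mem_range.1 hj
      have h1 : MeasurableSet[hist hR n] (surv R j) := (hist hR).mono hj.le _ (ih j hj)
      have h2 : MeasurableSet[hist hR n] (R j n) := R_meas hR le_rfl
      exact @MeasurableSet.union _ (hist hR n) _ _ (@MeasurableSet.compl _ _ (hist hR n) h1)
        (@MeasurableSet.compl _ _ (hist hR n) h2)
    · have e : surv R n = ∅ := by
        ext ω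
        rw [mem_surv]
        simp [hn]
      rw [e]
      exact @MeasurableSet.empty _ (hist hR n)

/-- the conditional density -/
noncomputable def Dd (R : ℕ → ℕ → Set Ω) (n : ℕ) (ω : Ω) : ℝ :=
  ∏ j ∈ Finset.Icc 2 n, (1 - (surv R j).indicator (fun _ => 1 / (j : ℝ)) ω)

lemma Dd_meas (hR : ∀ j n, MeasurableSet (R j n)) (n : ℕ) : StronglyMeasurable[hist hR n] (Dd R n) := by
  apply Measurable.stronglyMeasurable
  apply Finset.measurable_fun_prod
  intro j hj
  have hj := (Finset.mem_Icc.1 hj).2
  have h1 : MeasurableSet[hist hR n] (surv R j) := (hist hR).mono hj _ (surv_meas hR j)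
  exact measurable_const.sub (measurable_const.indicator h1)

lemma Dd_bound (n : ℕ) (ω : Ω) : 0 < Dd R n ω ∧ Dd R n ω ≤ 1 := by
  have h : ∀ j ∈ Finset.Icc 2 n, 0 < 1 - (surv R j).indicator (fun _ => 1 / (j : ℝ)) ω ∧
      1 - (surv R j).indicator (fun _ => 1 / (j : ℝ)) ω ≤ 1 := by
    intro j hj
    have hj := (Finset.mem_Icc.1 hj).1
    have hj' : (2 : ℝ) ≤ j := by exact_mod_cast hj
    by_cases h : ω ∈ surv R j
    · rw [indicator_of_mem h]
      have h1 : 1 / (j : ℝ) ≤ 1 / 2 := one_div_le_one_div_of_le (by norm_num) hj'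
      have h2 : 0 < 1 / (j : ℝ) := by positivity
      constructor <;> linarith
    · rw [indicator_of_notMem h]
      norm_num
  exact ⟨Finset.prod_pos fun j hj => (h j hj).1,
    Finset.prod_le_one (fun j hj => (h j hj).1.le) fun j hj => (h j hj).2⟩

/-- the conditional probability that `n + 1` survives -/
theorem dens_eq (hR : ∀ j n, MeasurableSet (R j n)) (hI : iIndepSet (fun x : ℕ × ℕ => R x.1 x.2) μ)
    (hp : ∀ j n, 2 ≤ j → j < n → μ.real (R j n) = 1 / j) (n : ℕ) (hn : 1 ≤ n) :
    Dd R n =ᵐ[μ] dens μ (hist hR) (surv R) n := by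
  classical
  have hS : MeasurableSet (surv R (n + 1)) := (hist hR).le _ _ (surv_meas hR (n + 1))
  unfold dens
  refine ae_eq_condExp_of_forall_setIntegral_eq ((hist hR).le n) ((integrable_const _).indicator hS) ?_ ?_ ?_
  · intro s hs _
    apply Integrable.integrableOn
    apply Integrable.of_bound (C := 1) ((Dd_meas hR n).mono ((hist hR).le n)).aestronglyMeasurable
    refine Eventually.of_forall fun ω => ?_
    have := Dd_bound (R := R) n ω
    rw [Real.norm_eq_abs, abs_le]
    constructor <;> linarith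
  · intro B hB _
    rw [setIntegral_indicator hS, setIntegral_const, smul_eq_mul, mul_one]
    have hind := indep_iSup_of_disjoint (m := fun x : ℕ × ℕ => MeasurableSpace.generateFrom {R x.1 x.2})
      (μ := μ) (fun x => MeasurableSpace.generateFrom_le (by
        intro t ht
        rw [mem_singleton_iff.1 ht]
        exact hR _ _)) hI (S := {x : ℕ × ℕ | x.2 ≤ n}) (T := {x : ℕ × ℕ | x.2 = n + 1}) (by
        rw [Set.disjoint_left]
        intro x hx hx'
        simp only [mem_ofPred_eq] at hx hx'
        omega)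
    rw [Indep_iff] at hind
    have hbase : ∀ K ⊆ Finset.Icc 2 n, ∀ B, MeasurableSet[hist hR n] B →
        μ.real (B ∩ ⋂ k ∈ K, (R k (n + 1))ᶜ) = (∏ k ∈ K, (1 - 1 / (k : ℝ))) * μ.real B := by
      intro K hK B hB
      have h1 : MeasurableSet[⨆ x ∈ {x : ℕ × ℕ | x.2 = n + 1}, MeasurableSpace.generateFrom {R x.1 x.2}]
          (⋂ k ∈ K, (R k (n + 1))ᶜ) := by
        refine Finset.measurableSet_biInter _ fun k _ => ?_
        have h2 : MeasurableSpace.generateFrom {R k (n + 1)} ≤
            ⨆ x ∈ {x : ℕ × ℕ | x.2 = n + 1}, MeasurableSpace.generateFrom {R x.1 x.2} :=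
          le_iSup₂_of_le (f := fun (x : ℕ × ℕ) (_ : x ∈ {x : ℕ × ℕ | x.2 = n + 1}) =>
            MeasurableSpace.generateFrom {R x.1 x.2}) (k, n + 1) rfl le_rfl
        exact @MeasurableSet.compl _ _ _ (h2 _ (MeasurableSpace.measurableSet_generateFrom rfl))
      have h3 := hind B _ hB h1
      have h4 : μ.real (⋂ k ∈ K, (R k (n + 1))ᶜ) = ∏ k ∈ K, (1 - 1 / (k : ℝ)) := by
        have h5 := iIndep.meas_biInter (μ := μ) (m := fun x : ℕ × ℕ => MeasurableSpace.generateFrom {R x.1 x.2})
          (S := K.map ⟨fun k => (k, n + 1), fun a b h => by simpa using h⟩) (s := fun x => (R x.1 x.2)ᶜ) hI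
          (fun x _ => @MeasurableSet.compl _ _ (MeasurableSpace.generateFrom {R x.1 x.2})
            (MeasurableSpace.measurableSet_generateFrom rfl))
        rw [Finset.prod_map] at h5
        simp only [Finset.mem_map, iInter_exists, biInter_and',
          iInter_iInter_eq_right] at h5
        have h5 : μ (⋂ k ∈ K, (R k (n + 1))ᶜ) = ∏ k ∈ K, μ (R k (n + 1))ᶜ := h5
        rw [measureReal_def, h5, ENNReal.toReal_prod]
        refine Finset.prod_congr rfl fun k hk => ?_
        have hk2 := Finset.mem_Icc.1 (hK hk)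
        have h6 := hp k (n + 1) hk2.1 (by omega)
        rw [← measureReal_def, probReal_compl_eq_one_sub (hR k (n + 1)), h6]
      rw [measureReal_def, h3, ENNReal.toReal_mul, ← measureReal_def, ← measureReal_def, h4, mul_comm]
    have h1 := step (μ := μ) (hist hR n) ((hist hR).le n) (fun k => R k (n + 1)) (surv R)
      (fun k => 1 / (k : ℝ)) (Finset.Icc 2 n)
      (fun j hj => (hist hR).mono (Finset.mem_Icc.1 hj).2 _ (surv_meas hR j)) hbase (Finset.Icc 2 n) ∅
      (Finset.empty_subset _) le_rfl (Finset.disjoint_empty_right _) B hB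
    simp only [Finset.notMem_empty, iInter_of_empty, iInter_univ, inter_univ, Finset.prod_empty, one_mul] at h1
    have e : B ∩ surv R (n + 1) = B ∩ {ω | ∀ j ∈ Finset.Icc 2 n, ω ∈ surv R j → ω ∉ R j (n + 1)} := by
      ext ω
      rw [mem_inter_iff, mem_inter_iff, mem_surv, mem_ofPred_eq]
      constructor
      · rintro ⟨hB1, _, h2⟩
        exact ⟨hB1, fun j hj h3 => h2 j (by have := (Finset.mem_Icc.1 hj).2; omega) h3⟩
      · rintro ⟨hB1, h2⟩
        refine ⟨hB1, by omega, fun j hj h3 => h2 j ?_ h3⟩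
        have h4 := ((mem_surv R j ω).1 h3).1
        rw [Finset.mem_Icc]
        omega
    rw [e, h1]
    rfl
  · exact (Dd_meas hR n).aestronglyMeasurable

end Pool.Agent.R528.RM
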