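import Mathlib
import Pool.Agent.R528.RM.Basic
import Pool.Agent.R528.RM.Sieve
import Pool.Agent.R528.RM.Final

set_option autoImplicit false
set_option linter.unusedSectionVars false

/-! # The Hawkins random sieve: the martingale -/

open MeasureTheory Filter Set ProbabilityTheory
open scoped ENNReal Topology

namespace Pool.Agent.R528.RM

variable {Ω : Type} {m0 : MeasurableSpace Ω} {μ : Measure Ω} [IsProbabilityMeasure μ]
variable {R : ℕ → ℕ → Set Ω}

/-- the reciprocal of the conditional density -/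
noncomputable def Yy (R : ℕ → ℕ → Set Ω) (n : ℕ) (ω : Ω) : ℝ := (Dd R n ω)⁻¹

lemma Yy_pos (n : ℕ) (ω : Ω) : 0 < Yy R n ω := inv_pos.2 (Dd_bound n ω).1

lemma Yy_mul_Dd (n : ℕ) (ω : Ω) : Yy R n ω * Dd R n ω = 1 :=
  inv_mul_cancel₀ (Dd_bound n ω).1.ne'

lemma Yy_succ (n : ℕ) (ω : Ω) :
    Yy R (n + 1) ω = Yy R n ω + Yy R n ω / n * (surv R (n + 1)).indicator (fun _ => (1 : ℝ)) ω := by
  rcases Nat.eq_zero_or_pos n with rfl | hn
  · have e : surv R 1 = ∅ := by
      ext ω
      rw [mem_surv]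
      simp
    simp [Yy, Dd, e]
  · have h1 : Dd R (n + 1) ω = Dd R n ω * (1 - (surv R (n + 1)).indicator (fun _ => 1 / ((n + 1 : ℕ) : ℝ)) ω) := by
      unfold Dd
      rw [Finset.prod_Icc_succ_top (by omega)]
    have hn' : (0 : ℝ) < n := by exact_mod_cast hn
    unfold Yy
    rw [h1, mul_inv]
    by_cases h : ω ∈ surv R (n + 1)
    · rw [indicator_of_mem h, indicator_of_mem h]
      push_cast
      have h2 : (1 - 1 / ((n : ℝ) + 1))⁻¹ = 1 + 1 / n := by
        have h3 : 1 - 1 / ((n : ℝ) + 1) = n / (n + 1) := by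
          field_simp
          ring
        rw [h3, inv_div]
        field_simp
      rw [h2]
      ring
    · rw [indicator_of_notMem h, indicator_of_notMem h]
      simp

lemma Yy_le (n : ℕ) (ω : Ω) : Yy R n ω ≤ 2 ^ n := by
  induction n with
  | zero => simp [Yy, Dd]
  | succ n ih =>
    rw [Yy_succ]
    have h0 := Yy_pos (R := R) n ω
    have h1 : Yy R n ω / n * (surv R (n + 1)).indicator (fun _ => (1 : ℝ)) ω ≤ Yy R n ω := by
      have h2 : Yy R n ω / n ≤ Yy R n ω := by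
        rcases Nat.eq_zero_or_pos n with rfl | hn
        · simp only [CharP.cast_eq_zero, div_zero]
          exact h0.le
        · exact div_le_self h0.le (by exact_mod_cast hn)
      have h3 : 0 ≤ Yy R n ω / n := by positivity
      by_cases h : ω ∈ surv R (n + 1)
      · rw [indicator_of_mem h, mul_one]
        exact h2
      · rw [indicator_of_notMem h, mul_zero]
        exact h0.le
    rw [pow_succ]
    linarith

lemma Yy_meas (hR : ∀ j n, MeasurableSet (R j n)) (n : ℕ) : StronglyMeasurable[hist hR n] (Yy R n) :=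
  ((Dd_meas hR n).measurable.inv).stronglyMeasurable

/-- pulling out -/
lemma pull (hR : ∀ j n, MeasurableSet (R j n)) (hI : iIndepSet (fun x : ℕ × ℕ => R x.1 x.2) μ)
    (hp : ∀ j n, 2 ≤ j → j < n → μ.real (R j n) = 1 / j) (n : ℕ) (hn : 1 ≤ n) {f : Ω → ℝ}
    (hf : StronglyMeasurable[hist hR n] f) (c : ℝ) (hfc : ∀ ω, ‖f ω‖ ≤ c) {s : Set Ω}
    (hs : MeasurableSet[hist hR n] s) :
    ∫ ω in s, f ω * (surv R (n + 1)).indicator (fun _ => (1 : ℝ)) ω ∂μ = ∫ ω in s, f ω * Dd R n ω ∂μ := by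
  have hS : MeasurableSet (surv R (n + 1)) := (hist hR).le _ _ (surv_meas hR (n + 1))
  have hg : Integrable ((surv R (n + 1)).indicator (fun _ => (1 : ℝ))) μ := (integrable_const _).indicator hS
  have h1 := condExp_stronglyMeasurable_mul_of_bound ((hist hR).le n) hf hg c (Eventually.of_forall hfc)
  have hint : Integrable (f * (surv R (n + 1)).indicator (fun _ => (1 : ℝ))) μ :=
    hg.bdd_mul (hf.mono ((hist hR).le n)).aestronglyMeasurable (Eventually.of_forall hfc)
  have h2 := setIntegral_condExp ((hist hR).le n) hint hs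
  have h3 := dens_eq hR hI hp n hn
  have h4 : ∫ ω in s, f ω * (surv R (n + 1)).indicator (fun _ => (1 : ℝ)) ω ∂μ =
      ∫ ω in s, (f * (surv R (n + 1)).indicator (fun _ => (1 : ℝ))) ω ∂μ := rfl
  rw [h4, ← h2]
  apply setIntegral_congr_ae ((hist hR).le n _ hs)
  filter_upwards [h1, h3] with ω h1 h3 _
  rw [h1, h3]
  rfl

/-- the martingale -/
noncomputable def Mm (R : ℕ → ℕ → Set Ω) (n : ℕ) (ω : Ω) : ℝ := Yy R n ω - ∑ i ∈ Finset.range n, 1 / (i : ℝ)

lemma Mm_succ (n : ℕ) (ω : Ω) :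
    Mm R (n + 1) ω = Mm R n ω + (Yy R n ω / n * (surv R (n + 1)).indicator (fun _ => (1 : ℝ)) ω - 1 / n) := by
  unfold Mm
  rw [Yy_succ, Finset.sum_range_succ]
  ring

lemma Mm_meas (hR : ∀ j n, MeasurableSet (R j n)) (n : ℕ) : StronglyMeasurable[hist hR n] (Mm R n) :=
  (Yy_meas hR n).sub stronglyMeasurable_const

lemma Mm_bound (n : ℕ) : ∃ c : ℝ, ∀ ω : Ω, ‖Mm R n ω‖ ≤ c := by
  refine ⟨2 ^ n + |∑ i ∈ Finset.range n, 1 / (i : ℝ)|, fun ω => ?_⟩
  unfold Mm
  rw [Real.norm_eq_abs]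
  refine (abs_sub _ _).trans ?_
  rw [abs_of_pos (Yy_pos n ω)]
  have := Yy_le (R := R) n ω
  linarith

lemma Yy_bound (n : ℕ) : ∀ ω : Ω, ‖Yy R n ω‖ ≤ 2 ^ n := by
  intro ω
  rw [Real.norm_eq_abs, abs_of_pos (Yy_pos n ω)]
  exact Yy_le n ω

lemma int_of_meas (hR : ∀ j n, MeasurableSet (R j n)) (n : ℕ) {f : Ω → ℝ}
    (hf : StronglyMeasurable[hist hR n] f) {c : ℝ} (hc : ∀ ω, ‖f ω‖ ≤ c) : Integrable f μ :=
  Integrable.of_bound (hf.mono ((hist hR).le n)).aestronglyMeasurable c (Eventually.of_forall hc)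

lemma Mm_int (hR : ∀ j n, MeasurableSet (R j n)) (n : ℕ) : Integrable (Mm R n) μ := by
  obtain ⟨c, hc⟩ := Mm_bound (R := R) n
  exact int_of_meas hR n (Mm_meas hR n) hc

theorem Mm_mart (hR : ∀ j n, MeasurableSet (R j n)) (hI : iIndepSet (fun x : ℕ × ℕ => R x.1 x.2) μ)
    (hp : ∀ j n, 2 ≤ j → j < n → μ.real (R j n) = 1 / j) : Martingale (Mm R) (hist hR) μ := by
  refine martingale_of_setIntegral_eq_succ (Mm_meas hR) (Mm_int hR) ?_
  intro n s hs
  have hS : MeasurableSet (surv R (n + 1)) := (hist hR).le _ _ (surv_meas hR (n + 1))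
  rcases Nat.eq_zero_or_pos n with rfl | hn
  · apply setIntegral_congr_fun ((hist hR).le 0 _ hs)
    intro ω _
    simp only [Mm_succ]
    simp
  · have h1 : ∀ ω, Mm R (n + 1) ω - Mm R n ω =
        (Yy R n ω / n * (surv R (n + 1)).indicator (fun _ => (1 : ℝ)) ω) - 1 / n := by
      intro ω
      rw [Mm_succ]
      ring
    have hn' : (0 : ℝ) < n := by exact_mod_cast hn
    have hfm : StronglyMeasurable[hist hR n] (fun ω => Yy R n ω / n) := by
      have := (Yy_meas hR n).mul (stronglyMeasurable_const (b := (n : ℝ)⁻¹))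
      exact this
    have hfc : ∀ ω, ‖Yy R n ω / n‖ ≤ 2 ^ n / n := by
      intro ω
      rw [norm_div, Real.norm_natCast]
      exact div_le_div_of_nonneg_right (Yy_bound n ω) hn'.le
    have h2 := pull hR hI hp n hn hfm _ hfc hs
    have h3 : ∫ ω in s, Yy R n ω / n * Dd R n ω ∂μ = ∫ ω in s, (1 / n : ℝ) ∂μ := by
      apply setIntegral_congr_fun ((hist hR).le n _ hs)
      intro ω _
      simp only
      rw [div_mul_eq_mul_div, Yy_mul_Dd]
    have hi1 : Integrable (fun ω => Yy R n ω / n * (surv R (n + 1)).indicator (fun _ => (1 : ℝ)) ω) μ := by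
      have hg : Integrable ((surv R (n + 1)).indicator (fun _ => (1 : ℝ))) μ := (integrable_const _).indicator hS
      exact hg.bdd_mul (hfm.mono ((hist hR).le n)).aestronglyMeasurable (Eventually.of_forall hfc)
    have h4 : ∫ ω in s, Mm R (n + 1) ω ∂μ - ∫ ω in s, Mm R n ω ∂μ = 0 := by
      rw [← integral_sub (Mm_int hR (n + 1)).integrableOn (Mm_int hR n).integrableOn]
      simp_rw [h1]
      rw [integral_sub hi1.integrableOn (integrable_const _).integrableOn, h2, h3, sub_self]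
    linarith

lemma sum_le (n : ℕ) : ∑ i ∈ Finset.range (n + 1), 1 / (i : ℝ) ≤ 2 * √n := by
  induction n with
  | zero => simp
  | succ n ih =>
    rw [Finset.sum_range_succ]
    push_cast
    have hn : (0 : ℝ) ≤ n := Nat.cast_nonneg n
    have h1 : √(n : ℝ) ^ 2 = n := Real.sq_sqrt hn
    have h2 : √((n : ℝ) + 1) ^ 2 = n + 1 := Real.sq_sqrt (by linarith)
    have h3 : 0 ≤ √(n : ℝ) := Real.sqrt_nonneg _
    have h4 : 1 ≤ √((n : ℝ) + 1) := Real.one_le_sqrt.2 (by linarith)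
    have h5 : √(n : ℝ) ≤ √((n : ℝ) + 1) := Real.sqrt_le_sqrt (by linarith)
    have h6 : 1 / ((n : ℝ) + 1) ≤ 2 * (√((n : ℝ) + 1) - √(n : ℝ)) := by
      rw [div_le_iff₀ (by linarith)]
      have h7 : (√((n : ℝ) + 1) - √(n : ℝ)) * (√((n : ℝ) + 1) + √(n : ℝ)) = 1 := by
        ring_nf
        rw [show 1 + (n : ℝ) = n + 1 by ring, h1, h2]
        ring
      have h8 : √((n : ℝ) + 1) + √(n : ℝ) ≤ 2 * ((n : ℝ) + 1) := by nlinarith
      have h9 : 0 ≤ √((n : ℝ) + 1) - √(n : ℝ) := by linarith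
      nlinarith
    linarith

/-- the second moments are bounded -/
theorem Mm_sq (hR : ∀ j n, MeasurableSet (R j n)) (hI : iIndepSet (fun x : ℕ × ℕ => R x.1 x.2) μ)
    (hp : ∀ j n, 2 ≤ j → j < n → μ.real (R j n) = 1 / j) (n : ℕ) :
    ∫ ω, (Mm R n ω) ^ 2 ∂μ ≤ 1 + ∑ i ∈ Finset.range n, (1 + 2 * √i) / (i : ℝ) ^ 2 := by
  have hmart := Mm_mart (μ := μ) hR hI hp
  induction n with
  | zero => simp [Mm, Yy, Dd]
  | succ n ih =>
    rw [Finset.sum_range_succ]
    have hS : MeasurableSet (surv R (n + 1)) := (hist hR).le _ _ (surv_meas hR (n + 1))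
    rcases Nat.eq_zero_or_pos n with rfl | hn
    · simp only [Mm_succ] at ih ⊢
      simpa using ih
    · have hn' : (0 : ℝ) < n := by exact_mod_cast hn
      obtain ⟨c, hc⟩ := Mm_bound (R := R) n
      set Z : Ω → ℝ := (surv R (n + 1)).indicator (fun _ => (1 : ℝ)) with hZ
      have hg : Integrable Z μ := (integrable_const _).indicator hS
      -- the first term
      have e1 : ∀ ω, (Mm R (n + 1) ω) ^ 2 = (Mm R n ω) ^ 2 - 2 / n * Mm R n ω + 1 / (n : ℝ) ^ 2 +
          (2 * Mm R n ω * (Yy R n ω / n) + (Yy R n ω / n) ^ 2 - 2 * (Yy R n ω / n) / n) * Z ω := by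
        intro ω
        have hZ2 : Z ω * Z ω = Z ω := by
          by_cases h : ω ∈ surv R (n + 1)
          · rw [hZ, indicator_of_mem h, mul_one]
          · rw [hZ, indicator_of_notMem h, mul_zero]
        rw [Mm_succ]
        have e2 : (Mm R n ω + (Yy R n ω / n * Z ω - 1 / n)) ^ 2 =
          (Mm R n ω) ^ 2 - 2 / n * Mm R n ω + 1 / (n : ℝ) ^ 2 +
          (2 * Mm R n ω * (Yy R n ω / n) - 2 * (Yy R n ω / n) / n) * Z ω + (Yy R n ω / n) ^ 2 * (Z ω * Z ω) := by ring
        rw [e2, hZ2]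
        ring
      have hfm : StronglyMeasurable[hist hR n] (fun ω => 2 * Mm R n ω * (Yy R n ω / n) + (Yy R n ω / n) ^ 2 -
          2 * (Yy R n ω / n) / n) := by
        have hM := (Mm_meas hR n).measurable
        have hY := (Yy_meas hR n).measurable
        exact ((((measurable_const.mul hM).mul (hY.div_const _)).add ((hY.div_const _).pow_const 2)).sub
          ((measurable_const.mul (hY.div_const _)).div_const _)).stronglyMeasurable
      have hfc : ∀ ω, ‖2 * Mm R n ω * (Yy R n ω / n) + (Yy R n ω / n) ^ 2 - 2 * (Yy R n ω / n) / n‖ ≤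
          2 * c * (2 ^ n / n) + (2 ^ n / n) ^ 2 + 2 * (2 ^ n / n) / n := by
        intro ω
        have hy : ‖Yy R n ω / n‖ ≤ 2 ^ n / n := by
          rw [norm_div, Real.norm_natCast]
          exact div_le_div_of_nonneg_right (Yy_bound n ω) hn'.le
        have hm := hc ω
        have hc0 : 0 ≤ c := (norm_nonneg _).trans hm
        refine (norm_sub_le _ _).trans (add_le_add ((norm_add_le _ _).trans (add_le_add ?_ ?_)) ?_)
        · rw [norm_mul, norm_mul, Real.norm_eq_abs 2, abs_of_pos (by norm_num : (0 : ℝ) < 2)]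
          exact mul_le_mul (by linarith) hy (norm_nonneg _) (by positivity)
        · rw [norm_pow]
          exact pow_le_pow_left₀ (norm_nonneg _) hy 2
        · rw [norm_div, norm_mul, Real.norm_eq_abs 2, abs_of_pos (by norm_num : (0 : ℝ) < 2), Real.norm_natCast]
          exact div_le_div_of_nonneg_right (by linarith) hn'.le
      have h2 := pull (μ := μ) hR hI hp n hn hfm _ hfc (s := univ) MeasurableSet.univ
      rw [setIntegral_univ, setIntegral_univ] at h2
      have hMi : Integrable (Mm R n) μ := Mm_int hR n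
      have hYi : Integrable (Yy R n) μ := int_of_meas hR n (Yy_meas hR n) (Yy_bound n)
      have hM2i : Integrable (fun ω => (Mm R n ω) ^ 2) μ := by
        refine int_of_meas hR n (((Mm_meas hR n).measurable.pow_const 2).stronglyMeasurable) (c := c ^ 2) ?_
        intro ω
        rw [norm_pow]
        exact pow_le_pow_left₀ (norm_nonneg _) (hc ω) 2
      have hFi : Integrable (fun ω => (2 * Mm R n ω * (Yy R n ω / n) + (Yy R n ω / n) ^ 2 -
          2 * (Yy R n ω / n) / n) * Z ω) μ :=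
        hg.bdd_mul (hfm.mono ((hist hR).le n)).aestronglyMeasurable (Eventually.of_forall hfc)
      have e3 : ∀ ω, (2 * Mm R n ω * (Yy R n ω / n) + (Yy R n ω / n) ^ 2 - 2 * (Yy R n ω / n) / n) * Dd R n ω =
          2 / n * Mm R n ω + Yy R n ω / n ^ 2 - 2 / (n : ℝ) ^ 2 := by
        intro ω
        have h3 := Yy_mul_Dd (R := R) n ω
        have e4 : (2 * Mm R n ω * (Yy R n ω / n) + (Yy R n ω / n) ^ 2 - 2 * (Yy R n ω / n) / n) * Dd R n ω =
          (2 / n * Mm R n ω + Yy R n ω / n ^ 2 - 2 / (n : ℝ) ^ 2) * (Yy R n ω * Dd R n ω) := by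
          field_simp
        rw [e4, h3, mul_one]
      have e5 : ∫ ω, (Mm R (n + 1) ω) ^ 2 ∂μ = ∫ ω, (Mm R n ω) ^ 2 ∂μ + ((∫ ω, Yy R n ω ∂μ) - 1) / (n : ℝ) ^ 2 := by
        have i1 : Integrable (fun ω => (Mm R n ω) ^ 2 - 2 / n * Mm R n ω + 1 / (n : ℝ) ^ 2) μ :=
          (hM2i.sub (hMi.const_mul _)).add (integrable_const _)
        have i2 : Integrable (fun ω => (Mm R n ω) ^ 2 - 2 / n * Mm R n ω) μ := hM2i.sub (hMi.const_mul _)
        have i3 : Integrable (fun ω => 2 / n * Mm R n ω + Yy R n ω / n ^ 2) μ :=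
          (hMi.const_mul _).add (hYi.div_const _)
        have j1 : ∫ ω, (Mm R (n + 1) ω) ^ 2 ∂μ = ∫ ω, ((Mm R n ω) ^ 2 - 2 / n * Mm R n ω + 1 / (n : ℝ) ^ 2) ∂μ +
            ∫ ω, (2 * Mm R n ω * (Yy R n ω / n) + (Yy R n ω / n) ^ 2 - 2 * (Yy R n ω / n) / n) * Z ω ∂μ := by
          rw [← integral_add i1 hFi]
          exact integral_congr_ae (Eventually.of_forall e1)
        have j2 : ∫ ω, (2 * Mm R n ω * (Yy R n ω / n) + (Yy R n ω / n) ^ 2 - 2 * (Yy R n ω / n) / n) * Dd R n ω ∂μ =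
            ∫ ω, (2 / n * Mm R n ω + Yy R n ω / n ^ 2 - 2 / (n : ℝ) ^ 2) ∂μ :=
          integral_congr_ae (Eventually.of_forall e3)
        have j3 : ∫ ω, ((Mm R n ω) ^ 2 - 2 / n * Mm R n ω + 1 / (n : ℝ) ^ 2) ∂μ =
            ∫ ω, (Mm R n ω) ^ 2 ∂μ - 2 / n * ∫ ω, Mm R n ω ∂μ + 1 / (n : ℝ) ^ 2 := by
          rw [integral_add i2 (integrable_const _), integral_sub hM2i (hMi.const_mul _), integral_const_mul]
          simp
        have j4 : ∫ ω, (2 / n * Mm R n ω + Yy R n ω / n ^ 2 - 2 / (n : ℝ) ^ 2) ∂μ =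
            2 / n * ∫ ω, Mm R n ω ∂μ + (∫ ω, Yy R n ω ∂μ) / n ^ 2 - 2 / (n : ℝ) ^ 2 := by
          rw [integral_sub i3 (integrable_const _), integral_add (hMi.const_mul _) (hYi.div_const _),
            integral_const_mul, integral_div]
          simp
        rw [j1, hZ, h2, j2, j3, j4]
        ring
      have e6 : ∫ ω, Yy R n ω ∂μ = 1 + ∑ i ∈ Finset.range n, 1 / (i : ℝ) := by
        have h4 := hmart.setIntegral_eq (Nat.zero_le n) (s := univ) MeasurableSet.univ
        rw [setIntegral_univ, setIntegral_univ] at h4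
        have h5 : ∫ ω, Mm R 0 ω ∂μ = 1 := by simp [Mm, Yy, Dd]
        have h6 : ∫ ω, Mm R n ω ∂μ = ∫ ω, Yy R n ω ∂μ - ∑ i ∈ Finset.range n, 1 / (i : ℝ) := by
          unfold Mm
          rw [integral_sub hYi (integrable_const _)]
          simp
        linarith
      rw [e5, e6]
      have h7 : ∑ i ∈ Finset.range n, 1 / (i : ℝ) ≤ 2 * √n := by
        refine le_trans ?_ (sum_le n)
        apply Finset.sum_le_sum_of_subset_of_nonneg
        · exact Finset.range_mono (Nat.le_succ n)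
        · intro i _ _
          positivity
      have h8 : (1 + ∑ i ∈ Finset.range n, 1 / (i : ℝ) - 1) / (n : ℝ) ^ 2 ≤ (1 + 2 * √n) / (n : ℝ) ^ 2 :=
        div_le_div_of_nonneg_right (by linarith) (by positivity)
      linarith

lemma summ : Summable (fun i : ℕ => (1 + 2 * √(i : ℝ)) / (i : ℝ) ^ 2) := by
  have h1 : Summable (fun i : ℕ => 3 * (1 / (i : ℝ) ^ (3 / 2 : ℝ))) :=
    (Real.summable_one_div_nat_rpow.2 (by norm_num)).mul_left _
  refine Summable.of_nonneg_of_le (fun i => by positivity) (fun i => ?_) h1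
  rcases Nat.eq_zero_or_pos i with rfl | hi
  · simp
  · have hi' : (1 : ℝ) ≤ i := by exact_mod_cast hi
    have h2 : (i : ℝ) ^ (3 / 2 : ℝ) = i * √i := by
      rw [Real.sqrt_eq_rpow, show (3 / 2 : ℝ) = 1 + 1 / 2 by norm_num, Real.rpow_add (by linarith), Real.rpow_one]
    have h3 : 1 ≤ √(i : ℝ) := Real.one_le_sqrt.2 hi'
    have h4 : √(i : ℝ) * √(i : ℝ) = i := Real.mul_self_sqrt (by linarith)
    rw [h2, mul_one_div, div_le_div_iff₀ (by positivity) (by positivity)]
    have h5 : (1 + 2 * √(i : ℝ)) * (i * √i) ≤ (3 * √(i : ℝ)) * (i * √i) :=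
      mul_le_mul_of_nonneg_right (by linarith) (by positivity)
    have h6 : (3 * √(i : ℝ)) * (i * √i) = 3 * (i : ℝ) ^ 2 := by
      calc (3 * √(i : ℝ)) * (i * √i) = 3 * i * (√(i : ℝ) * √(i : ℝ)) := by ring
        _ = _ := by rw [h4]; ring
    linarith

/-- the reciprocal density is `log n + C + o(1)` -/
theorem Yy_lim (hR : ∀ j n, MeasurableSet (R j n)) (hI : iIndepSet (fun x : ℕ × ℕ => R x.1 x.2) μ)
    (hp : ∀ j n, 2 ≤ j → j < n → μ.real (R j n) = 1 / j) :
    ∀ᵐ ω ∂μ, ∃ C : ℝ, Tendsto (fun n : ℕ => Yy R n ω - Real.log n) atTop (𝓝 C) := by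
  have hmart := Mm_mart (μ := μ) hR hI hp
  obtain ⟨B, hB⟩ : ∃ B : ℝ, ∀ n, ∫ ω, (Mm R n ω) ^ 2 ∂μ ≤ B := by
    refine ⟨1 + ∑' i : ℕ, (1 + 2 * √(i : ℝ)) / (i : ℝ) ^ 2, fun n => (Mm_sq hR hI hp n).trans ?_⟩
    have := summ.sum_le_tsum (Finset.range n) (fun i _ => by positivity)
    linarith
  have hbdd : ∀ n, eLpNorm (Mm R n) 1 μ ≤ ((1 + B).toNNReal : ℝ≥0∞) := by
    intro n
    obtain ⟨c, hc⟩ := Mm_bound (R := R) n
    have hM2i : Integrable (fun ω => (Mm R n ω) ^ 2) μ := by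
      refine int_of_meas hR n (((Mm_meas hR n).measurable.pow_const 2).stronglyMeasurable) (c := c ^ 2) ?_
      intro ω
      rw [norm_pow]
      exact pow_le_pow_left₀ (norm_nonneg _) (hc ω) 2
    rw [eLpNorm_one_eq_lintegral_enorm, ← ofReal_integral_norm_eq_lintegral_enorm (Mm_int hR n)]
    apply ENNReal.ofReal_le_ofReal
    have i1 : Integrable (fun ω => 1 + (Mm R n ω) ^ 2) μ := (integrable_const _).add hM2i
    have h1 : ∫ ω, ‖Mm R n ω‖ ∂μ ≤ ∫ ω, (1 + (Mm R n ω) ^ 2) ∂μ := by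
      apply integral_mono (Mm_int hR n).norm i1
      intro ω
      simp only [Real.norm_eq_abs]
      have := abs_nonneg (Mm R n ω)
      nlinarith [sq_abs (Mm R n ω), sq_nonneg (|Mm R n ω| - 1)]
    rw [integral_add (integrable_const _) hM2i] at h1
    simp only [integral_const, probReal_univ, smul_eq_mul, one_mul] at h1
    linarith [hB n]
  have h1 := hmart.submartingale.ae_tendsto_limitProcess hbdd
  filter_upwards [h1] with ω h1
  have h2 := Real.tendsto_harmonic_sub_log_add_one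
  refine ⟨_, (tendsto_add_atTop_iff_nat 1).1 ((((tendsto_add_atTop_iff_nat 1).2 h1).add h2).congr ?_)⟩
  intro n
  have h3 : ∑ i ∈ Finset.range (n + 1), 1 / (i : ℝ) = (harmonic n : ℝ) := by
    rw [Finset.sum_range_succ', harmonic]
    push_cast
    simp
  unfold Mm
  rw [h3]
  push_cast
  ring

/-- **the second order law for the Hawkins sieve** -/
theorem hawkins_law (hR : ∀ j n, MeasurableSet (R j n)) (hI : iIndepSet (fun x : ℕ × ℕ => R x.1 x.2) μ)
    (hp : ∀ j n, 2 ≤ j → j < n → μ.real (R j n) = 1 / j) :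
    ∀ᵐ ω ∂μ, (rset (surv R) ω).Infinite ∧ ∀ ε : ℝ, 0 < ε →
      (∀ᶠ n in atTop, (gap (rset (surv R) ω) n : ℝ) <
        (Real.log (pn (rset (surv R) ω) n)) ^ 2 + (1 + ε) * Real.log (pn (rset (surv R) ω) n) *
          Real.log (Real.log (Real.log (pn (rset (surv R) ω) n)))) ∧
      (∃ᶠ n in atTop, (Real.log (pn (rset (surv R) ω) n)) ^ 2 +
          (1 - ε) * Real.log (pn (rset (surv R) ω) n) *
          Real.log (Real.log (Real.log (pn (rset (surv R) ω) n))) ≤ gap (rset (surv R) ω) n) := by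
  refine second_order (surv_meas hR) ?_
  have h1 : ∀ᵐ ω ∂μ, ∀ n, 1 ≤ n → Dd R n ω = dens μ (hist hR) (surv R) n ω := by
    rw [ae_all_iff]
    intro n
    by_cases hn : 1 ≤ n
    · filter_upwards [dens_eq hR hI hp n hn] with ω hω _
      exact hω
    · exact Eventually.of_forall fun ω h => absurd h hn
  filter_upwards [h1, Yy_lim hR hI hp] with ω h1 h2
  obtain ⟨C, hC⟩ := h2
  have h3 := hC.div_atTop tendsto_lll
  refine h3.congr' ?_
  filter_upwards [eventually_ge_atTop 1] with n hn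
  rw [← h1 n hn]
  rfl

end Pool.Agent.R528.RM
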