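import Mathlib
import Pool.Agent.R528.RM.Hawkins
import Pool.Agent.R528.RM.Violations

set_option autoImplicit false
set_option linter.unusedSectionVars false

/-! # The number of violations of Cramér's inequality by Hawkins primes -/

open MeasureTheory Filter Set ProbabilityTheory
open scoped ENNReal Topology

namespace Pool.Agent.R528.RM

variable {Ω : Type} {m0 : MeasurableSpace Ω} {μ : Measure Ω} [IsProbabilityMeasure μ]
  {ℱ : Filtration ℕ m0} {A : ℕ → Set Ω}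

/-- the law for the number of violations, general form -/
theorem violations' (hA : ∀ n, MeasurableSet[ℱ n] (A n)) (K : ℝ) (n₀ : ℕ)
    (hK : ∀ᵐ ω ∂μ, ∀ n, n₀ ≤ n → |(dens μ ℱ A (n + 1) ω)⁻¹ - (dens μ ℱ A n ω)⁻¹| ≤ K / n * |(dens μ ℱ A n ω)⁻¹|)
    (hC : ∀ᵐ ω ∂μ, ∃ C : ℝ, Tendsto (fun n : ℕ => (dens μ ℱ A n ω)⁻¹ - Real.log n) atTop (𝓝 C)) :
    ∀ᵐ ω ∂μ, (rset A ω).Infinite ∧ ∃ C : ℝ,
      Tendsto (fun n : ℕ => (dens μ ℱ A n ω)⁻¹ - Real.log n) atTop (𝓝 C) ∧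
      Tendsto (fun x : ℕ => (viol (rset A ω) x : ℝ) / Real.log (Real.log x)) atTop (𝓝 (Real.exp (C - 1 / 2))) := by
  have hK' : ∀ᵐ ω ∂μ, ∀ n, n₀ ≤ n → |(dens μ ℱ A (n + 1) ω)⁻¹ - (dens μ ℱ A n ω)⁻¹| ≤
      |K| / n * |(dens μ ℱ A n ω)⁻¹| := by
    filter_upwards [hK] with ω hω n hn
    refine (hω n hn).trans ?_
    apply mul_le_mul_of_nonneg_right _ (abs_nonneg _)
    exact div_le_div_of_nonneg_right (le_abs_self K) (Nat.cast_nonneg n)
  have h1 := violations (μ := μ) hA (abs_nonneg K) hK'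
  have h2 : ∀ᵐ ω ∂μ, Tendsto (fun n : ℕ => ((dens μ ℱ A n ω)⁻¹ - Real.log n) /
      Real.log (Real.log (Real.log n))) atTop (𝓝 0) := by
    filter_upwards [hC] with ω ⟨C, hC⟩
    exact hC.div_atTop tendsto_lll
  filter_upwards [h1, second_order hA h2, hC] with ω h1 h2 ⟨C, hC⟩
  exact ⟨h2.1, C, hC, viol_law ω h2.1 (h1 C hC)⟩

variable {R : ℕ → ℕ → Set Ω}

/-- the law for the Hawkins sieve -/
theorem hawkins_viol (hR : ∀ j n, MeasurableSet (R j n)) (hI : iIndepSet (fun x : ℕ × ℕ => R x.1 x.2) μ)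
    (hp : ∀ j n, 2 ≤ j → j < n → μ.real (R j n) = 1 / j) :
    ∀ᵐ ω ∂μ, (rset (surv R) ω).Infinite ∧ ∃ C : ℝ,
      Tendsto (fun n : ℕ => (Dd R n ω)⁻¹ - Real.log n) atTop (𝓝 C) ∧
      Tendsto (fun x : ℕ => (viol (rset (surv R) ω) x : ℝ) / Real.log (Real.log x)) atTop
        (𝓝 (Real.exp (C - 1 / 2))) := by
  have h1 : ∀ᵐ ω ∂μ, ∀ n, 1 ≤ n → Dd R n ω = dens μ (hist hR) (surv R) n ω := by
    rw [ae_all_iff]
    intro n
    by_cases hn : 1 ≤ n
    · filter_upwards [dens_eq hR hI hp n hn] with ω hω _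
      exact hω
    · exact Eventually.of_forall fun ω h => absurd h hn
  have hlim : ∀ᵐ ω ∂μ, ∃ C : ℝ, Tendsto (fun n : ℕ => (dens μ (hist hR) (surv R) n ω)⁻¹ - Real.log n) atTop (𝓝 C) := by
    filter_upwards [h1, Yy_lim hR hI hp] with ω h1 ⟨C, hC⟩
    refine ⟨C, hC.congr' ?_⟩
    filter_upwards [eventually_ge_atTop 1] with n hn
    rw [← h1 n hn]
    rfl
  have h2 := violations' (μ := μ) (surv_meas hR) 1 1 (by
    filter_upwards [h1] with ω h1 n hn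
    rw [← h1 n hn, ← h1 (n + 1) (by omega)]
    have h3 : (Dd R (n + 1) ω)⁻¹ - (Dd R n ω)⁻¹ = Yy R n ω / n * (surv R (n + 1)).indicator (fun _ => (1 : ℝ)) ω := by
      have := Yy_succ (R := R) n ω
      unfold Yy at this ⊢
      rw [this]
      ring
    have hn' : (0 : ℝ) < n := by exact_mod_cast hn
    have hY : (Dd R n ω)⁻¹ = Yy R n ω := rfl
    have h4 := Yy_pos (R := R) n ω
    rw [h3, hY, abs_of_pos h4]
    obtain ⟨h5, h6, _⟩ := ind01 (surv R (n + 1)) ω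
    rw [abs_of_nonneg (by positivity)]
    calc Yy R n ω / n * (surv R (n + 1)).indicator (fun _ => (1 : ℝ)) ω ≤ Yy R n ω / n * 1 :=
          mul_le_mul_of_nonneg_left h6 (by positivity)
      _ = 1 / n * Yy R n ω := by ring) hlim
  filter_upwards [h1, h2] with ω h1 ⟨h3, C, h4, h5⟩
  refine ⟨h3, C, h4.congr' ?_, h5⟩
  filter_upwards [eventually_ge_atTop 1] with n hn
  rw [← h1 n hn]

end Pool.Agent.R528.RM
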