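import Mathlib
import Pool.Agent.R528.RM.TupQ

set_option autoImplicit false
set_option linter.unusedSectionVars false

/-! # Many shifts -/

open MeasureTheory Filter Set Polynomial
open scoped ENNReal Topology

namespace Pool.Agent.R528.RM

variable {Ω : Type} {m0 : MeasurableSpace Ω} {μ : Measure Ω} [IsProbabilityMeasure μ]
  {ℱ : Filtration ℕ m0} {A : ℕ → Set Ω}

/-- admissibility modulo the primes of `Q` gives a good residue -/
lemma good_pos (Q : Finset ℕ) (hQ : ∀ p ∈ Q, p.Prime) (H : Finset ℕ) (hH : ∀ p ∈ Q, occ H p < p) :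
    0 < Nat.count (good (PH H) (∏ p ∈ Q, p)) (∏ p ∈ Q, p) := by
  have h1 := singH_eq Q hQ H
  have h2 : 0 < singH Q H := by
    unfold singH
    refine Finset.prod_pos fun p hp => ?_
    have hp2 : (2 : ℝ) ≤ p := by exact_mod_cast (hQ p hp).two_le
    have e1 : 0 < 1 - 1 / (p : ℝ) := by
      have : 1 / (p : ℝ) ≤ 1 / 2 := one_div_le_one_div_of_le (by norm_num) hp2
      linarith
    have e2 : (occ H p : ℝ) < p := by exact_mod_cast hH p hp
    have e3 : (occ H p : ℝ) / p < 1 := (div_lt_one (by linarith)).2 e2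
    have : 0 < 1 - (occ H p : ℝ) / p := by linarith
    positivity
  by_contra h
  have h3 : Nat.count (good (PH H) (∏ p ∈ Q, p)) (∏ p ∈ Q, p) = 0 := by omega
  rw [h3] at h1
  simp at h1
  linarith

/-- the inequality between the main term and the error term -/
lemma many_ev (C W : ℕ) (hW : 0 < W) {δ : ℝ} (hδ : 0 < δ) (hδ1 : δ < 1 / 2) : ∀ᶠ x : ℕ in atTop, ∀ k : ℕ,
    (k : ℝ) ≤ (1 / 2 - δ) * (Real.log x / Real.log (Real.log x)) →
    1 + k * (2 * lamT C k x) ≤ (1 - 1 / 2 : ℝ) ^ k * ((x / (2 * W)) * (((C + 2) * Real.log x)⁻¹) ^ k) := by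
  have hll : Tendsto (fun x : ℕ => Real.log (Real.log (x : ℝ))) atTop atTop := Real.tendsto_log_atTop.comp tendsto_log
  set c₁ := Real.log (2 * ((C : ℝ) + 2)) with hc₁
  have t1 : ∀ᶠ x : ℕ in atTop, (1 / 2 - δ) * (1 + c₁ / Real.log (Real.log (x : ℝ))) ≤ 1 / 2 - δ / 2 := by
    have h1 : Tendsto (fun x : ℕ => (1 / 2 - δ) * (1 + c₁ / Real.log (Real.log (x : ℝ)))) atTop (𝓝 ((1 / 2 - δ) * (1 + 0))) :=
      ((tendsto_const_nhds.div_atTop hll).const_add 1).const_mul _
    rw [add_zero, mul_one] at h1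
    filter_upwards [h1.eventually (gt_mem_nhds (show 1 / 2 - δ < 1 / 2 - δ / 2 by linarith))] with x hx
    exact hx.le
  have t2 : ∀ᶠ x : ℕ in atTop, 2 * W * (1 + 2 * √(8 * (C + 1)) * Real.log (x : ℝ) ^ (3 : ℝ)) ≤ (x : ℝ) ^ (δ / 2) := by
    have h20 : Tendsto (fun x : ℝ => Real.log x ^ (3 : ℝ) / x ^ (δ / 2)) atTop (𝓝 0) :=
      (isLittleO_log_rpow_rpow_atTop (3 : ℝ) (by positivity)).tendsto_div_nhds_zero
    have h21 : Tendsto (fun x : ℝ => 1 / x ^ (δ / 2)) atTop (𝓝 0) :=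
      tendsto_const_nhds.div_atTop (tendsto_rpow_atTop (by positivity))
    have h22 := ((h21.add (h20.const_mul (2 * √(8 * ((C : ℝ) + 1))))).const_mul (2 * (W : ℝ))).comp (tendsto_natCast_atTop_atTop (R := ℝ))
    rw [show 2 * (W : ℝ) * (0 + 2 * √(8 * ((C : ℝ) + 1)) * 0) = 0 by ring] at h22
    filter_upwards [h22.eventually (gt_mem_nhds one_pos), eventually_gt_atTop 0] with x hx hx0
    have hx0' : (0 : ℝ) < x := by exact_mod_cast hx0
    have hp : 0 < (x : ℝ) ^ (δ / 2) := Real.rpow_pos_of_pos hx0' _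
    simp only [Function.comp_apply] at hx
    have e : 2 * (W : ℝ) * (1 / (x : ℝ) ^ (δ / 2) + 2 * √(8 * ((C : ℝ) + 1)) * (Real.log (x : ℝ) ^ (3 : ℝ) / (x : ℝ) ^ (δ / 2))) =
        (2 * W * (1 + 2 * √(8 * (C + 1)) * Real.log (x : ℝ) ^ (3 : ℝ))) / (x : ℝ) ^ (δ / 2) := by
      field_simp
    rw [e, div_lt_one hp] at hx
    exact hx.le
  filter_upwards [t1, t2, hll.eventually_ge_atTop 1, tendsto_log.eventually_ge_atTop 1, eventually_gt_atTop 1] with x h1 h2 h3 h4 h5 k hk
  have hx1 : (1 : ℝ) < x := by exact_mod_cast h5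
  set L := Real.log (x : ℝ) with hL
  have hLpos : 0 < L := by linarith
  have hW' : (0 : ℝ) < W := by exact_mod_cast hW
  have hkL : (k : ℝ) ≤ L := by
    refine hk.trans ?_
    have e1 : L / Real.log L ≤ L := div_le_self hLpos.le h3
    have e2 : 0 ≤ L / Real.log L := by positivity
    nlinarith
  have hk0 : (0 : ℝ) ≤ k := Nat.cast_nonneg k
  -- the power
  have e1 : (2 * ((C : ℝ) + 2) * L) ^ k ≤ (x : ℝ) ^ (1 / 2 - δ / 2) := by
    have hb : 0 < 2 * ((C : ℝ) + 2) * L := by positivity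
    rw [← Real.rpow_natCast, Real.rpow_def_of_pos hb, Real.rpow_def_of_pos (by linarith : (0 : ℝ) < x)]
    apply Real.exp_le_exp.2
    rw [Real.log_mul (by positivity) hLpos.ne', ← hL]
    have g1 : 0 ≤ Real.log (2 * ((C : ℝ) + 2)) + Real.log L := by
      have : 0 ≤ Real.log (2 * ((C : ℝ) + 2)) := Real.log_nonneg (by linarith [Nat.cast_nonneg (α := ℝ) C])
      linarith
    calc (Real.log (2 * ((C : ℝ) + 2)) + Real.log L) * k ≤
        (Real.log (2 * ((C : ℝ) + 2)) + Real.log L) * ((1 / 2 - δ) * (L / Real.log L)) := mul_le_mul_of_nonneg_left hk g1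
      _ = L * ((1 / 2 - δ) * (1 + c₁ / Real.log L)) := by
          rw [hc₁]
          field_simp
          ring
      _ ≤ L * (1 / 2 - δ / 2) := mul_le_mul_of_nonneg_left h1 hLpos.le
  have e2 : (1 - 1 / 2 : ℝ) ^ k * ((x / (2 * W)) * (((C + 2) * L)⁻¹) ^ k) = x / (2 * W) / (2 * ((C : ℝ) + 2) * L) ^ k := by
    have : (1 - 1 / 2 : ℝ) ^ k * ((((C : ℝ) + 2) * L)⁻¹) ^ k = ((2 * ((C : ℝ) + 2) * L) ^ k)⁻¹ := by
      rw [← mul_pow, ← inv_pow]
      congr 1
      field_simp
      norm_num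
    calc (1 - 1 / 2 : ℝ) ^ k * ((x / (2 * W)) * (((C + 2) * L)⁻¹) ^ k) =
        x / (2 * W) * ((1 - 1 / 2 : ℝ) ^ k * ((((C : ℝ) + 2) * L)⁻¹) ^ k) := by ring
      _ = _ := by rw [this]; rfl
  have e3 : (x : ℝ) ^ (1 / 2 + δ / 2) / (2 * W) ≤ x / (2 * W) / (2 * ((C : ℝ) + 2) * L) ^ k := by
    have hb : 0 < (2 * ((C : ℝ) + 2) * L) ^ k := by positivity
    rw [le_div_iff₀ hb, div_mul_eq_mul_div]
    apply div_le_div_of_nonneg_right _ (by positivity)
    calc (x : ℝ) ^ (1 / 2 + δ / 2) * (2 * ((C : ℝ) + 2) * L) ^ k ≤ (x : ℝ) ^ (1 / 2 + δ / 2) * (x : ℝ) ^ (1 / 2 - δ / 2) :=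
          mul_le_mul_of_nonneg_left e1 (by positivity)
      _ = x := by
          rw [← Real.rpow_add (by linarith)]
          norm_num
  -- the error term
  have e4 : (k : ℝ) * (2 * lamT C k x) ≤ 2 * √(8 * (C + 1)) * L ^ (3 : ℝ) * (x : ℝ) ^ (1 / 2 : ℝ) := by
    have g1 : lamT C k x ≤ √(8 * (C + 1)) * (L * (x : ℝ) ^ (1 / 2 : ℝ)) := by
      unfold lamT
      have : 8 * ((C : ℝ) + 1) * k * (x * Real.log x) ≤ (8 * (C + 1)) * (L ^ 2 * x) := by
        rw [← hL]
        have : (k : ℝ) * (x * L) ≤ L * (x * L) := mul_le_mul_of_nonneg_right hkL (by positivity)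
        nlinarith [Nat.cast_nonneg (α := ℝ) C]
      refine (Real.sqrt_le_sqrt this).trans (le_of_eq ?_)
      rw [Real.sqrt_mul (by positivity : (0 : ℝ) ≤ 8 * (C + 1)), Real.sqrt_mul (by positivity : (0 : ℝ) ≤ L ^ 2), Real.sqrt_sq hLpos.le, Real.sqrt_eq_rpow x]
    have g2 : 0 ≤ √(8 * ((C : ℝ) + 1)) * (L * (x : ℝ) ^ (1 / 2 : ℝ)) := by positivity
    have g3 : L ^ 2 ≤ L ^ (3 : ℝ) := by
      rw [← Real.rpow_natCast]
      exact Real.rpow_le_rpow_of_exponent_le h4 (by norm_num)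
    calc (k : ℝ) * (2 * lamT C k x) ≤ L * (2 * (√(8 * (C + 1)) * (L * (x : ℝ) ^ (1 / 2 : ℝ)))) := by
          apply mul_le_mul hkL (by linarith) (by have := Real.sqrt_nonneg (8 * ((C : ℝ) + 1) * k * (x * Real.log x)); unfold lamT; positivity) hLpos.le
      _ = 2 * √(8 * (C + 1)) * L ^ 2 * (x : ℝ) ^ (1 / 2 : ℝ) := by ring
      _ ≤ _ := by gcongr
  rw [e2]
  refine le_trans ?_ e3
  have e5 : (x : ℝ) ^ (1 / 2 + δ / 2) / (2 * W) = (x : ℝ) ^ (1 / 2 : ℝ) * ((x : ℝ) ^ (δ / 2) / (2 * W)) := by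
    rw [Real.rpow_add (by linarith)]
    ring
  rw [e5]
  have e6 : 1 + 2 * √(8 * ((C : ℝ) + 1)) * L ^ (3 : ℝ) ≤ (x : ℝ) ^ (δ / 2) / (2 * W) := by
    rw [le_div_iff₀ (by positivity)]
    linarith
  have e7 : (1 : ℝ) ≤ (x : ℝ) ^ (1 / 2 : ℝ) := Real.one_le_rpow hx1.le (by norm_num)
  have e8 : 0 ≤ 2 * √(8 * ((C : ℝ) + 1)) * L ^ (3 : ℝ) := by positivity
  calc 1 + (k : ℝ) * (2 * lamT C k x) ≤ (x : ℝ) ^ (1 / 2 : ℝ) + 2 * √(8 * (C + 1)) * L ^ (3 : ℝ) * (x : ℝ) ^ (1 / 2 : ℝ) := by linarith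
    _ = (x : ℝ) ^ (1 / 2 : ℝ) * (1 + 2 * √(8 * (C + 1)) * L ^ (3 : ℝ)) := by ring
    _ ≤ _ := mul_le_mul_of_nonneg_left e6 (by positivity)

/-- many shifts in the sieved models -/
theorem many_law (hA : ∀ n, MeasurableSet[ℱ n] (A n)) (Q : Finset ℕ) (hQ : ∀ p ∈ Q, p.Prime)
    (hcop : ∀ n, (∃ p ∈ Q, p ∣ n) → A n = ∅)
    (hd : ∀ᵐ ω ∂μ, Tendsto (fun n : ℕ => dens μ ℱ A n ω * Real.log n)
      (atTop ⊓ 𝓟 {n : ℕ | ∀ p ∈ Q, ¬ p ∣ n + 1}) (𝓝 (∏ p ∈ Q, (1 - 1 / (p : ℝ))⁻¹))) :
    ∀ᵐ ω ∂μ, ∀ C : ℕ, ∀ δ : ℝ, 0 < δ → ∀ᶠ x : ℕ in atTop, ∀ H : Finset ℕ, (∀ h ∈ H, h ≤ x ^ C) →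
      (H.card : ℝ) ≤ (1 / 2 - δ) * (Real.log x / Real.log (Real.log x)) → (∀ p ∈ Q, occ H p < p) →
      ∃ n, 1 ≤ n ∧ n ≤ x ∧ ∀ h ∈ H, ω ∈ A (n + h) := by
  classical
  set W := ∏ p ∈ Q, p with hWdef
  have hW : 0 < W := Finset.prod_pos fun q hq => (hQ q hq).pos
  have hc : ∀ n, Nat.Coprime n W ↔ ∀ p ∈ Q, ¬ p ∣ n := by
    intro n
    rw [hWdef, Nat.coprime_prod_right_iff]
    refine forall₂_congr fun p hp => ?_
    rw [Nat.coprime_comm]
    exact Nat.Prime.coprime_iff_not_dvd (hQ p hp)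
  have hprof := dens_profile (μ := μ) hA W hW (fun n hn => hcop n (by
    rw [hc] at hn
    push Not at hn
    exact hn)) (by
    rw [totient_prod Q hQ]
    simp_rw [hc]
    exact hd)
  have hρ : ∀ n, 0 ≤ rhoW W n ∧ rhoW W n ≤ 1 := fun n => ⟨rhoW_nonneg W n, rhoW_le W n⟩
  have hc1 : 1 ≤ (W : ℝ) / Nat.totient W := by
    rw [one_le_div (by exact_mod_cast Nat.totient_pos.2 hW)]
    exact_mod_cast Nat.totient_le W
  filter_upwards [tup_law (μ := μ) hA (rhoW W) hρ hprof] with ω hω C δ hδ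
  by_cases hδ1 : δ < 1 / 2
  swap
  · -- only the empty set
    filter_upwards [(Real.tendsto_log_atTop.comp tendsto_log).eventually_gt_atTop 0, tendsto_log.eventually_gt_atTop 0,
      eventually_ge_atTop 1] with x h1 h2 h3 H _ hk _
    have h4 : (H.card : ℝ) ≤ 0 := by
      refine hk.trans ?_
      simp only [Function.comp_apply] at h1
      have : 0 ≤ Real.log (x : ℝ) / Real.log (Real.log (x : ℝ)) := by positivity
      nlinarith [not_lt.1 hδ1]
    have h5 : H = ∅ := by
      rw [← Finset.card_eq_zero]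
      have : H.card ≤ 0 := by exact_mod_cast h4
      omega
    exact ⟨1, le_rfl, h3, by rw [h5]; simp⟩
  filter_upwards [hω C (1 / 2) (by norm_num) (by norm_num), many_ev C W hW hδ hδ1, tendsto_log.eventually_ge_atTop 1,
    eventually_ge_atTop (6 * W + 3)] with x hx1 hx2 hx3 hx4 H hH hk hadm
  have h1 := (hx1 H (fun h hh => Finset.mem_range.2 (Nat.lt_succ_of_le (hH h hh)))).1
  have h2 := hx2 H.card hk
  have hx3' : (3 : ℝ) ≤ x := by
    have : 3 ≤ x := by omega
    exact_mod_cast this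
  have hxpos : (0 : ℝ) < x := by linarith
  have hL : 0 < Real.log (x : ℝ) := by linarith
  -- lower bound for the expectation
  have hE : (x / (2 * W) : ℝ) * (((C + 2) * Real.log x)⁻¹) ^ H.card ≤ TN A (rhoW W) x ∅ H ω := by
    have hpt : ∀ n ∈ Finset.range x, (if good (PH H) W (n + 1) ∧ 1 ≤ n then ((((C : ℝ) + 2) * Real.log x)⁻¹) ^ H.card else 0) ≤
        ∏ h ∈ H, rhoW W (n + 1 + h) := by
      intro n hn
      have hnx := Finset.mem_range.1 hn
      split_ifs with hg
      · rw [← Finset.prod_const]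
        refine Finset.prod_le_prod (fun h _ => by positivity) fun h hh => ?_
        have hcp := (good_PH H W (n + 1)).1 hg.1 h hh
        unfold rhoW
        rw [if_pos hcp]
        have m0 : 0 < ((n + 1 + h : ℕ) : ℝ) := by positivity
        have m1 : ((n + 1 + h : ℕ) : ℝ) ≤ (x : ℝ) ^ (C + 2) := by
          have g1 : n + 1 + h ≤ x + x ^ C := by
            have := hH h hh
            omega
          have g2 : x + x ^ C ≤ x ^ (C + 2) := by
            have g3 : 1 ≤ x ^ C := Nat.one_le_pow _ _ (by omega)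
            calc x + x ^ C ≤ x * x ^ C + x * x ^ C := by nlinarith
              _ = 2 * x * x ^ C := by ring
              _ ≤ x * x * x ^ C := by
                  apply Nat.mul_le_mul_right
                  apply Nat.mul_le_mul_right
                  omega
              _ = x ^ (C + 2) := by ring
          exact_mod_cast g1.trans g2
        have m2 : Real.log ((n + 1 + h : ℕ) : ℝ) ≤ (C + 2) * Real.log x := by
          have := Real.log_le_log m0 m1
          rw [Real.log_pow] at this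
          push_cast at this ⊢
          exact this
        have m3 : 1 ≤ ((C : ℝ) + 2) * Real.log x := by nlinarith [Nat.cast_nonneg (α := ℝ) C]
        refine le_min (inv_le_one_of_one_le₀ m3) ?_
        have hl : 0 < Real.log ((n + 1 + h : ℕ) : ℝ) := Real.log_pos (by
          have := hg.2
          exact_mod_cast (show 1 < n + 1 + h by omega))
        have hl2 : (0 : ℝ) < (W : ℝ) / Nat.totient W := by linarith
        · rw [inv_le_comm₀ (by linarith) (by positivity), inv_div]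
          calc Real.log ((n + 1 + h : ℕ) : ℝ) / ((W : ℝ) / Nat.totient W) ≤ Real.log ((n + 1 + h : ℕ) : ℝ) := div_le_self hl.le hc1
            _ ≤ _ := m2
      · exact Finset.prod_nonneg fun h _ => (hρ _).1
    have hsum := Finset.sum_le_sum hpt
    have e1 : TN A (rhoW W) x ∅ H ω = ∑ n ∈ Finset.range x, ∏ h ∈ H, rhoW W (n + 1 + h) := by
      unfold TN
      simp
    rw [e1]
    refine le_trans ?_ hsum
    rw [← Finset.sum_filter, Finset.sum_const, nsmul_eq_mul]
    apply mul_le_mul_of_nonneg_right _ (by positivity)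
    -- counting
    have hgood := good_pos Q hQ H hadm
    rw [← hWdef] at hgood
    have hex : ∃ r, good (PH H) W r := by
      by_contra hno
      push Not at hno
      have : Nat.count (good (PH H) W) W = 0 := by
        rw [Nat.count_eq_card_filter_range, Finset.card_eq_zero, Finset.filter_eq_empty_iff]
        exact fun n _ => hno n
      omega
    obtain ⟨r, hr⟩ := hex
    -- the numbers r' + j W
    set r' := r % W with hr'
    have hrW : r' < W := Nat.mod_lt _ hW
    have hgr : ∀ j, good (PH H) W (r' + j * W) := by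
      intro j
      have hper := good_periodic (PH H) W
      have h3 : good (PH H) W (r' + j * W) = good (PH H) W r' := by
        have := hper.nat_mul j r'
        simpa using this
      rw [h3, hr', hper.map_mod_nat]
      exact hr
    have hcard : x / W ≤ ((Finset.range x).filter (fun n => good (PH H) W (n + 1) ∧ 1 ≤ n)).card + 2 := by
      have hinj : (Finset.range (x / W - 2)).card ≤ ((Finset.range x).filter (fun n => good (PH H) W (n + 1) ∧ 1 ≤ n)).card := by
        refine Finset.card_le_card_of_injOn (fun j => r' + (j + 2) * W - 1) ?_ ?_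
        · intro j hj
          have hj' := Finset.mem_range.1 (Finset.mem_coe.1 hj)
          show r' + (j + 2) * W - 1 ∈ ((_ : Finset ℕ) : Set ℕ)
          rw [Finset.mem_coe, Finset.mem_filter, Finset.mem_range]
          have g1 : 2 ≤ (j + 2) * W := by nlinarith
          have g2 : (j + 3) * W ≤ x := by
            calc (j + 3) * W ≤ (x / W) * W := Nat.mul_le_mul_right _ (by omega)
              _ ≤ x := Nat.div_mul_le_self _ _
          have g3 : (j + 3) * W = (j + 2) * W + W := by ring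
          refine ⟨by omega, ?_, by omega⟩
          rw [show r' + (j + 2) * W - 1 + 1 = r' + (j + 2) * W by omega]
          exact hgr _
        · intro a _ b _ hab
          simp only at hab
          have g1 : 2 ≤ (a + 2) * W := by nlinarith
          have g2 : 2 ≤ (b + 2) * W := by nlinarith
          have g3 : (a + 2) * W = (b + 2) * W := by omega
          have := Nat.eq_of_mul_eq_mul_right hW g3
          omega
      rw [Finset.card_range] at hinj
      omega
    have h3 : (x : ℝ) < W * ((x / W : ℕ) + 1) := by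
      have := Nat.lt_mul_div_succ x hW
      exact_mod_cast this
    have h4 : ((x / W : ℕ) : ℝ) ≤ (((Finset.range x).filter (fun n => good (PH H) W (n + 1) ∧ 1 ≤ n)).card : ℝ) + 2 := by exact_mod_cast hcard
    have hWr : (0 : ℝ) < W := by exact_mod_cast hW
    have h5 : (6 : ℝ) * W + 3 ≤ x := by exact_mod_cast hx4
    rw [div_le_iff₀ (by positivity)]
    set cd := (((Finset.range x).filter (fun n => good (PH H) W (n + 1) ∧ 1 ≤ n)).card : ℝ)
    nlinarith
  have h3 : 1 ≤ TN A (rhoW W) x H ∅ ω := by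
    refine le_trans ?_ h1
    have h4 : (1 - 1 / 2 : ℝ) ^ H.card * ((x / (2 * W)) * (((C + 2) * Real.log x)⁻¹) ^ H.card) ≤ (1 - 1 / 2 : ℝ) ^ H.card * TN A (rhoW W) x ∅ H ω :=
      mul_le_mul_of_nonneg_left hE (by positivity)
    linarith
  -- a positive sum has a positive term
  by_contra hno
  push Not at hno
  have h4 : TN A (rhoW W) x H ∅ ω = 0 := by
    unfold TN
    refine Finset.sum_eq_zero fun n hn => ?_
    have hnx := Finset.mem_range.1 hn
    obtain ⟨h, hh, hn2⟩ := hno (n + 1) (by omega) (by omega)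
    have : In A (n + 1 + h) ω = 0 := indicator_of_notMem hn2 _
    rw [Finset.prod_eq_zero hh this, zero_mul]
  linarith

end Pool.Agent.R528.RM
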