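import Mathlib
import Pool.Agent.R528.RM.Tup2
import Pool.Agent.R528.RM.Many

set_option autoImplicit false
set_option linter.unusedSectionVars false

/-! # Many shifts: the sharp range -/

open MeasureTheory Filter Set Polynomial
open scoped ENNReal Topology

namespace Pool.Agent.R528.RM

variable {Ω : Type} {m0 : MeasurableSpace Ω} {μ : Measure Ω} [IsProbabilityMeasure μ]
  {ℱ : Filtration ℕ m0} {A : ℕ → Set Ω}

/-- the inequality between the main term and the error term -/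
lemma many_ev2 (C W : ℕ) (hW : 0 < W) {δ : ℝ} (hδ : 0 < δ) (hδ1 : δ < 1) : ∀ᶠ x : ℕ in atTop, ∀ k : ℕ,
    (k : ℝ) ≤ (1 - δ) * (Real.log x / Real.log (Real.log x)) →
    (x : ℝ) ^ (δ / 4) + k * (40 * (C + 1) * k * Real.log x / (1 / 2)) ≤ (1 - 1 / 2 : ℝ) ^ k * ((x / (2 * W)) * (((C + 2) * Real.log x)⁻¹) ^ k) := by
  have hll : Tendsto (fun x : ℕ => Real.log (Real.log (x : ℝ))) atTop atTop := Real.tendsto_log_atTop.comp tendsto_log
  set c₁ := Real.log (2 * ((C : ℝ) + 2)) with hc₁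
  have t1 : ∀ᶠ x : ℕ in atTop, (1 - δ) * (1 + c₁ / Real.log (Real.log (x : ℝ))) ≤ 1 - δ / 2 := by
    have h1 : Tendsto (fun x : ℕ => (1 - δ) * (1 + c₁ / Real.log (Real.log (x : ℝ)))) atTop (𝓝 ((1 - δ) * (1 + 0))) :=
      ((tendsto_const_nhds.div_atTop hll).const_add 1).const_mul _
    rw [add_zero, mul_one] at h1
    filter_upwards [h1.eventually (gt_mem_nhds (show 1 - δ < 1 - δ / 2 by linarith))] with x hx
    exact hx.le
  have t2 : ∀ᶠ x : ℕ in atTop, 2 * W * (1 + 80 * (C + 1) * Real.log (x : ℝ) ^ (3 : ℝ)) ≤ (x : ℝ) ^ (δ / 4) := by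
    have h20 : Tendsto (fun x : ℝ => Real.log x ^ (3 : ℝ) / x ^ (δ / 4)) atTop (𝓝 0) :=
      (isLittleO_log_rpow_rpow_atTop (3 : ℝ) (by positivity)).tendsto_div_nhds_zero
    have h21 : Tendsto (fun x : ℝ => 1 / x ^ (δ / 4)) atTop (𝓝 0) :=
      tendsto_const_nhds.div_atTop (tendsto_rpow_atTop (by positivity))
    have h22 := ((h21.add (h20.const_mul (80 * ((C : ℝ) + 1)))).const_mul (2 * (W : ℝ))).comp (tendsto_natCast_atTop_atTop (R := ℝ))
    rw [show 2 * (W : ℝ) * (0 + 80 * ((C : ℝ) + 1) * 0) = 0 by ring] at h22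
    filter_upwards [h22.eventually (gt_mem_nhds one_pos), eventually_gt_atTop 0] with x hx hx0
    have hx0' : (0 : ℝ) < x := by exact_mod_cast hx0
    have hp : 0 < (x : ℝ) ^ (δ / 4) := Real.rpow_pos_of_pos hx0' _
    simp only [Function.comp_apply] at hx
    have e : 2 * (W : ℝ) * (1 / (x : ℝ) ^ (δ / 4) + 80 * ((C : ℝ) + 1) * (Real.log (x : ℝ) ^ (3 : ℝ) / (x : ℝ) ^ (δ / 4))) =
        (2 * W * (1 + 80 * (C + 1) * Real.log (x : ℝ) ^ (3 : ℝ))) / (x : ℝ) ^ (δ / 4) := by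
      field_simp
    rw [e, div_lt_one hp] at hx
    exact hx.le
  filter_upwards [t1, t2, hll.eventually_ge_atTop 1, tendsto_log.eventually_ge_atTop 1, eventually_gt_atTop 1] with x h1 h2 h3 h4 h5 k hk
  have hx1 : (1 : ℝ) < x := by exact_mod_cast h5
  set L := Real.log (x : ℝ) with hL
  have hLpos : 0 < L := by linarith
  have hW' : (0 : ℝ) < W := by exact_mod_cast hW
  have hC0 : (0 : ℝ) ≤ C := Nat.cast_nonneg C
  have hkL : (k : ℝ) ≤ L := by
    refine hk.trans ?_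
    have e1 : L / Real.log L ≤ L := div_le_self hLpos.le h3
    have e2 : 0 ≤ L / Real.log L := by positivity
    nlinarith
  have hk0 : (0 : ℝ) ≤ k := Nat.cast_nonneg k
  -- the power
  have e1 : (2 * ((C : ℝ) + 2) * L) ^ k ≤ (x : ℝ) ^ (1 - δ / 2) := by
    have hb : 0 < 2 * ((C : ℝ) + 2) * L := by positivity
    rw [← Real.rpow_natCast, Real.rpow_def_of_pos hb, Real.rpow_def_of_pos (by linarith : (0 : ℝ) < x)]
    apply Real.exp_le_exp.2
    rw [Real.log_mul (by positivity) hLpos.ne', ← hL]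
    have g1 : 0 ≤ Real.log (2 * ((C : ℝ) + 2)) + Real.log L := by
      have : 0 ≤ Real.log (2 * ((C : ℝ) + 2)) := Real.log_nonneg (by linarith [Nat.cast_nonneg (α := ℝ) C])
      linarith
    calc (Real.log (2 * ((C : ℝ) + 2)) + Real.log L) * k ≤
        (Real.log (2 * ((C : ℝ) + 2)) + Real.log L) * ((1 - δ) * (L / Real.log L)) := mul_le_mul_of_nonneg_left hk g1
      _ = L * ((1 - δ) * (1 + c₁ / Real.log L)) := by
          rw [hc₁]
          field_simp
          ring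
      _ ≤ L * (1 - δ / 2) := mul_le_mul_of_nonneg_left h1 hLpos.le
  have e2 : (1 - 1 / 2 : ℝ) ^ k * ((x / (2 * W)) * (((C + 2) * L)⁻¹) ^ k) = x / (2 * W) / (2 * ((C : ℝ) + 2) * L) ^ k := by
    have : (1 - 1 / 2 : ℝ) ^ k * ((((C : ℝ) + 2) * L)⁻¹) ^ k = ((2 * ((C : ℝ) + 2) * L) ^ k)⁻¹ := by
      rw [← mul_pow, ← inv_pow]
      congr 1
      field_simp
      norm_num
    calc (1 - 1 / 2 : ℝ) ^ k * ((x / (2 * W)) * (((C + 2) * L)⁻¹) ^ k) =
        x / (2 * W) * ((1 - 1 / 2 : ℝ) ^ k * ((((C : ℝ) + 2) * L)⁻¹) ^ k) := by ring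
      _ = _ := by rw [this]; rfl
  have e3 : (x : ℝ) ^ (δ / 2) / (2 * W) ≤ x / (2 * W) / (2 * ((C : ℝ) + 2) * L) ^ k := by
    have hb : 0 < (2 * ((C : ℝ) + 2) * L) ^ k := by positivity
    rw [le_div_iff₀ hb, div_mul_eq_mul_div]
    apply div_le_div_of_nonneg_right _ (by positivity)
    calc (x : ℝ) ^ (δ / 2) * (2 * ((C : ℝ) + 2) * L) ^ k ≤ (x : ℝ) ^ (δ / 2) * (x : ℝ) ^ (1 - δ / 2) :=
          mul_le_mul_of_nonneg_left e1 (by positivity)
      _ = x := by
          rw [← Real.rpow_add (by linarith)]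
          norm_num
  -- the error term
  have e4 : (k : ℝ) * (40 * (C + 1) * k * L / (1 / 2)) ≤ 80 * (C + 1) * L ^ (3 : ℝ) := by
    have g3 : L ^ 3 = L ^ (3 : ℝ) := by
      rw [← Real.rpow_natCast]
      norm_num
    rw [← g3]
    have g4 : (k : ℝ) * k ≤ L * L := mul_le_mul hkL hkL hk0 hLpos.le
    calc (k : ℝ) * (40 * (C + 1) * k * L / (1 / 2)) = 80 * (C + 1) * L * (k * k) := by ring
      _ ≤ 80 * (C + 1) * L * (L * L) := mul_le_mul_of_nonneg_left g4 (by positivity)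
      _ = _ := by ring
  rw [e2]
  refine le_trans ?_ e3
  have e5 : (x : ℝ) ^ (δ / 2) / (2 * W) = (x : ℝ) ^ (δ / 4) * ((x : ℝ) ^ (δ / 4) / (2 * W)) := by
    rw [← mul_div_assoc, ← Real.rpow_add (by linarith)]
    congr 2
    ring
  rw [e5]
  have e6 : 1 + 80 * ((C : ℝ) + 1) * L ^ (3 : ℝ) ≤ (x : ℝ) ^ (δ / 4) / (2 * W) := by
    rw [le_div_iff₀ (by positivity)]
    linarith
  have e7 : (1 : ℝ) ≤ (x : ℝ) ^ (δ / 4) := Real.one_le_rpow hx1.le (by positivity)
  have e8 : 0 ≤ 80 * ((C : ℝ) + 1) * L ^ (3 : ℝ) := by positivity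
  calc (x : ℝ) ^ (δ / 4) + (k : ℝ) * (40 * (C + 1) * k * L / (1 / 2)) ≤ (x : ℝ) ^ (δ / 4) + (x : ℝ) ^ (δ / 4) * (80 * (C + 1) * L ^ (3 : ℝ)) := by nlinarith
    _ = (x : ℝ) ^ (δ / 4) * (1 + 80 * (C + 1) * L ^ (3 : ℝ)) := by ring
    _ ≤ _ := mul_le_mul_of_nonneg_left e6 (by positivity)

/-- the expectation is large -/
lemma many_E (Q : Finset ℕ) (hQ : ∀ p ∈ Q, p.Prime) (C : ℕ) : ∀ᶠ x : ℕ in atTop, ∀ H : Finset ℕ, (∀ h ∈ H, h ≤ x ^ C) →
    (∀ p ∈ Q, occ H p < p) → ∀ ω : Ω, (x / (2 * (∏ p ∈ Q, p : ℕ)) : ℝ) * (((C + 2) * Real.log x)⁻¹) ^ H.card ≤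
      TN A (rhoW (∏ p ∈ Q, p)) x ∅ H ω := by
  classical
  set W := ∏ p ∈ Q, p with hWdef
  have hW : 0 < W := Finset.prod_pos fun q hq => (hQ q hq).pos
  have hρ : ∀ n, 0 ≤ rhoW W n ∧ rhoW W n ≤ 1 := fun n => ⟨rhoW_nonneg W n, rhoW_le W n⟩
  have hc1 : 1 ≤ (W : ℝ) / Nat.totient W := by
    rw [one_le_div (by exact_mod_cast Nat.totient_pos.2 hW)]
    exact_mod_cast Nat.totient_le W
  filter_upwards [tendsto_log.eventually_ge_atTop 1, eventually_ge_atTop (6 * W + 3)] with x hx3 hx4 H hH hadm ω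
  have hx3' : (3 : ℝ) ≤ x := by
    have : 3 ≤ x := by omega
    exact_mod_cast this
  have hxpos : (0 : ℝ) < x := by linarith
  have hL : 0 < Real.log (x : ℝ) := by linarith
  have hpt : ∀ n ∈ Finset.range x, (if good (PH H) W (n + 1) ∧ 1 ≤ n then ((((C : ℝ) + 2) * Real.log x)⁻¹) ^ H.card else 0) ≤
      ∏ h ∈ H, rhoW W (n + 1 + h) := by
    intro n hn
    have hnx := Finset.mem_range.1 hn
    split_ifs with hg
    · rw [← Finset.prod_const]
      refine Finset.prod_le_prod (fun h _ => by positivity) fun h hh => ?_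
      have hcp := (good_PH H W (n + 1)).1 hg.1 h hh
      unfold rhoW
      rw [if_pos hcp]
      have m0 : 0 < ((n + 1 + h : ℕ) : ℝ) := by positivity
      have m1 : ((n + 1 + h : ℕ) : ℝ) ≤ (x : ℝ) ^ (C + 2) := by
        have g1 : n + 1 + h ≤ x + x ^ C := by
          have := hH h hh
          omega
        have g2 : x + x ^ C ≤ x ^ (C + 2) := by
          have g3 : 1 ≤ x ^ C := Nat.one_le_pow _ _ (by omega)
          calc x + x ^ C ≤ x * x ^ C + x * x ^ C := by nlinarith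
            _ = 2 * x * x ^ C := by ring
            _ ≤ x * x * x ^ C := by
                apply Nat.mul_le_mul_right
                apply Nat.mul_le_mul_right
                omega
            _ = x ^ (C + 2) := by ring
        exact_mod_cast g1.trans g2
      have m2 : Real.log ((n + 1 + h : ℕ) : ℝ) ≤ (C + 2) * Real.log x := by
        have := Real.log_le_log m0 m1
        rw [Real.log_pow] at this
        push_cast at this ⊢
        exact this
      have m3 : 1 ≤ ((C : ℝ) + 2) * Real.log x := by nlinarith [Nat.cast_nonneg (α := ℝ) C]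
      refine le_min (inv_le_one_of_one_le₀ m3) ?_
      have hl : 0 < Real.log ((n + 1 + h : ℕ) : ℝ) := Real.log_pos (by
        have := hg.2
        exact_mod_cast (show 1 < n + 1 + h by omega))
      have hl2 : (0 : ℝ) < (W : ℝ) / Nat.totient W := by linarith
      rw [inv_le_comm₀ (by linarith) (by positivity), inv_div]
      calc Real.log ((n + 1 + h : ℕ) : ℝ) / ((W : ℝ) / Nat.totient W) ≤ Real.log ((n + 1 + h : ℕ) : ℝ) := div_le_self hl.le hc1
        _ ≤ _ := m2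
    · exact Finset.prod_nonneg fun h _ => (hρ _).1
  have hsum := Finset.sum_le_sum hpt
  have e1 : TN A (rhoW W) x ∅ H ω = ∑ n ∈ Finset.range x, ∏ h ∈ H, rhoW W (n + 1 + h) := by
    unfold TN
    simp
  rw [e1]
  refine le_trans ?_ hsum
  rw [← Finset.sum_filter, Finset.sum_const, nsmul_eq_mul]
  apply mul_le_mul_of_nonneg_right _ (by positivity)
  -- counting
  have hgood := good_pos Q hQ H hadm
  rw [← hWdef] at hgood
  have hex : ∃ r, good (PH H) W r := by
    by_contra hno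
    push Not at hno
    have : Nat.count (good (PH H) W) W = 0 := by
      rw [Nat.count_eq_card_filter_range, Finset.card_eq_zero, Finset.filter_eq_empty_iff]
      exact fun n _ => hno n
    omega
  obtain ⟨r, hr⟩ := hex
  -- the numbers r' + j W
  set r' := r % W with hr'
  have hrW : r' < W := Nat.mod_lt _ hW
  have hgr : ∀ j, good (PH H) W (r' + j * W) := by
    intro j
    have hper := good_periodic (PH H) W
    have h3 : good (PH H) W (r' + j * W) = good (PH H) W r' := by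
      have := hper.nat_mul j r'
      simpa using this
    rw [h3, hr', hper.map_mod_nat]
    exact hr
  have hcard : x / W ≤ ((Finset.range x).filter (fun n => good (PH H) W (n + 1) ∧ 1 ≤ n)).card + 2 := by
    have hinj : (Finset.range (x / W - 2)).card ≤ ((Finset.range x).filter (fun n => good (PH H) W (n + 1) ∧ 1 ≤ n)).card := by
      refine Finset.card_le_card_of_injOn (fun j => r' + (j + 2) * W - 1) ?_ ?_
      · intro j hj
        have hj' := Finset.mem_range.1 (Finset.mem_coe.1 hj)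
        show r' + (j + 2) * W - 1 ∈ ((_ : Finset ℕ) : Set ℕ)
        rw [Finset.mem_coe, Finset.mem_filter, Finset.mem_range]
        have g1 : 2 ≤ (j + 2) * W := by nlinarith
        have g2 : (j + 3) * W ≤ x := by
          calc (j + 3) * W ≤ (x / W) * W := Nat.mul_le_mul_right _ (by omega)
            _ ≤ x := Nat.div_mul_le_self _ _
        have g3 : (j + 3) * W = (j + 2) * W + W := by ring
        refine ⟨by omega, ?_, by omega⟩
        rw [show r' + (j + 2) * W - 1 + 1 = r' + (j + 2) * W by omega]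
        exact hgr _
      · intro a _ b _ hab
        simp only at hab
        have g1 : 2 ≤ (a + 2) * W := by nlinarith
        have g2 : 2 ≤ (b + 2) * W := by nlinarith
        have g3 : (a + 2) * W = (b + 2) * W := by omega
        have := Nat.eq_of_mul_eq_mul_right hW g3
        omega
    rw [Finset.card_range] at hinj
    omega
  have h3 : (x : ℝ) < W * ((x / W : ℕ) + 1) := by
    have := Nat.lt_mul_div_succ x hW
    exact_mod_cast this
  have h4 : ((x / W : ℕ) : ℝ) ≤ (((Finset.range x).filter (fun n => good (PH H) W (n + 1) ∧ 1 ≤ n)).card : ℝ) + 2 := by exact_mod_cast hcard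
  have hWr : (0 : ℝ) < W := by exact_mod_cast hW
  have h5 : (6 : ℝ) * W + 3 ≤ x := by exact_mod_cast hx4
  rw [div_le_iff₀ (by positivity)]
  set cd := (((Finset.range x).filter (fun n => good (PH H) W (n + 1) ∧ 1 ≤ n)).card : ℝ)
  nlinarith

/-- many shifts in the sieved models -/
theorem many_law2 (hA : ∀ n, MeasurableSet[ℱ n] (A n)) (Q : Finset ℕ) (hQ : ∀ p ∈ Q, p.Prime)
    (hcop : ∀ n, (∃ p ∈ Q, p ∣ n) → A n = ∅)
    (hd : ∀ᵐ ω ∂μ, Tendsto (fun n : ℕ => dens μ ℱ A n ω * Real.log n)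
      (atTop ⊓ 𝓟 {n : ℕ | ∀ p ∈ Q, ¬ p ∣ n + 1}) (𝓝 (∏ p ∈ Q, (1 - 1 / (p : ℝ))⁻¹))) :
    ∀ᵐ ω ∂μ, ∀ C : ℕ, ∀ δ : ℝ, 0 < δ → δ < 1 → ∀ᶠ x : ℕ in atTop, ∀ H : Finset ℕ, (∀ h ∈ H, h ≤ x ^ C) →
      (H.card : ℝ) ≤ (1 - δ) * (Real.log x / Real.log (Real.log x)) → (∀ p ∈ Q, occ H p < p) →
      (x : ℝ) ^ (δ / 4) ≤ TN A (rhoW (∏ p ∈ Q, p)) x H ∅ ω := by
  classical
  set W := ∏ p ∈ Q, p with hWdef
  have hW : 0 < W := Finset.prod_pos fun q hq => (hQ q hq).pos
  have hc : ∀ n, Nat.Coprime n W ↔ ∀ p ∈ Q, ¬ p ∣ n := by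
    intro n
    rw [hWdef, Nat.coprime_prod_right_iff]
    refine forall₂_congr fun p hp => ?_
    rw [Nat.coprime_comm]
    exact Nat.Prime.coprime_iff_not_dvd (hQ p hp)
  have hprof := dens_profile (μ := μ) hA W hW (fun n hn => hcop n (by
    rw [hc] at hn
    push Not at hn
    exact hn)) (by
    rw [totient_prod Q hQ]
    simp_rw [hc]
    exact hd)
  have hρ : ∀ n, 0 ≤ rhoW W n ∧ rhoW W n ≤ 1 := fun n => ⟨rhoW_nonneg W n, rhoW_le W n⟩
  filter_upwards [tup_law2 (μ := μ) hA (rhoW W) hρ hprof] with ω hω C δ hδ hδ1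
  filter_upwards [hω C (1 / 2) (by norm_num) (by norm_num), many_ev2 C W hW hδ hδ1, many_E (A := A) (Ω := Ω) Q hQ C]
    with x hx1 hx2 hx3 H hH hk hadm
  have h1 := (hx1 H (fun h hh => Finset.mem_range.2 (Nat.lt_succ_of_le (hH h hh)))).1
  have h2 := hx2 H.card hk
  have hE := hx3 H hH hadm ω
  rw [← hWdef] at hE
  have h4 : (1 - 1 / 2 : ℝ) ^ H.card * ((x / (2 * W)) * (((C + 2) * Real.log x)⁻¹) ^ H.card) ≤ (1 - 1 / 2 : ℝ) ^ H.card * TN A (rhoW W) x ∅ H ω :=
    mul_le_mul_of_nonneg_left hE (by positivity)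
  linarith

end Pool.Agent.R528.RM
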