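import Mathlib
import Pool.Agent.R528.RM.Many2

set_option autoImplicit false
set_option linter.unusedSectionVars false

/-! # Many shifts: the range is sharp -/

open MeasureTheory Filter Set Polynomial
open scoped ENNReal Topology

namespace Pool.Agent.R528.RM

variable {Ω : Type} {m0 : MeasurableSpace Ω} {μ : Measure Ω} [IsProbabilityMeasure μ]
  {ℱ : Filtration ℕ m0} {A : ℕ → Set Ω}

/-- the probability that all the elements of `T` are chosen -/
theorem chosen_le (hA : ∀ n, MeasurableSet[ℱ n] (A n)) (e : ℕ → ℝ) (he : ∀ n, 0 ≤ e n) (N : ℕ) (T : Finset ℕ) :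
    (∀ t ∈ T, N < t) → ∀ m, (∀ t ∈ T, t ≤ m) →
      μ.real ({ω | ∀ t ∈ T, ω ∈ A t} ∩ {ω | ∀ n, N ≤ n → n < m → dens μ ℱ A n ω ≤ e (n + 1)}) ≤ ∏ t ∈ T, e t := by
  classical
  induction T using Finset.induction_on_max with
  | empty =>
    intro _ m _
    rw [Finset.prod_empty]
    exact measureReal_le_one
  | insert g T hg ih =>
    intro hN m hm
    have hgT : g ∉ T := fun h => lt_irrefl _ (hg g h)
    have hNg : N < g := hN g (Finset.mem_insert_self _ _)
    have hgm : g ≤ m := hm g (Finset.mem_insert_self _ _)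
    have hg1 : g - 1 + 1 = g := by omega
    set B : Set Ω := {ω | ∀ t ∈ T, ω ∈ A t} ∩ {ω | ∀ n, N ≤ n → n < g → dens μ ℱ A n ω ≤ e (n + 1)} with hB
    have hBm : MeasurableSet[ℱ (g - 1)] B := by
      have h1 : B = (⋂ t ∈ T, A t) ∩ ⋂ n ∈ Finset.Ico N g, {ω | dens μ ℱ A n ω ≤ e (n + 1)} := by
        ext ω
        simp only [hB, mem_inter_iff, mem_ofPred_eq, mem_iInter, Finset.mem_Ico, and_imp]
      rw [h1]
      refine @MeasurableSet.inter _ (ℱ (g - 1)) _ _ ?_ ?_
      · refine Finset.measurableSet_biInter _ fun t ht => ?_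
        exact ℱ.mono (by have := hg t ht; omega) _ (hA t)
      · refine Finset.measurableSet_biInter _ fun n hn => ?_
        have h2 := (Finset.mem_Ico.1 hn).2
        have h3 : StronglyMeasurable[ℱ n] (dens μ ℱ A n) := dens_meas n
        exact ℱ.mono (by omega) _ (h3.measurable measurableSet_Iic)
    have h1 : μ.real (B ∩ A (g - 1 + 1)) ≤ e g * μ.real B := by
      refine upper_meas (μ := μ) hA (g - 1) hBm fun ω hω => ?_
      have := hω.2 (g - 1) (by omega) (by omega)
      rwa [hg1] at this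
    rw [hg1] at h1
    have h2 : μ.real B ≤ ∏ t ∈ T, e t := by
      refine (measureReal_mono ?_ (measure_ne_top _ _)).trans (ih (fun t ht => hN t (Finset.mem_insert_of_mem ht)) g (fun t ht => (hg t ht).le))
      exact subset_rfl
    have h3 : {ω | ∀ t ∈ insert g T, ω ∈ A t} ∩ {ω | ∀ n, N ≤ n → n < m → dens μ ℱ A n ω ≤ e (n + 1)} ⊆ B ∩ A g := by
      rintro ω ⟨h4, h5⟩
      have h4' : ∀ t ∈ insert g T, ω ∈ A t := h4
      have h5' : ∀ n, N ≤ n → n < m → dens μ ℱ A n ω ≤ e (n + 1) := h5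
      exact ⟨⟨fun t ht => h4' t (Finset.mem_insert_of_mem ht), fun n h6 h7 => h5' n h6 (by omega)⟩,
        h4' g (Finset.mem_insert_self _ _)⟩
    rw [Finset.prod_insert hgT]
    calc _ ≤ μ.real (B ∩ A g) := measureReal_mono h3 (measure_ne_top _ _)
      _ ≤ e g * μ.real B := h1
      _ ≤ _ := mul_le_mul_of_nonneg_left h2 (he g)

/-- the number of shifts -/
noncomputable def kj (δ : ℝ) (j : ℕ) : ℕ := ⌈(1 + δ / 2) * (j * Real.log 2 / Real.log j)⌉₊

/-- the shifts -/
noncomputable def Hj (W : ℕ) (δ : ℝ) (j : ℕ) : Finset ℕ := (Finset.range (kj δ j)).image (fun i => W * (2 ^ (j / 2) + i))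

lemma Hj_card {W : ℕ} (hW : 0 < W) (δ : ℝ) (j : ℕ) : (Hj W δ j).card = kj δ j := by
  unfold Hj
  rw [Finset.card_image_of_injective, Finset.card_range]
  intro a b hab
  have : 2 ^ (j / 2) + a = 2 ^ (j / 2) + b := Nat.eq_of_mul_eq_mul_left hW hab
  omega

lemma Hj_occ {W : ℕ} (δ : ℝ) (j : ℕ) {p : ℕ} (hp : 2 ≤ p) (hpW : p ∣ W) : occ (Hj W δ j) p < p := by
  classical
  have h1 : occ (Hj W δ j) p ≤ 1 := by
    unfold occ
    rw [Finset.card_le_one]
    intro a ha b hb
    obtain ⟨a', ha', rfl⟩ := Finset.mem_image.1 ha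
    obtain ⟨b', hb', rfl⟩ := Finset.mem_image.1 hb
    unfold Hj at ha' hb'
    obtain ⟨i, _, rfl⟩ := Finset.mem_image.1 ha'
    obtain ⟨i', _, rfl⟩ := Finset.mem_image.1 hb'
    have e1 : W * (2 ^ (j / 2) + i) % p = 0 := Nat.mod_eq_zero_of_dvd (hpW.mul_right _)
    have e2 : W * (2 ^ (j / 2) + i') % p = 0 := Nat.mod_eq_zero_of_dvd (hpW.mul_right _)
    rw [e1, e2]
  omega

/-- analytic facts -/
lemma manyup_ev {W : ℕ} (hW : 0 < W) {δ : ℝ} (hδ : 0 < δ) (hδ1 : δ < 1) (c : ℝ) (hc : 0 < c) :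
    ∀ᶠ j : ℕ in atTop, (0 ≤ c / (((j : ℝ) - 1) * Real.log 2) ∧
      (2 : ℝ) ^ (j + 1) * (c / (((j : ℝ) - 1) * Real.log 2)) ^ kj δ j ≤ 2 * ((2 : ℝ) ^ (-(δ / 4))) ^ j) ∧
      (kj δ j : ℝ) ≤ (1 + δ) * (j * Real.log 2 / Real.log j) ∧ W * (2 ^ (j / 2) + kj δ j) ≤ 2 ^ j := by
  have hl2 : 0 < Real.log 2 := Real.log_pos (by norm_num)
  have hcast : Tendsto (fun j : ℕ => (j : ℝ)) atTop atTop := tendsto_natCast_atTop_atTop
  -- the first bound
  have t1 : ∀ᶠ j : ℕ in atTop, c / (((j : ℝ) - 1) * Real.log 2) ≤ (j : ℝ) ^ (-(1 - δ / 8)) := by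
    have h1 : Tendsto (fun x : ℝ => x ^ (δ / 8)) atTop atTop := tendsto_rpow_atTop (by positivity)
    have h2 := (h1.comp hcast).eventually_ge_atTop (2 * c / Real.log 2)
    filter_upwards [h2, eventually_ge_atTop 2] with j hj1 hj2
    have hj2' : (2 : ℝ) ≤ j := by exact_mod_cast hj2
    have hj0 : (0 : ℝ) < j := by linarith
    simp only [Function.comp_apply] at hj1
    rw [div_le_iff₀ (by nlinarith)]
    have h3 : (j : ℝ) ^ (-(1 - δ / 8)) = (j : ℝ) ^ (δ / 8) / j := by
      rw [show -(1 - δ / 8) = δ / 8 - 1 by ring, Real.rpow_sub hj0, Real.rpow_one]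
    rw [h3]
    have h4 : (j : ℝ) / 2 ≤ j - 1 := by linarith
    have h5 : 0 ≤ (j : ℝ) ^ (δ / 8) / j := by positivity
    calc c = 2 * c / Real.log 2 / j * (j / 2 * Real.log 2) := by field_simp
      _ ≤ (j : ℝ) ^ (δ / 8) / j * (((j : ℝ) - 1) * Real.log 2) := by
          apply mul_le_mul (div_le_div_of_nonneg_right hj1 hj0.le) (mul_le_mul_of_nonneg_right h4 hl2.le) (by positivity) h5
  -- `j / log j` is large
  have t2 : Tendsto (fun j : ℕ => (j : ℝ) * Real.log 2 / Real.log j) atTop atTop := by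
    have h1 : Tendsto (fun x : ℝ => Real.log x / x) atTop (𝓝[>] 0) := by
      refine tendsto_nhdsWithin_iff.2 ⟨?_, ?_⟩
      · have := (isLittleO_log_rpow_atTop (zero_lt_one)).tendsto_div_nhds_zero
        simpa using this
      · filter_upwards [eventually_gt_atTop 1] with x hx
        exact div_pos (Real.log_pos hx) (by linarith)
    have h2 := (h1.inv_tendsto_nhdsGT_zero.comp hcast).atTop_mul_const hl2
    refine h2.congr fun j => ?_
    simp only [Function.comp_apply, Pi.inv_apply, inv_div]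
    ring
  have t3 := t2.eventually_ge_atTop (2 / δ)
  -- the size of the shifts
  have t4 : ∀ᶠ j : ℕ in atTop, W * (2 ^ (j / 2) + kj δ j) ≤ 2 ^ j := by
    have h1 : Tendsto (fun j : ℕ => (2 : ℝ) * (3 * (j : ℝ) + 2) / 2 ^ (j - j / 2)) atTop (𝓝 0) := by
      have h2 : Tendsto (fun m : ℕ => (2 : ℝ) * (3 * (2 * (m : ℝ) + 1) + 2) / 2 ^ m) atTop (𝓝 0) := by
        have h3 := tendsto_pow_const_div_const_pow_of_one_lt 1 (show (1 : ℝ) < 2 by norm_num)
        have h4 := tendsto_pow_const_div_const_pow_of_one_lt 0 (show (1 : ℝ) < 2 by norm_num)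
        have h5 := (h3.const_mul 12).add (h4.const_mul 10)
        simp only [mul_zero, add_zero] at h5
        refine h5.congr fun m => ?_
        simp only [pow_one, pow_zero]
        ring
      have h3 : Tendsto (fun j : ℕ => j - j / 2) atTop atTop := by
        refine tendsto_atTop_mono (fun j => show j / 2 ≤ j - j / 2 by omega) ?_
        exact Nat.tendsto_div_const_atTop (by norm_num)
      refine squeeze_zero (fun j => by positivity) (fun j => ?_) (h2.comp h3)
      simp only [Function.comp_apply]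
      apply div_le_div_of_nonneg_right _ (by positivity)
      have h4 : (j : ℝ) ≤ 2 * ((j - j / 2 : ℕ) : ℝ) + 1 := by
        exact_mod_cast (show j ≤ 2 * (j - j / 2) + 1 by omega)
      linarith
    have hWr : (0 : ℝ) < W := by exact_mod_cast hW
    have h6 : ∀ᶠ j : ℕ in atTop, 2 * (W : ℝ) ≤ 2 ^ (j - j / 2) := by
      have h7 : Tendsto (fun j : ℕ => j - j / 2) atTop atTop := by
        refine tendsto_atTop_mono (fun j => show j / 2 ≤ j - j / 2 by omega) ?_
        exact Nat.tendsto_div_const_atTop (by norm_num)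
      have h8 : Tendsto (fun m : ℕ => (2 : ℝ) ^ m) atTop atTop := tendsto_pow_atTop_atTop_of_one_lt (by norm_num)
      exact (h8.comp h7).eventually_ge_atTop _
    filter_upwards [h1.eventually (gt_mem_nhds (show 0 < 1 / (W : ℝ) by positivity)), h6, eventually_ge_atTop 3] with j hj1 hj2 hj3
    have hj3' : (3 : ℝ) ≤ j := by exact_mod_cast hj3
    have h7 : (kj δ j : ℝ) ≤ 3 * j + 2 := by
      unfold kj
      have hlogj : 1 ≤ Real.log (j : ℝ) := by
        rw [Real.le_log_iff_exp_le (by linarith)]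
        have := Real.exp_one_lt_d9
        linarith
      have g1 : (j : ℝ) * Real.log 2 / Real.log j ≤ j := by
        rw [div_le_iff₀ (by linarith)]
        have : Real.log 2 ≤ 1 := by have := Real.log_two_lt_d9; linarith
        nlinarith
      have g2 : 0 ≤ (j : ℝ) * Real.log 2 / Real.log j := by positivity
      have g3 := (Nat.ceil_lt_add_one (show 0 ≤ (1 + δ / 2) * (j * Real.log 2 / Real.log j) by positivity)).le
      nlinarith
    have h9 : (2 : ℝ) * (3 * (j : ℝ) + 2) * W ≤ 2 ^ (j - j / 2) := by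
      rw [div_lt_div_iff₀ (by positivity) hWr] at hj1
      linarith
    have h10 : (2 : ℝ) ^ j = 2 ^ (j / 2) * 2 ^ (j - j / 2) := by
      rw [← pow_add]
      congr 1
      omega
    have h11 : (1 : ℝ) ≤ 2 ^ (j / 2) := one_le_pow₀ (by norm_num)
    have h12 : ((W * (2 ^ (j / 2) + kj δ j) : ℕ) : ℝ) ≤ ((2 ^ j : ℕ) : ℝ) := by
      push_cast
      rw [h10]
      nlinarith
    exact_mod_cast h12
  filter_upwards [t1, t3, t4, eventually_ge_atTop 3] with j h1 h2 h3 h4
  have h4' : (3 : ℝ) ≤ j := by exact_mod_cast h4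
  have hj0 : (0 : ℝ) < j := by linarith
  have hlogj : 1 ≤ Real.log (j : ℝ) := by
    rw [Real.le_log_iff_exp_le hj0]
    have := Real.exp_one_lt_d9
    linarith
  have hq0 : 0 ≤ c / (((j : ℝ) - 1) * Real.log 2) := by
    have : (0 : ℝ) < (j : ℝ) - 1 := by linarith
    positivity
  refine ⟨⟨hq0, ?_⟩, ?_, h3⟩
  · have g1 : (c / (((j : ℝ) - 1) * Real.log 2)) ^ kj δ j ≤ ((j : ℝ) ^ (-(1 - δ / 8))) ^ kj δ j := pow_le_pow_left₀ hq0 h1 _
    have g2 : ((j : ℝ) ^ (-(1 - δ / 8))) ^ kj δ j ≤ (2 : ℝ) ^ (-(1 + δ / 4) * j) := by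
      rw [← Real.rpow_natCast, ← Real.rpow_mul hj0.le, Real.rpow_def_of_pos hj0, Real.rpow_def_of_pos (by norm_num : (0 : ℝ) < 2)]
      apply Real.exp_le_exp.2
      have g3 : (1 + δ / 2) * (j * Real.log 2 / Real.log j) ≤ kj δ j := Nat.le_ceil _
      have g4 : (1 + δ / 2) * (j * Real.log 2) ≤ kj δ j * Real.log j := by
        calc (1 + δ / 2) * (j * Real.log 2) = (1 + δ / 2) * (j * Real.log 2 / Real.log j) * Real.log j := by field_simp
          _ ≤ _ := mul_le_mul_of_nonneg_right g3 (by linarith)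
      have g5 : (1 + δ / 4) * (j * Real.log 2) ≤ (1 - δ / 8) * (kj δ j * Real.log j) := by
        have g6 : (1 - δ / 8) * ((1 + δ / 2) * (j * Real.log 2)) ≤ (1 - δ / 8) * (kj δ j * Real.log j) :=
          mul_le_mul_of_nonneg_left g4 (by linarith)
        have g7 : 0 ≤ (j : ℝ) * Real.log 2 := by positivity
        nlinarith [mul_nonneg hδ.le (sub_nonneg.2 hδ1.le)]
      nlinarith
    calc (2 : ℝ) ^ (j + 1) * (c / (((j : ℝ) - 1) * Real.log 2)) ^ kj δ j ≤ 2 ^ (j + 1) * (2 : ℝ) ^ (-(1 + δ / 4) * j) :=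
          mul_le_mul_of_nonneg_left (g1.trans g2) (by positivity)
      _ = 2 * ((2 : ℝ) ^ (-(δ / 4))) ^ j := by
          rw [pow_succ, ← Real.rpow_natCast (2 ^ (-(δ / 4))), ← Real.rpow_mul (by norm_num), ← Real.rpow_natCast 2 j]
          rw [mul_comm ((2 : ℝ) ^ (j : ℝ)) 2, mul_assoc, ← Real.rpow_add (by norm_num)]
          congr 2
          ring
  · have g1 := (Nat.ceil_lt_add_one (show 0 ≤ (1 + δ / 2) * (j * Real.log 2 / Real.log j) by positivity)).le
    unfold kj
    refine g1.trans ?_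
    rw [div_le_iff₀ hδ] at h2
    nlinarith

/-- the range is sharp -/
theorem many_up (hA : ∀ n, MeasurableSet[ℱ n] (A n)) (Q : Finset ℕ) (hQ : ∀ p ∈ Q, p.Prime)
    (hcop : ∀ n, (∃ p ∈ Q, p ∣ n) → A n = ∅)
    (hd : ∀ᵐ ω ∂μ, Tendsto (fun n : ℕ => dens μ ℱ A n ω * Real.log n)
      (atTop ⊓ 𝓟 {n : ℕ | ∀ p ∈ Q, ¬ p ∣ n + 1}) (𝓝 (∏ p ∈ Q, (1 - 1 / (p : ℝ))⁻¹))) :
    ∀ᵐ ω ∂μ, ∀ δ : ℝ, 0 < δ → ∀ᶠ x : ℕ in atTop, ∃ H : Finset ℕ, (∀ h ∈ H, h ≤ x) ∧
      (H.card : ℝ) ≤ (1 + δ) * (Real.log x / Real.log (Real.log x)) ∧ (∀ p ∈ Q, occ H p < p) ∧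
      ∀ n, 1 ≤ n → n ≤ x → ∃ h ∈ H, ω ∉ A (n + h) := by
  classical
  set W := ∏ p ∈ Q, p with hWdef
  have hW : 0 < W := Finset.prod_pos fun q hq => (hQ q hq).pos
  have hc : ∀ n, Nat.Coprime n W ↔ ∀ p ∈ Q, ¬ p ∣ n := by
    intro n
    rw [hWdef, Nat.coprime_prod_right_iff]
    refine forall₂_congr fun p hp => ?_
    rw [Nat.coprime_comm]
    exact Nat.Prime.coprime_iff_not_dvd (hQ p hp)
  have hprof := dens_profile (μ := μ) hA W hW (fun n hn => hcop n (by
    rw [hc] at hn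
    push Not at hn
    exact hn)) (by
    rw [totient_prod Q hQ]
    simp_rw [hc]
    exact hd)
  have hρ : ∀ n, 0 ≤ rhoW W n ∧ rhoW W n ≤ 1 := fun n => ⟨rhoW_nonneg W n, rhoW_le W n⟩
  have hl2 : 0 < Real.log 2 := Real.log_pos (by norm_num)
  set κ : ℝ := (W : ℝ) / Nat.totient W with hκ
  have hκ0 : 0 < κ := div_pos (by exact_mod_cast hW) (by exact_mod_cast Nat.totient_pos.2 hW)
  -- for each `δ` and each `N`
  have key : ∀ δ : ℝ, 0 < δ → δ < 1 → ∀ N : ℕ, ∀ᵐ ω ∂μ, (∀ n, N ≤ n → dens μ ℱ A n ω ≤ 2 * rhoW W (n + 1)) →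
      ∀ᶠ j : ℕ in atTop, ∀ n, 1 ≤ n → n ≤ 2 ^ (j + 1) → ∃ h ∈ Hj W δ j, ω ∉ A (n + h) := by
    intro δ hδ hδ1 N
    set Bad : ℕ → Set Ω := fun j => ⋃ n ∈ Finset.Icc 1 (2 ^ (j + 1)),
      ({ω | ∀ t ∈ (Hj W δ j).image (n + ·), ω ∈ A t} ∩ {ω | ∀ m, N ≤ m → dens μ ℱ A m ω ≤ 2 * rhoW W (m + 1)}) with hBad
    have hsum : Summable (fun j : ℕ => 2 * ((2 : ℝ) ^ (-(δ / 4))) ^ j) := by
      apply Summable.mul_left
      apply summable_geometric_of_lt_one (by positivity)
      exact Real.rpow_lt_one_of_one_lt_of_neg (by norm_num) (by linarith)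
    have hb : ∀ᶠ j in atTop, μ.real (Bad j) ≤ 2 * ((2 : ℝ) ^ (-(δ / 4))) ^ j := by
      have t1 : ∀ᶠ j : ℕ in atTop, N + 2 ≤ 2 ^ (j / 2) := by
        have h7 : Tendsto (fun j : ℕ => j / 2) atTop atTop := Nat.tendsto_div_const_atTop (by norm_num)
        have h8 : Tendsto (fun m : ℕ => 2 ^ m) atTop atTop := tendsto_pow_atTop_atTop_of_one_lt (by norm_num)
        exact (h8.comp h7).eventually_ge_atTop _
      filter_upwards [manyup_ev hW hδ hδ1 (4 * κ) (by positivity), t1, eventually_ge_atTop 3] with j hj1 hj2 hj3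
      have hj3' : (3 : ℝ) ≤ j := by exact_mod_cast hj3
      refine (measureReal_biUnion_finset_le _ _).trans ?_
      have h1 : ∀ n ∈ Finset.Icc 1 (2 ^ (j + 1)), μ.real ({ω | ∀ t ∈ (Hj W δ j).image (n + ·), ω ∈ A t} ∩
          {ω | ∀ m, N ≤ m → dens μ ℱ A m ω ≤ 2 * rhoW W (m + 1)}) ≤ (4 * κ / (((j : ℝ) - 1) * Real.log 2)) ^ kj δ j := by
        intro n _
        have hmem : ∀ t ∈ (Hj W δ j).image (n + ·), 2 ^ (j / 2) ≤ t := by
          intro t ht
          obtain ⟨h, hh, rfl⟩ := Finset.mem_image.1 ht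
          unfold Hj at hh
          obtain ⟨i, _, rfl⟩ := Finset.mem_image.1 hh
          nlinarith
        have h2 := chosen_le (μ := μ) hA (fun m => 2 * rhoW W m) (fun m => by have := (hρ m).1; positivity) N
          ((Hj W δ j).image (n + ·)) (fun t ht => by have := hmem t ht; omega) (((Hj W δ j).image (n + ·)).sup id)
          (fun t ht => Finset.le_sup (f := id) ht)
        have h3 : ∏ t ∈ (Hj W δ j).image (n + ·), 2 * rhoW W t ≤ (4 * κ / (((j : ℝ) - 1) * Real.log 2)) ^ kj δ j := by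
          rw [← Hj_card hW δ j, ← Finset.card_image_of_injective (Hj W δ j) (add_right_injective n), ← Finset.prod_const]
          refine Finset.prod_le_prod (fun t _ => by have := (hρ t).1; positivity) fun t ht => ?_
          have h4 := hmem t ht
          have h5 : ((j : ℝ) - 1) * Real.log 2 / 2 ≤ Real.log (t : ℝ) := by
            have h6 : ((2 ^ (j / 2) : ℕ) : ℝ) ≤ (t : ℝ) := by exact_mod_cast h4
            have h7 := Real.log_le_log (by positivity) h6
            push_cast at h7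
            rw [Real.log_pow] at h7
            have h8 : ((j : ℝ) - 1) / 2 ≤ ((j / 2 : ℕ) : ℝ) := by
              have : (j : ℝ) ≤ 2 * ((j / 2 : ℕ) : ℝ) + 1 := by exact_mod_cast (show j ≤ 2 * (j / 2) + 1 by omega)
              linarith
            nlinarith
          have h9 : 0 < ((j : ℝ) - 1) * Real.log 2 := mul_pos (by linarith) hl2
          have h10 : 0 < Real.log (t : ℝ) := by linarith
          have h11 : rhoW W t ≤ κ / Real.log t := by
            unfold rhoW
            split_ifs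
            · exact min_le_right _ _
            · positivity
          calc 2 * rhoW W t ≤ 2 * (κ / Real.log t) := by linarith
            _ ≤ 2 * (κ / (((j : ℝ) - 1) * Real.log 2 / 2)) := by
                apply mul_le_mul_of_nonneg_left _ (by norm_num)
                exact div_le_div_of_nonneg_left hκ0.le (by linarith) h5
            _ = _ := by
                field_simp
                norm_num
        refine (measureReal_mono ?_ (measure_ne_top _ _)).trans (h2.trans h3)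
        rintro ω ⟨h4, h5⟩
        exact ⟨h4, fun m hm _ => h5 m hm⟩
      refine (Finset.sum_le_sum h1).trans ?_
      rw [Finset.sum_const, nsmul_eq_mul, Nat.card_Icc]
      refine le_trans (le_of_eq ?_) hj1.1.2
      congr 1
      push_cast [Nat.add_sub_cancel]
      ring
    filter_upwards [bc_real (μ := μ) hsum hb] with ω hω hgood
    filter_upwards [hω] with j hj n h1 h2
    by_contra hno
    push Not at hno
    apply hj
    simp only [hBad, Set.mem_iUnion]
    refine ⟨n, Finset.mem_Icc.2 ⟨h1, h2⟩, ?_, hgood⟩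
    show ∀ t ∈ (Hj W δ j).image (n + ·), ω ∈ A t
    intro t ht
    obtain ⟨h, hh, rfl⟩ := Finset.mem_image.1 ht
    exact hno h hh
  have key2 : ∀ᵐ ω ∂μ, ∀ m N : ℕ, (∀ n, N ≤ n → dens μ ℱ A n ω ≤ 2 * rhoW W (n + 1)) →
      ∀ᶠ j : ℕ in atTop, ∀ n, 1 ≤ n → n ≤ 2 ^ (j + 1) → ∃ h ∈ Hj W (1 / ((m : ℝ) + 2)) j, ω ∉ A (n + h) := by
    refine ae_all_iff.2 fun m => ae_all_iff.2 fun N => key _ (by positivity) ?_ N
    rw [div_lt_one (by positivity)]
    linarith [Nat.cast_nonneg (α := ℝ) m]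
  filter_upwards [key2, hprof] with ω hω1 hω2 δ hδ
  obtain ⟨N, hN⟩ := eventually_atTop.1 (hω2 1 one_pos)
  have hN' : ∀ n, N ≤ n → dens μ ℱ A n ω ≤ 2 * rhoW W (n + 1) := by
    intro n hn
    have := (abs_le.1 (hN n hn)).2
    linarith
  obtain ⟨m, hm⟩ : ∃ m : ℕ, 1 / ((m : ℝ) + 2) ≤ δ := by
    obtain ⟨m, hm⟩ := exists_nat_gt (1 / δ)
    refine ⟨m, ?_⟩
    rw [div_le_iff₀ (by positivity)]
    rw [div_lt_iff₀ hδ] at hm
    nlinarith
  set δ' : ℝ := 1 / ((m : ℝ) + 2) with hδ'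
  have hδ'0 : 0 < δ' := by positivity
  have hδ'1 : δ' < 1 := by
    rw [hδ', div_lt_one (by positivity)]
    linarith [Nat.cast_nonneg (α := ℝ) m]
  have hj := ((hω1 m N hN').and (manyup_ev hW hδ'0 hδ'1 1 one_pos)).and (eventually_ge_atTop 5)
  have hlog2 : Tendsto (fun x : ℕ => Nat.log 2 x) atTop atTop := by
    refine tendsto_atTop.2 fun b => ?_
    filter_upwards [eventually_ge_atTop (2 ^ b)] with x hx
    exact Nat.le_log_of_pow_le (by norm_num) hx
  filter_upwards [hlog2.eventually hj, eventually_ge_atTop 2] with x hx hx2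
  obtain ⟨⟨h1, -, h3, h4⟩, h5⟩ := hx
  set j := Nat.log 2 x with hjdef
  have hx0 : x ≠ 0 := by omega
  have hjx : 2 ^ j ≤ x := Nat.pow_log_le_self 2 hx0
  have hxj : x < 2 ^ (j + 1) := Nat.lt_pow_succ_log_self (by norm_num) x
  refine ⟨Hj W δ' j, ?_, ?_, ?_, ?_⟩
  · intro h hh
    unfold Hj at hh
    obtain ⟨i, hi, rfl⟩ := Finset.mem_image.1 hh
    have := Finset.mem_range.1 hi
    have : W * (2 ^ (j / 2) + i) ≤ W * (2 ^ (j / 2) + kj δ' j) := Nat.mul_le_mul_left _ (by omega)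
    omega
  · rw [Hj_card hW]
    have h5' : (5 : ℝ) ≤ j := by exact_mod_cast h5
    have hl2a : (0.69 : ℝ) < Real.log 2 := by have := Real.log_two_gt_d9; linarith
    have hl2b : Real.log 2 < 1 := by have := Real.log_two_lt_d9; linarith
    have hu : Real.exp 1 ≤ j * Real.log 2 := by
      have := Real.exp_one_lt_d9
      nlinarith
    have hux : (j : ℝ) * Real.log 2 ≤ Real.log x := by
      rw [← Real.log_pow]
      exact Real.log_le_log (by positivity) (by exact_mod_cast hjx)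
    have hul : 1 ≤ Real.log (j * Real.log 2) := by
      rw [Real.le_log_iff_exp_le (by positivity)]
      exact hu
    have hxl : 1 ≤ Real.log (Real.log x) := by
      rw [Real.le_log_iff_exp_le (by linarith [Real.exp_pos 1])]
      exact hu.trans hux
    have g1 : (j : ℝ) * Real.log 2 / Real.log j ≤ j * Real.log 2 / Real.log (j * Real.log 2) := by
      apply div_le_div_of_nonneg_left (by positivity) (by linarith)
      apply Real.log_le_log (by positivity)
      nlinarith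
    have g2 : (j : ℝ) * Real.log 2 / Real.log (j * Real.log 2) ≤ Real.log x / Real.log (Real.log x) := by
      have g3 := Real.log_div_self_antitoneOn (show (j : ℝ) * Real.log 2 ∈ {x | Real.exp 1 ≤ x} from hu)
        (show Real.log x ∈ {x | Real.exp 1 ≤ x} from hu.trans hux) hux
      have p1 : 0 < (j : ℝ) * Real.log 2 := by positivity
      have p2 : 0 < Real.log (x : ℝ) := by linarith
      rw [div_le_div_iff₀ p2 p1] at g3
      rw [div_le_div_iff₀ (by linarith) (by linarith)]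
      linarith
    have g4 : 0 ≤ Real.log x / Real.log (Real.log x) := div_nonneg (by linarith [Real.exp_pos 1]) (by linarith)
    have g5 : 0 ≤ (j : ℝ) * Real.log 2 / Real.log j := by positivity
    calc (kj δ' j : ℝ) ≤ (1 + δ') * (j * Real.log 2 / Real.log j) := h3
      _ ≤ (1 + δ') * (Real.log x / Real.log (Real.log x)) := mul_le_mul_of_nonneg_left (g1.trans g2) (by linarith)
      _ ≤ _ := mul_le_mul_of_nonneg_right (by linarith) g4
  · intro p hp
    exact Hj_occ δ' j (hQ p hp).two_le (Finset.dvd_prod_of_mem _ hp)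
  · intro n hn1 hn2
    exact h1 n hn1 (by omega)

end Pool.Agent.R528.RM
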