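import Mathlib
import Pool.Agent.R528.RM.NoRun
import Pool.Agent.R528.RM.Law
import Pool.Agent.R528.RM.ER

set_option autoImplicit false
set_option linter.unusedSectionVars false

/-! # Maximal gaps: lower bound for all scales -/

open MeasureTheory Filter Set
open scoped ENNReal Topology

namespace Pool.Agent.R528.RM

variable {Ω : Type} {m0 : MeasurableSpace Ω} {μ : Measure Ω} [IsProbabilityMeasure μ]
  {ℱ : Filtration ℕ m0} {A : ℕ → Set Ω}

lemma exp_ll {L : ℝ} (hL : 1 < L) (p : ℝ) : Real.exp (p * ll L) = Real.log L ^ p := by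
  rw [Real.rpow_def_of_pos (Real.log_pos hL)]
  unfold ll
  congr 1
  ring

/-- runs of length `G ≤ L² - L (log L + θ log log L)` -/
theorem ev_max (θ δ : ℝ) (hθ : 0 ≤ θ) (hδ : 0 < δ) (hδ1 : δ ≤ 1) : ∀ᶠ L : ℝ in atTop,
    ∀ G : ℕ, (G : ℝ) ≤ L ^ 2 - L * (Real.log L + θ * ll L) → L ^ 2 / 2 ≤ G →
      0 < L - 1 - δ * ll (L + 2) ∧ 1 / (L - 1 - δ * ll (L + 2)) ≤ 1 / 2 ∧
      Real.exp (-(L - Real.log L - (θ - δ) * ll L + 20)) ≤ (1 - 1 / (L - 1 - δ * ll (L + 2))) ^ G ∧
      (G : ℝ) * (1 / (L + 2 + δ * ll (L + 2)) * (1 - 1 / (L - 1 - δ * ll (L + 2))) ^ G) ≤ 1 ∧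
      (G : ℝ) ≤ L ^ 2 ∧ 1 / (2 * L) ≤ 1 / (L + 2 + δ * ll (L + 2)) := by
  have hexp : ∀ᶠ L : ℝ in atTop, L ≤ Real.exp (L / 2) := by
    filter_upwards [eventually_ge_atTop (8 : ℝ)] with L hL
    have := Real.quadratic_le_exp_of_nonneg (show 0 ≤ L / 2 by linarith)
    nlinarith
  have hlogge : ∀ᶠ L : ℝ in atTop, 10 ≤ Real.log L := Real.tendsto_log_atTop.eventually_ge_atTop 10
  filter_upwards [ev_basic, hexp, hlogge] with L hb hexp hlogge G hG hG1
  obtain ⟨hL, h1, h2, h3, h4, h5, h6⟩ := hb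
  have hlL : ll L ≤ Real.log L / 2 := by
    have h7 := Real.log_le_sub_one_of_pos (show 0 < Real.log L / 2 by linarith)
    rw [Real.log_div (by linarith) (by norm_num)] at h7
    have := Real.log_two_lt_d9
    unfold ll
    linarith
  obtain ⟨lam, hlam⟩ : ∃ lam, lam = ll L := ⟨_, rfl⟩
  obtain ⟨a, ha⟩ : ∃ a, a = δ * ll (L + 2) := ⟨_, rfl⟩
  obtain ⟨P, hP⟩ : ∃ P, P = Real.log L + θ * lam := ⟨_, rfl⟩
  rw [← hlam] at h1 h2 h3 h4 h5 h6 hlL hG ⊢
  have ha0 : 0 ≤ a := by rw [ha]; exact mul_nonneg hδ.le (by linarith)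
  have ha1 : a ≤ δ * (lam + 1) := by rw [ha]; exact mul_le_mul_of_nonneg_left h3 hδ.le
  have ha2 : a ≤ lam + 1 := by nlinarith
  rw [← ha, ]
  have hlamL : lam ≤ L / 100 := by nlinarith
  have hD : L / 2 ≤ L - 1 - a := by linarith
  obtain ⟨D, hDd⟩ : ∃ D, D = L - 1 - a := ⟨_, rfl⟩
  rw [← hDd] at hD ⊢
  have hD0 : 0 < D := by linarith
  have hu : 1 / D ≤ 1 / 2 := by
    apply one_div_le_one_div_of_le (by norm_num)
    linarith
  have hθl : 0 ≤ θ * lam := mul_nonneg hθ (by linarith)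
  have hPge : 1 + a ≤ P := by
    rw [hP]
    linarith
  have hG' : (G : ℝ) ≤ L * (L - P) := by
    rw [hP]
    linarith
  have hGL : (G : ℝ) ≤ L ^ 2 := by nlinarith
  -- `G / D ≤ L - P + 1 + a`
  have hkey : (G : ℝ) * (1 / D) ≤ L - P + 1 + a := by
    rw [mul_one_div, div_le_iff₀ hD0]
    have e1 : (L - P + 1 + a) * D = L * (L - P) + (1 + a) * (P - (1 + a)) := by
      rw [hDd]; ring
    have e2 : 0 ≤ (1 + a) * (P - (1 + a)) := mul_nonneg (by linarith) (by linarith)
    rw [e1]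
    linarith
  have hkey2 : (G : ℝ) * (1 / D) ^ 2 ≤ 4 := by
    rw [one_div, inv_pow, ← div_eq_mul_inv, div_le_iff₀ (by positivity)]
    have h8 : (L / 2) ^ 2 ≤ D ^ 2 := pow_le_pow_left₀ (by linarith) hD 2
    have h9 : (L / 2) ^ 2 = L ^ 2 / 4 := by ring
    linarith
  have hlow : Real.exp (-(L - Real.log L - (θ - δ) * lam + 20)) ≤ (1 - 1 / D) ^ G := by
    have hpos : 0 < 1 - 1 / D := by linarith
    have h7 : 1 - (1 - 1 / D)⁻¹ ≤ Real.log (1 - 1 / D) := Real.one_sub_inv_le_log_of_pos hpos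
    have h8 : -(1 / D + 2 * (1 / D) ^ 2) ≤ 1 - (1 - 1 / D)⁻¹ := by
      have hu0 : 0 < 1 / D := by positivity
      obtain ⟨u, hud⟩ : ∃ u, u = 1 / D := ⟨_, rfl⟩
      rw [← hud] at hu hu0 hpos ⊢
      have h9 : (1 - u)⁻¹ ≤ 1 + u + 2 * u ^ 2 := by
        rw [inv_le_iff_one_le_mul₀ hpos]
        nlinarith [mul_nonneg (sq_nonneg u) (show 0 ≤ 1 - 2 * u by linarith)]
      linarith
    have h9 : (1 - 1 / D) ^ G = Real.exp (G * Real.log (1 - 1 / D)) := by
      rw [mul_comm, Real.exp_mul, Real.exp_log hpos, Real.rpow_natCast]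
    rw [h9]
    apply Real.exp_le_exp.2
    have h10 : (G : ℝ) * -(1 / D + 2 * (1 / D) ^ 2) ≤ G * Real.log (1 - 1 / D) :=
      mul_le_mul_of_nonneg_left (h8.trans h7) (Nat.cast_nonneg G)
    have h11 : (G : ℝ) * -(1 / D + 2 * (1 / D) ^ 2) = -(G * (1 / D)) - 2 * (G * (1 / D) ^ 2) := by
      ring
    have h12 : δ * (lam + 1) = δ * lam + δ := by ring
    have h13 : (θ - δ) * lam = θ * lam - δ * lam := by ring
    linarith
  have hl2 : 1 / (L + 2 + a) ≤ 1 / L := one_div_le_one_div_of_le (by linarith) (by linarith)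
  refine ⟨hD0, hu, hlow, ?_, hGL, one_div_le_one_div_of_le (by linarith) (by linarith)⟩
  have h7 : (1 - 1 / D) ^ G ≤ Real.exp (-(L / 2)) := by
    have h8 : 1 - 1 / D ≤ Real.exp (-(1 / D)) := by
      have := Real.add_one_le_exp (-(1 / D))
      linarith
    have h9 : (1 - 1 / D) ^ G ≤ Real.exp (-(1 / D)) ^ G := pow_le_pow_left₀ (by linarith) h8 G
    refine h9.trans ?_
    rw [← Real.exp_nat_mul]
    apply Real.exp_le_exp.2
    have h10 : L / 2 ≤ G * (1 / D) := by
      rw [mul_one_div, le_div_iff₀ hD0]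
      have : L / 2 * D ≤ L / 2 * L := mul_le_mul_of_nonneg_left (by linarith) (by linarith)
      nlinarith
    linarith
  have h8 : (G : ℝ) * (1 / (L + 2 + a) * (1 - 1 / D) ^ G) ≤ L ^ 2 * (1 / L * Real.exp (-(L / 2))) := by
    apply mul_le_mul hGL _ _ (by positivity)
    · exact mul_le_mul hl2 h7 (pow_nonneg (by linarith) _) (by positivity)
    · have : 0 ≤ (1 - 1 / D) ^ G := pow_nonneg (by linarith) _
      have : 0 ≤ 1 / (L + 2 + a) := by
        have : 0 < L + 2 + a := by linarith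
        positivity
      positivity
  refine h8.trans ?_
  have h9 : L ^ 2 * (1 / L * Real.exp (-(L / 2))) = L / Real.exp (L / 2) := by
    rw [Real.exp_neg]
    field_simp
  rw [h9, div_le_one (Real.exp_pos _)]
  exact hexp

/-- a power of the logarithm beyond the first dominates -/
lemma ev_pow (c p : ℝ) (hc : 0 < c) (hp : 1 < p) : ∀ᶠ L : ℝ in atTop,
    2 * Real.log L ≤ c * Real.exp (p * ll L) := by
  have h1 : Tendsto (fun L : ℝ => Real.log L ^ (p - 1)) atTop atTop :=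
    (tendsto_rpow_atTop (by linarith)).comp Real.tendsto_log_atTop
  filter_upwards [(h1.const_mul_atTop hc).eventually_ge_atTop 2, eventually_gt_atTop (Real.exp 1),
    eventually_gt_atTop 1] with L h2 h3 h4
  have h5 : 0 < Real.log L := Real.log_pos h4
  rw [exp_ll h4, show p = (p - 1) + 1 by ring, Real.rpow_add h5, Real.rpow_one, ← mul_assoc]
  exact mul_le_mul_of_nonneg_right h2 h5.le

/-- the number of integers in the critical runs of the scale `i` -/
noncomputable def crL (θ : ℝ) (L : ℝ) : ℕ := ⌊L ^ 2 - L * (Real.log L + θ * ll L)⌋₊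

/-- almost surely every dyadic block has a long run -/
theorem max_low (hA : ∀ n, MeasurableSet[ℱ n] (A n)) {θ δ : ℝ} (hθ : 0 ≤ θ) (hδ : 0 < δ) (hδ1 : δ ≤ 1)
    (hδθ : 1 < θ - δ) :
    ∀ᵐ ω ∂μ, (∃ n₀ : ℕ, ∀ n, n₀ ≤ n → ω ∉ VV μ ℱ A δ n) → ∀ᶠ i : ℕ in atTop, ∃ k, 2 ^ i < k ∧ k ≤ 2 ^ (i + 1) ∧
      ω ∈ A k ∧ ∀ j : ℕ, 1 ≤ j → j ≤ crL θ ((i : ℝ) * Real.log 2) → ω ∉ A (k + j) := by
  obtain ⟨hl0, hl1, hl2⟩ := log_two_facts
  set L : ℕ → ℝ := fun i => (i : ℝ) * Real.log 2 with hL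
  set G : ℕ → ℕ := fun i => crL θ (L i) with hG
  set M : ℕ → ℕ := fun i => 2 ^ i / (2 * G i) with hM
  set l : ℕ → ℝ := fun i => 1 / (L i + 2 + δ * ll (L i + 2)) with hl
  set u : ℕ → ℝ := fun i => 1 / (L i - 1 - δ * ll (L i + 2)) with hu
  set c : ℝ := Real.exp (-20) / 16 with hc
  have hc0 : 0 < c := by positivity
  have hsmall : ∀ᶠ x : ℝ in atTop, Real.log x + θ * ll x ≤ x / 4 := by
    have h1 : ∀ᶠ x : ℝ in atTop, (1 + θ) * Real.log x ≤ x / 4 := by
      have := (Real.isLittleO_log_id_atTop).def (show (0 : ℝ) < 1 / (4 * (1 + θ)) by positivity)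
      filter_upwards [this, eventually_ge_atTop (1 : ℝ)] with x h h'
      rw [Real.norm_of_nonneg (Real.log_nonneg h'), id, Real.norm_of_nonneg (by linarith)] at h
      calc (1 + θ) * Real.log x ≤ (1 + θ) * (1 / (4 * (1 + θ)) * x) := mul_le_mul_of_nonneg_left h (by linarith)
        _ = x / 4 := by field_simp
    filter_upwards [h1, eventually_gt_atTop (1 : ℝ)] with x h1 hx
    have h2 : ll x ≤ Real.log x - 1 := Real.log_le_sub_one_of_pos (Real.log_pos hx)
    have h3 : θ * ll x ≤ θ * Real.log x := mul_le_mul_of_nonneg_left (by linarith) hθ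
    linarith
  have hev : ∀ᶠ i : ℕ in atTop, 1000 ≤ L i ∧ 4 * G i ≤ 2 ^ i ∧ 1 ≤ G i ∧
      0 < L i - 1 - δ * ll (L i + 2) ∧ u i ≤ 1 / 2 ∧
      Real.exp (-(L i - Real.log (L i) - (θ - δ) * ll (L i) + 20)) ≤ (1 - u i) ^ G i ∧
      (G i : ℝ) * (l i * (1 - u i) ^ G i) ≤ 1 ∧ 1 / (2 * L i) ≤ l i ∧
      2 * Real.log (L i) ≤ c * Real.exp ((θ - δ) * ll (L i)) := by
    have h1 := tendsto_iL.eventually ev_basic
    have h2 := tendsto_iL.eventually (ev_max θ δ hθ hδ hδ1)
    have h3 : ∀ᶠ x : ℝ in atTop, 8 * x ^ 2 ≤ Real.exp x := by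
      have := (Real.isLittleO_pow_exp_atTop (n := 2)).def (show (0 : ℝ) < 1 / 8 by norm_num)
      filter_upwards [this] with x hx
      rw [Real.norm_of_nonneg (by positivity), Real.norm_of_nonneg (Real.exp_pos _).le] at hx
      linarith
    filter_upwards [h1, h2, tendsto_iL.eventually h3, tendsto_iL.eventually hsmall,
      tendsto_iL.eventually (ev_pow c (θ - δ) hc0 hδθ)] with i h1 h2 h3 h4 h5
    have hbL : 1000 ≤ L i := h1.1
    have h4' : Real.log (L i) + θ * ll (L i) ≤ L i / 4 := h4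
    have hnn : 0 ≤ L i ^ 2 - L i * (Real.log (L i) + θ * ll (L i)) := by nlinarith
    have hGle : (G i : ℝ) ≤ L i ^ 2 - L i * (Real.log (L i) + θ * ll (L i)) := Nat.floor_le hnn
    have hGge : L i ^ 2 - L i * (Real.log (L i) + θ * ll (L i)) - 1 < G i := Nat.sub_one_lt_floor _
    have hGge' : (L i) ^ 2 / 2 ≤ G i := by nlinarith
    obtain ⟨r1, r2, r3, r4, r5, r6⟩ := h2 (G i) hGle hGge'
    refine ⟨hbL, ?_, ?_, r1, r2, r3, r4, r6, h5⟩
    · have h6 : (4 * G i : ℝ) ≤ 2 ^ i := by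
        have e : (2 : ℝ) ^ i = Real.exp (L i) := pow_two_exp i
        rw [e]
        have h3' : 8 * (L i) ^ 2 ≤ Real.exp (L i) := h3
        have r5' : (G i : ℝ) ≤ (L i) ^ 2 := r5
        nlinarith
      exact_mod_cast h6
    · have h6 : (1 : ℝ) ≤ G i := by nlinarith
      exact_mod_cast h6
  obtain ⟨i₀, hi₀⟩ := eventually_atTop.1 hev
  set V := VV μ ℱ A δ with hV
  have hprob : ∀ᶠ i : ℕ in atTop, μ.real (BB A V univ (2 ^ i) (G i) (M i)) ≤ (4 : ℝ) * (1 / (i : ℝ) ^ 2) := by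
    filter_upwards [eventually_ge_atTop (max i₀ 1)] with i hi
    obtain ⟨a1, a2, a3, a4, a5, a6, a7, a8, a9⟩ := hi₀ i ((le_max_left _ _).trans hi)
    have hi1 : 1 ≤ i := (le_max_right _ _).trans hi
    have hGM : 2 * G i * M i ≤ 2 ^ i := Nat.mul_div_le _ _
    have h1 := BB_le (μ := μ) (ℱ := ℱ) hA (V := V) (fun n => VV_meas δ n) (B := univ) (s := 2 ^ i)
      (@MeasurableSet.univ _ (ℱ (2 ^ i))) (l := l i) (u := u i) ((by positivity : (0 : ℝ) ≤ 1 / (2 * L i)).trans a8)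
      (one_div_pos.2 a4).le (by linarith) (G i) (M i) (by
        intro n hn1 hn2 ω hω
        have e : 2 ^ (i + 1) = 2 ^ i + 2 ^ i := by rw [pow_succ]; ring
        obtain ⟨b1, b2⟩ := log_dyadic (i := i) (n := n) hn1 (by omega)
        exact bounds hδ.le a1 a4 (by linarith) (by linarith) hω) a7 (M i) le_rfl
    refine h1.trans ?_
    rw [probReal_univ, mul_one]
    have hL0 : 0 < L i := by linarith
    have hMG : (2 : ℝ) ^ i / 4 ≤ (M i : ℝ) * G i := by
      have h1 : 2 ^ i < 2 * G i * (M i + 1) := Nat.lt_mul_div_succ (2 ^ i) (show 0 < 2 * G i by omega)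
      have h2 : (2 : ℝ) ^ i < 2 * G i * (M i + 1) := by exact_mod_cast h1
      have h3 : (4 : ℝ) * G i ≤ 2 ^ i := by exact_mod_cast a2
      nlinarith
    have e : (2 : ℝ) ^ i = Real.exp (L i) := pow_two_exp i
    have hlogL : 0 < Real.log (L i) := Real.log_pos (by linarith)
    have h5 : (1 / (2 * L i)) * Real.exp (-(L i - Real.log (L i) - (θ - δ) * ll (L i) + 20)) ≤ l i * (1 - u i) ^ G i :=
      mul_le_mul a8 a6 (Real.exp_pos _).le ((by positivity : (0 : ℝ) ≤ 1 / (2 * L i)).trans a8)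
    have h6 : c * Real.exp ((θ - δ) * ll (L i)) ≤ M i * (G i * (l i * (1 - u i) ^ G i)) / 2 := by
      calc c * Real.exp ((θ - δ) * ll (L i))
          = (2 : ℝ) ^ i / 4 * ((1 / (2 * L i)) * Real.exp (-(L i - Real.log (L i) - (θ - δ) * ll (L i) + 20))) / 2 := by
            have e3 : Real.exp (-(L i - Real.log (L i) - (θ - δ) * ll (L i) + 20)) =
                Real.exp (-(L i)) * L i * Real.exp ((θ - δ) * ll (L i)) * Real.exp (-20) := by
              rw [show Real.exp (-(L i)) * L i * Real.exp ((θ - δ) * ll (L i)) * Real.exp (-20) =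
                Real.exp (-(L i)) * Real.exp (Real.log (L i)) * Real.exp ((θ - δ) * ll (L i)) * Real.exp (-20) by
                  rw [Real.exp_log hL0]]
              rw [← Real.exp_add, ← Real.exp_add, ← Real.exp_add]
              congr 1
              ring
            rw [e3, e, hc]
            have e4 : Real.exp (L i) * Real.exp (-(L i)) = 1 := by rw [← Real.exp_add, add_neg_cancel, Real.exp_zero]
            calc Real.exp (-20) / 16 * Real.exp ((θ - δ) * ll (L i))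
                = (Real.exp (L i) * Real.exp (-(L i))) * (Real.exp (-20) / 16 * Real.exp ((θ - δ) * ll (L i))) := by
                  rw [e4, one_mul]
              _ = _ := by
                field_simp
                ring
        _ ≤ ((M i : ℝ) * G i) * (l i * (1 - u i) ^ G i) / 2 := by
            apply div_le_div_of_nonneg_right _ (by norm_num)
            exact mul_le_mul hMG h5 (by positivity) (by positivity)
        _ = _ := by ring
    have h7 : Real.exp (-(M i * (G i * (l i * (1 - u i) ^ G i)) / 2)) ≤ Real.exp (-(2 * Real.log (L i))) := by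
      apply Real.exp_le_exp.2
      linarith
    refine h7.trans ?_
    have h8 : Real.exp (-(2 * Real.log (L i))) = 1 / (L i) ^ 2 := by
      rw [Real.exp_neg, show 2 * Real.log (L i) = Real.log ((L i) ^ 2) by rw [Real.log_pow]; norm_num,
        Real.exp_log (by positivity), one_div]
    have hi0 : (0 : ℝ) < i := by exact_mod_cast hi1
    rw [h8, mul_one_div, div_le_div_iff₀ (by positivity) (by positivity)]
    have h9 : (i : ℝ) / 2 ≤ L i := by
      have := mul_le_mul_of_nonneg_left hl2 hi0.le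
      simp only [hL]
      linarith
    have h10 : ((i : ℝ) / 2) ^ 2 ≤ (L i) ^ 2 := pow_le_pow_left₀ (by positivity) h9 2
    linarith
  have hsum : ∑' i : ℕ, μ (BB A V univ (2 ^ i) (G i) (M i)) ≠ ∞ := by
    have h1 : Summable (fun i : ℕ => (4 : ℝ) * (1 / (i : ℝ) ^ 2)) :=
      (Real.summable_one_div_nat_pow.2 (by norm_num)).mul_left _
    have h2 : Summable (fun i : ℕ => μ.real (BB A V univ (2 ^ i) (G i) (M i))) := by
      refine Summable.of_norm_bounded_eventually_nat h1 ?_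
      filter_upwards [hprob] with x hx
      rw [Real.norm_of_nonneg measureReal_nonneg]
      exact hx
    have h3 : ∑' i : ℕ, μ (BB A V univ (2 ^ i) (G i) (M i)) =
        ENNReal.ofReal (∑' i : ℕ, μ.real (BB A V univ (2 ^ i) (G i) (M i))) := by
      rw [ENNReal.ofReal_tsum_of_nonneg (fun _ => measureReal_nonneg) h2]
      congr 1
      funext i
      exact (ofReal_measureReal (measure_ne_top _ _)).symm
    rw [h3]
    exact ENNReal.ofReal_ne_top
  filter_upwards [ae_eventually_notMem hsum] with ω hω hnV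
  obtain ⟨n₀, hn₀⟩ := hnV
  filter_upwards [hω, eventually_ge_atTop n₀] with i hi hin
  have hGM : 2 * G i * M i ≤ 2 ^ i := Nat.mul_div_le _ _
  obtain ⟨m, hm, h4⟩ := not_mem_BB (mem_univ ω) hi
  have h5 : 2 * G i * m + 2 * G i ≤ 2 ^ i := by
    calc 2 * G i * m + 2 * G i = 2 * G i * (m + 1) := by ring
      _ ≤ 2 * G i * M i := Nat.mul_le_mul_left _ hm
      _ ≤ _ := hGM
  have e : 2 ^ (i + 1) = 2 ^ i + 2 ^ i := by rw [pow_succ]; ring
  have hlt : i < 2 ^ i := Nat.lt_two_pow_self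
  rcases h4 with h4 | h4
  · obtain ⟨a, ha, h6, h7⟩ := h4
    refine ⟨2 ^ i + 2 * G i * m + a + 1, by omega, by omega, h6, fun j hj1 hj2 => ?_⟩
    have hj2' : j ≤ G i := hj2
    have h8 := h7 (j - 1) (by omega)
    have h9 : 2 ^ i + 2 * G i * m + a + 1 + (j - 1) + 1 = 2 ^ i + 2 * G i * m + a + 1 + j := by omega
    rw [h9] at h8
    exact h8
  · obtain ⟨n', hn1, hn2, hn3⟩ := h4
    exact absurd hn3 (hn₀ n' (by omega))

end Pool.Agent.R528.RM
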