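import Mathlib
import Pool.Agent.R528.RM.MaxGap

set_option autoImplicit false
set_option linter.unusedSectionVars false

/-! # Maximal gaps: upper bound at infinitely many scales -/

open MeasureTheory Filter Set
open scoped ENNReal Topology

namespace Pool.Agent.R528.RM

variable {Ω : Type} {m0 : MeasurableSpace Ω} {μ : Measure Ω} [IsProbabilityMeasure μ]
  {ℱ : Filtration ℕ m0} {A : ℕ → Set Ω}

lemma pow_ge_exp {β β' : ℝ} (h0 : 0 ≤ β) (h1 : β ≤ β') (h2 : β' ≤ 1 / 2) (K : ℕ) :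
    Real.exp (-(2 * β' * K)) ≤ (1 - β) ^ K := by
  have hpos : 0 < 1 - β := by linarith
  have h3 : 1 - (1 - β)⁻¹ ≤ Real.log (1 - β) := Real.one_sub_inv_le_log_of_pos hpos
  have h4 : (1 - β)⁻¹ ≤ 1 + 2 * β := by
    rw [inv_le_iff_one_le_mul₀ hpos]
    nlinarith
  have h5 : (1 - β) ^ K = Real.exp (K * Real.log (1 - β)) := by
    rw [Real.exp_nat_mul, Real.exp_log hpos]
  rw [h5]
  apply Real.exp_le_exp.2
  have h6 : (K : ℝ) * (-(2 * β)) ≤ K * Real.log (1 - β) := mul_le_mul_of_nonneg_left (by linarith) (Nat.cast_nonneg _)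
  have h7 : (K : ℝ) * β ≤ K * β' := mul_le_mul_of_nonneg_left h1 (Nat.cast_nonneg _)
  nlinarith

/-- a power of the logarithm below the first is dominated -/
lemma ev_pow' (C q : ℝ) (hq : q < 1) : ∀ᶠ L : ℝ in atTop,
    C * Real.exp (q * ll L) ≤ 1 / 2 * Real.log L := by
  have h1 : Tendsto (fun L : ℝ => Real.log L ^ (1 - q)) atTop atTop :=
    (tendsto_rpow_atTop (by linarith)).comp Real.tendsto_log_atTop
  filter_upwards [h1.eventually_ge_atTop (2 * C), eventually_gt_atTop 1] with L h2 h4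
  have h5 : 0 < Real.log L := Real.log_pos h4
  have h6 : 0 < Real.log L ^ q := Real.rpow_pos_of_pos h5 q
  rw [exp_ll h4]
  have h7 : 1 / 2 * Real.log L = 1 / 2 * (Real.log L ^ (1 - q) * Real.log L ^ q) := by
    rw [← Real.rpow_add h5]
    simp
  rw [h7]
  nlinarith

theorem ev_up (θ δ : ℝ) (hθ : 0 ≤ θ) (hδ : 0 < δ) (hθδ : θ + δ < 1) : ∀ᶠ L : ℝ in atTop,
    ∀ H : ℕ, L ^ 2 - L * (Real.log L + θ * ll L) ≤ H → ∀ K : ℕ, 12 * Real.exp L / L ≤ K →
      (K : ℝ) ≤ 12 * Real.exp L / L + 1 → ∀ J : ℕ, (J : ℝ) ≤ Real.exp L →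
      0 < 1 / (L + δ * ll L) ∧ 1 / (L + δ * ll L) ≤ 1 ∧
      Real.exp (-(1 / 2 * Real.log L)) / 2 ≤ (1 - (1 - 1 / (L + δ * ll L)) ^ H) ^ (K + 1) -
        Real.exp (-(((K : ℝ) + 1) * Real.log 2)) * Real.exp (J * (2 * (2 / L) - 1 / (L + δ * ll L))) := by
  have hexp1 : ∀ᶠ L : ℝ in atTop, 2 * L ^ 2 ≤ Real.exp L := by
    have := (Real.isLittleO_pow_exp_atTop (n := 2)).def (show (0 : ℝ) < 1 / 2 by norm_num)
    filter_upwards [this] with x hx
    rw [Real.norm_of_nonneg (by positivity), Real.norm_of_nonneg (Real.exp_pos _).le] at hx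
    linarith
  filter_upwards [ev_basic, hexp1, ev_pow' 26 (θ + δ) hθδ] with L hb hexp1 hpow H hH K hK1 hK2 J hJ
  obtain ⟨hL, h1, h2, h3, h4, h5, h6⟩ := hb
  have hlog : 0 < Real.log L := Real.log_pos (by linarith)
  have hlogL : Real.log L ≤ L := by
    have := Real.log_le_sub_one_of_pos (show 0 < L by linarith)
    linarith
  have hL0 : 0 < L := by linarith
  obtain ⟨a, ha⟩ : ∃ a, a = δ * ll L := ⟨_, rfl⟩
  have ha0 : 0 ≤ a := by rw [ha]; exact mul_nonneg hδ.le (by linarith)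
  rw [← ha]
  obtain ⟨P, hP⟩ : ∃ P, P = Real.log L + θ * ll L := ⟨_, rfl⟩
  rw [← hP] at hH
  have hP0 : 0 ≤ P := by
    rw [hP]
    have : 0 ≤ θ * ll L := mul_nonneg hθ (by linarith)
    linarith
  obtain ⟨l, hl⟩ : ∃ l, l = 1 / (L + a) := ⟨_, rfl⟩
  rw [← hl]
  have hl0 : 0 < l := by rw [hl]; positivity
  have hl1 : l ≤ 1 := by
    rw [hl, div_le_one (by linarith)]
    linarith
  refine ⟨hl0, hl1, ?_⟩
  obtain ⟨E, hE⟩ : ∃ E, E = Real.exp ((θ + δ) * ll L) := ⟨_, rfl⟩
  rw [← hE] at hpow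
  have hE0 : 0 < E := by rw [hE]; exact Real.exp_pos _
  -- the bound for `β`
  obtain ⟨β', hβ'⟩ : ∃ β', β' = L * E / Real.exp L := ⟨_, rfl⟩
  have hβ0 : 0 ≤ (1 - l) ^ H := pow_nonneg (by linarith) _
  have hβ1 : (1 - l) ^ H ≤ β' := by
    have h8 : 1 - l ≤ Real.exp (-l) := by
      have := Real.add_one_le_exp (-l)
      linarith
    have h9 : (1 - l) ^ H ≤ Real.exp (-l) ^ H := pow_le_pow_left₀ (by linarith) h8 H
    refine h9.trans ?_
    rw [← Real.exp_nat_mul]
    have h10 : L - P - a ≤ H * l := by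
      rw [hl, mul_one_div, le_div_iff₀ (by linarith)]
      nlinarith [mul_nonneg ha0 hP0, mul_nonneg ha0 ha0]
    have h11 : β' = Real.exp (-(L - P - a)) := by
      rw [hβ', hE, hP, ha]
      rw [show -(L - (Real.log L + θ * ll L) - δ * ll L) = Real.log L + ((θ + δ) * ll L) + -L by ring,
        Real.exp_add, Real.exp_add, Real.exp_log hL0, Real.exp_neg, div_eq_mul_inv]
    rw [h11]
    apply Real.exp_le_exp.2
    linarith
  have hβ2 : β' ≤ 1 / 2 := by
    rw [hβ', div_le_iff₀ (Real.exp_pos _)]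
    nlinarith
  have hK0 : 2 ≤ Real.exp L / L := by
    rw [le_div_iff₀ hL0]
    nlinarith
  have hmain : Real.exp (-(26 * E)) ≤ (1 - (1 - l) ^ H) ^ (K + 1) := by
    refine le_trans ?_ (pow_ge_exp hβ0 hβ1 hβ2 (K + 1))
    apply Real.exp_le_exp.2
    have h8 : ((K + 1 : ℕ) : ℝ) ≤ 13 * (Real.exp L / L) := by
      push_cast
      have : 12 * Real.exp L / L = 12 * (Real.exp L / L) := by ring
      linarith
    have h9 : 0 ≤ β' := hβ0.trans hβ1
    have h10 : β' * (13 * (Real.exp L / L)) = 13 * E := by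
      rw [hβ']
      have := Real.exp_pos L
      field_simp
    have h11 := mul_le_mul_of_nonneg_left h8 h9
    linarith
  have h8 : Real.exp (-(1 / 2 * Real.log L)) ≤ Real.exp (-(26 * E)) := by
    apply Real.exp_le_exp.2
    linarith
  -- the second term
  have h9 : Real.exp (-(((K : ℝ) + 1) * Real.log 2)) * Real.exp (J * (2 * (2 / L) - l)) ≤
      Real.exp (-(1 / 2 * Real.log L)) / 2 := by
    rw [← Real.exp_add]
    have h10 : Real.exp (-(1 / 2 * Real.log L)) / 2 = Real.exp (-(1 / 2 * Real.log L) - Real.log 2) := by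
      rw [Real.exp_sub, Real.exp_log (by norm_num)]
    rw [h10]
    apply Real.exp_le_exp.2
    have h11 := Real.log_two_gt_d9
    have h11' := Real.log_two_lt_d9
    have h12 : (J : ℝ) * (2 * (2 / L) - l) ≤ 4 * (Real.exp L / L) := by
      have h13 : (J : ℝ) * (2 * (2 / L) - l) ≤ J * (4 / L) := by
        apply mul_le_mul_of_nonneg_left _ (Nat.cast_nonneg _)
        have : 2 * (2 / L) = 4 / L := by ring
        linarith
      have h14 : (J : ℝ) * (4 / L) ≤ Real.exp L * (4 / L) := mul_le_mul_of_nonneg_right hJ (by positivity)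
      have h15 : Real.exp L * (4 / L) = 4 * (Real.exp L / L) := by ring
      linarith
    have h13 : 12 * (Real.exp L / L) * (69 / 100) ≤ ((K : ℝ) + 1) * Real.log 2 := by
      have : 12 * Real.exp L / L = 12 * (Real.exp L / L) := by ring
      apply mul_le_mul (by linarith) (by linarith) (by norm_num) (by positivity)
    have h14 : L ≤ Real.exp L / L := by
      rw [le_div_iff₀ hL0]
      nlinarith
    linarith
  linarith

/-- the scales -/
def TT (j : ℕ) : ℕ := 2 ^ (j ^ 2)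

lemma TT_mono : Monotone TT := fun _ _ h => Nat.pow_le_pow_right (by norm_num) (Nat.pow_le_pow_left h 2)

/-- the logarithm of the end of the scale `j` -/
noncomputable def LT (j : ℕ) : ℝ := ((j ^ 2 : ℕ) : ℝ) * Real.log 2

lemma TT_exp (j : ℕ) : (TT j : ℝ) = Real.exp (LT j) := by
  unfold TT LT
  rw [← pow_two_exp]
  push_cast
  rfl

lemma LT_tendsto : Tendsto LT atTop atTop := by
  have h1 : Tendsto (fun j : ℕ => j ^ 2) atTop atTop := tendsto_pow_atTop (by norm_num)
  exact tendsto_iL.comp h1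

lemma LT_succ_tendsto : Tendsto (fun j => LT (j + 1)) atTop atTop := LT_tendsto.comp (tendsto_add_atTop_nat 1)

lemma LT_step {j : ℕ} (hj : 1 ≤ j) : LT j ≤ LT (j + 1) - Real.sqrt (LT (j + 1)) := by
  obtain ⟨hl0, hl1, hl2⟩ := log_two_facts
  have hj' : (1 : ℝ) ≤ j := by exact_mod_cast hj
  have h1 : Real.sqrt (LT (j + 1)) ≤ (2 * (j : ℝ) + 1) * Real.log 2 := by
    rw [Real.sqrt_le_left (by positivity)]
    unfold LT
    push_cast
    have h2 : ((j : ℝ) + 1) ^ 2 ≤ (2 * (j : ℝ) + 1) ^ 2 * Real.log 2 := by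
      have h3 : (2 * (j : ℝ) + 1) ^ 2 * (69 / 100) ≤ (2 * (j : ℝ) + 1) ^ 2 * Real.log 2 := by
        have := Real.log_two_gt_d9
        exact mul_le_mul_of_nonneg_left (by linarith) (by positivity)
      nlinarith
    calc ((j : ℝ) + 1) ^ 2 * Real.log 2 ≤ ((2 * (j : ℝ) + 1) ^ 2 * Real.log 2) * Real.log 2 :=
          mul_le_mul_of_nonneg_right h2 hl0.le
      _ = ((2 * (j : ℝ) + 1) * Real.log 2) ^ 2 := by ring
  have h2 : LT (j + 1) = LT j + (2 * (j : ℝ) + 1) * Real.log 2 := by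
    unfold LT
    push_cast
    ring
  linarith

lemma VV_bounds {δ L' L : ℝ} (hδ : 0 ≤ δ) {n : ℕ} (hL' : 1000 ≤ L') (h0 : L / 2 ≤ L' - δ * ll L)
    (h1 : L' ≤ Real.log n) (h2 : Real.log n ≤ L) {ω : Ω} (hω : ω ∉ VV μ ℱ A δ n) :
    1 / (L + δ * ll L) ≤ dens μ ℱ A n ω ∧ dens μ ℱ A n ω ≤ 2 / L := by
  simp only [VV, mem_ofPred_eq, not_not] at hω
  have he : Real.exp 1 ≤ Real.log n := by
    have := Real.exp_one_lt_d9
    linarith
  have h3 : ll (Real.log n) ≤ ll L := ll_mono he h2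
  have h4 : δ * ll (Real.log n) ≤ δ * ll L := mul_le_mul_of_nonneg_left h3 hδ
  have h5 := abs_le.1 hω
  obtain ⟨x, hx⟩ : ∃ x, x = dens μ ℱ A n ω := ⟨_, rfl⟩
  rw [← hx] at h5 ⊢
  have hL0 : 0 < L := by linarith
  have h6 : L / 2 ≤ x⁻¹ := by linarith
  have h7 : x⁻¹ ≤ L + δ * ll L := by linarith
  have h8 : 0 < x⁻¹ := by linarith
  have h9 : 0 < x := inv_pos.1 h8
  constructor
  · rw [one_div, inv_le_comm₀ (by linarith) h9]
    exact h7
  · have h10 : 2 / L = (L / 2)⁻¹ := by rw [inv_div]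
    rw [h10, le_inv_comm₀ h9 (by linarith)]
    exact h6

/-- at infinitely many scales there is no long run in the whole block -/
theorem max_up (hA : ∀ n, MeasurableSet[ℱ n] (A n)) {θ δ : ℝ} (hθ : 0 ≤ θ) (hδ : 0 < δ) (hθδ : θ + δ < 1) :
    ∀ᵐ ω ∂μ, (∃ n₀ : ℕ, ∀ n, n₀ ≤ n → ω ∉ VV μ ℱ A δ n) → ∀ j₁ : ℕ, ∃ j, j₁ ≤ j ∧
      ∀ s, TT j ≤ s → s + (crL θ (LT (j + 1)) + 1) ≤ TT (j + 1) →
        ∃ r, s < r ∧ r ≤ s + (crL θ (LT (j + 1)) + 1) ∧ ω ∈ A r := by
  obtain ⟨hl0, hl1, hl2⟩ := log_two_facts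
  set V := VV μ ℱ A δ with hV
  set L : ℕ → ℝ := fun j => LT (j + 1) with hL
  set H : ℕ → ℕ := fun j => crL θ (L j) + 1 with hH
  set K : ℕ → ℕ := fun j => ⌈12 * Real.exp (L j) / L j⌉₊ with hK
  set J : ℕ → ℕ := fun j => TT (j + 1) - TT j with hJ
  have hLt : Tendsto L atTop atTop := LT_succ_tendsto
  have hsq : ∀ᶠ x : ℝ in atTop, Real.sqrt x ≤ x / 4 := by
    filter_upwards [eventually_ge_atTop (16 : ℝ)] with x hx
    rw [Real.sqrt_le_left (by linarith)]
    nlinarith
  have hev : ∀ᶠ j : ℕ in atTop, 1 ≤ j ∧ 1000 ≤ LT j ∧ L j / 2 ≤ LT j - δ * ll (L j) ∧ 1000 ≤ L j ∧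
      0 < 1 / (L j + δ * ll (L j)) ∧ 1 / (L j + δ * ll (L j)) ≤ 1 ∧
      Real.exp (-(1 / 2 * Real.log (L j))) / 2 ≤ (1 - (1 - 1 / (L j + δ * ll (L j))) ^ H j) ^ (K j + 1) -
        Real.exp (-(((K j : ℝ) + 1) * Real.log 2)) * Real.exp (J j * (2 * (2 / L j) - 1 / (L j + δ * ll (L j)))) := by
    filter_upwards [eventually_ge_atTop 1, LT_tendsto.eventually_ge_atTop 1000, hLt.eventually ev_basic,
      hLt.eventually hsq, hLt.eventually (ev_up θ δ hθ hδ hθδ)] with j h1 h2 h3 h4 h5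
    obtain ⟨b1, b2, b3, b4, b5, b6, b7⟩ := h3
    have h4' : Real.sqrt (L j) ≤ L j / 4 := h4
    have h6 : LT j ≥ L j * (3 / 4) - 0 := by
      have h7 : LT (j + 1) = LT j + (2 * (j : ℝ) + 1) * Real.log 2 := by
        unfold LT
        push_cast
        ring
      have h8 : L j = LT j + (2 * (j : ℝ) + 1) * Real.log 2 := h7
      have h9 : (2 * (j : ℝ) + 1) * Real.log 2 ≤ LT j / 3 := by
        have h10 : (1000 : ℝ) ≤ LT j := h2
        unfold LT at h10 ⊢
        push_cast at h10 ⊢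
        have h11 : (j : ℝ) ^ 2 * Real.log 2 ≤ (j : ℝ) ^ 2 := by nlinarith
        have h12 : (31 : ℝ) ≤ j := by
          by_contra hcon
          push Not at hcon
          have : (0 : ℝ) ≤ j := Nat.cast_nonneg j
          nlinarith
        have h13 : 2 * (j : ℝ) + 1 ≤ (j : ℝ) ^ 2 / 3 := by nlinarith
        calc (2 * (j : ℝ) + 1) * Real.log 2 ≤ ((j : ℝ) ^ 2 / 3) * Real.log 2 := mul_le_mul_of_nonneg_right h13 hl0.le
          _ = _ := by ring
      linarith
    have h7 : δ * ll (L j) ≤ L j / 10 := by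
      have b1' : 1000 ≤ L j := b1
      have b2' : 1 ≤ ll (L j) := b2
      have b3' : ll (L j) ^ 2 ≤ L j / 100 := b3
      have h8 : ll (L j) ≤ L j / 100 := by nlinarith
      have h9 : δ * ll (L j) ≤ 1 * ll (L j) := mul_le_mul_of_nonneg_right (by linarith) (by linarith)
      linarith
    have hHge : L j ^ 2 - L j * (Real.log (L j) + θ * ll (L j)) ≤ H j := by
      simp only [hH, crL]
      push_cast
      exact (Nat.lt_floor_add_one _).le
    have hbL : 1000 ≤ L j := b1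
    have hK1 : 12 * Real.exp (L j) / L j ≤ K j := Nat.le_ceil _
    have hK2 : (K j : ℝ) ≤ 12 * Real.exp (L j) / L j + 1 := (Nat.ceil_lt_add_one (by positivity)).le
    have hJ1 : (J j : ℝ) ≤ Real.exp (L j) := by
      have h8 : (J j : ℝ) ≤ TT (j + 1) := by exact_mod_cast Nat.sub_le _ _
      rw [TT_exp] at h8
      exact h8
    obtain ⟨c1, c2, c3⟩ := h5 (H j) hHge (K j) hK1 hK2 (J j) hJ1
    exact ⟨h1, h2, by linarith, hbL, c1, c2, c3⟩
  obtain ⟨j₀, hj₀⟩ := eventually_atTop.1 hev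
  have hmain := io_scales (μ := μ) (ℱ := ℱ) TT_mono (D := fun j => NR A V (H j) (K j) (TT j) (J j)) (j₀ := j₀)
    (by
      intro j _
      have h1 := NR_meas (ℱ := ℱ) hA (V := V) (fun n => VV_meas δ n) (H j) (K j) (TT j) (J j)
      have e : TT j + J j = TT (j + 1) := by
        have := TT_mono (Nat.le_succ j)
        simp only [Nat.succ_eq_add_one] at this
        simp only [hJ]
        omega
      rw [e] at h1
      exact h1)
    (fun j => 1 / (2 * ((j : ℝ) + 1)))
    (by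
      intro j hj C hC
      obtain ⟨a1, a2, a3, a4, a5, a6, a7⟩ := hj₀ j hj
      have e : TT j + J j = TT (j + 1) := by
        have := TT_mono (Nat.le_succ j)
        simp only [Nat.succ_eq_add_one] at this
        simp only [hJ]
        omega
      have h1 := NR_ge (μ := μ) hA (V := V) (fun n => VV_meas δ n) a5.le a6 (u := 2 / L j) (by positivity)
        (H := H j) (K := K j) (Nat.succ_pos _) (TT j) (J j) (by
          intro n hn1 hn2 ω hω
          rw [e] at hn2
          have hp : (0 : ℝ) < TT j := by rw [TT_exp]; exact Real.exp_pos _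
          have b1 : LT j ≤ Real.log n := by
            have h2 : (TT j : ℝ) ≤ n := by exact_mod_cast hn1
            have h3 := Real.log_le_log hp h2
            rwa [TT_exp, Real.log_exp] at h3
          have b2 : Real.log n ≤ LT (j + 1) := by
            have h2 : (n : ℝ) ≤ TT (j + 1) := by exact_mod_cast hn2.le
            have h0 : (0 : ℝ) < n := lt_of_lt_of_le hp (by exact_mod_cast hn1)
            have h3 := Real.log_le_log h0 h2
            rwa [TT_exp, Real.log_exp] at h3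
          exact VV_bounds hδ.le a2 a3 b1 b2 hω) C hC
      refine le_trans (mul_le_mul_of_nonneg_right (le_trans ?_ a7) measureReal_nonneg) h1
      -- `1 / (2 (j + 1)) ≤ exp (-(log L) / 2) / 2`
      have h2 : Real.log (L j) ≤ 2 * Real.log ((j : ℝ) + 1) := by
        have e2 : 2 * Real.log ((j : ℝ) + 1) = Real.log (((j : ℝ) + 1) ^ 2) := by rw [Real.log_pow]; norm_num
        rw [e2]
        apply Real.log_le_log (by linarith)
        simp only [hL, LT]
        push_cast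
        have : 0 ≤ ((j : ℝ) + 1) ^ 2 := by positivity
        nlinarith
      have h3 : Real.exp (-Real.log ((j : ℝ) + 1)) ≤ Real.exp (-(1 / 2 * Real.log (L j))) := by
        apply Real.exp_le_exp.2
        linarith
      rw [Real.exp_neg, Real.exp_log (by positivity)] at h3
      calc 1 / (2 * ((j : ℝ) + 1)) = ((j : ℝ) + 1)⁻¹ / 2 := by
            field_simp
        _ ≤ _ := by linarith)
    (by
      intro j₁ _
      have h1 : Tendsto (fun n => ∑ i ∈ Finset.range n, (1 : ℝ) / (2 * ((i : ℝ) + 1))) atTop atTop := by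
        have h2 := Real.tendsto_sum_range_one_div_nat_succ_atTop
        have h3 := h2.const_mul_atTop (show (0 : ℝ) < 1 / 2 by norm_num)
        refine h3.congr fun n => ?_
        rw [Finset.mul_sum]
        apply Finset.sum_congr rfl
        intro i _
        field_simp
      have h2 := h1.comp (tendsto_add_atTop_nat j₁)
      have h3 : ∀ n, (∑ i ∈ Finset.range n, (1 : ℝ) / (2 * (((j₁ + i : ℕ) : ℝ) + 1))) =
          (∑ i ∈ Finset.range (n + j₁), (1 : ℝ) / (2 * ((i : ℝ) + 1))) - ∑ i ∈ Finset.range j₁, (1 : ℝ) / (2 * ((i : ℝ) + 1)) := by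
        intro n
        rw [add_comm n j₁, Finset.sum_range_add]
        ring
      simp_rw [h3]
      exact tendsto_atTop_add_const_right _ _ h2)
  filter_upwards [hmain] with ω hω hnV j₁
  obtain ⟨n₀, hn₀⟩ := hnV
  obtain ⟨j, hj, hjj, hD⟩ := hω (max j₁ n₀)
  refine ⟨j, (le_max_left _ _).trans hj, fun s hs1 hs2 => ?_⟩
  have hT : n₀ ≤ TT j := by
    have h1 : n₀ ≤ j := (le_max_right _ _).trans hj
    have h2 : j < 2 ^ j := Nat.lt_two_pow_self
    have h3 : 2 ^ j ≤ 2 ^ (j ^ 2) := by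
      apply Nat.pow_le_pow_right (by norm_num)
      nlinarith
    unfold TT
    omega
  have e : TT j + J j = TT (j + 1) := by
    have := TT_mono (Nat.le_succ j)
    simp only [Nat.succ_eq_add_one] at this
    simp only [hJ]
    omega
  exact NR_norun (Nat.succ_pos _) hD (fun n hn => hn₀ n (by omega)) s hs1 (by rw [e]; exact hs2)

end Pool.Agent.R528.RM
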