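import Mathlib
import Pool.Agent.R528.RM.MaxUp
import Pool.Agent.R528.RM.Final

set_option autoImplicit false
set_option linter.unusedSectionVars false

/-! # The lower limit of the maximal gap -/

open MeasureTheory Filter Set
open scoped ENNReal Topology

namespace Pool.Agent.R528.RM

variable {Ω : Type} {m0 : MeasurableSpace Ω} {μ : Measure Ω} [IsProbabilityMeasure μ]
  {ℱ : Filtration ℕ m0} {A : ℕ → Set Ω}

/-- the largest gap between consecutive members up to `X` -/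
noncomputable def mg (S : Set ℕ) (X : ℝ) : ℕ :=
  sSup {g : ℕ | ∃ n, (pn S (n + 1) : ℝ) ≤ X ∧ g = pn S (n + 1) - pn S n}

lemma mg_bdd (S : Set ℕ) (X : ℝ) : BddAbove {g : ℕ | ∃ n, (pn S (n + 1) : ℝ) ≤ X ∧ g = pn S (n + 1) - pn S n} := by
  refine ⟨⌊X⌋₊, ?_⟩
  rintro g ⟨n, hn, rfl⟩
  exact (Nat.sub_le _ _).trans (Nat.le_floor hn)

lemma le_mg {S : Set ℕ} {X : ℝ} {n : ℕ} (h : (pn S (n + 1) : ℝ) ≤ X) : pn S (n + 1) - pn S n ≤ mg S X :=
  le_csSup (mg_bdd S X) ⟨n, h, rfl⟩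

lemma mg_lt {S : Set ℕ} {X b : ℝ} (hb : 0 < b)
    (h : ∀ n, (pn S (n + 1) : ℝ) ≤ X → ((pn S (n + 1) - pn S n : ℕ) : ℝ) < b) : (mg S X : ℝ) < b := by
  rcases Set.eq_empty_or_nonempty {g : ℕ | ∃ n, (pn S (n + 1) : ℝ) ≤ X ∧ g = pn S (n + 1) - pn S n} with h1 | h1
  · unfold mg
    rw [h1, csSup_empty]
    simpa using hb
  · obtain ⟨n, hn, hg⟩ := Nat.sSup_mem h1 (mg_bdd S X)
    unfold mg
    rw [hg]
    exact h n hn

lemma not_between {S : Set ℕ} (hS : S.Infinite) {n r : ℕ} (h1 : pn S n < r) (h2 : r < pn S (n + 1)) : r ∉ S := by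
  intro hr
  obtain ⟨m, hm⟩ := exists_nth hr
  rw [← hm] at h1 h2
  rw [(nth_mono hS).lt_iff_lt] at h1 h2
  omega

lemma ev_ll (c C : ℝ) (hc : 0 < c) : ∀ᶠ L : ℝ in atTop, C ≤ c * ll L :=
  ((Real.tendsto_log_atTop.comp Real.tendsto_log_atTop).const_mul_atTop hc).eventually_ge_atTop C

lemma ev_low_fin (θ ε : ℝ) (hθ : 0 ≤ θ) (hθε : θ < 1 + ε) : ∀ᶠ L : ℝ in atTop, ∀ Y : ℝ, L ≤ Y → Y ≤ L + 3 →
    Y ^ 2 - Y * (Real.log Y + (1 + ε) * ll Y) ≤ L ^ 2 - L * (Real.log L + θ * ll L) := by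
  filter_upwards [ev_basic, ev_ll (1 + ε - θ) 7 (by linarith)] with L hb h7 Y hY1 hY2
  obtain ⟨hL, h1, h2, h3, h4, h5, h6⟩ := hb
  have he : Real.exp 1 ≤ L := by
    have := Real.exp_one_lt_d9
    linarith
  have g1 : ll L ≤ ll Y := ll_mono he hY1
  have g2 : Real.log L ≤ Real.log Y := Real.log_le_log (by linarith) hY1
  have g3 : 0 < Real.log L := Real.log_pos (by linarith)
  have g4 : L * (Real.log L + (1 + ε) * ll L) ≤ Y * (Real.log Y + (1 + ε) * ll Y) := by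
    have g5 : (1 + ε) * ll L ≤ (1 + ε) * ll Y := mul_le_mul_of_nonneg_left g1 (by linarith)
    have g6 : 0 ≤ (1 + ε) * ll L := mul_nonneg (by linarith) (by linarith)
    exact mul_le_mul hY1 (by linarith) (by linarith) (by linarith)
  have g5 : Y ^ 2 ≤ (L + 3) ^ 2 := pow_le_pow_left₀ (by linarith) hY2 2
  have g6 : L * 7 ≤ L * ((1 + ε - θ) * ll L) := mul_le_mul_of_nonneg_left h7 (by linarith)
  nlinarith

lemma ev_small : ∀ᶠ L : ℝ in atTop, (L + 1) ^ 2 + 2 * (L + 1) * ll (L + 1) + 1 ≤ Real.exp L := by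
  have h3 : ∀ᶠ x : ℝ in atTop, 8 * x ^ 2 ≤ Real.exp x := by
    have := (Real.isLittleO_pow_exp_atTop (n := 2)).def (show (0 : ℝ) < 1 / 8 by norm_num)
    filter_upwards [this] with x hx
    rw [Real.norm_of_nonneg (by positivity), Real.norm_of_nonneg (Real.exp_pos _).le] at hx
    linarith
  filter_upwards [ev_basic, h3] with L hb h
  obtain ⟨hL, h1, h2, h3, h4, h5, h6⟩ := hb
  have h7 : ll L ≤ L / 100 := by nlinarith
  nlinarith

lemma ev_sqrt (θ ε : ℝ) (hθ0 : 0 ≤ θ) (hθε : 1 - ε < θ) (hθ : θ ≤ 1) : ∀ᶠ L : ℝ in atTop,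
    0 ≤ L ^ 2 - L * (Real.log L + θ * ll L) ∧
    L ^ 2 - L * (Real.log L + θ * ll L) + 1 < L ^ 2 - L * (Real.log L + (1 - ε) * ll L) ∧
    (∀ x, 0 ≤ x → x ≤ L - Real.sqrt L → x ^ 2 + 2 * L * ll L + 1 < L ^ 2 - L * (Real.log L + (1 - ε) * ll L)) ∧
    L < L ^ 2 - L * (Real.log L + (1 - ε) * ll L) := by
  have h1 : ∀ᶠ x : ℝ in atTop, 10 * Real.log x ≤ Real.sqrt x := by
    have h2 := (isLittleO_log_rpow_atTop (show (0 : ℝ) < 1 / 2 by norm_num)).def (show (0 : ℝ) < 1 / 10 by norm_num)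
    filter_upwards [h2, eventually_ge_atTop (1 : ℝ)] with x h h'
    rw [Real.norm_of_nonneg (Real.log_nonneg h'), ← Real.sqrt_eq_rpow, Real.norm_of_nonneg (Real.sqrt_nonneg _)] at h
    linarith
  filter_upwards [ev_basic, ev_ll (θ - (1 - ε)) 1 (by linarith), h1] with L hb h7 h8
  obtain ⟨hL, h1, h2, h3, h4, h5, h6⟩ := hb
  have hlog : 1 ≤ Real.log L := by
    have : ll L ≤ Real.log L - 1 := Real.log_le_sub_one_of_pos (Real.log_pos (by linarith))
    linarith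
  have hll : ll L ≤ Real.log L := by
    have : ll L ≤ Real.log L - 1 := Real.log_le_sub_one_of_pos (by linarith)
    linarith
  have hs0 : 0 ≤ Real.sqrt L := Real.sqrt_nonneg _
  have hs2 : Real.sqrt L * Real.sqrt L = L := Real.mul_self_sqrt (by linarith)
  have hsL : Real.sqrt L ≤ L / 10 := by nlinarith
  have h9 : θ * ll L ≤ ll L := by nlinarith
  have h10 : (1 - ε) * ll L ≤ θ * ll L := mul_le_mul_of_nonneg_right hθε.le (by linarith)
  refine ⟨?_, ?_, ?_, ?_⟩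
  · have : 0 ≤ L * (L - (Real.log L + θ * ll L)) := mul_nonneg (by linarith) (by linarith)
    nlinarith
  · have : L * 1 ≤ L * ((θ - (1 - ε)) * ll L) := mul_le_mul_of_nonneg_left h7 (by linarith)
    nlinarith
  · intro x hx0 hx
    have g1 : x ^ 2 ≤ (L - Real.sqrt L) ^ 2 := pow_le_pow_left₀ hx0 hx 2
    have g2 : (L - Real.sqrt L) ^ 2 = L ^ 2 - 2 * L * Real.sqrt L + L := by nlinarith
    have g3 : L * (10 * Real.log L) ≤ L * Real.sqrt L := mul_le_mul_of_nonneg_left h8 (by linarith)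
    have g4 : L * (Real.log L + (1 - ε) * ll L) ≤ L * (2 * Real.log L) := mul_le_mul_of_nonneg_left (by linarith) (by linarith)
    have g5 : L * ll L ≤ L * Real.log L := mul_le_mul_of_nonneg_left hll (by linarith)
    have g6 : L * 1 ≤ L * Real.log L := mul_le_mul_of_nonneg_left hlog (by linarith)
    nlinarith
  · have g4 : L * (Real.log L + (1 - ε) * ll L) ≤ L * (2 * Real.log L) := mul_le_mul_of_nonneg_left (by linarith) (by linarith)
    have g7 : L * (2 * Real.log L) ≤ L * (L / 10) := mul_le_mul_of_nonneg_left (by linarith) (by linarith)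
    nlinarith

/-- **the lower limit law of the maximal gap** -/
theorem max_law (hA : ∀ n, MeasurableSet[ℱ n] (A n))
    (hd : ∀ᵐ ω ∂μ, Tendsto (fun n : ℕ => ((dens μ ℱ A n ω)⁻¹ - Real.log n) /
      Real.log (Real.log (Real.log n))) atTop (𝓝 0)) :
    ∀ᵐ ω ∂μ, (rset A ω).Infinite ∧ ∀ ε : ℝ, 0 < ε →
      (∀ᶠ X : ℝ in atTop, Real.log X ^ 2 - Real.log X * (Real.log (Real.log X) +
        (1 + ε) * Real.log (Real.log (Real.log X))) < mg (rset A ω) X) ∧
      (∃ᶠ X : ℝ in atTop, (mg (rset A ω) X : ℝ) < Real.log X ^ 2 - Real.log X * (Real.log (Real.log X) +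
        (1 - ε) * Real.log (Real.log (Real.log X)))) := by
  obtain ⟨hl0, hl1, hl2⟩ := log_two_facts
  have h1 : ∀ m : ℕ, ∀ᵐ ω ∂μ, (∃ n₀ : ℕ, ∀ n, n₀ ≤ n → ω ∉ VV μ ℱ A (1 / ((m : ℝ) + 1) / 2) n) →
      ∀ᶠ i : ℕ in atTop, ∃ k, 2 ^ i < k ∧ k ≤ 2 ^ (i + 1) ∧
      ω ∈ A k ∧ ∀ j : ℕ, 1 ≤ j → j ≤ crL (1 + 1 / ((m : ℝ) + 1)) ((i : ℝ) * Real.log 2) → ω ∉ A (k + j) := by
    intro m
    have hm : 0 < 1 / ((m : ℝ) + 1) := by positivity
    have hm1 : 1 / ((m : ℝ) + 1) ≤ 1 := by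
      rw [div_le_one (by positivity)]
      have : (0 : ℝ) ≤ m := Nat.cast_nonneg m
      linarith
    exact max_low hA (by linarith) (by linarith) (by linarith) (by linarith)
  have h2 : ∀ m : ℕ, ∀ᵐ ω ∂μ, (∃ n₀ : ℕ, ∀ n, n₀ ≤ n → ω ∉ VV μ ℱ A (1 / ((m : ℝ) + 1) / 2) n) → ∀ j₁ : ℕ, ∃ j, j₁ ≤ j ∧
      ∀ s, TT j ≤ s → s + (crL (1 - 1 / ((m : ℝ) + 1)) (LT (j + 1)) + 1) ≤ TT (j + 1) →
        ∃ r, s < r ∧ r ≤ s + (crL (1 - 1 / ((m : ℝ) + 1)) (LT (j + 1)) + 1) ∧ ω ∈ A r := by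
    intro m
    have hm : 0 < 1 / ((m : ℝ) + 1) := by positivity
    have hm1 : 1 / ((m : ℝ) + 1) ≤ 1 := by
      rw [div_le_one (by positivity)]
      have : (0 : ℝ) ≤ m := Nat.cast_nonneg m
      linarith
    exact max_up hA (by linarith) (by linarith) (by linarith)
  filter_upwards [hd, ae_all_iff.2 h1, ae_all_iff.2 h2, second_order (μ := μ) hA hd] with ω hdω h1 h2 h3
  obtain ⟨hinf, h3⟩ := h3
  obtain ⟨S, hS⟩ : ∃ S : Set ℕ, S = rset A ω := ⟨_, rfl⟩
  have hmem : ∀ k, k ∈ S ↔ ω ∈ A k := fun k => by rw [hS]; rfl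
  rw [← hS] at hinf h3 ⊢
  obtain ⟨n₁, hn₁⟩ := eventually_atTop.1 (h3 1 one_pos).1
  have hup : ∀ n, n₁ ≤ n → ((pn S (n + 1) - pn S n : ℕ) : ℝ) < Real.log (pn S n) ^ 2 + 2 * Real.log (pn S n) * ll (Real.log (pn S n)) + 1 := by
    intro n hn
    have h4 := hn₁ n hn
    have h5 := nth_mono hinf (Nat.lt_succ_self n)
    simp only [Nat.succ_eq_add_one] at h5
    have h6 : ((pn S (n + 1) - pn S n : ℕ) : ℝ) = gap S n + 1 := by
      have : pn S (n + 1) - pn S n = gap S n + 1 := by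
        unfold gap
        omega
      exact_mod_cast this
    rw [h6]
    have e : Real.log (Real.log (Real.log (pn S n))) = ll (Real.log (pn S n)) := rfl
    rw [e] at h4
    have e2 : (1 + 1 : ℝ) * Real.log (pn S n) * ll (Real.log (pn S n)) = 2 * Real.log (pn S n) * ll (Real.log (pn S n)) := by ring
    rw [e2] at h4
    linarith
  refine ⟨hinf, fun ε hε => ?_⟩
  obtain ⟨m, hm⟩ := exists_nat_one_div_lt hε
  have hm0 : 0 < 1 / ((m : ℝ) + 1) := by positivity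
  have hm1 : 1 / ((m : ℝ) + 1) ≤ 1 := by
    rw [div_le_one (by positivity)]
    have : (0 : ℝ) ≤ m := Nat.cast_nonneg m
    linarith
  obtain ⟨nv, hnv⟩ := no_violation hdω (show 0 < 1 / ((m : ℝ) + 1) / 2 by positivity)
  constructor
  · -- the lower bound
    have hrun := h1 m ⟨nv, hnv⟩
    have hev : ∀ᶠ i : ℕ in atTop, 1000 ≤ (i : ℝ) * Real.log 2 ∧
        (∀ Y : ℝ, (i : ℝ) * Real.log 2 ≤ Y → Y ≤ (i : ℝ) * Real.log 2 + 3 →
          Y ^ 2 - Y * (Real.log Y + (1 + ε) * ll Y) ≤ ((i : ℝ) * Real.log 2) ^ 2 - ((i : ℝ) * Real.log 2) *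
            (Real.log ((i : ℝ) * Real.log 2) + (1 + 1 / ((m : ℝ) + 1)) * ll ((i : ℝ) * Real.log 2))) ∧
        ((i : ℝ) * Real.log 2 + 1) ^ 2 + 2 * ((i : ℝ) * Real.log 2 + 1) * ll ((i : ℝ) * Real.log 2 + 1) + 1 ≤
          Real.exp ((i : ℝ) * Real.log 2) ∧ pn S n₁ ≤ i := by
      filter_upwards [tendsto_iL.eventually_ge_atTop 1000,
        tendsto_iL.eventually (ev_low_fin (1 + 1 / ((m : ℝ) + 1)) ε (by linarith) (by linarith)),
        tendsto_iL.eventually ev_small, eventually_ge_atTop (pn S n₁)] with i g1 g2 g3 g4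
      exact ⟨g1, g2, g3, g4⟩
    obtain ⟨i₀, hi₀⟩ := eventually_atTop.1 (hrun.and hev)
    filter_upwards [eventually_ge_atTop ((2 : ℝ) ^ (i₀ + 2))] with X hX
    have hX0 : 0 < X := lt_of_lt_of_le (by positivity) hX
    have hN : 2 ^ (i₀ + 2) ≤ ⌊X⌋₊ := by
      apply Nat.le_floor
      push_cast
      exact hX
    have hN0 : ⌊X⌋₊ ≠ 0 := by
      have : 0 < 2 ^ (i₀ + 2) := by positivity
      omega
    obtain ⟨q, hq⟩ : ∃ q, q = Nat.log 2 ⌊X⌋₊ := ⟨_, rfl⟩
    have hq1 : i₀ + 2 ≤ q := by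
      rw [hq]
      exact Nat.le_log_of_pow_le (by norm_num) hN
    have hq2 : 2 ^ q ≤ ⌊X⌋₊ := by rw [hq]; exact Nat.pow_log_le_self 2 hN0
    have hq3 : ⌊X⌋₊ < 2 ^ (q + 1) := by rw [hq]; exact Nat.lt_pow_succ_log_self (by norm_num) _
    obtain ⟨i, rfl⟩ : ∃ i, q = i + 2 := ⟨q - 2, by omega⟩
    have hi : i₀ ≤ i := by omega
    obtain ⟨⟨k, hk1, hk2, hkA, hk3⟩, g1, g2, g3, g4⟩ := hi₀ i hi
    obtain ⟨L, hL⟩ : ∃ L, L = (i : ℝ) * Real.log 2 := ⟨_, rfl⟩
    rw [← hL] at g1 g2 g3 hk3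
    obtain ⟨n, hn⟩ := exists_nth (S := S) ((hmem k).2 hkA)
    -- `n` is beyond `n₁`
    have hlt : i < 2 ^ i := Nat.lt_two_pow_self
    have hnn : n₁ ≤ n := by
      rw [← (nth_mono hinf).le_iff_le, hn]
      omega
    have h5 := hup n hnn
    rw [hn] at h5
    obtain ⟨b1, b2⟩ := log_dyadic hk1.le hk2
    rw [← hL] at b1 b2
    have he : Real.exp 1 ≤ Real.log k := by
      have := Real.exp_one_lt_d9
      linarith
    have h6 : ll (Real.log k) ≤ ll (L + 1) := ll_mono he b2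
    have h7 : 0 ≤ ll (Real.log k) := by
      have : 1 ≤ Real.log (Real.log k) := by
        rw [← Real.log_exp 1]
        exact Real.log_le_log (Real.exp_pos 1) he
      exact Real.log_nonneg this
    have h8 : ((pn S (n + 1) - k : ℕ) : ℝ) < 2 ^ i := by
      rw [pow_two_exp, ← hL]
      refine h5.trans_le (le_trans ?_ g3)
      have g5 : Real.log k ^ 2 ≤ (L + 1) ^ 2 := pow_le_pow_left₀ (by linarith) b2 2
      have g6 : 2 * Real.log k * ll (Real.log k) ≤ 2 * (L + 1) * ll (L + 1) :=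
        mul_le_mul (by linarith) h6 h7 (by linarith)
      linarith
    have h9 : pn S (n + 1) - k < 2 ^ i := by exact_mod_cast h8
    have e1 : 2 ^ (i + 1) = 2 * 2 ^ i := by rw [pow_succ]; ring
    have e2 : 2 ^ (i + 2) = 4 * 2 ^ i := by rw [pow_add]; ring
    have h10 : (pn S (n + 1) : ℝ) ≤ X := by
      have h11 : pn S (n + 1) ≤ ⌊X⌋₊ := by omega
      exact (Nat.cast_le.2 h11).trans (Nat.floor_le hX0.le)
    have h11 := le_mg h10
    rw [hn] at h11
    -- the run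
    have h12 : k + crL (1 + 1 / ((m : ℝ) + 1)) L + 1 ≤ pn S (n + 1) := by
      by_contra hcon
      push Not at hcon
      have h13 := nth_mono hinf (Nat.lt_succ_self n)
      simp only [Nat.succ_eq_add_one] at h13
      rw [hn] at h13
      have h14 := hk3 (pn S (n + 1) - k) (by omega) (by omega)
      have h15 : k + (pn S (n + 1) - k) = pn S (n + 1) := by omega
      rw [h15] at h14
      exact h14 ((hmem _).1 (nth_mem hinf (n + 1)))
    have h13 : ((crL (1 + 1 / ((m : ℝ) + 1)) L : ℝ)) + 1 ≤ mg S X := by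
      have : crL (1 + 1 / ((m : ℝ) + 1)) L + 1 ≤ mg S X := by omega
      exact_mod_cast this
    have h14 : L ^ 2 - L * (Real.log L + (1 + 1 / ((m : ℝ) + 1)) * ll L) < crL (1 + 1 / ((m : ℝ) + 1)) L + 1 :=
      Nat.lt_floor_add_one _
    have hY1 : L ≤ Real.log X := by
      have h15 : (2 : ℝ) ^ i ≤ X := by
        have h16 : 2 ^ i ≤ ⌊X⌋₊ := by omega
        have h17 : ((2 ^ i : ℕ) : ℝ) ≤ X := (Nat.cast_le.2 h16).trans (Nat.floor_le hX0.le)
        exact_mod_cast h17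
      have h16 := Real.log_le_log (by positivity) h15
      rw [Real.log_pow] at h16
      rw [hL]
      exact h16
    have hY2 : Real.log X ≤ L + 3 := by
      have h15 : X ≤ (2 : ℝ) ^ (i + 3) := by
        have h16 : ⌊X⌋₊ + 1 ≤ 2 ^ (i + 3) := hq3
        have h17 : (⌊X⌋₊ : ℝ) + 1 ≤ 2 ^ (i + 3) := by exact_mod_cast h16
        have := (Nat.lt_floor_add_one X).le
        linarith
      have h16 := Real.log_le_log hX0 h15
      rw [Real.log_pow] at h16
      push_cast at h16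
      rw [hL]
      linarith
    have h15 := g2 (Real.log X) hY1 hY2
    unfold ll at h15 h14
    linarith
  · -- the upper bound
    rw [frequently_atTop]
    intro X₀
    have hev : ∀ᶠ j : ℕ in atTop, 1 ≤ j ∧ 1000 ≤ LT (j + 1) ∧
        (0 ≤ LT (j + 1) ^ 2 - LT (j + 1) * (Real.log (LT (j + 1)) + (1 - 1 / ((m : ℝ) + 1)) * ll (LT (j + 1))) ∧
        LT (j + 1) ^ 2 - LT (j + 1) * (Real.log (LT (j + 1)) + (1 - 1 / ((m : ℝ) + 1)) * ll (LT (j + 1))) + 1 <
          LT (j + 1) ^ 2 - LT (j + 1) * (Real.log (LT (j + 1)) + (1 - ε) * ll (LT (j + 1))) ∧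
        (∀ x, 0 ≤ x → x ≤ LT (j + 1) - Real.sqrt (LT (j + 1)) → x ^ 2 + 2 * LT (j + 1) * ll (LT (j + 1)) + 1 <
          LT (j + 1) ^ 2 - LT (j + 1) * (Real.log (LT (j + 1)) + (1 - ε) * ll (LT (j + 1)))) ∧
        LT (j + 1) < LT (j + 1) ^ 2 - LT (j + 1) * (Real.log (LT (j + 1)) + (1 - ε) * ll (LT (j + 1)))) ∧
        X₀ ≤ TT (j + 1) := by
      have hTT : Tendsto (fun j => (TT (j + 1) : ℝ)) atTop atTop := by
        simp_rw [TT_exp]
        exact Real.tendsto_exp_atTop.comp LT_succ_tendsto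
      filter_upwards [eventually_ge_atTop 1, LT_succ_tendsto.eventually_ge_atTop 1000,
        LT_succ_tendsto.eventually (ev_sqrt (1 - 1 / ((m : ℝ) + 1)) ε (by linarith) (by linarith) (by linarith)),
        hTT.eventually_ge_atTop X₀] with j g1 g2 g3 g4
      exact ⟨g1, g2, g3, g4⟩
    -- the finitely many small members
    have hsm : ∀ᶠ n : ℕ in atTop, Real.exp 1 ≤ Real.log (pn S n) :=
      (tendsto_log.comp (tendsto_nth hinf)).eventually_ge_atTop _
    obtain ⟨n₂, hn₂⟩ := eventually_atTop.1 hsm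
    have hbig : ∀ᶠ j : ℕ in atTop, (pn S (max n₁ n₂) : ℝ) ≤ LT (j + 1) := LT_succ_tendsto.eventually_ge_atTop _
    obtain ⟨j₀, hj₀⟩ := eventually_atTop.1 (hev.and hbig)
    obtain ⟨j, hj, hrun⟩ := h2 m ⟨nv, hnv⟩ j₀
    obtain ⟨⟨a1, a2, ⟨a3, a4, a5, a6⟩, a7⟩, a8⟩ := hj₀ j hj
    obtain ⟨L, hL⟩ : ∃ L, L = LT (j + 1) := ⟨_, rfl⟩
    have hstep := LT_step a1
    rw [← hL] at a2 a3 a4 a5 a6 a8 hrun hstep
    refine ⟨TT (j + 1), a7, ?_⟩
    have hlogX : Real.log (TT (j + 1) : ℝ) = L := by rw [TT_exp, Real.log_exp, hL]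
    rw [hlogX]
    have e : Real.log (Real.log L) = ll L := rfl
    rw [e]
    apply mg_lt (by linarith)
    intro n hn
    have hn' : pn S (n + 1) ≤ TT (j + 1) := by exact_mod_cast hn
    rcases Nat.lt_or_ge (pn S n) (TT j) with hc | hc
    · rcases Nat.lt_or_ge n (max n₁ n₂) with hc2 | hc2
      · have h5 : pn S (n + 1) ≤ pn S (max n₁ n₂) := (nth_mono hinf).monotone hc2
        have h6 : ((pn S (n + 1) - pn S n : ℕ) : ℝ) ≤ pn S (max n₁ n₂) := by
          have : pn S (n + 1) - pn S n ≤ pn S (max n₁ n₂) := (Nat.sub_le _ _).trans h5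
          exact_mod_cast this
        linarith
      · have h5 := hup n ((le_max_left _ _).trans hc2)
        have h6 := hn₂ n ((le_max_right _ _).trans hc2)
        have hpos : (0 : ℝ) < pn S n := by
          by_contra hcon
          have h7 : (pn S n : ℝ) = 0 := le_antisymm (not_lt.1 hcon) (Nat.cast_nonneg _)
          rw [h7, Real.log_zero] at h6
          have := Real.exp_pos 1
          linarith
        have h7 : Real.log (pn S n) ≤ LT j := by
          have h8 : (pn S n : ℝ) ≤ TT j := by exact_mod_cast hc.le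
          have h9 := Real.log_le_log hpos h8
          rwa [TT_exp, Real.log_exp] at h9
        have h8 : Real.log (pn S n) ≤ L - Real.sqrt L := h7.trans (by rw [hL]; rw [hL] at hstep; exact hstep)
        have h9 : 0 ≤ Real.sqrt L := Real.sqrt_nonneg _
        have h10 : ll (Real.log (pn S n)) ≤ ll L := ll_mono h6 (by linarith)
        have h11 : 0 ≤ ll L := by
          have : 1 ≤ Real.log L := by
            rw [← Real.log_exp 1]
            exact Real.log_le_log (Real.exp_pos 1) (by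
              have := Real.exp_one_lt_d9
              linarith)
          exact Real.log_nonneg this
        have h12 : 0 ≤ Real.log (pn S n) := le_trans (Real.exp_pos 1).le h6
        have h13 := a5 (Real.log (pn S n)) h12 h8
        have h14 : 2 * Real.log (pn S n) * ll (Real.log (pn S n)) ≤ 2 * L * ll L := by
          have g1 : 2 * Real.log (pn S n) * ll (Real.log (pn S n)) ≤ 2 * Real.log (pn S n) * ll L :=
            mul_le_mul_of_nonneg_left h10 (by linarith)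
          have g2 : 2 * Real.log (pn S n) * ll L ≤ 2 * L * ll L := mul_le_mul_of_nonneg_right (by linarith) h11
          linarith
        linarith
    · have h5 : pn S (n + 1) - pn S n ≤ crL (1 - 1 / ((m : ℝ) + 1)) L + 1 := by
        by_contra hcon
        push Not at hcon
        obtain ⟨r, hr1, hr2, hr3⟩ := hrun (pn S n) hc (by omega)
        exact not_between hinf hr1 (by omega) ((hmem r).2 hr3)
      have h6 : ((pn S (n + 1) - pn S n : ℕ) : ℝ) ≤ crL (1 - 1 / ((m : ℝ) + 1)) L + 1 := by exact_mod_cast h5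
      have h7 : (crL (1 - 1 / ((m : ℝ) + 1)) L : ℝ) ≤ L ^ 2 - L * (Real.log L + (1 - 1 / ((m : ℝ) + 1)) * ll L) :=
        Nat.floor_le a3
      linarith

end Pool.Agent.R528.RM
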