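import Mathlib
import Pool.Agent.R528.RM.Var1
import Pool.Agent.R528.RM.Gold
import Pool.Agent.R528.RM.Wag2

set_option autoImplicit false
set_option linter.unusedSectionVars false
set_option linter.unusedVariables false

/-! # Fair signs: concentration of the exponential sums over the windows -/

open MeasureTheory Filter Set
open scoped ENNReal Topology

namespace Pool.Agent.R528.RM

variable {Ω : Type} {m0 : MeasurableSpace Ω} {μ : Measure Ω} [IsProbabilityMeasure μ]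
  {ℱ : Filtration ℕ m0} {A : ℕ → Set Ω}

/-- the factor of the integer `k + 1` -/
noncomputable def av (A : ℕ → Set Ω) (D : ℕ → Prop) [DecidablePred D] (θ : ℝ) (k : ℕ) (ω : Ω) : ℂ :=
  if D (k + 1) then (Real.cos θ : ℂ) + ((Real.sin θ * (2 * In A (k + 1) ω - 1) : ℝ) : ℂ) * Complex.I else 1

/-- its mean -/
noncomputable def cv (D : ℕ → Prop) [DecidablePred D] (θ : ℝ) (k : ℕ) : ℂ := if D (k + 1) then (Real.cos θ : ℂ) else 1

/-- the coefficient -/
noncomputable def dv (D : ℕ → Prop) [DecidablePred D] (θ : ℝ) (k : ℕ) : ℂ := if D (k + 1) then ((2 * Real.sin θ : ℝ) : ℂ) * Complex.I else 0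

section
variable (D : ℕ → Prop) [DecidablePred D] (θ : ℝ)

lemma In_cases (A : ℕ → Set Ω) (n : ℕ) (ω : Ω) : In A n ω = 0 ∨ In A n ω = 1 := by
  unfold In
  by_cases h : ω ∈ A n
  · right; rw [indicator_of_mem h]
  · left; rw [indicator_of_notMem h]

lemma av_sub (k : ℕ) (ω : Ω) : av A D θ k ω - cv D θ k = dv D θ k * ((In A (k + 1) ω - 1 / 2 : ℝ) : ℂ) := by
  unfold av cv dv
  split_ifs
  · push_cast
    ring
  · simp

lemma av_norm (k : ℕ) (ω : Ω) : ‖av A D θ k ω‖ = 1 := by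
  unfold av
  split_ifs
  · have h1 : (Real.sin θ * (2 * In A (k + 1) ω - 1)) ^ 2 = Real.sin θ ^ 2 := by
      rcases In_cases A (k + 1) ω with h | h <;> rw [h] <;> ring
    rw [Complex.norm_add_mul_I, h1, add_comm, Real.sin_sq_add_cos_sq, Real.sqrt_one]
  · simp

lemma cv_norm (k : ℕ) : ‖cv D θ k‖ ≤ 1 := by
  unfold cv
  split_ifs
  · rw [Complex.norm_real, Real.norm_eq_abs]
    exact Real.abs_cos_le_one θ
  · simp

lemma dv_norm (k : ℕ) : ‖dv D θ k‖ ≤ 2 * |θ| := by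
  unfold dv
  split_ifs
  · rw [norm_mul, Complex.norm_I, mul_one, Complex.norm_real, Real.norm_eq_abs, abs_mul, abs_of_pos (show (0 : ℝ) < 2 by norm_num)]
    exact mul_le_mul_of_nonneg_left (Real.abs_sin_le_abs) (by norm_num)
  · rw [norm_zero]
    positivity

lemma prod_diff (a c : ℕ → ℂ) (x H : ℕ) : ∏ m ∈ Finset.Ico x (x + H), a m - ∏ m ∈ Finset.Ico x (x + H), c m =
    ∑ l ∈ Finset.Ico x (x + H), (∏ m ∈ Finset.Ico x l, a m) * (∏ m ∈ Finset.Ico (l + 1) (x + H), c m) * (a l - c l) := by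
  induction H with
  | zero => simp
  | succ H ih =>
    rw [← add_assoc, Finset.prod_Ico_succ_top (by omega), Finset.prod_Ico_succ_top (by omega), Finset.sum_Ico_succ_top (by omega)]
    have h1 : ∀ l ∈ Finset.Ico x (x + H), (∏ m ∈ Finset.Ico x l, a m) * (∏ m ∈ Finset.Ico (l + 1) (x + H + 1), c m) * (a l - c l) =
        ((∏ m ∈ Finset.Ico x l, a m) * (∏ m ∈ Finset.Ico (l + 1) (x + H), c m) * (a l - c l)) * c (x + H) := by
      intro l hl
      have hl' := Finset.mem_Ico.1 hl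
      rw [Finset.prod_Ico_succ_top (by omega)]
      ring
    rw [Finset.sum_congr rfl h1, ← Finset.sum_mul, ← ih, Finset.Ico_self, Finset.prod_empty]
    ring

/-- the windows which contain `l` -/
def st2 (X H l : ℕ) : Finset ℕ := (Finset.Ico X (2 * X)).filter (fun x => x ≤ l ∧ l < x + H)

lemma st2_card (X H l : ℕ) : (st2 X H l).card ≤ H := by
  have h2 : (st2 X H l).card ≤ (Finset.range H).card := by
    apply Finset.card_le_card_of_injOn (fun x => l - x)
    · intro x hx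
      obtain ⟨h1, h2, h3⟩ := Finset.mem_filter.1 hx
      simp only [Finset.coe_range, Set.mem_Iio]
      omega
    · intro x hx y hy hxy
      obtain ⟨h1, h2, h3⟩ := Finset.mem_filter.1 hx
      obtain ⟨h4, h5, h6⟩ := Finset.mem_filter.1 hy
      simp only at hxy
      omega
  rwa [Finset.card_range] at h2

/-- the centred exponential sum over the windows -/
noncomputable def FS (A : ℕ → Set Ω) (X H : ℕ) (ω : Ω) : ℂ :=
  ∑ x ∈ Finset.Ico X (2 * X), (∏ m ∈ Finset.Ico x (x + H), av A D θ m ω - ∏ m ∈ Finset.Ico x (x + H), cv D θ m)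

/-- the weights -/
noncomputable def wc (A : ℕ → Set Ω) (X H l : ℕ) (ω : Ω) : ℂ :=
  ∑ x ∈ st2 X H l, (∏ m ∈ Finset.Ico x l, av A D θ m ω) * (∏ m ∈ Finset.Ico (l + 1) (x + H), cv D θ m) * dv D θ l

lemma FS_eq (X H : ℕ) (ω : Ω) : FS D θ A X H ω = ∑ l ∈ Finset.range (2 * X + H), wc D θ A X H l ω * ((In A (l + 1) ω - 1 / 2 : ℝ) : ℂ) := by
  unfold FS
  simp_rw [prod_diff, av_sub]
  have h1 : ∀ x l, (∏ m ∈ Finset.Ico x l, av A D θ m ω) * (∏ m ∈ Finset.Ico (l + 1) (x + H), cv D θ m) *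
      (dv D θ l * ((In A (l + 1) ω - 1 / 2 : ℝ) : ℂ)) =
      (∏ m ∈ Finset.Ico x l, av A D θ m ω) * (∏ m ∈ Finset.Ico (l + 1) (x + H), cv D θ m) * dv D θ l * ((In A (l + 1) ω - 1 / 2 : ℝ) : ℂ) :=
    fun x l => by ring
  simp_rw [h1]
  unfold wc
  simp_rw [Finset.sum_mul]
  apply Finset.sum_comm'
  intro x l
  unfold st2
  simp only [Finset.mem_range, Finset.mem_Ico, Finset.mem_filter]
  omega

lemma wc_norm (X H l : ℕ) (ω : Ω) : ‖wc D θ A X H l ω‖ ≤ H * (2 * |θ|) := by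
  unfold wc
  refine (norm_sum_le _ _).trans ?_
  have h1 : ∀ x ∈ st2 X H l, ‖(∏ m ∈ Finset.Ico x l, av A D θ m ω) * (∏ m ∈ Finset.Ico (l + 1) (x + H), cv D θ m) * dv D θ l‖ ≤ 2 * |θ| := by
    intro x _
    rw [norm_mul, norm_mul, norm_prod, norm_prod]
    have e1 : ∏ m ∈ Finset.Ico x l, ‖av A D θ m ω‖ = 1 := Finset.prod_eq_one fun m _ => av_norm D θ m ω
    have e2 : ∏ m ∈ Finset.Ico (l + 1) (x + H), ‖cv D θ m‖ ≤ 1 := Finset.prod_le_one (fun m _ => norm_nonneg _) fun m _ => cv_norm D θ m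
    have e3 : 0 ≤ ∏ m ∈ Finset.Ico (l + 1) (x + H), ‖cv D θ m‖ := Finset.prod_nonneg fun m _ => norm_nonneg _
    rw [e1, one_mul]
    calc _ ≤ 1 * (2 * |θ|) := mul_le_mul e2 (dv_norm D θ l) (norm_nonneg _) zero_le_one
      _ = _ := one_mul _
  refine (Finset.sum_le_sum h1).trans ?_
  rw [Finset.sum_const, nsmul_eq_mul]
  apply mul_le_mul_of_nonneg_right _ (by positivity)
  exact_mod_cast st2_card X H l

lemma In_smeas (hA : ∀ n, MeasurableSet[ℱ n] (A n)) {n l : ℕ} (h : n ≤ l) : StronglyMeasurable[ℱ l] (In A n) := by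
  have h3 : StronglyMeasurable[ℱ l] ((A n).indicator (fun _ => (1 : ℝ))) :=
    (@stronglyMeasurable_const _ _ (ℱ l) _ _).indicator (ℱ.mono h _ (hA n))
  exact h3

lemma av_meas (hA : ∀ n, MeasurableSet[ℱ n] (A n)) {k l : ℕ} (h : k + 1 ≤ l) : StronglyMeasurable[ℱ l] (av A D θ k) := by
  by_cases hD : D (k + 1)
  · have h1 : av A D θ k = fun ω => (Real.cos θ : ℂ) + ((Real.sin θ * (2 * In A (k + 1) ω - 1) : ℝ) : ℂ) * Complex.I := by
      funext ω
      unfold av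
      rw [if_pos hD]
    rw [h1]
    have h2 : Continuous (fun y : ℝ => (Real.cos θ : ℂ) + ((Real.sin θ * (2 * y - 1) : ℝ) : ℂ) * Complex.I) := by fun_prop
    exact h2.comp_stronglyMeasurable (In_smeas hA h)
  · have h1 : av A D θ k = fun _ => 1 := by
      funext ω
      unfold av
      rw [if_neg hD]
    rw [h1]
    exact stronglyMeasurable_const

lemma wc_meas (hA : ∀ n, MeasurableSet[ℱ n] (A n)) (X H l : ℕ) : StronglyMeasurable[ℱ l] (wc D θ A X H l) := by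
  have h1 : wc D θ A X H l = ∑ x ∈ st2 X H l, ((∏ m ∈ Finset.Ico x l, av A D θ m) *
      fun _ => (∏ m ∈ Finset.Ico (l + 1) (x + H), cv D θ m) * dv D θ l) := by
    funext ω
    unfold wc
    rw [Finset.sum_apply]
    refine Finset.sum_congr rfl fun x _ => ?_
    rw [Pi.mul_apply, Finset.prod_apply]
    ring
  rw [h1]
  refine Finset.stronglyMeasurable_sum _ fun x _ => ?_
  have h2 : StronglyMeasurable[ℱ l] (∏ m ∈ Finset.Ico x l, av A D θ m) := by
    refine Finset.stronglyMeasurable_prod _ fun m hm => ?_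
    exact av_meas D θ hA (by have := Finset.mem_Ico.1 hm; omega)
  exact @StronglyMeasurable.mul _ _ _ _ (ℱ l) _ _ _ h2 stronglyMeasurable_const

/-- the fairness of the signs -/
def Fair (μ : Measure Ω) (ℱ : Filtration ℕ m0) (A : ℕ → Set Ω) : Prop := ∀ n, dens μ ℱ A n =ᵐ[μ] fun _ => 1 / 2

theorem conc (hA : ∀ n, MeasurableSet[ℱ n] (A n)) (hf : Fair μ ℱ A) {X H : ℕ} (hH : 0 < H) (hHX : H ≤ X) {τ : ℝ} (hτ : 0 < τ) (hθ : |θ| ≤ τ)
    {lam : ℝ} (hlam : 0 ≤ lam) :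
    μ.real {ω | 2 * lam ≤ ‖FS D θ A X H ω‖} ≤ 4 * Real.exp (-(lam ^ 2 / (24 * X * (H : ℝ) ^ 2 * τ ^ 2))) := by
  have hH' : (0 : ℝ) < H := by exact_mod_cast hH
  have hHX' : (H : ℝ) ≤ X := by exact_mod_cast hHX
  have hX' : (0 : ℝ) < X := by linarith
  have hv : ∑ k ∈ Finset.range (2 * X + H), (H * (2 * τ)) ^ 2 ≤ 12 * X * (H : ℝ) ^ 2 * τ ^ 2 := by
    rw [Finset.sum_const, Finset.card_range, nsmul_eq_mul]
    push_cast
    have h1 : 0 ≤ 4 * (H : ℝ) ^ 2 * τ ^ 2 := by positivity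
    have h2 := mul_le_mul_of_nonneg_right (show 2 * (X : ℝ) + H ≤ 3 * X by linarith) h1
    calc (2 * (X : ℝ) + H) * (H * (2 * τ)) ^ 2 = (2 * X + H) * (4 * (H : ℝ) ^ 2 * τ ^ 2) := by ring
      _ ≤ _ := h2
      _ = _ := by ring
  have hb : ∀ l ω, ‖wc D θ A X H l ω‖ ≤ H * (2 * τ) := fun l ω =>
    (wc_norm D θ X H l ω).trans (mul_le_mul_of_nonneg_left (by linarith) hH'.le)
  have hre := Sx_tail (μ := μ) hA 0 (fun l ω => (wc D θ A X H l ω).re) (fun k => by
      rw [zero_add]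
      exact Complex.continuous_re.comp_stronglyMeasurable (wc_meas D θ hA X H k))
    (fun _ => H * (2 * τ)) (fun _ => by positivity) (fun k ω => (Complex.abs_re_le_norm _).trans (hb k ω)) (2 * X + H)
    (v := 12 * X * (H : ℝ) ^ 2 * τ ^ 2) (by positivity) hv hlam
  have him := Sx_tail (μ := μ) hA 0 (fun l ω => (wc D θ A X H l ω).im) (fun k => by
      rw [zero_add]
      exact Complex.continuous_im.comp_stronglyMeasurable (wc_meas D θ hA X H k))
    (fun _ => H * (2 * τ)) (fun _ => by positivity) (fun k ω => (Complex.abs_im_le_norm _).trans (hb k ω)) (2 * X + H)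
    (v := 12 * X * (H : ℝ) ^ 2 * τ ^ 2) (by positivity) hv hlam
  have hsub : {ω | 2 * lam ≤ ‖FS D θ A X H ω‖} ≤ᵐ[μ]
      ({ω | lam ≤ |Sw μ ℱ A 0 (fun l ω => (wc D θ A X H l ω).re) (2 * X + H) ω|} ∪
       {ω | lam ≤ |Sw μ ℱ A 0 (fun l ω => (wc D θ A X H l ω).im) (2 * X + H) ω|} : Set Ω) := by
    filter_upwards [ae_all_iff.2 hf] with ω hω h1
    have h1 : 2 * lam ≤ ‖FS D θ A X H ω‖ := h1
    have e1 : (FS D θ A X H ω).re = Sw μ ℱ A 0 (fun l ω => (wc D θ A X H l ω).re) (2 * X + H) ω := by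
      rw [FS_eq, Complex.re_sum]
      unfold Sw
      refine Finset.sum_congr rfl fun l _ => ?_
      rw [zero_add, hω l, Complex.re_mul_ofReal]
      rfl
    have e2 : (FS D θ A X H ω).im = Sw μ ℱ A 0 (fun l ω => (wc D θ A X H l ω).im) (2 * X + H) ω := by
      rw [FS_eq, Complex.im_sum]
      unfold Sw
      refine Finset.sum_congr rfl fun l _ => ?_
      rw [zero_add, hω l, Complex.im_mul_ofReal]
      rfl
    have h2 : ‖FS D θ A X H ω‖ ≤ |(FS D θ A X H ω).re| + |(FS D θ A X H ω).im| := Complex.norm_le_abs_re_add_abs_im _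
    rw [e1, e2] at h2
    by_cases h3 : lam ≤ |Sw μ ℱ A 0 (fun l ω => (wc D θ A X H l ω).re) (2 * X + H) ω|
    · exact Or.inl h3
    · right
      show lam ≤ _
      push Not at h3
      linarith
  have h3 : μ.real {ω | 2 * lam ≤ ‖FS D θ A X H ω‖} ≤ μ.real ({ω | lam ≤ |Sw μ ℱ A 0 (fun l ω => (wc D θ A X H l ω).re) (2 * X + H) ω|} ∪
       {ω | lam ≤ |Sw μ ℱ A 0 (fun l ω => (wc D θ A X H l ω).im) (2 * X + H) ω|}) := by
    unfold Measure.real
    exact ENNReal.toReal_mono (measure_ne_top _ _) (measure_mono_ae hsub)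
  refine h3.trans ((measureReal_union_le _ _).trans ?_)
  have h4 : (2 : ℝ) * (12 * X * (H : ℝ) ^ 2 * τ ^ 2) = 24 * X * (H : ℝ) ^ 2 * τ ^ 2 := by ring
  rw [h4] at hre him
  linarith

end

end Pool.Agent.R528.RM
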