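import Mathlib
import Pool.Agent.Y293.SF.SQF

set_option autoImplicit false
set_option linter.unusedSectionVars false
set_option linter.unusedVariables false

/-! # Squarefree integers in short intervals, on average -/

open Finset Filter
open scoped Topology

namespace Pool.Agent.R528.RM

open Pool.Agent.Y293.SF (mu abs_mu_le indic_eq moebius_hasSum)

/-- the indicator of the squarefree integers -/
noncomputable def sf (n : ℕ) : ℝ := if Squarefree n then 1 else 0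

/-- the number of large square divisors -/
noncomputable def tl (D N n : ℕ) : ℝ := ∑ d ∈ Ioc D N, if d ^ 2 ∣ n then (1 : ℝ) else 0

lemma sf_eq {n N : ℕ} (hn : n ≠ 0) (hN : n ≤ N) : sf n = ∑ d ∈ Icc 1 N, if d ^ 2 ∣ n then mu d else 0 := by
  unfold sf
  rw [indic_eq n hn]
  apply sum_subset (Icc_subset_Icc_right hN)
  intro d hd hd2
  rw [mem_Icc] at hd hd2
  rw [if_neg]
  intro h
  have h1 := Nat.le_of_dvd (Nat.pos_of_ne_zero hn) h
  apply hd2
  refine ⟨hd.1, ?_⟩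
  nlinarith [hd.1]

lemma sf_trunc {n N D : ℕ} (hn : n ≠ 0) (hN : n ≤ N) (hD : D ≤ N) :
    |sf n - ∑ d ∈ Icc 1 D, (if d ^ 2 ∣ n then mu d else 0)| ≤ tl D N n := by
  rw [sf_eq hn hN]
  have h1 : Icc 1 N = Icc 1 D ∪ Ioc D N := by
    ext d
    simp only [mem_union, mem_Icc, mem_Ioc]
    omega
  have h2 : Disjoint (Icc 1 D) (Ioc D N) := by
    rw [Finset.disjoint_left]
    intro d hd hd2
    rw [mem_Icc] at hd
    rw [mem_Ioc] at hd2
    omega
  rw [h1, sum_union h2, add_sub_cancel_left]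
  unfold tl
  refine (abs_sum_le_sum_abs _ _).trans (sum_le_sum fun d _ => ?_)
  split_ifs
  · exact abs_mu_le d
  · rw [abs_zero]

lemma mult_count (x H m : ℕ) (hm : 0 < m) : |∑ n ∈ Ioc x (x + H), (if m ∣ n then (1 : ℝ) else 0) - (H : ℝ) / m| ≤ 1 := by
  have h1 : ∑ n ∈ Ioc x (x + H), (if m ∣ n then (1 : ℝ) else 0) = (((x + H) / m : ℕ) : ℝ) - ((x / m : ℕ) : ℝ) := by
    have h2 : ∀ N : ℕ, ∑ n ∈ Ioc 0 N, (if m ∣ n then (1 : ℝ) else 0) = ((N / m : ℕ) : ℝ) := by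
      intro N
      rw [sum_boole, Nat.Ioc_filter_dvd_card_eq_div]
    rw [← h2, ← h2, ← sum_Ioc_consecutive _ (Nat.zero_le x) (Nat.le_add_right x H), add_sub_cancel_left]
  have hm' : (0 : ℝ) < m := by exact_mod_cast hm
  rw [h1]
  have a1 : (((x + H) / m : ℕ) : ℝ) ≤ ((x + H : ℕ) : ℝ) / m := Nat.cast_div_le
  have a2 : ((x / m : ℕ) : ℝ) ≤ (x : ℝ) / m := Nat.cast_div_le
  have a3 : ((x + H : ℕ) : ℝ) / m < (((x + H) / m : ℕ) : ℝ) + 1 := by
    rw [div_lt_iff₀ hm']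
    have := Nat.lt_div_mul_add (a := x + H) hm
    have h5 : x + H < ((x + H) / m + 1) * m := by
      calc x + H < (x + H) / m * m + m := this
        _ = ((x + H) / m + 1) * m := by ring
    exact_mod_cast h5
  have a4 : (x : ℝ) / m < ((x / m : ℕ) : ℝ) + 1 := by
    rw [div_lt_iff₀ hm']
    have := Nat.lt_div_mul_add (a := x) hm
    have h5 : x < (x / m + 1) * m := by
      calc x < x / m * m + m := this
        _ = (x / m + 1) * m := by ring
    exact_mod_cast h5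
  have a5 : ((x + H : ℕ) : ℝ) / m = (x : ℝ) / m + H / m := by
    push_cast
    ring
  rw [abs_le]
  constructor <;> linarith

lemma win_D (x H D : ℕ) : |∑ n ∈ Ioc x (x + H), ∑ d ∈ Icc 1 D, (if d ^ 2 ∣ n then mu d else 0) - H * ∑ d ∈ Icc 1 D, mu d / (d : ℝ) ^ 2| ≤ D := by
  rw [sum_comm, mul_sum, ← sum_sub_distrib]
  refine (abs_sum_le_sum_abs _ _).trans ?_
  have h1 : ∀ d ∈ Icc 1 D, |∑ n ∈ Ioc x (x + H), (if d ^ 2 ∣ n then mu d else 0) - H * (mu d / (d : ℝ) ^ 2)| ≤ 1 := by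
    intro d hd
    have hd1 := (mem_Icc.1 hd).1
    have h2 : ∑ n ∈ Ioc x (x + H), (if d ^ 2 ∣ n then mu d else 0) = mu d * ∑ n ∈ Ioc x (x + H), (if d ^ 2 ∣ n then (1 : ℝ) else 0) := by
      rw [mul_sum]
      refine sum_congr rfl fun n _ => ?_
      split_ifs <;> ring
    have h3 : (H : ℝ) * (mu d / (d : ℝ) ^ 2) = mu d * ((H : ℝ) / ((d ^ 2 : ℕ) : ℝ)) := by
      push_cast
      ring
    rw [h2, h3, ← mul_sub, abs_mul]
    calc |mu d| * _ ≤ 1 * 1 := mul_le_mul (abs_mu_le d) (mult_count x H (d ^ 2) (by positivity)) (abs_nonneg _) zero_le_one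
      _ = 1 := one_mul 1
  refine (sum_le_sum h1).trans ?_
  rw [sum_const, Nat.card_Icc, nsmul_eq_mul, Nat.add_sub_cancel, mul_one]

lemma win_over (f : ℕ → ℝ) (hf : ∀ n, 0 ≤ f n) (X H : ℕ) :
    ∑ x ∈ Ico X (2 * X), ∑ n ∈ Ioc x (x + H), f n ≤ H * ∑ n ∈ Ioc 0 (2 * X + H), f n := by
  have h1 : ∑ x ∈ Ico X (2 * X), ∑ n ∈ Ioc x (x + H), f n =
      ∑ n ∈ Ioc 0 (2 * X + H), ∑ x ∈ (Ico X (2 * X)).filter (fun x => x < n ∧ n ≤ x + H), f n := by
    apply sum_comm'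
    intro x n
    simp only [mem_Ico, mem_Ioc, mem_filter]
    omega
  rw [h1, mul_sum]
  refine sum_le_sum fun n _ => ?_
  rw [sum_const, nsmul_eq_mul]
  apply mul_le_mul_of_nonneg_right _ (hf n)
  have h2 : ((Ico X (2 * X)).filter (fun x => x < n ∧ n ≤ x + H)).card ≤ (range H).card := by
    apply card_le_card_of_injOn (fun x => n - 1 - x)
    · intro x hx
      have := (mem_filter.1 hx).2
      simp only [coe_range, Set.mem_Iio]
      omega
    · intro x hx y hy hxy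
      have h3 := (mem_filter.1 hx).2
      have h4 := (mem_filter.1 hy).2
      simp only at hxy
      omega
  rw [card_range] at h2
  exact_mod_cast h2

lemma tl_sum {D N : ℕ} (hD : 0 < D) : ∑ n ∈ Ioc 0 N, tl D N n ≤ (N : ℝ) / D := by
  unfold tl
  rw [sum_comm]
  have h1 : ∀ d ∈ Ioc D N, ∑ n ∈ Ioc 0 N, (if d ^ 2 ∣ n then (1 : ℝ) else 0) ≤ N * ((d : ℝ) ^ 2)⁻¹ := by
    intro d _
    rw [sum_boole, Nat.Ioc_filter_dvd_card_eq_div]
    refine Nat.cast_div_le.trans (le_of_eq ?_)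
    push_cast
    rw [div_eq_mul_inv]
  refine (sum_le_sum h1).trans ?_
  rw [← mul_sum]
  rcases Nat.lt_or_ge N D with h2 | h2
  · rw [Ioc_eq_empty (by omega), sum_empty, mul_zero]
    positivity
  · have h3 := sum_Ioc_inv_sq_le_sub (α := ℝ) (k := D) (n := N) (by omega) h2
    have h4 : (∑ i ∈ Ioc D N, ((i : ℝ) ^ 2)⁻¹) ≤ (D : ℝ)⁻¹ := h3.trans (by
      have : (0 : ℝ) ≤ (N : ℝ)⁻¹ := by positivity
      linarith)
    rw [div_eq_mul_inv]
    exact mul_le_mul_of_nonneg_left h4 (Nat.cast_nonneg N)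

/-- squarefree integers in short intervals, on average -/
theorem sf_short {η : ℝ} (hη : 0 < η) : ∃ H₀ : ℕ, 0 < H₀ ∧ ∀ X H : ℕ, H₀ ≤ H → H ≤ X →
    ∑ x ∈ Ico X (2 * X), |∑ n ∈ Ioc x (x + H), sf n - 6 / Real.pi ^ 2 * H| ≤ η * (X * H) := by
  have hs := moebius_hasSum.tendsto_sum_nat
  have h1 := (Metric.tendsto_nhds.1 hs) (η / 4) (by positivity)
  obtain ⟨D₀, hD₀⟩ := eventually_atTop.1 h1
  obtain ⟨D₁, hD₁⟩ := exists_nat_gt (12 / η)
  set D : ℕ := max D₀ D₁ + 1 with hD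
  have hDpos : 0 < D := by omega
  have hD1 : 12 / η < D := by
    refine hD₁.trans ?_
    rw [hD]
    push_cast
    have : (D₁ : ℝ) ≤ max (D₀ : ℝ) D₁ := le_max_right _ _
    linarith
  have hκ : |∑ d ∈ Icc 1 D, mu d / (d : ℝ) ^ 2 - 6 / Real.pi ^ 2| ≤ η / 4 := by
    have h2 := hD₀ (D + 1) (by have := le_max_left D₀ D₁; omega)
    rw [Real.dist_eq] at h2
    have h3 : ∑ d ∈ Icc 1 D, mu d / (d : ℝ) ^ 2 = ∑ i ∈ range (D + 1), mu i * (1 / (i : ℝ) ^ 2) := by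
      rw [range_eq_Ico, sum_eq_sum_Ico_succ_bot (by omega)]
      have h4 : Ico (0 + 1) (D + 1) = Icc 1 D := by
        ext d
        simp only [mem_Ico, mem_Icc]
        omega
      rw [h4, Pool.Agent.Y293.SF.mu_zero, zero_mul, zero_add]
      refine sum_congr rfl fun d _ => ?_
      ring
    rw [h3]
    exact h2.le
  obtain ⟨H₁, hH₁⟩ := exists_nat_gt (4 * D / η)
  refine ⟨H₁ + D + 1, by omega, fun X H hH hHX => ?_⟩
  have hH' : 4 * D / η < H := by
    refine hH₁.trans_le ?_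
    exact_mod_cast (by omega : H₁ ≤ H)
  rw [div_lt_iff₀ hη] at hH'
  have hH0 : (0 : ℝ) < H := by exact_mod_cast (by omega : 0 < H)
  have hX0 : (0 : ℝ) < X := by exact_mod_cast (by omega : 0 < X)
  have hHX' : (H : ℝ) ≤ X := by exact_mod_cast hHX
  set N : ℕ := 2 * X + H with hN
  have h2 : ∀ x ∈ Ico X (2 * X), |∑ n ∈ Ioc x (x + H), sf n - 6 / Real.pi ^ 2 * H| ≤
      D + H * (η / 4) + ∑ n ∈ Ioc x (x + H), tl D N n := by
    intro x hx
    rw [mem_Ico] at hx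
    have e1 : |∑ n ∈ Ioc x (x + H), sf n - ∑ n ∈ Ioc x (x + H), ∑ d ∈ Icc 1 D, (if d ^ 2 ∣ n then mu d else 0)| ≤
        ∑ n ∈ Ioc x (x + H), tl D N n := by
      rw [← sum_sub_distrib]
      refine (abs_sum_le_sum_abs _ _).trans (sum_le_sum fun n hn => ?_)
      rw [mem_Ioc] at hn
      exact sf_trunc (by omega) (by omega) (by omega)
    have e2 := win_D x H D
    have e3 : |(H : ℝ) * ∑ d ∈ Icc 1 D, mu d / (d : ℝ) ^ 2 - 6 / Real.pi ^ 2 * H| ≤ H * (η / 4) := by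
      have : (H : ℝ) * ∑ d ∈ Icc 1 D, mu d / (d : ℝ) ^ 2 - 6 / Real.pi ^ 2 * H = H * (∑ d ∈ Icc 1 D, mu d / (d : ℝ) ^ 2 - 6 / Real.pi ^ 2) := by ring
      rw [this, abs_mul, abs_of_pos hH0]
      exact mul_le_mul_of_nonneg_left hκ hH0.le
    obtain ⟨a1, a2⟩ := abs_le.1 e1
    obtain ⟨b1, b2⟩ := abs_le.1 e2
    obtain ⟨c1, c2⟩ := abs_le.1 e3
    rw [abs_le]
    constructor <;> linarith
  refine (sum_le_sum h2).trans ?_
  rw [sum_add_distrib, sum_const, Nat.card_Ico, nsmul_eq_mul]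
  have h3 := win_over (fun n => tl D N n) (fun n => sum_nonneg fun d _ => by split_ifs <;> norm_num) X H
  have h4 := mul_le_mul_of_nonneg_left (tl_sum (D := D) (N := N) hDpos) hH0.le
  have hDr : (0 : ℝ) < D := by exact_mod_cast hDpos
  have h5 : (N : ℝ) ≤ 3 * X := by
    rw [hN]
    push_cast
    linarith
  have h6 : (H : ℝ) * (N / D) ≤ H * (η / 4 * X) := by
    apply mul_le_mul_of_nonneg_left _ hH0.le
    rw [div_le_iff₀ hDr]
    rw [div_lt_iff₀ hη] at hD1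
    nlinarith
  have h7 : ((2 * X - X : ℕ) : ℝ) = X := by
    have : 2 * X - X = X := by omega
    rw [this]
  rw [h7]
  have h8 : (X : ℝ) * D ≤ X * (H * (η / 4)) := by
    apply mul_le_mul_of_nonneg_left _ hX0.le
    linarith
  nlinarith

end Pool.Agent.R528.RM
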