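import Mathlib
import Pool.Agent.R528.RM.Var1
import Pool.Agent.R528.RM.EH6

set_option autoImplicit false
set_option linter.unusedSectionVars false
set_option linter.unusedVariables false

/-! # The variance over the residue classes: reduction to the sum of squares -/

open MeasureTheory Filter Set
open scoped ENNReal Topology

namespace Pool.Agent.R528.RM

variable {Ω : Type} {m0 : MeasurableSpace Ω} {μ : Measure Ω} [IsProbabilityMeasure μ]
  {ℱ : Filtration ℕ m0} {A : ℕ → Set Ω}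

/-- the centred increment -/
noncomputable def xi (μ : Measure Ω) (ℱ : Filtration ℕ m0) (A : ℕ → Set Ω) (k : ℕ) (ω : Ω) : ℝ :=
  In A (k + 1) ω - dens μ ℱ A k ω

/-- the centred sum over a class -/
noncomputable def Dc (μ : Measure Ω) (ℱ : Filtration ℕ m0) (A : ℕ → Set Ω) (q r m : ℕ) (ω : Ω) : ℝ :=
  ∑ k ∈ Finset.range m, if (k + 1) % q = r then xi μ ℱ A k ω else 0

/-- the variance -/
noncomputable def Vq (μ : Measure Ω) (ℱ : Filtration ℕ m0) (A : ℕ → Set Ω) (q m : ℕ) (ω : Ω) : ℝ :=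
  ∑ r ∈ Finset.range q, Dc μ ℱ A q r m ω ^ 2

/-- the sum of the squares -/
noncomputable def X2 (μ : Measure Ω) (ℱ : Filtration ℕ m0) (A : ℕ → Set Ω) (m : ℕ) (ω : Ω) : ℝ :=
  ∑ k ∈ Finset.range m, xi μ ℱ A k ω ^ 2

lemma Vq_eq {q : ℕ} (hq : 0 < q) (m : ℕ) (ω : Ω) : Vq μ ℱ A q m ω =
    X2 μ ℱ A m ω + ∑ k ∈ Finset.range m, 2 * Dc μ ℱ A q ((k + 1) % q) k ω * xi μ ℱ A k ω := by
  induction m with
  | zero => simp [Vq, X2, Dc]
  | succ m ih =>
    have h1 : Vq μ ℱ A q (m + 1) ω = Vq μ ℱ A q m ω +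
        (2 * Dc μ ℱ A q ((m + 1) % q) m ω * xi μ ℱ A m ω + xi μ ℱ A m ω ^ 2) := by
      unfold Vq
      have h2 : ∀ r ∈ Finset.range q, Dc μ ℱ A q r (m + 1) ω ^ 2 = Dc μ ℱ A q r m ω ^ 2 +
          (if (m + 1) % q = r then 2 * Dc μ ℱ A q r m ω * xi μ ℱ A m ω + xi μ ℱ A m ω ^ 2 else 0) := by
        intro r _
        have h3 : Dc μ ℱ A q r (m + 1) ω = Dc μ ℱ A q r m ω + if (m + 1) % q = r then xi μ ℱ A m ω else 0 := by
          unfold Dc
          rw [Finset.sum_range_succ]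
        rw [h3]
        split_ifs <;> ring
      rw [Finset.sum_congr rfl h2, Finset.sum_add_distrib, Finset.sum_ite_eq, if_pos (Finset.mem_range.2 (Nat.mod_lt _ hq))]
    have h4 : X2 μ ℱ A (m + 1) ω = X2 μ ℱ A m ω + xi μ ℱ A m ω ^ 2 := by
      unfold X2
      rw [Finset.sum_range_succ]
    rw [h1, h4, Finset.sum_range_succ, ih]
    ring

lemma Dc_Sw (q r m : ℕ) (ω : Ω) : Dc μ ℱ A q r m ω = Sw μ ℱ A 0 (fun k _ => if (k + 1) % q = r then 1 else 0) m ω := by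
  unfold Dc Sw xi In
  refine Finset.sum_congr rfl fun k _ => ?_
  rw [zero_add]
  by_cases h : (k + 1) % q = r
  · simp only [if_pos h, one_mul]
  · simp only [if_neg h, zero_mul]

lemma Dc_meas (hA : ∀ n, MeasurableSet[ℱ n] (A n)) (q r m : ℕ) : StronglyMeasurable[ℱ m] (Dc μ ℱ A q r m) := by
  have h1 := Sw_meas (μ := μ) hA 0 (fun k _ => if (k + 1) % q = r then (1 : ℝ) else 0) (fun k => stronglyMeasurable_const) m
  rw [zero_add] at h1
  have h2 : Dc μ ℱ A q r m = Sw μ ℱ A 0 (fun k _ => if (k + 1) % q = r then 1 else 0) m := funext fun ω => Dc_Sw q r m ω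
  rw [h2]
  exact h1

lemma cls_count {q : ℕ} (hq : 0 < q) (r m : ℕ) :
    ∑ k ∈ Finset.range m, (if (k + 1) % q = r then (1 : ℝ) else 0) ^ 2 ≤ (m : ℝ) / q + 1 := by
  have hq' : (0 : ℝ) < q := by exact_mod_cast hq
  have h1 : ∀ k ∈ Finset.range m, (if (k + 1) % q = r then (1 : ℝ) else 0) ^ 2 = if (k + 1) % q = r then (1 : ℝ) else 0 := by
    intro k _
    split_ifs <;> norm_num
  rw [Finset.sum_congr rfl h1, Finset.sum_boole]
  have h2 : ((Finset.range m).filter (fun k => (k + 1) % q = r)).card ≤ (Finset.range (m / q + 1)).card := by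
    apply Finset.card_le_card_of_injOn (fun k => (k + 1) / q)
    · intro k hk
      have h3 := (Finset.mem_filter.1 hk).1
      have h4 := Finset.mem_range.1 h3
      simp only [Finset.coe_range, Set.mem_Iio]
      exact Nat.lt_succ_of_le (Nat.div_le_div_right (by omega))
    · intro k hk l hl hkl
      have h3 := (Finset.mem_filter.1 hk).2
      have h4 := (Finset.mem_filter.1 hl).2
      have h5 := Nat.div_add_mod (k + 1) q
      have h6 := Nat.div_add_mod (l + 1) q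
      simp only at hkl
      rw [h3, hkl] at h5
      rw [h4] at h6
      omega
  rw [Finset.card_range] at h2
  have h3 : (((Finset.range m).filter (fun k => (k + 1) % q = r)).card : ℝ) ≤ ((m / q + 1 : ℕ) : ℝ) := by exact_mod_cast h2
  refine h3.trans ?_
  push_cast
  have h4 : ((m / q : ℕ) : ℝ) ≤ (m : ℝ) / q := Nat.cast_div_le
  linarith

/-- the bound for the sums over the classes -/
noncomputable def Bb (x q : ℕ) : ℝ := √(24 * ((x : ℝ) / q) * Real.log x)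

lemma exp_six {x : ℕ} (hx : 0 < x) (n : ℕ) : Real.exp (-((n : ℝ) * Real.log x)) = ((x : ℝ) ^ n)⁻¹ := by
  have hx' : (0 : ℝ) < x := by exact_mod_cast hx
  rw [Real.exp_neg, Real.exp_nat_mul, Real.exp_log hx']

lemma Dc_tail (hA : ∀ n, MeasurableSet[ℱ n] (A n)) {x q m : ℕ} (hq : 0 < q) (hqx : q ≤ x) (hx : 1 < x) (hm : m ≤ x) (r : ℕ) :
    μ.real {ω | Bb x q ≤ |Dc μ ℱ A q r m ω|} ≤ 2 * ((x : ℝ) ^ 6)⁻¹ := by
  have hq' : (0 : ℝ) < q := by exact_mod_cast hq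
  have hx' : (1 : ℝ) < x := by exact_mod_cast hx
  have hL : 0 < Real.log x := Real.log_pos hx'
  have hxq : 1 ≤ (x : ℝ) / q := by
    rw [one_le_div hq']
    exact_mod_cast hqx
  have hmx : (m : ℝ) / q ≤ (x : ℝ) / q := by
    apply div_le_div_of_nonneg_right _ hq'.le
    exact_mod_cast hm
  have h1 := Sx_tail (μ := μ) hA 0 (fun k _ => if (k + 1) % q = r then (1 : ℝ) else 0) (fun k => stronglyMeasurable_const)
    (fun k => if (k + 1) % q = r then (1 : ℝ) else 0) (fun k => by split_ifs <;> norm_num) (fun k ω => by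
      show |if (k + 1) % q = r then (1 : ℝ) else 0| ≤ _
      split_ifs <;> simp) m (v := 2 * ((x : ℝ) / q)) (by positivity)
    ((cls_count hq r m).trans (by linarith)) (lam := Bb x q) (Real.sqrt_nonneg _)
  simp_rw [← Dc_Sw] at h1
  refine h1.trans (le_of_eq ?_)
  rw [← exp_six (by omega : 0 < x) 6]
  congr 2
  unfold Bb
  rw [Real.sq_sqrt (by positivity)]
  push_cast
  field_simp
  ring

/-- the truncation -/
noncomputable def clp (B y : ℝ) : ℝ := max (-B) (min B y)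

lemma clp_abs {B : ℝ} (hB : 0 ≤ B) (y : ℝ) : |clp B y| ≤ B := by
  unfold clp
  rw [abs_le]
  exact ⟨le_max_left _ _, max_le (by linarith) (min_le_left _ _)⟩

lemma clp_eq {B y : ℝ} (h : |y| ≤ B) : clp B y = y := by
  unfold clp
  obtain ⟨h1, h2⟩ := abs_le.1 h
  rw [min_eq_right h2, max_eq_right h1]

lemma clp_cont (B : ℝ) : Continuous (clp B) := continuous_const.max (continuous_const.min continuous_id)

/-- the predictable multipliers -/
noncomputable def wq (μ : Measure Ω) (ℱ : Filtration ℕ m0) (A : ℕ → Set Ω) (B : ℝ) (q k : ℕ) (ω : Ω) : ℝ :=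
  2 * clp B (Dc μ ℱ A q ((k + 1) % q) k ω)

lemma cross_tail (hA : ∀ n, MeasurableSet[ℱ n] (A n)) {B : ℝ} (hB : 0 < B) (q : ℕ) {x : ℕ} (hx : 0 < x) {lam : ℝ} (hlam : 0 ≤ lam) :
    μ.real {ω | lam ≤ |Sw μ ℱ A 0 (wq μ ℱ A B q) x ω|} ≤ 2 * Real.exp (-(lam ^ 2 / (8 * B ^ 2 * x))) := by
  have hx' : (0 : ℝ) < x := by exact_mod_cast hx
  have h1 := Sx_tail (μ := μ) hA 0 (wq μ ℱ A B q) (fun k => by
      rw [zero_add]
      exact ((clp_cont B).comp_stronglyMeasurable (Dc_meas hA q ((k + 1) % q) k)).const_mul 2)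
    (fun _ => 2 * B) (fun _ => by positivity) (fun k ω => by
      unfold wq
      rw [abs_mul, abs_of_pos (show (0 : ℝ) < 2 by norm_num)]
      exact mul_le_mul_of_nonneg_left (clp_abs hB.le _) (by norm_num)) x (v := 4 * B ^ 2 * x) (by positivity)
    (by
      rw [Finset.sum_const, Finset.card_range, nsmul_eq_mul]
      apply le_of_eq
      ring) hlam
  refine h1.trans (le_of_eq ?_)
  congr 3
  ring

/-- the exceptional sets -/
def E1 (μ : Measure Ω) (ℱ : Filtration ℕ m0) (A : ℕ → Set Ω) (x : ℕ) : Set Ω :=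
  ⋃ q ∈ Finset.Icc 1 x, ⋃ r ∈ Finset.range q, ⋃ m ∈ Finset.range (x + 1), {ω | Bb x q ≤ |Dc μ ℱ A q r m ω|}

/-- the exceptional sets -/
def E2 (μ : Measure Ω) (ℱ : Filtration ℕ m0) (A : ℕ → Set Ω) (ε : ℝ) (x : ℕ) : Set Ω :=
  ⋃ q ∈ (Finset.Icc 1 x).filter (fun q : ℕ => Real.log x ^ 5 ≤ (q : ℝ)),
    {ω | ε * ((x : ℝ) / Real.log x) ≤ |Sw μ ℱ A 0 (wq μ ℱ A (Bb x q) q) x ω|}

lemma E1_le (hA : ∀ n, MeasurableSet[ℱ n] (A n)) {x : ℕ} (hx : 1 < x) : μ.real (E1 μ ℱ A x) ≤ 4 * ((x : ℝ) ^ 3)⁻¹ := by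
  have hx' : (1 : ℝ) < x := by exact_mod_cast hx
  unfold E1
  refine (measureReal_biUnion_finset_le _ _).trans ?_
  have h1 : ∀ q ∈ Finset.Icc 1 x, μ.real (⋃ r ∈ Finset.range q, ⋃ m ∈ Finset.range (x + 1), {ω | Bb x q ≤ |Dc μ ℱ A q r m ω|}) ≤
      (x : ℝ) * ((x + 1) * (2 * ((x : ℝ) ^ 6)⁻¹)) := by
    intro q hq
    obtain ⟨hq1, hq2⟩ := Finset.mem_Icc.1 hq
    refine (measureReal_biUnion_finset_le _ _).trans ?_
    have h2 : ∀ r ∈ Finset.range q, μ.real (⋃ m ∈ Finset.range (x + 1), {ω | Bb x q ≤ |Dc μ ℱ A q r m ω|}) ≤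
        (x + 1) * (2 * ((x : ℝ) ^ 6)⁻¹) := by
      intro r _
      refine (measureReal_biUnion_finset_le _ _).trans ?_
      refine (Finset.sum_le_sum fun m hm => Dc_tail hA (by omega) hq2 hx (by
        have := Finset.mem_range.1 hm
        omega) r).trans (le_of_eq ?_)
      rw [Finset.sum_const, Finset.card_range, nsmul_eq_mul]
      push_cast
      ring
    refine (Finset.sum_le_sum h2).trans ?_
    rw [Finset.sum_const, Finset.card_range, nsmul_eq_mul]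
    apply mul_le_mul_of_nonneg_right _ (by positivity)
    exact_mod_cast hq2
  refine (Finset.sum_le_sum h1).trans ?_
  rw [Finset.sum_const, Nat.card_Icc, nsmul_eq_mul, Nat.add_sub_cancel]
  have h3 : (x : ℝ) * (x * ((x + 1) * (2 * ((x : ℝ) ^ 6)⁻¹))) = 2 * (x + 1) / x * ((x : ℝ) ^ 3)⁻¹ := by
    field_simp
  rw [h3]
  apply mul_le_mul_of_nonneg_right _ (by positivity)
  rw [div_le_iff₀ (by linarith)]
  linarith

lemma E2_le (hA : ∀ n, MeasurableSet[ℱ n] (A n)) {ε : ℝ} (hε : 0 < ε) : ∀ᶠ x : ℕ in atTop, μ.real (E2 μ ℱ A ε x) ≤ 2 * ((x : ℝ) ^ 3)⁻¹ := by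
  filter_upwards [ev_log 1, ev_log (768 / ε ^ 2), eventually_gt_atTop 1] with x g1 g2 g3
  have hx' : (1 : ℝ) < x := by exact_mod_cast g3
  set L := Real.log (x : ℝ) with hL
  have hL0 : 0 < L := by linarith
  unfold E2
  refine (measureReal_biUnion_finset_le _ _).trans ?_
  have h1 : ∀ q ∈ (Finset.Icc 1 x).filter (fun q : ℕ => Real.log x ^ 5 ≤ (q : ℝ)),
      μ.real {ω | ε * ((x : ℝ) / Real.log x) ≤ |Sw μ ℱ A 0 (wq μ ℱ A (Bb x q) q) x ω|} ≤ 2 * ((x : ℝ) ^ 4)⁻¹ := by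
    intro q hq
    obtain ⟨hq0, hq3⟩ := Finset.mem_filter.1 hq
    obtain ⟨hq1, hq2⟩ := Finset.mem_Icc.1 hq0
    have hq' : (0 : ℝ) < q := by exact_mod_cast (by omega : 0 < q)
    have hB : 0 < Bb x q := by
      unfold Bb
      apply Real.sqrt_pos.2
      rw [← hL]
      positivity
    have h2 := cross_tail (μ := μ) (ℱ := ℱ) (A := A) hA hB q (by omega : 0 < x) (lam := ε * ((x : ℝ) / L)) (by positivity)
    refine h2.trans ?_
    rw [← exp_six (by omega : 0 < x) 4, ← hL]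
    apply mul_le_mul_of_nonneg_left _ (by norm_num)
    rw [Real.exp_le_exp, neg_le_neg_iff]
    unfold Bb
    rw [Real.sq_sqrt (by rw [← hL]; positivity), ← hL]
    have h3 : (ε * ((x : ℝ) / L)) ^ 2 / (8 * (24 * ((x : ℝ) / q) * L) * x) = ε ^ 2 * q / (192 * L ^ 3) := by
      field_simp
      norm_num
    rw [h3, le_div_iff₀ (by positivity)]
    rw [div_le_iff₀ (by positivity)] at g2
    rw [← hL] at hq3
    have h4 : ε ^ 2 * L ^ 5 ≤ ε ^ 2 * q := mul_le_mul_of_nonneg_left hq3 (by positivity)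
    have h5 : 768 * L ^ 4 ≤ (L * ε ^ 2) * L ^ 4 := mul_le_mul_of_nonneg_right g2 (by positivity)
    push_cast
    calc (4 : ℝ) * L * (192 * L ^ 3) = 768 * L ^ 4 := by ring
      _ ≤ (L * ε ^ 2) * L ^ 4 := h5
      _ = ε ^ 2 * L ^ 5 := by ring
      _ ≤ _ := h4
  refine (Finset.sum_le_sum h1).trans ?_
  rw [Finset.sum_const, nsmul_eq_mul]
  have h2 : (((Finset.Icc 1 x).filter (fun q : ℕ => Real.log x ^ 5 ≤ (q : ℝ))).card : ℝ) ≤ x := by
    have := (Finset.card_filter_le (Finset.Icc 1 x) (fun q : ℕ => Real.log x ^ 5 ≤ (q : ℝ)))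
    rw [Nat.card_Icc, Nat.add_sub_cancel] at this
    exact_mod_cast this
  refine (mul_le_mul_of_nonneg_right h2 (by positivity)).trans (le_of_eq ?_)
  field_simp

lemma sum_inv3 (c : ℝ) : Summable (fun x : ℕ => c * ((x : ℝ) ^ 3)⁻¹) :=
  (Real.summable_nat_pow_inv.2 (by norm_num)).mul_left c

theorem D_bound (hA : ∀ n, MeasurableSet[ℱ n] (A n)) : ∀ᵐ ω ∂μ, ∀ᶠ x : ℕ in atTop, ∀ q, 1 ≤ q → q ≤ x → ∀ r, r < q → ∀ m, m ≤ x →
    |Dc μ ℱ A q r m ω| < Bb x q := by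
  have h1 := bc_real (μ := μ) (s := fun x => E1 μ ℱ A x) (sum_inv3 4) (by
    filter_upwards [eventually_gt_atTop 1] with x hx
    exact E1_le hA hx)
  filter_upwards [h1] with ω hω
  filter_upwards [hω] with x hx q hq1 hq2 r hr m hm
  by_contra hcon
  push Not at hcon
  apply hx
  unfold E1
  simp only [mem_iUnion, Finset.mem_Icc, Finset.mem_range]
  exact ⟨q, ⟨hq1, hq2⟩, r, hr, m, by omega, hcon⟩

theorem var_main (hA : ∀ n, MeasurableSet[ℱ n] (A n)) : ∀ᵐ ω ∂μ, ∀ ε : ℝ, 0 < ε → ∀ᶠ x : ℕ in atTop, ∀ q, 1 ≤ q → q ≤ x → Real.log x ^ 5 ≤ (q : ℝ) →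
    |Vq μ ℱ A q x ω - X2 μ ℱ A x ω| ≤ ε * ((x : ℝ) / Real.log x) := by
  have h1 : ∀ᵐ ω ∂μ, ∀ n : ℕ, ∀ᶠ x : ℕ in atTop, ω ∉ E2 μ ℱ A (1 / (n + 1)) x := by
    rw [ae_all_iff]
    intro n
    exact bc_real (μ := μ) (sum_inv3 2) (E2_le hA (by positivity))
  filter_upwards [h1, D_bound hA] with ω hω hD ε hε
  obtain ⟨n, hn⟩ := exists_nat_one_div_lt hε
  filter_upwards [hω n, hD, ev_log 1] with x g1 g2 g3 q hq1 hq2 hq3
  have hL : 0 < Real.log (x : ℝ) := by linarith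
  rw [Vq_eq (by omega), add_sub_cancel_left]
  have h2 : ∑ k ∈ Finset.range x, 2 * Dc μ ℱ A q ((k + 1) % q) k ω * xi μ ℱ A k ω = Sw μ ℱ A 0 (wq μ ℱ A (Bb x q) q) x ω := by
    unfold Sw
    refine Finset.sum_congr rfl fun k hk => ?_
    have hk' := Finset.mem_range.1 hk
    unfold wq
    rw [clp_eq (g2 q hq1 hq2 _ (Nat.mod_lt _ (by omega)) k (by omega)).le, zero_add]
    rfl
  rw [h2]
  by_contra hcon
  push Not at hcon
  apply g1
  unfold E2
  simp only [mem_iUnion, Finset.mem_filter, Finset.mem_Icc]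
  refine ⟨q, ⟨⟨hq1, hq2⟩, hq3⟩, ?_⟩
  show 1 / ((n : ℝ) + 1) * ((x : ℝ) / Real.log x) ≤ _
  refine le_trans ?_ hcon.le
  exact mul_le_mul_of_nonneg_right hn.le (by positivity)

end Pool.Agent.R528.RM
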