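import Mathlib
import Pool.Agent.R528.RM.Mg1
import Pool.Agent.R528.RM.Var2
import Pool.Agent.R528.RM.Sf1

set_option autoImplicit false
set_option linter.unusedSectionVars false
set_option linter.unusedVariables false

/-! # Fair signs: the exponential sums over the windows, almost surely -/

open MeasureTheory Filter Set
open scoped ENNReal Topology

namespace Pool.Agent.R528.RM

variable {Ω : Type} {m0 : MeasurableSpace Ω} {μ : Measure Ω} [IsProbabilityMeasure μ]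
  {ℱ : Filtration ℕ m0} {A : ℕ → Set Ω}

section
variable (D : ℕ → Prop) [DecidablePred D]

/-- the exceptional set -/
def EX (A : ℕ → Set Ω) (κ δ : ℝ) (Θ X : ℕ) : Set Ω :=
  ⋃ H ∈ (Finset.Icc 1 X).filter (fun H : ℕ => (H : ℝ) ≤ X / Real.log X ^ 3), ⋃ j ∈ Finset.Icc (-((Θ * X : ℕ) : ℤ)) ((Θ * X : ℕ) : ℤ),
    {ω | 2 * (δ * X) ≤ ‖FS D ((j : ℝ) / X / √(κ * H)) A X H ω‖}

lemma EX_le (hA : ∀ n, MeasurableSet[ℱ n] (A n)) (hf : Fair μ ℱ A) {κ δ : ℝ} (hκ : 0 < κ) (hδ : 0 < δ) {Θ : ℕ} (hΘ : 0 < Θ) :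
    ∀ᶠ X : ℕ in atTop, μ.real (EX D A κ δ Θ X) ≤ (12 * Θ) * ((X : ℝ) ^ 3)⁻¹ := by
  filter_upwards [ev_log 1, ev_log (144 * Θ ^ 2 / (δ ^ 2 * κ)), eventually_gt_atTop 1] with X g1 g2 g3
  have hX' : (1 : ℝ) < X := by exact_mod_cast g3
  have hΘ' : (1 : ℝ) ≤ Θ := by exact_mod_cast hΘ
  set L := Real.log (X : ℝ) with hL
  have hL0 : 0 < L := by linarith
  unfold EX
  refine (measureReal_biUnion_finset_le _ _).trans ?_
  have h1 : ∀ H ∈ (Finset.Icc 1 X).filter (fun H : ℕ => (H : ℝ) ≤ X / Real.log X ^ 3),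
      μ.real (⋃ j ∈ Finset.Icc (-((Θ * X : ℕ) : ℤ)) ((Θ * X : ℕ) : ℤ), {ω | 2 * (δ * X) ≤ ‖FS D ((j : ℝ) / X / √(κ * H)) A X H ω‖}) ≤
        (3 * Θ * X) * (4 * ((X : ℝ) ^ 6)⁻¹) := by
    intro H hH
    obtain ⟨hH0, hH3⟩ := Finset.mem_filter.1 hH
    obtain ⟨hH1, hH2⟩ := Finset.mem_Icc.1 hH0
    have hH' : (0 : ℝ) < H := by exact_mod_cast (by omega : 0 < H)
    refine (measureReal_biUnion_finset_le _ _).trans ?_
    have h2 : ∀ j ∈ Finset.Icc (-((Θ * X : ℕ) : ℤ)) ((Θ * X : ℕ) : ℤ), μ.real {ω | 2 * (δ * X) ≤ ‖FS D ((j : ℝ) / X / √(κ * H)) A X H ω‖} ≤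
        4 * ((X : ℝ) ^ 6)⁻¹ := by
      intro j hj
      obtain ⟨hj1, hj2⟩ := Finset.mem_Icc.1 hj
      have hj1' : -((Θ : ℝ) * X) ≤ j := by exact_mod_cast hj1
      have hj2' : (j : ℝ) ≤ Θ * X := by exact_mod_cast hj2
      have hjX : |(j : ℝ) / X| ≤ Θ := by
        rw [abs_div, abs_of_pos (show (0 : ℝ) < X by linarith), div_le_iff₀ (by linarith), abs_le]
        exact ⟨hj1', hj2'⟩
      have hs : 0 < √(κ * H) := Real.sqrt_pos.2 (by positivity)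
      have hτ : |(j : ℝ) / X / √(κ * H)| ≤ Θ / √(κ * H) := by
        rw [abs_div, abs_of_pos hs]
        exact div_le_div_of_nonneg_right hjX hs.le
      have h3 := conc (μ := μ) (ℱ := ℱ) (A := A) D ((j : ℝ) / X / √(κ * H)) hA hf (X := X) (H := H) (by omega) hH2
        (τ := Θ / √(κ * H)) (by positivity) hτ (lam := δ * X) (by positivity)
      refine h3.trans ?_
      rw [← exp_six (by omega : 0 < X) 6]
      apply mul_le_mul_of_nonneg_left _ (by norm_num)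
      rw [Real.exp_le_exp, neg_le_neg_iff, ← hL, div_pow, Real.sq_sqrt (by positivity)]
      have h4 : (δ * (X : ℝ)) ^ 2 / (24 * X * (H : ℝ) ^ 2 * ((Θ : ℝ) ^ 2 / (κ * H))) = δ ^ 2 * κ * X / (24 * H * Θ ^ 2) := by
        field_simp
      rw [h4, le_div_iff₀ (by positivity)]
      rw [div_le_iff₀ (by positivity)] at g2
      rw [← hL, le_div_iff₀ (by positivity)] at hH3
      push_cast
      have h5 : δ ^ 2 * κ * (H * L ^ 3) ≤ δ ^ 2 * κ * X := mul_le_mul_of_nonneg_left hH3 (by positivity)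
      have h6 : 144 * (Θ : ℝ) ^ 2 * (H * L) ≤ (L * (δ ^ 2 * κ)) * (H * L) := mul_le_mul_of_nonneg_right g2 (by positivity)
      have h7 : (L * (δ ^ 2 * κ)) * (H * L) ≤ δ ^ 2 * κ * (H * L ^ 3) := by
        have : δ ^ 2 * κ * (H * L ^ 3) = ((L * (δ ^ 2 * κ)) * (H * L)) * L := by ring
        rw [this]
        exact le_mul_of_one_le_right (by positivity) g1
      calc (6 : ℝ) * L * (24 * H * Θ ^ 2) = 144 * (Θ : ℝ) ^ 2 * (H * L) := by ring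
        _ ≤ _ := h6
        _ ≤ _ := h7
        _ ≤ _ := h5
    refine (Finset.sum_le_sum h2).trans ?_
    rw [Finset.sum_const, nsmul_eq_mul]
    apply mul_le_mul_of_nonneg_right _ (by positivity)
    rw [Int.card_Icc]
    have h5 : (((Θ * X : ℕ) : ℤ) + 1 - -((Θ * X : ℕ) : ℤ)).toNat = 2 * (Θ * X) + 1 := by omega
    rw [h5]
    push_cast
    nlinarith
  refine (Finset.sum_le_sum h1).trans ?_
  rw [Finset.sum_const, nsmul_eq_mul]
  have h2 : (((Finset.Icc 1 X).filter (fun H : ℕ => (H : ℝ) ≤ X / Real.log X ^ 3)).card : ℝ) ≤ X := by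
    have := (Finset.card_filter_le (Finset.Icc 1 X) (fun H : ℕ => (H : ℝ) ≤ X / Real.log X ^ 3))
    rw [Nat.card_Icc, Nat.add_sub_cancel] at this
    exact_mod_cast this
  refine (mul_le_mul_of_nonneg_right h2 (by positivity)).trans ?_
  have h3 : (X : ℝ) * (3 * Θ * X * (4 * ((X : ℝ) ^ 6)⁻¹)) = (12 * Θ) * (((X : ℝ) ^ 3)⁻¹ * (X : ℝ)⁻¹) := by
    field_simp
    norm_num
  rw [h3]
  apply mul_le_mul_of_nonneg_left _ (by positivity)
  have h4 : (X : ℝ)⁻¹ ≤ 1 := inv_le_one_of_one_le₀ hX'.le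
  calc ((X : ℝ) ^ 3)⁻¹ * (X : ℝ)⁻¹ ≤ ((X : ℝ) ^ 3)⁻¹ * 1 := mul_le_mul_of_nonneg_left h4 (by positivity)
    _ = _ := mul_one _

theorem conc_ae (hA : ∀ n, MeasurableSet[ℱ n] (A n)) (hf : Fair μ ℱ A) {κ : ℝ} (hκ : 0 < κ) :
    ∀ᵐ ω ∂μ, ∀ Θ : ℕ, ∀ δ : ℝ, 0 < δ → ∀ᶠ X : ℕ in atTop, ∀ H : ℕ, 1 ≤ H → (H : ℝ) ≤ X / Real.log X ^ 3 →
      ∀ j : ℤ, |(j : ℝ)| ≤ Θ * X → ‖FS D ((j : ℝ) / X / √(κ * H)) A X H ω‖ ≤ δ * X := by
  have h1 : ∀ᵐ ω ∂μ, ∀ Θ n : ℕ, ∀ᶠ X : ℕ in atTop, ω ∉ EX D A κ (1 / (n + 1)) (Θ + 1) X := by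
    rw [ae_all_iff]
    intro Θ
    rw [ae_all_iff]
    intro n
    exact bc_real (μ := μ) (sum_inv3 (12 * ((Θ + 1 : ℕ) : ℝ))) (EX_le (μ := μ) (ℱ := ℱ) D hA hf hκ (by positivity) (by omega))
  filter_upwards [h1] with ω hω Θ δ hδ
  obtain ⟨n, hn⟩ := exists_nat_one_div_lt (half_pos hδ)
  filter_upwards [hω Θ n, ev_log 1, eventually_gt_atTop 1] with X g1 g2 g3 H hH1 hH2 j hj
  have hX' : (1 : ℝ) < X := by exact_mod_cast g3
  by_contra hcon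
  push Not at hcon
  apply g1
  unfold EX
  simp only [mem_iUnion, Finset.mem_filter, Finset.mem_Icc]
  have hHX : H ≤ X := by
    have h2 : (H : ℝ) ≤ X := hH2.trans (div_le_self (by linarith) (one_le_pow₀ g2))
    exact_mod_cast h2
  refine ⟨H, ⟨⟨hH1, hHX⟩, hH2⟩, j, ?_, ?_⟩
  · obtain ⟨j1, j2⟩ := abs_le.1 hj
    have e : (Θ : ℝ) * X ≤ (((Θ + 1) * X : ℕ) : ℝ) := by push_cast; nlinarith
    constructor
    · have : (-(((Θ + 1) * X : ℕ) : ℝ)) ≤ j := by linarith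
      exact_mod_cast this
    · have : (j : ℝ) ≤ (((Θ + 1) * X : ℕ) : ℝ) := by linarith
      exact_mod_cast this
  · show 2 * (1 / ((n : ℝ) + 1) * X) ≤ _
    refine le_trans ?_ hcon.le
    have : 1 / ((n : ℝ) + 1) * X ≤ δ / 2 * X := mul_le_mul_of_nonneg_right hn.le (by linarith)
    linarith

end

end Pool.Agent.R528.RM
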