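import Mathlib
import Pool.Agent.R528.RM.Mg2

set_option autoImplicit false
set_option linter.unusedSectionVars false
set_option linter.unusedVariables false

/-! # Fair signs on the squarefree integers: convergence of the characteristic functions -/

open MeasureTheory Filter Set
open scoped ENNReal Topology

namespace Pool.Agent.R528.RM

variable {Ω : Type} {A : ℕ → Set Ω}

section
variable (D : ℕ → Prop) [DecidablePred D]

/-- the sum of the signs over the window -/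
noncomputable def Zs (A : ℕ → Set Ω) (x H : ℕ) (ω : Ω) : ℝ := ∑ m ∈ Finset.Ico x (x + H), if D (m + 1) then 2 * In A (m + 1) ω - 1 else 0

/-- the number of elements of the window -/
def qs (x H : ℕ) : ℕ := ((Finset.Ico x (x + H)).filter (fun m => D (m + 1))).card

lemma qs_le (x H : ℕ) : qs D x H ≤ H := by
  unfold qs
  refine (Finset.card_filter_le _ _).trans ?_
  rw [Nat.card_Ico]
  omega

lemma Zs_abs (x H : ℕ) (ω : Ω) : |Zs D A x H ω| ≤ H := by
  unfold Zs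
  refine (Finset.abs_sum_le_sum_abs _ _).trans ?_
  have h1 : ∀ m ∈ Finset.Ico x (x + H), |if D (m + 1) then 2 * In A (m + 1) ω - 1 else 0| ≤ 1 := by
    intro m _
    split_ifs
    · rcases In_cases A (m + 1) ω with h | h <;> rw [h] <;> norm_num
    · norm_num
  refine (Finset.sum_le_sum h1).trans ?_
  rw [Finset.sum_const, Nat.card_Ico, nsmul_eq_mul, mul_one]
  exact_mod_cast (by omega : x + H - x ≤ H)

lemma av_exp (θ : ℝ) (k : ℕ) (ω : Ω) : av A D θ k ω = Complex.exp (((θ * if D (k + 1) then 2 * In A (k + 1) ω - 1 else 0 : ℝ) : ℂ) * Complex.I) := by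
  unfold av
  split_ifs
  · rw [Complex.exp_mul_I, ← Complex.ofReal_cos, ← Complex.ofReal_sin]
    rcases In_cases A (k + 1) ω with h | h
    · rw [h]
      have e1 : θ * (2 * 0 - 1) = -θ := by ring
      rw [e1, Real.cos_neg, Real.sin_neg]
      congr 2
      push_cast
      ring
    · rw [h]
      have e1 : θ * (2 * 1 - 1) = θ := by ring
      rw [e1]
      congr 2
      push_cast
      ring
  · simp

lemma prod_av (θ : ℝ) (x H : ℕ) (ω : Ω) : ∏ m ∈ Finset.Ico x (x + H), av A D θ m ω = Complex.exp (((θ * Zs D A x H ω : ℝ) : ℂ) * Complex.I) := by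
  unfold Zs
  simp_rw [av_exp]
  rw [← Complex.exp_sum, Finset.mul_sum]
  push_cast
  rw [Finset.sum_mul]

lemma prod_cv (θ : ℝ) (x H : ℕ) : ∏ m ∈ Finset.Ico x (x + H), cv D θ m = ((Real.cos θ ^ qs D x H : ℝ) : ℂ) := by
  unfold cv qs
  rw [Finset.prod_ite, Finset.prod_const, Finset.prod_const_one, mul_one]
  push_cast
  rfl

end

lemma exp_lip {a b : ℝ} (ha : 0 ≤ a) (hb : 0 ≤ b) : |Real.exp (-a) - Real.exp (-b)| ≤ |a - b| := by
  wlog hab : a ≤ b generalizing a b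
  · have := this hb ha (le_of_not_ge hab)
    rw [abs_sub_comm, abs_sub_comm a b]
    exact this
  have h1 : Real.exp (-b) = Real.exp (-a) * Real.exp (-(b - a)) := by
    rw [← Real.exp_add]
    congr 1
    ring
  have h2 : Real.exp (-a) ≤ 1 := Real.exp_le_one_iff.2 (by linarith)
  have h3 : 1 - (b - a) ≤ Real.exp (-(b - a)) := Real.one_sub_le_exp_neg _
  have h4 : Real.exp (-(b - a)) ≤ 1 := Real.exp_le_one_iff.2 (by linarith)
  rw [h1, abs_of_nonneg (by nlinarith [Real.exp_pos (-a)]), abs_of_nonpos (by linarith)]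
  have h5 : Real.exp (-a) - Real.exp (-a) * Real.exp (-(b - a)) = Real.exp (-a) * (1 - Real.exp (-(b - a))) := by ring
  rw [h5]
  calc Real.exp (-a) * (1 - Real.exp (-(b - a))) ≤ 1 * (b - a) := mul_le_mul h2 (by linarith) (by linarith) zero_le_one
    _ = _ := by ring

lemma cos_exp {y : ℝ} (hy : |y| ≤ 1) : |Real.cos y - Real.exp (-(y ^ 2 / 2))| ≤ y ^ 4 := by
  have h1 := Real.cos_bound hy
  have hy2 : y ^ 2 ≤ 1 := by
    rw [← sq_abs]
    exact pow_le_one₀ (abs_nonneg _) hy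
  have h2 := Real.abs_exp_sub_one_sub_id_le (x := -(y ^ 2 / 2)) (by
    rw [abs_neg, abs_of_nonneg (by positivity)]
    linarith)
  have h3 : |y| ^ 4 = y ^ 4 := by
    have : |y| ^ 4 = (|y| ^ 2) ^ 2 := by ring
    rw [this, sq_abs]
    ring
  rw [h3] at h1
  obtain ⟨a1, a2⟩ := abs_le.1 h1
  obtain ⟨b1, b2⟩ := abs_le.1 h2
  have h4 : 0 ≤ y ^ 4 := by positivity
  have h5 : (-(y ^ 2 / 2)) ^ 2 = y ^ 4 / 4 := by ring
  rw [h5] at b1 b2
  rw [abs_le]
  constructor <;> linarith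

lemma cos_pow {y : ℝ} (hy : |y| ≤ 1) (q : ℕ) : |Real.cos y ^ q - Real.exp (-(y ^ 2 / 2 * q))| ≤ q * y ^ 4 := by
  have h1 : Real.exp (-(y ^ 2 / 2 * q)) = Real.exp (-(y ^ 2 / 2)) ^ q := by
    rw [← Real.exp_nat_mul]
    congr 1
    ring
  rw [h1]
  refine (abs_pow_sub_pow_le _ _ _).trans ?_
  have h2 : max |Real.cos y| |Real.exp (-(y ^ 2 / 2))| ^ (q - 1) ≤ 1 := by
    apply pow_le_one₀ (le_max_of_le_left (abs_nonneg _))
    apply max_le (Real.abs_cos_le_one _)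
    rw [abs_of_pos (Real.exp_pos _)]
    exact Real.exp_le_one_iff.2 (by have := sq_nonneg y; linarith)
  have h3 := cos_exp hy
  have h4 : 0 ≤ |Real.cos y - Real.exp (-(y ^ 2 / 2))| * q := by positivity
  calc |Real.cos y - Real.exp (-(y ^ 2 / 2))| * q * max |Real.cos y| |Real.exp (-(y ^ 2 / 2))| ^ (q - 1) ≤
      |Real.cos y - Real.exp (-(y ^ 2 / 2))| * q * 1 := mul_le_mul_of_nonneg_left h2 h4
    _ ≤ y ^ 4 * q * 1 := by
        apply mul_le_mul_of_nonneg_right _ zero_le_one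
        exact mul_le_mul_of_nonneg_right h3 (Nat.cast_nonneg q)
    _ = _ := by ring

lemma exp_I_lip (a b : ℝ) : ‖Complex.exp ((a : ℂ) * Complex.I) - Complex.exp ((b : ℂ) * Complex.I)‖ ≤ |a - b| := by
  have h1 : Complex.exp ((a : ℂ) * Complex.I) - Complex.exp ((b : ℂ) * Complex.I) =
      Complex.exp ((b : ℂ) * Complex.I) * (Complex.exp (Complex.I * ((a - b : ℝ) : ℂ)) - 1) := by
    rw [mul_sub, ← Complex.exp_add, mul_one]
    congr 2
    push_cast
    ring
  rw [h1, norm_mul, Complex.norm_exp_ofReal_mul_I, one_mul]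
  exact Real.norm_exp_I_mul_ofReal_sub_one_le

section
variable (D : ℕ → Prop) [DecidablePred D]

/-- the deterministic bound -/
lemma key_bound {κ : ℝ} (hκ : 0 < κ) {X H : ℕ} (hH : 0 < H) (t s : ℝ) (hs : |s / √(κ * H)| ≤ 1) (ω : Ω) :
    ‖∑ x ∈ Finset.Ico X (2 * X), Complex.exp (((t * (Zs D A x H ω / √(κ * H)) : ℝ) : ℂ) * Complex.I) - X * Real.exp (-(t ^ 2 / 2))‖ ≤
      X * (|t - s| * (H / √(κ * H))) + ‖FS D (s / √(κ * H)) A X H ω‖ + X * (s ^ 4 / (κ ^ 2 * H)) +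
      s ^ 2 / (2 * κ * H) * ∑ x ∈ Finset.Ico X (2 * X), |(qs D x H : ℝ) - κ * H| + X * (|s ^ 2 / 2 - t ^ 2 / 2|) := by
  have hH' : (0 : ℝ) < H := by exact_mod_cast hH
  have hr : 0 < √(κ * H) := Real.sqrt_pos.2 (by positivity)
  set r := √(κ * H) with hrd
  have hr2 : r ^ 2 = κ * H := Real.sq_sqrt (by positivity)
  set y := s / r with hy
  have hy2 : y ^ 2 = s ^ 2 / (κ * H) := by rw [hy, div_pow, hr2]
  have hFS : FS D y A X H ω = ∑ x ∈ Finset.Ico X (2 * X), (Complex.exp (((y * Zs D A x H ω : ℝ) : ℂ) * Complex.I) - ((Real.cos y ^ qs D x H : ℝ) : ℂ)) := by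
    unfold FS
    refine Finset.sum_congr rfl fun x _ => ?_
    rw [prod_av, prod_cv]
  have hcard : ((Finset.Ico X (2 * X)).card : ℂ) = X := by
    rw [Nat.card_Ico]
    have : 2 * X - X = X := by omega
    rw [this]
  have hcardr : ((Finset.Ico X (2 * X)).card : ℝ) = X := by
    rw [Nat.card_Ico]
    have : 2 * X - X = X := by omega
    rw [this]
  have hdec : ∑ x ∈ Finset.Ico X (2 * X), Complex.exp (((t * (Zs D A x H ω / r) : ℝ) : ℂ) * Complex.I) - X * Real.exp (-(t ^ 2 / 2)) =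
      ∑ x ∈ Finset.Ico X (2 * X), (Complex.exp (((t * (Zs D A x H ω / r) : ℝ) : ℂ) * Complex.I) - Complex.exp (((y * Zs D A x H ω : ℝ) : ℂ) * Complex.I)) +
      FS D y A X H ω + ∑ x ∈ Finset.Ico X (2 * X), ((Real.cos y ^ qs D x H - Real.exp (-(t ^ 2 / 2)) : ℝ) : ℂ) := by
    rw [hFS, ← Finset.sum_add_distrib, ← Finset.sum_add_distrib]
    have e1 : (X : ℂ) * Real.exp (-(t ^ 2 / 2)) = ∑ x ∈ Finset.Ico X (2 * X), ((Real.exp (-(t ^ 2 / 2)) : ℝ) : ℂ) := by
      rw [Finset.sum_const, nsmul_eq_mul, hcard]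
    rw [e1, ← Finset.sum_sub_distrib]
    refine Finset.sum_congr rfl fun x _ => ?_
    push_cast
    ring
  rw [hdec]
  have t1 : ‖∑ x ∈ Finset.Ico X (2 * X), (Complex.exp (((t * (Zs D A x H ω / r) : ℝ) : ℂ) * Complex.I) - Complex.exp (((y * Zs D A x H ω : ℝ) : ℂ) * Complex.I))‖ ≤
      X * (|t - s| * (H / r)) := by
    refine (norm_sum_le _ _).trans ?_
    have h1 : ∀ x ∈ Finset.Ico X (2 * X), ‖Complex.exp (((t * (Zs D A x H ω / r) : ℝ) : ℂ) * Complex.I) - Complex.exp (((y * Zs D A x H ω : ℝ) : ℂ) * Complex.I)‖ ≤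
        |t - s| * (H / r) := by
      intro x _
      refine (exp_I_lip _ _).trans ?_
      have e2 : t * (Zs D A x H ω / r) - y * Zs D A x H ω = (t - s) * (Zs D A x H ω / r) := by
        rw [hy]
        ring
      rw [e2, abs_mul, abs_div, abs_of_pos hr]
      apply mul_le_mul_of_nonneg_left _ (abs_nonneg _)
      exact div_le_div_of_nonneg_right (Zs_abs D x H ω) hr.le
    refine (Finset.sum_le_sum h1).trans ?_
    rw [Finset.sum_const, nsmul_eq_mul, hcardr]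
  have t2 : ‖∑ x ∈ Finset.Ico X (2 * X), ((Real.cos y ^ qs D x H - Real.exp (-(t ^ 2 / 2)) : ℝ) : ℂ)‖ ≤
      X * (s ^ 4 / (κ ^ 2 * H)) + s ^ 2 / (2 * κ * H) * ∑ x ∈ Finset.Ico X (2 * X), |(qs D x H : ℝ) - κ * H| + X * (|s ^ 2 / 2 - t ^ 2 / 2|) := by
    refine (norm_sum_le _ _).trans ?_
    have h1 : ∀ x ∈ Finset.Ico X (2 * X), ‖((Real.cos y ^ qs D x H - Real.exp (-(t ^ 2 / 2)) : ℝ) : ℂ)‖ ≤
        s ^ 4 / (κ ^ 2 * H) + s ^ 2 / (2 * κ * H) * |(qs D x H : ℝ) - κ * H| + |s ^ 2 / 2 - t ^ 2 / 2| := by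
      intro x _
      rw [Complex.norm_real, Real.norm_eq_abs]
      have e1 := cos_pow hs (qs D x H)
      have hq : (qs D x H : ℝ) ≤ H := by exact_mod_cast qs_le D x H
      have e2 : (qs D x H : ℝ) * y ^ 4 ≤ s ^ 4 / (κ ^ 2 * H) := by
        have : y ^ 4 = (y ^ 2) ^ 2 := by ring
        rw [this, hy2]
        calc (qs D x H : ℝ) * (s ^ 2 / (κ * H)) ^ 2 ≤ H * (s ^ 2 / (κ * H)) ^ 2 := mul_le_mul_of_nonneg_right hq (by positivity)
          _ = _ := by field_simp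
      have e3 := exp_lip (a := y ^ 2 / 2 * (qs D x H : ℝ)) (b := s ^ 2 / 2) (by positivity) (by positivity)
      have e4 : |y ^ 2 / 2 * (qs D x H : ℝ) - s ^ 2 / 2| = s ^ 2 / (2 * κ * H) * |(qs D x H : ℝ) - κ * H| := by
        rw [hy2]
        have : s ^ 2 / (κ * H) / 2 * (qs D x H : ℝ) - s ^ 2 / 2 = s ^ 2 / (2 * κ * H) * ((qs D x H : ℝ) - κ * H) := by
          field_simp
        rw [this, abs_mul, abs_of_nonneg (by positivity)]
      rw [e4] at e3
      have e5 := exp_lip (a := s ^ 2 / 2) (b := t ^ 2 / 2) (by positivity) (by positivity)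
      have e6 : Real.cos y ^ qs D x H - Real.exp (-(t ^ 2 / 2)) = (Real.cos y ^ qs D x H - Real.exp (-(y ^ 2 / 2 * (qs D x H : ℝ)))) +
          (Real.exp (-(y ^ 2 / 2 * (qs D x H : ℝ))) - Real.exp (-(s ^ 2 / 2))) + (Real.exp (-(s ^ 2 / 2)) - Real.exp (-(t ^ 2 / 2))) := by ring
      rw [e6]
      refine (abs_add_le _ _).trans ?_
      have e7 := abs_add_le (Real.cos y ^ qs D x H - Real.exp (-(y ^ 2 / 2 * (qs D x H : ℝ)))) (Real.exp (-(y ^ 2 / 2 * (qs D x H : ℝ))) - Real.exp (-(s ^ 2 / 2)))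
      linarith
    refine (Finset.sum_le_sum h1).trans ?_
    rw [Finset.sum_add_distrib, Finset.sum_add_distrib, Finset.sum_const, Finset.sum_const, nsmul_eq_mul, nsmul_eq_mul, hcardr, ← Finset.mul_sum]
  refine (norm_add_le _ _).trans ?_
  have t3 := norm_add_le (∑ x ∈ Finset.Ico X (2 * X), (Complex.exp (((t * (Zs D A x H ω / r) : ℝ) : ℂ) * Complex.I) - Complex.exp (((y * Zs D A x H ω : ℝ) : ℂ) * Complex.I))) (FS D y A X H ω)
  linarith

end

end Pool.Agent.R528.RM
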