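import Mathlib
import Pool.Agent.R528.RM.Mg3

set_option autoImplicit false
set_option linter.unusedSectionVars false
set_option linter.unusedVariables false

/-! # Fair signs on the squarefree integers: the Gaussian law -/

open MeasureTheory Filter Set
open scoped ENNReal Topology

namespace Pool.Agent.R528.RM

variable {Ω : Type} {A : ℕ → Set Ω}

lemma qs_sf (x H : ℕ) : (qs Squarefree x H : ℝ) = ∑ n ∈ Finset.Ioc x (x + H), sf n := by
  have h5 : Finset.Ioc x (x + H) = (Finset.Ico x (x + H)).image (fun k => k + 1) := by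
    ext n
    simp only [Finset.mem_Ioc, Finset.mem_image, Finset.mem_Ico]
    constructor
    · rintro ⟨h6, h7⟩
      exact ⟨n - 1, by omega, by omega⟩
    · rintro ⟨k, ⟨h6, h7⟩, rfl⟩
      omega
  rw [h5, Finset.sum_image fun a _ b _ h => Nat.succ_injective h]
  unfold qs sf
  rw [Finset.sum_boole]

/-- the normalised sums -/
noncomputable def Zn (A : ℕ → Set Ω) (x H : ℕ) (ω : Ω) : ℝ := Zs Squarefree A x H ω / √(6 / Real.pi ^ 2 * H)

theorem char_lim {ω : Ω} (hω : ∀ Θ : ℕ, ∀ δ : ℝ, 0 < δ → ∀ᶠ X : ℕ in atTop, ∀ H : ℕ, 1 ≤ H → (H : ℝ) ≤ X / Real.log X ^ 3 →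
      ∀ j : ℤ, |(j : ℝ)| ≤ Θ * X → ‖FS Squarefree ((j : ℝ) / X / √(6 / Real.pi ^ 2 * H)) A X H ω‖ ≤ δ * X)
    {h : ℕ → ℕ} (h1 : Tendsto h atTop atTop) (h2 : ∀ᶠ X : ℕ in atTop, (h X : ℝ) ≤ X / Real.log X ^ 3) (t : ℝ) :
    Tendsto (fun X : ℕ => (∑ x ∈ Finset.Ico X (2 * X), Complex.exp (((t * Zn A x (h X) ω : ℝ) : ℂ) * Complex.I)) / X) atTop
      (𝓝 ((Real.exp (-(t ^ 2 / 2)) : ℝ) : ℂ)) := by
  set κ : ℝ := 6 / Real.pi ^ 2 with hκd
  have hκ : 0 < κ := by positivity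
  set T : ℝ := |t| + 1 with hT
  have hT1 : 1 ≤ T := by rw [hT]; linarith [abs_nonneg t]
  obtain ⟨Θ, hΘ⟩ := exists_nat_ge T
  rw [Metric.tendsto_atTop']
  intro ε hε
  set η : ℝ := ε * κ / (3 * T ^ 2) with hη
  have hη0 : 0 < η := by positivity
  obtain ⟨H₀, hH₀0, hH₀⟩ := sf_short hη0
  have c1 : Tendsto (fun X : ℕ => √((X : ℝ) / κ) / X) atTop (𝓝 0) := by
    have e1 : Tendsto (fun X : ℕ => 1 / κ / (X : ℝ)) atTop (𝓝 0) := tendsto_const_nhds.div_atTop tendsto_natCast_atTop_atTop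
    have e2 := (Real.continuous_sqrt.tendsto 0).comp e1
    rw [Real.sqrt_zero] at e2
    refine e2.congr' ?_
    filter_upwards [eventually_gt_atTop 0] with X hX
    have hX' : (0 : ℝ) < X := by exact_mod_cast hX
    simp only [Function.comp]
    have e3 : √((X : ℝ) / κ) / X = √((X : ℝ) / κ) / √((X : ℝ) ^ 2) := by rw [Real.sqrt_sq hX'.le]
    rw [e3, ← Real.sqrt_div (by positivity)]
    congr 1
    field_simp
  have hh : Tendsto (fun X : ℕ => (h X : ℝ)) atTop atTop := tendsto_natCast_atTop_atTop.comp h1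
  have c3 : Tendsto (fun X : ℕ => T ^ 4 / κ ^ 2 / (h X : ℝ)) atTop (𝓝 0) := tendsto_const_nhds.div_atTop hh
  have c5 : Tendsto (fun X : ℕ => T / (X : ℝ)) atTop (𝓝 0) := tendsto_const_nhds.div_atTop tendsto_natCast_atTop_atTop
  obtain ⟨n, hn⟩ := eventually_atTop.1 ((hω Θ (ε / 6) (by positivity)).and (h2.and ((hh.eventually_ge_atTop (T ^ 2 / κ)).and
    ((h1.eventually_ge_atTop H₀).and ((c1.eventually (eventually_lt_nhds (show (0 : ℝ) < ε / 6 by positivity))).and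
    ((c3.eventually (eventually_lt_nhds (show (0 : ℝ) < ε / 6 by positivity))).and
    ((c5.eventually (eventually_lt_nhds (show (0 : ℝ) < ε / 6 by positivity))).and ((ev_log 1).and (eventually_gt_atTop 1)))))))))
  refine ⟨n, fun X hX => ?_⟩
  obtain ⟨g1, g2, g3, g4, g5, g6, g7, g8, g9⟩ := hn X hX.le
  have hX1 : (1 : ℝ) < X := by exact_mod_cast g9
  have hX0 : (0 : ℝ) < X := by linarith
  have hH1 : 1 ≤ h X := by omega
  have hH0 : (0 : ℝ) < h X := by exact_mod_cast hH1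
  have hHX : (h X : ℝ) ≤ X := g2.trans (div_le_self hX0.le (one_le_pow₀ g8))
  have hHXn : h X ≤ X := by exact_mod_cast hHX
  set j : ℤ := ⌊t * X⌋ with hj
  set s : ℝ := (j : ℝ) / X with hs
  have hj1 : (j : ℝ) ≤ t * X := Int.floor_le _
  have hj2 : t * X < j + 1 := Int.lt_floor_add_one _
  have hts : |t - s| ≤ 1 / X := by
    have e : t - s = (t * X - j) / X := by
      rw [hs]
      field_simp
    rw [e, abs_div, abs_of_pos hX0]
    apply div_le_div_of_nonneg_right _ hX0.le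
    rw [abs_le]
    constructor <;> linarith
  have h1X : 1 / (X : ℝ) ≤ 1 := by
    rw [div_le_one hX0]
    exact hX1.le
  have hsT : |s| ≤ T := by
    have : |s| ≤ |t| + |t - s| := by
      have e : s = t - (t - s) := by ring
      calc |s| = |t - (t - s)| := by rw [← e]
        _ ≤ |t| + |t - s| := abs_sub _ _
    rw [hT]
    linarith
  have hjΘ : |(j : ℝ)| ≤ Θ * X := by
    have e : (j : ℝ) = s * X := by rw [hs]; field_simp
    rw [e, abs_mul, abs_of_pos hX0]
    exact mul_le_mul_of_nonneg_right (hsT.trans hΘ) hX0.le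
  have hr : 0 < √(κ * h X) := Real.sqrt_pos.2 (by positivity)
  have hr2 : √(κ * h X) ^ 2 = κ * h X := Real.sq_sqrt (by positivity)
  have hsr : |s / √(κ * h X)| ≤ 1 := by
    rw [abs_div, abs_of_pos hr, div_le_one hr]
    refine hsT.trans ?_
    apply Real.le_sqrt_of_sq_le
    rw [div_le_iff₀ hκ] at g3
    linarith
  have hkey := key_bound (A := A) Squarefree hκ (X := X) (H := h X) hH1 t s hsr ω
  have hF := g1 (h X) hH1 g2 j hjΘ
  have hsf := hH₀ X (h X) g4 hHXn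
  have hs2 : s ^ 2 ≤ T ^ 2 := by
    rw [← sq_abs]
    exact pow_le_pow_left₀ (abs_nonneg _) hsT 2
  -- the five terms
  have b1 : (X : ℝ) * (|t - s| * (h X / √(κ * h X))) ≤ X * (ε / 6) := by
    apply mul_le_mul_of_nonneg_left _ hX0.le
    have e1 : (h X : ℝ) / √(κ * h X) ≤ √((X : ℝ) / κ) := by
      apply Real.le_sqrt_of_sq_le
      rw [div_pow, hr2]
      have : (h X : ℝ) ^ 2 / (κ * h X) = h X / κ := by field_simp
      rw [this]
      exact div_le_div_of_nonneg_right hHX hκ.le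
    calc |t - s| * (h X / √(κ * h X)) ≤ 1 / X * √((X : ℝ) / κ) := mul_le_mul hts e1 (by positivity) (by positivity)
      _ = √((X : ℝ) / κ) / X := by ring
      _ ≤ ε / 6 := g5.le
  have b3 : (X : ℝ) * (s ^ 4 / (κ ^ 2 * h X)) ≤ X * (ε / 6) := by
    apply mul_le_mul_of_nonneg_left _ hX0.le
    have e1 : s ^ 4 ≤ T ^ 4 := by
      have e2 : s ^ 4 = (s ^ 2) ^ 2 := by ring
      have e3 : T ^ 4 = (T ^ 2) ^ 2 := by ring
      rw [e2, e3]
      exact pow_le_pow_left₀ (sq_nonneg _) hs2 2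
    calc s ^ 4 / (κ ^ 2 * h X) ≤ T ^ 4 / (κ ^ 2 * h X) := div_le_div_of_nonneg_right e1 (by positivity)
      _ = T ^ 4 / κ ^ 2 / h X := by field_simp
      _ ≤ ε / 6 := g6.le
  have b4 : s ^ 2 / (2 * κ * h X) * ∑ x ∈ Finset.Ico X (2 * X), |(qs Squarefree x (h X) : ℝ) - κ * h X| ≤ X * (ε / 6) := by
    simp_rw [qs_sf]
    calc s ^ 2 / (2 * κ * h X) * ∑ x ∈ Finset.Ico X (2 * X), |∑ n ∈ Finset.Ioc x (x + h X), sf n - κ * h X| ≤
        T ^ 2 / (2 * κ * h X) * (η * (X * h X)) := by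
          apply mul_le_mul (div_le_div_of_nonneg_right hs2 (by positivity)) hsf (Finset.sum_nonneg fun _ _ => abs_nonneg _) (by positivity)
      _ = X * (ε / 6) := by
          rw [hη]
          field_simp
          norm_num
  have b5 : (X : ℝ) * |s ^ 2 / 2 - t ^ 2 / 2| ≤ X * (ε / 6) := by
    apply mul_le_mul_of_nonneg_left _ hX0.le
    have e1 : s ^ 2 / 2 - t ^ 2 / 2 = -((t - s) * ((s + t) / 2)) := by ring
    rw [e1, abs_neg, abs_mul]
    have e2 : |(s + t) / 2| ≤ T := by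
      rw [abs_div, abs_of_pos (show (0 : ℝ) < 2 by norm_num), div_le_iff₀ (by norm_num)]
      have e3 := abs_add_le s t
      have e4 : |t| ≤ T := by rw [hT]; linarith
      linarith
    calc |t - s| * |(s + t) / 2| ≤ 1 / X * T := mul_le_mul hts e2 (abs_nonneg _) (by positivity)
      _ = T / X := by ring
      _ ≤ ε / 6 := g7.le
  rw [dist_eq_norm]
  have hXc : (X : ℂ) ≠ 0 := by
    have : X ≠ 0 := by omega
    exact_mod_cast this
  have e : (∑ x ∈ Finset.Ico X (2 * X), Complex.exp (((t * Zn A x (h X) ω : ℝ) : ℂ) * Complex.I)) / X - ((Real.exp (-(t ^ 2 / 2)) : ℝ) : ℂ) =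
      (∑ x ∈ Finset.Ico X (2 * X), Complex.exp (((t * (Zs Squarefree A x (h X) ω / √(κ * h X)) : ℝ) : ℂ) * Complex.I) - X * Real.exp (-(t ^ 2 / 2))) / X := by
    rw [sub_div, mul_div_cancel_left₀ _ hXc]
    rfl
  rw [e, norm_div, Complex.norm_natCast, div_lt_iff₀ hX0]
  refine lt_of_le_of_lt hkey ?_
  have : 0 < ε * X := by positivity
  nlinarith

end Pool.Agent.R528.RM
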