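import Mathlib

set_option autoImplicit false
set_option linter.unusedSectionVars false
set_option linter.unusedVariables false

/-! # From the characteristic functions to the distribution functions -/

open MeasureTheory Filter Set ProbabilityTheory
open scoped ENNReal Topology

namespace Pool.Agent.R528.RM

/-- the empirical measure -/
noncomputable def emp (X : ℕ) (Z : ℕ → ℝ) : Measure ℝ := ((X : ℝ≥0∞)⁻¹) • ∑ x ∈ Finset.Ico X (2 * X), Measure.dirac (Z x)

lemma emp_apply {X : ℕ} (Z : ℕ → ℝ) {s : Set ℝ} (hs : MeasurableSet s) :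
    emp X Z s = (X : ℝ≥0∞)⁻¹ * ∑ x ∈ Finset.Ico X (2 * X), s.indicator 1 (Z x) := by
  unfold emp
  rw [Measure.smul_apply, Measure.finsetSum_apply, smul_eq_mul]
  congr 1
  refine Finset.sum_congr rfl fun x _ => ?_
  rw [Measure.dirac_apply' _ hs]

lemma emp_prob {X : ℕ} (hX : 0 < X) (Z : ℕ → ℝ) : IsProbabilityMeasure (emp X Z) := by
  constructor
  rw [emp_apply Z MeasurableSet.univ]
  simp only [indicator_univ, Pi.one_apply, Finset.sum_const, Nat.card_Ico, nsmul_eq_mul, mul_one]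
  have : 2 * X - X = X := by omega
  rw [this]
  exact ENNReal.inv_mul_cancel (by exact_mod_cast hX.ne') (ENNReal.natCast_ne_top X)

lemma emp_char {X : ℕ} (hX : 0 < X) (Z : ℕ → ℝ) (t : ℝ) :
    charFun (emp X Z) t = (∑ x ∈ Finset.Ico X (2 * X), Complex.exp (((t * Z x : ℝ) : ℂ) * Complex.I)) / X := by
  rw [charFun_apply_real]
  unfold emp
  rw [integral_smul_measure, integral_finsetSum_measure]
  · simp only [integral_dirac]
    rw [ENNReal.toReal_inv, ENNReal.toReal_natCast, Complex.real_smul]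
    push_cast
    rw [div_eq_inv_mul]
  · intro x _
    exact integrable_dirac (by simp)

lemma emp_Iic {X : ℕ} (hX : 0 < X) (Z : ℕ → ℝ) (a : ℝ) :
    (emp X Z (Iic a)).toReal = (((Finset.Ico X (2 * X)).filter (fun x => Z x ≤ a)).card : ℝ) / X := by
  rw [emp_apply Z measurableSet_Iic]
  have h1 : ∑ x ∈ Finset.Ico X (2 * X), (Iic a).indicator (1 : ℝ → ℝ≥0∞) (Z x) = (((Finset.Ico X (2 * X)).filter (fun x => Z x ≤ a)).card : ℝ≥0∞) := by
    rw [Finset.card_filter]
    push_cast
    refine Finset.sum_congr rfl fun x _ => ?_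
    by_cases h : Z x ≤ a
    · rw [indicator_of_mem (mem_Iic.2 h), if_pos h]
      rfl
    · rw [indicator_of_notMem (fun h' => h (mem_Iic.1 h')), if_neg h]
  rw [h1, ENNReal.toReal_mul, ENNReal.toReal_inv, ENNReal.toReal_natCast, ENNReal.toReal_natCast]
  rw [div_eq_inv_mul]

theorem cdf_lim (Z : ℕ → ℕ → ℝ) (h : ∀ t : ℝ, Tendsto (fun X : ℕ => (∑ x ∈ Finset.Ico X (2 * X), Complex.exp (((t * Z X x : ℝ) : ℂ) * Complex.I)) / X) atTop
      (𝓝 ((Real.exp (-(t ^ 2 / 2)) : ℝ) : ℂ))) (a : ℝ) :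
    Tendsto (fun X : ℕ => (((Finset.Ico X (2 * X)).filter (fun x => Z X x ≤ a)).card : ℝ) / X) atTop (𝓝 ((gaussianReal 0 1 (Iic a)).toReal)) := by
  set P : ℕ → ProbabilityMeasure ℝ := fun n => ⟨emp (n + 1) (Z (n + 1)), emp_prob (Nat.succ_pos n) _⟩ with hP
  set G : ProbabilityMeasure ℝ := ⟨gaussianReal 0 1, inferInstance⟩ with hG
  have h1 : Tendsto P atTop (𝓝 G) := by
    refine ProbabilityMeasure.tendsto_iff_tendsto_charFun.2 fun t => ?_
    have h2 : charFun (G : Measure ℝ) t = ((Real.exp (-(t ^ 2 / 2)) : ℝ) : ℂ) := by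
      show charFun (gaussianReal 0 1) t = _
      rw [charFun_gaussianReal]
      push_cast
      congr 1
      simp
    rw [h2]
    have h3 : ∀ n, charFun (P n : Measure ℝ) t = (∑ x ∈ Finset.Ico (n + 1) (2 * (n + 1)), Complex.exp (((t * Z (n + 1) x : ℝ) : ℂ) * Complex.I)) / ((n + 1 : ℕ) : ℂ) :=
      fun n => emp_char (Nat.succ_pos n) _ t
    simp_rw [h3]
    exact (h t).comp (tendsto_add_atTop_nat 1)
  have h4 : (G : Measure ℝ) (frontier (Iic a)) = 0 := by
    rw [frontier_Iic]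
    show gaussianReal 0 1 {a} = 0
    have := nullSingletonClass_gaussianReal (μ := 0) (v := 1) one_ne_zero
    exact measure_singleton a
  have h5 := ProbabilityMeasure.tendsto_measure_of_null_frontier_of_tendsto' h1 h4
  have h6 := (ENNReal.tendsto_toReal (measure_ne_top (G : Measure ℝ) (Iic a))).comp h5
  rw [← tendsto_add_atTop_iff_nat 1]
  refine h6.congr fun n => ?_
  exact emp_Iic (Nat.succ_pos n) _ a

end Pool.Agent.R528.RM
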