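import Mathlib

set_option autoImplicit false
set_option linter.unusedSectionVars false

/-! # Maximal gaps of a set of integers: the deterministic part -/

open Filter Set
open scoped Topology

namespace Pool.Agent.R528.RM

open Classical in
/-- the distance to the last member (`0` counts as a member here) -/
noncomputable def ag (S : Set ℕ) : ℕ → ℕ
  | 0 => 0
  | n + 1 => if n + 1 ∈ S then 0 else ag S n + 1

open Classical in
/-- the largest completed gap -/
noncomputable def mx (S : Set ℕ) : ℕ → ℕ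
  | 0 => 0
  | n + 1 => if n + 1 ∈ S then max (mx S n) (ag S n + 1) else mx S n

/-- the largest gap, the current one included -/
noncomputable def HH (S : Set ℕ) (n : ℕ) : ℕ := max (mx S n) (ag S n)

open Classical in
lemma HH_succ (S : Set ℕ) (n : ℕ) : HH S (n + 1) = HH S n + if mx S n ≤ ag S n then 1 else 0 := by
  unfold HH
  simp only [ag, mx]
  by_cases h1 : n + 1 ∈ S
  · rw [if_pos h1, if_pos h1]
    split_ifs with h2
    · omega
    · omega
  · rw [if_neg h1, if_neg h1]
    split_ifs with h2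
    · omega
    · omega

lemma HH_mono (S : Set ℕ) : Monotone (HH S) := by
  classical
  refine monotone_nat_of_le_succ fun n => ?_
  rw [HH_succ]
  omega

lemma ag_le (S : Set ℕ) (n : ℕ) : ag S n ≤ n := by
  classical
  induction n with
  | zero => simp [ag]
  | succ n ih =>
    simp only [ag]
    split_ifs <;> omega

lemma ag_empty (S : Set ℕ) (n : ℕ) : ∀ m, n - ag S n < m → m ≤ n → m ∉ S := by
  classical
  induction n with
  | zero =>
    intro m h1 h2
    simp [ag] at h1
    omega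
  | succ n ih =>
    intro m h1 h2
    simp only [ag] at h1
    split_ifs at h1 with h3
    · omega
    · rcases Nat.lt_or_ge n m with h4 | h4
      · have : m = n + 1 := by omega
        rw [this]; exact h3
      · exact ih m (by omega) h4

lemma ag_mem (S : Set ℕ) (n : ℕ) : n - ag S n = 0 ∨ n - ag S n ∈ S := by
  classical
  induction n with
  | zero => simp
  | succ n ih =>
    simp only [ag]
    split_ifs with h3
    · right
      simpa using h3
    · have := ag_le S n
      rw [show n + 1 - (ag S n + 1) = n - ag S n by omega]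
      exact ih

/-- if `(s, n]` is free of members then the age is at least `n - s` -/
lemma le_ag {S : Set ℕ} {s n : ℕ} (hsn : s ≤ n) (h : ∀ m, s < m → m ≤ n → m ∉ S) : n - s ≤ ag S n := by
  rcases ag_mem S n with h1 | h1
  · have := ag_le S n
    omega
  · by_contra hcon
    have := ag_le S n
    exact h _ (by omega) (by omega) h1

/-- consecutive members -/
def Cons (S : Set ℕ) (a b : ℕ) : Prop := a ∈ S ∧ b ∈ S ∧ a < b ∧ ∀ m, a < m → m < b → m ∉ S

/-- maximal gaps -/
def MaxGap (S : Set ℕ) (a b : ℕ) : Prop := Cons S a b ∧ ∀ c d, Cons S c d → d ≤ a → d - c < b - a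

/-- ends of maximal gaps in the extended sense -/
def PR (S : Set ℕ) (b : ℕ) : Prop := ∃ n, b = n + 1 ∧ n + 1 ∈ S ∧ mx S n ≤ ag S n

lemma Cons.unique {S : Set ℕ} {a a' b : ℕ} (h : Cons S a b) (h' : Cons S a' b) : a = a' := by
  obtain ⟨h1, _, h3, h4⟩ := h
  obtain ⟨h5, _, h7, h8⟩ := h'
  rcases lt_trichotomy a a' with h9 | h9 | h9
  · exact absurd h5 (h4 a' h9 h7)
  · exact h9
  · exact absurd h1 (h8 a h9 h3)

/-- at the end of a gap -/
lemma ag_of_cons {S : Set ℕ} {a n : ℕ} (h : Cons S a (n + 1)) : ag S n = n - a := by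
  obtain ⟨h1, h2, h3, h4⟩ := h
  have h5 : n - a ≤ ag S n := le_ag (by omega) fun m h6 h7 => h4 m h6 (by omega)
  have h6 : ag S n ≤ n - a := by
    by_contra hcon
    have := ag_le S n
    exact ag_empty S n a (by omega) (by omega) h1
  omega

/-- completed gaps are counted in `mx` -/
lemma cons_le_mx {S : Set ℕ} {c d : ℕ} (h : Cons S c d) : ∀ n, d ≤ n → d - c ≤ mx S n := by
  classical
  have hd : 0 < d := by have := h.2.2.1; omega
  intro n hn
  induction n, hn using Nat.le_induction with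
  | base =>
    obtain ⟨k, rfl⟩ : ∃ k, d = k + 1 := ⟨d - 1, by omega⟩
    simp only [mx]
    rw [if_pos h.2.1, ag_of_cons h]
    have := h.2.2.1
    omega
  | succ n _ ih =>
    simp only [mx]
    split_ifs <;> omega

/-- the value of `mx` is the length of a completed gap, or at most the first member -/
lemma mx_le {S : Set ℕ} {B p₀ : ℕ} (hp : p₀ ∈ S) (n : ℕ) (h : ∀ c d, Cons S c d → d ≤ n → d - c ≤ B) (hB : p₀ ≤ B) :
    mx S n ≤ B := by
  classical
  induction n with
  | zero => simp [mx]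
  | succ n ih =>
    have ih' := ih fun c d h1 h2 => h c d h1 (by omega)
    simp only [mx]
    split_ifs with h1
    · refine max_le ih' ?_
      rcases ag_mem S n with h2 | h2
      · -- no member in `(0, n]`
        have h3 := ag_le S n
        have h4 : ag S n = n := by omega
        rw [h4]
        by_contra hcon
        -- `p₀ ≤ B < n + 1`
        rcases Nat.eq_zero_or_pos p₀ with h5 | h5
        · have h6 : Cons S 0 (n + 1) := ⟨h5 ▸ hp, h1, by omega, fun m h7 h8 => ag_empty S n m (by omega) (by omega)⟩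
          have := h 0 (n + 1) h6 le_rfl
          omega
        · exact ag_empty S n p₀ (by omega) (by omega) hp
      · have h3 : Cons S (n - ag S n) (n + 1) := ⟨h2, h1, by omega, fun m h7 h8 => ag_empty S n m h7 (by omega)⟩
        have h4 := h _ _ h3 le_rfl
        have := ag_le S n
        omega
    · exact ih'

/-- a maximal gap longer than the first member ends at a point of `PR` -/
lemma maxGap_PR {S : Set ℕ} {a b p₀ : ℕ} (hp : p₀ ∈ S) (h : MaxGap S a b) (hb : p₀ < b - a) : PR S b := by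
  obtain ⟨h1, h2⟩ := h
  have h3 : a < b := h1.2.2.1
  obtain ⟨n, rfl⟩ : ∃ n, b = n + 1 := ⟨b - 1, by omega⟩
  refine ⟨n, rfl, h1.2.1, ?_⟩
  rw [ag_of_cons h1]
  refine mx_le hp n (fun c d h4 h5 => ?_) (by omega)
  -- `d ≤ a`
  have h6 : d ≤ a := by
    by_contra hcon
    exact h1.2.2.2 d (by omega) (by omega) h4.2.1
  have := h2 c d h4 h6
  omega

/-- a point of `PR` is the end of a maximal gap or the first positive member -/
lemma PR_maxGap {S : Set ℕ} {b : ℕ} (h : PR S b) : (∃ a, MaxGap S a b ∧ b - a = HH S b) ∨ (∀ m, 0 < m → m < b → m ∉ S) := by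
  classical
  obtain ⟨n, rfl, h1, h2⟩ := h
  rcases ag_mem S n with h3 | h3
  · right
    intro m h4 h5
    exact ag_empty S n m (by omega) (by omega)
  · left
    have h4 : Cons S (n - ag S n) (n + 1) := ⟨h3, h1, by omega, fun m h7 h8 => ag_empty S n m h7 (by omega)⟩
    have h5 := ag_le S n
    refine ⟨n - ag S n, ⟨h4, fun c d h6 h7 => ?_⟩, ?_⟩
    · have := cons_le_mx h6 n (by omega)
      omega
    · rw [HH_succ, if_pos h2]
      unfold HH
      rw [max_eq_right h2]
      omega

lemma PR_HH {S : Set ℕ} {b b' : ℕ} (h : PR S b) (h' : PR S b') (hbb : b < b') : HH S b < HH S b' := by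
  classical
  obtain ⟨n, rfl, h1, h2⟩ := h'
  have h3 : HH S b ≤ HH S n := HH_mono S (by omega)
  rw [HH_succ, if_pos h2]
  omega

/-- the number of points of `PR` up to `n` -/
lemma PR_count (S : Set ℕ) (n : ℕ) : {b | b ≤ n ∧ PR S b}.Finite :=
  (Set.finite_Iic n).subset fun b hb => hb.1

/-- the number of maximal gaps ending at or before `x` -/
noncomputable def mgc (S : Set ℕ) (x : ℕ) : ℕ := {b | b ≤ x ∧ ∃ a, MaxGap S a b}.ncard

/-- the number of maximal gaps of length at most `y` -/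
noncomputable def mgs (S : Set ℕ) (y : ℕ) : ℕ := {b | ∃ a, MaxGap S a b ∧ b - a ≤ y}.ncard

lemma maxGap_inj {S : Set ℕ} {a b a' b' : ℕ} (h : MaxGap S a b) (h' : MaxGap S a' b') (he : b - a = b' - a') : b = b' := by
  rcases lt_trichotomy b b' with h1 | h1 | h1
  · -- `b ≤ a'`
    have h2 : b ≤ a' := by
      by_contra hcon
      exact h'.1.2.2.2 b (by omega) h1 h.1.2.1
    have := h'.2 a b h.1 h2
    omega
  · exact h1
  · have h2 : b' ≤ a := by
      by_contra hcon
      exact h.1.2.2.2 b' (by omega) h1 h'.1.2.1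
    have := h.2 a' b' h'.1 h2
    omega

/-- short maximal gaps are few -/
lemma short_card (S : Set ℕ) (p₀ : ℕ) : {b | ∃ a, MaxGap S a b ∧ b - a ≤ p₀}.Finite ∧
    {b | ∃ a, MaxGap S a b ∧ b - a ≤ p₀}.ncard ≤ p₀ + 1 := by
  classical
  set T := {b | ∃ a, MaxGap S a b ∧ b - a ≤ p₀} with hT
  have h1 : ∀ b ∈ T, ∃ a, MaxGap S a b ∧ b - a ≤ p₀ := fun b hb => hb
  set f : ℕ → ℕ := fun b => if hb : b ∈ T then b - (h1 b hb).choose else 0 with hf
  have hmaps : ∀ b ∈ T, f b ∈ (Finset.range (p₀ + 1) : Set ℕ) := by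
    intro b hb
    simp only [hf, dif_pos hb]
    rw [Finset.coe_range, Set.mem_Iio]
    exact Nat.lt_succ_of_le (h1 b hb).choose_spec.2
  have hinj : Set.InjOn f T := by
    intro b hb b' hb' he
    simp only [hf, dif_pos hb, dif_pos hb'] at he
    exact maxGap_inj (h1 b hb).choose_spec.1 (h1 b' hb').choose_spec.1 he
  have hfin : T.Finite := Set.Finite.of_injOn hmaps hinj (Finset.finite_toSet _)
  refine ⟨hfin, ?_⟩
  have := Set.ncard_le_ncard_of_injOn f hmaps hinj (Finset.finite_toSet _)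
  rwa [Set.ncard_coe_finset, Finset.card_range] at this

/-- comparison of the two counts -/
lemma mgc_bounds {S : Set ℕ} {p₀ : ℕ} (hp : p₀ ∈ S) (x : ℕ) :
    mgc S x ≤ {b | b ≤ x ∧ PR S b}.ncard + (p₀ + 1) ∧ {b | b ≤ x ∧ PR S b}.ncard ≤ mgc S x + 1 := by
  constructor
  · unfold mgc
    have h1 : {b | b ≤ x ∧ ∃ a, MaxGap S a b} ⊆ {b | b ≤ x ∧ PR S b} ∪ {b | ∃ a, MaxGap S a b ∧ b - a ≤ p₀} := by
      rintro b ⟨hb, a, ha⟩
      rcases Nat.lt_or_ge p₀ (b - a) with h | h
      · exact Or.inl ⟨hb, maxGap_PR hp ha h⟩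
      · exact Or.inr ⟨a, ha, h⟩
    have h2 := Set.ncard_le_ncard h1 ((PR_count S x).union (short_card S p₀).1)
    have h3 := Set.ncard_union_le {b | b ≤ x ∧ PR S b} {b | ∃ a, MaxGap S a b ∧ b - a ≤ p₀}
    have h4 := (short_card S p₀).2
    omega
  · -- at most one exceptional point
    have hfin : {b | b ≤ x ∧ ∃ a, MaxGap S a b}.Finite := (Set.finite_Iic x).subset fun b hb => hb.1
    have hex : {b | PR S b ∧ ∀ m, 0 < m → m < b → m ∉ S}.ncard ≤ 1 := by
      rw [Set.ncard_le_one ((Set.finite_of_forall_not_lt_lt ?_))]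
      · rintro a ⟨h1, h2⟩ b ⟨h3, h4⟩
        obtain ⟨n, rfl, h5, _⟩ := h1
        obtain ⟨n', rfl, h6, _⟩ := h3
        rcases lt_trichotomy (n + 1) (n' + 1) with h | h | h
        · exact absurd h5 (h4 _ (by omega) h)
        · exact h
        · exact absurd h6 (h2 _ (by omega) h)
      · rintro a ⟨h1, _⟩ b ⟨h3, h4⟩ c _ hab _
        obtain ⟨n, rfl, h5, _⟩ := h1
        exact absurd h5 (h4 _ (by omega) hab)
    have hexf : {b | PR S b ∧ ∀ m, 0 < m → m < b → m ∉ S}.Finite := by
      refine Set.finite_of_forall_not_lt_lt ?_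
      rintro a ⟨h1, _⟩ b ⟨h3, h4⟩ c _ hab _
      obtain ⟨n, rfl, h5, _⟩ := h1
      exact absurd h5 (h4 _ (by omega) hab)
    unfold mgc
    have h1 : {b | b ≤ x ∧ PR S b} ⊆ {b | b ≤ x ∧ ∃ a, MaxGap S a b} ∪ {b | PR S b ∧ ∀ m, 0 < m → m < b → m ∉ S} := by
      rintro b ⟨hb, h⟩
      rcases PR_maxGap h with ⟨a, ha, _⟩ | h2
      · exact Or.inl ⟨hb, a, ha⟩
      · exact Or.inr ⟨h, h2⟩
    have h2 := Set.ncard_le_ncard h1 (hfin.union hexf)
    have h3 := Set.ncard_union_le {b | b ≤ x ∧ ∃ a, MaxGap S a b} {b | PR S b ∧ ∀ m, 0 < m → m < b → m ∉ S}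
    omega

/-- the number of maximal gaps of bounded length -/
lemma mgs_bounds {S : Set ℕ} {p₀ : ℕ} (hp : p₀ ∈ S) {y n n' : ℕ} (h1 : HH S n ≤ y) (h2 : y < HH S n') :
    mgc S n ≤ mgs S y + (p₀ + 2) ∧ mgs S y ≤ mgc S n' + (p₀ + 2) := by
  classical
  have hfin : ∀ y, {b | ∃ a, MaxGap S a b ∧ b - a ≤ y}.Finite := fun y => (short_card S y).1
  constructor
  · have h3 := (mgc_bounds hp n).1
    have h4 : {b | b ≤ n ∧ PR S b}.ncard ≤ mgs S y + 1 := by
      have hexf : {b | PR S b ∧ ∀ m, 0 < m → m < b → m ∉ S}.Finite := by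
        refine Set.finite_of_forall_not_lt_lt ?_
        rintro a ⟨h1, _⟩ b ⟨h3, h4⟩ c _ hab _
        obtain ⟨n, rfl, h5, _⟩ := h1
        exact absurd h5 (h4 _ (by omega) hab)
      have hex : {b | PR S b ∧ ∀ m, 0 < m → m < b → m ∉ S}.ncard ≤ 1 := by
        rw [Set.ncard_le_one hexf]
        rintro a ⟨h1, h2⟩ b ⟨h3, h4⟩
        obtain ⟨n, rfl, h5, _⟩ := h1
        obtain ⟨n', rfl, h6, _⟩ := h3
        rcases lt_trichotomy (n + 1) (n' + 1) with h | h | h
        · exact absurd h5 (h4 _ (by omega) h)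
        · exact h
        · exact absurd h6 (h2 _ (by omega) h)
      have h5 : {b | b ≤ n ∧ PR S b} ⊆ {b | ∃ a, MaxGap S a b ∧ b - a ≤ y} ∪ {b | PR S b ∧ ∀ m, 0 < m → m < b → m ∉ S} := by
        rintro b ⟨hb, h⟩
        rcases PR_maxGap h with ⟨a, ha, ha2⟩ | h2
        · left
          refine ⟨a, ha, ?_⟩
          rw [ha2]
          exact (HH_mono S hb).trans h1
        · exact Or.inr ⟨h, h2⟩
      have h6 := Set.ncard_le_ncard h5 ((hfin y).union hexf)
      have h7 := Set.ncard_union_le {b | ∃ a, MaxGap S a b ∧ b - a ≤ y} {b | PR S b ∧ ∀ m, 0 < m → m < b → m ∉ S}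
      unfold mgs
      omega
    omega
  · have h3 := (mgc_bounds hp n').2
    have h5 : {b | ∃ a, MaxGap S a b ∧ b - a ≤ y} ⊆ {b | b ≤ n' ∧ ∃ a, MaxGap S a b} ∪ {b | ∃ a, MaxGap S a b ∧ b - a ≤ p₀} := by
      rintro b ⟨a, ha, hy⟩
      rcases Nat.lt_or_ge p₀ (b - a) with h | h
      · left
        refine ⟨?_, a, ha⟩
        by_contra hcon
        have h6 := maxGap_PR hp ha h
        obtain ⟨m, rfl, h7, h8⟩ := h6
        have h9 : HH S n' ≤ HH S m := HH_mono S (by omega)
        have h10 : HH S m = ag S m := max_eq_right h8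
        rw [ag_of_cons ha.1] at h10
        have := ha.1.2.2.1
        omega
      · exact Or.inr ⟨a, ha, h⟩
    have hfin2 : {b | b ≤ n' ∧ ∃ a, MaxGap S a b}.Finite := (Set.finite_Iic n').subset fun b hb => hb.1
    have h6 := Set.ncard_le_ncard h5 (hfin2.union (hfin p₀))
    have h7 := Set.ncard_union_le {b | b ≤ n' ∧ ∃ a, MaxGap S a b} {b | ∃ a, MaxGap S a b ∧ b - a ≤ p₀}
    have h8 := (short_card S p₀).2
    unfold mgs mgc
    omega

end Pool.Agent.R528.RM
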