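import Mathlib
import Pool.Agent.R528.RM.RoughCount
import Pool.Agent.R528.RM.Final

set_option autoImplicit false

/-! # Parameters of the sieved model -/

open Filter Finset
open scoped Topology

namespace Pool.Agent.R528.RM

/-- the constant `e^γ` -/
noncomputable def eg : ℝ := Real.exp Real.eulerMascheroniConstant

lemma eg_pos : 0 < eg := Real.exp_pos _

/-- sieving level used at scale `i` -/
noncomputable def TT2 (z : ℕ → ℕ) (i : ℕ) : ℕ := min (z (2 ^ i)) ⌊(i : ℝ) / Real.log i⌋₊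

/-- length of the runs at scale `i` -/
noncomputable def LL2 (c : ℝ) (i : ℕ) : ℕ := ⌊c * (((i : ℝ) + 3) * Real.log 2) ^ 2⌋₊ + 1

/-- upper bound of the densities at scale `i` -/
noncomputable def uu (δ : ℝ) (i : ℕ) : ℝ := (1 + δ) ^ 2 * eg * Real.log ((i : ℝ) + 1) / (i * Real.log 2)

lemma log2pos : 0 < Real.log 2 := Real.log_pos (by norm_num)

lemma tlog : Tendsto (fun i : ℕ => Real.log (i : ℝ)) atTop atTop :=
  Real.tendsto_log_atTop.comp tendsto_natCast_atTop_atTop

/-- adding a bounded amount does not change the logarithm much -/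
lemma log_ratio_of {f : ℕ → ℝ} {a C : ℝ} (h : Tendsto (fun i : ℕ => f i / (i : ℝ) ^ a) atTop (𝓝 C)) (hC : 0 < C) :
    Tendsto (fun i : ℕ => Real.log (f i) / Real.log i) atTop (𝓝 a) := by
  have h1 : Tendsto (fun i : ℕ => Real.log (f i / (i : ℝ) ^ a)) atTop (𝓝 (Real.log C)) :=
    (Real.continuousAt_log hC.ne').tendsto.comp h
  have h2 : Tendsto (fun i : ℕ => Real.log (f i / (i : ℝ) ^ a) / Real.log i + a) atTop (𝓝 (0 + a)) :=
    (h1.div_atTop tlog).add_const a
  rw [zero_add] at h2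
  refine h2.congr' ?_
  filter_upwards [h.eventually (lt_mem_nhds hC), eventually_gt_atTop 1] with i hi hi1
  have hi' : (1 : ℝ) < i := by exact_mod_cast hi1
  have h3 : (0 : ℝ) < (i : ℝ) ^ a := Real.rpow_pos_of_pos (by linarith) _
  have h4 : 0 < f i := (div_pos_iff_of_pos_right h3).1 hi
  have h5 : 0 < Real.log (i : ℝ) := Real.log_pos hi'
  rw [Real.log_div h4.ne' h3.ne', Real.log_rpow (by linarith)]
  field_simp
  ring

lemma LL2_sq {c : ℝ} (hc : 0 < c) : Tendsto (fun i : ℕ => (LL2 c i : ℝ) / (i : ℝ) ^ (2 : ℝ)) atTop (𝓝 (c * Real.log 2 ^ 2)) := by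
  have h0 : Tendsto (fun i : ℕ => (3 : ℝ) / i) atTop (𝓝 0) := tendsto_const_nhds.div_atTop tendsto_natCast_atTop_atTop
  have h1 : Tendsto (fun i : ℕ => c * Real.log 2 ^ 2 * (1 + 3 / (i : ℝ)) ^ 2) atTop (𝓝 (c * Real.log 2 ^ 2 * (1 + 0) ^ 2)) :=
    ((h0.const_add 1).pow 2).const_mul _
  have h2 : Tendsto (fun i : ℕ => (1 : ℝ) / (i : ℝ) ^ 2) atTop (𝓝 0) :=
    tendsto_const_nhds.div_atTop ((tendsto_pow_atTop (by norm_num)).comp tendsto_natCast_atTop_atTop)
  have h3 := h1.add h2
  rw [show c * Real.log 2 ^ 2 * (1 + 0) ^ 2 + 0 = c * Real.log 2 ^ 2 by ring] at h3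
  rw [show c * Real.log 2 ^ 2 * (1 + 0) ^ 2 = c * Real.log 2 ^ 2 by ring] at h1
  refine tendsto_of_tendsto_of_tendsto_of_le_of_le' h1 h3 ?_ ?_
  · filter_upwards [eventually_gt_atTop 0] with i hi
    have hi' : (0 : ℝ) < i := by exact_mod_cast hi
    rw [Real.rpow_two, le_div_iff₀ (by positivity)]
    have h4 := (Nat.lt_floor_add_one (c * (((i : ℝ) + 3) * Real.log 2) ^ 2)).le
    unfold LL2
    push_cast
    refine le_trans (le_of_eq ?_) h4
    field_simp
  · filter_upwards [eventually_gt_atTop 0] with i hi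
    have hi' : (0 : ℝ) < i := by exact_mod_cast hi
    rw [Real.rpow_two, div_le_iff₀ (by positivity)]
    have h4 := Nat.floor_le (show 0 ≤ c * (((i : ℝ) + 3) * Real.log 2) ^ 2 by positivity)
    unfold LL2
    push_cast
    refine le_trans (add_le_add h4 le_rfl) (le_of_eq ?_)
    field_simp

lemma LL2_log {c : ℝ} (hc : 0 < c) : Tendsto (fun i : ℕ => Real.log (LL2 c i : ℝ) / Real.log i) atTop (𝓝 2) :=
  log_ratio_of (LL2_sq hc) (by have := log2pos; positivity)

lemma LL2_top {c : ℝ} (hc : 0 < c) : Tendsto (LL2 c) atTop atTop := by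
  have h1 : Tendsto (fun i : ℕ => (LL2 c i : ℝ)) atTop atTop := by
    have h2 := (LL2_sq hc).pos_mul_atTop (by have := log2pos; positivity)
      ((tendsto_rpow_atTop (show (0 : ℝ) < 2 by norm_num)).comp (tendsto_natCast_atTop_atTop (R := ℝ)))
    refine h2.congr' ?_
    filter_upwards [eventually_gt_atTop 0] with i hi
    have hi' : (0 : ℝ) < i := by exact_mod_cast hi
    have : (0 : ℝ) < (i : ℝ) ^ (2 : ℝ) := Real.rpow_pos_of_pos hi' _
    simp only [Function.comp_apply]
    field_simp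
  exact tendsto_natCast_atTop_iff.1 h1

lemma floor_log : Tendsto (fun i : ℕ => Real.log (⌊(i : ℝ) / Real.log i⌋₊ : ℝ) / Real.log i) atTop (𝓝 1) := by
  have hll : Tendsto (fun i : ℕ => Real.log (Real.log (i : ℝ)) / Real.log i) atTop (𝓝 0) :=
    (Real.isLittleO_log_id_atTop.tendsto_div_nhds_zero).comp tlog
  have h1 : Tendsto (fun i : ℕ => 1 - Real.log (Real.log (i : ℝ)) / Real.log i - Real.log 2 / Real.log i) atTop (𝓝 (1 - 0 - 0)) :=
    ((tendsto_const_nhds.sub hll).sub (tendsto_const_nhds.div_atTop tlog))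
  rw [show (1 : ℝ) - 0 - 0 = 1 by norm_num] at h1
  refine tendsto_of_tendsto_of_tendsto_of_le_of_le' h1 tendsto_const_nhds ?_ ?_
  · have hlin : Tendsto (fun i : ℕ => (i : ℝ) / Real.log i) atTop atTop := by
      have h20 : Tendsto (fun x : ℝ => Real.log x / x) atTop (𝓝[>] 0) := by
        rw [tendsto_nhdsWithin_iff]
        refine ⟨Real.isLittleO_log_id_atTop.tendsto_div_nhds_zero, ?_⟩
        filter_upwards [eventually_gt_atTop 1] with x hx
        exact div_pos (Real.log_pos hx) (by linarith)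
      have h21 : Tendsto (fun x : ℝ => x / Real.log x) atTop atTop :=
        (h20.inv_tendsto_nhdsGT_zero).congr fun x => by simp
      exact h21.comp tendsto_natCast_atTop_atTop
    filter_upwards [hlin.eventually_ge_atTop 2, tlog.eventually_gt_atTop 0, eventually_gt_atTop 1] with i hi hi2 hi3
    have hi' : (1 : ℝ) < i := by exact_mod_cast hi3
    have h4 : (i : ℝ) / Real.log i / 2 ≤ (⌊(i : ℝ) / Real.log i⌋₊ : ℝ) := by
      have := Nat.lt_floor_add_one ((i : ℝ) / Real.log i)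
      linarith
    have h5 := Real.log_le_log (by positivity) h4
    rw [Real.log_div (by positivity) (by norm_num), Real.log_div (by linarith) hi2.ne'] at h5
    rw [le_div_iff₀ hi2]
    have e : (1 - Real.log (Real.log (i : ℝ)) / Real.log i - Real.log 2 / Real.log i) * Real.log i =
      Real.log i - Real.log (Real.log i) - Real.log 2 := by field_simp
    rw [e]
    exact h5
  · have hexp : ∀ᶠ i : ℕ in atTop, (1 : ℝ) ≤ Real.log i := tlog.eventually_ge_atTop 1
    have hlin : ∀ᶠ i : ℕ in atTop, (1 : ℝ) ≤ (⌊(i : ℝ) / Real.log i⌋₊ : ℝ) := by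
      filter_upwards [tlog.eventually_gt_atTop 0, eventually_gt_atTop 1] with i hi2 hi3
      have hi' : (1 : ℝ) < i := by exact_mod_cast hi3
      have : (1 : ℝ) ≤ (i : ℝ) / Real.log i := by
        rw [le_div_iff₀ hi2]
        have := Real.log_le_sub_one_of_pos (show (0 : ℝ) < i by linarith)
        linarith
      exact_mod_cast (Nat.one_le_floor_iff _).2 this
    filter_upwards [hexp, hlin, eventually_gt_atTop 1] with i hi hi2 hi3
    have hi' : (1 : ℝ) < i := by exact_mod_cast hi3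
    rw [div_le_one (by linarith)]
    apply Real.log_le_log (by linarith)
    refine (Nat.floor_le (by positivity)).trans ?_
    exact div_le_self (by linarith) hi

lemma TT2_log {z : ℕ → ℕ} (hz : Tendsto (fun n : ℕ => Real.log (z n) / Real.log (Real.log n)) atTop (𝓝 1)) :
    Tendsto (fun i : ℕ => Real.log (TT2 z i : ℝ) / Real.log i) atTop (𝓝 1) := by
  have hp : Tendsto (fun i : ℕ => 2 ^ i : ℕ → ℕ) atTop atTop := tendsto_pow_atTop_atTop_of_one_lt (by norm_num)
  have h1 := hz.comp hp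
  have h2 : Tendsto (fun i : ℕ => Real.log (Real.log ((2 ^ i : ℕ) : ℝ)) / Real.log i) atTop (𝓝 1) := by
    refine log_ratio_of (a := 1) (C := Real.log 2) ?_ log2pos
    refine tendsto_const_nhds.congr' ?_
    filter_upwards [eventually_gt_atTop 0] with i hi
    have hi' : (0 : ℝ) < i := by exact_mod_cast hi
    rw [Real.rpow_one]
    push_cast
    rw [Real.log_pow]
    field_simp
  have h3 := h1.mul h2
  rw [one_mul] at h3
  have h4 : Tendsto (fun i : ℕ => Real.log (z (2 ^ i) : ℝ) / Real.log i) atTop (𝓝 1) := by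
    refine h3.congr' ?_
    have h5 : ∀ᶠ i : ℕ in atTop, Real.log (Real.log ((2 ^ i : ℕ) : ℝ)) / Real.log i ≠ 0 :=
      h2.eventually_ne one_ne_zero
    filter_upwards [h5, tlog.eventually_gt_atTop 0] with i hi hi2
    simp only [Function.comp_apply]
    have h6 : Real.log (Real.log ((2 ^ i : ℕ) : ℝ)) ≠ 0 := by
      intro h
      rw [h, zero_div] at hi
      exact hi rfl
    field_simp
  have h5 := h4.min floor_log
  rw [min_self] at h5
  refine h5.congr' ?_
  filter_upwards [h4.eventually (lt_mem_nhds (show (0 : ℝ) < 1 by norm_num)),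
    floor_log.eventually (lt_mem_nhds (show (0 : ℝ) < 1 by norm_num)), tlog.eventually_gt_atTop 0] with i hi1 hi2 hi3
  have p1 : 0 < Real.log (z (2 ^ i) : ℝ) := (div_pos_iff_of_pos_right hi3).1 hi1
  have p2 : 0 < Real.log (⌊(i : ℝ) / Real.log i⌋₊ : ℝ) := (div_pos_iff_of_pos_right hi3).1 hi2
  have q1 : (0 : ℝ) < z (2 ^ i) := by
    rcases Nat.eq_zero_or_pos (z (2 ^ i)) with h | h
    · rw [h] at p1; simp at p1
    · exact_mod_cast h
  have q2 : (0 : ℝ) < ⌊(i : ℝ) / Real.log i⌋₊ := by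
    rcases Nat.eq_zero_or_pos ⌊(i : ℝ) / Real.log i⌋₊ with h | h
    · rw [h] at p2; simp at p2
    · exact_mod_cast h
  unfold TT2
  rw [min_div_div_right hi3.le]
  congr 1
  rcases le_total (z (2 ^ i)) ⌊(i : ℝ) / Real.log i⌋₊ with h | h
  · rw [min_eq_left h, min_eq_left (Real.log_le_log q1 (by exact_mod_cast h))]
  · rw [min_eq_right h, min_eq_right (Real.log_le_log q2 (by exact_mod_cast h))]

lemma TT2_small (z : ℕ → ℕ) : Tendsto (fun i : ℕ => (TT2 z i : ℝ) / i) atTop (𝓝 0) := by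
  have h1 : Tendsto (fun i : ℕ => 1 / Real.log (i : ℝ)) atTop (𝓝 0) := tendsto_const_nhds.div_atTop tlog
  refine squeeze_zero' (Eventually.of_forall fun i => by positivity) ?_ h1
  filter_upwards [tlog.eventually_gt_atTop 0, eventually_gt_atTop 0] with i hi hi2
  have hi' : (0 : ℝ) < i := by exact_mod_cast hi2
  rw [div_le_div_iff₀ hi' hi]
  have h2 : (TT2 z i : ℝ) ≤ (i : ℝ) / Real.log i := by
    refine le_trans ?_ (Nat.floor_le (show 0 ≤ (i : ℝ) / Real.log i by positivity))
    unfold TT2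
    exact_mod_cast min_le_right _ _
  rw [le_div_iff₀ hi] at h2
  linarith

/-- the parameters fit -/
theorem sg_key {z : ℕ → ℕ} (hz : Tendsto (fun n : ℕ => Real.log (z n) / Real.log (Real.log n)) atTop (𝓝 1))
    {c : ℝ} (hc0 : 0 < c) (hc : c * eg / 2 < 1) : ∃ δ : ℝ, 0 < δ ∧ ∀ᶠ i : ℕ in atTop,
      uu δ i < 1 ∧ 4 * 4 ^ (TT2 z i) * LL2 c i ≤ 2 ^ i ∧
      (i : ℝ) ≤ (1 - uu δ i) ^ (roughs (TT2 z i) (LL2 c i)).card * ((2 : ℝ) ^ i / (4 * 4 ^ (TT2 z i) * LL2 c i)) := by
  have hlog2 := log2pos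
  have heg := eg_pos
  -- choice of δ
  obtain ⟨δ, hδ0, hδ1⟩ : ∃ δ : ℝ, 0 < δ ∧ (1 + δ) ^ 4 * (c * eg / 2) < 1 := by
    have hcont : Tendsto (fun δ : ℝ => (1 + δ) ^ 4 * (c * eg / 2)) (𝓝 0) (𝓝 ((1 + 0) ^ 4 * (c * eg / 2))) := by
      have : Continuous (fun δ : ℝ => (1 + δ) ^ 4 * (c * eg / 2)) := by fun_prop
      exact this.tendsto 0
    rw [add_zero, one_pow, one_mul] at hcont
    have h1 := hcont.eventually (gt_mem_nhds hc)
    obtain ⟨r, hr, hr1⟩ := Metric.eventually_nhds_iff.1 h1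
    refine ⟨r / 2, by positivity, hr1 ?_⟩
    rw [Real.dist_eq, sub_zero, abs_of_pos (by positivity)]
    linarith
  refine ⟨δ, hδ0, ?_⟩
  have hT := TT2_log hz
  have hL := LL2_log hc0
  have hTL : Tendsto (fun i => Real.log (TT2 z i : ℝ) / Real.log (LL2 c i)) atTop (𝓝 (1 / 2)) := by
    refine (hT.div hL (by norm_num)).congr' ?_
    filter_upwards [tlog.eventually_gt_atTop 0] with i hi
    simp only [Pi.div_apply]
    field_simp
  have hR := rough_asymp (LL2_top hc0) hTL hδ0
  have hu0 : Tendsto (uu δ) atTop (𝓝 0) := by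
    have h1 : Tendsto (fun x : ℝ => Real.log x / x) atTop (𝓝 0) := Real.isLittleO_log_id_atTop.tendsto_div_nhds_zero
    have h2 : Tendsto (fun i : ℕ => (i : ℝ) + 1) atTop atTop := tendsto_atTop_add_const_right _ _ tendsto_natCast_atTop_atTop
    have h3 := h1.comp h2
    have h4 : Tendsto (fun i : ℕ => ((i : ℝ) + 1) / i) atTop (𝓝 1) := by
      have h5 : Tendsto (fun i : ℕ => 1 + 1 / (i : ℝ)) atTop (𝓝 (1 + 0)) :=
        tendsto_const_nhds.add tendsto_one_div_atTop_nhds_zero_nat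
      rw [add_zero] at h5
      refine h5.congr' ?_
      filter_upwards [eventually_gt_atTop 0] with n hn
      have : (n : ℝ) ≠ 0 := by exact_mod_cast hn.ne'
      field_simp
    have h5 := ((h3.mul h4).const_mul ((1 + δ) ^ 2 * eg / Real.log 2))
    rw [zero_mul, mul_zero] at h5
    refine h5.congr' ?_
    filter_upwards [eventually_gt_atTop 0] with n hn
    have hn' : (0 : ℝ) < n := by exact_mod_cast hn
    simp only [Function.comp_apply, uu]
    field_simp
  -- the exponent
  set E : ℕ → ℝ := fun i => (1 + δ) * uu δ i * ((1 + δ) * LL2 c i / Real.log (LL2 c i)) with hE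
  have hElim : Tendsto (fun i => E i / i) atTop (𝓝 ((1 + δ) ^ 4 * (c * eg / 2) * Real.log 2)) := by
    have h1 : Tendsto (fun i : ℕ => Real.log ((i : ℝ) + 1) / Real.log i) atTop (𝓝 1) := by
      refine log_ratio_of (a := 1) (C := 1) ?_ one_pos
      have h5 : Tendsto (fun i : ℕ => 1 + 1 / (i : ℝ)) atTop (𝓝 (1 + 0)) :=
        tendsto_const_nhds.add tendsto_one_div_atTop_nhds_zero_nat
      rw [add_zero] at h5
      refine h5.congr' ?_
      filter_upwards [eventually_gt_atTop 0] with n hn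
      have : (n : ℝ) ≠ 0 := by exact_mod_cast hn.ne'
      rw [Real.rpow_one]
      field_simp
    have h2 := LL2_sq hc0
    have h3 : Tendsto (fun i : ℕ => (Real.log (LL2 c i : ℝ) / Real.log i)⁻¹) atTop (𝓝 (2 : ℝ)⁻¹) := hL.inv₀ (by norm_num)
    have h4 := ((h1.mul h2).mul h3).const_mul ((1 + δ) ^ 4 * eg / Real.log 2)
    have e1 : (1 + δ) ^ 4 * eg / Real.log 2 * (1 * (c * Real.log 2 ^ 2) * 2⁻¹) = (1 + δ) ^ 4 * (c * eg / 2) * Real.log 2 := by
      field_simp
    rw [e1] at h4
    refine h4.congr' ?_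
    filter_upwards [eventually_gt_atTop 1, (LL2_top hc0).eventually_gt_atTop 1] with i hi hi2
    have hi' : (1 : ℝ) < i := by exact_mod_cast hi
    have hl : 0 < Real.log (i : ℝ) := Real.log_pos hi'
    have hl2 : 0 < Real.log (LL2 c i : ℝ) := Real.log_pos (by exact_mod_cast hi2)
    simp only [hE, uu]
    rw [Real.rpow_two]
    field_simp
  set G : ℕ → ℝ := fun i => -E i + i * Real.log 2 - Real.log 4 - TT2 z i * Real.log 4 - Real.log (LL2 c i) with hG
  set g := Real.log 2 * (1 - (1 + δ) ^ 4 * (c * eg / 2)) with hg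
  have hgpos : 0 < g := mul_pos hlog2 (by linarith)
  have hGlim : Tendsto (fun i => G i / i) atTop (𝓝 g) := by
    have h1 : Tendsto (fun i : ℕ => Real.log 4 / (i : ℝ)) atTop (𝓝 0) := tendsto_const_nhds.div_atTop tendsto_natCast_atTop_atTop
    have h2 : Tendsto (fun i : ℕ => Real.log (LL2 c i : ℝ) / i) atTop (𝓝 0) := by
      have h3 : Tendsto (fun i : ℕ => Real.log (i : ℝ) / i) atTop (𝓝 0) :=
        (Real.isLittleO_log_id_atTop.tendsto_div_nhds_zero).comp tendsto_natCast_atTop_atTop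
      have h4 := hL.mul h3
      rw [mul_zero] at h4
      refine h4.congr' ?_
      filter_upwards [tlog.eventually_gt_atTop 0] with i hi
      field_simp
    have h3 := ((((hElim.neg).add_const (Real.log 2)).sub h1).sub ((TT2_small z).mul_const (Real.log 4))).sub h2
    have e1 : -((1 + δ) ^ 4 * (c * eg / 2) * Real.log 2) + Real.log 2 - 0 - 0 * Real.log 4 - 0 = g := by
      rw [hg]; ring
    rw [e1] at h3
    refine h3.congr' ?_
    filter_upwards [eventually_gt_atTop 0] with i hi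
    have hi' : (0 : ℝ) < i := by exact_mod_cast hi
    simp only [hG]
    field_simp
  have hGlog : ∀ᶠ i : ℕ in atTop, Real.log i ≤ G i := by
    have h3 : Tendsto (fun i : ℕ => Real.log (i : ℝ) / i) atTop (𝓝 0) :=
      (Real.isLittleO_log_id_atTop.tendsto_div_nhds_zero).comp tendsto_natCast_atTop_atTop
    filter_upwards [hGlim.eventually (lt_mem_nhds (show g / 2 < g by linarith)),
      h3.eventually (gt_mem_nhds (show (0 : ℝ) < g / 2 by linarith)), eventually_gt_atTop 0] with i h4 h5 h6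
    have hi' : (0 : ℝ) < i := by exact_mod_cast h6
    have := h5.trans h4
    rw [div_lt_div_iff_of_pos_right hi'] at this
    exact this.le
  filter_upwards [hR, hGlog, hu0.eventually (gt_mem_nhds (show (0 : ℝ) < δ / (1 + δ) by positivity)),
    eventually_gt_atTop 1, (LL2_top hc0).eventually_gt_atTop 1] with i h1 h2 h3 h4 h5
  have hi' : (1 : ℝ) < i := by exact_mod_cast h4
  have hl : 0 < Real.log (i : ℝ) := Real.log_pos hi'
  have hLL : (1 : ℝ) < LL2 c i := by exact_mod_cast h5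
  have hl2 : 0 < Real.log (LL2 c i : ℝ) := Real.log_pos hLL
  have hupos : 0 ≤ uu δ i := by
    unfold uu
    have : 0 ≤ Real.log ((i : ℝ) + 1) := Real.log_nonneg (by linarith)
    positivity
  have hδ' : δ / (1 + δ) < 1 := by rw [div_lt_one (by linarith)]; linarith
  have hu1 : uu δ i < 1 := h3.trans hδ'
  have hE0 : 0 ≤ E i := by
    simp only [hE]
    positivity
  -- lower bound for the power
  have h6 : Real.exp (-E i) ≤ (1 - uu δ i) ^ (roughs (TT2 z i) (LL2 c i)).card := by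
    have h7 : 0 < 1 - uu δ i := by linarith
    have h8 : -((1 + δ) * uu δ i) ≤ Real.log (1 - uu δ i) := by
      have h9 := Real.one_sub_inv_le_log_of_pos h7
      refine le_trans ?_ h9
      have h10 : (1 - uu δ i)⁻¹ ≤ 1 + (1 + δ) * uu δ i := by
        rw [inv_le_iff_one_le_mul₀ h7]
        have h11 : uu δ i * (1 + δ) ≤ δ := by
          rw [lt_div_iff₀ (by linarith)] at h3
          exact h3.le
        nlinarith
      linarith
    rw [← Real.exp_log (pow_pos h7 _), Real.log_pow]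
    apply Real.exp_le_exp.2
    have h9 : ((roughs (TT2 z i) (LL2 c i)).card : ℝ) * (-((1 + δ) * uu δ i)) ≤ ((roughs (TT2 z i) (LL2 c i)).card : ℝ) * Real.log (1 - uu δ i) :=
      mul_le_mul_of_nonneg_left h8 (Nat.cast_nonneg _)
    refine le_trans ?_ h9
    have h10 : ((roughs (TT2 z i) (LL2 c i)).card : ℝ) * ((1 + δ) * uu δ i) ≤ E i := by
      simp only [hE]
      rw [mul_comm]
      exact mul_le_mul_of_nonneg_left h1 (by positivity)
    linarith
  have h7 : Real.exp (i * Real.log 2 - Real.log 4 - TT2 z i * Real.log 4 - Real.log (LL2 c i)) =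
      (2 : ℝ) ^ i / (4 * 4 ^ (TT2 z i) * LL2 c i) := by
    have e1 : (2 : ℝ) ^ i = Real.exp (i * Real.log 2) := by
      rw [Real.exp_nat_mul, Real.exp_log (by norm_num)]
    have e2 : (4 : ℝ) ^ (TT2 z i) = Real.exp (TT2 z i * Real.log 4) := by
      rw [Real.exp_nat_mul, Real.exp_log (by norm_num)]
    rw [e1, e2, Real.exp_sub, Real.exp_sub, Real.exp_sub, Real.exp_log (by norm_num), Real.exp_log (by linarith)]
    field_simp
  have h8 : (i : ℝ) ≤ Real.exp (-E i) * ((2 : ℝ) ^ i / (4 * 4 ^ (TT2 z i) * LL2 c i)) := by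
    rw [← h7, ← Real.exp_add]
    have e1 : (i : ℝ) = Real.exp (Real.log i) := (Real.exp_log (by linarith)).symm
    conv_lhs => rw [e1]
    apply Real.exp_le_exp.2
    refine h2.trans (le_of_eq ?_)
    simp only [hG]
    ring
  have hq0 : (0 : ℝ) ≤ (2 : ℝ) ^ i / (4 * 4 ^ (TT2 z i) * LL2 c i) := by positivity
  refine ⟨hu1, ?_, ?_⟩
  · have h9 : (1 : ℝ) ≤ (2 : ℝ) ^ i / (4 * 4 ^ (TT2 z i) * LL2 c i) := by
      have h10 : Real.exp (-E i) ≤ 1 := Real.exp_le_one_iff.2 (by linarith)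
      have h11 : Real.exp (-E i) * ((2 : ℝ) ^ i / (4 * 4 ^ (TT2 z i) * LL2 c i)) ≤ 1 * ((2 : ℝ) ^ i / (4 * 4 ^ (TT2 z i) * LL2 c i)) :=
        mul_le_mul_of_nonneg_right h10 hq0
      linarith
    rw [le_div_iff₀ (by positivity)] at h9
    have h10 : ((4 * 4 ^ (TT2 z i) * LL2 c i : ℕ) : ℝ) ≤ ((2 ^ i : ℕ) : ℝ) := by
      push_cast
      linarith
    exact_mod_cast h10
  · exact h8.trans (mul_le_mul_of_nonneg_right h6 hq0)

end Pool.Agent.R528.RM
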