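import Mathlib
import Pool.Agent.R528.RM.Rec0
import Pool.Agent.R528.RM.Cher
import Pool.Agent.R528.RM.Cand
import Pool.Agent.R528.RM.SGAsym
import Pool.Agent.R528.RM.Tails
import Pool.Agent.R528.RM.MaxUp

set_option autoImplicit false
set_option linter.unusedSectionVars false

/-! # Maximal gaps in random models: the probabilistic part -/

open MeasureTheory Filter Set
open scoped ENNReal Topology

namespace Pool.Agent.R528.RM

variable {Ω : Type} {m0 : MeasurableSpace Ω} {μ : Measure Ω} [IsProbabilityMeasure μ]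
  {ℱ : Filtration ℕ m0} {A : ℕ → Set Ω}

/-- analytic facts at scale `i` -/
lemma runs_anal {c : ℝ} (hc0 : 0 < c) (hc1 : c < 1) : ∃ δ : ℝ, 0 < δ ∧ ∀ᶠ i : ℕ in atTop,
    0 ≤ (1 + δ) / (i * Real.log 2) ∧ (1 + δ) / (i * Real.log 2) ≤ 1 / 2 ∧
    (i : ℝ) ≤ (1 - (1 + δ) / (i * Real.log 2)) ^ (LL2 c i) * ((2 ^ i / LL2 c i : ℕ) : ℝ) := by
  set η : ℝ := (1 - c) / 2 with hη
  have hη0 : 0 < η := by rw [hη]; linarith
  refine ⟨(1 - c) / 4, by linarith, ?_⟩
  set δ : ℝ := (1 - c) / 4 with hδ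
  have hδ0 : 0 < δ := by rw [hδ]; linarith
  have hl2 := log2pos
  have hcast : Tendsto (fun i : ℕ => (i : ℝ)) atTop atTop := tendsto_natCast_atTop_atTop
  have hL : Tendsto (fun i : ℕ => (i : ℝ) * Real.log 2) atTop atTop := hcast.atTop_mul_const hl2
  set u : ℕ → ℝ := fun i => (1 + δ) / (i * Real.log 2) with hu
  have hu0 : Tendsto u atTop (𝓝 0) := tendsto_const_nhds.div_atTop hL
  -- the lengths
  have hbd : ∀ i : ℕ, c * (((i : ℝ) + 3) * Real.log 2) ^ 2 ≤ LL2 c i ∧ (LL2 c i : ℝ) ≤ c * (((i : ℝ) + 3) * Real.log 2) ^ 2 + 1 := by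
    intro i
    unfold LL2
    push_cast
    have h1 := Nat.floor_le (show 0 ≤ c * (((i : ℝ) + 3) * Real.log 2) ^ 2 by positivity)
    have h2 := (Nat.lt_floor_add_one (c * (((i : ℝ) + 3) * Real.log 2) ^ 2)).le
    constructor <;> linarith
  have hratio : Tendsto (fun i : ℕ => (LL2 c i : ℝ) / ((i : ℝ) * Real.log 2) ^ 2) atTop (𝓝 c) := by
    have h3 : Tendsto (fun i : ℕ => ((i : ℝ) + 3) / i) atTop (𝓝 1) := by
      have h4 : Tendsto (fun i : ℕ => 1 + 3 / (i : ℝ)) atTop (𝓝 (1 + 0)) := (tendsto_const_nhds.div_atTop hcast).const_add 1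
      rw [add_zero] at h4
      refine h4.congr' ?_
      filter_upwards [eventually_gt_atTop 0] with i hi
      have : (0 : ℝ) < i := by exact_mod_cast hi
      field_simp
    have h5 : Tendsto (fun i : ℕ => c * (((i : ℝ) + 3) / i) ^ 2) atTop (𝓝 (c * 1 ^ 2)) := (h3.pow 2).const_mul c
    have h6 : Tendsto (fun i : ℕ => c * (((i : ℝ) + 3) / i) ^ 2 + 1 / ((i : ℝ) * Real.log 2) ^ 2) atTop (𝓝 (c * 1 ^ 2 + 0)) :=
      h5.add (tendsto_const_nhds.div_atTop ((tendsto_pow_atTop (by norm_num)).comp hL))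
    rw [one_pow, mul_one] at h5
    rw [one_pow, mul_one, add_zero] at h6
    refine tendsto_of_tendsto_of_tendsto_of_le_of_le' h5 h6 ?_ ?_
    · filter_upwards [eventually_gt_atTop 0] with i hi
      have hi0 : (0 : ℝ) < i := by exact_mod_cast hi
      rw [le_div_iff₀ (by positivity)]
      refine le_trans (le_of_eq ?_) (hbd i).1
      field_simp
    · filter_upwards [eventually_gt_atTop 0] with i hi
      have hi0 : (0 : ℝ) < i := by exact_mod_cast hi
      rw [div_le_iff₀ (by positivity)]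
      refine (hbd i).2.trans (le_of_eq ?_)
      field_simp
  -- the exponent
  have hexp : ∀ᶠ i : ℕ in atTop, (u i + u i ^ 2) * LL2 c i ≤ (1 - η) * (i * Real.log 2) := by
    have h1 : Tendsto (fun i : ℕ => ((1 + δ) + (1 + δ) * u i) * ((LL2 c i : ℝ) / ((i : ℝ) * Real.log 2) ^ 2)) atTop
        (𝓝 (((1 + δ) + (1 + δ) * 0) * c)) := ((hu0.const_mul (1 + δ)).const_add (1 + δ)).mul hratio
    have h2 : ((1 + δ) + (1 + δ) * 0) * c < 1 - η := by
      rw [hδ, hη]
      nlinarith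
    filter_upwards [h1.eventually (gt_mem_nhds h2), eventually_gt_atTop 0] with i h3 h4
    have hi0 : (0 : ℝ) < i := by exact_mod_cast h4
    have h5 : (u i + u i ^ 2) * LL2 c i = ((1 + δ) + (1 + δ) * u i) * ((LL2 c i : ℝ) / ((i : ℝ) * Real.log 2) ^ 2) * (i * Real.log 2) := by
      simp only [hu]
      field_simp
    rw [h5]
    exact mul_le_mul_of_nonneg_right h3.le (by positivity)
  -- the number of blocks
  have hnum : ∀ᶠ i : ℕ in atTop, (i : ℝ) ≤ Real.exp (-((1 - η) * (i * Real.log 2))) * ((2 ^ i / LL2 c i : ℕ) : ℝ) := by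
    have h1 : Tendsto (fun i : ℕ => ((i : ℝ) + 1) ^ 4 / Real.exp (η * (i * Real.log 2))) atTop (𝓝 0) := by
      have h2 : Tendsto (fun x : ℝ => x ^ 4 / Real.exp ((η * Real.log 2) * x)) atTop (𝓝 0) := by
        have := (isLittleO_pow_exp_pos_mul_atTop 4 (show 0 < η * Real.log 2 by positivity)).tendsto_div_nhds_zero
        exact this
      have h3 := (h2.comp (tendsto_atTop_add_const_right _ (1 : ℝ) hcast)).const_mul (Real.exp (η * Real.log 2))
      rw [mul_zero] at h3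
      refine h3.congr fun i => ?_
      simp only [Function.comp_apply]
      rw [show η * Real.log 2 * ((i : ℝ) + 1) = η * (i * Real.log 2) + η * Real.log 2 by ring, Real.exp_add]
      field_simp
    have h4 : ∀ᶠ i : ℕ in atTop, (LL2 c i : ℝ) ≤ 2 * ((i : ℝ) + 1) ^ 2 := by
      have h5 := hratio.eventually (gt_mem_nhds (show c < 1 by exact hc1))
      filter_upwards [h5, eventually_gt_atTop 0] with i h6 h7
      have hi0 : (0 : ℝ) < i := by exact_mod_cast h7
      rw [div_lt_one (by positivity)] at h6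
      have h8 : Real.log 2 ≤ 1 := by have := Real.log_two_lt_d9; linarith
      have h9 : ((i : ℝ) * Real.log 2) ^ 2 ≤ (i * 1) ^ 2 := pow_le_pow_left₀ (by positivity) (mul_le_mul_of_nonneg_left h8 hi0.le) 2
      nlinarith
    filter_upwards [h1.eventually (gt_mem_nhds (show (0 : ℝ) < 1 / 4 by norm_num)), h4, eventually_gt_atTop 0] with i h5 h6 h7
    have hi0 : (0 : ℝ) < i := by exact_mod_cast h7
    have hLpos : (0 : ℝ) < LL2 c i := by exact_mod_cast Nat.succ_pos _
    have h8 : (2 : ℝ) ^ i = Real.exp (i * Real.log 2) := by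
      rw [Real.exp_nat_mul, Real.exp_log (by norm_num)]
    have h9 : (2 : ℝ) ^ i / LL2 c i - 1 ≤ ((2 ^ i / LL2 c i : ℕ) : ℝ) := by
      have := Nat.lt_mul_div_succ (2 ^ i) (show 0 < LL2 c i from Nat.succ_pos _)
      have h10 : (2 : ℝ) ^ i < LL2 c i * (((2 ^ i / LL2 c i : ℕ) : ℝ) + 1) := by exact_mod_cast this
      rw [sub_le_iff_le_add, div_le_iff₀ hLpos]
      linarith
    have h10 : Real.exp (-((1 - η) * (i * Real.log 2))) ≤ 1 := by
      apply Real.exp_le_one_iff.2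
      have : 0 ≤ (1 - η) * (i * Real.log 2) := by
        have : 0 < 1 - η := by rw [hη]; linarith
        positivity
      linarith
    have h11 : Real.exp (-((1 - η) * (i * Real.log 2))) * ((2 : ℝ) ^ i / LL2 c i - 1) ≥ (i : ℝ) := by
      have e1 : Real.exp (-((1 - η) * (i * Real.log 2))) * ((2 : ℝ) ^ i / LL2 c i) = Real.exp (η * (i * Real.log 2)) / LL2 c i := by
        rw [h8, ← mul_div_assoc, ← Real.exp_add]
        congr 2
        ring
      rw [mul_sub, e1, mul_one]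
      rw [div_lt_iff₀ (Real.exp_pos _)] at h5
      have e2 : (i : ℝ) + 1 ≤ Real.exp (η * (i * Real.log 2)) / LL2 c i := by
        rw [le_div_iff₀ hLpos]
        have e3 : ((i : ℝ) + 1) * LL2 c i ≤ 2 * ((i : ℝ) + 1) ^ 3 := by nlinarith
        have e4 : 2 * ((i : ℝ) + 1) ^ 3 ≤ 4 * ((i : ℝ) + 1) ^ 4 := by
          have : 0 < ((i : ℝ) + 1) ^ 3 := by positivity
          nlinarith
        linarith
      linarith
    refine h11.le.trans ?_
    exact mul_le_mul_of_nonneg_left h9 (Real.exp_pos _).le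
  filter_upwards [hexp, hnum, hu0.eventually (gt_mem_nhds (show (0 : ℝ) < 1 / 2 by norm_num)), eventually_gt_atTop 0]
    with i h1 h2 h3 h4
  have hi0 : (0 : ℝ) < i := by exact_mod_cast h4
  have hu1 : 0 ≤ u i := by simp only [hu]; positivity
  refine ⟨hu1, h3.le, h2.trans (mul_le_mul_of_nonneg_right ?_ (Nat.cast_nonneg _))⟩
  have h5 : Real.exp (-(u i + u i ^ 2)) ≤ 1 - u i := by
    have h6 := Real.quadratic_le_exp_of_nonneg (show 0 ≤ u i + u i ^ 2 by positivity)
    have h7 : 0 ≤ 1 - u i := by linarith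
    have h8 : 1 ≤ (1 - u i) * (1 + (u i + u i ^ 2) + (u i + u i ^ 2) ^ 2 / 2) := by
      have h9 : (1 - u i) * (1 + (u i + u i ^ 2) + (u i + u i ^ 2) ^ 2 / 2) - 1 = u i ^ 2 * ((1 - u i) * (1 + u i) ^ 2 - 2 * u i) / 2 := by ring
      have h10 : 0 ≤ (1 - u i) * (1 + u i) ^ 2 - 2 * u i := by nlinarith [mul_nonneg hu1 hu1]
      have : 0 ≤ u i ^ 2 * ((1 - u i) * (1 + u i) ^ 2 - 2 * u i) / 2 := by positivity
      linarith
    have h9 : 1 ≤ (1 - u i) * Real.exp (u i + u i ^ 2) := h8.trans (mul_le_mul_of_nonneg_left h6 h7)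
    rw [Real.exp_neg, ← one_div, div_le_iff₀ (Real.exp_pos _)]
    exact h9
  calc Real.exp (-((1 - η) * (i * Real.log 2))) ≤ Real.exp (-((u i + u i ^ 2) * LL2 c i)) := Real.exp_le_exp.2 (by linarith)
    _ = (Real.exp (-(u i + u i ^ 2))) ^ (LL2 c i) := by
        rw [← Real.exp_nat_mul]
        congr 1
        ring
    _ ≤ _ := pow_le_pow_left₀ (Real.exp_pos _).le h5 _

/-- long runs of absent integers at every scale -/
theorem runs_ev (hA : ∀ n, MeasurableSet[ℱ n] (A n))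
    (hd : ∀ᵐ ω ∂μ, Tendsto (fun n : ℕ => dens μ ℱ A n ω * Real.log n) atTop (𝓝 1)) {c : ℝ} (hc0 : 0 < c) (hc1 : c < 1) :
    ∀ᵐ ω ∂μ, ∀ᶠ i : ℕ in atTop, ∃ s : ℕ, 2 ^ i ≤ s ∧ s + LL2 c i ≤ 2 ^ (i + 1) ∧
      ∀ n, s < n → n ≤ s + LL2 c i → ω ∉ A n := by
  obtain ⟨δ, hδ, han⟩ := runs_anal hc0 hc1
  have hl2 := log2pos
  set s : ℕ → ℕ → ℕ := fun i k => 2 ^ i + k * LL2 c i with hs
  set K : ℕ → ℕ := fun i => 2 ^ i / LL2 c i with hK
  have hLpos : ∀ i, 0 < LL2 c i := fun i => Nat.succ_pos _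
  have hsK : ∀ i k, k < K i → s i k + LL2 c i ≤ 2 ^ (i + 1) := by
    intro i k hk
    have h1 : K i * LL2 c i ≤ 2 ^ i := Nat.div_mul_le_self _ _
    have h2 : (k + 1) * LL2 c i ≤ K i * LL2 c i := Nat.mul_le_mul_right _ hk
    simp only [hs]
    rw [pow_succ]
    nlinarith
  set V := VF μ ℱ A δ with hV
  have hVm : ∀ n, MeasurableSet[ℱ n] (V n) := fun n => VF_meas δ n
  have hsum : Summable (fun i : ℕ => Real.exp (-(i : ℝ))) := Real.summable_exp_neg_nat
  have hb : ∀ᶠ i in atTop, μ.real (NB A V (s i) (LL2 c i) (K i)) ≤ Real.exp (-(i : ℝ)) := by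
    filter_upwards [han, eventually_gt_atTop 0] with i hi hi0
    obtain ⟨h1, h2, h3⟩ := hi
    have hi0' : (0 : ℝ) < i := by exact_mod_cast hi0
    set u : ℝ := (1 + δ) / (i * Real.log 2) with hu
    have hq1 : (1 - u) ^ (LL2 c i) ≤ 1 := pow_le_one₀ (by linarith) (by linarith)
    have hq0 : 0 ≤ (1 - u) ^ (LL2 c i) := pow_nonneg (by linarith) _
    have h4 := NB_le' (μ := μ) hA hVm (s i) (LL2 c i) (fun k => by simp only [hs]; nlinarith) hq1 (K i) (by
      intro k hk B hB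
      have h5 := NA_ge (μ := μ) hA hVm (fun _ => u) (fun _ => h1) (fun _ => by linarith) (LL2 c i) (s i k) (by
        intro n hn1 hn2
        right
        intro ω hω
        have hω' : |dens μ ℱ A n ω * Real.log n - 1| ≤ δ := by
          by_contra hcon
          exact hω hcon
        have h6 := (abs_le.1 hω').2
        have h7 : (i : ℝ) * Real.log 2 ≤ Real.log n := by
          rw [← Real.log_pow]
          apply Real.log_le_log (by positivity)
          have : 2 ^ i ≤ n := by simp only [hs] at hn1; omega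
          exact_mod_cast this
        have h8 : 0 < (i : ℝ) * Real.log 2 := by positivity
        rw [hu, le_div_iff₀ h8]
        rcases le_or_gt 0 (dens μ ℱ A n ω) with h9 | h9
        · nlinarith
        · nlinarith) B hB
      rwa [Finset.prod_const, Nat.card_Ico, Nat.add_sub_cancel_left] at h5)
    refine h4.trans ?_
    have h5 : 1 - (1 - u) ^ (LL2 c i) ≤ Real.exp (-(1 - u) ^ (LL2 c i)) := by
      have := Real.add_one_le_exp (-(1 - u) ^ (LL2 c i))
      linarith
    calc (1 - (1 - u) ^ (LL2 c i)) ^ (K i) ≤ (Real.exp (-(1 - u) ^ (LL2 c i))) ^ (K i) := pow_le_pow_left₀ (by linarith) h5 _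
      _ = Real.exp (-((1 - u) ^ (LL2 c i) * K i)) := by
          rw [← Real.exp_nat_mul]
          congr 1
          ring
      _ ≤ _ := Real.exp_le_exp.2 (by linarith)
  filter_upwards [bc_real (μ := μ) hsum hb, hd] with ω hω hdω
  obtain ⟨n₀, hn₀⟩ := no_VF hdω hδ
  have hp : Tendsto (fun i : ℕ => 2 ^ i : ℕ → ℕ) atTop atTop := tendsto_pow_atTop_atTop_of_one_lt (by norm_num)
  filter_upwards [hω, hp.eventually_ge_atTop n₀] with i hi hi2
  obtain ⟨k, hk, hk2⟩ := not_NB hi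
  refine ⟨s i k, by simp only [hs]; omega, hsK i k hk, ?_⟩
  rcases hk2 with h | h
  · exact h
  · obtain ⟨n, h1, _, h3⟩ := h
    exact absurd h3 (hn₀ n (by simp only [hs] at h1; omega))

/-- no long run of absent integers -/
theorem norun_ev (hA : ∀ n, MeasurableSet[ℱ n] (A n))
    (hd : ∀ᵐ ω ∂μ, Tendsto (fun n : ℕ => dens μ ℱ A n ω * Real.log n) atTop (𝓝 1)) {lam : ℝ} (hlam : 1 < lam) :
    ∀ᵐ ω ∂μ, ∀ᶠ x : ℕ in atTop, ∃ n, x < n ∧ n ≤ x + wl lam x ∧ ω ∈ A n := by
  classical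
  -- a small `s`
  obtain ⟨s, hs0, hs1, hs⟩ : ∃ s : ℝ, 0 < s ∧ s ≤ 1 ∧ 1 < lam * II s := by
    have h1 : Tendsto (fun s : ℝ => lam * II s) (𝓝 0) (𝓝 (lam * II 0)) := by
      have : Continuous II := by
        unfold II
        exact (Real.continuous_mul_log.sub continuous_id).add continuous_const
      exact (this.tendsto 0).const_mul lam
    have h2 : lam * II 0 = lam := by simp [II]
    rw [h2] at h1
    have h3 := (h1.mono_left (nhdsWithin_le_nhds (s := Ioi 0))).eventually (lt_mem_nhds hlam)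
    have h4 : ∀ᶠ s : ℝ in 𝓝[>] 0, s ≤ 1 := by
      have : ∀ᶠ s : ℝ in 𝓝 0, s ≤ 1 := eventually_le_nhds (by norm_num)
      exact this.filter_mono nhdsWithin_le_nhds
    have h5 : ∀ᶠ s : ℝ in 𝓝[>] 0, 0 < s := self_mem_nhdsWithin
    obtain ⟨s, h6, h7, h8⟩ := (h3.and (h4.and h5)).exists
    exact ⟨s, h8, h7, h6⟩
  have h1 := er_tail (μ := μ) hA hd (lam := lam) (by linarith) hs0 hs (fun x => if 1 ≤ x then {0} else ∅) (by
    intro x k hk
    split_ifs at hk with hx
    · have hk0 : k = 0 := hk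
      rw [hk0, pow_zero]
      apply Real.rpow_le_one hs0.le hs1
      have := Real.log_natCast_nonneg x
      positivity
    · exact absurd hk (Set.notMem_empty _))
  filter_upwards [h1] with ω hω
  filter_upwards [hω, eventually_ge_atTop 1] with x hx hx1
  rw [if_pos hx1] at hx
  by_contra hno
  push Not at hno
  apply hx
  show cnt A x (wl lam x) ω = 0
  unfold cnt
  refine Finset.sum_eq_zero fun r hr => ?_
  have := Finset.mem_range.1 hr
  rw [if_neg (hno (x + 1 + r) (by omega) (by omega))]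

lemma ag_meas (hA : ∀ n, MeasurableSet[ℱ n] (A n)) (n : ℕ) : Measurable[ℱ n] (fun ω => ag (rset A ω) n) ∧
    Measurable[ℱ n] (fun ω => mx (rset A ω) n) := by
  classical
  induction n with
  | zero =>
    simp only [ag, mx]
    exact ⟨@measurable_const _ _ _ (ℱ 0) _, @measurable_const _ _ _ (ℱ 0) _⟩
  | succ n ih =>
    obtain ⟨ih1, ih2⟩ := ih
    have hle : ℱ n ≤ ℱ (n + 1) := ℱ.mono (Nat.le_succ n)
    have h1 : Measurable[ℱ (n + 1)] (fun ω => ag (rset A ω) n) := ih1.mono hle le_rfl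
    have h2 : Measurable[ℱ (n + 1)] (fun ω => mx (rset A ω) n) := ih2.mono hle le_rfl
    have h3 : Measurable[ℱ (n + 1)] (fun ω => ag (rset A ω) n + 1) := (measurable_from_nat (f := fun m : ℕ => m + 1)).comp h1
    have h4 : Measurable[ℱ (n + 1)] (fun ω => max (mx (rset A ω) n) (ag (rset A ω) n + 1)) :=
      Measurable.max h2 h3
    constructor
    · have : (fun ω => ag (rset A ω) (n + 1)) = fun ω => if ω ∈ A (n + 1) then 0 else ag (rset A ω) n + 1 := by
        funext ω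
        simp only [ag]
        rfl
      rw [this]
      exact @Measurable.ite _ _ _ _ (ℱ (n + 1)) _ _ _ (hA (n + 1)) (@measurable_const _ _ _ (ℱ (n + 1)) _) h3
    · have : (fun ω => mx (rset A ω) (n + 1)) = fun ω => if ω ∈ A (n + 1) then max (mx (rset A ω) n) (ag (rset A ω) n + 1) else mx (rset A ω) n := by
        funext ω
        simp only [mx]
        rfl
      rw [this]
      exact @Measurable.ite _ _ _ _ (ℱ (n + 1)) _ _ _ (hA (n + 1)) h4 h2

/-- the indicator of the record mode -/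
noncomputable def wr (A : ℕ → Set Ω) (n : ℕ) (ω : Ω) : ℝ :=
  {ω | mx (rset A ω) n ≤ ag (rset A ω) n}.indicator (fun _ => (1 : ℝ)) ω

lemma wr_meas (hA : ∀ n, MeasurableSet[ℱ n] (A n)) (n : ℕ) : StronglyMeasurable[ℱ n] (wr A n) := by
  have h1 : MeasurableSet[ℱ n] {ω | mx (rset A ω) n ≤ ag (rset A ω) n} :=
    measurableSet_le (ag_meas hA n).2 (ag_meas hA n).1
  exact stronglyMeasurable_const.indicator h1

lemma wr_01 (n : ℕ) (ω : Ω) : 0 ≤ wr A n ω ∧ wr A n ω ≤ 1 :=
  ⟨indicator_nonneg (fun _ _ => zero_le_one) _, indicator_le_self' (fun _ _ => zero_le_one) _⟩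

/-- the law of large numbers along the powers of two -/
theorem lln_dyadic (hA : ∀ n, MeasurableSet[ℱ n] (A n)) (w : ℕ → Ω → ℝ)
    (hw : ∀ k, StronglyMeasurable[ℱ k] (w k)) (hw01 : ∀ k ω, 0 ≤ w k ω ∧ w k ω ≤ 1) :
    ∀ᵐ ω ∂μ, ∀ m : ℕ, ∀ᶠ j : ℕ in atTop,
      |Sw μ ℱ A 0 w (2 ^ j) ω| < (1 / ((m : ℝ) + 1)) * Vw μ ℱ A 0 w (2 ^ j) ω + 2 * Real.log j / (1 / ((m : ℝ) + 1)) := by
  rw [ae_all_iff]
  intro m
  have hs : Summable (fun j : ℕ => 2 * ((j : ℝ) ^ 2)⁻¹) := (Real.summable_nat_pow_inv.2 (by norm_num)).mul_left 2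
  have h := bc_real (μ := μ) hs (s := fun j => {ω | (1 / ((m : ℝ) + 1)) * Vw μ ℱ A 0 w (2 ^ j) ω + 2 * Real.log j / (1 / ((m : ℝ) + 1)) ≤
    |Sw μ ℱ A 0 w (2 ^ j) ω|}) (by
    filter_upwards [eventually_gt_atTop 0] with j hj
    have hj0 : (0 : ℝ) < j := by exact_mod_cast hj
    have h1 := Cw_tail (μ := μ) hA 0 w (fun k => by rw [zero_add]; exact hw k) hw01 (s := 1 / ((m : ℝ) + 1)) (by positivity)
      (by rw [div_le_one (by positivity)]; linarith [Nat.cast_nonneg (α := ℝ) m]) (2 ^ j) (2 * Real.log j)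
    refine h1.trans (le_of_eq ?_)
    congr 1
    rw [Real.exp_neg, ← Real.exp_log (show (0 : ℝ) < (j : ℝ) ^ 2 by positivity), Real.log_pow]
    norm_num)
  filter_upwards [h] with ω hω
  filter_upwards [hω] with j hj
  exact not_le.1 hj

end Pool.Agent.R528.RM
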