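import Mathlib
import Pool.Agent.R528.RM.Rec1

set_option autoImplicit false
set_option linter.unusedSectionVars false

/-! # Maximal gaps in random models: the number of maximal gaps -/

open MeasureTheory Filter Set
open scoped ENNReal Topology

namespace Pool.Agent.R528.RM

lemma wl_mono {lam : ℝ} (hlam : 0 ≤ lam) {a b : ℕ} (h : a ≤ b) : wl lam a ≤ wl lam b := by
  unfold wl
  apply Nat.floor_le_floor
  apply mul_le_mul_of_nonneg_left _ hlam
  rcases Nat.eq_zero_or_pos a with ha | ha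
  · rw [ha]
    simp
    positivity
  · exact pow_le_pow_left₀ (Real.log_natCast_nonneg a) (Real.log_le_log (by exact_mod_cast ha) (by exact_mod_cast h)) 2

/-- the upper bound of the running maximum -/
lemma HH_upper {S : Set ℕ} {lam : ℝ} (hlam : 1 < lam) (h : ∀ᶠ x : ℕ in atTop, ∃ n, x < n ∧ n ≤ x + wl lam x ∧ n ∈ S) :
    ∃ B : ℕ, ∀ᶠ n : ℕ in atTop, HH S n ≤ max B (wl lam n + 1) := by
  classical
  obtain ⟨X₀, hX₀⟩ := eventually_atTop.1 h
  set X₁ := X₀ + wl lam X₀ + 1 with hX₁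
  have hag : ∀ n, X₁ ≤ n → ag S n ≤ wl lam n := by
    intro n hn
    set a := n - ag S n with ha
    have hale := ag_le S n
    rcases Nat.lt_or_ge a X₀ with h1 | h1
    · exfalso
      obtain ⟨m, h2, h3, h4⟩ := hX₀ X₀ le_rfl
      exact ag_empty S n m (by omega) (by omega) h4
    · obtain ⟨m, h2, h3, h4⟩ := hX₀ a h1
      have h5 : n < m := by
        by_contra hcon
        exact ag_empty S n m (by omega) (by omega) h4
      have h6 : wl lam a ≤ wl lam n := wl_mono (by linarith) (by omega)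
      omega
  refine ⟨HH S X₁, ?_⟩
  filter_upwards [eventually_ge_atTop X₁] with n hn
  induction n, hn using Nat.le_induction with
  | base => exact le_max_left _ _
  | succ n hn ih =>
    have h1 := HH_succ S n
    have h2 : wl lam n ≤ wl lam (n + 1) := wl_mono (by linarith) (by omega)
    rw [h1]
    split_ifs with h3
    · have h4 : HH S n = ag S n := max_eq_right h3
      have h5 := hag n hn
      refine le_max_of_le_right ?_
      omega
    · rcases le_max_iff.1 ih with h4 | h4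
      · exact le_max_of_le_left (by omega)
      · exact le_max_of_le_right (by omega)

/-- the lower bound of the running maximum -/
lemma HH_lower {S : Set ℕ} {c : ℝ} (hc0 : 0 < c) (h : ∀ᶠ i : ℕ in atTop, ∃ s : ℕ, 2 ^ i ≤ s ∧ s + LL2 c i ≤ 2 ^ (i + 1) ∧
      ∀ n, s < n → n ≤ s + LL2 c i → n ∉ S) :
    ∀ᶠ n : ℕ in atTop, c * Real.log n ^ 2 ≤ HH S n := by
  obtain ⟨i₀, hi₀⟩ := eventually_atTop.1 h
  filter_upwards [eventually_ge_atTop (2 ^ (i₀ + 2))] with n hn
  have hn0 : n ≠ 0 := by have : 0 < 2 ^ (i₀ + 2) := by positivity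
                         omega
  have h1 : i₀ + 2 ≤ Nat.log 2 n := Nat.le_log_of_pow_le (by norm_num) hn
  obtain ⟨i, hi⟩ : ∃ i, Nat.log 2 n = i + 1 := ⟨Nat.log 2 n - 1, by omega⟩
  have h2 : 2 ^ (i + 1) ≤ n := by rw [← hi]; exact Nat.pow_log_le_self 2 hn0
  have h3 : n < 2 ^ (i + 2) := by
    have := Nat.lt_pow_succ_log_self (show 1 < 2 by norm_num) n
    rwa [hi] at this
  obtain ⟨s, h4, h5, h6⟩ := hi₀ i (by omega)
  have h7 := le_ag (S := S) (s := s) (n := s + LL2 c i) (by omega) h6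
  have h8 : LL2 c i ≤ HH S n := by
    have h9 : ag S (s + LL2 c i) ≤ HH S (s + LL2 c i) := le_max_right _ _
    have h10 : HH S (s + LL2 c i) ≤ HH S n := HH_mono S (by omega)
    omega
  have h9 : Real.log n ≤ ((i : ℝ) + 3) * Real.log 2 := by
    have h10 : (n : ℝ) ≤ 2 ^ (i + 2) := by exact_mod_cast h3.le
    have h11 := Real.log_le_log (by exact_mod_cast Nat.pos_of_ne_zero hn0) h10
    rw [Real.log_pow] at h11
    push_cast at h11
    have := log2pos
    nlinarith
  have h10 : c * (((i : ℝ) + 3) * Real.log 2) ^ 2 ≤ LL2 c i := by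
    unfold LL2
    push_cast
    exact (Nat.lt_floor_add_one _).le
  calc c * Real.log n ^ 2 ≤ c * (((i : ℝ) + 3) * Real.log 2) ^ 2 :=
        mul_le_mul_of_nonneg_left (pow_le_pow_left₀ (Real.log_natCast_nonneg n) h9 2) hc0.le
    _ ≤ LL2 c i := h10
    _ ≤ _ := by exact_mod_cast h8

/-- the running maximum is asymptotic to `log² n` -/
theorem HH_lim {S : Set ℕ}
    (h1 : ∀ m : ℕ, ∀ᶠ x : ℕ in atTop, ∃ n, x < n ∧ n ≤ x + wl (1 + 1 / ((m : ℝ) + 1)) x ∧ n ∈ S)
    (h2 : ∀ m : ℕ, ∀ᶠ i : ℕ in atTop, ∃ s : ℕ, 2 ^ i ≤ s ∧ s + LL2 (1 - 1 / ((m : ℝ) + 2)) i ≤ 2 ^ (i + 1) ∧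
      ∀ n, s < n → n ≤ s + LL2 (1 - 1 / ((m : ℝ) + 2)) i → n ∉ S) :
    Tendsto (fun n : ℕ => (HH S n : ℝ) / Real.log n ^ 2) atTop (𝓝 1) := by
  have hsq : Tendsto (fun n : ℕ => Real.log (n : ℝ) ^ 2) atTop atTop := (tendsto_pow_atTop (by norm_num)).comp tendsto_log
  rw [tendsto_order]
  constructor
  · intro b hb
    obtain ⟨m, hm⟩ : ∃ m : ℕ, b < 1 - 1 / ((m : ℝ) + 2) := by
      obtain ⟨m, hm⟩ := exists_nat_gt (1 / (1 - b))
      refine ⟨m, ?_⟩
      have h3 : 0 < 1 - b := by linarith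
      rw [div_lt_iff₀ h3] at hm
      have h4 : 1 / ((m : ℝ) + 2) < 1 - b := by
        rw [div_lt_iff₀ (by positivity)]
        nlinarith
      linarith
    have hc : 0 < 1 - 1 / ((m : ℝ) + 2) := by
      have : 1 / ((m : ℝ) + 2) ≤ 1 / 2 := one_div_le_one_div_of_le (by norm_num) (by linarith [Nat.cast_nonneg (α := ℝ) m])
      linarith
    filter_upwards [HH_lower hc (h2 m), hsq.eventually_gt_atTop 0] with n h3 h4
    rw [lt_div_iff₀ h4]
    exact lt_of_lt_of_le (mul_lt_mul_of_pos_right hm h4) h3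
  · intro b hb
    obtain ⟨m, hm⟩ : ∃ m : ℕ, 1 + 1 / ((m : ℝ) + 1) < b := by
      obtain ⟨m, hm⟩ := exists_nat_gt (1 / (b - 1))
      refine ⟨m, ?_⟩
      have h3 : 0 < b - 1 := by linarith
      rw [div_lt_iff₀ h3] at hm
      have h4 : 1 / ((m : ℝ) + 1) < b - 1 := by
        rw [div_lt_iff₀ (by positivity)]
        nlinarith
      linarith
    obtain ⟨B, hB⟩ := HH_upper (by have : 0 < 1 / ((m : ℝ) + 1) := by positivity
                                   linarith) (h1 m)
    have h5 : ∀ᶠ n : ℕ in atTop, (B : ℝ) < b * Real.log n ^ 2 := by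
      have := (hsq.const_mul_atTop (show 0 < b by linarith)).eventually_gt_atTop (B : ℝ)
      exact this
    have h6 : ∀ᶠ n : ℕ in atTop, (1 : ℝ) < (b - (1 + 1 / ((m : ℝ) + 1))) * Real.log n ^ 2 := by
      have := (hsq.const_mul_atTop (show 0 < b - (1 + 1 / ((m : ℝ) + 1)) by linarith)).eventually_gt_atTop (1 : ℝ)
      exact this
    filter_upwards [hB, h5, h6, hsq.eventually_gt_atTop 0] with n h7 h8 h9 h10
    rw [div_lt_iff₀ h10]
    have h11 : (HH S n : ℝ) ≤ max (B : ℝ) ((wl (1 + 1 / ((m : ℝ) + 1)) n : ℝ) + 1) := by exact_mod_cast h7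
    refine lt_of_le_of_lt h11 (max_lt h8 ?_)
    have h12 : (wl (1 + 1 / ((m : ℝ) + 1)) n : ℝ) ≤ (1 + 1 / ((m : ℝ) + 1)) * Real.log n ^ 2 := Nat.floor_le (by positivity)
    linarith

/-- sums of terms asymptotic to `1 / k` -/
lemma sum_log {a : ℕ → ℝ} (ha : Tendsto (fun k : ℕ => a k * k) atTop (𝓝 1)) :
    Tendsto (fun n : ℕ => (∑ k ∈ Finset.range n, a k) / Real.log n) atTop (𝓝 1) := by
  set g : ℕ → ℝ := fun k => 1 / ((k : ℝ) + 1) with hg
  have hg0 : 0 ≤ g := fun k => by simp only [hg, Pi.zero_apply]; positivity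
  have hH : ∀ n : ℕ, ∑ k ∈ Finset.range n, g k = (harmonic n : ℝ) := by
    intro n
    simp only [harmonic, hg, Rat.cast_sum, Rat.cast_inv, one_div]
    refine Finset.sum_congr rfl fun k _ => ?_
    push_cast
    rfl
  have hHlog : Tendsto (fun n : ℕ => (∑ k ∈ Finset.range n, g k) / Real.log n) atTop (𝓝 1) := by
    have h1 := Real.tendsto_harmonic_sub_log
    have h2 := h1.div_atTop tendsto_log
    have h3 : Tendsto (fun n : ℕ => ((harmonic n : ℝ) - Real.log n) / Real.log n + 1) atTop (𝓝 (0 + 1)) := h2.add_const 1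
    rw [zero_add] at h3
    refine h3.congr' ?_
    filter_upwards [tendsto_log.eventually_gt_atTop 0] with n hn
    rw [hH]
    field_simp
    ring
  have hgsum : Tendsto (fun n : ℕ => ∑ k ∈ Finset.range n, g k) atTop atTop := by
    have h1 := hHlog.pos_mul_atTop one_pos tendsto_log
    refine h1.congr' ?_
    filter_upwards [tendsto_log.eventually_gt_atTop 0] with n hn
    field_simp
  have hlit : (fun k => a k - g k) =o[atTop] g := by
    rw [Asymptotics.isLittleO_iff_tendsto' (by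
      filter_upwards with k hk
      exact absurd hk (by simp only [hg]; positivity))]
    have h1 : Tendsto (fun k : ℕ => a k * k + a k * k * (1 / (k : ℝ)) - 1) atTop (𝓝 (1 + 1 * 0 - 1)) :=
      (ha.add (ha.mul tendsto_one_div_atTop_nhds_zero_nat)).sub_const 1
    rw [show (1 : ℝ) + 1 * 0 - 1 = 0 by norm_num] at h1
    refine h1.congr' ?_
    filter_upwards [eventually_gt_atTop 0] with k hk
    have : (0 : ℝ) < k := by exact_mod_cast hk
    simp only [hg]
    field_simp
  have hs := hlit.sum_range hg0 hgsum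
  have h1 := hs.tendsto_div_nhds_zero
  have h2 : Tendsto (fun n : ℕ => ((∑ k ∈ Finset.range n, (a k - g k)) / (∑ k ∈ Finset.range n, g k) + 1) *
      ((∑ k ∈ Finset.range n, g k) / Real.log n)) atTop (𝓝 ((0 + 1) * 1)) := (h1.add_const 1).mul hHlog
  rw [zero_add, one_mul] at h2
  refine h2.congr' ?_
  filter_upwards [hgsum.eventually_gt_atTop 0, tendsto_log.eventually_gt_atTop 0] with n h3 h4
  rw [Finset.sum_sub_distrib]
  field_simp
  ring

/-- summation by parts -/
lemma abel_log {C : ℕ → ℝ} (hC : Tendsto (fun n : ℕ => C n / Real.log n ^ 2) atTop (𝓝 1)) :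
    Tendsto (fun n : ℕ => (∑ k ∈ Finset.range n, (C (k + 1) - C k) / Real.log k) / Real.log n) atTop (𝓝 2) := by
  set f : ℕ → ℝ := fun k => 1 / Real.log k with hf
  have hparts : ∀ n, ∑ k ∈ Finset.range n, (C (k + 1) - C k) / Real.log k =
      C n * f n - C 0 * f 0 + ∑ k ∈ Finset.range n, C (k + 1) * (f k - f (k + 1)) := by
    intro n
    induction n with
    | zero => simp
    | succ n ih =>
      rw [Finset.sum_range_succ, ih, Finset.sum_range_succ]
      simp only [hf]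
      ring
  have h1 : Tendsto (fun n : ℕ => C n * f n / Real.log n) atTop (𝓝 1) := by
    refine hC.congr fun n => ?_
    simp only [hf]
    rw [sq, ← div_div]
    ring
  have h2 : Tendsto (fun n : ℕ => C 0 * f 0 / Real.log n) atTop (𝓝 0) := tendsto_const_nhds.div_atTop tendsto_log
  have h3 : Tendsto (fun n : ℕ => (∑ k ∈ Finset.range n, C (k + 1) * (f k - f (k + 1))) / Real.log n) atTop (𝓝 1) := by
    apply sum_log
    -- `k (log (k+1) - log k) → 1`
    have h4 : Tendsto (fun k : ℕ => (k : ℝ) * Real.log (1 + 1 / k)) atTop (𝓝 1) := by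
      have := (Real.tendsto_mul_log_one_add_div_atTop 1).comp (tendsto_natCast_atTop_atTop (R := ℝ))
      exact this
    have h5 : Tendsto (fun k : ℕ => C (k + 1) / Real.log ((k + 1 : ℕ) : ℝ) ^ 2) atTop (𝓝 1) := hC.comp (tendsto_add_atTop_nat 1)
    have h6 : Tendsto (fun k : ℕ => Real.log ((k + 1 : ℕ) : ℝ) / Real.log k) atTop (𝓝 1) := by
      have h7 : Tendsto (fun k : ℕ => 1 + Real.log (1 + 1 / (k : ℝ)) / Real.log k) atTop (𝓝 (1 + 0)) := by
        apply Tendsto.const_add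
        have h8 : Tendsto (fun k : ℕ => Real.log (1 + 1 / (k : ℝ))) atTop (𝓝 0) := by
          have h9 : Tendsto (fun k : ℕ => 1 + 1 / (k : ℝ)) atTop (𝓝 (1 + 0)) := tendsto_one_div_atTop_nhds_zero_nat.const_add 1
          rw [add_zero] at h9
          have := (Real.continuousAt_log one_ne_zero).tendsto.comp h9
          rwa [Real.log_one] at this
        exact h8.div_atTop tendsto_log
      rw [add_zero] at h7
      refine h7.congr' ?_
      filter_upwards [eventually_gt_atTop 0, tendsto_log.eventually_gt_atTop 0] with k hk hlk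
      have hk0 : (0 : ℝ) < k := by exact_mod_cast hk
      have : Real.log ((k + 1 : ℕ) : ℝ) = Real.log k + Real.log (1 + 1 / k) := by
        rw [← Real.log_mul (by positivity) (by positivity)]
        congr 1
        push_cast
        field_simp
      rw [this]
      field_simp
    have h7 : Tendsto (fun k : ℕ => C (k + 1) / Real.log ((k + 1 : ℕ) : ℝ) ^ 2 * (Real.log ((k + 1 : ℕ) : ℝ) / Real.log k) *
        ((k : ℝ) * Real.log (1 + 1 / k))) atTop (𝓝 (1 * 1 * 1)) := (h5.mul h6).mul h4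
    rw [one_mul, one_mul] at h7
    refine h7.congr' ?_
    filter_upwards [eventually_gt_atTop 0, tendsto_log.eventually_gt_atTop 0,
      (tendsto_log.comp (tendsto_add_atTop_nat 1)).eventually_gt_atTop 0] with k hk hlk hlk1
    have hk0 : (0 : ℝ) < k := by exact_mod_cast hk
    have e1 : Real.log (1 + 1 / (k : ℝ)) = Real.log ((k + 1 : ℕ) : ℝ) - Real.log k := by
      rw [← Real.log_div (by positivity) (by positivity)]
      congr 1
      push_cast
      field_simp
    simp only [Function.comp_apply] at hlk1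
    simp only [hf]
    rw [e1]
    field_simp
  have h4 := (h1.sub h2).add h3
  rw [show (1 : ℝ) - 0 + 1 = 2 by norm_num] at h4
  refine h4.congr fun n => ?_
  rw [hparts]
  ring

/-- interpolation between powers of two -/
lemma interp_pow {f : ℕ → ℝ} (hf : Monotone f) (hf0 : ∀ n, 0 ≤ f n) {L : ℝ}
    (h : Tendsto (fun j : ℕ => f (2 ^ j) / Real.log ((2 ^ j : ℕ) : ℝ)) atTop (𝓝 L)) :
    Tendsto (fun n : ℕ => f n / Real.log n) atTop (𝓝 L) := by
  have hl2 := log2pos
  have hlog2 : Tendsto (fun x : ℕ => Nat.log 2 x) atTop atTop := by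
    refine tendsto_atTop.2 fun b => ?_
    filter_upwards [eventually_ge_atTop (2 ^ b)] with x hx
    exact Nat.le_log_of_pow_le (by norm_num) hx
  have hcast : Tendsto (fun i : ℕ => (i : ℝ)) atTop atTop := tendsto_natCast_atTop_atTop
  have e1 : ∀ j : ℕ, Real.log ((2 ^ j : ℕ) : ℝ) = j * Real.log 2 := by
    intro j
    push_cast
    rw [Real.log_pow]
  have hr : Tendsto (fun j : ℕ => (j : ℝ) / (j + 1)) atTop (𝓝 1) := tendsto_natCast_div_add_atTop 1
  have hr2 : Tendsto (fun j : ℕ => ((j : ℝ) + 1) / j) atTop (𝓝 1) := by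
    have := hr.inv₀ one_ne_zero
    rw [inv_one] at this
    refine this.congr fun j => ?_
    rw [inv_div]
  have hlow : Tendsto (fun j : ℕ => f (2 ^ j) / Real.log ((2 ^ j : ℕ) : ℝ) * ((j : ℝ) / (j + 1))) atTop (𝓝 (L * 1)) := h.mul hr
  have hup : Tendsto (fun j : ℕ => f (2 ^ (j + 1)) / Real.log ((2 ^ (j + 1) : ℕ) : ℝ) * (((j : ℝ) + 1) / j)) atTop (𝓝 (L * 1)) :=
    (h.comp (tendsto_add_atTop_nat 1)).mul hr2
  rw [mul_one] at hlow hup
  refine tendsto_of_tendsto_of_tendsto_of_le_of_le' (hlow.comp hlog2) (hup.comp hlog2) ?_ ?_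
  · filter_upwards [hlog2.eventually_gt_atTop 0, eventually_gt_atTop 1] with n hj hn
    simp only [Function.comp_apply]
    set j := Nat.log 2 n with hjd
    have hj0 : (0 : ℝ) < j := by exact_mod_cast hj
    have h1 : 2 ^ j ≤ n := Nat.pow_log_le_self 2 (by omega)
    have h2 : n < 2 ^ (j + 1) := Nat.lt_pow_succ_log_self (by norm_num) n
    have h3 : Real.log n ≤ ((j : ℝ) + 1) * Real.log 2 := by
      have h4 : (n : ℝ) ≤ 2 ^ (j + 1) := by exact_mod_cast h2.le
      have h5 := Real.log_le_log (by exact_mod_cast (by omega : 0 < n)) h4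
      rw [Real.log_pow] at h5
      push_cast at h5
      exact h5
    have h4 : 0 < Real.log (n : ℝ) := Real.log_pos (by exact_mod_cast hn)
    rw [e1]
    calc f (2 ^ j) / (j * Real.log 2) * ((j : ℝ) / (j + 1)) = f (2 ^ j) / (((j : ℝ) + 1) * Real.log 2) := by
          field_simp
      _ ≤ f n / Real.log n := div_le_div₀ (hf0 n) (hf h1) h4 h3
  · filter_upwards [hlog2.eventually_gt_atTop 0, eventually_gt_atTop 1] with n hj hn
    simp only [Function.comp_apply]
    set j := Nat.log 2 n with hjd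
    have hj0 : (0 : ℝ) < j := by exact_mod_cast hj
    have h1 : 2 ^ j ≤ n := Nat.pow_log_le_self 2 (by omega)
    have h2 : n < 2 ^ (j + 1) := Nat.lt_pow_succ_log_self (by norm_num) n
    have h3 : (j : ℝ) * Real.log 2 ≤ Real.log n := by
      rw [← Real.log_pow]
      exact Real.log_le_log (by positivity) (by exact_mod_cast h1)
    rw [e1]
    calc f n / Real.log n ≤ f (2 ^ (j + 1)) / (j * Real.log 2) := div_le_div₀ (hf0 _) (hf h2.le) (by positivity) h3
      _ = f (2 ^ (j + 1)) / (((j + 1 : ℕ) : ℝ) * Real.log 2) * (((j : ℝ) + 1) / j) := by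
          push_cast
          field_simp

variable {Ω : Type} {m0 : MeasurableSpace Ω} {μ : Measure Ω} [IsProbabilityMeasure μ]
  {ℱ : Filtration ℕ m0} {A : ℕ → Set Ω}

/-- the record count as a sum -/
lemma PR_sum (ω : Ω) (n : ℕ) : (({b | b ≤ n ∧ PR (rset A ω) b}.ncard : ℕ) : ℝ) =
    ∑ k ∈ Finset.range n, wr A k ω * (A (k + 1)).indicator (fun _ => (1 : ℝ)) ω := by
  classical
  have h1 : ∀ k, wr A k ω * (A (k + 1)).indicator (fun _ => (1 : ℝ)) ω =
      if (mx (rset A ω) k ≤ ag (rset A ω) k ∧ ω ∈ A (k + 1)) then 1 else 0 := by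
    intro k
    unfold wr
    rw [Set.indicator_apply, Set.indicator_apply]
    by_cases h2 : mx (rset A ω) k ≤ ag (rset A ω) k
    · by_cases h3 : ω ∈ A (k + 1)
      · rw [if_pos (show ω ∈ {ω | mx (rset A ω) k ≤ ag (rset A ω) k} from h2), if_pos h3, if_pos ⟨h2, h3⟩, one_mul]
      · rw [if_neg h3, mul_zero, if_neg (fun h => h3 h.2)]
    · rw [if_neg (show ω ∉ {ω | mx (rset A ω) k ≤ ag (rset A ω) k} from h2), zero_mul, if_neg (fun h => h2 h.1)]
  simp_rw [h1]
  rw [Finset.sum_boole]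
  congr 1
  rw [← Set.ncard_coe_finset]
  refine (Set.ncard_congr (fun k _ => k + 1) ?_ ?_ ?_).symm
  · intro k hk
    simp only [Finset.coe_filter, Finset.mem_range, Set.mem_ofPred_eq] at hk
    exact ⟨by omega, k, rfl, hk.2.2, hk.2.1⟩
  · intro a b _ _ h
    omega
  · rintro b ⟨hb, k, rfl, h3, h4⟩
    refine ⟨k, ?_, rfl⟩
    simp only [Finset.coe_filter, Finset.mem_range, Set.mem_ofPred_eq]
    exact ⟨by omega, h4, h3⟩

/-- **the number of maximal gaps** -/
theorem rec_law (hA : ∀ n, MeasurableSet[ℱ n] (A n))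
    (hd : ∀ᵐ ω ∂μ, Tendsto (fun n : ℕ => dens μ ℱ A n ω * Real.log n) atTop (𝓝 1)) :
    ∀ᵐ ω ∂μ, Tendsto (fun n : ℕ => (HH (rset A ω) n : ℝ) / Real.log n ^ 2) atTop (𝓝 1) ∧
      Tendsto (fun n : ℕ => (mgc (rset A ω) n : ℝ) / Real.log n) atTop (𝓝 2) ∧ ∃ p₀, p₀ ∈ rset A ω := by
  classical
  have h1 : ∀ᵐ ω ∂μ, ∀ m : ℕ, ∀ᶠ x : ℕ in atTop, ∃ n, x < n ∧ n ≤ x + wl (1 + 1 / ((m : ℝ) + 1)) x ∧ ω ∈ A n :=
    ae_all_iff.2 fun m => norun_ev hA hd (by have : 0 < 1 / ((m : ℝ) + 1) := by positivity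
                                             linarith)
  have h2 : ∀ᵐ ω ∂μ, ∀ m : ℕ, ∀ᶠ i : ℕ in atTop, ∃ s : ℕ, 2 ^ i ≤ s ∧ s + LL2 (1 - 1 / ((m : ℝ) + 2)) i ≤ 2 ^ (i + 1) ∧
      ∀ n, s < n → n ≤ s + LL2 (1 - 1 / ((m : ℝ) + 2)) i → ω ∉ A n := by
    refine ae_all_iff.2 fun m => runs_ev hA hd ?_ ?_
    · have : 1 / ((m : ℝ) + 2) ≤ 1 / 2 := one_div_le_one_div_of_le (by norm_num) (by linarith [Nat.cast_nonneg (α := ℝ) m])
      linarith
    · have : 0 < 1 / ((m : ℝ) + 2) := by positivity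
      linarith
  filter_upwards [h1, h2, lln_dyadic (μ := μ) hA (wr A) (fun k => wr_meas hA k) (fun k ω => wr_01 k ω), hd] with ω hω1 hω2 hω3 hω4
  set S := rset A ω with hS
  have hH : Tendsto (fun n : ℕ => (HH S n : ℝ) / Real.log n ^ 2) atTop (𝓝 1) := HH_lim hω1 hω2
  -- a member
  obtain ⟨p₀, hp₀⟩ : ∃ p₀, p₀ ∈ S := by
    obtain ⟨x, hx⟩ := (hω1 0).exists
    obtain ⟨n, _, _, hn⟩ := hx
    exact ⟨n, hn⟩
  refine ⟨hH, ?_, p₀, hp₀⟩
  -- the weights
  have hw : ∀ k, (HH S (k + 1) : ℝ) - HH S k = wr A k ω := by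
    intro k
    have := HH_succ S k
    rw [this]
    unfold wr
    rw [Set.indicator_apply]
    by_cases h3 : mx S k ≤ ag S k
    · rw [if_pos h3, if_pos (show ω ∈ {ω | mx (rset A ω) k ≤ ag (rset A ω) k} from h3)]
      push_cast
      ring
    · rw [if_neg h3, if_neg (show ω ∉ {ω | mx (rset A ω) k ≤ ag (rset A ω) k} from h3)]
      push_cast
      ring
  have hT := abel_log hH
  simp only [hw] at hT
  have hg0 : (0 : ℕ → ℝ) ≤ fun k => wr A k ω / Real.log k := fun k =>
    div_nonneg (wr_01 k ω).1 (Real.log_natCast_nonneg k)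
  have hTinf : Tendsto (fun n : ℕ => ∑ k ∈ Finset.range n, wr A k ω / Real.log k) atTop atTop := by
    have h3 := hT.pos_mul_atTop two_pos tendsto_log
    refine h3.congr' ?_
    filter_upwards [tendsto_log.eventually_gt_atTop 0] with n hn
    field_simp
  have hlit : (fun k => wr A k ω * dens μ ℱ A k ω - wr A k ω / Real.log k) =o[atTop] fun k => wr A k ω / Real.log k := by
    have h3 : Tendsto (fun k : ℕ => dens μ ℱ A k ω * Real.log k - 1) atTop (𝓝 0) := by
      have := hω4.sub_const 1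
      rwa [sub_self] at this
    have h5 : (fun k : ℕ => (wr A k ω / Real.log k) * (dens μ ℱ A k ω * Real.log k - 1)) =o[atTop] fun k => (wr A k ω / Real.log k) * 1 :=
      (Asymptotics.isBigO_refl _ _).mul_isLittleO ((Asymptotics.isLittleO_one_iff ℝ).2 h3)
    refine h5.congr' ?_ ?_
    · filter_upwards [tendsto_log.eventually_gt_atTop 0] with k hk
      field_simp
    · filter_upwards with k
      rw [mul_one]
  have hVT := (hlit.sum_range hg0 hTinf).tendsto_div_nhds_zero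
  have hV : Tendsto (fun n : ℕ => Vw μ ℱ A 0 (wr A) n ω / Real.log n) atTop (𝓝 2) := by
    have h3 : Tendsto (fun n : ℕ => ((∑ k ∈ Finset.range n, (wr A k ω * dens μ ℱ A k ω - wr A k ω / Real.log k)) /
        (∑ k ∈ Finset.range n, wr A k ω / Real.log k) + 1) * ((∑ k ∈ Finset.range n, wr A k ω / Real.log k) / Real.log n))
        atTop (𝓝 ((0 + 1) * 2)) := (hVT.add_const 1).mul hT
    rw [zero_add, one_mul] at h3
    refine h3.congr' ?_
    filter_upwards [hTinf.eventually_gt_atTop 0, tendsto_log.eventually_gt_atTop 0] with n h4 h5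
    rw [Finset.sum_sub_distrib]
    unfold Vw
    simp only [zero_add]
    field_simp
    ring
  -- along the powers of two
  set R : ℕ → ℝ := fun n => (({b | b ≤ n ∧ PR S b}.ncard : ℕ) : ℝ) with hR
  have hRS : ∀ n, R n = Sw μ ℱ A 0 (wr A) n ω + Vw μ ℱ A 0 (wr A) n ω := by
    intro n
    simp only [hR]
    rw [PR_sum]
    unfold Sw Vw
    rw [← Finset.sum_add_distrib]
    refine Finset.sum_congr rfl fun k _ => ?_
    simp only [zero_add]
    ring
  have hp2 : Tendsto (fun i : ℕ => 2 ^ i : ℕ → ℕ) atTop atTop := tendsto_pow_atTop_atTop_of_one_lt (by norm_num)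
  have hl2 := log2pos
  have hV2 := hV.comp hp2
  have hlogj : Tendsto (fun j : ℕ => Real.log (j : ℝ) / Real.log ((2 ^ j : ℕ) : ℝ)) atTop (𝓝 0) := by
    have h3 : Tendsto (fun x : ℝ => Real.log x / x) atTop (𝓝 0) := by
      have := (isLittleO_log_rpow_atTop (zero_lt_one)).tendsto_div_nhds_zero
      simpa using this
    have h4 := (h3.comp (tendsto_natCast_atTop_atTop (R := ℝ))).mul_const (1 / Real.log 2)
    rw [zero_mul] at h4
    refine h4.congr fun j => ?_
    simp only [Function.comp_apply]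
    push_cast
    rw [Real.log_pow]
    rw [div_mul_div_comm, mul_one]
  have hR2 : Tendsto (fun j : ℕ => R (2 ^ j) / Real.log ((2 ^ j : ℕ) : ℝ)) atTop (𝓝 2) := by
    have h3 : Tendsto (fun j : ℕ => (R (2 ^ j) - Vw μ ℱ A 0 (wr A) (2 ^ j) ω) / Real.log ((2 ^ j : ℕ) : ℝ)) atTop (𝓝 0) := by
      rw [Metric.tendsto_nhds]
      intro ε hε
      obtain ⟨m, hm⟩ : ∃ m : ℕ, 1 / ((m : ℝ) + 1) * 3 < ε / 2 := by
        obtain ⟨m, hm⟩ := exists_nat_gt (6 / ε)
        refine ⟨m, ?_⟩
        rw [div_lt_iff₀ hε] at hm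
        rw [div_mul_eq_mul_div, div_lt_iff₀ (by positivity)]
        nlinarith
      have h5 := (hlogj.const_mul (2 * ((m : ℝ) + 1))).eventually (gt_mem_nhds (show 2 * ((m : ℝ) + 1) * 0 < ε / 2 by rw [mul_zero]; positivity))
      filter_upwards [hω3 m, hV2.eventually (gt_mem_nhds (show (2 : ℝ) < 3 by norm_num)), h5,
        (tendsto_log.comp hp2).eventually_gt_atTop 0] with j h6 h7 h8 h9
      simp only [Function.comp_apply] at h7 h9
      rw [Real.dist_eq, sub_zero, abs_div, abs_of_pos h9, div_lt_iff₀ h9, hRS, add_sub_cancel_right]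
      refine h6.trans ?_
      rw [div_lt_iff₀ h9] at h7
      have h10 : 2 * Real.log (j : ℝ) / (1 / ((m : ℝ) + 1)) = 2 * ((m : ℝ) + 1) * Real.log j := by
        field_simp
      rw [h10]
      have h11 : 2 * ((m : ℝ) + 1) * Real.log j < ε / 2 * Real.log ((2 ^ j : ℕ) : ℝ) := by
        rw [← mul_div_assoc, div_lt_iff₀ h9] at h8
        exact h8
      have h12 : 1 / ((m : ℝ) + 1) * Vw μ ℱ A 0 (wr A) (2 ^ j) ω ≤ ε / 2 * Real.log ((2 ^ j : ℕ) : ℝ) := by
        calc 1 / ((m : ℝ) + 1) * Vw μ ℱ A 0 (wr A) (2 ^ j) ω ≤ 1 / ((m : ℝ) + 1) * (3 * Real.log ((2 ^ j : ℕ) : ℝ)) :=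
              mul_le_mul_of_nonneg_left h7.le (by positivity)
          _ = 1 / ((m : ℝ) + 1) * 3 * Real.log ((2 ^ j : ℕ) : ℝ) := by ring
          _ ≤ _ := mul_le_mul_of_nonneg_right hm.le h9.le
      linarith
    have h4 := h3.add hV2
    rw [zero_add] at h4
    refine h4.congr fun j => ?_
    simp only [Function.comp_apply]
    rw [← add_div, sub_add_cancel]
  have hRmono : Monotone R := by
    intro a b hab
    simp only [hR]
    have : {c | c ≤ a ∧ PR S c}.ncard ≤ {c | c ≤ b ∧ PR S c}.ncard :=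
      Set.ncard_le_ncard (fun c hc => ⟨hc.1.trans hab, hc.2⟩) (PR_count S b)
    exact_mod_cast this
  have hRlim := interp_pow hRmono (fun n => Nat.cast_nonneg _) hR2
  -- comparison
  have hc : Tendsto (fun n : ℕ => ((p₀ : ℝ) + 1) / Real.log n) atTop (𝓝 0) := tendsto_const_nhds.div_atTop tendsto_log
  have hc1 : Tendsto (fun n : ℕ => (1 : ℝ) / Real.log n) atTop (𝓝 0) := tendsto_const_nhds.div_atTop tendsto_log
  have hlow := hRlim.sub hc1
  have hup := hRlim.add hc
  rw [sub_zero] at hlow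
  rw [add_zero] at hup
  refine tendsto_of_tendsto_of_tendsto_of_le_of_le' hlow hup ?_ ?_
  · filter_upwards [tendsto_log.eventually_gt_atTop 0] with n hn
    rw [← sub_div]
    apply div_le_div_of_nonneg_right _ hn.le
    have := (mgc_bounds hp₀ n).2
    have h3 : R n ≤ mgc S n + 1 := by
      simp only [hR]
      exact_mod_cast this
    linarith
  · filter_upwards [tendsto_log.eventually_gt_atTop 0] with n hn
    rw [← add_div]
    apply div_le_div_of_nonneg_right _ hn.le
    have := (mgc_bounds hp₀ n).1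
    have h3 : (mgc S n : ℝ) ≤ R n + (p₀ + 1) := by
      simp only [hR]
      exact_mod_cast this
    exact h3


/-- the number of maximal gaps of bounded length -/
theorem mgs_law {S : Set ℕ} {p₀ : ℕ} (hp₀ : p₀ ∈ S) (hH : Tendsto (fun n : ℕ => (HH S n : ℝ) / Real.log n ^ 2) atTop (𝓝 1))
    (hM : Tendsto (fun n : ℕ => (mgc S n : ℝ) / Real.log n) atTop (𝓝 2)) :
    Tendsto (fun y : ℕ => (mgs S y : ℝ) / √y) atTop (𝓝 2) := by
  have hsq : Tendsto (fun y : ℕ => √(y : ℝ)) atTop atTop := Real.tendsto_sqrt_atTop.comp tendsto_natCast_atTop_atTop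
  -- the scales
  have key : ∀ t : ℝ, 0 < t → Tendsto (fun y : ℕ => Real.log (⌊Real.exp (t * √(y : ℝ))⌋₊ : ℝ) / √(y : ℝ)) atTop (𝓝 t) ∧
      Tendsto (fun y : ℕ => ⌊Real.exp (t * √(y : ℝ))⌋₊) atTop atTop := by
    intro t ht
    have h1 : Tendsto (fun y : ℕ => Real.exp (t * √(y : ℝ))) atTop atTop := Real.tendsto_exp_atTop.comp (hsq.const_mul_atTop ht)
    refine ⟨?_, tendsto_nat_floor_atTop.comp h1⟩
    have h2 : Tendsto (fun y : ℕ => Real.log 2 / √(y : ℝ)) atTop (𝓝 0) := tendsto_const_nhds.div_atTop hsq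
    have h3 : Tendsto (fun y : ℕ => t - Real.log 2 / √(y : ℝ)) atTop (𝓝 (t - 0)) := h2.const_sub t
    rw [sub_zero] at h3
    refine tendsto_of_tendsto_of_tendsto_of_le_of_le' h3 tendsto_const_nhds ?_ ?_
    · filter_upwards [h1.eventually_ge_atTop 2, hsq.eventually_gt_atTop 0] with y h4 h5
      rw [le_div_iff₀ h5, sub_mul, div_mul_cancel₀ _ h5.ne']
      have h6 := Nat.lt_floor_add_one (Real.exp (t * √(y : ℝ)))
      have h7 : Real.exp (t * √(y : ℝ)) / 2 ≤ (⌊Real.exp (t * √(y : ℝ))⌋₊ : ℝ) := by linarith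
      have h8 := Real.log_le_log (by positivity) h7
      rwa [Real.log_div (Real.exp_pos _).ne' (by norm_num), Real.log_exp] at h8
    · filter_upwards [h1.eventually_ge_atTop 2, hsq.eventually_gt_atTop 0] with y h4 h5
      rw [div_le_iff₀ h5]
      have h6 := Nat.floor_le (Real.exp_pos (t * √(y : ℝ))).le
      have h7 : (0 : ℝ) < (⌊Real.exp (t * √(y : ℝ))⌋₊ : ℝ) := by
        have := Nat.lt_floor_add_one (Real.exp (t * √(y : ℝ)))
        linarith
      have h8 := Real.log_le_log h7 h6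
      rwa [Real.log_exp] at h8
  have hval : ∀ t : ℝ, 0 < t → Tendsto (fun y : ℕ => (HH S ⌊Real.exp (t * √(y : ℝ))⌋₊ : ℝ) / y) atTop (𝓝 (t ^ 2)) := by
    intro t ht
    obtain ⟨h1, h2⟩ := key t ht
    have h3 := (hH.comp h2).mul (h1.pow 2)
    rw [one_mul] at h3
    refine h3.congr' ?_
    filter_upwards [hsq.eventually_gt_atTop 0, (tendsto_log.comp h2).eventually_gt_atTop 0] with y h4 h5
    simp only [Function.comp_apply] at h5 ⊢
    have h6 : (√(y : ℝ)) ^ 2 = y := Real.sq_sqrt (Nat.cast_nonneg y)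
    rw [div_pow, h6, div_mul_div_comm, mul_comm (Real.log _ ^ 2) (y : ℝ), mul_div_mul_right _ _ (by positivity)]
  have hmval : ∀ t : ℝ, 0 < t → Tendsto (fun y : ℕ => (mgc S ⌊Real.exp (t * √(y : ℝ))⌋₊ : ℝ) / √(y : ℝ)) atTop (𝓝 (2 * t)) := by
    intro t ht
    obtain ⟨h1, h2⟩ := key t ht
    have h3 := (hM.comp h2).mul h1
    refine h3.congr' ?_
    filter_upwards [hsq.eventually_gt_atTop 0, (tendsto_log.comp h2).eventually_gt_atTop 0] with y h4 h5
    simp only [Function.comp_apply] at h5 ⊢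
    field_simp
  have hc : Tendsto (fun y : ℕ => ((p₀ : ℝ) + 2) / √(y : ℝ)) atTop (𝓝 0) := tendsto_const_nhds.div_atTop hsq
  rw [tendsto_order]
  constructor
  · intro b hb
    -- `t < 1` with `b < 2 t`
    obtain ⟨t, ht0, ht1, ht2⟩ : ∃ t : ℝ, 0 < t ∧ t < 1 ∧ b < 2 * t := by
      refine ⟨max (1 / 2) ((b / 2 + 1) / 2), by positivity, max_lt (by norm_num) (by linarith), ?_⟩
      have := le_max_right (1 / 2) ((b / 2 + 1) / 2)
      linarith
    have h1 := (hval t ht0).eventually (gt_mem_nhds (show t ^ 2 < 1 by nlinarith))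
    have h2 := (hval 2 (by norm_num)).eventually (lt_mem_nhds (show (1 : ℝ) < 2 ^ 2 by norm_num))
    have h3 := ((hmval t ht0).sub hc).eventually (lt_mem_nhds (show b < 2 * t - 0 by linarith))
    filter_upwards [h1, h2, h3, hsq.eventually_gt_atTop 0, eventually_gt_atTop 0] with y g1 g2 g3 g4 g5
    have hy : (0 : ℝ) < y := by exact_mod_cast g5
    rw [div_lt_one hy] at g1
    rw [lt_div_iff₀ hy, one_mul] at g2
    have g6 := (mgs_bounds hp₀ (y := y) (n := ⌊Real.exp (t * √(y : ℝ))⌋₊) (n' := ⌊Real.exp (2 * √(y : ℝ))⌋₊)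
      (by exact_mod_cast g1.le) (by exact_mod_cast g2)).1
    refine g3.trans_le ?_
    rw [← sub_div]
    apply div_le_div_of_nonneg_right _ g4.le
    have g7 : (mgc S ⌊Real.exp (t * √(y : ℝ))⌋₊ : ℝ) ≤ mgs S y + (p₀ + 2) := by exact_mod_cast g6
    linarith
  · intro b hb
    obtain ⟨t, ht1, ht2⟩ : ∃ t : ℝ, 1 < t ∧ 2 * t < b := ⟨(b / 2 + 1) / 2, by linarith, by linarith⟩
    have ht0 : 0 < t := by linarith
    have h1 := (hval (1 / 2) (by norm_num)).eventually (gt_mem_nhds (show (1 / 2 : ℝ) ^ 2 < 1 by norm_num))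
    have h2 := (hval t ht0).eventually (lt_mem_nhds (show 1 < t ^ 2 by nlinarith))
    have h3 := ((hmval t ht0).add hc).eventually (gt_mem_nhds (show 2 * t + 0 < b by linarith))
    filter_upwards [h1, h2, h3, hsq.eventually_gt_atTop 0, eventually_gt_atTop 0] with y g1 g2 g3 g4 g5
    have hy : (0 : ℝ) < y := by exact_mod_cast g5
    rw [div_lt_one hy] at g1
    rw [lt_div_iff₀ hy, one_mul] at g2
    have g6 := (mgs_bounds hp₀ (y := y) (n := ⌊Real.exp (1 / 2 * √(y : ℝ))⌋₊) (n' := ⌊Real.exp (t * √(y : ℝ))⌋₊)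
      (by exact_mod_cast g1.le) (by exact_mod_cast g2)).2
    refine lt_of_le_of_lt ?_ g3
    rw [← add_div]
    apply div_le_div_of_nonneg_right _ g4.le
    exact_mod_cast g6

end Pool.Agent.R528.RM
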