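import Mathlib
import Pool.Agent.R528.RM.Rec2
import Pool.Agent.R528.RM.BHEv

set_option autoImplicit false
set_option linter.unusedSectionVars false

/-! # Exponential moments of the gaps -/

open MeasureTheory Filter Set
open scoped ENNReal Topology

namespace Pool.Agent.R528.RM

/-- the exponential of the normalised age -/
noncomputable def ph (S : Set ℕ) (s : ℝ) (n : ℕ) : ℝ :=
  if 3 ≤ n - ag S n then Real.exp (s * ag S n / Real.log ((n - ag S n : ℕ) : ℝ)) else 0

/-- the multiplier of one step -/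
noncomputable def En (S : Set ℕ) (s : ℝ) (n : ℕ) : ℝ := Real.exp (s / Real.log ((n - ag S n : ℕ) : ℝ))

lemma ph_nonneg (S : Set ℕ) (s : ℝ) (n : ℕ) : 0 ≤ ph S s n := by
  unfold ph
  split_ifs
  · exact (Real.exp_pos _).le
  · exact le_rfl

open Classical in
lemma ph_succ (S : Set ℕ) (s : ℝ) {n : ℕ} (hn : 2 ≤ n) :
    ph S s (n + 1) = if n + 1 ∈ S then 1 else ph S s n * En S s n := by
  unfold ph En
  simp only [ag]
  split_ifs with h1 h2 h3 h4 h5
  · simp
  · omega
  · rw [← Real.exp_add]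
    have e : n + 1 - (ag S n + 1) = n - ag S n := by omega
    rw [e]
    congr 1
    push_cast
    ring
  · omega
  · omega
  · ring

open Classical in
/-- the telescoping identity -/
lemma tel (S : Set ℕ) (s : ℝ) (N : ℕ) (hN : 2 ≤ N) :
    ∑ n ∈ Finset.Ico 2 N, ph S s n * En S s n * (if n + 1 ∈ S then 1 else 0) =
      ∑ n ∈ Finset.Ico 2 N, ph S s n * (En S s n - 1) + ∑ n ∈ Finset.Ico 2 N, (if n + 1 ∈ S then (1 : ℝ) else 0) -
        (ph S s N - ph S s 2) := by
  induction N, hN using Nat.le_induction with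
  | base => simp
  | succ N hN ih =>
    rw [Finset.sum_Ico_succ_top hN, Finset.sum_Ico_succ_top hN, Finset.sum_Ico_succ_top hN, ih, ph_succ S s hN]
    split_ifs <;> ring

/-- comparison of sums -/
lemma sum_cmp {a b : ℕ → ℝ} {ε : ℝ} (hε : 0 ≤ ε) (hb : ∀ n, 0 ≤ b n) (h : ∀ᶠ n in atTop, |a n - b n| ≤ ε * b n) :
    ∃ C : ℝ, 0 ≤ C ∧ ∀ N, |∑ n ∈ Finset.Ico 2 N, a n - ∑ n ∈ Finset.Ico 2 N, b n| ≤ ε * ∑ n ∈ Finset.Ico 2 N, b n + C := by
  obtain ⟨n₁, hn₁⟩ := eventually_atTop.1 h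
  refine ⟨∑ n ∈ Finset.range n₁, |a n - b n|, Finset.sum_nonneg fun n _ => abs_nonneg _, fun N => ?_⟩
  rw [← Finset.sum_sub_distrib]
  refine (Finset.abs_sum_le_sum_abs _ _).trans ?_
  have h1 : ∀ n ∈ Finset.Ico 2 N, |a n - b n| ≤ ε * b n + if n < n₁ then |a n - b n| else 0 := by
    intro n _
    have h2 : 0 ≤ ε * b n := mul_nonneg hε (hb n)
    split_ifs with h3
    · linarith
    · have := hn₁ n (by omega)
      linarith
  refine (Finset.sum_le_sum h1).trans ?_
  rw [Finset.sum_add_distrib, ← Finset.mul_sum]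
  refine add_le_add le_rfl ?_
  rw [← Finset.sum_filter]
  refine Finset.sum_le_sum_of_subset_of_nonneg ?_ fun n _ _ => abs_nonneg _
  intro n hn
  exact Finset.mem_range.2 (Finset.mem_filter.1 hn).2

section det

variable {S : Set ℕ} (hH : Tendsto (fun n : ℕ => (HH S n : ℝ) / Real.log n ^ 2) atTop (𝓝 1))

include hH

/-- the last member is not far -/
lemma last_log : Tendsto (fun n : ℕ => Real.log ((n - ag S n : ℕ) : ℝ) / Real.log n) atTop (𝓝 1) := by
  have h1 : ∀ᶠ n : ℕ in atTop, (HH S n : ℝ) ≤ 2 * Real.log n ^ 2 := by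
    filter_upwards [hH.eventually (gt_mem_nhds (show (1 : ℝ) < 2 by norm_num)), tendsto_log.eventually_gt_atTop 0] with n h2 h3
    rw [div_lt_iff₀ (by positivity)] at h2
    exact h2.le
  have h2 : ∀ᶠ n : ℕ in atTop, 2 * Real.log (n : ℝ) ^ 2 ≤ n / 2 := by
    have h3 := (Real.isLittleO_pow_log_id_atTop (n := 2)).def (show (0 : ℝ) < 1 / 4 by norm_num)
    filter_upwards [(tendsto_natCast_atTop_atTop (R := ℝ)).eventually h3] with n h4
    rw [Real.norm_eq_abs, Real.norm_eq_abs, abs_of_nonneg (by positivity), id, abs_of_nonneg (Nat.cast_nonneg n)] at h4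
    linarith
  have h3 : Tendsto (fun n : ℕ => 1 - Real.log 2 / Real.log n) atTop (𝓝 (1 - 0)) :=
    (tendsto_const_nhds.div_atTop tendsto_log).const_sub 1
  rw [sub_zero] at h3
  refine tendsto_of_tendsto_of_tendsto_of_le_of_le' h3 tendsto_const_nhds ?_ ?_
  · filter_upwards [h1, h2, tendsto_log.eventually_gt_atTop 0, eventually_gt_atTop 0] with n g1 g2 g3 g4
    have hn0 : (0 : ℝ) < n := by exact_mod_cast g4
    have g5 : (ag S n : ℝ) ≤ HH S n := by exact_mod_cast le_max_right _ _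
    have g6 : (n : ℝ) / 2 ≤ ((n - ag S n : ℕ) : ℝ) := by
      rw [Nat.cast_sub (ag_le S n)]
      linarith
    have g7 := Real.log_le_log (by positivity) g6
    rw [Real.log_div hn0.ne' (by norm_num)] at g7
    rw [le_div_iff₀ g3, sub_mul, div_mul_cancel₀ _ g3.ne', one_mul]
    exact g7
  · filter_upwards [h1, h2, tendsto_log.eventually_gt_atTop 0, eventually_gt_atTop 0] with n g1 g2 g3 g4
    rw [div_le_one g3]
    have hn0 : (0 : ℝ) < n := by exact_mod_cast g4
    have g5 : (ag S n : ℝ) ≤ HH S n := by exact_mod_cast le_max_right _ _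
    have g6 : (n : ℝ) / 2 ≤ ((n - ag S n : ℕ) : ℝ) := by
      rw [Nat.cast_sub (ag_le S n)]
      linarith
    apply Real.log_le_log (by linarith)
    exact_mod_cast Nat.sub_le _ _

lemma last_log_top : Tendsto (fun n : ℕ => Real.log ((n - ag S n : ℕ) : ℝ)) atTop atTop := by
  have h1 := (last_log hH).pos_mul_atTop one_pos tendsto_log
  refine h1.congr' ?_
  filter_upwards [tendsto_log.eventually_gt_atTop 0] with n hn
  field_simp

/-- the weights are small -/
lemma ph_small {s θ : ℝ} (hs : s < θ) (hθ : 0 < θ) : ∀ᶠ n : ℕ in atTop, ph S s n * En S s n ≤ (n : ℝ) ^ θ := by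
  -- `s⁺ κ < θ`
  set s' := max s 0 with hs'
  have hs'0 : 0 ≤ s' := le_max_right _ _
  have hs'θ : s' < θ := max_lt hs hθ
  have h1 : Tendsto (fun n : ℕ => s' * (((HH S n : ℝ) / Real.log n ^ 2 + 1 / Real.log n ^ 2) * (Real.log ((n - ag S n : ℕ) : ℝ) / Real.log n)⁻¹))
      atTop (𝓝 (s' * ((1 + 0) * 1⁻¹))) := by
    have hsq : Tendsto (fun n : ℕ => Real.log (n : ℝ) ^ 2) atTop atTop := (tendsto_pow_atTop (by norm_num)).comp tendsto_log
    exact ((hH.add (tendsto_const_nhds.div_atTop hsq)).mul ((last_log hH).inv₀ one_ne_zero)).const_mul s'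
  rw [add_zero, inv_one, mul_one, mul_one] at h1
  filter_upwards [h1.eventually (gt_mem_nhds hs'θ), tendsto_log.eventually_gt_atTop 0, (last_log_top hH).eventually_gt_atTop 0,
    eventually_gt_atTop 0] with n g1 g2 g3 g4
  have hn0 : (0 : ℝ) < n := by exact_mod_cast g4
  set l := Real.log ((n - ag S n : ℕ) : ℝ) with hl
  unfold ph En
  split_ifs with h3
  · rw [← Real.exp_add, Real.rpow_def_of_pos hn0]
    apply Real.exp_le_exp.2
    rw [← hl]
    have g5 : (ag S n : ℝ) ≤ HH S n := by exact_mod_cast le_max_right _ _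
    have g6 : s * ag S n / l + s / l = s * ((ag S n + 1) / l) := by ring
    rw [g6]
    have g7 : s * ((ag S n + 1) / l) ≤ s' * ((HH S n + 1) / l) := by
      have g8 : 0 ≤ ((ag S n : ℝ) + 1) / l := by positivity
      have g9 : ((ag S n : ℝ) + 1) / l ≤ (HH S n + 1) / l := div_le_div_of_nonneg_right (by linarith) g3.le
      calc s * ((ag S n + 1) / l) ≤ s' * ((ag S n + 1) / l) := mul_le_mul_of_nonneg_right (le_max_left _ _) g8
        _ ≤ _ := mul_le_mul_of_nonneg_left g9 hs'0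
    refine g7.trans ?_
    have g10 : s' * (((HH S n : ℝ) / Real.log n ^ 2 + 1 / Real.log n ^ 2) * (l / Real.log n)⁻¹) = s' * ((HH S n + 1) / l) / Real.log n := by
      field_simp
    rw [g10, div_lt_iff₀ g2] at g1
    linarith
  · rw [zero_mul]
    positivity

/-- the weights are small, uniformly -/
lemma ph_small' {s θ : ℝ} (hs : s < θ) (hθ : 0 < θ) : ∀ᶠ N : ℕ in atTop, (∀ n, n < N → ph S s n * En S s n ≤ (N : ℝ) ^ θ) := by
  obtain ⟨n₁, hn₁⟩ := eventually_atTop.1 (ph_small hH hs hθ)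
  have h1 : Tendsto (fun N : ℕ => (N : ℝ) ^ θ) atTop atTop := (tendsto_rpow_atTop hθ).comp tendsto_natCast_atTop_atTop
  have h2 : ∀ᶠ N : ℕ in atTop, ∀ n ∈ Finset.range n₁, ph S s n * En S s n ≤ (N : ℝ) ^ θ := by
    rw [eventually_all_finset]
    intro n _
    exact h1.eventually_ge_atTop _
  filter_upwards [h2] with N hN n hn
  rcases Nat.lt_or_ge n n₁ with h3 | h3
  · exact hN n (Finset.mem_range.2 h3)
  · refine (hn₁ n h3).trans ?_
    exact Real.rpow_le_rpow (Nat.cast_nonneg n) (by exact_mod_cast hn.le) hθ.le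

/-- the increments of the weights -/
lemma inc_ev (s : ℝ) {ε : ℝ} (hε : 0 < ε) : ∀ᶠ n : ℕ in atTop,
    |ph S s n * (En S s n - 1) - s * (ph S s n / Real.log n)| ≤ ε * (ph S s n / Real.log n) := by
  have hl := last_log_top hH
  have h1 : Tendsto (fun n : ℕ => s / Real.log ((n - ag S n : ℕ) : ℝ)) atTop (𝓝 0) := tendsto_const_nhds.div_atTop hl
  -- `(E - 1) log n → s`
  have h2 : Tendsto (fun n : ℕ => (En S s n - 1) * Real.log n) atTop (𝓝 s) := by
    have h3 : Tendsto (fun n : ℕ => s * (Real.log ((n - ag S n : ℕ) : ℝ) / Real.log n)⁻¹) atTop (𝓝 (s * 1⁻¹)) :=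
      ((last_log hH).inv₀ one_ne_zero).const_mul s
    rw [inv_one, mul_one] at h3
    have h4 : Tendsto (fun n : ℕ => s ^ 2 * (Real.log ((n - ag S n : ℕ) : ℝ) / Real.log n)⁻¹ * (1 / Real.log ((n - ag S n : ℕ) : ℝ))) atTop (𝓝 (s ^ 2 * 1⁻¹ * 0)) :=
      (((last_log hH).inv₀ one_ne_zero).const_mul (s ^ 2)).mul (tendsto_const_nhds.div_atTop hl)
    rw [mul_zero] at h4
    have h5 : Tendsto (fun n : ℕ => (En S s n - 1) * Real.log n - s * (Real.log ((n - ag S n : ℕ) : ℝ) / Real.log n)⁻¹) atTop (𝓝 0) := by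
      refine squeeze_zero_norm' ?_ h4
      have h6 : ∀ᶠ n : ℕ in atTop, |s / Real.log ((n - ag S n : ℕ) : ℝ)| ≤ 1 := by
        have := h1.abs
        rw [abs_zero] at this
        filter_upwards [this.eventually (gt_mem_nhds one_pos)] with n hn
        exact hn.le
      filter_upwards [h6, tendsto_log.eventually_gt_atTop 0, hl.eventually_gt_atTop 0] with n g1 g2 g3
      set l := Real.log ((n - ag S n : ℕ) : ℝ) with hld
      have g4 := Real.abs_exp_sub_one_sub_id_le g1
      have g5 : (En S s n - 1) * Real.log n - s * (l / Real.log n)⁻¹ = (Real.exp (s / l) - 1 - s / l) * Real.log n := by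
        unfold En
        rw [← hld]
        field_simp
      rw [g5, Real.norm_eq_abs, abs_mul, abs_of_pos g2]
      calc |Real.exp (s / l) - 1 - s / l| * Real.log n ≤ (s / l) ^ 2 * Real.log n := mul_le_mul_of_nonneg_right g4 g2.le
        _ = _ := by field_simp
    have h6 := h5.add h3
    rw [zero_add] at h6
    refine h6.congr fun n => ?_
    ring
  have h3 : Tendsto (fun n : ℕ => |(En S s n - 1) * Real.log n - s|) atTop (𝓝 0) := by
    have := (h2.sub_const s).abs
    rwa [sub_self, abs_zero] at this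
  filter_upwards [h3.eventually (gt_mem_nhds hε), tendsto_log.eventually_gt_atTop 0] with n g1 g2
  have g3 := ph_nonneg S s n
  have g4 : ph S s n * (En S s n - 1) - s * (ph S s n / Real.log n) = (ph S s n / Real.log n) * ((En S s n - 1) * Real.log n - s) := by
    field_simp
  rw [g4, abs_mul, abs_of_nonneg (by positivity), mul_comm]
  exact mul_le_mul_of_nonneg_right g1.le (by positivity)

/-- the compensator -/
lemma comp_ev (s : ℝ) {d : ℕ → ℝ} (hd : Tendsto (fun n : ℕ => d n * Real.log n) atTop (𝓝 1)) {ε : ℝ} (hε : 0 < ε) : ∀ᶠ n : ℕ in atTop,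
    |ph S s n * En S s n * d n - ph S s n / Real.log n| ≤ ε * (ph S s n / Real.log n) := by
  have h1 : Tendsto (fun n : ℕ => s / Real.log ((n - ag S n : ℕ) : ℝ)) atTop (𝓝 0) := tendsto_const_nhds.div_atTop (last_log_top hH)
  have h2 : Tendsto (fun n : ℕ => En S s n) atTop (𝓝 1) := by
    have := (Real.continuous_exp.tendsto 0).comp h1
    rwa [Real.exp_zero] at this
  have h3 : Tendsto (fun n : ℕ => |En S s n * (d n * Real.log n) - 1|) atTop (𝓝 0) := by
    have := ((h2.mul hd).sub_const 1).abs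
    rwa [mul_one, sub_self, abs_zero] at this
  filter_upwards [h3.eventually (gt_mem_nhds hε), tendsto_log.eventually_gt_atTop 0] with n g1 g2
  have g3 := ph_nonneg S s n
  have g4 : ph S s n * En S s n * d n - ph S s n / Real.log n = (ph S s n / Real.log n) * (En S s n * (d n * Real.log n) - 1) := by
    field_simp
  rw [g4, abs_mul, abs_of_nonneg (by positivity), mul_comm]
  exact mul_le_mul_of_nonneg_right g1.le (by positivity)

end det

variable {Ω : Type} {m0 : MeasurableSpace Ω} {μ : Measure Ω} [IsProbabilityMeasure μ]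
  {ℱ : Filtration ℕ m0} {A : ℕ → Set Ω}

/-- the truncated weights -/
noncomputable def wW (A : ℕ → Set Ω) (s W : ℝ) (n : ℕ) (ω : Ω) : ℝ :=
  if 2 ≤ n then min (ph (rset A ω) s n * En (rset A ω) s n / W) 1 else 0

lemma wW_meas (hA : ∀ n, MeasurableSet[ℱ n] (A n)) (s W : ℝ) (n : ℕ) : StronglyMeasurable[ℱ n] (wW A s W n) := by
  have h1 := (ag_meas (ℱ := ℱ) hA n).1
  set f : ℕ → ℝ := fun a => if 2 ≤ n then min ((if 3 ≤ n - a then Real.exp (s * a / Real.log ((n - a : ℕ) : ℝ)) else 0) *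
    Real.exp (s / Real.log ((n - a : ℕ) : ℝ)) / W) 1 else 0 with hf
  have h2 : wW A s W n = fun ω => f (ag (rset A ω) n) := by
    funext ω
    rfl
  rw [h2]
  exact ((measurable_from_nat (f := f)).comp h1).stronglyMeasurable

lemma wW_01 {s W : ℝ} (hW : 0 < W) (n : ℕ) (ω : Ω) : 0 ≤ wW A s W n ω ∧ wW A s W n ω ≤ 1 := by
  unfold wW
  split_ifs
  · refine ⟨le_min ?_ zero_le_one, min_le_right _ _⟩
    have := ph_nonneg (rset A ω) s n
    have h2 : 0 < En (rset A ω) s n := Real.exp_pos _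
    positivity
  · exact ⟨le_rfl, zero_le_one⟩

/-- the law of large numbers for all `N` -/
theorem lln_all (hA : ∀ n, MeasurableSet[ℱ n] (A n)) (w : ℕ → ℕ → Ω → ℝ)
    (hw : ∀ N k, StronglyMeasurable[ℱ k] (w N k)) (hw01 : ∀ N k ω, 0 ≤ w N k ω ∧ w N k ω ≤ 1) :
    ∀ᵐ ω ∂μ, ∀ m : ℕ, ∀ᶠ N : ℕ in atTop,
      |Sw μ ℱ A 0 (w N) N ω| < (1 / ((m : ℝ) + 1)) * Vw μ ℱ A 0 (w N) N ω + 2 * Real.log N / (1 / ((m : ℝ) + 1)) := by
  rw [ae_all_iff]
  intro m
  have hs : Summable (fun j : ℕ => 2 * ((j : ℝ) ^ 2)⁻¹) := (Real.summable_nat_pow_inv.2 (by norm_num)).mul_left 2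
  have h := bc_real (μ := μ) hs (s := fun N => {ω | (1 / ((m : ℝ) + 1)) * Vw μ ℱ A 0 (w N) N ω + 2 * Real.log N / (1 / ((m : ℝ) + 1)) ≤
    |Sw μ ℱ A 0 (w N) N ω|}) (by
    filter_upwards [eventually_gt_atTop 0] with j hj
    have hj0 : (0 : ℝ) < j := by exact_mod_cast hj
    have h1 := Cw_tail (μ := μ) hA 0 (w j) (fun k => by rw [zero_add]; exact hw j k) (hw01 j) (s := 1 / ((m : ℝ) + 1)) (by positivity)
      (by rw [div_le_one (by positivity)]; linarith [Nat.cast_nonneg (α := ℝ) m]) j (2 * Real.log j)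
    refine h1.trans (le_of_eq ?_)
    congr 1
    rw [Real.exp_neg, ← Real.exp_log (show (0 : ℝ) < (j : ℝ) ^ 2 by positivity), Real.log_pow]
    norm_num)
  filter_upwards [h] with ω hω
  filter_upwards [hω] with j hj
  exact not_le.1 hj

/-- an elementary limit -/
lemma lim_aux {y : ℕ → ℝ} {c : ℝ} (hc : 0 < c) (hy : ∀ᶠ n in atTop, 0 ≤ y n)
    (h : ∀ ε : ℝ, 0 < ε → ∀ᶠ n in atTop, |c * y n - 1| ≤ ε * (y n + 1)) : Tendsto y atTop (𝓝 (1 / c)) := by
  -- `y` is bounded
  have hb : ∀ᶠ n in atTop, y n ≤ 2 / c + 1 := by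
    filter_upwards [h (c / 2) (by positivity), hy] with n h1 h2
    have h3 := (abs_le.1 h1).2
    have h4 : c / 2 * y n ≤ 1 + c / 2 := by linarith
    have h5 : c / 2 * (2 / c + 1) = 1 + c / 2 := by field_simp
    have h6 : c / 2 * y n ≤ c / 2 * (2 / c + 1) := by linarith
    exact le_of_mul_le_mul_left h6 (by positivity)
  rw [Metric.tendsto_nhds]
  intro ε hε
  have hB : 0 < 2 / c + 2 := by positivity
  filter_upwards [h (ε * c / (2 * (2 / c + 2))) (by positivity), hb, hy] with n h1 h2 h3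
  rw [Real.dist_eq]
  have h4 : |c * y n - 1| ≤ ε * c / 2 := by
    refine h1.trans ?_
    have h5 : y n + 1 ≤ 2 / c + 2 := by linarith
    calc ε * c / (2 * (2 / c + 2)) * (y n + 1) ≤ ε * c / (2 * (2 / c + 2)) * (2 / c + 2) :=
          mul_le_mul_of_nonneg_left h5 (by positivity)
      _ = _ := by field_simp
  have h5 : y n - 1 / c = (c * y n - 1) / c := by field_simp
  rw [h5, abs_div, abs_of_pos hc, div_lt_iff₀ hc]
  have : 0 < ε * c := by positivity
  linarith

end Pool.Agent.R528.RM
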