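import Mathlib
import Pool.Agent.R528.RM.Mgf1

set_option autoImplicit false
set_option linter.unusedSectionVars false

/-! # Exponential moments of the gaps: the law -/

open MeasureTheory Filter Set
open scoped ENNReal Topology

namespace Pool.Agent.R528.RM

variable {Ω : Type} {m0 : MeasurableSpace Ω} {μ : Measure Ω} [IsProbabilityMeasure μ]
  {ℱ : Filtration ℕ m0} {A : ℕ → Set Ω}

/-- `N^θ log N` is small compared with `N / log N` -/
lemma small_scale {θ : ℝ} (hθ : θ < 1) : Tendsto (fun N : ℕ => ((N : ℝ) + 1) ^ θ * Real.log N * (Real.log N / N)) atTop (𝓝 0) := by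
  have h1 : Tendsto (fun x : ℝ => Real.log x ^ (2 : ℝ) / x ^ (1 - θ)) atTop (𝓝 0) :=
    (isLittleO_log_rpow_rpow_atTop (2 : ℝ) (by linarith)).tendsto_div_nhds_zero
  have h2 : Tendsto (fun x : ℝ => ((x + 1) / x) ^ θ) atTop (𝓝 1) := by
    have h3 : Tendsto (fun x : ℝ => (x + 1) / x) atTop (𝓝 1) := by
      have h4 : Tendsto (fun x : ℝ => 1 + 1 / x) atTop (𝓝 (1 + 0)) := (tendsto_const_nhds.div_atTop tendsto_id).const_add 1
      rw [add_zero] at h4
      refine h4.congr' ?_
      filter_upwards [eventually_gt_atTop 0] with x hx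
      field_simp
    have := h3.rpow_const (p := θ) (Or.inl one_ne_zero)
    rwa [Real.one_rpow] at this
  have h3 := (h1.mul h2).comp (tendsto_natCast_atTop_atTop (R := ℝ))
  rw [zero_mul] at h3
  refine h3.congr' ?_
  filter_upwards [eventually_gt_atTop 1] with N hN
  have hN0 : (0 : ℝ) < N := by exact_mod_cast (by omega : 0 < N)
  have hl : 0 < Real.log (N : ℝ) := Real.log_pos (by exact_mod_cast hN)
  simp only [Function.comp_apply]
  rw [Real.div_rpow (by positivity) hN0.le, Real.rpow_sub hN0, Real.rpow_one, Real.rpow_two]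
  field_simp

/-- the number of members -/
lemma pi_law (hA : ∀ n, MeasurableSet[ℱ n] (A n))
    (hd : ∀ᵐ ω ∂μ, Tendsto (fun n : ℕ => dens μ ℱ A n ω * Real.log n) atTop (𝓝 1)) :
    ∀ᵐ ω ∂μ, Tendsto (fun N : ℕ => (∑ n ∈ Finset.range N, (A (n + 1)).indicator (fun _ => (1 : ℝ)) ω) * (Real.log N / N)) atTop (𝓝 1) := by
  have h01 : ∀ᵐ ω ∂μ, ∀ n, 0 ≤ dens μ ℱ A n ω ∧ dens μ ℱ A n ω ≤ 1 := ae_all_iff.2 fun n => dens01 hA n
  filter_upwards [lln_all (μ := μ) hA (fun _ _ _ => 1) (fun _ _ => stronglyMeasurable_const) (fun _ _ _ => ⟨zero_le_one, le_rfl⟩),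
    hd, h01] with ω h1 h2 h3
  -- the compensator
  have hV : Tendsto (fun N : ℕ => Vw μ ℱ A 0 (fun _ _ => 1) N ω * (Real.log N / N)) atTop (𝓝 1) := by
    have h4 := avg_log_dens (a := fun _ => 1) (b := fun n => dens μ ℱ A n ω) (C := 1) (β := 1) (δ := 1) (fun n => by
      rw [abs_of_nonneg (h3 n).1]; exact (h3 n).2) 1 (by simpa using h2) (fun n => by simp) (by
      refine (tendsto_const_nhds (x := (1 : ℝ))).congr' ?_
      filter_upwards [eventually_gt_atTop 0] with n hn
      have : (0 : ℝ) < n := by exact_mod_cast hn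
      simp
      field_simp)
    rw [mul_one] at h4
    refine h4.congr fun N => ?_
    unfold Vw
    simp only [zero_add, pow_one]
    ring
  have hsm := small_scale (θ := 0) (by norm_num)
  have hdiff : Tendsto (fun N : ℕ => Sw μ ℱ A 0 (fun _ _ => 1) N ω * (Real.log N / N)) atTop (𝓝 0) := by
    rw [Metric.tendsto_nhds]
    intro ε hε
    obtain ⟨m, hm⟩ : ∃ m : ℕ, 1 / ((m : ℝ) + 1) * 2 < ε / 2 := by
      obtain ⟨m, hm⟩ := exists_nat_gt (4 / ε)
      refine ⟨m, ?_⟩
      rw [div_lt_iff₀ hε] at hm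
      rw [div_mul_eq_mul_div, div_lt_iff₀ (by positivity)]
      nlinarith
    have h5 := (hsm.const_mul (2 * ((m : ℝ) + 1))).eventually (gt_mem_nhds (show 2 * ((m : ℝ) + 1) * 0 < ε / 2 by rw [mul_zero]; positivity))
    filter_upwards [h1 m, hV.eventually (gt_mem_nhds (show (1 : ℝ) < 2 by norm_num)), h5, eventually_gt_atTop 1] with N g1 g2 g3 g4
    have hN0 : (0 : ℝ) < N := by exact_mod_cast (by omega : 0 < N)
    have hl : 0 < Real.log (N : ℝ) := Real.log_pos (by exact_mod_cast g4)
    have ht : 0 < Real.log (N : ℝ) / N := by positivity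
    rw [Real.dist_eq, sub_zero, abs_mul, abs_of_pos ht]
    rw [Real.rpow_zero, one_mul] at g3
    calc |Sw μ ℱ A 0 (fun _ _ => 1) N ω| * (Real.log N / N) ≤
        ((1 / ((m : ℝ) + 1)) * Vw μ ℱ A 0 (fun _ _ => 1) N ω + 2 * Real.log N / (1 / ((m : ℝ) + 1))) * (Real.log N / N) :=
          mul_le_mul_of_nonneg_right g1.le ht.le
      _ = (1 / ((m : ℝ) + 1)) * (Vw μ ℱ A 0 (fun _ _ => 1) N ω * (Real.log N / N)) + 2 * ((m : ℝ) + 1) * (Real.log N * (Real.log N / N)) := by
          field_simp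
      _ < ε / 2 + ε / 2 := by
          refine add_lt_add ?_ g3
          refine lt_of_le_of_lt ?_ hm
          exact mul_le_mul_of_nonneg_left g2.le (by positivity)
      _ = ε := by ring
  have h4 := hdiff.add hV
  rw [zero_add] at h4
  refine h4.congr fun N => ?_
  rw [← add_mul]
  congr 1
  unfold Sw Vw
  rw [← Finset.sum_add_distrib]
  refine Finset.sum_congr rfl fun k _ => ?_
  simp only [zero_add]
  ring

/-- the exponential sums over the gaps, in terms of the ages -/
noncomputable def GN (A : ℕ → Set Ω) (s : ℝ) (ω : Ω) (N : ℕ) : ℝ :=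
  ∑ n ∈ Finset.Ico 2 N, ph (rset A ω) s n * En (rset A ω) s n * (A (n + 1)).indicator (fun _ => (1 : ℝ)) ω

theorem mgf_core (hA : ∀ n, MeasurableSet[ℱ n] (A n))
    (hd : ∀ᵐ ω ∂μ, Tendsto (fun n : ℕ => dens μ ℱ A n ω * Real.log n) atTop (𝓝 1)) {s : ℝ} (hs : s < 1) :
    ∀ᵐ ω ∂μ, Tendsto (fun N : ℕ => GN A s ω N * (Real.log N / N)) atTop (𝓝 (1 / (1 - s))) := by
  classical
  set θ : ℝ := max ((s + 1) / 2) (1 / 2) with hθ
  have hθ0 : 0 < θ := lt_of_lt_of_le (by norm_num) (le_max_right _ _)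
  have hsθ : s < θ := lt_of_lt_of_le (by linarith) (le_max_left _ _)
  have hθ1 : θ < 1 := max_lt (by linarith) (by norm_num)
  have h01 : ∀ᵐ ω ∂μ, ∀ n, 0 ≤ dens μ ℱ A n ω ∧ dens μ ℱ A n ω ≤ 1 := ae_all_iff.2 fun n => dens01 hA n
  filter_upwards [lln_all (μ := μ) hA (fun N k ω => wW A s (((N : ℝ) + 1) ^ θ) k ω) (fun N k => wW_meas hA s _ k)
    (fun N k ω => wW_01 (by positivity) k ω), hd, rec_law hA hd, pi_law hA hd, h01] with ω h1 h2 h3 h4 h5
  obtain ⟨hH, -, -⟩ := h3
  set S := rset A ω with hS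
  set I : ℕ → ℝ := fun n => (A (n + 1)).indicator (fun _ => (1 : ℝ)) ω with hI
  have hI' : ∀ n, I n = if n + 1 ∈ S then 1 else 0 := by
    intro n
    simp only [hI]
    rw [Set.indicator_apply]
    rfl
  set d : ℕ → ℝ := fun n => dens μ ℱ A n ω with hdd
  set Y : ℕ → ℝ := fun N => ∑ n ∈ Finset.Ico 2 N, ph S s n / Real.log n with hY
  have hb0 : ∀ n : ℕ, 0 ≤ ph S s n / Real.log n := fun n => div_nonneg (ph_nonneg S s n) (Real.log_natCast_nonneg n)
  have hY0 : ∀ N, 0 ≤ Y N := fun N => Finset.sum_nonneg fun n _ => hb0 n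
  set D : ℕ → ℝ := fun N => ∑ n ∈ Finset.Ico 2 N, ph S s n * En S s n * d n with hD
  set PI : ℕ → ℝ := fun N => ∑ n ∈ Finset.Ico 2 N, I n with hPI
  set t : ℕ → ℝ := fun N => Real.log N / N with ht
  have hθt := small_scale hθ1
  have htlim : Tendsto t atTop (𝓝 0) := by
    have h6 : Tendsto (fun x : ℝ => Real.log x / x) atTop (𝓝 0) := by
      have := (isLittleO_log_rpow_atTop (zero_lt_one)).tendsto_div_nhds_zero
      simpa using this
    exact h6.comp (tendsto_natCast_atTop_atTop (R := ℝ))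
  have ht0 : ∀ N, 0 ≤ t N := fun N => div_nonneg (Real.log_natCast_nonneg N) (Nat.cast_nonneg N)
  -- the number of members
  have hPIlim : Tendsto (fun N => PI N * t N) atTop (𝓝 1) := by
    have h6 : Tendsto (fun N : ℕ => (∑ n ∈ Finset.range 2, I n) * t N) atTop (𝓝 ((∑ n ∈ Finset.range 2, I n) * 0)) := htlim.const_mul _
    rw [mul_zero] at h6
    have h7 := h4.sub h6
    rw [sub_zero] at h7
    refine h7.congr' ?_
    filter_upwards [eventually_ge_atTop 2] with N hN
    rw [← sub_mul]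
    congr 1
    simp only [hPI]
    rw [Finset.sum_Ico_eq_sub _ hN]
  -- the law of large numbers
  have hG : ∀ ε : ℝ, 0 < ε → ∀ᶠ N : ℕ in atTop, |GN A s ω N - D N| * t N ≤ ε * (D N * t N + 1) := by
    intro ε hε
    obtain ⟨m, hm⟩ : ∃ m : ℕ, 1 / ((m : ℝ) + 1) < ε := by
      obtain ⟨m, hm⟩ := exists_nat_gt (1 / ε)
      refine ⟨m, ?_⟩
      rw [div_lt_iff₀ hε] at hm
      rw [div_lt_iff₀ (by positivity)]
      nlinarith
    have h6 := (hθt.const_mul (2 * ((m : ℝ) + 1))).eventually (gt_mem_nhds (show 2 * ((m : ℝ) + 1) * 0 < ε by rw [mul_zero]; exact hε))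
    filter_upwards [h1 m, h6, ph_small' hH hsθ hθ0, eventually_ge_atTop 2] with N g1 g2 g3 g4
    set W : ℝ := ((N : ℝ) + 1) ^ θ with hW
    have hW0 : 0 < W := by positivity
    have hNW : (N : ℝ) ^ θ ≤ W := Real.rpow_le_rpow (Nat.cast_nonneg N) (by linarith) hθ0.le
    have hw : ∀ k, k < N → wW A s W k ω * W = if 2 ≤ k then ph S s k * En S s k else 0 := by
      intro k hk
      unfold wW
      split_ifs with h7
      · rw [min_eq_left, div_mul_cancel₀ _ hW0.ne']
        rw [div_le_one hW0]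
        exact (g3 k hk).trans hNW
      · rw [zero_mul]
    have hsplit : ∀ f : ℕ → ℝ, (∑ k ∈ Finset.range N, (if 2 ≤ k then f k else 0)) = ∑ k ∈ Finset.Ico 2 N, f k := by
      intro f
      rw [← Finset.sum_filter]
      refine Finset.sum_congr ?_ fun _ _ => rfl
      ext k
      simp only [Finset.mem_filter, Finset.mem_range, Finset.mem_Ico]
      tauto
    have e1 : Sw μ ℱ A 0 (fun k ω => wW A s W k ω) N ω * W = GN A s ω N - D N := by
      unfold Sw GN
      simp only [hD]
      rw [Finset.sum_mul, ← Finset.sum_sub_distrib, ← hsplit]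
      refine Finset.sum_congr rfl fun k hk => ?_
      have := hw k (Finset.mem_range.1 hk)
      simp only [zero_add]
      calc wW A s W k ω * ((A (k + 1)).indicator (fun _ => (1 : ℝ)) ω - dens μ ℱ A k ω) * W =
          (wW A s W k ω * W) * ((A (k + 1)).indicator (fun _ => (1 : ℝ)) ω - dens μ ℱ A k ω) := by ring
        _ = _ := by
            rw [this]
            split_ifs
            · simp only [hdd]
              ring
            · ring
    have e2 : Vw μ ℱ A 0 (fun k ω => wW A s W k ω) N ω * W = D N := by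
      unfold Vw
      simp only [hD]
      rw [Finset.sum_mul, ← hsplit]
      refine Finset.sum_congr rfl fun k hk => ?_
      have := hw k (Finset.mem_range.1 hk)
      simp only [zero_add]
      calc wW A s W k ω * dens μ ℱ A k ω * W = (wW A s W k ω * W) * dens μ ℱ A k ω := by ring
        _ = _ := by
            rw [this]
            split_ifs
            · rfl
            · ring
    have e3 : |GN A s ω N - D N| ≤ 1 / ((m : ℝ) + 1) * D N + 2 * ((m : ℝ) + 1) * (W * Real.log N) := by
      rw [← e1, ← e2, abs_mul, abs_of_pos hW0]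
      calc |Sw μ ℱ A 0 (fun k ω => wW A s W k ω) N ω| * W ≤
          ((1 / ((m : ℝ) + 1)) * Vw μ ℱ A 0 (fun k ω => wW A s W k ω) N ω + 2 * Real.log N / (1 / ((m : ℝ) + 1))) * W :=
            mul_le_mul_of_nonneg_right g1.le hW0.le
        _ = _ := by field_simp
    have hD0 : 0 ≤ D N := Finset.sum_nonneg fun n _ => mul_nonneg (mul_nonneg (ph_nonneg S s n) (Real.exp_pos _).le) (h5 n).1
    calc |GN A s ω N - D N| * t N ≤ (1 / ((m : ℝ) + 1) * D N + 2 * ((m : ℝ) + 1) * (W * Real.log N)) * t N :=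
          mul_le_mul_of_nonneg_right e3 (ht0 N)
      _ = 1 / ((m : ℝ) + 1) * (D N * t N) + 2 * ((m : ℝ) + 1) * (W * Real.log N * t N) := by ring
      _ ≤ ε * (D N * t N) + ε := by
          refine add_le_add ?_ g2.le
          exact mul_le_mul_of_nonneg_right hm.le (mul_nonneg hD0 (ht0 N))
      _ = _ := by ring
  -- comparison of `D` and `Y`
  have hDY : ∀ ε : ℝ, 0 < ε → ∀ᶠ N : ℕ in atTop, |D N - Y N| * t N ≤ ε * (Y N * t N + 1) := by
    intro ε hε
    obtain ⟨C, hC0, hC⟩ := sum_cmp (a := fun n => ph S s n * En S s n * d n) (b := fun n => ph S s n / Real.log n) hε.le hb0 (comp_ev hH s h2 hε)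
    have h6 := (htlim.const_mul C).eventually (gt_mem_nhds (show C * 0 < ε by rw [mul_zero]; exact hε))
    filter_upwards [h6] with N hN
    calc |D N - Y N| * t N ≤ (ε * Y N + C) * t N := mul_le_mul_of_nonneg_right (hC N) (ht0 N)
      _ = ε * (Y N * t N) + C * t N := by ring
      _ ≤ _ := by linarith
  have hinc : ∀ ε : ℝ, 0 < ε → ∀ᶠ N : ℕ in atTop, |∑ n ∈ Finset.Ico 2 N, ph S s n * (En S s n - 1) - s * Y N| * t N ≤ ε * (Y N * t N + 1) := by
    intro ε hε
    have h7 := inc_ev hH s hε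
    obtain ⟨n₁, hn₁⟩ := eventually_atTop.1 h7
    -- a shifted comparison
    have h8 : ∃ C : ℝ, 0 ≤ C ∧ ∀ N, |∑ n ∈ Finset.Ico 2 N, ph S s n * (En S s n - 1) - s * Y N| ≤ ε * Y N + C := by
      obtain ⟨C, hC0, hC⟩ := sum_cmp (a := fun n => (ph S s n * (En S s n - 1) - s * (ph S s n / Real.log n)) + ph S s n / Real.log n)
        (b := fun n => ph S s n / Real.log n) hε.le hb0 (by
        filter_upwards [h7] with n hn
        rwa [add_sub_cancel_right])
      refine ⟨C, hC0, fun N => ?_⟩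
      have := hC N
      rw [Finset.sum_add_distrib, add_sub_cancel_right, Finset.sum_sub_distrib, ← Finset.mul_sum] at this
      exact this
    obtain ⟨C, hC0, hC⟩ := h8
    have h6 := (htlim.const_mul C).eventually (gt_mem_nhds (show C * 0 < ε by rw [mul_zero]; exact hε))
    filter_upwards [h6] with N hN
    calc |∑ n ∈ Finset.Ico 2 N, ph S s n * (En S s n - 1) - s * Y N| * t N ≤ (ε * Y N + C) * t N := mul_le_mul_of_nonneg_right (hC N) (ht0 N)
      _ = ε * (Y N * t N) + C * t N := by ring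
      _ ≤ _ := by linarith
  -- the boundary terms
  have hbd : Tendsto (fun N : ℕ => (ph S s N - ph S s 2) * t N) atTop (𝓝 0) := by
    have h6 : Tendsto (fun N : ℕ => ph S s N * t N) atTop (𝓝 0) := by
      have hθt' := hθt.mul_const (Real.exp |s|)
      rw [zero_mul] at hθt'
      refine squeeze_zero' (Eventually.of_forall fun N => mul_nonneg (ph_nonneg S s N) (ht0 N)) ?_ hθt'
      filter_upwards [ph_small hH hsθ hθ0, tendsto_log.eventually_ge_atTop 1, (last_log_top hH).eventually_ge_atTop 1] with N g1 g2 g3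
      have g4 : ph S s N ≤ (N : ℝ) ^ θ * Real.exp |s| := by
        have g5 : 1 ≤ En S s N * Real.exp |s| := by
          unfold En
          rw [← Real.exp_add]
          apply Real.one_le_exp
          have g6 : |s / Real.log ((N - ag S N : ℕ) : ℝ)| ≤ |s| := by
            rw [abs_div, abs_of_pos (by linarith : 0 < Real.log ((N - ag S N : ℕ) : ℝ))]
            exact div_le_self (abs_nonneg s) g3
          have := (abs_le.1 g6).1
          linarith
        calc ph S s N = ph S s N * 1 := (mul_one _).symm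
          _ ≤ ph S s N * (En S s N * Real.exp |s|) := mul_le_mul_of_nonneg_left g5 (ph_nonneg S s N)
          _ = (ph S s N * En S s N) * Real.exp |s| := by ring
          _ ≤ _ := mul_le_mul_of_nonneg_right g1 (Real.exp_pos _).le
      have g5 : (N : ℝ) ^ θ ≤ ((N : ℝ) + 1) ^ θ * Real.log N := by
        calc (N : ℝ) ^ θ ≤ ((N : ℝ) + 1) ^ θ := Real.rpow_le_rpow (Nat.cast_nonneg N) (by linarith) hθ0.le
          _ ≤ _ := le_mul_of_one_le_right (by positivity) g2
      calc ph S s N * t N ≤ ((N : ℝ) ^ θ * Real.exp |s|) * t N := mul_le_mul_of_nonneg_right g4 (ht0 N)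
        _ = (N : ℝ) ^ θ * t N * Real.exp |s| := by ring
        _ ≤ (((N : ℝ) + 1) ^ θ * Real.log N) * t N * Real.exp |s| := by
            apply mul_le_mul_of_nonneg_right _ (Real.exp_pos _).le
            exact mul_le_mul_of_nonneg_right g5 (ht0 N)
    have h7 := h6.sub (htlim.const_mul (ph S s 2))
    rw [mul_zero, sub_zero] at h7
    refine h7.congr fun N => ?_
    ring
  -- the identity
  have hid : ∀ᶠ N : ℕ in atTop, GN A s ω N * t N = (∑ n ∈ Finset.Ico 2 N, ph S s n * (En S s n - 1)) * t N + PI N * t N - (ph S s N - ph S s 2) * t N := by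
    filter_upwards [eventually_ge_atTop 2] with N hN
    have h6 := tel S s N hN
    have h7 : GN A s ω N = ∑ n ∈ Finset.Ico 2 N, ph S s n * En S s n * (if n + 1 ∈ S then 1 else 0) := by
      unfold GN
      refine Finset.sum_congr rfl fun n _ => ?_
      rw [← hI' n]
    have h8 : PI N = ∑ n ∈ Finset.Ico 2 N, (if n + 1 ∈ S then (1 : ℝ) else 0) := Finset.sum_congr rfl fun n _ => hI' n
    rw [h7, h6, ← h8]
    ring
  -- the combination
  set y : ℕ → ℝ := fun N => Y N * t N with hy
  have hy0 : ∀ N, 0 ≤ y N := fun N => mul_nonneg (hY0 N) (ht0 N)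
  have hGy : ∀ ε : ℝ, 0 < ε → ε ≤ 1 → ∀ᶠ N : ℕ in atTop, |GN A s ω N * t N - y N| ≤ 4 * ε * (y N + 1) := by
    intro ε hε hε1
    filter_upwards [hG ε hε, hDY ε hε] with N g1 g2
    have g3 : D N * t N ≤ y N + ε * (y N + 1) := by
      have : (D N - Y N) * t N ≤ |D N - Y N| * t N := mul_le_mul_of_nonneg_right (le_abs_self _) (ht0 N)
      have e : (D N - Y N) * t N = D N * t N - y N := by simp only [hy]; ring
      linarith
    have e : GN A s ω N * t N - y N = (GN A s ω N - D N) * t N + (D N - Y N) * t N := by simp only [hy]; ring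
    rw [e]
    refine (abs_add_le _ _).trans ?_
    rw [abs_mul, abs_mul, abs_of_nonneg (ht0 N)]
    have g4 := hy0 N
    have g5 : ε * (D N * t N + 1) ≤ ε * (2 * (y N + 1) + (y N + 1)) := by
      apply mul_le_mul_of_nonneg_left _ hε.le
      nlinarith
    nlinarith
  have hmain : ∀ ε : ℝ, 0 < ε → ∀ᶠ N in atTop, |(1 - s) * y N - 1| ≤ ε * (y N + 1) := by
    intro ε hε
    set ε' : ℝ := min 1 (ε / 8) with hε'
    have hε'0 : 0 < ε' := lt_min one_pos (by positivity)
    have hε'8 : ε' ≤ ε / 8 := min_le_right _ _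
    have h6 : ∀ᶠ N in atTop, |PI N * t N - 1| < ε' := by
      have := (hPIlim.sub_const 1).abs
      rw [sub_self, abs_zero] at this
      exact this.eventually (gt_mem_nhds hε'0)
    have h7 : ∀ᶠ N : ℕ in atTop, |(ph S s N - ph S s 2) * t N| < ε' := by
      have := hbd.abs
      rw [abs_zero] at this
      exact this.eventually (gt_mem_nhds hε'0)
    filter_upwards [hGy ε' hε'0 (min_le_left _ _), hinc ε' hε'0, hid, h6, h7] with N g1 g2 g3 g4 g5
    set Z := ∑ n ∈ Finset.Ico 2 N, ph S s n * (En S s n - 1) with hZ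
    have g2' : |Z * t N - s * y N| ≤ ε' * (y N + 1) := by
      have e : Z * t N - s * y N = (Z - s * Y N) * t N := by simp only [hy]; ring
      rw [e, abs_mul, abs_of_nonneg (ht0 N)]
      exact g2
    have e : (1 - s) * y N - 1 = -(GN A s ω N * t N - y N) + (Z * t N - s * y N) + (PI N * t N - 1) - (ph S s N - ph S s 2) * t N := by
      rw [g3]
      ring
    have g6 := hy0 N
    have b1 := abs_le.1 g1
    have b2 := abs_le.1 g2'
    have b3 := abs_le.1 g4.le
    have b4 := abs_le.1 g5.le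
    have b5 : ε' ≤ ε' * (y N + 1) := le_mul_of_one_le_right hε'0.le (by linarith)
    have b6 : ε' * (y N + 1) ≤ ε / 8 * (y N + 1) := mul_le_mul_of_nonneg_right hε'8 (by linarith)
    rw [e, abs_le]
    constructor <;> nlinarith
  have hylim := lim_aux (by linarith : 0 < 1 - s) (Eventually.of_forall hy0) hmain
  -- `GN` and `y` have the same limit
  have hdiff : Tendsto (fun N => GN A s ω N * t N - y N) atTop (𝓝 0) := by
    have hB : 0 < 1 / (1 - s) + 2 := by
      have : 0 < 1 - s := by linarith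
      positivity
    rw [Metric.tendsto_nhds]
    intro ε hε
    set ε' : ℝ := min 1 (ε / (8 * (1 / (1 - s) + 2))) with hε'
    have hε'0 : 0 < ε' := lt_min one_pos (by positivity)
    filter_upwards [hGy ε' hε'0 (min_le_left _ _), hylim.eventually (gt_mem_nhds (show 1 / (1 - s) < 1 / (1 - s) + 1 by linarith))] with N g1 g2
    rw [Real.dist_eq, sub_zero]
    refine g1.trans_lt ?_
    have g3 : ε' ≤ ε / (8 * (1 / (1 - s) + 2)) := min_le_right _ _
    have g4 := hy0 N
    calc 4 * ε' * (y N + 1) ≤ 4 * (ε / (8 * (1 / (1 - s) + 2))) * (1 / (1 - s) + 2) := by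
          apply mul_le_mul (by linarith) (by linarith) (by linarith) (by positivity)
      _ = ε / 2 := by field_simp; norm_num
      _ < ε := by linarith
  have := hdiff.add hylim
  rw [zero_add] at this
  refine this.congr fun N => ?_
  ring

end Pool.Agent.R528.RM
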