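import Mathlib
import Pool.Agent.R528.RM.Mgf2

set_option autoImplicit false
set_option linter.unusedSectionVars false

/-! # Exponential moments of the gaps: general test functions -/

open MeasureTheory Filter Set Polynomial
open scoped ENNReal Topology

namespace Pool.Agent.R528.RM

/-- the normalised gap -/
noncomputable def tg (S : Set ℕ) (i : ℕ) : ℝ := ((pn S (i + 1) : ℝ) - pn S i) / Real.log (pn S i)

/-- the gaps ending at or before `N` -/
noncomputable def idx (S : Set ℕ) (N : ℕ) : Finset ℕ := (Finset.range N).filter (fun i => pn S (i + 1) ≤ N)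

/-- sums over the gaps -/
noncomputable def As (S : Set ℕ) (N : ℕ) (f : ℝ → ℝ) : ℝ := ∑ i ∈ idx S N, f (tg S i)

lemma tg_nonneg {S : Set ℕ} (hS : S.Infinite) (i : ℕ) : 0 ≤ tg S i := by
  have h := nth_mono hS (Nat.lt_succ_self i)
  simp only [Nat.succ_eq_add_one] at h
  have h' : (pn S i : ℝ) ≤ pn S (i + 1) := by exact_mod_cast h.le
  exact div_nonneg (by linarith) (Real.log_natCast_nonneg _)

lemma cons_pn {S : Set ℕ} (hS : S.Infinite) (i : ℕ) : Cons S (pn S i) (pn S (i + 1)) := by
  refine ⟨nth_mem hS i, nth_mem hS (i + 1), nth_mono hS (Nat.lt_succ_self i), fun m h1 h2 h3 => ?_⟩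
  obtain ⟨j, hj⟩ := exists_nth h3
  rw [← hj] at h1 h2
  have h4 := (nth_mono hS).lt_iff_lt.1 h1
  have h5 := (nth_mono hS).lt_iff_lt.1 h2
  omega

lemma le_pn {S : Set ℕ} (hS : S.Infinite) (i : ℕ) : i ≤ pn S i := (nth_mono hS).le_apply

open Classical in
/-- the exponential sums in the two forms -/
lemma As_GN {S : Set ℕ} (hS : S.Infinite) (s : ℝ) (N : ℕ) :
    ∑ i ∈ (idx S N).filter (fun i => 3 ≤ pn S i), Real.exp (s * tg S i) =
      ∑ n ∈ Finset.Ico 2 N, ph S s n * En S s n * (if n + 1 ∈ S then 1 else 0) := by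
  have h1 : ∑ n ∈ Finset.Ico 2 N, ph S s n * En S s n * (if n + 1 ∈ S then 1 else 0) =
      ∑ n ∈ (Finset.Ico 2 N).filter (fun n => n + 1 ∈ S ∧ 3 ≤ n - ag S n),
        Real.exp (s * (((ag S n : ℝ) + 1) / Real.log ((n - ag S n : ℕ) : ℝ))) := by
    rw [Finset.sum_filter]
    refine Finset.sum_congr rfl fun n _ => ?_
    unfold ph En
    by_cases h2 : n + 1 ∈ S
    · by_cases h3 : 3 ≤ n - ag S n
      · rw [if_pos h3, if_pos h2, if_pos ⟨h2, h3⟩, mul_one, ← Real.exp_add]
        congr 1
        ring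
      · rw [if_neg h3, if_pos h2, if_neg (show ¬ (n + 1 ∈ S ∧ 3 ≤ n - ag S n) from fun h => h3 h.2)]
        ring
    · rw [if_neg h2, if_neg (show ¬ (n + 1 ∈ S ∧ 3 ≤ n - ag S n) from fun h => h2 h.1), mul_zero]
  rw [h1]
  refine Finset.sum_nbij (fun i => pn S (i + 1) - 1) ?_ ?_ ?_ ?_
  · intro i hi
    simp only [idx, Finset.mem_filter, Finset.mem_range] at hi
    obtain ⟨⟨_, h3⟩, h4⟩ := hi
    have hc := cons_pn hS i
    have h5 := hc.2.2.1
    obtain ⟨n, hn⟩ : ∃ n, pn S (i + 1) = n + 1 := ⟨pn S (i + 1) - 1, by omega⟩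
    rw [hn] at hc h5 h3
    have h6 := ag_of_cons hc
    simp only [Finset.mem_filter, Finset.mem_Ico, hn, Nat.add_sub_cancel]
    exact ⟨⟨by omega, by omega⟩, hc.2.1, by omega⟩
  · intro i hi j hj hij
    have h2 := (cons_pn hS i).2.2.1
    have h3 := (cons_pn hS j).2.2.1
    have h4 : pn S (i + 1) = pn S (j + 1) := by
      simp only at hij
      omega
    have := (nth_mono hS).injective h4
    omega
  · intro n hn
    simp only [Finset.coe_filter, Set.mem_ofPred_eq, Finset.mem_Ico] at hn
    obtain ⟨⟨h2, h3⟩, h4, h5⟩ := hn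
    have h6 : n - ag S n ∈ S := by
      rcases ag_mem S n with h | h
      · omega
      · exact h
    obtain ⟨i, hi⟩ := exists_nth h6
    have hc := cons_pn hS i
    have hag := ag_le S n
    have h7 : pn S (i + 1) = n + 1 := by
      rcases lt_trichotomy (pn S (i + 1)) (n + 1) with h | h | h
      · exfalso
        have := hc.2.2.1
        exact ag_empty S n (pn S (i + 1)) (by omega) (by omega) hc.2.1
      · exact h
      · exfalso
        exact hc.2.2.2 (n + 1) (by omega) h h4
    refine ⟨i, ?_, by simp only; omega⟩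
    rw [Finset.mem_coe, Finset.mem_filter]
    unfold idx
    rw [Finset.mem_filter, Finset.mem_range]
    have h8 := le_pn hS (i + 1)
    exact ⟨⟨by omega, by omega⟩, by omega⟩
  · intro i hi
    simp only [idx, Finset.mem_filter, Finset.mem_range] at hi
    have hc := cons_pn hS i
    have h5 := hc.2.2.1
    obtain ⟨n, hn⟩ : ∃ n, pn S (i + 1) = n + 1 := ⟨pn S (i + 1) - 1, by omega⟩
    rw [hn] at hc h5
    have h6 := ag_of_cons hc
    simp only [hn, Nat.add_sub_cancel]
    unfold tg
    rw [hn, h6]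
    congr 2
    have h7 : n - (n - pn S i) = pn S i := by omega
    rw [h7, Nat.cast_sub (by omega)]
    push_cast
    congr 1
    ring

/-- sums of terms with small members -/
lemma As_split {S : Set ℕ} (hS : S.Infinite) (f : ℝ → ℝ) (N : ℕ) :
    |As S N f - ∑ i ∈ (idx S N).filter (fun i => 3 ≤ pn S i), f (tg S i)| ≤ ∑ i ∈ Finset.range 3, |f (tg S i)| := by
  unfold As
  rw [← Finset.sum_filter_add_sum_filter_not (idx S N) (fun i => 3 ≤ pn S i), add_sub_cancel_left]
  refine (Finset.abs_sum_le_sum_abs _ _).trans ?_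
  refine Finset.sum_le_sum_of_subset_of_nonneg ?_ fun _ _ _ => abs_nonneg _
  intro i hi
  have h1 := (Finset.mem_filter.1 hi).2
  have h2 := le_pn hS i
  exact Finset.mem_range.2 (by omega)

section test

variable {S : Set ℕ} {t : ℕ → ℝ}

/-- from exponentials to general test functions -/
theorem test_fun (hS : S.Infinite) (ht0 : ∀ N, 0 ≤ t N)
    (h : ∀ q : ℚ, (q : ℝ) < 1 → Tendsto (fun N => As S N (fun x => Real.exp (q * x)) * t N) atTop (𝓝 (1 / (1 - q))))
    {f : ℝ → ℝ} (hf : ContinuousOn f (Ici 0)) {s C : ℝ} (hs : s < 1) (hC : ∀ x, 0 ≤ x → |f x| ≤ C * Real.exp (s * x)) :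
    Tendsto (fun N => As S N f * t N) atTop (𝓝 (∫ x in Ioi 0, f x * Real.exp (-x))) := by
  obtain ⟨q, hq1, hq2⟩ := exists_rat_btwn hs
  have hC0 : 0 ≤ C := by
    have := hC 0 le_rfl
    rw [mul_zero, Real.exp_zero, mul_one] at this
    exact (abs_nonneg _).trans this
  -- the function on `[0, 1]`
  set g : ℝ → ℝ := fun u => if u ≤ 0 then 0 else f (-Real.log u) * u ^ (q : ℝ) with hg
  have hgc : ContinuousOn g (Icc 0 1) := by
    intro u hu
    rcases eq_or_lt_of_le hu.1 with h0 | h0
    · -- at `0`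
      rw [← h0]
      have hg0 : g 0 = 0 := by simp [hg]
      unfold ContinuousWithinAt
      rw [hg0]
      have hlim : Tendsto (fun u : ℝ => C * u ^ ((q : ℝ) - s)) (𝓝[Icc 0 1] 0) (𝓝 0) := by
        have h1 : Tendsto (fun u : ℝ => C * u ^ ((q : ℝ) - s)) (𝓝 0) (𝓝 (C * 0 ^ ((q : ℝ) - s))) :=
          ((Real.continuousAt_rpow_const 0 _ (Or.inr (by linarith))).tendsto).const_mul C
        rw [Real.zero_rpow (by linarith), mul_zero] at h1
        exact h1.mono_left nhdsWithin_le_nhds
      refine squeeze_zero_norm' ?_ hlim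
      filter_upwards [self_mem_nhdsWithin] with v hv
      simp only [hg]
      split_ifs with hv0
      · rw [norm_zero]
        have : 0 ≤ v ^ ((q : ℝ) - s) := Real.rpow_nonneg hv.1 _
        positivity
      · push Not at hv0
        rw [Real.norm_eq_abs, abs_mul, abs_of_pos (Real.rpow_pos_of_pos hv0 _)]
        have h1 := hC (-Real.log v) (by have := Real.log_nonpos hv.1 hv.2; linarith)
        calc |f (-Real.log v)| * v ^ (q : ℝ) ≤ C * Real.exp (s * (-Real.log v)) * v ^ (q : ℝ) :=
              mul_le_mul_of_nonneg_right h1 (Real.rpow_nonneg hv.1 _)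
          _ = C * v ^ ((q : ℝ) - s) := by
              rw [Real.rpow_def_of_pos hv0, Real.rpow_def_of_pos hv0, mul_assoc, ← Real.exp_add]
              congr 2
              ring
    · -- inside
      have h1 : ContinuousWithinAt (fun u : ℝ => f (-Real.log u) * u ^ (q : ℝ)) (Icc 0 1 ∩ Ioi 0) u := by
        refine ContinuousWithinAt.mul ?_ ?_
        · have h2 : ContinuousWithinAt f (Ici 0) (-Real.log u) := hf _ (by
            have := Real.log_nonpos hu.1 hu.2
            show (0 : ℝ) ≤ -Real.log u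
            linarith)
          have h3 : ContinuousWithinAt (fun u : ℝ => -Real.log u) (Icc 0 1 ∩ Ioi 0) u :=
            (Real.continuousAt_log h0.ne').neg.continuousWithinAt
          have h4 : MapsTo (fun u : ℝ => -Real.log u) (Icc 0 1 ∩ Ioi 0) (Ici 0) := by
            rintro v ⟨hv, hv0⟩
            have := Real.log_nonpos hv.1 hv.2
            show (0 : ℝ) ≤ -Real.log v
            linarith
          exact ContinuousWithinAt.comp (g := f) (f := fun u : ℝ => -Real.log u) h2 h3 h4
        · exact (Real.continuousAt_rpow_const u _ (Or.inl h0.ne')).continuousWithinAt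
      have h2 : ContinuousWithinAt g (Icc 0 1 ∩ Ioi 0) u := by
        refine h1.congr (fun v hv => ?_) ?_
        · simp only [hg]
          rw [if_neg (not_le.2 hv.2)]
        · simp only [hg]
          rw [if_neg (not_le.2 h0)]
      exact (continuousWithinAt_inter (Ioi_mem_nhds h0)).1 h2
  have hq0 : (0 : ℝ) < 1 - q := by linarith
  -- the integrals
  have hint : ∀ a : ℝ, a < 1 → IntegrableOn (fun x : ℝ => Real.exp (a * x) * Real.exp (-x)) (Ioi 0) ∧
      ∫ x in Ioi 0, Real.exp (a * x) * Real.exp (-x) = 1 / (1 - a) := by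
    intro a ha
    have e : (fun x : ℝ => Real.exp (a * x) * Real.exp (-x)) = fun x => Real.exp ((a - 1) * x) := by
      funext x
      rw [← Real.exp_add]
      congr 1
      ring
    rw [e]
    refine ⟨integrableOn_exp_mul_Ioi (by linarith) 0, ?_⟩
    rw [integral_exp_mul_Ioi (by linarith) 0, mul_zero, Real.exp_zero]
    have : a - 1 ≠ 0 := by linarith
    have : 1 - a ≠ 0 := by linarith
    field_simp
    ring
  have hfm : IntegrableOn (fun x : ℝ => f x * Real.exp (-x)) (Ioi 0) := by
    have h1 : AEStronglyMeasurable (fun x : ℝ => f x * Real.exp (-x)) (volume.restrict (Ioi 0)) := by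
      have : ContinuousOn (fun x : ℝ => f x * Real.exp (-x)) (Ioi 0) :=
        (hf.mono Ioi_subset_Ici_self).mul (Real.continuous_exp.comp continuous_neg).continuousOn
      exact this.aestronglyMeasurable measurableSet_Ioi
    refine Integrable.mono' ((hint s hs).1.const_mul C) h1 ?_
    filter_upwards [ae_restrict_mem measurableSet_Ioi] with x hx
    have hx' : (0 : ℝ) < x := hx
    rw [Real.norm_eq_abs, abs_mul, abs_of_pos (Real.exp_pos _)]
    calc |f x| * Real.exp (-x) ≤ C * Real.exp (s * x) * Real.exp (-x) := mul_le_mul_of_nonneg_right (hC x hx'.le) (Real.exp_pos _).le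
      _ = _ := by ring
  rw [Metric.tendsto_nhds]
  intro ε hε
  set η : ℝ := ε * (1 - q) / 8 with hη
  have hη0 : 0 < η := by positivity
  obtain ⟨P, hP⟩ := exists_polynomial_near_of_continuousOn 0 1 g hgc η hη0
  -- the approximation
  have happ : ∀ x : ℝ, 0 ≤ x → |f x - Real.exp (q * x) * P.eval (Real.exp (-x))| ≤ η * Real.exp (q * x) := by
    intro x hx
    have h1 := hP (Real.exp (-x)) ⟨(Real.exp_pos _).le, Real.exp_le_one_iff.2 (by linarith)⟩
    simp only [hg] at h1
    rw [if_neg (not_le.2 (Real.exp_pos _)), Real.log_exp, neg_neg, ← Real.exp_mul] at h1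
    have h2 : f x - Real.exp (q * x) * P.eval (Real.exp (-x)) = -(Real.exp (q * x) * (P.eval (Real.exp (-x)) - f x * Real.exp (-x * q))) := by
      have : Real.exp (q * x) * (f x * Real.exp (-x * q)) = f x := by
        rw [mul_left_comm, ← Real.exp_add]
        have : (q : ℝ) * x + -x * q = 0 := by ring
        rw [this, Real.exp_zero, mul_one]
      rw [mul_sub, this]
      ring
    rw [h2, abs_neg, abs_mul, abs_of_pos (Real.exp_pos _), mul_comm]
    exact mul_le_mul_of_nonneg_right h1.le (Real.exp_pos _).le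
  -- the polynomial part
  have hpoly : ∀ x : ℝ, Real.exp (q * x) * P.eval (Real.exp (-x)) = ∑ j ∈ Finset.range (P.natDegree + 1), P.coeff j * Real.exp (((q - j : ℚ) : ℝ) * x) := by
    intro x
    rw [Polynomial.eval_eq_sum_range, Finset.mul_sum]
    refine Finset.sum_congr rfl fun j _ => ?_
    rw [← Real.exp_nat_mul]
    rw [mul_left_comm, ← Real.exp_add]
    congr 2
    push_cast
    ring
  set L : ℝ := ∑ j ∈ Finset.range (P.natDegree + 1), P.coeff j * (1 / (1 - ((q - j : ℚ) : ℝ))) with hL
  have hqj : ∀ j : ℕ, (((q - j : ℚ)) : ℝ) < 1 := by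
    intro j
    push_cast
    linarith [Nat.cast_nonneg (α := ℝ) j]
  have hlimP : Tendsto (fun N => As S N (fun x => Real.exp (q * x) * P.eval (Real.exp (-x))) * t N) atTop (𝓝 L) := by
    have h1 : Tendsto (fun N => ∑ j ∈ Finset.range (P.natDegree + 1), P.coeff j * (As S N (fun x => Real.exp (((q - j : ℚ) : ℝ) * x)) * t N)) atTop (𝓝 L) :=
      tendsto_finsetSum _ fun j _ => (h (q - j) (hqj j)).const_mul _
    refine h1.congr fun N => ?_
    unfold As
    simp_rw [hpoly]
    rw [Finset.sum_comm, Finset.sum_mul]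
    refine Finset.sum_congr rfl fun j _ => ?_
    rw [← Finset.mul_sum]
    ring
  have hIP : |(∫ x in Ioi 0, f x * Real.exp (-x)) - L| ≤ η * (1 / (1 - q)) := by
    have h1 : ∫ x in Ioi 0, (Real.exp (q * x) * P.eval (Real.exp (-x))) * Real.exp (-x) = L := by
      have e : (fun x : ℝ => (Real.exp (q * x) * P.eval (Real.exp (-x))) * Real.exp (-x)) =
          fun x => ∑ j ∈ Finset.range (P.natDegree + 1), P.coeff j * (Real.exp (((q - j : ℚ) : ℝ) * x) * Real.exp (-x)) := by
        funext x
        rw [hpoly, Finset.sum_mul]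
        refine Finset.sum_congr rfl fun j _ => ?_
        ring
      rw [e, integral_finsetSum _ fun j _ => ((hint _ (hqj j)).1.const_mul _)]
      refine Finset.sum_congr rfl fun j _ => ?_
      rw [integral_const_mul, (hint _ (hqj j)).2]
    have h2 : IntegrableOn (fun x : ℝ => (Real.exp (q * x) * P.eval (Real.exp (-x))) * Real.exp (-x)) (Ioi 0) := by
      have e : (fun x : ℝ => (Real.exp (q * x) * P.eval (Real.exp (-x))) * Real.exp (-x)) =
          fun x => ∑ j ∈ Finset.range (P.natDegree + 1), P.coeff j * (Real.exp (((q - j : ℚ) : ℝ) * x) * Real.exp (-x)) := by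
        funext x
        rw [hpoly, Finset.sum_mul]
        refine Finset.sum_congr rfl fun j _ => ?_
        ring
      rw [e]
      exact integrable_finsetSum _ fun j _ => ((hint _ (hqj j)).1.const_mul _)
    rw [← h1, ← integral_sub hfm h2, ← (hint q hq2).2, ← integral_const_mul, ← Real.norm_eq_abs]
    refine norm_integral_le_of_norm_le ((hint q hq2).1.const_mul η) ?_
    filter_upwards [ae_restrict_mem measurableSet_Ioi] with x hx
    have hx' : (0 : ℝ) < x := hx
    rw [← sub_mul, Real.norm_eq_abs, abs_mul, abs_of_pos (Real.exp_pos _)]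
    calc |f x - Real.exp (q * x) * P.eval (Real.exp (-x))| * Real.exp (-x) ≤ η * Real.exp (q * x) * Real.exp (-x) :=
          mul_le_mul_of_nonneg_right (happ x hx'.le) (Real.exp_pos _).le
      _ = _ := by ring
  filter_upwards [hlimP.eventually (Metric.ball_mem_nhds L (show 0 < ε / 4 by positivity)),
    (h q hq2).eventually (gt_mem_nhds (show 1 / (1 - (q : ℝ)) < 2 * (1 / (1 - q)) by
      have : 0 < 1 / (1 - (q : ℝ)) := by positivity
      linarith))] with N g1 g2
  have g3 : |As S N f * t N - As S N (fun x => Real.exp (q * x) * P.eval (Real.exp (-x))) * t N| ≤ η * (As S N (fun x => Real.exp (q * x)) * t N) := by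
    rw [← sub_mul, abs_mul, abs_of_nonneg (ht0 N), ← mul_assoc]
    apply mul_le_mul_of_nonneg_right _ (ht0 N)
    unfold As
    rw [← Finset.sum_sub_distrib, Finset.mul_sum]
    exact (Finset.abs_sum_le_sum_abs _ _).trans (Finset.sum_le_sum fun i _ => happ _ (tg_nonneg hS i))
  rw [Real.dist_eq]
  have g4 : |As S N (fun x => Real.exp (q * x) * P.eval (Real.exp (-x))) * t N - L| < ε / 4 := g1
  have g5 : η * (As S N (fun x => Real.exp (q * x)) * t N) ≤ ε / 4 := by
    calc η * (As S N (fun x => Real.exp (q * x)) * t N) ≤ η * (2 * (1 / (1 - q))) := mul_le_mul_of_nonneg_left g2.le hη0.le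
      _ = _ := by
          rw [hη]
          field_simp
          norm_num
  have g6 : η * (1 / (1 - q)) ≤ ε / 8 := by
    rw [hη]
    apply le_of_eq
    field_simp
  have b1 := abs_le.1 (g3.trans g5)
  have b2 := abs_lt.1 g4
  have b3 := abs_le.1 (hIP.trans g6)
  rw [abs_lt]
  constructor <;> linarith

end test

variable {Ω : Type} {m0 : MeasurableSpace Ω} {μ : Measure Ω} [IsProbabilityMeasure μ]
  {ℱ : Filtration ℕ m0} {A : ℕ → Set Ω}

/-- the law of the gaps -/
theorem gap_law (hA : ∀ n, MeasurableSet[ℱ n] (A n))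
    (hd : ∀ᵐ ω ∂μ, Tendsto (fun n : ℕ => dens μ ℱ A n ω * Real.log n) atTop (𝓝 1)) :
    ∀ᵐ ω ∂μ, (rset A ω).Infinite ∧
      Tendsto (fun N : ℕ => (∑ n ∈ Finset.range N, (A (n + 1)).indicator (fun _ => (1 : ℝ)) ω) * (Real.log N / N)) atTop (𝓝 1) ∧
      (∀ q : ℚ, (q : ℝ) < 1 → Tendsto (fun N : ℕ => As (rset A ω) N (fun x => Real.exp (q * x)) * (Real.log N / N)) atTop (𝓝 (1 / (1 - q)))) := by
  classical
  have h1 : ∀ᵐ ω ∂μ, ∀ q : ℚ, (q : ℝ) < 1 → Tendsto (fun N : ℕ => GN A q ω N * (Real.log N / N)) atTop (𝓝 (1 / (1 - q))) := by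
    refine ae_all_iff.2 fun q => ?_
    by_cases hq : (q : ℝ) < 1
    · filter_upwards [mgf_core hA hd hq] with ω hω _
      exact hω
    · exact Eventually.of_forall fun ω h => absurd h hq
  filter_upwards [h1, pi_law hA hd] with ω h2 h3
  set S := rset A ω with hSd
  have htlim : Tendsto (fun N : ℕ => Real.log (N : ℝ) / N) atTop (𝓝 0) := by
    have h6 : Tendsto (fun x : ℝ => Real.log x / x) atTop (𝓝 0) := by
      have := (isLittleO_log_rpow_atTop (zero_lt_one)).tendsto_div_nhds_zero
      simpa using this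
    exact h6.comp (tendsto_natCast_atTop_atTop (R := ℝ))
  have hS : S.Infinite := by
    intro hfin
    have h4 : ∀ N : ℕ, ∑ n ∈ Finset.range N, (A (n + 1)).indicator (fun _ => (1 : ℝ)) ω ≤ S.ncard := by
      intro N
      have h5 : ∀ n, (A (n + 1)).indicator (fun _ => (1 : ℝ)) ω = if n + 1 ∈ S then 1 else 0 := fun n => by
        rw [Set.indicator_apply]
        rfl
      simp_rw [h5]
      rw [Finset.sum_boole]
      have h6 : ((Finset.range N).filter (fun n => n + 1 ∈ S)).card ≤ S.ncard := by
        rw [← Finset.card_image_of_injective _ (add_left_injective 1), ← Set.ncard_coe_finset]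
        refine Set.ncard_le_ncard ?_ hfin
        intro m hm
        simp only [Finset.coe_image, Set.mem_image, Finset.mem_coe, Finset.mem_filter] at hm
        obtain ⟨n, hn, rfl⟩ := hm
        exact hn.2
      exact_mod_cast h6
    have h5 : Tendsto (fun N : ℕ => (∑ n ∈ Finset.range N, (A (n + 1)).indicator (fun _ => (1 : ℝ)) ω) * (Real.log N / N)) atTop (𝓝 0) := by
      have h6 := htlim.const_mul (S.ncard : ℝ)
      rw [mul_zero] at h6
      refine squeeze_zero (fun N => ?_) (fun N => ?_) h6
      · refine mul_nonneg (Finset.sum_nonneg fun n _ => indicator_nonneg (fun _ _ => zero_le_one) _) ?_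
        exact div_nonneg (Real.log_natCast_nonneg N) (Nat.cast_nonneg N)
      · exact mul_le_mul_of_nonneg_right (h4 N) (div_nonneg (Real.log_natCast_nonneg N) (Nat.cast_nonneg N))
    exact zero_ne_one (tendsto_nhds_unique h5 h3)
  refine ⟨hS, h3, fun q hq => ?_⟩
  have h4 := h2 q hq
  -- the difference is bounded
  set K : ℝ := ∑ i ∈ Finset.range 3, |Real.exp (q * tg S i)| with hK
  have h5 : Tendsto (fun N : ℕ => (As S N (fun x => Real.exp (q * x)) - GN A q ω N) * (Real.log N / N)) atTop (𝓝 0) := by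
    have h6 := htlim.const_mul K
    rw [mul_zero] at h6
    refine squeeze_zero_norm (fun N => ?_) h6
    have ht0 : 0 ≤ Real.log (N : ℝ) / N := div_nonneg (Real.log_natCast_nonneg N) (Nat.cast_nonneg N)
    rw [Real.norm_eq_abs, abs_mul, abs_of_nonneg ht0]
    apply mul_le_mul_of_nonneg_right _ ht0
    have h7 := As_split hS (fun x => Real.exp (q * x)) N
    rw [As_GN hS (q : ℝ) N] at h7
    have h8 : GN A q ω N = ∑ n ∈ Finset.Ico 2 N, ph S q n * En S q n * (if n + 1 ∈ S then 1 else 0) := by
      unfold GN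
      refine Finset.sum_congr rfl fun n _ => ?_
      rw [Set.indicator_apply]
      rfl
    rw [h8]
    exact h7
  have h6 := h5.add h4
  rw [zero_add] at h6
  refine h6.congr fun N => ?_
  ring

end Pool.Agent.R528.RM
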