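import Mathlib

set_option autoImplicit false
set_option linter.unusedSectionVars false
set_option linter.unusedVariables false

/-! # Summation lemmas for weighted moments of gaps -/

open Filter Finset
open scoped Topology

namespace Pool.Agent.R528.RM

/-- Abel summation, comparison -/
lemma abel_le {e k w : ℕ → ℝ} (hw0 : ∀ n, 0 ≤ w n) (hwa : Antitone w)
    (hE : ∀ N, 1 ≤ N → |∑ n ∈ range N, e n| ≤ ∑ n ∈ range N, k n) (N : ℕ) :
    |∑ n ∈ range N, w n * e n| ≤ ∑ n ∈ range N, w n * k n := by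
  rcases Nat.eq_zero_or_pos N with h | h
  · rw [h]; simp
  have h1 := Finset.sum_range_by_parts w e N
  have h2 := Finset.sum_range_by_parts w k N
  simp only [smul_eq_mul] at h1 h2
  rw [h1, h2]
  have h3 : |w (N - 1) * ∑ i ∈ range N, e i| ≤ w (N - 1) * ∑ i ∈ range N, k i := by
    rw [abs_mul, abs_of_nonneg (hw0 _)]
    exact mul_le_mul_of_nonneg_left (hE N h) (hw0 _)
  have h4 : |∑ i ∈ range (N - 1), (w (i + 1) - w i) * ∑ i ∈ range (i + 1), e i| ≤
      -∑ i ∈ range (N - 1), (w (i + 1) - w i) * ∑ i ∈ range (i + 1), k i := by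
    refine (Finset.abs_sum_le_sum_abs _ _).trans ?_
    rw [← Finset.sum_neg_distrib]
    refine Finset.sum_le_sum fun i _ => ?_
    have h5 : w (i + 1) - w i ≤ 0 := by have := hwa (Nat.le_succ i); simp only [Nat.succ_eq_add_one] at this; linarith
    rw [abs_mul, abs_of_nonpos h5]
    have := mul_le_mul_of_nonneg_left (hE (i + 1) (by omega)) (show 0 ≤ -(w (i + 1) - w i) by linarith)
    linarith
  have h6 := abs_sub (w (N - 1) * ∑ i ∈ range N, e i) (∑ i ∈ range (N - 1), (w (i + 1) - w i) * ∑ i ∈ range (i + 1), e i)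
  linarith

/-- Abel summation, quotients -/
lemma abel_ratio {g h w : ℕ → ℝ} {c : ℝ} (hw0 : ∀ n, 0 ≤ w n) (hwa : Antitone w) (hh : ∀ n, 0 ≤ h n)
    (hH : Tendsto (fun N => ∑ n ∈ range N, h n) atTop atTop)
    (hG : Tendsto (fun N => (∑ n ∈ range N, g n) / (∑ n ∈ range N, h n)) atTop (𝓝 c))
    (hwh : Tendsto (fun N => ∑ n ∈ range N, w n * h n) atTop atTop) :
    Tendsto (fun N => (∑ n ∈ range N, w n * g n) / (∑ n ∈ range N, w n * h n)) atTop (𝓝 c) := by
  rw [Metric.tendsto_nhds]
  intro ε hε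
  have h1 : ∀ᶠ N in atTop, |∑ n ∈ range N, (g n - c * h n)| ≤ ε / 2 * ∑ n ∈ range N, h n := by
    rw [Metric.tendsto_nhds] at hG
    filter_upwards [hG (ε / 2) (by positivity), hH.eventually_gt_atTop 0] with N g1 g2
    rw [Real.dist_eq] at g1
    have e1 : ∑ n ∈ range N, (g n - c * h n) = ((∑ n ∈ range N, g n) / (∑ n ∈ range N, h n) - c) * ∑ n ∈ range N, h n := by
      rw [Finset.sum_sub_distrib, ← Finset.mul_sum, sub_mul, div_mul_cancel₀ _ g2.ne']
    rw [e1, abs_mul, abs_of_pos g2]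
    exact mul_le_mul_of_nonneg_right g1.le g2.le
  obtain ⟨N₀, hN₀⟩ := eventually_atTop.1 h1
  set C : ℝ := ∑ n ∈ range N₀, |g n - c * h n| with hC
  have hC0 : 0 ≤ C := Finset.sum_nonneg fun _ _ => abs_nonneg _
  have h2 : ∀ N, 1 ≤ N → |∑ n ∈ range N, (g n - c * h n)| ≤ ∑ n ∈ range N, (ε / 2 * h n + if n = 0 then C else 0) := by
    intro N hN
    have e1 : ∑ n ∈ range N, (ε / 2 * h n + if n = 0 then C else 0) = ε / 2 * ∑ n ∈ range N, h n + C := by
      rw [Finset.sum_add_distrib, ← Finset.mul_sum, Finset.sum_ite_eq' (range N) 0 (fun _ => C), if_pos (Finset.mem_range.2 hN)]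
    rw [e1]
    have e2 : 0 ≤ ∑ n ∈ range N, h n := Finset.sum_nonneg fun n _ => hh n
    rcases Nat.lt_or_ge N N₀ with hlt | hge
    · have e3 : |∑ n ∈ range N, (g n - c * h n)| ≤ C := by
        refine (Finset.abs_sum_le_sum_abs _ _).trans ?_
        exact Finset.sum_le_sum_of_subset_of_nonneg (Finset.range_subset_range.2 hlt.le) fun _ _ _ => abs_nonneg _
      have : 0 ≤ ε / 2 * ∑ n ∈ range N, h n := by positivity
      linarith
    · have := hN₀ N hge
      linarith
  have h3 := abel_le hw0 hwa h2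
  filter_upwards [hwh.eventually_gt_atTop (2 * C * w 0 / ε), hwh.eventually_gt_atTop 0, eventually_ge_atTop 1] with N g1 g2 g3
  have h4 := h3 N
  have e1 : ∑ n ∈ range N, w n * (ε / 2 * h n + if n = 0 then C else 0) = ε / 2 * ∑ n ∈ range N, w n * h n + w 0 * C := by
    have : ∀ n ∈ range N, w n * (ε / 2 * h n + if n = 0 then C else 0) = ε / 2 * (w n * h n) + if n = 0 then w 0 * C else 0 := by
      intro n _
      by_cases hn : n = 0
      · rw [hn, if_pos rfl, if_pos rfl]; ring
      · rw [if_neg hn, if_neg hn]; ring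
    rw [Finset.sum_congr rfl this, Finset.sum_add_distrib, ← Finset.mul_sum, Finset.sum_ite_eq' (range N) 0 (fun _ => w 0 * C), if_pos (Finset.mem_range.2 g3)]
  rw [e1] at h4
  have e2 : ∑ n ∈ range N, w n * (g n - c * h n) = ((∑ n ∈ range N, w n * g n) / (∑ n ∈ range N, w n * h n) - c) * ∑ n ∈ range N, w n * h n := by
    rw [sub_mul, div_mul_cancel₀ _ g2.ne', Finset.mul_sum, ← Finset.sum_sub_distrib]
    refine Finset.sum_congr rfl fun n _ => by ring
  rw [e2, abs_mul, abs_of_pos g2] at h4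
  rw [Real.dist_eq]
  rw [div_lt_iff₀ hε] at g1
  by_contra hcon
  push Not at hcon
  have := mul_le_mul_of_nonneg_right hcon g2.le
  linarith

/-- quotients of sums -/
lemma sums_ratio {a b : ℕ → ℝ} {L : ℝ} (hb : ∀ n, 0 ≤ b n) (hbp : ∀ᶠ n in atTop, 0 < b n)
    (hB : Tendsto (fun N => ∑ n ∈ range N, b n) atTop atTop)
    (hab : Tendsto (fun n => a n / b n) atTop (𝓝 L)) :
    Tendsto (fun N => (∑ n ∈ range N, a n) / (∑ n ∈ range N, b n)) atTop (𝓝 L) := by
  have h1 : (fun n => a n - L * b n) =o[atTop] b := by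
    rw [Asymptotics.isLittleO_iff_tendsto' (by filter_upwards [hbp] with n hn h; exact absurd h hn.ne')]
    have := hab.sub_const L
    rw [sub_self] at this
    refine this.congr' ?_
    filter_upwards [hbp] with n hn
    rw [sub_div, mul_div_cancel_right₀ _ hn.ne']
  have h2 := h1.sum_range hb hB
  rw [Asymptotics.isLittleO_iff_tendsto' (by filter_upwards [hB.eventually_gt_atTop 0] with n hn h; exact absurd h hn.ne')] at h2
  have h3 := h2.add_const L
  rw [zero_add] at h3
  refine h3.congr' ?_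
  filter_upwards [hB.eventually_gt_atTop 0] with N hN
  rw [Finset.sum_sub_distrib, ← Finset.mul_sum, sub_div, mul_div_cancel_right₀ _ hN.ne']
  ring

/-- the lemma of Stolz -/
lemma stolz_sum {U b : ℕ → ℝ} {γ : ℝ} (hγ : 0 < γ) (hb : ∀ n, 0 ≤ b n) (hbp : ∀ᶠ n in atTop, 0 < b n)
    (hU : Tendsto U atTop atTop) (h : Tendsto (fun n => (U (n + 1) - U n) / b n) atTop (𝓝 γ)) :
    Tendsto (fun N => ∑ n ∈ range N, b n) atTop atTop ∧
    Tendsto (fun N => (∑ n ∈ range N, b n) / U N) atTop (𝓝 (1 / γ)) := by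
  have hB : Tendsto (fun N => ∑ n ∈ range N, b n) atTop atTop := by
    obtain ⟨N₀, hN₀⟩ := eventually_atTop.1 ((h.eventually (eventually_lt_nhds (show γ < γ + 1 by linarith))).and hbp)
    have h1 : ∀ N, N₀ ≤ N → U N - U N₀ ≤ (γ + 1) * ∑ n ∈ range N, b n := by
      intro N hN
      induction N, hN using Nat.le_induction with
      | base =>
        rw [sub_self]
        have : 0 ≤ ∑ n ∈ range N₀, b n := Finset.sum_nonneg fun n _ => hb n
        positivity
      | succ N hN ih =>
        obtain ⟨g1, g2⟩ := hN₀ N hN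
        rw [div_lt_iff₀ g2] at g1
        rw [Finset.sum_range_succ]
        linarith
    rw [tendsto_atTop]
    intro C
    filter_upwards [hU.eventually_ge_atTop ((γ + 1) * C + U N₀), eventually_ge_atTop N₀] with N g1 g2
    have h2 := h1 N g2
    have h3 : (γ + 1) * C ≤ (γ + 1) * ∑ n ∈ range N, b n := by linarith
    exact le_of_mul_le_mul_left h3 (by linarith)
  refine ⟨hB, ?_⟩
  have h1 := sums_ratio hb hbp hB h
  have h2 : Tendsto (fun N => U N / ∑ n ∈ range N, b n) atTop (𝓝 γ) := by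
    have h3 := h1.add (hB.inv_tendsto_atTop.const_mul (U 0))
    rw [mul_zero, add_zero] at h3
    refine h3.congr fun N => ?_
    rw [Finset.sum_range_sub, sub_div]
    simp only [Pi.inv_apply]
    ring
  have h3 := h2.inv₀ hγ.ne'
  rw [← one_div] at h3
  refine h3.congr fun N => ?_
  rw [inv_div]

/-- increments of powers -/
lemma pow_inc (γ : ℝ) : Tendsto (fun n : ℕ => (n : ℝ) * ((1 + 1 / (n : ℝ)) ^ γ - 1)) atTop (𝓝 γ) := by
  have h1 : HasDerivAt (fun x : ℝ => x ^ γ) (γ * 1 ^ (γ - 1)) 1 := Real.hasDerivAt_rpow_const (Or.inl one_ne_zero)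
  rw [Real.one_rpow, mul_one, hasDerivAt_iff_tendsto_slope] at h1
  have h2 : Tendsto (fun n : ℕ => 1 + 1 / (n : ℝ)) atTop (𝓝[≠] 1) := by
    rw [tendsto_nhdsWithin_iff]
    constructor
    · have := (tendsto_one_div_atTop_nhds_zero_nat (𝕜 := ℝ)).const_add 1
      rwa [add_zero] at this
    · filter_upwards [eventually_gt_atTop 0] with n hn
      have : (0 : ℝ) < 1 / n := by positivity
      simp only [Set.mem_compl_iff, Set.mem_singleton_iff]
      linarith
  refine (h1.comp h2).congr' ?_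
  filter_upwards [eventually_gt_atTop 0] with n hn
  have hn' : (n : ℝ) ≠ 0 := by positivity
  simp only [Function.comp, slope_def_field, Real.one_rpow]
  field_simp
  ring

lemma log_inc : Tendsto (fun n : ℕ => (n : ℝ) * Real.log (1 + 1 / (n : ℝ))) atTop (𝓝 1) := by
  have h1 : HasDerivAt Real.log (1 : ℝ)⁻¹ 1 := Real.hasDerivAt_log one_ne_zero
  rw [inv_one, hasDerivAt_iff_tendsto_slope] at h1
  have h2 : Tendsto (fun n : ℕ => 1 + 1 / (n : ℝ)) atTop (𝓝[≠] 1) := by
    rw [tendsto_nhdsWithin_iff]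
    constructor
    · have := (tendsto_one_div_atTop_nhds_zero_nat (𝕜 := ℝ)).const_add 1
      rwa [add_zero] at this
    · filter_upwards [eventually_gt_atTop 0] with n hn
      have : (0 : ℝ) < 1 / n := by positivity
      simp only [Set.mem_compl_iff, Set.mem_singleton_iff]
      linarith
  refine (h1.comp h2).congr' ?_
  filter_upwards [eventually_gt_atTop 0] with n hn
  have hn' : (n : ℝ) ≠ 0 := by positivity
  simp only [Function.comp, slope_def_field, Real.log_one]
  field_simp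
  ring

/-- the relative increment of the logarithm -/
noncomputable def dl (n : ℕ) : ℝ := Real.log (1 + 1 / (n : ℝ)) / Real.log n

lemma dl_log : Tendsto (fun n : ℕ => (n : ℝ) * Real.log n * dl n) atTop (𝓝 1) := by
  refine log_inc.congr' ?_
  filter_upwards [eventually_gt_atTop 1] with n hn
  have : 0 < Real.log (n : ℝ) := Real.log_pos (by exact_mod_cast hn)
  unfold dl
  field_simp

lemma log_tt : Tendsto (fun n : ℕ => Real.log (n : ℝ)) atTop atTop := Real.tendsto_log_atTop.comp tendsto_natCast_atTop_atTop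

lemma dl_n : Tendsto (fun n : ℕ => (n : ℝ) * dl n) atTop (𝓝 0) := by
  have h1 := log_inc.div_atTop log_tt
  refine h1.congr fun n => ?_
  unfold dl
  ring

lemma dl_pos {n : ℕ} (hn : 1 < n) : 0 < dl n := by
  have h1 : 0 < Real.log (n : ℝ) := Real.log_pos (by exact_mod_cast hn)
  have h2 : 0 < 1 / (n : ℝ) := by
    have : 0 < n := by omega
    positivity
  have h3 : 0 < Real.log (1 + 1 / (n : ℝ)) := Real.log_pos (by linarith)
  exact div_pos h3 h1

lemma dl_zero : Tendsto dl atTop (𝓝 0) := by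
  have h1 := dl_n.mul (tendsto_one_div_atTop_nhds_zero_nat (𝕜 := ℝ))
  rw [mul_zero] at h1
  refine h1.congr' ?_
  filter_upwards [eventually_gt_atTop 0] with n hn
  have hn' : (n : ℝ) ≠ 0 := by positivity
  field_simp

lemma dl_pow (β : ℝ) : Tendsto (fun n : ℕ => ((1 + dl n) ^ β - 1) / dl n) atTop (𝓝 β) := by
  have h1 : HasDerivAt (fun x : ℝ => x ^ β) (β * 1 ^ (β - 1)) 1 := Real.hasDerivAt_rpow_const (Or.inl one_ne_zero)
  rw [Real.one_rpow, mul_one, hasDerivAt_iff_tendsto_slope] at h1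
  have h2 : Tendsto (fun n : ℕ => 1 + dl n) atTop (𝓝[≠] 1) := by
    rw [tendsto_nhdsWithin_iff]
    constructor
    · have := dl_zero.const_add 1
      rwa [add_zero] at this
    · filter_upwards [eventually_gt_atTop 1] with n hn
      have := dl_pos hn
      simp only [Set.mem_compl_iff, Set.mem_singleton_iff]
      linarith
  refine (h1.comp h2).congr fun n => ?_
  simp only [Function.comp, slope_def_field, Real.one_rpow, add_sub_cancel_left]

lemma log_ratio {n : ℕ} (hn : 1 < n) (β : ℝ) : Real.log ((n : ℝ) + 1) ^ β = Real.log n ^ β * (1 + dl n) ^ β := by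
  have h0 : (0 : ℝ) < n := by exact_mod_cast (by omega : 0 < n)
  have h1 : 0 < Real.log (n : ℝ) := Real.log_pos (by exact_mod_cast hn)
  have h2 : Real.log ((n : ℝ) + 1) = Real.log n * (1 + dl n) := by
    unfold dl
    have e1 : (n : ℝ) + 1 = n * (1 + 1 / n) := by field_simp
    rw [e1, Real.log_mul h0.ne' (by positivity)]
    field_simp
  rw [h2, Real.mul_rpow h1.le (by linarith [dl_pos hn])]

/-- increments of `n ^ γ (log n) ^ β` -/
lemma inc_ratio (γ β : ℝ) : Tendsto (fun n : ℕ => ((((n : ℝ) + 1) ^ γ * Real.log ((n : ℝ) + 1) ^ β) - (n : ℝ) ^ γ * Real.log n ^ β) /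
    ((n : ℝ) ^ (γ - 1) * Real.log n ^ β)) atTop (𝓝 γ) := by
  have h1 := pow_inc γ
  have h2 : Tendsto (fun n : ℕ => (1 + dl n) ^ β) atTop (𝓝 1) := by
    have h3 := (dl_pow β).mul dl_zero
    rw [mul_zero] at h3
    have h4 := h3.const_add 1
    rw [add_zero] at h4
    refine h4.congr' ?_
    filter_upwards [eventually_gt_atTop 1] with n hn
    have := (dl_pos hn).ne'
    field_simp
    ring
  have h3 : Tendsto (fun n : ℕ => (n : ℝ) * ((1 + dl n) ^ β - 1)) atTop (𝓝 0) := by
    have h4 := (dl_pow β).mul dl_n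
    rw [mul_zero] at h4
    refine h4.congr' ?_
    filter_upwards [eventually_gt_atTop 1] with n hn
    have := (dl_pos hn).ne'
    field_simp
  have h4 := (h1.mul h2).add h3
  rw [mul_one, add_zero] at h4
  refine h4.congr' ?_
  filter_upwards [eventually_gt_atTop 1] with n hn
  have h0 : (0 : ℝ) < n := by exact_mod_cast (by omega : 0 < n)
  have hl : 0 < Real.log (n : ℝ) := Real.log_pos (by exact_mod_cast hn)
  have hlb : 0 < Real.log (n : ℝ) ^ β := Real.rpow_pos_of_pos hl _
  have hg : 0 < (n : ℝ) ^ (γ - 1) := Real.rpow_pos_of_pos h0 _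
  have e1 : ((n : ℝ) + 1) ^ γ = (n : ℝ) ^ γ * (1 + 1 / n) ^ γ := by
    rw [← Real.mul_rpow h0.le (by positivity)]
    congr 1
    field_simp
  have e2 : (n : ℝ) ^ γ = (n : ℝ) ^ (γ - 1) * n := by
    nth_rw 3 [← Real.rpow_one (n : ℝ)]
    rw [← Real.rpow_add h0]
    congr 1
    ring
  rw [e1, log_ratio hn, e2]
  field_simp
  ring

/-- increments of `(log n) ^ β` -/
lemma inc_ratio0 (β : ℝ) : Tendsto (fun n : ℕ => (Real.log ((n : ℝ) + 1) ^ β - Real.log n ^ β) /
    ((n : ℝ) ^ (-1 : ℝ) * Real.log n ^ (β - 1))) atTop (𝓝 β) := by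
  have h1 := (dl_pow β).mul dl_log
  rw [mul_one] at h1
  refine h1.congr' ?_
  filter_upwards [eventually_gt_atTop 1] with n hn
  have h0 : (0 : ℝ) < n := by exact_mod_cast (by omega : 0 < n)
  have hl : 0 < Real.log (n : ℝ) := Real.log_pos (by exact_mod_cast hn)
  have hlb : 0 < Real.log (n : ℝ) ^ (β - 1) := Real.rpow_pos_of_pos hl _
  have hd := dl_pos hn
  have e2 : Real.log (n : ℝ) ^ β = Real.log (n : ℝ) ^ (β - 1) * Real.log n := by
    nth_rw 3 [← Real.rpow_one (Real.log (n : ℝ))]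
    rw [← Real.rpow_add hl]
    congr 1
    ring
  rw [log_ratio hn, e2, Real.rpow_neg_one]
  field_simp

end Pool.Agent.R528.RM
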