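import Mathlib
import Pool.Agent.R528.RM.Mom1
import Pool.Agent.R528.RM.Mgf3

set_option autoImplicit false
set_option linter.unusedSectionVars false
set_option linter.unusedVariables false

/-! # Moments of the differences of square roots -/

open Filter Finset
open scoped Topology

namespace Pool.Agent.R528.RM

lemma mem_idx {S : Set ℕ} (hinf : S.Infinite) (N i : ℕ) : i ∈ idx S N ↔ pn S (i + 1) ≤ N := by
  unfold idx
  rw [Finset.mem_filter, Finset.mem_range]
  have := le_pn hinf (i + 1)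
  constructor
  · rintro ⟨_, h⟩; exact h
  · intro h; exact ⟨by omega, h⟩

lemma idx_range {S : Set ℕ} (hinf : S.Infinite) : ∃ K : ℕ → ℕ, Tendsto K atTop atTop ∧ ∀ N, idx S N = range (K N) := by
  classical
  have hex : ∀ N, ∃ i, N < pn S (i + 1) := fun N => ⟨N, by have := le_pn hinf (N + 1); omega⟩
  refine ⟨fun N => Nat.find (hex N), ?_, ?_⟩
  · rw [tendsto_atTop]
    intro k
    filter_upwards [eventually_ge_atTop (pn S (k + 1))] with N hN
    rw [Nat.le_find_iff]
    intro m hm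
    have := (nth_mono hinf).monotone (show m + 1 ≤ k + 1 by omega)
    omega
  · intro N
    ext i
    rw [mem_idx hinf, Finset.mem_range, Nat.lt_find_iff]
    constructor
    · intro h m hm
      have := (nth_mono hinf).monotone (show m + 1 ≤ i + 1 by omega)
      omega
    · intro h
      have := h i le_rfl
      omega

/-- sums with weights that depend on the end of the gap -/
lemma idx_weight {S : Set ℕ} (hinf : S.Infinite) (f w : ℕ → ℝ) (N : ℕ) :
    ∑ i ∈ idx S N, w (pn S (i + 1) - 1) * f i = ∑ n ∈ range N, w n * (∑ i ∈ idx S (n + 1), f i - ∑ i ∈ idx S n, f i) := by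
  classical
  induction N with
  | zero =>
    unfold idx
    simp
  | succ N ih =>
    rw [Finset.sum_range_succ, ← ih]
    have hsub : idx S N ⊆ idx S (N + 1) := by
      intro i hi
      rw [mem_idx hinf] at hi ⊢
      omega
    rw [← Finset.sum_sdiff hsub, ← Finset.sum_sdiff (f := f) hsub, add_sub_cancel_right, add_comm, Finset.mul_sum]
    congr 1
    refine Finset.sum_congr rfl fun i hi => ?_
    rw [Finset.mem_sdiff, mem_idx hinf, mem_idx hinf] at hi
    have : pn S (i + 1) = N + 1 := by omega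
    rw [this, Nat.add_sub_cancel]

/-- powers dominate logarithms -/
lemma Utt {γ : ℝ} (hγ : 0 < γ) (β : ℝ) : Tendsto (fun n : ℕ => (n : ℝ) ^ γ * Real.log n ^ β) atTop atTop := by
  have h1 : Tendsto (fun n : ℕ => (n : ℝ) ^ (γ / 2)) atTop atTop := (tendsto_rpow_atTop (by positivity)).comp tendsto_natCast_atTop_atTop
  refine tendsto_atTop_mono' atTop ?_ h1
  have h2 := (isLittleO_log_rpow_rpow_atTop (-β) (show 0 < γ / 2 by positivity)).def (show (0 : ℝ) < 1 by norm_num)
  filter_upwards [(tendsto_natCast_atTop_atTop (R := ℝ)).eventually h2, eventually_gt_atTop 1] with n g1 g2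
  have h0 : (0 : ℝ) < n := by exact_mod_cast (by omega : 0 < n)
  have hl : 0 < Real.log (n : ℝ) := Real.log_pos (by exact_mod_cast g2)
  rw [one_mul, Real.norm_of_nonneg (Real.rpow_nonneg hl.le _), Real.norm_of_nonneg (Real.rpow_nonneg h0.le _), Real.rpow_neg hl.le] at g1
  have h3 : 0 < Real.log (n : ℝ) ^ β := Real.rpow_pos_of_pos hl _
  have h4 : (n : ℝ) ^ γ = (n : ℝ) ^ (γ / 2) * (n : ℝ) ^ (γ / 2) := by
    rw [← Real.rpow_add h0]; congr 1; ring
  have h5 : 1 ≤ (n : ℝ) ^ (γ / 2) * Real.log n ^ β := by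
    have := mul_le_mul_of_nonneg_right g1 h3.le
    rwa [inv_mul_cancel₀ h3.ne'] at this
  have h6 : 0 < (n : ℝ) ^ (γ / 2) := Real.rpow_pos_of_pos h0 _
  rw [h4, mul_assoc]
  nlinarith

/-- the weight -/
noncomputable def wgt (α : ℝ) (n : ℕ) : ℝ := (Real.log ((max n 8 : ℕ) : ℝ) / √((max n 8 : ℕ) : ℝ) / 2) ^ α

lemma wgt_base (n : ℕ) : 0 < Real.log ((max n 8 : ℕ) : ℝ) / √((max n 8 : ℕ) : ℝ) / 2 := by
  have h1 : (8 : ℝ) ≤ ((max n 8 : ℕ) : ℝ) := by exact_mod_cast le_max_right n 8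
  have h2 : 0 < Real.log ((max n 8 : ℕ) : ℝ) := Real.log_pos (by linarith)
  positivity

lemma wgt_nonneg (α : ℝ) (n : ℕ) : 0 ≤ wgt α n := Real.rpow_nonneg (wgt_base n).le _

lemma exp_two_le : Real.exp 2 ≤ 8 := by
  have h1 := Real.exp_one_lt_d9
  have h2 : Real.exp 2 = Real.exp 1 ^ 2 := by rw [← Real.exp_nat_mul]; norm_num
  rw [h2]
  have h3 := Real.exp_pos 1
  nlinarith

lemma wgt_anti {α : ℝ} (hα : 0 < α) : Antitone (wgt α) := by
  intro m n hmn
  unfold wgt
  apply Real.rpow_le_rpow (wgt_base n).le _ hα.le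
  apply div_le_div_of_nonneg_right _ (by norm_num)
  have hm : Real.exp 2 ≤ ((max m 8 : ℕ) : ℝ) := exp_two_le.trans (by exact_mod_cast le_max_right m 8)
  have hmn' : ((max m 8 : ℕ) : ℝ) ≤ ((max n 8 : ℕ) : ℝ) := by exact_mod_cast max_le_max_right 8 hmn
  exact Real.log_div_sqrt_antitoneOn hm (hm.trans hmn') hmn'

section core

variable {S : Set ℕ}

/-- quotients of consecutive members -/
lemma ratio_one (hinf : S.Infinite) (hgap : ∀ᶠ n : ℕ in atTop, (pn S (n + 1) : ℝ) ≤ pn S n + 2 * Real.log (pn S n) ^ 2) :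
    Tendsto (fun i => (pn S (i + 1) : ℝ) / pn S i) atTop (𝓝 1) ∧ Tendsto (fun i => ((pn S (i + 1) : ℝ) - 1) / pn S i) atTop (𝓝 1) := by
  have hp : Tendsto (fun i => (pn S i : ℝ)) atTop atTop := (tendsto_natCast_atTop_atTop (R := ℝ)).comp (nth_mono hinf).tendsto_atTop
  have h1 : Tendsto (fun y : ℝ => Real.log y ^ 2 / y) atTop (𝓝 0) := (Real.isLittleO_pow_log_id_atTop (n := 2)).tendsto_div_nhds_zero
  have h2 := ((h1.comp hp).const_mul 2).const_add 1
  rw [mul_zero, add_zero] at h2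
  have h3 : Tendsto (fun i => (pn S (i + 1) : ℝ) / pn S i) atTop (𝓝 1) := by
    refine tendsto_of_tendsto_of_tendsto_of_le_of_le' tendsto_const_nhds h2 ?_ ?_
    · filter_upwards [hp.eventually_gt_atTop 0] with i hi
      rw [one_le_div hi]
      exact_mod_cast (nth_mono hinf (Nat.lt_succ_self i)).le
    · filter_upwards [hgap, hp.eventually_gt_atTop 0] with i g1 g2
      rw [div_le_iff₀ g2]
      simp only [Function.comp]
      have : (1 + 2 * (Real.log (pn S i) ^ 2 / pn S i)) * (pn S i : ℝ) = pn S i + 2 * Real.log (pn S i) ^ 2 := by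
        field_simp
      linarith
  refine ⟨h3, ?_⟩
  have h4 := h3.sub hp.inv_tendsto_atTop
  rw [sub_zero] at h4
  refine h4.congr fun i => ?_
  simp only [Pi.inv_apply]
  rw [sub_div, one_div]

/-- the ratio of the terms -/
lemma term_ratio (hinf : S.Infinite) {α : ℝ} (hα : 0 < α) (hgap : ∀ᶠ n : ℕ in atTop, (pn S (n + 1) : ℝ) ≤ pn S n + 2 * Real.log (pn S n) ^ 2) :
    (∀ᶠ i in atTop, 0 < wgt α (pn S (i + 1) - 1) * tg S i ^ α) ∧
    Tendsto (fun i => (√(pn S (i + 1) : ℝ) - √(pn S i : ℝ)) ^ α / (wgt α (pn S (i + 1) - 1) * tg S i ^ α)) atTop (𝓝 1) := by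
  obtain ⟨h1, h2⟩ := ratio_one hinf hgap
  have hp : Tendsto (fun i => (pn S i : ℝ)) atTop atTop := (tendsto_natCast_atTop_atTop (R := ℝ)).comp (nth_mono hinf).tendsto_atTop
  have hpos : ∀ᶠ i in atTop, 0 < wgt α (pn S (i + 1) - 1) * tg S i ^ α := by
    filter_upwards [hp.eventually_gt_atTop 1] with i hi
    have hlog : 0 < Real.log (pn S i : ℝ) := Real.log_pos hi
    have hlt : (pn S i : ℝ) < pn S (i + 1) := by exact_mod_cast nth_mono hinf (Nat.lt_succ_self i)
    have htg : 0 < tg S i := div_pos (by linarith) hlog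
    exact mul_pos (Real.rpow_pos_of_pos (wgt_base _) _) (Real.rpow_pos_of_pos htg _)
  refine ⟨hpos, ?_⟩
  -- the limit of the base
  have hlogr : Tendsto (fun i => Real.log ((pn S (i + 1) : ℝ) - 1) / Real.log (pn S i)) atTop (𝓝 1) := by
    have g1 := ((Real.continuousAt_log one_ne_zero).tendsto.comp h2)
    rw [Real.log_one] at g1
    have g2 : Tendsto (fun i => Real.log (((pn S (i + 1) : ℝ) - 1) / pn S i) / Real.log (pn S i)) atTop (𝓝 0) :=
      g1.div_atTop (Real.tendsto_log_atTop.comp hp)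
    have g3 := g2.const_add 1
    rw [add_zero] at g3
    refine g3.congr' ?_
    filter_upwards [hp.eventually_gt_atTop 1] with i hi
    have hlog : 0 < Real.log (pn S i : ℝ) := Real.log_pos hi
    have hlt : (pn S i : ℝ) < pn S (i + 1) := by exact_mod_cast nth_mono hinf (Nat.lt_succ_self i)
    rw [Real.log_div (by linarith) (by linarith), sub_div, div_self hlog.ne']
    ring
  have hbase : Tendsto (fun i => 2 * (√(((pn S (i + 1) : ℝ) - 1) / pn S i) / (√((pn S (i + 1) : ℝ) / pn S i) + 1)) /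
      (Real.log ((pn S (i + 1) : ℝ) - 1) / Real.log (pn S i))) atTop (𝓝 1) := by
    have g1 := (Real.continuous_sqrt.tendsto 1).comp h2
    have g2 := ((Real.continuous_sqrt.tendsto 1).comp h1).add_const 1
    rw [Real.sqrt_one] at g1 g2
    have g3 := ((g1.div g2 (by norm_num)).const_mul 2).div hlogr one_ne_zero
    have e : 2 * ((1 : ℝ) / (1 + 1)) / 1 = 1 := by norm_num
    rw [e] at g3
    exact g3
  have hlim : Tendsto (fun i => (2 * (√(((pn S (i + 1) : ℝ) - 1) / pn S i) / (√((pn S (i + 1) : ℝ) / pn S i) + 1)) /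
      (Real.log ((pn S (i + 1) : ℝ) - 1) / Real.log (pn S i))) ^ α) atTop (𝓝 1) := by
    have := hbase.rpow_const (p := α) (Or.inl one_ne_zero)
    rwa [Real.one_rpow] at this
  refine hlim.congr' ?_
  filter_upwards [hp.eventually_gt_atTop 9, hpos] with i hi hpos
  have hp0 : (0 : ℝ) < pn S i := by linarith
  have hlog : 0 < Real.log (pn S i : ℝ) := Real.log_pos (by linarith)
  have hlt : (pn S i : ℝ) < pn S (i + 1) := by exact_mod_cast nth_mono hinf (Nat.lt_succ_self i)
  have hq1 : (1 : ℝ) < (pn S (i + 1) : ℝ) - 1 := by linarith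
  have hlogq : 0 < Real.log ((pn S (i + 1) : ℝ) - 1) := Real.log_pos hq1
  have hq9 : 9 ≤ pn S (i + 1) := by
    have : (9 : ℝ) ≤ pn S (i + 1) := by linarith
    exact_mod_cast this
  have hcast : ((max (pn S (i + 1) - 1) 8 : ℕ) : ℝ) = (pn S (i + 1) : ℝ) - 1 := by
    rw [max_eq_left (by omega), Nat.cast_sub (by omega)]
    norm_num
  have hsq : √(pn S (i + 1) : ℝ) - √(pn S i : ℝ) = ((pn S (i + 1) : ℝ) - pn S i) / (√(pn S (i + 1) : ℝ) + √(pn S i : ℝ)) := by
    have e1 : 0 < √(pn S (i + 1) : ℝ) + √(pn S i : ℝ) := by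
      have := Real.sqrt_pos.2 hp0
      positivity
    rw [eq_div_iff e1.ne']
    have e2 := Real.sq_sqrt (show (0 : ℝ) ≤ pn S (i + 1) by linarith)
    have e3 := Real.sq_sqrt hp0.le
    nlinarith
  have hgap0 : 0 < (pn S (i + 1) : ℝ) - pn S i := by linarith
  have hsp : 0 < √(pn S i : ℝ) := Real.sqrt_pos.2 hp0
  have hsq1 : 0 < √((pn S (i + 1) : ℝ) - 1) := Real.sqrt_pos.2 (by linarith)
  have hsqq : 0 < √(pn S (i + 1) : ℝ) := Real.sqrt_pos.2 (by linarith)
  unfold wgt tg
  rw [hcast, hsq, ← Real.mul_rpow (by positivity) (by positivity), ← Real.div_rpow (by positivity) (by positivity),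
    Real.sqrt_div (by linarith), Real.sqrt_div (by linarith)]
  congr 1
  field_simp

/-- **the moments of the differences of square roots** -/
theorem moment_core (hinf : S.Infinite) {α c : ℝ} (hα : 0 < α) (hc : 0 < c)
    (hlaw : Tendsto (fun N : ℕ => As S N (fun x => x ^ α) * (Real.log (N : ℝ) / N)) atTop (𝓝 c))
    (hgap : ∀ᶠ n : ℕ in atTop, (pn S (n + 1) : ℝ) ≤ pn S n + 2 * Real.log (pn S n) ^ 2)
    {U : ℕ → ℝ} {γ : ℝ} (hγ : 0 < γ) (hU : Tendsto U atTop atTop)
    (hinc : Tendsto (fun n : ℕ => (U (n + 1) - U n) / ((n : ℝ) ^ (-(α / 2)) * Real.log n ^ (α - 1))) atTop (𝓝 γ)) :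
    Tendsto (fun N : ℕ => (∑ i ∈ idx S N, (√(pn S (i + 1) : ℝ) - √(pn S i : ℝ)) ^ α) / U N) atTop (𝓝 (c * 2 ^ (-α) / γ)) := by
  -- the sequence `b'`
  have hb0 : ∀ n : ℕ, 0 ≤ (n : ℝ) ^ (-(α / 2)) * Real.log n ^ (α - 1) := fun n =>
    mul_nonneg (Real.rpow_nonneg (Nat.cast_nonneg _) _) (Real.rpow_nonneg (Real.log_natCast_nonneg _) _)
  have hbp : ∀ᶠ n : ℕ in atTop, 0 < (n : ℝ) ^ (-(α / 2)) * Real.log n ^ (α - 1) := by
    filter_upwards [eventually_gt_atTop 1] with n hn
    have h0 : (0 : ℝ) < n := by exact_mod_cast (by omega : 0 < n)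
    have hl : 0 < Real.log (n : ℝ) := Real.log_pos (by exact_mod_cast hn)
    positivity
  obtain ⟨hB1, hB2⟩ := stolz_sum hγ hb0 hbp hU hinc
  -- the sequence `h`
  set h : ℕ → ℝ := fun n => (n : ℝ) ^ ((1 : ℝ) - 1) * Real.log n ^ (-1 : ℝ) with hh
  have hh0 : ∀ n : ℕ, 0 ≤ h n := fun n =>
    mul_nonneg (Real.rpow_nonneg (Nat.cast_nonneg _) _) (Real.rpow_nonneg (Real.log_natCast_nonneg _) _)
  have hhp : ∀ᶠ n : ℕ in atTop, 0 < h n := by
    filter_upwards [eventually_gt_atTop 1] with n hn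
    have h0 : (0 : ℝ) < n := by exact_mod_cast (by omega : 0 < n)
    have hl : 0 < Real.log (n : ℝ) := Real.log_pos (by exact_mod_cast hn)
    simp only [hh]
    positivity
  obtain ⟨hH1, hH2⟩ := stolz_sum (γ := 1) one_pos hh0 hhp (Utt one_pos (-1)) (by
    have := inc_ratio 1 (-1)
    refine this.congr fun n => ?_
    push_cast
    rfl)
  -- the quotient of the sums of `g` and of `h`
  have hG : Tendsto (fun N => (∑ n ∈ range N, (∑ i ∈ idx S (n + 1), tg S i ^ α - ∑ i ∈ idx S n, tg S i ^ α)) / (∑ n ∈ range N, h n)) atTop (𝓝 c) := by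
    have h1 := hlaw.div hH2 (by norm_num)
    rw [one_div_one, div_one] at h1
    refine h1.congr' ?_
    filter_upwards [eventually_gt_atTop 1, hH1.eventually_gt_atTop 0] with N hN hpos
    have h0 : (0 : ℝ) < N := by exact_mod_cast (by omega : 0 < N)
    have hl : 0 < Real.log (N : ℝ) := Real.log_pos (by exact_mod_cast hN)
    rw [Finset.sum_range_sub (fun n => ∑ i ∈ idx S n, tg S i ^ α)]
    have e0 : ∑ i ∈ idx S 0, tg S i ^ α = 0 := by unfold idx; simp
    rw [e0, sub_zero]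
    simp only [Pi.div_apply]
    unfold As
    rw [Real.rpow_one, Real.rpow_neg_one]
    have hl' := hl.ne'
    have h0' := h0.ne'
    have hpos' := hpos.ne'
    field_simp
  -- the weights
  have hwh : Tendsto (fun n => wgt α n * h n / ((n : ℝ) ^ (-(α / 2)) * Real.log n ^ (α - 1))) atTop (𝓝 (2 ^ (-α))) := by
    refine tendsto_const_nhds.congr' ?_
    filter_upwards [eventually_ge_atTop 8] with n hn
    have h0 : (0 : ℝ) < n := by exact_mod_cast (by omega : 0 < n)
    have hl : 0 < Real.log (n : ℝ) := Real.log_pos (by exact_mod_cast (by omega : 1 < n))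
    unfold wgt
    rw [max_eq_left hn, Real.div_rpow (by positivity) (by norm_num), Real.div_rpow hl.le (Real.sqrt_nonneg _), Real.sqrt_eq_rpow, ← Real.rpow_mul h0.le]
    simp only [hh]
    rw [sub_self, Real.rpow_zero, one_mul, Real.rpow_neg_one, Real.rpow_neg (by norm_num : (0 : ℝ) ≤ 2), Real.rpow_sub hl, Real.rpow_one,
      Real.rpow_neg h0.le]
    have e1 : (1 : ℝ) / 2 * α = α / 2 := by ring
    rw [e1]
    have e2 : 0 < (n : ℝ) ^ (α / 2) := by positivity
    have e3 : 0 < Real.log (n : ℝ) ^ α := by positivity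
    have e4 : (0 : ℝ) < 2 ^ α := by positivity
    field_simp
  have hW := sums_ratio hb0 hbp hB1 hwh
  have h2α : (0 : ℝ) < 2 ^ (-α) := by positivity
  have hWtt : Tendsto (fun N => ∑ n ∈ range N, wgt α n * h n) atTop atTop := by
    have h1 := Tendsto.pos_mul_atTop h2α hW hB1
    refine h1.congr' ?_
    filter_upwards [hB1.eventually_gt_atTop 0] with N hN
    rw [div_mul_cancel₀ _ hN.ne']
  have hAb := abel_ratio (wgt_nonneg α) (wgt_anti hα) hh0 hH1 hG hWtt
  -- the weighted sum over the gaps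
  have hBU : Tendsto (fun N => (∑ i ∈ idx S N, wgt α (pn S (i + 1) - 1) * tg S i ^ α) / U N) atTop (𝓝 (c * 2 ^ (-α) / γ)) := by
    have h1 := (hAb.mul hW).mul hB2
    have e : c * 2 ^ (-α) * (1 / γ) = c * 2 ^ (-α) / γ := by ring
    rw [e] at h1
    refine h1.congr' ?_
    filter_upwards [hWtt.eventually_gt_atTop 0, hB1.eventually_gt_atTop 0, hU.eventually_gt_atTop 0] with N g1 g2 g3
    rw [idx_weight hinf (fun i => tg S i ^ α) (wgt α) N]
    field_simp
  -- comparison of the terms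
  obtain ⟨K, hK1, hK2⟩ := idx_range hinf
  obtain ⟨htp, htr⟩ := term_ratio hinf hα hgap
  have htn : ∀ i, 0 ≤ wgt α (pn S (i + 1) - 1) * tg S i ^ α := fun i => mul_nonneg (wgt_nonneg _ _) (Real.rpow_nonneg (tg_nonneg hinf i) _)
  have hcpos : 0 < c * 2 ^ (-α) / γ := by positivity
  have hBtt : Tendsto (fun N => ∑ i ∈ idx S N, wgt α (pn S (i + 1) - 1) * tg S i ^ α) atTop atTop := by
    have h1 := Tendsto.pos_mul_atTop hcpos hBU hU
    refine h1.congr' ?_
    filter_upwards [hU.eventually_gt_atTop 0] with N hN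
    rw [div_mul_cancel₀ _ hN.ne']
  have hStt : Tendsto (fun N => ∑ i ∈ range N, wgt α (pn S (i + 1) - 1) * tg S i ^ α) atTop atTop := by
    refine tendsto_atTop_mono (fun N => ?_) hBtt
    apply Finset.sum_le_sum_of_subset_of_nonneg
    · unfold idx
      exact Finset.filter_subset _ _
    · intro i _ _
      exact htn i
  have hfin := (sums_ratio htn htp hStt htr).comp hK1
  have h1 := hfin.mul hBU
  rw [one_mul] at h1
  refine h1.congr' ?_
  filter_upwards [hBtt.eventually_gt_atTop 0] with N hN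
  simp only [Function.comp]
  rw [← hK2 N]
  field_simp

end core

end Pool.Agent.R528.RM
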