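import Mathlib
import Pool.Agent.R528.RM.Mom2

set_option autoImplicit false
set_option linter.unusedSectionVars false
set_option linter.unusedVariables false

/-! # The gap bound from the exponential moments -/

open Filter Finset
open scoped Topology

namespace Pool.Agent.R528.RM

/-- the gap bound from an exponential moment -/
lemma gap_of_law {S : Set ℕ} (hinf : S.Infinite)
    (h : ∀ q : ℚ, (q : ℝ) < 1 → Tendsto (fun N : ℕ => As S N (fun x => Real.exp (q * x)) * (Real.log N / N)) atTop (𝓝 (1 / (1 - q)))) :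
    ∀ᶠ n : ℕ in atTop, (pn S (n + 1) : ℝ) ≤ pn S n + 2 * Real.log (pn S n) ^ 2 := by
  have h1 := h (3 / 4) (by norm_num)
  have hmono := nth_mono hinf
  have hlt5 : (1 : ℝ) / (1 - ((3 / 4 : ℚ) : ℝ)) < 5 := by norm_num
  have h2 := h1.eventually (eventually_lt_nhds hlt5)
  have hpN : Tendsto (fun n => pn S (n + 1)) atTop atTop := hmono.tendsto_atTop.comp (tendsto_add_atTop_nat 1)
  have hp : Tendsto (fun i => (pn S i : ℝ)) atTop atTop := (tendsto_natCast_atTop_atTop (R := ℝ)).comp hmono.tendsto_atTop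
  have hP : Tendsto (fun i => (pn S (i + 1) : ℝ)) atTop atTop := hp.comp (tendsto_add_atTop_nat 1)
  have hsmall : ∀ᶠ y : ℝ in atTop, 4 / 3 * Real.log y ^ 2 ≤ y / 2 := by
    have h3 := (Real.isLittleO_pow_log_id_atTop (n := 2)).def (show (0 : ℝ) < 3 / 8 by norm_num)
    filter_upwards [h3, eventually_ge_atTop 1] with y g1 g2
    rw [Real.norm_of_nonneg (by positivity), id, Real.norm_of_nonneg (by linarith)] at g1
    linarith
  filter_upwards [hpN.eventually h2, hP.eventually hsmall, (Real.tendsto_log_atTop.comp hP).eventually_ge_atTop 20,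
    (Real.tendsto_log_atTop.comp hp).eventually_gt_atTop 1, hp.eventually_gt_atTop 1] with n g1 g2 g3 g4 g5
  have g3 : 20 ≤ Real.log (pn S (n + 1) : ℝ) := g3
  have g4 : 1 < Real.log (pn S n : ℝ) := g4
  set P : ℝ := (pn S (n + 1) : ℝ) with hPd
  set p : ℝ := (pn S n : ℝ) with hpd
  have hpP : p < P := by
    have : pn S n < pn S (n + 1) := hmono (Nat.lt_succ_self n)
    exact Nat.cast_lt.2 this
  have hP0 : 0 < P := by linarith
  -- one term
  have hone : Real.exp (((3 / 4 : ℚ) : ℝ) * tg S n) ≤ As S (pn S (n + 1)) (fun x => Real.exp (((3 / 4 : ℚ) : ℝ) * x)) := by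
    unfold As
    exact Finset.single_le_sum (f := fun i => Real.exp (((3 / 4 : ℚ) : ℝ) * tg S i)) (fun _ _ => (Real.exp_pos _).le)
      ((mem_idx hinf _ _).2 le_rfl)
  have hA : As S (pn S (n + 1)) (fun x => Real.exp (((3 / 4 : ℚ) : ℝ) * x)) ≤ P := by
    have hl : 0 < Real.log P := by linarith
    have e1 : As S (pn S (n + 1)) (fun x => Real.exp (((3 / 4 : ℚ) : ℝ) * x)) * (Real.log P / P) < 5 := g1
    rw [mul_div_assoc', div_lt_iff₀ hP0] at e1
    have e2 : 0 ≤ As S (pn S (n + 1)) (fun x => Real.exp (((3 / 4 : ℚ) : ℝ) * x)) := (Real.exp_pos _).le.trans hone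
    nlinarith
  have htg : tg S n ≤ 4 / 3 * Real.log P := by
    have e1 := hone.trans hA
    rw [← Real.log_le_log_iff (Real.exp_pos _) hP0, Real.log_exp] at e1
    norm_num at e1
    linarith
  have hgap : P - p ≤ 4 / 3 * Real.log P * Real.log p := by
    have e1 : tg S n = (P - p) / Real.log p := rfl
    rw [e1, div_le_iff₀ (by linarith)] at htg
    exact htg
  have hlp : Real.log p ≤ Real.log P := Real.log_le_log (by linarith) hpP.le
  have hhalf : P / 2 ≤ p := by nlinarith
  have hlP : Real.log P ≤ Real.log p + 1 := by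
    have e1 : Real.log (P / 2) ≤ Real.log p := Real.log_le_log (by linarith) hhalf
    rw [Real.log_div hP0.ne' (by norm_num)] at e1
    have := Real.log_two_lt_d9
    linarith
  nlinarith

end Pool.Agent.R528.RM
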