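import Mathlib
import Pool.Agent.R528.RM.EH1

set_option autoImplicit false
set_option linter.unusedSectionVars false
set_option linter.unusedVariables false

/-! # Exponential martingales with stopped tilts: maxima of families, both signs -/

open MeasureTheory Filter Set
open scoped ENNReal Topology

namespace Pool.Agent.R528.RM

variable {Ω : Type} {m0 : MeasurableSpace Ω} {μ : Measure Ω} [IsProbabilityMeasure μ]
  {ℱ : Filtration ℕ m0} {A : ℕ → Set Ω}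

variable {ρ : ℕ → ℝ} {δ : ℝ} {N : ℕ}

lemma Lc_le_s {σ θ c d : ℝ} (hσ : σ = 1 ∨ σ = -1) (hθ : 0 ≤ θ) (hc : 0 ≤ c) (hcθ : c * θ ≤ 1) (hd0 : 0 ≤ d) (hd1 : d ≤ 1 / 8) :
    Lc (c * (σ * θ)) d ≤ (c * θ) ^ 2 / 2 * (1 + c * θ) * d := by
  have hσabs : |σ| = 1 := by rcases hσ with h | h <;> rw [h] <;> norm_num
  have hσsq : σ ^ 2 = 1 := by rcases hσ with h | h <;> rw [h] <;> norm_num
  have h1 : |c * (σ * θ)| = c * θ := by rw [abs_mul, abs_mul, hσabs, one_mul, abs_of_nonneg hc, abs_of_nonneg hθ]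
  have h2 := Lc_le (t := c * (σ * θ)) (by rw [h1]; exact hcθ) hd0 hd1
  rw [h1] at h2
  have h3 : (c * (σ * θ)) ^ 2 = (c * θ) ^ 2 := by
    have : (c * (σ * θ)) ^ 2 = (c * θ) ^ 2 * σ ^ 2 := by ring
    rw [this, hσsq, mul_one]
  rwa [h3] at h2

lemma Lc_ge_s {σ θ d : ℝ} (hσ : σ = 1 ∨ σ = -1) (hθ : 0 ≤ θ) (hθ1 : θ ≤ 1) (hd0 : 0 ≤ d) (hd1 : d ≤ 1 / 8) :
    θ ^ 2 / 2 * (1 - 4 * d - θ) * d ≤ Lc (σ * θ) d := by
  rcases hσ with h | h
  · rw [h, one_mul]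
    have h1 := Lc_ge hθ hθ1 hd0
    have h2 : 0 ≤ θ ^ 2 / 2 * θ * d := by positivity
    have h3 : θ ^ 2 / 2 * (1 - 4 * d - θ) * d = θ ^ 2 / 2 * (1 - 4 * d) * d - θ ^ 2 / 2 * θ * d := by ring
    linarith
  · rw [h, neg_one_mul]
    have h3 := Real.exp_bound (x := -θ) (by rw [abs_neg, abs_of_nonneg hθ]; exact hθ1) (n := 3) (by norm_num)
    have h4 : ∑ m ∈ Finset.range 3, (-θ) ^ m / (m.factorial : ℝ) = 1 - θ + θ ^ 2 / 2 := by
      simp [Finset.sum_range_succ, Nat.factorial]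
      ring
    rw [h4, abs_neg, abs_of_nonneg hθ] at h3
    have h5 := (abs_le.1 h3).1
    have h6 : (((3 : ℕ).succ : ℝ) / (((3 : ℕ).factorial : ℝ) * (3 : ℕ))) = 2 / 9 := by
      simp [Nat.factorial]
      norm_num
    rw [h6] at h5
    have h7 : 1 - θ ≤ Real.exp (-θ) := by have := Real.add_one_le_exp (-θ); linarith
    have h8 : Real.exp (-θ) ≤ 1 := Real.exp_le_one_iff.2 (by linarith)
    set u : ℝ := (1 - Real.exp (-θ)) * d with hu
    have hu0 : 0 ≤ u := mul_nonneg (by linarith) hd0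
    have hu1 : u ≤ θ * d := mul_le_mul_of_nonneg_right (by linarith) hd0
    have hu2 : u ≤ 1 / 8 := by nlinarith
    have h9 := Real.one_sub_inv_le_log_of_pos (show 0 < 1 - u by linarith)
    have h10 : -u - 2 * u ^ 2 ≤ 1 - (1 - u)⁻¹ := by
      rw [← sub_nonneg]
      have e1 : 1 - (1 - u)⁻¹ - (-u - 2 * u ^ 2) = u ^ 2 * (1 - 2 * u) / (1 - u) := by
        have : 1 - u ≠ 0 := by linarith
        field_simp
        ring
      rw [e1]
      apply div_nonneg (mul_nonneg (sq_nonneg _) (by linarith)) (by linarith)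
    unfold Lc
    have e2 : 1 + (Real.exp (-θ) - 1) * d = 1 - u := by rw [hu]; ring
    rw [e2]
    have h11 : u ^ 2 ≤ (θ * d) ^ 2 := pow_le_pow_left₀ hu0 hu1 2
    have h12 : (θ ^ 2 / 2 - θ ^ 3 * (2 / 9)) * d ≤ (Real.exp (-θ) - 1 + θ) * d := mul_le_mul_of_nonneg_right (by linarith) hd0
    have h13 : 0 ≤ θ ^ 3 * d := by positivity
    nlinarith

/-- the maximum over a nearly disjoint family is large, both signs -/
theorem fam_sgn {ι : Type} [DecidableEq ι] {σ : ℝ} (hσ : σ = 1 ∨ σ = -1) (hA : ∀ n, MeasurableSet[ℱ n] (A n)) (hρ : ∀ n, 0 ≤ ρ n) (hδ0 : 0 ≤ δ) (hδ1 : δ ≤ 1)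
    {d₀ θ κ η v : ℝ} (hsm : ∀ m, N ≤ m → (1 + δ) * ρ (m + 1) ≤ d₀) (hd₀ : d₀ ≤ 1 / 8)
    (hθ0 : 0 < θ) (hκ0 : 0 < κ) (hκ1 : κ ≤ 1) (hθd : 8 * θ + 4 * d₀ ≤ κ ^ 2) (hη0 : 0 < η)
    (hpar1 : (1 + κ) ^ 2 * (1 + δ) ≤ 1 + η) (hpar2 : 1 - η / 2 ≤ (1 - κ) * (1 - δ) ^ 2)
    (I : Finset ι) (hI : I.Nonempty) (R : ι → Finset ℕ) (M : ℕ) (hR : ∀ i ∈ I, ∀ n ∈ R i, N < n ∧ n ≤ N + M)
    {o₁ : ℝ} (hdis : ∀ i ∈ I, ∀ j ∈ I, i ≠ j → ∑ n ∈ R i ∩ R j, ρ n ≤ o₁)
    (hv : ∀ i ∈ I, (1 - δ) * v ≤ ∑ n ∈ R i, ρ n ∧ ∑ n ∈ R i, ρ n ≤ v) :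
    μ.real ({ω | ∀ i ∈ I, σ * SR μ ℱ A ρ δ (R i) N M ω < (1 - η) * θ * v} ∩ Gs μ ℱ A ρ δ N (N + M)) ≤
      4 * Real.exp ((1 + 2 * η) * (θ ^ 2 * v / 2)) / I.card + 10 * Real.exp (-(κ * η * (θ ^ 2 * v / 2))) +
      4 * (Real.exp (2 * θ ^ 2 * ((1 + δ) * o₁)) - 1) := by
  classical
  have hd₀0 : 0 ≤ d₀ := le_trans (mul_nonneg (by linarith) (hρ _)) (hsm N le_rfl)
  have hκ2 : κ ^ 2 ≤ 1 := pow_le_one₀ hκ0.le hκ1
  have hθ1 : θ ≤ 1 / 4 := by linarith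
  have hsm' : ∀ m, N ≤ m → (1 + δ) * ρ (m + 1) ≤ 1 / 8 := fun m hm => (hsm m hm).trans hd₀
  have hv0 : 0 ≤ v := by
    obtain ⟨i, hi⟩ := hI
    exact (Finset.sum_nonneg fun n _ => hρ n).trans (hv i hi).2
  set Λ : ℝ := θ ^ 2 * v / 2 with hΛ
  have hΛ0 : 0 ≤ Λ := by positivity
  set K : ℝ := Real.exp ((1 + 2 * η) * Λ) with hK
  have hK0 : 0 < K := Real.exp_pos _
  set e₀ : ℝ := Real.exp (-(κ * η * Λ)) with he₀
  have he₀0 : 0 < e₀ := Real.exp_pos _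
  have hσabs : |σ| = 1 := by rcases hσ with h | h <;> rw [h] <;> norm_num
  have hσsq : σ ^ 2 = 1 := by rcases hσ with h | h <;> rw [h] <;> norm_num
  have hθabs : |σ * θ| ≤ 1 := by rw [abs_mul, hσabs, one_mul, abs_of_pos hθ0]; linarith
  set W : ι → Ω → ℝ := fun i ω => Real.exp (Zt μ ℱ A ρ δ (tR (σ * θ) (R i)) N M ω) with hW
  have hWpos : ∀ i ω, 0 < W i ω := fun i ω => Real.exp_pos _
  have hWmeas : ∀ i, Measurable (W i) := fun i =>
    Real.measurable_exp.comp (((Zt_meas hA (tR (σ * θ) (R i)) M).mono (ℱ.le _)).measurable)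
  have hWint : ∀ i, Integrable (W i) μ := fun i => expZ_int hA hρ hδ0 hδ1 hsm' (tR_abs hθabs (R i)) M
  have hWone : ∀ i, ∫ ω, W i ω ∂μ = 1 := fun i => Zt_one hA hρ hδ0 hδ1 hsm' (tR_abs hθabs (R i)) M
  set E : ℝ := Real.exp (2 * θ ^ 2 * ((1 + δ) * o₁)) with hE
  have hE0 : 0 < E := Real.exp_pos _
  have hWW : ∀ i ∈ I, ∀ j ∈ I, i ≠ j → Integrable (fun ω => W i ω * W j ω) μ ∧ ∫ ω, W i ω * W j ω ∂μ ≤ E := by
    intro i hi j hj hij
    have ht2 : ∀ n, |tR (σ * θ) (R i) n + tR (σ * θ) (R j) n| ≤ 1 := by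
      intro n
      have g : ∀ (R : Finset ℕ), |tR (σ * θ) R n| ≤ θ := by
        intro R
        unfold tR
        split_ifs
        · rw [abs_mul, hσabs, one_mul, abs_of_pos hθ0]
        · rw [abs_zero]; exact hθ0.le
      have g1 := g (R i)
      have g2 := g (R j)
      have g3 := abs_add_le (tR (σ * θ) (R i) n) (tR (σ * θ) (R j) n)
      linarith only [g1, g2, g3, hθ1]
    have hle : ∀ ω, W i ω * W j ω ≤ E * Real.exp (Zt μ ℱ A ρ δ (fun n => tR (σ * θ) (R i) n + tR (σ * θ) (R j) n) N M ω) := by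
      intro ω
      simp only [hW, hE]
      rw [← Real.exp_add, ← Real.exp_add, Zt_inter]
      apply Real.exp_le_exp.2
      have h5 : wS μ ℱ A ρ δ (R i ∩ R j) N M (fun d => Lc (2 * (σ * θ)) d - 2 * Lc (σ * θ) d) ω ≤
          (2 * θ ^ 2) * ((1 + δ) * ∑ n ∈ R i ∩ R j, ρ n) := by
        refine wS_le (μ := μ) (ℱ := ℱ) (A := A) hρ hδ0 hδ1 hsm (by positivity) ?_ (R i ∩ R j) M ω
        intro d hd0 hd1
        have g1 := Lc_le_s (c := 2) hσ hθ0.le (by norm_num) (by linarith only [hθ1]) hd0 (hd1.trans hd₀)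
        have g2 := Lc_ge_s hσ hθ0.le (by linarith only [hθ1]) hd0 (hd1.trans hd₀)
        have g3 : (2 * θ) ^ 2 / 2 * (1 + 2 * θ) * d - 2 * (θ ^ 2 / 2 * (1 - 4 * d - θ) * d) = θ ^ 2 * d * (1 + 5 * θ + 4 * d) := by ring
        have g4 : 1 + 5 * θ + 4 * d ≤ 2 := by linarith only [hθd, hκ2, hd1, hθ0]
        have g5 : θ ^ 2 * d * (1 + 5 * θ + 4 * d) ≤ θ ^ 2 * d * 2 := mul_le_mul_of_nonneg_left g4 (by positivity)
        linarith only [g1, g2, g3, g5]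
      have h6 : (2 * θ ^ 2) * ((1 + δ) * ∑ n ∈ R i ∩ R j, ρ n) ≤ 2 * θ ^ 2 * ((1 + δ) * o₁) :=
        mul_le_mul_of_nonneg_left (mul_le_mul_of_nonneg_left (hdis i hi j hj hij) (by linarith only [hδ0])) (by positivity)
      linarith only [h5, h6]
    have hi2 := expZ_int (μ := μ) (ℱ := ℱ) (A := A) hA hρ hδ0 hδ1 hsm' ht2 M
    have hint : Integrable (fun ω => W i ω * W j ω) μ := by
      refine (hi2.const_mul E).mono ((hWmeas i).mul (hWmeas j)).aestronglyMeasurable (Eventually.of_forall fun ω => ?_)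
      rw [Real.norm_eq_abs, Real.norm_eq_abs, abs_of_nonneg (mul_nonneg (hWpos i ω).le (hWpos j ω).le),
        abs_of_nonneg (mul_nonneg hE0.le (Real.exp_pos _).le)]
      exact hle ω
    refine ⟨hint, ?_⟩
    have h2 := integral_mono hint (hi2.const_mul E) hle
    rw [integral_const_mul, Zt_one hA hρ hδ0 hδ1 hsm' ht2 M, mul_one] at h2
    exact h2
  -- the truncated weights
  set Tr : ι → Ω → ℝ := fun i ω => ({ω | W i ω ≤ K} : Set Ω).indicator (W i) ω with hTr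
  have hsetm : ∀ i, MeasurableSet {ω | W i ω ≤ K} := fun i => (hWmeas i) measurableSet_Iic
  have hTr0 : ∀ i ω, 0 ≤ Tr i ω := fun i ω => indicator_nonneg (fun ω _ => (hWpos i ω).le) ω
  have hTrW : ∀ i ω, Tr i ω ≤ W i ω := fun i ω => indicator_le_self' (fun ω _ => (hWpos i ω).le) ω
  have hTrK : ∀ i ω, Tr i ω ≤ K := by
    intro i ω
    by_cases h : ω ∈ {ω | W i ω ≤ K}
    · simp only [hTr]
      rw [indicator_of_mem h]
      exact h
    · simp only [hTr]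
      rw [indicator_of_notMem h]
      exact hK0.le
  have hTrmeas : ∀ i, Measurable (Tr i) := fun i => (hWmeas i).indicator (hsetm i)
  have hTrint : ∀ i, Integrable (Tr i) μ := fun i => (hWint i).indicator (hsetm i)
  -- (beta)
  have hbeta : ∀ i ∈ I, 1 - e₀ ≤ ∫ ω, Tr i ω ∂μ := by
    intro i hi
    have h1' : (1 + κ) * θ ≤ 1 := by nlinarith
    have h1 : |(1 + κ) * (σ * θ)| ≤ 1 := by
      rw [abs_mul, abs_mul, hσabs, one_mul, abs_of_pos hθ0, abs_of_pos (by linarith)]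
      exact h1'
    have hpt : ∀ ω, W i ω - Tr i ω ≤ e₀ * Real.exp (Zt μ ℱ A ρ δ (tR ((1 + κ) * (σ * θ)) (R i)) N M ω) := by
      intro ω
      by_cases h : ω ∈ {ω | W i ω ≤ K}
      · have : Tr i ω = W i ω := by simp only [hTr]; rw [indicator_of_mem h]
        rw [this, sub_self]
        exact (mul_pos he₀0 (Real.exp_pos _)).le
      · have h2 : Tr i ω = 0 := by simp only [hTr]; rw [indicator_of_notMem h]
        rw [h2, sub_zero]
        have h3 : (1 + 2 * η) * Λ < Zt μ ℱ A ρ δ (tR (σ * θ) (R i)) N M ω := by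
          have : K < W i ω := not_le.1 h
          exact Real.exp_lt_exp.1 this
        simp only [hW, he₀]
        rw [← Real.exp_add]
        apply Real.exp_le_exp.2
        have h4 : (1 + κ) * Zt μ ℱ A ρ δ (tR (σ * θ) (R i)) N M ω = Zt μ ℱ A ρ δ (tR ((1 + κ) * (σ * θ)) (R i)) N M ω +
            wS μ ℱ A ρ δ (R i) N M (fun d => Lc ((1 + κ) * (σ * θ)) d - (1 + κ) * Lc (σ * θ) d) ω := by
          rw [Zt_eq, Zt_eq, ← wS_sub]
          ring
        have h5 : wS μ ℱ A ρ δ (R i) N M (fun d => Lc ((1 + κ) * (σ * θ)) d - (1 + κ) * Lc (σ * θ) d) ω ≤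
            (θ ^ 2 / 2 * (κ * (1 + κ) ^ 2)) * ((1 + δ) * ∑ n ∈ R i, ρ n) := by
          refine wS_le (μ := μ) (ℱ := ℱ) (A := A) hρ hδ0 hδ1 hsm (by positivity) ?_ (R i) M ω
          intro d hd0 hd1
          have g1 := Lc_le_s (c := 1 + κ) hσ hθ0.le (by linarith) h1' hd0 (hd1.trans hd₀)
          have g2 := Lc_ge_s hσ hθ0.le (by linarith) hd0 (hd1.trans hd₀)
          have g3 : ((1 + κ) * θ) ^ 2 / 2 * (1 + (1 + κ) * θ) * d - (1 + κ) * (θ ^ 2 / 2 * (1 - 4 * d - θ) * d) =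
              θ ^ 2 / 2 * (1 + κ) * d * (κ + (1 + κ) ^ 2 * θ + 4 * d + θ) := by ring
          have g4 : κ + (1 + κ) ^ 2 * θ + 4 * d + θ ≤ κ + κ ^ 2 := by
            have : (1 + κ) ^ 2 ≤ 4 := by nlinarith
            have : (1 + κ) ^ 2 * θ ≤ 4 * θ := mul_le_mul_of_nonneg_right this hθ0.le
            linarith
          have g5 : θ ^ 2 / 2 * (1 + κ) * d * (κ + (1 + κ) ^ 2 * θ + 4 * d + θ) ≤ θ ^ 2 / 2 * (1 + κ) * d * (κ + κ ^ 2) :=
            mul_le_mul_of_nonneg_left g4 (by positivity)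
          have g6 : θ ^ 2 / 2 * (1 + κ) * d * (κ + κ ^ 2) = θ ^ 2 / 2 * (κ * (1 + κ) ^ 2) * d := by ring
          have g7 := mul_le_mul_of_nonneg_left g2 (show 0 ≤ 1 + κ by linarith)
          linarith
        have h6 : (θ ^ 2 / 2 * (κ * (1 + κ) ^ 2)) * ((1 + δ) * ∑ n ∈ R i, ρ n) ≤ κ * (1 + η) * Λ := by
          have g1 : (1 + δ) * ∑ n ∈ R i, ρ n ≤ (1 + δ) * v := mul_le_mul_of_nonneg_left (hv i hi).2 (by linarith)
          have g2 : (θ ^ 2 / 2 * (κ * (1 + κ) ^ 2)) * ((1 + δ) * ∑ n ∈ R i, ρ n) ≤ (θ ^ 2 / 2 * (κ * (1 + κ) ^ 2)) * ((1 + δ) * v) :=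
            mul_le_mul_of_nonneg_left g1 (by positivity)
          have g3 : (θ ^ 2 / 2 * (κ * (1 + κ) ^ 2)) * ((1 + δ) * v) = κ * ((1 + κ) ^ 2 * (1 + δ)) * Λ := by rw [hΛ]; ring
          have g4 : κ * ((1 + κ) ^ 2 * (1 + δ)) * Λ ≤ κ * (1 + η) * Λ :=
            mul_le_mul_of_nonneg_right (mul_le_mul_of_nonneg_left hpar1 hκ0.le) hΛ0
          linarith
        have h7 : κ * ((1 + 2 * η) * Λ) ≤ κ * Zt μ ℱ A ρ δ (tR (σ * θ) (R i)) N M ω := mul_le_mul_of_nonneg_left h3.le hκ0.le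
        nlinarith
    have hint := expZ_int (μ := μ) hA hρ hδ0 hδ1 hsm' (tR_abs h1 (R i)) M
    have h2 := integral_mono ((hWint i).sub (hTrint i)) (hint.const_mul e₀) hpt
    have h3 : ∫ ω, (W i - Tr i) ω ∂μ = 1 - ∫ ω, Tr i ω ∂μ := by
      have : ∫ ω, (W i - Tr i) ω ∂μ = ∫ ω, W i ω ∂μ - ∫ ω, Tr i ω ∂μ := integral_sub (hWint i) (hTrint i)
      rw [this, hWone]
    have h4 : ∫ ω, e₀ * Real.exp (Zt μ ℱ A ρ δ (tR ((1 + κ) * (σ * θ)) (R i)) N M ω) ∂μ = e₀ := by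
      rw [integral_const_mul, Zt_one hA hρ hδ0 hδ1 hsm' (tR_abs h1 (R i)) M, mul_one]
    rw [h3, h4] at h2
    linarith
  -- (gamma)
  set G := Gs μ ℱ A ρ δ N (N + M) with hG
  set Lo : ι → Set Ω := fun i => {ω | σ * SR μ ℱ A ρ δ (R i) N M ω < (1 - η) * θ * v} ∩ G with hLo
  have hGm : MeasurableSet G := ℱ.le _ _ (Gs_meas ρ δ N (N + M))
  have hLom : ∀ i, MeasurableSet (Lo i) := fun i => (((SR_meas hA (R i) M).const_mul σ) measurableSet_Iio).inter hGm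
  have hgamma : ∀ i ∈ I, ∫ ω, (Lo i).indicator (W i) ω ∂μ ≤ e₀ := by
    intro i hi
    have h1' : (1 - κ) * θ ≤ 1 := by nlinarith
    have h1 : |(1 - κ) * (σ * θ)| ≤ 1 := by
      rw [abs_mul, abs_mul, hσabs, one_mul, abs_of_pos hθ0, abs_of_nonneg (by linarith)]
      exact h1'
    have hpt : ∀ ω, (Lo i).indicator (W i) ω ≤ e₀ * Real.exp (Zt μ ℱ A ρ δ (tR ((1 - κ) * (σ * θ)) (R i)) N M ω) := by
      intro ω
      by_cases h : ω ∈ Lo i
      · rw [indicator_of_mem h]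
        obtain ⟨h2, h3⟩ := h
        have h2' : σ * SR μ ℱ A ρ δ (R i) N M ω < (1 - η) * θ * v := h2
        simp only [hW, he₀]
        rw [← Real.exp_add]
        apply Real.exp_le_exp.2
        have h4 : Zt μ ℱ A ρ δ (tR (σ * θ) (R i)) N M ω = Zt μ ℱ A ρ δ (tR ((1 - κ) * (σ * θ)) (R i)) N M ω +
            κ * θ * (σ * SR μ ℱ A ρ δ (R i) N M ω) + wS μ ℱ A ρ δ (R i) N M (fun d => Lc ((1 - κ) * (σ * θ)) d - 1 * Lc (σ * θ) d) ω := by
          rw [Zt_eq, Zt_eq, ← wS_sub]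
          ring
        have h5 : wS μ ℱ A ρ δ (R i) N M (fun d => Lc ((1 - κ) * (σ * θ)) d - 1 * Lc (σ * θ) d) ω ≤
            (-(θ ^ 2 / 2 * (2 * κ * (1 - κ)))) * ((1 - δ) * ∑ n ∈ R i, ρ n) := by
          refine wS_neg (μ := μ) (ℱ := ℱ) (A := A) hρ hδ1 hsm ?_ ?_ (R i) M (hR i hi) h3
          · have : 0 ≤ θ ^ 2 / 2 * (2 * κ * (1 - κ)) := mul_nonneg (by positivity) (mul_nonneg (by positivity) (by linarith))
            linarith
          intro d hd0 hd1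
          have g1 := Lc_le_s (c := 1 - κ) hσ hθ0.le (by linarith) h1' hd0 (hd1.trans hd₀)
          have g2 := Lc_ge_s hσ hθ0.le (by linarith) hd0 (hd1.trans hd₀)
          have g3 : ((1 - κ) * θ) ^ 2 / 2 * (1 + (1 - κ) * θ) * d - 1 * (θ ^ 2 / 2 * (1 - 4 * d - θ) * d) =
              θ ^ 2 / 2 * d * ((1 - κ) ^ 2 - 1 + (1 - κ) ^ 3 * θ + 4 * d + θ) := by ring
          have g4 : (1 - κ) ^ 2 - 1 + (1 - κ) ^ 3 * θ + 4 * d + θ ≤ -(2 * κ * (1 - κ)) := by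
            have : (1 - κ) ^ 3 ≤ 1 := pow_le_one₀ (by linarith) (by linarith)
            have : (1 - κ) ^ 3 * θ ≤ 1 * θ := mul_le_mul_of_nonneg_right this hθ0.le
            nlinarith
          have g5 : θ ^ 2 / 2 * d * ((1 - κ) ^ 2 - 1 + (1 - κ) ^ 3 * θ + 4 * d + θ) ≤ θ ^ 2 / 2 * d * (-(2 * κ * (1 - κ))) :=
            mul_le_mul_of_nonneg_left g4 (by positivity)
          linarith
        have h6 : (-(θ ^ 2 / 2 * (2 * κ * (1 - κ)))) * ((1 - δ) * ∑ n ∈ R i, ρ n) ≤ -(2 * κ * (1 - η / 2) * Λ) := by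
          have g1 : (1 - δ) * ((1 - δ) * v) ≤ (1 - δ) * ∑ n ∈ R i, ρ n := mul_le_mul_of_nonneg_left (hv i hi).1 (by linarith)
          have g0 : 0 ≤ θ ^ 2 / 2 * (2 * κ * (1 - κ)) := mul_nonneg (by positivity) (mul_nonneg (by positivity) (by linarith))
          have g2 := mul_le_mul_of_nonneg_left g1 g0
          have g3 : θ ^ 2 / 2 * (2 * κ * (1 - κ)) * ((1 - δ) * ((1 - δ) * v)) = 2 * κ * ((1 - κ) * (1 - δ) ^ 2) * Λ := by rw [hΛ]; ring
          have g4 : 2 * κ * (1 - η / 2) * Λ ≤ 2 * κ * ((1 - κ) * (1 - δ) ^ 2) * Λ :=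
            mul_le_mul_of_nonneg_right (mul_le_mul_of_nonneg_left hpar2 (by positivity)) hΛ0
          linarith
        have h7 : κ * θ * (σ * SR μ ℱ A ρ δ (R i) N M ω) ≤ κ * θ * ((1 - η) * θ * v) := mul_le_mul_of_nonneg_left h2'.le (by positivity)
        have h8 : κ * θ * ((1 - η) * θ * v) = 2 * κ * (1 - η) * Λ := by rw [hΛ]; ring
        rw [h8] at h7
        nlinarith
      · rw [indicator_of_notMem h]
        exact (mul_pos he₀0 (Real.exp_pos _)).le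
    have hint := expZ_int (μ := μ) hA hρ hδ0 hδ1 hsm' (tR_abs h1 (R i)) M
    have h2 := integral_mono ((hWint i).indicator (hLom i)) (hint.const_mul e₀) hpt
    have h4 : ∫ ω, e₀ * Real.exp (Zt μ ℱ A ρ δ (tR ((1 - κ) * (σ * θ)) (R i)) N M ω) ∂μ = e₀ := by
      rw [integral_const_mul, Zt_one hA hρ hδ0 hδ1 hsm' (tR_abs h1 (R i)) M, mul_one]
    rw [h4] at h2
    exact h2
  -- second moment
  set n : ℝ := (I.card : ℝ) with hn
  have hn0 : 0 < n := by rw [hn]; exact_mod_cast Finset.card_pos.2 hI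
  set T : Ω → ℝ := fun ω => ∑ i ∈ I, Tr i ω with hT
  have hTmeas : Measurable T := Finset.measurable_sum _ fun i _ => hTrmeas i
  have hTint : Integrable T μ := integrable_finsetSum I fun i _ => hTrint i
  have hTT : Integrable (fun ω => T ω ^ 2) μ := by
    refine Integrable.of_bound (hTmeas.pow_const 2).aestronglyMeasurable ((n * K) ^ 2) (Eventually.of_forall fun ω => ?_)
    rw [Real.norm_eq_abs, abs_of_nonneg (sq_nonneg _)]
    apply pow_le_pow_left₀ (Finset.sum_nonneg fun i _ => hTr0 i ω)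
    refine (Finset.sum_le_sum fun i _ => hTrK i ω).trans ?_
    rw [Finset.sum_const, nsmul_eq_mul]
  have hET : n * (1 - e₀) ≤ ∫ ω, T ω ∂μ := by
    have h1 : ∫ ω, T ω ∂μ = ∑ i ∈ I, ∫ ω, Tr i ω ∂μ := integral_finsetSum I fun i _ => hTrint i
    rw [h1]
    calc n * (1 - e₀) = ∑ i ∈ I, (1 - e₀) := by rw [Finset.sum_const, nsmul_eq_mul]
      _ ≤ _ := Finset.sum_le_sum hbeta
  have hET2 : ∫ ω, T ω ^ 2 ∂μ ≤ n * K + n ^ 2 * E := by
    have hTrTr : ∀ i ∈ I, ∀ j ∈ I, Integrable (fun ω => Tr i ω * Tr j ω) μ ∧ ∫ ω, Tr i ω * Tr j ω ∂μ ≤ (if i = j then K else E) := by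
      intro i hi j hj
      have hint : Integrable (fun ω => Tr i ω * Tr j ω) μ := by
        refine Integrable.of_bound ((hTrmeas i).mul (hTrmeas j)).aestronglyMeasurable (K * K) (Eventually.of_forall fun ω => ?_)
        rw [Real.norm_eq_abs, abs_of_nonneg (mul_nonneg (hTr0 i ω) (hTr0 j ω))]
        exact mul_le_mul (hTrK i ω) (hTrK j ω) (hTr0 j ω) hK0.le
      refine ⟨hint, ?_⟩
      by_cases hij : i = j
      · subst hij
        rw [if_pos rfl]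
        have h2 : ∫ ω, Tr i ω * Tr i ω ∂μ ≤ ∫ ω, K * W i ω ∂μ := integral_mono hint ((hWint i).const_mul K) fun ω =>
          mul_le_mul (hTrK i ω) (hTrW i ω) (hTr0 i ω) hK0.le
        rw [integral_const_mul, hWone, mul_one] at h2
        exact h2
      · rw [if_neg hij]
        obtain ⟨h2, h3⟩ := hWW i hi j hj hij
        have h4 : ∫ ω, Tr i ω * Tr j ω ∂μ ≤ ∫ ω, W i ω * W j ω ∂μ := integral_mono hint h2 fun ω =>
          mul_le_mul (hTrW i ω) (hTrW j ω) (hTr0 j ω) (hWpos i ω).le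
        exact h4.trans h3
    have h1 : ∀ ω, T ω ^ 2 = ∑ i ∈ I, ∑ j ∈ I, Tr i ω * Tr j ω := by
      intro ω
      simp only [hT]
      rw [sq, Finset.sum_mul_sum]
    have h2 : ∫ ω, T ω ^ 2 ∂μ = ∑ i ∈ I, ∑ j ∈ I, ∫ ω, Tr i ω * Tr j ω ∂μ := by
      rw [integral_congr_ae (Eventually.of_forall h1), integral_finsetSum I fun i hi => integrable_finsetSum I fun j hj => (hTrTr i hi j hj).1]
      refine Finset.sum_congr rfl fun i hi => ?_
      rw [integral_finsetSum I fun j hj => (hTrTr i hi j hj).1]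
    rw [h2]
    have h3 : ∀ i ∈ I, ∑ j ∈ I, ∫ ω, Tr i ω * Tr j ω ∂μ ≤ K + n * E := by
      intro i hi
      refine (Finset.sum_le_sum fun j hj => (hTrTr i hi j hj).2).trans ?_
      have h4 : ∀ j ∈ I, (if i = j then K else E) ≤ (if i = j then K else 0) + E := by
        intro j _
        split_ifs <;> linarith only [hE0]
      refine (Finset.sum_le_sum h4).trans ?_
      rw [Finset.sum_add_distrib, Finset.sum_ite_eq, if_pos hi, Finset.sum_const, nsmul_eq_mul]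
    refine (Finset.sum_le_sum h3).trans (le_of_eq ?_)
    rw [Finset.sum_const, nsmul_eq_mul, ← hn]
    ring
  have hcheb : μ.real {ω | T ω < n / 2} ≤ 4 * K / n + 8 * e₀ + 4 * (E - 1) := by
    have hsub : {ω | T ω < n / 2} ⊆ {ω | (n / 2) ^ 2 ≤ (T ω - n) ^ 2} := by
      intro ω hω
      have h1 : T ω < n / 2 := hω
      show (n / 2) ^ 2 ≤ (T ω - n) ^ 2
      nlinarith
    have hint : Integrable (fun ω => (T ω - n) ^ 2) μ := by
      have : (fun ω => (T ω - n) ^ 2) = fun ω => T ω ^ 2 - 2 * n * T ω + n ^ 2 := by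
        funext ω; ring
      rw [this]
      exact (hTT.sub (hTint.const_mul _)).add (integrable_const _)
    have h1 := mul_meas_ge_le_integral_of_nonneg (μ := μ) (f := fun ω => (T ω - n) ^ 2)
      (Eventually.of_forall fun ω => sq_nonneg _) hint ((n / 2) ^ 2)
    have h2 : ∫ ω, (T ω - n) ^ 2 ∂μ ≤ n * K + 2 * n ^ 2 * e₀ + n ^ 2 * (E - 1) := by
      have h3 : ∫ ω, (T ω - n) ^ 2 ∂μ = ∫ ω, T ω ^ 2 ∂μ - 2 * n * ∫ ω, T ω ∂μ + n ^ 2 := by
        have e1 : ∫ ω, (T ω - n) ^ 2 ∂μ = ∫ ω, (T ω ^ 2 - 2 * n * T ω + n ^ 2) ∂μ :=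
          integral_congr_ae (Eventually.of_forall fun ω => by ring)
        have e2 : ∫ ω, (T ω ^ 2 - 2 * n * T ω + n ^ 2) ∂μ = ∫ ω, (T ω ^ 2 - 2 * n * T ω) ∂μ + ∫ ω, n ^ 2 ∂μ :=
          integral_add (hTT.sub (hTint.const_mul _)) (integrable_const _)
        have e3 : ∫ ω, (T ω ^ 2 - 2 * n * T ω) ∂μ = ∫ ω, T ω ^ 2 ∂μ - ∫ ω, 2 * n * T ω ∂μ := integral_sub hTT (hTint.const_mul _)
        have e4 : ∫ _ω : Ω, n ^ 2 ∂μ = n ^ 2 := by simp
        rw [e1, e2, e3, integral_const_mul, e4]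
      rw [h3]
      have h4 := mul_le_mul_of_nonneg_left hET (show 0 ≤ 2 * n by positivity)
      nlinarith only [h4, hET2]
    have h3 := mul_le_mul_of_nonneg_left (measureReal_mono (μ := μ) hsub (measure_ne_top _ _)) (show 0 ≤ (n / 2) ^ 2 by positivity)
    have h4 : (n / 2) ^ 2 * μ.real {ω | T ω < n / 2} ≤ n * K + 2 * n ^ 2 * e₀ + n ^ 2 * (E - 1) := h3.trans (h1.trans h2)
    have h5 : 4 * K / n + 8 * e₀ + 4 * (E - 1) = (n * K + 2 * n ^ 2 * e₀ + n ^ 2 * (E - 1)) / (n / 2) ^ 2 := by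
      field_simp
      ring
    rw [h5, le_div_iff₀ (by positivity), mul_comm]
    exact h4
  -- the mass of the low part
  have hlow : μ.real {ω | n / 2 ≤ ∑ i ∈ I, (Lo i).indicator (W i) ω} ≤ 2 * e₀ := by
    have hint : Integrable (fun ω => ∑ i ∈ I, (Lo i).indicator (W i) ω) μ := integrable_finsetSum I fun i _ => (hWint i).indicator (hLom i)
    have h1 := mul_meas_ge_le_integral_of_nonneg (μ := μ) (f := fun ω => ∑ i ∈ I, (Lo i).indicator (W i) ω)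
      (Eventually.of_forall fun ω => Finset.sum_nonneg fun i _ => indicator_nonneg (fun ω _ => (hWpos i ω).le) ω) hint (n / 2)
    have h2 : ∫ ω, ∑ i ∈ I, (Lo i).indicator (W i) ω ∂μ ≤ n * e₀ := by
      rw [integral_finsetSum I fun i _ => (hWint i).indicator (hLom i)]
      refine (Finset.sum_le_sum hgamma).trans (le_of_eq ?_)
      rw [Finset.sum_const, nsmul_eq_mul]
    have h3 := h1.trans h2
    have h4 : n * e₀ = n / 2 * (2 * e₀) := by ring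
    rw [h4] at h3
    exact le_of_mul_le_mul_left h3 (by positivity)
  refine (measureReal_mono (s₂ := {ω | T ω < n / 2} ∪ {ω | n / 2 ≤ ∑ i ∈ I, (Lo i).indicator (W i) ω}) ?_ (measure_ne_top _ _)).trans
    ((measureReal_union_le _ _).trans ?_)
  · rintro ω ⟨h1, h2⟩
    by_cases h3 : T ω < n / 2
    · exact Or.inl h3
    · right
      push Not at h3
      show n / 2 ≤ _
      refine h3.trans ?_
      refine Finset.sum_le_sum fun i hi => ?_
      rw [indicator_of_mem (show ω ∈ Lo i from ⟨h1 i hi, h2⟩)]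
      exact hTrW i ω
  · linarith

end Pool.Agent.R528.RM
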