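import Mathlib
import Pool.Agent.R528.RM.Opp0
import Pool.Agent.R528.RM.EH9
import Pool.Agent.R528.RM.Sp2

set_option autoImplicit false
set_option linter.unusedSectionVars false
set_option linter.unusedVariables false

/-! # Fluctuations of the counts in windows: upper bounds -/

open MeasureTheory Filter Set
open scoped ENNReal Topology

namespace Pool.Agent.R528.RM

variable {Ω : Type} {m0 : MeasurableSpace Ω} {μ : Measure Ω} [IsProbabilityMeasure μ]
  {ℱ : Filtration ℕ m0} {A : ℕ → Set Ω}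

/-- windows with many members -/
structure Modr (T h : ℕ → ℕ) : Prop where
  big : Tendsto (fun j => Real.log (T j)) atTop atTop
  ratio : Tendsto (fun j => Real.log ((T j + h j : ℕ) : ℝ) / Real.log (T j)) atTop (𝓝 1)
  moder : Tendsto (fun j : ℕ => (h j : ℝ) / Real.log (T j) / Real.log j) atTop atTop
  disj : ∀ᶠ j in atTop, T j + h j ≤ T (j + 1)
  reg : ∀ δ : ℝ, 0 < δ → ∃ κ : ℝ, 0 < κ ∧ κ ≤ 1 ∧ ∀ᶠ J : ℕ in atTop, ∀ j : ℕ, J ≤ j → (j : ℝ) ≤ (1 + κ) * J →
    |(h j : ℝ) / Real.log (T j) - (h J : ℝ) / Real.log (T J)| ≤ δ * ((h J : ℝ) / Real.log (T J))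

/-- the window -/
def WRj (T h : ℕ → ℕ) (j : ℕ) : Finset ℕ := Finset.Ico (T j + 1) (T j + h j + 1)

lemma sum_WRj (T h : ℕ → ℕ) (j : ℕ) (f : ℕ → ℝ) : ∑ n ∈ WRj T h j, f n = ∑ i ∈ Finset.range (h j), f (T j + 1 + i) := by
  unfold WRj
  rw [Finset.sum_Ico_eq_sum_range]
  have : T j + h j + 1 - (T j + 1) = h j := by omega
  rw [this]

variable {T h : ℕ → ℕ}

lemma u_tt (hs : Modr T h) : Tendsto (fun j : ℕ => (h j : ℝ) / Real.log (T j)) atTop atTop := by
  refine tendsto_atTop_mono' atTop ?_ hs.moder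
  filter_upwards [ev_log 1, hs.big.eventually_gt_atTop 0] with j g1 g2
  apply div_le_self (by positivity) g1

lemma h_tt (hs : Modr T h) : Tendsto (fun j : ℕ => (h j : ℝ)) atTop atTop := by
  refine tendsto_atTop_mono' atTop ?_ (u_tt hs)
  filter_upwards [hs.big.eventually_ge_atTop 1] with j g1
  exact div_le_self (Nat.cast_nonneg _) g1

lemma Rw_one {W : ℕ} (hW : 0 < W) (hs : Modr T h) :
    Tendsto (fun j : ℕ => Rw W T h j / ((h j : ℝ) / Real.log (T j))) atTop (𝓝 1) := by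
  have hh := h_tt hs
  have he : Tendsto (fun j : ℕ => 2 * (W : ℝ) / (h j : ℝ)) atTop (𝓝 0) := tendsto_const_nhds.div_atTop hh
  have hlow : Tendsto (fun j : ℕ => (1 - 2 * (W : ℝ) / (h j : ℝ)) / (Real.log ((T j + h j : ℕ) : ℝ) / Real.log (T j))) atTop (𝓝 1) := by
    have := (he.const_sub 1).div hs.ratio one_ne_zero
    rw [sub_zero, div_one] at this
    exact this
  have hup : Tendsto (fun j : ℕ => 1 + 2 * (W : ℝ) / (h j : ℝ)) atTop (𝓝 1) := by
    have := he.const_add 1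
    rwa [add_zero] at this
  have hev : ∀ᶠ j : ℕ in atTop, (((h j : ℝ) - 2 * W) / Real.log ((T j + h j : ℕ) : ℝ) ≤ Rw W T h j ∧
      Rw W T h j ≤ ((h j : ℝ) + 2 * W) / Real.log (T j)) ∧ 0 < Real.log (T j) ∧ 0 < Real.log ((T j + h j : ℕ) : ℝ) ∧ 0 < (h j : ℝ) := by
    filter_upwards [hs.big.eventually_ge_atTop ((W : ℝ) / Nat.totient W), hs.big.eventually_gt_atTop 0, hh.eventually_gt_atTop 0] with j g1 g2 g3
    have hT1 : 1 ≤ T j := by
      by_contra hcon
      have : T j = 0 := by omega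
      rw [this] at g2
      simp at g2
    have g4 := rho_cls1 (W := W) (q := 1) (a := 0) (s := T j) (t := T j + h j) hW one_pos (zero_mem_admW W) (by omega) g1 hT1
    rw [adm_oneW, ← sum_rhoW_eq] at g4
    have g5 : Real.log (T j) ≤ Real.log ((T j + h j : ℕ) : ℝ) := Real.log_le_log (by exact_mod_cast hT1) (by push_cast; linarith [Nat.cast_nonneg (α := ℝ) (h j)])
    refine ⟨⟨?_, ?_⟩, g2, lt_of_lt_of_le g2 g5, g3⟩
    · refine le_trans (le_of_eq ?_) g4.1
      push_cast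
      ring
    · refine g4.2.trans (le_of_eq ?_)
      push_cast
      ring
  refine tendsto_of_tendsto_of_tendsto_of_le_of_le' hlow hup ?_ ?_
  · filter_upwards [hev] with j ⟨⟨g1, g2⟩, g3, g4, g5⟩
    rw [le_div_iff₀ (by positivity)]
    refine le_trans (le_of_eq ?_) g1
    have g3' := g3.ne'
    have g4' := g4.ne'
    have g5' := g5.ne'
    set a := Real.log (T j : ℝ)
    set b := Real.log ((T j + h j : ℕ) : ℝ)
    field_simp
  · filter_upwards [hev] with j ⟨⟨g1, g2⟩, g3, g4, g5⟩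
    rw [div_le_iff₀ (by positivity)]
    refine g2.trans (le_of_eq ?_)
    field_simp

/-- the small parameter -/
noncomputable def thj (T h : ℕ → ℕ) (j : ℕ) : ℝ := √(2 * Real.log j / ((h j : ℝ) / Real.log (T j)))

lemma thj_lim (hs : Modr T h) : Tendsto (thj T h) atTop (𝓝 0) := by
  have h1 := hs.moder.inv_tendsto_atTop.const_mul 2
  rw [mul_zero] at h1
  have h2 := (Real.continuous_sqrt.tendsto 0).comp h1
  rw [Real.sqrt_zero] at h2
  refine h2.congr fun j => ?_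
  simp only [Function.comp, Pi.inv_apply, thj]
  congr 1
  rw [inv_div]
  ring

lemma rho_small {W : ℕ} (hW : 0 < W) {c : ℝ} (hc : 0 < c) : ∀ᶠ m : ℕ in atTop, rhoW W (m + 1) ≤ c := by
  have hφ : (0 : ℝ) < Nat.totient W := by exact_mod_cast Nat.totient_pos.2 hW
  have hW' : (0 : ℝ) < W := by exact_mod_cast hW
  filter_upwards [ev_log (((W : ℝ) / Nat.totient W) / c), eventually_gt_atTop 1] with m h1 h2
  have hm : (1 : ℝ) < m := by exact_mod_cast h2
  have h3 : Real.log m ≤ Real.log ((m + 1 : ℕ) : ℝ) := Real.log_le_log (by linarith only [hm]) (by push_cast; linarith only)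
  have hlm : 0 < Real.log ((m + 1 : ℕ) : ℝ) := (Real.log_pos hm).trans_le h3
  unfold rhoW
  split_ifs
  · refine (min_le_right _ _).trans ?_
    rw [div_le_iff₀ hlm]
    rw [div_le_iff₀ hc] at h1
    have := mul_le_mul_of_nonneg_left h3 hc.le
    linarith only [this, h1]
  · exact hc.le

/-- the upper bound -/
theorem win_upper (hA : ∀ n, MeasurableSet[ℱ n] (A n)) {W : ℕ} (hW : 0 < W)
    (hd : ∀ᵐ ω ∂μ, ∀ ε : ℝ, 0 < ε → ∀ᶠ n : ℕ in atTop, |dens μ ℱ A n ω - rhoW W (n + 1)| ≤ ε * rhoW W (n + 1))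
    (hs : Modr T h) {η : ℝ} (hη0 : 0 < η) (hη1 : η ≤ 1 / 10) {σ : ℝ} (hσ : σ = 1 ∨ σ = -1) :
    ∀ᵐ ω ∂μ, ∀ᶠ j : ℕ in atTop, σ * CS μ ℱ A (WRj T h j) ω < (1 + η) * √(2 * ((h j : ℝ) / Real.log (T j)) * Real.log j) := by
  classical
  set δ : ℝ := η / 8 with hδ
  have hδ0 : 0 < δ := by positivity
  have hσabs : |σ| = 1 := by rcases hσ with h | h <;> rw [h] <;> norm_num
  have hσsq : σ ^ 2 = 1 := by rcases hσ with h | h <;> rw [h] <;> norm_num
  have hN : ∀ N : ℕ, ∃ N₀ : ℕ, N ≤ N₀ ∧ ∀ m, N₀ ≤ m → (1 + δ) * rhoW W (m + 1) ≤ 1 / 8 := by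
    intro N
    obtain ⟨m₀, hm₀⟩ := eventually_atTop.1 (rho_small hW (show (0 : ℝ) < 1 / 16 by norm_num))
    refine ⟨max N m₀, le_max_left _ _, fun m hm => ?_⟩
    have h1 := hm₀ m ((le_max_right _ _).trans hm)
    have h2 := rhoW_nonneg W (m + 1)
    nlinarith only [h1, h2, hη0, hη1, hδ]
  choose N₀ hN1 hN2 using hN
  have hb : ∀ N, ∀ᶠ j : ℕ in atTop, μ.real {ω | (1 + η) * √(2 * ((h j : ℝ) / Real.log (T j)) * Real.log j) ≤ σ * SR μ ℱ A (rhoW W) δ (WRj T h j) (N₀ N) (T j + h j) ω} ≤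
      (j : ℝ) ^ (-(1 + η)) := by
    intro N
    filter_upwards [(Rw_one hW hs).eventually (eventually_lt_nhds (show (1 : ℝ) < 1 + δ by linarith)),
      (thj_lim hs).eventually (eventually_lt_nhds hδ0), (u_tt hs).eventually_gt_atTop 0, ev_log 1, eventually_gt_atTop 0] with j g1 g2 g3 g4 g5
    set u : ℝ := (h j : ℝ) / Real.log (T j) with hu
    set L : ℝ := Real.log j with hL
    have hj : (0 : ℝ) < j := by exact_mod_cast g5
    have hLp : 0 < L := by linarith only [g4]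
    rw [div_lt_iff₀ g3] at g1
    set θ : ℝ := thj T h j with hθ
    have hθ0 : 0 ≤ θ := Real.sqrt_nonneg _
    have hθsq : θ ^ 2 = 2 * L / u := by rw [hθ]; unfold thj; exact Real.sq_sqrt (by positivity)
    have hθs : θ * √(2 * u * L) = 2 * L := by
      rw [hθ]
      unfold thj
      rw [← Real.sqrt_mul (by positivity)]
      have : 2 * Real.log ↑j / (↑(h j) / Real.log ↑(T j)) * (2 * u * L) = (2 * L) ^ 2 := by
        rw [← hu, ← hL]
        field_simp
      rw [this, Real.sqrt_sq (by positivity)]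
    have hθabs : |σ * θ| = θ := by rw [abs_mul, hσabs, one_mul, abs_of_nonneg hθ0]
    have key := SR_tail (μ := μ) (ℱ := ℱ) (A := A) (ρ := rhoW W) (δ := δ) (N := N₀ N) hA (fun n => rhoW_nonneg W n) hδ0.le (by linarith) (hN2 N)
      (θ := σ * θ) (by rw [hθabs]; linarith) (WRj T h j) (T j + h j) ((2 + 2 * η) * L)
    have hsub : {ω | (1 + η) * √(2 * u * L) ≤ σ * SR μ ℱ A (rhoW W) δ (WRj T h j) (N₀ N) (T j + h j) ω} ⊆
        {ω | (2 + 2 * η) * L ≤ σ * θ * SR μ ℱ A (rhoW W) δ (WRj T h j) (N₀ N) (T j + h j) ω} := by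
      intro ω hω
      have h1 : (1 + η) * √(2 * u * L) ≤ σ * SR μ ℱ A (rhoW W) δ (WRj T h j) (N₀ N) (T j + h j) ω := hω
      have h2 := mul_le_mul_of_nonneg_left h1 hθ0
      have h3 : θ * ((1 + η) * √(2 * u * L)) = (2 + 2 * η) * L := by
        calc θ * ((1 + η) * √(2 * u * L)) = (1 + η) * (θ * √(2 * u * L)) := by ring
          _ = _ := by rw [hθs]; ring
      show (2 + 2 * η) * L ≤ _
      rw [h3] at h2
      calc (2 + 2 * η) * L ≤ _ := h2
        _ = _ := by ring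
    refine (measureReal_mono hsub (measure_ne_top _ _)).trans (key.trans ?_)
    rw [Real.rpow_def_of_pos hj, Real.exp_le_exp, hθabs, ← hL]
    have h1 : ∑ n ∈ WRj T h j, rhoW W n = Rw W T h j := sum_WRj T h j _
    rw [h1]
    have h2 : (σ * θ) ^ 2 = 2 * L / u := by rw [mul_pow, hσsq, one_mul, hθsq]
    rw [h2]
    have h3 : 2 * L / u / 2 * (1 + θ) * ((1 + δ) * Rw W T h j) ≤ 2 * L / u / 2 * (1 + θ) * ((1 + δ) * ((1 + δ) * u)) := by
      apply mul_le_mul_of_nonneg_left _ (by positivity)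
      exact mul_le_mul_of_nonneg_left g1.le (by linarith)
    have h4 : 2 * L / u / 2 * (1 + θ) * ((1 + δ) * ((1 + δ) * u)) = ((1 + θ) * (1 + δ) ^ 2) * L := by
      field_simp
    have h5 : (1 + θ) * (1 + δ) ^ 2 ≤ 1 + η := by
      have : (1 + θ) * (1 + δ) ^ 2 ≤ (1 + δ) * (1 + δ) ^ 2 := mul_le_mul_of_nonneg_right (by linarith) (by positivity)
      have h6 : (1 + δ) * (1 + δ) ^ 2 ≤ 1 + η := by
        rw [hδ]
        nlinarith only [hη0, hη1, mul_pos hη0 hη0, mul_pos (mul_pos hη0 hη0) hη0]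
      linarith
    have h7 := mul_le_mul_of_nonneg_right h5 hLp.le
    linarith
  have hall : ∀ᵐ ω ∂μ, ∀ N, ∀ᶠ j : ℕ in atTop, ω ∉ {ω | (1 + η) * √(2 * ((h j : ℝ) / Real.log (T j)) * Real.log j) ≤ σ * SR μ ℱ A (rhoW W) δ (WRj T h j) (N₀ N) (T j + h j) ω} := by
    rw [ae_all_iff]
    intro N
    exact bc_real (μ := μ) (summable_pow_nat (s := -(1 + η)) (by linarith)) (hb N)
  filter_upwards [hall, hd] with ω hω hdω
  obtain ⟨N, hNω⟩ := dens_two hdω hδ0
  have hGs : ∀ M, ω ∈ Gs μ ℱ A (rhoW W) δ (N₀ N) (N₀ N + M) := by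
    intro M m hm _
    exact ⟨(hNω _ (hN1 N)).2 m hm, (hNω _ (hN1 N)).1 m hm⟩
  filter_upwards [hω N, (tendsto_T hs.big).eventually_ge_atTop (N₀ N)] with j g1 g2
  have h1 : SR μ ℱ A (rhoW W) δ (WRj T h j) (N₀ N) (T j + h j) ω = CS μ ℱ A (WRj T h j) ω := by
    apply SR_CS _ (hGs _)
    intro n hn
    unfold WRj at hn
    have := Finset.mem_Ico.1 hn
    omega
  have g1 : ¬ ((1 + η) * √(2 * ((h j : ℝ) / Real.log (T j)) * Real.log j) ≤ σ * SR μ ℱ A (rhoW W) δ (WRj T h j) (N₀ N) (T j + h j) ω) := g1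
  rw [h1] at g1
  exact not_le.1 g1

end Pool.Agent.R528.RM
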