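import Mathlib
import Pool.Agent.R528.RM.Opp1

set_option autoImplicit false
set_option linter.unusedSectionVars false
set_option linter.unusedVariables false

/-! # Fluctuations of the counts in windows: lower bounds -/

open MeasureTheory Filter Set
open scoped ENNReal Topology

namespace Pool.Agent.R528.RM

variable {Ω : Type} {m0 : MeasurableSpace Ω} {μ : Measure Ω} [IsProbabilityMeasure μ]
  {ℱ : Filtration ℕ m0} {A : ℕ → Set Ω} {T h : ℕ → ℕ}

lemma WRj_disj {j₀ : ℕ} (hd : ∀ j, j₀ ≤ j → T j + h j ≤ T (j + 1)) {i j : ℕ} (hi : j₀ ≤ i) (hij : i < j) : T i + h i ≤ T j := by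
  induction j, hij using Nat.le_induction with
  | base => exact hd i hi
  | succ j hj ih =>
    have h1 := hd j (by omega)
    omega

/-- the lower bound -/
theorem win_lower (hA : ∀ n, MeasurableSet[ℱ n] (A n)) {W : ℕ} (hW : 0 < W)
    (hd : ∀ᵐ ω ∂μ, ∀ ε : ℝ, 0 < ε → ∀ᶠ n : ℕ in atTop, |dens μ ℱ A n ω - rhoW W (n + 1)| ≤ ε * rhoW W (n + 1))
    (hs : Modr T h) {η : ℝ} (hη0 : 0 < η) (hη1 : η ≤ 1 / 10) {σ : ℝ} (hσ : σ = 1 ∨ σ = -1) :
    ∀ᵐ ω ∂μ, ∃ᶠ j : ℕ in atTop, (1 - 10 * η) * √(2 * ((h j : ℝ) / Real.log (T j)) * Real.log j) ≤ σ * CS μ ℱ A (WRj T h j) ω := by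
  classical
  set δ : ℝ := η / 8 with hδ
  set κ : ℝ := η / 16 with hκ
  set δ' : ℝ := δ / 8 with hδ'
  have hδ0 : 0 < δ := by positivity
  have hκ0 : 0 < κ := by positivity
  have hδ'0 : 0 < δ' := by positivity
  obtain ⟨κ₀, hκ₀0, hκ₀1, hreg⟩ := hs.reg δ' hδ'0
  obtain ⟨j₀, hj₀⟩ := eventually_atTop.1 hs.disj
  set d₀ : ℝ := η ^ 2 / 2048 with hd₀
  have hd₀0 : 0 < d₀ := by positivity
  have hN : ∀ N : ℕ, ∃ N₀ : ℕ, N ≤ N₀ ∧ ∀ m, N₀ ≤ m → (1 + δ) * rhoW W (m + 1) ≤ d₀ := by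
    intro N
    obtain ⟨m₀, hm₀⟩ := eventually_atTop.1 (rho_small hW (show (0 : ℝ) < d₀ / 2 by positivity))
    refine ⟨max N m₀, le_max_left _ _, fun m hm => ?_⟩
    have h1 := hm₀ m ((le_max_right _ _).trans hm)
    have h2 := rhoW_nonneg W (m + 1)
    nlinarith only [h1, h2, hη0, hη1, hδ, hd₀0]
  choose N₀ hN1 hN2 using hN
  -- the family
  set J : ℕ → ℕ := fun k => 2 ^ k with hJ
  have hJt : Tendsto J atTop atTop := tendsto_pow_atTop_atTop_of_one_lt (by norm_num)
  set I : ℕ → Finset ℕ := fun k => Finset.Icc (J k) ⌊(1 + κ₀) * J k⌋₊ with hI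
  set M : ℕ → ℕ := fun k => (I k).sup (fun i => T i + h i) with hM
  set γ : ℝ := 1 - 4 * η with hγ
  have hγ0 : 1 / 2 < γ := by rw [hγ]; linarith
  set v : ℕ → ℝ := fun k => (1 + δ') * (1 + δ') * ((h (J k) : ℝ) / Real.log (T (J k))) with hv
  set θ : ℕ → ℝ := fun k => √(2 * (γ * Real.log (J k)) / v k) with hθ
  have hu := u_tt hs
  have hmem : ∀ k i, i ∈ I k ↔ J k ≤ i ∧ (i : ℝ) ≤ (1 + κ₀) * J k := by
    intro k i
    simp only [hI, Finset.mem_Icc]
    rw [Nat.le_floor_iff (by positivity)]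
  have hθt : Tendsto θ atTop (𝓝 0) := by
    have h1 := (hs.moder.comp hJt).inv_tendsto_atTop.const_mul (2 * γ / ((1 + δ') * (1 + δ')))
    rw [mul_zero] at h1
    have h2 := (Real.continuous_sqrt.tendsto 0).comp h1
    rw [Real.sqrt_zero] at h2
    refine h2.congr fun k => ?_
    simp only [Function.comp, Pi.inv_apply, hθ, hv]
    congr 1
    have : (1 + δ') ≠ 0 := by linarith
    rw [inv_div]
    field_simp
  set F : ℕ → ℕ → Set Ω := fun N k => {ω | ∀ i ∈ I k, σ * SR μ ℱ A (rhoW W) δ (WRj T h i) (N₀ N) (M k) ω < (1 - η) * θ k * v k} ∩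
    Gs μ ℱ A (rhoW W) δ (N₀ N) (N₀ N + M k) with hF
  have hRw := (Rw_one hW hs).eventually (eventually_lt_nhds (show (1 : ℝ) < 1 + δ' by linarith))
  have hRw2 := (Rw_one hW hs).eventually (eventually_gt_nhds (show 1 - δ' < (1 : ℝ) by linarith))
  obtain ⟨j₁, hj₁⟩ := eventually_atTop.1 ((hRw.and hRw2).and (hu.eventually_gt_atTop 0))
  have hvi : ∀ᶠ k : ℕ in atTop, 0 < v k ∧ ∀ i ∈ I k, (1 - δ) * v k ≤ Rw W T h i ∧ Rw W T h i ≤ v k ∧
      (h i : ℝ) / Real.log (T i) ≤ (1 + δ') * ((h (J k) : ℝ) / Real.log (T (J k))) := by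
    filter_upwards [hJt.eventually hreg, hJt.eventually_ge_atTop j₁] with k g1 g2
    obtain ⟨_, g3⟩ := hj₁ (J k) g2
    refine ⟨by simp only [hv]; positivity, fun i hi => ?_⟩
    obtain ⟨i1, i2⟩ := (hmem k i).1 hi
    have g4 := g1 i i1 i2
    obtain ⟨⟨g5, g6⟩, g7⟩ := hj₁ i (g2.trans i1)
    rw [div_lt_iff₀ g7] at g5
    have g6 : (1 - δ') < Rw W T h i / ((h i : ℝ) / Real.log (T i)) := g6
    rw [lt_div_iff₀ g7] at g6
    set uJ : ℝ := (h (J k) : ℝ) / Real.log (T (J k)) with huJ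
    set ui : ℝ := (h i : ℝ) / Real.log (T i) with hui
    obtain ⟨g8, g9⟩ := abs_le.1 g4
    have e1 : ui ≤ (1 + δ') * uJ := by linarith
    have e2 : (1 - δ') * uJ ≤ ui := by linarith
    refine ⟨?_, ?_, e1⟩
    · have e3 : (1 - δ') * ((1 - δ') * uJ) ≤ (1 - δ') * ui := mul_le_mul_of_nonneg_left e2 (by rw [hδ', hδ]; linarith)
      have e4 : (1 - δ) * v k ≤ (1 - δ') * ((1 - δ') * uJ) := by
        simp only [hv]
        have : (1 - δ) * ((1 + δ') * (1 + δ')) ≤ (1 - δ') * (1 - δ') := by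
          rw [hδ']
          nlinarith only [hδ0, mul_pos hδ0 hδ0, mul_pos (mul_pos hδ0 hδ0) hδ0]
        have := mul_le_mul_of_nonneg_right this g3.le
        linarith
      linarith
    · have e3 : (1 + δ') * ui ≤ (1 + δ') * ((1 + δ') * uJ) := mul_le_mul_of_nonneg_left e1 (by linarith)
      simp only [hv]
      linarith
  have hprob : ∀ N, ∀ᶠ k : ℕ in atTop, μ.real (F N k) ≤ 4 / κ₀ * (((2 : ℝ) ^ (-(2 * η))) ^ k) + 10 * (((2 : ℝ) ^ (-(κ * η * γ))) ^ k) := by
    intro N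
    filter_upwards [hvi, hθt.eventually (eventually_lt_nhds (show (0 : ℝ) < η ^ 2 / 4096 by positivity)),
      hJt.eventually_ge_atTop j₀, ((tendsto_T hs.big).comp hJt).eventually_ge_atTop (N₀ N), hJt.eventually_gt_atTop 1,
      hs.disj] with k ⟨g0, g1⟩ g2 g3 g4 g5 _
    have g4 : N₀ N ≤ T (J k) := g4
    have hJp : (0 : ℝ) < J k := by exact_mod_cast (by omega : 0 < J k)
    have hJ1 : (1 : ℝ) < J k := by exact_mod_cast g5
    have hL : 0 < Real.log (J k) := Real.log_pos hJ1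
    have hθ0 : 0 < θ k := Real.sqrt_pos.2 (by positivity)
    have hne : (I k).Nonempty := ⟨J k, (hmem k _).2 ⟨le_rfl, by nlinarith⟩⟩
    have hTmono : ∀ i, J k ≤ i → T (J k) ≤ T i := by
      intro i hi
      rcases Nat.lt_or_eq_of_le hi with h1 | h1
      · have := WRj_disj hj₀ g3 h1; omega
      · rw [h1]
    have key := fam_sgn (μ := μ) (ℱ := ℱ) (A := A) (ρ := rhoW W) (δ := δ) (N := N₀ N) hσ hA (fun n => rhoW_nonneg W n) hδ0.le (by linarith)
      (d₀ := d₀) (θ := θ k) (κ := κ) (η := η) (v := v k) (hN2 N) (by rw [hd₀]; nlinarith) hθ0 hκ0 (by linarith)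
      (by rw [hd₀, hκ]; nlinarith) hη0 (by rw [hκ, hδ]; nlinarith [mul_pos hη0 hη0, mul_pos (mul_pos hη0 hη0) hη0])
      (by rw [hκ, hδ]; nlinarith [mul_pos hη0 hη0, mul_pos (mul_pos hη0 hη0) hη0]) (I k) hne (WRj T h) (M k) (by
        intro i hi n hn
        obtain ⟨i1, i2⟩ := (hmem k i).1 hi
        have h1 := Finset.mem_Ico.1 hn
        have h2 : T i + h i ≤ M k := Finset.le_sup (f := fun i => T i + h i) hi
        have h3 := hTmono i i1
        omega) (o₁ := 0) (by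
        intro i hi j hj hij
        obtain ⟨i1, _⟩ := (hmem k i).1 hi
        obtain ⟨j1, _⟩ := (hmem k j).1 hj
        have hdis : WRj T h i ∩ WRj T h j = ∅ := by
          rw [← Finset.disjoint_iff_inter_eq_empty, Finset.disjoint_left]
          intro n hn1 hn2
          have h1 := Finset.mem_Ico.1 hn1
          have h2 := Finset.mem_Ico.1 hn2
          rcases lt_or_gt_of_ne hij with h3 | h3
          · have := WRj_disj hj₀ (g3.trans i1) h3; omega
          · have := WRj_disj hj₀ (g3.trans j1) h3; omega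
        rw [hdis, Finset.sum_empty]) (by
        intro i hi
        rw [sum_WRj]
        exact ⟨(g1 i hi).1, (g1 i hi).2.1⟩)
    refine key.trans ?_
    have hΛ : θ k ^ 2 * v k / 2 = γ * Real.log (J k) := by
      simp only [hθ]
      rw [Real.sq_sqrt (by positivity)]
      field_simp
    rw [hΛ, mul_zero, mul_zero, Real.exp_zero, sub_self, mul_zero, add_zero]
    have hJk : (J k : ℝ) = 2 ^ k := by simp only [hJ]; push_cast; rfl
    have hlogJ : Real.log (J k) = k * Real.log 2 := by rw [hJk, Real.log_pow]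
    have hpow : ∀ c : ℝ, Real.exp (c * Real.log (J k)) = ((2 : ℝ) ^ c) ^ k := by
      intro c
      rw [hlogJ, Real.rpow_def_of_pos (by norm_num), ← Real.exp_nat_mul]
      congr 1
      ring
    have hcard : κ₀ * J k ≤ (I k).card := by
      simp only [hI]
      rw [Nat.card_Icc]
      have h1 : J k ≤ ⌊(1 + κ₀) * (J k : ℝ)⌋₊ := Nat.le_floor (by nlinarith)
      rw [Nat.cast_sub (by omega)]
      push_cast
      have h2 := Nat.lt_floor_add_one ((1 + κ₀) * (J k : ℝ))
      linarith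
    have hc0 : 0 < κ₀ * (J k : ℝ) := by positivity
    have e1 : 4 * Real.exp ((1 + 2 * η) * (γ * Real.log (J k))) / (I k).card ≤ 4 / κ₀ * (((2 : ℝ) ^ (-(2 * η))) ^ k) := by
      have f1 : Real.exp ((1 + 2 * η) * (γ * Real.log (J k))) ≤ Real.exp (-(2 * η) * Real.log (J k)) * J k := by
        nth_rw 3 [← Real.exp_log hJp]
        rw [← Real.exp_add, Real.exp_le_exp]
        have : (1 + 2 * η) * γ ≤ -(2 * η) + 1 := by rw [hγ]; nlinarith
        have := mul_le_mul_of_nonneg_right this hL.le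
        linarith
      rw [hpow] at f1
      calc 4 * Real.exp ((1 + 2 * η) * (γ * Real.log (J k))) / (I k).card ≤ 4 * (((2 : ℝ) ^ (-(2 * η))) ^ k * J k) / (κ₀ * J k) := by
            apply div_le_div₀ (by positivity) (by linarith) hc0 hcard
        _ = _ := by field_simp
    have e2 : 10 * Real.exp (-(κ * η * (γ * Real.log (J k)))) = 10 * (((2 : ℝ) ^ (-(κ * η * γ))) ^ k) := by
      rw [← hpow]
      congr 2
      ring
    rw [e2]
    linarith
  have hsum : Summable (fun k : ℕ => 4 / κ₀ * (((2 : ℝ) ^ (-(2 * η))) ^ k) + 10 * (((2 : ℝ) ^ (-(κ * η * γ))) ^ k)) := by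
    have hlt : ∀ c : ℝ, 0 < c → (2 : ℝ) ^ (-c) < 1 := fun c hc => Real.rpow_lt_one_of_one_lt_of_neg (by norm_num) (by linarith)
    apply Summable.add
    · exact (summable_geometric_of_lt_one (by positivity) (hlt _ (by positivity))).mul_left _
    · exact (summable_geometric_of_lt_one (by positivity) (hlt _ (by positivity))).mul_left _
  have hall : ∀ᵐ ω ∂μ, ∀ N, ∀ᶠ k : ℕ in atTop, ω ∉ F N k := by
    rw [ae_all_iff]
    intro N
    exact bc_real (μ := μ) hsum (hprob N)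
  filter_upwards [hall, hd] with ω hω hdω
  obtain ⟨N, hNω⟩ := dens_two hdω hδ0
  have hGs : ∀ M, ω ∈ Gs μ ℱ A (rhoW W) δ (N₀ N) (N₀ N + M) := by
    intro M m hm _
    exact ⟨(hNω _ (hN1 N)).2 m hm, (hNω _ (hN1 N)).1 m hm⟩
  have hfin : ∀ᶠ k : ℕ in atTop, ∃ j, J k ≤ j ∧ (1 - 10 * η) * √(2 * ((h j : ℝ) / Real.log (T j)) * Real.log j) ≤ σ * CS μ ℱ A (WRj T h j) ω := by
    filter_upwards [hω N, hvi, hJt.eventually_ge_atTop j₀, ((tendsto_T hs.big).comp hJt).eventually_ge_atTop (N₀ N), hJt.eventually_gt_atTop 1,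
      (tendsto_log.comp hJt).eventually_ge_atTop (1 / η)] with k g1 ⟨g20, g2⟩ g3 g4 g5 g6
    have g4 : N₀ N ≤ T (J k) := g4
    have g6 : 1 / η ≤ Real.log (J k) := g6
    rw [div_le_iff₀ hη0] at g6
    have hex : ∃ i ∈ I k, (1 - η) * θ k * v k ≤ σ * SR μ ℱ A (rhoW W) δ (WRj T h i) (N₀ N) (M k) ω := by
      by_contra hcon
      push Not at hcon
      exact g1 ⟨hcon, hGs _⟩
    obtain ⟨i, hi, h1⟩ := hex
    obtain ⟨i1, i2⟩ := (hmem k i).1 hi
    obtain ⟨_, _, g7⟩ := g2 i hi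
    refine ⟨i, i1, ?_⟩
    have hTi : T (J k) ≤ T i := by
      rcases Nat.lt_or_eq_of_le i1 with h1 | h1
      · have := WRj_disj hj₀ g3 h1; omega
      · rw [h1]
    have h2 : SR μ ℱ A (rhoW W) δ (WRj T h i) (N₀ N) (M k) ω = CS μ ℱ A (WRj T h i) ω := by
      apply SR_CS _ (hGs _)
      intro n hn
      have h3 := Finset.mem_Ico.1 hn
      have h4 : T i + h i ≤ M k := Finset.le_sup (f := fun i => T i + h i) hi
      omega
    rw [h2] at h1
    refine le_trans ?_ h1
    -- numerical comparison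
    have hJp : (0 : ℝ) < J k := by exact_mod_cast (by omega : 0 < J k)
    have hJ1 : (1 : ℝ) < J k := by exact_mod_cast g5
    have hL : 0 < Real.log (J k) := Real.log_pos hJ1
    set L : ℝ := Real.log (J k) with hLd
    set uJ : ℝ := (h (J k) : ℝ) / Real.log (T (J k)) with huJ
    have huJ0 : 0 < uJ := by
      have : 0 < (1 + δ') * (1 + δ') * uJ := g20
      exact (mul_pos_iff_of_pos_left (by positivity)).1 this
    have hθv : θ k * v k = √(2 * (γ * L) * v k) := by
      have e1 : θ k * v k = √(2 * (γ * L) / v k) * √(v k ^ 2) := by rw [Real.sqrt_sq g20.le]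
      rw [e1, ← Real.sqrt_mul (by positivity)]
      congr 1
      field_simp
    have hli : Real.log i ≤ (1 + η) * L := by
      have hi0 : (0 : ℝ) < i := lt_of_lt_of_le hJp (by exact_mod_cast i1)
      have e1 : Real.log i ≤ Real.log ((1 + κ₀) * J k) := Real.log_le_log hi0 i2
      rw [Real.log_mul (by positivity) hJp.ne'] at e1
      have e2 : Real.log (1 + κ₀) ≤ 1 := by
        have := Real.log_le_sub_one_of_pos (show 0 < 1 + κ₀ by linarith)
        linarith
      linarith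
    have hli0 : 0 ≤ Real.log i := Real.log_natCast_nonneg _
    have e3 : √(2 * ((h i : ℝ) / Real.log (T i)) * Real.log i) ≤ √((1 + δ') * (1 + η)) * √(2 * uJ * L) := by
      rw [← Real.sqrt_mul (by positivity)]
      apply Real.sqrt_le_sqrt
      calc 2 * ((h i : ℝ) / Real.log (T i)) * Real.log i ≤ 2 * ((1 + δ') * uJ) * ((1 + η) * L) := by
            apply mul_le_mul _ hli hli0 (by positivity)
            linarith
        _ = _ := by ring
    have e4 : √((1 + δ') * (1 + η)) ≤ (1 + η) := by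
      apply Real.sqrt_le_iff.2
      refine ⟨by linarith, ?_⟩
      rw [hδ', hδ]
      nlinarith
    have e5 : (1 - 4 * η) * √(2 * uJ * L) ≤ θ k * v k := by
      rw [hθv]
      have e6 : (1 - 4 * η) * √(2 * uJ * L) = √((1 - 4 * η) ^ 2 * (2 * uJ * L)) := by
        rw [Real.sqrt_mul (sq_nonneg (1 - 4 * η)), Real.sqrt_sq (by linarith)]
      rw [e6]
      apply Real.sqrt_le_sqrt
      have e7 : uJ ≤ v k := by
        have : v k = (1 + δ') * (1 + δ') * uJ := rfl
        rw [this]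
        nlinarith [mul_pos hδ'0 huJ0, mul_pos (mul_pos hδ'0 hδ'0) huJ0]
      calc (1 - 4 * η) ^ 2 * (2 * uJ * L) ≤ (1 - 4 * η) * (2 * uJ * L) := by
            apply mul_le_mul_of_nonneg_right _ (by positivity)
            nlinarith
        _ = 2 * (γ * L) * uJ := by rw [hγ]; ring
        _ ≤ 2 * (γ * L) * v k := mul_le_mul_of_nonneg_left e7 (by positivity)
    have hS0 : 0 ≤ √(2 * uJ * L) := Real.sqrt_nonneg _
    have hS1 : 0 ≤ √(2 * ((h i : ℝ) / Real.log (T i)) * Real.log i) := Real.sqrt_nonneg _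
    have e8 : √(2 * ((h i : ℝ) / Real.log (T i)) * Real.log i) ≤ (1 + η) * √(2 * uJ * L) :=
      e3.trans (mul_le_mul_of_nonneg_right e4 hS0)
    rcases le_or_gt (1 - 10 * η) 0 with hneg | hpos
    · have : (1 - 10 * η) * √(2 * ((h i : ℝ) / Real.log (T i)) * Real.log i) ≤ 0 := mul_nonpos_of_nonpos_of_nonneg hneg hS1
      have h9 : 0 ≤ (1 - η) * θ k * v k := by
        have : 0 ≤ θ k := Real.sqrt_nonneg _
        have h10 : 0 ≤ θ k * v k := mul_nonneg this g20.le
        have : 0 ≤ (1 - η) * (θ k * v k) := mul_nonneg (by linarith) h10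
        linarith
      linarith
    · calc (1 - 10 * η) * √(2 * ((h i : ℝ) / Real.log (T i)) * Real.log i) ≤ (1 - 10 * η) * ((1 + η) * √(2 * uJ * L)) :=
            mul_le_mul_of_nonneg_left e8 hpos.le
        _ = ((1 - 10 * η) * (1 + η)) * √(2 * uJ * L) := by ring
        _ ≤ ((1 - η) * (1 - 4 * η)) * √(2 * uJ * L) := by
            apply mul_le_mul_of_nonneg_right _ hS0
            nlinarith
        _ = (1 - η) * ((1 - 4 * η) * √(2 * uJ * L)) := by ring
        _ ≤ (1 - η) * (θ k * v k) := mul_le_mul_of_nonneg_left e5 (by linarith)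
        _ = _ := by ring
  rw [frequently_atTop]
  intro n
  obtain ⟨k, hk1, hk2⟩ := (hfin.and (hJt.eventually_ge_atTop n)).exists
  obtain ⟨j, hj1, hj2⟩ := hk1
  exact ⟨j, hk2.trans hj1, hj2⟩

end Pool.Agent.R528.RM
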