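import Mathlib
import Pool.Agent.R528.RM.Opp2
import Pool.Agent.R528.RM.Sp3

set_option autoImplicit false
set_option linter.unusedSectionVars false
set_option linter.unusedVariables false

/-! # Fluctuations of the counts in windows: the law -/

open MeasureTheory Filter Set
open scoped ENNReal Topology

namespace Pool.Agent.R528.RM

variable {Ω : Type} {m0 : MeasurableSpace Ω} {μ : Measure Ω} [IsProbabilityMeasure μ]
  {ℱ : Filtration ℕ m0} {A : ℕ → Set Ω} {T h : ℕ → ℕ}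

lemma reg_of_asym {u w : ℕ → ℝ} {c : ℝ} (hc : 0 < c) (hu : Tendsto (fun j => u j / w j) atTop (𝓝 c))
    (hw0 : ∀ᶠ j in atTop, 0 < w j)
    (hw : ∀ δ : ℝ, 0 < δ → ∃ κ : ℝ, 0 < κ ∧ κ ≤ 1 ∧ ∀ᶠ J : ℕ in atTop, ∀ j : ℕ, J ≤ j → (j : ℝ) ≤ (1 + κ) * J →
      (1 - δ) * w J ≤ w j ∧ w j ≤ (1 + δ) * w J) :
    ∀ δ : ℝ, 0 < δ → ∃ κ : ℝ, 0 < κ ∧ κ ≤ 1 ∧ ∀ᶠ J : ℕ in atTop, ∀ j : ℕ, J ≤ j → (j : ℝ) ≤ (1 + κ) * J →
    |u j - u J| ≤ δ * u J := by
  intro δ hδ
  set δ₁ : ℝ := min δ 1 / 8 with hδ₁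
  have hδ₁0 : 0 < δ₁ := by positivity
  have hδ₁a : 8 * δ₁ ≤ δ := by rw [hδ₁]; linarith [min_le_left δ 1]
  have hδ₁b : δ₁ ≤ 1 / 8 := by rw [hδ₁]; linarith [min_le_right δ 1]
  obtain ⟨κ, hκ0, hκ1, hκ⟩ := hw δ₁ hδ₁0
  refine ⟨κ, hκ0, hκ1, ?_⟩
  have h1 := hu.eventually (eventually_lt_nhds (show c < (1 + δ₁) * c by nlinarith))
  have h2 := hu.eventually (eventually_gt_nhds (show (1 - δ₁) * c < c by nlinarith))
  obtain ⟨j₁, hj₁⟩ := eventually_atTop.1 ((h1.and h2).and hw0)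
  filter_upwards [hκ, eventually_ge_atTop j₁] with J g1 g2 j hj1 hj2
  obtain ⟨g3, g4⟩ := g1 j hj1 hj2
  obtain ⟨⟨a1, a2⟩, a3⟩ := hj₁ J g2
  obtain ⟨⟨b1, b2⟩, b3⟩ := hj₁ j (g2.trans hj1)
  rw [div_lt_iff₀ a3] at a1
  rw [lt_div_iff₀ a3] at a2
  rw [div_lt_iff₀ b3] at b1
  rw [lt_div_iff₀ b3] at b2
  have hcw : 0 < c * w J := mul_pos hc a3
  have e1 : u j ≤ (1 + δ₁) * (1 + δ₁) * (c * w J) := by
    have := mul_le_mul_of_nonneg_left g4 (show 0 ≤ (1 + δ₁) * c by positivity)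
    calc u j ≤ (1 + δ₁) * c * w j := b1.le
      _ ≤ (1 + δ₁) * c * ((1 + δ₁) * w J) := this
      _ = _ := by ring
  have e2 : (1 - δ₁) * (1 - δ₁) * (c * w J) ≤ u j := by
    have := mul_le_mul_of_nonneg_left g3 (show 0 ≤ (1 - δ₁) * c from mul_nonneg (by linarith) hc.le)
    calc (1 - δ₁) * (1 - δ₁) * (c * w J) = (1 - δ₁) * c * ((1 - δ₁) * w J) := by ring
      _ ≤ (1 - δ₁) * c * w j := this
      _ ≤ u j := b2.le
  have e3 : u J ≤ (1 + δ₁) * (c * w J) := by linarith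
  have e4 : (1 - δ₁) * (c * w J) ≤ u J := by linarith
  have huJ : 0 < u J := lt_of_lt_of_le (mul_pos (by linarith) hcw) e4
  have e5 : 8 * δ₁ * u J ≤ δ * u J := mul_le_mul_of_nonneg_right hδ₁a huJ.le
  rw [abs_le]
  constructor
  · have f1 : (1 - 8 * δ₁) * u J ≤ (1 - δ₁) * (1 - δ₁) * (c * w J) := by
      have f2 : (1 - 8 * δ₁) * u J ≤ (1 - 8 * δ₁) * ((1 + δ₁) * (c * w J)) := mul_le_mul_of_nonneg_left e3 (by linarith)
      have f3 : (1 - 8 * δ₁) * (1 + δ₁) * (c * w J) ≤ (1 - δ₁) * (1 - δ₁) * (c * w J) :=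
        mul_le_mul_of_nonneg_right (by nlinarith only [hδ₁0]) hcw.le
      linarith
    linarith
  · have f1 : (1 + δ₁) * (1 + δ₁) * (c * w J) ≤ (1 + 8 * δ₁) * u J := by
      have f2 : (1 + 8 * δ₁) * ((1 - δ₁) * (c * w J)) ≤ (1 + 8 * δ₁) * u J := mul_le_mul_of_nonneg_left e4 (by linarith)
      have f3 : (1 + δ₁) * (1 + δ₁) * (c * w J) ≤ (1 + 8 * δ₁) * (1 - δ₁) * (c * w J) :=
        mul_le_mul_of_nonneg_right (by nlinarith only [hδ₁0, hδ₁b]) hcw.le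
      linarith
    linarith

/-- `j / log j` is regular -/
lemma reg_w : ∀ δ : ℝ, 0 < δ → ∃ κ : ℝ, 0 < κ ∧ κ ≤ 1 ∧ ∀ᶠ J : ℕ in atTop, ∀ j : ℕ, J ≤ j → (j : ℝ) ≤ (1 + κ) * J →
      (1 - δ) * ((J : ℝ) / Real.log J) ≤ (j : ℝ) / Real.log j ∧ (j : ℝ) / Real.log j ≤ (1 + δ) * ((J : ℝ) / Real.log J) := by
  intro δ hδ
  refine ⟨min δ 1, lt_min hδ one_pos, min_le_right _ _, ?_⟩
  filter_upwards [ev_log 1, eventually_gt_atTop 1] with J g1 g2 j hj1 hj2
  have hJ : (1 : ℝ) < J := by exact_mod_cast g2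
  have hj : (J : ℝ) ≤ j := by exact_mod_cast hj1
  have hκ1 : min δ 1 ≤ δ := min_le_left _ _
  have hκ0 : 0 < min δ 1 := lt_min hδ one_pos
  set κ := min δ 1 with hκ
  have hLJ : 0 < Real.log J := Real.log_pos hJ
  have hLj : Real.log J ≤ Real.log j := Real.log_le_log (by linarith) hj
  have hLj2 : Real.log j ≤ Real.log J + κ := by
    have e1 : Real.log j ≤ Real.log ((1 + κ) * J) := Real.log_le_log (by linarith) hj2
    rw [Real.log_mul (by positivity) (by linarith)] at e1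
    have e2 := Real.log_le_sub_one_of_pos (show 0 < 1 + κ by linarith)
    linarith
  constructor
  · rw [le_div_iff₀ (by linarith), mul_assoc, div_mul_eq_mul_div]
    rcases le_or_gt (1 - δ) 0 with h1 | h1
    · have : (1 - δ) * ((J : ℝ) * Real.log j / Real.log J) ≤ 0 :=
        mul_nonpos_of_nonpos_of_nonneg h1 (by apply div_nonneg _ hLJ.le; exact mul_nonneg (by linarith) (by linarith))
      linarith
    · have h2 : (J : ℝ) * Real.log j / Real.log J ≤ J * (1 + κ) := by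
        rw [div_le_iff₀ hLJ, mul_assoc]
        apply mul_le_mul_of_nonneg_left _ (by linarith)
        nlinarith
      have h3 := mul_le_mul_of_nonneg_left h2 h1.le
      have h4 : (1 - δ) * ((J : ℝ) * (1 + κ)) ≤ J := by
        have : (1 - δ) * (1 + κ) ≤ 1 := by nlinarith
        nlinarith
      linarith
  · rw [div_le_iff₀ (by linarith)]
    have h1 : (1 + δ) * ((J : ℝ) / Real.log J) * Real.log J = (1 + δ) * J := by field_simp
    have h2 : (1 + δ) * ((J : ℝ) / Real.log J) * Real.log J ≤ (1 + δ) * ((J : ℝ) / Real.log J) * Real.log j :=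
      mul_le_mul_of_nonneg_left hLj (by positivity)
    nlinarith

lemma VS_ratio {W : ℕ} (hW : 0 < W) (hs : Modr T h) {ω : Ω}
    (hω : ∀ ε : ℝ, 0 < ε → ∀ᶠ n : ℕ in atTop, |dens μ ℱ A n ω - rhoW W (n + 1)| ≤ ε * rhoW W (n + 1)) :
    Tendsto (fun j => VS μ ℱ A (WRj T h j) ω / ((h j : ℝ) / Real.log (T j))) atTop (𝓝 1) := by
  have h1 : ∀ ε : ℝ, 0 < ε → ∀ᶠ j in atTop, |VS μ ℱ A (WRj T h j) ω - Rw W T h j| ≤ ε * Rw W T h j := by
    intro ε hε
    obtain ⟨n₀, hn₀⟩ := eventually_atTop.1 (hω ε hε)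
    filter_upwards [(tendsto_T hs.big).eventually_ge_atTop n₀] with j hj
    have e1 : Rw W T h j = ∑ n ∈ WRj T h j, rhoW W n := (sum_WRj T h j _).symm
    rw [e1]
    unfold VS
    rw [← Finset.sum_sub_distrib, Finset.mul_sum]
    refine (Finset.abs_sum_le_sum_abs _ _).trans (Finset.sum_le_sum fun n hn => ?_)
    have h2 := Finset.mem_Ico.1 hn
    obtain ⟨m, rfl⟩ : ∃ m, n = m + 1 := ⟨n - 1, by omega⟩
    have h3 := hn₀ m (by omega)
    simpa using h3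
  have h2 := Rw_one hW hs
  have h3 : Tendsto (fun j => (VS μ ℱ A (WRj T h j) ω - Rw W T h j) / ((h j : ℝ) / Real.log (T j))) atTop (𝓝 0) := by
    rw [Metric.tendsto_atTop']
    intro ε hε
    have h4 := h2.eventually (eventually_lt_nhds (show (1 : ℝ) < 2 by norm_num))
    obtain ⟨n, hn⟩ := eventually_atTop.1 ((h1 (ε / 4) (by positivity)).and (h4.and ((u_tt hs).eventually_gt_atTop 0)))
    refine ⟨n, fun j hj => ?_⟩
    obtain ⟨g1, g2, g3⟩ := hn j hj.le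
    rw [Real.dist_eq, sub_zero, abs_div, abs_of_pos g3, div_lt_iff₀ g3]
    rw [div_lt_iff₀ g3] at g2
    nlinarith
  have h4 := h3.add h2
  rw [zero_add] at h4
  refine h4.congr fun j => ?_
  rw [← add_div]
  congr 1
  ring

/-- the law for windows with many members -/
theorem win_final (hA : ∀ n, MeasurableSet[ℱ n] (A n)) {W : ℕ} (hW : 0 < W)
    (hd : ∀ᵐ ω ∂μ, ∀ ε : ℝ, 0 < ε → ∀ᶠ n : ℕ in atTop, |dens μ ℱ A n ω - rhoW W (n + 1)| ≤ ε * rhoW W (n + 1))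
    (hs : Modr T h) :
    ∀ᵐ ω ∂μ, (∀ ε : ℝ, 0 < ε →
      (∀ᶠ j : ℕ in atTop, |CS μ ℱ A (WRj T h j) ω| < (1 + ε) * √(2 * ((h j : ℝ) / Real.log (T j)) * Real.log j)) ∧
      (∃ᶠ j : ℕ in atTop, (1 - ε) * √(2 * ((h j : ℝ) / Real.log (T j)) * Real.log j) < CS μ ℱ A (WRj T h j) ω) ∧
      (∃ᶠ j : ℕ in atTop, CS μ ℱ A (WRj T h j) ω < -((1 - ε) * √(2 * ((h j : ℝ) / Real.log (T j)) * Real.log j)))) ∧
      Tendsto (fun j => Ncl A (WRj T h j) ω / ((h j : ℝ) / Real.log (T j))) atTop (𝓝 1) := by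
  have hη : ∀ m : ℕ, (0 : ℝ) < 1 / (m + 10 : ℕ) ∧ (1 : ℝ) / (m + 10 : ℕ) ≤ 1 / 10 := by
    intro m
    constructor
    · positivity
    · apply one_div_le_one_div_of_le (by norm_num)
      push_cast
      linarith [Nat.cast_nonneg (α := ℝ) m]
  have u1 := fun m : ℕ => win_upper (μ := μ) hA hW hd hs (hη m).1 (hη m).2 (σ := 1) (Or.inl rfl)
  have u2 := fun m : ℕ => win_upper (μ := μ) hA hW hd hs (hη m).1 (hη m).2 (σ := -1) (Or.inr rfl)
  have l1 := fun m : ℕ => win_lower (μ := μ) hA hW hd hs (hη m).1 (hη m).2 (σ := 1) (Or.inl rfl)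
  have l2 := fun m : ℕ => win_lower (μ := μ) hA hW hd hs (hη m).1 (hη m).2 (σ := -1) (Or.inr rfl)
  rw [← ae_all_iff] at u1 u2 l1 l2
  have hpos : ∀ᶠ j : ℕ in atTop, 0 < √(2 * ((h j : ℝ) / Real.log (T j)) * Real.log j) := by
    filter_upwards [(u_tt hs).eventually_gt_atTop 0, ev_log 1] with j g1 g2
    apply Real.sqrt_pos.2
    have : 0 < Real.log (j : ℝ) := by linarith
    positivity
  filter_upwards [u1, u2, l1, l2, hd] with ω u1 u2 l1 l2 hdω
  have hmain : ∀ ε : ℝ, 0 < ε →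
      (∀ᶠ j : ℕ in atTop, |CS μ ℱ A (WRj T h j) ω| < (1 + ε) * √(2 * ((h j : ℝ) / Real.log (T j)) * Real.log j)) ∧
      (∃ᶠ j : ℕ in atTop, (1 - ε) * √(2 * ((h j : ℝ) / Real.log (T j)) * Real.log j) < CS μ ℱ A (WRj T h j) ω) ∧
      (∃ᶠ j : ℕ in atTop, CS μ ℱ A (WRj T h j) ω < -((1 - ε) * √(2 * ((h j : ℝ) / Real.log (T j)) * Real.log j))) := by
    intro ε hε
    obtain ⟨m, hm⟩ := exists_nat_gt (10 / ε)
    have hm' : 10 * (1 / ((m + 10 : ℕ) : ℝ)) < ε := by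
      rw [mul_one_div, div_lt_iff₀ (by positivity)]
      rw [div_lt_iff₀ hε] at hm
      push_cast
      nlinarith
    have hη0 := (hη m).1
    refine ⟨?_, ?_, ?_⟩
    · filter_upwards [u1 m, u2 m, hpos] with j g1 g2 g3
      rw [abs_lt]
      have : (1 + 1 / ((m + 10 : ℕ) : ℝ)) * √(2 * ((h j : ℝ) / Real.log (T j)) * Real.log j) ≤
          (1 + ε) * √(2 * ((h j : ℝ) / Real.log (T j)) * Real.log j) := mul_le_mul_of_nonneg_right (by linarith) g3.le
      constructor <;> linarith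
    · refine ((l1 m).and_eventually hpos).mono fun j ⟨g1, g3⟩ => ?_
      have : (1 - ε) * √(2 * ((h j : ℝ) / Real.log (T j)) * Real.log j) <
          (1 - 10 * (1 / ((m + 10 : ℕ) : ℝ))) * √(2 * ((h j : ℝ) / Real.log (T j)) * Real.log j) :=
        mul_lt_mul_of_pos_right (by linarith) g3
      linarith
    · refine ((l2 m).and_eventually hpos).mono fun j ⟨g1, g3⟩ => ?_
      have : (1 - ε) * √(2 * ((h j : ℝ) / Real.log (T j)) * Real.log j) <
          (1 - 10 * (1 / ((m + 10 : ℕ) : ℝ))) * √(2 * ((h j : ℝ) / Real.log (T j)) * Real.log j) :=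
        mul_lt_mul_of_pos_right (by linarith) g3
      linarith
  refine ⟨hmain, ?_⟩
  have h1 := VS_ratio (μ := μ) (ℱ := ℱ) (A := A) hW hs hdω
  have h2 : Tendsto (fun j => CS μ ℱ A (WRj T h j) ω / ((h j : ℝ) / Real.log (T j))) atTop (𝓝 0) := by
    refine squeeze_zero_norm' (a := fun j => 2 * thj T h j) ?_ ?_
    · filter_upwards [(hmain 1 one_pos).1, (u_tt hs).eventually_gt_atTop 0, ev_log 1] with j g1 g2 g3
      rw [Real.norm_eq_abs, abs_div, abs_of_pos g2, div_le_iff₀ g2]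
      refine g1.le.trans (le_of_eq ?_)
      unfold thj
      set u := (h j : ℝ) / Real.log (T j) with hu
      have hL : 0 ≤ Real.log (j : ℝ) := by linarith
      have e1 : √(2 * Real.log j / u) * u = √(2 * u * Real.log j) := by
        have e0 : √(2 * Real.log j / u) * u = √(2 * Real.log j / u) * √(u ^ 2) := by rw [Real.sqrt_sq g2.le]
        rw [e0, ← Real.sqrt_mul (by positivity)]
        congr 1
        field_simp
      calc (1 + 1) * √(2 * u * Real.log j) = 2 * (√(2 * Real.log j / u) * u) := by rw [e1]; ring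
        _ = _ := by ring
    · have := (thj_lim hs).const_mul 2
      rwa [mul_zero] at this
  have h3 := h2.add h1
  rw [zero_add] at h3
  refine h3.congr fun j => ?_
  rw [CS_eq, ← add_div]
  congr 1
  ring

end Pool.Agent.R528.RM
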