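import Mathlib
import Pool.Agent.R528.RM.Cand
import Pool.Agent.R528.RM.SGAsym

set_option autoImplicit false
set_option linter.unusedSectionVars false

/-! # Large gaps in the sieved models -/

open MeasureTheory Filter Set
open scoped ENNReal Topology

namespace Pool.Agent.R528.RM

variable {Ω : Type} {m0 : MeasurableSpace Ω} {μ : Measure Ω} [IsProbabilityMeasure μ]
  {ℱ : Filtration ℕ m0} {A : ℕ → Set Ω}

/-- a run of absent integers lies in a gap -/
lemma gap_of_run {S : Set ℕ} (hS : S.Infinite) {s L : ℕ} (h0 : pn S 0 ≤ s) (hrun : ∀ n, s < n → n ≤ s + L → n ∉ S) :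
    ∃ n, pn S n ≤ s ∧ s + L < pn S (n + 1) := by
  classical
  have hex : ∃ m, s < pn S m := by
    obtain ⟨m, hm⟩ := ((nth_mono hS).tendsto_atTop.eventually_gt_atTop s).exists
    exact ⟨m, hm⟩
  have h1 := Nat.find_spec hex
  have h2 : Nat.find hex ≠ 0 := by
    intro h
    rw [h] at h1
    omega
  obtain ⟨m, hm⟩ := Nat.exists_eq_succ_of_ne_zero h2
  refine ⟨m, ?_, ?_⟩
  · have := Nat.find_min hex (m := m) (by omega)
    omega
  · rw [hm] at h1
    by_contra h3
    exact hrun _ h1 (by simpa using not_lt.1 h3) (nth_mem hS (m + 1))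

/-- `n` has no prime factor up to `z n` -/
def zfree (z : ℕ → ℕ) (n : ℕ) : Prop := ∀ p, p.Prime → p ∣ n → z n < p

/-- violation of the upper bound of the densities -/
def VS (μ : Measure Ω) (ℱ : Filtration ℕ m0) (A : ℕ → Set Ω) (z : ℕ → ℕ) (δ : ℝ) (n : ℕ) : Set Ω :=
  {ω | zfree z (n + 1) ∧ (1 + δ) * MM (z (n + 1)) / Real.log n < dens μ ℱ A n ω}

lemma VS_meas (z : ℕ → ℕ) (δ : ℝ) (n : ℕ) : MeasurableSet[ℱ n] (VS μ ℱ A z δ n) := by
  by_cases h : zfree z (n + 1)
  · have h1 : VS μ ℱ A z δ n = (dens μ ℱ A n) ⁻¹' (Ioi ((1 + δ) * MM (z (n + 1)) / Real.log n)) := by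
      ext ω
      simp [VS, h]
    rw [h1]
    exact (dens_meas n).measurable measurableSet_Ioi
  · have h1 : VS μ ℱ A z δ n = ∅ := by
      ext ω
      simp [VS, h]
    rw [h1]
    exact @MeasurableSet.empty _ (ℱ n)

lemma MM_one_le (N : ℕ) : 1 ≤ MM N := by
  unfold MM
  refine Finset.prod_induction _ (fun x : ℝ => 1 ≤ x) (fun a b ha hb => one_le_mul_of_one_le_of_one_le ha hb) le_rfl ?_
  intro p hp
  exact (MM_fac (Finset.mem_filter.1 hp).2).2

/-- infinitely many members -/
theorem sieved_infinite (hA : ∀ n, MeasurableSet[ℱ n] (A n)) {z : ℕ → ℕ}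
    (hz : Tendsto (fun n : ℕ => Real.log (z n) / Real.log (Real.log n)) atTop (𝓝 1))
    (hd : ∀ᵐ ω ∂μ, Tendsto (fun n : ℕ => dens μ ℱ A n ω * Real.log n / MM (z (n + 1)))
      (atTop ⊓ 𝓟 {n | zfree z (n + 1)}) (𝓝 1)) :
    ∀ᵐ ω ∂μ, {a | ω ∈ A a}.Infinite := by
  have hlev := tendsto_sum_indicator_atTop_iff' (μ := μ) (ℱ := ℱ) hA
  have h01 : ∀ᵐ ω ∂μ, ∀ n, 0 ≤ dens μ ℱ A n ω ∧ dens μ ℱ A n ω ≤ 1 := ae_all_iff.2 fun n => dens01 hA n
  -- large primes are not sieved out
  have hzsmall : ∀ᶠ n : ℕ in atTop, z n < n := by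
    have h1 := hz.eventually (gt_mem_nhds (show (1 : ℝ) < 2 by norm_num))
    have h2 : ∀ᶠ n : ℕ in atTop, 2 * Real.log (Real.log (n : ℝ)) < Real.log n := by
      have h3 : Tendsto (fun n : ℕ => Real.log (Real.log (n : ℝ)) / Real.log n) atTop (𝓝 0) :=
        (Real.isLittleO_log_id_atTop.tendsto_div_nhds_zero).comp tendsto_log
      filter_upwards [h3.eventually (gt_mem_nhds (show (0 : ℝ) < 1 / 2 by norm_num)), tendsto_log.eventually_gt_atTop 0] with n h4 h5
      rw [div_lt_iff₀ h5] at h4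
      linarith
    filter_upwards [h1, h2, (Real.tendsto_log_atTop.comp tendsto_log).eventually_gt_atTop 0, eventually_gt_atTop 0] with n h3 h4 h5 h6
    simp only [Function.comp_apply] at h5
    rw [div_lt_iff₀ h5] at h3
    rcases Nat.eq_zero_or_pos (z n) with h7 | h7
    · omega
    have h8 := (Real.log_lt_log_iff (show (0 : ℝ) < z n by exact_mod_cast h7) (by exact_mod_cast h6)).1 (h3.trans h4)
    exact_mod_cast h8
  filter_upwards [hlev, h01, hd] with ω h1 h2 h3
  have hdens : Tendsto (fun n => ∑ k ∈ Finset.range n, dens μ ℱ A k ω) atTop atTop := by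
    rw [← not_summable_iff_tendsto_nat_atTop_of_nonneg (fun n => (h2 n).1)]
    intro hsum
    apply not_summable_one_div_on_primes
    have hsum' : Summable (fun n : ℕ => 2 * dens μ ℱ A (n - 1) ω) := by
      apply Summable.mul_left
      rw [← summable_nat_add_iff 1]
      simpa using hsum
    refine Summable.of_norm_bounded_eventually_nat hsum' ?_
    have h4 := h3.eventually (lt_mem_nhds (show (1 / 2 : ℝ) < 1 by norm_num))
    rw [eventually_inf_principal] at h4
    obtain ⟨n₁, hn₁⟩ := eventually_atTop.1 h4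
    filter_upwards [hzsmall, eventually_ge_atTop (n₁ + 3)] with n hn hn2
    by_cases hp : n.Prime
    swap
    · rw [indicator_of_notMem (show n ∉ {p | Nat.Prime p} from hp), norm_zero]
      have := (h2 (n - 1)).1
      positivity
    rw [indicator_of_mem (show n ∈ {p | Nat.Prime p} from hp)]
    have hfree : zfree z (n - 1 + 1) := by
      rw [show n - 1 + 1 = n by omega]
      intro p hp2 hpn
      have := (Nat.prime_dvd_prime_iff_eq hp2 hp).1 hpn
      rw [this]
      exact hn
    have h5 := hn₁ (n - 1) (by omega) hfree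
    rw [show n - 1 + 1 = n by omega] at h5
    have hM := MM_pos (z n)
    have hM1 := MM_one_le (z n)
    have hn3 : (3 : ℝ) ≤ n := by
      have : 3 ≤ n := by omega
      exact_mod_cast this
    have hcast : ((n - 1 : ℕ) : ℝ) = n - 1 := by
      rw [Nat.cast_sub (by omega)]
      simp
    have hlog : 0 < Real.log ((n - 1 : ℕ) : ℝ) := Real.log_pos (by rw [hcast]; linarith)
    have hlog2 : Real.log ((n - 1 : ℕ) : ℝ) ≤ n := by
      have := Real.log_le_sub_one_of_pos (show (0 : ℝ) < ((n - 1 : ℕ) : ℝ) by rw [hcast]; linarith)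
      rw [hcast] at this ⊢
      linarith
    rw [lt_div_iff₀ hM] at h5
    have h6 : 1 / Real.log ((n - 1 : ℕ) : ℝ) ≤ 2 * dens μ ℱ A (n - 1) ω := by
      rw [div_le_iff₀ hlog]
      linarith
    rw [Real.norm_eq_abs, abs_of_pos (by positivity)]
    exact (one_div_le_one_div_of_le hlog hlog2).trans h6
  have h4 := h1.2 hdens
  rw [Set.infinite_iff_exists_gt]
  intro a
  by_contra hcon
  push Not at hcon
  have h5 : ∀ n, ∑ k ∈ Finset.range n, (A (k + 1)).indicator (1 : Ω → ℝ) ω ≤ a + 1 := by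
    intro n
    have h6 : ∀ k ∈ Finset.range n, (A (k + 1)).indicator (1 : Ω → ℝ) ω ≤ if k < a + 1 then 1 else 0 := by
      intro k _
      by_cases h7 : ω ∈ A (k + 1)
      · have := hcon (k + 1) h7
        rw [indicator_of_mem h7, if_pos (by omega)]
        rfl
      · rw [indicator_of_notMem h7]
        split_ifs <;> norm_num
    refine (Finset.sum_le_sum h6).trans ?_
    rw [Finset.sum_boole]
    have h8 : (Finset.filter (fun k => k < a + 1) (Finset.range n)) ⊆ Finset.range (a + 1) := by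
      intro k hk
      exact Finset.mem_range.2 (Finset.mem_filter.1 hk).2
    have h9 := Finset.card_le_card h8
    rw [Finset.card_range] at h9
    exact_mod_cast h9
  obtain ⟨n, hn⟩ := (h4.eventually_gt_atTop ((a : ℝ) + 1)).exists
  have := h5 n
  linarith

/-- every scale contains a long run -/
theorem sieved_runs (hA : ∀ n, MeasurableSet[ℱ n] (A n)) {z : ℕ → ℕ} (hmono : Monotone z)
    (hz : Tendsto (fun n : ℕ => Real.log (z n) / Real.log (Real.log n)) atTop (𝓝 1))
    (hcop : ∀ n, ¬ zfree z n → A n = ∅)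
    (hd : ∀ᵐ ω ∂μ, Tendsto (fun n : ℕ => dens μ ℱ A n ω * Real.log n / MM (z (n + 1)))
      (atTop ⊓ 𝓟 {n | zfree z (n + 1)}) (𝓝 1)) {c : ℝ} (hc0 : 0 < c) (hc : c * eg / 2 < 1) :
    ∀ᵐ ω ∂μ, ∀ᶠ i : ℕ in atTop, ∃ s : ℕ, 2 ^ i ≤ s ∧ s ≤ 2 ^ (i + 1) ∧
      ∀ n, s < n → n ≤ s + LL2 c i → ω ∉ A n := by
  obtain ⟨δ, hδ, hkey⟩ := sg_key hz hc0 hc
  have hlog2 := log2pos
  -- the densities at scale `i`
  have hzt : Tendsto z atTop atTop := by
    have hlz : Tendsto (fun n : ℕ => Real.log (z n : ℝ)) atTop atTop := by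
      have h1 := hz.pos_mul_atTop one_pos (Real.tendsto_log_atTop.comp tendsto_log)
      refine h1.congr' ?_
      filter_upwards [(Real.tendsto_log_atTop.comp tendsto_log).eventually_gt_atTop 0] with n hn
      simp only [Function.comp_apply] at hn ⊢
      field_simp
    rw [tendsto_atTop]
    intro b
    filter_upwards [hlz.eventually_gt_atTop (Real.log b), hlz.eventually_gt_atTop 0] with i hi hi2
    by_contra h
    push Not at h
    rcases Nat.eq_zero_or_pos (z i) with h0 | h0
    · rw [h0] at hi2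
      simp at hi2
    · have := Real.log_le_log (show (0 : ℝ) < z i by exact_mod_cast h0) (show (z i : ℝ) ≤ b by exact_mod_cast h.le)
      linarith
  have hMz : Tendsto (fun n : ℕ => MM (z n) / Real.log (Real.log n)) atTop (𝓝 eg) := by
    have h1 := (MM_lim.comp hzt).mul hz
    rw [mul_one] at h1
    refine h1.congr' ?_
    filter_upwards [hzt.eventually_gt_atTop 1] with n hn
    have : 0 < Real.log (z n : ℝ) := Real.log_pos (by exact_mod_cast hn)
    simp only [Function.comp_apply]
    field_simp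
  have hu : ∀ᶠ i : ℕ in atTop, ∀ n, 2 ^ i ≤ n → n < 2 ^ (i + 1) → (1 + δ) * MM (z (n + 1)) / Real.log n ≤ uu δ i := by
    have h1 := hMz.eventually (gt_mem_nhds (show eg < (1 + δ) * eg by have := eg_pos; nlinarith))
    obtain ⟨n₁, hn₁⟩ := eventually_atTop.1 h1
    have hp : Tendsto (fun i : ℕ => 2 ^ i : ℕ → ℕ) atTop atTop := tendsto_pow_atTop_atTop_of_one_lt (by norm_num)
    filter_upwards [hp.eventually_ge_atTop n₁, eventually_ge_atTop 3] with i hi hi3 n hn1 hn2
    have h2 := hn₁ (n + 1) (by omega)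
    have hi3' : (3 : ℝ) ≤ i := by exact_mod_cast hi3
    have hnpos : (0 : ℝ) < n := by
      have : 0 < 2 ^ i := by positivity
      exact_mod_cast lt_of_lt_of_le this hn1
    have h3 : (i : ℝ) * Real.log 2 ≤ Real.log n := by
      have : (2 : ℝ) ^ i ≤ n := by exact_mod_cast hn1
      have h4 := Real.log_le_log (by positivity) this
      rwa [Real.log_pow] at h4
    have h4 : Real.log ((n + 1 : ℕ) : ℝ) ≤ (i : ℝ) + 1 := by
      have h5 : ((n + 1 : ℕ) : ℝ) ≤ 2 ^ (i + 1) := by exact_mod_cast hn2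
      have h6 := Real.log_le_log (by positivity) h5
      rw [Real.log_pow] at h6
      push_cast at h6 ⊢
      have h7 : Real.log 2 ≤ 1 := by
        have := Real.log_le_sub_one_of_pos (show (0 : ℝ) < 2 by norm_num)
        linarith
      nlinarith
    have h5 : 1 < Real.log ((n + 1 : ℕ) : ℝ) := by
      have h6 : Real.log ((n : ℕ) : ℝ) ≤ Real.log ((n + 1 : ℕ) : ℝ) := Real.log_le_log hnpos (by push_cast; linarith)
      have h7 : 1 / 2 < Real.log 2 := by
        have := Real.log_two_gt_d9
        linarith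
      nlinarith
    have h6 : 0 < Real.log (Real.log ((n + 1 : ℕ) : ℝ)) := Real.log_pos h5
    have h7 : Real.log (Real.log ((n + 1 : ℕ) : ℝ)) ≤ Real.log ((i : ℝ) + 1) := Real.log_le_log (by linarith) h4
    rw [div_lt_iff₀ h6] at h2
    have h8 : 0 < (i : ℝ) * Real.log 2 := by positivity
    unfold uu
    have heg := eg_pos
    have h9 : MM (z (n + 1)) ≤ (1 + δ) * eg * Real.log ((i : ℝ) + 1) := h2.le.trans (mul_le_mul_of_nonneg_left h7 (by positivity))
    calc (1 + δ) * MM (z (n + 1)) / Real.log n ≤ (1 + δ) * ((1 + δ) * eg * Real.log ((i : ℝ) + 1)) / (i * Real.log 2) := by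
          apply div_le_div₀ _ (mul_le_mul_of_nonneg_left h9 (by positivity)) h8 h3
          have : 0 ≤ Real.log ((i : ℝ) + 1) := h6.le.trans h7
          positivity
      _ = _ := by ring
  -- the blocks
  set Pi : ℕ → ℕ := fun i => primorial (TT2 z i) with hPi
  have hPipos : ∀ i, 0 < Pi i := fun i => primorial_pos _
  have hPile : ∀ i, Pi i ≤ 4 ^ (TT2 z i) := fun i => primorial_le_four_pow _
  set s : ℕ → ℕ → ℕ := fun i k => Pi i * (2 ^ i / Pi i + 1 + k * LL2 c i) with hs
  have hs0 : ∀ i k, 2 ^ i ≤ s i k := by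
    intro i k
    have h1 := Nat.lt_mul_div_succ (2 ^ i) (hPipos i)
    simp only [hs]
    refine h1.le.trans (Nat.mul_le_mul_left _ ?_)
    omega
  set K : ℕ → ℕ := fun i => 2 ^ i / (2 * (Pi i * LL2 c i)) with hK
  have hLpos : ∀ i, 0 < LL2 c i := fun i => Nat.succ_pos _
  have hsK : ∀ᶠ i in atTop, ∀ k, k < K i → s i k + LL2 c i ≤ 2 ^ (i + 1) := by
    filter_upwards [hkey] with i hi k hk
    have h1 : 4 * Pi i * LL2 c i ≤ 2 ^ i := by
      refine le_trans ?_ hi.2.1
      exact Nat.mul_le_mul_right _ (Nat.mul_le_mul_left _ (hPile i))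
    have h2 : K i * (2 * (Pi i * LL2 c i)) ≤ 2 ^ i := Nat.div_mul_le_self _ _
    have h3 : Pi i * (2 ^ i / Pi i) ≤ 2 ^ i := Nat.mul_div_le _ _
    have h4 : (k + 1) * (Pi i * LL2 c i) ≤ K i * (Pi i * LL2 c i) := Nat.mul_le_mul_right _ hk
    have h5 : s i k = Pi i * (2 ^ i / Pi i) + Pi i + k * (Pi i * LL2 c i) := by
      simp only [hs]
      ring
    have h6 : LL2 c i ≤ Pi i * LL2 c i := Nat.le_mul_of_pos_left _ (hPipos i)
    have h7 : Pi i ≤ Pi i * LL2 c i := Nat.le_mul_of_pos_right _ (hLpos i)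
    have h8 : 2 ^ (i + 1) = 2 ^ i + 2 ^ i := by ring
    rw [h5, h8]
    nlinarith
  set q : ℕ → ℝ := fun i => (1 - uu δ i) ^ (roughs (TT2 z i) (LL2 c i)).card with hq
  set V := VS μ ℱ A z δ with hV
  have hVm : ∀ n, MeasurableSet[ℱ n] (V n) := fun n => VS_meas z δ n
  -- modified violations: beyond the scale everything is a violation
  have hblock : ∀ᶠ i in atTop, ∀ k, k < K i → ∀ B, MeasurableSet[ℱ (s i k)] B →
      q i * μ.real B ≤ μ.real (B ∩ (NA A (s i k) (LL2 c i) ∪ WV V (s i k) (LL2 c i))) := by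
    filter_upwards [hkey, hu, hsK, eventually_ge_atTop 1] with i hi hui hski hi1 k hk B hB
    have hu0 : 0 ≤ uu δ i := by
      unfold uu
      have : 0 ≤ Real.log ((i : ℝ) + 1) := Real.log_nonneg (by linarith [Nat.cast_nonneg (α := ℝ) i])
      have := eg_pos
      positivity
    classical
    set e : ℕ → ℝ := fun n => if (∀ p, p.Prime → p ∣ n + 1 → TT2 z i < p) then uu δ i else 0 with he
    have h1 := NA_ge (μ := μ) hA hVm e (fun n => by simp only [he]; split_ifs <;> [exact hu0; exact le_rfl])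
      (fun n => by simp only [he]; split_ifs <;> [exact hi.1.le; exact zero_le_one]) (LL2 c i) (s i k) (by
      intro n hn1 hn2
      by_cases hf : zfree z (n + 1)
      swap
      · exact Or.inl (hcop _ hf)
      right
      intro ω hω
      have h2 : ∀ p, p.Prime → p ∣ n + 1 → TT2 z i < p := by
        intro p hp hpn
        have h3 := hf p hp hpn
        have h4 : z (2 ^ i) ≤ z (n + 1) := hmono (by have := hs0 i k; omega)
        have h5 : TT2 z i ≤ z (2 ^ i) := min_le_left _ _
        omega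
      simp only [he, if_pos h2]
      have h3 : dens μ ℱ A n ω ≤ (1 + δ) * MM (z (n + 1)) / Real.log n := by
        by_contra h4
        exact hω ⟨hf, not_le.1 h4⟩
      refine h3.trans (hui n ?_ ?_)
      · exact (hs0 i k).trans hn1
      · have := hski k hk
        omega) B hB
    refine le_trans (le_of_eq ?_) h1
    congr 1
    -- the product over the block
    have h2 : ∏ n ∈ Finset.Ico (s i k) (s i k + LL2 c i), (1 - e n) =
        ∏ n ∈ (Finset.Ico (s i k) (s i k + LL2 c i)).filter (fun n => ∀ p, p.Prime → p ∣ n + 1 → TT2 z i < p), (1 - uu δ i) := by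
      rw [Finset.prod_filter]
      refine Finset.prod_congr rfl fun n _ => ?_
      simp only [he]
      split_ifs <;> ring
    rw [h2, Finset.prod_const]
    show (1 - uu δ i) ^ (roughs (TT2 z i) (LL2 c i)).card = _
    congr 1
    -- counting
    refine Finset.card_nbij' (fun r => s i k + r - 1) (fun n => n + 1 - s i k) ?_ ?_ ?_ ?_
    · intro r hr
      rw [Finset.mem_coe, mem_roughs] at hr
      show s i k + r - 1 ∈ ((_ : Finset ℕ) : Set ℕ)
      rw [Finset.mem_coe, Finset.mem_filter, Finset.mem_Ico]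
      refine ⟨⟨by omega, by omega⟩, fun p hp hpr => ?_⟩
      rw [show s i k + r - 1 + 1 = s i k + r by omega] at hpr
      by_contra hcon
      have h3 : p ∣ Pi i := by
        have : p ∣ primorial (TT2 z i) := hp.dvd_primorial_iff.2 (not_lt.1 hcon)
        exact this
      have h4 : p ∣ s i k := dvd_mul_of_dvd_left h3 _
      exact hcon (hr.2 p hp ((Nat.dvd_add_right h4).1 hpr))
    · intro n hn
      rw [Finset.mem_coe, Finset.mem_filter, Finset.mem_Ico] at hn
      show n + 1 - s i k ∈ ((_ : Finset ℕ) : Set ℕ)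
      rw [Finset.mem_coe, mem_roughs]
      refine ⟨⟨by omega, by omega⟩, fun p hp hpr => ?_⟩
      by_contra hcon
      have h3 : p ∣ Pi i := by
        have : p ∣ primorial (TT2 z i) := hp.dvd_primorial_iff.2 (not_lt.1 hcon)
        exact this
      have h4 : p ∣ s i k := dvd_mul_of_dvd_left h3 _
      have h5 : p ∣ n + 1 := by
        have h6 := dvd_add h4 hpr
        rwa [show s i k + (n + 1 - s i k) = n + 1 by omega] at h6
      exact hcon (hn.2 p hp h5)
    · intro r hr
      rw [Finset.mem_coe, mem_roughs] at hr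
      show s i k + r - 1 + 1 - s i k = r
      omega
    · intro n hn
      rw [Finset.mem_coe, Finset.mem_filter, Finset.mem_Ico] at hn
      show s i k + (n + 1 - s i k) - 1 = n
      omega
  -- the probability that a scale fails
  have hprob : ∀ᶠ i : ℕ in atTop, μ.real (NB A V (s i) (LL2 c i) (K i)) ≤ Real.exp (-(i : ℝ)) := by
    filter_upwards [hkey, hblock] with i hi hbi
    have hq1 : q i ≤ 1 := by
      refine pow_le_one₀ (by linarith [hi.1]) ?_
      have hu0 : 0 ≤ uu δ i := by
        unfold uu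
        have : 0 ≤ Real.log ((i : ℝ) + 1) := Real.log_nonneg (by linarith [Nat.cast_nonneg (α := ℝ) i])
        have := eg_pos
        positivity
      linarith
    have hstep : ∀ k, s i k + LL2 c i ≤ s i (k + 1) := by
      intro k
      simp only [hs]
      have h6 : LL2 c i ≤ Pi i * LL2 c i := Nat.le_mul_of_pos_left _ (hPipos i)
      have h7 : Pi i * (2 ^ i / Pi i + 1 + (k + 1) * LL2 c i) = Pi i * (2 ^ i / Pi i + 1 + k * LL2 c i) + Pi i * LL2 c i := by ring
      rw [h7]
      omega
    have h1 := NB_le' (μ := μ) hA hVm (s i) (LL2 c i) hstep hq1 (K i) hbi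
    refine h1.trans ?_
    have h2 : (1 - q i) ^ (K i) ≤ Real.exp (-(q i * K i)) := by
      have h3 : 1 - q i ≤ Real.exp (-q i) := by
        have := Real.add_one_le_exp (-q i)
        linarith
      calc (1 - q i) ^ (K i) ≤ (Real.exp (-q i)) ^ (K i) := pow_le_pow_left₀ (by linarith) h3 _
        _ = Real.exp (-(q i * K i)) := by
            rw [← Real.exp_nat_mul]
            congr 1
            ring
    refine h2.trans (Real.exp_le_exp.2 (neg_le_neg ?_))
    have hq0 : 0 ≤ q i := pow_nonneg (by linarith [hi.1]) _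
    refine hi.2.2.trans (mul_le_mul_of_nonneg_left ?_ hq0)
    -- number of blocks
    have h4 : (2 : ℝ) ^ i / (4 * 4 ^ (TT2 z i) * LL2 c i) ≤ (2 : ℝ) ^ i / (4 * Pi i * LL2 c i) := by
      apply div_le_div_of_nonneg_left (by positivity)
      · have := hPipos i
        have := hLpos i
        positivity
      · have h5 : ((Pi i : ℕ) : ℝ) ≤ 4 ^ (TT2 z i) := by exact_mod_cast hPile i
        have h6 : (0 : ℝ) ≤ LL2 c i := Nat.cast_nonneg _
        nlinarith
    refine h4.trans ?_
    have h5 : 4 * Pi i * LL2 c i ≤ 2 ^ i := by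
      refine le_trans ?_ hi.2.1
      exact Nat.mul_le_mul_right _ (Nat.mul_le_mul_left _ (hPile i))
    have h6 : 2 ^ i < (2 * (Pi i * LL2 c i)) * (K i + 1) := Nat.lt_mul_div_succ _ (by
      have := hPipos i
      have := hLpos i
      positivity)
    have h7 : 1 ≤ K i := by
      rw [hK]
      rw [Nat.one_le_div_iff (by
        have := hPipos i
        have := hLpos i
        positivity)]
      have : 2 * (Pi i * LL2 c i) ≤ 4 * Pi i * LL2 c i := by nlinarith [Nat.zero_le (Pi i * LL2 c i)]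
      exact this.trans h5
    rw [div_le_iff₀ (by
      have : (0 : ℝ) < Pi i := by exact_mod_cast hPipos i
      have : (0 : ℝ) < LL2 c i := by exact_mod_cast hLpos i
      positivity)]
    have h8 : 2 ^ i ≤ K i * (4 * Pi i * LL2 c i) := by nlinarith
    exact_mod_cast h8
  have hsum : Summable (fun i : ℕ => Real.exp (-(i : ℝ))) := Real.summable_exp_neg_nat
  have hbc := bc_real (μ := μ) hsum hprob
  filter_upwards [hbc, hd] with ω hω1 hω2
  -- no violation
  have hnv : ∀ᶠ n : ℕ in atTop, ω ∉ V n := by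
    have h1 := hω2.eventually (gt_mem_nhds (show (1 : ℝ) < 1 + δ by linarith))
    rw [eventually_inf_principal] at h1
    filter_upwards [h1, eventually_gt_atTop 1] with n hn hn1
    rintro ⟨h2, h3⟩
    have h4 := hn h2
    have h5 : 0 < Real.log (n : ℝ) := Real.log_pos (by exact_mod_cast hn1)
    rw [div_lt_iff₀ (MM_pos _)] at h4
    rw [div_lt_iff₀ h5] at h3
    linarith
  obtain ⟨n₂, hn₂⟩ := eventually_atTop.1 hnv
  have hp : Tendsto (fun i : ℕ => 2 ^ i : ℕ → ℕ) atTop atTop := tendsto_pow_atTop_atTop_of_one_lt (by norm_num)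
  filter_upwards [hω1, hsK, hp.eventually_ge_atTop n₂] with i hi1 hi2 hi3
  obtain ⟨k, hk, hk2⟩ := not_NB hi1
  refine ⟨s i k, hs0 i k, by have := hi2 k hk; omega, ?_⟩
  rcases hk2 with h | h
  · exact h
  · exfalso
    obtain ⟨n, h1, _, h3⟩ := h
    exact hn₂ n (hi3.trans ((hs0 i k).trans h1)) h3

end Pool.Agent.R528.RM
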