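import Mathlib
import Pool.Agent.R528.RM.SievedGap

set_option autoImplicit false
set_option linter.unusedSectionVars false

/-! # Large gaps in the sieved models: final form -/

open MeasureTheory Filter Set
open scoped ENNReal Topology

namespace Pool.Agent.R528.RM

variable {Ω : Type} {m0 : MeasurableSpace Ω} {μ : Measure Ω} [IsProbabilityMeasure μ]
  {ℱ : Filtration ℕ m0} {A : ℕ → Set Ω}

lemma pn_zero_le {S : Set ℕ} {k : ℕ} (hk : k ∈ S) : pn S 0 ≤ k := by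
  unfold pn
  rw [Nat.nth_zero]
  exact Nat.sInf_le hk

theorem sieved_law (hA : ∀ n, MeasurableSet[ℱ n] (A n)) {z : ℕ → ℕ} (hmono : Monotone z)
    (hz : Tendsto (fun n : ℕ => Real.log (z n) / Real.log (Real.log n)) atTop (𝓝 1))
    (hcop : ∀ n, ¬ zfree z n → A n = ∅)
    (hd : ∀ᵐ ω ∂μ, Tendsto (fun n : ℕ => dens μ ℱ A n ω * Real.log n / MM (z (n + 1)))
      (atTop ⊓ 𝓟 {n | zfree z (n + 1)}) (𝓝 1)) :
    ∀ᵐ ω ∂μ, {a | ω ∈ A a}.Infinite ∧ ∀ c : ℝ, c < 2 * Real.exp (-Real.eulerMascheroniConstant) →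
      ∀ᶠ x : ℕ in atTop, ∃ n, pn {a | ω ∈ A a} n ≤ x ∧
        c * Real.log x ^ 2 ≤ (pn {a | ω ∈ A a} (n + 1) : ℝ) - pn {a | ω ∈ A a} n := by
  have hlog2 := log2pos
  have heg := eg_pos
  set c₀ := 2 * Real.exp (-Real.eulerMascheroniConstant) with hc₀
  have hc₀pos : 0 < c₀ := by positivity
  have hc₀eg : c₀ * eg = 2 := by
    rw [hc₀]
    unfold eg
    rw [mul_assoc, ← Real.exp_add]
    simp
  set cm : ℕ → ℝ := fun m => c₀ * (1 - 1 / ((m : ℝ) + 2)) with hcm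
  have hcm0 : ∀ m, 0 < cm m := by
    intro m
    have : 1 / ((m : ℝ) + 2) ≤ 1 / 2 := one_div_le_one_div_of_le (by norm_num) (by linarith [Nat.cast_nonneg (α := ℝ) m])
    simp only [hcm]
    apply mul_pos hc₀pos
    linarith
  have hcm1 : ∀ m, cm m * eg / 2 < 1 := by
    intro m
    have h1 : 0 < 1 / ((m : ℝ) + 2) := by positivity
    have h2 : cm m * eg / 2 = 1 - 1 / ((m : ℝ) + 2) := by
      simp only [hcm]
      rw [mul_right_comm, hc₀eg]
      ring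
    rw [h2]
    linarith
  have hcmt : Tendsto cm atTop (𝓝 c₀) := by
    have h1 : Tendsto (fun m : ℕ => 1 / ((m : ℝ) + 2)) atTop (𝓝 0) :=
      tendsto_const_nhds.div_atTop (tendsto_atTop_add_const_right _ _ tendsto_natCast_atTop_atTop)
    have h2 := (h1.const_sub 1).const_mul c₀
    rw [sub_zero, mul_one] at h2
    exact h2
  have hruns : ∀ᵐ ω ∂μ, ∀ m, ∀ᶠ i : ℕ in atTop, ∃ s : ℕ, 2 ^ i ≤ s ∧ s ≤ 2 ^ (i + 1) ∧
      ∀ n, s < n → n ≤ s + LL2 (cm m) i → ω ∉ A n :=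
    ae_all_iff.2 fun m => sieved_runs hA hmono hz hcop hd (hcm0 m) (hcm1 m)
  filter_upwards [sieved_infinite hA hz hd, hruns] with ω hinf hω
  refine ⟨hinf, fun c hc => ?_⟩
  set S : Set ℕ := {a | ω ∈ A a} with hS
  obtain ⟨m, hm⟩ := (hcmt.eventually (lt_mem_nhds hc)).exists
  obtain ⟨i₀, hi₀⟩ := eventually_atTop.1 (hω m)
  have hp : Tendsto (fun i : ℕ => 2 ^ i : ℕ → ℕ) atTop atTop := tendsto_pow_atTop_atTop_of_one_lt (by norm_num)
  obtain ⟨i₁, hi₁⟩ := eventually_atTop.1 (hp.eventually_ge_atTop (pn S 0))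
  filter_upwards [eventually_ge_atTop (2 ^ (i₀ + i₁ + 1))] with x hx
  -- the scale of x
  have hx0 : x ≠ 0 := by
    have : 0 < 2 ^ (i₀ + i₁ + 1) := by positivity
    omega
  set j := Nat.log 2 x with hj
  have hj1 : 2 ^ j ≤ x := Nat.pow_log_le_self 2 hx0
  have hj2 : x < 2 ^ (j + 1) := Nat.lt_pow_succ_log_self (by norm_num) x
  have hj3 : i₀ + i₁ + 1 ≤ j := by
    rw [hj]
    exact (Nat.le_log_iff_pow_le (by norm_num) hx0).2 hx
  obtain ⟨i, hi⟩ : ∃ i, j = i + 1 := ⟨j - 1, by omega⟩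
  obtain ⟨s, hs1, hs2, hs3⟩ := hi₀ i (by omega)
  have hs0 : pn S 0 ≤ s := (hi₁ i (by omega)).trans hs1
  obtain ⟨n, hn1, hn2⟩ := gap_of_run hinf hs0 (L := LL2 (cm m) i) (fun n h1 h2 => hs3 n h1 h2)
  refine ⟨n, ?_, ?_⟩
  · have : 2 ^ (i + 1) ≤ x := by rw [← hi]; exact hj1
    omega
  · have h1 : (LL2 (cm m) i : ℝ) ≤ (pn S (n + 1) : ℝ) - pn S n := by
      have h2 : pn S n + LL2 (cm m) i ≤ pn S (n + 1) := by omega
      have h3 : (pn S n : ℝ) + LL2 (cm m) i ≤ pn S (n + 1) := by exact_mod_cast h2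
      linarith
    refine le_trans ?_ h1
    have h4 : cm m * (((i : ℝ) + 3) * Real.log 2) ^ 2 ≤ LL2 (cm m) i := by
      have := (Nat.lt_floor_add_one (cm m * (((i : ℝ) + 3) * Real.log 2) ^ 2)).le
      unfold LL2
      push_cast
      exact this
    refine le_trans ?_ h4
    have h5 : Real.log x ≤ ((i : ℝ) + 3) * Real.log 2 := by
      have h6 : (x : ℝ) ≤ 2 ^ (j + 1) := by exact_mod_cast hj2.le
      have h7 := Real.log_le_log (by exact_mod_cast Nat.pos_of_ne_zero hx0) h6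
      rw [Real.log_pow, hi] at h7
      push_cast at h7
      nlinarith
    have h6 : 0 ≤ Real.log (x : ℝ) := Real.log_natCast_nonneg x
    calc c * Real.log x ^ 2 ≤ cm m * Real.log x ^ 2 := mul_le_mul_of_nonneg_right hm.le (sq_nonneg _)
      _ ≤ cm m * (((i : ℝ) + 3) * Real.log 2) ^ 2 := by
          apply mul_le_mul_of_nonneg_left _ (hcm0 m).le
          exact pow_le_pow_left₀ h6 h5 2

end Pool.Agent.R528.RM
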