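import Mathlib
import Pool.Agent.R528.RM.Var2
import Pool.Agent.R528.RM.BHFinal

set_option autoImplicit false
set_option linter.unusedSectionVars false
set_option linter.unusedVariables false

/-! # The variance over the residue classes: the law -/

open MeasureTheory Filter Set Polynomial
open scoped ENNReal Topology

namespace Pool.Agent.R528.RM

variable {Ω : Type} {m0 : MeasurableSpace Ω} {μ : Measure Ω} [IsProbabilityMeasure μ]
  {ℱ : Filtration ℕ m0} {A : ℕ → Set Ω}

lemma good_X (W n : ℕ) : good {(X : ℤ[X])} W n ↔ Nat.Coprime n W := by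
  unfold good
  simp only [Finset.mem_singleton, forall_eq, eval_X, Int.gcd_natCast_natCast]

lemma bhConst_X {W : ℕ} (hW : 0 < W) : bhConst W {(X : ℤ[X])} = 1 := by
  classical
  unfold bhConst
  have h1 : Nat.count (good {(X : ℤ[X])} W) W = Nat.totient W := by
    rw [Nat.count_eq_card_filter_range, Nat.totient]
    congr 1
    ext n
    simp only [Finset.mem_filter, good_X, Nat.coprime_comm]
  have e2 : (0 : ℝ) < W := by exact_mod_cast hW
  have e3 : (0 : ℝ) < Nat.totient W := by exact_mod_cast Nat.totient_pos.2 hW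
  rw [h1, Finset.card_singleton, Finset.prod_singleton, natDegree_X]
  push_cast
  field_simp

theorem N_lim (hA : ∀ n, MeasurableSet[ℱ n] (A n)) (W : ℕ) (hW : 0 < W)
    (hcop : ∀ n, ¬ Nat.Coprime n W → A n = ∅)
    (hd : ∀ᵐ ω ∂μ, Tendsto (fun n : ℕ => dens μ ℱ A n ω * Real.log n)
      (atTop ⊓ 𝓟 {n : ℕ | Nat.Coprime (n + 1) W}) (𝓝 ((W : ℝ) / Nat.totient W))) :
    ∀ᵐ ω ∂μ, Tendsto (fun x : ℕ => (∑ n ∈ Finset.range x, In A (n + 1) ω) * Real.log x / x) atTop (𝓝 1) := by
  filter_upwards [bh_poly (μ := μ) hA W hW hcop hd] with ω hω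
  have h1 := hω {(X : ℤ[X])} (by
    intro f hf
    rw [Finset.mem_singleton.1 hf, natDegree_X, leadingCoeff_X]
    exact ⟨one_pos, one_pos⟩)
  rw [bhConst_X hW] at h1
  have h2 : ∀ x : ℕ, ∑ n ∈ Finset.range x, YY A pv {(X : ℤ[X])} n ω = ∑ n ∈ Finset.range x, In A n ω := by
    intro x
    refine Finset.sum_congr rfl fun n _ => ?_
    unfold YY In pv
    rw [Finset.prod_singleton, eval_X, Int.toNat_natCast]
  have h3 : Tendsto (fun x : ℕ => Real.log x / x) atTop (𝓝 0) := by
    have := (Real.isLittleO_log_id_atTop).tendsto_div_nhds_zero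
    exact this.comp tendsto_natCast_atTop_atTop
  have h4 : Tendsto (fun x : ℕ => (∑ n ∈ Finset.range x, In A (n + 1) ω) * Real.log x / x -
      (∑ n ∈ Finset.range x, YY A pv {(X : ℤ[X])} n ω) * Real.log x ^ (({(X : ℤ[X])} : Finset ℤ[X]).card) / x) atTop (𝓝 0) := by
    refine squeeze_zero_norm' (a := fun x : ℕ => Real.log x / x) ?_ h3
    filter_upwards with x
    rw [h2, Finset.card_singleton, pow_one, ← sub_div, ← sub_mul]
    have h5 : ∑ n ∈ Finset.range x, In A (n + 1) ω - ∑ n ∈ Finset.range x, In A n ω = In A x ω - In A 0 ω := by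
      rw [← Finset.sum_sub_distrib]
      exact Finset.sum_range_sub (fun n => In A n ω) x
    rw [h5, Real.norm_eq_abs, abs_div, abs_mul, abs_of_nonneg (Real.log_natCast_nonneg x), Nat.abs_cast]
    apply div_le_div_of_nonneg_right _ (Nat.cast_nonneg x)
    have h6 : |In A x ω - In A 0 ω| ≤ 1 := by
      rw [abs_le]
      constructor <;> linarith [In_nonneg (A := A) x ω, In_le (A := A) x ω, In_nonneg (A := A) 0 ω, In_le (A := A) 0 ω]
    calc _ ≤ 1 * Real.log x := mul_le_mul_of_nonneg_right h6 (Real.log_natCast_nonneg x)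
      _ = _ := one_mul _
  have h5 := h4.add h1
  rw [zero_add] at h5
  refine h5.congr fun x => ?_
  ring

lemma Bb_small : Tendsto (fun x : ℕ => Bb x 1 * Real.log x / x) atTop (𝓝 0) := by
  have h1 : Tendsto (fun x : ℝ => Real.log x ^ 3 / x) atTop (𝓝 0) :=
    (Real.isLittleO_pow_log_id_atTop (n := 3)).tendsto_div_nhds_zero
  have h2 := ((h1.comp tendsto_natCast_atTop_atTop).const_mul 24)
  rw [mul_zero] at h2
  have h3 := (Real.continuous_sqrt.tendsto 0).comp h2
  rw [Real.sqrt_zero] at h3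
  refine h3.congr' ?_
  filter_upwards [eventually_gt_atTop 1] with x hx
  have hx' : (1 : ℝ) < x := by exact_mod_cast hx
  have hL : 0 < Real.log (x : ℝ) := Real.log_pos hx'
  simp only [Function.comp]
  unfold Bb
  have e1 : √(24 * ((x : ℝ) / (1 : ℕ)) * Real.log x) * Real.log x / x = √(24 * ((x : ℝ) / (1 : ℕ)) * Real.log x) * √((Real.log x / x) ^ 2) := by
    rw [Real.sqrt_sq (by positivity)]
    ring
  rw [e1, ← Real.sqrt_mul (by positivity)]
  congr 1
  push_cast
  field_simp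

lemma dens_zero {W : ℕ} (hW : 0 < W) {ω : Ω}
    (hω : ∀ ε : ℝ, 0 < ε → ∀ᶠ n : ℕ in atTop, |dens μ ℱ A n ω - rhoW W (n + 1)| ≤ ε * rhoW W (n + 1)) {c : ℝ} (hc : 0 < c) :
    ∀ᶠ n : ℕ in atTop, dens μ ℱ A n ω ≤ c := by
  have h1 : ∀ᶠ m : ℕ in atTop, rhoW W (m + 1) ≤ c / 2 := by
    have hφ : (0 : ℝ) < Nat.totient W := by exact_mod_cast Nat.totient_pos.2 hW
    have hW' : (0 : ℝ) < W := by exact_mod_cast hW
    filter_upwards [ev_log (((W : ℝ) / Nat.totient W) / (c / 2)), eventually_gt_atTop 1] with m h1 h2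
    have hm : (1 : ℝ) < m := by exact_mod_cast h2
    have h3 : Real.log m ≤ Real.log ((m + 1 : ℕ) : ℝ) := Real.log_le_log (by linarith only [hm]) (by push_cast; linarith only)
    have hlm : 0 < Real.log ((m + 1 : ℕ) : ℝ) := (Real.log_pos hm).trans_le h3
    unfold rhoW
    split_ifs
    · refine (min_le_right _ _).trans ?_
      rw [div_le_iff₀ hlm]
      rw [div_le_iff₀ (by positivity)] at h1
      have := mul_le_mul_of_nonneg_left h3 (show 0 ≤ c / 2 by positivity)
      linarith only [this, h1]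
    · positivity
  filter_upwards [hω 1 one_pos, h1] with n g1 g2
  have := (abs_le.1 g1).2
  linarith

theorem X2_lim {W : ℕ} (hW : 0 < W) {ω : Ω} (h01 : ∀ n, 0 ≤ dens μ ℱ A n ω ∧ dens μ ℱ A n ω ≤ 1)
    (hω : ∀ ε : ℝ, 0 < ε → ∀ᶠ n : ℕ in atTop, |dens μ ℱ A n ω - rhoW W (n + 1)| ≤ ε * rhoW W (n + 1))
    (hN : Tendsto (fun x : ℕ => (∑ n ∈ Finset.range x, In A (n + 1) ω) * Real.log x / x) atTop (𝓝 1))
    (hD : ∀ᶠ x : ℕ in atTop, ∀ q, 1 ≤ q → q ≤ x → ∀ r, r < q → ∀ m, m ≤ x → |Dc μ ℱ A q r m ω| < Bb x q) :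
    Tendsto (fun x : ℕ => X2 μ ℱ A x ω * Real.log x / x) atTop (𝓝 1) := by
  have hkey : Tendsto (fun x : ℕ => (X2 μ ℱ A x ω - ∑ n ∈ Finset.range x, In A (n + 1) ω) * Real.log x / x) atTop (𝓝 0) := by
    rw [Metric.tendsto_atTop']
    intro ε' hε'
    set ε : ℝ := ε' / 16 with hε
    have hε0 : 0 < ε := by positivity
    obtain ⟨k₀, hk₀⟩ := eventually_atTop.1 (dens_zero hW hω hε0)
    have hl : Tendsto (fun x : ℕ => 3 * (k₀ : ℝ) * (Real.log x / x)) atTop (𝓝 0) := by
      have := (Real.isLittleO_log_id_atTop).tendsto_div_nhds_zero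
      have := (this.comp tendsto_natCast_atTop_atTop).const_mul (3 * (k₀ : ℝ))
      rwa [mul_zero] at this
    obtain ⟨n, hn⟩ := eventually_atTop.1 ((hl.eventually (eventually_lt_nhds hε0)).and
      ((hN.eventually (eventually_lt_nhds (show (1 : ℝ) < 2 by norm_num))).and
      ((Bb_small.eventually (eventually_lt_nhds (show (0 : ℝ) < 1 by norm_num))).and
      (hD.and (eventually_ge_atTop (k₀ + 1))))))
    refine ⟨n, fun x hx => ?_⟩
    obtain ⟨g1, g2, g3, g4, g5⟩ := hn x hx.le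
    have hx0 : (0 : ℝ) < x := by exact_mod_cast (by omega : 0 < x)
    have hL : 0 ≤ Real.log (x : ℝ) := Real.log_natCast_nonneg x
    have hS := g4 1 le_rfl (by omega) 0 one_pos x le_rfl
    have hS1 : Dc μ ℱ A 1 0 x ω = ∑ k ∈ Finset.range x, xi μ ℱ A k ω := by
      unfold Dc
      refine Finset.sum_congr rfl fun k _ => ?_
      rw [if_pos (Nat.mod_one _)]
    have hS2 : ∑ k ∈ Finset.range x, dens μ ℱ A k ω = ∑ n ∈ Finset.range x, In A (n + 1) ω - Dc μ ℱ A 1 0 x ω := by
      rw [hS1, ← Finset.sum_sub_distrib]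
      refine Finset.sum_congr rfl fun k _ => ?_
      unfold xi
      ring
    set SI := ∑ n ∈ Finset.range x, In A (n + 1) ω with hSI
    have h1 : |X2 μ ℱ A x ω - SI| ≤ 3 * k₀ + ε * (3 * SI + Bb x 1) := by
      unfold X2
      rw [hSI, ← Finset.sum_sub_distrib]
      refine (Finset.abs_sum_le_sum_abs _ _).trans ?_
      have h2 : ∀ k ∈ Finset.range x, |xi μ ℱ A k ω ^ 2 - In A (k + 1) ω| ≤
          (if k < k₀ then 3 else 0) + ε * (2 * In A (k + 1) ω + dens μ ℱ A k ω) := by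
        intro k _
        have i1 := In_nonneg (A := A) (k + 1) ω
        have i2 := In_le (A := A) (k + 1) ω
        have i3 : In A (k + 1) ω ^ 2 = In A (k + 1) ω := by
          unfold In
          by_cases h : ω ∈ A (k + 1)
          · rw [indicator_of_mem h]; norm_num
          · rw [indicator_of_notMem h]; norm_num
        obtain ⟨j1, j2⟩ := h01 k
        have h3 : xi μ ℱ A k ω ^ 2 - In A (k + 1) ω = dens μ ℱ A k ω * (dens μ ℱ A k ω - 2 * In A (k + 1) ω) := by
          unfold xi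
          have : (In A (k + 1) ω - dens μ ℱ A k ω) ^ 2 = In A (k + 1) ω ^ 2 - 2 * In A (k + 1) ω * dens μ ℱ A k ω + dens μ ℱ A k ω ^ 2 := by ring
          rw [this, i3]
          ring
        rw [h3, abs_mul, abs_of_nonneg j1]
        have h4 : |dens μ ℱ A k ω - 2 * In A (k + 1) ω| ≤ 2 * In A (k + 1) ω + dens μ ℱ A k ω := by
          rw [abs_le]
          constructor <;> linarith
        have h5 := mul_le_mul_of_nonneg_left h4 j1
        by_cases hk : k < k₀
        · rw [if_pos hk]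
          have h6 : dens μ ℱ A k ω * (2 * In A (k + 1) ω + dens μ ℱ A k ω) ≤ 1 * (2 * 1 + 1) :=
            mul_le_mul j2 (by linarith) (by positivity) zero_le_one
          have h7 : 0 ≤ ε * (2 * In A (k + 1) ω + dens μ ℱ A k ω) := by positivity
          linarith
        · rw [if_neg hk, zero_add]
          refine h5.trans ?_
          exact mul_le_mul_of_nonneg_right (hk₀ k (by omega)) (by positivity)
      refine (Finset.sum_le_sum h2).trans ?_
      rw [Finset.sum_add_distrib, ← Finset.mul_sum, Finset.sum_add_distrib, ← Finset.mul_sum, hS2, ← hSI]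
      have h6 : ∑ k ∈ Finset.range x, (if k < k₀ then (3 : ℝ) else 0) ≤ 3 * k₀ := by
        rw [← Finset.sum_filter, Finset.sum_const, nsmul_eq_mul, mul_comm]
        apply mul_le_mul_of_nonneg_left _ (by norm_num)
        have : ((Finset.range x).filter (fun k => k < k₀)).card ≤ (Finset.range k₀).card := by
          apply Finset.card_le_card
          intro k hk
          exact Finset.mem_range.2 (Finset.mem_filter.1 hk).2
        rw [Finset.card_range] at this
        exact_mod_cast this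
      have h7 := (abs_lt.1 hS).1
      have h8 : ε * (2 * SI + (SI - Dc μ ℱ A 1 0 x ω)) ≤ ε * (3 * SI + Bb x 1) := mul_le_mul_of_nonneg_left (by linarith) hε0.le
      linarith
    rw [Real.dist_eq, sub_zero, abs_div, abs_mul, abs_of_nonneg hL, abs_of_pos hx0]
    have h2 : |X2 μ ℱ A x ω - SI| * Real.log x / x ≤ (3 * k₀ + ε * (3 * SI + Bb x 1)) * Real.log x / x :=
      div_le_div_of_nonneg_right (mul_le_mul_of_nonneg_right h1 hL) hx0.le
    refine lt_of_le_of_lt h2 ?_
    have h3 : (3 * k₀ + ε * (3 * SI + Bb x 1)) * Real.log x / x = 3 * (k₀ : ℝ) * (Real.log x / x) +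
        ε * (3 * (SI * Real.log x / x) + Bb x 1 * Real.log x / x) := by ring
    rw [h3]
    have h4 : ε * (3 * (SI * Real.log x / x) + Bb x 1 * Real.log x / x) ≤ ε * (3 * 2 + 1) :=
      mul_le_mul_of_nonneg_left (by linarith) hε0.le
    linarith
  have h1 := hkey.add hN
  rw [zero_add] at h1
  refine h1.congr fun x => ?_
  ring

/-- the variance law, centred at the sums of conditional probabilities -/
theorem var_law (hA : ∀ n, MeasurableSet[ℱ n] (A n)) (W : ℕ) (hW : 0 < W)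
    (hcop : ∀ n, ¬ Nat.Coprime n W → A n = ∅)
    (hd : ∀ᵐ ω ∂μ, Tendsto (fun n : ℕ => dens μ ℱ A n ω * Real.log n)
      (atTop ⊓ 𝓟 {n : ℕ | Nat.Coprime (n + 1) W}) (𝓝 ((W : ℝ) / Nat.totient W))) :
    ∀ᵐ ω ∂μ, ∀ ε : ℝ, 0 < ε → ∀ᶠ x : ℕ in atTop, ∀ q, 1 ≤ q → q ≤ x → Real.log x ^ 5 ≤ (q : ℝ) →
      |Vq μ ℱ A q x ω - (x : ℝ) / Real.log x| ≤ ε * ((x : ℝ) / Real.log x) := by
  have h01 : ∀ᵐ ω ∂μ, ∀ n, 0 ≤ dens μ ℱ A n ω ∧ dens μ ℱ A n ω ≤ 1 := ae_all_iff.2 fun n => dens01 hA n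
  filter_upwards [h01, dens_profile (μ := μ) (ℱ := ℱ) hA W hW hcop hd, N_lim (μ := μ) hA W hW hcop hd, D_bound (μ := μ) (ℱ := ℱ) hA,
    var_main (μ := μ) (ℱ := ℱ) hA] with ω g1 g2 g3 g4 g5 ε hε
  have h1 := X2_lim hW g1 g2 g3 g4
  filter_upwards [g5 (ε / 2) (by positivity), h1.eventually (eventually_lt_nhds (show (1 : ℝ) < 1 + ε / 2 by linarith)),
    h1.eventually (eventually_gt_nhds (show 1 - ε / 2 < (1 : ℝ) by linarith)), ev_log 1, eventually_gt_atTop 0] with x f1 f2 f3 f4 f5 q hq1 hq2 hq3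
  have hx : (0 : ℝ) < x := by exact_mod_cast f5
  have hL : 0 < Real.log (x : ℝ) := by linarith
  have h2 := f1 q hq1 hq2 hq3
  have h3 : |X2 μ ℱ A x ω - (x : ℝ) / Real.log x| ≤ ε / 2 * ((x : ℝ) / Real.log x) := by
    have e1 : X2 μ ℱ A x ω = X2 μ ℱ A x ω * Real.log x / x * ((x : ℝ) / Real.log x) := by field_simp
    have hp : 0 < (x : ℝ) / Real.log x := by positivity
    have f2' := mul_le_mul_of_nonneg_right f2.le hp.le
    have f3' := mul_le_mul_of_nonneg_right f3.le hp.le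
    rw [← e1] at f2' f3'
    rw [abs_le]
    constructor <;> linarith
  have h4 : Vq μ ℱ A q x ω - (x : ℝ) / Real.log x = (Vq μ ℱ A q x ω - X2 μ ℱ A x ω) + (X2 μ ℱ A x ω - (x : ℝ) / Real.log x) := by ring
  rw [h4]
  refine (abs_add_le _ _).trans ?_
  linarith

end Pool.Agent.R528.RM
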