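import Mathlib
import Pool.Agent.R528.RM.Var3

set_option autoImplicit false
set_option linter.unusedSectionVars false
set_option linter.unusedVariables false

/-! # The variance over the admissible classes -/

open MeasureTheory Filter Set
open scoped ENNReal Topology

namespace Pool.Agent.R528.RM

variable {Ω : Type} {m0 : MeasurableSpace Ω} {μ : Measure Ω} [IsProbabilityMeasure μ]
  {ℱ : Filtration ℕ m0} {A : ℕ → Set Ω}

lemma xi_zero {W : ℕ} (hcop : ∀ n, ¬ Nat.Coprime n W → A n = ∅) {k : ℕ} (h : ¬ Nat.Coprime (k + 1) W) (ω : Ω) :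
    xi μ ℱ A k ω = 0 := by
  have h1 : A (k + 1) = ∅ := hcop _ h
  have h2 : dens μ ℱ A k = 0 := by
    unfold dens
    rw [h1, indicator_empty]
    exact condExp_zero
  unfold xi In
  rw [h1, h2, indicator_empty]
  simp

lemma Dc_adm {W : ℕ} (hcop : ∀ n, ¬ Nat.Coprime n W → A n = ∅) {q a : ℕ} (x : ℕ) (ω : Ω) :
    Dc μ ℱ A q a x ω = CS μ ℱ A (cls W q a 0 x) ω := by
  have h1 := Sw_CS (μ := μ) (ℱ := ℱ) (A := A) (R := cls W q a 0 x) (M := x) (fun n hn => (mem_cls.1 hn).1) ω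
  rw [← h1, Dc_Sw]
  unfold Sw wR
  refine Finset.sum_congr rfl fun k hk => ?_
  have hk' := Finset.mem_range.1 hk
  simp only [zero_add]
  by_cases h2 : (k + 1) % q = a
  · by_cases h3 : Nat.Coprime (k + 1) W
    · rw [if_pos h2, if_pos (mem_cls.2 ⟨⟨by omega, by omega⟩, h2, h3⟩)]
    · have h4 := xi_zero (μ := μ) (ℱ := ℱ) hcop h3 ω
      unfold xi In at h4
      rw [h4, mul_zero, mul_zero]
  · rw [if_neg h2, if_neg fun h => h2 (mem_cls.1 h).2.1]

lemma Dc_nadm {W : ℕ} (hcop : ∀ n, ¬ Nat.Coprime n W → A n = ∅) {q a : ℕ} (ha : a < q) (ha2 : a ∉ adm W q) (x : ℕ) (ω : Ω) :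
    Dc μ ℱ A q a x ω = 0 := by
  unfold Dc
  refine Finset.sum_eq_zero fun k _ => ?_
  split_ifs with h
  · apply xi_zero hcop
    intro h3
    apply ha2
    rw [mem_adm]
    refine ⟨ha, ?_⟩
    -- a common divisor of a, q, W divides k + 1
    have h4 : Nat.gcd a (Nat.gcd q W) ∣ k + 1 := by
      have h5 : Nat.gcd a (Nat.gcd q W) ∣ a := Nat.gcd_dvd_left _ _
      have h6 : Nat.gcd a (Nat.gcd q W) ∣ q := (Nat.gcd_dvd_right _ _).trans (Nat.gcd_dvd_left _ _)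
      rw [← h] at h5
      rw [h] at h5
      have h7 := Nat.div_add_mod (k + 1) q
      rw [h] at h7
      rw [← h7]
      exact dvd_add (h6.mul_right _) h5
    have h8 : Nat.gcd a (Nat.gcd q W) ∣ W := (Nat.gcd_dvd_right _ _).trans (Nat.gcd_dvd_right _ _)
    exact Nat.eq_one_of_dvd_one (h3 ▸ Nat.dvd_gcd h4 h8)
  · rfl

lemma Vq_adm {W : ℕ} (hcop : ∀ n, ¬ Nat.Coprime n W → A n = ∅) (q x : ℕ) (ω : Ω) :
    Vq μ ℱ A q x ω = ∑ a ∈ adm W q, CS μ ℱ A (cls W q a 0 x) ω ^ 2 := by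
  classical
  unfold Vq
  have h1 : adm W q ⊆ Finset.range q := fun a ha => Finset.mem_range.2 (mem_adm.1 ha).1
  rw [← Finset.sum_subset h1 (f := fun r => Dc μ ℱ A q r x ω ^ 2)]
  · refine Finset.sum_congr rfl fun a _ => ?_
    rw [Dc_adm hcop]
  · intro a ha ha2
    rw [Dc_nadm hcop (Finset.mem_range.1 ha) ha2]
    norm_num

/-- the variance over the admissible classes, centred at the mean -/
theorem var_adm (hA : ∀ n, MeasurableSet[ℱ n] (A n)) (W : ℕ) (hW : 0 < W)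
    (hcop : ∀ n, ¬ Nat.Coprime n W → A n = ∅)
    (hd : ∀ᵐ ω ∂μ, Tendsto (fun n : ℕ => dens μ ℱ A n ω * Real.log n)
      (atTop ⊓ 𝓟 {n : ℕ | Nat.Coprime (n + 1) W}) (𝓝 ((W : ℝ) / Nat.totient W)))
    (hmono : ∀ᵐ ω ∂μ, ∀ m n : ℕ, m ≤ n → Nat.Coprime (m + 1) W → Nat.Coprime (n + 1) W →
      dens μ ℱ A n ω ≤ dens μ ℱ A m ω) :
    ∀ᵐ ω ∂μ, ∀ ε : ℝ, 0 < ε → ∀ᶠ x : ℕ in atTop, ∀ q : ℕ, 1 ≤ q → Real.log x ^ 5 ≤ (q : ℝ) → (q : ℝ) ≤ x / Real.log x ^ 2 →
      |∑ a ∈ adm W q, Dv A W x q a ω ^ 2 - (x : ℝ) / Real.log x| ≤ ε * ((x : ℝ) / Real.log x) := by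
  have h01 : ∀ᵐ ω ∂μ, ∀ n, 0 ≤ dens μ ℱ A n ω ∧ dens μ ℱ A n ω ≤ 1 := ae_all_iff.2 fun n => dens01 hA n
  have hφ : (0 : ℝ) < Nat.totient W := by exact_mod_cast Nat.totient_pos.2 hW
  have hW' : (0 : ℝ) < W := by exact_mod_cast hW
  filter_upwards [h01, hmono, var_law (μ := μ) (ℱ := ℱ) hA W hW hcop hd, D_bound (μ := μ) (ℱ := ℱ) hA] with ω g1 g2 g3 g4 ε hε
  set δ : ℝ := min ε 1 / 8 with hδ
  have hδ0 : 0 < δ := by positivity
  have hδ1 : 8 * δ ≤ ε := by rw [hδ]; linarith [min_le_left ε 1]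
  have hδ2 : 8 * δ ≤ 1 := by rw [hδ]; linarith [min_le_right ε 1]
  set C₁ : ℝ := 48 * (W / Nat.totient W) with hC₁
  set C₂ : ℝ := 32 * (W : ℝ) ^ 2 with hC₂
  have hC₁0 : 0 < C₁ := by positivity
  have hC₂0 : 0 < C₂ := by positivity
  filter_upwards [g3 δ hδ0, g4, ev_log 1, ev_log ((C₁ + C₂) * (1 / δ + 1) / δ), eventually_gt_atTop 1] with x f1 f2 f3 f4 f5 q hq1 hq3 hq4
  have hx : (1 : ℝ) < x := by exact_mod_cast f5
  set L : ℝ := Real.log (x : ℝ) with hL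
  have hL0 : 0 < L := by linarith
  have hL1 : 1 ≤ L := f3
  have hqx : q ≤ x := by
    have h1 : (q : ℝ) ≤ x := by
      refine hq4.trans ?_
      exact div_le_self (by linarith) (one_le_pow₀ hL1)
    exact_mod_cast h1
  have hV := f1 q hq1 hqx hq3
  rw [Vq_adm hcop] at hV
  have hcard := adm_ge (W := W) (q := q) hW (by omega)
  have hcard1 : ((adm W q).card : ℝ) ≤ q := by
    have : (adm W q).card ≤ (Finset.range q).card := Finset.card_le_card fun a ha => Finset.mem_range.2 (mem_adm.1 ha).1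
    rw [Finset.card_range] at this
    exact_mod_cast this
  have hcard0 := adm_pos W (q := q) (by omega)
  set K : ℝ := ((adm W q).card : ℝ) with hK
  set S : ℝ := CS μ ℱ A (cls W 1 0 0 x) ω with hS
  have hS2 : S ^ 2 ≤ 24 * x * L := by
    have h1 := f2 1 le_rfl (by omega) 0 one_pos x le_rfl
    rw [Dc_adm (W := W) hcop, ← hS] at h1
    have h2 : |S| ^ 2 ≤ Bb x 1 ^ 2 := pow_le_pow_left₀ (abs_nonneg _) h1.le 2
    rw [sq_abs] at h2
    unfold Bb at h2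
    rw [Real.sq_sqrt (by rw [← hL]; positivity)] at h2
    refine h2.trans (le_of_eq ?_)
    push_cast
    rw [hL]
    ring
  set e : ℝ := |S| / K + 4 * W with he
  have he0 : 0 ≤ e := by positivity
  have hKe : K * e ^ 2 ≤ (C₁ + C₂) * (x / L ^ 2) := by
    have h1 : e ^ 2 ≤ 2 * (S ^ 2 / K ^ 2) + 32 * (W : ℝ) ^ 2 := by
      have : e ^ 2 ≤ 2 * (|S| / K) ^ 2 + 2 * (4 * W) ^ 2 := by
        rw [he]
        nlinarith only [sq_nonneg (|S| / K - 4 * W)]
      rw [div_pow, sq_abs] at this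
      linarith
    have h2 : K * e ^ 2 ≤ 2 * (S ^ 2 / K) + 32 * (W : ℝ) ^ 2 * K := by
      have h3 := mul_le_mul_of_nonneg_left h1 hcard0.le
      have h4 : K * (2 * (S ^ 2 / K ^ 2) + 32 * (W : ℝ) ^ 2) = 2 * (S ^ 2 / K) + 32 * (W : ℝ) ^ 2 * K := by
        field_simp
      linarith
    have h3 : 2 * (S ^ 2 / K) ≤ C₁ * (x / L ^ 2) := by
      have h5 : L ^ 3 * (Nat.totient W / W) ≤ K := by
        refine le_trans ?_ hcard
        apply mul_le_mul_of_nonneg_right _ (by positivity)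
        refine le_trans ?_ hq3
        exact pow_le_pow_right₀ hL1 (by norm_num)
      have h6 : S ^ 2 / K ≤ 24 * x * L / (L ^ 3 * (Nat.totient W / W)) := div_le_div₀ (by positivity) hS2 (by positivity) h5
      have h7 : 24 * x * L / (L ^ 3 * (Nat.totient W / W)) = 24 * (W / Nat.totient W) * (x / L ^ 2) := by
        field_simp
      rw [h7] at h6
      rw [hC₁]
      linarith
    have h4 : 32 * (W : ℝ) ^ 2 * K ≤ C₂ * (x / L ^ 2) := mul_le_mul_of_nonneg_left (hcard1.trans hq4) hC₂0.le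
    linarith
  have hsmall : (1 / δ + 1) * (K * e ^ 2) ≤ δ * (x / L) := by
    have h1 := mul_le_mul_of_nonneg_left hKe (show 0 ≤ 1 / δ + 1 by positivity)
    rw [div_le_iff₀ hδ0] at f4
    have h2 := mul_le_mul_of_nonneg_right f4 (show 0 ≤ (x : ℝ) / L ^ 2 by positivity)
    have h3 : L * δ * (x / L ^ 2) = δ * (x / L) := by field_simp
    rw [h3] at h2
    linarith
  have hdiff : |∑ a ∈ adm W q, Dv A W x q a ω ^ 2 - ∑ a ∈ adm W q, CS μ ℱ A (cls W q a 0 x) ω ^ 2| ≤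
      δ * ∑ a ∈ adm W q, CS μ ℱ A (cls W q a 0 x) ω ^ 2 + (1 / δ + 1) * (K * e ^ 2) := by
    rw [← Finset.sum_sub_distrib]
    refine (Finset.abs_sum_le_sum_abs _ _).trans ?_
    have h1 : ∀ a ∈ adm W q, |Dv A W x q a ω ^ 2 - CS μ ℱ A (cls W q a 0 x) ω ^ 2| ≤
        δ * CS μ ℱ A (cls W q a 0 x) ω ^ 2 + (1 / δ + 1) * e ^ 2 := by
      intro a ha
      have h2 := Dv_CS (μ := μ) (ℱ := ℱ) (A := A) hW g1 g2 (by omega : 0 < q) ha x
      rw [← hS, ← hK, ← he] at h2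
      set D := Dv A W x q a ω
      set u := CS μ ℱ A (cls W q a 0 x) ω
      have h3 : D ^ 2 - u ^ 2 = (D - u) * (D - u + 2 * u) := by ring
      rw [h3, abs_mul]
      have h4 : |D - u + 2 * u| ≤ e + 2 * |u| := by
        refine (abs_add_le _ _).trans ?_
        rw [abs_mul, abs_of_pos (show (0 : ℝ) < 2 by norm_num)]
        linarith
      have h5 : |D - u| * |D - u + 2 * u| ≤ e * (e + 2 * |u|) := mul_le_mul h2 h4 (abs_nonneg _) he0
      refine h5.trans ?_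
      have h6 : 2 * e * |u| ≤ δ * u ^ 2 + 1 / δ * e ^ 2 := by
        have h7 : 0 ≤ (δ * |u| - e) ^ 2 := sq_nonneg _
        have h8 : |u| ^ 2 = u ^ 2 := sq_abs u
        have h9 : 0 ≤ (δ * |u| - e) ^ 2 / δ := by positivity
        have h10 : (δ * |u| - e) ^ 2 / δ = δ * |u| ^ 2 - 2 * e * |u| + 1 / δ * e ^ 2 := by
          field_simp
          ring
        rw [h10, h8] at h9
        linarith
      nlinarith only [h6]
    refine (Finset.sum_le_sum h1).trans (le_of_eq ?_)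
    rw [Finset.sum_add_distrib, ← Finset.mul_sum, Finset.sum_const, nsmul_eq_mul, ← hK]
    ring
  set V := ∑ a ∈ adm W q, CS μ ℱ A (cls W q a 0 x) ω ^ 2
  have hp : 0 < (x : ℝ) / L := by positivity
  obtain ⟨i1, i2⟩ := abs_le.1 hV
  have hV2 : δ * V ≤ δ * (2 * (x / L)) := by
    apply mul_le_mul_of_nonneg_left _ hδ0.le
    have : δ * (x / L) ≤ 1 * (x / L) := mul_le_mul_of_nonneg_right (by linarith) hp.le
    linarith
  obtain ⟨j1, j2⟩ := abs_le.1 (hdiff.trans (add_le_add hV2 hsmall))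
  have hfin : 8 * δ * (x / L) ≤ ε * (x / L) := mul_le_mul_of_nonneg_right hδ1 hp.le
  have hδp : 0 < δ * (x / L) := by positivity
  rw [abs_le]
  constructor <;> linarith

end Pool.Agent.R528.RM
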