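import Mathlib
import Pool.Agent.R528.RM.Var3

set_option autoImplicit false
set_option linter.unusedSectionVars false
set_option linter.unusedVariables false

/-! # The mean square over short intervals -/

open MeasureTheory Filter Set
open scoped ENNReal Topology

namespace Pool.Agent.R528.RM

variable {Ω : Type} {m0 : MeasurableSpace Ω} {μ : Measure Ω} [IsProbabilityMeasure μ]
  {ℱ : Filtration ℕ m0} {A : ℕ → Set Ω}

/-- the centred partial sums -/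
noncomputable def Sn (μ : Measure Ω) (ℱ : Filtration ℕ m0) (A : ℕ → Set Ω) (m : ℕ) (ω : Ω) : ℝ :=
  ∑ k ∈ Finset.range m, xi μ ℱ A k ω

/-- the sum of the squares over the intervals of length `H` -/
noncomputable def VH (μ : Measure Ω) (ℱ : Filtration ℕ m0) (A : ℕ → Set Ω) (X H : ℕ) (ω : Ω) : ℝ :=
  ∑ x ∈ Finset.range X, (Sn μ ℱ A (x + H) ω - Sn μ ℱ A x ω) ^ 2

/-- the starting points of the intervals which contain `l` -/
def st (X H l : ℕ) : Finset ℕ := (Finset.range X).filter (fun x => x ≤ l ∧ l < x + H)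

lemma st_card (X H l : ℕ) : (st X H l).card ≤ H := by
  have h2 : (st X H l).card ≤ (Finset.range H).card := by
    apply Finset.card_le_card_of_injOn (fun x => l - x)
    · intro x hx
      obtain ⟨h1, h2, h3⟩ := Finset.mem_filter.1 hx
      simp only [Finset.coe_range, Set.mem_Iio]
      omega
    · intro x hx y hy hxy
      obtain ⟨h1, h2, h3⟩ := Finset.mem_filter.1 hx
      obtain ⟨h4, h5, h6⟩ := Finset.mem_filter.1 hy
      simp only at hxy
      omega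
  rwa [Finset.card_range] at h2

lemma sq_exp (x H : ℕ) (ω : Ω) : (Sn μ ℱ A (x + H) ω - Sn μ ℱ A x ω) ^ 2 = (X2 μ ℱ A (x + H) ω - X2 μ ℱ A x ω) +
    ∑ l ∈ Finset.Ico x (x + H), 2 * (Sn μ ℱ A l ω - Sn μ ℱ A x ω) * xi μ ℱ A l ω := by
  induction H with
  | zero => simp
  | succ H ih =>
    have h1 : Sn μ ℱ A (x + (H + 1)) ω = Sn μ ℱ A (x + H) ω + xi μ ℱ A (x + H) ω := by
      unfold Sn
      rw [← add_assoc, Finset.sum_range_succ]
    have h2 : X2 μ ℱ A (x + (H + 1)) ω = X2 μ ℱ A (x + H) ω + xi μ ℱ A (x + H) ω ^ 2 := by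
      unfold X2
      rw [← add_assoc, Finset.sum_range_succ]
    rw [h1, h2, ← add_assoc x H 1, Finset.sum_Ico_succ_top (by omega)]
    have h3 : (Sn μ ℱ A (x + H) ω + xi μ ℱ A (x + H) ω - Sn μ ℱ A x ω) ^ 2 = (Sn μ ℱ A (x + H) ω - Sn μ ℱ A x ω) ^ 2 +
        2 * (Sn μ ℱ A (x + H) ω - Sn μ ℱ A x ω) * xi μ ℱ A (x + H) ω + xi μ ℱ A (x + H) ω ^ 2 := by ring
    rw [h3, ih]
    ring

lemma VH_eq (X H : ℕ) (ω : Ω) : VH μ ℱ A X H ω = ∑ x ∈ Finset.range X, (X2 μ ℱ A (x + H) ω - X2 μ ℱ A x ω) +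
    ∑ l ∈ Finset.range (X + H), (∑ x ∈ st X H l, 2 * (Sn μ ℱ A l ω - Sn μ ℱ A x ω)) * xi μ ℱ A l ω := by
  unfold VH
  simp_rw [sq_exp]
  rw [Finset.sum_add_distrib]
  congr 1
  simp_rw [Finset.sum_mul]
  apply Finset.sum_comm'
  intro x l
  unfold st
  simp only [Finset.mem_range, Finset.mem_Ico, Finset.mem_filter]
  omega

/-- the multipliers -/
noncomputable def wH (μ : Measure Ω) (ℱ : Filtration ℕ m0) (A : ℕ → Set Ω) (B : ℝ) (X H l : ℕ) (ω : Ω) : ℝ :=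
  ∑ x ∈ st X H l, 2 * clp B (Sn μ ℱ A l ω - Sn μ ℱ A x ω)

lemma Sn_Sw (l x : ℕ) (hx : x ≤ l) (ω : Ω) : Sn μ ℱ A l ω - Sn μ ℱ A x ω = Sw μ ℱ A 0 (fun k _ => if x ≤ k then 1 else 0) l ω := by
  unfold Sn Sw
  have h1 : ∑ k ∈ Finset.range l, xi μ ℱ A k ω - ∑ k ∈ Finset.range x, xi μ ℱ A k ω = ∑ k ∈ Finset.Ico x l, xi μ ℱ A k ω :=
    (Finset.sum_Ico_eq_sub _ hx).symm
  rw [h1]
  have h2 : Finset.Ico x l = (Finset.range l).filter (fun k => x ≤ k) := by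
    ext k
    simp only [Finset.mem_Ico, Finset.mem_filter, Finset.mem_range]
    tauto
  rw [h2, Finset.sum_filter]
  refine Finset.sum_congr rfl fun k _ => ?_
  rw [zero_add]
  by_cases h : x ≤ k
  · simp only [if_pos h, one_mul]
    rfl
  · simp only [if_neg h, zero_mul]

lemma Sn_meas (hA : ∀ n, MeasurableSet[ℱ n] (A n)) (l : ℕ) : StronglyMeasurable[ℱ l] (Sn μ ℱ A l) := by
  have h1 := Sw_meas (μ := μ) hA 0 (fun k _ => if 0 ≤ k then (1 : ℝ) else 0) (fun k => stronglyMeasurable_const) l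
  rw [zero_add] at h1
  have h2 : Sn μ ℱ A l = Sw μ ℱ A 0 (fun k _ => if 0 ≤ k then 1 else 0) l := by
    funext ω
    rw [← Sn_Sw l 0 (Nat.zero_le _)]
    simp [Sn]
  rw [h2]
  exact h1

lemma wH_meas (hA : ∀ n, MeasurableSet[ℱ n] (A n)) (B : ℝ) (X H l : ℕ) : StronglyMeasurable[ℱ l] (wH μ ℱ A B X H l) := by
  have h1 : wH μ ℱ A B X H l = ∑ x ∈ st X H l, fun ω => 2 * clp B (Sn μ ℱ A l ω - Sn μ ℱ A x ω) := by
    funext ω
    unfold wH
    rw [Finset.sum_apply]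
  rw [h1]
  refine Finset.stronglyMeasurable_sum _ fun x hx => ?_
  have hx' := (Finset.mem_filter.1 hx).2.1
  have h2 : StronglyMeasurable[ℱ l] (Sn μ ℱ A x) := (Sn_meas hA x).mono (ℱ.mono hx')
  have h3 : StronglyMeasurable[ℱ l] (fun ω => Sn μ ℱ A l ω - Sn μ ℱ A x ω) :=
    @StronglyMeasurable.sub _ _ _ _ (ℱ l) _ _ _ (Sn_meas hA l) h2
  exact ((clp_cont B).comp_stronglyMeasurable h3).const_mul 2

lemma wH_abs {B : ℝ} (hB : 0 ≤ B) (X H l : ℕ) (ω : Ω) : |wH μ ℱ A B X H l ω| ≤ 2 * H * B := by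
  unfold wH
  refine (Finset.abs_sum_le_sum_abs _ _).trans ?_
  have h1 : ∀ x ∈ st X H l, |2 * clp B (Sn μ ℱ A l ω - Sn μ ℱ A x ω)| ≤ 2 * B := by
    intro x _
    rw [abs_mul, abs_of_pos (show (0 : ℝ) < 2 by norm_num)]
    exact mul_le_mul_of_nonneg_left (clp_abs hB _) (by norm_num)
  refine (Finset.sum_le_sum h1).trans ?_
  rw [Finset.sum_const, nsmul_eq_mul]
  have h2 : ((st X H l).card : ℝ) ≤ H := by exact_mod_cast st_card X H l
  have h3 := mul_le_mul_of_nonneg_right h2 (show 0 ≤ 2 * B by linarith)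
  linarith

/-- the bound for the increments -/
noncomputable def BH (X H : ℕ) : ℝ := √(12 * (H : ℝ) * Real.log X)

lemma Sn_tail (hA : ∀ n, MeasurableSet[ℱ n] (A n)) {X H l x : ℕ} (hH : 0 < H) (hX : 1 < X) (hx : x ≤ l) (hl : l < x + H) :
    μ.real {ω | BH X H ≤ |Sn μ ℱ A l ω - Sn μ ℱ A x ω|} ≤ 2 * ((X : ℝ) ^ 6)⁻¹ := by
  have hH' : (0 : ℝ) < H := by exact_mod_cast hH
  have hX' : (1 : ℝ) < X := by exact_mod_cast hX
  have hL : 0 < Real.log X := Real.log_pos hX'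
  have hc : ∑ k ∈ Finset.range l, (if x ≤ k then (1 : ℝ) else 0) ^ 2 ≤ H := by
    have h1 : ∀ k ∈ Finset.range l, (if x ≤ k then (1 : ℝ) else 0) ^ 2 = if x ≤ k then (1 : ℝ) else 0 := by
      intro k _
      split_ifs <;> norm_num
    rw [Finset.sum_congr rfl h1, Finset.sum_boole]
    have h2 : (Finset.range l).filter (fun k => x ≤ k) = Finset.Ico x l := by
      ext k
      simp only [Finset.mem_Ico, Finset.mem_filter, Finset.mem_range]
      tauto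
    rw [h2, Nat.card_Ico]
    exact_mod_cast (by omega : l - x ≤ H)
  have h1 := Sx_tail (μ := μ) hA 0 (fun k _ => if x ≤ k then (1 : ℝ) else 0) (fun k => stronglyMeasurable_const)
    (fun k => if x ≤ k then (1 : ℝ) else 0) (fun k => by split_ifs <;> norm_num) (fun k ω => by
      show |if x ≤ k then (1 : ℝ) else 0| ≤ _
      split_ifs <;> simp) l (v := (H : ℝ)) hH' hc (lam := BH X H) (Real.sqrt_nonneg _)
  simp_rw [← Sn_Sw (μ := μ) (ℱ := ℱ) (A := A) l x hx] at h1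
  refine h1.trans (le_of_eq ?_)
  rw [← exp_six (by omega : 0 < X) 6]
  congr 2
  unfold BH
  rw [Real.sq_sqrt (by positivity)]
  push_cast
  field_simp
  ring

lemma crossH_tail (hA : ∀ n, MeasurableSet[ℱ n] (A n)) {B : ℝ} (hB : 0 < B) {X H : ℕ} (hX : 0 < X) (hH : 0 < H) (hHX : H ≤ X) {lam : ℝ} (hlam : 0 ≤ lam) :
    μ.real {ω | lam ≤ |Sw μ ℱ A 0 (wH μ ℱ A B X H) (X + H) ω|} ≤ 2 * Real.exp (-(lam ^ 2 / (16 * (H : ℝ) ^ 2 * B ^ 2 * X))) := by
  have hX' : (0 : ℝ) < X := by exact_mod_cast hX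
  have hH' : (0 : ℝ) < H := by exact_mod_cast hH
  have hHX' : (H : ℝ) ≤ X := by exact_mod_cast hHX
  have h1 := Sx_tail (μ := μ) hA 0 (wH μ ℱ A B X H) (fun k => by
      rw [zero_add]
      exact wH_meas hA B X H k)
    (fun _ => 2 * H * B) (fun _ => by positivity) (fun k ω => wH_abs hB.le X H k ω) (X + H) (v := 8 * (H : ℝ) ^ 2 * B ^ 2 * X) (by positivity)
    (by
      rw [Finset.sum_const, Finset.card_range, nsmul_eq_mul]
      push_cast
      have h2 : 0 ≤ 4 * (H : ℝ) ^ 2 * B ^ 2 := by positivity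
      have h3 := mul_le_mul_of_nonneg_right (show (X : ℝ) + H ≤ 2 * X by linarith) h2
      calc ((X : ℝ) + H) * (2 * H * B) ^ 2 = (X + H) * (4 * (H : ℝ) ^ 2 * B ^ 2) := by ring
        _ ≤ _ := h3
        _ = _ := by ring) hlam
  refine h1.trans (le_of_eq ?_)
  congr 3
  ring

/-- the exceptional sets -/
def FF1 (μ : Measure Ω) (ℱ : Filtration ℕ m0) (A : ℕ → Set Ω) (X : ℕ) : Set Ω :=
  ⋃ H ∈ Finset.Icc 1 X, ⋃ l ∈ Finset.range (2 * X), ⋃ x ∈ (Finset.range (2 * X)).filter (fun x => x ≤ l ∧ l < x + H),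
    {ω | BH X H ≤ |Sn μ ℱ A l ω - Sn μ ℱ A x ω|}

/-- the exceptional sets -/
def FF2 (μ : Measure Ω) (ℱ : Filtration ℕ m0) (A : ℕ → Set Ω) (ε : ℝ) (X : ℕ) : Set Ω :=
  ⋃ H ∈ (Finset.Icc 1 X).filter (fun H : ℕ => (H : ℝ) ≤ X / Real.log X ^ 5),
    {ω | ε * ((H : ℝ) * X / Real.log X) ≤ |Sw μ ℱ A 0 (wH μ ℱ A (BH X H) X H) (X + H) ω|}

lemma FF1_le (hA : ∀ n, MeasurableSet[ℱ n] (A n)) {X : ℕ} (hX : 1 < X) : μ.real (FF1 μ ℱ A X) ≤ 8 * ((X : ℝ) ^ 3)⁻¹ := by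
  have hX' : (1 : ℝ) < X := by exact_mod_cast hX
  unfold FF1
  refine (measureReal_biUnion_finset_le _ _).trans ?_
  have h1 : ∀ H ∈ Finset.Icc 1 X, μ.real (⋃ l ∈ Finset.range (2 * X), ⋃ x ∈ (Finset.range (2 * X)).filter (fun x => x ≤ l ∧ l < x + H),
      {ω | BH X H ≤ |Sn μ ℱ A l ω - Sn μ ℱ A x ω|}) ≤ (2 * X : ℝ) * ((2 * X) * (2 * ((X : ℝ) ^ 6)⁻¹)) := by
    intro H hH
    obtain ⟨hH1, hH2⟩ := Finset.mem_Icc.1 hH
    refine (measureReal_biUnion_finset_le _ _).trans ?_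
    have h2 : ∀ l ∈ Finset.range (2 * X), μ.real (⋃ x ∈ (Finset.range (2 * X)).filter (fun x => x ≤ l ∧ l < x + H),
        {ω | BH X H ≤ |Sn μ ℱ A l ω - Sn μ ℱ A x ω|}) ≤ (2 * X : ℝ) * (2 * ((X : ℝ) ^ 6)⁻¹) := by
      intro l _
      refine (measureReal_biUnion_finset_le _ _).trans ?_
      refine (Finset.sum_le_sum fun x hx => Sn_tail hA (by omega) hX (Finset.mem_filter.1 hx).2.1 (Finset.mem_filter.1 hx).2.2).trans ?_
      rw [Finset.sum_const, nsmul_eq_mul]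
      apply mul_le_mul_of_nonneg_right _ (by positivity)
      have := Finset.card_filter_le (Finset.range (2 * X)) (fun x => x ≤ l ∧ l < x + H)
      rw [Finset.card_range] at this
      exact_mod_cast this
    refine (Finset.sum_le_sum h2).trans ?_
    rw [Finset.sum_const, Finset.card_range, nsmul_eq_mul]
    push_cast
    exact le_rfl
  refine (Finset.sum_le_sum h1).trans ?_
  rw [Finset.sum_const, Nat.card_Icc, nsmul_eq_mul, Nat.add_sub_cancel]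
  apply le_of_eq
  field_simp
  ring

lemma FF2_le (hA : ∀ n, MeasurableSet[ℱ n] (A n)) {ε : ℝ} (hε : 0 < ε) : ∀ᶠ X : ℕ in atTop, μ.real (FF2 μ ℱ A ε X) ≤ 2 * ((X : ℝ) ^ 3)⁻¹ := by
  filter_upwards [ev_log 1, ev_log (768 / ε ^ 2), eventually_gt_atTop 1] with X g1 g2 g3
  have hX' : (1 : ℝ) < X := by exact_mod_cast g3
  set L := Real.log (X : ℝ) with hL
  have hL0 : 0 < L := by linarith
  unfold FF2
  refine (measureReal_biUnion_finset_le _ _).trans ?_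
  have h1 : ∀ H ∈ (Finset.Icc 1 X).filter (fun H : ℕ => (H : ℝ) ≤ X / Real.log X ^ 5),
      μ.real {ω | ε * ((H : ℝ) * X / Real.log X) ≤ |Sw μ ℱ A 0 (wH μ ℱ A (BH X H) X H) (X + H) ω|} ≤ 2 * ((X : ℝ) ^ 4)⁻¹ := by
    intro H hH
    obtain ⟨hH0, hH3⟩ := Finset.mem_filter.1 hH
    obtain ⟨hH1, hH2⟩ := Finset.mem_Icc.1 hH0
    have hH' : (0 : ℝ) < H := by exact_mod_cast (by omega : 0 < H)
    have hB : 0 < BH X H := by
      unfold BH
      apply Real.sqrt_pos.2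
      rw [← hL]
      positivity
    have h2 := crossH_tail (μ := μ) (ℱ := ℱ) (A := A) hA hB (X := X) (H := H) (by omega) (by omega) hH2 (lam := ε * ((H : ℝ) * X / L)) (by positivity)
    refine h2.trans ?_
    rw [← exp_six (by omega : 0 < X) 4, ← hL]
    apply mul_le_mul_of_nonneg_left _ (by norm_num)
    rw [Real.exp_le_exp, neg_le_neg_iff]
    unfold BH
    rw [Real.sq_sqrt (by rw [← hL]; positivity), ← hL]
    have h3 : (ε * ((H : ℝ) * X / L)) ^ 2 / (16 * (H : ℝ) ^ 2 * (12 * (H : ℝ) * L) * X) = ε ^ 2 * X / (192 * H * L ^ 3) := by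
      field_simp
      norm_num
    rw [h3, le_div_iff₀ (by positivity)]
    rw [div_le_iff₀ (by positivity)] at g2
    rw [← hL, le_div_iff₀ (by positivity)] at hH3
    push_cast
    have h4 : ε ^ 2 * (H * L ^ 5) ≤ ε ^ 2 * X := mul_le_mul_of_nonneg_left hH3 (by positivity)
    have h5 : 768 * (H * L ^ 4) ≤ (L * ε ^ 2) * (H * L ^ 4) := mul_le_mul_of_nonneg_right g2 (by positivity)
    calc (4 : ℝ) * L * (192 * H * L ^ 3) = 768 * (H * L ^ 4) := by ring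
      _ ≤ (L * ε ^ 2) * (H * L ^ 4) := h5
      _ = ε ^ 2 * (H * L ^ 5) := by ring
      _ ≤ _ := h4
  refine (Finset.sum_le_sum h1).trans ?_
  rw [Finset.sum_const, nsmul_eq_mul]
  have h2 : (((Finset.Icc 1 X).filter (fun H : ℕ => (H : ℝ) ≤ X / Real.log X ^ 5)).card : ℝ) ≤ X := by
    have := (Finset.card_filter_le (Finset.Icc 1 X) (fun H : ℕ => (H : ℝ) ≤ X / Real.log X ^ 5))
    rw [Nat.card_Icc, Nat.add_sub_cancel] at this
    exact_mod_cast this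
  refine (mul_le_mul_of_nonneg_right h2 (by positivity)).trans (le_of_eq ?_)
  field_simp

lemma main_eq (f : ℕ → ℝ) (X H : ℕ) : ∑ x ∈ Finset.range X, (f (x + H) - f x) =
    ∑ i ∈ Finset.range H, f (X + i) - ∑ i ∈ Finset.range H, f i := by
  have h1 := Finset.sum_range_add f X H
  have h2 := Finset.sum_range_add f H X
  rw [Finset.sum_sub_distrib]
  have h3 : ∑ x ∈ Finset.range X, f (x + H) = ∑ x ∈ Finset.range X, f (H + x) := Finset.sum_congr rfl fun x _ => by rw [add_comm]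
  rw [h3]
  rw [add_comm X H] at h1
  linarith

lemma main_bound {f : ℕ → ℝ} (hf : Monotone f) (hf0 : ∀ m, 0 ≤ f m) (hf1 : ∀ m, f m ≤ m)
    (hl : Tendsto (fun x : ℕ => f x * Real.log x / x) atTop (𝓝 1)) {ε : ℝ} (hε : 0 < ε) :
    ∀ᶠ X : ℕ in atTop, ∀ H : ℕ, (H : ℝ) ≤ X / Real.log X ^ 5 →
      |∑ x ∈ Finset.range X, (f (x + H) - f x) - (H : ℝ) * X / Real.log X| ≤ ε * ((H : ℝ) * X / Real.log X) := by
  set δ : ℝ := min ε 1 / 4 with hδ
  have hδ0 : 0 < δ := by positivity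
  have hδ1 : 4 * δ ≤ ε := by rw [hδ]; linarith [min_le_left ε 1]
  have hδ2 : 4 * δ ≤ 1 := by rw [hδ]; linarith [min_le_right ε 1]
  obtain ⟨n₀, hn₀⟩ := eventually_atTop.1 ((hl.eventually (eventually_lt_nhds (show (1 : ℝ) < 1 + δ by linarith))).and
    ((hl.eventually (eventually_gt_nhds (show 1 - δ < (1 : ℝ) by linarith))).and (eventually_gt_atTop 1)))
  filter_upwards [eventually_ge_atTop n₀, ev_log (1 / δ), ev_log 1] with X g1 g2 g3 H hH
  obtain ⟨a1, a2, a3⟩ := hn₀ X g1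
  obtain ⟨b1, _, b3⟩ := hn₀ (X + H) (by omega)
  have hX : (1 : ℝ) < X := by exact_mod_cast a3
  have hXH : (X : ℝ) ≤ ((X + H : ℕ) : ℝ) := by push_cast; linarith [Nat.cast_nonneg (α := ℝ) H]
  have hXH0 : (0 : ℝ) < ((X + H : ℕ) : ℝ) := by linarith
  set L := Real.log (X : ℝ) with hL
  have hL0 : 0 < L := by linarith
  have hLL : L ≤ Real.log ((X + H : ℕ) : ℝ) := Real.log_le_log (by linarith) hXH
  have hH' : (0 : ℝ) ≤ H := Nat.cast_nonneg H
  rw [div_le_iff₀ hδ0] at g2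
  have hHs : (H : ℝ) ≤ δ * (X / L) := by
    refine hH.trans ?_
    have h1 : (X : ℝ) / L ^ 5 ≤ X / L ^ 2 := by
      apply div_le_div_of_nonneg_left (by positivity) (by positivity)
      exact pow_le_pow_right₀ g3 (by norm_num)
    refine h1.trans ?_
    have h2 : δ * ((X : ℝ) / L) = (L * δ) * (X / L ^ 2) := by field_simp
    rw [h2]
    have h3 : 0 ≤ (X : ℝ) / L ^ 2 := by positivity
    calc (X : ℝ) / L ^ 2 = 1 * (X / L ^ 2) := (one_mul _).symm
      _ ≤ _ := mul_le_mul_of_nonneg_right g2 h3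
  have hHX : (H : ℝ) ≤ δ * X := by
    refine hHs.trans (mul_le_mul_of_nonneg_left ?_ hδ0.le)
    exact div_le_self (by linarith) g3
  rw [main_eq]
  have hup : ∑ i ∈ Finset.range H, f (X + i) ≤ H * ((1 + δ) * (1 + δ) * (X / L)) := by
    have h1 : ∀ i ∈ Finset.range H, f (X + i) ≤ (1 + δ) * (1 + δ) * (X / L) := by
      intro i hi
      have hi' := Finset.mem_range.1 hi
      refine (hf (show X + i ≤ X + H by omega)).trans ?_
      rw [div_lt_iff₀ hXH0] at b1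
      have hll : 0 < Real.log ((X + H : ℕ) : ℝ) := by linarith
      have h2 : f (X + H) ≤ (1 + δ) * ((X + H : ℕ) : ℝ) / Real.log ((X + H : ℕ) : ℝ) := by
        rw [le_div_iff₀ hll]
        exact b1.le
      refine h2.trans ?_
      have h3 : (1 + δ) * ((X + H : ℕ) : ℝ) / Real.log ((X + H : ℕ) : ℝ) ≤ (1 + δ) * ((X + H : ℕ) : ℝ) / L :=
        div_le_div_of_nonneg_left (by positivity) hL0 hLL
      refine h3.trans ?_
      rw [div_le_iff₀ hL0]
      have h4 : (1 + δ) * (1 + δ) * ((X : ℝ) / L) * L = (1 + δ) * ((1 + δ) * X) := by field_simp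
      rw [h4]
      apply mul_le_mul_of_nonneg_left _ (by linarith)
      push_cast
      linarith
    refine (Finset.sum_le_sum h1).trans ?_
    rw [Finset.sum_const, Finset.card_range, nsmul_eq_mul]
  have hlow : H * ((1 - δ) * (X / L)) ≤ ∑ i ∈ Finset.range H, f (X + i) := by
    have h1 : ∀ i ∈ Finset.range H, (1 - δ) * (X / L) ≤ f (X + i) := by
      intro i _
      refine le_trans ?_ (hf (show X ≤ X + i by omega))
      rw [lt_div_iff₀ (by linarith)] at a2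
      have h2 : (1 - δ) * ((X : ℝ) / L) = (1 - δ) * X / L := by ring
      rw [h2, div_le_iff₀ hL0]
      exact a2.le
    refine le_trans (le_of_eq ?_) (Finset.sum_le_sum h1)
    rw [Finset.sum_const, Finset.card_range, nsmul_eq_mul]
  have hsm : ∑ i ∈ Finset.range H, f i ≤ H * (δ * (X / L)) := by
    have h1 : ∀ i ∈ Finset.range H, f i ≤ δ * (X / L) := by
      intro i hi
      have hi' : (i : ℝ) ≤ H := by exact_mod_cast (Finset.mem_range.1 hi).le
      exact (hf1 i).trans (hi'.trans hHs)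
    refine (Finset.sum_le_sum h1).trans ?_
    rw [Finset.sum_const, Finset.card_range, nsmul_eq_mul]
  have hsm0 : 0 ≤ ∑ i ∈ Finset.range H, f i := Finset.sum_nonneg fun i _ => hf0 i
  have e0 : (H : ℝ) * X / L = H * (X / L) := by ring
  rw [e0]
  have hp : 0 ≤ (H : ℝ) * (X / L) := by positivity
  have e1 : (H : ℝ) * ((1 + δ) * (1 + δ) * (X / L)) = (1 + δ) * (1 + δ) * (H * (X / L)) := by ring
  have e2 : (H : ℝ) * ((1 - δ) * (X / L)) = (1 - δ) * (H * (X / L)) := by ring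
  have e3 : (H : ℝ) * (δ * (X / L)) = δ * (H * (X / L)) := by ring
  rw [e1] at hup
  rw [e2] at hlow
  rw [e3] at hsm
  have e4 : (1 + δ) * (1 + δ) * ((H : ℝ) * (X / L)) ≤ (1 + 3 * δ) * (H * (X / L)) :=
    mul_le_mul_of_nonneg_right (by nlinarith) hp
  have e5 : 4 * δ * ((H : ℝ) * (X / L)) ≤ ε * (H * (X / L)) := mul_le_mul_of_nonneg_right hδ1 hp
  have e6 : 0 ≤ δ * ((H : ℝ) * (X / L)) := by positivity
  rw [abs_le]
  constructor <;> linarith

/-- the mean square law -/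
theorem short_law (hA : ∀ n, MeasurableSet[ℱ n] (A n)) (W : ℕ) (hW : 0 < W)
    (hcop : ∀ n, ¬ Nat.Coprime n W → A n = ∅)
    (hd : ∀ᵐ ω ∂μ, Tendsto (fun n : ℕ => dens μ ℱ A n ω * Real.log n)
      (atTop ⊓ 𝓟 {n : ℕ | Nat.Coprime (n + 1) W}) (𝓝 ((W : ℝ) / Nat.totient W))) :
    ∀ᵐ ω ∂μ, ∀ ε : ℝ, 0 < ε → ∀ᶠ X : ℕ in atTop, ∀ H : ℕ, 1 ≤ H → (H : ℝ) ≤ X / Real.log X ^ 5 →
      |VH μ ℱ A X H ω - (H : ℝ) * X / Real.log X| ≤ ε * ((H : ℝ) * X / Real.log X) := by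
  have h01 : ∀ᵐ ω ∂μ, ∀ n, 0 ≤ dens μ ℱ A n ω ∧ dens μ ℱ A n ω ≤ 1 := ae_all_iff.2 fun n => dens01 hA n
  have k1 := bc_real (μ := μ) (s := fun x => FF1 μ ℱ A x) (sum_inv3 8) (by
    filter_upwards [eventually_gt_atTop 1] with x hx
    exact FF1_le hA hx)
  have k2 : ∀ᵐ ω ∂μ, ∀ n : ℕ, ∀ᶠ x : ℕ in atTop, ω ∉ FF2 μ ℱ A (1 / (n + 1)) x := by
    rw [ae_all_iff]
    intro n
    exact bc_real (μ := μ) (sum_inv3 2) (FF2_le hA (by positivity))
  filter_upwards [h01, dens_profile (μ := μ) (ℱ := ℱ) hA W hW hcop hd, N_lim (μ := μ) hA W hW hcop hd, D_bound (μ := μ) (ℱ := ℱ) hA,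
    k1, k2] with ω g1 g2 g3 g4 g5 g6 ε hε
  have h1 := X2_lim hW g1 g2 g3 g4
  have hxi : ∀ k, 0 ≤ xi μ ℱ A k ω ^ 2 ∧ xi μ ℱ A k ω ^ 2 ≤ 1 := by
    intro k
    refine ⟨sq_nonneg _, ?_⟩
    rw [sq_le_one_iff_abs_le_one, abs_le]
    unfold xi
    constructor <;> linarith [In_nonneg (A := A) (k + 1) ω, In_le (A := A) (k + 1) ω, (g1 k).1, (g1 k).2]
  have hmono : Monotone (fun m => X2 μ ℱ A m ω) := by
    apply monotone_nat_of_le_succ
    intro m
    show X2 μ ℱ A m ω ≤ X2 μ ℱ A (m + 1) ω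
    unfold X2
    rw [Finset.sum_range_succ]
    linarith [(hxi m).1]
  have hle : ∀ m, X2 μ ℱ A m ω ≤ m := by
    intro m
    unfold X2
    refine (Finset.sum_le_sum fun k _ => (hxi k).2).trans ?_
    simp
  have hnn : ∀ m, 0 ≤ X2 μ ℱ A m ω := fun m => Finset.sum_nonneg fun k _ => (hxi k).1
  obtain ⟨n, hn⟩ := exists_nat_one_div_lt (half_pos hε)
  filter_upwards [main_bound hmono hnn hle h1 (half_pos hε), g5, g6 n, ev_log 1, eventually_gt_atTop 1] with X f1 f2 f3 f4 f5 H hH1 hH2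
  have hX : (1 : ℝ) < X := by exact_mod_cast f5
  have hL : 0 < Real.log (X : ℝ) := by linarith
  have hHX : H ≤ X := by
    have h2 : (H : ℝ) ≤ X := hH2.trans (div_le_self (by linarith) (one_le_pow₀ f4))
    exact_mod_cast h2
  have h2 := f1 H hH2
  have h3 : ∑ l ∈ Finset.range (X + H), (∑ x ∈ st X H l, 2 * (Sn μ ℱ A l ω - Sn μ ℱ A x ω)) * xi μ ℱ A l ω =
      Sw μ ℱ A 0 (wH μ ℱ A (BH X H) X H) (X + H) ω := by
    unfold Sw
    refine Finset.sum_congr rfl fun l hl => ?_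
    have hl' := Finset.mem_range.1 hl
    rw [zero_add]
    congr 1
    unfold wH
    refine Finset.sum_congr rfl fun x hx => ?_
    obtain ⟨i1, i2, i3⟩ := Finset.mem_filter.1 hx
    have i1' := Finset.mem_range.1 i1
    rw [clp_eq]
    by_contra hcon
    push Not at hcon
    apply f2
    unfold FF1
    simp only [mem_iUnion, Finset.mem_Icc, Finset.mem_range, Finset.mem_filter]
    exact ⟨H, ⟨hH1, hHX⟩, l, by omega, x, ⟨by omega, i2, i3⟩, hcon.le⟩
  have h4 : |Sw μ ℱ A 0 (wH μ ℱ A (BH X H) X H) (X + H) ω| ≤ ε / 2 * ((H : ℝ) * X / Real.log X) := by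
    by_contra hcon
    push Not at hcon
    apply f3
    unfold FF2
    simp only [mem_iUnion, Finset.mem_filter, Finset.mem_Icc]
    refine ⟨H, ⟨⟨hH1, hHX⟩, hH2⟩, ?_⟩
    show 1 / ((n : ℝ) + 1) * ((H : ℝ) * X / Real.log X) ≤ _
    refine le_trans ?_ hcon.le
    exact mul_le_mul_of_nonneg_right hn.le (by positivity)
  rw [VH_eq, h3]
  have e : ∑ x ∈ Finset.range X, (X2 μ ℱ A (x + H) ω - X2 μ ℱ A x ω) + Sw μ ℱ A 0 (wH μ ℱ A (BH X H) X H) (X + H) ω - (H : ℝ) * X / Real.log X =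
      (∑ x ∈ Finset.range X, (X2 μ ℱ A (x + H) ω - X2 μ ℱ A x ω) - (H : ℝ) * X / Real.log X) + Sw μ ℱ A 0 (wH μ ℱ A (BH X H) X H) (X + H) ω := by ring
  rw [e]
  refine (abs_add_le _ _).trans ?_
  linarith

end Pool.Agent.R528.RM
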