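import Mathlib
import Pool.Agent.R528.RM.MaxGap
import Pool.Agent.R528.RM.NoRun
import Pool.Agent.R528.RM.Final

set_option autoImplicit false
set_option linter.unusedSectionVars false

/-! # The zero-one law for admissible functions -/

open MeasureTheory Filter Set
open scoped ENNReal Topology

namespace Pool.Agent.R528.RM

variable {Ω : Type} {m0 : MeasurableSpace Ω} {μ : Measure Ω} [IsProbabilityMeasure μ]
  {ℱ : Filtration ℕ m0} {A : ℕ → Set Ω}

/-- the conditional density at `n` is not within `K` of `log n` (in terms of reciprocals) -/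
def VK (μ : Measure Ω) (ℱ : Filtration ℕ m0) (A : ℕ → Set Ω) (K : ℝ) (n : ℕ) : Set Ω :=
  {ω | ¬ |(dens μ ℱ A n ω)⁻¹ - Real.log n| ≤ K}

lemma VK_meas (K : ℝ) (n : ℕ) : MeasurableSet[ℱ n] (VK μ ℱ A K n) :=
  meas_aux (ℱ n) _ (dens_meas n).measurable _ _

lemma VK_bounds {K a b : ℝ} (ha : K < a) {n : ℕ} (h1 : a ≤ Real.log n) (h2 : Real.log n ≤ b)
    {ω : Ω} (hω : ω ∉ VK μ ℱ A K n) :
    1 / (b + K) ≤ dens μ ℱ A n ω ∧ dens μ ℱ A n ω ≤ 1 / (a - K) := by
  simp only [VK, mem_ofPred_eq, not_not] at hω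
  have h5 := abs_le.1 hω
  obtain ⟨x, hx⟩ : ∃ x, x = dens μ ℱ A n ω := ⟨_, rfl⟩
  rw [← hx] at h5 ⊢
  have h6 : a - K ≤ x⁻¹ := by linarith
  have h7 : x⁻¹ ≤ b + K := by linarith
  have h8 : 0 < x⁻¹ := by linarith
  have h9 : 0 < x := inv_pos.1 h8
  constructor
  · rw [one_div, inv_le_comm₀ (by linarith) h9]
    exact h7
  · rw [one_div, le_inv_comm₀ h9 (by linarith)]
    exact h6

/-- the terms of the series -/
noncomputable def tm (h : ℕ → ℝ) (n : ℕ) : ℝ := Real.exp (-(h n / Real.log n)) / Real.log n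

/-- the number of integers which have to be absent -/
noncomputable def gn (h : ℕ → ℝ) (n : ℕ) : ℕ := ⌈h n⌉₊ - 1

lemma tm_nonneg (h : ℕ → ℝ) (n : ℕ) : 0 ≤ tm h n := by
  unfold tm
  exact div_nonneg (Real.exp_pos _).le (Real.log_natCast_nonneg n)

/-- windows of length `4 log²` do not change the logarithm much -/
lemma log_window4 : ∀ᶠ x : ℕ in atTop, 2 ≤ x ∧ ∀ n, x ≤ n → (n : ℝ) ≤ x + 5 * Real.log x ^ 2 →
    Real.log x ≤ Real.log n ∧ Real.log n ≤ Real.log x + 1 := by
  have h1 : ∀ᶠ x : ℝ in atTop, 5 * Real.log x ^ 2 ≤ x := by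
    have h3 := (Real.isLittleO_pow_log_id_atTop (n := 2)).def (show (0 : ℝ) < 1 / 5 by norm_num)
    filter_upwards [h3, eventually_ge_atTop 1] with x h3 h6
    rw [Real.norm_of_nonneg (by positivity), id, Real.norm_of_nonneg (by linarith)] at h3
    linarith
  filter_upwards [tendsto_natCast_atTop_atTop.eventually h1, eventually_ge_atTop 2] with x h2 hx
  refine ⟨hx, fun n hn1 hn2 => ?_⟩
  have hx' : (2 : ℝ) ≤ x := by exact_mod_cast hx
  have h3 : (x : ℝ) ≤ n := by exact_mod_cast hn1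
  refine ⟨Real.log_le_log (by linarith) h3, ?_⟩
  have h6 : Real.log n ≤ Real.log (2 * x) := Real.log_le_log (by linarith) (by linarith)
  rw [Real.log_mul (by norm_num) (by linarith)] at h6
  have := Real.log_two_lt_d9
  linarith

/-- **convergence**: only finitely many members are followed by a long run -/
theorem zero_fin (hA : ∀ n, MeasurableSet[ℱ n] (A n)) {K : ℝ} (hK : 0 ≤ K) (h : ℕ → ℝ) (hs : Summable (tm h)) :
    ∀ᵐ ω ∂μ, (∃ n₀ : ℕ, ∀ n, n₀ ≤ n → ω ∉ VK μ ℱ A K n) → ∃ N : ℕ, ∀ k, N ≤ k → ω ∈ A k →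
      ∃ a, k < a ∧ (a : ℝ) < k + h k ∧ ω ∈ A a := by
  set V := VK μ ℱ A K with hV
  set g : ℕ → ℕ := fun k => min (gn h (k + 1)) ⌈3 * Real.log ((k + 1 : ℕ) : ℝ) ^ 2⌉₊ with hg
  set C : ℝ := 2 * Real.exp (4 * (1 + K)) * Real.exp 1 with hC
  have hC0 : 0 < C := by positivity
  have hprob : ∀ᶠ k : ℕ in atTop, μ.real (FF A V k (g k)) ≤ C * (tm h (k + 1) + 1 / ((k + 1 : ℕ) : ℝ) ^ 2) := by
    have hlog : ∀ᶠ k : ℕ in atTop, 4 * (K + 2) ≤ Real.log k := tendsto_log.eventually_ge_atTop _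
    filter_upwards [log_window4, hlog, eventually_ge_atTop 2] with k hwin hL hk2
    obtain ⟨_, hwin⟩ := hwin
    have hk0 : (2 : ℝ) ≤ k := by exact_mod_cast hk2
    obtain ⟨L, hLd⟩ : ∃ L, L = Real.log (k : ℝ) := ⟨_, rfl⟩
    obtain ⟨M, hM⟩ : ∃ M, M = Real.log ((k + 1 : ℕ) : ℝ) := ⟨_, rfl⟩
    rw [← hLd] at hL hwin
    have hLM : L ≤ M ∧ M ≤ L + 1 := by
      rw [hLd, hM]
      push_cast
      constructor
      · exact Real.log_le_log (by linarith) (by linarith)
      · have h6 : Real.log ((k : ℝ) + 1) ≤ Real.log (2 * k) := Real.log_le_log (by linarith) (by linarith)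
        rw [Real.log_mul (by norm_num) (by linarith)] at h6
        have := Real.log_two_lt_d9
        linarith
    have hgle : (g k : ℝ) ≤ 3 * M ^ 2 + 1 := by
      have h1 : g k ≤ ⌈3 * M ^ 2⌉₊ := by rw [hM]; exact min_le_right _ _
      have h2 : (g k : ℝ) ≤ ⌈3 * M ^ 2⌉₊ := by exact_mod_cast h1
      exact h2.trans (Nat.ceil_lt_add_one (by positivity)).le
    have hb := FF_le (μ := μ) hA (V := V) (fun n => VK_meas K n) (l := 1 / (L + 1 + K)) (u := 1 / (L - K))
      (by rw [div_le_one (by linarith)]; linarith) (by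
        have : 0 < L - K := by linarith
        positivity) k (g k) (by
        intro n hn1 hn2 ω hω
        have h1 : (n : ℝ) ≤ k + 5 * L ^ 2 := by
          have h2 : (n : ℝ) ≤ k + g k := by exact_mod_cast hn2
          have h3 : 3 * M ^ 2 + 1 ≤ 5 * L ^ 2 := by nlinarith [hLM.1, hLM.2]
          linarith
        obtain ⟨h2, h3⟩ := hwin n hn1 h1
        exact VK_bounds (by linarith) h2 h3 hω) (g k) le_rfl
    refine hb.trans ?_
    have hM1 : 8 ≤ M := by linarith [hLM.1]
    have h1 : 1 / (L - K) ≤ 2 / M := by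
      rw [div_le_div_iff₀ (by linarith) (by linarith)]
      linarith [hLM.2]
    have h2 : (1 - 1 / (L + 1 + K)) ^ g k ≤ Real.exp (4 * (1 + K)) * Real.exp (-(g k / M)) := by
      have h3 : 1 - 1 / (L + 1 + K) ≤ Real.exp (-(1 / (L + 1 + K))) := by
        have := Real.add_one_le_exp (-(1 / (L + 1 + K)))
        linarith
      have h4 : (0 : ℝ) ≤ 1 - 1 / (L + 1 + K) := by
        rw [sub_nonneg, div_le_one (by linarith)]
        linarith
      refine (pow_le_pow_left₀ h4 h3 _).trans ?_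
      rw [← Real.exp_nat_mul, ← Real.exp_add]
      apply Real.exp_le_exp.2
      have h5 : 1 / M - (1 + K) / M ^ 2 ≤ 1 / (L + 1 + K) := by
        have h6 : 1 / (M + 1 + K) ≤ 1 / (L + 1 + K) := one_div_le_one_div_of_le (by linarith) (by linarith [hLM.1])
        refine le_trans ?_ h6
        rw [div_sub_div _ _ (by positivity) (by positivity), div_le_div_iff₀ (by positivity) (by linarith)]
        have h7 : 0 ≤ M * (1 + K) ^ 2 := by positivity
        nlinarith
      have h6 : (g k : ℝ) * (1 / M - (1 + K) / M ^ 2) ≤ g k * (1 / (L + 1 + K)) :=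
        mul_le_mul_of_nonneg_left h5 (Nat.cast_nonneg _)
      have h7 : (g k : ℝ) * ((1 + K) / M ^ 2) ≤ 4 * (1 + K) := by
        rw [mul_div_assoc', div_le_iff₀ (by positivity)]
        have h8 : 3 * M ^ 2 + 1 ≤ 4 * M ^ 2 := by nlinarith
        have h9 : (g k : ℝ) * (1 + K) ≤ (4 * M ^ 2) * (1 + K) := mul_le_mul_of_nonneg_right (hgle.trans h8) (by linarith)
        linarith
      have h8 : (g k : ℝ) * (1 / M - (1 + K) / M ^ 2) = g k / M - g k * ((1 + K) / M ^ 2) := by ring
      linarith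
    -- lower bound for `g / M`
    have h3 : Real.exp (-(g k / M)) ≤ Real.exp 1 * (Real.exp (-(h (k + 1) / M)) + Real.exp (-(3 * M))) := by
      rcases le_total (gn h (k + 1)) ⌈3 * M ^ 2⌉₊ with hc | hc
      · have e : g k = gn h (k + 1) := by
          simp only [hg]
          rw [hM] at hc
          exact min_eq_left hc
        have h4 : h (k + 1) - 1 ≤ gn h (k + 1) := by
          unfold gn
          rcases Nat.eq_zero_or_pos ⌈h (k + 1)⌉₊ with h0 | h0
          · rw [Nat.ceil_eq_zero] at h0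
            have : (0 : ℝ) ≤ ((⌈h (k + 1)⌉₊ - 1 : ℕ) : ℝ) := Nat.cast_nonneg _
            linarith
          · rw [Nat.cast_sub h0]
            have := Nat.le_ceil (h (k + 1))
            push_cast
            linarith
        have h5 : Real.exp (-(g k / M)) ≤ Real.exp 1 * Real.exp (-(h (k + 1) / M)) := by
          rw [← Real.exp_add, e]
          apply Real.exp_le_exp.2
          have h6 : (h (k + 1) - 1) / M ≤ gn h (k + 1) / M := div_le_div_of_nonneg_right h4 (by linarith)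
          have h7 : (h (k + 1) - 1) / M = h (k + 1) / M - 1 / M := by ring
          have h8 : 1 / M ≤ 1 := by
            rw [div_le_one (by linarith)]
            linarith
          linarith
        have h6 : 0 ≤ Real.exp 1 * Real.exp (-(3 * M)) := by positivity
        linarith
      · have e : g k = ⌈3 * M ^ 2⌉₊ := by
          simp only [hg]
          rw [hM] at hc ⊢
          exact min_eq_right hc
        have h4 : 3 * M ^ 2 ≤ (g k : ℝ) := by
          rw [e]
          exact Nat.le_ceil _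
        have h5 : Real.exp (-(g k / M)) ≤ Real.exp (-(3 * M)) := by
          apply Real.exp_le_exp.2
          rw [neg_le_neg_iff, le_div_iff₀ (by linarith)]
          linarith
        have h6 : Real.exp (-(3 * M)) ≤ Real.exp 1 * Real.exp (-(3 * M)) := by
          have := Real.add_one_le_exp (1 : ℝ)
          exact le_mul_of_one_le_left (Real.exp_pos _).le (by linarith)
        have h7 : 0 ≤ Real.exp 1 * Real.exp (-(h (k + 1) / M)) := by positivity
        linarith
    have h4 : Real.exp (-(3 * M)) / M ≤ 1 / ((k + 1 : ℕ) : ℝ) ^ 2 := by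
      have h5 : Real.exp (-(3 * M)) / M ≤ Real.exp (-(3 * M)) := div_le_self (Real.exp_pos _).le (by linarith)
      have h6 : Real.exp (-(3 * M)) ≤ Real.exp (-(2 * M)) := Real.exp_le_exp.2 (by linarith)
      have h7 : Real.exp (-(2 * M)) = 1 / ((k + 1 : ℕ) : ℝ) ^ 2 := by
        have hpos : (0 : ℝ) < ((k + 1 : ℕ) : ℝ) := by positivity
        rw [Real.exp_neg, show 2 * M = Real.log (((k + 1 : ℕ) : ℝ) ^ 2) by rw [Real.log_pow, hM]; norm_num,
          Real.exp_log (by positivity), one_div]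
      linarith
    have h5 : 0 ≤ 1 / (L - K) := by
      have : 0 < L - K := by linarith
      positivity
    have h6 : tm h (k + 1) = Real.exp (-(h (k + 1) / M)) / M := by
      unfold tm
      rw [hM]
    have h7 : (0 : ℝ) ≤ 1 - 1 / (L + 1 + K) := by
      rw [sub_nonneg, div_le_one (by linarith)]
      linarith
    calc 1 / (L - K) * (1 - 1 / (L + 1 + K)) ^ g k
        ≤ 2 / M * (Real.exp (4 * (1 + K)) * (Real.exp 1 * (Real.exp (-(h (k + 1) / M)) + Real.exp (-(3 * M))))) := by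
          apply mul_le_mul h1 _ (pow_nonneg h7 _) (by positivity)
          exact h2.trans (mul_le_mul_of_nonneg_left h3 (Real.exp_pos _).le)
      _ = C * (Real.exp (-(h (k + 1) / M)) / M + Real.exp (-(3 * M)) / M) := by
          rw [hC]; ring
      _ ≤ C * (tm h (k + 1) + 1 / ((k + 1 : ℕ) : ℝ) ^ 2) := by
          apply mul_le_mul_of_nonneg_left _ hC0.le
          rw [h6]
          linarith
  have hsum : ∑' k : ℕ, μ (FF A V k (g k)) ≠ ∞ := by
    have h1 : Summable (fun k : ℕ => C * (tm h (k + 1) + 1 / ((k + 1 : ℕ) : ℝ) ^ 2)) := by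
      apply Summable.mul_left
      apply Summable.add
      · exact (summable_nat_add_iff 1).2 hs
      · exact (summable_nat_add_iff (f := fun n : ℕ => 1 / (n : ℝ) ^ 2) 1).2 (Real.summable_one_div_nat_pow.2 (by norm_num))
    have h2 : Summable (fun k : ℕ => μ.real (FF A V k (g k))) := by
      refine Summable.of_norm_bounded_eventually_nat h1 ?_
      filter_upwards [hprob] with x hx
      rw [Real.norm_of_nonneg measureReal_nonneg]
      exact hx
    have h3 : ∑' k : ℕ, μ (FF A V k (g k)) = ENNReal.ofReal (∑' k : ℕ, μ.real (FF A V k (g k))) := by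
      rw [ENNReal.ofReal_tsum_of_nonneg (fun _ => measureReal_nonneg) h2]
      congr 1
      funext i
      exact (ofReal_measureReal (measure_ne_top _ _)).symm
    rw [h3]
    exact ENNReal.ofReal_ne_top
  filter_upwards [ae_eventually_notMem hsum] with ω hω hnV
  obtain ⟨n₀, hn₀⟩ := hnV
  obtain ⟨k₀, hk₀⟩ := eventually_atTop.1 hω
  refine ⟨max n₀ k₀ + 1, fun k hk hkA => ?_⟩
  obtain ⟨k', rfl⟩ : ∃ k', k = k' + 1 := ⟨k - 1, by omega⟩
  by_contra hcon
  push Not at hcon
  have h1 : n₀ ≤ k' := by have := le_max_left n₀ k₀; omega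
  have h2 : k₀ ≤ k' := by have := le_max_right n₀ k₀; omega
  apply hk₀ k' h2
  refine mem_FF hkA (fun n hn => hn₀ n (by omega)) _ ?_
  intro j hj1 hj2
  refine hcon _ (by omega) ?_
  have h3 : j ≤ gn h (k' + 1) := hj2.trans (min_le_left _ _)
  unfold gn at h3
  have h4 : j < ⌈h (k' + 1)⌉₊ := by omega
  rw [Nat.lt_ceil] at h4
  push_cast
  linarith

/-- the event of a block: some candidate is present and followed by its run -/
def DB (A : ℕ → Set Ω) (t : ℕ) (I : Finset ℕ) (G : ℕ → ℕ) : Set Ω :=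
  {ω | ∃ i ∈ I, ω ∈ A (t + i + 1) ∧ ∀ j < G i, ω ∉ A (t + i + 1 + j + 1)}

lemma DB_meas (hA : ∀ n, MeasurableSet[ℱ n] (A n)) (t W : ℕ) (I : Finset ℕ) (G : ℕ → ℕ)
    (hI : ∀ i ∈ I, i < W) (hG : ∀ i ∈ I, G i ≤ 3 * W) : MeasurableSet[ℱ (t + 4 * W)] (DB A t I G) := by
  have h1 : DB A t I G = ⋃ i ∈ I, (A (t + i + 1) ∩ ⋂ j ∈ Finset.range (G i), (A (t + i + 1 + j + 1))ᶜ) := by
    ext ω
    simp only [DB, mem_ofPred_eq, mem_iUnion, Finset.mem_range, mem_inter_iff, mem_iInter, mem_compl_iff,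
      exists_prop]
  rw [h1]
  refine Finset.measurableSet_biUnion _ fun i hi => ?_
  have h2 := hI i hi
  have h3 := hG i hi
  refine (ℱ.mono (by omega) _ (hA _)).inter (Finset.measurableSet_biInter _ fun j hj => ?_)
  have hj := Finset.mem_range.1 hj
  exact (ℱ.mono (by omega) _ (hA (t + i + 1 + j + 1))).compl

/-- the block lemma for varying lengths -/
theorem block2 (hA : ∀ n, MeasurableSet[ℱ n] (A n)) {V : ℕ → Set Ω}
    (hV : ∀ n, MeasurableSet[ℱ n] (V n)) {B : Set Ω} {t : ℕ} (hB : MeasurableSet[ℱ t] B)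
    {l u : ℝ} (hl0 : 0 ≤ l) (hu0 : 0 ≤ u) (hu1 : u ≤ 1) (W : ℕ) (I : Finset ℕ) (G : ℕ → ℕ)
    (hI : ∀ i ∈ I, i < W) (hG1 : ∀ i ∈ I, W ≤ G i) (hG3 : ∀ i ∈ I, G i ≤ 3 * W)
    (hlu : ∀ n, t ≤ n → n < t + 4 * W → ∀ ω, ω ∉ V n → l ≤ dens μ ℱ A n ω ∧ dens μ ℱ A n ω ≤ u)
    (hc : ∑ i ∈ I, l * (1 - u) ^ G i ≤ 1) :
    (∑ i ∈ I, l * (1 - u) ^ G i) / 2 * μ.real B ≤ μ.real (B ∩ (DB A t I G ∪ WV V t (4 * W))) := by
  classical
  have hB' : MeasurableSet B := ℱ.le t _ hB
  have hW' : MeasurableSet (WV V t (4 * W)) := ℱ.le _ _ (WV_meas hV t (4 * W))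
  have hc0 : 0 ≤ ∑ i ∈ I, l * (1 - u) ^ G i := Finset.sum_nonneg fun i _ => mul_nonneg hl0 (pow_nonneg (by linarith) _)
  have hdisj : (I : Set ℕ).PairwiseDisjoint (fun i => GG A V B t i (G i)) := by
    intro i hi i' hi' hne
    have key : ∀ a b : ℕ, a ∈ I → b ∈ I → a < b → Disjoint (GG A V B t a (G a)) (GG A V B t b (G b)) := by
      intro a b ha hb hab
      have hb1 := hI b hb
      have hb2 := hG1 a ha
      rw [Set.disjoint_left]
      intro ω h1 h2
      have h3 := GG_sub0 A V B t b (G b) h2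
      refine GG_not A V B t a (b - a - 1) (G a) (by omega) h1 ⟨?_, ?_⟩
      · have h4 : a + 1 + (b - a - 1) = b := by omega
        rw [h4]
        exact h3.1.2
      · have h4 : t + a + 1 + (b - a - 1) + 1 = t + b + 1 := by omega
        rw [h4]
        exact h3.2
    rcases lt_or_gt_of_ne hne with h | h
    · exact key _ _ hi hi' h
    · exact (key _ _ hi' hi h).symm
  have hsub : (⋃ i ∈ I, GG A V B t i (G i)) ⊆ B ∩ (DB A t I G ∪ WV V t (4 * W)) := by
    intro ω hω
    rw [mem_iUnion₂] at hω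
    obtain ⟨i, hi, h1⟩ := hω
    have hi1 := hI i hi
    have hi3 := hG3 i hi
    have h2 := GG_sub0 A V B t i (G i) h1
    refine ⟨h2.1.1, ?_⟩
    by_cases hW : ω ∈ WV V t (4 * W)
    · exact Or.inr hW
    · left
      refine ⟨i, hi, h2.2, fun j hj hin => ?_⟩
      refine GG_not A V B t i j (G i) hj h1 ⟨?_, hin⟩
      intro n hn1 hn2 hnV
      exact hW ⟨n, hn1, by omega, hnV⟩
  have hsum : μ.real (⋃ i ∈ I, GG A V B t i (G i)) = ∑ i ∈ I, μ.real (GG A V B t i (G i)) := by
    apply measureReal_biUnion_finset hdisj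
    intro i _
    exact ℱ.le _ _ (GG_meas hA hV hB i (G i))
  have hlow : ∀ i ∈ I, (l * (1 - u) ^ G i) * μ.real (B \ WV V t (4 * W)) ≤ μ.real (GG A V B t i (G i)) := by
    intro i hi
    have hi1 := hI i hi
    have hi3 := hG3 i hi
    refine le_trans ?_ (GG_ge (μ := μ) hA hV hB (l := l) hu0 hu1 i (G i) ?_ (G i) le_rfl)
    · apply mul_le_mul_of_nonneg_left _ (mul_nonneg hl0 (pow_nonneg (by linarith) _))
      apply measureReal_mono
      · rintro ω ⟨h1, h2⟩
        refine ⟨h1, fun n hn1 hn2 hnV => h2 ⟨n, hn1, by omega, hnV⟩⟩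
      · exact measure_ne_top _ _
    · intro n hn1 hn2
      exact hlu n hn1 (by omega)
  have h1 : (∑ i ∈ I, l * (1 - u) ^ G i) * μ.real (B \ WV V t (4 * W)) ≤ μ.real (B ∩ (DB A t I G ∪ WV V t (4 * W))) := by
    calc (∑ i ∈ I, l * (1 - u) ^ G i) * μ.real (B \ WV V t (4 * W))
        = ∑ i ∈ I, (l * (1 - u) ^ G i) * μ.real (B \ WV V t (4 * W)) := by rw [Finset.sum_mul]
      _ ≤ ∑ i ∈ I, μ.real (GG A V B t i (G i)) := Finset.sum_le_sum hlow
      _ = μ.real (⋃ i ∈ I, GG A V B t i (G i)) := hsum.symm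
      _ ≤ _ := measureReal_mono hsub (measure_ne_top _ _)
  have h2 : μ.real (B ∩ WV V t (4 * W)) ≤ μ.real (B ∩ (DB A t I G ∪ WV V t (4 * W))) :=
    measureReal_mono (inter_subset_inter_right _ subset_union_right) (measure_ne_top _ _)
  have h3 := measureReal_inter_add_sdiff (μ := μ) (s := B) hW'
  have h5 : 0 ≤ μ.real (B ∩ WV V t (4 * W)) := measureReal_nonneg
  nlinarith

end Pool.Agent.R528.RM
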