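import Mathlib
import Pool.Agent.R528.RM.Zero

set_option autoImplicit false
set_option linter.unusedSectionVars false

/-! # The zero-one law: divergence -/

open MeasureTheory Filter Set
open scoped ENNReal Topology

namespace Pool.Agent.R528.RM

variable {Ω : Type} {m0 : MeasurableSpace Ω} {μ : Measure Ω} [IsProbabilityMeasure μ]
  {ℱ : Filtration ℕ m0} {A : ℕ → Set Ω}

/-- block lengths -/
noncomputable def Wl (t : ℕ) : ℕ := ⌊Real.log t ^ 2 / 2⌋₊ - 1

/-- block starts -/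
noncomputable def Ts (t₀ : ℕ) : ℕ → ℕ
  | 0 => t₀
  | n + 1 => Ts t₀ n + 4 * Wl (Ts t₀ n)

lemma Wl_mono {a b : ℕ} (ha : 1 ≤ a) (h : a ≤ b) : Wl a ≤ Wl b := by
  unfold Wl
  have h1 : (1 : ℝ) ≤ a := by exact_mod_cast ha
  have h2 : (a : ℝ) ≤ b := by exact_mod_cast h
  have h3 := Real.log_le_log (by linarith) h2
  have h4 : 0 ≤ Real.log (a : ℝ) := Real.log_nonneg h1
  have h5 : ⌊Real.log (a : ℝ) ^ 2 / 2⌋₊ ≤ ⌊Real.log (b : ℝ) ^ 2 / 2⌋₊ := by
    apply Nat.floor_mono
    have := pow_le_pow_left₀ h4 h3 2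
    linarith
  omega

lemma Wl_pos {t : ℕ} (ht : 2 ≤ Real.log t) : 1 ≤ Wl t := by
  unfold Wl
  have h1 : 2 ≤ ⌊Real.log (t : ℝ) ^ 2 / 2⌋₊ := by
    apply Nat.le_floor
    push_cast
    nlinarith
  omega

lemma Ts_ge {t₀ : ℕ} (ht : 2 ≤ Real.log t₀) (n : ℕ) : t₀ + n ≤ Ts t₀ n := by
  have ht0 : 1 ≤ t₀ := by
    by_contra hcon
    have : t₀ = 0 := by omega
    rw [this] at ht
    simp at ht
    linarith
  induction n with
  | zero => simp [Ts]
  | succ n ih =>
    have h1 : Wl t₀ ≤ Wl (Ts t₀ n) := Wl_mono ht0 (by omega)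
    have h2 := Wl_pos ht
    simp only [Ts]
    omega

lemma Ts_mono {t₀ : ℕ} : Monotone (Ts t₀) := by
  apply monotone_nat_of_le_succ
  intro n
  simp only [Ts]
  omega

/-- the parameters of the blocks -/
def Par (K : ℝ) (h : ℕ → ℝ) (t : ℕ) : Prop :=
  1 / (Real.log t + 1 + K) ≤ 1 ∧ 0 ≤ 1 / (Real.log t - K) ∧ 1 / (Real.log t - K) ≤ 1 ∧ 0 ≤ 1 / (Real.log t + 1 + K) ∧
  (∀ n, t ≤ n → n ≤ t + 8 * Wl t + 8 → Real.log t ≤ Real.log n ∧ Real.log n ≤ Real.log t + 1) ∧
  K < Real.log t ∧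
  (∀ m, t ≤ m → m ≤ t + 8 * Wl t + 8 → h m ≤ 7 / 5 * Real.log m ^ 2 →
    Wl t ≤ gn h m ∧ gn h m ≤ 3 * Wl t ∧
    Real.exp (-(4 * (1 + K) + 17)) / 2 * tm h m ≤ 1 / (Real.log t + 1 + K) * (1 - 1 / (Real.log t - K)) ^ gn h m) ∧
  (Wl t : ℝ) * (1 - 1 / (Real.log t - K)) ^ Wl t ≤ 1

lemma par_ev {K : ℝ} (hK : 0 ≤ K) (h : ℕ → ℝ) (hh : ∀ᶠ n : ℕ in atTop, Real.log n ^ 2 / 2 ≤ h n) :
    ∀ᶠ t : ℕ in atTop, Par K h t := by
  obtain ⟨n₀, hn₀⟩ := eventually_atTop.1 hh
  have hlog : ∀ᶠ t : ℕ in atTop, 100 + 4 * K ≤ Real.log t := tendsto_log.eventually_ge_atTop _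
  have hexp : ∀ᶠ x : ℝ in atTop, x ^ 2 * Real.exp 2 ≤ Real.exp (x / 2) := by
    have h1 := (Real.tendsto_exp_div_pow_atTop 2).comp ((tendsto_id (α := ℝ) (x := atTop)).atTop_div_const (show (0 : ℝ) < 2 by norm_num))
    have h2 := h1.eventually_ge_atTop (4 * Real.exp 2)
    filter_upwards [h2, eventually_gt_atTop 0] with x h3 h4
    simp only [Function.comp, id] at h3
    rw [le_div_iff₀ (by positivity)] at h3
    calc x ^ 2 * Real.exp 2 = 4 * Real.exp 2 * (x / 2) ^ 2 := by ring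
      _ ≤ _ := h3
  filter_upwards [eventually_ge_atTop n₀, hlog, log_window4, tendsto_log.eventually hexp] with t ht0 hL hwin hexp
  obtain ⟨ht2, hwin⟩ := hwin
  obtain ⟨L, hLd⟩ : ∃ L, L = Real.log (t : ℝ) := ⟨_, rfl⟩
  rw [← hLd] at hL hwin hexp
  have hW1 : (Wl t : ℝ) ≤ L ^ 2 / 2 - 1 := by
    unfold Wl
    have h1 : 2 ≤ ⌊Real.log (t : ℝ) ^ 2 / 2⌋₊ := by
      apply Nat.le_floor
      push_cast
      rw [← hLd]
      nlinarith
    rw [Nat.cast_sub (by omega), ← hLd]
    have := Nat.floor_le (show 0 ≤ L ^ 2 / 2 by positivity)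
    push_cast
    linarith
  have hW2 : L ^ 2 / 2 - 2 ≤ (Wl t : ℝ) := by
    unfold Wl
    have h1 : 2 ≤ ⌊Real.log (t : ℝ) ^ 2 / 2⌋₊ := by
      apply Nat.le_floor
      push_cast
      rw [← hLd]
      nlinarith
    rw [Nat.cast_sub (by omega), ← hLd]
    have := Nat.lt_floor_add_one (L ^ 2 / 2)
    push_cast
    linarith
  have hwin' : ∀ n, t ≤ n → n ≤ t + 8 * Wl t + 8 → L ≤ Real.log n ∧ Real.log n ≤ L + 1 := by
    intro n hn1 hn2
    apply hwin n hn1
    have h1 : (n : ℝ) ≤ t + 8 * Wl t + 8 := by exact_mod_cast hn2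
    nlinarith
  unfold Par
  rw [← hLd]
  have hu0 : 0 < L - K := by linarith
  refine ⟨?_, ?_, ?_, ?_, hwin', by linarith, ?_, ?_⟩
  · rw [div_le_one (by linarith)]
    linarith
  · positivity
  · rw [div_le_one hu0]
    linarith
  · have : 0 < L + 1 + K := by linarith
    positivity
  · intro m hm1 hm2 hhm
    obtain ⟨b1, b2⟩ := hwin' m hm1 hm2
    obtain ⟨M, hM⟩ : ∃ M, M = Real.log (m : ℝ) := ⟨_, rfl⟩
    have hlow := hn₀ m (by omega)
    rw [← hM] at b1 b2 hhm hlow
    have hhpos : 1 < h m := by nlinarith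
    have hg1 : h m - 1 ≤ gn h m := by
      unfold gn
      have h0 : 1 ≤ ⌈h m⌉₊ := Nat.one_le_ceil_iff.2 (by linarith)
      rw [Nat.cast_sub h0]
      have := Nat.le_ceil (h m)
      push_cast
      linarith
    have hg2 : (gn h m : ℝ) ≤ h m := by
      unfold gn
      have h0 : 1 ≤ ⌈h m⌉₊ := Nat.one_le_ceil_iff.2 (by linarith)
      rw [Nat.cast_sub h0]
      have := (Nat.ceil_lt_add_one (show 0 ≤ h m by linarith)).le
      push_cast
      linarith
    have hg3 : (gn h m : ℝ) ≤ 7 / 5 * (L + 1) ^ 2 := by nlinarith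
    refine ⟨?_, ?_, ?_⟩
    · have : (Wl t : ℝ) ≤ gn h m := by nlinarith
      exact_mod_cast this
    · have : (gn h m : ℝ) ≤ 3 * Wl t := by nlinarith
      exact_mod_cast this
    · obtain ⟨u, hu⟩ : ∃ u, u = 1 / (L - K) := ⟨_, rfl⟩
      have hu1 : 0 < u := by rw [hu]; positivity
      have hu2 : u ≤ 2 / L := by
        rw [hu, div_le_div_iff₀ hu0 (by linarith)]
        linarith
      have hL0 : 0 < L := by linarith
      have hu4 : u ≤ 1 / 4 := by
        refine hu2.trans ?_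
        rw [div_le_div_iff₀ hL0 (by norm_num)]
        linarith
      rw [← hu]
      have hpos : 0 < 1 - u := by linarith
      have k1 : 1 - (1 - u)⁻¹ ≤ Real.log (1 - u) := Real.one_sub_inv_le_log_of_pos hpos
      have k2 : (1 - u)⁻¹ ≤ 1 + u + 2 * u ^ 2 := by
        rw [inv_le_iff_one_le_mul₀ hpos]
        nlinarith [mul_nonneg (sq_nonneg u) (show 0 ≤ 1 - 2 * u by linarith)]
      have k3 : -(u + 2 * u ^ 2) ≤ Real.log (1 - u) := by linarith
      have k4 : (1 - u) ^ gn h m = Real.exp (gn h m * Real.log (1 - u)) := by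
        rw [Real.exp_nat_mul, Real.exp_log hpos]
      -- the exponent
      have k5 : (gn h m : ℝ) * (u + 2 * u ^ 2) ≤ h m / M + (4 * (1 + K) + 17) := by
        have g0 : (gn h m : ℝ) ≤ 2 * L ^ 2 := by nlinarith
        have g1 : u - 1 / (L + 1) ≤ 2 * (1 + K) / L ^ 2 := by
          have e : u - 1 / (L + 1) = (1 + K) / ((L - K) * (L + 1)) := by
            rw [hu]
            field_simp
            ring
          rw [e, div_le_div_iff₀ (by positivity) (by positivity)]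
          have g2 : L ^ 2 ≤ 2 * ((L - K) * (L + 1)) := by nlinarith
          nlinarith
        have g2 : (gn h m : ℝ) * (u - 1 / (L + 1)) ≤ 4 * (1 + K) := by
          calc (gn h m : ℝ) * (u - 1 / (L + 1)) ≤ gn h m * (2 * (1 + K) / L ^ 2) :=
                mul_le_mul_of_nonneg_left g1 (Nat.cast_nonneg _)
            _ ≤ (2 * L ^ 2) * (2 * (1 + K) / L ^ 2) := mul_le_mul_of_nonneg_right g0 (by positivity)
            _ = 4 * (1 + K) := by field_simp; ring
        have g3 : (gn h m : ℝ) * (2 * u ^ 2) ≤ 16 := by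
          have g4 : u ^ 2 ≤ (2 / L) ^ 2 := pow_le_pow_left₀ hu1.le hu2 2
          calc (gn h m : ℝ) * (2 * u ^ 2) ≤ (2 * L ^ 2) * (2 * (2 / L) ^ 2) :=
                mul_le_mul g0 (by linarith) (by positivity) (by positivity)
            _ = 16 := by field_simp; norm_num
        have g4 : (gn h m : ℝ) * (1 / (L + 1)) ≤ h m / M := by
          rw [mul_one_div, div_le_div_iff₀ (by linarith) (by linarith)]
          have : (gn h m : ℝ) * M ≤ h m * M := mul_le_mul_of_nonneg_right hg2 (by linarith)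
          nlinarith
        nlinarith
      have k6 : Real.exp (-(h m / M + (4 * (1 + K) + 17))) ≤ (1 - u) ^ gn h m := by
        rw [k4]
        apply Real.exp_le_exp.2
        have : (gn h m : ℝ) * -(u + 2 * u ^ 2) ≤ gn h m * Real.log (1 - u) :=
          mul_le_mul_of_nonneg_left k3 (Nat.cast_nonneg _)
        linarith
      have k7 : 1 / M / 2 ≤ 1 / (L + 1 + K) := by
        rw [div_div, div_le_div_iff₀ (by linarith) (by linarith)]
        linarith
      have k8 : tm h m = Real.exp (-(h m / M)) / M := by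
        unfold tm
        rw [hM]
      rw [k8]
      have k9 : Real.exp (-(4 * (1 + K) + 17)) / 2 * (Real.exp (-(h m / M)) / M) =
          (1 / M / 2) * Real.exp (-(h m / M + (4 * (1 + K) + 17))) := by
        rw [show -(h m / M + (4 * (1 + K) + 17)) = -(4 * (1 + K) + 17) + -(h m / M) by ring, Real.exp_add]
        ring
      rw [k9]
      exact mul_le_mul k7 k6 (Real.exp_pos _).le (by
        have : 0 < L + 1 + K := by linarith
        positivity)
  · obtain ⟨u, hu⟩ : ∃ u, u = 1 / (L - K) := ⟨_, rfl⟩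
    rw [← hu]
    have hL0 : 0 < L := by linarith
    have hu1 : 1 / L ≤ u := by
      rw [hu]
      exact one_div_le_one_div_of_le hu0 (by linarith)
    have hu2 : u ≤ 1 := by
      rw [hu, div_le_one hu0]
      linarith
    have h1 : (1 - u) ^ Wl t ≤ Real.exp (-(L / 2 - 2)) := by
      have h3 : 1 - u ≤ Real.exp (-u) := by
        have := Real.add_one_le_exp (-u)
        linarith
      refine (pow_le_pow_left₀ (by linarith) h3 _).trans ?_
      rw [← Real.exp_nat_mul]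
      apply Real.exp_le_exp.2
      have h4 : (L ^ 2 / 2 - 2) * (1 / L) ≤ (Wl t : ℝ) * u :=
        mul_le_mul hW2 hu1 (by positivity) (Nat.cast_nonneg _)
      have h5 : (L ^ 2 / 2 - 2) * (1 / L) = L / 2 - 2 / L := by field_simp
      have h6 : 2 / L ≤ 2 := div_le_self (by norm_num) (by linarith)
      linarith
    have h2 : (Wl t : ℝ) ≤ L ^ 2 := by nlinarith
    calc (Wl t : ℝ) * (1 - u) ^ Wl t ≤ L ^ 2 * Real.exp (-(L / 2 - 2)) :=
          mul_le_mul h2 h1 (pow_nonneg (by linarith) _) (by positivity)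
      _ = (L ^ 2 * Real.exp 2) * Real.exp (-(L / 2)) := by
          rw [show -(L / 2 - 2) = 2 + -(L / 2) by ring, Real.exp_add]
          ring
      _ ≤ Real.exp (L / 2) * Real.exp (-(L / 2)) := mul_le_mul_of_nonneg_right hexp (Real.exp_pos _).le
      _ = 1 := by rw [← Real.exp_add, add_neg_cancel, Real.exp_zero]

open Classical in
/-- the restricted terms -/
noncomputable def tr (h : ℕ → ℝ) (m : ℕ) : ℝ := if h m ≤ 7 / 5 * Real.log m ^ 2 then tm h m else 0

lemma tr_nonneg (h : ℕ → ℝ) (m : ℕ) : 0 ≤ tr h m := by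
  unfold tr
  split_ifs
  · exact tm_nonneg h m
  · exact le_rfl

lemma tr_not (h : ℕ → ℝ) (hs : ¬ Summable (tm h)) : ¬ Summable (tr h) := by
  intro hr
  apply hs
  have h1 : Summable (fun n : ℕ => tr h n + 1 / (n : ℝ) ^ (7 / 5 : ℝ)) :=
    hr.add (Real.summable_one_div_nat_rpow.2 (by norm_num))
  refine Summable.of_norm_bounded_eventually_nat h1 ?_
  filter_upwards [tendsto_log.eventually_ge_atTop 1, eventually_ge_atTop 1] with n hn hn1
  rw [Real.norm_of_nonneg (tm_nonneg h n)]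
  unfold tr
  have hn0 : (0 : ℝ) < n := by exact_mod_cast hn1
  split_ifs with hc
  · have : 0 ≤ 1 / (n : ℝ) ^ (7 / 5 : ℝ) := by positivity
    linarith
  · push Not at hc
    rw [zero_add]
    unfold tm
    have h2 : Real.exp (-(h n / Real.log n)) / Real.log n ≤ Real.exp (-(h n / Real.log n)) :=
      div_le_self (Real.exp_pos _).le hn
    refine h2.trans ?_
    have h3 : 1 / (n : ℝ) ^ (7 / 5 : ℝ) = Real.exp (-(7 / 5 * Real.log n)) := by
      rw [Real.rpow_def_of_pos hn0, one_div, ← Real.exp_neg]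
      congr 1
      ring
    rw [h3]
    apply Real.exp_le_exp.2
    rw [neg_le_neg_iff, le_div_iff₀ (by linarith)]
    nlinarith

lemma sum_blocks (f : ℕ → ℝ) (t₀ n : ℕ) :
    ∑ j ∈ Finset.range n, ∑ c ∈ Finset.range 4, ∑ i ∈ Finset.range (Wl (Ts t₀ j)), f (Ts t₀ j + c * Wl (Ts t₀ j) + i + 1) =
      ∑ m ∈ Finset.Ico (t₀ + 1) (Ts t₀ n + 1), f m := by
  induction n with
  | zero => simp [Ts]
  | succ n ih =>
    rw [Finset.sum_range_succ, ih]
    have h1 : Ts t₀ 0 ≤ Ts t₀ n := Ts_mono (Nat.zero_le n)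
    have h2 : t₀ ≤ Ts t₀ n := h1
    have h3 : Ts t₀ (n + 1) = Ts t₀ n + 4 * Wl (Ts t₀ n) := rfl
    rw [h3, ← Finset.sum_Ico_consecutive f (show t₀ + 1 ≤ Ts t₀ n + 1 by omega)
      (show Ts t₀ n + 1 ≤ Ts t₀ n + 4 * Wl (Ts t₀ n) + 1 by omega)]
    congr 1
    obtain ⟨T, hT⟩ : ∃ T, T = Ts t₀ n := ⟨_, rfl⟩
    obtain ⟨W, hW⟩ : ∃ W, W = Wl (Ts t₀ n) := ⟨_, rfl⟩
    rw [← hW, ← hT]
    have key : ∀ c, ∑ i ∈ Finset.range W, f (T + c * W + i + 1) = ∑ m ∈ Finset.Ico (T + c * W + 1) (T + (c + 1) * W + 1), f m := by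
      intro c
      rw [Finset.sum_Ico_eq_sum_range]
      have e : T + (c + 1) * W + 1 - (T + c * W + 1) = W := by
        have : (c + 1) * W = c * W + W := by ring
        omega
      rw [e]
      apply Finset.sum_congr rfl
      intro i _
      congr 1
      ring
    simp only [Finset.sum_range_succ, Finset.sum_range_zero, zero_add]
    rw [key 0, key 1, key 2, key 3]
    rw [Finset.sum_Ico_consecutive f (by omega) (by omega), Finset.sum_Ico_consecutive f (by omega) (by omega),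
      Finset.sum_Ico_consecutive f (by omega) (by omega)]
    congr 1
    congr 1
    ring

/-- one of the four classes carries a divergent part of the series -/
lemma class_div (f : ℕ → ℝ) (hf : ∀ m, 0 ≤ f m) (hs : ¬ Summable f) {t₀ : ℕ} (ht : 2 ≤ Real.log t₀) :
    ∃ c < 4, ¬ Summable (fun j => ∑ i ∈ Finset.range (Wl (Ts t₀ j)), f (Ts t₀ j + c * Wl (Ts t₀ j) + i + 1)) := by
  by_contra hcon
  push Not at hcon
  apply hs
  have h1 : Summable (fun j => ∑ c ∈ Finset.range 4, ∑ i ∈ Finset.range (Wl (Ts t₀ j)), f (Ts t₀ j + c * Wl (Ts t₀ j) + i + 1)) :=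
    summable_sum fun c hc => hcon c (Finset.mem_range.1 hc)
  have h2 : Summable (fun m => f (m + (t₀ + 1))) := by
    apply summable_of_sum_range_le (c := ∑' j, ∑ c ∈ Finset.range 4, ∑ i ∈ Finset.range (Wl (Ts t₀ j)), f (Ts t₀ j + c * Wl (Ts t₀ j) + i + 1))
      (fun m => hf _)
    intro n
    have h3 := h1.sum_le_tsum (Finset.range n) (fun j _ => Finset.sum_nonneg fun c _ => Finset.sum_nonneg fun i _ => hf _)
    rw [sum_blocks] at h3
    refine le_trans ?_ h3
    have h4 : ∑ i ∈ Finset.range n, f (i + (t₀ + 1)) = ∑ m ∈ Finset.Ico (t₀ + 1) (t₀ + 1 + n), f m := by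
      rw [Finset.sum_Ico_eq_sum_range]
      have e : t₀ + 1 + n - (t₀ + 1) = n := by omega
      rw [e]
      apply Finset.sum_congr rfl
      intro i _
      congr 1
      ring
    rw [h4]
    apply Finset.sum_le_sum_of_subset_of_nonneg
    · apply Finset.Ico_subset_Ico_right
      have := Ts_ge ht n
      omega
    · intro m _ _
      exact hf m
  exact (summable_nat_add_iff (t₀ + 1)).1 h2

open Classical in
/-- **divergence**: infinitely many members are followed by a long run -/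
theorem zero_io (hA : ∀ n, MeasurableSet[ℱ n] (A n)) {K : ℝ} (hK : 0 ≤ K) (h : ℕ → ℝ)
    (hh : ∀ᶠ n : ℕ in atTop, Real.log n ^ 2 / 2 ≤ h n) (hs : ¬ Summable (tm h)) :
    ∀ᵐ ω ∂μ, (∃ n₀ : ℕ, ∀ n, n₀ ≤ n → ω ∉ VK μ ℱ A K n) → ∀ N : ℕ, ∃ m, N ≤ m ∧ ω ∈ A m ∧
      ∀ j : ℕ, 1 ≤ j → j ≤ gn h m → ω ∉ A (m + j) := by
  set V := VK μ ℱ A K with hV
  obtain ⟨t₁, ht₁⟩ := eventually_atTop.1 ((par_ev hK h hh).and (tendsto_log.eventually_ge_atTop 2))
  -- start
  set t₀ := max t₁ 1 with ht₀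
  have hlog0 : 2 ≤ Real.log t₀ := (ht₁ t₀ (le_max_left _ _)).2
  have hTge : ∀ n, t₀ + n ≤ Ts t₀ n := Ts_ge hlog0
  have hpar : ∀ j, Par K h (Ts t₀ j) := fun j => (ht₁ _ (by
    have := hTge j
    have : t₁ ≤ t₀ := le_max_left _ _
    omega)).1
  obtain ⟨c, hc4, hcdiv⟩ := class_div (tr h) (tr_nonneg h) (tr_not h hs) hlog0
  -- the shifted starts
  set W : ℕ → ℕ := fun j => Wl (Ts t₀ j) with hW
  set T : ℕ → ℕ := fun j => Ts t₀ j + c * W j with hT
  have hWmono : ∀ j, W j ≤ W (j + 1) := fun j => Wl_mono (by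
    have := hTge j
    have : 1 ≤ t₀ := le_max_right _ _
    omega) (Ts_mono (Nat.le_succ j))
  have hTstep : ∀ j, T j + 4 * W j ≤ T (j + 1) := by
    intro j
    have h1 : Ts t₀ (j + 1) = Ts t₀ j + 4 * Wl (Ts t₀ j) := rfl
    have h2 : c * W j ≤ c * W (j + 1) := Nat.mul_le_mul_left _ (hWmono j)
    simp only [hT, hW] at h2 ⊢
    omega
  have hTmono : Monotone T := monotone_nat_of_le_succ fun j => by have := hTstep j; omega
  have hTW : ∀ j m, T j ≤ m → m ≤ T j + 4 * W j → Ts t₀ j ≤ m ∧ m ≤ Ts t₀ j + 8 * Wl (Ts t₀ j) + 8 := by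
    intro j m h1 h2
    have h3 : c * W j ≤ 4 * W j := Nat.mul_le_mul_right _ hc4.le
    simp only [hT, hW] at h1 h2 h3
    constructor <;> omega
  set I : ℕ → Finset ℕ := fun j => (Finset.range (W j)).filter (fun i => h (T j + i + 1) ≤ 7 / 5 * Real.log ((T j + i + 1 : ℕ) : ℝ) ^ 2) with hI
  set G : ℕ → ℕ → ℕ := fun j i => gn h (T j + i + 1) with hG
  set κ : ℝ := Real.exp (-(4 * (1 + K) + 17)) / 4 with hκ
  have hκ0 : 0 < κ := by positivity
  have hmI : ∀ j, ∀ i ∈ I j, i < W j ∧ h (T j + i + 1) ≤ 7 / 5 * Real.log ((T j + i + 1 : ℕ) : ℝ) ^ 2 := by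
    intro j i hi
    have := Finset.mem_filter.1 hi
    exact ⟨Finset.mem_range.1 this.1, this.2⟩
  have hGfacts : ∀ j, ∀ i ∈ I j, W j ≤ G j i ∧ G j i ≤ 3 * W j ∧
      Real.exp (-(4 * (1 + K) + 17)) / 2 * tm h (T j + i + 1) ≤
        1 / (Real.log (Ts t₀ j) + 1 + K) * (1 - 1 / (Real.log (Ts t₀ j) - K)) ^ G j i := by
    intro j i hi
    obtain ⟨h1, h2⟩ := hmI j i hi
    obtain ⟨_, _, _, _, _, _, h3, _⟩ := hpar j
    obtain ⟨h4, h5⟩ := hTW j (T j + i + 1) (by omega) (by omega)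
    exact h3 _ h4 h5 h2
  have hmain := io_scales (μ := μ) (ℱ := ℱ) hTmono
    (D := fun j => DB A (T j) (I j) (G j) ∪ WV V (T j) (4 * W j)) (j₀ := 0)
    (by
      intro j _
      refine ℱ.mono (hTstep j) _ ?_
      exact @MeasurableSet.union _ (ℱ (T j + 4 * W j)) _ _
        (DB_meas hA (T j) (W j) (I j) (G j) (fun i hi => (hmI j i hi).1) (fun i hi => (hGfacts j i hi).2.1))
        (WV_meas (fun n => VK_meas K n) _ _))
    (fun j => κ * ∑ i ∈ Finset.range (W j), tr h (T j + i + 1))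
    (by
      intro j _ C hC
      obtain ⟨p1, p2, p3, p4, p5, p6, p7, p8⟩ := hpar j
      obtain ⟨l, hl⟩ : ∃ l, l = 1 / (Real.log (Ts t₀ j) + 1 + K) := ⟨_, rfl⟩
      obtain ⟨u, hu⟩ : ∃ u, u = 1 / (Real.log (Ts t₀ j) - K) := ⟨_, rfl⟩
      rw [← hl] at p1 p4
      rw [← hu] at p2 p3 p8
      have hsum1 : ∑ i ∈ I j, l * (1 - u) ^ G j i ≤ 1 := by
        have h1 : ∀ i ∈ I j, l * (1 - u) ^ G j i ≤ (1 - u) ^ W j := by
          intro i hi
          have h2 := (hGfacts j i hi).1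
          have h3 : (1 - u) ^ G j i ≤ (1 - u) ^ W j := pow_le_pow_of_le_one (by linarith) (by linarith) h2
          have h4 : 0 ≤ (1 - u) ^ G j i := pow_nonneg (by linarith) _
          nlinarith
        have h2 := Finset.sum_le_card_nsmul _ _ _ h1
        rw [nsmul_eq_mul] at h2
        refine h2.trans (le_trans ?_ p8)
        apply mul_le_mul_of_nonneg_right _ (pow_nonneg (by linarith) _)
        have h3 : (I j).card ≤ W j := (Finset.card_filter_le _ _).trans (by rw [Finset.card_range])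
        exact_mod_cast h3
      have h1 := block2 (μ := μ) hA (V := V) (fun n => VK_meas K n) hC p4 p2 p3 (W j) (I j) (G j)
        (fun i hi => (hmI j i hi).1) (fun i hi => (hGfacts j i hi).1) (fun i hi => (hGfacts j i hi).2.1) (by
          intro n hn1 hn2 ω hω
          obtain ⟨g1, g2⟩ := hTW j n hn1 hn2.le
          obtain ⟨g3, g4⟩ := p5 n g1 g2
          have := VK_bounds p6 g3 g4 hω
          rw [hl, hu]
          exact this) hsum1
      refine le_trans (mul_le_mul_of_nonneg_right ?_ measureReal_nonneg) h1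
      -- comparison of the sums
      have h2 : ∑ i ∈ Finset.range (W j), tr h (T j + i + 1) = ∑ i ∈ I j, tm h (T j + i + 1) := by
        rw [hI, Finset.sum_filter]
        apply Finset.sum_congr rfl
        intro i _
        unfold tr
        rfl
      rw [h2, Finset.mul_sum, Finset.sum_div]
      apply Finset.sum_le_sum
      intro i hi
      have h3 := (hGfacts j i hi).2.2
      rw [← hl, ← hu] at h3
      rw [hκ]
      linarith)
    (by
      intro j₁ _
      have h1 : ¬ Summable (fun j => κ * ∑ i ∈ Finset.range (W j), tr h (T j + i + 1)) := by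
        rw [summable_mul_left_iff hκ0.ne']
        exact hcdiv
      have h2 : ¬ Summable (fun j => κ * ∑ i ∈ Finset.range (W (j + j₁)), tr h (T (j + j₁) + i + 1)) := by
        intro h3
        exact h1 ((summable_nat_add_iff j₁).1 h3)
      rw [not_summable_iff_tendsto_nat_atTop_of_nonneg (fun j => mul_nonneg hκ0.le (Finset.sum_nonneg fun i _ => tr_nonneg h _))] at h2
      refine h2.congr fun n => ?_
      apply Finset.sum_congr rfl
      intro i _
      rw [add_comm i j₁])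
  filter_upwards [hmain] with ω hω hnV N
  obtain ⟨n₀, hn₀⟩ := hnV
  obtain ⟨j, hj, _, hD⟩ := hω (max N n₀)
  have hTj : j ≤ T j := by
    have := hTge j
    simp only [hT]
    omega
  have hN : N ≤ T j := (le_max_left _ _).trans (hj.trans hTj)
  have hn0 : n₀ ≤ T j := (le_max_right _ _).trans (hj.trans hTj)
  rcases hD with hD | ⟨n, hn1, _, hn3⟩
  · obtain ⟨i, hi, h1, h2⟩ := hD
    refine ⟨T j + i + 1, by omega, h1, fun r hr1 hr2 => ?_⟩
    have h3 := h2 (r - 1) (by simp only [hG]; omega)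
    have h4 : T j + i + 1 + (r - 1) + 1 = T j + i + 1 + r := by omega
    rwa [h4] at h3
  · exact absurd hn3 (hn₀ n (by omega))

end Pool.Agent.R528.RM
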