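import Mathlib
import Pool.Agent.R528.RM.Zero2

set_option autoImplicit false
set_option linter.unusedSectionVars false

/-! # The zero-one law -/

open MeasureTheory Filter Set
open scoped ENNReal Topology

namespace Pool.Agent.R528.RM

variable {Ω : Type} {m0 : MeasurableSpace Ω} {μ : Measure Ω} [IsProbabilityMeasure μ]
  {ℱ : Filtration ℕ m0} {A : ℕ → Set Ω}

lemma ev_half : ∀ᶠ L : ℝ in atTop, (L + 2) ^ 2 / 2 ≤ crL 2 L := by
  have h1 : ∀ᶠ x : ℝ in atTop, 3 * Real.log x ≤ x / 4 := by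
    have := (Real.isLittleO_log_id_atTop).def (show (0 : ℝ) < 1 / 12 by norm_num)
    filter_upwards [this, eventually_ge_atTop (1 : ℝ)] with x h h'
    rw [Real.norm_of_nonneg (Real.log_nonneg h'), id, Real.norm_of_nonneg (by linarith)] at h
    linarith
  filter_upwards [h1, eventually_ge_atTop (100 : ℝ)] with L h1 hL
  have h2 : ll L ≤ Real.log L - 1 := Real.log_le_sub_one_of_pos (Real.log_pos (by linarith))
  have h3 : L ^ 2 - L * (Real.log L + 2 * ll L) < crL 2 L + 1 := Nat.lt_floor_add_one _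
  have h4 : L * (Real.log L + 2 * ll L) ≤ L * (L / 4) := mul_le_mul_of_nonneg_left (by linarith) (by linarith)
  nlinarith

/-- **the zero-one law for admissible functions** -/
theorem zero_one (hA : ∀ n, MeasurableSet[ℱ n] (A n))
    (hd : ∀ᵐ ω ∂μ, ∃ K : ℝ, ∀ᶠ n : ℕ in atTop, |(dens μ ℱ A n ω)⁻¹ - Real.log n| ≤ K)
    (h : ℕ → ℝ) (hmono : Monotone h) :
    ∀ᵐ ω ∂μ, ((∀ᶠ n : ℕ in atTop, ∃ a, ω ∈ A a ∧ n < a ∧ (a : ℝ) < n + h n) ↔ Summable (tm h)) := by
  have hd' : ∀ᵐ ω ∂μ, Tendsto (fun n : ℕ => ((dens μ ℱ A n ω)⁻¹ - Real.log n) /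
      Real.log (Real.log (Real.log n))) atTop (𝓝 0) := by
    filter_upwards [hd] with ω hω
    obtain ⟨K, hK⟩ := hω
    have h1 : Tendsto (fun n : ℕ => K / ll (Real.log n)) atTop (𝓝 0) := tendsto_lll.const_div_atTop K
    refine squeeze_zero_norm' ?_ h1
    filter_upwards [hK, tendsto_lll.eventually_gt_atTop 0] with n h2 h3
    rw [norm_div, Real.norm_eq_abs, Real.norm_eq_abs]
    have e : Real.log (Real.log (Real.log n)) = ll (Real.log n) := rfl
    rw [e, abs_of_pos h3]
    exact div_le_div_of_nonneg_right h2 h3.le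
  have hnv : ∀ᵐ ω ∂μ, ∃ K : ℕ, ∃ n₀ : ℕ, ∀ n, n₀ ≤ n → ω ∉ VK μ ℱ A (K : ℝ) n := by
    filter_upwards [hd] with ω hω
    obtain ⟨K, hK⟩ := hω
    obtain ⟨K', hK'⟩ := exists_nat_ge K
    obtain ⟨n₀, hn₀⟩ := eventually_atTop.1 hK
    refine ⟨K', n₀, fun n hn => ?_⟩
    simp only [VK, mem_ofPred_eq, not_not]
    exact (hn₀ n hn).trans hK'
  by_cases hs : Summable (tm h)
  · have h1 : ∀ K : ℕ, _ := fun K : ℕ => zero_fin (μ := μ) (ℱ := ℱ) hA (K := (K : ℝ)) (Nat.cast_nonneg K) h hs
    filter_upwards [hnv, ae_all_iff.2 h1, second_order (μ := μ) hA hd'] with ω hnv h1 h2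
    refine ⟨fun _ => hs, fun _ => ?_⟩
    obtain ⟨K, hK⟩ := hnv
    obtain ⟨N, hN⟩ := h1 K hK
    obtain ⟨hinf, _⟩ := h2
    obtain ⟨S, hS⟩ : ∃ S : Set ℕ, S = rset A ω := ⟨_, rfl⟩
    have hmem : ∀ k, k ∈ S ↔ ω ∈ A k := fun k => by rw [hS]; rfl
    rw [← hS] at hinf
    filter_upwards [eventually_ge_atTop (pn S N)] with n hn
    -- the largest member up to `n`
    have hex : ∃ m, pn S m ≤ n ∧ n < pn S (m + 1) := by
      by_contra hcon
      push Not at hcon
      have h3 : ∀ m, N ≤ m → pn S m ≤ n := by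
        intro m hm
        induction m, hm using Nat.le_induction with
        | base => exact hn
        | succ m _ ih => exact hcon m ih
      have h4 := h3 (max N (n + 1)) (le_max_left _ _)
      have h5 : max N (n + 1) ≤ pn S (max N (n + 1)) := (nth_mono hinf).le_apply
      have h6 := le_max_right N (n + 1)
      omega
    obtain ⟨m, hm1, hm2⟩ := hex
    have hmN : N ≤ pn S m := by
      have h3 : N ≤ m := by
        by_contra hcon
        push Not at hcon
        have h4 : pn S (m + 1) ≤ pn S N := (nth_mono hinf).monotone hcon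
        omega
      exact h3.trans (nth_mono hinf).le_apply
    obtain ⟨a, ha1, ha2, ha3⟩ := hN (pn S m) hmN ((hmem _).1 (nth_mem hinf m))
    obtain ⟨r, hr⟩ := exists_nth ((hmem a).2 ha3)
    have h3 : m < r := by
      rw [← (nth_mono hinf).lt_iff_lt, hr]
      exact ha1
    have h4 : pn S (m + 1) ≤ a := by
      rw [← hr]
      exact (nth_mono hinf).monotone h3
    refine ⟨a, ha3, by omega, ha2.trans_le ?_⟩
    have h5 : (pn S m : ℝ) ≤ n := by exact_mod_cast hm1
    have h6 := hmono hm1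
    linarith
  · have hneg : ∀ᵐ ω ∂μ, ¬ (∀ᶠ n : ℕ in atTop, ∃ a, ω ∈ A a ∧ n < a ∧ (a : ℝ) < n + h n) := by
      by_cases hh : ∀ᶠ n : ℕ in atTop, Real.log n ^ 2 / 2 ≤ h n
      · have h1 : ∀ K : ℕ, _ := fun K : ℕ => zero_io (μ := μ) (ℱ := ℱ) hA (K := (K : ℝ)) (Nat.cast_nonneg K) h hh hs
        filter_upwards [hnv, ae_all_iff.2 h1] with ω hnv h1 hcon
        obtain ⟨K, hK⟩ := hnv
        obtain ⟨N, hN⟩ := eventually_atTop.1 hcon
        obtain ⟨m, hm1, _, hm3⟩ := h1 K hK N
        obtain ⟨a, ha1, ha2, ha3⟩ := hN m hm1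
        refine hm3 (a - m) (by omega) ?_ (by rwa [show m + (a - m) = a by omega])
        unfold gn
        have h2 : ((a - m : ℕ) : ℝ) < h m := by
          rw [Nat.cast_sub ha2.le]
          linarith
        rw [← Nat.lt_ceil] at h2
        omega
      · have hf : ∃ᶠ n : ℕ in atTop, h n < Real.log n ^ 2 / 2 := by
          rw [Filter.not_eventually] at hh
          exact hh.mono fun n hn => not_le.1 hn
        have h1 := max_low (μ := μ) (ℱ := ℱ) hA (θ := 2) (δ := 1 / 2) (by norm_num) (by norm_num) (by norm_num) (by norm_num)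
        filter_upwards [hd', h1] with ω hd' h1 hcon
        obtain ⟨N, hN⟩ := eventually_atTop.1 hcon
        have h2 := h1 (no_violation hd' (by norm_num))
        obtain ⟨i₀, hi₀⟩ := eventually_atTop.1 (h2.and ((tendsto_iL.eventually ev_half).and
          ((eventually_ge_atTop N).and (tendsto_iL.eventually_ge_atTop 1))))
        obtain ⟨n, hn1, hn2⟩ := (hf.and_eventually (eventually_ge_atTop (2 ^ (i₀ + 1)))).exists
        have hn0 : n ≠ 0 := by
          have : 0 < 2 ^ (i₀ + 1) := by positivity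
          omega
        obtain ⟨q, hq⟩ : ∃ q, q = Nat.log 2 n := ⟨_, rfl⟩
        have hq1 : i₀ + 1 ≤ q := by
          rw [hq]
          exact Nat.le_log_of_pow_le (by norm_num) hn2
        have hq2 : 2 ^ q ≤ n := by rw [hq]; exact Nat.pow_log_le_self 2 hn0
        have hq3 : n < 2 ^ (q + 1) := by rw [hq]; exact Nat.lt_pow_succ_log_self (by norm_num) _
        obtain ⟨i, rfl⟩ : ∃ i, q = i + 1 := ⟨q - 1, by omega⟩
        obtain ⟨⟨k, hk1, hk2, hkA, hk3⟩, h4, h5, h6⟩ := hi₀ i (by omega)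
        have hi2 : i < 2 ^ i := Nat.lt_two_pow_self
        obtain ⟨a, ha1, ha2, ha3⟩ := hN k (by omega)
        refine hk3 (a - k) (by omega) ?_ (by rwa [show k + (a - k) = a by omega])
        have h7 : ((a - k : ℕ) : ℝ) < h k := by
          rw [Nat.cast_sub ha2.le]
          linarith
        have h8 : h k ≤ h n := hmono (by omega)
        have h9 : Real.log n ≤ (i : ℝ) * Real.log 2 + 2 := by
          have g1 : (n : ℝ) ≤ 2 ^ (i + 2) := by exact_mod_cast hq3.le
          have g0 : (0 : ℝ) < n := by exact_mod_cast Nat.pos_of_ne_zero hn0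
          have g2 := Real.log_le_log g0 g1
          rw [Real.log_pow] at g2
          push_cast at g2
          have := log_two_facts.2.1
          linarith
        have h10 : Real.log n ^ 2 ≤ ((i : ℝ) * Real.log 2 + 2) ^ 2 := by
          have : 0 ≤ Real.log n := Real.log_natCast_nonneg n
          exact pow_le_pow_left₀ this h9 2
        have h11 : ((a - k : ℕ) : ℝ) ≤ crL 2 ((i : ℝ) * Real.log 2) := by linarith
        exact_mod_cast h11
    filter_upwards [hneg] with ω hω
    exact ⟨fun h => absurd h hω, fun h => absurd h hs⟩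

end Pool.Agent.R528.RM
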